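import Pool.Agent.Lib.MP_6bd702_perc3.Cyl3

/-!
# The gluing of the three legs on the cylinder: assembly
-/

set_option autoImplicit false

namespace Pool.Agent.Perc.Q

open Finset Pool.Agent.Perc

namespace Cyl3

/-- Three core vertices connected to the three ports. -/
theorem wrap_of_ports {m : ℕ} (hm : 0 < m) {ζ : Cfg} {x : Fin 3 → ℤ} (hx : Function.Injective x)
    (hC : ∀ i, Core (x i)) {r : Fin 3 → ℤ × ℤ}
    (h : ∀ i, ConnW (emC m) (perW m ζ) (strip m) (x i, 0) (r i))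
    (h01 : ConnW (emC m) (perW m ζ) (strip m) (r 0) (TwA.tr m 1 (r 1)))
    (h22 : ConnW (emC m) (perW m ζ) (strip m) (r 2) (TwA.tr m 1 (r 2))) : ζ ∈ Wrap3 m m := by
  have htr : ∀ (y j : ℤ), TwA.tr m j (y, 0) = (y + j * (2 * m + 1), 0) := by
    intro y j
    unfold TwA.tr
    rw [if_pos (by exact le_rfl)]
  have e01 : ConnW (emC m) (perW m ζ) (strip m) (x 0, 0) (x 1 + 1 * (2 * m + 1), 0) := by
    have := TwA.connW_tr hm 1 (h 1)
    rw [htr] at this
    exact ((h 0).trans h01).trans this.symm'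
  have e10 : ConnW (emC m) (perW m ζ) (strip m) (x 1, 0) (x 0 + -1 * (2 * m + 1), 0) := by
    have := TwA.connW_tr hm (-1) e01
    rw [htr, htr] at this
    rw [show x 1 + 1 * (2 * (m : ℤ) + 1) + -1 * (2 * m + 1) = x 1 by ring] at this
    exact this.symm'
  have e22 : ConnW (emC m) (perW m ζ) (strip m) (x 2, 0) (x 2 + 1 * (2 * m + 1), 0) := by
    have := TwA.connW_tr hm 1 (h 2)
    rw [htr] at this
    exact ((h 2).trans h22).trans this.symm'
  have hall : ∀ y, Core y → y = x 0 ∨ y = x 1 ∨ y = x 2 := by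
    intro y hy
    have h0 := hC 0
    have h1 := hC 1
    have h2 := hC 2
    have n01 : x 0 ≠ x 1 := fun h => absurd (hx h) (by decide)
    have n02 : x 0 ≠ x 2 := fun h => absurd (hx h) (by decide)
    have n12 : x 1 ≠ x 2 := fun h => absurd (hx h) (by decide)
    unfold Core at hy h0 h1 h2
    omega
  refine ⟨fun y hy => ?_, x 2, hC 2, by rw [one_mul] at e22; exact e22⟩
  rcases hall y hy with rfl | rfl | rfl
  · exact ⟨x 1, 1, hC 1, Or.inl rfl, e01⟩
  · exact ⟨x 0, -1, hC 0, Or.inr rfl, e10⟩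
  · exact ⟨x 2, 1, hC 2, Or.inl rfl, e22⟩

theorem vul_congr {R : ℤ} {η η' : Cfg} (h : ∀ f ∈ VUL R η, η f = η' f) : VUL R η' = VUL R η := by
  unfold VUL
  ext f
  simp only [Set.mem_ofPred_eq]
  refine exists_congr fun i => ?_
  rw [Vis_congr (ω := η) (ω' := η') fun f hf => h f ⟨i, hf⟩]

theorem vul_sub {R : ℤ} {η : Cfg} {f : ℤ × ℤ} (h : f ∈ VUL R η) : f ∈ BW R := by
  obtain ⟨i, hi⟩ := h
  exact Finset.mem_coe.1 (Vis_sub hi)

theorem cout_not {w R : ℤ} (hw : 0 < w) (hR : 0 < R) {a f : ℤ × ℤ} (h : COut w R a)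
    (hf : f ∈ cellF w a) : f ∉ BW R := by
  unfold BW
  rw [mem_union, mem_RFi, mem_RFi]
  rw [mem_cellF] at hf
  unfold COut at h
  rw [add_mul, one_mul, add_mul, one_mul] at h
  rcases h with h | h | h | h
  · have h1 : 0 < a.1 := by
      by_contra hn
      have := mul_le_mul_of_nonneg_right (not_lt.1 hn) hw.le
      omega
    have h2 : chS a = 0 := by unfold chS; rw [if_neg (by omega)]
    omega
  · have h1 : a.1 < 0 := by
      by_contra hn
      have := mul_nonneg (not_lt.1 hn) hw.le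
      omega
    have h2 : chS a = 1 := by unfold chS; rw [if_pos h1]
    omega
  · omega
  · omega

theorem emP_emC {m : ℕ} {l : ℤ} (h1 : -(m : ℤ) ≤ l) (h2 : l < m) : emP l = emC m l := by
  rw [emC_eq]
  unfold emP
  split_ifs with h
  · rw [Int.ediv_eq_zero_of_lt h (by omega)]
    omega
  · have : l / (2 * m) = -1 := by
      rw [Int.ediv_eq_iff_of_pos (by omega)]
      constructor <;> omega
    omega

/-- The sorted positions. -/
theorem sort_tlin {R g : ℤ} {t : Fin 3 → ℤ} {P : ℤ → Prop} (hP : ∀ i, P (t i))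
    (h0 : ∀ i, 0 ≤ t i ∧ t i < 8 * R + 3 ∧ Away R g (t i)) (h01 : t 0 + g ≤ t 1)
    (h12 : t 1 + g ≤ t 2) (hg : 0 ≤ g) : ∃ s : Fin 3 → ℤ, (∀ i, P (s i)) ∧
      (∀ i, 0 ≤ s i ∧ s i < 8 * R + 3 ∧ Away R g (s i)) ∧
      tlin R (s 0) + g ≤ tlin R (s 1) ∧ tlin R (s 1) + g ≤ tlin R (s 2) := by
  have a0 := (h0 0).2.2 0 (by unfold spec; simp)
  have a2 := (h0 2).2.2 (8 * R + 3) (by unfold spec; simp)
  have b0 := h0 0
  have b1 := h0 1
  have b2 := h0 2
  rw [le_abs] at a0 a2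
  by_cases c0 : 6 * R + 3 ≤ t 0
  · refine ⟨t, hP, h0, ?_, ?_⟩ <;>
    · unfold tlin
      split_ifs <;> omega
  by_cases c1 : 6 * R + 3 ≤ t 1
  · refine ⟨![t 1, t 2, t 0], ?_, ?_, ?_, ?_⟩
    · intro i
      fin_cases i
      · exact hP 1
      · exact hP 2
      · exact hP 0
    · intro i
      fin_cases i
      · exact h0 1
      · exact h0 2
      · exact h0 0
    · change tlin R (t 1) + g ≤ tlin R (t 2)
      unfold tlin
      split_ifs <;> omega
    · change tlin R (t 2) + g ≤ tlin R (t 0)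
      unfold tlin
      split_ifs <;> omega
  by_cases c2 : 6 * R + 3 ≤ t 2
  · refine ⟨![t 2, t 0, t 1], ?_, ?_, ?_, ?_⟩
    · intro i
      fin_cases i
      · exact hP 2
      · exact hP 0
      · exact hP 1
    · intro i
      fin_cases i
      · exact h0 2
      · exact h0 0
      · exact h0 1
    · change tlin R (t 2) + g ≤ tlin R (t 0)
      unfold tlin
      split_ifs <;> omega
    · change tlin R (t 0) + g ≤ tlin R (t 1)
      unfold tlin
      split_ifs <;> omega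
  · refine ⟨t, hP, h0, ?_, ?_⟩ <;>
    · unfold tlin
      split_ifs <;> omega

/-- The data of a configuration with separated tips. -/
def Dat (w R J : ℤ) (K : ℕ) (η : Cfg) (s : Fin 3 → ℤ) (G : Fin 3 → Finset (ℤ × ℤ)) : Prop :=
  TipPos w R s ∧ (∀ i, IsTip R η (s i)) ∧ WallsOk w R s G ∧ (∀ i, (G i).card ≤ K) ∧
    (∀ i, ∀ g ∈ G i, g = port3 J i ∨ (-J ≤ g.1 ∧ g.1 < J ∧ -J ≤ g.2 ∧ g.2 < J)) ∧
    ∀ i, Relation.ReflTransGen (fun a b => a ∈ G i ∧ b ∈ G i ∧ COut w R a ∧ COut w R b ∧ CAdj a b)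
      (oport w R (s i)) (port3 J i)

/-- The mixed configuration wraps. -/
theorem wrap_mix (hL : LinkP) {w J : ℕ} {R : ℤ} {K : ℕ} (hw : 3 ≤ w) (hR : 60 * (w : ℤ) ≤ R)
    (hJ : 60 ≤ J) (hRJ : R + 60 * w ≤ J * w) {ω ξ : Cfg} {s : Fin 3 → ℤ}
    {G : Fin 3 → Finset (ℤ × ℤ)} (hD : Dat w R J K (perW ((J + 3) * w) ω) s G)
    (hξ : ξ ∈ CylEv (J + 3) w J G) :
    PercT.mix (TwE.red ((J + 3) * w) '' VUL R (perW ((J + 3) * w) ω)) ω ξ ∈
      Wrap3 ((J + 3) * w) ((J + 3) * w) := by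
  obtain ⟨d1, d2, d3, d4, d5, d6⟩ := hD
  obtain ⟨x1, x2, x3⟩ := hξ
  set L : ℕ := J + 3 with hLdef
  set m : ℕ := L * w with hm
  set S := TwE.red m '' VUL R (perW m ω) with hS
  set ζ₀ := PercT.mix S ω ξ with hζ₀
  set ζ := perW m ζ₀ with hζ
  have hwz : (3 : ℤ) ≤ w := by exact_mod_cast hw
  have hm0 : 0 < m := Nat.mul_pos (by omega) (by omega)
  have hJz : (60 : ℤ) ≤ (J : ℤ) := by exact_mod_cast hJ
  have hJL : (J : ℤ) + 2 ≤ L := by push_cast [hLdef]; omega
  have hmz : (m : ℤ) = J * w + 3 * w := by rw [hm, hLdef]; push_cast; ring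
  have hLw : (L : ℤ) * w = m := by rw [hm]; push_cast; ring
  have hGOk : GOk J G := ⟨d3.1, d3.2.1, d5⟩
  -- values of the mixed configuration
  have v1 : ∀ f ∈ VUL R (perW m ω), ζ f = perW m ω f := by
    intro f hf
    rw [hζ, TwE.perW_eq, TwE.perW_eq]
    have : TwE.red m f ∈ S := ⟨f, hf, rfl⟩
    change ζ₀ (TwE.red m f) = ω (TwE.red m f)
    rw [hζ₀]
    unfold PercT.mix
    rw [if_pos this]
  have v2 : ∀ f, TwE.red m f ∉ S → ζ f = perW m ξ f := by
    intro f hf
    rw [hζ, TwE.perW_eq, TwE.perW_eq]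
    change ζ₀ (TwE.red m f) = ξ (TwE.red m f)
    rw [hζ₀]
    unfold PercT.mix
    rw [if_neg hf]
  have hsub : ∀ f, f ∈ BW R → f ∈ BW ((m : ℤ) - 1) := fun f hf => BW_sub (by omega) hf
  have v3 : ∀ f ∈ BW ((m : ℤ) - 1), f ∉ VUL R (perW m ω) → ζ f = perW m ξ f := by
    intro f hf hf'
    refine v2 f ?_
    rintro ⟨f', h1, h2⟩
    have := TwE.red_injOn hm0 (Finset.mem_coe.2 (hsub f' (vul_sub h1))) (Finset.mem_coe.2 hf) h2
    rw [this] at h1
    exact hf' h1
  -- landing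
  obtain ⟨x, hx, hC, hland⟩ := hL w R 0 (perW m ω) (perW m ξ) ζ s G hwz hR d1 d2 d3
    (fun i => by rw [zero_add]; exact x1 i) v1 (by
      intro f hf hf'
      refine v3 f ?_ hf
      rcases hf' with h | ⟨i, h⟩
      · exact hsub f h
      · exact mem_window hGOk (by omega) (by omega) hJL h)
  simp only [zero_add] at hland
  -- from the ports to the cylinder
  have hstrip : ∀ f ∈ BW ((m : ℤ) - 1), f ∈ strip m := by
    intro f hf
    unfold BW at hf
    rw [mem_union, mem_RFi, mem_RFi] at hf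
    constructor <;> omega
  have hem : ∀ f ∈ BW ((m : ℤ) - 1), f.2 = -1 → emP f.1 = emC m f.1 ∧
      emP (f.1 + 1) = emC m (f.1 + 1) := by
    intro f hf h1
    unfold BW at hf
    rw [mem_union, mem_RFi, mem_RFi] at hf
    exact ⟨emP_emC (by omega) (by omega), emP_emC (by omega) (by omega)⟩
  have hport : ∀ i, ConnW (emC m) ζ (strip m) (x i, 0)
      (rep w ((i : ℕ) : ℤ) (perW m ξ) (port3 J i)) := by
    intro i
    have h1 : ConnW emP ζ (BW ((m : ℤ) - 1) : Set (ℤ × ℤ)) (x i, 0)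
        (rep w ((i : ℕ) : ℤ) (perW m ξ) (oport w R (s i))) := by
      refine (hland i).mono ?_
      rintro f (hf | hf)
      · exact Finset.mem_coe.2 (hsub f (Finset.mem_coe.1 hf))
      · exact Finset.mem_coe.2 (mem_window hGOk (by omega) (by omega) hJL (Finset.mem_coe.1 hf))
    have h2 := tub_link (w := (w : ℤ)) (P := COut w R) (by omega) (d3.2.1 i) (x1 i)
      (g := oport w R (s i)) (g' := port3 J i)
      (Relation.ReflTransGen.mono (fun a b h => ⟨h.1, h.2.1, h.2.2.1, h.2.2.2.1, h.2.2.2.2⟩) _ _ (d6 i))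
    have h3 : ConnW emP ζ (BW ((m : ℤ) - 1) : Set (ℤ × ℤ))
        (rep w ((i : ℕ) : ℤ) (perW m ξ) (oport w R (s i)))
        (rep w ((i : ℕ) : ℤ) (perW m ξ) (port3 J i)) := by
      refine (ConnW.congr_cfg (ω' := ζ) ?_ h2).mono ?_
      · rintro f ⟨a, ha, ha', hfa⟩
        refine (v3 f ?_ ?_).symm
        · exact mem_window hGOk (by omega) (by omega) hJL (mem_cellsF.2 ⟨a, ha, hfa⟩)
        · intro hf
          exact cout_not (by omega) (by omega) ha' hfa (vul_sub hf)
      · rintro f ⟨a, ha, ha', hfa⟩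
        exact Finset.mem_coe.2 (mem_window hGOk (by omega) (by omega) hJL
          (mem_cellsF.2 ⟨a, ha, hfa⟩))
    exact (ConnW.congr_em (fun f hf h => hem f (Finset.mem_coe.1 hf) h) (h1.trans h3)).mono
      fun f hf => hstrip f (Finset.mem_coe.1 hf)
  have hmemP : ∀ i, port3 J i ∈ G i := by
    intro i
    rcases Relation.ReflTransGen.cases_tail (d6 i) with h | ⟨b, -, h⟩
    · -- the ports are equal: the ring contains the outer port
      rw [h]
      have h4 := d3.2.2.2 i (tdir R (s i)).1 (tdir R (s i)).2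
      have h5 : (tdir R (s i) = (1, 0)) ∨ (tdir R (s i) = (0, 1)) ∨ (tdir R (s i) = (-1, 0)) ∨
          (tdir R (s i) = (0, -1)) := by
        unfold tdir
        split_ifs <;> simp
      unfold oport
      rcases h5 with h5 | h5 | h5 | h5 <;> rw [h5] at h4 ⊢ <;>
        exact h4 (by norm_num) (by norm_num) (by norm_num) (by norm_num) (by decide)
    · exact h.2.1
  -- the tube and the ring
  have hred : ∀ f f' : ℤ × ℤ, TwE.red m f' = TwE.red m f → f'.2 = f.2 := by
    intro f f' h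
    unfold TwE.red at h
    split_ifs at h <;> exact (Prod.mk.inj h).2
  have h01 : ConnW (emC m) ζ (strip m) (rep w 0 (perW m ξ) (port3 J 0))
      (TwA.tr m 1 (rep w 1 (perW m ξ) (port3 J 1))) := by
    have h1 := EW_link (L := L) (w := w) (J := J) (ξ := ξ) (by omega) (by omega) hJL
      (G := G 0) (G' := G 1) (x1 0) (hmemP 0) (x1 1) (hmemP 1) x2
    have h2 : Conn ζ (RF (J * w) (2 * (L * w) + 1 - J * w) 0 w)
        (rep w 0 (perW m ξ) (port3 J 0))
        ((rep w 1 (perW m ξ) (port3 J 1)).1 + (2 * (L * w) + 1),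
          (rep w 1 (perW m ξ) (port3 J 1)).2) := by
      refine conn_cfg (fun f hf => ?_) h1
      refine (v2 f ?_).symm
      rintro ⟨f', h3, h4⟩
      have hf1 := mem_RFi.1 (Finset.mem_coe.1 hf)
      have hf2 := vul_sub h3
      have hf3 := hred _ _ h4
      unfold BW at hf2
      rw [mem_union, mem_RFi, mem_RFi] at hf2
      unfold TwE.red at h4
      rw [if_pos (by omega), if_pos (by omega)] at h4
      have h5 := (Prod.mk.inj h4).1
      rw [hLw] at hf1
      have := emod_inj (L := 2 * (m : ℤ) + 1) (a := -(R + 2)) (by omega) h5 (by omega) (by omega)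
        (by omega) (by omega)
      omega
    have h3 := connW_up (em := emC m) (fun f hf => (mem_RFi.1 (Finset.mem_coe.1 hf)).2.2.1) h2
    have h4 : TwA.tr m 1 (rep w 1 (perW m ξ) (port3 J 1)) =
        ((rep w 1 (perW m ξ) (port3 J 1)).1 + (2 * (L * w) + 1),
          (rep w 1 (perW m ξ) (port3 J 1)).2) := by
      have h5 := (rep_inCell (by omega) (x1 1) (hmemP 1)).1
      change 0 * (w : ℤ) ≤ _ at h5
      unfold TwA.tr
      rw [if_pos (by rw [zero_mul] at h5; exact h5), hLw]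
      simp only [one_mul]
    rw [h4]
    refine h3.mono fun f hf => ?_
    have hf1 := mem_RFi.1 (Finset.mem_coe.1 hf)
    constructor <;> omega
  have h22 : ConnW (emC m) ζ (strip m) (rep w 2 (perW m ξ) (port3 J 2))
      (TwA.tr m 1 (rep w 2 (perW m ξ) (port3 J 2))) := by
    have e1 : (-(J : ℤ) - 1) * (w : ℤ) = -(J * w) - w := by ring
    have h1 := RG_link (L := L) (w := w) (J := J) (ξ := ξ) (by omega) (by omega) (by omega)
      (G := G 2) (x1 2) (hmemP 2) x3
    have h2 : Conn ζ (row ((-(J : ℤ) - 1) * w) w)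
        (rep w 2 (perW m ξ) (port3 J 2))
        ((rep w 2 (perW m ξ) (port3 J 2)).1 + 2 * (L * w),
          (rep w 2 (perW m ξ) (port3 J 2)).2) := by
      refine conn_cfg (fun f hf => ?_) h1
      refine (v2 f ?_).symm
      rintro ⟨f', h3, h4⟩
      unfold row at hf
      obtain ⟨hf1, hf1'⟩ := hf
      have hf2 := vul_sub h3
      have hf3 := hred _ _ h4
      unfold BW at hf2
      rw [mem_union, mem_RFi, mem_RFi] at hf2
      omega
    have hneg : ∀ f ∈ row ((-(J : ℤ) - 1) * w) w, f.2 < 0 := by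
      intro f hf
      unfold row at hf
      obtain ⟨hf1, hf1'⟩ := hf
      omega
    have h3 := connW_low (em := emC m) hneg h2
    have h5 := (rep_inCell (by omega) (x1 2) (hmemP 2)).2.1
    change (rep w 2 (perW m ξ) (port3 J 2)).2 ≤ (-(J : ℤ) - 1) * w + w at h5
    have h6 : (rep w 2 (perW m ξ) (port3 J 2)).2 < 0 := by omega
    unfold twV at h3
    rw [if_neg (by omega), if_neg (by simp only; omega)] at h3
    have h4 : TwA.tr m 1 (rep w 2 (perW m ξ) (port3 J 2)) =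
        ((rep w 2 (perW m ξ) (port3 J 2)).1 + 2 * (L * w),
          (rep w 2 (perW m ξ) (port3 J 2)).2) := by
      unfold TwA.tr
      rw [if_neg (by omega), hLw]
      simp only [one_mul]
    rw [h4]
    refine h3.mono fun f hf => ?_
    unfold row at hf
    obtain ⟨hf1, hf1'⟩ := hf
    constructor <;> omega
  exact wrap_of_ports hm0 hx hC (r := fun i => rep w ((i : ℕ) : ℤ) (perW m ξ) (port3 J i)) hport
    h01 h22

end Cyl3

open Cyl3 in
/-- Gluing on the cylinder. -/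
theorem glue3_of (hL : LinkP) (hP : PortsP) : Glue3 := by
  classical
  intro K
  set N : ℕ := 60 * K with hN
  obtain ⟨Kc, hPorts⟩ := hP N
  set J : ℕ := N + 60 with hJ
  obtain ⟨c, hc, hcyl⟩ := pr_cyl J Kc (by omega)
  set C : ℝ := ((120 * K + 1 : ℕ) : ℝ) ^ (2 / 3 : ℝ) + c⁻¹ with hC
  have hC1 : ((120 * K + 1 : ℕ) : ℝ) ^ (2 / 3 : ℝ) ≤ C := by
    have : 0 < c⁻¹ := inv_pos.2 hc
    linarith
  have hC2 : c⁻¹ ≤ C := by
    have : 0 ≤ ((120 * K + 1 : ℕ) : ℝ) ^ (2 / 3 : ℝ) := by positivity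
    linarith
  have hC0 : 0 < C := lt_of_lt_of_le (inv_pos.2 hc) hC2
  refine ⟨C, hC0, fun g R hg hR hRg => ?_⟩
  have hRpos : (0 : ℝ) < R := by exact_mod_cast hR
  have hRp : 0 ≤ (R : ℝ) ^ (-(2 / 3 : ℝ)) := Real.rpow_nonneg hRpos.le _
  by_cases hsmall : g < 120
  · refine (pr_le_one _ _).trans ?_
    have k2 : (R : ℝ) ^ (2 / 3 : ℝ) ≤ ((120 * K + 1 : ℕ) : ℝ) ^ (2 / 3 : ℝ) := by
      refine Real.rpow_le_rpow hRpos.le ?_ (by norm_num)
      have : R ≤ 120 * K + 1 := by nlinarith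
      exact_mod_cast this
    have k3 : 0 < (R : ℝ) ^ (2 / 3 : ℝ) := Real.rpow_pos_of_pos hRpos _
    rw [Real.rpow_neg hRpos.le, ← div_eq_mul_inv, le_div_iff₀ k3]
    linarith
  set w : ℕ := g / 40 with hw
  have hw3 : 3 ≤ w := by omega
  have hgw : g ≤ 60 * w := by omega
  have hRw : (R : ℤ) ≤ N * w := by
    have h1 : R ≤ K * (60 * w) := hRg.trans (Nat.mul_le_mul_left _ hgw)
    have h2 : K * (60 * w) = N * w := by rw [hN]; ring
    exact_mod_cast h2 ▸ h1
  by_cases hR60 : (R : ℤ) < 60 * w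
  · have hemp : Sep3 (R : ℤ) (g : ℤ) = ∅ := by
      rw [Set.eq_empty_iff_forall_notMem]
      rintro ω ⟨t, h1, h2, h3⟩
      obtain ⟨⟨a1, a2, -⟩, a3⟩ := h1 0
      have b := fun z hz => a3 z hz
      unfold spec at b
      simp only [List.mem_cons, List.not_mem_nil, or_false, forall_eq_or_imp, forall_eq, le_abs] at b
      omega
    rw [hemp]
    have : pr (BW (R : ℤ)) (∅ : Set Cfg) = 0 := by
      rw [ProbA.pr_eq_sum]
      simp
    rw [this]
    positivity
  rw [not_lt] at hR60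
  have hRJ : (R : ℤ) + 60 * w ≤ J * w := by
    rw [hJ]
    push_cast
    rw [add_mul]
    omega
  set m : ℕ := (J + 3) * w with hm
  have hm0 : 0 < m := Nat.mul_pos (by omega) (by omega)
  have hmz : (m : ℤ) = J * w + 3 * w := by rw [hm]; push_cast; ring
  -- the data
  have hdat : ∀ η : Cfg, η ∈ Sep3 (R : ℤ) (g : ℤ) → ∃ s G, Dat w R J Kc η s G := by
    rintro η ⟨t, h1, h2, h3⟩
    obtain ⟨s, s1, s2, s3, s4⟩ := sort_tlin (R := (R : ℤ)) (g := (g : ℤ)) (P := IsTip R η)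
      (fun i => (h1 i).1) (fun i => ⟨(h1 i).1.1, (h1 i).1.2.1, (h1 i).2⟩) h2 h3 (by omega)
    have hpos : TipPos w R s := by
      refine ⟨fun i => ⟨(s2 i).1, (s2 i).2.1, fun z hz => le_trans ?_ ((s2 i).2.2 z hz)⟩, ?_, ?_⟩
      · omega
      · omega
      · omega
    obtain ⟨G, g1, g2, g3, g4⟩ := hPorts w R (by omega) hR60 hRw s hpos
    refine ⟨s, G, hpos, s1, g1, g2, ?_, ?_⟩
    · rw [hJ]
      push_cast
      exact g3
    · rw [hJ]
      push_cast
      exact g4
  set A : Set Cfg := {ω | perW m ω ∈ Sep3 (R : ℤ) (g : ℤ)} with hA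
  let B : Cfg → Set Cfg := fun ω =>
    if h : ∃ s G, Dat w R J Kc (perW m ω) s G then CylEv (J + 3) w J h.choose_spec.choose else ∅
  have key := PercT.pr_mix (W := FW m m) (S := fun ω => TwE.red m '' VUL R (perW m ω)) (c := c)
    (by
      intro ω ω' h
      have h1 : VUL R (perW m ω') = VUL R (perW m ω) := by
        refine vul_congr fun f hf => ?_
        rw [TwE.perW_eq, TwE.perW_eq]
        exact h _ ⟨f, hf, rfl⟩
      simp only [h1]) A B (Wrap3 m m)
    (by
      intro ω hω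
      have h := hdat _ hω
      simp only [B]
      rw [dif_pos h]
      obtain ⟨d1, d2, d3, d4, d5, d6⟩ := h.choose_spec.choose_spec
      exact hcyl w (by omega) _ ⟨d3.1, d3.2.1, d5⟩ d4)
    (by
      intro ω hω ξ hξ
      have h := hdat _ hω
      simp only [B] at hξ
      rw [dif_pos h] at hξ
      exact wrap_mix hL hw3 hR60 (by omega) hRJ h.choose_spec.choose_spec hξ)
  have hprA : pr (FW m m) A = pr (BW R) (Sep3 R g) := by
    have e : A = {ω : Cfg | (fun f => ω (TwE.red m f)) ∈ Sep3 (R : ℤ) (g : ℤ)} := by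
      rw [hA]
      simp only [TwE.perW_eq]
    rw [e]
    have hsub : BW (R : ℤ) ⊆ BW ((m : ℤ) - 1) := BW_sub (by omega)
    refine pr_comp (fun f hf f' hf' h => TwE.red_injOn hm0 (Finset.mem_coe.2 (hsub
      (Finset.mem_coe.1 hf))) (Finset.mem_coe.2 (hsub (Finset.mem_coe.1 hf'))) h) ?_
      (depOn_sep3 _ _)
    intro f hf
    refine TwE.red_mem hm0 ?_
    unfold BW at hf
    rw [mem_union, mem_RFi, mem_RFi] at hf
    constructor <;> omega
  rw [hprA] at key
  have k1 := key.trans (pr_wrap3_le hm0 m)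
  have k2 := Num3.p3v_upper_rpow m (by omega)
  have k3 : (m : ℝ) ^ (-(2 / 3) : ℝ) ≤ (R : ℝ) ^ (-(2 / 3) : ℝ) := by
    refine Real.rpow_le_rpow_of_nonpos hRpos ?_ (by norm_num)
    have : (R : ℤ) ≤ m := by omega
    exact_mod_cast this
  have k4 : pr (BW R) (Sep3 R g) ≤ c⁻¹ * (R : ℝ) ^ (-(2 / 3) : ℝ) := by
    rw [inv_mul_eq_div, le_div_iff₀ hc, mul_comm]
    linarith
  refine k4.trans ?_
  exact mul_le_mul_of_nonneg_right hC2 hRp

end Pool.Agent.Perc.Q
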