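import Pool.Agent.Lib.MP_6bd702_perc3.TwSec

/-!
# The arcs of the sectors on a boundary cycle

`S` and `K` are periodic functions with period `L`; `S` changes from `j + 2` to `j` at the tip
`s j` and nowhere else, `K` alternates except at the tips, where it is zero. Then the tips are in
cyclic order, the gaps are odd and `S = i` exactly on the arc from `s i + 1` to `s (i + 1)`.
-/

set_option autoImplicit false

namespace Pool.Agent.Perc.Q

open Finset Pool.Agent.Perc Relation

/-- The cyclic distance from the tip `i` to the tip `i + 1`. -/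
def gap (L : ℤ) (s : Fin 3 → ℤ) (i : Fin 3) : ℤ := (s (i + 1) - s i) % L

section Cyc

variable {L : ℤ} {s : Fin 3 → ℤ} {S : ℤ → Fin 3} {K : ℤ → ZMod 2}

/-- The assumptions on the cycle. -/
structure Cyc (L : ℤ) (s : Fin 3 → ℤ) (S : ℤ → Fin 3) (K : ℤ → ZMod 2) : Prop where
  pos : 0 < L
  odd : L % 2 = 1
  perS : ∀ x y, L ∣ x - y → S x = S y
  perK : ∀ x y, L ∣ x - y → K x = K y
  step : ∀ x, (∀ j, ¬ L ∣ x - s j) → S (x + 1) = S x ∧ K (x + 1) = K x + 1
  tip : ∀ j, S (s j) = j + 2 ∧ S (s j + 1) = j ∧ K (s j) = 0 ∧ K (s j + 1) = 0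

variable (H : Cyc L s S K)
include H

theorem Cyc.gap_lt (i : Fin 3) : gap L s i < L := Int.emod_lt_of_pos _ H.pos

theorem Cyc.dvd (i : Fin 3) : L ∣ (s i + gap L s i) - s (i + 1) := by
  unfold gap
  have := Int.emod_add_mul_ediv (s (i + 1) - s i) L
  exact ⟨-((s (i + 1) - s i) / L), by linarith⟩

theorem Cyc.gap_pos (i : Fin 3) : 0 < gap L s i := by
  have h0 : 0 ≤ gap L s i := Int.emod_nonneg _ H.pos.ne'
  rcases h0.lt_or_eq with h | h
  · exact h
  · exfalso
    have h1 := H.perS _ _ (H.dvd i)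
    rw [← h, add_zero, (H.tip i).1, (H.tip (i + 1)).1] at h1
    revert h1
    fin_cases i <;> decide

theorem Cyc.arc (i : Fin 3) {n : ℤ} (h1 : 1 ≤ n) (h2 : n ≤ gap L s i) :
    S (s i + n) = i ∧ K (s i + n) = n - 1 := by
  revert h2
  induction n, h1 using Int.leInduction with
  | base => intro _; rw [(H.tip i).2.1, (H.tip i).2.2.2]; simp
  | succ n hn ih =>
    intro h2
    have h3 := ih (by omega)
    have h4 : ∀ j, ¬ L ∣ s i + n - s j := by
      intro j hj
      have h5 := H.perS _ _ hj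
      rw [h3.1, (H.tip j).1] at h5
      have h6 : j = i + 1 := by
        revert h5
        clear * -
        fin_cases i <;> fin_cases j <;> decide
      subst h6
      have h7 := H.dvd i
      have h8 : L ∣ gap L s i - n := by
        have := dvd_sub h7 hj
        have e : s i + gap L s i - s (i + 1) - (s i + n - s (i + 1)) = gap L s i - n := by ring
        rwa [e] at this
      have h9 := Int.le_of_dvd (by omega) h8
      have h10 := H.gap_lt i
      omega
    have h5 := H.step _ h4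
    rw [← add_assoc, h5.1, h5.2, h3.1, h3.2]
    refine ⟨rfl, ?_⟩
    push_cast
    ring

theorem Cyc.gap_odd (i : Fin 3) : gap L s i % 2 = 1 := by
  have h1 := (H.arc i (H.gap_pos i) le_rfl).2
  rw [H.perK _ _ (H.dvd i), (H.tip (i + 1)).2.2.1] at h1
  by_contra h
  have h2 : ((gap L s i : ℤ) : ZMod 2) = (0 : ℤ) := par_cast (by omega)
  rw [h2] at h1
  revert h1
  simp

theorem Cyc.sum_gap : gap L s 0 + gap L s 1 + gap L s 2 = L := by
  have h0 := H.dvd 0
  have h1 := H.dvd 1
  have h2 := H.dvd 2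
  have e1 : (0 : Fin 3) + 1 = 1 := rfl
  have e2 : (1 : Fin 3) + 1 = 2 := rfl
  have e3 : (2 : Fin 3) + 1 = 0 := rfl
  rw [e1] at h0
  rw [e2] at h1
  rw [e3] at h2
  have h3 : L ∣ gap L s 0 + gap L s 1 + gap L s 2 := by
    have := dvd_add (dvd_add h0 h1) h2
    have e : s 0 + gap L s 0 - s 1 + (s 1 + gap L s 1 - s 2) + (s 2 + gap L s 2 - s 0) =
      gap L s 0 + gap L s 1 + gap L s 2 := by ring
    rwa [e] at this
  have p0 := H.gap_pos 0
  have p1 := H.gap_pos 1
  have p2 := H.gap_pos 2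
  have l0 := H.gap_lt 0
  have l1 := H.gap_lt 1
  have l2 := H.gap_lt 2
  have o0 := H.gap_odd 0
  have o1 := H.gap_odd 1
  have o2 := H.gap_odd 2
  have oL := H.odd
  obtain ⟨c, hc⟩ := h3
  have hc1 : c = 1 := by
    have hL := H.pos
    have c1 : 0 < c := by
      by_contra h
      have : L * c ≤ 0 := mul_nonpos_of_nonneg_of_nonpos hL.le (by omega)
      omega
    have c2 : c < 3 := by
      by_contra h
      have : L * 3 ≤ L * c := mul_le_mul_of_nonneg_left (by omega) hL.le
      omega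
    have c3 : c ≠ 2 := by
      rintro rfl
      omega
    omega
  rw [hc, hc1, mul_one]

/-- Every position belongs to exactly one arc. -/
theorem Cyc.exists_arc (x : ℤ) : ∃ i n, 1 ≤ n ∧ n ≤ gap L s i ∧ L ∣ x - (s i + n) := by
  -- position relative to `s 0`
  have hsum := H.sum_gap
  set y := (x - s 0 - 1) % L with hy
  have hy0 : 0 ≤ y := Int.emod_nonneg _ H.pos.ne'
  have hy1 : y < L := Int.emod_lt_of_pos _ H.pos
  have hd : L ∣ x - (s 0 + (y + 1)) := by
    have := Int.emod_add_mul_ediv (x - s 0 - 1) L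
    exact ⟨(x - s 0 - 1) / L, by rw [hy]; linarith⟩
  by_cases h0 : y + 1 ≤ gap L s 0
  · exact ⟨0, y + 1, by omega, h0, hd⟩
  have d0 := H.dvd 0
  have d1 := H.dvd 1
  have e1 : (0 : Fin 3) + 1 = 1 := rfl
  have e2 : (1 : Fin 3) + 1 = 2 := rfl
  rw [e1] at d0
  rw [e2] at d1
  by_cases h1 : y + 1 - gap L s 0 ≤ gap L s 1
  · refine ⟨1, y + 1 - gap L s 0, by omega, h1, ?_⟩
    have := dvd_add hd d0
    have e : x - (s 0 + (y + 1)) + (s 0 + gap L s 0 - s 1) = x - (s 1 + (y + 1 - gap L s 0)) := by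
      ring
    rwa [e] at this
  · refine ⟨2, y + 1 - gap L s 0 - gap L s 1, by omega, by omega, ?_⟩
    have := dvd_add (dvd_add hd d0) d1
    have e : x - (s 0 + (y + 1)) + (s 0 + gap L s 0 - s 1) + (s 1 + gap L s 1 - s 2) =
      x - (s 2 + (y + 1 - gap L s 0 - gap L s 1)) := by ring
    rwa [e] at this

/-- The vertices of the sector `i`. -/
theorem Cyc.mem_arc {x : ℤ} {i : Fin 3} (hx : S x = i) :
    ∃ n, 1 ≤ n ∧ n ≤ gap L s i ∧ L ∣ x - (s i + n) := by
  obtain ⟨j, n, h1, h2, h3⟩ := H.exists_arc x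
  have h4 := H.perS _ _ h3
  rw [hx, (H.arc j h1 h2).1] at h4
  subst h4
  exact ⟨n, h1, h2, h3⟩

end Cyc

variable {d w r : ℤ} {ω : Cfg} {t s : Fin 3 → ℤ} {sec : ℤ × ℤ → Fin 3} {kap : ℤ × ℤ → ZMod 2}

/-- The boundary cycle with all integers as positions. -/
def bdc (r x : ℤ) : ℤ × ℤ := bd r (x % (8 * r + 3))

theorem bdc_eq {x : ℤ} (h0 : 0 ≤ x) (h1 : x < 8 * r + 3) : bdc r x = bd r x := by
  unfold bdc
  rw [Int.emod_eq_of_lt h0 h1]

theorem bdc_succ (hr : 0 ≤ r) {x : ℤ} (h0 : 0 ≤ x) (h1 : x < 8 * r + 3) :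
    bdc r (x + 1) = bd r (x + 1) := by
  rcases eq_or_lt_of_le (show x + 1 ≤ 8 * r + 3 by omega) with h | h
  · rw [h, bd_last hr]
    unfold bdc
    rw [Int.emod_self]
  · exact bdc_eq (by omega) h

theorem bdc_per {x y : ℤ} (h : 8 * r + 3 ∣ x - y) : bdc r x = bdc r y := by
  unfold bdc
  rw [Int.emod_eq_emod_iff_emod_sub_eq_zero.2 (Int.emod_eq_zero_of_dvd h)]

/-- From the data at the boundary positions to a cycle. -/
theorem cyc_of (hr : 0 ≤ r) (hs : ∀ i, 0 ≤ s i ∧ s i < 8 * r + 3)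
    (hstep : ∀ x, 0 ≤ x → x < 8 * r + 3 → (∀ j, x ≠ s j) →
      sec (bd r x) = sec (bd r (x + 1)) ∧ kap (bd r x) ≠ kap (bd r (x + 1)))
    (htip : ∀ j, sec (bd r (s j)) = j + 2 ∧ sec (bd r (s j + 1)) = j ∧ kap (bd r (s j)) = 0 ∧
      kap (bd r (s j + 1)) = 0) :
    Cyc (8 * r + 3) s (fun x => sec (bdc r x)) (fun x => kap (bdc r x)) := by
  have hpos : 0 < 8 * r + 3 := by omega
  refine ⟨hpos, by omega, fun x y h => by simp only [bdc_per h], fun x y h => by
    simp only [bdc_per h], ?_, ?_⟩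
  · intro x hx
    have h0 := Int.emod_nonneg x hpos.ne'
    have h1 := Int.emod_lt_of_pos x hpos
    have e1 : bdc r x = bd r (x % (8 * r + 3)) := rfl
    have e2 : bdc r (x + 1) = bd r (x % (8 * r + 3) + 1) := by
      rw [← bdc_succ hr h0 h1]
      refine bdc_per ?_
      have := Int.emod_add_mul_ediv x (8 * r + 3)
      exact ⟨x / (8 * r + 3), by linarith⟩
    have h2 := hstep _ h0 h1 fun j hj => hx j (by
      have := Int.emod_add_mul_ediv x (8 * r + 3)
      exact ⟨x / (8 * r + 3), by rw [← hj]; linarith⟩)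
    simp only [e1, e2]
    refine ⟨h2.1.symm, ?_⟩
    have h3 := h2.2
    generalize kap (bd r (x % (8 * r + 3))) = a at h3 ⊢
    generalize kap (bd r (x % (8 * r + 3) + 1)) = b at h3 ⊢
    revert a b
    decide
  · intro j
    simp only [bdc_eq (hs j).1 (hs j).2, bdc_succ hr (hs j).1 (hs j).2]
    exact htip j

/-- The arcs of the sectors on the inner boundary, for strands which come from outside. -/
theorem cyc_in (hd : 0 ≤ d) (hdw : d < w) (ht : ∀ i, 0 ≤ t i ∧ t i < 8 * w + 3)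
    (H : IsSec TQ ω (An d w) (fun i => ine w (t i)) (fun i => i + 2) (fun i => i) sec kap)
    (hs : ∀ i, 0 ≤ s i ∧ s i < 8 * d + 3)
    (hO : ∀ i, ine d (s i) ∈ Orb TQ ω (An d w) (ine w (t i))) :
    Cyc (8 * d + 3) s (fun x => sec (bdc d x)) (fun x => kap (bdc d x)) := by
  refine cyc_of hd hs ?_ ?_
  · intro x h0 h1 hx
    obtain ⟨f, hf, hf', k, hk⟩ := ine_opp hd h0 h1
    have hfA : f ∈ An d w := ⟨BW_mono (by omega) hf, hf'⟩
    have hk' := Prod.mk.inj hk
    change (bd d (x + 1)) = _ ∧ (bd d x) = _ at hk'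
    have hm : (TQ.c f k, TQ.c f (k + 1)) ∉ MU TQ ω (An d w) fun i => ine w (t i) := by
      rw [← hk]
      rintro ⟨i, h | h⟩
      · -- the outgoing edge is initial
        have h2 := eq_of_ini h (ini_inner hd hdw h0 h1)
        exact bd_ne hd hdw (by omega) (by omega) (ht i).1 (ht i).2.le
          (Prod.mk.inj h2).1
      · rw [Prod.swap_swap] at h
        have h2 : Ter TQ (An d w) (ine d x) := by
          have := (ini_inner hd hdw h0 h1).ter_swap
          rwa [Prod.swap_swap] at this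
        have h3 : Ter TQ (An d w) (ine d (s i)) := by
          have := (ini_inner hd hdw (hs i).1 (hs i).2).ter_swap
          rwa [Prod.swap_swap] at this
        exact hx i (ine_inj hd h0 h1 (hs i).1 (hs i).2 (ter_unique h (hO i) h2 h3))
    rw [hk'.1, hk'.2]
    exact ⟨(H.sec_eq f hfA k hm).symm, (H.kap_ne f hfA k hm).symm⟩
  · intro j
    have h1 := H.left j _ (hO j)
    have h2 := H.right j _ (hO j)
    exact ⟨h1.1, h2.1, h1.2, h2.2⟩

/-- The arcs of the sectors on the outer boundary, for strands which come from inside. -/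
theorem cyc_out (hd : 0 ≤ d) (hdw : d < w) (ht : ∀ i, 0 ≤ t i ∧ t i < 8 * d + 3)
    (H : IsSec TQ ω (An d w) (fun i => (ine d (t i)).swap) (fun i => i) (fun i => i + 2) sec kap)
    (hs : ∀ i, 0 ≤ s i ∧ s i < 8 * w + 3)
    (hO : ∀ i, (ine w (s i)).swap ∈ Orb TQ ω (An d w) (ine d (t i)).swap) :
    Cyc (8 * w + 3) s (fun x => sec (bdc w x)) (fun x => kap (bdc w x)) := by
  have hw : 0 ≤ w := by omega
  refine cyc_of hw hs ?_ ?_
  · intro x h0 h1 hx
    obtain ⟨f, hf, hf', k, hk⟩ := ine_face (r := w) (by omega) h0 h1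
    have hfA : f ∈ An d w := ⟨hf, fun h3 => hf' (BW_mono (by omega) h3)⟩
    have hk' := Prod.mk.inj hk
    change (bd w x) = _ ∧ (bd w (x + 1)) = _ at hk'
    have hm : (TQ.c f k, TQ.c f (k + 1)) ∉ MU TQ ω (An d w) fun i => (ine d (t i)).swap := by
      rw [← hk]
      rintro ⟨i, h | h⟩
      · have h2 := eq_of_ini h (ini_outer hd hdw h0 h1)
        have h3 := (Prod.mk.inj h2).1
        exact bd_ne hd hdw (s := t i + 1) (by have := (ht i).1; omega)
          (by have := (ht i).2; omega) h0 h1.le h3.symm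
      · have h2 : Ter TQ (An d w) (ine w x).swap := (ini_outer hd hdw h0 h1).ter_swap
        have h3 : Ter TQ (An d w) (ine w (s i)).swap :=
          (ini_outer hd hdw (hs i).1 (hs i).2).ter_swap
        exact hx i (ine_inj hw h0 h1 (hs i).1 (hs i).2
          (Prod.swap_injective (ter_unique h (hO i) h2 h3)))
    rw [hk'.1, hk'.2]
    exact ⟨H.sec_eq f hfA k hm, H.kap_ne f hfA k hm⟩
  · intro j
    have h1 := H.left j _ (hO j)
    have h2 := H.right j _ (hO j)
    exact ⟨h2.1, h1.1, h2.2, h1.2⟩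

end Pool.Agent.Perc.Q
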