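import Pool.Agent.Lib.MP_6bd702_perc3.TwLand
import Pool.Agent.Lib.MP_6bd702_perc3.TwArc

/-!
# Landing at the sectors of three strands
-/

set_option autoImplicit false

namespace Pool.Agent.Perc.Q

open Finset Pool.Agent.Perc Relation

variable {w c R e p L : ℤ} {s : Fin 3 → ℤ} {S : ℤ → Fin 3} {K : ℤ → ZMod 2}

theorem zmod2_par (n : ℤ) : ((n : ℤ) : ZMod 2) = 0 ↔ n % 2 = 0 := by
  rw [ZMod.intCast_zmod_eq_zero_iff_dvd]
  norm_num

/-- The sectors near the tip `j`. -/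
theorem cyc_local (C : Cyc L s S K) {m : ℤ} (hm : ∀ i, m < gap L s i) (j : Fin 3) {x : ℤ} :
    (s j < x → x ≤ s j + m → S x = j ∧ (K x = 0 ↔ (x - s j) % 2 = 1)) ∧
    (s j - m ≤ x → x ≤ s j → S x = j + 2 ∧ (K x = 0 ↔ (x - s j) % 2 = 0)) := by
  constructor
  · intro h1 h2
    have h3 := C.arc j (n := x - s j) (by omega) (by have := hm j; omega)
    rw [add_sub_cancel] at h3
    refine ⟨h3.1, ?_⟩
    rw [h3.2]
    have e : ((x - s j : ℤ) : ZMod 2) - 1 = ((x - s j - 1 : ℤ) : ZMod 2) := by push_cast; ring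
    rw [e, zmod2_par]
    omega
  · intro h1 h2
    have hg := hm (j + 2)
    have h3 := C.arc (j + 2) (n := gap L s (j + 2) - (s j - x)) (by omega) (by omega)
    have hd := C.dvd (j + 2)
    have ej : j + 2 + 1 = j := by fin_cases j <;> rfl
    rw [ej] at hd
    have hd' : L ∣ x - (s (j + 2) + (gap L s (j + 2) - (s j - x))) := by
      have e : x - (s (j + 2) + (gap L s (j + 2) - (s j - x))) =
        -(s (j + 2) + gap L s (j + 2) - s j) := by ring
      rw [e]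
      exact (dvd_neg).2 hd
    rw [C.perS _ _ hd', C.perK _ _ hd']
    refine ⟨h3.1, ?_⟩
    rw [h3.2]
    have e : ((gap L s (j + 2) - (s j - x) : ℤ) : ZMod 2) - 1 =
        ((gap L s (j + 2) - (s j - x) - 1 : ℤ) : ZMod 2) := by push_cast; ring
    rw [e, zmod2_par]
    have := C.gap_odd (j + 2)
    omega

/-- Gaps from distances. -/
theorem gap_gt {m : ℤ} (hm : 0 ≤ m) (hs : ∀ i, m < s i ∧ s i < L - m)
    (hd : ∀ i j, i ≠ j → m < |s i - s j|) (i : Fin 3) : m < gap L s i := by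
  unfold gap
  have h1 := hd (i + 1) i (by fin_cases i <;> decide)
  have h2 := hs i
  have h3 := hs (i + 1)
  rw [lt_abs] at h1
  rcases h1 with h1 | h1
  · rw [Int.emod_eq_of_lt (by omega) (by omega)]
    exact h1
  · rw [← Int.add_emod_right, Int.emod_eq_of_lt (by omega) (by omega)]
    omega

/-- A wall lands at the sector `j` (`e = 1`, after the tip `j`) or `j + 2` (`e = -1`, before the
tip). -/
theorem land_cyc {ω ξ ζ : Cfg} {G : Finset (ℤ × ℤ)} {ι : Type} {ei : ι → (ℤ × ℤ) × (ℤ × ℤ)}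
    {Ls Rs : ι → Fin 3} {sec : ℤ × ℤ → Fin 3} {kap : ℤ × ℤ → ZMod 2} {F : Set (ℤ × ℤ)}
    (hw : 2 ≤ w) (hR : 20 * w ≤ R)
    (hs : ∀ i, 0 ≤ s i ∧ s i < 8 * R + 3 ∧ Away R (10 * w) (s i))
    (hsep : ∀ i j, i ≠ j → 10 * w ≤ |s i - s j|)
    (hG : ∀ g ∈ G, CellOk g) (hξ : ξ ∈ Tub w c G) (he : e = 1 ∨ e = -1)
    (hF : (p = 1 ∧ F ⊆ BW R) ∨ (p = -1 ∧ F ⊆ (BW R : Set (ℤ × ℤ))ᶜ))
    (hF' : ∀ f, (p = 1 → f ∈ BW R) → (p = -1 → f ∉ BW R) → f ∈ BW (R + 3 * w) →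
      f ∉ BW (R - 3 * w) → f ∈ F)
    (j : Fin 3)
    (hring : ∀ a b, -1 ≤ a → a ≤ 1 → -1 ≤ b → b ≤ 1 → (a ≠ 0 ∨ b ≠ 0) →
      rcell w R (s j) a b ∈ G)
    (H : IsSec TQ ω F ei Ls Rs sec kap)
    (C : Cyc (8 * R + 3) s (fun x => sec (bdc R x)) (fun x => kap (bdc R x)))
    (hc : (parV (chS (tcell w R (s j))) (bd R (s j)) + (if e = 1 then 1 else 0) - c) % 2 = 0)
    (hζ1 : ∀ f ∈ VU TQ ω F ei, ω f = ζ f)
    (hζ2 : ∀ f ∈ cellsF w G, f ∉ VU TQ ω F ei → ξ f = ζ f) :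
    ∃ i, ((if e = 1 then j else j + 2) = Ls i ∧ ConnW emP ζ (VU TQ ω F ei ∪ cellsF w G) (ei i).1
        (rep w c ξ (rcell w R (s j) p 0))) ∨
      ((if e = 1 then j else j + 2) = Rs i ∧ ConnW emP ζ (VU TQ ω F ei ∪ cellsF w G) (ei i).2
        (rep w c ξ (rcell w R (s j) p 0))) := by
  have haw : ∀ i, 10 * w ≤ s i ∧ s i ≤ 8 * R + 3 - 10 * w := by
    intro i
    have := away_cases (w := w) (by omega) (hs i).1 (hs i).2.1 (hs i).2.2
    omega
  have hgap : ∀ i, 4 * w < gap (8 * R + 3) s i := by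
    refine gap_gt (by omega) (fun i => ?_) fun i j hij => ?_
    · have := haw i
      omega
    · have := hsep i j hij
      omega
  have hbd : ∀ x, s j - 4 * w ≤ x → x ≤ s j + 4 * w → bdc R x = bd R x := by
    intro x h1 h2
    have := haw j
    exact bdc_eq (by omega) (by omega)
  refine land_sec (σ := if e = 1 then j else j + 2) hw hR (hs j).1 (hs j).2.1 (hs j).2.2 hG hξ he
    hF hF' hring H ?_ ?_ hc hζ1 hζ2
  · intro x h1 h2 h3 h4
    have h5 := cyc_local C hgap j (x := x)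
    rw [hbd x h1 h2] at h5
    rcases he with rfl | rfl
    · rw [if_pos rfl, if_pos rfl]
      exact h5.1 (h3 rfl) h2
    · rw [if_neg (by omega), if_neg (by omega)]
      exact h5.2 h1 (h4 rfl)
  · intro x h1 h2 h3 h4
    have h5 := cyc_local C hgap j (x := x)
    rw [hbd x h1 h2] at h5
    have hj : j ≠ j + 2 := by fin_cases j <;> decide
    rcases he with rfl | rfl
    · rw [if_pos rfl, (h5.2 h1 (h3 rfl)).1]
      exact hj.symm
    · rw [if_neg (by omega), (h5.1 (h4 rfl) h2).1]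
      exact hj

end Pool.Agent.Perc.Q
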