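import Pool.Agent.Lib.MP_6bd702_perc3.Glue3Defs
import Pool.Agent.Lib.MP_6bd702_perc3.TwLandC

/-!
# The three walls land at three different core vertices
-/

set_option autoImplicit false

namespace Pool.Agent.Perc.Q

open Finset Pool.Agent.Perc Relation

variable {w c R t e p L : ℤ} {ω ξ ζ : Cfg}

theorem An_zero (R : ℤ) : An 0 R = (BW R : Set (ℤ × ℤ)) := by
  ext f
  unfold An
  rw [Set.mem_sdiff, Finset.mem_coe, Finset.mem_coe, mem_BW (R := 0)]
  constructor
  · exact fun h => h.1
  · intro h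
    refine ⟨h, fun h' => ?_⟩
    omega

/-- The colour of the boundary positions. -/
theorem parV_tlin (hw : 2 ≤ w) (hR : 20 * w ≤ R) (ht0 : 0 ≤ t) (ht1 : t < 8 * R + 3)
    (hA : Away R (10 * w) t) :
    (parV (chS (tcell w R t)) (bd R t) - tlin R t - R) % 2 = 0 := by
  have key : ∀ {P : ℤ × ℤ} {n₀ τ₀ : ℤ}, TipC w R t P n₀ τ₀ →
      parV (chS (tcell w R t)) (bd R t) = P.1 + P.2 := by
    intro P n₀ τ₀ H
    have h := H.bdE 0 (by omega) (by omega)
    rw [add_zero] at h
    rw [h, parV_chF]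
    simp only [zero_mul, add_zero]
  unfold tlin
  rcases away_cases (by omega) ht0 ht1 hA with h | h | h | h | h | h | h | h
  · rw [key (tipC_RU hw h.1 h.2), if_neg (by omega)]
    simp only; omega
  · rw [key (tipC_T hw hR (by omega) (by omega) (Or.inl h.2)), if_neg (by omega)]
    simp only; omega
  · rw [key (tipC_T hw hR (by omega) (by omega) (Or.inr h.1)), if_neg (by omega)]
    simp only; omega
  · rw [key (tipC_L hw hR (by omega) (by omega) (Or.inl h.2)), if_neg (by omega)]
    simp only; omega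
  · rw [key (tipC_L hw hR (by omega) (by omega) (Or.inr h.1)), if_neg (by omega)]
    simp only; omega
  · rw [key (tipC_BL hw hR (by omega) (by omega)), if_neg (by omega)]
    simp only; omega
  · rw [key (tipC_BR hw hR (by omega) (by omega)), if_pos (by omega)]
    simp only; omega
  · rw [key (tipC_RL hw hR (by omega) (by omega)), if_pos (by omega)]
    simp only; omega

/-- The gaps in the linear coordinate. -/
theorem gap_tlin {s : Fin 3 → ℤ} (hs : ∀ i, 0 ≤ s i ∧ s i < 8 * R + 3)
    (hne : ∀ i, s i ≠ s (i + 1)) (i : Fin 3) :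
    gap (8 * R + 3) s i = tlin R (s (i + 1)) - tlin R (s i) +
      if tlin R (s i) < tlin R (s (i + 1)) then 0 else 8 * R + 3 := by
  have h1 := hs i
  have h2 := hs (i + 1)
  have h3 := hne i
  unfold gap
  have key : ∀ x y : ℤ, 0 ≤ y → y < 8 * R + 3 → (∃ k, x = y + (8 * R + 3) * k) →
      x % (8 * R + 3) = y := by
    rintro x y hy0 hy1 ⟨k, rfl⟩
    rw [Int.add_mul_emod_self_left]
    exact Int.emod_eq_of_lt hy0 hy1
  unfold tlin
  generalize s i = a at *
  generalize s (i + 1) = b at *
  split_ifs with c1 c2 c3 c4 c5 c6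
  all_goals
    first
    | exact key _ _ (by omega) (by omega) ⟨0, by omega⟩
    | exact key _ _ (by omega) (by omega) ⟨-1, by omega⟩

/-- The vertex of a sector. -/
def cx (i : Fin 3) : ℤ := ![-1, -2, 0] i

theorem core_cx (i : Fin 3) : Core (cx i) := by
  unfold Core cx
  fin_cases i <;> simp

theorem cx_inj : Function.Injective cx := by
  intro i j h
  unfold cx at h
  fin_cases i <;> fin_cases j <;> simp at h <;> rfl

theorem leg_fst (i : Fin 3) : (leg i).1 = (cx i, 0) := by
  fin_cases i <;> rfl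

theorem leg_snd (i : Fin 3) : (leg i).2 = (cx (i + 2), 0) := by
  fin_cases i <;> rfl

/-- In the linear order from the cut the colours of the tips alternate. -/
theorem par_order {s t : Fin 3 → ℤ} {S : ℤ → Fin 3} {K : ℤ → ZMod 2} {a : Fin 3 → Fin 3}
    (ha : Function.Injective a) (hst : ∀ i, s (a i) = t i) (C : Cyc (8 * R + 3) s S K)
    (hs : ∀ i, 0 ≤ s i ∧ s i < 8 * R + 3) (hne : ∀ i, s i ≠ s (i + 1))
    (h01 : tlin R (t 0) < tlin R (t 1)) (h12 : tlin R (t 1) < tlin R (t 2)) (i : Fin 3) :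
    (tlin R (t i) - tlin R (t 0) - ((i : ℕ) : ℤ)) % 2 = 0 := by
  have g0 := gap_tlin hs hne 0
  have g1 := gap_tlin hs hne 1
  have g2 := gap_tlin hs hne 2
  have o0 := C.gap_odd 0
  have o1 := C.gap_odd 1
  have o2 := C.gap_odd 2
  have hsum := C.sum_gap
  have e1 : (0 : Fin 3) + 1 = 1 := rfl
  have e2 : (1 : Fin 3) + 1 = 2 := rfl
  have e3 : (2 : Fin 3) + 1 = 0 := rfl
  rw [e1] at g0
  rw [e2] at g1
  rw [e3] at g2
  have a0 := hst 0
  have a1 := hst 1
  have a2 := hst 2
  have n01 : a 0 ≠ a 1 := fun h => absurd (ha h) (by decide)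
  have n02 : a 0 ≠ a 2 := fun h => absurd (ha h) (by decide)
  have n12 : a 1 ≠ a 2 := fun h => absurd (ha h) (by decide)
  rw [← a0, ← a1] at h01
  rw [← a1, ← a2] at h12
  have goal' : (tlin R (s (a i)) - tlin R (s (a 0)) - ((i : ℕ) : ℤ)) % 2 = 0 := by
    clear hst a0 a1 a2 ha C hne
    generalize gap (8 * R + 3) s 0 = G0 at *
    generalize gap (8 * R + 3) s 1 = G1 at *
    generalize gap (8 * R + 3) s 2 = G2 at *
    have hi : i = 0 ∨ i = 1 ∨ i = 2 := by fin_cases i <;> simp
    have c : ∀ x : Fin 3, x = 0 ∨ x = 1 ∨ x = 2 := by intro x; fin_cases x <;> simp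
    have f1 : (((1 : Fin 3) : ℕ) : ℤ) = 1 := rfl
    have f2 : (((2 : Fin 3) : ℕ) : ℤ) = 2 := rfl
    have f0 : (((0 : Fin 3) : ℕ) : ℤ) = 0 := rfl
    rcases c (a 0) with b0 | b0 | b0 <;> rcases c (a 1) with b1 | b1 | b1 <;>
      rcases c (a 2) with b2 | b2 | b2 <;> rw [b0] at n01 n02 <;> rw [b1] at n01 n12 <;>
      rw [b2] at n02 n12 <;>
      first
      | exact absurd rfl n01
      | exact absurd rfl n02
      | exact absurd rfl n12
      | (rw [b0, b1] at h01
         rw [b1, b2] at h12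
         rcases hi with rfl | rfl | rfl
         all_goals
           simp only [b0, b1, b2, f0, f1, f2]
           split_ifs at g0 g1 g2 <;> omega)
  rw [hst i, hst 0] at goal'
  exact goal'

theorem linkP : LinkP := by
  intro w R b ω ξ ζ t G hw3 hwR hpos htip hwalls hξ hζ1 hζ2
  obtain ⟨hpos, hord1, hord2⟩ := hpos
  obtain ⟨hdisj, hok, htc, hring⟩ := hwalls
  have hw : 2 ≤ w := by omega
  have hR : 20 * w ≤ R := by omega
  have hAw : ∀ i, Away R (10 * w) (t i) := fun i z hz => by
    have := (hpos i).2.2 z hz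
    omega
  -- the legs of the tips
  have htip' := fun i => (htip i).2.2
  choose a ha using htip'
  have hEq : ∀ i j, a i = a j → t i = t j := by
    intro i j hij
    have h1 := ha i
    have h2 := ha j
    rw [← hij] at h2
    have hter : ∀ i, Ter TQ (BW R : Set (ℤ × ℤ)) (ine R (t i)).swap := by
      intro i
      have h3 := (ini_outer (d := 0) (w := R) le_rfl (by omega) (hpos i).1 (hpos i).2.1).ter_swap
      have h4 : ((BW R : Set (ℤ × ℤ)) \ BW 0) = (BW R : Set (ℤ × ℤ)) := An_zero R
      rwa [h4] at h3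
    have h3 := ter_unique h1 h2 (hter i) (hter j)
    exact ine_inj (by omega) (hpos i).1 (hpos i).2.1 (hpos j).1 (hpos j).2.1
      (Prod.swap_injective h3)
  have htne : ∀ i j, i ≠ j → 20 * w ≤ |tlin R (t i) - tlin R (t j)| := by
    intro i j hij
    rw [le_abs]
    fin_cases i <;> fin_cases j <;> first | exact absurd rfl hij | skip
    all_goals simp only [Fin.zero_eta, Fin.mk_one, Fin.reduceFinMk, Fin.isValue]
    all_goals omega
  have hainj : Function.Injective a := by
    intro i j hij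
    by_contra hne
    have h1 := htne i j hne
    rw [hEq i j hij, sub_self, abs_zero] at h1
    omega
  have hbij := Finite.injective_iff_bijective.1 hainj
  set E := Equiv.ofBijective a hbij with hE
  set s : Fin 3 → ℤ := fun i => t (E.symm i) with hs
  have hsa : ∀ i, s (a i) = t i := by
    intro i
    have : E.symm (a i) = i := E.symm_apply_apply i
    simp only [hs, this]
  have hsr : ∀ i, 0 ≤ s i ∧ s i < 8 * R + 3 := fun i => ⟨(hpos _).1, (hpos _).2.1⟩
  have hsA : ∀ i, Away R (10 * w) (s i) := fun i => hAw _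
  have hleg : ∀ i : Fin 3, (ine R (s i)).swap ∈ Orb TQ ω (An 0 R) (ine 0 ((i : ℕ) : ℤ)).swap := by
    intro i
    rw [An_zero]
    have h1 := ha (E.symm i)
    have h2 : a (E.symm i) = i := E.apply_symm_apply i
    rw [h2] at h1
    exact h1
  -- distances of the tips
  have htsep : ∀ i j, i ≠ j → 10 * w ≤ |t i - t j| := by
    intro i j hij
    have h1 := htne i j hij
    have h2 := away_cases (w := w) (by omega) (hpos i).1 (hpos i).2.1 (hAw i)
    have h3 := away_cases (w := w) (by omega) (hpos j).1 (hpos j).2.1 (hAw j)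
    rw [le_abs] at h1 ⊢
    unfold tlin at h1
    split_ifs at h1 <;> omega
  have hssep : ∀ i j, i ≠ j → 10 * w ≤ |s i - s j| := fun i j hij =>
    htsep _ _ fun h => hij (E.symm.injective h)
  have hsne : ∀ i, s i ≠ s (i + 1) := by
    intro i h
    have h1 := hssep i (i + 1) (by fin_cases i <;> decide)
    rw [h, sub_self, abs_zero] at h1
    omega
  -- the sectors
  obtain ⟨sec, kap, H⟩ := secOut (ω := ω) (d := 0) (w := R) (t := fun i : Fin 3 => ((i : ℕ) : ℤ))
    le_rfl (by omega) alt_core fun i => ⟨s i, (hsr i).1, (hsr i).2, hleg i⟩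
  have C := cyc_out (s := s) le_rfl (show (0 : ℤ) < R by omega)
    (fun i => alt_core.mem i) H hsr hleg
  -- the colours
  have hpar := par_order hainj hsa C hsr hsne (by omega) (by omega)
  have hparV : ∀ i, (parV (chS (tcell w R (t i))) (bd R (t i)) -
      parV (chS (tcell w R (t 0))) (bd R (t 0)) - ((i : ℕ) : ℤ)) % 2 = 0 := by
    intro i
    have h1 := parV_tlin hw hR (hpos i).1 (hpos i).2.1 (hAw i)
    have h2 := parV_tlin hw hR (hpos 0).1 (hpos 0).2.1 (hAw 0)
    have h3 := hpar i
    omega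
  obtain ⟨e, he, hc⟩ : ∃ e : ℤ, (e = 1 ∨ e = -1) ∧
      ∀ i : Fin 3, (parV (chS (tcell w R (t i))) (bd R (t i)) + (if e = 1 then 1 else 0) -
        (b + ((i : ℕ) : ℤ))) % 2 = 0 := by
    rcases Int.emod_two_eq_zero_or_one (parV (chS (tcell w R (t 0))) (bd R (t 0)) - b) with h | h
    · refine ⟨-1, Or.inr rfl, fun i => ?_⟩
      have := hparV i
      rw [if_neg (by omega)]
      omega
    · refine ⟨1, Or.inl rfl, fun i => ?_⟩
      have := hparV i
      rw [if_pos rfl]
      omega
  -- the walls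
  have hVU : VU TQ ω (An 0 R) (fun i : Fin 3 => (ine 0 ((i : ℕ) : ℤ)).swap) = VUL R ω := by
    rw [An_zero]
    rfl
  have hland : ∀ i : Fin 3, ConnW emP ζ ((BW R : Set (ℤ × ℤ)) ∪ cellsF w (G i))
      (cx (if e = 1 then a i else a i + 2), 0)
      (rep w (b + ((i : ℕ) : ℤ)) ξ (oport w R (t i))) := by
    intro i
    have hport : rcell w R (t i) 1 0 = oport w R (t i) := by
      unfold rcell oport
      refine Prod.ext ?_ ?_ <;> simp
    obtain ⟨i', h | h⟩ := land_cyc (s := s) (j := a i) (p := 1) (e := e) (ζ := ζ) (F := An 0 R)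
      hw hR (fun i => ⟨(hsr i).1, (hsr i).2, hsA i⟩) hssep (hok i) (hξ i) he
      (Or.inl ⟨rfl, by rw [An_zero]⟩) (fun f h1 _ _ _ => by rw [An_zero]; exact h1 rfl)
      (by
        intro x y h1 h2 h3 h4 h5
        rw [hsa i]
        obtain ⟨P, n₀, τ₀, hT⟩ := exists_tipC hw hR (hpos i).1 (hpos i).2.1 (hAw i)
        have hq := hring i (x * (tdir R (t i)).1 + y * (ttan R (t i)).1)
          (x * (tdir R (t i)).2 + y * (ttan R (t i)).2)
        have e1 : rcell w R (t i) x y = tcell w R (t i) +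
            (x * (tdir R (t i)).1 + y * (ttan R (t i)).1,
              x * (tdir R (t i)).2 + y * (ttan R (t i)).2) := by
          unfold rcell
          refine Prod.ext ?_ ?_ <;> simp only [Prod.fst_add, Prod.snd_add] <;> ring
        rw [e1]
        rcases hT.par with ⟨q1, q2⟩ | ⟨q1, q2⟩ | ⟨q1, q2⟩ | ⟨q1, q2⟩ <;> rw [q1, q2] at hq ⊢ <;>
          refine hq ?_ ?_ ?_ ?_ ?_ <;> simp only [ne_eq, Prod.mk.injEq] <;> omega)
      H C (by rw [hsa i]; exact hc i) (fun f hf => by
        rw [hVU] at hf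
        exact (hζ1 f hf).symm)
      (fun f hf hf' => by
        rw [hVU] at hf'
        exact (hζ2 f hf' (Or.inr ⟨i, hf⟩)).symm)
    · rw [h.1, ← leg_fst, ← hport, ← hsa i]
      refine h.2.mono ?_
      rintro f (hf | hf)
      · rw [hVU] at hf
        obtain ⟨k, hk⟩ := hf
        exact Or.inl hk.1
      · exact Or.inr hf
    · rw [h.1, ← leg_snd, ← hport, ← hsa i]
      refine h.2.mono ?_
      rintro f (hf | hf)
      · rw [hVU] at hf
        obtain ⟨k, hk⟩ := hf
        exact Or.inl hk.1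
      · exact Or.inr hf
  refine ⟨fun i => cx (if e = 1 then a i else a i + 2), ?_, fun i => core_cx _, hland⟩
  intro i j h
  have h1 := cx_inj h
  rcases he with rfl | rfl
  · rw [if_pos rfl, if_pos rfl] at h1
    exact hainj h1
  · rw [if_neg (by omega), if_neg (by omega)] at h1
    exact hainj (add_right_cancel h1)

end Pool.Agent.Perc.Q
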