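import Pool.Agent.Lib.MP_6bd702_perc3.TwBd

/-!
# Potentials on the annuli of the twisted plane (task TwPot)

A function `m` on the unit edges with values in `ZMod 2` which is even on every face of
`BW w \ BW d` is the increment of a function on the vertices if its sum over the outer boundary (or
over the inner boundary) is zero. Proof: for `y ≥ 0` add `m` along the upper side `y = w` of the box
and then down along the column; the same below; the two functions differ by a constant on the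
right part and on the left part of the axis, and the two constants are equal by the assumption.
-/

set_option autoImplicit false

namespace Pool.Agent.Perc.Q

open Finset Pool.Agent.Perc

variable {d w : ℤ} {m : ℤ × ℤ → ℤ × ℤ → ZMod 2}

/-- `χ` is a potential of `m` on the faces of `F`. -/
def PotOn (F : Set (ℤ × ℤ)) (m : ℤ × ℤ → ℤ × ℤ → ZMod 2) (χ : ℤ × ℤ → ZMod 2) : Prop :=
  ∀ f ∈ F, ∀ k, χ (TQ.c f k) + χ (TQ.c f (k + 1)) = m (TQ.c f k) (TQ.c f (k + 1))

theorem z2_add_self (a : ZMod 2) : a + a = 0 := by revert a; decide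

theorem z2_eq {a b : ZMod 2} (h : a + b = 0) : a = b := by revert a b; decide

theorem tele (g : ℤ → ZMod 2) {a b : ℤ} (h : a ≤ b) :
    ∑ t ∈ Ico a b, (g t + g (t + 1)) = g a + g b := by
  induction b, h using Int.leInduction with
  | base => simp [z2_add_self]
  | succ n hn ih =>
    rw [← Finset.insert_Ico_right_eq_Ico_add_one hn, Finset.sum_insert (by simp), ih]
    generalize g a = x; generalize g n = y; generalize g (n + 1) = z
    revert x y z; decide

theorem sum_Ico_left (g : ℤ → ZMod 2) {a b : ℤ} (h : a < b) :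
    ∑ t ∈ Ico a b, g t = g a + ∑ t ∈ Ico (a + 1) b, g t := by
  have : Ico a b = insert a (Ico (a + 1) b) := by
    ext t; simp only [mem_Ico, mem_insert]; omega
  rw [this, Finset.sum_insert (by simp)]

theorem sum_Ico_right (g : ℤ → ZMod 2) {a b : ℤ} (h : a ≤ b) :
    ∑ t ∈ Ico a (b + 1), g t = g b + ∑ t ∈ Ico a b, g t := by
  have : Ico a (b + 1) = insert b (Ico a b) := by
    ext t; simp only [mem_Ico, mem_insert]; omega
  rw [this, Finset.sum_insert (by simp)]

/-- The sum over the sides of a unit square. -/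
def cell (M : ℤ × ℤ → ℤ × ℤ → ZMod 2) (x y : ℤ) : ZMod 2 :=
  M (x, y) (x + 1, y) + M (x + 1, y) (x + 1, y + 1) + M (x + 1, y + 1) (x, y + 1) +
    M (x, y + 1) (x, y)

/-- Along the row `y = w`, then down the column. -/
noncomputable def upP (M : ℤ × ℤ → ℤ × ℤ → ZMod 2) (w : ℤ) (v : ℤ × ℤ) : ZMod 2 :=
  ∑ s ∈ Ico v.1 w, M (s, w) (s + 1, w) + ∑ t ∈ Ico v.2 w, M (v.1, t) (v.1, t + 1)

/-- Along the row `y = -w`, then up the column. -/
noncomputable def dnP (M : ℤ × ℤ → ℤ × ℤ → ZMod 2) (w : ℤ) (v : ℤ × ℤ) : ZMod 2 :=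
  ∑ s ∈ Ico v.1 w, M (s, -w) (s + 1, -w) + ∑ t ∈ Ico (-w) v.2, M (v.1, t) (v.1, t + 1)

variable {M : ℤ × ℤ → ℤ × ℤ → ZMod 2} {x y : ℤ}

theorem up_v (h : y < w) : upP M w (x, y) + upP M w (x, y + 1) = M (x, y) (x, y + 1) := by
  unfold upP
  simp only
  rw [sum_Ico_left _ h]
  generalize ∑ s ∈ Ico x w, M (s, w) (s + 1, w) = a
  generalize ∑ t ∈ Ico (y + 1) w, M (x, t) (x, t + 1) = b
  generalize M (x, y) (x, y + 1) = c
  revert a b c; decide

theorem dn_v (h : -w ≤ y) : dnP M w (x, y) + dnP M w (x, y + 1) = M (x, y) (x, y + 1) := by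
  unfold dnP
  simp only
  rw [sum_Ico_right _ h]
  generalize ∑ s ∈ Ico x w, M (s, -w) (s + 1, -w) = a
  generalize ∑ t ∈ Ico (-w) y, M (x, t) (x, t + 1) = b
  generalize M (x, y) (x, y + 1) = c
  revert a b c; decide

theorem up_h (hs : ∀ p q, M p q = M q p) (hx : x < w) (hy : y ≤ w)
    (hc : ∀ t, y ≤ t → t < w → cell M x t = 0) :
    upP M w (x, y) + upP M w (x + 1, y) = M (x, y) (x + 1, y) := by
  obtain ⟨n, rfl⟩ : ∃ n : ℕ, y = w - n := ⟨(w - y).toNat, by omega⟩
  induction n with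
  | zero =>
    unfold upP
    simp only [Nat.cast_zero, sub_zero, Ico_self, sum_empty, add_zero]
    rw [sum_Ico_left _ hx]
    generalize ∑ t ∈ Ico (x + 1) w, M (t, w) (t + 1, w) = b
    generalize M (x, w) (x + 1, w) = c
    revert b c; decide
  | succ n ih =>
    have e : w - ((n + 1 : ℕ) : ℤ) + 1 = w - n := by push_cast; ring
    have h1 := up_v (M := M) (w := w) (x := x) (y := w - ((n + 1 : ℕ) : ℤ)) (by push_cast; omega)
    have h2 := up_v (M := M) (w := w) (x := x + 1) (y := w - ((n + 1 : ℕ) : ℤ))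
      (by push_cast; omega)
    have h3 := ih (by omega) (fun t h h' => hc t (by push_cast; omega) h')
    have h4 := hc (w - ((n + 1 : ℕ) : ℤ)) le_rfl (by push_cast; omega)
    unfold cell at h4
    rw [e] at h1 h2 h4
    rw [hs (x + 1, w - (n : ℤ)) (x, w - (n : ℤ)), hs (x, w - (n : ℤ)) (x, _)] at h4
    generalize upP M w (x, w - ((n + 1 : ℕ) : ℤ)) = a1 at *
    generalize upP M w (x + 1, w - ((n + 1 : ℕ) : ℤ)) = a2 at *
    generalize upP M w (x, w - (n : ℤ)) = a3 at *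
    generalize upP M w (x + 1, w - (n : ℤ)) = a4 at *
    generalize M (x, w - ((n + 1 : ℕ) : ℤ)) (x + 1, w - ((n + 1 : ℕ) : ℤ)) = b1 at *
    generalize M (x + 1, w - ((n + 1 : ℕ) : ℤ)) (x + 1, w - (n : ℤ)) = b2 at *
    generalize M (x, w - (n : ℤ)) (x + 1, w - (n : ℤ)) = b3 at *
    generalize M (x, w - ((n + 1 : ℕ) : ℤ)) (x, w - (n : ℤ)) = b4 at *
    clear hs hc ih hx hy e
    subst h1 h2 h3
    revert a1 a2 a3 a4 b1; decide

theorem dn_h (hs : ∀ p q, M p q = M q p) (hx : x < w) (hy : -w ≤ y)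
    (hc : ∀ t, -w ≤ t → t < y → cell M x t = 0) :
    dnP M w (x, y) + dnP M w (x + 1, y) = M (x, y) (x + 1, y) := by
  obtain ⟨n, rfl⟩ : ∃ n : ℕ, y = -w + n := ⟨(w + y).toNat, by omega⟩
  induction n with
  | zero =>
    unfold dnP
    simp only [Nat.cast_zero, add_zero, Ico_self, sum_empty]
    rw [sum_Ico_left _ hx]
    generalize ∑ t ∈ Ico (x + 1) w, M (t, -w) (t + 1, -w) = b
    generalize M (x, -w) (x + 1, -w) = c
    revert b c; decide
  | succ n ih =>
    have e : -w + ((n + 1 : ℕ) : ℤ) = -w + n + 1 := by push_cast; ring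
    rw [e] at hc ⊢
    have h1 := dn_v (M := M) (w := w) (x := x) (y := -w + n) (by omega)
    have h2 := dn_v (M := M) (w := w) (x := x + 1) (y := -w + n) (by omega)
    have h3 := ih (by omega) (fun t h h' => hc t h (by omega))
    have h4 := hc (-w + n) (by omega) (by omega)
    unfold cell at h4
    rw [hs (x + 1, -w + (n : ℤ) + 1) (x, -w + (n : ℤ) + 1),
      hs (x, -w + (n : ℤ) + 1) (x, -w + (n : ℤ))] at h4
    generalize dnP M w (x, -w + (n : ℤ) + 1) = a1 at *
    generalize dnP M w (x + 1, -w + (n : ℤ) + 1) = a2 at *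
    generalize dnP M w (x, -w + (n : ℤ)) = a3 at *
    generalize dnP M w (x + 1, -w + (n : ℤ)) = a4 at *
    generalize M (x, -w + (n : ℤ) + 1) (x + 1, -w + (n : ℤ) + 1) = b1 at *
    generalize M (x + 1, -w + (n : ℤ)) (x + 1, -w + (n : ℤ) + 1) = b2 at *
    generalize M (x, -w + (n : ℤ)) (x + 1, -w + (n : ℤ)) = b3 at *
    generalize M (x, -w + (n : ℤ)) (x, -w + (n : ℤ) + 1) = b4 at *
    clear hs hc ih hx hy e
    subst h1 h2 h3
    revert a1 a2 a3 a4 b1; decide

/-- The cochain in lower coordinates. -/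
def Mlow (m : ℤ × ℤ → ℤ × ℤ → ZMod 2) (p q : ℤ × ℤ) : ZMod 2 := m (twV emP p) (twV emP q)

/-- The lower coordinates of the lower part of the boundary. -/
def bl (r t : ℤ) : ℤ × ℤ :=
  if t ≤ 5 * r + 2 then (-(r + 1), 4 * r + 2 - t)
  else if t ≤ 7 * r + 3 then (t - 6 * r - 3, -r) else (r, t - 8 * r - 3)

variable {r t : ℤ}

theorem twV_bl (hr : 0 ≤ r) (h0 : 4 * r + 2 ≤ t) (h1 : t ≤ 8 * r + 3) :
    twV emP (bl r t) = bd r t := by
  unfold twV emP bl bd
  split_ifs <;> dsimp only at * <;> refine Prod.ext ?_ ?_ <;> dsimp only at * <;> omega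

theorem up_bd (hs : ∀ p q, m p q = m q p) (hr : 0 ≤ r) (hrw : r ≤ w)
    (hc : ∀ x t, -(r + 2) ≤ x → x < r → r ≤ t → t < w → cell m x t = 0)
    (h0 : 0 ≤ t) (h1 : t < 4 * r + 2) :
    m (bd r t) (bd r (t + 1)) = upP m w (bd r t) + upP m w (bd r (t + 1)) := by
  rcases lt_or_ge t r with h | h
  · have e1 : bd r t = (r, t) := by unfold bd; rw [if_pos h.le]
    have e2 : bd r (t + 1) = (r, t + 1) := by unfold bd; rw [if_pos (by omega)]
    rw [e1, e2, up_v (by omega)]
  rcases lt_or_ge t (3 * r + 2) with h' | h'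
  · have e1 : bd r t = (2 * r - t - 1 + 1, r) := by
      unfold bd
      split_ifs <;> refine Prod.ext ?_ ?_ <;> dsimp only <;> omega
    have e2 : bd r (t + 1) = (2 * r - t - 1, r) := by
      unfold bd
      split_ifs <;> refine Prod.ext ?_ ?_ <;> dsimp only <;> omega
    rw [e1, e2, hs]
    refine (up_h hs (by omega) hrw ?_).symm.trans (add_comm _ _)
    intro t' h3 h4
    exact hc _ _ (by omega) (by omega) h3 h4
  · have e1 : bd r t = (-(r + 2), 4 * r + 1 - t + 1) := by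
      unfold bd
      split_ifs <;> refine Prod.ext ?_ ?_ <;> dsimp only <;> omega
    have e2 : bd r (t + 1) = (-(r + 2), 4 * r + 1 - t) := by
      unfold bd
      split_ifs <;> refine Prod.ext ?_ ?_ <;> dsimp only <;> omega
    rw [e1, e2, hs]
    exact (up_v (by omega)).symm.trans (add_comm _ _)

theorem dn_bl (hs : ∀ p q, M p q = M q p) (hr : 0 ≤ r) (hrw : r ≤ w)
    (hc : ∀ x t, -(r + 1) ≤ x → x < r → -w ≤ t → t < -r → cell M x t = 0)
    (h0 : 4 * r + 2 ≤ t) (h1 : t < 8 * r + 3) :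
    M (bl r t) (bl r (t + 1)) = dnP M w (bl r t) + dnP M w (bl r (t + 1)) := by
  rcases lt_or_ge t (5 * r + 2) with h | h
  · have e1 : bl r t = (-(r + 1), 4 * r + 1 - t + 1) := by
      unfold bl
      split_ifs <;> refine Prod.ext ?_ ?_ <;> dsimp only <;> omega
    have e2 : bl r (t + 1) = (-(r + 1), 4 * r + 1 - t) := by
      unfold bl
      split_ifs <;> refine Prod.ext ?_ ?_ <;> dsimp only <;> omega
    rw [e1, e2, hs]
    exact (dn_v (by omega)).symm.trans (add_comm _ _)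
  rcases lt_or_ge t (7 * r + 3) with h' | h'
  · have e1 : bl r t = (t - 6 * r - 3, -r) := by
      unfold bl
      split_ifs <;> refine Prod.ext ?_ ?_ <;> dsimp only <;> omega
    have e2 : bl r (t + 1) = (t - 6 * r - 3 + 1, -r) := by
      unfold bl
      split_ifs <;> refine Prod.ext ?_ ?_ <;> dsimp only <;> omega
    rw [e1, e2, dn_h hs (by omega) (by omega)]
    intro t' h3 h4
    exact hc _ _ (by omega) (by omega) h3 h4
  · have e1 : bl r t = (r, t - 8 * r - 3) := by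
      unfold bl
      split_ifs <;> refine Prod.ext ?_ ?_ <;> dsimp only <;> omega
    have e2 : bl r (t + 1) = (r, t - 8 * r - 3 + 1) := by
      unfold bl
      split_ifs <;> refine Prod.ext ?_ ?_ <;> dsimp only <;> omega
    rw [e1, e2, dn_v (by omega)]

/-- The difference of the two potentials on the axis. -/
noncomputable def Dax (m : ℤ × ℤ → ℤ × ℤ → ZMod 2) (w x : ℤ) : ZMod 2 :=
  upP m w (emP x, 0) + dnP (Mlow m) w (x, 0)

theorem Mlow_symm (hs : ∀ p q, m p q = m q p) (p q : ℤ × ℤ) : Mlow m p q = Mlow m q p := hs _ _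

theorem sum_bd (hs : ∀ p q, m p q = m q p) (hr : 0 ≤ r) (hrw : r ≤ w)
    (hc : ∀ x t, -(r + 2) ≤ x → x < r → r ≤ t → t < w → cell m x t = 0)
    (hc' : ∀ x t, -(r + 1) ≤ x → x < r → -w ≤ t → t < -r → cell (Mlow m) x t = 0) :
    ∑ t ∈ Ico (0 : ℤ) (8 * r + 3), m (bd r t) (bd r (t + 1)) = Dax m w r + Dax m w (-(r + 1)) := by
  have hu : Ico (0 : ℤ) (8 * r + 3) = Ico 0 (4 * r + 2) ∪ Ico (4 * r + 2) (8 * r + 3) :=
    (Finset.Ico_union_Ico_eq_Ico (by omega) (by omega)).symm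
  rw [hu, Finset.sum_union (Finset.Ico_disjoint_Ico_consecutive _ _ _)]
  have h1 : ∑ t ∈ Ico (0 : ℤ) (4 * r + 2), m (bd r t) (bd r (t + 1)) =
      upP m w (bd r 0) + upP m w (bd r (4 * r + 2)) := by
    rw [← tele (fun t => upP m w (bd r t)) (by omega)]
    refine Finset.sum_congr rfl fun t ht => ?_
    rw [mem_Ico] at ht
    exact up_bd hs hr hrw hc ht.1 ht.2
  have h2 : ∑ t ∈ Ico (4 * r + 2) (8 * r + 3), m (bd r t) (bd r (t + 1)) =
      dnP (Mlow m) w (bl r (4 * r + 2)) + dnP (Mlow m) w (bl r (8 * r + 3)) := by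
    rw [← tele (fun t => dnP (Mlow m) w (bl r t)) (by omega)]
    refine Finset.sum_congr rfl fun t ht => ?_
    rw [mem_Ico] at ht
    rw [← twV_bl hr ht.1 (by omega), ← twV_bl hr (by omega) (by omega)]
    exact dn_bl (Mlow_symm hs) hr hrw hc' ht.1 ht.2
  have e0 : bd r 0 = (r, 0) := by unfold bd; rw [if_pos hr]
  have e1 : bd r (4 * r + 2) = (-(r + 2), 0) := by
    unfold bd
    split_ifs <;> refine Prod.ext ?_ ?_ <;> dsimp only <;> omega
  have e2 : bl r (4 * r + 2) = (-(r + 1), 0) := by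
    unfold bl
    split_ifs <;> refine Prod.ext ?_ ?_ <;> dsimp only <;> omega
  have e3 : bl r (8 * r + 3) = (r, 0) := by
    unfold bl
    split_ifs <;> refine Prod.ext ?_ ?_ <;> dsimp only <;> omega
  have e4 : emP r = r := by unfold emP; rw [if_pos hr]
  have e5 : emP (-(r + 1)) = -(r + 2) := by unfold emP; rw [if_neg (by omega)]; ring
  rw [h1, h2, e0, e1, e2, e3]
  unfold Dax
  rw [e4, e5]
  ring

theorem dax_const {a b : ℤ} (h : ∀ x, a ≤ x → x < b → Dax m w x = Dax m w (x + 1)) (hx : a ≤ x)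
    (hxb : x ≤ b) : Dax m w x = Dax m w b := by
  obtain ⟨n, hn⟩ : ∃ n : ℕ, x = b - n := ⟨(b - x).toNat, by omega⟩
  induction n generalizing x with
  | zero => rw [hn]; simp
  | succ n ih =>
    rw [h x hx (by push_cast at hn; omega)]
    exact ih (by omega) (by push_cast at hn; omega) (by push_cast at hn; omega)

theorem psum_z4 {α : Type} [AddCommMonoid α] (g : ZMod 4 → α) :
    ∑ k, g k = g 0 + g 1 + g 2 + g 3 := Fin.sum_univ_four g

theorem mem_ann_up (hx : -(w + 2) ≤ x) (hx' : x < w) (hy : 0 ≤ y) (hy' : y < w)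
    (h : x < -(d + 2) ∨ d ≤ x ∨ d ≤ y) :
    (x, y) ∈ (BW w : Set (ℤ × ℤ)) \ BW d := by
  constructor
  · simp only [BW, RF, coe_union, coe_product, coe_Ico, Set.mem_union, Set.mem_prod, Set.mem_Ico]
    left; omega
  · simp only [BW, RF, coe_union, coe_product, coe_Ico, Set.mem_union, Set.mem_prod, Set.mem_Ico]
    omega

theorem mem_ann_dn (hx : -(w + 1) ≤ x) (hx' : x < w) (hy : -w ≤ y) (hy' : y < 0)
    (h : x < -(d + 1) ∨ d ≤ x ∨ y < -d) :
    (x, y) ∈ (BW w : Set (ℤ × ℤ)) \ BW d := by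
  constructor
  · simp only [BW, RF, coe_union, coe_product, coe_Ico, Set.mem_union, Set.mem_prod, Set.mem_Ico]
    right; omega
  · simp only [BW, RF, coe_union, coe_product, coe_Ico, Set.mem_union, Set.mem_prod, Set.mem_Ico]
    omega

theorem cell_up (hev : ∀ f ∈ (BW w : Set (ℤ × ℤ)) \ BW d,
      ∑ k, m (TQ.c f k) (TQ.c f (k + 1)) = 0)
    (hx : -(w + 2) ≤ x) (hx' : x < w) (hy : 0 ≤ y) (hy' : y < w)
    (h : x < -(d + 2) ∨ d ≤ x ∨ d ≤ y) : cell m x y = 0 := by
  have h1 := hev _ (mem_ann_up hx hx' hy hy' h)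
  rw [psum_z4] at h1
  have c0 : TQ.c (x, y) 0 = (x, y) := by
    show corT emP (x, y) 0 = _
    unfold corT; rw [if_pos hy]; rfl
  have c1 : TQ.c (x, y) 1 = (x + 1, y) := by
    show corT emP (x, y) 1 = _
    unfold corT; rw [if_pos hy]; rfl
  have c2 : TQ.c (x, y) 2 = (x + 1, y + 1) := by
    show corT emP (x, y) 2 = _
    unfold corT; rw [if_pos hy]; rfl
  have c3 : TQ.c (x, y) 3 = (x, y + 1) := by
    show corT emP (x, y) 3 = _
    unfold corT; rw [if_pos hy]; rfl
  have e1 : (0 : ZMod 4) + 1 = 1 := by decide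
  have e2 : (1 : ZMod 4) + 1 = 2 := by decide
  have e3 : (2 : ZMod 4) + 1 = 3 := by decide
  have e4 : (3 : ZMod 4) + 1 = 0 := by decide
  rw [e1, e2, e3, e4, c0, c1, c2, c3] at h1
  exact h1

theorem cell_dn (hev : ∀ f ∈ (BW w : Set (ℤ × ℤ)) \ BW d,
      ∑ k, m (TQ.c f k) (TQ.c f (k + 1)) = 0)
    (hx : -(w + 1) ≤ x) (hx' : x < w) (hy : -w ≤ y) (hy' : y < 0)
    (h : x < -(d + 1) ∨ d ≤ x ∨ y < -d) : cell (Mlow m) x y = 0 := by
  have h1 := hev _ (mem_ann_dn hx hx' hy hy' h)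
  rw [psum_z4] at h1
  have c0 : TQ.c (x, y) 0 = twV emP (x, y) := by
    show corT emP (x, y) 0 = _
    unfold corT; rw [if_neg (by dsimp only; omega)]; rfl
  have c1 : TQ.c (x, y) 1 = twV emP (x + 1, y) := by
    show corT emP (x, y) 1 = _
    unfold corT; rw [if_neg (by dsimp only; omega)]; rfl
  have c2 : TQ.c (x, y) 2 = twV emP (x + 1, y + 1) := by
    show corT emP (x, y) 2 = _
    unfold corT; rw [if_neg (by dsimp only; omega)]; rfl
  have c3 : TQ.c (x, y) 3 = twV emP (x, y + 1) := by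
    show corT emP (x, y) 3 = _
    unfold corT; rw [if_neg (by dsimp only; omega)]; rfl
  have e1 : (0 : ZMod 4) + 1 = 1 := by decide
  have e2 : (1 : ZMod 4) + 1 = 2 := by decide
  have e3 : (2 : ZMod 4) + 1 = 3 := by decide
  have e4 : (3 : ZMod 4) + 1 = 0 := by decide
  rw [e1, e2, e3, e4, c0, c1, c2, c3] at h1
  exact h1

theorem emP_nonneg (h : 0 ≤ x) : emP x = x := by unfold emP; rw [if_pos h]

theorem emP_neg (h : x < 0) : emP x = x - 1 := by unfold emP; rw [if_neg (by omega)]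

theorem ptwV_zero : twV emP (x, 0) = (emP x, 0) := by unfold twV; rw [if_pos rfl]

theorem ptwV_ne (h : y ≠ 0) : twV emP (x, y) = (x, y) := by unfold twV; rw [if_neg h]

theorem dax_right (hs : ∀ p q, m p q = m q p) (hd : 0 ≤ d) (hdw : d < w)
    (hev : ∀ f ∈ (BW w : Set (ℤ × ℤ)) \ BW d, ∑ k, m (TQ.c f k) (TQ.c f (k + 1)) = 0)
    (hx : d ≤ x) (hxw : x < w) : Dax m w x = Dax m w (x + 1) := by
  have h1 := up_h (M := m) (w := w) (x := x) (y := 0) hs hxw (by omega)
    (fun t ht ht' => cell_up hev (by omega) hxw ht ht' (Or.inr (Or.inl hx)))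
  have h2 := dn_h (M := Mlow m) (w := w) (x := x) (y := 0) (Mlow_symm hs) hxw (by omega)
    (fun t ht ht' => cell_dn hev (by omega) hxw ht ht' (Or.inr (Or.inl hx)))
  have h3 : Mlow m (x, 0) (x + 1, 0) = m (x, 0) (x + 1, 0) := by
    unfold Mlow
    rw [ptwV_zero, ptwV_zero, emP_nonneg (by omega), emP_nonneg (by omega)]
  unfold Dax
  rw [emP_nonneg (by omega), emP_nonneg (by omega)]
  rw [h3] at h2
  generalize upP m w (x, 0) = a1 at *
  generalize upP m w (x + 1, 0) = a2 at *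
  generalize dnP (Mlow m) w (x, 0) = a3 at *
  generalize dnP (Mlow m) w (x + 1, 0) = a4 at *
  clear hs hev h3
  generalize m (x, 0) (x + 1, 0) = b at *
  subst h1
  revert a1 a2 a3 a4; decide

theorem dax_left (hs : ∀ p q, m p q = m q p) (hd : 0 ≤ d) (hdw : d < w)
    (hev : ∀ f ∈ (BW w : Set (ℤ × ℤ)) \ BW d, ∑ k, m (TQ.c f k) (TQ.c f (k + 1)) = 0)
    (hx : -(w + 1) ≤ x) (hxw : x < -(d + 1)) : Dax m w x = Dax m w (x + 1) := by
  have h1 := up_h (M := m) (w := w) (x := x - 1) (y := 0) hs (by omega) (by omega)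
    (fun t ht ht' => cell_up hev (by omega) (by omega) ht ht' (Or.inl (by omega)))
  have h2 := dn_h (M := Mlow m) (w := w) (x := x) (y := 0) (Mlow_symm hs) (by omega) (by omega)
    (fun t ht ht' => cell_dn hev (by omega) (by omega) ht ht' (Or.inl hxw))
  have h3 : Mlow m (x, 0) (x + 1, 0) = m (x - 1, 0) (x - 1 + 1, 0) := by
    unfold Mlow
    rw [ptwV_zero, ptwV_zero, emP_neg (by omega), emP_neg (by omega)]
    ring_nf
  unfold Dax
  rw [emP_neg (by omega), emP_neg (by omega)]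
  have e : x + 1 - 1 = x - 1 + 1 := by ring
  rw [h3] at h2
  rw [e]
  generalize upP m w (x - 1, 0) = a1 at *
  generalize upP m w (x - 1 + 1, 0) = a2 at *
  generalize dnP (Mlow m) w (x, 0) = a3 at *
  generalize dnP (Mlow m) w (x + 1, 0) = a4 at *
  clear hs hev h3
  generalize m (x - 1, 0) (x - 1 + 1, 0) = b at *
  subst h1
  revert a1 a2 a3 a4; decide

/-- The potential. -/
noncomputable def chi (m : ℤ × ℤ → ℤ × ℤ → ZMod 2) (w : ℤ) (v : ℤ × ℤ) : ZMod 2 :=
  if 0 ≤ v.2 then upP m w v else dnP (Mlow m) w v + Dax m w w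

theorem exists_pot_aux (hs : ∀ p q, m p q = m q p) (hd : 0 ≤ d) (hdw : d < w)
    (hev : ∀ f ∈ (BW w : Set (ℤ × ℤ)) \ BW d, ∑ k, m (TQ.c f k) (TQ.c f (k + 1)) = 0)
    (hR : ∀ x, d ≤ x → x ≤ w → Dax m w x = Dax m w w)
    (hL : ∀ x, -(w + 1) ≤ x → x ≤ -(d + 1) → Dax m w x = Dax m w w) :
    PotOn ((BW w : Set (ℤ × ℤ)) \ BW d) m (chi m w) := by
  have hlow : ∀ v : ℤ × ℤ, v.2 ≤ 0 → (v.2 = 0 → (d ≤ v.1 ∧ v.1 ≤ w) ∨
      (-(w + 1) ≤ v.1 ∧ v.1 ≤ -(d + 1))) →
      chi m w (twV emP v) = dnP (Mlow m) w v + Dax m w w := by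
    rintro ⟨x, y⟩ hy h
    dsimp only at hy h
    rcases hy.lt_or_eq with h' | h'
    · rw [ptwV_ne h'.ne]
      unfold chi
      rw [if_neg (by dsimp only; omega)]
    · subst h'
      have hD : Dax m w x = Dax m w w := by
        rcases h rfl with ⟨h1, h2⟩ | ⟨h1, h2⟩
        · exact hR x h1 h2
        · exact hL x h1 h2
      rw [ptwV_zero]
      unfold chi
      rw [if_pos (le_refl _), ← hD]
      unfold Dax
      generalize upP m w (emP x, 0) = a
      generalize dnP (Mlow m) w (x, 0) = b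
      clear hD h
      revert a b; decide
  have hcases : ∀ k : ZMod 4, k = 0 ∨ k = 1 ∨ k = 2 ∨ k = 3 := by decide
  have e1 : (0 : ZMod 4) + 1 = 1 := by decide
  have e2 : (1 : ZMod 4) + 1 = 2 := by decide
  have e3 : (2 : ZMod 4) + 1 = 3 := by decide
  have e4 : (3 : ZMod 4) + 1 = 0 := by decide
  rintro ⟨x, y⟩ hf k
  have hf' := hf
  simp only [BW, RF, coe_union, coe_product, coe_Ico, Set.mem_union, Set.mem_prod, Set.mem_Ico,
    Set.mem_sdiff] at hf'
  rcases le_or_gt 0 y with hy | hy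
  · have hx : -(w + 2) ≤ x ∧ x < w ∧ y < w := by omega
    have hx2 : x < -(d + 2) ∨ d ≤ x ∨ d ≤ y := by omega
    have c : ∀ k, TQ.c (x, y) k = cor0 (x, y) k := by
      intro k
      show corT emP (x, y) k = _
      unfold corT; rw [if_pos hy]
    have hc : ∀ v : ℤ × ℤ, 0 ≤ v.2 → chi m w v = upP m w v := by
      intro v hv
      unfold chi; rw [if_pos hv]
    have hcell : ∀ t, y ≤ t → t < w → cell m x t = 0 := fun t ht ht' =>
      cell_up hev hx.1 hx.2.1 (by omega) ht' (by omega)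
    rw [c, c]
    rcases hcases k with rfl | rfl | rfl | rfl
    · rw [e1]
      show chi m w (x, y) + chi m w (x + 1, y) = m (x, y) (x + 1, y)
      rw [hc _ hy, hc _ hy]
      exact up_h hs hx.2.1 hx.2.2.le hcell
    · rw [e2]
      show chi m w (x + 1, y) + chi m w (x + 1, y + 1) = m (x + 1, y) (x + 1, y + 1)
      rw [hc _ hy, hc _ (by dsimp only; omega)]
      exact up_v hx.2.2
    · rw [e3]
      show chi m w (x + 1, y + 1) + chi m w (x, y + 1) = m (x + 1, y + 1) (x, y + 1)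
      rw [hc _ (by dsimp only; omega), hc _ (by dsimp only; omega), hs, add_comm]
      exact up_h hs hx.2.1 (by omega) fun t ht ht' => hcell t (by omega) ht'
    · rw [e4]
      show chi m w (x, y + 1) + chi m w (x, y) = m (x, y + 1) (x, y)
      rw [hc _ (by dsimp only; omega), hc _ hy, hs, add_comm]
      exact up_v hx.2.2
  · have hx : -(w + 1) ≤ x ∧ x < w ∧ -w ≤ y := by omega
    have hx2 : x < -(d + 1) ∨ d ≤ x ∨ y < -d := by omega
    have c : ∀ k, TQ.c (x, y) k = twV emP (cor0 (x, y) k) := by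
      intro k
      show corT emP (x, y) k = _
      unfold corT; rw [if_neg (by dsimp only; omega)]
    have hcell : ∀ t, -w ≤ t → t < y + 1 → cell (Mlow m) x t = 0 := fun t ht ht' =>
      cell_dn hev hx.1 hx.2.1 ht (by omega) (by omega)
    have hm : ∀ u v, m (twV emP u) (twV emP v) = Mlow m u v := fun _ _ => rfl
    have hcan : ∀ a b c e : ZMod 2, a + b = e → a + c + (b + c) = e := by decide
    rw [c, c, hm]
    have hgood : ∀ z, z = x ∨ z = x + 1 → y + 1 = 0 → (d ≤ z ∧ z ≤ w) ∨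
        (-(w + 1) ≤ z ∧ z ≤ -(d + 1)) := by
      intro z hz hy0
      omega
    rcases hcases k with rfl | rfl | rfl | rfl
    · rw [e1]
      show chi m w (twV emP (x, y)) + chi m w (twV emP (x + 1, y)) = Mlow m (x, y) (x + 1, y)
      rw [hlow _ (by dsimp only; omega) (by dsimp only; omega),
        hlow _ (by dsimp only; omega) (by dsimp only; omega)]
      exact hcan _ _ _ _ (dn_h (Mlow_symm hs) hx.2.1 hx.2.2 fun t ht ht' => hcell t ht (by omega))
    · rw [e2]
      show chi m w (twV emP (x + 1, y)) + chi m w (twV emP (x + 1, y + 1)) =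
        Mlow m (x + 1, y) (x + 1, y + 1)
      rw [hlow _ (by dsimp only; omega) (by dsimp only; omega),
        hlow _ (by dsimp only; omega) (hgood _ (Or.inr rfl))]
      exact hcan _ _ _ _ (dn_v hx.2.2)
    · rw [e3]
      show chi m w (twV emP (x + 1, y + 1)) + chi m w (twV emP (x, y + 1)) =
        Mlow m (x + 1, y + 1) (x, y + 1)
      rw [hlow _ (by dsimp only; omega) (hgood _ (Or.inr rfl)),
        hlow _ (by dsimp only; omega) (hgood _ (Or.inl rfl)), Mlow_symm hs, add_comm]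
      exact hcan _ _ _ _ (dn_h (Mlow_symm hs) hx.2.1 (by omega) hcell)
    · rw [e4]
      show chi m w (twV emP (x, y + 1)) + chi m w (twV emP (x, y)) = Mlow m (x, y + 1) (x, y)
      rw [hlow _ (by dsimp only; omega) (hgood _ (Or.inl rfl)),
        hlow _ (by dsimp only; omega) (by dsimp only; omega), Mlow_symm hs, add_comm]
      exact hcan _ _ _ _ (dn_v hx.2.2)

theorem exists_pot_outer (hd : 0 ≤ d) (hdw : d < w) (hsym : ∀ p q, m p q = m q p)
    (hev : ∀ f ∈ (BW w : Set (ℤ × ℤ)) \ BW d, ∑ k, m (TQ.c f k) (TQ.c f (k + 1)) = 0)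
    (hout : ∑ t ∈ Ico (0 : ℤ) (8 * w + 3), m (bd w t) (bd w (t + 1)) = 0) :
    ∃ χ, PotOn ((BW w : Set (ℤ × ℤ)) \ BW d) m χ := by
  refine ⟨chi m w, exists_pot_aux hsym hd hdw hev ?_ ?_⟩
  · intro x hx hxw
    exact dax_const (fun x hx hx' => dax_right hsym hd hdw hev hx hx') hx hxw
  · rw [sum_bd (w := w) hsym (by omega) le_rfl (fun x t _ _ h h' => absurd h' (by omega))
      (fun x t _ _ h h' => absurd h' (by omega))] at hout
    intro x hx hxw
    rw [z2_eq hout, dax_const (a := -(w + 1)) (b := -(d + 1))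
      (fun x hx hx' => dax_left hsym hd hdw hev hx hx') hx hxw,
      ← dax_const (a := -(w + 1)) (b := -(d + 1))
      (fun x hx hx' => dax_left hsym hd hdw hev hx hx') le_rfl (by omega)]

theorem exists_pot_inner (hd : 0 ≤ d) (hdw : d < w) (hsym : ∀ p q, m p q = m q p)
    (hev : ∀ f ∈ (BW w : Set (ℤ × ℤ)) \ BW d, ∑ k, m (TQ.c f k) (TQ.c f (k + 1)) = 0)
    (hin : ∑ t ∈ Ico (0 : ℤ) (8 * d + 3), m (bd d t) (bd d (t + 1)) = 0) :
    ∃ χ, PotOn ((BW w : Set (ℤ × ℤ)) \ BW d) m χ := by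
  have hR : ∀ x, d ≤ x → x ≤ w → Dax m w x = Dax m w w := fun x hx hxw =>
    dax_const (fun x hx hx' => dax_right hsym hd hdw hev hx hx') hx hxw
  refine ⟨chi m w, exists_pot_aux hsym hd hdw hev hR ?_⟩
  rw [sum_bd (w := w) hsym hd hdw.le
    (fun x t h1 h2 h3 h4 => cell_up hev (by omega) (by omega) (by omega) h4 (Or.inr (Or.inr h3)))
    (fun x t h1 h2 h3 h4 => cell_dn hev (by omega) (by omega) h3 (by omega)
      (Or.inr (Or.inr h4)))] at hin
  intro x hx hxw
  rw [← hR d le_rfl hdw.le, z2_eq hin]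
  exact dax_const (a := -(w + 1)) (b := -(d + 1))
      (fun x hx hx' => dax_left hsym hd hdw hev hx hx') hx hxw

end Pool.Agent.Perc.Q
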