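import Pool.Agent.Lib.MP_6bd702_perc3.QSec
import Pool.Agent.Lib.MP_6bd702_perc3.TwPot

/-!
# The sectors of three strands in an annulus of the twisted plane
-/

set_option autoImplicit false

namespace Pool.Agent.Perc.Q

open Finset Pool.Agent.Perc Relation

variable {d w r : ℤ} {ω : Cfg}

/-- The faces of the annulus. -/
def An (d w : ℤ) : Set (ℤ × ℤ) := (BW w : Set (ℤ × ℤ)) \ BW d

theorem BW_mono {d w : ℤ} (h : d ≤ w) : (BW d : Set (ℤ × ℤ)) ⊆ BW w := by
  intro f hf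
  unfold BW at *
  simp only [coe_union, Set.mem_union, mem_coe] at *
  unfold RF at *
  simp only [mem_product, mem_Ico] at *
  omega

theorem bd_ne (hd : 0 ≤ d) (hdw : d < w) {s t : ℤ} (h0 : 0 ≤ s) (h1 : s ≤ 8 * d + 3) (h2 : 0 ≤ t)
    (h3 : t ≤ 8 * w + 3) : bd d s ≠ bd w t := by
  intro h
  unfold bd at h
  split_ifs at h <;> (rw [Prod.mk.injEq] at h; omega)

/-- An initial edge which belongs to a strand is its first edge. -/
theorem eq_of_ini {V Φ : Type} {Q : QC V Φ} {ω : Φ → Bool} {F : Set Φ} {e a : V × V}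
    (ha : a ∈ Orb Q ω F e) (hi : Ini Q F a) : a = e := by
  rcases Orb_pred ha with h | ⟨b, -, f, hf, k, -, h | h⟩
  · exact h
  · exact absurd (by rw [z1]; exact h.2) (hi f hf (k + 1))
  · exact absurd (by rw [z5]; exact h.2) (hi f hf (k + 3))

/-- The reversed edge of an initial edge is terminal. -/
theorem Ini.ter_swap {V Φ : Type} {Q : QC V Φ} {F : Set Φ} {a : V × V} (h : Ini Q F a) :
    Ter Q F a.swap := by
  intro f hf k hk
  refine h f hf k ?_
  rw [← Prod.swap_swap a, hk]; rfl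

/-- The strand which starts at the outer boundary edge `t` reaches the inner box. -/
def Rea (d w : ℤ) (ω : Cfg) (t : ℤ) : Prop :=
  ∃ s, 0 ≤ s ∧ s < 8 * d + 3 ∧ ine d s ∈ Orb TQ ω (An d w) (ine w t)

/-- Three outer boundary edges, the numbers of the boundary edges between them are even. -/
def Alt (w : ℤ) (t : Fin 3 → ℤ) : Prop :=
  0 ≤ t 0 ∧ t 0 < t 1 ∧ t 1 < t 2 ∧ t 2 < 8 * w + 3 ∧ (t 1 - t 0) % 2 = 1 ∧ (t 2 - t 1) % 2 = 1

theorem Alt.mem {t : Fin 3 → ℤ} (h : Alt w t) (i : Fin 3) : 0 ≤ t i ∧ t i < 8 * w + 3 := by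
  obtain ⟨h0, h1, h2, h3, -, -⟩ := h
  fin_cases i <;> constructor <;> simp only [Fin.isValue, Fin.zero_eta, Fin.mk_one, Fin.reduceFinMk]
    <;> omega

/-- The outer boundary edges in a strand which reaches the inner box. -/
theorem indU_outer (hd : 0 ≤ d) (hdw : d < w) {t t' : ℤ} (h0 : 0 ≤ t) (h1 : t < 8 * w + 3)
    (h0' : 0 ≤ t') (h1' : t' < 8 * w + 3) (hr : Rea d w ω t) :
    indU TQ ω (An d w) (ine w t) (bd w t') (bd w (t' + 1)) = if t' = t then 1 else 0 := by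
  have key : (bd w t', bd w (t' + 1)) ∈ Un TQ ω (An d w) (ine w t) ↔ t' = t := by
    refine ⟨?_, fun h => h ▸ Or.inl mem_Orb_self⟩
    rintro (h | h)
    · exact ine_inj (by omega) h0' h1' h0 h1 (eq_of_ini h (ini_outer hd hdw h0' h1'))
    · exfalso
      obtain ⟨s, hs0, hs1, hs⟩ := hr
      have h2 : Ter TQ (An d w) (ine w t').swap := (ini_outer hd hdw h0' h1').ter_swap
      have h3 : Ter TQ (An d w) (ine d s) := by
        have := (ini_inner hd hdw hs0 hs1).ter_swap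
        rwa [Prod.swap_swap] at this
      have h4 := ter_unique hs h h3 h2
      exact bd_ne hd hdw hs0 hs1.le (by omega) (by omega : t' + 1 ≤ 8 * w + 3) (Prod.mk.inj h4).1
  unfold indU
  by_cases h : t' = t
  · rw [if_pos h, if_pos (key.2 h)]
  · rw [if_neg h, if_neg fun h' => h (key.1 h')]

theorem z2_step : ∀ x y z u v : ZMod 2, x + y = u + v → x = z + u → y = z + v := by decide

/-- A step function on the boundary. -/
theorem step_fun {n : ℤ} {g : ℤ → ZMod 2} {j : ℤ → ZMod 2} {G : ℤ → ZMod 2} (hG0 : G 0 = 0)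
    (hg : ∀ t, 0 ≤ t → t < n → g t + g (t + 1) = j t)
    (hG : ∀ t, 0 ≤ t → t < n → G t + G (t + 1) = j t) {t : ℤ} (h0 : 0 ≤ t) (h1 : t ≤ n) :
    g t = g 0 + G t := by
  revert h1
  induction t, h0 using Int.leInduction with
  | base => intro _; rw [hG0, add_zero]
  | succ t ht ih =>
    intro h1
    have a1 := ih (by omega)
    have a2 := hg t ht (by omega)
    have a3 := hG t ht (by omega)
    exact z2_step _ _ _ _ _ (a2.trans a3.symm) a1

/-- Indicator of `a < t`. -/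
def lt2 (a t : ℤ) : ZMod 2 := if a < t then 1 else 0

theorem lt2_step (a t : ℤ) : lt2 a t + lt2 a (t + 1) = if t = a then 1 else 0 := by
  unfold lt2
  split_ifs <;> first | rfl | omega

theorem lt2_zero {a : ℤ} (h : 0 ≤ a) : lt2 a 0 = 0 := if_neg (by omega)

theorem sum_ite_Ico {n a : ℤ} (h0 : 0 ≤ a) (h1 : a < n) :
    ∑ t ∈ Ico (0 : ℤ) n, (if t = a then (1 : ZMod 2) else 0) = 1 := by
  rw [Finset.sum_ite_eq' (Ico (0 : ℤ) n) a (fun _ => (1 : ZMod 2))]
  rw [if_pos (by rw [mem_Ico]; exact ⟨h0, h1⟩)]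

/-- A side of the annulus on its outer boundary. -/
theorem pot_outer (hd : 0 ≤ d) (hdw : d < w) {m : ℤ × ℤ → ℤ × ℤ → ZMod 2} {χ : ℤ × ℤ → ZMod 2}
    (h : PotQ TQ (An d w) m χ) {t : ℤ} (h0 : 0 ≤ t) (h1 : t < 8 * w + 3) :
    χ (bd w t) + χ (bd w (t + 1)) = m (bd w t) (bd w (t + 1)) := by
  obtain ⟨f, hf, hf', k, hk⟩ := ine_face (r := w) (by omega) h0 h1
  have hk' := Prod.mk.inj hk
  have h2 := h f ⟨hf, fun h3 => hf' (BW_mono (by omega) h3)⟩ k
  rw [← hk'.1, ← hk'.2] at h2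
  exact h2

/-- A side of the annulus on its inner boundary. -/
theorem pot_inner (hd : 0 ≤ d) (hdw : d < w) {m : ℤ × ℤ → ℤ × ℤ → ZMod 2}
    (hsym : ∀ p q, m p q = m q p) {χ : ℤ × ℤ → ZMod 2}
    (h : PotQ TQ (An d w) m χ) {t : ℤ} (h0 : 0 ≤ t) (h1 : t < 8 * d + 3) :
    χ (bd d t) + χ (bd d (t + 1)) = m (bd d t) (bd d (t + 1)) := by
  obtain ⟨f, hf, hf', k, hk⟩ := ine_opp hd h0 h1
  have hk' := Prod.mk.inj hk
  have h2 := h f ⟨BW_mono (by omega) hf, hf'⟩ k
  change (bd d (t + 1)) = _ ∧ (bd d t) = _ at hk'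
  rw [← hk'.1, ← hk'.2] at h2
  rw [hsym (bd d t), ← h2, add_comm]

theorem par_cast {a b : ℤ} (h : (a - b) % 2 = 0) : (a : ZMod 2) = b := by
  have : ((a - b : ℤ) : ZMod 2) = 0 := (ZMod.intCast_zmod_eq_zero_iff_dvd _ 2).2 (by
    exact_mod_cast Int.dvd_of_emod_eq_zero h)
  push_cast at this
  exact sub_eq_zero.1 this

theorem par_cast' {a b : ℤ} (h : (a - b) % 2 = 1) : (a : ZMod 2) = b + 1 := by
  have h1 := par_cast (a := a) (b := b + 1) (by omega)
  rw [h1]; push_cast; rfl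

/-- The potentials of three strands, with their values on a boundary cycle. -/
theorem pot_cycle {F : Set (ℤ × ℤ)} {ρ : ℤ} (hρ : 0 ≤ ρ) {t : Fin 3 → ℤ} (ht : Alt ρ t)
    {e : Fin 3 → (ℤ × ℤ) × (ℤ × ℤ)} (hini : ∀ i, Ini TQ F (e i))
    (hind : ∀ i t', 0 ≤ t' → t' < 8 * ρ + 3 →
      indU TQ ω F (e i) (bd ρ t') (bd ρ (t' + 1)) = if t' = t i then 1 else 0)
    (hex : ∀ m : ℤ × ℤ → ℤ × ℤ → ZMod 2, (∀ p q, m p q = m q p) →
      (∀ f ∈ F, ∑ k, m (TQ.c f k) (TQ.c f (k + 1)) = 0) →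
      ∑ t ∈ Ico (0 : ℤ) (8 * ρ + 3), m (bd ρ t) (bd ρ (t + 1)) = 0 → ∃ χ, PotQ TQ F m χ)
    (hside : ∀ (m : ℤ × ℤ → ℤ × ℤ → ZMod 2) (χ : ℤ × ℤ → ZMod 2), (∀ p q, m p q = m q p) →
      PotQ TQ F m χ → ∀ t, 0 ≤ t → t < 8 * ρ + 3 →
      χ (bd ρ t) + χ (bd ρ (t + 1)) = m (bd ρ t) (bd ρ (t + 1))) :
    ∃ (P : Fin 3 → ℤ × ℤ → ZMod 2) (K : ℤ × ℤ → ZMod 2),
      (∀ i, PotQ TQ F (mP TQ ω F e i) (P i)) ∧ PotQ TQ F (mK TQ ω F e) K ∧
      (∀ i j, P j (bd ρ (t i)) = if j = i + 2 then 0 else 1) ∧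
      (∀ i j, P j (bd ρ (t i + 1)) = if j = i then 0 else 1) ∧
      ∀ i, K (bd ρ (t i)) = 0 ∧ K (bd ρ (t i + 1)) = 0 := by
  have hm := ht.mem
  -- pair potentials
  have hex1 : ∀ i, ∃ χ, PotQ TQ F (mP TQ ω F e i) χ := by
    intro i
    refine hex _ (fun p q => mP_symm p q)
      (fun f hf => (mat_mP (i := i) hini).even hf) ?_
    have h1 : ∀ t' ∈ Ico (0 : ℤ) (8 * ρ + 3), mP TQ ω F e i
        (bd ρ t') (bd ρ (t' + 1)) = (if t' = t i then 1 else 0) + if t' = t (i + 1) then 1 else 0 := by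
      intro t' ht'
      rw [mem_Ico] at ht'
      unfold mP
      rw [hind i t' ht'.1 ht'.2, hind (i + 1) t' ht'.1 ht'.2]
    rw [Finset.sum_congr rfl h1, Finset.sum_add_distrib,
      sum_ite_Ico (hm i).1 (hm i).2, sum_ite_Ico (hm _).1 (hm _).2]
    decide
  choose P0 hP0 using hex1
  have hexK : ∃ χ, PotQ TQ F (mK TQ ω F e) χ := by
    refine hex _ (fun p q => mK_symm p q)
      (fun f hf => (mat_mK hini).even hf) ?_
    have h1 : ∀ t' ∈ Ico (0 : ℤ) (8 * ρ + 3), mK TQ ω F e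
        (bd ρ t') (bd ρ (t' + 1)) = 1 + ((if t' = t 0 then 1 else 0) +
          (if t' = t 1 then 1 else 0) + if t' = t 2 then 1 else 0) := by
      intro t' ht'
      rw [mem_Ico] at ht'
      unfold mK
      rw [Fin.sum_univ_three, hind 0 t' ht'.1 ht'.2, hind 1 t' ht'.1 ht'.2,
        hind 2 t' ht'.1 ht'.2]
    rw [Finset.sum_congr rfl h1, Finset.sum_add_distrib, Finset.sum_add_distrib,
      Finset.sum_add_distrib, sum_ite_Ico (hm 0).1 (hm 0).2, sum_ite_Ico (hm 1).1 (hm 1).2,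
      sum_ite_Ico (hm 2).1 (hm 2).2, Finset.sum_const, Int.card_Ico, nsmul_eq_mul, mul_one]
    have h1 : (((8 * ρ + 3 - 0).toNat : ℕ) : ZMod 2) = ((8 * ρ + 3 : ℤ) : ZMod 2) := by
      rw [← Int.cast_natCast, Int.toNat_of_nonneg (by omega), sub_zero]
    rw [h1, par_cast (a := 8 * ρ + 3) (b := 1) (by omega)]
    push_cast
    decide
  obtain ⟨K0, hK0⟩ := hexK
  -- the functions on the cycle
  have hg : ∀ i t', 0 ≤ t' → t' ≤ 8 * ρ + 3 →
      P0 i (bd ρ t') = P0 i (bd ρ 0) + (lt2 (t i) t' + lt2 (t (i + 1)) t') := by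
    intro i t' h0 h1
    refine step_fun (g := fun t' => P0 i (bd ρ t')) (n := 8 * ρ + 3)
      (G := fun t' => lt2 (t i) t' + lt2 (t (i + 1)) t')
      (j := fun t' => (if t' = t i then 1 else 0) + if t' = t (i + 1) then 1 else 0)
      (by simp only [lt2_zero (hm i).1, lt2_zero (hm (i + 1)).1, add_zero]) ?_ ?_ h0 h1
    · intro s hs0 hs1
      rw [hside _ _ (fun p q => mP_symm p q) (hP0 i) s hs0 hs1]
      unfold mP
      rw [hind i s hs0 hs1, hind (i + 1) s hs0 hs1]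
    · intro s _ _
      rw [← lt2_step, ← lt2_step]
      ring
  have hgK : ∀ t', 0 ≤ t' → t' ≤ 8 * ρ + 3 →
      K0 (bd ρ t') = K0 (bd ρ 0) + (t' + lt2 (t 0) t' + lt2 (t 1) t' + lt2 (t 2) t') := by
    intro t' h0 h1
    refine step_fun (g := fun t' => K0 (bd ρ t')) (n := 8 * ρ + 3)
      (G := fun t' => (t' : ZMod 2) + lt2 (t 0) t' + lt2 (t 1) t' + lt2 (t 2) t')
      (j := fun t' => 1 + ((if t' = t 0 then 1 else 0) + (if t' = t 1 then 1 else 0) +
        if t' = t 2 then 1 else 0))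
      (by simp only [lt2_zero (hm 0).1, lt2_zero (hm 1).1, lt2_zero (hm 2).1, add_zero,
        Int.cast_zero]) ?_ ?_ h0 h1
    · intro s hs0 hs1
      rw [hside _ _ (fun p q => mK_symm p q) hK0 s hs0 hs1]
      unfold mK
      rw [Fin.sum_univ_three, hind 0 s hs0 hs1, hind 1 s hs0 hs1, hind 2 s hs0 hs1]
    · intro s _ _
      rw [← lt2_step, ← lt2_step, ← lt2_step]
      push_cast
      generalize (s : ZMod 2) = x
      generalize lt2 (t 0) s = a
      generalize lt2 (t 1) s = b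
      generalize lt2 (t 2) s = c
      generalize lt2 (t 0) (s + 1) = a'
      generalize lt2 (t 1) (s + 1) = b'
      generalize lt2 (t 2) (s + 1) = c'
      revert x a b c a' b' c'
      decide
  obtain ⟨h0, h1, h2, h3, h4, h5⟩ := ht
  -- the constants
  set C : Fin 3 → ZMod 2 := fun i => P0 i (bd ρ 0) + (if i = 2 then 0 else 1) with hC
  set D : ZMod 2 := K0 (bd ρ 0) + (t 0 : ℤ) with hD
  have shiftP : ∀ {m : ℤ × ℤ → ℤ × ℤ → ZMod 2} {χ : ℤ × ℤ → ZMod 2} (c : ZMod 2),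
      PotQ TQ F m χ → PotQ TQ F m (fun v => χ v + c) := by
    intro m χ c h f hf k
    have := h f hf k
    simp only
    rw [← this]
    generalize χ (TQ.c f k) = x
    generalize χ (TQ.c f (k + 1)) = y
    revert x y c
    decide
  have e1 : ∀ x y : ZMod 2, ∀ z, x + y + (x + z) = y + z := by decide
  refine ⟨fun i v => P0 i v + C i, fun v => K0 v + D, fun i => shiftP (C i) (hP0 i),
    shiftP D hK0, ?_, ?_, ?_⟩
  · intro i j
    simp only
    rw [hg j (t i) (hm i).1 (hm i).2.le, hC]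
    simp only
    rw [e1]
    clear_value C D
    clear hC hD hg hgK shiftP hP0 hK0 hind hini hex hside e1
    fin_cases i <;> fin_cases j <;>
      simp only [Fin.isValue, Fin.zero_eta, Fin.mk_one, Fin.reduceFinMk, Fin.reduceAdd, lt2] <;>
      split_ifs <;> first | rfl | (exfalso; omega) | (exfalso; simp_all)
  · intro i j
    simp only
    rw [hg j (t i + 1) (by have := (hm i).1; omega) (by have := (hm i).2; omega), hC]
    simp only
    rw [e1]
    clear_value C D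
    clear hC hD hg hgK shiftP hP0 hK0 hind hini hex hside e1
    fin_cases i <;> fin_cases j <;>
      simp only [Fin.isValue, Fin.zero_eta, Fin.mk_one, Fin.reduceFinMk, Fin.reduceAdd, lt2] <;>
      split_ifs <;> first | rfl | (exfalso; omega) | (exfalso; simp_all)
  · intro i
    simp only
    rw [hgK (t i) (hm i).1 (hm i).2.le, hgK (t i + 1) (by have := (hm i).1; omega)
      (by have := (hm i).2; omega), hD]
    have c1 : ((t 1 : ℤ) : ZMod 2) = (t 0 : ℤ) + 1 := par_cast' h4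
    have c2 : ((t 2 : ℤ) : ZMod 2) = (t 0 : ℤ) := par_cast (by omega)
    clear_value C D
    clear hC hD hg hgK shiftP hP0 hK0 hind hini hex hside e1
    generalize K0 (bd ρ 0) = x
    fin_cases i <;>
      simp only [Fin.isValue, Fin.zero_eta, Fin.mk_one, Fin.reduceFinMk, lt2, Int.cast_add,
        Int.cast_one, c1, c2] <;>
      (generalize ((t 0 : ℤ) : ZMod 2) = y; split_ifs <;>
        first | (exfalso; omega) | (clear * -; revert x y; decide))

/-- Three strands which come from the outer boundary and reach the inner box: the sectors. -/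
theorem secIn (hd : 0 ≤ d) (hdw : d < w) {t : Fin 3 → ℤ} (ht : Alt w t)
    (hr : ∀ i, Rea d w ω (t i)) :
    ∃ (sec : ℤ × ℤ → Fin 3) (kap : ℤ × ℤ → ZMod 2),
      IsSec TQ ω (An d w) (fun i => ine w (t i)) (fun i => i + 2) (fun i => i) sec kap := by
  have hm := ht.mem
  have hini : ∀ i, Ini TQ (An d w) (ine w (t i)) := fun i => ini_outer hd hdw (hm i).1 (hm i).2
  obtain ⟨P, K, h1, h2, h3, h4, h5⟩ := pot_cycle (ω := ω) (F := An d w) (ρ := w) (by omega) ht
    (e := fun i => ine w (t i)) hini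
    (fun i t' h0 h1 => indU_outer hd hdw (hm i).1 (hm i).2 h0 h1 (hr i))
    (fun m hs he ho => exists_pot_outer hd hdw hs he ho)
    (fun m χ _ h t h0 h1 => pot_outer hd hdw h h0 h1)
  exact ⟨_, _, isSec_of_pot hini h1 h2 h3 h4 h5⟩

/-- The strand which leaves the inner box through the edge `t` reaches the outer boundary. -/
def Lea (d w : ℤ) (ω : Cfg) (t : ℤ) : Prop :=
  ∃ s, 0 ≤ s ∧ s < 8 * w + 3 ∧ (ine w s).swap ∈ Orb TQ ω (An d w) (ine d t).swap

/-- The inner boundary edges in a strand which reaches the outer boundary. -/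
theorem indU_inner (hd : 0 ≤ d) (hdw : d < w) {t t' : ℤ} (h0 : 0 ≤ t) (h1 : t < 8 * d + 3)
    (h0' : 0 ≤ t') (h1' : t' < 8 * d + 3) (hr : Lea d w ω t) :
    indU TQ ω (An d w) (ine d t).swap (bd d t') (bd d (t' + 1)) = if t' = t then 1 else 0 := by
  have key : (bd d t', bd d (t' + 1)) ∈ Un TQ ω (An d w) (ine d t).swap ↔ t' = t := by
    refine ⟨?_, fun h => h ▸ Or.inr mem_Orb_self⟩
    rintro (h | h)
    · exfalso
      obtain ⟨s, hs0, hs1, hs⟩ := hr
      have h2 : Ter TQ (An d w) (ine d t') := by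
        have := (ini_inner hd hdw h0' h1').ter_swap
        rwa [Prod.swap_swap] at this
      have h3 : Ter TQ (An d w) (ine w s).swap := (ini_outer hd hdw hs0 hs1).ter_swap
      have h4 := ter_unique h hs h2 h3
      exact bd_ne hd hdw h0' h1'.le (by omega) (by omega : s + 1 ≤ 8 * w + 3) (Prod.mk.inj h4).1
    · have h2 : (ine d t').swap = (ine d t).swap := eq_of_ini h (ini_inner hd hdw h0' h1')
      exact ine_inj hd h0' h1' h0 h1 (Prod.swap_injective h2)
  unfold indU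
  by_cases h : t' = t
  · rw [if_pos h, if_pos (key.2 h)]
  · rw [if_neg h, if_neg fun h' => h (key.1 h')]

/-- Three strands which leave the inner box and reach the outer boundary: the sectors. -/
theorem secOut (hd : 0 ≤ d) (hdw : d < w) {t : Fin 3 → ℤ} (ht : Alt d t)
    (hr : ∀ i, Lea d w ω (t i)) :
    ∃ (sec : ℤ × ℤ → Fin 3) (kap : ℤ × ℤ → ZMod 2),
      IsSec TQ ω (An d w) (fun i => (ine d (t i)).swap) (fun i => i) (fun i => i + 2) sec kap := by
  have hm := ht.mem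
  have hini : ∀ i, Ini TQ (An d w) (ine d (t i)).swap :=
    fun i => ini_inner hd hdw (hm i).1 (hm i).2
  obtain ⟨P, K, h1, h2, h3, h4, h5⟩ := pot_cycle (ω := ω) (F := An d w) (ρ := d) hd ht
    (e := fun i => (ine d (t i)).swap) hini
    (fun i t' h0 h1 => indU_inner hd hdw (hm i).1 (hm i).2 h0 h1 (hr i))
    (fun m hs he ho => exists_pot_inner hd hdw hs he ho)
    (fun m χ hs h t h0 h1 => pot_inner hd hdw hs h h0 h1)
  exact ⟨_, _, isSec_of_pot hini h1 h2 h4 h3 fun i => (h5 i).symm⟩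

/-- The core edges form an alternating triple. -/
theorem alt_core : Alt 0 (fun i : Fin 3 => (i : ℤ)) := by
  unfold Alt
  simp

end Pool.Agent.Perc.Q
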