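import Pool.Agent.Lib.MP_6bd702_perc3.S2Final
import Pool.Agent.Lib.MP_6bd702_perc3.TwSec

/-!
# The three legs of the core leave every box (task Legs)
-/

set_option autoImplicit false

namespace Pool.Agent.Perc.Q

open Finset Pool.Agent.Perc Relation

namespace LegsAux

variable {R : ℤ} {ω : Cfg}

theorem an_zero (R : ℤ) : An 0 R = (BW R : Set (ℤ × ℤ)) := by
  have h : (BW 0 : Set (ℤ × ℤ)) = ∅ := by
    apply Set.eq_empty_of_forall_notMem
    intro f hf
    have h1 : f ∈ BW 0 := hf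
    rw [BdAux.mem_BW] at h1
    omega
  unfold An
  rw [h, Set.sdiff_empty]

theorem ini_leg (hR : 0 < R) (i : Fin 3) : Ini TQ (BW R : Set (ℤ × ℤ)) (leg i) := by
  have h := ini_inner (d := 0) (w := R) (t := (i : ℕ)) le_rfl hR (by omega) (by omega)
  rw [← an_zero R]
  exact h

theorem ini_out (hR : 0 < R) {t : ℤ} (h0 : 0 ≤ t) (h1 : t < 8 * R + 3) :
    Ini TQ (BW R : Set (ℤ × ℤ)) (ine R t) := by
  have h := ini_outer (d := 0) (w := R) (t := t) le_rfl hR h0 h1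
  rw [← an_zero R]
  exact h

/-- Two strands with a common element. -/
theorem orb_eq {V Φ : Type} {Q : QC V Φ} {ω : Φ → Bool} {F : Set Φ} {e e' a : V × V}
    (he : Ini Q F e) (he' : Ini Q F e') (ha : a ∈ Orb Q ω F e) (ha' : a ∈ Orb Q ω F e') :
    e = e' := by
  have h1 : ReflTransGen (Function.swap (Nx Q ω F)) a e := reflTransGen_swap.2 ha
  have h2 : ReflTransGen (Function.swap (Nx Q ω F)) a e' := reflTransGen_swap.2 ha'
  have hu : Relator.RightUnique (Function.swap (Nx Q ω F)) := fun _ _ _ h h' => Nx.inj h h'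
  rcases ReflTransGen.total_of_right_unique hu h1 h2 with h | h
  · exact eq_of_ini (reflTransGen_swap.1 h) he |>.symm ▸ rfl
  · exact (eq_of_ini (reflTransGen_swap.1 h) he').symm

/-- A potential of a matched cochain is constant on the clusters. -/
theorem pot_bond {F : Set (ℤ × ℤ)} {m : ℤ × ℤ → ℤ × ℤ → ZMod 2} {χ : ℤ × ℤ → ZMod 2}
    (hm : Mat TQ ω F m) (hp : PotOn F m χ) {u v : ℤ × ℤ} (h : ConnQ TQ ω F u v) : χ u = χ v := by
  induction h with
  | refl => rfl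
  | tail _ hb ih =>
    rw [ih]
    obtain ⟨f, hf, k, hk, rfl, rfl⟩ := hb
    have h1 := hp f hf k
    have h2 := hp f hf (k + 1)
    rw [z1] at h2
    rw [hm f hf k hk, ← h2] at h1
    generalize χ (TQ.c f k) = a at h1 ⊢
    generalize χ (TQ.c f (k + 1)) = b at h1
    generalize χ (TQ.c f (k + 2)) = c at h1 ⊢
    revert a b c
    decide

theorem inW_of_conn (hR : 0 ≤ R) {u v : ℤ × ℤ} (hu : InW R u)
    (h : ConnQ TQ ω (BW R : Set (ℤ × ℤ)) u v) : InW R v := by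
  rcases ReflTransGen.cases_tail h with h | ⟨b, -, f, hf, k, -, -, rfl⟩
  · rw [h]; exact hu
  · exact inW_corner hR hf _

theorem inW_core (hR : 0 ≤ R) {x : ℤ} (hx : Core x) : InW R (x, 0) := by
  unfold Core at hx
  unfold InW
  dsimp only
  omega

/-- A vertex of the box with a face outside the box is a boundary vertex. -/
theorem bdW_of_corner (hR : 1 ≤ R) {f : ℤ × ℤ} {k : ZMod 4} (hf : f ∉ BW R)
    (h : InW R (TQ.c f k)) : BdW R (TQ.c f k) := by
  obtain ⟨a, b, e, y, x⟩ := BdAux.c_spec f k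
  have e' : (a = 0 ∨ a = 1) ∧ (b = 0 ∨ b = 1) := by
    rcases e with ⟨-, h1, h2⟩ | ⟨-, h1, h2⟩ | ⟨-, h1, h2⟩ | ⟨-, h1, h2⟩ <;> omega
  clear e
  rw [BdAux.mem_BW] at hf
  unfold InW at h
  unfold BdW
  generalize (TQ.c f k).1 = p at *
  generalize (TQ.c f k).2 = q at *
  omega

theorem exit_leg (hR : 1 ≤ R) (hω : ω ∈ Arm3 R) (i : Fin 3) :
    ∃ t, 0 ≤ t ∧ t < 8 * R + 3 ∧ (ine R t).swap ∈ Orb TQ ω (BW R) (leg i) := by
  by_contra hcon
  push Not at hcon
  have hR0 : 0 < R := by omega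
  have hi := ini_leg (R := R) hR0 i
  have hout : ∀ t, 0 ≤ t → t < 8 * R + 3 →
      indU TQ ω (BW R : Set (ℤ × ℤ)) (leg i) (bd R t) (bd R (t + 1)) = 0 := by
    intro t h0 h1
    unfold indU
    rw [if_neg]
    rintro (h | h)
    · have h2 := eq_of_ini h (ini_out hR0 h0 h1)
      have h3 : bd R t = bd 0 ((i : ℕ) + 1) := (Prod.mk.inj h2).1
      exact bd_ne (d := 0) (w := R) le_rfl hR0 (by omega) (by omega) h0 (by omega) h3.symm
    · exact hcon t h0 h1 h
  have hmat : Mat TQ ω (BW R : Set (ℤ × ℤ)) (indU TQ ω (BW R : Set (ℤ × ℤ)) (leg i)) :=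
    fun f hf k hk => indU_eq hi hf hk
  obtain ⟨χ, hχ⟩ := exists_pot_outer (d := 0) (w := R)
    (m := indU TQ ω (BW R : Set (ℤ × ℤ)) (leg i)) le_rfl hR0 (indU_symm TQ ω _ _)
    (fun f hf => hmat.even hf.1)
    (Finset.sum_eq_zero fun t ht => hout t (mem_Ico.1 ht).1 (mem_Ico.1 ht).2)
  have hA : (BW R : Set (ℤ × ℤ)) \ BW 0 = BW R := an_zero R
  rw [hA] at hχ
  have hbd : ∀ t, 0 ≤ t → t < 8 * R + 3 → χ (bd R t) = χ (bd R 0) := by
    intro t h0 h1
    have := step_fun (n := 8 * R + 3) (g := fun t => χ (bd R t)) (j := fun _ => 0)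
      (G := fun _ => 0) rfl ?_ (fun _ _ _ => rfl) h0 h1.le
    · rwa [add_zero] at this
    · intro t h0 h1
      obtain ⟨f, hf, -, k, hk⟩ := ine_face (r := R) hR0 h0 h1
      have hk' := Prod.mk.inj hk
      have h2 := hχ f hf k
      rw [← hk'.1, ← hk'.2, hout t h0 h1] at h2
      exact h2
  have hcore : ∀ x, Core x → χ (x, 0) = χ (bd R 0) := by
    intro x hx
    obtain ⟨v, hv, hb⟩ := hω x hx
    have hv' : ConnQ TQ ω (BW R : Set (ℤ × ℤ)) (x, 0) v := (connQ_iff emP_mono).2 hv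
    rw [pot_bond hmat hχ hv']
    obtain ⟨t, h0, h1, rfl⟩ := (bdW_iff hR0).1 ⟨hb, inW_of_conn hR0.le (inW_core hR0.le hx) hv'⟩
    exact hbd t h0 h1
  obtain ⟨f, hf, -, k, hk⟩ := ine_opp (r := 0) (t := (i : ℕ)) le_rfl (by omega) (by omega)
  have hk' := Prod.mk.inj hk
  have hf' : f ∈ (BW R : Set (ℤ × ℤ)) := BW_mono (by omega) hf
  have h1 := hχ f hf' k
  have h2 : indU TQ ω (BW R : Set (ℤ × ℤ)) (leg i) (TQ.c f k) (TQ.c f (k + 1)) = 1 := by
    unfold indU
    rw [if_pos]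
    rw [← hk]
    exact Or.inl mem_Orb_self
  rw [h2, ← hk'.1, ← hk'.2] at h1
  have h3 : ∀ t : ℤ, 0 ≤ t → t ≤ 3 → χ (bd 0 t) = χ (bd R 0) := by
    intro t h0 h3
    have h4 : ∃ x, Core x ∧ bd 0 t = (x, 0) := by
      have : t = 0 ∨ t = 1 ∨ t = 2 ∨ t = 3 := by omega
      rcases this with rfl | rfl | rfl | rfl
      · exact ⟨0, by unfold Core; omega, by decide⟩
      · exact ⟨-1, by unfold Core; omega, by decide⟩
      · exact ⟨-2, by unfold Core; omega, by decide⟩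
      · exact ⟨0, by unfold Core; omega, by decide⟩
    obtain ⟨x, hx, h5⟩ := h4
    rw [h5, hcore x hx]
  unfold ine at h1
  rw [h3 _ (by omega) (by omega), h3 _ (by omega) (by omega)] at h1
  generalize χ (bd R 0) = a at h1
  revert a
  decide

theorem sort3 {P : ℤ → Prop} {a b c : ℤ} (ha : P a) (hb : P b) (hc : P c) (h1 : a ≠ b)
    (h2 : b ≠ c) (h3 : a ≠ c) : ∃ t : Fin 3 → ℤ, (∀ i, P (t i)) ∧ t 0 < t 1 ∧ t 1 < t 2 := by
  have key : ∀ a b c : ℤ, P a → P b → P c → a < b → b < c →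
      ∃ t : Fin 3 → ℤ, (∀ i, P (t i)) ∧ t 0 < t 1 ∧ t 1 < t 2 := by
    intro a b c ha hb hc h1 h2
    refine ⟨![a, b, c], ?_, h1, h2⟩
    intro i
    fin_cases i
    · exact ha
    · exact hb
    · exact hc
  rcases lt_or_gt_of_ne h1 with h1 | h1 <;> rcases lt_or_gt_of_ne h2 with h2 | h2 <;>
    rcases lt_or_gt_of_ne h3 with h3 | h3
  · exact key a b c ha hb hc h1 h2
  · omega
  · exact key a c b ha hc hb h3 h2
  · exact key c a b hc ha hb h3 h1
  · exact key b a c hb ha hc h1 h3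
  · exact key b c a hb hc ha h2 h3
  · omega
  · exact key c b a hc hb ha h2 h1

end LegsAux

open LegsAux

/-- The three legs have three different tips. -/
theorem tips3 : Tips3 := by
  intro R hR ω hω
  have hR0 : (0 : ℤ) < R := by exact_mod_cast hR
  choose t h0 h1 h2 using exit_leg (R := R) (by omega) hω
  have hne : ∀ i j, t i = t j → i = j := by
    intro i j hij
    have h3 := h2 j
    rw [← hij] at h3
    have h4 := orb_eq (ini_leg hR0 i) (ini_leg hR0 j) (h2 i) h3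
    have h5 : ine 0 (i : ℕ) = ine 0 (j : ℕ) := Prod.swap_injective h4
    have h6 := ine_inj (r := 0) le_rfl (by omega) (by omega) (by omega) (by omega) h5
    exact Fin.ext (by exact_mod_cast h6)
  exact sort3 (P := IsTip R ω) ⟨h0 0, h1 0, 0, h2 0⟩ ⟨h0 1, h1 1, 1, h2 1⟩ ⟨h0 2, h1 2, 2, h2 2⟩
    (fun h => absurd (hne _ _ h) (by decide)) (fun h => absurd (hne _ _ h) (by decide))
    (fun h => absurd (hne _ _ h) (by decide))

/-- Monotonicity. -/
theorem arm3Anti : Arm3Anti := by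
  intro R R' hR hRR ω hω x hx
  have hR0 : (0 : ℤ) < R := by exact_mod_cast hR
  have hRR' : (R : ℤ) ≤ R' := by exact_mod_cast hRR
  obtain ⟨v, hv, hb⟩ := hω x hx
  have hv' : ConnQ TQ ω (BW R' : Set (ℤ × ℤ)) (x, 0) v := (connQ_iff emP_mono).2 hv
  have key : ∀ w, ConnQ TQ ω (BW R' : Set (ℤ × ℤ)) (x, 0) w →
      (ConnQ TQ ω (BW R : Set (ℤ × ℤ)) (x, 0) w ∧ InW R w) ∨
        ∃ v, ConnQ TQ ω (BW R : Set (ℤ × ℤ)) (x, 0) v ∧ BdW R v := by
    intro w hw
    induction hw with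
    | refl => exact Or.inl ⟨ReflTransGen.refl, inW_core hR0.le hx⟩
    | tail _ hb ih =>
      rcases ih with ⟨h1, h2⟩ | h1
      · obtain ⟨f, hf, k, hk, rfl, rfl⟩ := hb
        by_cases hfR : f ∈ BW R
        · exact Or.inl ⟨h1.tail ⟨f, hfR, k, hk, rfl, rfl⟩, inW_corner hR0.le hfR _⟩
        · exact Or.inr ⟨_, h1, bdW_of_corner (by omega) hfR h2⟩
      · exact Or.inr h1
  rcases key v hv' with ⟨h1, h2⟩ | ⟨v, h1, h2⟩
  · refine ⟨v, (connQ_iff emP_mono).1 h1, ?_⟩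
    unfold BdW at hb ⊢
    unfold InW at h2
    omega
  · exact ⟨v, (connQ_iff emP_mono).1 h1, h2⟩

end Pool.Agent.Perc.Q
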