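import Pool.Agent.Lib.MP_6bd702_perc3.TwBd

/-!
# The three legs of the core of the twisted plane: tips and separation (S2)

The boundary edges of the box of radius `R` are numbered by `t`, `0 ≤ t < 8 R + 3`, as in `TwBd`.
-/

set_option autoImplicit false

namespace Pool.Agent.Perc.Q

open Finset Pool.Agent.Perc

/-- The three directed core edges. -/
def leg (i : Fin 3) : (ℤ × ℤ) × (ℤ × ℤ) := (ine 0 (i : ℕ)).swap

/-- A leg of the core leaves the box of radius `R` through the boundary edge `t`. -/
def IsTip (R : ℤ) (ω : Cfg) (t : ℤ) : Prop :=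
  0 ≤ t ∧ t < 8 * R + 3 ∧ ∃ i, (ine R t).swap ∈ Orb TQ ω (BW R) (leg i)

/-- The special positions on the boundary: the ends of the axis, the corners and the middle of the
upper and of the lower side. -/
def spec (R : ℤ) : List ℤ :=
  [0, R, 2 * R + 1, 3 * R + 2, 4 * R + 2, 5 * R + 2, 6 * R + 3, 7 * R + 3, 8 * R + 3]

/-- The position `t` is at distance at least `g` from the special positions. -/
def Away (R g t : ℤ) : Prop := ∀ z ∈ spec R, g ≤ |t - z|

/-- The cyclic distance of two positions is less than `g`. -/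
def Near (R g t t' : ℤ) : Prop := |t - t'| < g ∨ 8 * R + 3 - g < |t - t'|

/-- Two different tips are at distance less than `g`. -/
def Close3 (R g : ℤ) : Set Cfg :=
  {ω | ∃ t t', IsTip R ω t ∧ IsTip R ω t' ∧ t ≠ t' ∧ Near R g t t'}

/-- A tip is at distance less than `g` from a special position. -/
def Spec3 (R g : ℤ) : Set Cfg := {ω | ∃ t, IsTip R ω t ∧ ¬ Away R g t}

/-- Three tips at distance at least `g` from each other and from the special positions. -/
def Sep3 (R g : ℤ) : Set Cfg :=
  {ω | ∃ t : Fin 3 → ℤ, (∀ i, IsTip R ω (t i) ∧ Away R g (t i)) ∧ t 0 + g ≤ t 1 ∧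
    t 1 + g ≤ t 2}

end Pool.Agent.Perc.Q
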