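import Pool.Agent.Lib.MP_6bd702_perc3.TwArc
import Pool.Agent.Lib.MP_6bd702_perc3.S2Defs
import Pool.Agent.Lib.MP_6bd702_perc.Prob

/-!
# Crossing strands of the annuli of the twisted plane (T2): definitions

`Rea d w ω t`: the strand which enters the box of radius `w` through the boundary edge `t` reaches
the box of radius `d`. The main result T2 is the bound `C (d / w) ^ (2 / 3)` for the expected number
of ordered pairs of crossing strands.
-/

set_option autoImplicit false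

namespace Pool.Agent.Perc.Q

open Finset Pool.Agent.Perc

/-- The alternating triples of outer boundary edges. -/
noncomputable def TA (w : ℤ) : Finset (Fin 3 → ℤ) := by
  classical
  exact (Fintype.piFinset fun _ : Fin 3 => Ico (0 : ℤ) (8 * w + 3)).filter fun t => Alt w t

theorem mem_TA {w : ℤ} {t : Fin 3 → ℤ} : t ∈ TA w ↔ Alt w t := by
  classical
  unfold TA
  rw [mem_filter, Fintype.mem_piFinset]
  refine ⟨fun h => h.2, fun h => ⟨fun i => ?_, h⟩⟩
  rw [mem_Ico]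
  exact h.mem i

/-- The three strands reach the box of radius `d`. -/
def Rea3 (d w : ℤ) (t : Fin 3 → ℤ) : Set Cfg := {ω | ∀ i, Rea d w ω (t i)}

/-- The expected number of alternating triples of crossing strands. -/
noncomputable def aT (d w : ℤ) : ℝ := ∑ t ∈ TA w, pr (BW w) (Rea3 d w t)

/-- `s` is the tip of the strand `i` of the triple `t` on the boundary of the inner box. -/
def TipI (d w : ℤ) (ω : Cfg) (t : Fin 3 → ℤ) (i : Fin 3) (s : ℤ) : Prop :=
  0 ≤ s ∧ s < 8 * d + 3 ∧ ine d s ∈ Orb TQ ω (An d w) (ine w (t i))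

/-- Two tips are close to each other. -/
def CloseI (d w g : ℤ) (t : Fin 3 → ℤ) : Set Cfg :=
  {ω | ω ∈ Rea3 d w t ∧ ∃ i j s s', i ≠ j ∧ TipI d w ω t i s ∧ TipI d w ω t j s' ∧ Near d g s s'}

/-- A tip is close to a special position. -/
def SpecI (d w g : ℤ) (t : Fin 3 → ℤ) : Set Cfg :=
  {ω | ω ∈ Rea3 d w t ∧ ∃ i s, TipI d w ω t i s ∧ ¬ Away d g s}

/-- The tips are separated. -/
def SepI (d w g : ℤ) (t : Fin 3 → ℤ) : Set Cfg :=
  {ω | ∃ s : Fin 3 → ℤ, (∀ i, TipI d w ω t i (s i) ∧ Away d g (s i)) ∧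
    ∀ i j, i ≠ j → g ≤ |s i - s j|}

/-- Close tips cost a small factor. -/
def CloseInP : Prop := ∀ q : ℝ, 0 < q → ∃ M : ℕ, 0 < M ∧ ∀ g r w : ℕ, 1 ≤ g → M * g ≤ r →
  2 * r < w → ∀ t : Fin 3 → ℤ, Alt w t →
  pr (BW w) (Rea3 r w t ∩ CloseI (2 * r) w g t) ≤ q * pr (BW w) (Rea3 (2 * r) w t)

/-- Tips near the special positions cost a small factor from the previous scale. -/
def SpecInP : Prop := ∀ q : ℝ, 0 < q → ∃ M : ℕ, 0 < M ∧ ∀ g d w : ℕ, 1 ≤ g → M * g ≤ d →
  2 * d < w → ∀ t : Fin 3 → ℤ, Alt w t →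
  pr (BW w) (SpecI d w g t) ≤ q * pr (BW w) (Rea3 (2 * d) w t)

/-- Separated tips can be joined to the core: all the core vertices are then connected to the outer
boundary. -/
def GlueInP : Prop := ∀ K : ℕ, ∃ C : ℝ, ∃ g₀ : ℕ, 0 < C ∧ ∀ g d w : ℕ, g₀ ≤ g → 1 ≤ d →
  d ≤ K * g → 2 * d < w → ∀ t : Fin 3 → ℤ, Alt w t →
  pr (BW w) (SepI d w g t) * (d : ℝ) ^ (-(2 / 3 : ℝ)) ≤ C * pr (BW w) (Rea3 d w t ∩ Arm3 w)

/-- The expected number of triples of strands which cross the annulus of ratio `2`. -/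
def BaseP : Prop := ∃ C : ℝ, 0 < C ∧ ∀ d w : ℕ, 1 ≤ d → w ≤ 4 * d → 2 * d ≤ w → aT d w ≤ C

/-- The expected number of ordered pairs of crossing strands. -/
noncomputable def nT (d w : ℤ) : ℝ :=
  ∑ p ∈ ((Ico (0 : ℤ) (8 * w + 3)) ×ˢ Ico (0 : ℤ) (8 * w + 3)).filter fun p => p.1 ≠ p.2,
    pr (BW w) {ω | Rea d w ω p.1 ∧ Rea d w ω p.2}

end Pool.Agent.Perc.Q
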