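import Pool.Agent.Lib.MP_6bd702_perc3.Base
import Pool.Agent.Lib.MP_6bd702_perc3.T2Defs

/-!
# The expected number of alternating triples of strands which cross an annulus
-/

set_option autoImplicit false

namespace Pool.Agent.Perc.Q

open Finset Pool.Agent.Perc

theorem aT_le (K : ℕ) : ∃ C : ℝ, 0 < C ∧ ∀ d w : ℤ, 1 ≤ d → d < w → w ≤ K * (w - d) →
    aT d w ≤ C := by
  classical
  obtain ⟨C, hC, H⟩ := sum_rea3_le K
  refine ⟨C, hC, fun d w hd hdw hK => le_trans ?_ (H d w hd hdw hK)⟩
  unfold aT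
  refine sum_le_sum_of_subset_of_nonneg (fun t ht => ?_) fun _ _ _ => pr_nonneg _ _
  rw [Fintype.mem_piFinset]
  intro i
  rw [mem_Ico]
  exact (mem_TA.1 ht).mem i

/-- The expected number of triples of strands which cross the annulus of ratio `2`. -/
theorem baseP : BaseP := by
  obtain ⟨C, hC, H⟩ := aT_le 2
  exact ⟨C, hC, fun d w hd _ hw => H d w (by omega) (by omega) (by push_cast; omega)⟩

end Pool.Agent.Perc.Q
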