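import Pool.Agent.Lib.MP_6bd702_perc3.TwDefs
import Pool.Agent.Lib.MP_6bd702_percu2.Cross
import Pool.Agent.Lib.MP_6bd702_percu2.Inputs

/-!
# Charts of the twisted plane and of the cover of the twisted cylinder

The chart with the shift `s` sends the upper half plane identically to itself and shifts the lower
half plane by `s`. It is valid at the places of the axis where the lower corner `(l + s, 0)` is
glued to the upper vertex `(l, 0)`.
-/

set_option autoImplicit false

namespace Pool.Agent.Perc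

open Finset

/-- The chart with the shift `s` (faces and vertices). -/
def chF (s : ℤ) (f : ℤ × ℤ) : ℤ × ℤ := if 0 ≤ f.2 then f else (f.1 + s, f.2)

/-- A configuration in the chart with the shift `s`. -/
def chC (s : ℤ) (ω : Cfg) : Cfg := fun f => ω (chF s f)

/-- The chart with the shift `s` is valid for the faces of `F`. -/
def ChOk (em : ℤ → ℤ) (s : ℤ) (F : Set (ℤ × ℤ)) : Prop :=
  ∀ f ∈ F, f.2 = -1 → em (f.1 + s) = f.1 ∧ em (f.1 + 1 + s) = f.1 + 1

variable {em : ℤ → ℤ} {s t : ℤ} {ω ω' : Cfg} {F G : Set (ℤ × ℤ)} {u v w f : ℤ × ℤ}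

theorem chF_up (h : 0 ≤ f.2) : chF s f = f := if_pos h

theorem chF_low (h : f.2 < 0) : chF s f = (f.1 + s, f.2) := if_neg (by omega)

theorem chF_snd : (chF s f).2 = f.2 := by
  unfold chF
  split_ifs <;> rfl

theorem chF_inj (s : ℤ) : Function.Injective (chF s) := by
  intro f g h
  have h2 : f.2 = g.2 := by rw [← chF_snd (s := s) (f := f), h, chF_snd]
  rcases lt_or_ge f.2 0 with h0 | h0
  · rw [chF_low h0, chF_low (by omega), Prod.mk.injEq] at h
    exact Prod.ext (by omega) h2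
  · rwa [chF_up h0, chF_up (by omega)] at h

theorem chF_zero (f : ℤ × ℤ) : chF 0 f = f := by
  unfold chF
  split_ifs
  · rfl
  · simp

theorem chC_zero (ω : Cfg) : chC 0 ω = ω := by
  funext f
  unfold chC
  rw [chF_zero]

theorem ChOk.mono (h : ChOk em s G) (hF : F ⊆ G) : ChOk em s F := fun f hf => h f (hF hf)

theorem ChOk.of_up (h : ∀ f ∈ F, 0 ≤ f.2) : ChOk em s F := by
  intro f hf h1
  have := h f hf
  omega

theorem ChOk.of_low (h : ∀ f ∈ F, f.2 ≠ -1) : ChOk em s F := fun f hf h1 => absurd h1 (h f hf)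

/-- The vertex of a corner of a lower face in the chart. -/
theorem chF_cor (hF : ChOk em s F) (hf : f ∈ F) (h0 : f.2 < 0) (hw : IsCor f w) :
    chF s w = twV em (w.1 + s, w.2) := by
  unfold IsCor at hw
  unfold twV
  rcases lt_or_ge w.2 0 with h1 | h1
  · rw [chF_low h1, if_neg (by simp only; omega)]
  · have h2 : w.2 = 0 := by omega
    have h3 := hF f hf (by omega)
    rw [chF_up h1, if_pos h2]
    refine Prod.ext ?_ h2
    simp only
    rcases hw.1 with h4 | h4
    · rw [h4, h3.1]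
    · rw [h4, h3.2]

theorem BondW.mono (hF : F ⊆ G) (h : BondW em ω F u v) : BondW em ω G u v := by
  rcases h with h | ⟨u', v', h, h1, h2⟩
  · exact Or.inl (h.mono fun f hf => ⟨hF hf.1, hf.2⟩)
  · exact Or.inr ⟨u', v', h.mono fun f hf => ⟨hF hf.1, hf.2⟩, h1, h2⟩

theorem ConnW.mono (hF : F ⊆ G) (h : ConnW em ω F u v) : ConnW em ω G u v := by
  induction h with
  | refl => exact Relation.ReflTransGen.refl
  | tail _ hb ih => exact Relation.ReflTransGen.tail ih (hb.mono hF)

theorem BondW.symm' (h : BondW em ω F u v) : BondW em ω F v u := by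
  rcases h with h | ⟨u', v', h, h1, h2⟩
  · exact Or.inl h.symm
  · exact Or.inr ⟨v', u', h.symm, h2, h1⟩

theorem ConnW.symm' (h : ConnW em ω F u v) : ConnW em ω F v u := by
  induction h with
  | refl => exact Relation.ReflTransGen.refl
  | tail _ hb ih => exact Relation.ReflTransGen.head hb.symm' ih

/-- A bond in a chart. -/
theorem bondW_chart (hF : ChOk em s F) (hG : ∀ f ∈ F, chF s f ∈ G)
    (h : Bond (chC s ω) F u v) : BondW em ω G (chF s u) (chF s v) := by
  obtain ⟨f, hf, hb, hu, hv⟩ := h.exists_face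
  rcases lt_or_ge f.2 0 with h0 | h0
  · refine Or.inr ⟨(u.1 + s, u.2), (v.1 + s, v.2), ?_, chF_cor hF hf h0 hu,
      chF_cor hF hf h0 hv⟩
    obtain ⟨x, y, hxy, hh⟩ := hb
    rw [Set.mem_singleton_iff] at hxy
    subst hxy
    have e : chF s (x, y) = (x + s, y) := chF_low h0
    refine ⟨x + s, y, ⟨by rw [← e]; exact hG _ hf, h0⟩, ?_⟩
    unfold chC at hh
    rw [e] at hh
    rcases hh with ⟨h1, ⟨rfl, rfl⟩ | ⟨rfl, rfl⟩⟩ | ⟨h1, ⟨rfl, rfl⟩ | ⟨rfl, rfl⟩⟩
    · exact Or.inl ⟨h1, Or.inl ⟨rfl, Prod.ext (by simp only; omega) rfl⟩⟩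
    · exact Or.inl ⟨h1, Or.inr ⟨Prod.ext (by simp only; omega) rfl, rfl⟩⟩
    · exact Or.inr ⟨h1, Or.inl ⟨rfl, Prod.ext (by simp only; omega) rfl⟩⟩
    · exact Or.inr ⟨h1, Or.inr ⟨Prod.ext (by simp only; omega) rfl, rfl⟩⟩
  · refine Or.inl ?_
    unfold IsCor at hu hv
    rw [chF_up (by omega), chF_up (by omega)]
    obtain ⟨x, y, hxy, hh⟩ := hb
    rw [Set.mem_singleton_iff] at hxy
    subst hxy
    have e : chF s (x, y) = (x, y) := chF_up h0
    refine ⟨x, y, ⟨by rw [← e]; exact hG _ hf, h0⟩, ?_⟩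
    unfold chC at hh
    rw [e] at hh
    exact hh

/-- A path in a chart. -/
theorem connW_chart (hF : ChOk em s F) (hG : ∀ f ∈ F, chF s f ∈ G)
    (h : Conn (chC s ω) F u v) : ConnW em ω G (chF s u) (chF s v) := by
  induction h with
  | refl => exact Relation.ReflTransGen.refl
  | tail _ hb ih => exact Relation.ReflTransGen.tail ih (bondW_chart hF hG hb)

/-- A path in the upper half plane. -/
theorem connW_up (hF : ∀ f ∈ F, 0 ≤ f.2) (h : Conn ω F u v) : ConnW em ω F u v := by
  have h1 := connW_chart (em := em) (s := 0) (ω := ω) (G := F) (ChOk.of_up hF)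
    (fun f hf => by rw [chF_zero]; exact hf) (by rw [chC_zero]; exact h)
  rwa [chF_zero, chF_zero] at h1

/-- A path in the lower half plane, in lower coordinates. -/
theorem connW_low (hF : ∀ f ∈ F, f.2 < 0) (h : Conn ω F u v) :
    ConnW em ω F (twV em u) (twV em v) := by
  induction h with
  | refl => exact Relation.ReflTransGen.refl
  | @tail v w _ hb ih =>
    exact Relation.ReflTransGen.tail ih
      (Or.inr ⟨v, w, hb.mono fun f hf => ⟨hf, hF f hf⟩, rfl, rfl⟩)

/-- Paths in the upper half plane do not depend on the chart. -/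
theorem conn_chC_up (hF : ∀ f ∈ F, 0 ≤ f.2) :
    Conn (chC s ω) F u v ↔ Conn ω F u v := by
  have key : ∀ ω₁ ω₂ : Cfg, (∀ f ∈ F, ω₁ f = ω₂ f) → ∀ {u v : ℤ × ℤ},
      Conn ω₁ F u v → Conn ω₂ F u v := by
    intro ω₁ ω₂ h u v hc
    induction hc with
    | refl => exact Relation.ReflTransGen.refl
    | tail _ hb ih =>
      obtain ⟨x, y, hxy, hh⟩ := hb
      exact Relation.ReflTransGen.tail ih ⟨x, y, hxy, by rw [← h _ hxy]; exact hh⟩
  have e : ∀ f ∈ F, chC s ω f = ω f := by
    intro f hf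
    unfold chC
    rw [chF_up (hF f hf)]
  exact ⟨key _ _ e, key _ _ fun f hf => (e f hf).symm⟩

/-- Paths in the lower half plane in two charts. -/
theorem conn_chC_low (hF : ∀ f ∈ F, f.2 < 0) (hG : ∀ f ∈ F, (f.1 + s - t, f.2) ∈ G)
    (h : Conn (chC s ω) F u v) :
    Conn (chC t ω) G (u.1 + s - t, u.2) (v.1 + s - t, v.2) := by
  induction h with
  | refl => exact Relation.ReflTransGen.refl
  | @tail v w _ hb ih =>
    refine Relation.ReflTransGen.tail ih ?_
    obtain ⟨x, y, hxy, hh⟩ := hb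
    have h0 := hF _ hxy
    refine ⟨x + s - t, y, hG _ hxy, ?_⟩
    have e : chC t ω (x + s - t, y) = chC s ω (x, y) := by
      unfold chC
      rw [chF_low h0, chF_low (by exact h0)]
      congr 2
      omega
    rw [e]
    rcases hh with ⟨h1, ⟨rfl, rfl⟩ | ⟨rfl, rfl⟩⟩ | ⟨h1, ⟨rfl, rfl⟩ | ⟨rfl, rfl⟩⟩
    · exact Or.inl ⟨h1, Or.inl ⟨rfl, Prod.ext (by simp only; omega) rfl⟩⟩
    · exact Or.inl ⟨h1, Or.inr ⟨Prod.ext (by simp only; omega) rfl, rfl⟩⟩
    · exact Or.inr ⟨h1, Or.inl ⟨rfl, Prod.ext (by simp only; omega) rfl⟩⟩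
    · exact Or.inr ⟨h1, Or.inr ⟨Prod.ext (by simp only; omega) rfl, rfl⟩⟩

/-! ### Probabilities -/

/-- The faces in the window for a chart of the cylinder. -/
def chW (m : ℕ) (s : ℤ) (f : ℤ × ℤ) : ℤ × ℤ :=
  if 0 ≤ f.2 then (f.1 % (2 * m + 1), f.2) else ((f.1 + s) % (2 * m), f.2)

theorem chC_perW (m : ℕ) (s : ℤ) (ω : Cfg) : chC s (perW m ω) = fun f => ω (chW m s f) := by
  funext f
  unfold chC perW chW
  rcases lt_or_ge f.2 0 with h | h
  · rw [chF_low h, if_neg (by simp only; omega), if_neg (by omega)]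
  · rw [chF_up h, if_pos h, if_pos h]

/-- An event in a chart, in the twisted plane. -/
theorem pr_chart {S W : Finset (ℤ × ℤ)} {A : Set Cfg} (hA : DepOn S A)
    (hW : ∀ f ∈ S, chF s f ∈ W) : pr W {ω | chC s ω ∈ A} = pr S A :=
  pr_comp (f := chF s) ((chF_inj s).injOn) hW hA

theorem emod_inj {L a x y : ℤ} (hL : 0 < L) (h : x % L = y % L) (hx : a ≤ x) (hx1 : x < a + L)
    (hy : a ≤ y) (hy1 : y < a + L) : x = y := by
  have h1 := Int.emod_add_mul_ediv x L
  have h2 := Int.emod_add_mul_ediv y L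
  have h3 : x - y = L * (x / L - y / L) := by
    rw [mul_sub]
    omega
  have h4 : x / L - y / L = 0 := by
    by_contra h5
    have h6 : 1 ≤ |x / L - y / L| := Int.one_le_abs h5
    have h7 : L * 1 ≤ |x - y| := by
      rw [h3, abs_mul, abs_of_pos hL]
      exact mul_le_mul_of_nonneg_left h6 hL.le
    have h8 : |x - y| < L := by
      rw [abs_lt]
      omega
    omega
  rw [h4, mul_zero] at h3
  omega

/-- An event in a chart, on the cylinder. -/
theorem pr_chart_perW {m : ℕ} {S W : Finset (ℤ × ℤ)} {A : Set Cfg} (hA : DepOn S A) {a : ℤ}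
    (hS : ∀ f ∈ S, a ≤ f.1 ∧ f.1 < a + 2 * m) (hW : ∀ f ∈ S, chW m s f ∈ W) :
    pr W {ω | chC s (perW m ω) ∈ A} = pr S A := by
  have e : {ω : Cfg | chC s (perW m ω) ∈ A} = {ω | (fun f => ω (chW m s f)) ∈ A} := by
    ext ω
    simp only [Set.mem_ofPred_eq, chC_perW]
  rw [e]
  refine pr_comp ?_ hW hA
  intro f hf g hg h
  rw [Finset.mem_coe] at hf hg
  obtain ⟨h1, h2⟩ := hS f hf
  obtain ⟨h3, h4⟩ := hS g hg
  unfold chW at h
  rcases lt_or_ge f.2 0 with h5 | h5
  · rw [if_neg (by omega)] at h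
    rcases lt_or_ge g.2 0 with h6 | h6
    · rw [if_neg (by omega), Prod.mk.injEq] at h
      have h7 := emod_inj (a := a + s) (by omega) h.1 (by omega) (by omega) (by omega) (by omega)
      exact Prod.ext (by omega) h.2
    · rw [if_pos h6, Prod.mk.injEq] at h
      omega
  · rw [if_pos h5] at h
    rcases lt_or_ge g.2 0 with h6 | h6
    · rw [if_neg (by omega), Prod.mk.injEq] at h
      omega
    · rw [if_pos h6, Prod.mk.injEq] at h
      have h7 := emod_inj (a := a) (by omega) h.1 (by omega) (by omega) (by omega) (by omega)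
      exact Prod.ext h7 h.2

/-- The window of the cylinder contains the faces of the strip. -/
theorem chW_mem {m M : ℕ} (hm : 0 < m) (h : -(M : ℤ) ≤ f.2 ∧ f.2 < M) : chW m s f ∈ FW m M := by
  unfold chW FW
  have h1 : (0 : ℤ) < 2 * m + 1 := by omega
  have h2 : (0 : ℤ) < 2 * m := by omega
  rw [mem_union]
  rcases lt_or_ge f.2 0 with h5 | h5
  · rw [if_neg (by omega)]
    right
    rw [mem_RF]
    refine ⟨Int.emod_nonneg _ (by omega), ?_, h.1, h5⟩
    push_cast
    exact Int.emod_lt_of_pos _ h2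
  · rw [if_pos h5]
    left
    rw [mem_RF]
    refine ⟨Int.emod_nonneg _ (by omega), ?_, h5, h.2⟩
    push_cast
    exact Int.emod_lt_of_pos _ h1

/-! ### Monotone events -/

/-- A monotone event which depends on `F` is monotone for every order which agrees on `F`. -/
theorem incD_of_depOn {D D' : ℤ × ℤ → Bool} {A : Set Cfg} (hA : DepOn F A) (hD : IncD D A)
    (h : ∀ f ∈ F, D' f = D f) : IncD D' A := by
  classical
  intro ω ω' hle hω
  have h1 : (fun f => if f ∈ F then ω' f else ω f : Cfg) ∈ A := by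
    refine hD ω _ (fun f hf => ?_) hω
    by_cases hfF : f ∈ F
    · have h2 := hle f (by
        unfold Perc.flip at hf ⊢
        rw [h f hfF]
        exact hf)
      unfold Perc.flip at h2 ⊢
      rw [h f hfF] at h2
      simp only [if_pos hfF]
      exact h2
    · unfold Perc.flip at hf ⊢
      simp only [if_neg hfF]
      exact hf
  refine (hA _ _ fun f hf => ?_).1 h1
  simp only [if_pos hf]

/-- Monotone events under a change of the indices. -/
theorem incD_comp {D D' : ℤ × ℤ → Bool} {A : Set Cfg} (g : ℤ × ℤ → ℤ × ℤ) (hA : DepOn F A)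
    (hD : IncD D A) (h : ∀ f ∈ F, D' (g f) = D f) : IncD D' {ω | (fun f => ω (g f)) ∈ A} := by
  intro ω ω' hle hω
  exact incD_of_depOn (D' := fun f => D' (g f)) hA hD h _ _ (fun f hf => hle (g f) hf) hω

/-- Dependence under a change of the indices. -/
theorem depOn_comp {A : Set Cfg} (g : ℤ × ℤ → ℤ × ℤ) (hA : DepOn F A) (hG : ∀ f ∈ F, g f ∈ G) :
    DepOn G {ω | (fun f => ω (g f)) ∈ A} :=
  fun _ _ h => hA _ _ fun f hf => h _ (hG f hf)

end Pool.Agent.Perc
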