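import Pool.Agent.Lib.MP_6bd702_perc3.TwQ
import Pool.Agent.Lib.MP_6bd702_perc3.TwChart
import Pool.Agent.Lib.MP_6bd702_percw.RswC

/-!
# One arm in the twisted plane (task OneArmT)

In a ball which does not meet the core a path of the twisted plane is a path of the square grid in a
chart (`TwChart`), so the bound `oneArm` of `percw/RswC` applies.
-/

set_option autoImplicit false

namespace Pool.Agent.Perc.Q

open Finset Pool.Agent.Perc

/-- The sup distance of two vertices in coordinates. -/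
def dT (u v : ℤ × ℤ) : ℤ := max |u.1 - v.1| |u.2 - v.2|

/-- The chart with the shift `s` is exact in the box of radius `R` around `p`. -/
def ChEx (s : ℤ) (p : ℤ × ℤ) (R : ℤ) : Prop :=
  ∀ x, p.1 - R ≤ x → x ≤ p.1 + R → p.2 - R ≤ 0 → 0 ≤ p.2 + R → ∀ l, emP l = x ↔ l = x + s

/-- A bond of the twisted plane at a vertex of the chart is a bond of the chart. -/
theorem bond_lift {ω : Cfg} {W : Set (ℤ × ℤ)} {s : ℤ} {p : ℤ × ℤ} {R : ℤ} (H : ChEx s p R)
    {w u2 : ℤ × ℤ} (h1 : p.1 - R < w.1) (h2 : w.1 < p.1 + R) (h3 : p.2 - R < w.2)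
    (h4 : w.2 < p.2 + R) (hb : BondW emP ω W (chF s w) u2) :
    ∃ w2, chF s w2 = u2 ∧ Bond (chC s ω) (RFb p R) w w2 := by
  rcases hb with hb | ⟨u', v', hb, hu, hv⟩
  · obtain ⟨x, y, ⟨_, hy⟩, hh⟩ := hb
    change 0 ≤ y at hy
    have hw2 : 0 ≤ (chF s w).2 := by
      rcases hh with ⟨_, ⟨h, _⟩ | ⟨h, _⟩⟩ | ⟨_, ⟨h, _⟩ | ⟨h, _⟩⟩ <;> rw [h] <;> simp only <;> omega
    rw [chF_snd] at hw2
    rw [chF_up hw2] at hh
    have hu2 : 0 ≤ u2.2 := by
      rcases hh with ⟨_, ⟨_, h⟩ | ⟨_, h⟩⟩ | ⟨_, ⟨_, h⟩ | ⟨_, h⟩⟩ <;> rw [h] <;> simp only <;> omega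
    refine ⟨u2, chF_up hu2, x, y, ?_, ?_⟩
    · rw [Finset.mem_coe, mem_RFb]
      rcases hh with ⟨_, ⟨h, _⟩ | ⟨h, _⟩⟩ | ⟨_, ⟨h, _⟩ | ⟨h, _⟩⟩ <;> rw [h] at h1 h2 h3 h4 <;>
        simp only at h1 h2 h3 h4 ⊢ <;> omega
    · have e : chC s ω (x, y) = ω (x, y) := by
        unfold chC
        rw [chF_up (by exact hy)]
      rw [e]
      exact hh
  · obtain ⟨x, y, ⟨_, hy⟩, hh⟩ := hb
    change y < 0 at hy
    -- both corners
    have hcu : (u'.1 = x ∨ u'.1 = x + 1) ∧ (u'.2 = y ∨ u'.2 = y + 1) := by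
      rcases hh with ⟨_, ⟨h, _⟩ | ⟨h, _⟩⟩ | ⟨_, ⟨h, _⟩ | ⟨h, _⟩⟩ <;> rw [h] <;> simp
    have hcv : (v'.1 = x ∨ v'.1 = x + 1) ∧ (v'.2 = y ∨ v'.2 = y + 1) := by
      rcases hh with ⟨_, ⟨_, h⟩ | ⟨_, h⟩⟩ | ⟨_, ⟨_, h⟩ | ⟨_, h⟩⟩ <;> rw [h] <;> simp
    have hw : w = (u'.1 - s, u'.2) := by
      unfold twV at hu
      split_ifs at hu with h0
      · have h5 : w.2 = 0 := by
          have := congrArg Prod.snd hu
          rwa [chF_snd] at this
        rw [chF_up (by omega)] at hu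
        have h6 : emP u'.1 = w.1 := (congrArg Prod.fst hu).symm
        rw [H w.1 (by omega) (by omega) (by omega) (by omega)] at h6
        exact Prod.ext (by simp only; omega) (by simp only; omega)
      · have h5 : w.2 = u'.2 := by
          have := congrArg Prod.snd hu
          rwa [chF_snd] at this
        rw [chF_low (by omega)] at hu
        have h6 : w.1 + s = u'.1 := congrArg Prod.fst hu
        exact Prod.ext (by simp only; omega) (by simp only; omega)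
    have hw1 : w.1 = u'.1 - s := by rw [hw]
    have hw2 : w.2 = u'.2 := by rw [hw]
    refine ⟨(v'.1 - s, v'.2), ?_, x - s, y, ?_, ?_⟩
    · rw [hv]
      unfold twV
      split_ifs with h0
      · rw [chF_up (by simp only; omega)]
        have h6 := (H (v'.1 - s) (by omega) (by omega) (by omega) (by omega) v'.1).2 (by omega)
        rw [h6]
        exact Prod.ext rfl (by simp only; omega)
      · rw [chF_low (by simp only; omega)]
        exact Prod.ext (by simp only; omega) rfl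
    · rw [Finset.mem_coe, mem_RFb]
      simp only
      omega
    · have e : chC s ω (x - s, y) = ω (x, y) := by
        unfold chC
        rw [chF_low (by exact hy)]
        simp
      rw [e, hw]
      rcases hh with ⟨h5, ⟨rfl, rfl⟩ | ⟨rfl, rfl⟩⟩ | ⟨h5, ⟨rfl, rfl⟩ | ⟨rfl, rfl⟩⟩
      · exact Or.inl ⟨h5, Or.inl ⟨rfl, Prod.ext (by simp only; omega) rfl⟩⟩
      · exact Or.inl ⟨h5, Or.inr ⟨Prod.ext (by simp only; omega) rfl, rfl⟩⟩
      · exact Or.inr ⟨h5, Or.inl ⟨rfl, Prod.ext (by simp only; omega) rfl⟩⟩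
      · exact Or.inr ⟨h5, Or.inr ⟨Prod.ext (by simp only; omega) rfl, rfl⟩⟩

/-- A path of the twisted plane which starts in the chart stays in the chart or reaches the boundary
of the box. -/
theorem path_lift {ω : Cfg} {W : Set (ℤ × ℤ)} {s : ℤ} {p : ℤ × ℤ} {R : ℤ} (H : ChEx s p R)
    {w z : ℤ × ℤ} (h1 : p.1 - R < w.1) (h2 : w.1 < p.1 + R) (h3 : p.2 - R < w.2)
    (h4 : w.2 < p.2 + R) (hb : ConnW emP ω W (chF s w) z) :
    (∃ z', chF s z' = z ∧ p.1 - R < z'.1 ∧ z'.1 < p.1 + R ∧ p.2 - R < z'.2 ∧ z'.2 < p.2 + R) ∨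
      ∃ v, OnBd (p.1 - R) (p.1 + R) (p.2 - R) (p.2 + R) v ∧ Conn (chC s ω) (RFb p R) w v := by
  have key : (∃ z', chF s z' = z ∧ p.1 - R < z'.1 ∧ z'.1 < p.1 + R ∧ p.2 - R < z'.2 ∧
      z'.2 < p.2 + R ∧ Conn (chC s ω) (RFb p R) w z') ∨
      ∃ v, OnBd (p.1 - R) (p.1 + R) (p.2 - R) (p.2 + R) v ∧ Conn (chC s ω) (RFb p R) w v := by
    induction hb with
    | refl => exact Or.inl ⟨w, rfl, h1, h2, h3, h4, Relation.ReflTransGen.refl⟩
    | @tail u v _ hbv ih =>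
      rcases ih with ⟨u', rfl, a1, a2, a3, a4, a5⟩ | h
      · obtain ⟨v', rfl, hbd⟩ := bond_lift H a1 a2 a3 a4 hbv
        obtain ⟨f, hf, _, hcu, hcv⟩ := hbd.exists_face
        unfold IsCor at hcu hcv
        by_cases hin : p.1 - R < v'.1 ∧ v'.1 < p.1 + R ∧ p.2 - R < v'.2 ∧ v'.2 < p.2 + R
        · exact Or.inl ⟨v', rfl, hin.1, hin.2.1, hin.2.2.1, hin.2.2.2, a5.tail hbd⟩
        · refine Or.inr ⟨v', ?_, a5.tail hbd⟩
          unfold OnBd
          omega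
      · exact Or.inr h
  rcases key with ⟨z', b1, b2, b3, b4, b5, _⟩ | h
  · exact Or.inl ⟨z', b1, b2, b3, b4, b5⟩
  · exact Or.inr h

theorem emP_iff_nonneg {x : ℤ} (hx : 0 ≤ x) (l : ℤ) : emP l = x ↔ l = x + 0 := by
  unfold emP
  split_ifs <;> omega

theorem emP_iff_neg {x : ℤ} (hx : x ≤ -2) (l : ℤ) : emP l = x ↔ l = x + 1 := by
  unfold emP
  split_ifs <;> omega

/-- Every ball which does not meet the core has a chart. -/
theorem exists_chart {v₀ : ℤ × ℤ} {R : ℤ} (hR : 2 ≤ R) (h : R + 4 ≤ max |v₀.1| |v₀.2|) :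
    ∃ s, 0 ≤ s ∧ s ≤ 1 ∧ ChEx s v₀ (R - 2) := by
  rw [le_max_iff] at h
  by_cases h1 : R + 4 ≤ |v₀.2|
  · refine ⟨0, le_rfl, by norm_num, ?_⟩
    intro x _ _ h4 h5
    rw [le_abs] at h1
    omega
  · have h2 : R + 4 ≤ |v₀.1| := by tauto
    rw [le_abs] at h2
    rcases h2 with h2 | h2
    · refine ⟨0, le_rfl, by norm_num, ?_⟩
      intro x h4 h5 _ _
      exact emP_iff_nonneg (by omega)
    · refine ⟨1, by norm_num, le_rfl, ?_⟩
      intro x h4 h5 _ _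
      exact emP_iff_neg (by omega)

/-- One arm: a path of the faces of `W` from the ball of radius `g` to the outside of the ball of
radius `R`, where the ball of radius `R` does not contain the core. -/
theorem oneArmT : ∃ C β : ℝ, 0 < C ∧ 0 < β ∧ ∀ (v₀ : ℤ × ℤ) (g R : ℤ) (W : Finset (ℤ × ℤ)),
    1 ≤ g → g ≤ R → R + 4 ≤ max |v₀.1| |v₀.2| →
    pr W {ξ | ∃ y z, dT y v₀ ≤ g ∧ R ≤ dT z v₀ ∧ ConnQ TQ ξ W y z} ≤ C * ((g : ℝ) / R) ^ β := by
  obtain ⟨C, β, hC, hβ, hone⟩ := oneArm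
  refine ⟨2 * C * 8 ^ β + 8 ^ β, β, by positivity, hβ, ?_⟩
  intro v₀ g R W hg hgR hR
  have hg' : (0 : ℝ) < g := by exact_mod_cast (by omega : 0 < g)
  have hR' : (0 : ℝ) < R := by exact_mod_cast (by omega : 0 < R)
  by_cases hbig : R < 8 * g
  · -- trivial case
    have h1 : (1 : ℝ) ≤ 8 ^ β * ((g : ℝ) / R) ^ β := by
      rw [← Real.mul_rpow (by norm_num) (by positivity)]
      refine Real.one_le_rpow ?_ hβ.le
      rw [← mul_div_assoc, one_le_div hR']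
      exact_mod_cast hbig.le
    have h2 : (0 : ℝ) ≤ 2 * C * 8 ^ β * ((g : ℝ) / R) ^ β := by positivity
    calc _ ≤ (1 : ℝ) := pr_le_one _ _
      _ ≤ _ := by rw [add_mul]; linarith
  rw [not_lt] at hbig
  obtain ⟨s, hs0, hs1, hex⟩ := exists_chart (by omega) hR
  set E : Set Cfg := {ξ | ∃ y z, dT y v₀ ≤ g ∧ R ≤ dT z v₀ ∧ ConnQ TQ ξ W y z} with hE
  have hdep : DepOn (W : Set (ℤ × ℤ)) E := by
    intro ω ω' h
    constructor
    · rintro ⟨y, z, h1, h2, h3⟩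
      exact ⟨y, z, h1, h2, h3.congr h⟩
    · rintro ⟨y, z, h1, h2, h3⟩
      exact ⟨y, z, h1, h2, h3.congr fun f hf => (h f hf).symm⟩
  set W' : Finset (ℤ × ℤ) := W ∪ (RFb v₀ (R - 2)).image (chF s) with hW'
  have e1 : pr W' E = pr W E := pr_eq_of_depOn hdep subset_union_left
  have hsub : ∀ ω ∈ E, ω ∈ {ω | chC s ω ∈ ArmB 0 v₀ (2 * g) (R - 2)} ∪
      {ω | chC s ω ∈ ArmB 1 v₀ (2 * g) (R - 2)} := by
    rintro ω ⟨y, z, hy, hz, hc⟩
    have hcw : ConnW emP ω W y z := (connQ_iff emP_mono).1 hc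
    -- the chart at `y`
    obtain ⟨y', hy', hyc1, hyc2⟩ : ∃ y', chF s y' = y ∧ |y'.1 - y.1| ≤ 1 ∧ y'.2 = y.2 := by
      by_cases h0 : 0 ≤ y.2
      · exact ⟨y, chF_up h0, by simp, rfl⟩
      · refine ⟨(y.1 - s, y.2), ?_, ?_, rfl⟩
        · rw [chF_low (by simp only; omega)]
          exact Prod.ext (by simp only; omega) rfl
        · simp only
          rw [abs_le]
          omega
    unfold dT at hy hz
    rw [max_le_iff, abs_le, abs_le] at hy
    rw [abs_le] at hyc1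
    subst hy'
    rcases path_lift hex (w := y') (by omega) (by omega) (by omega) (by omega) hcw with
      ⟨z', rfl, b1, b2, b3, b4⟩ | ⟨v, hv, hvc⟩
    · exfalso
      have hz1 : |(chF s z').1 - z'.1| ≤ 1 := by
        unfold chF
        split_ifs
        · simp
        · simp only
          rw [abs_le]
          omega
      have hz2 : (chF s z').2 = z'.2 := chF_snd
      rw [abs_le] at hz1
      rw [le_max_iff, le_abs, le_abs] at hz
      omega
    · rcases Int.emod_two_eq_zero_or_one (y'.1 + y'.2) with h | h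
      · refine Or.inl ⟨y', v, by omega, by omega, by omega, by omega, by omega, hv, hvc⟩
      · refine Or.inr ⟨y', v, by omega, by omega, by omega, by omega, by omega, hv, hvc⟩
  have hmem : ∀ f ∈ RFb v₀ (R - 2), chF s f ∈ W' := fun f hf =>
    mem_union_right _ (mem_image_of_mem _ hf)
  have hg2 : 0 < 2 * g := by omega
  have hgR2 : 2 * g ≤ R - 2 := by omega
  have h0 := hone 0 v₀ (2 * g) (R - 2) hg2 hgR2
  have h1 := hone 1 v₀ (2 * g) (R - 2) hg2 hgR2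
  have hRr : (8 : ℝ) ≤ R := by exact_mod_cast (by omega : (8 : ℤ) ≤ R)
  have hpow : ((((2 * g : ℤ) : ℝ)) / ((R - 2 : ℤ) : ℝ)) ^ β ≤ 8 ^ β * ((g : ℝ) / R) ^ β := by
    rw [← Real.mul_rpow (by norm_num) (by positivity)]
    push_cast
    refine Real.rpow_le_rpow (div_nonneg (by positivity) (by linarith)) ?_ hβ.le
    rw [← mul_div_assoc, div_le_div_iff₀ (by linarith) hR']
    nlinarith
  rw [← e1]
  calc pr W' E ≤ pr W' ({ω | chC s ω ∈ ArmB 0 v₀ (2 * g) (R - 2)} ∪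
        {ω | chC s ω ∈ ArmB 1 v₀ (2 * g) (R - 2)}) := pr_mono _ hsub
    _ ≤ pr W' {ω | chC s ω ∈ ArmB 0 v₀ (2 * g) (R - 2)} +
        pr W' {ω | chC s ω ∈ ArmB 1 v₀ (2 * g) (R - 2)} := pr_union_le _ _ _
    _ = pr (RFb v₀ (R - 2)) (ArmB 0 v₀ (2 * g) (R - 2)) +
        pr (RFb v₀ (R - 2)) (ArmB 1 v₀ (2 * g) (R - 2)) := by
        rw [pr_chart (depOn_ArmB 0 v₀ (2 * g) (R - 2)) hmem,
          pr_chart (depOn_ArmB 1 v₀ (2 * g) (R - 2)) hmem]
    _ ≤ C * (8 ^ β * ((g : ℝ) / R) ^ β) + C * (8 ^ β * ((g : ℝ) / R) ^ β) :=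
        add_le_add (h0.trans (mul_le_mul_of_nonneg_left hpow hC.le))
          (h1.trans (mul_le_mul_of_nonneg_left hpow hC.le))
    _ ≤ (2 * C * 8 ^ β + 8 ^ β) * ((g : ℝ) / R) ^ β := by
        have : (0 : ℝ) ≤ 8 ^ β * ((g : ℝ) / R) ^ β := by positivity
        nlinarith

end Pool.Agent.Perc.Q
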