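import Pool.Agent.Lib.MP_6bd702_perc3.TwArc
import Pool.Agent.Lib.MP_6bd702_perc3.Legs
import Pool.Agent.Lib.MP_6bd702_perc3.OneArmT

/-!
# The boundary cycles: distances
-/

set_option autoImplicit false

namespace Pool.Agent.Perc.Q

open Finset Pool.Agent.Perc Relation

variable {r d x y : ℤ} {f : ℤ × ℤ} {k : ZMod 4} {u v z : ℤ × ℤ}

theorem dT_comm (u v : ℤ × ℤ) : dT u v = dT v u := by
  unfold dT
  rw [abs_sub_comm u.1, abs_sub_comm u.2]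

theorem dT_le_iff {n : ℤ} : dT u v ≤ n ↔ |u.1 - v.1| ≤ n ∧ |u.2 - v.2| ≤ n := max_le_iff

theorem dT_triangle (u v z : ℤ × ℤ) : dT u z ≤ dT u v + dT v z := by
  have h1 : dT u v ≤ dT u v := le_refl _
  have h2 : dT v z ≤ dT v z := le_refl _
  rw [dT_le_iff, abs_le, abs_le] at h1 h2
  rw [dT_le_iff, abs_le, abs_le]
  omega

/-- The sup norm. -/
def nT1 (v : ℤ × ℤ) : ℤ := max |v.1| |v.2|

theorem nT1_le_iff {n : ℤ} : nT1 v ≤ n ↔ |v.1| ≤ n ∧ |v.2| ≤ n := max_le_iff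

theorem nT1_sub_le (u v : ℤ × ℤ) : nT1 u - nT1 v ≤ dT u v := by
  have h1 : dT u v ≤ dT u v := le_refl _
  have h2 : nT1 v ≤ nT1 v := le_refl _
  rw [dT_le_iff, abs_le, abs_le] at h1
  rw [nT1_le_iff, abs_le, abs_le] at h2
  have h3 : nT1 u ≤ dT u v + nT1 v := by
    rw [nT1_le_iff, abs_le, abs_le]
    omega
  omega

theorem nT1_inW (h : InW r v) : nT1 v ≤ r + 2 := by
  unfold InW at h
  rw [nT1_le_iff, abs_le, abs_le]
  omega

theorem bd_cases (hr : 0 ≤ r) (h0 : 0 ≤ x) (h1 : x ≤ 8 * r + 3) :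
    InW r (bd r x) ∧ r ≤ nT1 (bd r x) := by
  unfold InW nT1 bd
  split_ifs <;> simp only [le_max_iff, le_abs] <;> omega

theorem bdc_cases (hr : 0 ≤ r) (x : ℤ) : InW r (bdc r x) ∧ r ≤ nT1 (bdc r x) := by
  unfold bdc
  exact bd_cases hr (Int.emod_nonneg _ (by omega)) (Int.emod_lt_of_pos _ (by omega)).le

theorem inW_bdc (hr : 0 ≤ r) (x : ℤ) : InW r (bdc r x) := (bdc_cases hr x).1

theorem dT_bd_succ (hr : 1 ≤ r) (h0 : 0 ≤ x) (h1 : x < 8 * r + 3) :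
    dT (bd r x) (bd r (x + 1)) ≤ 1 := by
  rw [dT_le_iff, abs_le, abs_le]
  unfold bd
  split_ifs <;> simp only <;> omega

theorem dT_bdc_succ (hr : 1 ≤ r) (x : ℤ) : dT (bdc r x) (bdc r (x + 1)) ≤ 1 := by
  have h0 := Int.emod_nonneg x (show 8 * r + 3 ≠ 0 by omega)
  have h1 := Int.emod_lt_of_pos x (show 0 < 8 * r + 3 by omega)
  have e2 : bdc r (x + 1) = bd r (x % (8 * r + 3) + 1) := by
    rw [← bdc_succ (by omega) h0 h1]
    refine bdc_per ?_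
    have := Int.emod_add_mul_ediv x (8 * r + 3)
    exact ⟨x / (8 * r + 3), by linarith⟩
  rw [e2]
  exact dT_bd_succ hr h0 h1

theorem dT_self (v : ℤ × ℤ) : dT v v = 0 := by simp [dT]

theorem dT_bdc_add (hr : 1 ≤ r) (x : ℤ) (n : ℕ) : dT (bdc r x) (bdc r (x + n)) ≤ n := by
  induction n with
  | zero => rw [Nat.cast_zero, add_zero, dT_self]
  | succ n ih =>
    have h1 := dT_bdc_succ hr (x + n)
    have h2 := dT_triangle (bdc r x) (bdc r (x + n)) (bdc r (x + n + 1))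
    push_cast
    rw [← add_assoc]
    omega

theorem dT_bdc (hr : 1 ≤ r) (x y : ℤ) : dT (bdc r x) (bdc r y) ≤ |x - y| := by
  rcases le_total x y with h | h
  · have h1 := dT_bdc_add hr x (y - x).toNat
    rw [Int.toNat_of_nonneg (by omega)] at h1
    rw [show x + (y - x) = y by ring] at h1
    rw [abs_sub_comm, abs_of_nonneg (by omega)]
    exact h1
  · have h1 := dT_bdc_add hr y (x - y).toNat
    rw [Int.toNat_of_nonneg (by omega)] at h1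
    rw [show y + (x - y) = x by ring] at h1
    rw [dT_comm, abs_of_nonneg (by omega)]
    exact h1

/-- The four corners, in a form for `omega`. -/
theorem corner_cases (f : ℤ × ℤ) (k : ZMod 4) :
    ((TQ.c f k).2 = f.2 ∨ (TQ.c f k).2 = f.2 + 1) ∧
    (((TQ.c f k).1 = f.1 ∨ (TQ.c f k).1 = f.1 + 1) ∨
      (f.2 = -1 ∧ (TQ.c f k).2 = 0 ∧ ((TQ.c f k).1 = f.1 - 1 ∨ (TQ.c f k).1 = f.1))) := by
  obtain ⟨a, b, e, y, x⟩ := BdAux.c_spec f k
  have e' : (a = 0 ∨ a = 1) ∧ (b = 0 ∨ b = 1) := by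
    rcases e with ⟨-, h1, h2⟩ | ⟨-, h1, h2⟩ | ⟨-, h1, h2⟩ | ⟨-, h1, h2⟩ <;> omega
  clear e
  generalize (TQ.c f k).1 = p at *
  generalize (TQ.c f k).2 = q at *
  omega

theorem not_inW (hr : 0 ≤ r) (hrd : r < d) (hf : f ∉ BW d) (k : ZMod 4) :
    ¬ InW r (TQ.c f k) := by
  intro h
  obtain ⟨a, b, e, y, x⟩ := BdAux.c_spec f k
  have e' : (a = 0 ∨ a = 1) ∧ (b = 0 ∨ b = 1) := by
    rcases e with ⟨-, h1, h2⟩ | ⟨-, h1, h2⟩ | ⟨-, h1, h2⟩ | ⟨-, h1, h2⟩ <;> omega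
  clear e
  rw [BdAux.mem_BW] at hf
  unfold InW at h
  generalize (TQ.c f k).1 = p at *
  generalize (TQ.c f k).2 = q at *
  omega

/-- A corner in the box of a face outside the box lies on the boundary cycle. -/
theorem corner_bd (hr : 0 < r) (hf : f ∉ BW r) (h : InW r (TQ.c f k)) :
    ∃ t, 0 ≤ t ∧ t < 8 * r + 3 ∧ bd r t = TQ.c f k := by
  obtain ⟨t, h0, h1, h2⟩ := (bdW_iff hr).1 ⟨LegsAux.bdW_of_corner (by omega) hf h, h⟩
  exact ⟨t, h0, h1, by first | exact h2 | exact h2.symm⟩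

/-- Cutting a path at the exit from a ball. -/
theorem cut_path {Q : QC (ℤ × ℤ) (ℤ × ℤ)} {F W : Set (ℤ × ℤ)} {ζ ξ : Cfg} {v₀ : ℤ × ℤ} {R : ℤ}
    (hF : ∀ f ∈ F, ∀ k, dT (Q.c f k) v₀ < R → f ∈ W ∧ ζ f = ξ f)
    {y z : ℤ × ℤ} (hz : R ≤ dT z v₀) (h : ConnQ Q ζ F y z) :
    ∃ z', R ≤ dT z' v₀ ∧ ConnQ Q ξ W y z' := by
  induction h using ReflTransGen.head_induction_on with
  | refl => exact ⟨z, hz, ReflTransGen.refl⟩
  | head hb _ ih =>
    rename_i a b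
    obtain ⟨f, hf, k, hk, rfl, rfl⟩ := hb
    by_cases h1 : dT (Q.c f k) v₀ < R
    · obtain ⟨hW, hζ⟩ := hF f hf k h1
      obtain ⟨z', h2, h3⟩ := ih
      exact ⟨z', h2, ReflTransGen.head ⟨f, hW, k, by rw [← hζ, hk], rfl, rfl⟩ h3⟩
    · exact ⟨_, not_lt.1 h1, ReflTransGen.refl⟩

end Pool.Agent.Perc.Q
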