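import Pool.Agent.Lib.MP_6bd702_perc3.T2Mono
import Pool.Agent.Lib.MP_6bd702_perc3.OneArmT
import Pool.Agent.Lib.MP_6bd702_perc3.BdExtra
import Pool.Agent.Lib.MP_6bd702_percw.LowMix

/-!
# Crossing strands: close tips and tips near the special positions
-/

set_option autoImplicit false

namespace Pool.Agent.Perc.Q

open Finset Pool.Agent.Perc Pool.Agent.PercT Relation

variable {d d' r w g : ℤ} {ω ξ ζ : Cfg} {t : Fin 3 → ℤ} {sec sec' : ℤ × ℤ → Fin 3}
  {kap kap' : ℤ × ℤ → ZMod 2} {s : Fin 3 → ℤ}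

/-- The faces which are visited by the three strands. -/
def VS (d w : ℤ) (t : Fin 3 → ℤ) (ω : Cfg) : Set (ℤ × ℤ) :=
  VU TQ ω (An d w) fun i => ine w (t i)

theorem VS_congr {ω' : Cfg} (h : ∀ f ∈ VS d w t ω, ω f = ω' f) : VS d w t ω' = VS d w t ω :=
  VU_congr h

theorem orb_congr_VS {ω' : Cfg} (h : ∀ f ∈ VS d w t ω, ω f = ω' f) (i : Fin 3) :
    Orb TQ ω' (An d w) (ine w (t i)) = Orb TQ ω (An d w) (ine w (t i)) :=
  Orb_congr fun f hf => h f ⟨i, hf⟩

/-- The ends of the bond of a visited face lie in the same sector for both annuli. -/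
theorem sec_eq_sec' (hd : 0 ≤ r) (hrd : r ≤ d) (hdw : d < w)
    (H : IsSec TQ ω (An d w) (fun i => ine w (t i)) (fun i => i + 2) (fun i => i) sec kap)
    (H' : IsSec TQ ω (An r w) (fun i => ine w (t i)) (fun i => i + 2) (fun i => i) sec' kap')
    {f : ℤ × ℤ} (hf : f ∈ VS d w t ω) {k : ZMod 4} (hk : ω f = ev k) :
    sec (TQ.c f k) = sec' (TQ.c f k) := by
  obtain ⟨i, hfF, k₀, h0⟩ := id hf
  have hU : (TQ.c f k₀, TQ.c f (k₀ + 1)) ∈ Un TQ ω (An d w) (ine w (t i)) := Or.inl h0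
  -- a side of `f` at the corner `k` belongs to the strand `i`
  have h1 : (TQ.c f k, TQ.c f (k + 1)) ∈ Un TQ ω (An d w) (ine w (t i)) ∨
      (TQ.c f (k + 3), TQ.c f k) ∈ Un TQ ω (An d w) (ine w (t i)) := by
    have a1 := un_iff (H.ini i) hfF hk
    have hk2 : ω f = ev (k + 2) := by rw [ev_add_two, hk]
    have a2 := un_iff (H.ini i) hfF hk2
    rw [z7, z4] at a2
    rcases z4_cases k₀ k with rfl | rfl | rfl | rfl
    · exact Or.inl hU
    · rw [z1] at hU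
      exact Or.inl (a1.2 hU)
    · rw [z7] at hU
      exact Or.inr (a2.1 hU)
    · rw [z5] at hU
      exact Or.inr hU
  have hmono : Orb TQ ω (An d w) (ine w (t i)) ⊆ Orb TQ ω (An r w) (ine w (t i)) :=
    Orb_mono (An_mono hrd)
  rcases h1 with (h | h) | (h | h)
  · exact (H.left i _ h).1.trans (H'.left i _ (hmono h)).1.symm
  · exact (H.right i _ h).1.trans (H'.right i _ (hmono h)).1.symm
  · exact (H.right i _ h).1.trans (H'.right i _ (hmono h)).1.symm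
  · exact (H.left i _ h).1.trans (H'.left i _ (hmono h)).1.symm

/-- The path of the right marks of the strand `i` from the outer boundary to the box of radius `r`
leaves the annulus `An d w` through the arc of the sector `i`, and then it uses fresh faces. -/
theorem exit_arc (hr : 0 ≤ r) (hrd : r < d) (hdw : d < w) (ht : Alt w t)
    (hR : ω ∈ Rea3 r w t) (i : Fin 3)
    (H : IsSec TQ ω (An d w) (fun i => ine w (t i)) (fun i => i + 2) (fun i => i) sec kap) :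
    ∃ y z, (∃ x, 0 ≤ x ∧ x < 8 * d + 3 ∧ bd d x = y ∧ sec y = i) ∧
      (∃ x, 0 ≤ x ∧ x < 8 * r + 3 ∧ bdc r (x + 1) = z) ∧
      ConnQ TQ ω (An r w \ VS d w t ω) y z := by
  obtain ⟨sec', kap', H'⟩ := secIn (ω := ω) hr (hrd.trans hdw) ht hR
  obtain ⟨x, hx0, hx1, hx⟩ := hR i
  have hm := ht.mem i
  -- the start
  obtain ⟨f₀, hf₀, hf₀', k₀, hk₀⟩ := ine_face (r := w) (by omega) hm.1 hm.2
  have hf₀A : f₀ ∈ An d w := ⟨hf₀, fun h3 => hf₀' (BW_mono (by omega) h3)⟩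
  have hk₀' := Prod.mk.inj hk₀
  set T : Set (ℤ × ℤ) := {v | (∃ f ∈ An d w, ∃ k, TQ.c f k = v) ∧ sec v = i} with hT
  have hp := (marks hx).2.mono (Vis_sub)
  have hend : ∀ v, (∃ f ∈ An d w, ∃ k, TQ.c f k = v) → InW r v → False := by
    rintro v ⟨f, hf, k, rfl⟩ hv
    exact not_inW hr hrd hf.2 k hv
  have key := near (Q := TQ) (ζ := ω) (G := An r w) (S := VS d w t ω) (F := An d w) (T := T)
    (Y := {v | ∃ x, 0 ≤ x ∧ x < 8 * d + 3 ∧ bd d x = v ∧ sec v = i})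
    (P := fun v => sec' v = i) (p := (ine w (t i)).2) (q := (ine r x).2) ?_ ?_ ?_ ?_ ?_ ?_ ?_ hp
  · obtain ⟨y, hy, -, hconn⟩ := key
    exact ⟨y, _, hy, ⟨x, hx0, hx1, bdc_succ hr hx0 hx1⟩, hconn⟩
  · intro u v hb hu
    rw [← (H'.bondQ_eq hb).1]; exact hu
  · intro g hg k hk hP
    refine ⟨⟨g, VU_sub hg, k, rfl⟩, ?_⟩
    rw [sec_eq_sec' hr hrd.le hdw H H' hg hk]
    exact hP
  · rintro g hg hgS k ⟨-, hs⟩
    exact ⟨⟨g, hg, _, rfl⟩, ((H.fresh_opp hg hgS).1).symm.trans hs⟩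
  · rintro g hg hgF k ⟨⟨f, hf, l, hfl⟩, hs⟩
    have hgd : g ∈ (BW d : Set (ℤ × ℤ)) := by
      by_contra hcon
      exact hgF ⟨hg.1, hcon⟩
    have hin : InW d (TQ.c f l) := by
      rw [hfl]
      exact inW_corner (by omega) (by exact_mod_cast hgd) k
    obtain ⟨x, h0, h1, h2⟩ := corner_bd (by omega) (by exact_mod_cast hf.2) hin
    exact ⟨x, h0, h1, h2.trans hfl, hs⟩
  · refine ⟨⟨f₀, hf₀A, k₀ + 1, hk₀'.2.symm⟩, ?_⟩
    exact (H.right i _ mem_Orb_self).1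
  · exact (H'.right i _ mem_Orb_self).1
  · rintro ⟨h1, -⟩
    refine hend _ h1 ?_
    change InW r (bd r (x + 1))
    rw [← bdc_succ hr hx0 hx1]
    exact inW_bdc hr _

/-! ### Close tips -/

theorem TipI.congr {ω' : Cfg} (h : ∀ f ∈ VS d w t ω, ω f = ω' f) {i : Fin 3} {x : ℤ} :
    TipI d w ω' t i x ↔ TipI d w ω t i x := by
  unfold TipI
  rw [orb_congr_VS h i]

theorem rea3_congr {ω' : Cfg} (h : ∀ f ∈ VS d w t ω, ω f = ω' f) (hω : ω ∈ Rea3 d w t) :
    ω' ∈ Rea3 d w t := by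
  intro i
  obtain ⟨x, h1, h2, h3⟩ := hω i
  refine ⟨x, h1, h2, ?_⟩
  rw [orb_congr_VS h i]
  exact h3

theorem closeI_congr {ω' : Cfg} (h : ∀ f ∈ VS d w t ω, ω f = ω' f) (hω : ω ∈ CloseI d w g t) :
    ω' ∈ CloseI d w g t := by
  obtain ⟨h1, i, j, x, y, h2, h3, h4, h5⟩ := hω
  exact ⟨rea3_congr h h1, i, j, x, y, h2, (TipI.congr h).2 h3, (TipI.congr h).2 h4, h5⟩

/-- The tip of a strand whose sector has a short arc. -/
def GoodV (d w g : ℤ) (t : Fin 3 → ℤ) (ω : Cfg) (v : ℤ × ℤ) : Prop :=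
  ∃ (k : Fin 3) (s : Fin 3 → ℤ), (∀ i, TipI d w ω t i (s i)) ∧ gap (8 * d + 3) s k < g ∧
    v = bdc d (s k)

theorem GoodV.congr {ω' : Cfg} (h : ∀ f ∈ VS d w t ω, ω f = ω' f) {v : ℤ × ℤ}
    (hv : GoodV d w g t ω v) : GoodV d w g t ω' v := by
  obtain ⟨k, s, h1, h2, h3⟩ := hv
  exact ⟨k, s, fun i => (TipI.congr h).2 (h1 i), h2, h3⟩

theorem gap_of_near {L : ℤ} {S : Fin 3 → ℤ} (hS : ∀ i, 0 ≤ S i ∧ S i < L) (hL : 0 < L) (i : Fin 3)
    (h : |S i - S (i + 1)| < g ∨ L - g < |S i - S (i + 1)|) :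
    gap L S i < g ∨ L - g < gap L S i := by
  have h1 := hS i
  have h2 := hS (i + 1)
  unfold gap
  rcases le_or_gt 0 (S (i + 1) - S i) with h3 | h3
  · rw [Int.emod_eq_of_lt h3 (by omega)]
    rw [abs_sub_comm, abs_of_nonneg h3] at h
    exact h
  · have e : (S (i + 1) - S i) % L = S (i + 1) - S i + L := by
      rw [← Int.add_emod_right, Int.emod_eq_of_lt (by omega) (by omega)]
    rw [e]
    rw [abs_of_pos (by omega)] at h
    omega

theorem exists_good (hd : 0 ≤ d) (hdw : d < w) (ht : Alt w t) (h : ω ∈ CloseI d w g t) :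
    ∃ v, GoodV d w g t ω v := by
  obtain ⟨hR, i, j, x, y, hij, hx, hy, hnear⟩ := h
  obtain ⟨S, hS⟩ := exists_tip hR
  obtain ⟨sec, kap, H⟩ := secIn hd hdw ht hR
  have C := cyc_in hd hdw ht.mem H (fun i => ⟨(hS i).1, (hS i).2.1⟩) fun i => (hS i).2.2
  have hS' : ∀ i, 0 ≤ S i ∧ S i < 8 * d + 3 := fun i => ⟨(hS i).1, (hS i).2.1⟩
  have hsum := C.sum_gap
  have key : ∀ i : Fin 3, (gap (8 * d + 3) S i < g ∨ 8 * d + 3 - g < gap (8 * d + 3) S i) →
      ∃ k, gap (8 * d + 3) S k < g := by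
    intro i hi
    rcases hi with hi | hi
    · exact ⟨i, hi⟩
    · refine ⟨i + 1, ?_⟩
      have p := C.gap_pos (i + 2)
      have e : gap (8 * d + 3) S i + gap (8 * d + 3) S (i + 1) + gap (8 * d + 3) S (i + 2) =
          8 * d + 3 := by
        clear hi p hx hy hij
        revert i
        intro i
        fin_cases i
        · exact hsum
        · change gap (8 * d + 3) S 1 + gap (8 * d + 3) S 2 + gap (8 * d + 3) S 0 = _
          omega
        · change gap (8 * d + 3) S 2 + gap (8 * d + 3) S 0 + gap (8 * d + 3) S 1 = _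
          omega
      omega
  have hk : ∃ k, gap (8 * d + 3) S k < g := by
    have e1 : x = S i := TipI.unique hd hdw hx (hS i)
    have e2 : y = S j := TipI.unique hd hdw hy (hS j)
    subst e1 e2
    have h3 : j = i + 1 ∨ i = j + 1 := by
      clear * - hij
      revert i j
      decide
    rcases h3 with rfl | rfl
    · exact key i (gap_of_near hS' (by omega) i hnear)
    · refine key j (gap_of_near hS' (by omega) j ?_)
      rw [abs_sub_comm]
      exact hnear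
  obtain ⟨k, hk⟩ := hk
  exact ⟨_, k, S, hS, hk, rfl⟩

/-- An arm which starts near the tip. -/
theorem close_arm (hr : 1 ≤ r) (hrd : r < d) (hdw : d < w) (ht : Alt w t) (hζ : ζ ∈ Rea3 r w t)
    {v : ℤ × ℤ} (hv : GoodV d w g t ζ v) :
    ∃ y z, dT y v ≤ g ∧ d - (r + 2) ≤ dT z v ∧ ConnQ TQ ζ (An r w \ VS d w t ζ) y z := by
  obtain ⟨k, s, hs, hk, rfl⟩ := hv
  have hRd : ζ ∈ Rea3 d w t := rea3_mono (by omega) hrd.le hdw ht hζ
  obtain ⟨sec, kap, H⟩ := secIn (d := d) (w := w) (ω := ζ) (by omega) hdw ht hRd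
  have C := cyc_in (by omega) hdw ht.mem H (fun i => ⟨(hs i).1, (hs i).2.1⟩) fun i => (hs i).2.2
  obtain ⟨y, z, ⟨x, h0, h1, hx, hsec⟩, ⟨x', -, -, hx'⟩, hconn⟩ :=
    exit_arc (by omega) hrd hdw ht hζ k H
  refine ⟨y, z, ?_, ?_, hconn⟩
  · have h2 : sec (bdc d x) = k := by rw [bdc_eq h0 h1, hx, hsec]
    obtain ⟨n, hn1, hn2, hn3⟩ := C.mem_arc (x := x) h2
    rw [← hx, ← bdc_eq h0 h1, bdc_per hn3]
    refine (dT_bdc (by omega) _ _).trans ?_
    rw [add_sub_cancel_left, abs_of_nonneg (by omega)]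
    omega
  · rw [← hx']
    have h2 := (bdc_cases (r := d) (by omega) (s k)).2
    have h3 := nT1_inW (inW_bdc (r := r) (by omega) (x' + 1))
    have h4 := nT1_sub_le (bdc d (s k)) (bdc r (x' + 1))
    rw [dT_comm] at h4
    omega

theorem VS_sub : VS d w t ω ⊆ An d w := VU_sub

theorem mix_agree {S : Set (ℤ × ℤ)} {ω ξ : Cfg} : ∀ f ∈ S, ω f = mix S ω ξ f :=
  fun _ hf => (mix_of_mem hf).symm

/-- Close tips cost a small factor. -/
theorem closeInP : CloseInP := by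
  obtain ⟨C, β, hC, hβ, hone⟩ := oneArmT
  intro q hq
  -- the constant
  obtain ⟨M, hM, hM0⟩ : ∃ M : ℕ, C * ((2 : ℝ) / M) ^ β ≤ q ∧ 1 ≤ M := by
    have h1 : Filter.Tendsto (fun M : ℕ => C * ((2 : ℝ) / M) ^ β) Filter.atTop (nhds (C * 0)) := by
      refine Filter.Tendsto.const_mul C ?_
      have h2 := (tendsto_const_div_atTop_nhds_zero_nat (2 : ℝ)).rpow_const (p := β)
        (Or.inr hβ.le)
      rwa [Real.zero_rpow hβ.ne'] at h2
    rw [mul_zero] at h1
    exact ((h1.eventually (ge_mem_nhds hq)).and (Filter.eventually_ge_atTop 1)).exists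
  refine ⟨M + 8, by omega, ?_⟩
  intro g r w hg hMr hrw t ht
  have hgr : (M + 8) * g ≤ r := hMr
  have hr8 : 8 * g ≤ r := le_trans (Nat.mul_le_mul_right g (by omega)) hgr
  have hMg : M * g ≤ r := le_trans (Nat.mul_le_mul_right g (by omega)) hgr
  have hgZ : (1 : ℤ) ≤ g := by exact_mod_cast hg
  have hrZ : 8 * (g : ℤ) ≤ r := by exact_mod_cast hr8
  have hwZ : 2 * (r : ℤ) < w := by exact_mod_cast hrw
  rw [Set.inter_comm]
  refine (pr_mix_le (W := BW w) (S := VS (2 * r) w t) (fun ω ω' h => VS_congr h)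
    (A := CloseI (2 * r) w g t) (fun ω hω ω' h => closeI_congr h hω)
    (fun ω => {ξ | ∀ v, GoodV (2 * r) w g t ω v → ∃ y z, dT y v ≤ g ∧ (r : ℤ) - 2 ≤ dT z v ∧
      ConnQ TQ ξ (BW (w : ℤ) : Set (ℤ × ℤ)) y z}) (Rea3 r w t) (q := q) ?_ ?_).trans ?_
  · intro ω hω
    obtain ⟨v, hv⟩ := exists_good (by omega) hwZ ht hω
    have hsub : {ξ | ∀ v, GoodV (2 * r) w g t ω v → ∃ y z, dT y v ≤ g ∧ (r : ℤ) - 2 ≤ dT z v ∧
        ConnQ TQ ξ (BW (w : ℤ) : Set (ℤ × ℤ)) y z} ⊆ {ξ | ∃ y z, dT y v ≤ g ∧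
        (r : ℤ) - 2 ≤ dT z v ∧ ConnQ TQ ξ (BW (w : ℤ) : Set (ℤ × ℤ)) y z} := fun ξ hξ => hξ v hv
    refine (pr_mono _ hsub).trans ?_
    refine (hone v g (r - 2) (BW w) hgZ (by omega) ?_).trans (le_trans ?_ hM)
    · obtain ⟨k, s, -, -, rfl⟩ := hv
      have h2 := (bdc_cases (r := 2 * (r : ℤ)) (by omega) (s k)).2
      unfold nT1 at h2
      omega
    · have hg0 : (0 : ℝ) < g := by exact_mod_cast hg
      have hr0 : (8 : ℝ) * g ≤ r := by exact_mod_cast hr8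
      refine mul_le_mul_of_nonneg_left (Real.rpow_le_rpow (by
        push_cast
        have : (1 : ℝ) ≤ g := by exact_mod_cast hg
        refine div_nonneg (by linarith) (by linarith)) ?_ hβ.le) hC.le
      push_cast
      have h1 : (1 : ℝ) ≤ g := by exact_mod_cast hg
      rw [div_le_div_iff₀ (by linarith) (by exact_mod_cast hM0)]
      have h2 : (M : ℝ) * g ≤ r := by exact_mod_cast hMg
      nlinarith
  · intro ω hω ξ hX v hv
    have hag : ∀ f ∈ VS (2 * r) w t ω, ω f = mix (VS (2 * r) w t ω) ω ξ f := mix_agree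
    obtain ⟨y, z, h1, h2, h3⟩ := close_arm (r := r) (d := 2 * r) (by omega) (by omega) hwZ ht hX
      (hv.congr hag)
    refine ⟨y, z, h1, by omega, ?_⟩
    rw [VS_congr hag] at h3
    refine ConnQ.mono (F := An r w \ VS (2 * r) w t ω) (fun f hf => hf.1.1) (h3.congr ?_)
    intro f hf
    exact mix_of_notMem hf.2
  · refine mul_le_mul_of_nonneg_left (pr_mono _ fun ω hω => hω.1) hq.le

/-! ### Tips near the special positions -/

theorem inW_of_nT1 {v : ℤ × ℤ} (h : nT1 v ≤ r) : InW r v := by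
  rw [nT1_le_iff, abs_le, abs_le] at h
  unfold InW
  omega

theorem spec_arm (hd : 4 ≤ d) (hdw : 2 * d < w) (ht : Alt w t) {i : Fin 3} {x z : ℤ}
    (hx : TipI d w ζ t i x) (hz : |x - z| < g)
    (hζ : ∀ f ∈ (BW (2 * d) : Set (ℤ × ℤ)), ζ f = ξ f) :
    ∃ y z', dT y (bdc d z) ≤ g ∧ d - 4 ≤ dT z' (bdc d z) ∧
      ConnQ TQ ξ (BW w : Set (ℤ × ℤ)) y z' := by
  have hv := bdc_cases (r := d) (by omega) z
  have hv3 := nT1_inW hv.1
  have hpath : ConnQ TQ ζ (An d w) (bd d x) (bd w (t i)) :=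
    ((marks hx.2.2).1.mono Vis_sub).symm
  have hm := ht.mem i
  have key := cut_path (ξ := ξ) (W := (BW w : Set (ℤ × ℤ))) (v₀ := bdc d z)
    (R := d - 4) ?_ ?_ hpath
  · obtain ⟨z', h1, h2⟩ := key
    refine ⟨bd d x, z', ?_, h1, h2⟩
    rw [← bdc_eq hx.1 hx.2.1]
    refine (dT_bdc (by omega) _ _).trans hz.le
  · intro f hf k hk
    refine ⟨hf.1, hζ f ?_⟩
    by_contra hcon
    refine not_inW (r := 2 * d - 1) (d := 2 * d) (by omega) (by omega)
      (f := f) (by exact_mod_cast hcon) k (inW_of_nT1 ?_)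
    have := nT1_sub_le (TQ.c f k) (bdc d z)
    omega
  · have h2 := (bd_cases (r := w) (x := t i) (by omega) hm.1 (by omega)).2
    have h4 := nT1_sub_le (bd w (t i)) (bdc d z)
    omega

/-- Tips near the special positions cost a small factor. -/
theorem specInP : SpecInP := by
  classical
  obtain ⟨C, β, hC, hβ, hone⟩ := oneArmT
  intro q hq
  -- the constant
  obtain ⟨M, hM, hM0⟩ : ∃ M : ℕ, 9 * C * ((2 : ℝ) / M) ^ β ≤ q ∧ 1 ≤ M := by
    have h1 : Filter.Tendsto (fun M : ℕ => 9 * C * ((2 : ℝ) / M) ^ β) Filter.atTop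
        (nhds (9 * C * 0)) := by
      refine Filter.Tendsto.const_mul (9 * C) ?_
      have h2 := (tendsto_const_div_atTop_nhds_zero_nat (2 : ℝ)).rpow_const (p := β)
        (Or.inr hβ.le)
      rwa [Real.zero_rpow hβ.ne'] at h2
    rw [mul_zero] at h1
    exact ((h1.eventually (ge_mem_nhds hq)).and (Filter.eventually_ge_atTop 1)).exists
  refine ⟨M + 8, by omega, ?_⟩
  intro g d w hg hMr hrw t ht
  have hgr : (M + 8) * g ≤ d := hMr
  have hr8 : 8 * g ≤ d := le_trans (Nat.mul_le_mul_right g (by omega)) hgr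
  have hMg : M * g ≤ d := le_trans (Nat.mul_le_mul_right g (by omega)) hgr
  have hgZ : (1 : ℤ) ≤ g := by exact_mod_cast hg
  have hrZ : 8 * (g : ℤ) ≤ d := by exact_mod_cast hr8
  have hwZ : 2 * (d : ℤ) < w := by exact_mod_cast hrw
  refine (pr_mono _ (B := Rea3 (2 * d) w t ∩ SpecI d w g t) ?_).trans ?_
  · intro ω hω
    exact ⟨rea3_mono (by omega) (by omega) hwZ ht hω.1, hω⟩
  refine (pr_mix_le (W := BW w) (S := VS (2 * d) w t) (fun ω ω' h => VS_congr h)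
    (A := Rea3 (2 * d) w t) (fun ω hω ω' h => rea3_congr h hω)
    (fun ω => {ξ | ∃ z ∈ (spec d).toFinset, ξ ∈ {ξ : Cfg | ∃ y z', dT y (bdc d z) ≤ g ∧
      (d : ℤ) - 4 ≤ dT z' (bdc d z) ∧
      ConnQ TQ ξ (BW (w : ℤ) : Set (ℤ × ℤ)) y z'}}) (SpecI d w g t) (q := q) ?_ ?_)
  · intro ω _
    refine (PercL.pr_biUnion_le _ _).trans ?_
    have h1 : ∀ z ∈ (spec d).toFinset, pr (BW w) {ξ : Cfg | ∃ y z', dT y (bdc d z) ≤ g ∧
        (d : ℤ) - 4 ≤ dT z' (bdc d z) ∧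
        ConnQ TQ ξ (BW (w : ℤ) : Set (ℤ × ℤ)) y z'} ≤ C * ((2 : ℝ) / M) ^ β := by
      intro z _
      refine (hone (bdc d z) g (d - 4) (BW w) hgZ (by omega) ?_).trans ?_
      · have h2 := (bdc_cases (r := (d : ℤ)) (by omega) z).2
        unfold nT1 at h2
        omega
      · have hr0 : (8 : ℝ) * g ≤ d := by exact_mod_cast hr8
        have h1 : (1 : ℝ) ≤ g := by exact_mod_cast hg
        refine mul_le_mul_of_nonneg_left (Real.rpow_le_rpow (by
          push_cast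
          refine div_nonneg (by linarith) (by linarith)) ?_ hβ.le) hC.le
        push_cast
        rw [div_le_div_iff₀ (by linarith) (by exact_mod_cast hM0)]
        have h2 : (M : ℝ) * g ≤ d := by exact_mod_cast hMg
        nlinarith
    refine (Finset.sum_le_sum h1).trans ?_
    rw [Finset.sum_const, nsmul_eq_mul]
    have h2 : (((spec (d : ℤ)).toFinset.card : ℕ) : ℝ) ≤ 9 := by
      exact_mod_cast List.toFinset_card_le (spec (d : ℤ))
    have h3 : 0 ≤ C * ((2 : ℝ) / M) ^ β := by positivity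
    calc (((spec (d : ℤ)).toFinset.card : ℕ) : ℝ) * (C * ((2 : ℝ) / M) ^ β)
        ≤ 9 * (C * ((2 : ℝ) / M) ^ β) := mul_le_mul_of_nonneg_right h2 h3
      _ = 9 * C * ((2 : ℝ) / M) ^ β := by ring
      _ ≤ q := hM
  · intro ω _ ξ hX
    obtain ⟨-, i, x, hx, haway⟩ := hX
    unfold Away at haway
    push Not at haway
    obtain ⟨z, hz, hxz⟩ := haway
    refine ⟨z, List.mem_toFinset.2 hz, ?_⟩
    refine spec_arm (by omega) hwZ ht hx hxz ?_
    intro f hf
    exact mix_of_notMem fun h => (VS_sub h).2 hf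

end Pool.Agent.Perc.Q
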