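import Pool.Agent.Lib.MP_6bd702_perc3.T2Defs

/-!
# Pairs and alternating triples of crossing strands (task T2Par)

The strands which do not reach the inner box return to the outer boundary: a fixed point free
involution of these boundary edges (the reversed strand of the exit edge), so the number of the
crossing strands is odd. For two crossing strands `t₁ < t₂` the pair potential is `0` on
the arc between them and `1` outside, so the involution preserves the other edges between `t₁` and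
`t₂`, whose number is even. So every pair of crossing strands belongs to an alternating triple.
-/

set_option autoImplicit false

namespace Pool.Agent.Perc.Q

open Finset Pool.Agent.Perc Relation

variable {d w : ℤ} {ω : Cfg}

/-! ### Reversed strands -/

theorem rtg_rev {V Φ : Type} {Q : QC V Φ} {ω : Φ → Bool} {F : Set Φ} {a b : V × V}
    (h : ReflTransGen (Nx Q ω F) a b) : ReflTransGen (Nx Q ω F) b.swap a.swap := by
  induction h with
  | refl => exact ReflTransGen.refl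
  | tail _ hb ih => exact ReflTransGen.head hb.rev ih

theorem not_nx_swap {V Φ : Type} {Q : QC V Φ} {ω : Φ → Bool} {F : Set Φ} {a : V × V} :
    ¬ Nx Q ω F a a.swap := by
  rintro ⟨f, hf, k, rfl, ⟨-, h⟩ | ⟨-, h⟩⟩
  · have h1 := Prod.mk.inj h
    have h2 := (Q.inj (f := f) (k := k) (f' := f) (k' := k + 1)
      (by rw [← h1.2]) (by rw [z1]; exact h1.1)).2
    revert h2
    clear * -
    revert k
    decide
  · have h1 := Prod.mk.inj h
    have h2 := (Q.inj (f := f) (k := k + 3) (f' := f) (k' := k)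
      h1.2.symm (by rw [z5]; exact h1.1.symm)).2
    revert h2
    clear * -
    revert k
    decide

/-- A strand does not contain its reversed first edge. -/
theorem swap_notMem {V Φ : Type} {Q : QC V Φ} {ω : Φ → Bool} {F : Set Φ} {e : V × V}
    (hne : ∀ f k, Q.c f k ≠ Q.c f (k + 1)) (he : Ini Q F e) (hee : e ≠ e.swap) :
    e.swap ∉ Orb Q ω F e := by
  intro h
  have key : ∀ x, ReflTransGen (Nx Q ω F) e x → ReflTransGen (Nx Q ω F) x x.swap := by
    intro x hx
    induction hx with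
    | refl => exact h
    | tail _ hb ih =>
      rename_i x x'
      rcases ReflTransGen.cases_head ih with h1 | ⟨y, hy, h1⟩
      · exfalso
        obtain ⟨f, hf, k, rfl, -⟩ := hb
        exact hne f k (Prod.mk.inj h1).1
      · rw [← hb.unique hy] at h1
        rcases ReflTransGen.cases_tail h1 with h2 | ⟨z, h2, hz⟩
        · exfalso
          rw [← h2] at hb
          exact not_nx_swap hb
        · have h3 := hz.rev
          rw [Prod.swap_swap] at h3
          have h4 := hb.unique h3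
          rw [← Prod.swap_swap z, ← h4] at h2
          exact h2
  have h1 := key _ h
  rw [Prod.swap_swap] at h1
  rcases ReflTransGen.cases_head h1 with h2 | ⟨y, ⟨f, hf, k, h2, -⟩, -⟩
  · exact hee h2.symm
  · exact he.ter_swap f hf k h2

theorem TQ_ne (f : ℤ × ℤ) (k : ZMod 4) : TQ.c f k ≠ TQ.c f (k + 1) := by
  intro h
  have h1 := (BdAux.side_eq (f := f) (g := f) (k := k) (l := k) (by rw [← h])).1
  revert h1
  clear * -
  revert k
  decide

/-- The first edge is not the reversed last edge. -/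
theorem ret_ne (hd : 0 ≤ d) (hdw : d < w) {t : ℤ} (h0 : 0 ≤ t) (h1 : t < 8 * w + 3) :
    (ine w t).swap ∉ Orb TQ ω (An d w) (ine w t) := by
  refine swap_notMem TQ_ne (ini_outer hd hdw h0 h1) ?_
  obtain ⟨f, -, -, k, hk⟩ := ine_face (r := w) (by omega) h0 h1
  intro h
  rw [hk] at h
  exact TQ_ne f k (Prod.mk.inj h).1

/-! ### The exits of the strands which do not cross -/

/-- The strand `t` leaves the annulus through the outer boundary edge `s`. -/
def Ret (d w : ℤ) (ω : Cfg) (t s : ℤ) : Prop :=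
  0 ≤ s ∧ s < 8 * w + 3 ∧ (ine w s).swap ∈ Orb TQ ω (An d w) (ine w t)

theorem exists_ret (hd : 0 ≤ d) (hdw : d < w) {t : ℤ} (h0 : 0 ≤ t) (h1 : t < 8 * w + 3)
    (hr : ¬ Rea d w ω t) : ∃ s, Ret d w ω t s := by
  have hfin : (An d w).Finite := (BW w).finite_toSet.subset Set.sdiff_subset
  obtain ⟨a, ha, hter⟩ := exists_ter (ω := ω) hfin (ini_outer hd hdw h0 h1)
  rcases Orb_pred ha with h | ⟨b, hb, f, hf, k, -, h⟩
  · exfalso
    obtain ⟨f, hf, hf', k, hk⟩ := ine_face (r := w) (by omega) h0 h1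
    exact hter f ⟨hf, fun h3 => hf' (BW_mono (by omega) h3)⟩ k (by rw [h, hk])
  · have h2 : ∃ l, a = (TQ.c f (l + 1), TQ.c f l) := by
      rcases h with ⟨-, h⟩ | ⟨-, h⟩
      · exact ⟨k + 1, by rw [z1]; exact h⟩
      · exact ⟨k + 3, by rw [z5]; exact h⟩
    obtain ⟨l, rfl⟩ := h2
    rcases ter_annulus hd hdw hf hter with ⟨s, hs0, hs1, hs⟩ | ⟨s, hs0, hs1, hs⟩
    · exact absurd ⟨s, hs0, hs1, by rw [← hs]; exact ha⟩ hr
    · exact ⟨s, hs0, hs1, by rw [← hs]; exact ha⟩

theorem Ret.unique (hd : 0 ≤ d) (hdw : d < w) {t s s' : ℤ} (h : Ret d w ω t s)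
    (h' : Ret d w ω t s') : s = s' := by
  have h1 : Ter TQ (An d w) (ine w s).swap := (ini_outer hd hdw h.1 h.2.1).ter_swap
  have h2 : Ter TQ (An d w) (ine w s').swap := (ini_outer hd hdw h'.1 h'.2.1).ter_swap
  exact ine_inj (by omega) h.1 h.2.1 h'.1 h'.2.1
    (Prod.swap_injective (ter_unique h.2.2 h'.2.2 h1 h2))

theorem Ret.symm {t s : ℤ} (h0 : 0 ≤ t) (h1 : t < 8 * w + 3) (h : Ret d w ω t s) :
    Ret d w ω s t := by
  refine ⟨h0, h1, ?_⟩
  have := rtg_rev h.2.2
  rwa [Prod.swap_swap] at this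

theorem Ret.not_rea (hd : 0 ≤ d) (hdw : d < w) {t s : ℤ} (h : Ret d w ω t s) :
    ¬ Rea d w ω t := by
  rintro ⟨x, hx0, hx1, hx⟩
  have h2 : Ter TQ (An d w) (ine w s).swap := (ini_outer hd hdw h.1 h.2.1).ter_swap
  have h3 : Ter TQ (An d w) (ine d x) := by
    have := (ini_inner hd hdw hx0 hx1).ter_swap
    rwa [Prod.swap_swap] at this
  have h4 := ter_unique hx h.2.2 h3 h2
  have := h.1
  have := h.2.1
  exact bd_ne hd hdw hx0 hx1.le (by omega) (by omega : s + 1 ≤ 8 * w + 3) (Prod.mk.inj h4).1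

theorem Ret.ne (hd : 0 ≤ d) (hdw : d < w) {t s : ℤ} (h : Ret d w ω t s) : s ≠ t := by
  rintro rfl
  exact ret_ne hd hdw h.1 h.2.1 h.2.2

/-- A set of outer boundary edges whose strands do not cross, and which is preserved by the exits,
has an even number of elements. -/
theorem even_of_ret (hd : 0 ≤ d) (hdw : d < w) (N : Finset ℤ)
    (hN : ∀ t ∈ N, 0 ≤ t ∧ t < 8 * w + 3 ∧ ¬ Rea d w ω t)
    (hcl : ∀ t ∈ N, ∀ s, Ret d w ω t s → s ∈ N) : N.card % 2 = 0 := by
  have hex : ∀ t, ∃ s, t ∈ N → Ret d w ω t s := by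
    intro t
    by_cases ht : t ∈ N
    · obtain ⟨s, hs⟩ := exists_ret hd hdw (hN t ht).1 (hN t ht).2.1 (hN t ht).2.2
      exact ⟨s, fun _ => hs⟩
    · exact ⟨0, fun h => absurd h ht⟩
  choose g hg using hex
  have h1 : ∑ _t ∈ N, (1 : ZMod 2) = 0 := by
    refine Finset.sum_involution (fun t _ => g t) ?_ ?_ ?_ ?_
    · intro t _
      decide
    · intro t ht _
      exact (hg t ht).ne hd hdw
    · intro t ht
      exact hcl t ht _ (hg t ht)
    · intro t ht
      have h2 := hg t ht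
      have h3 := hg _ (hcl t ht _ h2)
      exact h3.unique hd hdw (h2.symm (hN t ht).1 (hN t ht).2.1)
  rw [Finset.sum_const, nsmul_eq_mul, mul_one, ZMod.natCast_eq_zero_iff] at h1
  omega

open Classical in
/-- The outer boundary edges from `a` to `b - 1` whose strands do not cross. -/
noncomputable def Nc (d w : ℤ) (ω : Cfg) (a b : ℤ) : Finset ℤ := (Ico a b).filter fun t => ¬ Rea d w ω t

open Classical in
/-- The outer boundary edges from `a` to `b - 1` whose strands cross. -/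
noncomputable def Cr (d w : ℤ) (ω : Cfg) (a b : ℤ) : Finset ℤ := (Ico a b).filter fun t => Rea d w ω t

theorem mem_Nc {a b t : ℤ} : t ∈ Nc d w ω a b ↔ a ≤ t ∧ t < b ∧ ¬ Rea d w ω t := by
  classical
  unfold Nc
  rw [mem_filter, mem_Ico, and_assoc]

theorem mem_Cr {a b t : ℤ} : t ∈ Cr d w ω a b ↔ a ≤ t ∧ t < b ∧ Rea d w ω t := by
  classical
  unfold Cr
  rw [mem_filter, mem_Ico, and_assoc]

theorem card_Cr_Nc {a b : ℤ} (h : a ≤ b) :
    ((Cr d w ω a b).card : ℤ) + (Nc d w ω a b).card = b - a := by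
  classical
  have h1 := Finset.card_filter_add_card_filter_not (s := Ico a b) (fun t => Rea d w ω t)
  unfold Cr Nc
  rw [← Nat.cast_add, h1, Int.card_Ico]
  omega

theorem even_all (hd : 0 ≤ d) (hdw : d < w) : (Nc d w ω 0 (8 * w + 3)).card % 2 = 0 := by
  refine even_of_ret hd hdw _ (fun t ht => mem_Nc.1 ht) ?_
  intro t ht s hs
  have h := mem_Nc.1 ht
  exact mem_Nc.2 ⟨hs.1, hs.2.1, (hs.symm h.1 h.2.1).not_rea hd hdw⟩

/-- Between two crossing strands the number of the other strands is even. -/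
theorem even_mid (hd : 0 ≤ d) (hdw : d < w) {t t' : ℤ} (h0 : 0 ≤ t) (h1 : t < t')
    (h2 : t' < 8 * w + 3) (hr : Rea d w ω t) (hr' : Rea d w ω t') :
    (Nc d w ω (t + 1) t').card % 2 = 0 := by
  refine even_of_ret (ω := ω) hd hdw _ (fun x hx => ?_) ?_
  · have := mem_Nc.1 hx
    exact ⟨by omega, by omega, this.2.2⟩
  intro x hx s hs
  have hx' := mem_Nc.1 hx
  have hx0 : 0 ≤ x := by omega
  have hx1 : x < 8 * w + 3 := by omega
  have hsr := (hs.symm hx0 hx1).not_rea hd hdw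
  -- the pair potential
  set e : Fin 3 → (ℤ × ℤ) × (ℤ × ℤ) := fun i => if i = 0 then ine w t else ine w t' with he
  have e0 : e 0 = ine w t := rfl
  have e1 : e (0 + 1) = ine w t' := rfl
  have hini : ∀ i, Ini TQ (An d w) (e i) := by
    intro i
    rw [he]
    simp only
    split_ifs
    · exact ini_outer hd hdw h0 (by omega)
    · exact ini_outer hd hdw (by omega) h2
  have hm : ∀ y, 0 ≤ y → y < 8 * w + 3 → mP TQ ω (An d w) e 0 (bd w y) (bd w (y + 1)) =
      (if y = t then 1 else 0) + if y = t' then 1 else 0 := by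
    intro y hy0 hy1
    unfold mP
    rw [e0, e1, indU_outer hd hdw h0 (by omega) hy0 hy1 hr,
      indU_outer hd hdw (by omega) h2 hy0 hy1 hr']
  obtain ⟨χ, hχ⟩ : ∃ χ, PotQ TQ (An d w) (mP TQ ω (An d w) e 0) χ := by
    refine exists_pot_outer hd hdw (fun p q => mP_symm p q)
      (fun f hf => (mat_mP (i := 0) hini).even hf) ?_
    rw [Finset.sum_congr rfl fun y hy => hm y (mem_Ico.1 hy).1 (mem_Ico.1 hy).2,
      Finset.sum_add_distrib, sum_ite_Ico h0 (by omega), sum_ite_Ico (by omega) h2]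
    decide
  have hg : ∀ y, 0 ≤ y → y ≤ 8 * w + 3 → χ (bd w y) = χ (bd w 0) + (lt2 t y + lt2 t' y) := by
    intro y hy0 hy1
    refine step_fun (g := fun y => χ (bd w y)) (n := 8 * w + 3)
      (G := fun y => lt2 t y + lt2 t' y)
      (j := fun y => (if y = t then 1 else 0) + if y = t' then 1 else 0)
      (by simp only [lt2_zero h0, lt2_zero (show 0 ≤ t' by omega), add_zero]) ?_ ?_ hy0 hy1
    · intro s hs0 hs1
      rw [pot_outer hd hdw hχ hs0 hs1, hm s hs0 hs1]
    · intro s _ _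
      rw [← lt2_step, ← lt2_step]
      ring
  have hmk := hχ.marks (mat_mP hini) hs.2.2
  have h3 : χ (bd w (s + 1)) = χ (bd w x) := hmk.1
  rw [hg (s + 1) (by have := hs.1; omega) (by have := hs.2.1; omega), hg x hx0 hx1.le] at h3
  have h4 := add_left_cancel h3
  have hst : s ≠ t := by rintro rfl; exact hsr hr
  have hs0 := hs.1
  rw [mem_Nc]
  refine ⟨?_, ?_, hsr⟩
  all_goals
    by_contra hcon
    clear * - h4 hcon hx' hst h1 hs0
    unfold lt2 at h4
    split_ifs at h4 <;> first | omega | (revert h4; decide)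

/-- Between two consecutive crossing strands there is an even number of boundary edges. -/
theorem even_between (hd : 0 ≤ d) (hdw : d < w) {t t' : ℤ} (h0 : 0 ≤ t) (h1 : t < t')
    (h2 : t' < 8 * w + 3) (hr : Rea d w ω t) (hr' : Rea d w ω t')
    (hno : ∀ x, t < x → x < t' → ¬ Rea d w ω x) : (t' - t) % 2 = 1 := by
  have h3 := even_mid hd hdw h0 h1 h2 hr hr'
  have h4 := card_Cr_Nc (d := d) (w := w) (ω := ω) (show t + 1 ≤ t' by omega)
  have h5 : Cr d w ω (t + 1) t' = ∅ := by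
    rw [Finset.eq_empty_iff_forall_notMem]
    intro x hx
    have := mem_Cr.1 hx
    exact hno x (by omega) (by omega) this.2.2
  rw [h5, Finset.card_empty] at h4
  omega

theorem odd_Cr (hd : 0 ≤ d) (hdw : d < w) : (Cr d w ω 0 (8 * w + 3)).card % 2 = 1 := by
  have h1 := even_all (ω := ω) hd hdw
  have h2 := card_Cr_Nc (d := d) (w := w) (ω := ω) (show 0 ≤ 8 * w + 3 by omega)
  omega

/-- The number of crossing strands is odd. -/
theorem odd_crossing (hd : 0 ≤ d) (hdw : d < w) :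
    Set.ncard {t : ℤ | 0 ≤ t ∧ t < 8 * w + 3 ∧ Rea d w ω t} % 2 = 1 := by
  have h : {t : ℤ | 0 ≤ t ∧ t < 8 * w + 3 ∧ Rea d w ω t} = (Cr d w ω 0 (8 * w + 3) : Set ℤ) := by
    ext t
    rw [Finset.mem_coe, mem_Cr]
    rfl
  rw [h, Set.ncard_coe_finset]
  exact odd_Cr hd hdw

theorem card_Cr_add {a b c : ℤ} (h1 : a ≤ b) (h2 : b ≤ c) :
    (Cr d w ω a c).card = (Cr d w ω a b).card + (Cr d w ω b c).card := by
  classical
  rw [← Finset.card_union_of_disjoint]
  · congr 1
    ext t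
    rw [mem_union, mem_Cr, mem_Cr, mem_Cr]
    constructor
    · rintro ⟨h3, h4, h5⟩
      rcases lt_or_ge t b with h | h
      · exact Or.inl ⟨h3, h, h5⟩
      · exact Or.inr ⟨h, h4, h5⟩
    · rintro (⟨h3, h4, h5⟩ | ⟨h3, h4, h5⟩)
      · exact ⟨h3, by omega, h5⟩
      · exact ⟨by omega, h4, h5⟩
  · rw [Finset.disjoint_left]
    intro t ht ht'
    have h3 := mem_Cr.1 ht
    have h4 := mem_Cr.1 ht'
    omega

theorem card_Cr_one {t : ℤ} (hr : Rea d w ω t) : (Cr d w ω t (t + 1)).card = 1 := by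
  rw [Finset.card_eq_one]
  refine ⟨t, ?_⟩
  ext x
  rw [mem_Cr, mem_singleton]
  constructor
  · rintro ⟨h1, h2, -⟩
    omega
  · rintro rfl
    exact ⟨le_rfl, by omega, hr⟩

/-- The first crossing strand after `a`. -/
theorem exists_first {a b : ℤ} (h : (Cr d w ω a b).card ≠ 0) :
    ∃ s, a ≤ s ∧ s < b ∧ Rea d w ω s ∧ ∀ x, a ≤ x → x < s → ¬ Rea d w ω x := by
  have hne : (Cr d w ω a b).Nonempty := Finset.card_pos.1 (Nat.pos_of_ne_zero h)
  have h1 := mem_Cr.1 (Finset.min'_mem _ hne)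
  refine ⟨_, h1.1, h1.2.1, h1.2.2, ?_⟩
  intro x hx hx' hrx
  have h2 := Finset.min'_le (Cr d w ω a b) x (mem_Cr.2 ⟨hx, by omega, hrx⟩)
  omega

theorem exists_last {a b : ℤ} (h : (Cr d w ω a b).card ≠ 0) :
    ∃ s, a ≤ s ∧ s < b ∧ Rea d w ω s ∧ ∀ x, s < x → x < b → ¬ Rea d w ω x := by
  have hne : (Cr d w ω a b).Nonempty := Finset.card_pos.1 (Nat.pos_of_ne_zero h)
  have h1 := mem_Cr.1 (Finset.max'_mem _ hne)
  refine ⟨_, h1.1, h1.2.1, h1.2.2, ?_⟩
  intro x hx hx' hrx
  have h2 := Finset.le_max' (Cr d w ω a b) x (mem_Cr.2 ⟨by omega, hx', hrx⟩)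
  omega

theorem alt_mk {a b c : ℤ} (h0 : 0 ≤ a) (h1 : a < b) (h2 : b < c) (h3 : c < 8 * w + 3)
    (h4 : (b - a) % 2 = 1) (h5 : (c - b) % 2 = 1) (ha : Rea d w ω a) (hb : Rea d w ω b)
    (hc : Rea d w ω c) : Alt w ![a, b, c] ∧ ∀ i, Rea d w ω (![a, b, c] i) := by
  refine ⟨⟨h0, h1, h2, h3, h4, h5⟩, ?_⟩
  intro i
  fin_cases i
  · exact ha
  · exact hb
  · exact hc

/-- Every pair belongs to an alternating triple. -/
theorem exists_triple (hd : 0 ≤ d) (hdw : d < w) {t t' : ℤ} (h0 : 0 ≤ t) (h1 : t < t')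
    (h2 : t' < 8 * w + 3) (hr : Rea d w ω t) (hr' : Rea d w ω t') :
    ∃ s : Fin 3 → ℤ, Alt w s ∧ (∀ i, Rea d w ω (s i)) ∧ (∃ i, s i = t) ∧ ∃ i, s i = t' := by
  have hmid := even_mid hd hdw h0 h1 h2 hr hr'
  have hc := card_Cr_Nc (d := d) (w := w) (ω := ω) (show t + 1 ≤ t' by omega)
  rcases Int.emod_two_eq_zero_or_one (t' - t) with hp | hp
  · -- a strand in the middle
    obtain ⟨s, hs0, hs1, hs, hno⟩ := exists_first (d := d) (w := w) (ω := ω) (a := t + 1) (b := t')
      (by omega)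
    have h3 := even_between hd hdw h0 (show t < s by omega) (by omega) hr hs
      (fun x hx hx' => hno x (by omega) hx')
    obtain ⟨h4, h5⟩ := alt_mk (w := w) h0 (show t < s by omega) hs1 h2 h3 (by omega) hr hs hr'
    exact ⟨_, h4, h5, ⟨0, rfl⟩, ⟨2, rfl⟩⟩
  · -- a strand outside
    have hodd := odd_Cr (ω := ω) hd hdw
    rw [card_Cr_add (show 0 ≤ t by omega) (show t ≤ 8 * w + 3 by omega),
      card_Cr_add (show t ≤ t + 1 by omega) (show t + 1 ≤ 8 * w + 3 by omega),
      card_Cr_add (show t + 1 ≤ t' by omega) (show t' ≤ 8 * w + 3 by omega),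
      card_Cr_add (show t' ≤ t' + 1 by omega) (show t' + 1 ≤ 8 * w + 3 by omega),
      card_Cr_one hr, card_Cr_one hr'] at hodd
    by_cases hA : (Cr d w ω 0 t).card = 0
    · obtain ⟨s, hs0, hs1, hs, hno⟩ := exists_first (d := d) (w := w) (ω := ω) (a := t' + 1)
        (b := 8 * w + 3) (by omega)
      have h3 := even_between hd hdw (by omega) (show t' < s by omega) hs1 hr' hs
        (fun x hx hx' => hno x (by omega) hx')
      obtain ⟨h4, h5⟩ := alt_mk (w := w) h0 h1 (show t' < s by omega) hs1 hp h3 hr hr' hs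
      exact ⟨_, h4, h5, ⟨0, rfl⟩, ⟨1, rfl⟩⟩
    · obtain ⟨s, hs0, hs1, hs, hno⟩ := exists_last (d := d) (w := w) (ω := ω) hA
      have h3 := even_between hd hdw hs0 hs1 (by omega) hs hr hno
      obtain ⟨h4, h5⟩ := alt_mk (w := w) hs0 hs1 h1 h2 h3 hp hs hr hr'
      exact ⟨_, h4, h5, ⟨1, rfl⟩, ⟨2, rfl⟩⟩

theorem nT_le (hd : 0 ≤ d) (hdw : d < w) : nT d w ≤ 6 * aT d w := by
  classical
  unfold nT aT
  have key : ∀ ω : Cfg,
      ∑ p ∈ ((Ico (0 : ℤ) (8 * w + 3)) ×ˢ Ico (0 : ℤ) (8 * w + 3)).filter (fun p => p.1 ≠ p.2),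
        (if ω ∈ {ω | Rea d w ω p.1 ∧ Rea d w ω p.2} then (1 : ℝ) else 0) ≤
      6 * ∑ t ∈ TA w, (if ω ∈ Rea3 d w t then (1 : ℝ) else 0) := by
    intro ω
    rw [← Finset.sum_filter, ← Finset.sum_filter, Finset.sum_const, Finset.sum_const,
      nsmul_eq_mul, nsmul_eq_mul, mul_one, mul_one]
    have hI : ((univ : Finset (Fin 3 × Fin 3)).filter fun p => p.1 ≠ p.2).card = 6 := by decide
    have hsub : (((Ico (0 : ℤ) (8 * w + 3)) ×ˢ Ico (0 : ℤ) (8 * w + 3)).filter
        (fun p => p.1 ≠ p.2)).filter (fun p => ω ∈ {ω | Rea d w ω p.1 ∧ Rea d w ω p.2}) ⊆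
        ((TA w).filter fun t => ω ∈ Rea3 d w t).biUnion fun t =>
          ((univ : Finset (Fin 3 × Fin 3)).filter fun p => p.1 ≠ p.2).image
            fun q => (t q.1, t q.2) := by
      rintro ⟨x, y⟩ hp
      rw [mem_filter, mem_filter, mem_product, mem_Ico, mem_Ico] at hp
      obtain ⟨⟨⟨⟨hx0, hx1⟩, hy0, hy1⟩, hne⟩, hrx, hry⟩ := hp
      simp only at hx0 hx1 hy0 hy1 hne hrx hry
      have main : ∃ s : Fin 3 → ℤ, Alt w s ∧ (∀ i, Rea d w ω (s i)) ∧ (∃ i, s i = x) ∧
          ∃ i, s i = y := by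
        rcases lt_or_gt_of_ne hne with h | h
        · exact exists_triple hd hdw hx0 h hy1 hrx hry
        · obtain ⟨s, h1, h2, h3, h4⟩ := exists_triple hd hdw hy0 h hx1 hry hrx
          exact ⟨s, h1, h2, h4, h3⟩
      obtain ⟨s, hA, hS, ⟨i, hi⟩, j, hj⟩ := main
      rw [mem_biUnion]
      refine ⟨s, mem_filter.2 ⟨mem_TA.2 hA, hS⟩, ?_⟩
      rw [mem_image]
      refine ⟨(i, j), mem_filter.2 ⟨mem_univ _, ?_⟩, by simp only [hi, hj]⟩
      intro hij
      simp only at hij
      rw [hij] at hi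
      exact hne (hi.symm.trans hj)
    have h1 := (Finset.card_le_card hsub).trans Finset.card_biUnion_le
    have h2 : ∑ t ∈ (TA w).filter (fun t => ω ∈ Rea3 d w t),
        (((univ : Finset (Fin 3 × Fin 3)).filter fun p => p.1 ≠ p.2).image
            fun q => (t q.1, t q.2)).card ≤
        ∑ t ∈ (TA w).filter (fun t => ω ∈ Rea3 d w t), 6 :=
      Finset.sum_le_sum fun t _ => Finset.card_image_le.trans hI.le
    have h3 := h1.trans h2
    rw [Finset.sum_const, smul_eq_mul] at h3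
    have h4 : ((((Ico (0 : ℤ) (8 * w + 3)) ×ˢ Ico (0 : ℤ) (8 * w + 3)).filter
        (fun p => p.1 ≠ p.2)).filter
        (fun p => ω ∈ {ω | Rea d w ω p.1 ∧ Rea d w ω p.2})).card ≤
        6 * ((TA w).filter fun t => ω ∈ Rea3 d w t).card := by
      rw [Nat.mul_comm]; exact h3
    exact_mod_cast h4
  have e1 : ∀ A : Set Cfg, pr (BW w) A =
      (∑ T ∈ (BW w).powerset, if cfg T ∈ A then (1 : ℝ) else 0) / 2 ^ (BW w).card :=
    fun A => ProbA.pr_eq_sum _ A
  simp only [e1]
  rw [← Finset.sum_div, ← Finset.sum_div, ← mul_div_assoc]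
  refine div_le_div_of_nonneg_right ?_ (by positivity)
  rw [Finset.sum_comm, Finset.sum_comm (s := TA w), Finset.mul_sum]
  refine Finset.sum_le_sum fun T _ => ?_
  refine (le_of_eq (Finset.sum_congr rfl fun p _ => ?_)).trans (key (cfg T))
  congr

end Pool.Agent.Perc.Q
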