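import Pool.Agent.Lib.MP_6bd702_perc3.T2Glue
import Pool.Agent.Lib.MP_6bd702_perc3.T2Top
import Pool.Agent.Lib.MP_6bd702_perc3.S2Top

/-!
# The expected number of pairs of strands which cross an annulus: from the two routing statements
-/

set_option autoImplicit false

namespace Pool.Agent.Perc.Q

open Finset Pool.Agent.Perc

/-- The bound for the pairs. -/
theorem nT_le_top (hP : PortsP) (hR : RoutesP) :
    ∃ C : ℝ, 0 < C ∧ ∀ d w : ℕ, 1 ≤ d → 2 * d ≤ w → nT d w ≤ C * ((d : ℝ) / w) ^ (2 / 3 : ℝ) :=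
  nT_le_pow (glueIn_of hR (sep3_lower_top hP)) (q3_upper_top hP)

/-- The bound for the alternating triples. -/
theorem aT_le_top (hP : PortsP) (hR : RoutesP) :
    ∃ C : ℝ, 0 < C ∧ ∀ d w : ℕ, 1 ≤ d → 2 * d ≤ w → aT d w ≤ C * ((d : ℝ) / w) ^ (2 / 3 : ℝ) :=
  aT_le_pow' (glueIn_of hR (sep3_lower_top hP)) (q3_upper_top hP)

end Pool.Agent.Perc.Q
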