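import Pool.Agent.Lib.MP_6bd702_perc3.Routes
import Pool.Agent.Lib.MP_6bd702_perc3.T2All

/-!
# The exponent 2/3 of the three legs and of the pairs: final statements without hypotheses
-/

set_option autoImplicit false

namespace Pool.Agent.Perc.Q

open Finset Pool.Agent.Perc

theorem glue3_done : Glue3 := glue3_top Rt.portsP

/-- The upper bound for the three legs. -/
theorem q3_upper_done :
    ∃ C : ℝ, 0 < C ∧ ∀ R : ℕ, 1 ≤ R → q3 R ≤ C * (R : ℝ) ^ (-(2 / 3 : ℝ)) :=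
  q3_upper_top Rt.portsP

/-- Three legs with separated tips. -/
theorem sep3_lower_done :
    ∃ M : ℕ, ∃ c : ℝ, 0 < M ∧ 0 < c ∧ ∀ g R : ℕ, 1 ≤ g → M * g ≤ R →
      c * (R : ℝ) ^ (-(2 / 3 : ℝ)) ≤ pr (BW R) (Sep3 R g) :=
  sep3_lower_top Rt.portsP

/-- The bound for the pairs. -/
theorem nT_le_done :
    ∃ C : ℝ, 0 < C ∧ ∀ d w : ℕ, 1 ≤ d → 2 * d ≤ w → nT d w ≤ C * ((d : ℝ) / w) ^ (2 / 3 : ℝ) :=
  nT_le_top Rt.portsP Rt.routesP

/-- The bound for the alternating triples. -/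
theorem aT_le_done :
    ∃ C : ℝ, 0 < C ∧ ∀ d w : ℕ, 1 ≤ d → 2 * d ≤ w → aT d w ≤ C * ((d : ℝ) / w) ^ (2 / 3 : ℝ) :=
  aT_le_top Rt.portsP Rt.routesP

end Pool.Agent.Perc.Q
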