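import Pool.Agent.Lib.MP_6bd702_perc3.S2Final
import Pool.Agent.Lib.MP_6bd702_perc3.TwArc
import Pool.Agent.Lib.MP_6bd702_perc3.OneArmT
import Pool.Agent.Lib.MP_6bd702_percu2.Mix
import Pool.Agent.Lib.MP_6bd702_perc3.Legs

/-!
# Close tips and tips near a special position (task CloseOut)
-/

set_option autoImplicit false

namespace Pool.Agent.Perc.Q

open Finset Pool.Agent.Perc Relation Pool.Agent.PercT BdAux

namespace CO

/-- The three legs leave the box of radius `R` through the edges `s i`. -/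
def Exits (R : ℤ) (ω : Cfg) (s : Fin 3 → ℤ) : Prop :=
  ∀ i, 0 ≤ s i ∧ s i < 8 * R + 3 ∧ (ine R (s i)).swap ∈ Orb TQ ω (BW R) (leg i)

theorem BW_zero : (BW 0 : Set (ℤ × ℤ)) = ∅ := by
  ext f
  rw [Finset.mem_coe, mem_BW]
  simp only [Set.mem_empty_iff_false, iff_false]
  omega

theorem An_zero (R : ℤ) : An 0 R = (BW R : Set (ℤ × ℤ)) := by
  unfold An
  rw [BW_zero, Set.sdiff_empty]

theorem ter_ine {R t : ℤ} (hR : 0 < R) (h0 : 0 ≤ t) (h1 : t < 8 * R + 3) :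
    Ter TQ (BW R : Set (ℤ × ℤ)) (ine R t).swap := by
  have := (ini_outer (d := 0) le_rfl hR h0 h1).ter_swap
  change Ter TQ (An 0 R) _ at this
  rwa [An_zero] at this

theorem exit_unique {R t t' : ℤ} (hR : 0 < R) {ω : Cfg} {i : Fin 3} (h0 : 0 ≤ t)
    (h1 : t < 8 * R + 3) (h0' : 0 ≤ t') (h1' : t' < 8 * R + 3)
    (h : (ine R t).swap ∈ Orb TQ ω (BW R) (leg i)) (h' : (ine R t').swap ∈ Orb TQ ω (BW R) (leg i)) :
    t = t' :=
  ine_inj hR.le h0 h1 h0' h1' (Prod.swap_injective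
    (ter_unique h h' (ter_ine hR h0 h1) (ter_ine hR h0' h1')))

theorem exits_of (hT : Tips3) {R : ℕ} (hR : 1 ≤ R) {ω : Cfg} (hω : ω ∈ Arm3 R) :
    ∃ s, Exits R ω s := by
  obtain ⟨t, h1, h2, h3⟩ := hT R hR ω hω
  choose h0 h00 σ hσ using h1
  have hR' : (0 : ℤ) < R := by exact_mod_cast hR
  have ht : ∀ i j, t i = t j → i = j := by
    intro i j h
    fin_cases i <;> fin_cases j <;> simp only [Fin.zero_eta, Fin.mk_one, Fin.reduceFinMk,
      Fin.isValue] at h ⊢ <;> omega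
  have hinj : Function.Injective σ := by
    intro i j h
    have h5 := hσ i
    rw [h] at h5
    exact ht _ _ (exit_unique hR' (h0 i) (h00 i) (h0 j) (h00 j) h5 (hσ j))
  set e := Equiv.ofBijective σ ⟨hinj, Finite.injective_iff_surjective.1 hinj⟩ with he
  refine ⟨fun i => t (e.symm i), fun i => ⟨h0 _, h00 _, ?_⟩⟩
  have h4 := hσ (e.symm i)
  have h5 : σ (e.symm i) = i := e.apply_symm_apply i
  rwa [h5] at h4

/-- The sectors of the three legs. -/
theorem sec_of_exits {R : ℤ} (hR : 0 < R) {ω : Cfg} {s : Fin 3 → ℤ} (h : Exits R ω s) :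
    ∃ (sec : ℤ × ℤ → Fin 3) (kap : ℤ × ℤ → ZMod 2),
      IsSec TQ ω (BW R : Set (ℤ × ℤ)) leg (fun i => i) (fun i => i + 2) sec kap ∧
      Cyc (8 * R + 3) s (fun x => sec (bdc R x)) (fun x => kap (bdc R x)) := by
  have h1 : ∀ i : Fin 3, (ine R (s i)).swap ∈ Orb TQ ω (An 0 R) (ine 0 ((i : ℕ) : ℤ)).swap := by
    intro i
    rw [An_zero]
    exact (h i).2.2
  obtain ⟨sec, kap, H⟩ := secOut (d := 0) (w := R) (ω := ω) le_rfl hR alt_core
    (fun i => ⟨s i, (h i).1, (h i).2.1, h1 i⟩)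
  have hc := cyc_out (s := s) le_rfl hR (fun i => alt_core.mem i) H
    (fun i => ⟨(h i).1, (h i).2.1⟩) h1
  rw [An_zero] at H
  exact ⟨sec, kap, H, hc⟩

theorem mark_eq (i : Fin 3) : (leg i).2 = (leg (i + 2)).1 := by
  fin_cases i <;> decide

theorem leg_core (i : Fin 3) : ∃ x, Core x ∧ (leg i).1 = (x, 0) := by
  fin_cases i
  · exact ⟨-1, Or.inr (Or.inl rfl), by decide⟩
  · exact ⟨-2, Or.inl rfl, by decide⟩
  · exact ⟨0, Or.inr (Or.inr rfl), by decide⟩

theorem core_leg {x : ℤ} (h : Core x) : ∃ i, (leg i).1 = (x, 0) := by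
  rcases h with rfl | rfl | rfl
  · exact ⟨1, by decide⟩
  · exact ⟨0, by decide⟩
  · exact ⟨2, by decide⟩

theorem inW_leg {R : ℤ} (hR : 0 < R) (i : Fin 3) : InW R (leg i).1 := by
  obtain ⟨x, hx, h⟩ := leg_core i
  rw [h]
  unfold Core at hx
  unfold InW
  simp only
  omega

/-- A vertex of an outer face in the box is a boundary vertex. -/
theorem bdW_of_out {R : ℤ} (hR : 0 < R) {f : ℤ × ℤ} (hf : f ∉ BW R) (k : ZMod 4)
    (h : InW R (TQ.c f k)) : BdW R (TQ.c f k) := by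
  obtain ⟨a, b, h1, h2, h3⟩ := c_spec f k
  rw [mem_BW] at hf
  unfold InW at h
  unfold BdW
  omega

/-! ### Distances -/

theorem dT_self (u : ℤ × ℤ) : dT u u = 0 := by
  unfold dT; simp

theorem dT_le {u v : ℤ × ℤ} {n : ℤ} : dT u v ≤ n ↔
    u.1 - v.1 ≤ n ∧ v.1 - u.1 ≤ n ∧ u.2 - v.2 ≤ n ∧ v.2 - u.2 ≤ n := by
  unfold dT
  rw [max_le_iff, abs_le, abs_le]
  omega

theorem le_dT {u v : ℤ × ℤ} {n : ℤ} : n ≤ dT u v ↔
    n ≤ u.1 - v.1 ∨ n ≤ v.1 - u.1 ∨ n ≤ u.2 - v.2 ∨ n ≤ v.2 - u.2 := by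
  unfold dT
  rw [le_max_iff, le_abs, le_abs]
  omega

theorem dT_triangle {u v w : ℤ × ℤ} {m n : ℤ} (h1 : dT u v ≤ m) (h2 : dT v w ≤ n) :
    dT u w ≤ m + n := by
  rw [dT_le] at *
  omega

theorem bd_step {R t : ℤ} (hR : 0 < R) : dT (bd R (t + 1)) (bd R t) ≤ 1 := by
  rw [dT_le]
  unfold bd
  split_ifs <;> simp only <;> omega

theorem bd_dist {R t n : ℤ} (hR : 0 < R) (hn : 0 ≤ n) : dT (bd R (t + n)) (bd R t) ≤ n := by
  induction n, hn using Int.leInduction with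
  | base => rw [add_zero, dT_self]
  | succ n hn ih =>
    have h1 := bd_step (R := R) (t := t + n) hR
    have h2 := dT_triangle h1 ih
    rw [show t + (n + 1) = t + n + 1 by ring]
    omega

theorem dT_comm (u v : ℤ × ℤ) : dT u v = dT v u := by
  unfold dT
  rw [abs_sub_comm, abs_sub_comm u.2]

theorem bd_dist' {R t t' : ℤ} (hR : 0 < R) : dT (bd R t) (bd R t') ≤ |t - t'| := by
  rcases le_total t' t with h | h
  · have := bd_dist (R := R) (t := t') (n := t - t') hR (by omega)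
    rw [abs_of_nonneg (by omega)]
    rwa [show t' + (t - t') = t by ring] at this
  · have := bd_dist (R := R) (t := t) (n := t' - t) hR (by omega)
    rw [abs_of_nonpos (by omega), dT_comm]
    rw [show t + (t' - t) = t' by ring] at this
    rwa [neg_sub]

theorem bdc_step {R x : ℤ} (hR : 0 < R) : dT (bdc R (x + 1)) (bdc R x) ≤ 1 := by
  have hpos : 0 < 8 * R + 3 := by omega
  have h0 := Int.emod_nonneg x hpos.ne'
  have h1 := Int.emod_lt_of_pos x hpos
  have e1 : bdc R x = bd R (x % (8 * R + 3)) := rfl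
  have e2 : bdc R (x + 1) = bd R (x % (8 * R + 3) + 1) := by
    rw [← bdc_succ hR.le h0 h1]
    refine bdc_per ?_
    have := Int.emod_add_mul_ediv x (8 * R + 3)
    exact ⟨x / (8 * R + 3), by linarith⟩
  rw [e1, e2]
  exact bd_step hR

theorem bdc_dist {R x n : ℤ} (hR : 0 < R) (hn : 0 ≤ n) : dT (bdc R (x + n)) (bdc R x) ≤ n := by
  induction n, hn using Int.leInduction with
  | base => rw [add_zero, dT_self]
  | succ n hn ih =>
    have h1 := bdc_step (R := R) (x := x + n) hR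
    have h2 := dT_triangle h1 ih
    rw [show x + (n + 1) = x + n + 1 by ring]
    omega

theorem inW_bd {R t : ℤ} (hR : 0 < R) (h0 : 0 ≤ t) (h1 : t < 8 * R + 3) : InW R (bd R t) :=
  ((bdW_iff hR).2 ⟨t, h0, h1, rfl⟩).2

theorem bdW_bd {R t : ℤ} (hR : 0 < R) (h0 : 0 ≤ t) (h1 : t < 8 * R + 3) : BdW R (bd R t) :=
  ((bdW_iff hR).2 ⟨t, h0, h1, rfl⟩).1

/-! ### Close tips -/

/-- Close tips: the fresh configuration has an arm. -/
theorem close_det {R g : ℤ} (hR : 0 < R) {ω ξ : Cfg} {s s' : Fin 3 → ℤ}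
    (hs : Exits R ω s) {i : Fin 3} (hi : gap (8 * R + 3) s i < g)
    (hs' : Exits (2 * R) (mix (VU TQ ω (BW R) leg) ω ξ) s')
    (harm : mix (VU TQ ω (BW R) leg) ω ξ ∈ Arm3 (2 * R)) :
    ∃ y z, dT y (bd R (s i)) ≤ g ∧ R - 4 ≤ dT z (bd R (s i)) ∧
      ConnQ TQ ξ (BW (2 * R)) y z := by
  set S : Set (ℤ × ℤ) := VU TQ ω (BW R) leg with hS
  set ζ : Cfg := mix S ω ξ with hζ
  obtain ⟨sec, kap, H, hc⟩ := sec_of_exits hR hs
  obtain ⟨sec', kap', H', -⟩ := sec_of_exits (by omega) hs'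
  obtain ⟨x, hx, hxi⟩ := leg_core i
  obtain ⟨q, hq, hqb⟩ := harm x hx
  have hq' : ConnQ TQ ζ (BW (2 * R)) (leg i).1 q := by
    rw [hxi]
    exact (connQ_iff emP_mono).2 hq
  have hsub : (BW R : Set (ℤ × ℤ)) ⊆ BW (2 * R) := BW_mono (by omega)
  have hζS : ∀ f ∈ S, ω f = ζ f := fun f hf => (mix_of_mem hf).symm
  obtain ⟨y, hy, -, hc2⟩ := near (Q := TQ) (ζ := ζ) (G := (BW (2 * R) : Set (ℤ × ℤ))) (S := S)
    (F := (BW R : Set (ℤ × ℤ))) (T := {v | InW R v ∧ sec v = i ∧ kap v = 0})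
    (Y := {v | ∃ t, 0 ≤ t ∧ t < 8 * R + 3 ∧ bd R t = v ∧ sec v = i})
    (P := fun v => ConnQ TQ ζ (BW (2 * R)) (leg i).1 v) (p := (leg i).1) (q := q)
    (fun u v hb hu => hu.tail hb)
    (fun f hf k hk hP => by
      have hfF : f ∈ (BW R : Set (ℤ × ℤ)) := VU_sub hf
      have hk' : ω f = ev k := (hζS f hf).trans hk
      -- `kap` vanishes at the ends of the bond of a visited face
      have hk0 : kap (TQ.c f k) = 0 := by
        obtain ⟨j, hfj, l, hl⟩ := hf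
        have h1 := H.kap_of_mem (a := (TQ.c f l, TQ.c f (l + 1))) ⟨j, Or.inl hl⟩
        have h2 := (H.bond_eq hfF hk').2
        rcases z4_cases l k with rfl | rfl | rfl | rfl
        · exact h1.1
        · have h3 := h1.2
          simp only [z1] at h3
          rw [h2, h3]
        · rw [h2]
          exact h1.1
        · have h3 := h1.2
          simp only [z5] at h3
          exact h3
      obtain ⟨j, h⟩ := H.land_corner hf hk0
      have hVU : VU TQ ω (BW R) leg ⊆ (BW (2 * R) : Set (ℤ × ℤ)) := VU_sub.trans hsub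
      have hcong : ∀ u v, ConnQ TQ ω (VU TQ ω (BW R) leg) u v → ConnQ TQ ζ (BW (2 * R)) u v :=
        fun u v huv => (ConnQ.congr hζS huv).mono hVU
      have key : ∀ j', sec (TQ.c f k) = j' → ConnQ TQ ζ (BW (2 * R)) (leg j').1 (TQ.c f k) →
          sec (TQ.c f k) = i := by
        intro j' h1 h2
        have h3 := H'.conn_eq h2
        have h4 := H'.conn_eq hP
        have h5 := (H'.left j' _ mem_Orb_self).1
        have h6 := (H'.left i _ mem_Orb_self).1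
        rw [h1]
        rw [h5] at h3
        rw [h6] at h4
        exact h3.1.trans h4.1.symm
      refine ⟨inW_corner hR.le hfF k, ?_, hk0⟩
      rcases h with ⟨h1, h2⟩ | ⟨h1, h2⟩
      · exact key j h1 (hcong _ _ h2)
      · rw [mark_eq] at h2
        exact key (j + 2) h1 (hcong _ _ h2))
    (fun f hf hfS k hk => by
      have h1 := H.fresh_opp (k := k) hf hfS
      exact ⟨inW_corner hR.le hf _, h1.1.symm.trans hk.2.1, h1.2.symm.trans hk.2.2⟩)
    (fun f _ hf k hk => by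
      obtain ⟨t, h0, h1, h2⟩ := (bdW_iff hR).1 ⟨bdW_of_out hR hf k hk.1, hk.1⟩
      exact ⟨t, h0, h1, h2, hk.2.1⟩)
    ⟨inW_leg hR i, (H.left i _ mem_Orb_self).1, (H.left i _ mem_Orb_self).2⟩ ReflTransGen.refl
    (fun h => by
      have h1 := h.1
      unfold InW at h1
      unfold BdW at hqb
      omega) hq'
  obtain ⟨t, h0, h1, rfl, h3⟩ := hy
  refine ⟨bd R t, q, ?_, ?_, ?_⟩
  · have h4 : (fun x => sec (bdc R x)) t = i := by
      simp only [bdc_eq h0 h1]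
      exact h3
    obtain ⟨n, hn1, hn2, hn3⟩ := hc.mem_arc h4
    have h5 : bd R t = bdc R (s i + n) := by
      rw [← bdc_eq h0 h1]
      exact bdc_per hn3
    have h6 := bdc_dist (R := R) (x := s i) (n := n) hR (by omega)
    rw [← h5, bdc_eq (hs i).1 (hs i).2.1] at h6
    omega
  · have h4 := inW_bd hR (hs i).1 (hs i).2.1
    rw [le_dT]
    unfold InW at h4
    unfold BdW at hqb
    omega
  · refine (ConnQ.congr (fun f hf => ?_) hc2).mono Set.sdiff_subset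
    exact mix_of_notMem hf.2

/-- The exits of the legs are tips. -/
theorem Exits.arm {R : ℤ} (hR : 0 < R) {ω : Cfg} {s : Fin 3 → ℤ} (h : Exits R ω s) :
    ω ∈ Arm3 R := by
  intro x hx
  obtain ⟨i, hi⟩ := core_leg hx
  obtain ⟨h0, h1, h2⟩ := h i
  refine ⟨bd R (s i + 1), ?_, ?_⟩
  · rw [← hi]
    exact (connQ_iff emP_mono).1 ((marks h2).1.mono Vis_sub)
  · rcases eq_or_lt_of_le (show s i + 1 ≤ 8 * R + 3 by omega) with h3 | h3
    · rw [h3, bd_last hR.le]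
      exact bdW_bd hR le_rfl (by omega)
    · exact bdW_bd hR (by omega) h3

/-- Two near exits: a small sector. -/
theorem gap_of_near {R g : ℤ} {s : Fin 3 → ℤ} {S : ℤ → Fin 3} {K : ℤ → ZMod 2}
    (hc : Cyc (8 * R + 3) s S K) {i j : Fin 3} (hij : i ≠ j)
    (hi : 0 ≤ s i ∧ s i < 8 * R + 3) (hj : 0 ≤ s j ∧ s j < 8 * R + 3) (h : Near R g (s i) (s j)) :
    ∃ l, gap (8 * R + 3) s l < g := by
  have key : ∀ i j : Fin 3, j = i + 1 → 0 ≤ s i ∧ s i < 8 * R + 3 → 0 ≤ s j ∧ s j < 8 * R + 3 →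
      (|s i - s j| < g ∨ 8 * R + 3 - g < |s i - s j|) → ∃ l, gap (8 * R + 3) s l < g := by
    intro i j hj1 hi hj h
    have hg : gap (8 * R + 3) s i = (s j - s i) % (8 * R + 3) := by unfold gap; rw [hj1]
    have hsum := hc.sum_gap
    have p0 := hc.gap_pos 0
    have p1 := hc.gap_pos 1
    have p2 := hc.gap_pos 2
    by_contra hcon
    push Not at hcon
    have c0 := hcon 0
    have c1 := hcon 1
    have c2 := hcon 2
    have hgi := hcon i
    have hgi2 : gap (8 * R + 3) s i ≤ 8 * R + 3 - g := by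
      fin_cases i <;> simp only [Fin.zero_eta, Fin.mk_one, Fin.reduceFinMk, Fin.isValue] <;> omega
    rcases le_total (s i) (s j) with h1 | h1
    · rw [Int.emod_eq_of_lt (by omega) (by omega)] at hg
      rw [abs_of_nonpos (by omega)] at h
      omega
    · rw [abs_of_nonneg (by omega)] at h
      rcases h1.lt_or_eq with h2 | h2
      · have e : (s j - s i) % (8 * R + 3) = s j - s i + (8 * R + 3) := by
          rw [← Int.add_emod_right, Int.emod_eq_of_lt (by omega) (by omega)]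
        omega
      · rw [h2, sub_self, Int.zero_emod] at hg
        have := hc.gap_pos i
        omega
  have h2 : j = i + 1 ∨ i = j + 1 := by
    revert hij
    clear * -
    revert i j
    decide
  rcases h2 with h2 | h2
  · exact key i j h2 hi hj h
  · refine key j i h2 hj hi ?_
    rw [abs_sub_comm]
    exact h

/-- One arm around a boundary vertex. -/
theorem ball {q : ℝ} (hq : 0 < q) : ∃ M : ℕ, 8 ≤ M ∧ ∀ g R : ℕ, 1 ≤ g → M * g ≤ R →
    ∀ (v : ℤ × ℤ) (W : Finset (ℤ × ℤ)), (R : ℤ) ≤ max |v.1| |v.2| →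
    pr W {ξ | ∃ y z, dT y v ≤ g ∧ ((R / 4 : ℕ) : ℤ) ≤ dT z v ∧ ConnQ TQ ξ W y z} ≤ q := by
  obtain ⟨C, β, hC, hβ, H⟩ := oneArmT
  set δ : ℝ := (q / C) ^ (1 / β) with hδ
  have hδ0 : 0 < δ := by positivity
  have hδβ : C * δ ^ β = q := by
    rw [hδ, ← Real.rpow_mul (by positivity), one_div, inv_mul_cancel₀ hβ.ne', Real.rpow_one]
    field_simp
  refine ⟨⌈8 / δ⌉₊ + 8, by omega, fun g R hg hR v W hv => ?_⟩
  have hR8 : 8 * g ≤ R := by nlinarith
  have h1 := H v g ((R / 4 : ℕ) : ℤ) W (by exact_mod_cast hg) (by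
    have : g ≤ R / 4 := by omega
    exact_mod_cast this) (by
    have : R / 4 + 4 ≤ R := by omega
    have h2 : ((R / 4 : ℕ) : ℤ) + 4 ≤ R := by exact_mod_cast this
    exact h2.trans hv)
  refine h1.trans ?_
  rw [← hδβ]
  have hR4 : (0 : ℝ) < ((R / 4 : ℕ) : ℝ) := by
    have : 0 < R / 4 := by omega
    exact_mod_cast this
  refine mul_le_mul_of_nonneg_left (Real.rpow_le_rpow (by positivity) ?_ hβ.le) hC.le
  have hR8' : R ≤ 8 * (R / 4) := by omega
  have h3 : (R : ℝ) ≤ 8 * ((R / 4 : ℕ) : ℝ) := by exact_mod_cast hR8'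
  have h4 : ((⌈8 / δ⌉₊ + 8 : ℕ) : ℝ) * g ≤ R := by exact_mod_cast hR
  have h5 : 8 / δ ≤ ((⌈8 / δ⌉₊ + 8 : ℕ) : ℝ) := by
    push_cast
    have := Nat.le_ceil (8 / δ)
    linarith
  have hg0 : (0 : ℝ) ≤ g := by positivity
  have h6 : 8 / δ * g ≤ R := (mul_le_mul_of_nonneg_right h5 hg0).trans h4
  have h7 : 8 * (g : ℝ) ≤ δ * R := by
    have := mul_le_mul_of_nonneg_left h6 hδ0.le
    calc 8 * (g : ℝ) = δ * (8 / δ * g) := by field_simp
      _ ≤ δ * R := this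
  have h8 : δ * R ≤ δ * (8 * ((R / 4 : ℕ) : ℝ)) := mul_le_mul_of_nonneg_left h3 hδ0.le
  have h9 : (g : ℝ) ≤ δ * ((R / 4 : ℕ) : ℝ) := by nlinarith
  have e1 : (((g : ℕ) : ℤ) : ℝ) = (g : ℝ) := by norm_cast
  have e2 : (((R / 4 : ℕ) : ℤ) : ℝ) = ((R / 4 : ℕ) : ℝ) := by norm_cast
  rw [e1, e2, div_le_iff₀ hR4]
  exact h9

theorem le_max_bd {R t : ℤ} (hR : 0 < R) (h0 : 0 ≤ t) (h1 : t ≤ 8 * R + 3) :
    R ≤ max |(bd R t).1| |(bd R t).2| := by
  have h2 : BdW R (bd R t) := by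
    rcases h1.lt_or_eq with h | h
    · exact bdW_bd hR h0 h
    · rw [h, bd_last hR.le]
      exact bdW_bd hR le_rfl (by omega)
  rw [le_max_iff, le_abs, le_abs]
  unfold BdW at h2
  omega

/-- The last exit from the faces of `F`. -/
theorem last_exit {V Φ : Type} {Q : QC V Φ} {ω : Φ → Bool} {G F : Set Φ} {P : V → Prop}
    (hF : ∀ f ∈ F, ∀ k, P (Q.c f k)) {u v : V} (h : ConnQ Q ω G u v) (hu : P u) :
    ∃ x, P x ∧ ConnQ Q ω (G \ F) x v := by
  induction h with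
  | refl => exact ⟨u, hu, ReflTransGen.refl⟩
  | tail _ hb ih =>
    obtain ⟨x, hx, hc⟩ := ih
    obtain ⟨f, hf, k, hk, h1, h2⟩ := hb
    by_cases hfF : f ∈ F
    · exact ⟨_, h2 ▸ hF f hfF _, ReflTransGen.refl⟩
    · exact ⟨x, hx, hc.tail ⟨f, ⟨hf, hfF⟩, k, hk, h1, h2⟩⟩

theorem pr_list {W : Finset (ℤ × ℤ)} {E : ℤ → Set Cfg} {c : ℝ} (l : List ℤ)
    (h : ∀ z ∈ l, pr W (E z) ≤ c) : pr W {ω | ∃ z ∈ l, ω ∈ E z} ≤ l.length * c := by
  induction l with
  | nil =>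
    have e : {ω : Cfg | ∃ z ∈ ([] : List ℤ), ω ∈ E z} = ∅ := by
      ext ω; simp
    rw [e]
    unfold pr
    simp
  | cons a l ih =>
    have e : {ω : Cfg | ∃ z ∈ (a :: l), ω ∈ E z} = E a ∪ {ω | ∃ z ∈ l, ω ∈ E z} := by
      ext ω; simp
    rw [e]
    refine (pr_union_le _ _ _).trans ?_
    have h1 := h a (List.mem_cons_self ..)
    have h2 := ih fun z hz => h z (List.mem_cons_of_mem _ hz)
    rw [List.length_cons]
    push_cast
    linarith

end CO

/-- Close tips cost a small factor at the next scale. -/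
theorem closeOut_of (hT : Tips3) (hA : Arm3Anti) : CloseOut := by
  intro q hq
  obtain ⟨M, hM, hball⟩ := CO.ball hq
  refine ⟨M, by omega, fun g R hg hR => ?_⟩
  have hR8 : 8 * g ≤ R := by nlinarith
  have hR0 : (0 : ℤ) < R := by omega
  have hcast : ((2 * R : ℕ) : ℤ) = 2 * (R : ℤ) := by push_cast; ring
  set A : Set Cfg := {ω | ∃ s, CO.Exits R ω s ∧ ∃ i, gap (8 * (R : ℤ) + 3) s i < g} with hAdef
  have hchoose : ∀ ω ∈ A, ∃ p : (Fin 3 → ℤ) × Fin 3, CO.Exits R ω p.1 ∧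
      gap (8 * (R : ℤ) + 3) p.1 p.2 < g := by
    rintro ω ⟨s, hs, i, hi⟩
    exact ⟨(s, i), hs, hi⟩
  choose! p hp hpg using hchoose
  have hmix := pr_mix_le (W := BW (2 * R)) (S := fun ω => VU TQ ω (BW R : Set (ℤ × ℤ)) leg)
    (fun ω ω' h => VU_congr h) (A := A) (fun ω hω ω' h => by
      obtain ⟨s, hs, hi⟩ := hω
      refine ⟨s, fun i => ⟨(hs i).1, (hs i).2.1, ?_⟩, hi⟩
      rw [Orb_congr (ω := ω) (ω' := ω') fun f hf => h f ⟨i, hf⟩]
      exact (hs i).2.2)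
    (fun ω => {ξ | ∃ y z, dT y (bd R ((p ω).1 (p ω).2)) ≤ g ∧
      ((R / 4 : ℕ) : ℤ) ≤ dT z (bd R ((p ω).1 (p ω).2)) ∧ ConnQ TQ ξ (BW (2 * R)) y z})
    (Arm3 (2 * R)) (q := q)
    (fun ω hω => hball g R hg hR _ _
      (CO.le_max_bd hR0 (hp ω hω _).1 (hp ω hω _).2.1.le))
    (fun ω hω ξ hξ => by
      have hξ' : mix (VU TQ ω (BW R : Set (ℤ × ℤ)) leg) ω ξ ∈ Arm3 ((2 * R : ℕ) : ℤ) := by
        rw [hcast]; exact hξ
      obtain ⟨s', hs'⟩ := CO.exits_of hT (R := 2 * R) (by omega) hξ'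
      rw [hcast] at hs'
      obtain ⟨y, z, h1, h2, h3⟩ := CO.close_det hR0 (hp ω hω) (hpg ω hω) hs' hξ
      exact ⟨y, z, h1, by omega, h3⟩)
  have hsub : BW (R : ℤ) ⊆ BW (2 * (R : ℤ)) := BW_sub (by omega)
  rw [hcast]
  calc pr (BW (2 * (R : ℤ))) (Arm3 (2 * R) ∩ Close3 R g)
      ≤ pr (BW (2 * (R : ℤ))) (A ∩ Arm3 (2 * R)) := by
        refine pr_mono _ fun ω h => ⟨?_, h.1⟩
        have hω : ω ∈ Arm3 (R : ℤ) := hA R (2 * R) (by omega) (by omega) ω (by
          rw [hcast]; exact h.1)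
        obtain ⟨s, hs⟩ := CO.exits_of hT (by omega) hω
        obtain ⟨sec, kap, -, hc⟩ := CO.sec_of_exits hR0 hs
        obtain ⟨t, t', ⟨a0, a1, i, a2⟩, ⟨b0, b1, j, b2⟩, htt, hn⟩ := h.2
        have e1 := CO.exit_unique hR0 a0 a1 (hs i).1 (hs i).2.1 a2 (hs i).2.2
        have e2 := CO.exit_unique hR0 b0 b1 (hs j).1 (hs j).2.1 b2 (hs j).2.2
        rw [e1, e2] at hn
        refine ⟨s, hs, CO.gap_of_near hc (i := i) (j := j) ?_ ⟨(hs i).1, (hs i).2.1⟩
          ⟨(hs j).1, (hs j).2.1⟩ hn⟩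
        rintro rfl
        exact htt (e1.trans e2.symm)
    _ ≤ q * pr (BW (2 * (R : ℤ))) A := hmix
    _ ≤ q * pr (BW (2 * (R : ℤ))) (Arm3 R) := by
        refine mul_le_mul_of_nonneg_left (pr_mono _ fun ω h => ?_) hq.le
        obtain ⟨s, hs, -⟩ := h
        exact hs.arm hR0
    _ = q * pr (BW R) (Arm3 R) := by
        rw [pr_eq_of_depOn (depOn_arm3' (R : ℤ)) hsub]

/-- A tip near a special position costs a small factor from the previous scale. -/
theorem specOut_of (hA : Arm3Anti) : SpecOut := by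
  classical
  intro q hq
  obtain ⟨M, hM, hball⟩ := CO.ball (q := q / 9) (by positivity)
  refine ⟨M, by omega, fun g R hg hR => ?_⟩
  have hR8 : 8 * g ≤ R := by nlinarith
  have hR0 : (0 : ℤ) < R := by omega
  set r : ℕ := R / 2 with hr
  have hsub : BW (r : ℤ) ⊆ BW (R : ℤ) := BW_sub (by omega)
  set W : Finset (ℤ × ℤ) := BW (R : ℤ) \ BW (r : ℤ) with hW
  set E : ℤ → Set Cfg := fun z => {ω | ∃ y x, dT y (bd R z) ≤ g ∧
    ((R / 4 : ℕ) : ℤ) ≤ dT x (bd R z) ∧ ConnQ TQ ω W y x} with hE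
  have hspec : ∀ z ∈ spec (R : ℤ), 0 ≤ z ∧ z ≤ 8 * (R : ℤ) + 3 := by
    intro z hz
    unfold spec at hz
    simp only [List.mem_cons, List.not_mem_nil, or_false] at hz
    omega
  have h1 : pr W {ω | ∃ z ∈ spec (R : ℤ), ω ∈ E z} ≤ q := by
    refine (CO.pr_list (c := q / 9) _ fun z hz => hball g R hg hR _ _
      (CO.le_max_bd hR0 (hspec z hz).1 (hspec z hz).2)).trans ?_
    have : (spec (R : ℤ)).length = 9 := rfl
    rw [this]
    push_cast
    linarith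
  have hdep : DepOn (W : Set (ℤ × ℤ)) {ω | ∃ z ∈ spec (R : ℤ), ω ∈ E z} := by
    have key : ∀ ω ω' : Cfg, (∀ f ∈ (W : Set (ℤ × ℤ)), ω f = ω' f) →
        ω ∈ {ω | ∃ z ∈ spec (R : ℤ), ω ∈ E z} → ω' ∈ {ω | ∃ z ∈ spec (R : ℤ), ω ∈ E z} := by
      rintro ω ω' h ⟨z, hz, y, x, h1, h2, h3⟩
      exact ⟨z, hz, y, x, h1, h2, h3.congr h⟩
    exact fun ω ω' h => ⟨key ω ω' h, key ω' ω fun f hf => (h f hf).symm⟩
  have hdisj : Disjoint (BW (r : ℤ)) W := Finset.disjoint_sdiff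
  have hun : BW (r : ℤ) ∪ W = BW (R : ℤ) := Finset.union_sdiff_of_subset hsub
  have h2 := pr_inter_of_disjoint (depOn_arm3' (r : ℤ)) hdep hdisj
  rw [hun] at h2
  calc pr (BW (R : ℤ)) (Arm3 R ∩ Spec3 R g)
      ≤ pr (BW (R : ℤ)) (Arm3 r ∩ {ω | ∃ z ∈ spec (R : ℤ), ω ∈ E z}) := by
        refine pr_mono _ fun ω h => ⟨hA r R (by omega) (by omega) ω h.1, ?_⟩
        obtain ⟨t, ⟨h0, h1, i, ht⟩, haw⟩ := h.2
        unfold Away at haw
        push Not at haw
        obtain ⟨z, hz, hlt⟩ := haw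
        have hm := (marks ht).1.mono Vis_sub
        obtain ⟨x, hx, hc⟩ := CO.last_exit (F := (BW (r : ℤ) : Set (ℤ × ℤ)))
          (P := InW r) (fun f hf k => inW_corner (by omega) hf k) hm
          (CO.inW_leg (by omega) i)
        have hc' : ConnQ TQ ω W (bd R (t + 1)) x := by
          have e : ((W : Finset (ℤ × ℤ)) : Set (ℤ × ℤ)) = (BW (R : ℤ) : Set (ℤ × ℤ)) \ BW (r : ℤ) := by
            rw [hW, Finset.coe_sdiff]
          rw [e]
          exact hc.symm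
        refine ⟨z, hz, bd R (t + 1), x, ?_, ?_, hc'⟩
        · refine (CO.bd_dist' hR0).trans ?_
          rw [abs_lt] at hlt
          rw [abs_le]
          omega
        · have h5 := CO.le_max_bd hR0 (hspec z hz).1 (hspec z hz).2
          have h6 : BdW (R : ℤ) (bd R z) := by
            rcases (hspec z hz).2.lt_or_eq with h | h
            · exact CO.bdW_bd hR0 (hspec z hz).1 h
            · rw [h, bd_last hR0.le]
              exact CO.bdW_bd hR0 le_rfl (by omega)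
          rw [CO.le_dT]
          unfold InW at hx
          unfold BdW at h6
          omega
    _ = pr (BW (r : ℤ)) (Arm3 r) * pr W {ω | ∃ z ∈ spec (R : ℤ), ω ∈ E z} := h2
    _ ≤ pr (BW (r : ℤ)) (Arm3 r) * q := mul_le_mul_of_nonneg_left h1 (pr_nonneg _ _)
    _ = q * pr (BW (r : ℤ)) (Arm3 r) := mul_comm _ _

theorem closeOut : CloseOut := closeOut_of tips3 arm3Anti

theorem specOut : SpecOut := specOut_of arm3Anti

end Pool.Agent.Perc.Q
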