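import Pool.Agent.Lib.MP_6bd702_perc3.Glue3Defs

/-!
# The walls of the annulus between two boxes of the twisted plane
-/

set_option autoImplicit false

namespace Pool.Agent.Perc.Q

open Finset Pool.Agent.Perc

/-- The inner port of the boundary edge `t`. -/
def iport (w R t : ℤ) : ℤ × ℤ := tcell w R t - tdir R t

/-- The routes from the tips on the inner box to the tips on the outer box. -/
def RoutesP : Prop := ∀ N : ℕ, ∃ K : ℕ, ∀ w R R' : ℤ, 3 ≤ w → 60 * w ≤ R → R + 60 * w ≤ R' →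
  R' ≤ N * w → ∀ t s : Fin 3 → ℤ, TipPos w R t → TipPos w R' s →
  ∃ G : Fin 3 → Finset (ℤ × ℤ), (∀ i j, i ≠ j → Disjoint (G i) (G j)) ∧
    (∀ i, ∀ g ∈ G i, CellOk g) ∧ (∀ i, (G i).card ≤ K) ∧
    (∀ i j, tcell w R (t i) ∉ G j ∧ tcell w R' (s i) ∉ G j) ∧
    (∀ i, ∀ a b : ℤ, -1 ≤ a → a ≤ 1 → -1 ≤ b → b ≤ 1 → (a, b) ≠ (0, 0) →
      tcell w R (t i) + (a, b) ∈ G i ∧ tcell w R' (s i) + (a, b) ∈ G i) ∧
    ∀ i, Relation.ReflTransGen (fun a b => a ∈ G i ∧ b ∈ G i ∧ COut w R a ∧ COut w R b ∧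
      CIn w R' a ∧ CIn w R' b ∧ CAdj a b) (oport w R (t i)) (iport w R' (s i))

end Pool.Agent.Perc.Q
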