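import Pool.Agent.Lib.MP_6bd702_perc3.T3Defs
import Pool.Agent.Lib.MP_6bd702_perc3.Legs

/-!
# T3, row Tip: from the legs of the core to the strands of the annulus, boundary edges
-/

set_option autoImplicit false

namespace Pool.Agent.Perc3

open Finset Pool.Agent.Perc Pool.Agent.Perc.Q

variable {d w W n t : ℤ} {ω : Cfg} {i : Fin 3}

namespace TipAux

open Relation

/-- The elements of the strand which enters at the tip of a leg are elements of the leg, with the
other direction. -/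
theorem orb_swap {F F' : Set (ℤ × ℤ)} (hF : F ⊆ F') {e b a : (ℤ × ℤ) × (ℤ × ℤ)} (he : Ini TQ F' e)
    (hb : b.swap ∈ Orb TQ ω F' e) (ha : a ∈ Orb TQ ω F b) : a.swap ∈ Orb TQ ω F' e := by
  induction ha with
  | refl => exact hb
  | @tail x y _ hs ih =>
    have h1 : Nx TQ ω F' y.swap x.swap := by
      obtain ⟨f, hf, h⟩ := hs.rev
      exact ⟨f, hF hf, h⟩
    rcases Orb_pred ih with h2 | ⟨c, hc, h2⟩
    · exfalso
      obtain ⟨f, hf, k, -, ⟨-, h3⟩ | ⟨-, h3⟩⟩ := h1
      · refine he f hf (k + 1) ?_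
        rw [z1, ← h2]
        exact h3
      · refine he f hf (k + 3) ?_
        rw [z5, ← h2]
        exact h3
    · rw [h1.inj h2]
      exact hc

/-- A boundary edge and the side of the face inside. -/
theorem ine_in {r : ℤ} (hr : 0 < r) (h0 : 0 ≤ t) (h1 : t < 8 * r + 3) :
    ∃ (f : ℤ × ℤ) (k : ZMod 4), ine r t = (TQ.c f k, TQ.c f (k + 1)) ∧ sd f k = bdU r t ∧
      ((sd f k).2.2 = true ∨ (sd f k).2.1 ≠ 0) ∧ ∀ m : ℤ, sd (f.1 + m, f.2) k = shE m (sd f k) := by
  have hm : ∀ (f : ℤ × ℤ) (k : ZMod 4) (m : ℤ), sd (f.1 + m, f.2) k = shE m (sd f k) := by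
    intro f k m
    unfold sd shE bo ri to' le'
    split_ifs <;> simp only [Prod.mk.injEq, and_true] <;> ring
  unfold ine
  by_cases a1 : t < r
  · rw [BdAux.bd_R (by omega), BdAux.bd_R (by omega)]
    refine ⟨(r - 1, t), 1, ?_, ?_, ?_, hm _ _⟩
    · rw [BdAux.zk1, BdAux.c_1, BdAux.c_2, BdAux.gl_of_ne (by omega), BdAux.gl_of_ne (by omega),
        sub_add_cancel]
    · unfold bdU
      rw [if_pos a1]
      change ri (r - 1, t) = _
      unfold ri
      rw [sub_add_cancel]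
    · exact Or.inl rfl
  by_cases a2 : t < 3 * r + 2
  · rw [BdAux.bd_T (by omega) (by omega), BdAux.bd_T (by omega) (by omega)]
    refine ⟨(2 * r - t - 1, r - 1), 2, ?_, ?_, ?_, hm _ _⟩
    · rw [BdAux.zk2, BdAux.c_2, BdAux.c_3, BdAux.gl_of_ne (by omega), BdAux.gl_of_ne (by omega),
        sub_add_cancel, sub_add_cancel, sub_add_eq_sub_sub]
    · unfold bdU
      rw [if_neg a1, if_pos a2]
      change to' (2 * r - t - 1, r - 1) = _
      unfold to'
      rw [sub_add_cancel]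
    · refine Or.inr ?_
      change r - 1 + 1 ≠ 0
      omega
  by_cases a3 : t < 4 * r + 2
  · rw [BdAux.bd_L hr.le (by omega) (by omega), BdAux.bd_L hr.le (by omega) (by omega)]
    refine ⟨(-(r + 2), 4 * r + 1 - t), 3, ?_, ?_, ?_, hm _ _⟩
    · rw [BdAux.zk3, BdAux.c_3, BdAux.c_0, BdAux.gl_of_ne (by omega), BdAux.gl_of_ne (by omega),
        Prod.ext_iff, Prod.ext_iff, Prod.ext_iff]
      dsimp only
      omega
    · unfold bdU
      rw [if_neg a1, if_neg a2, if_pos a3]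
      rfl
    · exact Or.inl rfl
  by_cases a4 : t < 5 * r + 2
  · have hq : bd r (t + 1) = (-(r + 1), 4 * r + 1 - t) := by
      rw [BdAux.bd_Ll hr.le (by omega) (by omega), Prod.mk.injEq]; omega
    have hp : bd r t = BdAux.gl (-1) (-(r + 1)) (4 * r + 2 - t) := by
      by_cases h : t = 4 * r + 2
      · rw [BdAux.gl_of (by omega) (by omega) (by omega), BdAux.bd_L hr.le (by omega) (by omega),
          Prod.mk.injEq]
        omega
      · rw [BdAux.gl_of_ne (by omega), BdAux.bd_Ll hr.le (by omega) (by omega)]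
    have hgl : ∀ y, y < 0 → BdAux.gl y (-(r + 1)) (4 * r + 2 - t) =
        BdAux.gl (-1) (-(r + 1)) (4 * r + 2 - t) := by
      intro y hy
      unfold BdAux.gl
      simp only [hy, show (-1 : ℤ) < 0 by norm_num]
    have e2 : BdAux.gl (4 * r + 1 - t) (-(r + 1)) (4 * r + 1 - t) = (-(r + 1), 4 * r + 1 - t) :=
      BdAux.gl_of_ne (by omega)
    rw [hp, hq]
    refine ⟨(-(r + 1), 4 * r + 1 - t), 3, ?_, ?_, ?_, hm _ _⟩
    · rw [BdAux.zk3, BdAux.c_3, BdAux.c_0]
      dsimp only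
      rw [show 4 * r + 1 - t + 1 = 4 * r + 2 - t by ring, hgl (4 * r + 1 - t) (by omega), e2]
    · unfold bdU
      rw [if_neg a1, if_neg a2, if_neg a3, if_pos a4]
      rfl
    · exact Or.inl rfl
  by_cases a5 : t < 7 * r + 3
  · rw [BdAux.bd_B hr (by omega) (by omega), BdAux.bd_B hr (by omega) (by omega)]
    refine ⟨(t - 6 * r - 3, -r), 0, ?_, ?_, ?_, hm _ _⟩
    · rw [BdAux.zk0, BdAux.c_0, BdAux.c_1, BdAux.gl_of_ne (by omega), BdAux.gl_of_ne (by omega),
        Prod.ext_iff, Prod.ext_iff, Prod.ext_iff]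
      dsimp only
      omega
    · unfold bdU
      rw [if_neg a1, if_neg a2, if_neg a3, if_neg a4, if_pos a5]
      rfl
    · refine Or.inr ?_
      change -r ≠ 0
      omega
  · rw [BdAux.bd_Rl (by omega) (by omega), BdAux.bd_Rl (by omega) (by omega)]
    refine ⟨(r - 1, t - 8 * r - 3), 1, ?_, ?_, ?_, hm _ _⟩
    · rw [BdAux.zk1, BdAux.c_1, BdAux.c_2, BdAux.gl_of_ne (by omega), BdAux.gl_of_ne (by omega),
        Prod.ext_iff, Prod.ext_iff, Prod.ext_iff]
      dsimp only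
      omega
    · unfold bdU
      rw [if_neg a1, if_neg a2, if_neg a3, if_neg a4, if_neg a5]
      change ri (r - 1, t - 8 * r - 3) = _
      unfold ri
      rw [sub_add_cancel]
    · exact Or.inl rfl

/-- A boundary edge and the side of the face outside. -/
theorem ine_out {r : ℤ} (hr : 0 < r) (h0 : 0 ≤ t) (h1 : t < 8 * r + 3) :
    ∃ (f : ℤ × ℤ) (k : ZMod 4), (ine r t).swap = (TQ.c f k, TQ.c f (k + 1)) ∧ sd f k = bdU r t ∧
      ((sd f k).2.2 = true ∨ (sd f k).2.1 ≠ 0) ∧ ∀ m : ℤ, sd (f.1 + m, f.2) k = shE m (sd f k) := by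
  have hm : ∀ (f : ℤ × ℤ) (k : ZMod 4) (m : ℤ), sd (f.1 + m, f.2) k = shE m (sd f k) := by
    intro f k m
    unfold sd shE bo ri to' le'
    split_ifs <;> simp only [Prod.mk.injEq, and_true] <;> ring
  unfold ine
  rw [Prod.swap_prod_mk]
  by_cases a1 : t < r
  · rw [BdAux.bd_R (by omega), BdAux.bd_R (by omega)]
    refine ⟨(r, t), 3, ?_, ?_, ?_, hm _ _⟩
    · rw [BdAux.zk3, BdAux.c_3, BdAux.c_0, BdAux.gl_of_ne (by omega), BdAux.gl_of_ne (by omega)]
    · unfold bdU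
      rw [if_pos a1]
      rfl
    · exact Or.inl rfl
  by_cases a2 : t < 3 * r + 2
  · rw [BdAux.bd_T (by omega) (by omega), BdAux.bd_T (by omega) (by omega)]
    refine ⟨(2 * r - t - 1, r), 0, ?_, ?_, ?_, hm _ _⟩
    · rw [BdAux.zk0, BdAux.c_0, BdAux.c_1, BdAux.gl_of_ne (by omega), BdAux.gl_of_ne (by omega),
        sub_add_cancel, sub_add_eq_sub_sub]
    · unfold bdU
      rw [if_neg a1, if_pos a2]
      rfl
    · refine Or.inr ?_
      change r ≠ 0
      omega
  by_cases a3 : t < 4 * r + 2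
  · rw [BdAux.bd_L hr.le (by omega) (by omega), BdAux.bd_L hr.le (by omega) (by omega)]
    refine ⟨(-(r + 3), 4 * r + 1 - t), 1, ?_, ?_, ?_, hm _ _⟩
    · rw [BdAux.zk1, BdAux.c_1, BdAux.c_2, BdAux.gl_of_ne (by omega), BdAux.gl_of_ne (by omega),
        Prod.ext_iff, Prod.ext_iff, Prod.ext_iff]
      dsimp only
      omega
    · unfold bdU
      rw [if_neg a1, if_neg a2, if_pos a3]
      change ri (-(r + 3), 4 * r + 1 - t) = _
      unfold ri
      rw [show -(r + 3) + 1 = -(r + 2) by ring]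
    · exact Or.inl rfl
  by_cases a4 : t < 5 * r + 2
  · have hq : bd r (t + 1) = (-(r + 1), 4 * r + 1 - t) := by
      rw [BdAux.bd_Ll hr.le (by omega) (by omega), Prod.mk.injEq]; omega
    have hp : bd r t = BdAux.gl (-1) (-(r + 1)) (4 * r + 2 - t) := by
      by_cases h : t = 4 * r + 2
      · rw [BdAux.gl_of (by omega) (by omega) (by omega), BdAux.bd_L hr.le (by omega) (by omega),
          Prod.mk.injEq]
        omega
      · rw [BdAux.gl_of_ne (by omega), BdAux.bd_Ll hr.le (by omega) (by omega)]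
    have hgl : ∀ y, y < 0 → BdAux.gl y (-(r + 1)) (4 * r + 2 - t) =
        BdAux.gl (-1) (-(r + 1)) (4 * r + 2 - t) := by
      intro y hy
      unfold BdAux.gl
      simp only [hy, show (-1 : ℤ) < 0 by norm_num]
    have e2 : BdAux.gl (4 * r + 1 - t) (-(r + 1)) (4 * r + 1 - t) = (-(r + 1), 4 * r + 1 - t) :=
      BdAux.gl_of_ne (by omega)
    rw [hp, hq]
    refine ⟨(-(r + 2), 4 * r + 1 - t), 1, ?_, ?_, ?_, hm _ _⟩
    · rw [BdAux.zk1, BdAux.c_1, BdAux.c_2]
      dsimp only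
      rw [show 4 * r + 1 - t + 1 = 4 * r + 2 - t by ring, show -(r + 2) + 1 = -(r + 1) by ring,
        hgl (4 * r + 1 - t) (by omega), e2]
    · unfold bdU
      rw [if_neg a1, if_neg a2, if_neg a3, if_pos a4]
      change ri (-(r + 2), 4 * r + 1 - t) = _
      unfold ri
      rw [show -(r + 2) + 1 = -(r + 1) by ring]
    · exact Or.inl rfl
  by_cases a5 : t < 7 * r + 3
  · rw [BdAux.bd_B hr (by omega) (by omega), BdAux.bd_B hr (by omega) (by omega)]
    refine ⟨(t - 6 * r - 3, -r - 1), 2, ?_, ?_, ?_, hm _ _⟩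
    · rw [BdAux.zk2, BdAux.c_2, BdAux.c_3, BdAux.gl_of_ne (by omega), BdAux.gl_of_ne (by omega),
        Prod.ext_iff, Prod.ext_iff, Prod.ext_iff]
      dsimp only
      omega
    · unfold bdU
      rw [if_neg a1, if_neg a2, if_neg a3, if_neg a4, if_pos a5]
      change to' (t - 6 * r - 3, -r - 1) = _
      unfold to'
      rw [sub_add_cancel]
    · refine Or.inr ?_
      change -r - 1 + 1 ≠ 0
      omega
  · rw [BdAux.bd_Rl (by omega) (by omega), BdAux.bd_Rl (by omega) (by omega)]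
    refine ⟨(r, t - 8 * r - 3), 3, ?_, ?_, ?_, hm _ _⟩
    · rw [BdAux.zk3, BdAux.c_3, BdAux.c_0, BdAux.gl_of_ne (by omega), BdAux.gl_of_ne (by omega),
        Prod.ext_iff, Prod.ext_iff, Prod.ext_iff]
      dsimp only
      omega
    · unfold bdU
      rw [if_neg a1, if_neg a2, if_neg a3, if_neg a4, if_neg a5]
      rfl
    · exact Or.inl rfl

/-- The lift of a side which is not on the cut. -/
theorem shS_eq {r : ℤ} {f : ℤ × ℤ} {k : ZMod 4} (h1 : sd f k = bdU r t)
    (h2 : (sd f k).2.2 = true ∨ (sd f k).2.1 ≠ 0)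
    (h3 : ∀ m : ℤ, sd (f.1 + m, f.2) k = shE m (sd f k)) (N : ℤ × ℤ → ℤ) :
    shS N f k = bdL r t (N f) := by
  have h4 := h3 (-N f)
  rw [← sub_eq_add_neg] at h4
  unfold shS lft shF bdL
  simp only
  rw [h4, ← h1, if_neg]
  rintro ⟨⟨h5, h6, -⟩, -⟩
  unfold shE at h5 h6
  simp only at h5 h6
  rcases h2 with h | h
  · rw [h] at h5
    exact Bool.noConfusion h5
  · exact h h6

end TipAux

open TipAux

/-- The strand which enters the box of radius `w` at the tip of a leg is a part of the leg; it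
reaches the inner box. -/
theorem vis_tip (hd : 0 < d) (hdw : d < w) (hwW : w ≤ W) (h0 : 0 ≤ t) (h1 : t < 8 * w + 3)
    (ht : (ine w t).swap ∈ Orb TQ ω (BW w) (leg i)) :
    Vis TQ ω (An d w) (ine w t) ⊆ VT W ω i ∩ An d w ∧ Rea d w ω t := by
  have hw : 0 < w := hd.trans hdw
  have hW : 0 < W := hw.trans_le hwW
  have hsub : An d w ⊆ (BW w : Set (ℤ × ℤ)) := fun f hf => hf.1
  have hiw := LegsAux.ini_leg (R := w) hw i
  constructor
  · rintro f ⟨hf, k, hk⟩
    refine ⟨?_, hf⟩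
    unfold VT
    rw [LegsAux.an_zero W]
    have h2 := orb_swap (ω := ω) hsub hiw ht hk
    have h3 : (TQ.c f k, TQ.c f (k + 1)).swap ∈ Orb TQ ω (BW W : Set (ℤ × ℤ)) (leg i) :=
      Orb_mono (BW_mono hwW) h2
    exact vis_of_un (LegsAux.ini_leg (R := W) hW i) (BW_mono hwW hf.1) (Or.inr h3)
  · have hfin : (An d w).Finite := (BW w).finite_toSet.subset hsub
    obtain ⟨a, ha, hter⟩ := exists_ter (Q := TQ) (ω := ω) hfin (ini_outer hd.le hdw h0 h1)
    rcases Orb_pred ha with h2 | ⟨b, hb, f, hf, k, -, h2⟩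
    · -- the first edge is not terminal
      exfalso
      obtain ⟨f, hf, hf', k, hk⟩ := ine_face hw h0 h1
      have hfd : f ∉ BW d := fun h => hf' (Finset.mem_coe.1 (BW_mono (show d ≤ w - 1 by omega)
        (Finset.mem_coe.2 h)))
      exact hter f ⟨hf, hfd⟩ k (h2.trans hk)
    · have hside : ∃ l : ZMod 4, a = (TQ.c f (l + 1), TQ.c f l) := by
        rcases h2 with ⟨-, h2⟩ | ⟨-, h2⟩
        · exact ⟨k + 1, by rw [z1]; exact h2⟩
        · exact ⟨k + 3, by rw [z5]; exact h2⟩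
      obtain ⟨l, hl⟩ := hside
      rw [hl] at hter
      rcases ter_annulus hd.le hdw hf hter with ⟨s, s0, s1, hs⟩ | ⟨s, s0, s1, hs⟩
      · exact ⟨s, s0, s1, by rw [← hs, ← hl]; exact ha⟩
      · exfalso
        have h3 := orb_swap (ω := ω) hsub hiw ht ha
        rw [hl, hs, Prod.swap_swap] at h3
        have h4 := eq_of_ini h3 (LegsAux.ini_out hw s0 s1)
        have h5 : bd w s = bd 0 ((i : ℕ) + 1) := (Prod.mk.inj h4).1
        exact bd_ne (d := 0) (w := w) le_rfl hw (by omega) (by omega) s0 (by omega) h5.symm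

/-- The boundary edge in the coordinates of the face inside, and its lift. -/
theorem bdL_out (hw : 0 < w) (h0 : 0 ≤ t) (h1 : t < 8 * w + 3) {f : ℤ × ℤ} {k : ZMod 4}
    (hf : f ∈ BW w) (h : ine w t = (TQ.c f k, TQ.c f (k + 1))) (N : ℤ × ℤ → ℤ) (hN : |N f| + 2 ≤ w) :
    shS N f k = bdL w t (N f) := by
  obtain ⟨f', k', h2, h3, h4, h5⟩ := ine_in hw h0 h1
  rw [h] at h2
  obtain ⟨rfl, rfl⟩ := TQ.inj (Prod.mk.inj h2).1 (Prod.mk.inj h2).2
  exact shS_eq h3 h4 h5 N

/-- The same for the boundary of the inner box and the face outside. -/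
theorem bdL_in (hd : 0 < d) (h0 : 0 ≤ t) (h1 : t < 8 * d + 3) {f : ℤ × ℤ} {k : ZMod 4}
    (hf : f ∉ BW d) (h : (ine d t).swap = (TQ.c f k, TQ.c f (k + 1))) (N : ℤ × ℤ → ℤ)
    (hN : |N f| + 2 ≤ d) : shS N f k = bdL d t (N f) := by
  obtain ⟨f', k', h2, h3, h4, h5⟩ := ine_out hd h0 h1
  rw [h] at h2
  obtain ⟨rfl, rfl⟩ := TQ.inj (Prod.mk.inj h2).1 (Prod.mk.inj h2).2
  exact shS_eq h3 h4 h5 N

end Pool.Agent.Perc3
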