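import Pool.Agent.Lib.MP_6bd702_perc3.T3Geo

/-!
# T3, row Cmp: thickness, separation and comparison
-/

set_option autoImplicit false

namespace Pool.Agent.Perc3

open Finset Pool.Agent.Perc Pool.Agent.Perc.Q

variable {L d₀ d w n D : ℤ} {m : ℕ} {t₁ t₂ ε : ℤ}

/-- The lifted starting edges. -/
def ST (w t₁ t₂ ε : ℤ) : Set LE := {bdL w t₁ 0} ∪ {bdL w t₂ ε}

theorem abs_index_le {ζ : LF → Bool} (h : ζ ∈ PairT L d₀ d w n D m t₁ t₂ ε) {s : LF}
    (hs : s ∈ SL ζ (LAT d w n) (ST w t₁ t₂ ε)) : |s.2| ≤ 2 * m + 12 := by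
  obtain ⟨-, -, u, l, μ, -, hl, hμ, hall⟩ := h
  have h1 := (hall s hs).2
  have h2 := abs_ind_le (L := L) (w := L) (u := u) (l := l) s.1
  have hl' : (l.length : ℤ) ≤ m := by exact_mod_cast hl
  rw [h1]
  rw [abs_le] at h2 hμ ⊢
  constructor <;> linarith

/-- The base faces of the lifted annulus of the twisted plane. -/
theorem fst_mem_AnF (hd : d₀ + n ≤ d) (hw : w + n + 2 ≤ L) {s : LF} (hs : s ∈ LAT d w n) :
    s.1 ∈ AnF L L d₀ := by
  obtain ⟨⟨h1, h2⟩, h3⟩ := mem_LAT.1 hs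
  rw [mem_BW] at h1 h2
  unfold pj at h1 h2
  rw [mem_AnF]
  rw [abs_le] at h3
  simp only [one_mul] at h1 h2
  omega

theorem thick_pairT (h1 : 1 < d₀) (hd : d₀ + 2 * n ≤ d) (hw : w + 2 * n + 2 ≤ L)
    (hD1 : D ≤ 2 * d₀) (hD : 4 * (2 * m + 12) ≤ D) {ζ : LF → Bool}
    (h : ζ ∈ PairT L d₀ d w n D m t₁ t₂ ε) : Thick 2 (SL ζ (LAT d w n) (ST w t₁ t₂ ε)) := by
  have hidx := fun s hs => abs_index_le (s := s) h hs
  obtain ⟨-, -, u, l, μ, hc, hl, hμ, hall⟩ := h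
  intro s hs s' hs' hh
  have hsL := mem_coe.1 (SL_sub hs)
  have hsL' := mem_coe.1 (SL_sub hs')
  have hn : 0 ≤ n := (abs_nonneg _).trans (mem_LAT.1 hsL).2
  have hf := fst_mem_AnF (d₀ := d₀) (L := L) (by omega) (by omega) hsL
  have hf' := fst_mem_AnF (d₀ := d₀) (L := L) (by omega) (by omega) hsL'
  have hL : 0 ≤ L := by
    rw [mem_AnF] at hf
    omega
  have e1 := hall s hs
  have e2 := hall s' hs'
  by_cases hd' : |s.1.1 - s'.1.1| < D ∧ |s.1.2 - s'.1.2| < D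
  · have h3 := ind_eq_of_near h1 hL hL hc hD1 hf hf' hh hd'.1 hd'.2 e1.1
    rw [e1.2, e2.2, h3, sub_self, abs_zero, mul_zero]
    exact le_max_of_le_left (abs_nonneg _)
  · have h3 : D ≤ max |s.1.1 - s'.1.1| |s.1.2 - s'.1.2| := by
      rw [le_max_iff]
      by_contra hcon
      rw [not_or, not_le, not_le] at hcon
      exact hd' hcon
    refine le_trans (le_trans ?_ hD) h3
    have h4 := hidx s hs
    have h5 := hidx s' hs'
    have h6 : |s.2 - s'.2| ≤ 2 * (2 * m + 12) := by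
      rw [abs_le] at h4 h5 ⊢
      constructor <;> linarith
    linarith

/-- The vertical move across the cut. -/
theorem ind_lv_vmove {L d : ℤ} {u : ℤ × ℤ} {l : List (ℤ × ℤ)} (hd : 1 < d) (hL : 0 ≤ L)
    (hc : Corr L L d u l) {x y₁ y₂ : ℤ} (hy : y₁ ≤ y₂)
    (hf : ∀ j, y₁ ≤ j → j ≤ y₂ → (x, j) ∈ AnF L L d)
    (ha : ∀ j, y₁ < j → j ≤ y₂ → ¬ OnPath u l (x, j, false)) :
    ind L L u l (x, y₁) - lv x y₁ = ind L L u l (x, y₂) - lv x y₂ := by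
  induction y₂, hy using Int.leInduction with
  | base => rfl
  | succ y hy ih =>
    rw [ih (fun i h1 h2 => hf i h1 (by omega)) (fun i h1 h2 => ha i h1 (by omega))]
    have hfy := hf y hy (by omega)
    have hay := ha (y + 1) (by omega) le_rfl
    by_cases hy1 : y = -1
    · subst hy1
      have h1 := side_inn hd hc hfy (a := to' (x, -1)) (Or.inr (Or.inr (Or.inl rfl)))
      have h3 := side_outp hL hL hc hfy (a := to' (x, -1)) (Or.inr (Or.inr (Or.inl rfl)))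
      have h4 : ind L L u l (x, -1 + 1 - 1) = ind L L u l (x, -1 + 1) +
          if (-1 + 1 : ℤ) = 0 ∧ x ≤ -2 ∧ -L - 1 ≤ x then 1 else 0 := ind_hor hc hL h1 hay h3
      rw [add_sub_cancel_right] at h4
      rw [h4]
      rw [mem_AnF] at hfy
      simp only at hfy
      unfold lv
      split_ifs <;> omega
    · rw [ind_up hd hL hL hc hfy hy1 hay]
      unfold lv
      split_ifs <;> omega

theorem ind_lv_vmove' {L d : ℤ} {u : ℤ × ℤ} {l : List (ℤ × ℤ)} (hd : 1 < d) (hL : 0 ≤ L)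
    (hc : Corr L L d u l) {x y₁ y₂ : ℤ}
    (hf : ∀ j, min y₁ y₂ ≤ j → j ≤ max y₁ y₂ → (x, j) ∈ AnF L L d)
    (ha : ∀ j, min y₁ y₂ ≤ j → j ≤ max y₁ y₂ → ¬ OnPath u l (x, j, false)) :
    ind L L u l (x, y₁) - lv x y₁ = ind L L u l (x, y₂) - lv x y₂ := by
  rcases le_total y₁ y₂ with h | h
  · rw [min_eq_left h, max_eq_right h] at hf ha
    exact ind_lv_vmove hd hL hc h hf fun i h1 h2 => ha i h1.le h2
  · rw [min_eq_right h, max_eq_left h] at hf ha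
    exact (ind_lv_vmove hd hL hc h hf fun i h1 h2 => ha i h1.le h2).symm

/-- The index of faces which are close to each other, also across the cut. -/
theorem ind_lv_of_near {L d D : ℤ} {u : ℤ × ℤ} {l : List (ℤ × ℤ)} (hd : 1 < d) (hL : 0 ≤ L)
    (hc : Corr L L d u l) (hD : D < d) {f f' : ℤ × ℤ} (hf : f ∈ AnF L L d)
    (hf' : f' ∈ AnF L L d) (h1 : |f.1 - f'.1| ≤ D) (h2 : |f.2 - f'.2| ≤ D)
    (hfar : FarP D u l f) :
    ind L L u l f' - lv f.1 f'.2 = ind L L u l f - lv f.1 f.2 := by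
  obtain ⟨x₁, y₁⟩ := f
  obtain ⟨x₂, y₂⟩ := f'
  rw [mem_AnF] at hf hf'
  simp only at hf hf' h1 h2 ⊢
  rw [abs_le] at h1 h2
  have hno : ∀ i j : ℤ, ∀ b : Bool, min x₁ x₂ ≤ i → i ≤ max x₁ x₂ → min y₁ y₂ ≤ j →
      j ≤ max y₁ y₂ → ¬ OnPath u l (i, j, b) := by
    intro i j b h3 h4 h5 h6 hp
    have h7 := hfar _ hp
    simp only at h7
    rw [lt_max_iff, lt_abs, lt_abs] at h7
    omega
  have key : ((x₁ < -d ∨ d ≤ x₁ ∨ (d ≤ y₁ ∧ d ≤ y₂) ∨ (y₁ < -d ∧ y₂ < -d)) ∧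
      (y₂ < -d ∨ d ≤ y₂ ∨ (x₁ < -d ∧ x₂ < -d) ∨ (d ≤ x₁ ∧ d ≤ x₂))) ∨
    ((x₂ < -d ∨ d ≤ x₂ ∨ (d ≤ y₁ ∧ d ≤ y₂) ∨ (y₁ < -d ∧ y₂ < -d)) ∧
      (y₁ < -d ∨ d ≤ y₁ ∨ (x₁ < -d ∧ x₂ < -d) ∨ (d ≤ x₁ ∧ d ≤ x₂))) := by omega
  rcases key with ⟨k1, k2⟩ | ⟨k1, k2⟩
  · have e1 : ind L L u l (x₁, y₁) - lv x₁ y₁ = ind L L u l (x₁, y₂) - lv x₁ y₂ := by
      refine ind_lv_vmove' hd hL hc ?_ ?_
      · intro i h3 h4
        rw [mem_AnF]
        simp only
        omega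
      · intro i h3 h4
        exact hno _ _ _ (by omega) (by omega) h3 h4
    have e2 : ind L L u l (x₁, y₂) = ind L L u l (x₂, y₂) := by
      refine ind_hmove' hd hL hL hc ?_ ?_
      · intro i h3 h4
        rw [mem_AnF]
        simp only
        omega
      · intro i h3 h4
        exact hno _ _ _ h3 h4 (by omega) (by omega)
    rw [e1, e2]
  · have e1 : ind L L u l (x₁, y₁) = ind L L u l (x₂, y₁) := by
      refine ind_hmove' hd hL hL hc ?_ ?_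
      · intro i h3 h4
        rw [mem_AnF]
        simp only
        omega
      · intro i h3 h4
        exact hno _ _ _ h3 h4 (by omega) (by omega)
    have e2 : ind L L u l (x₂, y₁) - lv x₂ y₁ = ind L L u l (x₂, y₂) - lv x₂ y₂ := by
      refine ind_lv_vmove' hd hL hc ?_ ?_
      · intro i h3 h4
        rw [mem_AnF]
        simp only
        omega
      · intro i h3 h4
        exact hno _ _ _ (by omega) (by omega) h3 h4
    have e3 : lv x₂ y₁ - lv x₂ y₂ = lv x₁ y₁ - lv x₁ y₂ := by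
      unfold lv
      split_ifs <;> omega
    rw [e1]
    omega

/-- The separation in the sense of `Duality.lean` (also across the axis). -/
theorem sep_pairT (h1 : 1 < d₀) (hd : d₀ + 2 * n ≤ d) (hw : w + 2 * n + 2 ≤ L)
    (hD1 : D + 1 < d₀) {ζ : LF → Bool}
    (h : ζ ∈ PairT L d₀ d w n D m t₁ t₂ ε) : Sep (D - 1) (SL ζ (LAT d w n) (ST w t₁ t₂ ε)) := by
  obtain ⟨-, -, u, l, μ, hc, hl, hμ, hall⟩ := h
  intro s hs s' hs' h2 h3
  have hsL := mem_coe.1 (SL_sub hs)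
  have hsL' := mem_coe.1 (SL_sub hs')
  have hn : 0 ≤ n := (abs_nonneg _).trans (mem_LAT.1 hsL).2
  have hf := fst_mem_AnF (d₀ := d₀) (L := L) (by omega) (by omega) hsL
  have hf' := fst_mem_AnF (d₀ := d₀) (L := L) (by omega) (by omega) hsL'
  have hL : 0 ≤ L := by
    rw [mem_AnF] at hf
    omega
  have e1 := hall s hs
  have e2 := hall s' hs'
  have key := ind_lv_of_near h1 hL hc (D := D) (by omega) hf hf' (by omega) (by omega) e1.1
  rw [e1.2, e2.2]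
  linarith

theorem detBy_pairT : DetBy (fun ζ => SL ζ (LAT d w n) (ST w t₁ t₂ ε))
    (PairT L d₀ d w n D m t₁ t₂ ε) := by
  intro ζ ζ' h
  have h0 : SL ζ' (LAT d w n) (ST w t₁ t₂ ε) =
      SL ζ (LAT d w n) (ST w t₁ t₂ ε) := stopping_SL _ _ ζ ζ' h
  have h1 : ML ζ' (LAT d w n) {bdL w t₁ 0} = ML ζ (LAT d w n) {bdL w t₁ 0} :=
    ML_eq fun s hs => h s (by unfold ST; simp only [SL_union]; exact Or.inl hs)
  have h2 : ML ζ' (LAT d w n) {bdL w t₂ ε} = ML ζ (LAT d w n) {bdL w t₂ ε} :=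
    ML_eq fun s hs => h s (by unfold ST; simp only [SL_union]; exact Or.inr hs)
  unfold ST at h0
  unfold PairT RinT
  simp only [Set.mem_ofPred_eq]
  rw [h0, h1, h2]

/-- Comparison, with an additional event which is determined by the lifted components. -/
theorem pr_pairT_eq (h1 : 1 < d₀) (hd : d₀ + 2 * n ≤ d) (hw : w + 2 * n + 2 ≤ L)
    (hD1 : D ≤ 2 * d₀) (hD : 4 * (2 * m + 12) ≤ D) {A : Set (LF → Bool)}
    (hA : DetBy (fun ζ => SL ζ (LAT d w n) (ST w t₁ t₂ ε)) A) {W₀ W₁ : Finset (ℤ × ℤ)}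
    (h0 : ∀ s ∈ LAT d w n, pj 0 s ∈ W₀) (h2 : BW w ⊆ W₁) :
    pr W₀ {ω | lcf 0 ω ∈ PairT L d₀ d w n D m t₁ t₂ ε ∩ A} =
      pr W₁ {ω | lcf 1 ω ∈ PairT L d₀ d w n D m t₁ t₂ ε ∩ A} := by
  have hdet : DetBy (fun ζ => SL ζ (LAT d w n) (ST w t₁ t₂ ε))
      (PairT L d₀ d w n D m t₁ t₂ ε ∩ A) := by
    intro ζ ζ' h
    rw [Set.mem_inter_iff, Set.mem_inter_iff, detBy_pairT ζ ζ' h, hA ζ ζ' h]
  have h := compare (Ft := LAT d w n) (E := ST w t₁ t₂ ε) (c := 0) (c' := 1)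
    (A := PairT L d₀ d w n D m t₁ t₂ ε ∩ A) (k := 2) hdet
    (by rw [abs_zero]; omega) (by rw [abs_one]; omega)
    (fun ζ hζ => thick_pairT h1 hd hw hD1 hD hζ.1)
    (W := W₀) (W' := W₁) h0 (fun s hs => h2 (mem_LAT.1 hs).1.1)
  unfold lcf
  exact h

end Pool.Agent.Perc3
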