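import Pool.Agent.Lib.MP_6bd702_perc3.T3Defs

/-!
# T3: a set of faces with the monodromy of the cut modulo 2 leaves room for a corridor

`T` is a finite set of faces which contains the four faces at the vertex `(-1, 0)`. If a function
with values in `ZMod 2` on the faces next to `T` had the monodromy of the cut, the sum over all
vertices of the increments along the boundary of `T` would be both `0` and `1`.
-/

set_option autoImplicit false

namespace Pool.Agent.Perc3.Dual2

open Finset Pool.Agent.Perc Pool.Agent.Perc.Q Pool.Agent.Perc3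

theorem vs_aux (A B C D : Bool) : ∀ (p q r s u c : ZMod 2)
    (_ : A = false → B = false → C = true → D = true → p - c = q - c)
    (_ : A = false → C = false → B = true → D = true → p - c = r - (c + u))
    (_ : A = false → D = false → (B = true ∨ C = true) → p - c = s - (c + u))
    (_ : B = false → C = false → (A = true ∨ D = true) → q - c = r - (c + u))
    (_ : B = false → D = false → A = true → C = true → q - c = s - (c + u))
    (_ : C = false → D = false → A = true → B = true → r - (c + u) = s - (c + u)),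
    ((if B = true ∧ ¬ D = true then s else 0) - (if D = true ∧ ¬ B = true then q else 0)) -
      ((if A = true ∧ ¬ C = true then r else 0) - (if C = true ∧ ¬ A = true then p else 0)) +
      ((if D = true ∧ ¬ C = true then r else 0) - (if C = true ∧ ¬ D = true then s else 0)) -
      ((if B = true ∧ ¬ A = true then p else 0) - (if A = true ∧ ¬ B = true then q else 0)) =
      u * ((if B = true ∨ D = true then 1 else 0) - (if A = true ∨ C = true then 1 else 0)) := by
  intro p q r s u c r1 r2 r3 r4 r5 r6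
  cases A <;> cases B <;> cases C <;> cases D <;>
    simp only [Bool.false_eq_true, not_false_eq_true, not_true, and_true, and_false, or_true,
      or_false, if_true, if_false, forall_const, IsEmpty.forall_iff, Bool.true_eq_false,
      and_self, or_self] at r1 r2 r3 r4 r5 r6 ⊢ <;>
    first
    | (ring; done)
    | (revert p q r s u c; decide)

section stokes

variable (T : ℤ × ℤ → Prop) [DecidablePred T] (h : ℤ × ℤ → ZMod 2)

/-- Contribution of a horizontal unit edge. -/
def FH (i j : ℤ) : ZMod 2 :=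
  (if T (i, j) ∧ ¬ T (i, j - 1) then h (i, j - 1) else 0) -
    (if T (i, j - 1) ∧ ¬ T (i, j) then h (i, j) else 0)

/-- Contribution of a vertical unit edge. -/
def FV (i j : ℤ) : ZMod 2 :=
  (if T (i - 1, j) ∧ ¬ T (i, j) then h (i, j) else 0) -
    (if T (i, j) ∧ ¬ T (i - 1, j) then h (i - 1, j) else 0)

/-- The unit edge `(x, 0, false)` is a side of a face of `T`. -/
def tT (x : ℤ) : ZMod 2 := if T (x, 0) ∨ T (x, -1) then 1 else 0

/-- The correction at the cut. -/
def cadj (x y b : ℤ) : ZMod 2 := if y = 0 ∧ x ≤ -1 ∧ b < 0 then 1 else 0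

/-- The faces `f` and `f'` at the vertex `(x, y)` have compatible values. -/
def RelV (x y : ℤ) (f f' : ℤ × ℤ) : Prop := h f - cadj x y f.2 = h f' - cadj x y f'.2

variable {T h}

theorem vertex_sum {x y : ℤ}
    (r1 : ¬ T (x, y) → ¬ T (x - 1, y) → T (x, y - 1) → T (x - 1, y - 1) →
      RelV h x y (x, y) (x - 1, y))
    (r2 : ¬ T (x, y) → ¬ T (x, y - 1) → T (x - 1, y) → T (x - 1, y - 1) →
      RelV h x y (x, y) (x, y - 1))
    (r3 : ¬ T (x, y) → ¬ T (x - 1, y - 1) → (T (x - 1, y) ∨ T (x, y - 1)) →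
      RelV h x y (x, y) (x - 1, y - 1))
    (r4 : ¬ T (x - 1, y) → ¬ T (x, y - 1) → (T (x, y) ∨ T (x - 1, y - 1)) →
      RelV h x y (x - 1, y) (x, y - 1))
    (r5 : ¬ T (x - 1, y) → ¬ T (x - 1, y - 1) → T (x, y) → T (x, y - 1) →
      RelV h x y (x - 1, y) (x - 1, y - 1))
    (r6 : ¬ T (x, y - 1) → ¬ T (x - 1, y - 1) → T (x, y) → T (x - 1, y) →
      RelV h x y (x, y - 1) (x - 1, y - 1)) :
    FH T h (x - 1) y - FH T h x y + FV T h x (y - 1) - FV T h x y =
      if y = 0 ∧ x ≤ -1 then tT T (x - 1) - tT T x else 0 := by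
  obtain ⟨u, hu⟩ : ∃ u : ZMod 2, u = if y = 0 ∧ x ≤ -1 then 1 else 0 := ⟨_, rfl⟩
  obtain ⟨c1, hc1⟩ : ∃ c : ZMod 2, c = cadj x y y := ⟨_, rfl⟩
  obtain ⟨c2, hc2⟩ : ∃ c : ZMod 2, c = cadj x y (y - 1) := ⟨_, rfl⟩
  have hc3 : c2 = c1 + u := by
    rw [hc1, hc2, hu]
    unfold cadj
    split_ifs <;> first | (exfalso; omega) | decide
  have e2 : (if y = 0 ∧ x ≤ -1 then tT T (x - 1) - tT T x else 0) =
      u * ((if T (x - 1, y) ∨ T (x - 1, y - 1) then 1 else 0) -
        (if T (x, y) ∨ T (x, y - 1) then 1 else 0)) := by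
    by_cases hy : y = 0 ∧ x ≤ -1
    · obtain ⟨rfl, hx⟩ := hy
      rw [hu, if_pos ⟨rfl, hx⟩, if_pos ⟨rfl, hx⟩, one_mul]
      unfold tT
      rw [zero_sub]
    · rw [hu, if_neg hy, if_neg hy, zero_mul]
  rw [e2]
  unfold RelV at *
  simp only [← hc1, ← hc2] at r1 r2 r3 r4 r5 r6
  clear e2 hu hc1 hc2
  unfold FH FV
  have key := vs_aux (decide (T (x, y))) (decide (T (x - 1, y))) (decide (T (x, y - 1)))
    (decide (T (x - 1, y - 1))) (h (x, y)) (h (x - 1, y)) (h (x, y - 1)) (h (x - 1, y - 1)) u c1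
  subst hc3
  simp only [decide_eq_true_eq, decide_eq_false_iff_not] at key
  exact key r1 (fun a b c d => r2 a b c d) r3 r4 r5 r6

theorem sum_Ico_tel {a b : ℤ} (hab : a ≤ b) (g : ℤ → ZMod 2) :
    ∑ i ∈ Ico a b, (g (i - 1) - g i) = g (a - 1) - g (b - 1) := by
  induction b, hab using Int.leInduction with
  | base => simp
  | succ b hb ih =>
    rw [show Ico a (b + 1) = insert b (Ico a b) by ext i; simp only [mem_Ico, mem_insert]; omega,
      sum_insert (by simp), ih, add_sub_cancel_right]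
    ring

/-- Stokes: the sum over all vertices vanishes. -/
theorem total_sum {M : ℤ} (hM : 0 ≤ M) (hT : ∀ f, T f → -M < f.1 ∧ f.1 < M ∧ -M < f.2 ∧ f.2 < M) :
    ∑ y ∈ Ico (-M) (M + 1), ∑ x ∈ Ico (-M) (M + 1),
      (FH T h (x - 1) y - FH T h x y + FV T h x (y - 1) - FV T h x y) = 0 := by
  have h1 : ∀ y ∈ Ico (-M) (M + 1), ∑ x ∈ Ico (-M) (M + 1),
      (FH T h (x - 1) y - FH T h x y + FV T h x (y - 1) - FV T h x y) =
      ∑ x ∈ Ico (-M) (M + 1), (FV T h x (y - 1) - FV T h x y) := by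
    intro y _
    have e : ∑ x ∈ Ico (-M) (M + 1), (FH T h (x - 1) y - FH T h x y) = 0 := by
      rw [sum_Ico_tel (by omega) fun x => FH T h x y]
      have z1 : FH T h (-M - 1) y = 0 := by
        unfold FH
        rw [if_neg (fun hc => by have := hT _ hc.1; simp only at this; omega),
          if_neg (fun hc => by have := hT _ hc.1; simp only at this; omega)]
        rfl
      have z2 : FH T h (M + 1 - 1) y = 0 := by
        unfold FH
        rw [if_neg (fun hc => by have := hT _ hc.1; simp only at this; omega),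
          if_neg (fun hc => by have := hT _ hc.1; simp only at this; omega)]
        rfl
      rw [z1, z2]
      rfl
    calc ∑ x ∈ Ico (-M) (M + 1),
          (FH T h (x - 1) y - FH T h x y + FV T h x (y - 1) - FV T h x y)
        = ∑ x ∈ Ico (-M) (M + 1), ((FH T h (x - 1) y - FH T h x y) +
            (FV T h x (y - 1) - FV T h x y)) := by
          refine sum_congr rfl fun x _ => ?_
          ring
      _ = _ := by rw [sum_add_distrib, e, zero_add]
  rw [sum_congr rfl h1, sum_comm]
  refine sum_eq_zero fun x _ => ?_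
  rw [sum_Ico_tel (by omega) fun y => FV T h x y]
  have z1 : FV T h x (-M - 1) = 0 := by
    unfold FV
    rw [if_neg (fun hc => by have := hT _ hc.1; simp only at this; omega),
      if_neg (fun hc => by have := hT _ hc.1; simp only at this; omega)]
    rfl
  have z2 : FV T h x (M + 1 - 1) = 0 := by
    unfold FV
    rw [if_neg (fun hc => by have := hT _ hc.1; simp only at this; omega),
      if_neg (fun hc => by have := hT _ hc.1; simp only at this; omega)]
    rfl
  rw [z1, z2]
  rfl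

/-- The value of the sum given by the monodromy. -/
theorem cut_sum {M : ℤ} (hM : 1 < M) (hT : ∀ f, T f → -M < f.1 ∧ f.1 < M ∧ -M < f.2 ∧ f.2 < M)
    (h0 : T (-1, 0)) :
    ∑ y ∈ Ico (-M) (M + 1), ∑ x ∈ Ico (-M) (M + 1),
      (if y = 0 ∧ x ≤ -1 then tT T (x - 1) - tT T x else 0) = -1 := by
  rw [sum_eq_single_of_mem (0 : ℤ) (by rw [mem_Ico]; omega)]
  · have e : ∑ x ∈ Ico (-M) (M + 1), (if (0 : ℤ) = 0 ∧ x ≤ -1 then tT T (x - 1) - tT T x else 0) =
        ∑ x ∈ Ico (-M) 0, (tT T (x - 1) - tT T x) := by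
      rw [← sum_filter]
      refine sum_congr ?_ fun _ _ => rfl
      ext x
      rw [mem_filter, mem_Ico, mem_Ico]
      constructor
      · rintro ⟨h1, h2⟩
        omega
      · intro h1
        exact ⟨by omega, rfl, by omega⟩
    rw [e, sum_Ico_tel (by omega) fun x => tT T x]
    have z1 : tT T (-M - 1) = 0 := by
      unfold tT
      rw [if_neg]
      rintro (hc | hc)
      · have := hT _ hc
        simp only at this
        omega
      · have := hT _ hc
        simp only at this
        omega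
    have z2 : tT T (0 - 1) = 1 := by
      unfold tT
      rw [zero_sub, if_pos (Or.inl h0)]
    rw [z1, z2]
    rfl
  · intro y _ hy
    refine sum_eq_zero fun x _ => ?_
    rw [if_neg (fun hc => hy hc.1)]

/-- There is no function with the monodromy of the cut on the faces next to a finite set of faces
which contains the four faces at `(-1, 0)`. -/
theorem no_function {M : ℤ} (hM : 1 < M)
    (hT : ∀ f, T f → -M < f.1 ∧ f.1 < M ∧ -M < f.2 ∧ f.2 < M)
    (h1 : T (-1, 0)) (h2 : T (-2, 0)) (h3 : T (-1, -1)) (_ : T (-2, -1))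
    (hrel : ∀ x y : ℤ, (x, y) ≠ (-1, 0) → ∀ f f' g g' : ℤ × ℤ, FaceAt x y f → FaceAt x y f' →
      ¬ T f → ¬ T f' → T g → T g' → Adj4 f g → Adj4 f' g' → RelV h x y f f') : False := by
  have key := total_sum (T := T) (h := h) (by omega) hT
  have e : ∀ x y : ℤ, FH T h (x - 1) y - FH T h x y + FV T h x (y - 1) - FV T h x y =
      if y = 0 ∧ x ≤ -1 then tT T (x - 1) - tT T x else 0 := by
    intro x y
    by_cases hv : (x, y) = (-1, 0)
    · simp only [Prod.mk.injEq] at hv
      obtain ⟨rfl, rfl⟩ := hv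
      apply vertex_sum
      · intro ha; exact absurd h1 ha
      · intro ha; exact absurd h1 ha
      · intro ha; exact absurd h1 ha
      · intro ha; exact absurd h2 ha
      · intro ha; exact absurd h2 ha
      · intro ha; exact absurd h3 ha
    · have r := hrel x y hv
      apply vertex_sum
      · intro ha hb hc hd
        exact r _ _ _ _ (by unfold FaceAt; simp) (by unfold FaceAt; simp) ha hb hc hd
          (by unfold Adj4; simp) (by unfold Adj4; simp)
      · intro ha hb hc hd
        exact r _ _ _ _ (by unfold FaceAt; simp) (by unfold FaceAt; simp) ha hb hc hd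
          (by unfold Adj4; simp) (by unfold Adj4; simp)
      · rintro ha hb (hc | hc)
        · exact r _ _ _ _ (by unfold FaceAt; simp) (by unfold FaceAt; simp) ha hb hc hc
            (by unfold Adj4; simp) (by unfold Adj4; simp)
        · exact r _ _ _ _ (by unfold FaceAt; simp) (by unfold FaceAt; simp) ha hb hc hc
            (by unfold Adj4; simp) (by unfold Adj4; simp)
      · rintro ha hb (hc | hc)
        · exact r _ _ _ _ (by unfold FaceAt; simp) (by unfold FaceAt; simp) ha hb hc hc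
            (by unfold Adj4; simp) (by unfold Adj4; simp)
        · exact r _ _ _ _ (by unfold FaceAt; simp) (by unfold FaceAt; simp) ha hb hc hc
            (by unfold Adj4; simp) (by unfold Adj4; simp)
      · intro ha hb hc hd
        exact r _ _ _ _ (by unfold FaceAt; simp) (by unfold FaceAt; simp) ha hb hc hd
          (by unfold Adj4; simp) (by unfold Adj4; simp)
      · intro ha hb hc hd
        exact r _ _ _ _ (by unfold FaceAt; simp) (by unfold FaceAt; simp) ha hb hc hd
          (by unfold Adj4; simp) (by unfold Adj4; simp)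
  have h5 := cut_sum (T := T) hM hT h1
  have h6 : ∑ y ∈ Ico (-M) (M + 1), ∑ x ∈ Ico (-M) (M + 1),
      (FH T h (x - 1) y - FH T h x y + FV T h x (y - 1) - FV T h x y) =
      ∑ y ∈ Ico (-M) (M + 1), ∑ x ∈ Ico (-M) (M + 1),
      (if y = 0 ∧ x ≤ -1 then tT T (x - 1) - tT T x else 0) :=
    sum_congr rfl fun y _ => sum_congr rfl fun x _ => e x y
  rw [key, h5] at h6
  exact absurd h6 (by norm_num)

end stokes

/-! ### The corridor -/

theorem add_self (x : ZMod 2) : x + x = 0 := by revert x; decide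

theorem rel_aux {ρ d x y a b a' b' p q p' q' : ℤ} {i i' : ZMod 2} (hρ : 0 ≤ ρ)
    (hd : 2 * ρ + 3 < d)
    (hf : (a = x ∨ a = x - 1) ∧ (b = y ∨ b = y - 1))
    (hf' : (a' = x ∨ a' = x - 1) ∧ (b' = y ∨ b' = y - 1))
    (o : ¬ (-d ≤ p ∧ p < d ∧ -d ≤ q ∧ q < d))
    (h1 : -ρ ≤ a - p ∧ a - p ≤ ρ) (h2 : -ρ ≤ b - q ∧ b - q ≤ ρ)
    (h3 : -ρ ≤ a' - p' ∧ a' - p' ≤ ρ) (h4 : -ρ ≤ b' - q' ∧ b' - q' ≤ ρ)
    (o' : ¬ (-d ≤ p' ∧ p' < d ∧ -d ≤ q' ∧ q' < d))
    (hs : i' + lv2 p q' = i + lv2 p q) :
    i + lv2 p q + lv2 p b - cadj x y b = i' + lv2 p' q' + lv2 p' b' - cadj x y b' := by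
  have key : lv2 p' b' = lv2 p b' ∧ lv2 p' q' = lv2 p q' ∨
      (lv2 p' b' = lv2 p' q' ∧ lv2 p b' = lv2 p q' ∧ lv2 p b = lv2 p q ∧ b < 0 ∧ b' < 0) ∨
      (lv2 p' b' = 0 ∧ lv2 p' q' = 0 ∧ lv2 p b' = 0 ∧ lv2 p q' = 0 ∧ 0 ≤ b ∧ 0 ≤ b') := by
    by_cases hq : 0 ≤ b ∧ 0 ≤ b' ∧ 0 ≤ q ∧ 0 ≤ q'
    · right; right
      unfold lv2
      refine ⟨if_neg (by omega), if_neg (by omega), if_neg (by omega), if_neg (by omega), hq.1,
        hq.2.1⟩
    · by_cases hq2 : b < 0 ∧ b' < 0 ∧ q < 0 ∧ q' < 0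
      · right; left
        unfold lv2
        refine ⟨?_, ?_, ?_, hq2.1, hq2.2.1⟩ <;> split_ifs <;> first | rfl | (exfalso; omega)
      · left
        have hpp : p < 0 ↔ p' < 0 := by omega
        unfold lv2
        simp only [hpp]
        exact ⟨trivial, trivial⟩
  have hc : (lv2 p b - cadj x y b) = (lv2 p b' - cadj x y b') ∨ (b < 0 ∧ b' < 0) ∨
      (0 ≤ b ∧ 0 ≤ b') := by
    by_cases hb : (b < 0 ∧ b' < 0) ∨ (0 ≤ b ∧ 0 ≤ b')
    · exact Or.inr hb
    · left
      have hy : y = 0 := by omega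
      unfold lv2 cadj
      by_cases hp : p < 0
      · have hx : x ≤ -1 := by omega
        split_ifs <;> first | rfl | (exfalso; omega) | decide
      · have hx : ¬ x ≤ -1 := by omega
        split_ifs <;> first | rfl | (exfalso; omega) | decide
  have hc2 : b < 0 ∧ b' < 0 → cadj x y b = cadj x y b' := by
    intro h
    unfold cadj
    split_ifs <;> first | rfl | (exfalso; omega)
  have hc3 : 0 ≤ b ∧ 0 ≤ b' → cadj x y b = cadj x y b' := by
    intro h
    unfold cadj
    split_ifs <;> first | rfl | (exfalso; omega)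
  have hl2 : b < 0 ∧ b' < 0 → lv2 p b = lv2 p b' := by
    intro h
    unfold lv2
    split_ifs <;> first | rfl | (exfalso; omega)
  have hl4 : ∀ c, 0 ≤ c → lv2 p c = 0 := by
    intro c h
    unfold lv2
    exact if_neg (by omega)
  have hcc : lv2 p b - cadj x y b = lv2 p b' - cadj x y b' := by
    rcases hc with h | h | h
    · exact h
    · rw [hl2 h, hc2 h]
    · rw [hl4 b h.1, hl4 b' h.2, hc3 h]
  rcases key with ⟨e1, e2⟩ | ⟨e1, e2, e3, hb, hb'⟩ | ⟨e1, e2, e3, e4, hb, hb'⟩
  · linear_combination hcc - hs - e1 - e2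
  · have t1 := add_self (lv2 p b')
    have t2 := add_self (lv2 p' q')
    linear_combination hcc - hs - e2 - e1 - t2 + t1
  · have t1 := hl4 b hb
    have t2 := hc3 ⟨hb, hb'⟩
    linear_combination - hs - e1 - e2 + e4 + t1 - t2

/-- A set of faces with the monodromy of the cut leaves room for a corridor. -/
theorem _root_.Pool.Agent.Perc3.exists_corridor2 {S : Set (ℤ × ℤ)} {h : ℤ × ℤ → ZMod 2}
    {L d ρ : ℤ} (hρ : 0 ≤ ρ) (hd : 2 * ρ + 3 < d)
    (hS : ∀ s ∈ S, ¬ (-d ≤ s.1 ∧ s.1 < d ∧ -d ≤ s.2 ∧ s.2 < d)) (hsep : SepH (2 * ρ + 1) S h) :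
    ∃ f, ¬ (-L ≤ f.1 ∧ f.1 < L ∧ -L ≤ f.2 ∧ f.2 < L) ∧ ChainS ρ S (-1, 0) f := by
  classical
  by_contra hcon
  have hin : ∀ f, ChainS ρ S (-1, 0) f → -L ≤ f.1 ∧ f.1 < L ∧ -L ≤ f.2 ∧ f.2 < L := by
    intro f hf
    by_contra hc
    exact hcon ⟨f, hc, hf⟩
  -- faces near the centre are free
  have hfree : ∀ f : ℤ × ℤ, -2 ≤ f.1 → f.1 ≤ 0 → -2 ≤ f.2 → f.2 ≤ 0 → FreeS ρ S f := by
    intro f h1 h2 h3 h4 s hs
    have h5 := hS s hs
    rw [lt_max_iff, lt_abs, lt_abs]
    omega
  let T : ℤ × ℤ → Prop := fun f => ChainS ρ S (-1, 0) f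
  have t1 : T (-1, 0) := Relation.ReflTransGen.refl
  have t2 : T (-2, 0) := Relation.ReflTransGen.single
    ⟨by unfold Adj4; simp, hfree _ (by norm_num) (by norm_num) (by norm_num) (by norm_num),
      hfree _ (by norm_num) (by norm_num) (by norm_num) (by norm_num)⟩
  have t3 : T (-1, -1) := Relation.ReflTransGen.single
    ⟨by unfold Adj4; simp, hfree _ (by norm_num) (by norm_num) (by norm_num) (by norm_num),
      hfree _ (by norm_num) (by norm_num) (by norm_num) (by norm_num)⟩
  have t4 : T (-2, -1) := Relation.ReflTransGen.tail t2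
    ⟨by unfold Adj4; simp, hfree _ (by norm_num) (by norm_num) (by norm_num) (by norm_num),
      hfree _ (by norm_num) (by norm_num) (by norm_num) (by norm_num)⟩
  have hTfree : ∀ f, T f → FreeS ρ S f := by
    intro f hf
    induction hf with
    | refl => exact hfree _ (by norm_num) (by norm_num) (by norm_num) (by norm_num)
    | tail _ hs _ => exact hs.2.2
  -- the neighbours of `T` are close to `S`
  have hnear : ∀ f g, ¬ T f → T g → Adj4 f g → ∃ s ∈ S, |f.1 - s.1| ≤ ρ ∧ |f.2 - s.2| ≤ ρ := by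
    intro f g hf hg ha
    by_contra hc
    apply hf
    refine Relation.ReflTransGen.tail hg ⟨ha.symm, hTfree g hg, ?_⟩
    intro s hs
    rw [lt_max_iff]
    by_contra h
    rw [not_or, not_lt, not_lt] at h
    exact hc ⟨s, hs, h⟩
  let Q : ℤ × ℤ → ℤ × ℤ → Prop := fun f s => s ∈ S ∧ |f.1 - s.1| ≤ ρ ∧ |f.2 - s.2| ≤ ρ
  let h' : ℤ × ℤ → ZMod 2 := fun f => if hf : ∃ s, Q f s then
    h (Classical.choose hf) + lv2 (Classical.choose hf).1 (Classical.choose hf).2 +
      lv2 (Classical.choose hf).1 f.2 else 0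
  have hspec : ∀ f g, ¬ T f → T g → Adj4 f g → ∃ s, Q f s ∧
      h' f = h s + lv2 s.1 s.2 + lv2 s.1 f.2 := by
    intro f g hf hg ha
    obtain ⟨s, hs, h1, h2⟩ := hnear f g hf hg ha
    have hf' : ∃ s, Q f s := ⟨s, hs, h1, h2⟩
    refine ⟨Classical.choose hf', Classical.choose_spec hf', ?_⟩
    simp only [h']
    rw [dif_pos hf']
  refine no_function (T := T) (h := h') (M := |L| + 2) ?_ ?_ t1 t2 t3 t4 ?_
  · have h1 := abs_nonneg L
    omega
  · intro f hf
    have h1 := hin f hf
    have h2 := le_abs_self L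
    have h4 := abs_nonneg L
    omega
  · intro x y hv f f' g g' hf hf' hTf hTf' hg hg' ha ha'
    obtain ⟨s, ⟨hs, hs1, hs2⟩, e⟩ := hspec f g hTf hg ha
    obtain ⟨s', ⟨hs', hs1', hs2'⟩, e'⟩ := hspec f' g' hTf' hg' ha'
    unfold FaceAt at hf hf'
    have o := hS s hs
    rw [abs_le] at hs1 hs2 hs1' hs2'
    have hsep := hsep s hs s' hs' (by rw [abs_le]; omega) (by rw [abs_le]; omega)
    unfold RelV
    rw [e, e']
    exact rel_aux hρ hd hf hf' o hs1 hs2 hs1' hs2' (hS s' hs') hsep

end Pool.Agent.Perc3.Dual2
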