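import Pool.Agent.Lib.MP_6bd702_perc3.T3Defs

/-!
# T3, row Fresh: a near touch leaves only a neck for the left marks of the leg `i + 1`
-/

set_option autoImplicit false

namespace Pool.Agent.Perc.Q

open Finset Pool.Agent.Perc Relation

namespace FA

section general

variable {V Φ : Type} {Q : QC V Φ} {ω : Φ → Bool} {F Z : Set Φ} {e : V × V} {f x : Φ} {k : ZMod 4}

theorem Ini.mono {G : Set Φ} (h : Ini Q F e) (hG : G ⊆ F) : Ini Q G e :=
  fun f hf k => h f (hG hf) k

/-- A strand which visits `Z` enters `Z` for the first time. -/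
theorem first_entry (h : (Vis Q ω F e ∩ Z).Nonempty) :
    ∃ x ∈ Z, x ∈ F ∧ ∃ k, (Q.c x k, Q.c x (k + 1)) ∈ Orb Q ω (F \ Z) e := by
  by_contra hcon
  have key : Orb Q ω F e ⊆ Orb Q ω (F \ Z) e := by
    intro a ha
    induction ha with
    | refl => exact mem_Orb_self
    | tail _ hs ih =>
      obtain ⟨f, hf, k, rfl, hs⟩ := hs
      refine Orb_step ih ⟨f, ⟨hf, fun hZ => hcon ⟨f, hZ, hf, k, ih⟩⟩, k, rfl, hs⟩
  obtain ⟨f, ⟨hf, k, hk⟩, hZ⟩ := h
  exact hcon ⟨f, hZ, hf, k, key hk⟩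

/-- The strand is not crossed backwards into a face which does not belong to the set. -/
theorem not_back {G : Set Φ} (he : Ini Q F e) (hf : f ∈ F) (hfG : f ∉ G) :
    (Q.c f (k + 1), Q.c f k) ∉ Orb Q ω G e := by
  intro h
  rcases Orb_pred h with h1 | ⟨b, -, f', hf', k', -, ⟨-, h1⟩ | ⟨-, h1⟩⟩
  · exact he f hf k h1.symm
  · have h4 := Prod.mk.inj h1
    have := (Q.inj (f := f) (k := k) (f' := f') (k' := k' + 1) h4.2
      (by rw [z1]; exact h4.1)).1
    exact hfG (this ▸ hf')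
  · have h4 := Prod.mk.inj h1
    have := (Q.inj (f := f) (k := k) (f' := f') (k' := k' + 3) h4.2
      (by rw [z5]; exact h4.1)).1
    exact hfG (this ▸ hf')

/-- An edge which enters a face outside the set is the last one. -/
theorem ter_of_mem {G : Set Φ} (hfG : f ∉ G) : Ter Q G (Q.c f k, Q.c f (k + 1)) := by
  intro g hg l h
  have := (Q.inj (Prod.mk.inj h).1 (Prod.mk.inj h).2).1
  exact hfG (this ▸ hg)

theorem entry_unique {G : Set Φ} (hx : x ∉ G) (h : (Q.c x k, Q.c x (k + 1)) ∈ Orb Q ω G e)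
    {k' : ZMod 4} (hf : f ∉ G) (h' : (Q.c f k', Q.c f (k' + 1)) ∈ Orb Q ω G e) :
    f = x ∧ k' = k := by
  have h1 := ter_unique h' h (ter_of_mem hf) (ter_of_mem hx)
  exact Q.inj (Prod.mk.inj h1).1 (Prod.mk.inj h1).2

open Classical in
theorem sum_one (k : ZMod 4) : ∑ j : ZMod 4, (if j = k then (1 : ZMod 2) else 0) = 1 := by
  rw [sum_ite_eq' univ k (fun _ => (1 : ZMod 2)), if_pos (mem_univ _)]

/-- The stopped strand does not cross the other faces outside the set. -/
theorem ind_zero {G : Set Φ} (he : Ini Q F e) (hx : x ∉ G)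
    (h : (Q.c x k, Q.c x (k + 1)) ∈ Orb Q ω G e) (hf : f ∈ F) (hfG : f ∉ G) (hfx : f ≠ x)
    (j : ZMod 4) : indU Q ω G e (Q.c f j) (Q.c f (j + 1)) = 0 := by
  unfold indU
  rw [if_neg]
  rintro (h1 | h1)
  · exact hfx (entry_unique hx h hfG h1).1
  · exact not_back he hf hfG h1

open Classical in
/-- The divergence of a stopped strand. -/
theorem div_stopped {G : Set Φ} (hG : G ⊆ F) (he : Ini Q F e) (hx : x ∉ G)
    (h : (Q.c x k, Q.c x (k + 1)) ∈ Orb Q ω G e) (hf : f ∈ F) :
    ∑ j, indU Q ω G e (Q.c f j) (Q.c f (j + 1)) = if f = x then 1 else 0 := by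
  by_cases hfG : f ∉ G
  · by_cases hfx : f = x
    · subst hfx
      rw [if_pos rfl, ← sum_one k]
      refine sum_congr rfl fun j _ => ?_
      unfold indU
      by_cases hj : j = k
      · subst hj
        rw [if_pos (show (Q.c f j, Q.c f (j + 1)) ∈ Un Q ω G e from Or.inl h), if_pos rfl]
      · rw [if_neg hj, if_neg]
        rintro (h1 | h1)
        · exact hj (entry_unique hx h hfG h1).2
        · exact not_back he hf hfG h1
    · rw [if_neg hfx]
      exact sum_eq_zero fun j _ => ind_zero he hx h hf hfG hfx j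
  · rw [not_not] at hfG
    have hne : f ≠ x := fun h1 => hx (h1 ▸ hfG)
    rw [if_neg hne]
    have hmat : Mat Q ω G (indU Q ω G e) := fun g hg k hk =>
      indU_eq (Ini.mono he hG) hg hk
    exact hmat.even (f := f) hfG

/-- The stopped strand is matched at all faces but the last one. -/
theorem mat_stopped {G : Set Φ} (hG : G ⊆ F) (he : Ini Q F e) (hx : x ∉ G)
    (h : (Q.c x k, Q.c x (k + 1)) ∈ Orb Q ω G e) (hf : f ∈ F) (hne : f ≠ x) {j : ZMod 4}
    (hj : ω f = ev j) : indU Q ω G e (Q.c f j) (Q.c f (j + 1)) =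
      indU Q ω G e (Q.c f (j + 1)) (Q.c f (j + 2)) := by
  by_cases hfG : f ∈ G
  · exact indU_eq (Ini.mono he hG) hfG hj
  · have h1 := ind_zero he hx h hf hfG hne (j + 1)
    rw [z1] at h1
    rw [ind_zero he hx h hf hfG hne j, h1]

/-- The bond of a visited face is a mark. -/
theorem bond_mark {G : Set Φ} (hf : f ∈ Vis Q ω G e) (hk : ω f = ev k) :
    (∃ a ∈ Orb Q ω G e, a.1 = Q.c f k ∨ a.1 = Q.c f (k + 2)) ∨
      (∃ a ∈ Orb Q ω G e, a.2 = Q.c f k ∨ a.2 = Q.c f (k + 2)) := by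
  obtain ⟨-, j, hj⟩ := hf
  rcases z4_cases j k with rfl | rfl | rfl | rfl
  · exact Or.inl ⟨_, hj, Or.inl rfl⟩
  · refine Or.inr ⟨_, hj, Or.inr ?_⟩
    rw [z1]
  · exact Or.inl ⟨_, hj, Or.inr rfl⟩
  · refine Or.inr ⟨_, hj, Or.inl ?_⟩
    rw [z5]

end general

/-! ### The neck -/

theorem adj_dT {f g : ℤ × ℤ} (h : AdjQ TQ f g) : dT g f ≤ 1 := by
  obtain ⟨k, l, h1, h2⟩ := h
  obtain ⟨x, y⟩ := f
  obtain ⟨x', y'⟩ := g
  have hc : ∀ g l, TQ.c g l = corT emP g l := fun _ _ => rfl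
  rw [hc, hc] at h1 h2
  unfold dT
  rw [max_le_iff, abs_le, abs_le]
  obtain ⟨a0, a1, a2, a3⟩ := corT_eq emP x y
  obtain ⟨b0, b1, b2, b3⟩ := corT_eq emP x' y'
  have e0 : ∀ l, emP l = if 0 ≤ l then l else l - 1 := fun _ => rfl
  by_cases hy : y = -1
  · obtain ⟨a4, a5⟩ := a3 hy
    by_cases hy' : y' = -1
    · obtain ⟨b4, b5⟩ := b3 hy'
      rcases k4_cases k with rfl | rfl | rfl | rfl <;>
        rcases k4_cases l with rfl | rfl | rfl | rfl <;>
        simp only [k01, k11, k21, k31, a0, a1, a4, a5, b0, b1, b4, b5, Prod.mk.injEq, e0]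
          at h1 h2 ⊢ <;> (try split_ifs at h1 h2) <;> omega
    · obtain ⟨b4, b5⟩ := b2 hy'
      rcases k4_cases k with rfl | rfl | rfl | rfl <;>
        rcases k4_cases l with rfl | rfl | rfl | rfl <;>
        simp only [k01, k11, k21, k31, a0, a1, a4, a5, b0, b1, b4, b5, Prod.mk.injEq, e0]
          at h1 h2 ⊢ <;> (try split_ifs at h1 h2) <;> omega
  · obtain ⟨a4, a5⟩ := a2 hy
    by_cases hy' : y' = -1
    · obtain ⟨b4, b5⟩ := b3 hy'
      rcases k4_cases k with rfl | rfl | rfl | rfl <;>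
        rcases k4_cases l with rfl | rfl | rfl | rfl <;>
        simp only [k01, k11, k21, k31, a0, a1, a4, a5, b0, b1, b4, b5, Prod.mk.injEq, e0]
          at h1 h2 ⊢ <;> (try split_ifs at h1 h2) <;> omega
    · obtain ⟨b4, b5⟩ := b2 hy'
      rcases k4_cases k with rfl | rfl | rfl | rfl <;>
        rcases k4_cases l with rfl | rfl | rfl | rfl <;>
        simp only [k01, k11, k21, k31, a0, a1, a4, a5, b0, b1, b4, b5, Prod.mk.injEq]
          at h1 h2 ⊢ <;> omega

theorem corner_dT (f : ℤ × ℤ) (k : ZMod 4) : dT (TQ.c f k) f ≤ 1 := by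
  obtain ⟨x, y⟩ := f
  have hc : ∀ g l, TQ.c g l = corT emP g l := fun _ _ => rfl
  rw [hc]
  unfold dT
  rw [max_le_iff, abs_le, abs_le]
  obtain ⟨a0, a1, a2, a3⟩ := corT_eq emP x y
  have e0 : ∀ l, emP l = if 0 ≤ l then l else l - 1 := fun _ => rfl
  by_cases hy : y = -1
  · obtain ⟨a4, a5⟩ := a3 hy
    rcases k4_cases k with rfl | rfl | rfl | rfl <;> simp only [a0, a1, a4, a5, e0] <;>
      (try split_ifs) <;> omega
  · obtain ⟨a4, a5⟩ := a2 hy
    rcases k4_cases k with rfl | rfl | rfl | rfl <;> simp only [a0, a1, a4, a5] <;> omega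

theorem dT_tri (u v x : ℤ × ℤ) : dT u x ≤ dT u v + dT v x := by
  unfold dT
  rw [max_le_iff]
  have h1 := abs_sub_le u.1 v.1 x.1
  have h2 := abs_sub_le u.2 v.2 x.2
  have h3 := le_max_left |u.1 - v.1| |u.2 - v.2|
  have h4 := le_max_right |u.1 - v.1| |u.2 - v.2|
  have h5 := le_max_left |v.1 - x.1| |v.2 - x.2|
  have h6 := le_max_right |v.1 - x.1| |v.2 - x.2|
  constructor <;> omega

theorem dT_self (u : ℤ × ℤ) : dT u u = 0 := by
  unfold dT
  simp

theorem Zn_mono {V Φ : Type} {Q : QC V Φ} {X A B : Set Φ} : ∀ r : ℕ,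
    Zn Q X A B r ⊆ Zn Q X A B (r + 1) := by
  intro r
  induction r with
  | zero => intro f hf; exact absurd hf (by simp [Zn])
  | succ r ih =>
    rintro f ⟨h1, h2, g, hg, h3 | h3⟩
    · exact ⟨h1, h2, g, hg, Or.inl h3⟩
    · exact ⟨h1, h2, g, hg, Or.inr (ih h3)⟩

theorem Zn_sub {V Φ : Type} {Q : QC V Φ} {X A B : Set Φ} (r : ℕ) {f : Φ}
    (h : f ∈ Zn Q X A B r) : f ∈ X ∧ f ∉ A := by
  cases r with
  | zero => exact absurd h (by simp [Zn])
  | succ r => exact ⟨h.1, h.2.1⟩

open Classical in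
/-- The indicator of one directed edge. -/
noncomputable def dl (a : (ℤ × ℤ) × (ℤ × ℤ)) (p q : ℤ × ℤ) : ZMod 2 := if (p, q) = a then 1 else 0

open Classical in
theorem sum_dl (g : ℤ × ℤ) (l : ZMod 4) (f : ℤ × ℤ) :
    ∑ j, dl (TQ.c g l, TQ.c g (l + 1)) (TQ.c f j) (TQ.c f (j + 1)) = if f = g then 1 else 0 := by
  by_cases h : f = g
  · subst h
    rw [if_pos rfl, ← sum_one l]
    refine sum_congr rfl fun j _ => ?_
    unfold dl
    by_cases hj : j = l
    · subst hj
      rw [if_pos rfl, if_pos rfl]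
    · rw [if_neg hj, if_neg]
      intro h1
      exact hj (TQ.inj (Prod.mk.inj h1).1 (Prod.mk.inj h1).2).2
  · rw [if_neg h]
    refine sum_eq_zero fun j _ => ?_
    unfold dl
    rw [if_neg]
    intro h1
    exact h (TQ.inj (Prod.mk.inj h1).1 (Prod.mk.inj h1).2).1

theorem z2_four (a b c : ZMod 2) : a + b + (b + c) = a + c := by revert a b c; decide

open Classical in
/-- The neck: a cochain with divergence at the ends of the chain. -/
theorem neck {X A B : Set (ℤ × ℤ)} : ∀ (r : ℕ) (x : ℤ × ℤ), x ∈ Zn TQ X A B r →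
    ∃ y ∈ B, ∃ (N : Set (ℤ × ℤ)) (ν : ℤ × ℤ → ℤ × ℤ → ZMod 2), x ∈ N ∧ y ∈ N ∧
      (∀ p q, ν p q = ν q p) ∧ (∀ f ∈ N, f ∈ Zn TQ X A B r ∨ f = y) ∧
      (∀ f ∈ N, dT f x ≤ r) ∧
      (∀ p q, (∀ f ∈ N, ∀ j, (p, q) ≠ (TQ.c f j, TQ.c f (j + 1))) → ν p q = 0) ∧
      ∀ f, ∑ j, ν (TQ.c f j) (TQ.c f (j + 1)) =
        (if f = x then 1 else 0) + if f = y then 1 else 0 := by
  intro r
  induction r with
  | zero => intro x hx; exact absurd hx (by simp [Zn])
  | succ r ih =>
    rintro x ⟨hX, hA, g, hadj, hg⟩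
    obtain ⟨k, l, h1, h2⟩ := hadj
    have hdist : dT g x ≤ 1 := adj_dT ⟨k, l, h1, h2⟩
    -- the two directed edges of the common side
    set a : (ℤ × ℤ) × (ℤ × ℤ) := (TQ.c x k, TQ.c x (k + 1)) with ha
    set b : (ℤ × ℤ) × (ℤ × ℤ) := (TQ.c g l, TQ.c g (l + 1)) with hb
    have hab : b = a.swap := by rw [ha, hb, h1, h2]; rfl
    have hsw : ∀ p q, dl a p q + dl b p q = dl a q p + dl b q p := by
      intro p q
      have e1 : ∀ p q, dl b p q = dl a q p := by
        intro p q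
        unfold dl
        rw [hab]
        have : ((p, q) = a.swap) ↔ ((q, p) = a) := by
          constructor
          · intro h; rw [← Prod.swap_swap a, ← h]; rfl
          · intro h; rw [← h]; rfl
        simp only [this]
      rw [e1, e1]
      exact add_comm _ _
    have hxx : x ∈ Zn TQ X A B (r + 1) := ⟨hX, hA, g, ⟨k, l, h1, h2⟩, hg⟩
    have hsum : ∀ f, ∑ j, (dl a (TQ.c f j) (TQ.c f (j + 1)) + dl b (TQ.c f j) (TQ.c f (j + 1))) =
        (if f = x then 1 else 0) + if f = g then 1 else 0 := by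
      intro f
      rw [sum_add_distrib, ha, hb, sum_dl, sum_dl]
    rcases hg with hg | hg
    · refine ⟨g, hg, {x, g}, fun p q => dl a p q + dl b p q, by simp, by simp, hsw, ?_, ?_, ?_,
        hsum⟩
      · rintro f (rfl | rfl)
        · exact Or.inl hxx
        · exact Or.inr rfl
      · rintro f (rfl | rfl)
        · rw [dT_self]; positivity
        · push_cast; omega
      · intro p q h
        change dl a p q + dl b p q = 0
        have e1 : dl a p q = 0 := if_neg (h x (by simp) k)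
        have e2 : dl b p q = 0 := if_neg (h g (by simp) l)
        rw [e1, e2, add_zero]
    · obtain ⟨y, hy, N, ν, n1, n2, n3, n4, n5, n7, n8⟩ := ih g hg
      refine ⟨y, hy, insert x N, fun p q => dl a p q + dl b p q + ν p q, by simp,
        Set.mem_insert_of_mem _ n2, ?_, ?_, ?_, ?_, ?_⟩
      · intro p q
        change dl a p q + dl b p q + ν p q = dl a q p + dl b q p + ν q p
        rw [hsw, n3 p q]
      · rintro f (rfl | hf)
        · exact Or.inl hxx
        · rcases n4 f hf with h | h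
          · exact Or.inl (Zn_mono r h)
          · exact Or.inr h
      · rintro f (rfl | hf)
        · rw [dT_self]; positivity
        · have h3 := dT_tri f g x
          have h4 := n5 f hf
          push_cast
          omega
      · intro p q h
        change dl a p q + dl b p q + ν p q = 0
        have e1 : dl a p q = 0 := if_neg (h x (by simp) k)
        have e2 : dl b p q = 0 := if_neg (h g (Set.mem_insert_of_mem _ n1) l)
        rw [e1, e2, add_zero, zero_add, n7 p q fun f hf j => h f (Set.mem_insert_of_mem _ hf) j]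
      · intro f
        change ∑ j, (dl a (TQ.c f j) (TQ.c f (j + 1)) + dl b (TQ.c f j) (TQ.c f (j + 1)) +
          ν (TQ.c f j) (TQ.c f (j + 1))) = _
        rw [sum_add_distrib, hsum, n8]
        exact z2_four _ _ _

/-! ### The legs -/

theorem cast_succ (i : Fin 3) :
    bd 0 (((i + 1 : Fin 3) : ℕ) : ℤ) = bd 0 (((i : ℕ) : ℤ) + 1) := by
  have h := bd_last (r := 0) le_rfl
  fin_cases i
  · rfl
  · rfl
  · exact h.symm

theorem exists_sec {W : ℤ} {ω : Cfg} (hW : 0 < W) (hL : Lea3 W ω) :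
    ∃ (sec : ℤ × ℤ → Fin 3) (kap : ℤ × ℤ → ZMod 2),
      IsSec TQ ω (An 0 W) leg (fun j => j) (fun j => j + 2) sec kap := by
  obtain ⟨sec, kap, H⟩ := secOut (d := 0) (w := W) (ω := ω) le_rfl hW alt_core hL
  exact ⟨sec, kap, H⟩

theorem ine_of_lt (i : Fin 3) : (0 : ℤ) ≤ ((i : ℕ) : ℤ) ∧ ((i : ℕ) : ℤ) < 8 * 0 + 3 := by
  have := i.2
  omega

/-- The core edges in a stopped strand. -/
theorem core_stopped {W : ℤ} {ω : Cfg} (hW : 0 < W) {G : Set (ℤ × ℤ)} (hG : G ⊆ An 0 W)
    {x : ℤ × ℤ} {k : ZMod 4} {i : Fin 3} (hxF : x ∈ An 0 W) (hxG : x ∉ G)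
    (h : (TQ.c x k, TQ.c x (k + 1)) ∈ Orb TQ ω G (leg i)) {t : ℤ} (h0 : 0 ≤ t)
    (h1 : t < 8 * 0 + 3) : indU TQ ω G (leg i) (bd 0 t) (bd 0 (t + 1)) =
      if t = ((i : ℕ) : ℤ) then 1 else 0 := by
  unfold indU
  by_cases ht : t = ((i : ℕ) : ℤ)
  · rw [if_pos ht]
    subst ht
    exact if_pos (show (bd 0 ((i : ℕ) : ℤ), bd 0 (((i : ℕ) : ℤ) + 1)) ∈
      Un TQ ω G (leg i) from Or.inr mem_Orb_self)
  · rw [if_neg ht, if_neg]
    rintro (h2 | h2)
    · have h3 : Ter TQ (An 0 W) (ine 0 t) := by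
        have := (ini_inner (d := 0) (w := W) le_rfl hW h0 h1).ter_swap
        rwa [Prod.swap_swap] at this
      have h4 : Ter TQ G (ine 0 t) := fun f hf => h3 f (hG hf)
      have h5 := ter_unique h2 h h4 (ter_of_mem hxG)
      exact h3 x hxF k h5
    · have h3 : Ini TQ G (ine 0 t).swap :=
        Ini.mono (ini_inner (d := 0) (w := W) le_rfl hW h0 h1) hG
      have h4 : (ine 0 t).swap = leg i := eq_of_ini h2 h3
      exact ht (ine_inj le_rfl h0 h1 (ine_of_lt i).1 (ine_of_lt i).2 (Prod.swap_injective h4))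

/-- The sectors of the bond of a visited face. -/
theorem bond_sec {F : Set (ℤ × ℤ)} {ω : Cfg} {sec : ℤ × ℤ → Fin 3} {kap : ℤ × ℤ → ZMod 2}
    (H : IsSec TQ ω F leg (fun j => j) (fun j => j + 2) sec kap) {j : Fin 3} {f : ℤ × ℤ}
    {k : ZMod 4} (hf : f ∈ Vis TQ ω F (leg j)) (hk : ω f = ev k) :
    sec (TQ.c f k) = j ∨ sec (TQ.c f k) = j + 2 := by
  have h2 := (H.bond_eq hf.1 hk).1
  rcases bond_mark hf hk with ⟨a, ha, h | h⟩ | ⟨a, ha, h | h⟩
  · left; rw [← h]; exact (H.left j a ha).1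
  · left; rw [h2, ← h]; exact (H.left j a ha).1
  · right; rw [← h]; exact (H.right j a ha).1
  · right; rw [h2, ← h]; exact (H.right j a ha).1

end FA

/-- If the three legs reach the boundary of the box of radius `W` and the leg `i + 1` comes close to
the right side of the leg `i` at the face `x` in the box of radius `w`, there is a path of
unexplored faces from the neighbourhood of `x` to the boundary of the box of radius `W`. -/
theorem fresh_arm {r : ℕ} {d w W : ℤ} (hd : 0 < d) (hdw : d < w) (hwW : w < W) {i : Fin 3}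
    {ω : Cfg} (hL : Lea3 W ω) (hLw : Lea3 w ω) (hN : ω ∈ NT r d w w i) :
    ∃ x k y t, x ∈ ZT r d w w ω i ∧
      (TQ.c x k, TQ.c x (k + 1)) ∈ Orb TQ ω (An 0 w \ ZT r d w w ω i) (leg (i + 1)) ∧
      dT y x ≤ r + 2 ∧ (0 ≤ t ∧ t < 8 * W + 3) ∧
      ConnQ TQ ω (An 0 W \ ET r d w w ω i) y (bd W t) := by
  classical
  have hW : 0 < W := by omega
  obtain ⟨sec, kap, H⟩ := FA.exists_sec hW hL
  have hsub0 : An 0 w ⊆ An 0 W := fun f hf => ⟨BW_mono (by omega) hf.1, hf.2⟩
  have hsubw : An d w ⊆ An 0 w := by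
    rintro f ⟨hf1, -⟩
    refine ⟨hf1, ?_⟩
    intro h
    rw [mem_coe, Perc3.mem_BW] at h
    omega
  have hsubF : An d w ⊆ An 0 W := hsubw.trans hsub0
  obtain ⟨x, hxZ, hxF', k, hk⟩ := FA.first_entry (Q := TQ) (ω := ω) (F := An 0 w)
    (Z := ZT r d w w ω i) (e := leg (i + 1)) hN
  have hxF : x ∈ An 0 W := hsub0 hxF'
  obtain ⟨y, ⟨hyR, hyA⟩, N, ν, n1, n2, n3, n4, n5, n7, n8⟩ := FA.neck r x hxZ
  have hyF : y ∈ An 0 W := hsubF hyA
  obtain ⟨ky, hky⟩ : ∃ ky, (TQ.c y ky, TQ.c y (ky + 1)) ∈ Orb TQ ω (An 0 w \ {y}) (leg i) := by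
    obtain ⟨y', hy', -, ky, hky⟩ := FA.first_entry (Q := TQ) (ω := ω) (F := An 0 w)
      (Z := {y}) (e := leg i) ⟨y, ⟨hsubw hyA, hyR.2.choose, hyR.2.choose_spec.1⟩, rfl⟩
    rw [Set.mem_singleton_iff] at hy'
    subst hy'
    exact ⟨ky, hky⟩
  have hia : Ini TQ (An 0 W) (leg i) := H.ini i
  have hib : Ini TQ (An 0 W) (leg (i + 1)) := H.ini (i + 1)
  -- the two sets in which the legs are explored
  set Ga : Set (ℤ × ℤ) := An 0 w \ {y} with hGa
  set Gb : Set (ℤ × ℤ) := An 0 w \ ZT r d w w ω i with hGb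
  have hGa1 : Ga ⊆ An 0 W := Set.sdiff_subset.trans hsub0
  have hGb1 : Gb ⊆ An 0 W := Set.sdiff_subset.trans hsub0
  have hya : y ∉ Ga := fun h => h.2 rfl
  have hxb : x ∉ Gb := fun h => h.2 hxZ
  -- the faces of the neck
  have hNZ : ∀ f ∈ N, f ≠ y → f ∈ ZT r d w w ω i := fun f hf hne => (n4 f hf).resolve_right hne
  have hZA : ∀ f ∈ ZT r d w w ω i, f ∈ An d w ∧ f ∉ VT w ω i := fun f hf => FA.Zn_sub r hf
  have hNd : ∀ f ∈ N, f ∈ An d w := fun f hf => by
    by_cases h : f = y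
    · rw [h]; exact hyA
    · exact (hZA f (hNZ f hf h)).1
  have hν0 : ∀ f, f ∉ N → ∀ j, ν (TQ.c f j) (TQ.c f (j + 1)) = 0 := by
    intro f hf j
    refine n7 _ _ fun g hg l h => hf ?_
    rw [(TQ.inj (Prod.mk.inj h).1 (Prod.mk.inj h).2).1]
    exact hg
  set m : ℤ × ℤ → ℤ × ℤ → ZMod 2 := fun p q =>
    indU TQ ω Gb (leg (i + 1)) p q + ν p q + indU TQ ω Ga (leg i) p q with hm
  have hmsymm : ∀ p q, m p q = m q p := by
    intro p q
    change indU TQ ω _ _ p q + ν p q + indU TQ ω _ _ p q =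
      indU TQ ω _ _ q p + ν q p + indU TQ ω _ _ q p
    rw [indU_symm TQ ω Gb (leg (i + 1)) p q, n3 p q, indU_symm TQ ω Ga (leg i) p q]
  -- the potential
  obtain ⟨χ, hχ⟩ : ∃ χ, PotQ TQ (An 0 W) m χ := by
    refine exists_pot_inner (d := 0) (w := W) le_rfl hW hmsymm (fun f hf => ?_) ?_
    · have e1 := FA.div_stopped hGb1 hib hxb hk (f := f) hf
      have e2 := FA.div_stopped hGa1 hia hya hky (f := f) hf
      have e3 := n8 f
      change ∑ j, (indU TQ ω _ _ (TQ.c f j) (TQ.c f (j + 1)) + ν (TQ.c f j) (TQ.c f (j + 1)) +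
        indU TQ ω _ _ (TQ.c f j) (TQ.c f (j + 1))) = 0
      rw [sum_add_distrib, sum_add_distrib, e1, e2, e3]
      clear * -
      split_ifs <;> decide
    · have e1 : ∀ t ∈ Ico (0 : ℤ) (8 * 0 + 3), m (bd 0 t) (bd 0 (t + 1)) =
          (if t = (((i + 1 : Fin 3) : ℕ) : ℤ) then 1 else 0) +
            if t = ((i : ℕ) : ℤ) then 1 else 0 := by
        intro t ht
        rw [mem_Ico] at ht
        change indU TQ ω _ _ (bd 0 t) (bd 0 (t + 1)) + ν (bd 0 t) (bd 0 (t + 1)) +
          indU TQ ω _ _ (bd 0 t) (bd 0 (t + 1)) = _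
        rw [FA.core_stopped hW hGb1 hxF hxb hk ht.1 ht.2,
          FA.core_stopped hW hGa1 hyF hya hky ht.1 ht.2,
          n7 (bd 0 t) (bd 0 (t + 1)) ?_, add_zero]
        intro f hf j h
        have h3 := (ini_inner (d := 0) (w := W) le_rfl hW ht.1 ht.2).ter_swap
        rw [Prod.swap_swap] at h3
        exact h3 f (hsubF (hNd f hf)) j h
      rw [sum_congr rfl e1, sum_add_distrib, sum_ite_Ico (FA.ine_of_lt _).1 (FA.ine_of_lt _).2,
        sum_ite_Ico (FA.ine_of_lt _).1 (FA.ine_of_lt _).2]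
      decide
  -- the cochain vanishes outside the box of radius `w`
  have hmz : ∀ f ∈ An 0 W, f ∉ BW w → ∀ j, m (TQ.c f j) (TQ.c f (j + 1)) = 0 := by
    intro f hf hfw j
    have hfx : f ≠ x := fun h => hfw (h ▸ hxF'.1)
    have hfy : f ≠ y := fun h => hfw (h ▸ hyA.1)
    have e1 := FA.ind_zero hib hxb hk hf (fun h => hfw h.1.1) hfx j
    have e2 := FA.ind_zero hia hya hky hf (fun h => hfw h.1.1) hfy j
    have e3 := hν0 f (fun h => hfw (hNd f h).1) j
    change indU TQ ω _ _ _ _ + ν _ _ + indU TQ ω _ _ _ _ = 0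
    rw [e1, e2, e3]
    decide
  have hχz : ∀ f ∈ An 0 W, f ∉ BW w → ∀ j, χ (TQ.c f j) = χ (TQ.c f (j + 1)) := by
    intro f hf hfw j
    have h1 := hχ f hf j
    rw [hmz f hf hfw j] at h1
    exact z2_eq h1
  have hw0 : 0 < w := by omega
  have hz0 : ∀ f : ℤ × ℤ, f ∉ (BW 0 : Set (ℤ × ℤ)) := by
    intro f h
    rw [mem_coe, Perc3.mem_BW] at h
    omega
  -- constant on the two boundaries
  have houtw : ∀ t, 0 ≤ t → t ≤ 8 * w + 3 → χ (bd w t) = χ (bd w 0) := by
    intro t h0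
    induction t, h0 using Int.leInduction with
    | base => intro _; rfl
    | succ t ht ih =>
      intro h1
      rw [← ih (by omega)]
      obtain ⟨f, hf, hf', l, hl⟩ := ine_opp (r := w) hw0.le ht (by omega)
      have h2 := hχz f ⟨BW_mono (by omega) hf, hz0 f⟩ hf' l
      have h3 := Prod.mk.inj hl
      rw [← h3.1, ← h3.2] at h2
      exact h2
  have hrow : ∀ a, w ≤ a → a ≤ W → χ (a, 0) = χ (w, 0) := by
    intro a ha
    induction a, ha using Int.leInduction with
    | base => intro _; rfl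
    | succ a ha ih =>
      intro h1
      rw [← ih (by omega)]
      have hf : ((a, 0) : ℤ × ℤ) ∈ An 0 W := by
        refine ⟨?_, hz0 _⟩
        rw [mem_coe, Perc3.mem_BW]
        simp only
        omega
      have h2 := hχz (a, 0) hf (by rw [Perc3.mem_BW]; simp only; omega) 0
      obtain ⟨c0, c1, -, -⟩ := corT_eq emP a 0
      have hc : ∀ g l, TQ.c g l = corT emP g l := fun _ _ => rfl
      rw [hc, hc, k01, c0, c1] at h2
      exact h2.symm
  have hbd0 : ∀ a : ℤ, 0 ≤ a → bd a 0 = (a, 0) := by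
    intro a ha
    unfold bd
    rw [if_pos ha]
  have houtW : ∀ t, 0 ≤ t → t ≤ 8 * W + 3 → χ (bd W t) = χ (bd W 0) := by
    intro t h0
    induction t, h0 using Int.leInduction with
    | base => intro _; rfl
    | succ t ht ih =>
      intro h1
      rw [← ih (by omega)]
      obtain ⟨f, hf, hf', l, hl⟩ := ine_face (r := W) hW ht (by omega)
      have h2 := hχz f ⟨hf, hz0 f⟩ (fun h => hf' (BW_mono (by omega) h)) l
      have h3 := Prod.mk.inj hl
      rw [← h3.1, ← h3.2] at h2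
      exact h2.symm
  have hwW0 : χ (bd w 0) = χ (bd W 0) := by
    rw [hbd0 w hw0.le, hbd0 W hW.le]
    exact (hrow W (by omega) le_rfl).symm
  -- bonds outside the neck
  have hbond : ∀ f ∈ An 0 W, f ∉ N → ∀ j, ω f = ev j → χ (TQ.c f j) = χ (TQ.c f (j + 2)) := by
    intro f hf hfN j hj
    have h1 := hχ f hf j
    have h2 := hχ f hf (j + 1)
    rw [z1] at h2
    have h3 : m (TQ.c f j) (TQ.c f (j + 1)) = m (TQ.c f (j + 1)) (TQ.c f (j + 2)) := by
      have e1 := FA.mat_stopped hGb1 hib hxb hk hf (fun h => hfN (h ▸ n1)) hj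
      have e2 := FA.mat_stopped hGa1 hia hya hky hf (fun h => hfN (h ▸ n2)) hj
      have e3 := hν0 f hfN (j + 1)
      rw [z1] at e3
      change indU TQ ω _ _ _ _ + ν _ _ + indU TQ ω _ _ _ _ =
        indU TQ ω _ _ _ _ + ν _ _ + indU TQ ω _ _ _ _
      rw [e1, e2, e3, hν0 f hfN j]
    rw [h3, ← h2] at h1
    generalize χ (TQ.c f j) = a at h1 ⊢
    generalize χ (TQ.c f (j + 1)) = b at h1
    generalize χ (TQ.c f (j + 2)) = c at h1 ⊢
    revert a b c
    decide
  -- the bond of `y`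
  have hysec : ∀ j, ω y = ev j → sec (TQ.c y j) = i + 2 := by
    intro j hj
    obtain ⟨-, l, hl, hl2⟩ := hyR
    have h1 : sec (TQ.c y (l + 1)) = i + 2 := (H.right i _ (Orb_mono hsub0 hl)).1
    have h2 : ω y = ev (l + 1) := by rw [ev_add_one]; exact hl2
    have h3 := (H.bond_eq hyF h2).1
    rw [h2] at hj
    have h4 : j = l + 1 ∨ j = l + 1 + 2 := by
      revert hj
      clear * -
      revert j l
      decide
    rcases h4 with rfl | rfl
    · exact h1
    · rw [← h3, h1]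
  -- the left marks of the leg `i`
  have hleft : ∀ v, ConnQ TQ ω (VT w ω i) (leg i).1 v → χ v = χ (leg i).1 ∧ sec v = i := by
    intro v hv
    induction hv with
    | refl => exact ⟨rfl, (H.left i _ mem_Orb_self).1⟩
    | tail _ hb ih =>
      obtain ⟨f, hf, j, hj, h1, h2⟩ := hb
      have hfF : f ∈ An 0 W := hsub0 hf.1
      have h3 := H.bond_eq hfF hj
      have h4 : sec (TQ.c f j) = i := by rw [← h1]; exact ih.2
      have hfN : f ∉ N := by
        intro hN'
        by_cases h : f = y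
        · subst h
          have := hysec j hj
          rw [h4] at this
          revert this
          clear * -
          revert i
          decide
        · exact (hZA f (hNZ f hN' h)).2 hf
      refine ⟨?_, ?_⟩
      · rw [h2, ← hbond f hfF hfN j hj, ← h1]
        exact ih.1
      · rw [h2, ← h3.1, h4]
  have hinf : χ (leg i).1 = χ (bd W 0) := by
    obtain ⟨s, hs0, hs1, hs⟩ := hLw i
    have h1 := (marks hs).1
    have h2 := (hleft _ h1).1
    rw [← h2, ← hwW0]
    exact houtw (s + 1) (by omega) (by omega)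
  -- the left marks of the leg `i + 1`
  have hstart : χ (leg (i + 1)).1 ≠ χ (bd W 0) := by
    have h1 := pot_inner (d := 0) le_rfl hW (m := m) hmsymm hχ (FA.ine_of_lt (i + 1)).1
      (FA.ine_of_lt (i + 1)).2
    have h2 : m (bd 0 (((i + 1 : Fin 3) : ℕ) : ℤ)) (bd 0 ((((i + 1 : Fin 3) : ℕ) : ℤ) + 1)) =
        1 := by
      change indU TQ ω _ _ _ _ + ν _ _ + indU TQ ω _ _ _ _ = 1
      rw [FA.core_stopped hW hGb1 hxF hxb hk (FA.ine_of_lt _).1 (FA.ine_of_lt _).2,
        FA.core_stopped hW hGa1 hyF hya hky (FA.ine_of_lt _).1 (FA.ine_of_lt _).2,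
        n7 _ _ ?_, if_pos rfl, if_neg ?_, add_zero, add_zero]
      · fin_cases i <;> decide
      · intro f hf j h
        have h3 := (ini_inner (d := 0) (w := W) le_rfl hW (FA.ine_of_lt (i + 1)).1
          (FA.ine_of_lt (i + 1)).2).ter_swap
        rw [Prod.swap_swap] at h3
        exact h3 f (hsubF (hNd f hf)) j h
    rw [h2, FA.cast_succ] at h1
    have h3 : χ (bd 0 (((i : ℕ) : ℤ) + 1)) = χ (bd W 0) := hinf
    rw [h3] at h1
    intro h4
    have h5 : χ (bd 0 ((((i + 1 : Fin 3) : ℕ) : ℤ) + 1)) = χ (bd W 0) := h4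
    rw [h5] at h1
    generalize χ (bd W 0) = a at h1
    revert a
    decide
  -- no face of the neck is visited by the stopped leg
  have hyB : y ∉ Vis TQ ω (An 0 W) (leg (i + 1)) := by
    intro hyV
    obtain ⟨j, hj⟩ : ∃ j, ω y = ev j := by
      cases h : ω y
      · exact ⟨1, by decide⟩
      · exact ⟨0, by decide⟩
    have h1 := FA.bond_sec H hyV hj
    rw [hysec j hj] at h1
    revert h1
    clear * -
    revert i
    decide
  have hNB : ∀ f ∈ Vis TQ ω Gb (leg (i + 1)), f ∉ N := by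
    intro f hf hfN
    by_cases h : f = y
    · subst h
      exact hyB (Vis_mono hGb1 hf)
    · exact hf.1.2 (hNZ f hfN h)
  have hpast : ∀ v, ConnQ TQ ω (Vis TQ ω Gb (leg (i + 1))) (leg (i + 1)).1 v →
      χ v = χ (leg (i + 1)).1 := by
    intro v hv
    induction hv with
    | refl => rfl
    | tail _ hb ih =>
      obtain ⟨f, hf, j, hj, h1, h2⟩ := hb
      rw [h2, ← hbond f (hGb1 hf.1) (hNB f hf) j hj, ← h1]
      exact ih
  -- the path
  obtain ⟨s, hs0, hs1, hs⟩ := hL (i + 1)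
  have hpath := (marks hs).1
  have hend : χ ((ine W s).swap).1 = χ (bd W 0) := houtW (s + 1) (by omega) (by omega)
  have key : ∀ u, ConnQ TQ ω (Vis TQ ω (An 0 W) (leg (i + 1))) u ((ine W s).swap).1 →
      sec u = i + 1 →
      (χ u = χ (bd W 0) ∧ ConnQ TQ ω (An 0 W \ ET r d w w ω i) u ((ine W s).swap).1) ∨
      ∃ z, dT z x ≤ r + 2 ∧ ConnQ TQ ω (An 0 W \ ET r d w w ω i) z ((ine W s).swap).1 := by
    intro u hu
    induction hu using ReflTransGen.head_induction_on with
    | refl => intro _; exact Or.inl ⟨hend, ReflTransGen.refl⟩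
    | head hb hc ih =>
      rename_i u u'
      intro hsu
      obtain ⟨f, hf, j, hj, h1, h2⟩ := hb
      have hfF : f ∈ An 0 W := hf.1
      have h3 := H.bond_eq hfF hj
      have hsf : sec (TQ.c f j) = i + 1 := by rw [← h1]; exact hsu
      rcases ih (by rw [h2, ← h3.1]; exact hsf) with ⟨h4, h5⟩ | h4
      · by_cases hfN : f ∈ N
        · refine Or.inr ⟨u', ?_, h5⟩
          have h6 := FA.dT_tri u' f x
          have h7 := n5 f hfN
          have h8 := FA.corner_dT f (j + 2)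
          rw [← h2] at h8
          omega
        · refine Or.inl ⟨?_, ReflTransGen.head ⟨f, ⟨hfF, ?_⟩, j, hj, h1, h2⟩ h5⟩
          · rw [h1, hbond f hfF hfN j hj, ← h2, h4]
          · have hχf : χ (TQ.c f j) = χ (bd W 0) := by
              rw [hbond f hfF hfN j hj, ← h2, h4]
            rintro (hfA | hfB)
            · have h6 := FA.bond_sec H (j := i) (Vis_mono hsub0 hfA) hj
              rw [hsf] at h6
              revert h6
              clear * -
              revert i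
              decide
            · rcases FA.bond_mark hfB hj with ⟨a, ha, h6⟩ | ⟨a, ha, h6⟩
              · have h7 := hpast a.1 (marks ha).1
                apply hstart
                rw [← h7]
                rcases h6 with h6 | h6
                · rw [h6, hχf]
                · rw [h6, ← hbond f hfF hfN j hj, hχf]
              · have h7 := (H.right (i + 1) a (Orb_mono hGb1 ha)).1
                have h8 : sec a.2 = i + 1 := by
                  rcases h6 with h6 | h6
                  · rw [h6, hsf]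
                  · rw [h6, ← h3.1, hsf]
                rw [h8] at h7
                revert h7
                clear * -
                revert i
                decide
      · exact Or.inr h4
  rcases key _ hpath (H.left (i + 1) _ mem_Orb_self).1 with ⟨h, -⟩ | ⟨z, hz1, hz2⟩
  · exact absurd h hstart
  · rcases eq_or_lt_of_le (show s + 1 ≤ 8 * W + 3 by omega) with h | h
    · refine ⟨x, k, z, 0, hxZ, hk, hz1, ⟨le_rfl, by omega⟩, ?_⟩
      have h1 : ((ine W s).swap).1 = bd W 0 := by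
        change bd W (s + 1) = bd W 0
        rw [h, bd_last hW.le]
      rw [← h1]
      exact hz2
    · exact ⟨x, k, z, s + 1, hxZ, hk, hz1, ⟨by omega, h⟩, hz2⟩

end Pool.Agent.Perc.Q
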