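import Pool.Agent.Lib.MP_6bd702_perc3.T3Defs

/-!
# T3, row H: without near touches the sector `i` does not come close to itself around the core

`χ` is a potential of the leg `i + 2` and of the cut. For a face `f` with a corner in the sector `i`
the value of `χ` at this corner (plus `1` if the corner is on the cut and the face is above) does
not depend on the corner. Two such faces at distance at most `D` are joined by a path of at most
`2 D + 1` faces in the annulus; the sector `i` is left through a face of the leg `i` with the bond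
on the right (or on the left) or of the leg `i + 1`; by the constancy of `χ + [sec = i + 1]` and of
`χ + [sec = i + 2]` away from the legs `i` and `i + 1` a change of the value means that the path has
a part from a face of the leg `i + 1` (bond on its left) to a face in `VR` of the leg `i`, with no
face of the legs `i`, `i + 1` in between: a near touch.
-/

set_option autoImplicit false

namespace Pool.Agent.Perc.Q

open Finset Pool.Agent.Perc Relation

namespace T3HAux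

/-! ### Faces and sectors -/

section general

variable {V Φ : Type} {Q : QC V Φ} {ω : Φ → Bool} {F A : Set Φ} {e : Fin 3 → V × V}
  {sec : V → Fin 3} {kap : V → ZMod 2} {i : Fin 3} {f g : Φ} {k : ZMod 4}

theorem adjQ_symm (h : AdjQ Q f g) : AdjQ Q g f := by
  obtain ⟨k, l, h1, h2⟩ := h
  exact ⟨l, k, h2.symm, h1.symm⟩

theorem zn_mono {X A B : Set Φ} {m n : ℕ} (h : m ≤ n) : Zn Q X A B m ⊆ Zn Q X A B n := by
  induction m generalizing n with
  | zero => exact fun f hf => absurd hf (Set.notMem_empty f)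
  | succ m ih =>
    obtain ⟨n, rfl⟩ : ∃ k, n = k + 1 := ⟨n - 1, by omega⟩
    rintro f ⟨h1, h2, g, h3, h4⟩
    exact ⟨h1, h2, g, h3, h4.imp_right fun h => ih (by omega) h⟩

theorem f1 (i : Fin 3) : i ≠ i + 1 := by revert i; decide
theorem f2 (i : Fin 3) : i ≠ i + 2 := by revert i; decide
theorem f3 (i : Fin 3) : i + 2 + 2 = i + 1 := by revert i; decide
theorem f4 (i : Fin 3) : i + 1 + 2 = i := by revert i; decide
theorem f5 (i j : Fin 3) : j = i ∨ j = i + 1 ∨ j = i + 2 := by revert i j; decide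
theorem f6 (i : Fin 3) : i + 1 ≠ i + 2 := by revert i; decide
theorem f7 {i j : Fin 3} (h : j + 2 = i) : j = i + 1 := by revert i j; decide

theorem un_sec (H : IsSec Q ω F e (fun j => j) (fun j => j + 2) sec kap) {j : Fin 3} {a b : V}
    (h : (a, b) ∈ Un Q ω F (e j)) :
    (sec a = j ∧ sec b = j + 2) ∨ (sec a = j + 2 ∧ sec b = j) := by
  rcases h with h | h
  · exact Or.inl ⟨(H.left _ _ h).1, (H.right _ _ h).1⟩
  · exact Or.inr ⟨(H.right _ _ h).1, (H.left _ _ h).1⟩

/-- The leg `i + 2` does not touch the sector `i`. -/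
theorem no_jump (H : IsSec Q ω F e (fun j => j) (fun j => j + 2) sec kap) {a b : V}
    (h : sec a = i ∨ sec b = i) : indU Q ω F (e (i + 2)) a b = 0 := by
  unfold indU
  rw [if_neg]
  intro h1
  rcases un_sec H h1 with ⟨h2, h3⟩ | ⟨h2, h3⟩ <;> rw [f3] at * <;> rcases h with h | h
  · exact f2 i (h.symm.trans h2)
  · exact f1 i (h.symm.trans h3)
  · exact f1 i (h.symm.trans h2)
  · exact f2 i (h.symm.trans h3)

theorem zz_eq {a b : ZMod 2} (h : a + b = 0) : a = b := by revert a b; decide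

/-- The value at the corners in the sector `i`. -/
theorem val_eq (H : IsSec Q ω F e (fun j => j) (fun j => j + 2) sec kap) {Y : ZMod 4 → ZMod 2}
    (hY : ∀ k, Y k + Y (k + 1) = indU Q ω F (e (i + 2)) (Q.c f k) (Q.c f (k + 1)))
    {a b : ZMod 4} (ha : sec (Q.c f a) = i) (hb : sec (Q.c f b) = i) : Y a = Y b := by
  have key : ∀ k, (sec (Q.c f k) = i ∨ sec (Q.c f (k + 1)) = i) → Y k = Y (k + 1) := by
    intro k h
    exact zz_eq ((hY k).trans (no_jump H h))
  rcases z4_cases b a with rfl | rfl | rfl | rfl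
  · rfl
  · exact key a (Or.inl ha)
  · exact (key a (Or.inl ha)).trans (by
      rw [key (a + 1) (Or.inr (by rw [z1]; exact hb)), z1])
  · have h := key (a + 3) (Or.inl hb)
    rw [z5] at h
    exact h.symm

/-- The value corrected by the indicator of a sector is constant. -/
theorem g_step (H : IsSec Q ω F e (fun j => j) (fun j => j + 2) sec kap) (hf : f ∈ F)
    {Y : ZMod 4 → ZMod 2}
    (hY : ∀ k, Y k + Y (k + 1) = indU Q ω F (e (i + 2)) (Q.c f k) (Q.c f (k + 1)))
    {j t : Fin 3} (hjt : (j = i + 1 ∧ t = i + 1) ∨ (j = i ∧ t = i + 2))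
    (hv : f ∉ Vis Q ω F (e j)) (k : ZMod 4) :
    Y k + (if sec (Q.c f k) = t then 1 else 0) =
      Y (k + 1) + (if sec (Q.c f (k + 1)) = t then 1 else 0) := by
  have h0 := hY k
  by_cases hm : (Q.c f k, Q.c f (k + 1)) ∈ MU Q ω F e
  · obtain ⟨j', hj'⟩ := hm
    have hne : j' ≠ j := by
      rintro rfl
      exact hv (vis_of_un (H.ini _) hf hj')
    have hs := un_sec H hj'
    have hi : j' = i + 2 → indU Q ω F (e (i + 2)) (Q.c f k) (Q.c f (k + 1)) = 1 := by
      rintro rfl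
      unfold indU
      exact if_pos hj'
    have hi' : j' ≠ i + 2 → indU Q ω F (e (i + 2)) (Q.c f k) (Q.c f (k + 1)) = 0 := by
      intro h
      refine no_jump H ?_
      rcases f5 i j' with rfl | rfl | rfl
      · rcases hs with hs | hs
        · exact Or.inl hs.1
        · exact Or.inr hs.2
      · rw [f4] at hs
        rcases hs with hs | hs
        · exact Or.inr hs.2
        · exact Or.inl hs.1
      · exact absurd rfl h
    generalize indU Q ω F (e (i + 2)) (Q.c f k) (Q.c f (k + 1)) = u at h0 hi hi'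
    generalize Y k = y1 at h0 ⊢
    generalize Y (k + 1) = y2 at h0 ⊢
    by_cases hj2 : j' = i + 2
    · have hu := hi hj2
      subst hu
      subst hj2
      rw [f3] at hs
      rcases hs with ⟨h1, h2⟩ | ⟨h1, h2⟩ <;> rw [h1, h2] <;>
        rcases hjt with ⟨-, rfl⟩ | ⟨-, rfl⟩
      · rw [if_neg (f6 i).symm, if_pos rfl]; clear * - h0; revert y1 y2; decide
      · rw [if_pos rfl, if_neg (f6 i)]; clear * - h0; revert y1 y2; decide
      · rw [if_pos rfl, if_neg (f6 i).symm]; clear * - h0; revert y1 y2; decide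
      · rw [if_neg (f6 i), if_pos rfl]; clear * - h0; revert y1 y2; decide
    · have hu := hi' hj2
      subst hu
      have hn : sec (Q.c f k) ≠ t ∧ sec (Q.c f (k + 1)) ≠ t := by
        generalize sec (Q.c f k) = s1 at hs ⊢
        generalize sec (Q.c f (k + 1)) = s2 at hs ⊢
        rcases hjt with ⟨rfl, rfl⟩ | ⟨rfl, rfl⟩
        · have h3 : j' = i := by
            rcases f5 i j' with h | h | h
            · exact h
            · exact absurd h hne
            · exact absurd h hj2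
          subst h3
          rcases hs with ⟨rfl, rfl⟩ | ⟨rfl, rfl⟩
          · exact ⟨f1 _, (f6 _).symm⟩
          · exact ⟨(f6 _).symm, f1 _⟩
        · have h3 : j' = j + 1 := by
            rcases f5 j j' with h | h | h
            · exact absurd h hne
            · exact h
            · exact absurd h hj2
          subst h3
          rw [f4] at hs
          rcases hs with ⟨rfl, rfl⟩ | ⟨rfl, rfl⟩
          · exact ⟨f6 _, f2 _⟩
          · exact ⟨f2 _, f6 _⟩
      rw [if_neg hn.1, if_neg hn.2, zz_eq h0]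
  · have h1 := H.sec_eq f hf k hm
    have h2 : indU Q ω F (e (i + 2)) (Q.c f k) (Q.c f (k + 1)) = 0 := by
      unfold indU
      exact if_neg fun h => hm ⟨_, h⟩
    rw [h1, zz_eq (h0.trans h2)]

theorem g_face (H : IsSec Q ω F e (fun j => j) (fun j => j + 2) sec kap) (hf : f ∈ F)
    {Y : ZMod 4 → ZMod 2}
    (hY : ∀ k, Y k + Y (k + 1) = indU Q ω F (e (i + 2)) (Q.c f k) (Q.c f (k + 1)))
    {j t : Fin 3} (hjt : (j = i + 1 ∧ t = i + 1) ∨ (j = i ∧ t = i + 2))
    (hv : f ∉ Vis Q ω F (e j)) (k k' : ZMod 4) :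
    Y k + (if sec (Q.c f k) = t then 1 else 0) =
      Y k' + (if sec (Q.c f k') = t then 1 else 0) := by
  have h0 := g_step H hf hY hjt hv k
  have h1 := g_step H hf hY hjt hv (k + 1)
  have h2 := g_step H hf hY hjt hv (k + 2)
  rw [z1] at h1
  rw [z7] at h2
  rcases z4_cases k' k with rfl | rfl | rfl | rfl
  · rfl
  · exact h0
  · exact h0.trans h1
  · exact (h0.trans h1).trans h2

/-- A face without corners in the sector `i` is not visited by the legs `i` and `i + 1`. -/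
theorem fresh_of_ne (H : IsSec Q ω F e (fun j => j) (fun j => j + 2) sec kap)
    (h : ∀ k, sec (Q.c f k) ≠ i) : f ∉ Vis Q ω F (e i) ∧ f ∉ Vis Q ω F (e (i + 1)) := by
  constructor
  · rintro ⟨-, k, hk⟩
    exact h k (H.left _ _ hk).1
  · rintro ⟨-, k, hk⟩
    refine h (k + 1) ?_
    have h1 : sec (Q.c f (k + 1)) = i + 1 + 2 := (H.right _ _ hk).1
    rwa [f4] at h1

/-- The faces through which the sector `i` is left. -/
theorem type_s (H : IsSec Q ω F e (fun j => j) (fun j => j + 2) sec kap) (hf : f ∈ F)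
    {s : ZMod 4} (hs : sec (Q.c f s) = i) (h1 : sec (Q.c f (s + 1)) ≠ i)
    (h2 : sec (Q.c f (s + 2)) ≠ i) (h3 : sec (Q.c f (s + 3)) ≠ i) (hb : ω f = ev (s + 1)) :
    (f ∈ VR Q ω F (e i) ∧ f ∉ Vis Q ω F (e (i + 1))) ∨
      (f ∈ Vis Q ω F (e (i + 1)) ∧ f ∉ Vis Q ω F (e i)) := by
  have hs3 : sec (Q.c f (s + 1)) = sec (Q.c f (s + 3)) := by
    have := (H.bond_eq hf hb).1
    rwa [z2] at this
  have hu : ∀ k, sec (Q.c f k) = i → k = s := by
    intro k hk
    rcases z4_cases k s with rfl | rfl | rfl | rfl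
    · rfl
    · exact absurd hk h1
    · exact absurd hk h2
    · exact absurd hk h3
  have hm : (Q.c f s, Q.c f (s + 1)) ∈ MU Q ω F e := by
    by_contra hm
    have := H.sec_eq f hf s hm
    exact h1 (this.symm.trans hs)
  obtain ⟨j, hj⟩ := hm
  rcases hj with hj | hj
  · have a1 : sec (Q.c f s) = j := (H.left _ _ hj).1
    have a2 : sec (Q.c f (s + 1)) = j + 2 := (H.right _ _ hj).1
    have a3 : j = i := a1.symm.trans hs
    subst a3
    refine Or.inl ⟨⟨hf, s, hj, by rw [hb, ev_add_one]⟩, ?_⟩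
    rintro ⟨-, k, hk⟩
    have b1 : sec (Q.c f k) = j + 1 := (H.left _ _ hk).1
    have b2 : sec (Q.c f (k + 1)) = j + 1 + 2 := (H.right _ _ hk).1
    rw [f4] at b2
    have b3 : k = s + 3 := by
      have := hu _ b2
      rw [← this]
      clear * -
      revert k
      decide
    rw [b3, ← hs3, a2] at b1
    exact f6 j b1.symm
  · have a1 : sec (Q.c f (s + 1)) = j := (H.left _ _ hj).1
    have a2 : sec (Q.c f s) = j + 2 := (H.right _ _ hj).1
    have a3 : j = i + 1 := f7 (a2.symm.trans hs)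
    subst a3
    refine Or.inr ⟨vis_of_un (H.ini _) hf (k := s) (Or.inr hj), ?_⟩
    rintro ⟨-, k, hk⟩
    have b1 : sec (Q.c f k) = i := (H.left _ _ hk).1
    have b2 : sec (Q.c f (k + 1)) = i + 2 := (H.right _ _ hk).1
    rw [hu k b1, a1] at b2
    exact f6 i b2

theorem type_f (H : IsSec Q ω F e (fun j => j) (fun j => j + 2) sec kap) (hf : f ∈ F)
    (h0 : sec (Q.c f k) ≠ i) (h1 : sec (Q.c f (k + 1)) ≠ i) (hc : ∃ a, sec (Q.c f a) = i) :
    (f ∈ VR Q ω F (e i) ∧ f ∉ Vis Q ω F (e (i + 1))) ∨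
      (f ∈ Vis Q ω F (e (i + 1)) ∧ f ∉ Vis Q ω F (e i)) := by
  obtain ⟨a, ha⟩ := hc
  rcases Bool.eq_or_eq_not (ω f) (ev k) with hw | hw
  · -- the bond joins `k` and `k + 2`
    have h2 : sec (Q.c f (k + 2)) ≠ i := by
      rw [← (H.bond_eq hf hw).1]; exact h0
    have h3 : a = k + 3 := by
      rcases z4_cases a k with rfl | rfl | rfl | rfl
      · exact absurd ha h0
      · exact absurd ha h1
      · exact absurd ha h2
      · rfl
    subst h3
    refine type_s H hf ha ?_ ?_ ?_ ?_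
    · rw [z5]; exact h0
    · rw [z6]; exact h1
    · have : k + 3 + 3 = k + 2 := by clear * -; revert k; decide
      rw [this]; exact h2
    · rw [z5]; exact hw
  · have hw' : ω f = ev (k + 1) := by rw [ev_add_one, hw]
    have h3 : sec (Q.c f (k + 3)) ≠ i := by
      have := (H.bond_eq hf hw').1
      rw [z2] at this
      rw [← this]; exact h1
    have h3 : a = k + 2 := by
      rcases z4_cases a k with rfl | rfl | rfl | rfl
      · exact absurd ha h0
      · exact absurd ha h1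
      · rfl
      · exact absurd ha h3
    subst h3
    refine type_s H hf ha ?_ ?_ ?_ ?_
    · rw [z7]; assumption
    · rw [z4]; exact h0
    · have : k + 2 + 3 = k + 1 := by clear * -; revert k; decide
      rw [this]; exact h1
    · rw [z7, hw', ← ev_add_two (k + 1), z2]

/-! ### The walk -/

/-- The state after the sector `i` has been left through `VR` of the leg `i`. -/
def SR (Q : QC V Φ) (ω : Φ → Bool) (F A : Set Φ) (e : Fin 3 → V × V) (sec : V → Fin 3)
    (i : Fin 3) (y : ZMod 2) (n : ℕ) (f : Φ) (Y : ZMod 4 → ZMod 2) : Prop :=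
  (f ∈ VR Q ω F (e i) ∩ A ∨ f ∈ Zn Q A (Vis Q ω F (e i)) (VR Q ω F (e i) ∩ A) n) ∧
    f ∉ Vis Q ω F (e (i + 1)) ∧ ∀ k, Y k + (if sec (Q.c f k) = i + 1 then 1 else 0) = y

/-- The state after the sector `i` has been left through the leg `i + 1`. -/
def SL (Q : QC V Φ) (ω : Φ → Bool) (F A : Set Φ) (e : Fin 3 → V × V) (sec : V → Fin 3)
    (i : Fin 3) (y : ZMod 2) (n : ℕ) (f : Φ) (Y : ZMod 4 → ZMod 2) : Prop :=
  (∀ g m, AdjQ Q f g → (g ∈ VR Q ω F (e i) ∩ A ∨
      g ∈ Zn Q A (Vis Q ω F (e i)) (VR Q ω F (e i) ∩ A) m) →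
    ∃ f₀ ∈ Vis Q ω F (e (i + 1)),
      f₀ ∈ Zn Q A (Vis Q ω F (e i)) (VR Q ω F (e i) ∩ A) (m + n + 1)) ∧
    f ∉ Vis Q ω F (e i) ∧ ∀ k, Y k + (if sec (Q.c f k) = i + 2 then 1 else 0) = y

/-- The invariant of the walk. -/
def Inv (Q : QC V Φ) (ω : Φ → Bool) (F A : Set Φ) (e : Fin 3 → V × V) (sec : V → Fin 3)
    (i : Fin 3) (y : ZMod 2) (n : ℕ) (f : Φ) (Y : ZMod 4 → ZMod 2) : Prop :=
  (∃ a, sec (Q.c f a) = i ∧ Y a = y) ∨ ((∀ k, sec (Q.c f k) ≠ i) ∧
    (SR Q ω F A e sec i y n f Y ∨ SL Q ω F A e sec i y n f Y))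

theorem inv_step (H : IsSec Q ω F e (fun j => j) (fun j => j + 2) sec kap) (hAF : A ⊆ F) {r : ℕ}
    (hN : ∀ f ∈ Vis Q ω F (e (i + 1)),
      f ∉ Zn Q A (Vis Q ω F (e i)) (VR Q ω F (e i) ∩ A) r) (hf : f ∈ A) (hg : g ∈ A)
    {Y Y' : ZMod 4 → ZMod 2}
    (hY : ∀ k, Y k + Y (k + 1) = indU Q ω F (e (i + 2)) (Q.c f k) (Q.c f (k + 1)))
    (hY' : ∀ k, Y' k + Y' (k + 1) = indU Q ω F (e (i + 2)) (Q.c g k) (Q.c g (k + 1)))
    {k l : ZMod 4} (h1 : Q.c g l = Q.c f (k + 1)) (h2 : Q.c g (l + 1) = Q.c f k)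
    (h3 : Y' l = Y (k + 1)) (h4 : Y' (l + 1) = Y k) {y : ZMod 2} {n : ℕ} (hn : n + 1 ≤ r)
    (hI : Inv Q ω F A e sec i y n f Y) : Inv Q ω F A e sec i y (n + 1) g Y' := by
  have hadj : AdjQ Q f g := ⟨k, l, h1, h2⟩
  have hN' : ∀ f ∈ Vis Q ω F (e (i + 1)), ∀ m ≤ r,
      f ∉ Zn Q A (Vis Q ω F (e i)) (VR Q ω F (e i) ∩ A) m := fun f hf m hm h =>
    hN f hf (zn_mono hm h)
  -- the common side has an end in the sector `i`
  have hside : ∀ a, sec (Q.c f a) = i → Y a = y → (sec (Q.c f k) = i ∨ sec (Q.c f (k + 1)) = i) →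
      Inv Q ω F A e sec i y (n + 1) g Y' := by
    intro a ha hay h
    rcases h with h | h
    · exact Or.inl ⟨l + 1, by rw [h2]; exact h, by rw [h4, ← val_eq H hY ha h, hay]⟩
    · exact Or.inl ⟨l, by rw [h1]; exact h, by rw [h3, ← val_eq H hY ha h, hay]⟩
  -- the sector `i` has been left
  have hleft : (SR Q ω F A e sec i y n f Y ∨ SL Q ω F A e sec i y n f Y) →
      sec (Q.c f k) ≠ i → sec (Q.c f (k + 1)) ≠ i → Inv Q ω F A e sec i y (n + 1) g Y' := by
    intro hS hk hk1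
    have hgR : g ∉ Vis Q ω F (e (i + 1)) →
        (∀ k, Y k + (if sec (Q.c f k) = i + 1 then 1 else 0) = y) →
        ∀ k, Y' k + (if sec (Q.c g k) = i + 1 then 1 else 0) = y := by
      intro hv hc b
      rw [g_face H (hAF hg) hY' (Or.inl ⟨rfl, rfl⟩) hv b l, h3, h1]
      exact hc _
    have hgL : g ∉ Vis Q ω F (e i) →
        (∀ k, Y k + (if sec (Q.c f k) = i + 2 then 1 else 0) = y) →
        ∀ k, Y' k + (if sec (Q.c g k) = i + 2 then 1 else 0) = y := by
      intro hv hc b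
      rw [g_face H (hAF hg) hY' (Or.inr ⟨rfl, rfl⟩) hv b l, h3, h1]
      exact hc _
    by_cases hc : ∃ a, sec (Q.c g a) = i
    · obtain ⟨a, ha⟩ := hc
      have ht := type_f H (hAF hg) (k := l) (by rw [h1]; exact hk1) (by rw [h2]; exact hk)
        ⟨a, ha⟩
      rcases hS with ⟨s1, s2, s3⟩ | ⟨s1, s2, s3⟩
      · rcases ht with ⟨t1, t2⟩ | ⟨t1, t2⟩
        · refine Or.inl ⟨a, ha, ?_⟩
          have := hgR t2 s3 a
          rwa [ha, if_neg (f1 i), add_zero] at this
        · exact absurd (show g ∈ Zn Q A (Vis Q ω F (e i)) (VR Q ω F (e i) ∩ A) (n + 1) from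
            ⟨hg, t2, f, adjQ_symm hadj, s1⟩) (hN' g t1 _ hn)
      · rcases ht with ⟨t1, t2⟩ | ⟨t1, t2⟩
        · obtain ⟨f₀, u1, u2⟩ := s1 g 0 hadj (Or.inl ⟨t1, hg⟩)
          exact absurd u2 (hN' f₀ u1 _ (by omega))
        · refine Or.inl ⟨a, ha, ?_⟩
          have := hgL t2 s3 a
          rwa [ha, if_neg (f2 i), add_zero] at this
    · push Not at hc
      obtain ⟨v1, v2⟩ := fresh_of_ne H hc
      refine Or.inr ⟨hc, ?_⟩
      rcases hS with ⟨s1, s2, s3⟩ | ⟨s1, s2, s3⟩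
      · exact Or.inl ⟨Or.inr ⟨hg, v1, f, adjQ_symm hadj, s1⟩, v2, hgR v2 s3⟩
      · refine Or.inr ⟨?_, v1, hgL v1 s3⟩
        intro g' m ha' hz
        obtain ⟨f₀, u1, u2⟩ := s1 g (m + 1) hadj (Or.inr ⟨hg, v1, g', ha', hz⟩)
        exact ⟨f₀, u1, zn_mono (by omega) u2⟩
  rcases hI with ⟨a, ha, hay⟩ | ⟨hne, hS⟩
  · by_cases hk : sec (Q.c f k) = i
    · exact hside a ha hay (Or.inl hk)
    · by_cases hk1 : sec (Q.c f (k + 1)) = i
      · exact hside a ha hay (Or.inr hk1)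
      · refine hleft ?_ hk hk1
        rcases type_f H (hAF hf) hk hk1 ⟨a, ha⟩ with ⟨t1, t2⟩ | ⟨t1, t2⟩
        · refine Or.inl ⟨Or.inl ⟨t1, hf⟩, t2, fun b => ?_⟩
          rw [g_face H (hAF hf) hY (Or.inl ⟨rfl, rfl⟩) t2 b a, ha, if_neg (f1 i), add_zero, hay]
        · refine Or.inr ⟨?_, t2, fun b => ?_⟩
          · intro g' m ha' hz
            exact ⟨f, t1, zn_mono (show m + 1 ≤ m + n + 1 by omega) ⟨hf, t2, g', ha', hz⟩⟩
          · rw [g_face H (hAF hf) hY (Or.inr ⟨rfl, rfl⟩) t2 b a, ha, if_neg (f2 i), add_zero,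
              hay]
  · exact hleft hS (hne _) (hne _)

end general

/-! ### The walk in the twisted plane -/

theorem cut_zero {a b c d : ℤ} (h1 : ¬ (b = 0 ∧ d = 0 ∧ ((a = -2 ∧ c = -1) ∨ (c = -2 ∧ a = -1))))
    (h2 : ¬ (a = c ∧ a ≤ -2 ∧ ((b = 0 ∧ d = 1) ∨ (d = 0 ∧ b = 1)))) : cutK (a, b) (c, d) = 0 := by
  unfold cutK
  rw [if_neg]
  rintro (⟨h3, h4⟩ | ⟨h3, h4⟩ | h3)
  · rw [Prod.mk.injEq] at h3 h4
    exact h1 ⟨h3.2, h4.2, Or.inl ⟨h3.1, h4.1⟩⟩
  · rw [Prod.mk.injEq] at h3 h4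
    exact h1 ⟨h4.2, h3.2, Or.inr ⟨h3.1, h4.1⟩⟩
  · exact h2 h3

theorem cut_one {a b c d : ℤ} (h2 : a = c ∧ a ≤ -2 ∧ ((b = 0 ∧ d = 1) ∨ (d = 0 ∧ b = 1))) :
    cutK (a, b) (c, d) = 1 := by
  unfold cutK
  rw [if_pos (Or.inr (Or.inr h2))]

/-- The correction at the vertices of the cut. -/
def cb (f : ℤ × ℤ) (k : ZMod 4) : ZMod 2 :=
  if 0 ≤ f.2 ∧ (TQ.c f k).2 = 0 ∧ (TQ.c f k).1 ≤ -2 then 1 else 0

theorem cb_add (f : ℤ × ℤ) (k : ZMod 4) :
    cb f k + cb f (k + 1) = cutK (TQ.c f k) (TQ.c f (k + 1)) := by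
  obtain ⟨x, y⟩ := f
  have hc : ∀ k, TQ.c (x, y) k = corT emP (x, y) k := fun _ => rfl
  unfold cb
  simp only [hc]
  obtain ⟨c0, c1, c2, c3⟩ := corT_eq emP x y
  rcases lt_or_ge y 0 with hy | hy
  · rw [if_neg (fun h => absurd h.1 (by omega)), if_neg (fun h => absurd h.1 (by omega)), add_zero]
    symm
    by_cases hy1 : y = -1
    · obtain ⟨c4, c5⟩ := c3 hy1
      have e1 : emP x = x ∧ 0 ≤ x ∨ emP x = x - 1 ∧ x < 0 := by
        unfold emP; split_ifs with h <;> omega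
      have e2 : emP (x + 1) = x + 1 ∧ 0 ≤ x + 1 ∨ emP (x + 1) = x ∧ x + 1 < 0 := by
        unfold emP; split_ifs with h <;> omega
      generalize emP x = u at e1 c5
      generalize emP (x + 1) = v at e2 c4
      rcases k4_cases k with rfl | rfl | rfl | rfl
      · rw [k01, c0, c1]; exact cut_zero (by omega) (by omega)
      · rw [k11, c1, c4]; exact cut_zero (by omega) (by omega)
      · rw [k21, c4, c5]; exact cut_zero (by omega) (by omega)
      · rw [k31, c5, c0]; exact cut_zero (by omega) (by omega)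
    · obtain ⟨c4, c5⟩ := c2 hy1
      rcases k4_cases k with rfl | rfl | rfl | rfl
      · rw [k01, c0, c1]; exact cut_zero (by omega) (by omega)
      · rw [k11, c1, c4]; exact cut_zero (by omega) (by omega)
      · rw [k21, c4, c5]; exact cut_zero (by omega) (by omega)
      · rw [k31, c5, c0]; exact cut_zero (by omega) (by omega)
  · obtain ⟨c4, c5⟩ := c2 (by omega)
    have t0 : (0 : ZMod 2) + 0 = 0 := by decide
    have t1 : (1 : ZMod 2) + 1 = 0 := by decide
    have t2 : (1 : ZMod 2) + 0 = 1 := by decide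
    have t3 : (0 : ZMod 2) + 1 = 1 := by decide
    by_cases hy0 : y = 0
    · subst hy0
      rcases k4_cases k with rfl | rfl | rfl | rfl
      · rw [k01, c0, c1]
        rcases lt_trichotomy x (-2) with hx | hx | hx
        · rw [if_pos ⟨by omega, by omega, by omega⟩, if_pos ⟨by omega, by omega, by omega⟩,
            cut_zero (by omega) (by omega), t1]
        · subst hx; decide
        · rw [if_neg (fun h => absurd h.2.2 (by omega)), if_neg (fun h => absurd h.2.2 (by omega)),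
            cut_zero (by omega) (by omega), t0]
      · rw [k11, c1, c4]
        rw [if_neg (c := _ ∧ ((x + 1, (0 : ℤ) + 1) : ℤ × ℤ).2 = 0 ∧ _)
          (fun h => absurd h.2.1 (by dsimp only; omega))]
        rcases lt_or_ge (-2) (x + 1) with hx | hx
        · rw [if_neg (fun h => absurd h.2.2 (by dsimp only; omega)),
            cut_zero (by omega) (by omega), t0]
        · rw [if_pos ⟨by omega, by omega, hx⟩, cut_one (by omega), t2]
      · rw [k21, c4, c5]
        rw [if_neg (fun h => absurd h.2.1 (by dsimp only; omega)),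
          if_neg (fun h => absurd h.2.1 (by dsimp only; omega)),
          cut_zero (by omega) (by omega), t0]
      · rw [k31, c5, c0]
        rw [if_neg (c := _ ∧ ((x, (0 : ℤ) + 1) : ℤ × ℤ).2 = 0 ∧ _)
          (fun h => absurd h.2.1 (by dsimp only; omega))]
        rcases lt_or_ge (-2) x with hx | hx
        · rw [if_neg (fun h => absurd h.2.2 (by dsimp only; omega)),
            cut_zero (by omega) (by omega), t0]
        · rw [if_pos ⟨by omega, by omega, hx⟩, cut_one (by omega), t3]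
    · rcases k4_cases k with rfl | rfl | rfl | rfl
      · rw [k01, c0, c1, if_neg (fun h => absurd h.2.1 (by dsimp only; omega)),
          if_neg (fun h => absurd h.2.1 (by dsimp only; omega)),
          cut_zero (by omega) (by omega), t0]
      · rw [k11, c1, c4, if_neg (fun h => absurd h.2.1 (by dsimp only; omega)),
          if_neg (fun h => absurd h.2.1 (by dsimp only; omega)),
          cut_zero (by omega) (by omega), t0]
      · rw [k21, c4, c5, if_neg (fun h => absurd h.2.1 (by dsimp only; omega)),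
          if_neg (fun h => absurd h.2.1 (by dsimp only; omega)),
          cut_zero (by omega) (by omega), t0]
      · rw [k31, c5, c0, if_neg (fun h => absurd h.2.1 (by dsimp only; omega)),
          if_neg (fun h => absurd h.2.1 (by dsimp only; omega)),
          cut_zero (by omega) (by omega), t0]

/-- One step of the walk. -/
def St (f g : ℤ × ℤ) (u : ZMod 2) : Prop :=
  ∃ k l, TQ.c g l = TQ.c f (k + 1) ∧ TQ.c g (l + 1) = TQ.c f k ∧
    cb g l = cb f (k + 1) + u ∧ cb g (l + 1) = cb f k + u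

theorem z2a {a b u : ZMod 2} (h : a = b + u) : b = a + u := by revert a b u; decide

theorem St.symm {f g : ℤ × ℤ} {u : ZMod 2} (h : St f g u) : St g f u := by
  obtain ⟨k, l, h1, h2, h3, h4⟩ := h
  exact ⟨l, k, h2.symm, h1.symm, z2a h4, z2a h3⟩

theorem st_of {f g : ℤ × ℤ} {k l : ZMod 4} (hfg : 0 ≤ f.2 ↔ 0 ≤ g.2)
    (h1 : TQ.c g l = TQ.c f (k + 1)) (h2 : TQ.c g (l + 1) = TQ.c f k) : St f g 0 := by
  refine ⟨k, l, h1, h2, ?_, ?_⟩
  · unfold cb
    rw [add_zero, h1]
    exact if_congr (and_congr hfg.symm Iff.rfl) rfl rfl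
  · unfold cb
    rw [add_zero, h2]
    exact if_congr (and_congr hfg.symm Iff.rfl) rfl rfl

theorem st_h (x y : ℤ) : St (x, y) (x + 1, y) 0 := by
  refine st_of (k := 1) (l := 3) Iff.rfl ?_ ?_
  · change corT emP (x + 1, y) 3 = corT emP (x, y) (1 + 1)
    obtain ⟨-, -, c2, c3⟩ := corT_eq emP x y
    obtain ⟨-, -, b2, b3⟩ := corT_eq emP (x + 1) y
    rw [k11]
    by_cases hy : y = -1
    · rw [(c3 hy).1, (b3 hy).2]
    · rw [(c2 hy).1, (b2 hy).2]
  · change corT emP (x + 1, y) (3 + 1) = corT emP (x, y) 1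
    obtain ⟨-, c1, -, -⟩ := corT_eq emP x y
    obtain ⟨b0, -, -, -⟩ := corT_eq emP (x + 1) y
    rw [k31, c1, b0]

theorem st_v {x y : ℤ} (hy : y ≠ -1) : St (x, y) (x, y + 1) 0 := by
  refine st_of (k := 2) (l := 0) (by dsimp only; omega) ?_ ?_
  · change corT emP (x, y + 1) 0 = corT emP (x, y) (2 + 1)
    obtain ⟨-, -, c2, -⟩ := corT_eq emP x y
    obtain ⟨b0, -, -, -⟩ := corT_eq emP x (y + 1)
    rw [k21, (c2 hy).2, b0]
  · change corT emP (x, y + 1) (0 + 1) = corT emP (x, y) 2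
    obtain ⟨-, -, c2, -⟩ := corT_eq emP x y
    obtain ⟨-, b1, -, -⟩ := corT_eq emP x (y + 1)
    rw [k01, (c2 hy).1, b1]

theorem st_r {x : ℤ} (hx : 0 ≤ x) : St (x, -1) (x, 0) 0 := by
  have e1 : emP x = x := by unfold emP; rw [if_pos hx]
  have e2 : emP (x + 1) = x + 1 := by unfold emP; rw [if_pos (by omega)]
  obtain ⟨-, -, -, c3⟩ := corT_eq emP x (-1)
  obtain ⟨b0, b1, -, -⟩ := corT_eq emP x 0
  obtain ⟨c4, c5⟩ := c3 rfl
  rw [e2] at c4
  rw [e1] at c5
  have b0' : TQ.c (x, 0) 0 = (x, 0) := b0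
  have b1' : TQ.c (x, 0) 1 = (x + 1, 0) := b1
  have c4' : TQ.c (x, -1) 2 = (x + 1, 0) := c4
  have c5' : TQ.c (x, -1) 3 = (x, 0) := c5
  have hlow : ∀ k, cb (x, -1) k = 0 := fun k => if_neg fun h => absurd h.1 (by dsimp only; omega)
  refine ⟨2, 0, ?_, ?_, ?_, ?_⟩
  · rw [k21, b0', c5']
  · rw [k01, b1', c4']
  · rw [hlow, add_zero]
    unfold cb
    rw [b0', if_neg fun h => absurd h.2.2 (by dsimp only; omega)]
  · rw [hlow, add_zero, k01]
    unfold cb
    rw [b1', if_neg fun h => absurd h.2.2 (by dsimp only; omega)]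

theorem st_l {x : ℤ} (hx : x ≤ -3) : St (x + 1, -1) (x, 0) 1 := by
  have e1 : emP (x + 1) = x := by unfold emP; rw [if_neg (by omega)]; omega
  have e2 : emP (x + 1 + 1) = x + 1 := by unfold emP; rw [if_neg (by omega)]; omega
  obtain ⟨-, -, -, c3⟩ := corT_eq emP (x + 1) (-1)
  obtain ⟨b0, b1, -, -⟩ := corT_eq emP x 0
  obtain ⟨c4, c5⟩ := c3 rfl
  rw [e2] at c4
  rw [e1] at c5
  have b0' : TQ.c (x, 0) 0 = (x, 0) := b0
  have b1' : TQ.c (x, 0) 1 = (x + 1, 0) := b1
  have c4' : TQ.c (x + 1, -1) 2 = (x + 1, 0) := c4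
  have c5' : TQ.c (x + 1, -1) 3 = (x, 0) := c5
  have hlow : ∀ k, cb (x + 1, -1) k = 0 := fun k =>
    if_neg fun h => absurd h.1 (by dsimp only; omega)
  refine ⟨2, 0, ?_, ?_, ?_, ?_⟩
  · rw [k21, b0', c5']
  · rw [k01, b1', c4']
  · rw [hlow, zero_add]
    unfold cb
    rw [b0', if_pos ⟨by omega, by omega, by omega⟩]
  · rw [hlow, k01, zero_add]
    unfold cb
    rw [b1', if_pos ⟨by omega, by omega, by omega⟩]

/-- Walks of `n` steps in the annulus with the total flip `v`. -/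
inductive Wk (d w : ℤ) : ℕ → ℤ × ℤ → ℤ × ℤ → ZMod 2 → Prop
  | refl {f : ℤ × ℤ} (h : f ∈ An d w) : Wk d w 0 f f 0
  | step {n : ℕ} {f g h : ℤ × ℤ} {v u : ZMod 2} (h1 : Wk d w n f g v) (h2 : h ∈ An d w)
      (h3 : St g h u) : Wk d w (n + 1) f h (v + u)

variable {d w : ℤ}

theorem Wk.left_mem {n : ℕ} {f g : ℤ × ℤ} {v : ZMod 2} (h : Wk d w n f g v) : f ∈ An d w := by
  induction h with
  | refl h => exact h
  | step _ _ _ ih => exact ih

theorem Wk.right_mem {n : ℕ} {f g : ℤ × ℤ} {v : ZMod 2} (h : Wk d w n f g v) : g ∈ An d w := by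
  cases h with
  | refl h => exact h
  | step _ h _ => exact h

theorem Wk.trans {n m : ℕ} {f g h : ℤ × ℤ} {v u : ZMod 2} (h1 : Wk d w n f g v)
    (h2 : Wk d w m g h u) : Wk d w (n + m) f h (v + u) := by
  induction h2 with
  | refl _ => rw [add_zero, add_zero]; exact h1
  | step _ h4 h5 ih =>
    rw [← add_assoc, ← add_assoc]
    exact Wk.step (ih h1) h4 h5

theorem Wk.symm {n : ℕ} {f g : ℤ × ℤ} {v : ZMod 2} (h : Wk d w n f g v) : Wk d w n g f v := by
  induction h with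
  | refl h => exact Wk.refl h
  | step h1 h2 h3 ih =>
    rename_i n f g h v u
    have h4 : Wk d w 1 h g (0 + u) := Wk.step (Wk.refl h2) h1.right_mem h3.symm
    have h5 := h4.trans ih
    rw [zero_add, add_comm 1 n, add_comm u v] at h5
    exact h5

theorem wk_h (x y : ℤ) (n : ℕ) (h : ∀ t, x ≤ t → t ≤ x + n → (t, y) ∈ An d w) :
    Wk d w n (x, y) (x + n, y) 0 := by
  induction n with
  | zero =>
    have := Wk.refl (h x le_rfl (by push_cast; omega))
    rw [show x + ((0 : ℕ) : ℤ) = x by push_cast; omega]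
    exact this
  | succ n ih =>
    have h1 := ih fun t h1 h2 => h t h1 (by push_cast; omega)
    have h2 := Wk.step h1 (h (x + n + 1) (by omega) (by push_cast; omega)) (st_h (x + n) y)
    rw [add_zero] at h2
    rw [show x + ((n + 1 : ℕ) : ℤ) = x + n + 1 by push_cast; omega]
    exact h2

theorem wk_v (x y : ℤ) (n : ℕ) (hy : 0 ≤ y ∨ y + n < 0)
    (h : ∀ t, y ≤ t → t ≤ y + n → (x, t) ∈ An d w) : Wk d w n (x, y) (x, y + n) 0 := by
  induction n with
  | zero =>
    have := Wk.refl (h y le_rfl (by push_cast; omega))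
    rw [show y + ((0 : ℕ) : ℤ) = y by push_cast; omega]
    exact this
  | succ n ih =>
    have h1 := ih (by push_cast at hy; omega) fun t h1 h2 => h t h1 (by push_cast; omega)
    have h2 := Wk.step h1 (h (y + n + 1) (by omega) (by push_cast; omega))
      (st_v (x := x) (y := y + n) (by push_cast at hy; omega))
    rw [add_zero] at h2
    rw [show y + ((n + 1 : ℕ) : ℤ) = y + n + 1 by push_cast; omega]
    exact h2

/-- A horizontal walk in either direction. -/
theorem wk_h' {x x' y : ℤ} (h : ∀ t, (x ≤ t ∨ x' ≤ t) → (t ≤ x ∨ t ≤ x') → (t, y) ∈ An d w) :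
    Wk d w (x' - x).natAbs (x, y) (x', y) 0 := by
  rcases le_total x x' with hx | hx
  · have h1 := wk_h x y (x' - x).natAbs fun t h1 h2 => h t (Or.inl h1) (Or.inr (by omega))
    rwa [show x + ((x' - x).natAbs : ℤ) = x' by omega] at h1
  · have h1 := wk_h x' y (x' - x).natAbs fun t h1 h2 => h t (Or.inr h1) (Or.inl (by omega))
    rw [show x' + ((x' - x).natAbs : ℤ) = x by omega] at h1
    exact h1.symm

theorem mem_An {f : ℤ × ℤ} : f ∈ An d w ↔
    ((-(w + 2) ≤ f.1 ∧ f.1 < w ∧ 0 ≤ f.2 ∧ f.2 < w) ∨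
      (-(w + 1) ≤ f.1 ∧ f.1 < w ∧ -w ≤ f.2 ∧ f.2 < 0)) ∧
    ¬ ((-(d + 2) ≤ f.1 ∧ f.1 < d ∧ 0 ≤ f.2 ∧ f.2 < d) ∨
      (-(d + 1) ≤ f.1 ∧ f.1 < d ∧ -d ≤ f.2 ∧ f.2 < 0)) := by
  rw [← BdAux.mem_BW, ← BdAux.mem_BW]
  rfl

/-- Two upper faces. -/
theorem wk_uu {D x y x' y' : ℤ} (hd : D + 2 < d) (hs : (x, y) ∈ An d w) (hs' : (x', y') ∈ An d w)
    (h1 : |x - x'| ≤ D) (h2 : |y - y'| ≤ D) (hy : 0 ≤ y) (hyy : y ≤ y') :
    ∃ n : ℕ, (n : ℤ) ≤ 2 * D + 1 ∧ Wk d w n (x, y) (x', y') 0 := by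
  rw [abs_le] at h1 h2
  have hs1 := mem_An.1 hs
  have hs2 := mem_An.1 hs'
  dsimp only at hs1 hs2
  have a1 : Wk d w (y' - y).natAbs (x, y) (x, y + ((y' - y).natAbs : ℕ)) 0 := by
    refine wk_v x y _ (Or.inl hy) fun t h3 h4 => ?_
    rw [mem_An]
    dsimp only
    omega
  rw [show y + ((y' - y).natAbs : ℤ) = y' by omega] at a1
  have a2 : Wk d w (x' - x).natAbs (x, y') (x', y') 0 := by
    refine wk_h' fun t h3 h4 => ?_
    rw [mem_An]
    dsimp only
    omega
  refine ⟨_, ?_, by simpa using a1.trans a2⟩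
  omega

/-- Two lower faces. -/
theorem wk_ll {D x y x' y' : ℤ} (hd : D + 2 < d) (hs : (x, y) ∈ An d w) (hs' : (x', y') ∈ An d w)
    (h1 : |x - x'| ≤ D) (h2 : |y - y'| ≤ D) (hy : y < 0) (hyy : y' ≤ y) :
    ∃ n : ℕ, (n : ℤ) ≤ 2 * D + 1 ∧ Wk d w n (x, y) (x', y') 0 := by
  rw [abs_le] at h1 h2
  have hs1 := mem_An.1 hs
  have hs2 := mem_An.1 hs'
  dsimp only at hs1 hs2
  have a1 : Wk d w (y - y').natAbs (x, y') (x, y' + ((y - y').natAbs : ℕ)) 0 := by
    refine wk_v x y' _ (Or.inr (by omega)) fun t h3 h4 => ?_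
    rw [mem_An]
    dsimp only
    omega
  rw [show y' + ((y - y').natAbs : ℤ) = y by omega] at a1
  have a2 : Wk d w (x' - x).natAbs (x, y') (x', y') 0 := by
    refine wk_h' fun t h3 h4 => ?_
    rw [mem_An]
    dsimp only
    omega
  refine ⟨_, ?_, by simpa using a1.symm.trans a2⟩
  omega

/-- An upper and a lower face. -/
theorem wk_ul {D x y x' y' : ℤ} (hd : D + 2 < d) (hs : (x, y) ∈ An d w) (hs' : (x', y') ∈ An d w)
    (h1 : |x - x'| ≤ D) (h2 : |y - y'| ≤ D) (hy : 0 ≤ y) (hy' : y' < 0) :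
    ∃ n : ℕ, (n : ℤ) ≤ 2 * D + 1 ∧ (x < 0 ↔ x' < 0) ∧
      Wk d w n (x, y) (x', y') (if x < 0 then 1 else 0) := by
  rw [abs_le] at h1 h2
  have hs1 := mem_An.1 hs
  have hs2 := mem_An.1 hs'
  dsimp only at hs1 hs2
  have a1 : Wk d w y.natAbs (x, 0) (x, 0 + (y.natAbs : ℕ)) 0 := by
    refine wk_v x 0 _ (Or.inl le_rfl) fun t h3 h4 => ?_
    rw [mem_An]
    dsimp only
    omega
  rw [show (0 : ℤ) + (y.natAbs : ℤ) = y by omega] at a1
  by_cases hx : x < 0
  · rw [if_pos hx]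
    have a2 : Wk d w (-1 - y').natAbs (x + 1, y') (x + 1, y' + ((-1 - y').natAbs : ℕ)) 0 := by
      refine wk_v (x + 1) y' _ (Or.inr (by omega)) fun t h3 h4 => ?_
      rw [mem_An]
      dsimp only
      omega
    rw [show y' + ((-1 - y').natAbs : ℤ) = -1 by omega] at a2
    have a3 : Wk d w (x' - (x + 1)).natAbs (x + 1, y') (x', y') 0 := by
      refine wk_h' fun t h3 h4 => ?_
      rw [mem_An]
      dsimp only
      omega
    have a4 := Wk.step a1.symm a2.right_mem (st_l (x := x) (by omega)).symm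
    refine ⟨_, ?_, by omega, by simpa using (a4.trans a2.symm).trans a3⟩
    omega
  · rw [if_neg hx]
    have a2 : Wk d w (-1 - y').natAbs (x, y') (x, y' + ((-1 - y').natAbs : ℕ)) 0 := by
      refine wk_v x y' _ (Or.inr (by omega)) fun t h3 h4 => ?_
      rw [mem_An]
      dsimp only
      omega
    rw [show y' + ((-1 - y').natAbs : ℤ) = -1 by omega] at a2
    have a3 : Wk d w (x' - x).natAbs (x, y') (x', y') 0 := by
      refine wk_h' fun t h3 h4 => ?_
      rw [mem_An]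
      dsimp only
      omega
    have a4 := Wk.step a1.symm a2.right_mem (st_r (x := x) (by omega)).symm
    refine ⟨_, ?_, by omega, by simpa using (a4.trans a2.symm).trans a3⟩
    omega

theorem exists_wk {D : ℤ} (hd : D + 2 < d) {s s' : ℤ × ℤ} (hs : s ∈ An d w) (hs' : s' ∈ An d w)
    (h1 : |s.1 - s'.1| ≤ D) (h2 : |s.2 - s'.2| ≤ D) :
    ∃ n : ℕ, (n : ℤ) ≤ 2 * D + 1 ∧ Wk d w n s s' (lv2 s.1 s'.2 + lv2 s.1 s.2) := by
  obtain ⟨x, y⟩ := s
  obtain ⟨x', y'⟩ := s'
  dsimp only at h1 h2 ⊢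
  have h1' : |x' - x| ≤ D := by rw [abs_sub_comm]; exact h1
  have h2' : |y' - y| ≤ D := by rw [abs_sub_comm]; exact h2
  have zz : ∀ a : ZMod 2, a + a = 0 := by decide
  rcases lt_or_ge y 0 with hy | hy <;> rcases lt_or_ge y' 0 with hy' | hy'
  · have e : lv2 x y' + lv2 x y = 0 := by
      have : lv2 x y' = lv2 x y := by
        unfold lv2
        refine if_congr ?_ rfl rfl
        simp only [hy, hy', and_true]
      rw [this, zz]
    rw [e]
    rcases le_total y' y with h | h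
    · exact wk_ll hd hs hs' h1 h2 hy h
    · obtain ⟨n, hn, hw⟩ := wk_ll hd hs' hs h1' h2' hy' h
      exact ⟨n, hn, hw.symm⟩
  · obtain ⟨n, hn, hx, hw⟩ := wk_ul hd hs' hs h1' h2' hy' hy
    refine ⟨n, hn, ?_⟩
    have e : lv2 x y' + lv2 x y = if x' < 0 then 1 else 0 := by
      unfold lv2
      rw [if_neg (fun h => absurd h.2 (by omega)), zero_add]
      exact if_congr (by rw [hx]; exact and_iff_left hy) rfl rfl
    rw [e]
    exact hw.symm
  · obtain ⟨n, hn, hx, hw⟩ := wk_ul hd hs hs' h1 h2 hy hy'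
    refine ⟨n, hn, ?_⟩
    have e : lv2 x y' + lv2 x y = if x < 0 then 1 else 0 := by
      unfold lv2
      rw [if_neg (c := x < 0 ∧ y < 0) (fun h => absurd h.2 (by omega)), add_zero]
      exact if_congr (and_iff_left hy') rfl rfl
    rw [e]
    exact hw
  · have e : lv2 x y' + lv2 x y = 0 := by
      unfold lv2
      rw [if_neg (fun h => absurd h.2 (by omega)), if_neg (fun h => absurd h.2 (by omega)),
        add_zero]
    rw [e]
    rcases le_total y y' with h | h
    · exact wk_uu hd hs hs' h1 h2 hy h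
    · obtain ⟨n, hn, hw⟩ := wk_uu hd hs' hs h1' h2' hy' h
      exact ⟨n, hn, hw.symm⟩

end T3HAux

theorem exists_sepH {r : ℕ} {d w W D : ℤ} (hD : 0 ≤ D) (hd : D + 2 < d) (hdw : d < w) (hwW : w ≤ W)
    (hr : 2 * D + 1 ≤ r) {i : Fin 3} {ω : Cfg} {sec : ℤ × ℤ → Fin 3} {kap : ℤ × ℤ → ZMod 2}
    (H : IsSec TQ ω (An 0 W) leg (fun j => j) (fun j => j + 2) sec kap) {χ : ℤ × ℤ → ZMod 2}
    (hχ : PotQ TQ (An 0 W) (fun p q => indU TQ ω (An 0 W) (leg (i + 2)) p q + cutK p q) χ)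
    (hN : ω ∉ NT r d w W i) :
    ∃ h : ℤ × ℤ → ZMod 2, SepH D {f | f ∈ An d w ∧ ∃ k, sec (TQ.c f k) = i} h := by
  classical
  have hAF : An d w ⊆ An 0 W := fun f hf =>
    ⟨BW_mono hwW hf.1, fun h => hf.2 (BW_mono (by omega) h)⟩
  have hX : ∀ f ∈ An 0 W, ∀ (v : ZMod 2) k,
      (χ (TQ.c f k) + T3HAux.cb f k + v) + (χ (TQ.c f (k + 1)) + T3HAux.cb f (k + 1) + v) =
        indU TQ ω (An 0 W) (leg (i + 2)) (TQ.c f k) (TQ.c f (k + 1)) := by
    intro f hf v k
    have h1 := hχ f hf k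
    have h2 := T3HAux.cb_add f k
    dsimp only at h1
    rw [← h2] at h1
    generalize indU TQ ω (An 0 W) (leg (i + 2)) (TQ.c f k) (TQ.c f (k + 1)) = u at h1 ⊢
    generalize χ (TQ.c f k) = a at h1 ⊢
    generalize χ (TQ.c f (k + 1)) = b at h1 ⊢
    generalize T3HAux.cb f k = c at h1 ⊢
    generalize T3HAux.cb f (k + 1) = c' at h1 ⊢
    clear * - h1
    revert a b c c' u v
    decide
  have hN' : ∀ f ∈ Vis TQ ω (An 0 W) (leg (i + 1)),
      f ∉ Zn TQ (An d w) (Vis TQ ω (An 0 W) (leg i)) (VR TQ ω (An 0 W) (leg i) ∩ An d w) r :=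
    fun f h1 h2 => hN ⟨f, h1, h2⟩
  have key : ∀ (n : ℕ) (f g : ℤ × ℤ) (v : ZMod 2), T3HAux.Wk d w n f g v → n ≤ r →
      ∀ a, sec (TQ.c f a) = i →
      T3HAux.Inv TQ ω (An 0 W) (An d w) leg sec i (χ (TQ.c f a) + T3HAux.cb f a) n g
        (fun k => χ (TQ.c g k) + T3HAux.cb g k + v) := by
    intro n f g v hw
    induction hw with
    | refl h =>
      intro _ a ha
      exact Or.inl ⟨a, ha, add_zero _⟩
    | step h1 h2 h3 ih =>
      rename_i n f g h v u
      intro hn a ha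
      obtain ⟨k, l, e1, e2, e3, e4⟩ := h3
      refine T3HAux.inv_step H hAF hN' h1.right_mem h2 (hX g (hAF h1.right_mem) v)
        (hX h (hAF h2) (v + u)) e1 e2 ?_ ?_ hn (ih (by omega) a ha)
      · rw [e1, e3]
        generalize χ (TQ.c g (k + 1)) = x
        generalize T3HAux.cb g (k + 1) = y
        clear * -
        revert x y u v
        decide
      · rw [e2, e4]
        generalize χ (TQ.c g k) = x
        generalize T3HAux.cb g k = y
        clear * -
        revert x y u v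
        decide
  refine ⟨fun f => if h : ∃ k, sec (TQ.c f k) = i then
    χ (TQ.c f h.choose) + T3HAux.cb f h.choose else 0, ?_⟩
  rintro s ⟨hs, hsi⟩ s' ⟨hs', hsi'⟩ h1 h2
  obtain ⟨n, hn, hw⟩ := T3HAux.exists_wk hd hs hs' h1 h2
  dsimp only
  rw [dif_pos hsi, dif_pos hsi']
  have h3 := key n s s' _ hw (by omega) _ hsi.choose_spec
  have h4 : χ (TQ.c s' hsi'.choose) + T3HAux.cb s' hsi'.choose + (lv2 s.1 s'.2 + lv2 s.1 s.2) =
      χ (TQ.c s hsi.choose) + T3HAux.cb s hsi.choose := by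
    rcases h3 with ⟨a, ha, h5⟩ | ⟨h5, -⟩
    · rw [← h5]
      exact T3HAux.val_eq H (hX s' (hAF hs') _) hsi'.choose_spec ha
    · exact absurd hsi'.choose_spec (h5 _)
  generalize χ (TQ.c s' hsi'.choose) + T3HAux.cb s' hsi'.choose = a at h4 ⊢
  generalize χ (TQ.c s hsi.choose) + T3HAux.cb s hsi.choose = b at h4 ⊢
  generalize lv2 s.1 s'.2 = c at h4 ⊢
  generalize lv2 s.1 s.2 = c' at h4 ⊢
  clear * - h4
  revert a b c c'
  decide

end Pool.Agent.Perc.Q
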