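import Pool.Agent.Lib.MP_6bd702_perc3.T3Defs

/-!
# T3, row Lift: the strands of the twisted plane and the cover
-/

set_option autoImplicit false

namespace Pool.Agent.Perc3

open Finset Pool.Agent.Perc Pool.Agent.Perc.Q

variable {d w n : ℤ} {ω : Cfg} {N : ℤ × ℤ → ℤ}

namespace LiftAux

open Relation

theorem sd_0 (f : ℤ × ℤ) : sd f 0 = (f.1, f.2, false) := rfl
theorem sd_1 (f : ℤ × ℤ) : sd f 1 = (f.1 + 1, f.2, true) := rfl
theorem sd_2 (f : ℤ × ℤ) : sd f 2 = (f.1, f.2 + 1, false) := rfl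
theorem sd_3 (f : ℤ × ℤ) : sd f 3 = (f.1, f.2, true) := rfl

theorem isSide_iff {f : ℤ × ℤ} {a : UE} : IsSide f a ↔ ∃ k, a = sd f k := by
  constructor
  · rintro (rfl | rfl | rfl | rfl)
    · exact ⟨0, rfl⟩
    · exact ⟨3, rfl⟩
    · exact ⟨2, rfl⟩
    · exact ⟨1, rfl⟩
  · rintro ⟨k, rfl⟩
    rcases BdAux.zk k with rfl | rfl | rfl | rfl
    · exact Or.inl rfl
    · exact Or.inr (Or.inr (Or.inr rfl))
    · exact Or.inr (Or.inr (Or.inl rfl))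
    · exact Or.inr (Or.inl rfl)

theorem mt_iff {v : Bool} {f : ℤ × ℤ} {a a' : UE} : Mt (fun _ => v) f a a' ↔
    ∃ k, v = ev k ∧ ((a = sd f k ∧ a' = sd f (k + 1)) ∨ (a = sd f (k + 1) ∧ a' = sd f k)) := by
  constructor
  · rintro (⟨h0, ⟨h1, h2⟩ | ⟨h1, h2⟩ | ⟨h1, h2⟩ | ⟨h1, h2⟩⟩ |
      ⟨h0, ⟨h1, h2⟩ | ⟨h1, h2⟩ | ⟨h1, h2⟩ | ⟨h1, h2⟩⟩)
    · exact ⟨0, h0, Or.inl ⟨h1, h2⟩⟩
    · exact ⟨0, h0, Or.inr ⟨h1, h2⟩⟩
    · exact ⟨2, h0, Or.inr ⟨h1, h2⟩⟩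
    · exact ⟨2, h0, Or.inl ⟨h1, h2⟩⟩
    · exact ⟨3, h0, Or.inr ⟨h1, h2⟩⟩
    · exact ⟨3, h0, Or.inl ⟨h1, h2⟩⟩
    · exact ⟨1, h0, Or.inr ⟨h1, h2⟩⟩
    · exact ⟨1, h0, Or.inl ⟨h1, h2⟩⟩
  · rintro ⟨k, h0, h⟩
    rcases BdAux.zk k with rfl | rfl | rfl | rfl
    · refine Or.inl ⟨h0, ?_⟩
      rcases h with h | h
      · exact Or.inl h
      · exact Or.inr (Or.inl h)
    · refine Or.inr ⟨h0, ?_⟩
      rcases h with h | h
      · exact Or.inr (Or.inr (Or.inr h))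
      · exact Or.inr (Or.inr (Or.inl h))
    · refine Or.inl ⟨h0, ?_⟩
      rcases h with h | h
      · exact Or.inr (Or.inr (Or.inr h))
      · exact Or.inr (Or.inr (Or.inl h))
    · refine Or.inr ⟨h0, ?_⟩
      rcases h with h | h
      · exact Or.inr (Or.inl h)
      · exact Or.inl h

theorem pj_shF (f : ℤ × ℤ) : pj 1 (shF N f) = f := by
  unfold pj shF
  simp

theorem lcf_shF (f : ℤ × ℤ) : lcf 1 ω (shF N f) = ω f := by
  unfold lcf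
  rw [pj_shF]

theorem shF_mem {f : ℤ × ℤ} (hf : f ∈ An d w) (h : |N f| ≤ n) : shF N f ∈ LAT d w n := by
  rw [mem_LAT, pj_shF]
  exact ⟨hf, h⟩

theorem pj_mem {s : LF} (hs : s ∈ LAT d w n) : pj 1 s ∈ An d w := by
  rw [mem_LAT] at hs
  exact hs.1

/-- The unit edges determine the column. -/
theorem sd_inj {x x' y : ℤ} {k : ZMod 4} (h : sd (x, y) k = sd (x', y) k) : x = x' := by
  rcases BdAux.zk k with rfl | rfl | rfl | rfl <;>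
    · simp only [sd_0, sd_1, sd_2, sd_3, Prod.mk.injEq] at h
      omega

end LiftAux

open LiftAux

/-- Two lifted faces with a common lifted side project to neighbouring faces of the twisted plane
(or they are equal). -/
theorem adj_of_lft (hn : n + 2 ≤ d) {s s' : LF} (hs : s ∈ LAT d w n) (hs' : s' ∈ LAT d w n)
    {k k' : ZMod 4} (h : lft s (sd s.1 k) = lft s' (sd s'.1 k')) : (s = s' ∧ k = k') ∨
      (TQ.c (pj 1 s') k' = TQ.c (pj 1 s) (k + 1) ∧ TQ.c (pj 1 s') (k' + 1) = TQ.c (pj 1 s) k) := by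
  obtain ⟨⟨x, y⟩, i⟩ := s
  obtain ⟨⟨x', y'⟩, i'⟩ := s'
  rw [mem_LAT, BdAux.mem_BW, BdAux.mem_BW, abs_le] at hs hs'
  unfold pj at hs hs'
  unfold lft at h
  unfold pj
  simp only [one_mul] at hs hs' h ⊢
  have hij := (Prod.mk.inj h).2
  have hab := (Prod.mk.inj h).1
  clear h
  rcases BdAux.zk k with rfl | rfl | rfl | rfl <;> rcases BdAux.zk k' with rfl | rfl | rfl | rfl <;>
    simp only [sd_0, sd_1, sd_2, sd_3, Prod.mk.injEq, Bool.true_eq_false, Bool.false_eq_true,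
      and_false, and_true] at hab <;>
    simp only [sd_0, sd_1, sd_2, sd_3, IsCut, Bool.true_eq_false, false_and, if_false, true_and]
      at hij
  · -- 0 0
    obtain ⟨rfl, rfl⟩ := hab
    left
    refine ⟨?_, rfl⟩
    have : i = i' := by split_ifs at hij <;> omega
    rw [this]
  · -- 0 2
    obtain ⟨rfl, h2⟩ := hab
    right
    rw [BdAux.zk2, BdAux.zk0, BdAux.c_2, BdAux.c_3, BdAux.c_1, BdAux.c_0]
    simp only
    rw [← h2]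
    by_cases hc : y = 0 ∧ x ≤ -2
    · rw [if_neg (by omega), if_pos (by omega)] at hij
      rw [BdAux.gl_of (by omega) (by omega) (by omega), BdAux.gl_of_ne (by omega),
        BdAux.gl_of (by omega) (by omega) (by omega), BdAux.gl_of_ne (by omega)]
      simp only [Prod.mk.injEq, and_true]
      omega
    · rw [if_neg (by omega), if_neg (by omega)] at hij
      rw [BdAux.gl_of_ne (by omega), BdAux.gl_of_ne (by omega),
        BdAux.gl_of_ne (by omega), BdAux.gl_of_ne (by omega)]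
      simp only [Prod.mk.injEq, and_true]
      omega
  · -- 1 1
    obtain ⟨h1, rfl⟩ := hab
    left
    refine ⟨?_, rfl⟩
    have h3 : x = x' := by omega
    rw [h3, hij]
  · -- 1 3
    obtain ⟨h1, rfl⟩ := hab
    right
    rw [BdAux.zk3, BdAux.zk1, BdAux.c_2, BdAux.c_3, BdAux.c_1, BdAux.c_0]
    simp only
    rw [show x' + i' = x + i + 1 by omega]
    exact ⟨rfl, rfl⟩
  · -- 2 0
    obtain ⟨rfl, h2⟩ := hab
    right
    rw [BdAux.zk2, BdAux.zk0, BdAux.c_2, BdAux.c_3, BdAux.c_1, BdAux.c_0]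
    simp only
    rw [← h2]
    by_cases hc : y + 1 = 0 ∧ x ≤ -2
    · rw [if_pos (by omega), if_neg (by omega)] at hij
      rw [BdAux.gl_of_ne (by omega), BdAux.gl_of (by omega) (by omega) (by omega),
        BdAux.gl_of_ne (by omega), BdAux.gl_of (by omega) (by omega) (by omega)]
      simp only [Prod.mk.injEq, and_true]
      omega
    · rw [if_neg (by omega), if_neg (by omega)] at hij
      rw [BdAux.gl_of_ne (by omega), BdAux.gl_of_ne (by omega),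
        BdAux.gl_of_ne (by omega), BdAux.gl_of_ne (by omega)]
      simp only [Prod.mk.injEq, and_true]
      omega
  · -- 2 2
    obtain ⟨rfl, h2⟩ := hab
    left
    refine ⟨?_, rfl⟩
    have h3 : y = y' := by omega
    subst h3
    have : i = i' := by split_ifs at hij <;> omega
    rw [this]
  · -- 3 1
    obtain ⟨h1, rfl⟩ := hab
    right
    rw [BdAux.zk3, BdAux.zk1, BdAux.c_2, BdAux.c_3, BdAux.c_1, BdAux.c_0]
    simp only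
    rw [show x + i = x' + i' + 1 by omega]
    exact ⟨rfl, rfl⟩
  · -- 3 3
    obtain ⟨rfl, rfl⟩ := hab
    left
    exact ⟨by rw [hij], rfl⟩

namespace LiftAux

variable {f₀ : ℤ × ℤ} {k₀ : ZMod 4}

/-- The lifts of the sides of the strand are in the lifted component. -/
theorem claimA (hini : Ini TQ (An d w) (TQ.c f₀ k₀, TQ.c f₀ (k₀ + 1)))
    (hI : IsIndT (Vis TQ ω (An d w) (TQ.c f₀ k₀, TQ.c f₀ (k₀ + 1))) N)
    (hN : ∀ f ∈ Vis TQ ω (An d w) (TQ.c f₀ k₀, TQ.c f₀ (k₀ + 1)), |N f| ≤ n)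
    {a : (ℤ × ℤ) × (ℤ × ℤ)} (ha : a ∈ Orb TQ ω (An d w) (TQ.c f₀ k₀, TQ.c f₀ (k₀ + 1))) :
    ∀ g ∈ An d w, ∀ l, (a = (TQ.c g l, TQ.c g (l + 1)) ∨ a = (TQ.c g (l + 1), TQ.c g l)) →
      shS N g l ∈ ML (lcf 1 ω) (LAT d w n) {shS N f₀ k₀} := by
  induction ha with
  | refl =>
    rintro g hg l (h | h)
    · obtain ⟨rfl, rfl⟩ := TQ.inj (Prod.mk.inj h).1 (Prod.mk.inj h).2
      exact mem_ML_of_mem rfl
    · exact absurd h (hini g hg l)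
  | @tail a b hab hs ih =>
    obtain ⟨f, hf, k, rfl, hs⟩ := hs
    have hfV : f ∈ Vis TQ ω (An d w) (TQ.c f₀ k₀, TQ.c f₀ (k₀ + 1)) := ⟨hf, k, hab⟩
    have h1 := ih f hf k (Or.inl rfl)
    have hmem : shF N f ∈ (LAT d w n : Set LF) := Finset.mem_coe.2 (shF_mem hf (hN f hfV))
    have hb : b ∈ Orb TQ ω (An d w) (TQ.c f₀ k₀, TQ.c f₀ (k₀ + 1)) :=
      Orb_step hab ⟨f, hf, k, rfl, hs⟩
    -- the matched side
    have key : ∀ k', (TQ.c f (k' + 1), TQ.c f k') = b →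
        MtL (lcf 1 ω) (shF N f) (shS N f k) (shS N f k') →
        ∀ g ∈ An d w, ∀ l, (b = (TQ.c g l, TQ.c g (l + 1)) ∨ b = (TQ.c g (l + 1), TQ.c g l)) →
          shS N g l ∈ ML (lcf 1 ω) (LAT d w n) {shS N f₀ k₀} := by
      intro k' hk' hm g hg l hl
      have h2 := ML_step hmem hm h1
      rw [← hk'] at hl
      rcases hl with hl | hl
      · have hgV : g ∈ Vis TQ ω (An d w) (TQ.c f₀ k₀, TQ.c f₀ (k₀ + 1)) :=
          ⟨hg, l, by rw [← hl, hk']; exact hb⟩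
        rw [← hI f hfV g hgV k' l (Prod.mk.inj hl).1.symm (Prod.mk.inj hl).2.symm]
        exact h2
      · obtain ⟨rfl, rfl⟩ := TQ.inj (Prod.mk.inj hl).2 (Prod.mk.inj hl).1
        exact h2
    rcases hs with ⟨h2, rfl⟩ | ⟨h2, rfl⟩
    · refine key (k + 1) (by rw [z1]) ?_
      refine ⟨sd (shF N f).1 k, sd (shF N f).1 (k + 1), ?_, rfl, rfl⟩
      rw [lcf_shF]
      exact mt_iff.2 ⟨k, h2, Or.inl ⟨rfl, rfl⟩⟩
    · refine key (k + 3) (by rw [z5]) ?_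
      refine ⟨sd (shF N f).1 k, sd (shF N f).1 (k + 3), ?_, rfl, rfl⟩
      rw [lcf_shF]
      exact mt_iff.2 ⟨k + 3, by rw [ev_add_three]; exact h2, Or.inr ⟨by rw [z5], rfl⟩⟩

/-- A lifted face with a side in the lift of the strand. -/
theorem claimC (hn : n + 2 ≤ d) (hini : Ini TQ (An d w) (TQ.c f₀ k₀, TQ.c f₀ (k₀ + 1)))
    (hI : IsIndT (Vis TQ ω (An d w) (TQ.c f₀ k₀, TQ.c f₀ (k₀ + 1))) N)
    (hN : ∀ f ∈ Vis TQ ω (An d w) (TQ.c f₀ k₀, TQ.c f₀ (k₀ + 1)), |N f| ≤ n) {s : LF}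
    (hs : s ∈ LAT d w n) {k l : ZMod 4} {g : ℤ × ℤ}
    (hg : g ∈ Vis TQ ω (An d w) (TQ.c f₀ k₀, TQ.c f₀ (k₀ + 1)))
    (hl : (TQ.c g l, TQ.c g (l + 1)) ∈ Un TQ ω (An d w) (TQ.c f₀ k₀, TQ.c f₀ (k₀ + 1)))
    (h : lft s (sd s.1 k) = shS N g l) :
    s = shF N (pj 1 s) ∧ pj 1 s ∈ Vis TQ ω (An d w) (TQ.c f₀ k₀, TQ.c f₀ (k₀ + 1)) ∧
      (TQ.c (pj 1 s) k, TQ.c (pj 1 s) (k + 1)) ∈
        Un TQ ω (An d w) (TQ.c f₀ k₀, TQ.c f₀ (k₀ + 1)) := by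
  have hgL : shF N g ∈ LAT d w n := shF_mem hg.1 (hN g hg)
  have hsA := pj_mem hs
  rcases adj_of_lft hn hs hgL (k := k) (k' := l) h with ⟨h1, h2⟩ | ⟨h1, h2⟩
  · subst h2
    have h3 : pj 1 s = g := by rw [h1, pj_shF]
    rw [h3]
    exact ⟨h1, hg, hl⟩
  · rw [pj_shF] at h1 h2
    have hUn : (TQ.c (pj 1 s) k, TQ.c (pj 1 s) (k + 1)) ∈
        Un TQ ω (An d w) (TQ.c f₀ k₀, TQ.c f₀ (k₀ + 1)) := by
      rw [← h1, ← h2]
      have := Un_swap.2 hl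
      exact this
    have hV := vis_of_un hini hsA hUn
    refine ⟨?_, hV, hUn⟩
    have h3 : shS N (pj 1 s) k = shS N g l := hI _ hV _ hg k l h1 h2
    rw [← h3] at h
    have h4 := (Prod.mk.inj h).1
    obtain ⟨⟨x, y⟩, i⟩ := s
    unfold pj at h4 ⊢
    unfold shF at h4 ⊢
    simp only [one_mul] at h4 ⊢
    have h5 := sd_inj h4
    have h6 : i = N (x + i, y) := by omega
    rw [← h6]
    simp

/-- The projection of the lifted component. -/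
theorem claimB (hn : n + 2 ≤ d) (hf₀ : f₀ ∈ An d w)
    (hini : Ini TQ (An d w) (TQ.c f₀ k₀, TQ.c f₀ (k₀ + 1)))
    (hI : IsIndT (Vis TQ ω (An d w) (TQ.c f₀ k₀, TQ.c f₀ (k₀ + 1))) N)
    (hN : ∀ f ∈ Vis TQ ω (An d w) (TQ.c f₀ k₀, TQ.c f₀ (k₀ + 1)), |N f| ≤ n) {c : LE}
    (hc : c ∈ ML (lcf 1 ω) (LAT d w n) {shS N f₀ k₀}) :
    ∃ g ∈ Vis TQ ω (An d w) (TQ.c f₀ k₀, TQ.c f₀ (k₀ + 1)), ∃ l, c = shS N g l ∧
      (TQ.c g l, TQ.c g (l + 1)) ∈ Un TQ ω (An d w) (TQ.c f₀ k₀, TQ.c f₀ (k₀ + 1)) := by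
  refine ML_induction (P := fun c => ∃ g ∈ Vis TQ ω (An d w) (TQ.c f₀ k₀, TQ.c f₀ (k₀ + 1)),
    ∃ l, c = shS N g l ∧ (TQ.c g l, TQ.c g (l + 1)) ∈
      Un TQ ω (An d w) (TQ.c f₀ k₀, TQ.c f₀ (k₀ + 1))) ?_ ?_ c hc
  · rintro c rfl
    exact ⟨f₀, ⟨hf₀, k₀, mem_Orb_self⟩, k₀, rfl, Or.inl mem_Orb_self⟩
  · rintro b b' s hs ⟨a, a', hm, rfl, rfl⟩ _ ⟨g, hg, l, h1, h2⟩
    obtain ⟨k, hk, hka⟩ := mt_iff.1 hm
    have hs' : s ∈ LAT d w n := Finset.mem_coe.1 hs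
    have hval : ω (pj 1 s) = ev k := hk
    rcases hka with ⟨rfl, rfl⟩ | ⟨rfl, rfl⟩
    · obtain ⟨c1, c2, c3⟩ := claimC hn hini hI hN hs' hg h2 h1
      refine ⟨pj 1 s, c2, k + 1, ?_, ?_⟩
      · unfold shS
        rw [← c1]
      · rw [z1]
        exact (un_iff hini c2.1 hval).1 c3
    · obtain ⟨c1, c2, c3⟩ := claimC hn hini hI hN hs' hg h2 h1
      refine ⟨pj 1 s, c2, k, ?_, ?_⟩
      · unfold shS
        rw [← c1]
      · rw [z1] at c3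
        exact (un_iff hini c2.1 hval).2 c3

end LiftAux

/-- The lifted component of a strand of the annulus `BW w \ BW d`: the visited lifted faces. -/
theorem SL_liftT (hn : n + 2 ≤ d) (hdw : d < w) {f₀ : ℤ × ℤ} {k₀ : ZMod 4} (hf₀ : f₀ ∈ An d w)
    (hini : Ini TQ (An d w) (TQ.c f₀ k₀, TQ.c f₀ (k₀ + 1)))
    (hI : IsIndT (Vis TQ ω (An d w) (TQ.c f₀ k₀, TQ.c f₀ (k₀ + 1))) N)
    (hN : ∀ f ∈ Vis TQ ω (An d w) (TQ.c f₀ k₀, TQ.c f₀ (k₀ + 1)), |N f| ≤ n) :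
    SL (lcf 1 ω) (LAT d w n) {shS N f₀ k₀} =
      {s | ∃ f ∈ Vis TQ ω (An d w) (TQ.c f₀ k₀, TQ.c f₀ (k₀ + 1)), s = shF N f} := by
  ext s
  constructor
  · rintro ⟨hs, a, ha, hm⟩
    obtain ⟨k, rfl⟩ := isSide_iff.1 ha
    obtain ⟨g, hg, l, h1, h2⟩ := claimB hn hf₀ hini hI hN hm
    obtain ⟨c1, c2, -⟩ := claimC hn hini hI hN (Finset.mem_coe.1 hs) hg h2 h1
    exact ⟨pj 1 s, c2, c1⟩
  · rintro ⟨f, hf, rfl⟩
    obtain ⟨hfA, k, hk⟩ := hf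
    exact ⟨Finset.mem_coe.2 (shF_mem hfA (hN f ⟨hfA, k, hk⟩)), sd (shF N f).1 k,
      isSide_iff.2 ⟨k, rfl⟩, claimA hini hI hN hk f hfA k (Or.inl rfl)⟩

/-- The lifted component contains the lifts of all the unit edges of the strand. -/
theorem ML_liftT (hn : n + 2 ≤ d) (hdw : d < w) {f₀ : ℤ × ℤ} {k₀ : ZMod 4} (hf₀ : f₀ ∈ An d w)
    (hini : Ini TQ (An d w) (TQ.c f₀ k₀, TQ.c f₀ (k₀ + 1)))
    (hI : IsIndT (Vis TQ ω (An d w) (TQ.c f₀ k₀, TQ.c f₀ (k₀ + 1))) N)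
    (hN : ∀ f ∈ Vis TQ ω (An d w) (TQ.c f₀ k₀, TQ.c f₀ (k₀ + 1)), |N f| ≤ n) {f : ℤ × ℤ}
    (hf : f ∈ An d w) {k : ZMod 4}
    (h : (TQ.c f k, TQ.c f (k + 1)) ∈ Un TQ ω (An d w) (TQ.c f₀ k₀, TQ.c f₀ (k₀ + 1))) :
    shS N f k ∈ ML (lcf 1 ω) (LAT d w n) {shS N f₀ k₀} := by
  rcases h with h | h
  · exact claimA hini hI hN h f hf k (Or.inl rfl)
  · exact claimA hini hI hN h f hf k (Or.inr rfl)

end Pool.Agent.Perc3
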