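import Pool.Agent.Lib.MP_6bd702_perc3.Z2side
import Pool.Agent.Lib.MP_6bd702_percw.TipsA

/-!
# Pairs of strands with a corridor: from the square grid to the grid with a dislocation
-/

set_option autoImplicit false

namespace Pool.Agent.Perc3

open Finset Pool.Agent.Perc

variable {L w d D : ℤ} {u : ℤ × ℤ} {l : List (ℤ × ℤ)}

/-- The path is at distance more than `D` from the face `f`. -/
def FarP (D : ℤ) (u : ℤ × ℤ) (l : List (ℤ × ℤ)) (f : ℤ × ℤ) : Prop :=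
  ∀ a, OnPath u l a → D < max |a.1 - f.1| |a.2.1 - f.2|

theorem FarP.side {f : ℤ × ℤ} (h : FarP D u l f) (hD : 1 ≤ D) {a : UE} (ha : IsSide f a) :
    ¬ OnPath u l a := by
  intro hp
  have h1 := h a hp
  rw [lt_max_iff, lt_abs, lt_abs] at h1
  rcases ha with rfl | rfl | rfl | rfl
  · simp only [bo] at h1; omega
  · simp only [le'] at h1; omega
  · simp only [to'] at h1; omega
  · simp only [ri] at h1; omega

theorem ind_right (hd : 1 < d) (hL : 0 ≤ L) (hw : 0 ≤ w) (hc : Corr L w d u l) {i j : ℤ}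
    (hf : (i, j) ∈ AnF L w d) (ha : ¬ OnPath u l (i + 1, j, true)) :
    ind L w u l (i, j) = ind L w u l (i + 1, j) := by
  have h1 := side_inn hd hc hf (a := ri (i, j)) (Or.inr (Or.inr (Or.inr rfl)))
  have h3 := side_outp hL hw hc hf (a := ri (i, j)) (Or.inr (Or.inr (Or.inr rfl)))
  have h4 := ind_ver hc h1 ha h3
  rwa [add_sub_cancel_right] at h4

theorem ind_up (hd : 1 < d) (hL : 0 ≤ L) (hw : 0 ≤ w) (hc : Corr L w d u l) {i j : ℤ}
    (hf : (i, j) ∈ AnF L w d) (hj : j ≠ -1) (ha : ¬ OnPath u l (i, j + 1, false)) :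
    ind L w u l (i, j) = ind L w u l (i, j + 1) := by
  have h1 := side_inn hd hc hf (a := to' (i, j)) (Or.inr (Or.inr (Or.inl rfl)))
  have h3 := side_outp hL hw hc hf (a := to' (i, j)) (Or.inr (Or.inr (Or.inl rfl)))
  have h4 := ind_hor hc hL h1 ha h3
  rw [add_sub_cancel_right, if_neg (by omega), add_zero] at h4
  exact h4

theorem ind_hmove (hd : 1 < d) (hL : 0 ≤ L) (hw : 0 ≤ w) (hc : Corr L w d u l) {y x₁ x₂ : ℤ}
    (hx : x₁ ≤ x₂) (hf : ∀ i, x₁ ≤ i → i ≤ x₂ → (i, y) ∈ AnF L w d)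
    (ha : ∀ i, x₁ < i → i ≤ x₂ → ¬ OnPath u l (i, y, true)) :
    ind L w u l (x₁, y) = ind L w u l (x₂, y) := by
  induction x₂, hx using Int.leInduction with
  | base => rfl
  | succ x hx ih =>
    rw [ih (fun i h1 h2 => hf i h1 (by omega)) (fun i h1 h2 => ha i h1 (by omega))]
    exact ind_right hd hL hw hc (hf x hx (by omega)) (ha _ (by omega) le_rfl)

theorem ind_vmove (hd : 1 < d) (hL : 0 ≤ L) (hw : 0 ≤ w) (hc : Corr L w d u l) {x y₁ y₂ : ℤ}
    (hy : y₁ ≤ y₂) (hh : 0 ≤ y₁ ∨ y₂ < 0) (hf : ∀ j, y₁ ≤ j → j ≤ y₂ → (x, j) ∈ AnF L w d)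
    (ha : ∀ j, y₁ < j → j ≤ y₂ → ¬ OnPath u l (x, j, false)) :
    ind L w u l (x, y₁) = ind L w u l (x, y₂) := by
  induction y₂, hy using Int.leInduction with
  | base => rfl
  | succ y hy ih =>
    rw [ih (by omega) (fun i h1 h2 => hf i h1 (by omega)) (fun i h1 h2 => ha i h1 (by omega))]
    exact ind_up hd hL hw hc (hf y hy (by omega)) (by omega) (ha _ (by omega) le_rfl)

theorem ind_hmove' (hd : 1 < d) (hL : 0 ≤ L) (hw : 0 ≤ w) (hc : Corr L w d u l) {y x₁ x₂ : ℤ}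
    (hf : ∀ i, min x₁ x₂ ≤ i → i ≤ max x₁ x₂ → (i, y) ∈ AnF L w d)
    (ha : ∀ i, min x₁ x₂ ≤ i → i ≤ max x₁ x₂ → ¬ OnPath u l (i, y, true)) :
    ind L w u l (x₁, y) = ind L w u l (x₂, y) := by
  rcases le_total x₁ x₂ with h | h
  · rw [min_eq_left h, max_eq_right h] at hf ha
    exact ind_hmove hd hL hw hc h hf fun i h1 h2 => ha i h1.le h2
  · rw [min_eq_right h, max_eq_left h] at hf ha
    exact (ind_hmove hd hL hw hc h hf fun i h1 h2 => ha i h1.le h2).symm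

theorem ind_vmove' (hd : 1 < d) (hL : 0 ≤ L) (hw : 0 ≤ w) (hc : Corr L w d u l) {x y₁ y₂ : ℤ}
    (hh : 0 ≤ y₁ ↔ 0 ≤ y₂) (hf : ∀ j, min y₁ y₂ ≤ j → j ≤ max y₁ y₂ → (x, j) ∈ AnF L w d)
    (ha : ∀ j, min y₁ y₂ ≤ j → j ≤ max y₁ y₂ → ¬ OnPath u l (x, j, false)) :
    ind L w u l (x, y₁) = ind L w u l (x, y₂) := by
  rcases le_total y₁ y₂ with h | h
  · rw [min_eq_left h, max_eq_right h] at hf ha
    exact ind_vmove hd hL hw hc h (by omega) hf fun i h1 h2 => ha i h1.le h2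
  · rw [min_eq_right h, max_eq_left h] at hf ha
    exact (ind_vmove hd hL hw hc h (by omega) hf fun i h1 h2 => ha i h1.le h2).symm

/-- Faces of the same half plane which are close to each other and far from the corridor have the
same index. -/
theorem ind_eq_of_near (hd : 1 < d) (hL : 0 ≤ L) (hw : 0 ≤ w) (hc : Corr L w d u l)
    (hD : D ≤ 2 * d) {f f' : ℤ × ℤ} (hf : f ∈ AnF L w d) (hf' : f' ∈ AnF L w d)
    (hh : 0 ≤ f.2 ↔ 0 ≤ f'.2) (h1 : |f.1 - f'.1| < D) (h2 : |f.2 - f'.2| < D)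
    (hfar : FarP D u l f) : ind L w u l f = ind L w u l f' := by
  obtain ⟨x₁, y₁⟩ := f
  obtain ⟨x₂, y₂⟩ := f'
  rw [mem_AnF] at hf hf'
  simp only at hf hf' hh h1 h2
  rw [abs_lt] at h1 h2
  have hno : ∀ i j : ℤ, ∀ b : Bool, min x₁ x₂ ≤ i → i ≤ max x₁ x₂ → min y₁ y₂ ≤ j →
      j ≤ max y₁ y₂ → ¬ OnPath u l (i, j, b) := by
    intro i j b h3 h4 h5 h6 hp
    have h7 := hfar _ hp
    simp only at h7
    rw [lt_max_iff, lt_abs, lt_abs] at h7
    omega
  have key : ((x₁ < -d ∨ d ≤ x₁ ∨ (d ≤ y₁ ∧ d ≤ y₂) ∨ (y₁ < -d ∧ y₂ < -d)) ∧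
      (y₂ < -d ∨ d ≤ y₂ ∨ (x₁ < -d ∧ x₂ < -d) ∨ (d ≤ x₁ ∧ d ≤ x₂))) ∨
    ((x₂ < -d ∨ d ≤ x₂ ∨ (d ≤ y₁ ∧ d ≤ y₂) ∨ (y₁ < -d ∧ y₂ < -d)) ∧
      (y₁ < -d ∨ d ≤ y₁ ∨ (x₁ < -d ∧ x₂ < -d) ∨ (d ≤ x₁ ∧ d ≤ x₂))) := by omega
  rcases key with ⟨k1, k2⟩ | ⟨k1, k2⟩
  · rw [ind_vmove' hd hL hw hc hh (x := x₁) ?_ ?_, ind_hmove' hd hL hw hc (x₁ := x₁) (x₂ := x₂) ?_ ?_]
    · intro i h3 h4
      rw [mem_AnF]
      simp only
      omega
    · intro i h3 h4
      exact hno _ _ _ h3 h4 (by omega) (by omega)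
    · intro i h3 h4
      rw [mem_AnF]
      simp only
      omega
    · intro i h3 h4
      exact hno _ _ _ (by omega) (by omega) h3 h4
  · rw [ind_hmove' hd hL hw hc (x₁ := x₁) (x₂ := x₂) ?_ ?_, ind_vmove' hd hL hw hc hh (x := x₂) ?_ ?_]
    · intro i h3 h4
      rw [mem_AnF]
      simp only
      omega
    · intro i h3 h4
      exact hno _ _ _ (by omega) (by omega) h3 h4
    · intro i h3 h4
      rw [mem_AnF]
      simp only
      omega
    · intro i h3 h4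
      exact hno _ _ _ h3 h4 (by omega) (by omega)

/-! ### The event on the cover -/

/-- The unit edges on the upper and on the lower side of the rectangle. -/
noncomputable def TBF (L w : ℤ) : Finset UE :=
  (Ico (-L) L) ×ˢ (({-w, w} : Finset ℤ) ×ˢ ({false} : Finset Bool))

theorem mem_TBF {a : UE} : a ∈ TBF L w ↔
    -L ≤ a.1 ∧ a.1 < L ∧ (a.2.1 = -w ∨ a.2.1 = w) ∧ a.2.2 = false := by
  unfold TBF
  simp only [mem_product, mem_Ico, mem_insert, mem_singleton]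
  tauto

/-- The lifted faces of the annulus with index at most `n`. -/
noncomputable def LAF (L w d n : ℤ) : Finset LF := AnF L w d ×ˢ Icc (-n) n

theorem mem_LAF {n : ℤ} {s : LF} : s ∈ LAF L w d n ↔ s.1 ∈ AnF L w d ∧ |s.2| ≤ n := by
  unfold LAF
  rw [mem_product, mem_Icc, abs_le]

/-- The lifted component of `e` reaches the inner box. -/
def RinL (ζ : LF → Bool) (L w d n : ℤ) (e : LE) : Prop :=
  ∃ c ∈ ML ζ (LAF L w d n) {e}, BdE (-d) d (-d) d c.1

/-- The lifted components of `(b, 0)` and `(b', ε)` reach the inner box and are thick. -/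
def PairL (L w d n k : ℤ) (b b' : UE) (ε : ℤ) : Set (LF → Bool) :=
  {ζ | Thick k (SL ζ (LAF L w d n) ({(b, 0)} ∪ {(b', ε)})) ∧ RinL ζ L w d n (b, 0) ∧
    RinL ζ L w d n (b', ε)}

theorem detBy_PairL (L w d n k : ℤ) (b b' : UE) (ε : ℤ) :
    DetBy (fun ζ => SL ζ (LAF L w d n) ({(b, 0)} ∪ {(b', ε)})) (PairL L w d n k b b' ε) := by
  intro ζ ζ' h
  have h0 : SL ζ' (LAF L w d n) ({(b, 0)} ∪ {(b', ε)}) =
      SL ζ (LAF L w d n) ({(b, 0)} ∪ {(b', ε)}) := stopping_SL _ _ ζ ζ' h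
  have h1 : ML ζ' (LAF L w d n) {(b, 0)} = ML ζ (LAF L w d n) {(b, 0)} :=
    ML_eq fun s hs => h s (by simp only [SL_union]; exact Or.inl hs)
  have h2 : ML ζ' (LAF L w d n) {(b', ε)} = ML ζ (LAF L w d n) {(b', ε)} :=
    ML_eq fun s hs => h s (by simp only [SL_union]; exact Or.inr hs)
  unfold PairL RinL
  simp only [Set.mem_ofPred_eq]
  rw [h0, h1, h2]

/-- The component of `b` in the annulus reaches the inner box. -/
def Rin (ω : Cfg) (L w d : ℤ) (b : UE) : Prop :=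
  ∃ a ∈ MM ω (AnF L w d) b, BdE (-d) d (-d) d a

/-- Two components which start at the upper or lower side reach the inner box, and a corridor with
at most `m` corners from the inner box to the outside is at distance more than `D` from them. -/
def CorrEv (L w d D : ℤ) (m : ℕ) (b b' : UE) : Set Cfg :=
  {ω | Rin ω L w d b ∧ Rin ω L w d b' ∧ ∃ (u : ℤ × ℤ) (l : List (ℤ × ℤ)), Corr L w d u l ∧
    l.length ≤ m ∧ ∀ f ∈ SS ω (AnF L w d) b ∪ SS ω (AnF L w d) b', FarP D u l f}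

/-- The index of a starting unit edge. -/
theorem indE_start (hd : 1 < d) (hdw : d ≤ w) (hL : 0 ≤ L) (hc : Corr L w d u l) {b : UE}
    (hb : b ∈ TBF L w) (hp : ¬ OnPath u l b) :
    indE L w u l b = 0 ∨ (indE L w u l b = -1 ∧ (lst u l).2 ≠ -(w + 1)) ∨
      (indE L w u l b = 1 ∧ (lst u l).2 = -(w + 1)) := by
  obtain ⟨x, y, c⟩ := b
  rw [mem_TBF] at hb
  obtain ⟨h1, h2, h3, h4⟩ := hb
  simp only at h1 h2 h3 h4
  subst h4
  unfold indE
  simp only
  rcases h3 with rfl | rfl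
  · have h5 : ¬ OnPath (-1, 0) [(u.1, 0), u] (x, -w, false) := by
      intro h
      have := inn_out hd hc.inn h
      simp only at this
      omega
    have h6 : ¬ OnPath (lst u l) (outp L w (lst u l)) (x, -w, false) := by
      intro h
      have := outp_out hL (by omega) hc.out h (by simp only; omega) (by simp only; omega)
        (by simp only; omega) (by simp only; omega)
      simp only at this
      omega
    have h7 := ind_hor hc hL h5 hp h6
    rw [if_neg (by omega), add_zero] at h7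
    rw [← h7]
    rcases ind_bot hc hd hdw hL (x := x) (by omega) with h | h
    · exact Or.inl h
    · exact Or.inr (Or.inr h)
  · rcases ind_top hc hd hdw (x := x) (by omega) with h | h
    · exact Or.inl h
    · exact Or.inr (Or.inl h)

/-- A starting unit edge is a side of a face of the annulus. -/
theorem start_side (hd : 0 ≤ d) (hdw : d < w) {b : UE} (hb : b ∈ TBF L w) :
    ∃ f ∈ AnF L w d, IsSide f b := by
  obtain ⟨x, y, c⟩ := b
  rw [mem_TBF] at hb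
  obtain ⟨h1, h2, h3, h4⟩ := hb
  simp only at h1 h2 h3 h4
  subst h4
  rcases h3 with h3 | h3
  · rw [h3]
    refine ⟨(x, -w), ?_, Or.inl rfl⟩
    rw [mem_AnF]
    simp only
    omega
  · rw [h3]
    refine ⟨(x, w - 1), ?_, Or.inr (Or.inr (Or.inl ?_))⟩
    · rw [mem_AnF]
      simp only
      omega
    · simp only [to', sub_add_cancel]

/-- The lifts of two components which avoid a corridor. -/
theorem pairL_of_corr {ω : Cfg} {n k : ℤ} {m : ℕ} {b b' : UE} (hd : 1 < d) (hdw : d < w)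
    (hL : 0 ≤ L) (hb : b ∈ TBF L w) (hb' : b' ∈ TBF L w) (hD1 : 1 ≤ D) (hD2 : D ≤ 2 * d)
    (hk : 0 ≤ k) (hn : 2 * (m + 6) ≤ n) (hkD : k * (2 * n) ≤ D) (h : ω ∈ CorrEv L w d D m b b') :
    ∃ ε ∈ ({-1, 0, 1} : Finset ℤ), lcf 0 ω ∈ PairL L w d n k b b' ε := by
  obtain ⟨⟨a₁, ha₁, hB₁⟩, ⟨a₂, ha₂, hB₂⟩, u, l, hc, hlm, hfar⟩ := h
  have hw : 0 ≤ w := by omega
  have hlm' : (l.length : ℤ) ≤ m := by exact_mod_cast hlm
  set F : Set (ℤ × ℤ) := (AnF L w d : Set (ℤ × ℤ)) with hF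
  obtain ⟨f, hfF, hfb⟩ := start_side (by omega) hdw hb
  obtain ⟨f', hfF', hfb'⟩ := start_side (by omega) hdw hb'
  have hfS : f ∈ SS ω F b := ⟨hfF, b, mem_MM_self, hfb⟩
  have hfS' : f' ∈ SS ω F b' := ⟨hfF', b', mem_MM_self, hfb'⟩
  have hI1 : IsInd (SS ω F b ∪ SS ω F b') (ind L w u l) (indE L w u l) := by
    refine isInd_ind hd hL hw hc ?_ fun f hf a ha => (hfar f hf).side hD1 ha
    rintro f (hf | hf)
    · exact hf.1
    · exact hf.1
  have e1 := indE_start hd (by omega) hL hc hb ((hfar f (Or.inl hfS)).side hD1 hfb)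
  have e2 := indE_start hd (by omega) hL hc hb' ((hfar f' (Or.inr hfS')).side hD1 hfb')
  set μ := indE L w u l b with hμ
  have hI := hI1.sub_const μ
  set N : ℤ × ℤ → ℤ := fun f => ind L w u l f - μ with hN
  set ν : UE → ℤ := fun a => indE L w u l a - μ with hν
  have hν0 : ν b = 0 := by
    rw [hν]
    simp only
    rw [← hμ, sub_self]
  have hNle : ∀ f, |N f| ≤ n := by
    intro f
    have h1 := abs_ind_le (L := L) (w := w) (u := u) (l := l) f
    have h2 : |μ| ≤ l.length + 6 := by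
      rw [hμ]
      exact abs_ind_le _
    rw [hN]
    simp only
    rw [abs_le] at h1 h2 ⊢
    constructor <;> linarith
  have hFt : ∀ s ∈ (LAF L w d n : Set LF), s.1 ∈ F := fun s hs => (mem_LAF.1 (mem_coe.1 hs)).1
  have hF1 : ∀ f ∈ SS ω F b, (f, N f) ∈ (LAF L w d n : Set LF) := fun f hf =>
    mem_coe.2 (mem_LAF.2 ⟨hf.1, hNle f⟩)
  have hF2 : ∀ f ∈ SS ω F b', (f, N f) ∈ (LAF L w d n : Set LF) := fun f hf =>
    mem_coe.2 (mem_LAF.2 ⟨hf.1, hNle f⟩)
  have hIb : IsInd (SS ω F b) N ν := hI.mono Set.subset_union_left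
  have hIb' : IsInd (SS ω F b') N ν := hI.mono Set.subset_union_right
  refine ⟨ν b', ?_, ?_, ?_, ?_⟩
  · rw [hν]
    simp only [mem_insert, mem_singleton]
    omega
  · have hE : ({(b, (0 : ℤ))} : Set LE) = {(b, ν b)} := by rw [hν0]
    rw [SL_union, hE]
    refine thick_of_sep (X := SS ω F b ∪ SS ω F b') (N := N) hk ?_ (fun f _ => hNle f) hkD ?_
    · rintro s (hs | hs)
      · rw [SL_iff hIb hFt hF1] at hs
        exact ⟨Or.inl hs.1, hs.2⟩
      · rw [SL_iff hIb' hFt hF2] at hs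
        exact ⟨Or.inr hs.1, hs.2⟩
    · intro g hg g' hg' hh h1 h2
      have hgF : g ∈ AnF L w d := by
        rcases hg with hg | hg
        · exact hg.1
        · exact hg.1
      have hgF' : g' ∈ AnF L w d := by
        rcases hg' with hg' | hg'
        · exact hg'.1
        · exact hg'.1
      rw [hN]
      simp only
      rw [ind_eq_of_near hd hL hw hc hD2 hgF hgF' hh h1 h2 (hfar g hg)]
  · refine ⟨(a₁, ν a₁), ?_, hB₁⟩
    have := ML_of_MM hIb hF1 ha₁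
    rwa [hν0] at this
  · exact ⟨(a₂, ν a₂), ML_of_MM hIb' hF2 ha₂, hB₂⟩

theorem pr_of_forall_notMem (W : Finset (ℤ × ℤ)) {A : Set Cfg} (h : ∀ ω, ω ∉ A) : pr W A = 0 := by
  classical
  unfold pr
  rw [div_eq_zero_iff]
  left
  rw [Nat.cast_eq_zero, card_eq_zero]
  ext T
  simp [h]

/-- A union bound. -/
theorem pr_sum_le {ι : Type} (W : Finset (ℤ × ℤ)) (s : Finset ι) (A : Set Cfg)
    (B : ι → Set Cfg) (h : ∀ ω ∈ A, ∃ i ∈ s, ω ∈ B i) : pr W A ≤ ∑ i ∈ s, pr W (B i) := by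
  classical
  have key : ∀ s : Finset ι, pr W {ω | ∃ i ∈ s, ω ∈ B i} ≤ ∑ i ∈ s, pr W (B i) := by
    intro s
    induction s using Finset.induction_on with
    | empty =>
      rw [sum_empty]
      refine le_of_eq (pr_of_forall_notMem W ?_)
      rintro ω ⟨i, hi, _⟩
      exact absurd hi (notMem_empty i)
    | @insert i s hi ih =>
      rw [sum_insert hi]
      refine le_trans (pr_mono W (B := B i ∪ {ω | ∃ i ∈ s, ω ∈ B i}) ?_)
        ((pr_union_le W _ _).trans (add_le_add le_rfl ih))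
      rintro ω ⟨j, hj, hω⟩
      rcases mem_insert.1 hj with rfl | hj
      · exact Or.inl hω
      · exact Or.inr ⟨j, hj, hω⟩
  exact (pr_mono W h).trans (key s)

/-- The projections of the lifted annulus. -/
theorem pj_LAF {c n : ℤ} (hc : |c| ≤ 1) {s : LF} (hs : s ∈ LAF L w d n) :
    pj c s ∈ RF (-L - n) (L + n) (-w) w := by
  rw [mem_LAF, mem_AnF] at hs
  obtain ⟨⟨h1, -⟩, h2⟩ := hs
  have h3 : |c * s.2| ≤ n := by
    rw [abs_mul]
    calc |c| * |s.2| ≤ 1 * |s.2| := mul_le_mul_of_nonneg_right hc (abs_nonneg _)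
      _ ≤ n := by rw [one_mul]; exact h2
  rw [abs_le] at h3
  unfold pj
  rw [mem_RF]
  simp only
  omega

/-- Comparison for one pair. -/
theorem pr_pairL_eq {n k : ℤ} (hk : 1 < k) (b b' : UE) (ε : ℤ) :
    pr (RF (-L) L (-w) w) {ω | lcf 0 ω ∈ PairL L w d n k b b' ε} =
      pr (RF (-L - n) (L + n) (-w) w) {ω | lcf 1 ω ∈ PairL L w d n k b b' ε} := by
  have h := compare (Ft := LAF L w d n) (E := {(b, 0)} ∪ {(b', ε)}) (c := 0) (c' := 1)
    (A := PairL L w d n k b b' ε) (k := k) (detBy_PairL L w d n k b b' ε)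
    (by rw [abs_zero]; omega) (by rw [abs_one]; exact hk) (fun ζ hζ => hζ.1)
    (W := RF (-L) L (-w) w) (W' := RF (-L - n) (L + n) (-w) w) (by
      intro s hs
      rw [mem_LAF, mem_AnF] at hs
      unfold pj
      rw [mem_RF]
      simp only
      omega) (fun s hs => pj_LAF (by norm_num) hs)
  unfold lcf
  exact h

/-- Comparison: the probability that two components which start at the upper or lower side reach the
inner box and leave room for a corridor is at most the expected number of the pairs of lifted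
components in the grid with a dislocation. -/
theorem pr_pairs_le {n k : ℤ} {m : ℕ} (hd : 1 < d) (hdw : d < w)
    (hL : 0 ≤ L) (hD1 : 1 ≤ D) (hD2 : D ≤ 2 * d) (hk : 1 < k) (hn : 2 * (m + 6) ≤ n)
    (hkD : k * (2 * n) ≤ D) :
    pr (RF (-L) L (-w) w) {ω | ∃ b ∈ TBF L w, ∃ b' ∈ TBF L w, b ≠ b' ∧ ω ∈ CorrEv L w d D m b b'} ≤
      ∑ p ∈ ((TBF L w ×ˢ TBF L w).filter fun p => p.1 ≠ p.2) ×ˢ ({-1, 0, 1} : Finset ℤ),
        pr (RF (-L - n) (L + n) (-w) w) {ω | lcf 1 ω ∈ PairL L w d n k p.1.1 p.1.2 p.2} := by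
  have h0 := pr_sum_le (RF (-L) L (-w) w)
    (((TBF L w ×ˢ TBF L w).filter fun p => p.1 ≠ p.2) ×ˢ ({-1, 0, 1} : Finset ℤ))
    {ω | ∃ b ∈ TBF L w, ∃ b' ∈ TBF L w, b ≠ b' ∧ ω ∈ CorrEv L w d D m b b'}
    (fun p => {ω | lcf 0 ω ∈ PairL L w d n k p.1.1 p.1.2 p.2}) (by
      rintro ω ⟨b, hb, b', hb', hne, hω⟩
      obtain ⟨ε, hε, h⟩ := pairL_of_corr hd hdw hL hb hb' hD1 hD2 (by omega) hn hkD hω
      refine ⟨((b, b'), ε), ?_, h⟩
      rw [mem_product, mem_filter, mem_product]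
      exact ⟨⟨⟨hb, hb'⟩, hne⟩, hε⟩)
  refine h0.trans (le_of_eq ?_)
  refine sum_congr rfl fun p _ => ?_
  exact pr_pairL_eq hk p.1.1 p.1.2 p.2

end Pool.Agent.Perc3
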