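import Pool.Agent.Lib.MP_6bd702_perc3.T3Defs
import Pool.Agent.Lib.MP_6bd702_pr_h60.C1Path

/-!
# T3, row Path: coarse graining of a chain to a rectilinear corridor with few corners
-/

set_option autoImplicit false

namespace Pool.Agent.Perc3

open Finset Pool.Agent.Perc Pool.Agent.Perc.Q Pool.Agent.PercS5

/-- The square of side `σ` of a face. -/
def sqr (σ : ℤ) (f : ℤ × ℤ) : ℤ × ℤ := (f.1 / σ, f.2 / σ)

/-- The corner of a square. -/
def cnr (σ : ℤ) (a : ℤ × ℤ) : ℤ × ℤ := (a.1 * σ, a.2 * σ)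

theorem cnr_sqr {σ : ℤ} (hσ : 1 ≤ σ) (f : ℤ × ℤ) :
    (cnr σ (sqr σ f)).1 ≤ f.1 ∧ f.1 < (cnr σ (sqr σ f)).1 + σ ∧
      (cnr σ (sqr σ f)).2 ≤ f.2 ∧ f.2 < (cnr σ (sqr σ f)).2 + σ := by
  unfold cnr sqr
  simp only
  have h1 := Int.ediv_mul_le f.1 (by omega : σ ≠ 0)
  have h2 := Int.ediv_mul_le f.2 (by omega : σ ≠ 0)
  have h3 := Int.lt_ediv_add_one_mul_self f.1 (by omega : 0 < σ)
  have h4 := Int.lt_ediv_add_one_mul_self f.2 (by omega : 0 < σ)
  rw [add_mul, one_mul] at h3 h4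
  exact ⟨h1, h3, h2, h4⟩

theorem div_step {σ x y : ℤ} (hσ : 1 ≤ σ) (h : y = x + 1) :
    y / σ = x / σ ∨ y / σ = x / σ + 1 := by
  subst h
  have h1 : x / σ ≤ (x + 1) / σ := Int.ediv_le_ediv (by omega) (by omega)
  have h2 : (x + 1) / σ ≤ (x + 1 * σ) / σ := Int.ediv_le_ediv (by omega) (by omega)
  rw [Int.add_mul_ediv_right _ _ (by omega)] at h2
  omega

/-- The squares with a free face. -/
def FrS (σ : ℤ) (S : Set (ℤ × ℤ)) (a : ℤ × ℤ) : Prop := ∃ f, FreeS (4 * σ) S f ∧ sqr σ f = a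

/-- The points which are far from `S`. -/
def FaS (σ : ℤ) (S : Set (ℤ × ℤ)) (q : ℤ × ℤ) : Prop :=
  ∀ s ∈ S, 2 * σ < max |q.1 - s.1| |q.2 - s.2|

theorem chain_sqr {σ : ℤ} {S : Set (ℤ × ℤ)} (hσ : 1 ≤ σ) {f g : ℤ × ℤ}
    (h : ChainS (4 * σ) S f g) :
    Relation.ReflTransGen (Stp (FrS σ S)) (sqr σ f) (sqr σ g) := by
  induction h with
  | refl => exact Relation.ReflTransGen.refl
  | @tail b c _ hs ih =>
    obtain ⟨hadj, hb, hc⟩ := hs
    have hB : FrS σ S (sqr σ b) := ⟨b, hb, rfl⟩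
    have hC : FrS σ S (sqr σ c) := ⟨c, hc, rfl⟩
    by_cases he : sqr σ b = sqr σ c
    · rwa [← he]
    · refine ih.tail ⟨?_, hB, hC⟩
      unfold sqr at he ⊢
      simp only [Prod.mk.injEq, not_and_or] at he
      rcases hadj with ⟨h1, h2 | h2⟩ | ⟨h1, h2 | h2⟩
      · rw [h1] at he ⊢
        right
        refine ⟨?_, rfl⟩
        rcases div_step hσ h2 with h3 | h3
        · exact absurd h3.symm (he.resolve_right (by simp))
        · rw [h3]; simp
      · rw [h1] at he ⊢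
        right
        refine ⟨?_, rfl⟩
        rcases div_step hσ h2 with h3 | h3
        · exact absurd h3 (he.resolve_right (by simp))
        · rw [h3]; simp
      · rw [h1] at he ⊢
        left
        refine ⟨rfl, ?_⟩
        rcases div_step hσ h2 with h3 | h3
        · exact absurd h3.symm (he.resolve_left (by simp))
        · rw [h3]; simp
      · rw [h1] at he ⊢
        left
        refine ⟨rfl, ?_⟩
        rcases div_step hσ h2 with h3 | h3
        · exact absurd h3 (he.resolve_left (by simp))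
        · rw [h3]; simp

theorem far_of_near {σ : ℤ} {S : Set (ℤ × ℤ)} (hσ : 1 ≤ σ) {a q : ℤ × ℤ} (ha : FrS σ S a)
    (h1 : |q.1 - (cnr σ a).1| ≤ σ) (h2 : |q.2 - (cnr σ a).2| ≤ σ) : FaS σ S q := by
  obtain ⟨f, hf, rfl⟩ := ha
  intro s hs
  have h3 := hf s hs
  have h4 := cnr_sqr hσ f
  rw [lt_max_iff, lt_abs, lt_abs] at h3 ⊢
  rw [abs_le] at h1 h2
  omega

theorem seg_stp {σ : ℤ} {S : Set (ℤ × ℤ)} (hσ : 1 ≤ σ) {a b : ℤ × ℤ}
    (h : Stp (FrS σ S) a b) :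
    ∃ c, SegP (FaS σ S) (cnr σ a) c ∧ SegP (FaS σ S) c (cnr σ b) := by
  obtain ⟨hadj, ha, hb⟩ := h
  refine ⟨cnr σ b, ⟨?_, ?_⟩, Or.inl rfl, ?_⟩
  · unfold cnr
    simp only
    rcases hadj with ⟨h1, -⟩ | ⟨-, h1⟩
    · exact Or.inl (by rw [h1])
    · exact Or.inr (by rw [h1])
  · intro q q1 q2 q3 q4
    have e : |(cnr σ a).1 - (cnr σ b).1| ≤ σ ∧ |(cnr σ a).2 - (cnr σ b).2| ≤ σ := by
      unfold cnr
      simp only
      rw [← sub_mul, ← sub_mul, abs_mul, abs_mul, abs_of_nonneg (by omega : 0 ≤ σ)]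
      rcases hadj with ⟨h1, h2⟩ | ⟨h2, h1⟩
      · rw [h1, h2]
        constructor
        · simp; omega
        · omega
      · rw [h1, h2]
        constructor
        · omega
        · simp; omega
    rw [abs_le, abs_le] at e
    refine far_of_near hσ ha ?_ ?_ <;> rw [abs_le] <;> omega
  · intro q q1 q2 q3 q4
    rw [min_self] at q1 q3
    rw [max_self] at q2 q4
    refine far_of_near hσ hb ?_ ?_ <;> rw [abs_le] <;> omega

/-- Squares of side `σ`: at most `(2 K + 12) ^ 2` of them meet the box of radius `L + 4 σ`. -/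
theorem exists_corr (K : ℕ) : ∃ m : ℕ, ∀ (L σ d : ℤ) (S : Set (ℤ × ℤ)) (f : ℤ × ℤ), 1 ≤ σ →
    2 * σ + 2 < d → d ≤ L → L ≤ K * σ →
    ¬ (-(L + 4 * σ) ≤ f.1 ∧ f.1 < L + 4 * σ ∧ -(L + 4 * σ) ≤ f.2 ∧ f.2 < L + 4 * σ) →
    ChainS (4 * σ) S (-1, 0) f →
    ∃ (u : ℤ × ℤ) (l : List (ℤ × ℤ)), Corr L L d u l ∧ l.length ≤ m ∧
      ∀ g ∈ S, FarP (2 * σ) u l g := by
  classical
  refine ⟨2 * (Icc (-(K : ℤ)) K ×ˢ Icc (-(K : ℤ)) K).card, ?_⟩
  intro L σ d S f hσ hd hdL hLK hf hch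
  set T : Finset (ℤ × ℤ) := (Icc (-(K : ℤ)) K ×ˢ Icc (-(K : ℤ)) K).filter
    fun a => |(cnr σ a).1| ≤ L ∧ |(cnr σ a).2| ≤ L with hT
  have hmul : ∀ x : ℤ, |x * σ| ≤ L → -(K : ℤ) ≤ x ∧ x ≤ K := by
    intro x hx
    rw [abs_le] at hx
    constructor
    · by_contra hcon
      have h1 : x + 1 ≤ -(K : ℤ) := by omega
      have h2 := mul_le_mul_of_nonneg_right h1 (by omega : 0 ≤ σ)
      rw [add_mul, one_mul, neg_mul] at h2
      omega
    · by_contra hcon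
      have h1 : (K : ℤ) + 1 ≤ x := by omega
      have h2 := mul_le_mul_of_nonneg_right h1 (by omega : 0 ≤ σ)
      rw [add_mul, one_mul] at h2
      omega
  have hmem : ∀ a : ℤ × ℤ, a ∈ T ↔ |(cnr σ a).1| ≤ L ∧ |(cnr σ a).2| ≤ L := by
    intro a
    rw [hT, mem_filter, mem_product, mem_Icc, mem_Icc]
    constructor
    · exact fun h => h.2
    · exact fun h => ⟨⟨hmul _ h.1, hmul _ h.2⟩, h⟩
  have h0 : sqr σ (-1, 0) = (-1, 0) := by
    unfold sqr
    simp only [Int.zero_ediv, Prod.mk.injEq, and_true]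
    rw [Int.ediv_eq_iff_of_pos (by omega)]
    omega
  have hch' := chain_sqr hσ hch
  rw [h0] at hch'
  have ha : ((-1, 0) : ℤ × ℤ) ∈ T := by
    rw [hmem]
    unfold cnr
    simp only
    rw [abs_le, abs_le]
    omega
  have hb : sqr σ f ∉ T := by
    rw [hmem]
    have h4 := cnr_sqr hσ f
    rw [abs_le, abs_le]
    omega
  obtain ⟨b', l, hb', hP, hl, hlen⟩ := exists_path (P := FaS σ S) (g := cnr σ)
    (fun a b h => seg_stp hσ h) ha hb hch'
  have hu : cnr σ (-1, 0) = (-σ, 0) := by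
    unfold cnr
    simp only [neg_mul, one_mul, zero_mul]
  rw [hu] at hP hl
  rw [hmem] at hb'
  obtain ⟨l', k1, k2, k3, k4⟩ := trim (L := L) (w := L) l (-σ, 0)
    (by simp only; rw [abs_le]; omega) (by simp only; rw [abs_zero]; omega) hP
    (by rw [hl]; exact hb')
  refine ⟨(-σ, 0), l', ⟨k1.rectil, ?_, k3, k4⟩, ?_, ?_⟩
  · simp only
    rw [abs_lt, abs_lt]
    omega
  · refine k2.trans (hlen.trans ?_)
    exact Nat.mul_le_mul_left 2 (card_le_card (filter_subset _ _))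
  · intro g hg a hon
    exact k1.onPath l' a hon g hg

end Pool.Agent.Perc3
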