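import Pool.Agent.Lib.MP_6bd702_perc3.T3Cut
import Pool.Agent.Lib.MP_6bd702_perc3.T3H
import Pool.Agent.Lib.MP_6bd702_perc3.T3Dual
import Pool.Agent.Lib.MP_6bd702_perc3.T3Path
import Pool.Agent.Lib.MP_6bd702_perc3.T3Lift
import Pool.Agent.Lib.MP_6bd702_perc3.T3Tip
import Pool.Agent.Lib.MP_6bd702_perc3.T3Cmp
import Pool.Agent.Lib.MP_6bd702_perc3.T3Fresh

/-!
# T3, row Pair: without near touches the two strands lift to the cover and leave a corridor
-/

set_option autoImplicit false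

namespace Pool.Agent.Perc3

open Finset Pool.Agent.Perc Pool.Agent.Perc.Q

/-- The counterclockwise arc of the boundary from `t₁` to `t₂` crosses the cut. -/
def epsT (w t₁ t₂ : ℤ) : ℤ :=
  if (t₁ < 4 * w + 2 ∧ 4 * w + 2 ≤ t₂) ∨ (t₂ < t₁ ∧ (t₁ < 4 * w + 2 ∨ 4 * w + 2 ≤ t₂)) then 1 else 0

namespace PA

variable {L d₀ d w n D : ℤ} {u : ℤ × ℤ} {l : List (ℤ × ℤ)}

/-- The indices along an arc of the boundary. -/
theorem arc_ind (hc : Corr L L d₀ u l) (h1 : 1 < d₀) (hn : 2 ≤ n) (hd : d₀ + n ≤ d) (hdw : d < w)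
    (hw : w + n + 2 ≤ L) (hD : n < D) {t₁ g : ℤ} (h0 : 0 ≤ t₁) (ht : t₁ < 8 * w + 3)
    (hg : g < 8 * w + 3)
    (hfar : ∀ j, 0 ≤ j → j ≤ g → ∀ f ∈ BW w, ∀ k : ZMod 4,
      ine w ((t₁ + j) % (8 * w + 3)) = (TQ.c f k, TQ.c f (k + 1)) → FarP D u l f)
    {f₁ : ℤ × ℤ} {k₁ : ZMod 4} (e₁ : ine w t₁ = (TQ.c f₁ k₁, TQ.c f₁ (k₁ + 1)))
    {j : ℤ} (hj : 0 ≤ j) :
    j ≤ g → ∀ f ∈ BW w, ∀ k : ZMod 4,
      ine w ((t₁ + j) % (8 * w + 3)) = (TQ.c f k, TQ.c f (k + 1)) →
      ind L L u l f = ind L L u l f₁ + (if t₁ < 4 * w + 2 then (if 4 * w + 2 ≤ t₁ + j then 1 else 0)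
        else if 12 * w + 5 ≤ t₁ + j then 1 else 0) := by
  have hw0 : 0 < w := by
    have : 0 < d := by omega
    omega
  induction j, hj using Int.leInduction with
  | base =>
    intro _ f hf k e
    rw [add_zero, Int.emod_eq_of_lt h0 ht, e₁] at e
    have := (TQ.inj (Prod.mk.inj e).1 (Prod.mk.inj e).2).1
    subst this
    split_ifs <;> omega
  | succ j hj ih =>
    intro hjg f hf k e
    -- the previous face
    obtain ⟨x, hx⟩ : ∃ x, x = (t₁ + j) % (8 * w + 3) := ⟨_, rfl⟩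
    have hx0 : 0 ≤ x := by rw [hx]; exact Int.emod_nonneg _ (by omega)
    have hx1 : x < 8 * w + 3 := by rw [hx]; exact Int.emod_lt_of_pos _ (by omega)
    obtain ⟨f', hf', -, k', e'⟩ := ine_face (r := w) hw0 hx0 hx1
    rw [hx] at e'
    have h2 := ih (by omega) f' hf' k' e'
    have hF' := hfar j hj (by omega) f' hf' k' e'
    have hF := hfar (j + 1) (by omega) hjg f hf k e
    rw [← hx] at e'
    have hcase : (t₁ + j < 8 * w + 3 ∧ x = t₁ + j) ∨ (8 * w + 3 ≤ t₁ + j ∧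
        x = t₁ + j - (8 * w + 3)) := by
      rcases lt_or_ge (t₁ + j) (8 * w + 3) with h | h
      · left
        refine ⟨h, ?_⟩
        rw [hx, Int.emod_eq_of_lt (by omega) h]
      · right
        refine ⟨h, ?_⟩
        rw [hx, Int.emod_eq_sub_self_emod, Int.emod_eq_of_lt (by omega) (by omega)]
    by_cases hlast : x = 8 * w + 2
    · have hy : (t₁ + (j + 1)) % (8 * w + 3) = 0 := by
        rcases hcase with ⟨h, h3⟩ | ⟨h, h3⟩
        · rw [show t₁ + (j + 1) = 8 * w + 3 by omega, Int.emod_self]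
        · exfalso; omega
      rw [hy] at e
      rw [hlast] at e'
      rw [ind_bd_last hc h1 hn hd hdw hw hD hf' hf e' e hF' hF, h2]
      have h5 : t₁ + j = 8 * w + 2 := by omega
      rw [show t₁ + (j + 1) = 8 * w + 3 by omega, h5]
      clear * - hw0
      split_ifs <;> omega
    · have hy : (t₁ + (j + 1)) % (8 * w + 3) = x + 1 := by
        rcases hcase with ⟨h, h3⟩ | ⟨h, h3⟩
        · rw [Int.emod_eq_of_lt (by omega) (by omega)]; omega
        · rw [Int.emod_eq_sub_self_emod, Int.emod_eq_of_lt (by omega) (by omega)]; omega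
      rw [hy] at e
      rw [ind_bd hc h1 hn hd hdw hw hD hx0 (by omega) hf' hf e' e hF' hF, h2]
      clear h2 ih e e' hfar hF hF' hy hx
      split_ifs <;> omega

end PA

/-- The legs `i` and `i + 1`, with the tips `t₁` and `t₂` on the boundary of `BW w`. -/
theorem pairT_of_legs (K : ℕ) : ∃ m : ℕ, ∀ (σ d w : ℤ) (r : ℕ) (i : Fin 3) (ω : Cfg) (t₁ t₂ : ℤ),
    16 * (m + 7) ≤ σ → 16 * σ ≤ d → d < w → w ≤ K * σ → 16 * σ + 3 ≤ r → Lea3 w ω →
    ω ∉ NT r d w w i → (0 ≤ t₁ ∧ t₁ < 8 * w + 3) → (0 ≤ t₂ ∧ t₂ < 8 * w + 3) →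
    (ine w t₁).swap ∈ Orb TQ ω (BW w) (leg i) →
    (ine w t₂).swap ∈ Orb TQ ω (BW w) (leg (i + 1)) →
    lcf 1 ω ∈ PairT (w + σ) (d - σ) d w (2 * m + 12) σ m t₁ t₂ (epsT w t₁ t₂) := by
  obtain ⟨m, hm⟩ := exists_corr (K + 1)
  refine ⟨m, fun σ d w r i ω t₁ t₂ hσ hd hdw hwK hr hL hN ht₁ ht₂ hO₁ hO₂ => ?_⟩
  have hw : 0 < w := by omega
  have hm0 : (0 : ℤ) ≤ m := by positivity
  set n : ℤ := 2 * m + 12 with hn
  have hnσ : 8 * n ≤ σ := by omega
  obtain ⟨sec, kap, H⟩ := FA.exists_sec hw hL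
  obtain ⟨χ, hχ⟩ := exists_cutPot hw (hL (i + 2))
  obtain ⟨h, hh⟩ := exists_sepH (r := r) (d := d) (w := w) (W := w) (D := 2 * (4 * σ) + 1)
    (by omega) (by omega) hdw le_rfl (by omega) H hχ hN
  set S : Set (ℤ × ℤ) := {f | f ∈ An d w ∧ ∃ k, sec (TQ.c f k) = i} with hS
  obtain ⟨f₀, hf₀, hch⟩ := exists_corridor2 (S := S) (h := h) (L := (w + σ) + 4 * σ) (d := d)
    (ρ := 4 * σ) (by omega) (by omega) (by
      rintro s ⟨⟨-, hs⟩, -⟩ hc
      apply hs
      rw [mem_coe, mem_BW]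
      omega) hh
  obtain ⟨u, l, hc, hlen, hfar⟩ := hm (w + σ) σ (d - σ) S f₀ (by omega) (by omega) (by omega)
    (by push_cast; linarith) hf₀ hch
  have hlen' : (l.length : ℤ) ≤ m := by exact_mod_cast hlen
  have hd₀ : 1 < d - σ := by omega
  have hd₁ : d - σ + n ≤ d := by omega
  have hL₁ : w + n + 2 ≤ w + σ := by omega
  -- the starting faces
  have hAn : ∀ f ∈ BW w, f ∉ BW (w - 1) → f ∈ An d w := by
    intro f hf hf'
    refine ⟨hf, fun h => hf' ?_⟩
    exact BW_mono (show d ≤ w - 1 by omega) h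
  obtain ⟨f₁, hf₁, hf₁', k₁, e₁⟩ := ine_face (r := w) hw ht₁.1 ht₁.2
  obtain ⟨f₂, hf₂, hf₂', k₂, e₂⟩ := ine_face (r := w) hw ht₂.1 ht₂.2
  set μ : ℤ := ind (w + σ) (w + σ) u l f₁ with hμ
  set N : ℤ × ℤ → ℤ := fun f => ind (w + σ) (w + σ) u l f - μ with hNdef
  have hμle : |μ| ≤ m + 6 := by
    rw [hμ]
    exact (abs_ind_le _).trans (by linarith)
  have hNle : ∀ f, |N f| ≤ n := by
    intro f
    have h1 := abs_ind_le (L := w + σ) (w := w + σ) (u := u) (l := l) f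
    rw [hNdef]
    simp only
    rw [abs_le] at h1 hμle ⊢
    constructor <;> linarith
  -- the visited faces
  obtain ⟨v1, r1⟩ := vis_tip (W := w) (by omega) hdw le_rfl ht₁.1 ht₁.2 hO₁
  obtain ⟨v2, r2⟩ := vis_tip (W := w) (by omega) hdw le_rfl ht₂.1 ht₂.2 hO₂
  have hS1 : Vis TQ ω (An d w) (ine w t₁) ⊆ S := by
    intro f hf
    obtain ⟨⟨hfw, k, hk⟩, hfA⟩ := v1 hf
    exact ⟨hfA, k, (H.left i _ hk).1⟩
  have hS2 : Vis TQ ω (An d w) (ine w t₂) ⊆ S := by
    intro f hf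
    obtain ⟨⟨hfw, k, hk⟩, hfA⟩ := v2 hf
    refine ⟨hfA, k + 1, ?_⟩
    have h1 := (H.right (i + 1) _ hk).1
    change sec (TQ.c f (k + 1)) = _ at h1
    rw [h1]
    clear * -
    revert i
    decide
  have hI : ∀ X : Set (ℤ × ℤ), X ⊆ S → IsIndT X N := by
    intro X hX
    exact isIndT_ind hc hd₀ (by omega) hd₁ hL₁ (D := 2 * σ) (by omega) (fun f hf => (hX hf).1)
      (fun f hf => hfar f (hX hf)) hNle
  have hN1 : N f₁ = 0 := by
    rw [hNdef]
    simp only
    rw [hμ, sub_self]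
  -- the arc
  have hN2 : N f₂ = epsT w t₁ t₂ := by
    classical
    set s : Fin 3 → ℤ := fun j => if j = i then t₁ else if j = i + 1 then t₂ else
      (hL j).choose with hs
    have hs1 : s i = t₁ := by rw [hs]; simp
    have hi1 : i + 1 ≠ i := by
      clear * -
      revert i
      decide
    have hs2 : s (i + 1) = t₂ := by
      change (if i + 1 = i then t₁ else if i + 1 = i + 1 then t₂ else _) = t₂
      rw [if_neg hi1, if_pos rfl]
    have hsp : ∀ j, (0 ≤ s j ∧ s j < 8 * w + 3) ∧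
        (ine w (s j)).swap ∈ Orb TQ ω (An 0 w) (leg j) := by
      intro j
      by_cases h1 : j = i
      · subst h1
        rw [hs1]
        exact ⟨ht₁, by rw [LegsAux.an_zero]; exact hO₁⟩
      · by_cases h2 : j = i + 1
        · rw [h2, hs2]
          exact ⟨ht₂, by rw [LegsAux.an_zero]; exact hO₂⟩
        · have h3 : s j = (hL j).choose := by
            rw [hs]
            simp only
            rw [if_neg h1, if_neg h2]
          rw [h3]
          have h4 := (hL j).choose_spec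
          exact ⟨⟨h4.1, h4.2.1⟩, h4.2.2⟩
    have hcyc := cyc_out (d := 0) (w := w) (ω := ω) le_rfl hw (fun j => FA.ine_of_lt j) H
      (fun j => (hsp j).1) (fun j => (hsp j).2)
    set g : ℤ := gap (8 * w + 3) s i with hg
    have hg0 : 0 < g := hcyc.gap_pos i
    have hg1 : g < 8 * w + 3 := hcyc.gap_lt i
    have hgd := hcyc.dvd i
    rw [hs1, hs2, ← hg] at hgd
    have hmod : (t₁ + g) % (8 * w + 3) = t₂ := by
      have h1 := Int.emod_eq_emod_iff_emod_sub_eq_zero.2 (Int.emod_eq_zero_of_dvd hgd)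
      rw [h1, Int.emod_eq_of_lt ht₂.1 ht₂.2]
    have harcS : ∀ j, 0 ≤ j → j ≤ g → ∀ f ∈ BW w, ∀ k : ZMod 4,
        ine w ((t₁ + j) % (8 * w + 3)) = (TQ.c f k, TQ.c f (k + 1)) → FarP (2 * σ) u l f := by
      intro j hj0 hjg f hf k e
      refine hfar f ?_
      obtain ⟨x, hx⟩ : ∃ x, x = (t₁ + j) % (8 * w + 3) := ⟨_, rfl⟩
      have hx0 : 0 ≤ x := by rw [hx]; exact Int.emod_nonneg _ (by omega)
      have hx1 : x < 8 * w + 3 := by rw [hx]; exact Int.emod_lt_of_pos _ (by omega)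
      rw [← hx] at e
      obtain ⟨f', hf', hf'', k', e'⟩ := ine_face (r := w) hw hx0 hx1
      have e3 := e'.symm.trans e
      obtain ⟨rfl, rfl⟩ := TQ.inj (Prod.mk.inj e3).1 (Prod.mk.inj e3).2
      refine ⟨hAn f' hf' hf'', ?_⟩
      have hb1 : bdc w (t₁ + j) = TQ.c f' k' := by
        unfold bdc
        rw [← hx]
        exact (Prod.mk.inj e').1
      have hb2 : bdc w (t₁ + (j + 1)) = TQ.c f' (k' + 1) := by
        have h1 : bdc w (t₁ + (j + 1)) = bdc w (x + 1) := by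
          apply bdc_per
          have h2 := Int.emod_add_mul_ediv (t₁ + j) (8 * w + 3)
          exact ⟨(t₁ + j) / (8 * w + 3), by rw [hx]; linarith⟩
        rw [h1, bdc_succ hw.le hx0 hx1]
        exact (Prod.mk.inj e').2
      rcases hj0.lt_or_eq with h1 | h1
      · refine ⟨k', ?_⟩
        have h2 := (hcyc.arc i (n := j) (by omega) hjg).1
        simp only [hs1] at h2
        rw [← hb1]
        exact h2
      · refine ⟨k' + 1, ?_⟩
        have h2 := (hcyc.arc i (n := j + 1) (by omega) (by omega)).1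
        simp only [hs1] at h2
        rw [← hb2]
        exact h2
    have h5 := PA.arc_ind hc hd₀ (n := n) (D := 2 * σ) (by omega) hd₁ hdw hL₁ (by omega) ht₁.1
      ht₁.2 hg1 harcS e₁ (j := g) hg0.le le_rfl f₂ hf₂ k₂ (by rw [hmod]; exact e₂)
    rw [hNdef]
    simp only
    rw [h5, hμ]
    have hcase : t₁ + g = t₂ ∨ t₁ + g = t₂ + (8 * w + 3) := by
      rcases lt_or_ge (t₁ + g) (8 * w + 3) with h | h
      · left
        rw [Int.emod_eq_of_lt (by omega) h] at hmod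
        exact hmod
      · right
        rw [Int.emod_eq_sub_self_emod, Int.emod_eq_of_lt (by omega) (by omega)] at hmod
        omega
    unfold epsT
    have ha := ht₁.1
    have hb := ht₁.2
    have hc' := ht₂.1
    have hd' := ht₂.2
    clear * - hcase hg0 hg1 ha hb hc' hd' hw
    split_ifs <;> omega
  -- the lifts
  have hini : ∀ t, 0 ≤ t → t < 8 * w + 3 → Ini TQ (An d w) (ine w t) := fun t h0 h1 =>
    ini_outer (by omega) hdw h0 h1
  have lift : ∀ (t : ℤ) (f : ℤ × ℤ) (k : ZMod 4), 0 ≤ t → t < 8 * w + 3 → f ∈ BW w →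
      f ∉ BW (w - 1) → ine w t = (TQ.c f k, TQ.c f (k + 1)) →
      Vis TQ ω (An d w) (ine w t) ⊆ S → Rea d w ω t →
      RinT (lcf 1 ω) d w n (bdL w t (N f)) ∧
      ∀ s ∈ SL (lcf 1 ω) (LAT d w n) {bdL w t (N f)}, FarP σ u l s.1 ∧
        s.2 = ind (w + σ) (w + σ) u l s.1 - μ := by
    intro t f k h0 h1 hf hf' e hV hR
    have hfA := hAn f hf hf'
    have hst : shS N f k = bdL w t (N f) := bdL_out hw h0 h1 hf e N (by
      have := hNle f
      omega)
    have hi := hini t h0 h1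
    rw [e] at hi hV
    have hI' := hI _ hV
    rw [← hst]
    constructor
    · obtain ⟨s, hs0, hs1, hs⟩ := hR
      obtain ⟨g, hg, hg', k', e'⟩ := ine_opp (r := d) (by omega) hs0 hs1
      have hgA : g ∈ An d w := ⟨BW_mono (by omega) hg, hg'⟩
      refine ⟨s, N g, ⟨hs0, hs1⟩, ?_⟩
      rw [← bdL_in (by omega) hs0 hs1 hg' e' N (by have := hNle g; omega)]
      refine ML_liftT (by omega) hdw hfA hi hI' (fun f _ => hNle f) hgA ?_
      right
      rw [← e', Prod.swap_swap, ← e]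
      exact hs
    · intro s hs
      rw [SL_liftT (by omega) hdw hfA hi hI' (fun f _ => hNle f)] at hs
      obtain ⟨f', hf'', rfl⟩ := hs
      have hfS := hV hf''
      have hF := hfar f' hfS
      have hNf := hNle f'
      constructor
      · intro a ha
        have h2 := hF a ha
        change σ < max |a.1 - (f'.1 - N f')| |a.2.1 - f'.2|
        rw [lt_max_iff, lt_abs, lt_abs] at h2 ⊢
        rw [abs_le] at hNf
        omega
      · have h3 := ind_move hc hd₀ hd₁ hL₁ (D := 2 * σ) (by omega) hfS.1 hF (j := -N f')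
          (by rw [abs_neg]; exact hNf)
        change N f' = ind (w + σ) (w + σ) u l (f'.1 - N f', f'.2) - μ
        rw [sub_eq_add_neg f'.1, h3]
  obtain ⟨a1, a2⟩ := lift t₁ f₁ k₁ ht₁.1 ht₁.2 hf₁ hf₁' e₁ hS1 r1
  obtain ⟨b1, b2⟩ := lift t₂ f₂ k₂ ht₂.1 ht₂.2 hf₂ hf₂' e₂ hS2 r2
  rw [hN1] at a1 a2
  rw [hN2] at b1 b2
  refine ⟨a1, b1, u, l, μ, hc, hlen, hμle, fun s hs => ?_⟩
  rw [SL_union] at hs
  rcases hs with hs | hs
  · exact a2 s hs
  · exact b2 s hs

end Pool.Agent.Perc3
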