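import Pool.Agent.Lib.MP_6bd702_perc3.T3Fresh
import Pool.Agent.Lib.MP_6bd702_perc3.CloseOut

/-!
# T3, row Prob: the probability of a near touch
-/

set_option autoImplicit false

namespace Pool.Agent.Perc.Q

open Finset Pool.Agent.Perc Relation Pool.Agent.PercT BdAux

/-- Everything is determined by the explored faces. -/
theorem VT_congr {W : ℤ} {i : Fin 3} {ω ω' : Cfg} (h : ∀ f ∈ VT W ω i, ω f = ω' f) :
    VT W ω' i = VT W ω i := Vis_congr h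

theorem VR_congr {V Φ : Type} {Q : QC V Φ} {ω ω' : Φ → Bool} {F : Set Φ} {e : V × V}
    (h : ∀ f ∈ Vis Q ω F e, ω f = ω' f) : VR Q ω' F e = VR Q ω F e := by
  have hO := Orb_congr h
  ext f
  unfold VR
  rw [hO]
  constructor
  · rintro ⟨hf, k, hk, h2⟩
    exact ⟨hf, k, hk, by rw [h f ⟨hf, k, hk⟩]; exact h2⟩
  · rintro ⟨hf, k, hk, h2⟩
    exact ⟨hf, k, hk, by rw [← h f ⟨hf, k, hk⟩]; exact h2⟩

theorem ZT_congr {r : ℕ} {d w W : ℤ} {i : Fin 3} {ω ω' : Cfg}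
    (h : ∀ f ∈ VT W ω i, ω f = ω' f) : ZT r d w W ω' i = ZT r d w W ω i := by
  unfold ZT
  rw [VT_congr h, VR_congr h]

theorem ET_vt {r : ℕ} {d w W : ℤ} {i : Fin 3} {ω ω' : Cfg}
    (h : ∀ f ∈ ET r d w W ω i, ω f = ω' f) : ∀ f ∈ VT W ω i, ω f = ω' f :=
  fun f hf => h f (Or.inl hf)

/-- `ET` is a stopping set. -/
theorem ET_congr {r : ℕ} {d w W : ℤ} {i : Fin 3} {ω ω' : Cfg}
    (h : ∀ f ∈ ET r d w W ω i, ω f = ω' f) : ET r d w W ω' i = ET r d w W ω i := by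
  have h1 := ET_vt h
  unfold ET
  rw [VT_congr h1, ZT_congr h1]
  rw [Vis_congr fun f hf => h f (Or.inr hf)]

theorem ZT_sub {r : ℕ} {d w W : ℤ} {i : Fin 3} {ω : Cfg} {f : ℤ × ℤ}
    (h : f ∈ ZT r d w W ω i) : f ∈ An d w := by
  unfold ZT at h
  cases r with
  | zero => exact absurd h (Set.notMem_empty f)
  | succ r => exact h.1

/-- The explored event: the leg `i` reaches the boundary, the leg `i + 1` comes close to the right
side of the leg `i`. -/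
def ExEv (r : ℕ) (d w W : ℤ) (i : Fin 3) : Set Cfg :=
  {ω | Lea 0 W ω ((i : ℕ) : ℤ) ∧ ∃ x k, x ∈ ZT r d w W ω i ∧
    (TQ.c x k, TQ.c x (k + 1)) ∈ Orb TQ ω (An 0 W \ ZT r d w W ω i) (leg (i + 1))}

theorem exEv_congr {r : ℕ} {d w W : ℤ} {i : Fin 3} {ω ω' : Cfg} (hω : ω ∈ ExEv r d w W i)
    (h : ∀ f ∈ ET r d w W ω i, ω f = ω' f) : ω' ∈ ExEv r d w W i := by
  obtain ⟨⟨s, h0, h1, h2⟩, x, k, hx, hk⟩ := hω
  have h3 := ET_vt h
  refine ⟨⟨s, h0, h1, ?_⟩, x, k, ?_, ?_⟩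
  · have e : Orb TQ ω' (An 0 W) (ine 0 ((i : ℕ) : ℤ)).swap =
        Orb TQ ω (An 0 W) (ine 0 ((i : ℕ) : ℤ)).swap := Orb_congr h3
    rw [e]
    exact h2
  · rw [ZT_congr h3]
    exact hx
  · rw [ZT_congr h3, Orb_congr fun f hf => h f (Or.inr hf)]
    exact hk

/-- An arm to the outside of a box. -/
theorem arm_of_conn {d x : ℤ} (hd : 0 < d) {ω : Cfg} {F : Set (ℤ × ℤ)} (hx : Core x)
    {v : ℤ × ℤ} (hv : ConnQ TQ ω F (x, 0) v) (hv2 : InW d v → BdW d v) :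
    ∃ v, ConnW emP ω (BW d) (x, 0) v ∧ BdW d v := by
  have key : ∀ w, ConnQ TQ ω F (x, 0) w →
      (ConnQ TQ ω (BW d : Set (ℤ × ℤ)) (x, 0) w ∧ InW d w) ∨
        ∃ v, ConnQ TQ ω (BW d : Set (ℤ × ℤ)) (x, 0) v ∧ BdW d v := by
    intro w hw
    induction hw with
    | refl => exact Or.inl ⟨ReflTransGen.refl, LegsAux.inW_core hd.le hx⟩
    | tail _ hb ih =>
      rcases ih with ⟨h1, h2⟩ | h1
      · obtain ⟨f, hf, k, hk, rfl, rfl⟩ := hb
        by_cases hfR : f ∈ BW d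
        · exact Or.inl ⟨h1.tail ⟨f, hfR, k, hk, rfl, rfl⟩, inW_corner hd.le hfR _⟩
        · exact Or.inr ⟨_, h1, LegsAux.bdW_of_corner (by omega) hfR h2⟩
      · exact Or.inr h1
  rcases key v hv with ⟨h1, h2⟩ | ⟨v, h1, h2⟩
  · exact ⟨v, (connQ_iff emP_mono).1 h1, hv2 h2⟩
  · exact ⟨v, (connQ_iff emP_mono).1 h1, h2⟩

/-- The explored event implies three arms. -/
theorem exEv_arm {r : ℕ} {d w W : ℤ} (hd : 0 < d) (hdW : d < W) {i : Fin 3} {ω : Cfg}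
    (hω : ω ∈ ExEv r d w W i) : ω ∈ Arm3 d := by
  obtain ⟨⟨s, h0, h1, h2⟩, x, k, hx, hk⟩ := hω
  have hxd : x ∉ BW d := (ZT_sub hx).2
  have m1 := marks h2
  have m2 := marks hk
  have hout : ∀ t, 0 ≤ t → t ≤ 8 * W + 3 → InW d (bd W t) → BdW d (bd W t) := by
    intro t ht0 ht1 hin
    exfalso
    have h3 : BdW W (bd W t) := by
      rcases ht1.lt_or_eq with h | h
      · exact CO.bdW_bd (by omega) ht0 h
      · rw [h, bd_last (by omega)]
        exact CO.bdW_bd (by omega) le_rfl (by omega)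
    unfold InW at hin
    unfold BdW at h3
    omega
  have c1 : ConnQ TQ ω (An 0 W) (leg i).1 (bd W (s + 1)) := m1.1.mono Vis_sub
  have c2 : ConnQ TQ ω (An 0 W) (leg i).2 (bd W s) := m1.2.mono Vis_sub
  have c3 : ConnQ TQ ω (An 0 W) (leg (i + 1)).1 (TQ.c x k) :=
    (m2.1.mono Vis_sub).mono Set.sdiff_subset
  rw [CO.mark_eq] at c2
  intro y hy
  obtain ⟨j, hj⟩ := CO.core_leg hy
  have hji : j = i ∨ j = i + 2 ∨ j = i + 1 := by
    clear * -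
    revert i j
    decide
  rcases hji with rfl | rfl | rfl
  · rw [hj] at c1
    exact arm_of_conn hd hy c1 (hout _ (by omega) (by omega))
  · rw [hj] at c2
    exact arm_of_conn hd hy c2 (hout _ (by omega) (by omega))
  · rw [hj] at c3
    exact arm_of_conn hd hy c3 fun h => CO.bdW_of_out hd hxd k h

theorem lea3_of_arm {W : ℤ} (hW : 1 ≤ W) {ω : Cfg} (hω : ω ∈ Arm3 W) : Lea3 W ω := by
  intro j
  obtain ⟨t, h0, h1, h2⟩ := LegsAux.exit_leg hW hω j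
  refine ⟨t, h0, h1, ?_⟩
  rw [CO.An_zero]
  exact h2

/-- The fresh configuration has an arm. -/
theorem fresh_det {r : ℕ} {d w W : ℤ} (hd : 0 < d) (hdw : d < w) (hwW : w + d ≤ W) {i : Fin 3}
    {ω ξ : Cfg} {x : ℤ × ℤ} {k : ZMod 4} (hx : x ∈ ZT r d w w ω i)
    (hk : (TQ.c x k, TQ.c x (k + 1)) ∈ Orb TQ ω (An 0 w \ ZT r d w w ω i) (leg (i + 1)))
    (hLw : Lea3 w (mix (ET r d w w ω i) ω ξ))
    (hζ : mix (ET r d w w ω i) ω ξ ∈ Arm3 W ∩ NT r d w w i) :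
    ∃ y z, dT y x ≤ r + 2 ∧ d - 4 ≤ dT z x ∧ ConnQ TQ ξ (BW W) y z := by
  set ζ := mix (ET r d w w ω i) ω ξ with hζd
  have hag : ∀ f ∈ ET r d w w ω i, ω f = ζ f := fun f hf => (mix_of_mem hf).symm
  obtain ⟨x', k', y, t, hx', hk', hy, ht, hc⟩ :=
    fresh_arm hd hdw (by omega) (lea3_of_arm (by omega) hζ.1) hLw hζ.2
  have h3 := ET_vt hag
  rw [ZT_congr h3] at hx' hk'
  rw [Orb_congr fun f hf => hag f (Or.inr hf)] at hk'
  rw [ET_congr hag] at hc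
  have hter : ∀ (x : ℤ × ℤ) (k : ZMod 4), x ∈ ZT r d w w ω i →
      Ter TQ (An 0 w \ ZT r d w w ω i) (TQ.c x k, TQ.c x (k + 1)) := by
    intro x k hx f hf l hl
    have h5 := Prod.mk.inj hl
    have h6 := TQ.inj h5.1 h5.2
    exact hf.2 (h6.1 ▸ hx)
  have he := ter_unique hk hk' (hter x k hx) (hter x' k' hx')
  have h5 := Prod.mk.inj he
  have h6 := (TQ.inj h5.1 h5.2).1
  subst h6
  refine ⟨y, bd W t, hy, ?_, ?_⟩
  · have h7 := CO.bdW_bd (R := W) (by omega) ht.1 ht.2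
    have h8 := (ZT_sub hx).1
    rw [mem_coe, mem_BW] at h8
    rw [CO.le_dT]
    unfold BdW at h7
    omega
  · refine (ConnQ.congr (fun f hf => ?_) hc).mono ?_
    · exact mix_of_notMem hf.2
    · rw [CO.An_zero]
      exact Set.sdiff_subset

/-- Near touches cost the power `β` of the ratio of the scales. -/
theorem nt_prob : ∃ C β : ℝ, 0 < C ∧ 0 < β ∧ ∀ (r d w W : ℕ) (i : Fin 3), 1 ≤ r → 1 ≤ d → d < w →
    w + d ≤ W → pr (BW W) (Arm3 W ∩ NT r d w w i) ≤ C * ((r : ℝ) / d) ^ β * pr (BW d) (Arm3 d) := by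
  obtain ⟨C, β, hC, hβ, hone⟩ := oneArmT
  refine ⟨C * 12 ^ β + 12 ^ β, β, by positivity, hβ, ?_⟩
  intro r d w W i hr hd hdw hwW
  have hr0 : (0 : ℝ) < r := by exact_mod_cast hr
  have hd0 : (0 : ℝ) < d := by exact_mod_cast hd
  have hsub : BW (d : ℤ) ⊆ BW (W : ℤ) := BW_sub (by omega)
  have hArm : pr (BW (W : ℤ)) (Arm3 d) = pr (BW d) (Arm3 d) :=
    pr_eq_of_depOn (depOn_arm3' (d : ℤ)) hsub
  have hp0 : 0 ≤ pr (BW (d : ℤ)) (Arm3 d) := pr_nonneg _ _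
  by_cases hbig : d < r + 10
  · -- trivial case
    have h1 : pr (BW (W : ℤ)) (Arm3 W ∩ NT r d w w i) ≤ pr (BW (d : ℤ)) (Arm3 d) := by
      rw [← hArm]
      refine pr_mono _ fun ω h => ?_
      exact arm3Anti d W hd (by omega) ω h.1
    have h2 : (1 : ℝ) ≤ 12 ^ β * ((r : ℝ) / d) ^ β := by
      rw [← Real.mul_rpow (by norm_num) (by positivity)]
      refine Real.one_le_rpow ?_ hβ.le
      rw [← mul_div_assoc, one_le_div hd0]
      have : d ≤ 12 * r := by omega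
      exact_mod_cast this
    have h3 : (1 : ℝ) ≤ (C * 12 ^ β + 12 ^ β) * ((r : ℝ) / d) ^ β := by
      have : 0 ≤ C * 12 ^ β * ((r : ℝ) / d) ^ β := by positivity
      rw [add_mul]
      linarith
    calc pr (BW (W : ℤ)) (Arm3 W ∩ NT r d w w i) ≤ 1 * pr (BW (d : ℤ)) (Arm3 d) := by
          rw [one_mul]; exact h1
      _ ≤ _ := mul_le_mul_of_nonneg_right h3 hp0
  rw [not_lt] at hbig
  set q : ℝ := C * (((r + 2 : ℤ) : ℝ) / ((d - 4 : ℤ) : ℝ)) ^ β with hq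
  have hchoose : ∀ ω ∈ ExEv r d w w i, ∃ p : (ℤ × ℤ) × ZMod 4, p.1 ∈ ZT r d w w ω i ∧
      (TQ.c p.1 p.2, TQ.c p.1 (p.2 + 1)) ∈
        Orb TQ ω (An 0 w \ ZT r d w w ω i) (leg (i + 1)) := by
    rintro ω ⟨-, x, k, hx, hk⟩
    exact ⟨(x, k), hx, hk⟩
  choose! p hpZ hpO using hchoose
  have hLw : ∀ ω ∈ Arm3 (W : ℤ), Lea3 (w : ℤ) ω := fun ω hω =>
    lea3_of_arm (by omega) (arm3Anti w W (by omega) (by omega) ω hω)
  have hmix := pr_mix_le (W := BW W) (S := fun ω => ET r d w w ω i)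
    (fun ω ω' h => ET_congr h) (A := ExEv r d w w i)
    (fun ω hω ω' h => exEv_congr hω h)
    (fun ω => {ξ | ∃ y z, dT y (p ω).1 ≤ ((r + 2 : ℤ)) ∧
      (d - 4 : ℤ) ≤ dT z (p ω).1 ∧ ConnQ TQ ξ (BW W) y z})
    (Arm3 W ∩ NT r d w w i) (q := q)
    (fun ω hω => by
      refine hone (p ω).1 (r + 2) (d - 4) (BW W) (by omega) (by omega) ?_
      have h8 := (ZT_sub (hpZ ω hω)).2
      rw [mem_coe, mem_BW] at h8
      rw [le_max_iff, le_abs, le_abs]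
      omega)
    (fun ω hω ξ hξ => fresh_det (by omega) (by omega) (by omega) (hpZ ω hω) (hpO ω hω)
      (hLw _ hξ.1) hξ)
  have hsubset : Arm3 W ∩ NT r d w w i ⊆ ExEv r d w w i ∩ (Arm3 W ∩ NT r d w w i) := by
    intro ω hω
    refine ⟨?_, hω⟩
    have hL := lea3_of_arm (W := W) (by omega) hω.1
    obtain ⟨x, k, y, t, hx, hk, -⟩ :=
      fresh_arm (by omega) (by omega) (by omega) hL (hLw ω hω.1) hω.2
    exact ⟨hLw ω hω.1 i, x, k, hx, hk⟩
  have hq0 : 0 ≤ q := by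
    rw [hq]
    have : (0 : ℝ) ≤ ((d - 4 : ℤ) : ℝ) := by
      have : (0 : ℤ) ≤ d - 4 := by omega
      exact_mod_cast this
    positivity
  calc pr (BW (W : ℤ)) (Arm3 W ∩ NT r d w w i)
      ≤ pr (BW (W : ℤ)) (ExEv r d w w i ∩ (Arm3 W ∩ NT r d w w i)) := pr_mono _ hsubset
    _ ≤ q * pr (BW (W : ℤ)) (ExEv r d w w i) := hmix
    _ ≤ q * pr (BW (W : ℤ)) (Arm3 d) := by
        refine mul_le_mul_of_nonneg_left (pr_mono _ fun ω h => ?_) hq0
        exact exEv_arm (by omega) (by omega) h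
    _ = q * pr (BW d) (Arm3 d) := by rw [hArm]
    _ ≤ (C * 12 ^ β + 12 ^ β) * ((r : ℝ) / d) ^ β * pr (BW (d : ℤ)) (Arm3 d) := by
        refine mul_le_mul_of_nonneg_right ?_ hp0
        have h1 : (((r + 2 : ℤ) : ℝ) / ((d - 4 : ℤ) : ℝ)) ≤ 12 * ((r : ℝ) / d) := by
          have e1 : ((d - 4 : ℤ) : ℝ) = (d : ℝ) - 4 := by push_cast; ring
          have e2 : ((r + 2 : ℤ) : ℝ) = (r : ℝ) + 2 := by push_cast; ring
          rw [e1, e2]
          have e3 : (r : ℝ) + 10 ≤ d := by exact_mod_cast hbig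
          have e4 : (1 : ℝ) ≤ r := by exact_mod_cast hr
          rw [← mul_div_assoc, div_le_div_iff₀ (by linarith) hd0]
          nlinarith
        have h2 : (0 : ℝ) ≤ (((r + 2 : ℤ) : ℝ) / ((d - 4 : ℤ) : ℝ)) := by
          have : (0 : ℝ) ≤ ((d - 4 : ℤ) : ℝ) := by
            have : (0 : ℤ) ≤ d - 4 := by omega
            exact_mod_cast this
          positivity
        have h3 := Real.rpow_le_rpow h2 h1 hβ.le
        rw [Real.mul_rpow (by norm_num) (by positivity)] at h3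
        calc q ≤ C * (12 ^ β * ((r : ℝ) / d) ^ β) := mul_le_mul_of_nonneg_left h3 hC.le
          _ ≤ _ := by
            have : 0 ≤ 12 ^ β * ((r : ℝ) / d) ^ β := by positivity
            linarith

end Pool.Agent.Perc.Q
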