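import Pool.Agent.Lib.MP_6bd702_perc3.TTBd
import Pool.Agent.Lib.MP_6bd702_perc3.T2All
import Pool.Agent.Lib.MP_6bd702_perc3.Routes
import Pool.Agent.Lib.MP_6bd702_pr_h60.C1Bridge

/-!
# The bound for the pairs of strands in the grid with a dislocation
-/

set_option autoImplicit false

namespace Pool.Agent.Perc.TTBd

open Finset Pool.Agent.Perc Pool.Agent.Perc.Q
open Pool.Agent.Perc3 (ReachT TBT sum_pairL_le)

/-- The comparison of the powers. -/
theorem pow_cmp {d w r s : ℝ} (hd : 0 < d) (hw : 0 < w) (hr : 0 < r) (hs : 0 < s)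
    (h1 : r ≤ 2 * d) (h2 : w ≤ 2 * s) :
    (r / s) ^ (2 / 3 : ℝ) ≤ 4 * (d / w) ^ (2 / 3 : ℝ) := by
  have h3 : r / s ≤ 4 * (d / w) := by
    rw [← mul_div_assoc, div_le_div_iff₀ hs hw]
    calc r * w ≤ (2 * d) * (2 * s) := mul_le_mul h1 h2 hw.le (by linarith)
      _ = 4 * d * s := by ring
  calc (r / s) ^ (2 / 3 : ℝ) ≤ (4 * (d / w)) ^ (2 / 3 : ℝ) :=
        Real.rpow_le_rpow (by positivity) h3 (by norm_num)
    _ = (4 : ℝ) ^ (2 / 3 : ℝ) * (d / w) ^ (2 / 3 : ℝ) :=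
        Real.mul_rpow (by norm_num) (by positivity)
    _ ≤ 4 * (d / w) ^ (2 / 3 : ℝ) := by
        refine mul_le_mul_of_nonneg_right ?_ (by positivity)
        calc (4 : ℝ) ^ (2 / 3 : ℝ) ≤ (4 : ℝ) ^ (1 : ℝ) :=
              Real.rpow_le_rpow_of_exponent_le (by norm_num) (by norm_num)
          _ = 4 := Real.rpow_one _

/-- **The bound for the pairs of strands in the grid with a dislocation.** -/
theorem ttBound : PercS5.TTBound := by
  obtain ⟨C, hC, hn⟩ := nT_le_top Rt.portsP Rt.routesP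
  refine ⟨8, 12 * C, by positivity, ?_⟩
  intro L w d N hd hN hNd hA hwL
  have h1 := sum_pairL_le (L := L) (w := w) (d := d) (n := N) (k := 2) (by omega) (by omega) hN
    (by omega) (by norm_num) (r := d + N + 1) le_rfl (RF (-L - N) (L + N) (-w) w)
  have h2 := sum_reach_le (M := L + 1) (L := L + N) (w := w) (r := d + N + 1) (w' := w - 1)
    (by omega) (by omega) (by omega) (by omega)
  rw [show -(L + N) = -L - N by ring] at h2
  obtain ⟨r₀, hr₀⟩ := Int.eq_ofNat_of_zero_le (show 0 ≤ d + N + 1 by omega)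
  obtain ⟨w₀, hw₀⟩ := Int.eq_ofNat_of_zero_le (show 0 ≤ w - 1 by omega)
  have h3 := hn r₀ w₀ (by omega) (by omega)
  rw [← hr₀, ← hw₀] at h3
  have hrr : (r₀ : ℝ) = d + N + 1 := by exact_mod_cast hr₀.symm
  have hwr : (w₀ : ℝ) = w - 1 := by exact_mod_cast hw₀.symm
  have hdr : (1 : ℝ) < d := by exact_mod_cast hd
  have hNr : (1 : ℝ) ≤ N := by exact_mod_cast hN
  have hNdr : (N : ℝ) + 2 ≤ d := by exact_mod_cast hNd
  have hAr : 8 * (d : ℝ) < w := by exact_mod_cast hA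
  have h4 := pow_cmp (d := d) (w := w) (r := r₀) (s := w₀) (by linarith) (by linarith)
    (by rw [hrr]; linarith) (by rw [hwr]; linarith) (by rw [hrr]; linarith)
    (by rw [hwr]; linarith)
  calc _ ≤ 3 * nT (d + N + 1) (w - 1) :=
        h1.trans (mul_le_mul_of_nonneg_left h2 (by norm_num))
    _ ≤ 3 * (C * (4 * ((d : ℝ) / w) ^ (2 / 3 : ℝ))) :=
        mul_le_mul_of_nonneg_left (h3.trans (mul_le_mul_of_nonneg_left h4 hC.le)) (by norm_num)
    _ = 12 * C * ((d : ℝ) / w) ^ (2 / 3 : ℝ) := by ring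

/-- The upper bound C1 without hypotheses. -/
theorem targetC1 : PercS5.TargetC1 := PercS5.targetC1_of ttBound

end Pool.Agent.Perc.TTBd
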