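import Pool.Agent.Lib.MP_6bd702_perc3.TriR

/-!
# The ends of the paths (task TriG, helper71)
-/

set_option autoImplicit false

namespace Pool.Agent.Perc

open Finset Function

namespace TriG

/-- The step with the parity. -/
def st (u : St) (x : ℕ × Bool) : ℕ × Bool := (u.1 x.1, xor x.2 (u.2 x.1))

theorem st_st {u : St} (hu : LInv u) (x : ℕ × Bool) : st u (st u x) = x := by
  refine Prod.ext (hu.inv _) ?_
  show xor (xor x.2 (u.2 x.1)) (u.2 (u.1 x.1)) = x.2
  rw [hu.lab, Bool.xor_assoc, Bool.xor_self, Bool.xor_false]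

theorem st_fix {u : St} (hu : LInv u) {x : ℕ × Bool} (h : u.1 x.1 = x.1) : st u x = x := by
  refine Prod.ext h ?_
  show xor x.2 (u.2 x.1) = x.2
  rw [hu.fix _ h, Bool.xor_false]

variable {N : ℕ} {u d : St}

/-- First `u`, then `d`. -/
def FF (u d : St) (x : ℕ × Bool) : ℕ × Bool := st d (st u x)

/-- The same on nodes. -/
def ff (u d : St) (x : ℕ) : ℕ := d.1 (u.1 x)

theorem FF_fst (x : ℕ × Bool) : (FF u d x).1 = ff u d x.1 := rfl

theorem FF_iter_fst (k : ℕ) (x : ℕ × Bool) : ((FF u d)^[k] x).1 = (ff u d)^[k] x.1 := by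
  induction k with
  | zero => rfl
  | succ k ih => rw [iterate_succ_apply', iterate_succ_apply', FF_fst, ih]

theorem ff_inj (hu : LInv u) (hd : LInv d) : Injective (ff u d) := by
  intro x y h
  have h1 : d.1 (d.1 (u.1 x)) = d.1 (d.1 (u.1 y)) := congrArg d.1 h
  rw [hd.inv, hd.inv] at h1
  have h2 := congrArg u.1 h1
  rwa [hu.inv, hu.inv] at h2

theorem FF_inj (hu : LInv u) (hd : LInv d) : Injective (FF u d) := by
  intro x y h
  have h1 : st d (st d (st u x)) = st d (st d (st u y)) := congrArg (st d) h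
  rw [st_st hd, st_st hd] at h1
  have h2 := congrArg (st u) h1
  rwa [st_st hu, st_st hu] at h2

/-- The reflection in `u`. -/
theorem reflU (hu : LInv u) (hd : LInv d) {a₀ : ℕ × Bool} (ha : st d a₀ = a₀) (k : ℕ) :
    (FF u d)^[k + 1] (st u ((FF u d)^[k] a₀)) = a₀ := by
  induction k with
  | zero =>
    show st d (st u (st u a₀)) = a₀
    rw [st_st hu, ha]
  | succ k ih =>
    rw [iterate_succ_apply]
    have : FF u d (st u ((FF u d)^[k + 1] a₀)) = st u ((FF u d)^[k] a₀) := by
      rw [iterate_succ_apply']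
      show st d (st u (st u (st d (st u ((FF u d)^[k] a₀))))) = _
      rw [st_st hu, st_st hd]
    rw [this, ih]

/-- The reflection in `d`. -/
theorem reflD (hu : LInv u) (hd : LInv d) {a₀ : ℕ × Bool} (ha : st d a₀ = a₀) (k : ℕ) :
    (FF u d)^[k] (st d ((FF u d)^[k] a₀)) = a₀ := by
  induction k with
  | zero => exact ha
  | succ k ih =>
    rw [iterate_succ_apply]
    have : FF u d (st d ((FF u d)^[k + 1] a₀)) = st d ((FF u d)^[k] a₀) := by
      rw [iterate_succ_apply']
      show st d (st u (st d (st d (st u ((FF u d)^[k] a₀))))) = _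
      rw [st_st hd, st_st hu]
    rw [this, ih]

/-- The nodes which are reached. -/
theorem form {a₀ b : ℕ × Bool} (hu : LInv u) (hd : LInv d) (ha : st d a₀ = a₀)
    (h : PR u d a₀ b) : ∃ k, b = (FF u d)^[k] a₀ ∨ b = st u ((FF u d)^[k] a₀) := by
  induction h with
  | refl => exact ⟨0, Or.inl rfl⟩
  | @tail b c _ hbc ih =>
    have hc : c = st u b ∨ c = st d b := by
      rcases hbc with ⟨e1, e2⟩ | ⟨e1, e2⟩
      · exact Or.inl (Prod.ext e1 e2)
      · exact Or.inr (Prod.ext e1 e2)
    obtain ⟨k, hk | hk⟩ := ih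
    · rcases hc with hc | hc
      · exact ⟨k, Or.inr (by rw [hc, hk])⟩
      · rcases k with _ | k
        · exact ⟨0, Or.inl (by rw [hc, hk]; exact ha)⟩
        · refine ⟨k, Or.inr ?_⟩
          rw [hc, hk, iterate_succ_apply']
          exact st_st hd _
    · rcases hc with hc | hc
      · exact ⟨k, Or.inl (by rw [hc, hk]; exact st_st hu _)⟩
      · refine ⟨k + 1, Or.inl ?_⟩
        rw [hc, hk, iterate_succ_apply']; rfl

theorem reach (u d : St) (a₀ : ℕ × Bool) (k : ℕ) : PR u d a₀ ((FF u d)^[k] a₀) := by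
  induction k with
  | zero => exact PR.refl _ _ _
  | succ k ih =>
    rw [iterate_succ_apply']
    exact (ih.trans (PR.stepU _ _)).trans (PR.stepD _ _)

/-- The period. -/
theorem period_pos (hu : LInv u) (hd : LInv d) (huN : ∀ x < N, u.1 x < N)
    (hdN : ∀ x < N, d.1 x < N) {a : ℕ} (ha : a < N) : 0 < minimalPeriod (ff u d) a := by
  have hmem : ∀ k, (ff u d)^[k] a < N := by
    intro k
    induction k with
    | zero => exact ha
    | succ k ih => rw [iterate_succ_apply']; exact hdN _ (huN _ ih)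
  obtain ⟨i, j, hij, he⟩ : ∃ i j, i < j ∧ (ff u d)^[i] a = (ff u d)^[j] a := by
    by_contra hcon
    push Not at hcon
    have hinj : Injective fun k : Fin (N + 1) => (⟨(ff u d)^[(k : ℕ)] a, hmem _⟩ : Fin N) := by
      intro x y hxy
      have h1 : (ff u d)^[(x : ℕ)] a = (ff u d)^[(y : ℕ)] a := congrArg Fin.val hxy
      rcases lt_trichotomy (x : ℕ) (y : ℕ) with h | h | h
      · exact absurd h1 (hcon _ _ h)
      · exact Fin.ext h
      · exact absurd h1.symm (hcon _ _ h)
    have := Fintype.card_le_of_injective _ hinj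
    rw [Fintype.card_fin, Fintype.card_fin] at this
    omega
  refine IsPeriodicPt.minimalPeriod_pos (n := j - i) (by omega) ?_
  show (ff u d)^[j - i] a = a
  have h1 : (ff u d)^[i] ((ff u d)^[j - i] a) = (ff u d)^[i] a := by
    rw [← iterate_add_apply, he]
    congr 1
    omega
  exact (ff_inj hu hd).iterate i h1

/-- The middle of the period is the other end, and the period has parity `false`. -/
theorem middle (hu : LInv u) (hd : LInv d) {a : ℕ} (ha : d.1 a = a) :
    (FF u d)^[minimalPeriod (ff u d) a] (a, false) = (a, false) ∧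
      (u.1 ((ff u d)^[minimalPeriod (ff u d) a / 2] a) = (ff u d)^[minimalPeriod (ff u d) a / 2] a ∨
        d.1 ((ff u d)^[minimalPeriod (ff u d) a / 2] a) =
          (ff u d)^[minimalPeriod (ff u d) a / 2] a) := by
  set T := minimalPeriod (ff u d) a with hT
  have hper : (ff u d)^[T] a = a := iterate_minimalPeriod
  have ha' : st d (a, false) = (a, false) := st_fix hd ha
  rcases Nat.even_or_odd' T with ⟨k, hk | hk⟩
  · have e : T / 2 = k := by omega
    rw [e]
    have h1 := reflD hu hd ha' k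
    have h2 := congrArg Prod.fst h1
    rw [FF_iter_fst] at h2
    have h3 : (ff u d)^[k] (d.1 ((ff u d)^[k] a)) = (ff u d)^[k] ((ff u d)^[k] a) := by
      have h4 : (ff u d)^[k] ((ff u d)^[k] a) = a := by
        rw [← iterate_add_apply, show k + k = T by omega, hper]
      rw [h4]
      have h5 : (st d ((FF u d)^[k] (a, false))).1 = d.1 ((ff u d)^[k] a) := by
        show d.1 ((FF u d)^[k] (a, false)).1 = _
        rw [FF_iter_fst]
      rw [h5] at h2
      exact h2
    have h4 := (ff_inj hu hd).iterate k h3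
    refine ⟨?_, Or.inr h4⟩
    have h5 : st d ((FF u d)^[k] (a, false)) = (FF u d)^[k] (a, false) := by
      apply st_fix hd
      rw [FF_iter_fst]
      exact h4
    rw [h5, ← iterate_add_apply, show k + k = T by omega] at h1
    exact h1
  · have e : T / 2 = k := by omega
    rw [e]
    have h1 := reflU hu hd ha' k
    have h2 := congrArg Prod.fst h1
    rw [FF_iter_fst] at h2
    have h3 : (ff u d)^[k + 1] (u.1 ((ff u d)^[k] a)) = (ff u d)^[k + 1] ((ff u d)^[k] a) := by
      have h4 : (ff u d)^[k + 1] ((ff u d)^[k] a) = a := by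
        rw [← iterate_add_apply, show k + 1 + k = T by omega, hper]
      rw [h4]
      have h5 : (st u ((FF u d)^[k] (a, false))).1 = u.1 ((ff u d)^[k] a) := by
        show u.1 ((FF u d)^[k] (a, false)).1 = _
        rw [FF_iter_fst]
      rw [h5] at h2
      exact h2
    have h4 := (ff_inj hu hd).iterate (k + 1) h3
    refine ⟨?_, Or.inl h4⟩
    have h5 : st u ((FF u d)^[k] (a, false)) = (FF u d)^[k] (a, false) := by
      apply st_fix hu
      rw [FF_iter_fst]
      exact h4
    rw [h5, ← iterate_add_apply, show k + 1 + k = T by omega] at h1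
    exact h1

theorem FF_mul {x : ℕ × Bool} {T : ℕ} (h : (FF u d)^[T] x = x) (j : ℕ) :
    (FF u d)^[T * j] x = x := by
  rw [iterate_mul]
  exact iterate_fixed h j

/-- Every node which is reached is in the forward orbit, before one period. -/
theorem form' (hu : LInv u) (hd : LInv d) (huN : ∀ x < N, u.1 x < N)
    (hdN : ∀ x < N, d.1 x < N) {a : ℕ} (haN : a < N) (ha : d.1 a = a) {b : ℕ × Bool}
    (h : PR u d (a, false) b) :
    ∃ k < minimalPeriod (ff u d) a, b = (FF u d)^[k] (a, false) := by
  have hT := period_pos hu hd huN hdN haN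
  have ha' : st d (a, false) = (a, false) := st_fix hd ha
  obtain ⟨hm, -⟩ := middle hu hd ha
  set T := minimalPeriod (ff u d) a
  have key : ∀ k, ∃ l < T, (FF u d)^[k] (a, false) = (FF u d)^[l] (a, false) := by
    intro k
    refine ⟨k % T, Nat.mod_lt _ hT, ?_⟩
    conv_lhs => rw [← Nat.mod_add_div k T, iterate_add_apply, FF_mul hm]
  obtain ⟨k, hk | hk⟩ := form hu hd ha' h
  · obtain ⟨l, hl, e⟩ := key k
    exact ⟨l, hl, hk.trans e⟩
  · have h1 := reflU hu hd ha' k
    have h2 : (FF u d)^[k + 1] ((FF u d)^[T * (k + 1) - (k + 1)] (a, false)) = (a, false) := by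
      rw [← iterate_add_apply]
      have : k + 1 + (T * (k + 1) - (k + 1)) = T * (k + 1) := by
        have : k + 1 ≤ T * (k + 1) := Nat.le_mul_of_pos_left _ hT
        omega
      rw [this, FF_mul hm]
    have h3 := (FF_inj hu hd).iterate (k + 1) (h1.trans h2.symm)
    obtain ⟨l, hl, e⟩ := key (T * (k + 1) - (k + 1))
    exact ⟨l, hl, hk.trans (h3.trans e)⟩

/-- The index of an end. -/
theorem index_end (hu : LInv u) (hd : LInv d) {a : ℕ} (ha : d.1 a = a) {k : ℕ} (hk0 : 0 < k)
    (hk : k < minimalPeriod (ff u d) a)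
    (h : u.1 ((ff u d)^[k] a) = (ff u d)^[k] a ∨ d.1 ((ff u d)^[k] a) = (ff u d)^[k] a) :
    k = minimalPeriod (ff u d) a / 2 := by
  have ha' : st d (a, false) = (a, false) := st_fix hd ha
  set T := minimalPeriod (ff u d) a with hT
  rcases h with h | h
  · have h1 := congrArg Prod.fst (reflU hu hd ha' k)
    rw [FF_iter_fst] at h1
    have h5 : (st u ((FF u d)^[k] (a, false))).1 = (ff u d)^[k] a := by
      show u.1 ((FF u d)^[k] (a, false)).1 = _
      rw [FF_iter_fst]; exact h
    rw [h5, ← iterate_add_apply] at h1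
    have h2 : T ∣ k + 1 + k := IsPeriodicPt.minimalPeriod_dvd h1
    obtain ⟨c, hc⟩ := h2
    have h3 : c = 1 := by
      rcases c with _ | _ | c
      · omega
      · rfl
      · nlinarith
    rw [h3] at hc
    omega
  · have h1 := congrArg Prod.fst (reflD hu hd ha' k)
    rw [FF_iter_fst] at h1
    have h5 : (st d ((FF u d)^[k] (a, false))).1 = (ff u d)^[k] a := by
      show d.1 ((FF u d)^[k] (a, false)).1 = _
      rw [FF_iter_fst]; exact h
    rw [h5, ← iterate_add_apply] at h1
    have h2 : T ∣ k + k := IsPeriodicPt.minimalPeriod_dvd h1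
    obtain ⟨c, hc⟩ := h2
    have h3 : c = 1 := by
      rcases c with _ | _ | c
      · omega
      · rfl
      · nlinarith
    rw [h3] at hc
    omega

theorem two_ends_d (hu : LInv u) (hd : LInv d) (huN : ∀ x < N, u.1 x < N)
    (hdN : ∀ x < N, d.1 x < N) {a b c : ℕ} {ε δ : Bool} (haN : a < N) (ha : d.1 a = a)
    (hb : u.1 b = b ∨ d.1 b = b) (hc : u.1 c = c ∨ d.1 c = c)
    (hab : PR u d (a, false) (b, ε)) (hac : PR u d (a, false) (c, δ)) :
    a = b ∨ a = c ∨ b = c := by
  obtain ⟨k, hk, ek⟩ := form' hu hd huN hdN haN ha hab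
  obtain ⟨l, hl, el⟩ := form' hu hd huN hdN haN ha hac
  have ek' : b = (ff u d)^[k] a := by
    have := congrArg Prod.fst ek
    rwa [FF_iter_fst] at this
  have el' : c = (ff u d)^[l] a := by
    have := congrArg Prod.fst el
    rwa [FF_iter_fst] at this
  rcases Nat.eq_zero_or_pos k with h0 | h0
  · left; rw [ek', h0]; rfl
  rcases Nat.eq_zero_or_pos l with h1 | h1
  · right; left; rw [el', h1]; rfl
  right; right
  rw [ek'] at hb
  rw [el'] at hc
  rw [ek', el', index_end hu hd ha h0 hk hb, index_end hu hd ha h1 hl hc]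

theorem parity_d (hu : LInv u) (hd : LInv d) (huN : ∀ x < N, u.1 x < N)
    (hdN : ∀ x < N, d.1 x < N) {a b : ℕ} {ε δ : Bool} (haN : a < N) (ha : d.1 a = a)
    (h : PR u d (a, false) (b, ε)) (h' : PR u d (a, false) (b, δ)) : ε = δ := by
  obtain ⟨k, hk, ek⟩ := form' hu hd huN hdN haN ha h
  obtain ⟨l, hl, el⟩ := form' hu hd huN hdN haN ha h'
  have ek' : b = (ff u d)^[k] a := by
    have := congrArg Prod.fst ek
    rwa [FF_iter_fst] at this
  have el' : b = (ff u d)^[l] a := by
    have := congrArg Prod.fst el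
    rwa [FF_iter_fst] at this
  have hkl : k = l := by
    have h1 : (ff u d)^[k] a = (ff u d)^[l] a := ek'.symm.trans el'
    rwa [iterate_eq_iterate_iff_of_lt_minimalPeriod hk hl] at h1
  rw [hkl] at ek
  exact congrArg Prod.snd (ek.trans el.symm)

theorem exists_end_d (hu : LInv u) (hd : LInv d) (huN : ∀ x < N, u.1 x < N)
    (hdN : ∀ x < N, d.1 x < N) {a : ℕ} (haN : a < N) (ha : d.1 a = a) (hne : u.1 a ≠ a) :
    ∃ b ε, b ≠ a ∧ (u.1 b = b ∨ d.1 b = b) ∧ PR u d (a, false) (b, ε) := by
  have hT := period_pos hu hd huN hdN haN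
  obtain ⟨-, hm⟩ := middle hu hd ha
  set T := minimalPeriod (ff u d) a with hTdef
  have hT2 : 1 < T := by
    rcases Nat.lt_or_ge 1 T with h | h
    · exact h
    · exfalso
      have h1 : T = 1 := by omega
      have h2 : (ff u d)^[T] a = a := iterate_minimalPeriod
      rw [h1] at h2
      have h3 : d.1 (u.1 a) = a := h2
      have h4 := congrArg d.1 h3
      rw [hd.inv, ha] at h4
      exact hne h4
  refine ⟨(ff u d)^[T / 2] a, ((FF u d)^[T / 2] (a, false)).2, ?_, hm, ?_⟩
  · intro h
    have h1 : T ∣ T / 2 := IsPeriodicPt.minimalPeriod_dvd h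
    have h2 := Nat.le_of_dvd (by omega) h1
    omega
  · have := reach u d (a, false) (T / 2)
    have e : (FF u d)^[T / 2] (a, false) =
        ((ff u d)^[T / 2] a, ((FF u d)^[T / 2] (a, false)).2) :=
      Prod.ext (by rw [FF_iter_fst]) rfl
    rwa [e] at this

end TriG

open TriG

/-- A path has at most two ends. -/
theorem PR.two_ends {N : ℕ} {u d : St} (hu : LInv u) (hd : LInv d)
    (huN : ∀ x < N, u.1 x < N) (hdN : ∀ x < N, d.1 x < N) {a b c : ℕ} {ε δ : Bool} (haN : a < N)
    (ha : u.1 a = a ∨ d.1 a = a) (hb : u.1 b = b ∨ d.1 b = b) (hc : u.1 c = c ∨ d.1 c = c)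
    (hab : PR u d (a, false) (b, ε)) (hac : PR u d (a, false) (c, δ)) :
    a = b ∨ a = c ∨ b = c := by
  rcases ha with ha | ha
  · exact two_ends_d hd hu hdN huN haN ha hb.symm hc.symm hab.swap hac.swap
  · exact two_ends_d hu hd huN hdN haN ha hb hc hab hac

/-- The parity of a path which starts at an end is unique. -/
theorem PR.parity_unique {N : ℕ} {u d : St} (hu : LInv u) (hd : LInv d)
    (huN : ∀ x < N, u.1 x < N) (hdN : ∀ x < N, d.1 x < N) {a b : ℕ} {ε δ : Bool} (haN : a < N)
    (ha : u.1 a = a ∨ d.1 a = a) (h : PR u d (a, false) (b, ε)) (h' : PR u d (a, false) (b, δ)) :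
    ε = δ := by
  rcases ha with ha | ha
  · exact parity_d hd hu hdN huN haN ha h.swap h'.swap
  · exact parity_d hu hd huN hdN haN ha h h'

/-- A path which is not a point has a second end. -/
theorem PR.exists_end {N : ℕ} {u d : St} (hu : LInv u) (hd : LInv d)
    (huN : ∀ x < N, u.1 x < N) (hdN : ∀ x < N, d.1 x < N) {a : ℕ} (haN : a < N)
    (ha : u.1 a = a ∨ d.1 a = a) (hne : ¬ (u.1 a = a ∧ d.1 a = a)) :
    ∃ b ε, b ≠ a ∧ (u.1 b = b ∨ d.1 b = b) ∧ PR u d (a, false) (b, ε) := by
  rcases ha with ha | ha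
  · obtain ⟨b, ε, h1, h2, h3⟩ := exists_end_d hd hu hdN huN haN ha (fun h => hne ⟨ha, h⟩)
    exact ⟨b, ε, h1, h2.symm, h3.swap⟩
  · exact exists_end_d hu hd huN hdN haN ha (fun h => hne ⟨h, ha⟩)

/-- The component of a node which is fixed by both involutions. -/
theorem PR.eq_of_fix {u d : St} {a b : ℕ} {ε δ : Bool} (h1 : u.1 a = a) (h2 : d.1 a = a)
    (h : PR u d (a, ε) (b, δ)) : b = a := by
  have key : ∀ c : ℕ × Bool, PR u d (a, ε) c → c.1 = a := by
    intro c hc
    induction hc with
    | refl => rfl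
    | @tail b c _ hbc ih =>
      rcases hbc with ⟨e, -⟩ | ⟨e, -⟩
      · rw [e, ih, h1]
      · rw [e, ih, h2]
  exact key _ h

namespace TriG

variable {n : ℕ} {s : St} {p : ℕ → ℕ}

theorem dn_n (hs : IsAnn (n + 1) s) : (dnO n s).1 n = n := by
  show Equiv.swap n (n + 2) (s.1 (Equiv.swap n (n + 2) n)) = n
  rw [Equiv.swap_apply_left, hs.nc.out (n + 2) (by omega), Equiv.swap_apply_right]

theorem dn_n1 (hs : IsAnn (n + 1) s) : (dnO n s).1 (n + 1) = n + 1 := by
  show Equiv.swap n (n + 2) (s.1 (Equiv.swap n (n + 2) (n + 1))) = n + 1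
  have e : Equiv.swap n (n + 2) (n + 1) = n + 1 :=
    Equiv.swap_apply_of_ne_of_ne (by omega) (by omega)
  rw [e, hs.nc.out (n + 1) (by omega), e]

theorem dn_n2 (hs : IsAnn (n + 1) s) : (dnO n s).1 (n + 2) < n := by
  show Equiv.swap n (n + 2) (s.1 (Equiv.swap n (n + 2) (n + 2))) < n
  rw [Equiv.swap_apply_right]
  have h1 := hs.nc.lt n (by omega)
  have h2 := hs.nc.ne n (by omega)
  rw [Equiv.swap_apply_of_ne_of_ne h2 (by omega)]
  omega

theorem dn_lt (hs : IsAnn (n + 1) s) {x : ℕ} (hx : x < n) :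
    (dnO n s).1 x ≠ x ∧ (dnO n s).1 x < n + 3 := by
  have e : (dnO n s).1 x = Equiv.swap n (n + 2) (s.1 x) := by
    show Equiv.swap n (n + 2) (s.1 (Equiv.swap n (n + 2) x)) = _
    have e1 : Equiv.swap n (n + 2) x = x := Equiv.swap_apply_of_ne_of_ne (by omega) (by omega)
    rw [e1]
  have h1 := hs.nc.lt x (by omega)
  have h2 := hs.nc.ne x (by omega)
  rw [e]
  rcases Nat.lt_or_ge (s.1 x) n with h3 | h3
  · rw [Equiv.swap_apply_of_ne_of_ne (by omega) (by omega)]
    exact ⟨h2, by omega⟩
  · rw [show s.1 x = n by omega, Equiv.swap_apply_left]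
    exact ⟨by omega, by omega⟩

theorem dn_range (hs : IsAnn (n + 1) s) : ∀ x < n + 3, (dnO n s).1 x < n + 3 := by
  intro x hx
  rcases Nat.lt_or_ge x n with h | h
  · exact (dn_lt hs h).2
  · rcases Nat.lt_or_ge x (n + 1) with h1 | h1
    · rw [show x = n by omega, dn_n hs]; omega
    · rcases Nat.lt_or_ge x (n + 2) with h2 | h2
      · rw [show x = n + 1 by omega, dn_n1 hs]; omega
      · have := dn_n2 hs
        rw [show x = n + 2 by omega]; omega

theorem up_range (hp : NCO (n + 2) p) : ∀ x < n + 3, (upO p).1 x < n + 3 := by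
  intro x hx
  show p x < n + 3
  rcases Nat.lt_or_ge x (n + 2) with h | h
  · have := hp.lt x h; omega
  · rw [hp.out x h]; exact hx

/-- The ends. -/
theorem ends (hs : IsAnn (n + 1) s) (hp : NCO (n + 2) p) {x : ℕ} (hx : x < n + 3)
    (h : (upO p).1 x = x ∨ (dnO n s).1 x = x) : x = thr p ∨ x = n ∨ x = n + 1 ∨ x = n + 2 := by
  rcases h with h | h
  · have h' : p x = x := h
    rcases Nat.lt_or_ge x (n + 2) with h1 | h1
    · exact Or.inl ((hp.eq_thr_iff h1).1 h')
    · omega
  · rcases Nat.lt_or_ge x n with h1 | h1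
    · exact absurd h (dn_lt hs h1).1
    · omega

theorem PR_lt {N : ℕ} {u d : St} (huN : ∀ x < N, u.1 x < N) (hdN : ∀ x < N, d.1 x < N)
    {a b : ℕ × Bool} (ha : a.1 < N) (h : PR u d a b) : b.1 < N := by
  induction h with
  | refl => exact ha
  | @tail b c _ hbc ih =>
    rcases hbc with ⟨e, -⟩ | ⟨e, -⟩
    · rw [e]; exact huN _ ih
    · rw [e]; exact hdN _ ih

end TriG

open TriG in
/-- Two of the three `D`-nodes are joined, and they are not joined to the through line. -/
theorem exists_joined {n : ℕ} {s : St} {p : ℕ → ℕ} (hs : IsAnn (n + 1) s)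
    (hp : NCO (n + 2) p) :
    ∃ a b ε, n ≤ a ∧ a < n + 3 ∧ n ≤ b ∧ b < n + 3 ∧ a ≠ b ∧
      PR (upO p) (dnO n s) (a, false) (b, ε) ∧
      ∀ δ, ¬ PR (upO p) (dnO n s) (a, false) (thr p, δ) := by
  have hu := LInv.upO hp
  have hd := (LInv.ann hs).dnO n
  have huN := up_range hp
  have hdN := dn_range hs
  have htl := hp.thr_lt
  have htf : (upO p).1 (thr p) = thr p := hp.thr_fix
  have e0 := dn_n hs
  have e1 := dn_n1 hs
  have e2 : (upO p).1 (n + 2) = n + 2 := hp.out (n + 2) le_rfl
  -- the other end of a node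
  have other : ∀ a, a < n + 3 → ((upO p).1 a = a ∨ (dnO n s).1 a = a) →
      ¬ ((upO p).1 a = a ∧ (dnO n s).1 a = a) →
      ∃ b ε, b ≠ a ∧ (b = thr p ∨ b = n ∨ b = n + 1 ∨ b = n + 2) ∧
        PR (upO p) (dnO n s) (a, false) (b, ε) := by
    intro a ha h1 h2
    obtain ⟨b, ε, h3, h4, h5⟩ := PR.exists_end hu hd huN hdN ha h1 h2
    exact ⟨b, ε, h3, ends hs hp (PR_lt huN hdN ha h5) h4, h5⟩
  -- a node which is joined to another `D`-node is not joined to the through line
  have good : ∀ a b ε, a < n + 3 → ((upO p).1 a = a ∨ (dnO n s).1 a = a) →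
      ((upO p).1 b = b ∨ (dnO n s).1 b = b) → a ≠ b → a ≠ thr p → b ≠ thr p →
      PR (upO p) (dnO n s) (a, false) (b, ε) →
      ∀ δ, ¬ PR (upO p) (dnO n s) (a, false) (thr p, δ) := by
    intro a b ε ha h1 h2 h3 h4 h5 h6 δ h7
    rcases PR.two_ends hu hd huN hdN ha h1 h2 (Or.inl htf) h6 h7 with h | h | h
    · exact h3 h
    · exact h4 h
    · exact h5 h
  have E0 : (upO p).1 n = n ∨ (dnO n s).1 n = n := Or.inr e0
  have E1 : (upO p).1 (n + 1) = n + 1 ∨ (dnO n s).1 (n + 1) = n + 1 := Or.inr e1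
  have E2 : (upO p).1 (n + 2) = n + 2 ∨ (dnO n s).1 (n + 2) = n + 2 := Or.inl e2
  have thrOf : ∀ x < n + 2, (upO p).1 x = x → x = thr p := fun x hx h => (hp.eq_thr_iff hx).1 h
  rcases eq_or_ne (thr p) n with ht | ht
  · -- the through line is the node `n`
    obtain ⟨b, ε, h1, h2, h3⟩ := other (n + 1) (by omega) E1
      (fun h => by have := thrOf (n + 1) (by omega) h.1; omega)
    have hb : b = n + 2 := by
      rcases h2 with h2 | h2 | h2 | h2
      · exfalso
        have h4 := PR.symm hu hd h3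
        rw [h2] at h4
        have h5 := PR.eq_of_fix htf (by rw [ht]; exact e0) h4
        omega
      · exfalso
        have h4 := PR.symm hu hd h3
        rw [h2, ← ht] at h4
        have h5 := PR.eq_of_fix htf (by rw [ht]; exact e0) h4
        omega
      · exact absurd h2 h1
      · exact h2
    subst hb
    exact ⟨n + 1, n + 2, ε, by omega, by omega, by omega, by omega, by omega, h3,
      good _ _ ε (by omega) E1 E2 (by omega) (by omega) (by omega) h3⟩
  · obtain ⟨b, ε, h1, h2, h3⟩ := other n (by omega) E0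
      (fun h => by have := thrOf n (by omega) h.1; omega)
    by_cases hb : b = thr p
    · -- the node `n` is joined to the through line
      rcases eq_or_ne (thr p) (n + 1) with ht' | ht'
      · exfalso
        have h4 := PR.symm hu hd h3
        rw [hb] at h4
        have h5 := PR.eq_of_fix htf (by rw [ht']; exact e1) h4
        omega
      obtain ⟨b', ε', h1', h2', h3'⟩ := other (n + 1) (by omega) E1
        (fun h => by have := thrOf (n + 1) (by omega) h.1; omega)
      by_cases hb' : b' = thr p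
      · exfalso
        rw [hb] at h3
        rw [hb'] at h3'
        have h4 := (PR.symm hu hd h3).add ε
        have h5 := (PR.symm hu hd h3').add ε'
        simp only [Bool.xor_self, Bool.false_xor] at h4 h5
        rcases PR.two_ends hu hd huN hdN (by omega) (Or.inl htf) E0 E1 h4 h5 with h | h | h
        · exact ht h
        · exact ht' h
        · omega
      · have hbD : b' = n ∨ b' = n + 2 := by
          rcases h2' with h | h | h | h
          · exact absurd h hb'
          · exact Or.inl h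
          · exact absurd h h1'
          · exact Or.inr h
        have hbE : (upO p).1 b' = b' ∨ (dnO n s).1 b' = b' := by
          rcases hbD with h | h
          · rw [h]; exact E0
          · rw [h]; exact E2
        exact ⟨n + 1, b', ε', by omega, by omega, by omega, by omega, h1'.symm, h3',
          good _ _ ε' (by omega) E1 hbE h1'.symm (fun h => ht' h.symm) hb' h3'⟩
    · have hbD : b = n + 1 ∨ b = n + 2 := by
        rcases h2 with h | h | h | h
        · exact absurd h hb
        · exact absurd h h1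
        · exact Or.inl h
        · exact Or.inr h
      have hbE : (upO p).1 b = b ∨ (dnO n s).1 b = b := by
        rcases hbD with h | h
        · rw [h]; exact E1
        · rw [h]; exact E2
      exact ⟨n, b, ε, by omega, by omega, by omega, by omega, h1.symm, h3,
        good _ _ ε (by omega) E0 hbE h1.symm (fun h => ht h.symm) hb h3⟩

end Pool.Agent.Perc
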