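import Pool.Agent.Lib.MP_6bd702_perc3.TwC
import Pool.Agent.Lib.MP_6bd702_perc3.TriG
import Pool.Agent.Lib.MP_6bd702_perq.TwoE

/-!
# The twisted cylinder: wrapping core clusters give the three-leg event (task TwD)

Suppose the event fails. Let `a, b` be two `D`-nodes which are joined (`exists_joined`); the parity
of the path is even and unique. Let `G` be the set of the lifted upper sites `q * (2 m + 1) + r`
with `PR … (a, false) (r, parity of q)` and `G'` the set of the lifted lower sites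
`q * 2 m + r` with `PR … (a, false) (node of r, parity of q)`. They are closed under the lifted
partner maps and agree at the common sites; in the periods `q` with `q` even both `a` and `b` belong
to them, in the periods with `q` odd no `D`-node does. Hence the number of elements modulo 2
between two gaps gives a potential `h` on the gaps which is the same for the two halves, constant
on the clusters. The three vertices of the cores between the periods `-1, 0` and `1, 2` have the
same value, and these two values are equal by the wrapping core vertex; every vertex of the core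
between the periods `0, 1` is connected to one of these cores, so it has the same value, too. But
then the `D`-sites between them do not belong to `G`.
-/

set_option autoImplicit false

namespace Pool.Agent.Perc

open Finset

variable {m M : ℕ}

namespace TwD

open TwoE

variable {N : ℕ} {u : St}

theorem jump_partner (hu : LInv u) (r : ℕ) : jump u (u.1 r) = - jump u r := by
  unfold jump
  rw [hu.lab, hu.inv]
  by_cases h : u.2 r = true
  · have h1 : u.1 r ≠ r := by
      intro e
      rw [hu.fix r e] at h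
      exact absurd h (by decide)
    rw [if_pos h, if_pos h]
    split_ifs <;> omega
  · rw [if_neg h, if_neg h]
    rfl

theorem lift_lift (hN : 0 < N) (hu : LInv u) (hlt : ∀ x < N, u.1 x < N) (x : ℤ) :
    liftS N u (liftS N u x) = x := by
  have hr := toNat_emod_lt hN x
  rw [liftS_eq (N := N) u x, liftS_form hN u _ (hlt _ hr), jump_partner hu, hu.inv]
  conv_rhs => rw [eq_div_add hN x]
  ring

open Classical in
theorem sum_even (hN : 0 < N) (hu : LInv u) (hlt : ∀ x < N, u.1 x < N) {G : ℤ → Prop}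
    (hG : ∀ x, G x → G (liftS N u x)) {k l : ℤ}
    (h : ∀ x : ℤ, (liftS N u x = x → (x < k ↔ x < l)) ∧
      ((x < k ↔ liftS N u x < k) ↔ (x < l ↔ liftS N u x < l))) :
    (∑ x ∈ Ico k l, (if G x then 1 else 0 : ZMod 2)) = 0 := by
  have hG' : ∀ x, G (liftS N u x) ↔ G x := by
    intro x
    refine ⟨fun h => ?_, hG x⟩
    have := hG _ h
    rwa [lift_lift hN hu hlt] at this
  refine Finset.sum_involution (fun x _ => liftS N u x) ?_ ?_ ?_ ?_
  · intro x _
    simp only [hG' x]
    split_ifs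
    · decide
    · decide
  · intro x hx _ he
    have := (h x).1 he
    rw [mem_Ico] at hx
    omega
  · intro x hx
    have := (h x).2
    rw [mem_Ico] at hx ⊢
    omega
  · intro x _
    exact lift_lift hN hu hlt x

theorem pot_eqO (hN : 0 < N) (hu : LInv u) (hlt : ∀ x < N, u.1 x < N) {G : ℤ → Prop}
    (hG : ∀ x, G x → G (liftS N u x)) {k l : ℤ}
    (h : ∀ x : ℤ, (liftS N u x = x → (x < k ↔ x < l)) ∧
      ((x < k ↔ liftS N u x < k) ↔ (x < l ↔ liftS N u x < l))) : pot G k = pot G l := by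
  classical
  rcases le_total k l with hkl | hkl
  · rw [← pot_add G hkl, sum_even hN hu hlt hG h, add_zero]
  · rw [← pot_add G hkl, sum_even hN hu hlt hG (fun x => ⟨fun e => ((h x).1 e).symm,
      ((h x).2).symm⟩), add_zero]

theorem pot_succ (G : ℤ → Prop) [DecidablePred G] (k : ℤ) :
    pot G (k + 1) = pot G k + (if G k then 1 else 0) := by
  classical
  rw [← pot_add G (show k ≤ k + 1 by omega)]
  have i0 : Ico k (k + 1) = {k} := by ext x; simp only [mem_Ico, mem_singleton]; omega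
  rw [i0, sum_singleton]
  congr

/-- The set of the lifted sites of one half; `f` gives the nodes of the sites. -/
def GG (u d : St) (a : ℕ) (N : ℕ) (f : ℕ → ℕ) (x : ℤ) : Prop :=
  PR u d (a, false) (f (x % N).toNat, decide ((x / N) % 2 = 1))

theorem GG_form (hN : 0 < N) (u d : St) (a : ℕ) (f : ℕ → ℕ) (q : ℤ) {r : ℕ} (hr : r < N) :
    GG u d a N f (q * N + r) ↔ PR u d (a, false) (f r, decide (q % 2 = 1)) := by
  unfold GG
  rw [div_of_form hN q hr, mod_of_form q hr]

theorem GG_closed {d v : St} {a : ℕ} {f : ℕ → ℕ} (hN : 0 < N) (hlt : ∀ x < N, v.1 x < N)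
    (hstep : ∀ r < N, ∀ ε, PR u d (f r, ε) (f (v.1 r), xor ε (v.2 r))) {x : ℤ}
    (h : GG u d a N f x) : GG u d a N f (liftS N v x) := by
  have hr := toNat_emod_lt hN x
  rw [liftS_eq, GG_form hN _ _ _ _ _ (hlt _ hr)]
  refine PR.trans h ?_
  have h1 := hstep _ hr (decide (x / N % 2 = 1))
  have h2 : xor (decide (x / N % 2 = 1)) (v.2 (x % N).toNat) =
      decide ((x / N + jump v (x % N).toNat) % 2 = 1) := by
    unfold jump
    by_cases h3 : v.2 (x % N).toNat = true
    · rw [h3, if_pos rfl, Bool.xor_true, ← decide_not]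
      apply decide_eq_decide.2
      split_ifs <;> omega
    · rw [if_neg h3, add_zero]
      rw [Bool.not_eq_true] at h3
      rw [h3, Bool.xor_false]
  rw [← h2]
  exact h1

theorem emC_form (hm : 0 < m) (q : ℤ) {r : ℕ} (hr : r < 2 * m) :
    emC m (q * ((2 * m : ℕ) : ℤ) + r) = q * ((2 * m + 1 : ℕ) : ℤ) + r := by
  unfold emC
  have h1 := div_of_form (show 0 < 2 * m by omega) q hr
  have h2 := Int.emod_nonneg (q * ((2 * m : ℕ) : ℤ) + r) (show (((2 * m : ℕ) : ℤ)) ≠ 0 by omega)
  have h3 := mod_of_form (N := 2 * m) q hr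
  have h4 : (q * ((2 * m : ℕ) : ℤ) + r) % ((2 * m : ℕ) : ℤ) = r := by omega
  have e : (2 * (m : ℤ)) = ((2 * m : ℕ) : ℤ) := by push_cast; ring
  rw [e, h1, h4]
  push_cast
  ring

/-- The potentials of the two halves agree. -/
theorem pot_em (hm : 0 < m) {G G' : ℤ → Prop} [DecidablePred G] [DecidablePred G']
    (hc : ∀ (q : ℤ) (r : ℕ), r + 1 < 2 * m →
      (G (q * ((2 * m + 1 : ℕ) : ℤ) + r) ↔ G' (q * ((2 * m : ℕ) : ℤ) + r)))
    (hd : ∀ q : ℤ, ((if G (q * ((2 * m + 1 : ℕ) : ℤ) + ((2 * m - 1 : ℕ) : ℤ)) then 1 else 0 :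
        ZMod 2)) + (if G (q * ((2 * m + 1 : ℕ) : ℤ) + ((2 * m : ℕ) : ℤ)) then 1 else 0) =
      if G' (q * ((2 * m : ℕ) : ℤ) + ((2 * m - 1 : ℕ) : ℤ)) then 1 else 0) (k : ℤ) :
    pot G (emC m k) = pot G' k := by
  have hN : 0 < 2 * m := by omega
  have step : ∀ k : ℤ, pot G (emC m (k + 1)) + pot G' k = pot G (emC m k) + pot G' (k + 1) := by
    intro k
    obtain ⟨q, r, hr, rfl⟩ : ∃ (q : ℤ) (r : ℕ), r < 2 * m ∧ k = q * ((2 * m : ℕ) : ℤ) + r :=
      ⟨k / ((2 * m : ℕ) : ℤ), (k % ((2 * m : ℕ) : ℤ)).toNat, toNat_emod_lt hN k, eq_div_add hN k⟩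
    rw [emC_form hm q hr, pot_succ G']
    by_cases h1 : r + 1 < 2 * m
    · have e1 : q * ((2 * m : ℕ) : ℤ) + r + 1 = q * ((2 * m : ℕ) : ℤ) + ((r + 1 : ℕ) : ℤ) := by
        push_cast; ring
      rw [e1, emC_form hm q h1]
      have e2 : q * ((2 * m + 1 : ℕ) : ℤ) + ((r + 1 : ℕ) : ℤ) =
          (q * ((2 * m + 1 : ℕ) : ℤ) + r) + 1 := by push_cast; ring
      rw [e2, pot_succ G]
      have h2 := hc q r h1
      by_cases h3 : G (q * ((2 * m + 1 : ℕ) : ℤ) + r)
      · rw [if_pos h3, if_pos (h2.1 h3)]; ring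
      · rw [if_neg h3, if_neg (fun h => h3 (h2.2 h))]; ring
    · obtain rfl : r = 2 * m - 1 := by omega
      have e1 : q * ((2 * m : ℕ) : ℤ) + ((2 * m - 1 : ℕ) : ℤ) + 1 =
          (q + 1) * ((2 * m : ℕ) : ℤ) + ((0 : ℕ) : ℤ) := by
        have : ((2 * m - 1 : ℕ) : ℤ) = ((2 * m : ℕ) : ℤ) - 1 := by omega
        rw [this]; push_cast; ring
      rw [e1, emC_form hm (q + 1) hN]
      have e2 : (q + 1) * ((2 * m + 1 : ℕ) : ℤ) + ((0 : ℕ) : ℤ) =
          (q * ((2 * m + 1 : ℕ) : ℤ) + ((2 * m : ℕ) : ℤ)) + 1 := by push_cast; ring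
      have e3 : q * ((2 * m + 1 : ℕ) : ℤ) + ((2 * m : ℕ) : ℤ) =
          (q * ((2 * m + 1 : ℕ) : ℤ) + ((2 * m - 1 : ℕ) : ℤ)) + 1 := by
        have : ((2 * m - 1 : ℕ) : ℤ) = ((2 * m : ℕ) : ℤ) - 1 := by omega
        rw [this]; ring
      rw [e2, pot_succ G, ← hd q]
      conv_lhs => rw [e3, pot_succ G, ← e3]
      ring
  have step' : ∀ k : ℤ, pot G (emC m (k + 1)) - pot G' (k + 1) = pot G (emC m k) - pot G' k := by
    intro k
    linear_combination step k
  have h0 : emC m 0 = 0 := by unfold emC; simp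
  have key : ∀ k : ℤ, pot G (emC m k) - pot G' k = 0 := by
    intro k
    induction k using Int.induction_on with
    | zero => rw [h0]; simp [pot]
    | succ k ih => rw [step', ih]
    | pred k ih =>
      have h1 := step' (-(k : ℤ) - 1)
      rw [sub_add_cancel, ih] at h1
      exact h1.symm
  exact sub_eq_zero.1 (key k)

/-- The relation of the two families of regions. -/
def RR (m : ℕ) (s : St) (p : ℕ → ℕ) (k l : ℤ) : Prop :=
  SameRegO (2 * m + 1) p k l ∨ ∃ k' l', SameReg (2 * m) s k' l' ∧ k = emC m k' ∧ l = emC m l'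

theorem emC_add (hm : 0 < m) (k : ℤ) : emC m (k + ((2 * m : ℕ) : ℤ)) = emC m k + (2 * m + 1) := by
  have hN : 0 < 2 * m := by omega
  obtain ⟨q, r, hr, rfl⟩ : ∃ (q : ℤ) (r : ℕ), r < 2 * m ∧ k = q * ((2 * m : ℕ) : ℤ) + r :=
    ⟨k / ((2 * m : ℕ) : ℤ), (k % ((2 * m : ℕ) : ℤ)).toNat, toNat_emod_lt hN k, eq_div_add hN k⟩
  have e : q * ((2 * m : ℕ) : ℤ) + r + ((2 * m : ℕ) : ℤ) = (q + 1) * ((2 * m : ℕ) : ℤ) + r := by
    ring
  rw [e, emC_form hm _ hr, emC_form hm _ hr]
  push_cast
  ring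

theorem RR_add (hm : 0 < m) {s : St} {p : ℕ → ℕ} {k l : ℤ} (h : RR m s p k l) :
    RR m s p (k + (2 * m + 1)) (l + (2 * m + 1)) := by
  rcases h with h | ⟨k', l', h, rfl, rfl⟩
  · refine Or.inl fun x => ?_
    have h1 := h (x - (2 * m + 1))
    have h2 : liftO (2 * m + 1) p (x - (2 * m + 1)) = liftO (2 * m + 1) p x - (2 * m + 1) := by
      have h3 := liftS_add_mul (N := 2 * m + 1) (by omega) (upO p) x (-1)
      have h4 : x + -1 * ((2 * m + 1 : ℕ) : ℤ) = x - (2 * m + 1) := by push_cast; ring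
      rw [h4] at h3
      have h5 : ∀ y, liftO (2 * m + 1) p y = liftS (2 * m + 1) (upO p) y := fun y => rfl
      rw [h5, h5, h3]
      push_cast
      ring
    rw [h2] at h1
    omega
  · refine Or.inr ⟨k' + ((2 * m : ℕ) : ℤ), l' + ((2 * m : ℕ) : ℤ), fun x => ?_, ?_, ?_⟩
    · have h1 := h (x - ((2 * m : ℕ) : ℤ))
      have h3 := liftS_add_mul (N := 2 * m) (by omega) s x (-1)
      have h4 : x + -1 * ((2 * m : ℕ) : ℤ) = x - ((2 * m : ℕ) : ℤ) := by ring
      rw [h4] at h3
      rw [h3] at h1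
      omega
    · rw [emC_add hm]
    · rw [emC_add hm]

theorem RRs_add (hm : 0 < m) {s : St} {p : ℕ → ℕ} {k l : ℤ}
    (h : Relation.ReflTransGen (RR m s p) k l) :
    Relation.ReflTransGen (RR m s p) (k + (2 * m + 1)) (l + (2 * m + 1)) := by
  induction h with
  | refl => exact Relation.ReflTransGen.refl
  | tail _ h1 ih => exact ih.tail (RR_add hm h1)

/-- The node of a lower site. -/
theorem dn_step (n : ℕ) (s u : St) (r : ℕ) (ε : Bool) :
    PR u (dnO n s) (Equiv.swap n (n + 2) r, ε) (Equiv.swap n (n + 2) (s.1 r), xor ε (s.2 r)) := by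
  have h := PR.stepD (u := u) (d := dnO n s) (Equiv.swap n (n + 2) r) ε
  have e1 : (dnO n s).1 (Equiv.swap n (n + 2) r) = Equiv.swap n (n + 2) (s.1 r) := by
    show Equiv.swap n (n + 2) (s.1 (Equiv.swap n (n + 2) (Equiv.swap n (n + 2) r))) = _
    rw [Equiv.swap_apply_self]
  have e2 : (dnO n s).2 (Equiv.swap n (n + 2) r) = s.2 r := by
    show s.2 (Equiv.swap n (n + 2) (Equiv.swap n (n + 2) r)) = _
    rw [Equiv.swap_apply_self]
  rw [e1, e2] at h
  exact h

end TwD

open TwD TwoE in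
/-- Combinatorial form. -/
theorem tri_of_regions {s : St} {p : ℕ → ℕ} (hm : 0 < m) (hs : IsAnn (2 * m) s)
    (hp : NCO (2 * m + 1) p)
    {E : ℤ → ℤ → Prop} (hE : ∀ k l, E k l → Relation.ReflTransGen (fun k l : ℤ =>
      SameRegO (2 * m + 1) p k l ∨ ∃ k' l', SameReg (2 * m) s k' l' ∧ k = emC m k' ∧ l = emC m l')
      k l)
    (h1 : ∀ x, Core x → ∃ x' s, Core x' ∧ (s = 1 ∨ s = -1) ∧ E x (x' + s * (2 * m + 1)))
    (h2 : ∃ x, Core x ∧ E x (x + (2 * m + 1))) :
    Tri (2 * m - 1) (upO p) (dnO (2 * m - 1) s) := by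
  classical
  obtain ⟨n, hn⟩ : ∃ n, 2 * m = n + 1 := ⟨2 * m - 1, by omega⟩
  have hn1 : 2 * m - 1 = n := by omega
  rw [hn1]
  by_contra hT
  have hs' : IsAnn (n + 1) s := by rw [← hn]; exact hs
  have hp' : NCO (n + 2) p := by
    have e : n + 2 = 2 * m + 1 := by omega
    rw [e]; exact hp
  obtain ⟨a, b, ε, ha1, ha2, hb1, hb2, hab, hP, -⟩ := exists_joined hs' hp'
  have hu : LInv (upO p) := LInv.upO hp
  have hd : LInv (dnO n s) := (LInv.ann hs).dnO n
  have hε : ε = false := by
    cases ε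
    · rfl
    · exact absurd ⟨a, b, ha1, ha2, hb1, hb2, hab, hP⟩ hT
  subst hε
  have hfix : ∀ x, n ≤ x → x < n + 3 → (upO p).1 x = x ∨ (dnO n s).1 x = x := by
    intro x hx1 hx2
    have hx : x = n ∨ x = n + 1 ∨ x = n + 2 := by omega
    rcases hx with rfl | rfl | rfl
    · right
      show Equiv.swap x (x + 2) (s.1 (Equiv.swap x (x + 2) x)) = x
      rw [Equiv.swap_apply_left, hs'.nc.out (x + 2) (by omega), Equiv.swap_apply_right]
    · right
      show Equiv.swap n (n + 2) (s.1 (Equiv.swap n (n + 2) (n + 1))) = n + 1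
      have e : Equiv.swap n (n + 2) (n + 1) = n + 1 :=
        Equiv.swap_apply_of_ne_of_ne (by omega) (by omega)
      rw [e, hs'.nc.out (n + 1) (by omega), e]
    · left
      exact hp'.out (n + 2) (by omega)
  have huN : ∀ x < n + 3, (upO p).1 x < n + 3 := by
    intro x hx
    show p x < n + 3
    rcases Nat.lt_or_ge x (n + 2) with h | h
    · have := hp'.lt x h; omega
    · rw [hp'.out x h]; exact hx
  have hsw : ∀ y < n + 3, Equiv.swap n (n + 2) y < n + 3 := by
    intro y hy
    rw [Equiv.swap_apply_def]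
    split_ifs <;> omega
  have hdN : ∀ x < n + 3, (dnO n s).1 x < n + 3 := by
    intro x hx
    show Equiv.swap n (n + 2) (s.1 (Equiv.swap n (n + 2) x)) < n + 3
    apply hsw
    rcases Nat.lt_or_ge (Equiv.swap n (n + 2) x) (n + 1) with h | h
    · have := hs'.nc.lt _ h; omega
    · rw [hs'.nc.out _ h]; exact hsw x hx
  have hodd : ∀ x, n ≤ x → x < n + 3 → ¬ PR (upO p) (dnO n s) (a, false) (x, true) := by
    intro x hx1 hx2 h
    by_cases hxa : x = a
    · subst hxa
      have := PR.parity_unique hu hd huN hdN ha2 (hfix x ha1 ha2) h (PR.refl _ _ _)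
      exact absurd this (by decide)
    · exact hT ⟨a, x, ha1, ha2, hx1, hx2, fun e => hxa e.symm, h⟩
  have hev : ∀ x, n ≤ x → x < n + 3 →
      (PR (upO p) (dnO n s) (a, false) (x, false) ↔ (x = a ∨ x = b)) := by
    intro x hx1 hx2
    constructor
    · intro h
      have := PR.two_ends hu hd huN hdN ha2 (hfix a ha1 ha2) (hfix b hb1 hb2) (hfix x hx1 hx2) hP h
      rcases this with h | h | h
      · exact absurd h hab
      · exact Or.inl h.symm
      · exact Or.inr h.symm
    · rintro (rfl | rfl)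
      · exact PR.refl _ _ _
      · exact hP
  have hN : 0 < 2 * m := by omega
  have hN1 : 0 < 2 * m + 1 := by omega
  set G : ℤ → Prop := GG (upO p) (dnO n s) a (2 * m + 1) id with hGdef
  set G' : ℤ → Prop := GG (upO p) (dnO n s) a (2 * m) (Equiv.swap n (n + 2)) with hG'def
  have hG : ∀ x, G x → G (liftS (2 * m + 1) (upO p) x) := fun x hx =>
    GG_closed hN1 hp.lt (fun r _ ε => PR.stepU r ε) hx
  have hG' : ∀ x, G' x → G' (liftS (2 * m) s x) := fun x hx =>
    GG_closed hN hs.nc.lt (fun r _ ε => dn_step n s (upO p) r ε) hx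
  have hGform : ∀ (q : ℤ) (r : ℕ), r < 2 * m + 1 → (G (q * ((2 * m + 1 : ℕ) : ℤ) + r) ↔
      PR (upO p) (dnO n s) (a, false) (r, decide (q % 2 = 1))) := fun q r hr =>
    GG_form hN1 _ _ _ _ _ hr
  have hpot : ∀ k, pot G (emC m k) = pot G' k := by
    refine pot_em hm ?_ ?_
    · intro q r hr
      rw [hGform q r (by omega), hG'def, GG_form hN _ _ _ _ _ (by omega),
        Equiv.swap_apply_of_ne_of_ne (by omega) (by omega)]
    · intro q
      have e1 : G (q * ((2 * m + 1 : ℕ) : ℤ) + ((2 * m - 1 : ℕ) : ℤ)) ↔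
          PR (upO p) (dnO n s) (a, false) (n, decide (q % 2 = 1)) := by
        rw [hn1]; exact hGform q n (by omega)
      have e2 : G (q * ((2 * m + 1 : ℕ) : ℤ) + ((2 * m : ℕ) : ℤ)) ↔
          PR (upO p) (dnO n s) (a, false) (n + 1, decide (q % 2 = 1)) := by
        have := hGform q (2 * m) (by omega)
        rw [this, hn]
      have e3 : G' (q * ((2 * m : ℕ) : ℤ) + ((2 * m - 1 : ℕ) : ℤ)) ↔
          PR (upO p) (dnO n s) (a, false) (n + 2, decide (q % 2 = 1)) := by
        rw [hG'def, hn1, GG_form hN _ _ _ _ _ (by omega), Equiv.swap_apply_left]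
      simp only [e1, e2, e3]
      by_cases hq : q % 2 = 1
      · rw [decide_eq_true hq, if_neg (hodd n (by omega) (by omega)),
          if_neg (hodd (n + 1) (by omega) (by omega)), if_neg (hodd (n + 2) (by omega) (by omega)),
          add_zero]
      · rw [decide_eq_false hq]
        simp only [hev n (by omega) (by omega), hev (n + 1) (by omega) (by omega),
          hev (n + 2) (by omega) (by omega)]
        have ha : a = n ∨ a = n + 1 ∨ a = n + 2 := by omega
        have hb : b = n ∨ b = n + 1 ∨ b = n + 2 := by omega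
        have h11 : (1 : ZMod 2) + 1 = 0 := by decide
        rcases ha with rfl | rfl | rfl <;> rcases hb with rfl | rfl | rfl <;>
          first | exact absurd rfl hab | simp [h11]
  have hR : ∀ k l, RR m s p k l → pot G k = pot G l := by
    rintro k l (h | ⟨k', l', h, rfl, rfl⟩)
    · exact pot_eqO hN1 hu hp.lt hG h
    · rw [hpot, hpot]
      exact pot_eq hN hs hG' h
  have hRs : ∀ k l, Relation.ReflTransGen (RR m s p) k l → pot G k = pot G l := by
    intro k l h
    induction h with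
    | refl => rfl
    | tail _ h ih => rw [ih]; exact hR _ _ h
  have hE' : ∀ k l, E k l → Relation.ReflTransGen (RR m s p) k l := hE
  -- the cores between the periods `-1, 0` and `1, 2`
  have hcore : ∀ (q : ℤ), q % 2 = 1 → ∀ x, Core x →
      pot G (x + (q + 1) * (2 * m + 1)) = pot G ((q + 1) * (2 * m + 1)) := by
    intro q hq x hx
    have g1 : ¬ G (-2 + (q + 1) * (2 * m + 1)) := by
      have e : -2 + (q + 1) * (2 * (m : ℤ) + 1) = q * ((2 * m + 1 : ℕ) : ℤ) + (n : ℤ) := by
        have : (n : ℤ) = 2 * m - 1 := by omega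
        rw [this]; push_cast; ring
      rw [e, hGform q n (by omega), decide_eq_true hq]
      exact hodd n (by omega) (by omega)
    have g2 : ¬ G (-1 + (q + 1) * (2 * m + 1)) := by
      have e : -1 + (q + 1) * (2 * (m : ℤ) + 1) = q * ((2 * m + 1 : ℕ) : ℤ) + ((n + 1 : ℕ) : ℤ) := by
        have : (n : ℤ) = 2 * m - 1 := by omega
        push_cast
        rw [this]; ring
      rw [e, hGform q (n + 1) (by omega), decide_eq_true hq]
      exact hodd (n + 1) (by omega) (by omega)
    have p1 := pot_succ G (-2 + (q + 1) * (2 * m + 1))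
    have p2 := pot_succ G (-1 + (q + 1) * (2 * m + 1))
    rw [if_neg g1, add_zero] at p1
    rw [if_neg g2, add_zero] at p2
    have e1 : -2 + (q + 1) * (2 * (m : ℤ) + 1) + 1 = -1 + (q + 1) * (2 * m + 1) := by ring
    have e2 : -1 + (q + 1) * (2 * (m : ℤ) + 1) + 1 = (q + 1) * (2 * m + 1) := by ring
    rw [e1] at p1
    rw [e2] at p2
    rcases hx with rfl | rfl | rfl
    · rw [← p1, ← p2]
    · exact p2.symm
    · rw [zero_add]
  have hc0 : ∀ x, Core x → pot G x = pot G 0 := by
    intro x hx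
    have := hcore (-1) (by decide) x hx
    simpa using this
  have hc2 : ∀ x, Core x → pot G (x + 2 * (2 * m + 1)) = pot G (2 * (2 * m + 1)) := by
    intro x hx
    have := hcore 1 (by decide) x hx
    simpa [one_add_one_eq_two] using this
  have hz : pot G 0 = pot G (2 * (2 * m + 1)) := by
    obtain ⟨x, hx, h⟩ := h2
    have k1 := hE' _ _ h
    have k2 := hRs _ _ (RRs_add hm k1)
    have k3 := hRs _ _ k1
    have e : x + (2 * (m : ℤ) + 1) + (2 * m + 1) = x + 2 * (2 * m + 1) := by ring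
    rw [← hc0 x hx, k3, k2, e, hc2 x hx]
  have hc1 : ∀ x, Core x → pot G (x + (2 * m + 1)) = pot G 0 := by
    intro x hx
    obtain ⟨x', t, hx', ht, h⟩ := h1 x hx
    have k2 := hRs _ _ (RRs_add hm (hE' _ _ h))
    rw [k2]
    rcases ht with rfl | rfl
    · have e : x' + 1 * (2 * (m : ℤ) + 1) + (2 * m + 1) = x' + 2 * (2 * m + 1) := by ring
      rw [e, hc2 x' hx', hz]
    · have e : x' + -1 * (2 * (m : ℤ) + 1) + (2 * m + 1) = x' := by ring
      rw [e, hc0 x' hx']
  have g1 : ¬ G (-2 + (2 * m + 1)) := by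
    intro h
    have p1 := pot_succ G (-2 + (2 * m + 1))
    have e : -2 + (2 * (m : ℤ) + 1) + 1 = -1 + (2 * m + 1) := by ring
    rw [e, if_pos h, hc1 _ (Or.inl rfl), hc1 _ (Or.inr (Or.inl rfl))] at p1
    have : ∀ a : ZMod 2, a ≠ a + 1 := by decide
    exact this _ p1
  have g2 : ¬ G (-1 + (2 * m + 1)) := by
    intro h
    have p1 := pot_succ G (-1 + (2 * m + 1))
    have e : -1 + (2 * (m : ℤ) + 1) + 1 = 0 + (2 * m + 1) := by ring
    rw [e, if_pos h, hc1 _ (Or.inr (Or.inl rfl)), hc1 _ (Or.inr (Or.inr rfl))] at p1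
    have : ∀ a : ZMod 2, a ≠ a + 1 := by decide
    exact this _ p1
  have e1 : -2 + (2 * (m : ℤ) + 1) = 0 * ((2 * m + 1 : ℕ) : ℤ) + (n : ℤ) := by
    have : (n : ℤ) = 2 * m - 1 := by omega
    rw [this]; ring
  have e2 : -1 + (2 * (m : ℤ) + 1) = 0 * ((2 * m + 1 : ℕ) : ℤ) + ((n + 1 : ℕ) : ℤ) := by
    have : (n : ℤ) = 2 * m - 1 := by omega
    push_cast
    rw [this]; ring
  have hf : decide ((0 : ℤ) % 2 = 1) = false := by decide
  rw [e1, hGform 0 n (by omega), hf, hev n (by omega) (by omega)] at g1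
  rw [e2, hGform 0 (n + 1) (by omega), hf, hev (n + 1) (by omega) (by omega)] at g2
  omega

theorem tri_of_wrap3 (hm : 0 < m) {ω : Cfg} (h : ω ∈ Wrap3 m M) :
    Tri (2 * m - 1) (upO (upOS (2 * m + 1) M ω)) (dnO (2 * m - 1) (loS (2 * m) M ω)) := by
  have hs : IsAnn (2 * m) (loS (2 * m) M ω) :=
    TwoE.isAnn_run (lowC ω) M _ (isAnn_s0 (by omega))
  have hp : NCO (2 * m + 1) (upOS (2 * m + 1) M ω) :=
    TwoO.nco_runO _ _ _ (nco_flatO (by omega))
  exact tri_of_regions hm hs hp
    (E := fun k l => ConnW (emC m) (perW m ω) (strip M) (k, 0) (l, 0))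
    (fun k l hkl => connW_strip hm ω hkl) h.1 h.2

end Pool.Agent.Perc
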