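import Pool.Agent.Lib.MP_6bd702_perc3.TwBarm
import Pool.Agent.Lib.MP_6bd702_perc3.TwD
import Pool.Agent.Lib.MP_6bd702_perq.TwoF

/-!
# The twisted cylinder: the two exact bounds (task TwE)

Models: perq/TwoC.lean (`p2_ge_exSt`), perq/TwoF.lean.
-/

set_option autoImplicit false

namespace Pool.Agent.Perc

open Finset Filter Topology

namespace TwE

theorem bondW_congr {em : ℤ → ℤ} {ω ω' : Cfg} {F F' : Set (ℤ × ℤ)} (hF : F ⊆ F')
    (h : ∀ f ∈ F, ω f = ω' f) {u v : ℤ × ℤ} (hb : BondW em ω F u v) : BondW em ω' F' u v := by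
  rcases hb with ⟨x, y, hm, hh⟩ | ⟨u', v', ⟨x, y, hm, hh⟩, hu, hv⟩
  · rw [h _ hm.1] at hh
    exact Or.inl ⟨x, y, ⟨hF hm.1, hm.2⟩, hh⟩
  · rw [h _ hm.1] at hh
    exact Or.inr ⟨u', v', ⟨x, y, ⟨hF hm.1, hm.2⟩, hh⟩, hu, hv⟩

theorem connW_congr {em : ℤ → ℤ} {ω ω' : Cfg} {F F' : Set (ℤ × ℤ)} (hF : F ⊆ F')
    (h : ∀ f ∈ F, ω f = ω' f) {u v : ℤ × ℤ} (hc : ConnW em ω F u v) : ConnW em ω' F' u v :=
  Relation.ReflTransGen.mono (fun _ _ hb => bondW_congr hF h hb) _ _ hc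

theorem connW_iff {em : ℤ → ℤ} {ω ω' : Cfg} {F : Set (ℤ × ℤ)} (h : ∀ f ∈ F, ω f = ω' f)
    (u v : ℤ × ℤ) : ConnW em ω F u v ↔ ConnW em ω' F u v :=
  ⟨connW_congr subset_rfl h, connW_congr subset_rfl fun f hf => (h f hf).symm⟩

theorem depOn_arm3 (R : ℤ) : DepOn (BW R : Set (ℤ × ℤ)) (Arm3 R) := by
  intro ω ω' h
  unfold Arm3
  simp only [Set.mem_ofPred_eq, connW_iff (em := emP) h]

theorem mem_RF' {x₀ x₁ y₀ y₁ : ℤ} {f : ℤ × ℤ} :
    f ∈ RF x₀ x₁ y₀ y₁ ↔ (x₀ ≤ f.1 ∧ f.1 < x₁) ∧ y₀ ≤ f.2 ∧ f.2 < y₁ := by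
  unfold RF
  rw [mem_product, mem_Ico, mem_Ico]

theorem mem_FW {m M : ℕ} {f : ℤ × ℤ} : f ∈ FW m M ↔
    ((0 ≤ f.1 ∧ f.1 < 2 * m + 1) ∧ 0 ≤ f.2 ∧ f.2 < M) ∨
      ((0 ≤ f.1 ∧ f.1 < 2 * m) ∧ -(M : ℤ) ≤ f.2 ∧ f.2 < 0) := by
  unfold FW
  rw [mem_union, mem_RF', mem_RF']
  push_cast
  rfl

/-- The face of the fundamental domain. -/
def red (m : ℕ) (f : ℤ × ℤ) : ℤ × ℤ :=
  if 0 ≤ f.2 then (f.1 % (2 * m + 1), f.2) else (f.1 % (2 * m), f.2)

theorem perW_eq (m : ℕ) (ω : Cfg) : perW m ω = fun f => ω (red m f) := by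
  funext f
  unfold perW red
  split_ifs <;> rfl

theorem red_mem {m M : ℕ} (hm : 0 < m) {f : ℤ × ℤ} (hf : f ∈ strip M) : red m f ∈ FW m M := by
  obtain ⟨h1, h2⟩ := hf
  rw [mem_FW]
  unfold red
  have e1 := Int.emod_nonneg f.1 (b := 2 * (m : ℤ) + 1) (by omega)
  have e2 := Int.emod_lt_of_pos f.1 (b := 2 * (m : ℤ) + 1) (by omega)
  have e3 := Int.emod_nonneg f.1 (b := 2 * (m : ℤ)) (by omega)
  have e4 := Int.emod_lt_of_pos f.1 (b := 2 * (m : ℤ)) (by omega)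
  split_ifs with h
  · exact Or.inl ⟨⟨e1, e2⟩, h, h2⟩
  · exact Or.inr ⟨⟨e3, e4⟩, h1, by omega⟩

theorem depOn_wrap3 {m : ℕ} (hm : 0 < m) (M : ℕ) :
    DepOn (FW m M : Set (ℤ × ℤ)) (Wrap3 m M) := by
  intro ω ω' h
  have h1 : ∀ f ∈ strip M, perW m ω f = perW m ω' f := by
    intro f hf
    rw [perW_eq, perW_eq]
    exact h _ (by exact_mod_cast red_mem hm hf)
  unfold Wrap3
  simp only [Set.mem_ofPred_eq, connW_iff (em := emC m) h1]

theorem wrap3_mono {m M M' : ℕ} (h : M ≤ M') {ω : Cfg} (hω : ω ∈ Wrap3 m M) :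
    ω ∈ Wrap3 m M' := by
  have hs : strip M ⊆ strip M' := TwoF.strip_mono h
  obtain ⟨h1, x, hx, h2⟩ := hω
  refine ⟨fun x hx => ?_, x, hx, connW_congr hs (fun _ _ => rfl) h2⟩
  obtain ⟨x', s, hx', hs', hc⟩ := h1 x hx
  exact ⟨x', s, hx', hs', connW_congr hs (fun _ _ => rfl) hc⟩

theorem FW_mono (m : ℕ) {M M' : ℕ} (h : M ≤ M') : FW m M ⊆ FW m M' := by
  intro f hf
  rw [mem_FW] at hf ⊢
  omega

/-- The event with three legs. -/
def triE (m M : ℕ) : Set Cfg :=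
  {ω | Tri (2 * m - 1) (upO (upOS (2 * m + 1) M ω)) (dnO (2 * m - 1) (loS (2 * m) M ω))}

theorem tendsto_triE {m : ℕ} (hm : 0 < m) :
    Tendsto (fun M : ℕ => pr (FW m M) (triE m M)) atTop (𝓝 (Num3.p3v m)) := by
  have h1 := (Complex.continuous_re.tendsto _).comp (tendsto_tri hm)
  rw [Complex.ofReal_re] at h1
  refine h1.congr fun M => ?_
  classical
  rw [Function.comp_apply, ex_indicator (triE m M)
    (fun ω => B2 (2 * m - 1) (loS (2 * m) M ω) (upOS (2 * m + 1) M ω))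
    (fun ω hω => if_pos hω) (fun ω hω => if_neg hω), Complex.ofReal_re]
  rfl

theorem red_injOn {m : ℕ} (hm : 0 < m) : Set.InjOn (red m) (BW ((m : ℤ) - 1) : Set (ℤ × ℤ)) := by
  intro x hx x' hx' h
  rw [mem_coe] at hx hx'
  unfold BW at hx hx'
  rw [mem_union, mem_RF', mem_RF'] at hx hx'
  have key : ∀ (a b L : ℤ), 0 < L → a % L = b % L → a - b < L → b - a < L → a = b := by
    intro a b L hL hab h1 h2
    have h6 : L ∣ a - b := Int.dvd_of_emod_eq_zero (by rw [Int.sub_emod, hab]; simp)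
    obtain ⟨c, hc⟩ := h6
    have hc0 : c = 0 := by
      by_contra hne
      rcases lt_or_gt_of_ne hne with h7 | h7
      · have : L * c ≤ -L := by nlinarith
        omega
      · have : L ≤ L * c := by nlinarith
        omega
    rw [hc0] at hc
    omega
  unfold red at h
  split_ifs at h with h1 h2 h2
  · simp only [Prod.mk.injEq] at h
    obtain ⟨h3, h4⟩ := h
    refine Prod.ext (key _ _ _ (by omega) h3 (by omega) (by omega)) h4
  · simp only [Prod.mk.injEq] at h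
    omega
  · simp only [Prod.mk.injEq] at h
    omega
  · simp only [Prod.mk.injEq] at h
    obtain ⟨h3, h4⟩ := h
    refine Prod.ext (key _ _ _ (by omega) h3 (by omega) (by omega)) h4

end TwE

open TwE

/-- Exact upper bound for wrapping core clusters. -/
theorem pr_wrap3_le {m : ℕ} (hm : 0 < m) (M : ℕ) : pr (FW m M) (Wrap3 m M) ≤ Num3.p3v m := by
  refine ge_of_tendsto (tendsto_triE hm) ?_
  filter_upwards [eventually_ge_atTop M] with M' hM'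
  rw [← pr_eq_of_depOn (depOn_wrap3 hm M) (FW_mono m hM')]
  exact pr_mono _ fun ω hω => tri_of_wrap3 hm (wrap3_mono hM' hω)

/-- Exact lower bound for three arms of the core of the twisted plane. -/
theorem p3v_le_arm3 {m : ℕ} (hm : 0 < m) :
    Num3.p3v m ≤ pr (BW ((m : ℤ) - 1)) (Arm3 ((m : ℤ) - 1)) := by
  refine le_of_tendsto (tendsto_triE hm) ?_
  filter_upwards [eventually_ge_atTop m] with M hM
  have h3 : pr (FW m M) (triE m M) ≤
      pr (FW m M) {ω : Cfg | (fun f : ℤ × ℤ => ω (red m f)) ∈ Arm3 ((m : ℤ) - 1)} := by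
    refine pr_mono _ fun ω hω => ?_
    have h := arm3_of_tri hm hM ω hω
    rwa [perW_eq] at h
  refine h3.trans (le_of_eq ?_)
  refine pr_comp (red_injOn hm) ?_ (depOn_arm3 _)
  intro x hx
  refine red_mem hm ?_
  unfold BW at hx
  rw [mem_union, mem_RF', mem_RF'] at hx
  constructor <;> omega

end Pool.Agent.Perc
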