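import Pool.Agent.Lib.MP_6bd702_perc3.T2Defs
import Pool.Agent.Lib.MP_6bd702_perc3.TwE

/-!
# Crossing strands: elementary facts
-/

set_option autoImplicit false

namespace Pool.Agent.Perc.Q

open Finset Pool.Agent.Perc Relation

variable {d d' w : ℤ} {ω ω' : Cfg} {t : ℤ} {T : Fin 3 → ℤ} {a : (ℤ × ℤ) × (ℤ × ℤ)}

theorem An_finite (d w : ℤ) : (An d w).Finite := (BW w).finite_toSet.subset Set.diff_subset

theorem An_mono (h : d ≤ d') : An d' w ⊆ An d w := fun _ hf => ⟨hf.1, fun h1 => hf.2 (BW_mono h h1)⟩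

/-- An outer boundary edge is not terminal. -/
theorem not_ter_outer (hd : 0 ≤ d) (hdw : d < w) (h0 : 0 ≤ t) (h1 : t < 8 * w + 3) :
    ¬ Ter TQ (An d w) (ine w t) := by
  obtain ⟨f, hf, hf', k, hk⟩ := ine_face (r := w) (by omega) h0 h1
  intro h
  exact h f ⟨hf, fun h3 => hf' (BW_mono (by omega) h3)⟩ k hk

/-- The last element of the strand of an outer boundary edge. -/
theorem ter_an_cases (hd : 0 ≤ d) (hdw : d < w) (h0 : 0 ≤ t) (h1 : t < 8 * w + 3)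
    (ha : a ∈ Orb TQ ω (An d w) (ine w t)) (hT : Ter TQ (An d w) a) :
    (∃ s, 0 ≤ s ∧ s < 8 * d + 3 ∧ a = ine d s) ∨
      ∃ s, 0 ≤ s ∧ s < 8 * w + 3 ∧ a = (ine w s).swap := by
  rcases Orb_pred ha with h | ⟨b, -, f, hf, k, -, ⟨-, h⟩ | ⟨-, h⟩⟩
  · exact absurd (h ▸ hT) (not_ter_outer hd hdw h0 h1)
  · have h2 : a = (TQ.c f (k + 1 + 1), TQ.c f (k + 1)) := by rw [z1]; exact h
    rw [h2] at hT
    rw [h2]
    exact ter_annulus hd hdw hf hT
  · have h2 : a = (TQ.c f (k + 3 + 1), TQ.c f (k + 3)) := by rw [z5]; exact h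
    rw [h2] at hT
    rw [h2]
    exact ter_annulus hd hdw hf hT

/-- A strand which does not return to the outer boundary reaches the inner box. -/
theorem rea_of_not_out (hd : 0 ≤ d) (hdw : d < w) (h0 : 0 ≤ t) (h1 : t < 8 * w + 3)
    (h : ∀ s, 0 ≤ s → s < 8 * w + 3 → (ine w s).swap ∉ Orb TQ ω (An d w) (ine w t)) :
    Rea d w ω t := by
  obtain ⟨a, ha, hT⟩ := exists_ter (ω := ω) (An_finite d w) (ini_outer hd hdw h0 h1)
  rcases ter_an_cases hd hdw h0 h1 ha hT with ⟨s, hs0, hs1, rfl⟩ | ⟨s, hs0, hs1, rfl⟩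
  · exact ⟨s, hs0, hs1, ha⟩
  · exact absurd ha (h s hs0 hs1)

/-- A strand which reaches the inner box does not return to the outer boundary. -/
theorem Rea.not_out (hd : 0 ≤ d) (hdw : d < w) (h : Rea d w ω t) {s : ℤ} (hs0 : 0 ≤ s)
    (hs1 : s < 8 * w + 3) : (ine w s).swap ∉ Orb TQ ω (An d w) (ine w t) := by
  intro hs
  obtain ⟨x, hx0, hx1, hx⟩ := h
  have h2 : Ter TQ (An d w) (ine w s).swap := (ini_outer hd hdw hs0 hs1).ter_swap
  have h3 : Ter TQ (An d w) (ine d x) := by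
    have := (ini_inner hd hdw hx0 hx1).ter_swap
    rwa [Prod.swap_swap] at this
  have h4 := ter_unique hx hs h3 h2
  exact bd_ne hd hdw hx0 hx1.le (by omega) (by omega : s + 1 ≤ 8 * w + 3) (Prod.mk.inj h4).1

theorem rea_mono (hd : 0 ≤ d) (h : d ≤ d') (hdw : d' < w) (h0 : 0 ≤ t) (h1 : t < 8 * w + 3)
    (hr : Rea d w ω t) : Rea d' w ω t :=
  rea_of_not_out (hd.trans h) hdw h0 h1 fun _ hs0 hs1 hs =>
    hr.not_out hd (h.trans_lt hdw) hs0 hs1 (Orb_mono (An_mono h) hs)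

theorem rea3_mono (hd : 0 ≤ d) (h : d ≤ d') (hdw : d' < w) (hT : Alt w T)
    (hr : ω ∈ Rea3 d w T) : ω ∈ Rea3 d' w T :=
  fun i => rea_mono hd h hdw (hT.mem i).1 (hT.mem i).2 (hr i)

theorem rea_congr (h : ∀ f ∈ An d w, ω f = ω' f) : Rea d w ω t ↔ Rea d w ω' t := by
  unfold Rea
  rw [Orb_congr (ω := ω) (ω' := ω') fun f hf => h f (Vis_sub hf)]

theorem depOn_rea3 (d w : ℤ) (T : Fin 3 → ℤ) :
    DepOn ((BW w \ BW d : Finset (ℤ × ℤ)) : Set (ℤ × ℤ)) (Rea3 d w T) := by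
  intro ω ω' h
  rw [coe_sdiff] at h
  exact forall_congr' fun i => rea_congr h

theorem TipI.unique {i : Fin 3} {s s' : ℤ} (hd : 0 ≤ d) (hdw : d < w)
    (h : TipI d w ω T i s) (h' : TipI d w ω T i s') : s = s' := by
  refine ine_inj hd h.1 h.2.1 h'.1 h'.2.1 (ter_unique h.2.2 h'.2.2 ?_ ?_)
  · have := (ini_inner hd hdw h.1 h.2.1).ter_swap
    rwa [Prod.swap_swap] at this
  · have := (ini_inner hd hdw h'.1 h'.2.1).ter_swap
    rwa [Prod.swap_swap] at this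

theorem exists_tip (h : ω ∈ Rea3 d w T) : ∃ s : Fin 3 → ℤ, ∀ i, TipI d w ω T i (s i) := by
  choose s hs using h
  exact ⟨s, hs⟩

/-- The three cases. -/
theorem cases_tips {g : ℤ} (hg : 1 ≤ g) (h : ω ∈ Rea3 d w T) :
    ω ∈ CloseI d w g T ∨ ω ∈ SpecI d w g T ∨ ω ∈ SepI d w g T := by
  obtain ⟨s, hs⟩ := exists_tip h
  by_cases h1 : ω ∈ CloseI d w g T
  · exact Or.inl h1
  by_cases h2 : ω ∈ SpecI d w g T
  · exact Or.inr (Or.inl h2)
  refine Or.inr (Or.inr ⟨s, fun i => ⟨hs i, ?_⟩, fun i j hij => ?_⟩)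
  · by_contra hcon
    exact h2 ⟨h, i, s i, hs i, hcon⟩
  · by_contra hcon
    exact h1 ⟨h, i, j, s i, s j, hij, hs i, hs j, Or.inl (by omega)⟩

theorem aT_nonneg (d w : ℤ) : 0 ≤ aT d w := sum_nonneg fun _ _ => pr_nonneg _ _

theorem aT_mono (hd : 0 ≤ d) (h : d ≤ d') (hdw : d' < w) : aT d w ≤ aT d' w :=
  sum_le_sum fun _ ht => pr_mono _ fun _ hω => rea3_mono hd h hdw (mem_TA.1 ht) hω

/-- Independence of the annulus and of the inner box. -/
theorem pr_rea3_inter (h : d ≤ w) {A : Set Cfg} (hA : DepOn (BW d : Set (ℤ × ℤ)) A) :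
    pr (BW w) (Rea3 d w T ∩ A) = pr (BW w) (Rea3 d w T) * pr (BW d) A := by
  have e : BW w \ BW d ∪ BW d = BW w := sdiff_union_of_subset (BW_mono h)
  have h1 := pr_inter_of_disjoint (depOn_rea3 d w T) hA sdiff_disjoint
  rw [e] at h1
  rw [h1, pr_eq_of_depOn (depOn_rea3 d w T) sdiff_subset]

end Pool.Agent.Perc.Q
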