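import Pool.Agent.Lib.MP_6bd702_perc3.T3Defs

/-!
# T3, row Geo: the index with respect to a corridor in the twisted plane

The index of the face `f` of the twisted plane is the winding number `ind` of the corridor at the
same coordinates. Tools: `ind_hmove'`, `ind_right`, `ind_up`, `ind_hor` of `PairsZ` and `Loop`,
`corT_eq` of `TwQ`.
-/

set_option autoImplicit false

namespace Pool.Agent.Perc3

open Finset Pool.Agent.Perc Pool.Agent.Perc.Q

variable {L d₀ d w D n μ : ℤ} {u : ℤ × ℤ} {l : List (ℤ × ℤ)} {X : Set (ℤ × ℤ)}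

namespace GeoAux

theorem mem_An' {f : ℤ × ℤ} : f ∈ An d w ↔
    ((-(w + 2) ≤ f.1 ∧ f.1 < w ∧ 0 ≤ f.2 ∧ f.2 < w) ∨
      (-(w + 1) ≤ f.1 ∧ f.1 < w ∧ -w ≤ f.2 ∧ f.2 < 0)) ∧
    ¬ ((-(d + 2) ≤ f.1 ∧ f.1 < d ∧ 0 ≤ f.2 ∧ f.2 < d) ∨
      (-(d + 1) ≤ f.1 ∧ f.1 < d ∧ -d ≤ f.2 ∧ f.2 < 0)) := by
  unfold An
  rw [Set.mem_sdiff, mem_coe, mem_coe, BdAux.mem_BW, BdAux.mem_BW]

end GeoAux

open GeoAux

/-- Faces of the twisted plane are faces of the annulus of the square grid. -/
theorem an_sub_AnF (hd : d₀ + n ≤ d) (hw : w + n + 2 ≤ L) {f : ℤ × ℤ} (hf : f ∈ An d w) {j : ℤ}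
    (hj : |j| ≤ n) : (f.1 + j, f.2) ∈ AnF L L d₀ := by
  rw [mem_An'] at hf
  rw [mem_AnF]
  rw [abs_le] at hj
  simp only
  omega

/-- The index does not change by a horizontal move of length at most `n < D`. -/
theorem ind_move (hc : Corr L L d₀ u l) (h1 : 1 < d₀) (hd : d₀ + n ≤ d) (hw : w + n + 2 ≤ L)
    (hD : n < D) {f : ℤ × ℤ} (hf : f ∈ An d w) (hfar : FarP D u l f) {j : ℤ} (hj : |j| ≤ n) :
    ind L L u l (f.1 + j, f.2) = ind L L u l f := by
  have hf' := mem_An'.1 hf
  have hj' := abs_le.1 hj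
  have hL : 0 ≤ L := by omega
  refine (ind_hmove' h1 hL hL hc (y := f.2) (x₁ := f.1) (x₂ := f.1 + j) ?_ ?_).symm
  · intro i hi1 hi2
    have h2 : |i - f.1| ≤ n := by rw [abs_le]; omega
    have h3 := an_sub_AnF hd hw hf h2
    rwa [add_sub_cancel] at h3
  · intro i hi1 hi2 hp
    have h2 := hfar _ hp
    simp only at h2
    rw [sub_self, abs_zero, lt_max_iff, lt_abs] at h2
    omega

namespace GeoAux

/-- Steps which do not change the index. -/
theorem ind_step (hc : Corr L L d₀ u l) (h1 : 1 < d₀) (hn : 2 ≤ n) (hd : d₀ + n ≤ d)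
    (hw : w + n + 2 ≤ L) (hD : n < D) {x y x' y' : ℤ} (hf : (x, y) ∈ An d w)
    (hg : (x', y') ∈ An d w) (hfar : FarP D u l (x, y)) (hfar' : FarP D u l (x', y'))
    (h : (y' = y ∧ (x' = x ∨ x' = x + 1 ∨ x' = x - 1)) ∨
      (x' = x ∧ ((y' = y + 1 ∧ (y ≠ -1 ∨ 0 ≤ x)) ∨ (y' = y - 1 ∧ (y ≠ 0 ∨ 0 ≤ x))))) :
    ind L L u l (x', y') = ind L L u l (x, y) := by
  have hf' := mem_An'.1 hf
  have hL : 0 ≤ L := by simp only at hf'; omega
  have hup : ∀ x y : ℤ, (x, y) ∈ An d w → FarP D u l (x, y) → (y ≠ -1 ∨ 0 ≤ x) →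
      ind L L u l (x, y + 1) = ind L L u l (x, y) := by
    intro x y hf hfar hy
    have hf2 := an_sub_AnF hd hw hf (j := 0) (by rw [abs_zero]; omega)
    rw [add_zero] at hf2
    have ha : ¬ OnPath u l (x, y + 1, false) :=
      hfar.side (by omega) (a := to' (x, y)) (Or.inr (Or.inr (Or.inl rfl)))
    have k1 := side_inn h1 hc hf2 (a := to' (x, y)) (Or.inr (Or.inr (Or.inl rfl)))
    have k3 := side_outp hL hL hc hf2 (a := to' (x, y)) (Or.inr (Or.inr (Or.inl rfl)))
    have h4 := ind_hor hc hL k1 ha k3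
    rw [add_sub_cancel_right, if_neg (by omega), add_zero] at h4
    exact h4.symm
  rcases h with ⟨rfl, rfl | rfl | rfl⟩ | ⟨rfl, ⟨rfl, h⟩ | ⟨rfl, h⟩⟩
  · rfl
  · exact ind_move hc h1 hd hw hD hf hfar (j := 1) (by rw [abs_one]; omega)
  · have := ind_move hc h1 hd hw hD hf hfar (j := -1) (by rw [abs_neg, abs_one]; omega)
    exact this
  · exact hup _ _ hf hfar h
  · have := hup _ _ hg hfar' (by omega)
    rw [sub_add_cancel] at this
    exact this.symm

/-- The step across the cut. -/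
theorem ind_cross (hc : Corr L L d₀ u l) (h1 : 1 < d₀) (hn : 2 ≤ n) (hd : d₀ + n ≤ d)
    (hw : w + n + 2 ≤ L) (hD : n < D) {x : ℤ} (hf : (x, 0) ∈ An d w) (hx : x < -2)
    (hfar : FarP D u l (x, 0)) :
    ind L L u l (x + 1, -1) = ind L L u l (x, 0) + 1 := by
  have hf' := mem_An'.1 hf
  have hL : 0 ≤ L := by simp only at hf'; omega
  have h0 := ind_move hc h1 hd hw hD hf hfar (j := 1) (by rw [abs_one]; omega)
  simp only at h0
  rw [← h0]
  have hf2 := an_sub_AnF hd hw hf (j := 1) (by rw [abs_one]; omega)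
  simp only at hf2
  have ha : ¬ OnPath u l (x + 1, 0, false) := by
    intro hp
    have h2 := hfar _ hp
    simp only at h2
    rw [lt_max_iff, lt_abs, lt_abs] at h2
    omega
  have k1 := side_inn h1 hc hf2 (a := bo (x + 1, 0)) (Or.inl rfl)
  have k3 := side_outp hL hL hc hf2 (a := bo (x + 1, 0)) (Or.inl rfl)
  have h4 := ind_hor hc hL k1 ha k3
  rw [if_pos (by simp only at hf'; omega)] at h4
  exact h4

end GeoAux

/-- The index is compatible with the cover. -/
theorem isIndT_ind (hc : Corr L L d₀ u l) (h1 : 1 < d₀) (hn : 2 ≤ n) (hd : d₀ + n ≤ d)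
    (hw : w + n + 2 ≤ L) (hD : n < D) (hX : X ⊆ An d w) (hfar : ∀ f ∈ X, FarP D u l f)
    (hN : ∀ f, |ind L L u l f - μ| ≤ n) : IsIndT X (fun f => ind L L u l f - μ) := by
  have key : ∀ f ∈ X, ∀ g ∈ X, ∀ k l', (k = 1 ∨ k = 2) →
      TQ.c g l' = TQ.c f (k + 1) → TQ.c g (l' + 1) = TQ.c f k →
      shS (fun f => ind L L u l f - μ) f k = shS (fun f => ind L L u l f - μ) g l' := by
    rintro ⟨x, y⟩ hf ⟨x', y'⟩ hg k l' hk e1 e2
    obtain ⟨hl, hcase⟩ := BdAux.side_eq (f := (x, y)) (g := (x', y')) (k := k) (l := l')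
      (by rw [e1, e2])
    have hfa := hX hf
    have hga := hX hg
    have hfa' := mem_An'.1 hfa
    have hga' := mem_An'.1 hga
    have hNf := abs_le.1 (hN (x, y))
    have hNg := abs_le.1 (hN (x', y'))
    simp only at hcase hfa' hga'
    rcases hk with rfl | rfl
    · -- right side
      have hcase' : y' = y ∧ x' = x + 1 := by
        rcases hcase with ⟨h, -⟩ | ⟨-, h⟩ | ⟨h, -⟩ | ⟨h, -⟩
        · exact absurd h (by decide)
        · exact h
        · exact absurd h (by decide)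
        · exact absurd h (by decide)
      obtain ⟨rfl, rfl⟩ := hcase'
      have hl' : l' = 3 := by rw [hl]; rfl
      subst hl'
      have hi := ind_step hc h1 hn hd hw hD hfa hga (hfar _ hf) (hfar _ hg)
        (Or.inl ⟨rfl, Or.inr (Or.inl rfl)⟩)
      unfold shS shF
      simp only [hi]
      have hs1 : ∀ a : ℤ × ℤ, sd a 1 = ri a := fun a => rfl
      have hs3 : ∀ a : ℤ × ℤ, sd a 3 = le' a := fun a => rfl
      rw [hs1, hs3]
      unfold lft
      have c1 : ¬ IsCut (ri (x - (ind L L u l (x, y') - μ), y')) := by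
        unfold IsCut ri; simp
      have c2 : ¬ IsCut (le' (x + 1 - (ind L L u l (x, y') - μ), y')) := by
        unfold IsCut le'; simp
      rw [if_neg (fun h => c1 h.1), if_neg (fun h => c2 h.1)]
      unfold ri le'
      simp only [Prod.mk.injEq, and_true]
      ring
    · -- upper side
      have hcase' : y' = y + 1 ∧ ((y ≠ -1 ∧ x' = x) ∨ (y = -1 ∧ 0 ≤ x ∧ x' = x) ∨
          (y = -1 ∧ x + 1 < 0 ∧ x' = x - 1)) := by
        rcases hcase with ⟨h, -⟩ | ⟨h, -⟩ | ⟨-, h⟩ | ⟨h, -⟩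
        · exact absurd h (by decide)
        · exact absurd h (by decide)
        · exact h
        · exact absurd h (by decide)
      have hl' : l' = 0 := by rw [hl]; rfl
      subst hl'
      have hs2 : ∀ a : ℤ × ℤ, sd a 2 = to' a := fun a => rfl
      have hs0 : ∀ a : ℤ × ℤ, sd a 0 = bo a := fun a => rfl
      unfold shS shF
      rw [hs2, hs0]
      unfold lft IsCut to' bo
      simp only [true_and]
      obtain ⟨hy, hc2⟩ := hcase'
      subst hy
      by_cases hcr : y = -1 ∧ x + 1 < 0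
      · obtain ⟨rfl, hx⟩ := hcr
        have hx' : x' = x - 1 := by omega
        subst hx'
        have hi := ind_cross hc h1 hn hd hw hD (x := x - 1) hga (by omega) (hfar _ hg)
        rw [sub_add_cancel] at hi
        have h0 : ((-1 : ℤ) + 1) = 0 := by norm_num
        rw [h0] at hNg ⊢
        rw [hi]
        rw [hi] at hNf
        rw [if_pos (by omega), if_neg (by omega)]
        simp only [Prod.mk.injEq, and_true]
        omega
      · have hx' : x' = x := by omega
        subst hx'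
        have hi := ind_step hc h1 hn hd hw hD hfa hga (hfar _ hf) (hfar _ hg)
          (Or.inr ⟨rfl, Or.inl ⟨rfl, by omega⟩⟩)
        rw [hi]
        rw [hi] at hNg
        by_cases hy : y = -1
        · rw [if_neg (by omega), if_neg (by omega)]
        · rw [if_neg (by omega), if_neg (by omega)]
  intro f hf g hg k l' e1 e2
  rcases BdAux.zk k with rfl | rfl | rfl | rfl
  · obtain ⟨hl, -⟩ := BdAux.side_eq (f := f) (g := g) (k := 0) (l := l') (by rw [e1, e2])
    exact (key g hg f hf l' 0 (Or.inr (by rw [hl]; rfl)) e2.symm e1.symm).symm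
  · exact key f hf g hg 1 l' (Or.inl rfl) e1 e2
  · exact key f hf g hg 2 l' (Or.inr rfl) e1 e2
  · obtain ⟨hl, -⟩ := BdAux.side_eq (f := f) (g := g) (k := 3) (l := l') (by rw [e1, e2])
    exact (key g hg f hf l' 3 (Or.inl (by rw [hl]; rfl)) e2.symm e1.symm).symm

namespace GeoAux

/-- The face behind the boundary edge. -/
def fcW (r t : ℤ) : ℤ × ℤ :=
  if t < r then (r - 1, t) else if t < 3 * r + 2 then (2 * r - t - 1, r - 1)
  else if t < 4 * r + 2 then (-(r + 2), 4 * r + 1 - t)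
  else if t < 5 * r + 2 then (-(r + 1), 4 * r + 1 - t)
  else if t < 7 * r + 3 then (t - 6 * r - 3, -r) else (r - 1, t - 8 * r - 3)

open BdAux

theorem ine_fcW {r t : ℤ} (hr : 0 < r) (h0 : 0 ≤ t) (h1 : t < 8 * r + 3) :
    ∃ k, ine r t = (TQ.c (fcW r t) k, TQ.c (fcW r t) (k + 1)) := by
  unfold ine fcW
  by_cases a1 : t < r
  · rw [bd_R (by omega), bd_R (by omega), if_pos a1]
    refine ⟨1, ?_⟩
    rw [zk1, c_1, c_2, gl_of_ne (by omega), gl_of_ne (by omega), sub_add_cancel]
  rw [if_neg a1]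
  by_cases a2 : t < 3 * r + 2
  · rw [bd_T (by omega) (by omega), bd_T (by omega) (by omega), if_pos a2]
    refine ⟨2, ?_⟩
    rw [zk2, c_2, c_3, gl_of_ne (by omega), gl_of_ne (by omega), sub_add_cancel, sub_add_cancel,
      sub_add_eq_sub_sub]
  rw [if_neg a2]
  by_cases a3 : t < 4 * r + 2
  · rw [bd_L hr.le (by omega) (by omega), bd_L hr.le (by omega) (by omega), if_pos a3]
    refine ⟨3, ?_⟩
    rw [zk3, c_3, c_0, gl_of_ne (by omega), gl_of_ne (by omega), Prod.ext_iff, Prod.ext_iff,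
      Prod.ext_iff]
    dsimp only
    omega
  rw [if_neg a3]
  by_cases a4 : t < 5 * r + 2
  · rw [if_pos a4]
    have hq : bd r (t + 1) = (-(r + 1), 4 * r + 1 - t) := by
      rw [bd_Ll hr.le (by omega) (by omega), Prod.mk.injEq]; omega
    have hp : bd r t = gl (-1) (-(r + 1)) (4 * r + 2 - t) := by
      by_cases h : t = 4 * r + 2
      · rw [gl_of (by omega) (by omega) (by omega), bd_L hr.le (by omega) (by omega),
          Prod.mk.injEq]
        omega
      · rw [gl_of_ne (by omega), bd_Ll hr.le (by omega) (by omega)]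
    have hgl : ∀ y, y < 0 → gl y (-(r + 1)) (4 * r + 2 - t) =
        gl (-1) (-(r + 1)) (4 * r + 2 - t) := by
      intro y hy
      unfold gl
      simp only [hy, show (-1 : ℤ) < 0 by norm_num]
    have e2 : gl (4 * r + 1 - t) (-(r + 1)) (4 * r + 1 - t) = (-(r + 1), 4 * r + 1 - t) :=
      gl_of_ne (by omega)
    rw [hp, hq]
    refine ⟨3, ?_⟩
    rw [zk3, c_3, c_0]
    dsimp only
    rw [show 4 * r + 1 - t + 1 = 4 * r + 2 - t by ring, hgl (4 * r + 1 - t) (by omega), e2]
  rw [if_neg a4]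
  by_cases a5 : t < 7 * r + 3
  · rw [bd_B hr (by omega) (by omega), bd_B hr (by omega) (by omega), if_pos a5]
    refine ⟨0, ?_⟩
    rw [zk0, c_0, c_1, gl_of_ne (by omega), gl_of_ne (by omega), Prod.ext_iff, Prod.ext_iff,
      Prod.ext_iff]
    dsimp only
    omega
  · rw [bd_Rl (by omega) (by omega), bd_Rl (by omega) (by omega), if_neg a5]
    refine ⟨1, ?_⟩
    rw [zk1, c_1, c_2, gl_of_ne (by omega), gl_of_ne (by omega), Prod.ext_iff, Prod.ext_iff,
      Prod.ext_iff]
    dsimp only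
    omega

theorem face_eq {r t : ℤ} (hr : 0 < r) (h0 : 0 ≤ t) (h1 : t < 8 * r + 3) {f : ℤ × ℤ} {k : ZMod 4}
    (h : ine r t = (TQ.c f k, TQ.c f (k + 1))) : f = fcW r t := by
  obtain ⟨k', hk'⟩ := ine_fcW hr h0 h1
  rw [h, Prod.mk.injEq] at hk'
  exact (TQ.inj hk'.1 hk'.2).1

end GeoAux

/-- The index of two neighbouring boundary faces: it increases by one when the cut is crossed
counterclockwise. -/
theorem ind_bd (hc : Corr L L d₀ u l) (h1 : 1 < d₀) (hn : 2 ≤ n) (hd : d₀ + n ≤ d) (hdw : d < w)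
    (hw : w + n + 2 ≤ L) (hD : n < D) {t : ℤ} (h0 : 0 ≤ t) (ht : t + 1 < 8 * w + 3) {f g : ℤ × ℤ}
    {k k' : ZMod 4} (hf : f ∈ BW w) (hg : g ∈ BW w) (hft : ine w t = (TQ.c f k, TQ.c f (k + 1)))
    (hgt : ine w (t + 1) = (TQ.c g k', TQ.c g (k' + 1))) (hfar : FarP D u l f)
    (hfar' : FarP D u l g) :
    ind L L u l g = ind L L u l f + if t + 1 = 4 * w + 2 then 1 else 0 := by
  have hw0 : 0 < w := by omega
  have ef := face_eq hw0 h0 (by omega) hft
  have eg := face_eq hw0 (by omega) ht hgt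
  have hfA : f ∈ An d w := by
    rw [mem_An', ef]
    unfold fcW
    split_ifs <;> simp only <;> omega
  have hgA : g ∈ An d w := by
    rw [mem_An', eg]
    unfold fcW
    split_ifs <;> simp only <;> omega
  obtain ⟨x, y⟩ := f
  obtain ⟨x', y'⟩ := g
  by_cases hcr : t + 1 = 4 * w + 2
  · have e1 : x = -(w + 2) ∧ y = 0 := by
      unfold fcW at ef
      rw [if_neg (by omega), if_neg (by omega), if_pos (by omega), Prod.mk.injEq] at ef
      omega
    have e2 : x' = -(w + 1) ∧ y' = -1 := by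
      unfold fcW at eg
      rw [if_neg (by omega), if_neg (by omega), if_neg (by omega), if_pos (by omega),
        Prod.mk.injEq] at eg
      omega
    obtain ⟨rfl, rfl⟩ := e1
    obtain ⟨rfl, rfl⟩ := e2
    rw [if_pos hcr]
    have := ind_cross hc h1 hn hd hw hD hfA (by omega) hfar
    rw [show -(w + 2) + 1 = -(w + 1) by ring] at this
    exact this
  · rw [if_neg hcr, add_zero]
    refine ind_step hc h1 hn hd hw hD hfA hgA hfar hfar' ?_
    unfold fcW at ef eg
    split_ifs at ef eg <;> (rw [Prod.mk.injEq] at ef eg; omega)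

/-- The same for the last and the first boundary face. -/
theorem ind_bd_last (hc : Corr L L d₀ u l) (h1 : 1 < d₀) (hn : 2 ≤ n) (hd : d₀ + n ≤ d)
    (hdw : d < w) (hw : w + n + 2 ≤ L) (hD : n < D) {f g : ℤ × ℤ} {k k' : ZMod 4} (hf : f ∈ BW w)
    (hg : g ∈ BW w) (hft : ine w (8 * w + 2) = (TQ.c f k, TQ.c f (k + 1)))
    (hgt : ine w 0 = (TQ.c g k', TQ.c g (k' + 1))) (hfar : FarP D u l f)
    (hfar' : FarP D u l g) : ind L L u l g = ind L L u l f := by
  have hw0 : 0 < w := by omega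
  have ef := face_eq hw0 (by omega) (by omega) hft
  have eg := face_eq hw0 (by omega) (by omega) hgt
  have hfA : f ∈ An d w := by
    rw [mem_An', ef]
    unfold fcW
    split_ifs <;> simp only <;> omega
  have hgA : g ∈ An d w := by
    rw [mem_An', eg]
    unfold fcW
    split_ifs <;> simp only <;> omega
  obtain ⟨x, y⟩ := f
  obtain ⟨x', y'⟩ := g
  refine ind_step hc h1 hn hd hw hD hfA hgA hfar hfar' ?_
  unfold fcW at ef eg
  split_ifs at ef eg <;> (rw [Prod.mk.injEq] at ef eg; omega)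

end Pool.Agent.Perc3
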