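import Pool.Agent.Lib.MP_6bd702_perc3.StrandRectB
import Pool.Agent.Lib.MP_6bd702_perc3.TwSec
import Pool.Agent.Lib.MP_6bd702_perc3.TwChart

/-!
# The exits of the strands which start on the sides of the box

The strand which starts on the right side of the box, read in the chart.
-/

set_option autoImplicit false

namespace Pool.Agent.Perc.Q

open Finset Pool.Agent.Perc Relation
open Pool.Agent.PercN (DisLR DisBT pr_disLR_le pr_disBT_le depOn_disLR depOn_disBT)

variable {ω : Cfg} {d w s t c : ℤ} {F : Set (ℤ × ℤ)}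

/-- The corners of a face in a chart. -/
theorem cor_chart (hF : ChOk emP s F) {f : ℤ × ℤ} (hf : f ∈ F) (k : ZMod 4) :
    TQ.c (chF s f) k = chF s (ZQ.c f k) := by
  obtain ⟨x, y⟩ := f
  change corT emP (chF s (x, y)) k = chF s (cor0 (x, y) k)
  rcases lt_or_ge y 0 with h0 | h0
  · rw [chF_low (show (x, y).2 < 0 from h0)]
    simp only
    obtain ⟨a0, a1, a2, a3⟩ := corT_eq emP (x + s) y
    by_cases h1 : y = -1
    · obtain ⟨a4, a5⟩ := a3 h1
      obtain ⟨b1, b2⟩ := hF _ hf h1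
      simp only at b1 b2
      rcases k4_cases k with rfl | rfl | rfl | rfl
      · rw [a0, cor0_0, chF_low (show (x, y).2 < 0 from h0)]
      · rw [a1, cor0_1, chF_low (by simp only; omega)]
        exact Prod.ext (by simp only; omega) rfl
      · rw [a4, cor0_2, chF_up (by simp only; omega), show x + s + 1 = x + 1 + s by ring, b2]
        exact Prod.ext rfl (by simp only; omega)
      · rw [a5, cor0_3, chF_up (by simp only; omega), b1]
        exact Prod.ext rfl (by simp only; omega)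
    · obtain ⟨a4, a5⟩ := a2 h1
      rcases k4_cases k with rfl | rfl | rfl | rfl
      · rw [a0, cor0_0, chF_low (show (x, y).2 < 0 from h0)]
      · rw [a1, cor0_1, chF_low (by simp only; omega)]
        exact Prod.ext (by simp only; omega) rfl
      · rw [a4, cor0_2, chF_low (by simp only; omega)]
        exact Prod.ext (by simp only; omega) rfl
      · rw [a5, cor0_3, chF_low (by simp only; omega)]
  · rw [chF_up (show 0 ≤ (x, y).2 from h0), corT_up (show 0 ≤ (x, y).2 from h0)]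
    rcases k4_cases k with rfl | rfl | rfl | rfl
    · rw [cor0_0, chF_up (show 0 ≤ (x, y).2 from h0)]
    · rw [cor0_1, chF_up (by simp only; omega)]
    · rw [cor0_2, chF_up (by simp only; omega)]
    · rw [cor0_3, chF_up (by simp only; omega)]

/-- A strand of the plane in a chart. -/
theorem orb_chart (hF : ChOk emP s F) {G : Set (ℤ × ℤ)} (hG : ∀ f ∈ F, chF s f ∈ G)
    {a e : (ℤ × ℤ) × (ℤ × ℤ)} (ha : a ∈ Orb ZQ (chC s ω) F e) :
    Prod.map (chF s) (chF s) a ∈ Orb TQ ω G (Prod.map (chF s) (chF s) e) := by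
  refine Orb_mono (F := chF s '' F) ?_ (Orb_map (Q := ZQ) (Q' := TQ) (φ := chF s) (ψ := chF s)
    (ω' := ω) (fun f hf k => cor_chart hF hf k) ha)
  rintro _ ⟨f, hf, rfl⟩
  exact hG f hf

/-- A strand which reaches the inner box does not leave the annulus through the outer boundary. -/
theorem no_outer_exit (hd : 0 ≤ d) (hdw : d < w) (hr : Rea d w ω t) {t' : ℤ} (h0' : 0 ≤ t')
    (h1' : t' < 8 * w + 3) : (ine w t').swap ∉ Orb TQ ω (An d w) (ine w t) := by
  intro h
  obtain ⟨s, hs0, hs1, hs⟩ := hr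
  have h2 : Ter TQ (An d w) (ine w t').swap := (ini_outer hd hdw h0' h1').ter_swap
  have h3 : Ter TQ (An d w) (ine d s) := by
    have := (ini_inner hd hdw hs0 hs1).ter_swap
    rwa [Prod.swap_swap] at this
  have h4 := ter_unique hs h h3 h2
  exact bd_ne hd hdw hs0 hs1.le (by omega) (by omega : t' + 1 ≤ 8 * w + 3) (Prod.mk.inj h4).1

open Classical in
/-- The outer boundary edges whose strands reach the inner box. -/
noncomputable def crs (d w : ℤ) (ω : Cfg) : Finset ℤ :=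
  (Ico 0 (8 * w + 3)).filter fun t => Rea d w ω t

theorem mem_BW' {r : ℤ} {f : ℤ × ℤ} : f ∈ BW r ↔
    (-(r + 2) ≤ f.1 ∧ f.1 < r ∧ 0 ≤ f.2 ∧ f.2 < r) ∨
      (-(r + 1) ≤ f.1 ∧ f.1 < r ∧ -r ≤ f.2 ∧ f.2 < 0) := by
  unfold BW
  rw [mem_union, rf_iff, rf_iff]
  omega

theorem mem_An {f : ℤ × ℤ} : f ∈ An d w ↔ f ∈ BW w ∧ f ∉ BW d := Iff.rfl

/-! ### The four sides -/

theorem ine_R (_ : 0 < w) {j : ℤ} (h0 : -w ≤ j) (h1 : j < w) :
    ine w (if 0 ≤ j then j else j + 8 * w + 3) = ((w, j), (w, j + 1)) := by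
  unfold ine bd
  split_ifs <;> refine Prod.ext (Prod.ext ?_ ?_) (Prod.ext ?_ ?_) <;> simp only <;> omega

theorem ine_T (hw : 0 < w) {j : ℤ} (h0 : -w ≤ j) (h1 : j < w + 2) :
    ine w (j + 2 * w) = ((-j, w), (-(j + 1), w)) := by
  unfold ine bd
  split_ifs <;> refine Prod.ext (Prod.ext ?_ ?_) (Prod.ext ?_ ?_) <;> simp only <;> omega

theorem ine_L (hw : 0 < w) {j : ℤ} (h0 : -w ≤ j) (h1 : j < w) :
    ine w (j + 4 * w + 2) = Prod.map (chF 1) (chF 1) ((-(w + 2), -j), (-(w + 2), -(j + 1))) := by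
  unfold ine bd chF Prod.map
  simp only
  split_ifs <;> refine Prod.ext (Prod.ext ?_ ?_) (Prod.ext ?_ ?_) <;> simp only <;> omega

theorem ine_B (hw : 0 < w) {j : ℤ} (h0 : -(w + 1) ≤ j) (h1 : j < w) :
    ine w (j + 6 * w + 3) = ((j, -w), (j + 1, -w)) := by
  unfold ine bd
  split_ifs <;> refine Prod.ext (Prod.ext ?_ ?_) (Prod.ext ?_ ?_) <;> simp only <;> omega

theorem no_R (hd : 0 ≤ d) (hdw : d < w) (hr : Rea d w ω t) {j : ℤ} (h0 : -w ≤ j) (h1 : j < w) :
    ((w, j + 1), (w, j)) ∉ Orb TQ ω (An d w) (ine w t) := by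
  have h := no_outer_exit (t' := if 0 ≤ j then j else j + 8 * w + 3) hd hdw hr
    (by split_ifs <;> omega) (by split_ifs <;> omega)
  rwa [ine_R (by omega) h0 h1] at h

theorem no_T (hd : 0 ≤ d) (hdw : d < w) (hr : Rea d w ω t) {x : ℤ} (h0 : -(w + 2) ≤ x)
    (h1 : x < w) : ((x, w), (x + 1, w)) ∉ Orb TQ ω (An d w) (ine w t) := by
  have h := no_outer_exit (t' := -(x + 1) + 2 * w) hd hdw hr (by omega) (by omega)
  rw [ine_T (by omega) (by omega) (by omega), neg_neg, show -(-(x + 1) + 1) = x by ring] at h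
  exact h

theorem no_L (hd : 0 ≤ d) (hdw : d < w) (hr : Rea d w ω t) {y : ℤ} (h0 : -w ≤ y)
    (h1 : y < w) : Prod.map (chF 1) (chF 1) ((-(w + 2), y), (-(w + 2), y + 1)) ∉
      Orb TQ ω (An d w) (ine w t) := by
  have h := no_outer_exit (t' := -(y + 1) + 4 * w + 2) hd hdw hr (by omega) (by omega)
  rw [ine_L (by omega) (by omega) (by omega), neg_neg, show -(-(y + 1) + 1) = y by ring] at h
  exact h

theorem no_B (hd : 0 ≤ d) (hdw : d < w) (hr : Rea d w ω t) {x : ℤ} (h0 : -(w + 1) ≤ x)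
    (h1 : x < w) : ((x + 1, -w), (x, -w)) ∉ Orb TQ ω (An d w) (ine w t) := by
  have h := no_outer_exit (t' := x + 6 * w + 3) hd hdw hr (by omega) (by omega)
  rwa [ine_B (by omega) (by omega) (by omega)] at h

theorem map_chF_zero (b : (ℤ × ℤ) × (ℤ × ℤ)) : Prod.map (chF 0) (chF 0) b = b :=
  Prod.ext (chF_zero _) (chF_zero _)

theorem exit_R (hd : 0 ≤ d) (hdw : d < w) {j : ℤ} (h0 : -w ≤ j) (h1 : j < w)
    (ht : ine w t = ((w, j), (w, j + 1))) (hr : Rea d w ω t) :
    ∃ y, ((d, y), (d, y + 1)) ∈ Orb ZQ (chC 0 ω) (RF d w (-w) w : Finset (ℤ × ℤ))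
      ((w, j), (w, j + 1)) := by
  have hF : ChOk emP 0 (RF d w (-w) w : Finset (ℤ × ℤ)) := by
    intro f hf _
    rw [mem_coe, rf_iff] at hf
    unfold emP
    rw [if_pos (by omega), if_pos (by omega)]
    omega
  have hG : ∀ f ∈ ((RF d w (-w) w : Finset (ℤ × ℤ)) : Set (ℤ × ℤ)), chF 0 f ∈ An d w := by
    intro f hf
    rw [mem_coe, rf_iff] at hf
    rw [chF_zero, mem_An, mem_BW', mem_BW']
    omega
  have key : ∀ {a : (ℤ × ℤ) × (ℤ × ℤ)}, a ∈ Orb ZQ (chC 0 ω) (RF d w (-w) w : Finset (ℤ × ℤ))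
      ((w, j), (w, j + 1)) → a ∈ Orb TQ ω (An d w) (ine w t) := by
    intro a ha
    have h2 := orb_chart hF hG ha
    rw [map_chF_zero, map_chF_zero] at h2
    rw [ht]
    exact h2
  rcases exit_cases (ω := chC 0 ω) (ini_of_ter (ter_right (x₀ := d) (x₁ := w) (y₀ := -w)
    (y₁ := w) j)) ⟨(w - 1, j), by rw [rf_iff]; simp only; omega, 1, by
      simp only [ZQ_c, k11, cor0_1, cor0_2, sub_add_cancel]⟩ with
    ⟨y, hy, h2⟩ | ⟨x, hx, h2⟩ | ⟨y, hy, h2⟩ | ⟨x, hx, h2⟩
  · exact absurd (key h2) (no_R hd hdw hr hy.1 hy.2)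
  · exact absurd (key h2) (no_T hd hdw hr (by omega) hx.2)
  · exact ⟨y, h2⟩
  · exact absurd (key h2) (no_B hd hdw hr (by omega) hx.2)

end Pool.Agent.Perc.Q
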