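import Mathlib

/-!
# Cells of the twisted plane: definitions (helper23)

The cell `g = (i, j)` is the closed square `[i w, (i + 1) w] × [j w, (j + 1) w]` in the chart
`chS g`: the lower left cells are read in lower coordinates, which are the chart coordinates
plus one.
-/

set_option autoImplicit false

namespace Pool.Agent.Perc

/-- The chart of a cell. -/
def chS (g : ℤ × ℤ) : ℤ := if g.1 < 0 then 1 else 0

/-- The cells which do not contain the core and are not in the cut column below the axis. -/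
def CellOk (g : ℤ × ℤ) : Prop := 0 ≤ g.2 ∨ (g.1 ≠ 0 ∧ (g.2 = -1 → g.1 ≠ -1))

/-- Adjacent cells. -/
def CAdj (g g' : ℤ × ℤ) : Prop :=
  (g'.1 = g.1 + 1 ∧ g'.2 = g.2) ∨ (g.1 = g'.1 + 1 ∧ g'.2 = g.2) ∨
    (g'.1 = g.1 ∧ g'.2 = g.2 + 1) ∨ (g'.1 = g.1 ∧ g.2 = g'.2 + 1)

/-- No face of the cell is in `BW R`. -/
def COut (w R : ℤ) (g : ℤ × ℤ) : Prop :=
  R ≤ g.1 * w ∨ (g.1 + 1) * w ≤ -(R + 2) ∨ R ≤ g.2 * w ∨ (g.2 + 1) * w ≤ -R

/-- All faces of the cell are in `BW R`. -/
def CIn (w R : ℤ) (g : ℤ × ℤ) : Prop :=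
  -(R + 2) ≤ g.1 * w ∧ (g.1 + 1) * w ≤ R ∧ -R ≤ g.2 * w ∧ (g.2 + 1) * w ≤ R

/-- The cell of the boundary edge `t` of `BW R`. -/
def tcell (w R t : ℤ) : ℤ × ℤ :=
  if t < R then (R / w, t / w) else if t < 3 * R + 2 then ((2 * R - t - 1) / w, R / w)
  else if t < 5 * R + 2 then ((-(R + 2)) / w, (4 * R + 1 - t) / w)
  else if t < 6 * R + 3 then ((t - 6 * R - 4) / w, (-R) / w)
  else if t < 7 * R + 3 then ((t - 6 * R - 3) / w, (-R) / w) else (R / w, (t - 8 * R - 3) / w)

/-- The outward direction at the boundary edge `t` of `BW R`. -/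
def tdir (R t : ℤ) : ℤ × ℤ :=
  if t < R then (1, 0) else if t < 3 * R + 2 then (0, 1) else if t < 5 * R + 2 then (-1, 0)
  else if t < 7 * R + 3 then (0, -1) else (1, 0)

/-- The linear coordinate on the boundary of `BW R`, cut at the middle of the lower side. -/
def tlin (R t : ℤ) : ℤ := if 6 * R + 3 ≤ t then t - (6 * R + 3) else t + 2 * R

end Pool.Agent.Perc
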