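import Pool.Agent.Lib.MP_6bd702_perc.Prob

/-!
# Transport of stopping sets

Let `S ζ` be a stopping set for the configurations `ζ` on an index set `ι` and `A` an event which
depends only on `S ζ` and on `ζ` on `S ζ`. If a map `p : ι → ℤ × ℤ` is injective on all `S ζ`,
`ζ ∈ A`, then the probability of the event `ω ∘ p ∈ A` does not depend on `p`.
-/

set_option autoImplicit false

namespace Pool.Agent.Perc3

open Finset Pool.Agent.Perc

variable {ι : Type}

/-- `S` is a stopping set. -/
def Stopping (S : (ι → Bool) → Set ι) : Prop :=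
  ∀ ζ ζ' : ι → Bool, (∀ s ∈ S ζ, ζ s = ζ' s) → S ζ' = S ζ

/-- The event `A` is determined by the stopping set `S`. -/
def DetBy (S : (ι → Bool) → Set ι) (A : Set (ι → Bool)) : Prop :=
  ∀ ζ ζ' : ι → Bool, (∀ s ∈ S ζ, ζ s = ζ' s) → (ζ ∈ A ↔ ζ' ∈ A)

open Classical in
/-- The configuration with the value `true` exactly on `T`. -/
noncomputable def cfgI (T : Finset ι) : ι → Bool := fun s => decide (s ∈ T)

theorem cfgI_eq_true {T : Finset ι} {s : ι} : cfgI T s = true ↔ s ∈ T := by
  simp [cfgI]

theorem cfg_eq_true {T : Finset (ℤ × ℤ)} {f : ℤ × ℤ} : cfg T f = true ↔ f ∈ T := by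
  simp [cfg]

open Classical in
/-- The finite set of the visited indices. -/
noncomputable def fin (Ft : Finset ι) (S : (ι → Bool) → Set ι) (ζ : ι → Bool) : Finset ι :=
  Ft.filter fun s => s ∈ S ζ

theorem mem_fin {Ft : Finset ι} {S : (ι → Bool) → Set ι} (hF : ∀ ζ, S ζ ⊆ Ft) {ζ : ι → Bool}
    {s : ι} : s ∈ fin Ft S ζ ↔ s ∈ S ζ := by
  classical
  unfold fin
  rw [mem_filter]
  exact ⟨fun h => h.2, fun h => ⟨hF _ h, h⟩⟩

open Classical in
/-- The patterns of the event `A`. -/
noncomputable def pats (Ft : Finset ι) (S : (ι → Bool) → Set ι) (A : Set (ι → Bool)) :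
    Finset (Finset ι) :=
  Ft.powerset.filter fun T => cfgI T ∈ A ∧ ∀ s ∈ T, s ∈ S (cfgI T)

open Classical in
/-- The probability as a sum over the patterns. -/
theorem pr_eq_pats {Ft : Finset ι} {S : (ι → Bool) → Set ι} (hF : ∀ ζ, S ζ ⊆ Ft)
    (hS : Stopping S) {A : Set (ι → Bool)} (hA : DetBy S A) {p : ι → ℤ × ℤ}
    (hp : ∀ ζ ∈ A, Set.InjOn p (S ζ)) {W : Finset (ℤ × ℤ)} (hW : ∀ s ∈ Ft, p s ∈ W) :
    pr W {ω | (fun s => ω (p s)) ∈ A} =
      ∑ T ∈ pats Ft S A, ((2 : ℝ) ^ (fin Ft S (cfgI T)).card)⁻¹ := by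
  set X : Finset (Finset (ℤ × ℤ)) :=
    W.powerset.filter fun U => cfg U ∈ {ω : Cfg | (fun s => ω (p s)) ∈ A} with hX
  let tr : Finset (ℤ × ℤ) → Finset ι := fun U =>
    Ft.filter fun s => s ∈ S (fun s => cfg U (p s)) ∧ p s ∈ U
  have memtr : ∀ (U : Finset (ℤ × ℤ)) (s : ι),
      s ∈ tr U ↔ s ∈ S (fun s => cfg U (p s)) ∧ p s ∈ U := by
    intro U s
    simp only [tr, mem_filter]
    exact ⟨fun h => h.2, fun h => ⟨hF _ h.1, h⟩⟩
  -- agreement on the stopping set
  have agree : ∀ U : Finset (ℤ × ℤ), ∀ s ∈ S (fun s => cfg U (p s)),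
      cfg U (p s) = cfgI (tr U) s := by
    intro U s hs
    rw [Bool.eq_iff_iff, cfg_eq_true, cfgI_eq_true, memtr]
    exact ⟨fun h => ⟨hs, h⟩, fun h => h.2⟩
  have hmap : ∀ U ∈ X, tr U ∈ pats Ft S A := by
    intro U hU
    rw [hX, mem_filter] at hU
    unfold pats
    rw [mem_filter]
    refine ⟨mem_powerset.2 (filter_subset _ _), (hA _ _ (agree U)).1 hU.2, fun s hs => ?_⟩
    rw [hS _ _ (agree U)]
    exact ((memtr U s).1 hs).1
  have hfib : ∀ T ∈ pats Ft S A, ((X.filter fun U => tr U = T).card : ℝ) =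
      2 ^ W.card * ((2 : ℝ) ^ (fin Ft S (cfgI T)).card)⁻¹ := by
    intro T hT
    unfold pats at hT
    rw [mem_filter, mem_powerset] at hT
    obtain ⟨hTF, hTA, hTS⟩ := hT
    set ST := fin Ft S (cfgI T) with hST
    have memST : ∀ s, s ∈ ST ↔ s ∈ S (cfgI T) := fun s => mem_fin hF
    have hinj : Set.InjOn p (S (cfgI T)) := hp _ hTA
    have hsub : ST.image p ⊆ W := by
      intro f hf
      obtain ⟨s, hs, rfl⟩ := mem_image.1 hf
      exact hW s (hF _ ((memST s).1 hs))
    -- the fibre
    have hfibre : X.filter (fun U => tr U = T) =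
        (W \ ST.image p).powerset.image (fun V => V ∪ T.image p) := by
      ext U
      rw [mem_filter, mem_image]
      constructor
      · rintro ⟨hU, rfl⟩
        rw [hX, mem_filter, mem_powerset] at hU
        have hSS : S (cfgI (tr U)) = S (fun s => cfg U (p s)) := hS _ _ (agree U)
        refine ⟨U \ ST.image p, ?_, ?_⟩
        · rw [mem_powerset]
          exact sdiff_subset_sdiff hU.1 (le_refl _)
        · ext f
          rw [mem_union, mem_sdiff]
          constructor
          · rintro (h | h)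
            · exact h.1
            · obtain ⟨s, hs, rfl⟩ := mem_image.1 h
              exact ((memtr U s).1 hs).2
          · intro hf
            by_cases h : f ∈ ST.image p
            · right
              obtain ⟨s, hs, rfl⟩ := mem_image.1 h
              rw [memST, hSS] at hs
              exact mem_image.2 ⟨s, (memtr U s).2 ⟨hs, hf⟩, rfl⟩
            · exact Or.inl ⟨hf, h⟩
      · rintro ⟨V, hV, rfl⟩
        rw [mem_powerset] at hV
        have hVW : V ∪ T.image p ⊆ W := by
          refine union_subset (hV.trans sdiff_subset) ?_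
          refine (image_subset_image ?_).trans hsub
          intro s hs
          exact (memST s).2 (hTS s hs)
        have hag : ∀ s ∈ S (cfgI T), cfgI T s = cfg (V ∪ T.image p) (p s) := by
          intro s hs
          rw [Bool.eq_iff_iff, cfg_eq_true, cfgI_eq_true, mem_union]
          constructor
          · intro h
            exact Or.inr (mem_image_of_mem p h)
          · rintro (h | h)
            · exact absurd (mem_image_of_mem p ((memST s).2 hs)) (mem_sdiff.1 (hV h)).2
            · obtain ⟨s', hs', e⟩ := mem_image.1 h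
              rw [← hinj (hTS s' hs') hs e]
              exact hs'
        have hSS : S (fun s => cfg (V ∪ T.image p) (p s)) = S (cfgI T) := hS _ _ hag
        refine ⟨?_, ?_⟩
        · rw [hX, mem_filter, mem_powerset]
          exact ⟨hVW, (hA _ _ hag).1 hTA⟩
        · ext s
          rw [memtr, hSS]
          constructor
          · rintro ⟨h1, h2⟩
            have h3 := hag s h1
            rw [Bool.eq_iff_iff, cfg_eq_true, cfgI_eq_true] at h3
            exact h3.2 h2
          · intro h
            exact ⟨hTS s h, mem_union_right _ (mem_image_of_mem p h)⟩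
    have hTp : Disjoint (W \ ST.image p) (T.image p) := by
      rw [disjoint_left]
      intro f hf hf'
      obtain ⟨s, hs, rfl⟩ := mem_image.1 hf'
      exact (mem_sdiff.1 hf).2 (mem_image_of_mem p ((memST s).2 (hTS s hs)))
    rw [hfibre, card_image_of_injOn, card_powerset, card_sdiff_of_subset hsub,
      card_image_of_injOn]
    · have hle : ST.card ≤ W.card := by
        rw [← card_image_of_injOn (f := p) (s := ST)]
        · exact card_le_card hsub
        · intro s hs s' hs' e
          exact hinj ((memST s).1 (mem_coe.1 hs)) ((memST s').1 (mem_coe.1 hs')) e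
      push_cast
      rw [pow_sub₀ _ (by norm_num) hle]
    · intro s hs s' hs' e
      exact hinj ((memST s).1 (mem_coe.1 hs)) ((memST s').1 (mem_coe.1 hs')) e
    · intro V hV V' hV' e
      rw [mem_coe, mem_powerset] at hV hV'
      simp only at e
      ext f
      have h1 : f ∈ V ∪ T.image p ↔ f ∈ V' ∪ T.image p := by rw [e]
      rw [mem_union, mem_union] at h1
      constructor
      · intro hf
        rcases h1.1 (Or.inl hf) with h | h
        · exact h
        · exact absurd h (disjoint_left.1 hTp (hV hf))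
      · intro hf
        rcases h1.2 (Or.inl hf) with h | h
        · exact h
        · exact absurd h (disjoint_left.1 hTp (hV' hf))
  have hsum : (X.card : ℝ) = ∑ T ∈ pats Ft S A, ((X.filter fun U => tr U = T).card : ℝ) := by
    rw [card_eq_sum_card_fiberwise hmap]
    push_cast
    rfl
  unfold pr
  rw [← hX]
  rw [div_eq_iff (by positivity), hsum, sum_mul]
  refine sum_congr rfl fun T hT => ?_
  rw [hfib T hT, mul_comm]

/-- Transport of stopping sets: the probability does not depend on the embedding. -/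
theorem pr_transport {Ft : Finset ι} {S : (ι → Bool) → Set ι} (hF : ∀ ζ, S ζ ⊆ Ft)
    (hS : Stopping S) {A : Set (ι → Bool)} (hA : DetBy S A) {p p' : ι → ℤ × ℤ}
    (hp : ∀ ζ ∈ A, Set.InjOn p (S ζ)) (hp' : ∀ ζ ∈ A, Set.InjOn p' (S ζ))
    {W W' : Finset (ℤ × ℤ)} (hW : ∀ s ∈ Ft, p s ∈ W) (hW' : ∀ s ∈ Ft, p' s ∈ W') :
    pr W {ω | (fun s => ω (p s)) ∈ A} = pr W' {ω | (fun s => ω (p' s)) ∈ A} := by
  rw [pr_eq_pats hF hS hA hp hW, pr_eq_pats hF hS hA hp' hW']

end Pool.Agent.Perc3
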