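import Pool.Agent.Lib.MP_6bd702_percw.CoreA
import Pool.Agent.Lib.MP_6bd702_perc3.Transp

/-!
# The common cover of the square grid and of the grid with a dislocation, comparison of the laws

Lifted faces are pairs of a face of `ℤ × ℤ` and an index in `ℤ`, lifted unit edges are pairs of a
unit edge and an index. The index changes by one at the cut, the horizontal unit edges
`(x, 0, false)` with `x ≤ -2`: the lifted cut edge of index `n` is a side of the upper face with
index `n` and of the lower face with index `n + 1`. The square grid is obtained from the cover by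
the projection `pj 0`, the grid with a dislocation of Burgers vector `c` by `pj c`, where
`pj c (f, n) = f + (c * n, 0)`.
-/

set_option autoImplicit false

namespace Pool.Agent.Perc3

open Finset Pool.Agent.Perc

/-- Lifted faces. -/
abbrev LF := (ℤ × ℤ) × ℤ

/-- Lifted unit edges. -/
abbrev LE := UE × ℤ

/-- The unit edge `a` is on the cut. -/
def IsCut (a : UE) : Prop := a.2.2 = false ∧ a.2.1 = 0 ∧ a.1 ≤ -2

instance : DecidablePred IsCut := fun a => by unfold IsCut; infer_instance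

/-- The lift of the side `a` of the lifted face `s`. -/
def lft (s : LF) (a : UE) : LE := (a, if IsCut a ∧ s.1.2 < 0 then s.2 - 1 else s.2)

/-- The lifted sides `b` and `b'` of the lifted face `s` are matched. -/
def MtL (ζ : LF → Bool) (s : LF) (b b' : LE) : Prop :=
  ∃ a a', Mt (fun _ => ζ s) s.1 a a' ∧ b = lft s a ∧ b' = lft s a'

/-- The union of the components of the lifted unit edges in `E` under the matching in the lifted
faces of `Ft`. -/
def ML (ζ : LF → Bool) (Ft : Set LF) (E : Set LE) : Set LE :=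
  {b | ∃ e ∈ E, Relation.ReflTransGen (fun b b' => ∃ s ∈ Ft, MtL ζ s b b') e b}

/-- The visited lifted faces. -/
def SL (ζ : LF → Bool) (Ft : Set LF) (E : Set LE) : Set LF :=
  {s | s ∈ Ft ∧ ∃ a, IsSide s.1 a ∧ lft s a ∈ ML ζ Ft E}

/-- The projection to the grid with Burgers vector `c`. -/
def pj (c : ℤ) (s : LF) : ℤ × ℤ := (s.1.1 + c * s.2, s.1.2)

/-- Two visited lifted faces in the same half plane with different indices have a distance of at
least `k` times the difference of the indices. -/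
def Thick (k : ℤ) (S : Set LF) : Prop :=
  ∀ s ∈ S, ∀ s' ∈ S, (0 ≤ s.1.2 ↔ 0 ≤ s'.1.2) →
    k * |s.2 - s'.2| ≤ max |s.1.1 - s'.1.1| |s.1.2 - s'.1.2|

variable {ζ ζ' : LF → Bool} {Ft : Set LF} {E : Set LE} {s : LF} {b b' : LE}

theorem MtL.symm (h : MtL ζ s b b') : MtL ζ s b' b := by
  obtain ⟨a, a', hm, h1, h2⟩ := h
  exact ⟨a', a, hm.symm, h2, h1⟩

theorem MtL.congr (he : ζ s = ζ' s) (h : MtL ζ s b b') : MtL ζ' s b b' := by
  unfold MtL at *
  rwa [← he]

theorem mem_ML_of_mem (h : b ∈ E) : b ∈ ML ζ Ft E := ⟨b, h, Relation.ReflTransGen.refl⟩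

theorem ML_step (hs : s ∈ Ft) (h : MtL ζ s b b') (hb : b ∈ ML ζ Ft E) : b' ∈ ML ζ Ft E := by
  obtain ⟨e, he, hr⟩ := hb
  exact ⟨e, he, hr.tail ⟨s, hs, h⟩⟩

theorem ML_iff (hs : s ∈ Ft) (h : MtL ζ s b b') : b ∈ ML ζ Ft E ↔ b' ∈ ML ζ Ft E :=
  ⟨ML_step hs h, ML_step hs h.symm⟩

/-- Induction principle. -/
theorem ML_induction {P : LE → Prop} (h0 : ∀ b ∈ E, P b)
    (h1 : ∀ b b' s, s ∈ Ft → MtL ζ s b b' → b ∈ ML ζ Ft E → P b → P b') :
    ∀ b ∈ ML ζ Ft E, P b := by
  rintro b ⟨e, he, hr⟩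
  have key : b ∈ ML ζ Ft E ∧ P b := by
    induction hr with
    | refl => exact ⟨mem_ML_of_mem he, h0 _ he⟩
    | tail _ hs ih =>
      obtain ⟨s, hs, hm⟩ := hs
      exact ⟨ML_step hs hm ih.1, h1 _ _ s hs hm ih.1 ih.2⟩
  exact key.2

theorem ML_mono {Ft' : Set LF} {E' : Set LE} (hF : Ft ⊆ Ft') (hE : E ⊆ E') :
    ML ζ Ft E ⊆ ML ζ Ft' E' := by
  intro b hb
  exact ML_induction (P := fun b => b ∈ ML ζ Ft' E') (fun b hb => mem_ML_of_mem (hE hb))
    (fun b b' s hs hm _ ih => ML_step (hF hs) hm ih) b hb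

theorem SL_sub : SL ζ Ft E ⊆ Ft := fun _ h => h.1

/-- A face with a matched side in the component is visited. -/
theorem SL_of_MtL (hs : s ∈ Ft) (h : MtL ζ s b b') (hb : b ∈ ML ζ Ft E) : s ∈ SL ζ Ft E := by
  obtain ⟨a, a', hm, h1, -⟩ := h
  exact ⟨hs, a, hm.left, h1 ▸ hb⟩

theorem ML_eq (h : ∀ s ∈ SL ζ Ft E, ζ s = ζ' s) : ML ζ' Ft E = ML ζ Ft E := by
  apply Set.Subset.antisymm
  · intro b hb
    refine ML_induction (P := fun b => b ∈ ML ζ Ft E) (fun b hb => mem_ML_of_mem hb) ?_ b hb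
    intro b b' s hs hm _ ih
    have hsS : s ∈ SL ζ Ft E := by
      obtain ⟨a, a', hm', h1, -⟩ := hm
      exact ⟨hs, a, hm'.left, h1 ▸ ih⟩
    exact ML_step hs (hm.congr (h s hsS).symm) ih
  · intro b hb
    refine ML_induction (P := fun b => b ∈ ML ζ' Ft E) (fun b hb => mem_ML_of_mem hb) ?_ b hb
    intro b b' s hs hm hbM ih
    exact ML_step hs (hm.congr (h s (SL_of_MtL hs hm hbM))) ih

/-- The visited faces form a stopping set. -/
theorem stopping_SL (Ft : Set LF) (E : Set LE) : Stopping fun ζ => SL ζ Ft E := by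
  intro ζ ζ' h
  simp only [SL]
  rw [ML_eq h]

theorem Thick.mono {k : ℤ} {S S' : Set LF} (h : Thick k S) (hS : S' ⊆ S) : Thick k S' :=
  fun s hs s' hs' => h s (hS hs) s' (hS hs')

theorem Thick.mono_left {k k' : ℤ} {S : Set LF} (h : Thick k S) (hk : k' ≤ k) : Thick k' S :=
  fun s hs s' hs' hh => (mul_le_mul_of_nonneg_right hk (abs_nonneg _)).trans (h s hs s' hs' hh)

/-- The projection is injective on thick sets. -/
theorem Thick.injOn {k c : ℤ} {S : Set LF} (h : Thick k S) (hk : |c| < k) :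
    Set.InjOn (pj c) S := by
  intro s hs s' hs' e
  obtain ⟨⟨x, y⟩, n⟩ := s
  obtain ⟨⟨x', y'⟩, n'⟩ := s'
  unfold pj at e
  simp only [Prod.mk.injEq] at e
  obtain ⟨e1, rfl⟩ := e
  have h1 := h _ hs _ hs' Iff.rfl
  simp only [sub_self, abs_zero] at h1
  have h2 : x - x' = -(c * (n - n')) := by linarith
  rw [h2, abs_neg, abs_mul, max_eq_left (by positivity)] at h1
  have h3 : n = n' := by
    by_contra hne
    have h4 : 0 < |n - n'| := abs_pos.2 (sub_ne_zero.2 hne)
    exact absurd (le_of_mul_le_mul_right h1 h4) (not_le.2 hk)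
  subst h3
  have h5 : x = x' := by linarith
  rw [h5]

/-- Comparison of the laws: an event which is determined by the lifted components and which implies
that the set of the visited lifted faces is thick has the same probability in all grids. -/
theorem compare {Ft : Finset LF} {E : Set LE} {A : Set (LF → Bool)}
    (hA : DetBy (fun ζ => SL ζ Ft E) A) {k c c' : ℤ} (hc : |c| < k) (hc' : |c'| < k)
    (hk : ∀ ζ ∈ A, Thick k (SL ζ Ft E)) {W W' : Finset (ℤ × ℤ)} (hW : ∀ s ∈ Ft, pj c s ∈ W)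
    (hW' : ∀ s ∈ Ft, pj c' s ∈ W') :
    pr W {ω | (fun s => ω (pj c s)) ∈ A} = pr W' {ω | (fun s => ω (pj c' s)) ∈ A} :=
  pr_transport (fun _ => SL_sub) (stopping_SL (Ft : Set LF) E) hA
    (fun ζ hζ => (hk ζ hζ).injOn hc) (fun ζ hζ => (hk ζ hζ).injOn hc') hW hW'

end Pool.Agent.Perc3
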