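import Pool.Agent.Lib.MP_6bd702_perc3.Cyl3B

/-!
# The gluing of the three legs on the cylinder
-/

set_option autoImplicit false

namespace Pool.Agent.Perc.Q

open Finset Pool.Agent.Perc

namespace Cyl3

theorem good {F W : Finset (ℤ × ℤ)} {A : Set Cfg} {D₀ D : ℤ × ℤ → Bool} {g : ℤ × ℤ → ℤ × ℤ}
    {c : ℝ} (hA : DepOn F A) (hD : IncD D₀ A) (hg : Set.InjOn g F) (hm : ∀ f ∈ F, g f ∈ W)
    (hDD : ∀ f ∈ F, D (g f) = D₀ f) (hc : c ≤ pr F A) :
    DepOn W {ξ : Cfg | (fun f => ξ (g f)) ∈ A} ∧ IncD D {ξ : Cfg | (fun f => ξ (g f)) ∈ A} ∧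
      c ≤ pr W {ξ : Cfg | (fun f => ξ (g f)) ∈ A} := by
  refine ⟨depOn_comp g hA fun f hf => Finset.mem_coe.2 (hm f (Finset.mem_coe.1 hf)),
    incD_comp g hA hD fun f hf => hDD f (Finset.mem_coe.1 hf), ?_⟩
  rw [pr_comp hg hm hA]
  exact hc

theorem incD_tub {w c : ℤ} {G : Finset (ℤ × ℤ)} (hw : 2 ≤ w) (hG : ∀ g ∈ G, CellOk g) :
    IncD (colD c) (Tub w c G) := by
  intro ω ω' h hω g hg k hk
  exact incD_tub_aux hw hG hg hk ω ω' h (hω g hg k hk)

/-- The probability of the event of the fresh configuration. -/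
theorem pr_cyl (J K : ℕ) (hJ : 20 ≤ J) : ∃ c : ℝ, 0 < c ∧ ∀ w : ℕ, 2 ≤ w →
    ∀ G : Fin 3 → Finset (ℤ × ℤ), GOk J G → (∀ i, (G i).card ≤ K) →
      c ≤ pr (FW ((J + 3) * w) ((J + 3) * w)) (CylEv (J + 3) w J G) := by
  classical
  obtain ⟨c₀, hc0, hc1, htub⟩ := pr_tub
  obtain ⟨c', hc', hrsw⟩ := PercT.rsw_holds 7
  set c₁ : ℝ := min (c₀ ^ K) c' with hc₁
  have hc₁0 : 0 < c₁ := lt_min (by positivity) hc'
  refine ⟨c₁ ^ (4 + 2 * (2 * (J + 3))), by positivity, fun w hw G hG hK => ?_⟩
  set L : ℕ := J + 3 with hL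
  set m : ℕ := L * w with hm
  have hwz : (2 : ℤ) ≤ w := by exact_mod_cast hw
  have hm0 : 0 < m := Nat.mul_pos (by omega) (by omega)
  have hJz : (20 : ℤ) ≤ (J : ℤ) := by exact_mod_cast hJ
  have hJL : (J : ℤ) + 2 ≤ L := by push_cast [hL]; omega
  have hmz : (m : ℤ) = J * w + 3 * w := by rw [hm, hL]; push_cast; ring
  have hJw : 20 * (w : ℤ) ≤ J * w := mul_le_mul_of_nonneg_right hJz (by omega)
  have e2 : (-(J : ℤ) - 1) * (w : ℤ) = -(J * w) - w := by ring
  have hcm : ((2 * (L * w) : ℕ) : ℤ) = 2 * m := by rw [hm]; push_cast; ring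
  have hcm' : ((2 * (L * w) + 1 : ℕ) : ℤ) = 2 * m + 1 := by rw [hm]; push_cast; ring
  -- the list of events
  set l : List (Set Cfg) := [{ξ | perW m ξ ∈ Tub w ((0 : ℕ) : ℤ) (G 0)},
    {ξ | perW m ξ ∈ Tub w ((1 : ℕ) : ℤ) (G 1)}, {ξ | perW m ξ ∈ Tub w ((2 : ℕ) : ℤ) (G 2)},
    EWev L w J] ++ ((List.range (2 * L)).map (fun i => RGev L w J i true) ++
      (List.range (2 * L)).map (fun i => RGev L w J i false)) with hl
  have hlen : l.length = 4 + 2 * (2 * L) := by
    rw [hl]
    simp only [List.length_append, List.length_cons, List.length_nil, List.length_map,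
      List.length_range]
    omega
  have htubs : ∀ i : Fin 3, DepOn (FW m m) {ξ | perW m ξ ∈ Tub w ((i : ℕ) : ℤ) (G i)} ∧
      IncD (ordD m w G) {ξ | perW m ξ ∈ Tub w ((i : ℕ) : ℤ) (G i)} ∧
      c₁ ≤ pr (FW m m) {ξ | perW m ξ ∈ Tub w ((i : ℕ) : ℤ) (G i)} := by
    intro i
    have e : ({ξ | perW m ξ ∈ Tub w ((i : ℕ) : ℤ) (G i)} : Set Cfg) =
        {ξ | (fun f => ξ (TwE.red m f)) ∈ Tub w ((i : ℕ) : ℤ) (G i)} := by
      simp only [TwE.perW_eq]
    rw [e]
    have hcell : ∀ g ∈ G i, CellOk g := hG.2.1 i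
    refine good (F := cellsF w (G i)) (D₀ := colD ((i : ℕ) : ℤ)) (depOn_tub hcell)
      (incD_tub hwz hcell) ?_ ?_ ?_ ?_
    · intro f hf f' hf' h
      exact TwE.red_injOn hm0 (Finset.mem_coe.2 (mem_window hG hw hJz hJL (Finset.mem_coe.1 hf)))
        (Finset.mem_coe.2 (mem_window hG hw hJz hJL (Finset.mem_coe.1 hf'))) h
    · intro f hf
      have h1 := cells_window hG hw hJz hJL hf
      rw [show ((J : ℤ) + 1) * (w : ℤ) = J * w + w by ring] at h1
      refine TwE.red_mem hm0 ?_
      constructor <;> omega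
    · intro f hf
      exact ordD_cells hG hw hJz hJL i hf
    · refine le_trans ?_ (htub w _ hwz (G i) hcell)
      refine (min_le_left _ _).trans ?_
      exact pow_le_pow_of_le_one hc0.le hc1 (hK i)
  have hgood : ∀ A ∈ l, DepOn (FW m m) A ∧ IncD (ordD m w G) A ∧ c₁ ≤ pr (FW m m) A := by
    intro A hA
    rw [hl, List.mem_append, List.mem_append] at hA
    rcases hA with hA | hA | hA
    · simp only [List.mem_cons, List.not_mem_nil, or_false] at hA
      rcases hA with rfl | rfl | rfl | rfl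
      · exact htubs 0
      · exact htubs 1
      · exact htubs 2
      · refine good (F := RF (J * w) (2 * (L * w) + 1 - J * w) 0 w) (D₀ := parD 0)
          (g := fun f : ℤ × ℤ => (f.1 % ((2 * (L * w) + 1 : ℕ) : ℤ), f.2)) (depOn_LR _ _ _ _ _)
          (incD_LR _ _ _ _ _) ?_ ?_ ?_ ?_
        · intro f hf f' hf' h
          have hf1 := mem_RFi.1 (Finset.mem_coe.1 hf)
          have hf1' := mem_RFi.1 (Finset.mem_coe.1 hf')
          simp only [Prod.mk.injEq] at h
          rw [hcm'] at h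
          have h3 : (2 * ((L : ℤ) * w) + 1) = 2 * m + 1 := by rw [hm]; push_cast; ring
          refine Prod.ext (emod_inj (a := 0) (by omega) h.1 (by omega) (by omega) (by omega)
            (by omega)) h.2
        · intro f hf
          have hf1 := mem_RFi.1 hf
          rw [TwE.mem_FW]
          simp only
          rw [hcm']
          have e1 := Int.emod_nonneg f.1 (b := 2 * (m : ℤ) + 1) (by omega)
          have e2 := Int.emod_lt_of_pos f.1 (b := 2 * (m : ℤ) + 1) (by omega)
          left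
          omega
        · intro f hf
          exact ordD_ew hG hw hJz hJL hf
        · refine (min_le_right _ _).trans ((hrsw 0 _ _ _ _ ?_ (by omega)).1 ?_)
          · have h3 : (2 * ((L : ℤ) * w) + 1) = 2 * m + 1 := by rw [hm]; push_cast; ring
            omega
          · have h3 : (2 * ((L : ℤ) * w) + 1) = 2 * m + 1 := by rw [hm]; push_cast; ring
            push_cast
            omega
    · rw [List.mem_map] at hA
      obtain ⟨i, hi, rfl⟩ := hA
      rw [List.mem_range] at hi
      have e : RGev L w J i true = {ξ | perC (2 * (L * w)) ξ ∈ LR 1 (i * w) (i * w + 2 * w)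
          ((-(J : ℤ) - 1) * w) ((-(J : ℤ) - 1) * w + w)} := by
        unfold RGev
        rw [if_pos rfl]
      rw [e]
      refine good (F := RF (i * w) (i * w + 2 * w) ((-(J : ℤ) - 1) * w) ((-(J : ℤ) - 1) * w + w))
          (D₀ := parD 1)
          (g := fun f : ℤ × ℤ => (f.1 % ((2 * (L * w) : ℕ) : ℤ), f.2)) (depOn_LR _ _ _ _ _)
          (incD_LR _ _ _ _ _) ?_ ?_ ?_ ?_
      · intro f hf f' hf' h
        have hf1 := mem_RFi.1 (Finset.mem_coe.1 hf)
        have hf1' := mem_RFi.1 (Finset.mem_coe.1 hf')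
        simp only [Prod.mk.injEq] at h
        rw [hcm] at h
        refine Prod.ext (emod_inj (a := i * w) (by omega) h.1 (by omega) (by omega) (by omega)
          (by omega)) h.2
      · intro f hf
        have hf1 := mem_RFi.1 hf
        rw [TwE.mem_FW]
        simp only
        rw [hcm]
        have e1 := Int.emod_nonneg f.1 (b := 2 * (m : ℤ)) (by omega)
        have e2 := Int.emod_lt_of_pos f.1 (b := 2 * (m : ℤ)) (by omega)
        right
        omega
      · intro f hf
        have hf1 := mem_RFi.1 hf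
        exact ordD_ring hG hw hJz hJL ⟨hf1.2.2.1, hf1.2.2.2⟩
      · refine (min_le_right _ _).trans ((hrsw 1 _ _ _ _ (by omega) (by omega)).1 ?_)
        push_cast
        omega
    · rw [List.mem_map] at hA
      obtain ⟨i, hi, rfl⟩ := hA
      rw [List.mem_range] at hi
      have e : RGev L w J i false = {ξ | perC (2 * (L * w)) ξ ∈ BT 1 (i * w) (i * w + w)
          ((-(J : ℤ) - 1) * w) ((-(J : ℤ) - 1) * w + w)} := by
        unfold RGev
        rw [if_neg (by decide)]
      rw [e]
      refine good (F := RF (i * w) (i * w + w) ((-(J : ℤ) - 1) * w) ((-(J : ℤ) - 1) * w + w))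
          (D₀ := parD 1)
          (g := fun f : ℤ × ℤ => (f.1 % ((2 * (L * w) : ℕ) : ℤ), f.2)) (depOn_BT _ _ _ _ _)
          (incD_BT' _ _ _ _ _) ?_ ?_ ?_ ?_
      · intro f hf f' hf' h
        have hf1 := mem_RFi.1 (Finset.mem_coe.1 hf)
        have hf1' := mem_RFi.1 (Finset.mem_coe.1 hf')
        simp only [Prod.mk.injEq] at h
        rw [hcm] at h
        refine Prod.ext (emod_inj (a := i * w) (by omega) h.1 (by omega) (by omega) (by omega)
          (by omega)) h.2
      · intro f hf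
        have hf1 := mem_RFi.1 hf
        rw [TwE.mem_FW]
        simp only
        rw [hcm]
        have e1 := Int.emod_nonneg f.1 (b := 2 * (m : ℤ)) (by omega)
        have e2 := Int.emod_lt_of_pos f.1 (b := 2 * (m : ℤ)) (by omega)
        right
        omega
      · intro f hf
        have hf1 := mem_RFi.1 hf
        exact ordD_ring hG hw hJz hJL ⟨hf1.2.2.1, hf1.2.2.2⟩
      · refine (min_le_right _ _).trans ((hrsw 1 _ _ _ _ (by omega) (by omega)).2 ?_)
        push_cast
        omega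
  have hfin := PercT.TubeP.harris_list hc₁0.le l hgood
  rw [hlen] at hfin
  refine hfin.trans (pr_mono _ ?_)
  intro ξ hξ
  have hmem : ∀ A ∈ l, ξ ∈ A := hξ
  refine ⟨fun i => ?_, ?_, fun i hi e => ?_⟩
  · fin_cases i
    · exact hmem _ (List.mem_append_left _ List.mem_cons_self)
    · exact hmem _ (List.mem_append_left _ (List.mem_cons_of_mem _ List.mem_cons_self))
    · exact hmem _ (List.mem_append_left _ (List.mem_cons_of_mem _
        (List.mem_cons_of_mem _ List.mem_cons_self)))
  · exact hmem _ (List.mem_append_left _ (List.mem_cons_of_mem _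
      (List.mem_cons_of_mem _ (List.mem_cons_of_mem _ List.mem_cons_self))))
  · rw [Finset.mem_range] at hi
    cases e
    · exact hmem _ (List.mem_append_right _ (List.mem_append_right _
        (List.mem_map.2 ⟨i, List.mem_range.2 hi, rfl⟩)))
    · exact hmem _ (List.mem_append_right _ (List.mem_append_left _
        (List.mem_map.2 ⟨i, List.mem_range.2 hi, rfl⟩)))

end Cyl3

end Pool.Agent.Perc.Q
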