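import Pool.Agent.Lib.MP_6bd702_perc3.Glue3Defs
import Pool.Agent.Lib.MP_6bd702_percu2.Cyl

/-!
# The ring and the tube on the twisted cylinder: deterministic part
-/

set_option autoImplicit false

namespace Pool.Agent.Perc.Q

open Finset Pool.Agent.Perc

namespace Cyl3

variable {η : Cfg} {w y₀ c : ℤ} {m : ℕ}

/-- The faces of a row. -/
def row (y₀ w : ℤ) : Set (ℤ × ℤ) := {f | y₀ ≤ f.2 ∧ f.2 < y₀ + w}

theorem rf_row (a b y₀ w : ℤ) : (RF a b y₀ (y₀ + w) : Set (ℤ × ℤ)) ⊆ row y₀ w := by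
  intro f hf
  have := mem_RFi.1 (Finset.mem_coe.1 hf)
  exact ⟨this.2.2.1, this.2.2.2⟩

/-- A vertical crossing is connected to the domino around it. -/
theorem dom_link (hw : 0 < w) {i a b : ℤ} (ha : i * w ≤ a) (hab : a < b) (hb : b ≤ i * w + 2 * w)
    {u v u' v' : ℤ × ℤ}
    (hu : u.1 = i * w ∧ y₀ ≤ u.2 ∧ u.2 ≤ y₀ + w) (hv : v.1 = i * w + 2 * w)
    (hu' : u'.2 = y₀ ∧ a ≤ u'.1 ∧ u'.1 ≤ b) (hv' : v'.2 = y₀ + w)
    (hp : (u.1 + u.2 - c) % 2 = 0) (hp' : (u'.1 + u'.2 - c) % 2 = 0)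
    (h : Conn η (RF (i * w) (i * w + 2 * w) y₀ (y₀ + w)) u v)
    (h' : Conn η (RF a b y₀ (y₀ + w)) u' v') : Conn η (row y₀ w) u u' := by
  obtain ⟨z, -, -, -, -, h1, h2⟩ := PercT.cross_meet ha hab hb le_rfl (by omega) le_rfl hu hv hu'
    hv' (by omega) h h'
  exact (h1.mono (rf_row _ _ _ _)).trans (Conn.symm (h2.mono (rf_row _ _ _ _)))

/-- The ring. -/
theorem ring_link (hw : 0 < w) (hLR : ∀ i : ℤ, η ∈ LR c (i * w) (i * w + 2 * w) y₀ (y₀ + w))
    (hBT : ∀ i : ℤ, η ∈ BT c (i * w) (i * w + w) y₀ (y₀ + w)) {i j a b a' b' : ℤ}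
    {u v u' v' : ℤ × ℤ} (ha : i * w ≤ a) (hab : a < b) (hb : b ≤ i * w + 2 * w)
    (ha' : j * w ≤ a') (hab' : a' < b') (hb' : b' ≤ j * w + 2 * w)
    (hu : u.2 = y₀ ∧ a ≤ u.1 ∧ u.1 ≤ b) (hv : v.2 = y₀ + w)
    (hu' : u'.2 = y₀ ∧ a' ≤ u'.1 ∧ u'.1 ≤ b') (hv' : v'.2 = y₀ + w)
    (hp : (u.1 + u.2 - c) % 2 = 0) (hp' : (u'.1 + u'.2 - c) % 2 = 0)
    (h : Conn η (RF a b y₀ (y₀ + w)) u v) (h' : Conn η (RF a' b' y₀ (y₀ + w)) u' v') :
    Conn η (row y₀ w) u u' := by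
  choose p q p1 p2 p3 q1 p4 pq using hLR
  choose r s r1 r2 r3 s1 r4 rs using hBT
  have key : ∀ i, Conn η (row y₀ w) (p i) (p (i + 1)) := by
    intro i
    have e1 := dom_link (i := i) (a := (i + 1) * w) (b := (i + 1) * w + w) hw
      (by rw [add_mul]; omega) (by omega) (by rw [add_mul]; omega) ⟨p1 i, p2 i, p3 i⟩ (q1 i)
      ⟨r1 (i + 1), r2 (i + 1), r3 (i + 1)⟩ (s1 (i + 1)) (p4 i) (r4 (i + 1)) (pq i) (rs (i + 1))
    have e2 := dom_link (i := i + 1) (a := (i + 1) * w) (b := (i + 1) * w + w) hw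
      le_rfl (by omega) (by omega) ⟨p1 (i + 1), p2 (i + 1), p3 (i + 1)⟩ (q1 (i + 1))
      ⟨r1 (i + 1), r2 (i + 1), r3 (i + 1)⟩ (s1 (i + 1)) (p4 (i + 1)) (r4 (i + 1)) (pq (i + 1))
      (rs (i + 1))
    exact e1.trans (Conn.symm e2)
  have key2 : ∀ (n : ℕ) (i : ℤ), Conn η (row y₀ w) (p i) (p (i + n)) := by
    intro n
    induction n with
    | zero =>
      intro i
      rw [Nat.cast_zero, add_zero]
      exact Relation.ReflTransGen.refl
    | succ n ih =>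
      intro i
      have := key (i + n)
      rw [add_assoc] at this
      exact (ih i).trans (by exact_mod_cast this)
  have key3 : ∀ i j, Conn η (row y₀ w) (p i) (p j) := by
    intro i j
    rcases le_total i j with hij | hij
    · have := key2 (j - i).toNat i
      rwa [Int.toNat_of_nonneg (by omega), add_sub_cancel] at this
    · have := key2 (i - j).toNat j
      rw [Int.toNat_of_nonneg (by omega), add_sub_cancel] at this
      exact Conn.symm this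
  have e1 := dom_link hw ha hab hb ⟨p1 i, p2 i, p3 i⟩ (q1 i) hu hv (p4 i) hp (pq i) h
  have e2 := dom_link hw ha' hab' hb' ⟨p1 j, p2 j, p3 j⟩ (q1 j) hu' hv' (p4 j) hp' (pq j) h'
  exact (Conn.symm e1).trans ((key3 i j).trans e2)

theorem conn_cfg {ω ω' : Cfg} {F : Set (ℤ × ℤ)} {u v : ℤ × ℤ} (h : ∀ f ∈ F, ω f = ω' f)
    (hc : Conn ω F u v) : Conn ω' F u v := by
  induction hc with
  | refl => exact Relation.ReflTransGen.refl
  | tail _ hb ih =>
    obtain ⟨x, y, hxy, hh⟩ := hb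
    exact Relation.ReflTransGen.tail ih ⟨x, y, hxy, by rw [← h _ hxy]; exact hh⟩

theorem perW_up {ω : Cfg} {f : ℤ × ℤ} (h : 0 ≤ f.2) : perW m ω f = perC (2 * m + 1) ω f := by
  unfold perW perC
  rw [if_pos h]
  push_cast
  rfl

theorem perW_low {ω : Cfg} {f : ℤ × ℤ} (h : f.2 < 0) : perW m ω f = perC (2 * m) ω f := by
  unfold perW perC
  rw [if_neg (by omega)]
  push_cast
  rfl

theorem shift_perC (L : ℕ) (q : ℤ) (ξ : Cfg) : shiftC (L * q) 0 (perC L ξ) = perC L ξ := by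
  funext f
  simp only [shiftC, perC]
  rw [add_zero, Int.add_mul_emod_self_left]

/-- The crossings of the ring (`2 L` dominoes and cells). -/
def RGev (L : ℕ) (w : ℕ) (J : ℤ) (i : ℕ) (e : Bool) : Set Cfg :=
  if e then {ξ | perC (2 * (L * w)) ξ ∈ LR 1 (i * w) (i * w + 2 * w) ((-J - 1) * w)
    ((-J - 1) * w + w)}
  else {ξ | perC (2 * (L * w)) ξ ∈ BT 1 (i * w) (i * w + w) ((-J - 1) * w) ((-J - 1) * w + w)}

/-- The tube between the right and the left port. -/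
def EWev (L : ℕ) (w : ℕ) (J : ℤ) : Set Cfg :=
  {ξ | perC (2 * (L * w) + 1) ξ ∈ LR 0 (J * w) (2 * (L * w) + 1 - J * w) 0 w}

/-- The event of the fresh configuration. -/
def CylEv (L : ℕ) (w : ℕ) (J : ℤ) (G : Fin 3 → Finset (ℤ × ℤ)) : Set Cfg :=
  {ξ | (∀ i : Fin 3, perW (L * w) ξ ∈ Tub w ((i : ℕ) : ℤ) (G i)) ∧ ξ ∈ EWev L w J ∧
    ∀ i ∈ range (2 * L), ∀ e, ξ ∈ RGev L w J i e}

theorem ring_all {L w : ℕ} {J : ℤ} {ξ : Cfg} (hL : 0 < L)
    (h : ∀ i ∈ range (2 * L), ∀ e, ξ ∈ RGev L w J i e) (i : ℤ) :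
    perC (2 * (L * w)) ξ ∈ LR 1 (i * w) (i * w + 2 * w) ((-J - 1) * w) ((-J - 1) * w + w) ∧
      perC (2 * (L * w)) ξ ∈ BT 1 (i * w) (i * w + w) ((-J - 1) * w) ((-J - 1) * w + w) := by
  have hL' : (0 : ℤ) < 2 * L := by omega
  have hi0 : 0 ≤ i % (2 * L) := Int.emod_nonneg _ (by omega)
  have hi1 : i % (2 * L) < 2 * L := Int.emod_lt_of_pos _ hL'
  obtain ⟨j, hj⟩ := Int.eq_ofNat_of_zero_le hi0
  have hjr : j ∈ range (2 * L) := by rw [Finset.mem_range]; omega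
  have h1 : perC (2 * (L * w)) ξ ∈ LR 1 (j * w) (j * w + 2 * w) ((-J - 1) * w)
      ((-J - 1) * w + w) := by
    have := h j hjr true
    unfold RGev at this
    rwa [if_pos rfl] at this
  have h2 : perC (2 * (L * w)) ξ ∈ BT 1 (j * w) (j * w + w) ((-J - 1) * w)
      ((-J - 1) * w + w) := by
    have := h j hjr false
    unfold RGev at this
    rwa [if_neg (by decide)] at this
  have hs := shift_perC (2 * (L * w)) (i / (2 * L)) ξ
  have hpar : ((2 * (L * w) : ℕ) : ℤ) * (i / (2 * L)) % 2 = 0 := by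
    push_cast
    rw [mul_assoc, Int.mul_emod_right]
  have e : (i : ℤ) * w = j * w + ((2 * (L * w) : ℕ) : ℤ) * (i / (2 * L)) := by
    have h3 := Int.emod_add_mul_ediv i (2 * L)
    rw [hj] at h3
    conv_lhs => rw [← h3]
    push_cast
    ring
  constructor
  · have h3 := PercT.TubeP.LR_transl hpar hs h1
    rw [e, show (j : ℤ) * w + ((2 * (L * w) : ℕ) : ℤ) * (i / (2 * L)) + 2 * w =
      j * w + 2 * w + ((2 * (L * w) : ℕ) : ℤ) * (i / (2 * L)) by ring]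
    exact h3
  · have h3 := PercT.TubeP.BT_transl hpar hs h2
    rw [e, show (j : ℤ) * w + ((2 * (L * w) : ℕ) : ℤ) * (i / (2 * L)) + w =
      j * w + w + ((2 * (L * w) : ℕ) : ℤ) * (i / (2 * L)) by ring]
    exact h3


/-- The tube connects the right port and the translate of the left port. -/
theorem EW_link {L w : ℕ} {J : ℤ} {ξ : Cfg} (hw : 0 < w) (hJ : 0 ≤ J) (hJL : J + 2 ≤ L)
    {G G' : Finset (ℤ × ℤ)} (h0 : perW (L * w) ξ ∈ Tub w 0 G) (hE : (J, (0 : ℤ)) ∈ G)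
    (h1 : perW (L * w) ξ ∈ Tub w 1 G') (hW : (-J - 1, (0 : ℤ)) ∈ G') (h2 : ξ ∈ EWev L w J) :
    Conn (perW (L * w) ξ) (RF (J * w) (2 * (L * w) + 1 - J * w) 0 w)
      (rep w 0 (perW (L * w) ξ) (J, 0))
      ((rep w 1 (perW (L * w) ξ) (-J - 1, 0)).1 + (2 * (L * w) + 1),
        (rep w 1 (perW (L * w) ξ) (-J - 1, 0)).2) := by
  have hwz : (0 : ℤ) < w := by exact_mod_cast hw
  have hJw : 0 ≤ J * w := mul_nonneg hJ hwz.le
  have hLw : J * w + 2 * w ≤ L * w := by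
    have := mul_le_mul_of_nonneg_right hJL hwz.le
    rw [add_mul] at this
    exact this
  have eN : (-J - 1) * (w : ℤ) = - (J * w) - w := by ring
  have eC : ((2 * (L * w) + 1 : ℕ) : ℤ) = 2 * (L * w) + 1 := by push_cast; ring
  set η := perW (L * w) ξ with hη
  -- the tube
  obtain ⟨a, b, a1, a2, a3, b1, a4, ab⟩ := h2
  have ab' : Conn η (RF (J * w) (2 * (L * w) + 1 - J * w) 0 w) a b := by
    refine conn_cfg (fun f hf => ?_) ab
    have := mem_RFi.1 (Finset.mem_coe.1 hf)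
    rw [hη, perW_up this.2.2.1]
  -- the right port
  obtain ⟨u, v, e1, u1, u2, u3, v1, u4, k1⟩ := rep_spec h0 hE
  obtain ⟨p, q, p1, p2, p3, q1, p4, k2⟩ := tub_BT h0 hE
  have hch : chS (J, (0 : ℤ)) = 0 := by unfold chS; rw [if_neg (by simp only; omega)]
  rw [hch, chF_zero] at e1
  rw [hch, chC_zero] at k1 k2
  unfold sqF at k1
  simp only [zero_mul, zero_add] at u1 u2 u3 v1 p1 p2 p3 q1 k1 k2
  obtain ⟨z1, -, -, -, -, c1, c2⟩ := PercT.cross_meet le_rfl (by omega) le_rfl le_rfl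
    hwz le_rfl ⟨u1, u2, u3⟩ v1 ⟨p1, p2, p3⟩ q1 (by omega) k1 k2
  obtain ⟨z2, -, -, -, -, d1, d2⟩ := PercT.cross_meet le_rfl (by omega) (by omega) le_rfl
    hwz le_rfl ⟨a1, a2, a3⟩ b1 ⟨p1, p2, p3⟩ q1 (by omega) ab' k2
  have m1 : (RF (J * w) (J * w + w) 0 w : Set (ℤ × ℤ)) ⊆ RF (J * w) (2 * (L * w) + 1 - J * w) 0 w :=
    PercT.Cross.rf_sub le_rfl (by omega) le_rfl le_rfl
  have hEa : Conn η (RF (J * w) (2 * (L * w) + 1 - J * w) 0 w) u a :=
    ((c1.mono m1).trans (Conn.symm (c2.mono m1))).trans ((d2.mono m1).trans (Conn.symm d1))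
  -- the left port
  obtain ⟨u', v', e1', u1', u2', u3', v1', u4', k1'⟩ := rep_spec h1 hW
  obtain ⟨p', q', p1', p2', p3', q1', p4', k2'⟩ := tub_BT h1 hW
  have hch' : chS (-J - 1, (0 : ℤ)) = 1 := by unfold chS; rw [if_pos (by simp only; omega)]
  rw [hch'] at e1' k1' k2'
  unfold sqF at k1'
  simp only [zero_mul, zero_add] at u1' u2' u3' v1' p1' p2' p3' q1' k1' k2'
  rw [chF_up (by omega)] at e1'
  rw [eN] at u1' v1' p2' p3' k1' k2'
  have hup : ∀ f ∈ (RF (-(J * w) - w) (-(J * w) - w + w) 0 w : Set (ℤ × ℤ)), 0 ≤ f.2 := by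
    intro f hf
    exact (mem_RFi.1 (Finset.mem_coe.1 hf)).2.2.1
  have k1'' := (conn_chC_up hup).1 k1'
  have k2'' := (conn_chC_up hup).1 k2'
  have hshift : ∀ {x y : ℤ × ℤ}, Conn η (RF (-(J * w) - w) (-(J * w) - w + w) 0 w) x y →
      Conn η (RF (2 * (L * w) + 1 - J * w - w) (2 * (L * w) + 1 - J * w) 0 w)
        (x.1 + (2 * (L * w) + 1), x.2) (y.1 + (2 * (L * w) + 1), y.2) := by
    intro x y hxy
    have g1 : Conn (perC (2 * (L * w) + 1) ξ) (RF (-(J * w) - w) (-(J * w) - w + w) 0 w) x y :=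
      conn_cfg (fun f hf => by rw [hη, perW_up (hup f hf)]) hxy
    have g2 := shift_perC (2 * (L * w) + 1) 1 ξ
    rw [mul_one] at g2
    rw [← g2] at g1
    have g3 := (conn_shift _ _ _ _ _ _).1 g1
    rw [eC] at g3
    simp only [add_zero] at g3
    refine conn_cfg (fun f hf => ?_) (g3.mono ?_)
    · have := mem_RFi.1 (Finset.mem_coe.1 hf)
      rw [hη, perW_up this.2.2.1]
    · intro f hf
      have := mem_RFi.1 (Finset.mem_coe.1 hf)
      refine Finset.mem_coe.2 (mem_RFi.2 ?_)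
      simp only at this
      omega
  have s1 := hshift k1''
  have s2 := hshift k2''
  obtain ⟨z3, -, -, -, -, f1, f2⟩ := PercT.cross_meet (u := (u'.1 + (2 * (L * w) + 1), u'.2))
    (v := (v'.1 + (2 * (L * w) + 1), v'.2)) (u' := (p'.1 + (2 * (L * w) + 1), p'.2))
    (v' := (q'.1 + (2 * (L * w) + 1), q'.2)) le_rfl (by omega) le_rfl le_rfl
    hwz le_rfl ⟨by simp only; omega, u2', u3'⟩ (by simp only; omega)
    ⟨p1', by simp only; omega, by simp only; omega⟩ q1' (by simp only; omega) s1 s2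
  obtain ⟨z4, -, -, -, -, g1, g2⟩ := PercT.cross_meet (u' := (p'.1 + (2 * (L * w) + 1), p'.2))
    (v' := (q'.1 + (2 * (L * w) + 1), q'.2)) (by omega) (by omega) le_rfl le_rfl
    hwz le_rfl ⟨a1, a2, a3⟩ b1
    ⟨p1', by simp only; omega, by simp only; omega⟩ q1' (by simp only; omega) ab' s2
  have m2 : (RF (2 * (L * w) + 1 - J * w - w) (2 * (L * w) + 1 - J * w) 0 w : Set (ℤ × ℤ)) ⊆
      RF (J * w) (2 * (L * w) + 1 - J * w) 0 w :=
    PercT.Cross.rf_sub (by omega) le_rfl le_rfl le_rfl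
  rw [e1, e1']
  exact hEa.trans ((g1.trans (Conn.symm (g2.mono m2))).trans
    ((f2.mono m2).trans (Conn.symm (f1.mono m2))))

/-- The ring connects the lower port and its translate. -/
theorem RG_link {L w : ℕ} {J : ℤ} {ξ : Cfg} (hw : 0 < w) (hJ : 0 < J) (hL : 0 < L)
    {G : Finset (ℤ × ℤ)} (h0 : perW (L * w) ξ ∈ Tub w 2 G) (hS : (-20, -J - 1) ∈ G)
    (h : ∀ i ∈ range (2 * L), ∀ e, ξ ∈ RGev L w J i e) :
    Conn (perW (L * w) ξ) (row ((-J - 1) * w) w)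
      (rep w 2 (perW (L * w) ξ) (-20, -J - 1))
      ((rep w 2 (perW (L * w) ξ) (-20, -J - 1)).1 + 2 * (L * w),
        (rep w 2 (perW (L * w) ξ) (-20, -J - 1)).2) := by
  have hwz : (0 : ℤ) < w := by exact_mod_cast hw
  have hJw : w ≤ J * w := by nlinarith
  have eN : (-J - 1) * (w : ℤ) = - (J * w) - w := by ring
  have eC : ((2 * (L * w) : ℕ) : ℤ) = 2 * (L * w) := by push_cast; ring
  set η := perW (L * w) ξ with hη
  have hring := fun i => (ring_all (w := w) (J := J) hL h i)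
  rw [eN] at hring
  obtain ⟨u, v, e1, u1, u2, u3, v1, u4, k1⟩ := rep_spec h0 hS
  obtain ⟨p, q, p1, p2, p3, q1, p4, k2⟩ := tub_BT h0 hS
  have hch : chS (-20, -J - 1) = 1 := by unfold chS; rw [if_pos (by norm_num)]
  rw [hch] at e1 k1 k2
  unfold sqF at k1
  simp only at u1 u2 u3 v1 p1 p2 p3 q1 k1 k2
  rw [eN] at u2 u3 p1 q1 k1 k2 ⊢
  rw [chF_low (by omega)] at e1
  have hdn : ∀ f ∈ (RF (-20 * w) (-20 * w + w) (-(J * w) - w) (-(J * w) - w + w) : Set (ℤ × ℤ)),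
      f.2 < 0 := by
    intro f hf
    have := mem_RFi.1 (Finset.mem_coe.1 hf)
    omega
  have hrow : ∀ f ∈ row (-(J * w) - w) w, f.2 < 0 := by
    intro f hf
    unfold row at hf
    obtain ⟨f1, f2⟩ := hf
    omega
  have hlow : ∀ {x y : ℤ × ℤ}, Conn (chC 1 η) (RF (-20 * w) (-20 * w + w) (-(J * w) - w)
      (-(J * w) - w + w)) x y →
      Conn (perC (2 * (L * w)) ξ) (RF (-20 * w + 1) (-20 * w + w + 1) (-(J * w) - w)
        (-(J * w) - w + w)) (x.1 + 1, x.2) (y.1 + 1, y.2) := by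
    intro x y hxy
    have g1 : Conn (shiftC 1 0 (perC (2 * (L * w)) ξ)) (RF (-20 * w) (-20 * w + w) (-(J * w) - w)
      (-(J * w) - w + w)) x y := by
      refine conn_cfg (fun f hf => ?_) hxy
      unfold chC shiftC
      rw [chF_low (hdn f hf), hη, perW_low (by exact hdn f hf)]
      simp only [add_zero]
    have g3 := (conn_shift _ _ _ _ _ _).1 g1
    simp only [add_zero] at g3
    refine g3.mono ?_
    intro f hf
    have := mem_RFi.1 (Finset.mem_coe.1 hf)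
    refine Finset.mem_coe.2 (mem_RFi.2 ?_)
    simp only at this
    omega
  have s1 := hlow k1
  have s2 := hlow k2
  obtain ⟨z1, -, -, -, -, c1, c2⟩ := PercT.cross_meet (u := (u.1 + 1, u.2))
    (v := (v.1 + 1, v.2)) (u' := (p.1 + 1, p.2)) (v' := (q.1 + 1, q.2)) le_rfl (by omega) le_rfl
    le_rfl (by omega) le_rfl ⟨by simp only; omega, u2, u3⟩ (by simp only; omega)
    ⟨p1, by simp only; omega, by simp only; omega⟩ q1 (by simp only; omega) s1 s2
  have c3 : Conn (perC (2 * (L * w)) ξ) (row (-(J * w) - w) w) (u.1 + 1, u.2) (p.1 + 1, p.2) :=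
    (c1.mono (rf_row _ _ _ _)).trans (Conn.symm (c2.mono (rf_row _ _ _ _)))
  have hsh : ∀ {F F' : Set (ℤ × ℤ)} {x y : ℤ × ℤ},
      (∀ f ∈ F, (f.1 + 2 * (L * w), f.2) ∈ F') → Conn (perC (2 * (L * w)) ξ) F x y →
      Conn (perC (2 * (L * w)) ξ) F' (x.1 + 2 * (L * w), x.2) (y.1 + 2 * (L * w), y.2) := by
    intro F F' x y hF hxy
    have g2 := shift_perC (2 * (L * w)) 1 ξ
    rw [mul_one] at g2
    rw [← g2] at hxy
    have g3 := (conn_shift _ _ _ _ _ _).1 hxy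
    rw [eC] at g3
    simp only [add_zero] at g3
    refine g3.mono ?_
    intro f hf
    have := hF _ hf
    simpa using this
  have c4 : Conn (perC (2 * (L * w)) ξ) (row (-(J * w) - w) w) (u.1 + 1 + 2 * (L * w), u.2)
      (p.1 + 1 + 2 * (L * w), p.2) := hsh (F := row (-(J * w) - w) w) (fun f hf => hf) c3
  have s4 : Conn (perC (2 * (L * w)) ξ) (RF (-20 * w + 1 + 2 * (L * w))
      (-20 * w + w + 1 + 2 * (L * w)) (-(J * w) - w) (-(J * w) - w + w))
      (p.1 + 1 + 2 * (L * w), p.2) (q.1 + 1 + 2 * (L * w), q.2) := by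
    refine hsh (fun f hf => ?_) s2
    have := mem_RFi.1 (Finset.mem_coe.1 hf)
    refine Finset.mem_coe.2 (mem_RFi.2 ?_)
    simp only
    omega
  have c5 := ring_link (c := 1) (i := -20) (j := -20 + 2 * L) (a := -20 * w + 1)
    (b := -20 * w + w + 1) (a' := -20 * w + 1 + 2 * (L * w)) (b' := -20 * w + w + 1 + 2 * (L * w))
    (u := (p.1 + 1, p.2)) (v := (q.1 + 1, q.2)) (u' := (p.1 + 1 + 2 * (L * w), p.2))
    (v' := (q.1 + 1 + 2 * (L * w), q.2)) hwz (fun i => (hring i).1) (fun i => (hring i).2)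
    (by omega) (by omega) (by omega)
    (by rw [add_mul, mul_assoc]; omega) (by omega) (by rw [add_mul, mul_assoc]; omega)
    ⟨p1, by simp only; omega, by simp only; omega⟩ q1
    ⟨p1, by simp only; omega, by simp only; omega⟩ q1 (by simp only; omega) (by simp only; omega)
    s2 s4
  have c6 := (c3.trans c5).trans (Conn.symm c4)
  rw [e1]
  exact conn_cfg (fun f hf => by rw [hη, perW_low (hrow f hf)]) c6

end Cyl3

end Pool.Agent.Perc.Q
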