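import Pool.Agent.Lib.MP_6bd702_perc3.Cyl3A
import Pool.Agent.Lib.MP_6bd702_perc3.TwE

/-!
# The ring and the tube on the twisted cylinder: probability
-/

set_option autoImplicit false

namespace Pool.Agent.Perc.Q

open Finset Pool.Agent.Perc

namespace Cyl3

variable {η : Cfg} {w y₀ c : ℤ} {m : ℕ}

/-- The representative of a face of the fundamental domain in the window around the core. -/
def unr (m : ℕ) (f : ℤ × ℤ) : ℤ × ℤ :=
  if 0 ≤ f.2 then (if f.1 ≤ m then f else (f.1 - (2 * m + 1), f.2))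
  else (if f.1 < m then f else (f.1 - 2 * m, f.2))

theorem unr_up {f : ℤ × ℤ} (hm : 0 < m) (h : 0 ≤ f.2) :
    (unr m (f.1 % (2 * m + 1), f.2)).2 = f.2 ∧ -(m : ℤ) ≤ (unr m (f.1 % (2 * m + 1), f.2)).1 ∧
      (unr m (f.1 % (2 * m + 1), f.2)).1 ≤ m ∧
      ∃ k : ℤ, f.1 = (unr m (f.1 % (2 * m + 1), f.2)).1 + k * (2 * m + 1) := by
  have h1 := Int.emod_nonneg f.1 (b := 2 * (m : ℤ) + 1) (by omega)
  have h2 := Int.emod_lt_of_pos f.1 (b := 2 * (m : ℤ) + 1) (by omega)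
  have h3 := Int.emod_add_mul_ediv f.1 (2 * (m : ℤ) + 1)
  unfold unr
  rw [if_pos (by exact h)]
  split_ifs with h4
  · exact ⟨rfl, by simp only at h4 ⊢; omega, h4, f.1 / (2 * m + 1), by simp only; rw [mul_comm (f.1 / _)]; omega⟩
  · simp only at h4
    refine ⟨rfl, by simp only; omega, by simp only; omega, f.1 / (2 * m + 1) + 1, ?_⟩
    simp only
    rw [add_mul, mul_comm (f.1 / _)]
    omega

theorem unr_low {f : ℤ × ℤ} (hm : 0 < m) (h : f.2 < 0) :
    (unr m (f.1 % (2 * m), f.2)).2 = f.2 ∧ -(m : ℤ) ≤ (unr m (f.1 % (2 * m), f.2)).1 ∧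
      (unr m (f.1 % (2 * m), f.2)).1 < m ∧
      ∃ k : ℤ, f.1 = (unr m (f.1 % (2 * m), f.2)).1 + k * (2 * m) := by
  have h1 := Int.emod_nonneg f.1 (b := 2 * (m : ℤ)) (by omega)
  have h2 := Int.emod_lt_of_pos f.1 (b := 2 * (m : ℤ)) (by omega)
  have h3 := Int.emod_add_mul_ediv f.1 (2 * (m : ℤ))
  unfold unr
  rw [if_neg (by simp only; omega)]
  split_ifs with h4
  · exact ⟨rfl, by simp only at h4 ⊢; omega, h4, f.1 / (2 * m), by simp only; rw [mul_comm (f.1 / _)]; omega⟩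
  · simp only at h4
    refine ⟨rfl, by simp only; omega, by simp only; omega, f.1 / (2 * m) + 1, ?_⟩
    simp only
    rw [add_mul, mul_comm (f.1 / _)]
    omega

theorem unr_red {f : ℤ × ℤ} (hm : 0 < m)
    (h : (0 ≤ f.2 ∧ -(m : ℤ) ≤ f.1 ∧ f.1 ≤ m) ∨ (f.2 < 0 ∧ -(m : ℤ) ≤ f.1 ∧ f.1 < m)) :
    unr m (TwE.red m f) = f := by
  unfold TwE.red
  rcases h with ⟨h0, h1, h2⟩ | ⟨h0, h1, h2⟩
  · rw [if_pos h0]
    obtain ⟨e1, e2, e3, k, e4⟩ := unr_up (m := m) (f := f) hm h0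
    have hk : k = 0 := by
      by_contra hne
      rcases lt_or_gt_of_ne hne with h7 | h7
      · have : k * (2 * (m : ℤ) + 1) ≤ -1 * (2 * m + 1) :=
          mul_le_mul_of_nonneg_right (by omega) (by omega)
        omega
      · have : 1 * (2 * (m : ℤ) + 1) ≤ k * (2 * m + 1) :=
          mul_le_mul_of_nonneg_right (by omega) (by omega)
        omega
    rw [hk, zero_mul, add_zero] at e4
    exact Prod.ext e4.symm e1
  · rw [if_neg (by omega)]
    obtain ⟨e1, e2, e3, k, e4⟩ := unr_low (m := m) (f := f) hm h0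
    have hk : k = 0 := by
      by_contra hne
      rcases lt_or_gt_of_ne hne with h7 | h7
      · have : k * (2 * (m : ℤ)) ≤ -1 * (2 * m) :=
          mul_le_mul_of_nonneg_right (by omega) (by omega)
        omega
      · have : 1 * (2 * (m : ℤ)) ≤ k * (2 * m) :=
          mul_le_mul_of_nonneg_right (by omega) (by omega)
        omega
    rw [hk, zero_mul, add_zero] at e4
    exact Prod.ext e4.symm e1

open Classical in
/-- The order of the fresh configuration. -/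
noncomputable def ordD (m : ℕ) (w : ℤ) (G : Fin 3 → Finset (ℤ × ℤ)) (f : ℤ × ℤ) : Bool :=
  if unr m f ∈ cellsF w (G 0) then colD 0 (unr m f)
  else if unr m f ∈ cellsF w (G 1) then colD 1 (unr m f)
  else if unr m f ∈ cellsF w (G 2) then colD 2 (unr m f)
  else if 0 ≤ f.2 then parD 0 f else parD 1 f

/-- The properties of the sets of cells. -/
def GOk (J : ℤ) (G : Fin 3 → Finset (ℤ × ℤ)) : Prop :=
  (∀ i j, i ≠ j → Disjoint (G i) (G j)) ∧ (∀ i, ∀ g ∈ G i, CellOk g) ∧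
    ∀ i, ∀ g ∈ G i, g = port3 J i ∨ (-J ≤ g.1 ∧ g.1 < J ∧ -J ≤ g.2 ∧ g.2 < J)

theorem parD_add_even {c : ℤ} {x y k : ℤ} (hk : k % 2 = 0) : parD c (x + k, y) = parD c (x, y) := by
  unfold parD
  simp only [decide_eq_decide]
  omega

theorem parD_congr {c c' : ℤ} {x y x' y' : ℤ} (h : (x + y - c) % 2 = (x' + y' - c') % 2) :
    parD c (x, y) = parD c' (x', y') := by
  unfold parD
  simp only [decide_eq_decide]
  omega

/-- The cells are in the window. -/
theorem cells_window {L w : ℕ} {J : ℤ} {G : Fin 3 → Finset (ℤ × ℤ)} (hG : GOk J G) (hw : 2 ≤ w)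
    (hJ : 20 ≤ J) (hJL : J + 2 ≤ L) {i : Fin 3} {f : ℤ × ℤ} (hf : f ∈ cellsF w (G i)) :
    -((J + 1) * w) ≤ f.1 ∧ f.1 < (J + 1) * w ∧ -((J + 1) * w) ≤ f.2 ∧ f.2 < (J + 1) * w := by
  have hwz : (0 : ℤ) < w := by omega
  obtain ⟨g, hg, h1⟩ := mem_cellsF.1 hf
  rw [mem_cellF] at h1
  have key : -J - 1 ≤ g.1 ∧ g.1 ≤ J ∧ -J - 1 ≤ g.2 ∧ g.2 ≤ J := by
    rcases hG.2.2 i g hg with rfl | h
    · fin_cases i
      · change -J - 1 ≤ J ∧ J ≤ J ∧ -J - 1 ≤ 0 ∧ 0 ≤ J
        omega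
      · change -J - 1 ≤ -J - 1 ∧ -J - 1 ≤ J ∧ -J - 1 ≤ 0 ∧ 0 ≤ J
        omega
      · change -J - 1 ≤ -20 ∧ -20 ≤ J ∧ -J - 1 ≤ -J - 1 ∧ -J - 1 ≤ J
        omega
    · omega
  have a1 : (-J - 1) * (w : ℤ) ≤ g.1 * w := mul_le_mul_of_nonneg_right key.1 hwz.le
  have a2 : g.1 * (w : ℤ) ≤ J * w := mul_le_mul_of_nonneg_right key.2.1 hwz.le
  have a3 : (-J - 1) * (w : ℤ) ≤ g.2 * w := mul_le_mul_of_nonneg_right key.2.2.1 hwz.le
  have a4 : g.2 * (w : ℤ) ≤ J * w := mul_le_mul_of_nonneg_right key.2.2.2 hwz.le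
  have e1 : (-J - 1) * (w : ℤ) = -((J + 1) * w) := by ring
  have e2 : (J + 1) * (w : ℤ) = J * w + w := by ring
  rw [e1] at a1 a3
  rcases chS_cases g with ⟨b1, b2⟩ | ⟨b1, b2⟩
  · have a5 : g.1 * (w : ℤ) ≤ -1 * w := mul_le_mul_of_nonneg_right (by omega) hwz.le
    have a6 : 0 ≤ J * (w : ℤ) := mul_nonneg (by omega) hwz.le
    omega
  · omega

theorem mem_window {L w : ℕ} {J : ℤ} {G : Fin 3 → Finset (ℤ × ℤ)} (hG : GOk J G) (hw : 2 ≤ w)
    (hJ : 20 ≤ J) (hJL : J + 2 ≤ L) {i : Fin 3} {f : ℤ × ℤ} (hf : f ∈ cellsF w (G i)) :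
    f ∈ BW (((L * w : ℕ) : ℤ) - 1) := by
  have h := cells_window hG hw hJ hJL hf
  have h1 : (J + 1) * (w : ℤ) + w ≤ L * w := by
    have := mul_le_mul_of_nonneg_right hJL (show (0 : ℤ) ≤ w by omega)
    rw [show (J + 2) * (w : ℤ) = (J + 1) * w + w by ring] at this
    exact this
  unfold BW
  rw [mem_union, mem_RFi, mem_RFi]
  push_cast
  rcases lt_or_ge f.2 0 with h0 | h0
  · right; omega
  · left; omega

theorem ordD_cells {L w : ℕ} {J : ℤ} {G : Fin 3 → Finset (ℤ × ℤ)} (hG : GOk J G) (hw : 2 ≤ w)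
    (hJ : 20 ≤ J) (hJL : J + 2 ≤ L) (i : Fin 3) {f : ℤ × ℤ} (hf : f ∈ cellsF w (G i)) :
    ordD (L * w) w G (TwE.red (L * w) f) = colD ((i : ℕ) : ℤ) f := by
  have hwz : (2 : ℤ) ≤ w := by exact_mod_cast hw
  have hm : 0 < L * w := Nat.mul_pos (by omega) (by omega)
  have h1 := cells_window hG hw hJ hJL hf
  have h2 : (J + 1) * (w : ℤ) + w ≤ L * w := by
    have := mul_le_mul_of_nonneg_right hJL (show (0 : ℤ) ≤ w by omega)
    rw [show (J + 2) * (w : ℤ) = (J + 1) * w + w by ring] at this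
    exact this
  have e : unr (L * w) (TwE.red (L * w) f) = f := unr_red hm (by push_cast; omega)
  have hne : ∀ j, j ≠ i → f ∉ cellsF w (G j) := fun j hj hf' =>
    (disjoint_left.1 (disjoint_cellsF hwz (hG.2.1 i) (hG.2.1 j) (hG.1 i j hj.symm))) hf hf'
  unfold ordD
  rw [e]
  fin_cases i
  · change f ∈ cellsF w (G 0) at hf
    rw [if_pos hf]; rfl
  · change f ∈ cellsF w (G 1) at hf
    rw [if_neg (hne 0 (by decide)), if_pos hf]; rfl
  · change f ∈ cellsF w (G 2) at hf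
    rw [if_neg (hne 0 (by decide)), if_neg (hne 1 (by decide)), if_pos hf]; rfl

/-- The cells at the upper faces beyond `J w` are ports. -/
theorem ordD_ew {L w : ℕ} {J : ℤ} {G : Fin 3 → Finset (ℤ × ℤ)} (hG : GOk J G) (hw : 2 ≤ w)
    (hJ : 20 ≤ J) (hJL : J + 2 ≤ L) {f : ℤ × ℤ}
    (hf : f ∈ RF (J * w) (2 * (L * w) + 1 - J * w) 0 w) :
    ordD (L * w) w G (f.1 % ((2 * (L * w) + 1 : ℕ) : ℤ), f.2) = parD 0 f := by
  have hwz : (2 : ℤ) ≤ w := by exact_mod_cast hw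
  have hm : 0 < L * w := Nat.mul_pos (by omega) (by omega)
  have hJw : 0 ≤ J * (w : ℤ) := mul_nonneg (by omega) (by omega)
  rw [mem_RFi] at hf
  have e0 : f.1 % ((2 * (L * w) + 1 : ℕ) : ℤ) = f.1 := by
    refine Int.emod_eq_of_lt (by omega) ?_
    push_cast
    omega
  rw [e0]
  -- cells which contain the representative
  have key : ∀ i : Fin 3, unr (L * w) (f.1, f.2) ∈ cellsF w (G i) →
      colD ((i : ℕ) : ℤ) (unr (L * w) (f.1, f.2)) = parD 0 f := by
    intro i hi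
    obtain ⟨g, hg, h1⟩ := mem_cellsF.1 hi
    rw [mem_cellF] at h1
    have hu : (unr (L * w) (f.1, f.2) = f ∧ f.1 ≤ L * w) ∨
        (unr (L * w) (f.1, f.2) = (f.1 - (2 * (L * w) + 1), f.2) ∧ L * w < f.1) := by
      unfold unr
      rw [if_pos (by exact hf.2.2.1)]
      split_ifs with h4
      · left
        refine ⟨rfl, ?_⟩
        simp only at h4
        push_cast at h4
        exact h4
      · right
        refine ⟨by push_cast; rfl, ?_⟩
        simp only at h4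
        push_cast at h4
        omega
    have hport : g = port3 J i := by
      rcases hG.2.2 i g hg with h | ⟨b1, b2, -, -⟩
      · exact h
      · exfalso
        have a1 : -J * (w : ℤ) ≤ g.1 * w := mul_le_mul_of_nonneg_right b1 (by omega)
        have a2 : g.1 * (w : ℤ) ≤ (J - 1) * w := mul_le_mul_of_nonneg_right (by omega) (by omega)
        rw [neg_mul] at a1
        rw [sub_mul, one_mul] at a2
        rcases hu with ⟨hu, hu'⟩ | ⟨hu, hu'⟩
        · rw [hu] at h1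
          omega
        · rw [hu] at h1
          simp only at h1
          omega
    have hup : ∀ c : ℤ, ∀ g : ℤ × ℤ, 0 ≤ g.2 → colD c g = parD c g := by
      intro c g hg
      unfold colD
      rw [if_neg (by omega)]
    rcases hu with ⟨hu, hu'⟩ | ⟨hu, hu'⟩
    · rw [hu] at h1 ⊢
      rw [hup _ _ hf.2.2.1]
      fin_cases i
      · rfl
      · exfalso
        rw [hport] at h1
        change _ ∧ _ ∧ ((0 ≤ f.2 ∧ (-J - 1) * (w : ℤ) ≤ f.1 ∧ f.1 < (-J - 1) * w + w) ∨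
          (f.2 < 0 ∧ _)) at h1
        rw [show (-J - 1) * (w : ℤ) + w = -(J * w) by ring] at h1
        omega
      · exfalso
        rw [hport] at h1
        change (-J - 1) * (w : ℤ) ≤ f.2 ∧ f.2 < (-J - 1) * (w : ℤ) + w ∧ _ at h1
        rw [show (-J - 1) * (w : ℤ) + w = -(J * w) by ring] at h1
        omega
    · rw [hu] at h1 ⊢
      rw [hup _ (f.1 - (2 * (L * w) + 1), f.2) hf.2.2.1]
      fin_cases i
      · exfalso
        rw [hport] at h1
        change _ ∧ _ ∧ ((0 ≤ f.2 ∧ J * (w : ℤ) ≤ f.1 - (2 * (L * w) + 1) ∧ _) ∨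
          (f.2 < 0 ∧ _)) at h1
        omega
      · refine parD_congr ?_
        change (f.1 - (2 * (L * w) + 1) + f.2 - ((1 : ℕ) : ℤ)) % 2 = _
        push_cast
        omega
      · exfalso
        rw [hport] at h1
        change (-J - 1) * (w : ℤ) ≤ f.2 ∧ f.2 < (-J - 1) * (w : ℤ) + w ∧ _ at h1
        rw [show (-J - 1) * (w : ℤ) + w = -(J * w) by ring] at h1
        omega
  unfold ordD
  split_ifs with k0 k1 k2 k3
  · exact key 0 k0
  · exact key 1 k1
  · exact key 2 k2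
  · rfl
  · exact absurd hf.2.2.1 k3

/-- The order in the ring. -/
theorem ordD_ring {L w : ℕ} {J : ℤ} {G : Fin 3 → Finset (ℤ × ℤ)} (hG : GOk J G) (hw : 2 ≤ w)
    (hJ : 20 ≤ J) (hJL : J + 2 ≤ L) {f : ℤ × ℤ}
    (hf : (-J - 1) * (w : ℤ) ≤ f.2 ∧ f.2 < (-J - 1) * w + w) :
    ordD (L * w) w G (f.1 % ((2 * (L * w) : ℕ) : ℤ), f.2) = parD 1 f := by
  have hwz : (2 : ℤ) ≤ w := by exact_mod_cast hw
  have hm : 0 < L * w := Nat.mul_pos (by omega) (by omega)
  have hJw : 20 * (w : ℤ) ≤ J * (w : ℤ) := mul_le_mul_of_nonneg_right hJ (by omega)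
  have e1 : (-J - 1) * (w : ℤ) + w = -(J * w) := by ring
  have e2 : (-J - 1) * (w : ℤ) = -(J * w) - w := by ring
  have hneg : f.2 < 0 := by omega
  have ec : ((2 * (L * w) : ℕ) : ℤ) = 2 * ((L * w : ℕ) : ℤ) := by push_cast; ring
  rw [ec]
  obtain ⟨u1, u2, u3, k, u4⟩ := unr_low (m := L * w) (f := f) hm hneg
  set v := unr (L * w) (f.1 % (2 * ((L * w : ℕ) : ℤ)), f.2) with hv
  have key : ∀ i : Fin 3, v ∈ cellsF w (G i) → colD ((i : ℕ) : ℤ) v = parD 1 f := by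
    intro i hi
    obtain ⟨g, hg, h1⟩ := mem_cellsF.1 hi
    rw [mem_cellF, u1] at h1
    have hport : g = port3 J i := by
      rcases hG.2.2 i g hg with h | ⟨-, -, b3, b4⟩
      · exact h
      · exfalso
        have a1 : -J * (w : ℤ) ≤ g.2 * w := mul_le_mul_of_nonneg_right b3 (by omega)
        rw [neg_mul] at a1
        omega
    fin_cases i
    · exfalso
      rw [hport] at h1
      change 0 * (w : ℤ) ≤ f.2 ∧ _ at h1
      omega
    · exfalso
      rw [hport] at h1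
      change 0 * (w : ℤ) ≤ f.2 ∧ _ at h1
      omega
    · rw [hport] at h1
      change _ ∧ _ ∧ (_ ∨ (f.2 < 0 ∧ -20 * (w : ℤ) + 1 ≤ v.1 ∧ v.1 < -20 * w + w + 1)) at h1
      unfold colD
      rw [if_pos ⟨by omega, by omega⟩]
      refine parD_congr ?_
      change (v.1 - 1 + v.2 - ((2 : ℕ) : ℤ)) % 2 = _
      have : f.1 = v.1 + 2 * (k * ((L * w : ℕ) : ℤ)) := by rw [u4]; ring
      push_cast
      omega
  unfold ordD
  rw [← hv]
  split_ifs with k0 k1 k2 k3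
  · exact key 0 k0
  · exact key 1 k1
  · exact key 2 k2
  · exact absurd k3 (by simp only; omega)
  · refine parD_congr ?_
    have h5 := Int.emod_add_mul_ediv f.1 (2 * ((L * w : ℕ) : ℤ))
    rw [mul_assoc] at h5
    omega

end Cyl3

end Pool.Agent.Perc.Q
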