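import Pool.Agent.Lib.MP_6bd702_perc3.OStD

/-!
# Odd link patterns: variants of names
-/

set_option autoImplicit false

namespace Pool.Agent.Perc

open Finset PatA PatB OStA

variable {N : ℕ} {p p' : ℕ → ℕ}

theorem NCO.eq_thr (h : NCO N p) {x : ℕ} (hx : x < N) (hp : p x = x) : x = thr p :=
  (h.eq_thr_iff hx).1 hp

theorem NCO.exists_del' (h : NCO (N + 2) p) {i : ℕ} (hi : i ≤ N) (h1 : p i = i + 1) :
    ∃ p', NCO N p' ∧ p = Perc.insArc i p' := by
  obtain ⟨p', h2, h3⟩ := h.exists_del (Nat.lt_succ_of_le hi) h1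
  exact ⟨p', h2, h3.symm⟩

theorem rotO_inj (h : NCO N p) (h' : NCO N p') (he : rotP N p = rotP N p') : p = p' :=
  rotP_injO h h' he

theorem rotO_insArc_zero (h : NCO N p) : rotP (N + 2) (insArc 0 p) = cupO N p :=
  h.rotP_insArc_zero

theorem rotO_cupO (h : NCO N p) : rotP (N + 2) (cupO N p) = insArc N p := h.rotP_cupO

theorem rotO_insArc (h : NCO N p) {i : ℕ} (hi : 0 < i) (hiN : i ≤ N) :
    rotP (N + 2) (insArc i p) = insArc (i - 1) (rotP N p) := h.rotP_insArc hi hiN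

theorem rotO_eO (h : NCO N p) {i : ℕ} (hi : i + 2 < N) :
    rotP N (eO (i + 1) p) = eO i (rotP N p) := h.rotP_eO hi

/-- Delete a small arc at the seam. -/
theorem NCO.exists_delCup' (h : NCO (N + 2) p) (h1 : p 0 = N + 1) :
    ∃ p', NCO N p' ∧ p = Perc.cupO N p' := by
  obtain ⟨p', h2, h3⟩ := h.exists_delCup h1
  exact ⟨p', h2, h3.symm⟩

/-- Every state has a small arc (possibly at the seam). -/
theorem NCO.exists_small' (h : NCO (N + 2) p) (hN : 0 < N) :
    (∃ i ≤ N, p i = i + 1) ∨ p 0 = N + 1 := by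
  rcases h.exists_small hN with ⟨i, h1, h2⟩ | h1
  · exact Or.inl ⟨i, by omega, h2⟩
  · exact Or.inr h1

theorem eO_small (i : ℕ) (p : ℕ → ℕ) : eO i p i = i + 1 := by simp [eO]

theorem eO_eq_self (h : NCO N p) {i : ℕ} (hi : i + 1 < N) (h1 : p i = i + 1) : eO i p = p :=
  eO_of_small h.inv h1

theorem labO_fix {x : ℕ} (hx : p x = x) : labO p x = false := labO_of_fix hx

theorem labO_insArc_lt (h : NCO N p) {i : ℕ} (hi : i ≤ N) {x : ℕ} (hx : x < i) :
    labO (insArc i p) x = labO p x := by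
  have := labO_insArc h hi x
  rwa [sh, if_pos hx] at this

theorem labO_insArc_ge (h : NCO N p) {i : ℕ} (hi : i ≤ N) {x : ℕ} (hx : i ≤ x) :
    labO (insArc i p) (x + 2) = labO p x := by
  have := labO_insArc h hi x
  rwa [sh, if_neg (by omega)] at this

end Pool.Agent.Perc
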