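import Pool.Agent.Lib.MP_6bd702_perq.DWB
import Pool.Agent.Lib.MP_6bd702_perq.DWF
import Pool.Agent.Lib.MP_6bd702_perc3.OStI

/-!
# The double wheel space in an odd number of variables: uniqueness (task DWo1)

Model: the last theorem of perq/DWB.lean (`DW.restrict`, `DW.eq_minPoly` hold for every number of
variables) and the last part of perq/DWF.lean.
-/

set_option autoImplicit false

namespace Pool.Agent.Perc

open Finset MvPolynomial

variable {q : ℂ} {n : ℕ} {p : ℕ → ℕ} {P : MvPolynomial ℕ ℂ}

theorem eval_minPoly_of_neO (hq : q ^ 2 + q + 1 = 0) (h : NCO (2 * n + 1) p)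
    (hne : p ≠ nestO n) : eval (zptO q p) (minPoly q (2 * n + 1)) = 0 := by
  have _ := hq
  obtain ⟨i, j, hij, hj, h1, h2⟩ := exists_op_clO h hne
  refine DWF.eval_eq_zero hij hj ?_
  unfold zptO
  rw [if_pos h1, if_neg (by rw [h2]; simp), mul_one]

namespace DWo1

/-- The product polynomial does not vanish at points without the forbidden ratio. -/
theorem eval_minPoly_ne_zero {L : ℕ} {z : ℕ → ℂ}
    (h : ∀ i j, i < j → j < L → z i ≠ q ^ 2 * z j) : eval z (minPoly q L) ≠ 0 := by
  unfold minPoly
  rw [map_prod, Finset.prod_ne_zero_iff]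
  intro j hj
  rw [map_prod, Finset.prod_ne_zero_iff]
  intro i hi
  rw [mem_range] at hi hj
  rw [map_sub, map_mul, eval_X, eval_X, eval_C]
  exact sub_ne_zero.2 (h i j hi hj)

end DWo1

theorem eval_minPoly_nestO (hq : q ^ 2 + q + 1 = 0) (n : ℕ) :
    eval (zptO q (nestO n)) (minPoly q (2 * n + 1)) ≠ 0 := by
  have hq0 := WheelA.q_ne_zero hq
  have hq1 := WheelC.q_ne_one hq
  have hq3 := WheelA.q_cube hq
  apply DWo1.eval_minPoly_ne_zero
  intro i j hij hj h1
  unfold zptO at h1
  rw [opO_nestO, opO_nestO] at h1
  by_cases hi : n ≤ i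
  · rw [if_pos (by rw [decide_eq_true_eq]; omega), if_pos (by rw [decide_eq_true_eq]; omega)] at h1
    apply hq1
    linear_combination q ^ 2 * h1 - q * hq3 + (q ^ 3 + 1) * hq3
  · rw [if_neg (by rw [decide_eq_true_eq]; omega)] at h1
    by_cases hj' : n ≤ j
    · rw [if_pos (by rw [decide_eq_true_eq]; omega)] at h1
      apply hq1
      linear_combination (-1) * h1 - q * hq3
    · rw [if_neg (by rw [decide_eq_true_eq]; omega)] at h1
      apply hq1
      linear_combination hq3 + q * h1

/-- A polynomial of the space is determined by its values at the odd states. -/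
theorem DW.eq_zeroO (hq : q ^ 2 + q + 1 = 0) (h : DW q (2 * n + 1) P)
    (h0 : ∀ p, NCO (2 * n + 1) p → eval (zptO q p) P = 0) : P = 0 := by
  classical
  have hq0 := WheelA.q_ne_zero hq
  have hq1 := WheelC.q_ne_one hq
  have hq3 := WheelA.q_cube hq
  induction n generalizing P with
  | zero =>
    obtain ⟨c, hc⟩ := h.eq_minPoly hq (fun i hi => absurd hi (by omega))
    have h1 := h0 _ (nco_nestO 0)
    rw [hc, map_mul, eval_C] at h1
    rcases mul_eq_zero.1 h1 with h2 | h2
    · rw [hc, h2]
      simp
    · exact absurd h2 (eval_minPoly_nestO hq 0)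
  | succ n ih =>
    have hN : 2 * (n + 1) + 1 = 2 * n + 1 + 2 := by ring
    rw [hN] at h h0
    have hres : ∀ (P : MvPolynomial ℕ ℂ), DW q (2 * n + 1 + 2) P → ∀ i ≤ 2 * n + 1,
        (∀ p, NCO (2 * n + 1) p → eval (zptO q (insArc i p)) P = 0) →
        ∀ z : ℕ → ℂ, z i = q ^ 2 * z (i + 1) → eval z P = 0 := by
      intro P hP i hi h1 z hz
      obtain ⟨R, hR, hPR⟩ := hP.restrict hq hi
      have hR0 : R = 0 := by
        apply ih hR
        intro p hp
        have h2 := hPR 1 (zptO q p)
        simp only [mul_one, one_mul] at h2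
        rw [← zptO_insArc q hp hi, h1 p hp, prod_zptO hq hp] at h2
        rcases mul_eq_zero.1 h2.symm with h3 | h3
        · exfalso
          refine mul_ne_zero (by norm_num) (pow_ne_zero _ (mul_ne_zero (by norm_num) hq0)) h3
        · exact h3
      have h2 := hPR (z (i + 1)) (fun k => z (WheelA.sh i k))
      rw [← WheelC.eq_insV hz, hR0, map_zero, mul_zero] at h2
      exact h2
    obtain ⟨c, hc⟩ := h.eq_minPoly hq (fun i hi => hres P h i (by omega)
      (fun p hp => h0 _ (hp.insArc (by omega))))
    obtain ⟨Q, hQ, hPQ⟩ := h.exists_rot hq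
    have h1 := hres Q hQ 0 (by omega) (fun p hp => by
      rw [hPQ, ← zptO_rotP q (hp.insArc (by omega))]
      exact h0 _ (hp.insArc (by omega)).rotP)
    -- the value at the seam
    have h2 := h1 (fun k => if k = 0 then q ^ 2 else 1) (by simp)
    rw [hPQ, hc, map_mul, eval_C] at h2
    rcases mul_eq_zero.1 h2 with h3 | h3
    · rw [hc, h3]
      simp
    · exfalso
      refine DWo1.eval_minPoly_ne_zero ?_ h3
      intro i j hi hj
      have h4 : rotV (2 * n + 1 + 2) (fun k => if k = 0 then q ^ 2 else 1) i = 1 := by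
        unfold rotV
        rw [if_pos (by omega)]
        exact if_neg (by omega)
      rw [h4]
      by_cases hj2 : j + 1 = 2 * n + 1 + 2
      · have h5 : rotV (2 * n + 1 + 2) (fun k => if k = 0 then q ^ 2 else 1) j = q ^ 2 := by
          unfold rotV
          rw [if_neg (by omega), if_pos hj2]
          exact if_pos rfl
        rw [h5]
        intro h6
        apply hq1
        linear_combination (-1) * h6 - q * hq3
      · have h5 : rotV (2 * n + 1 + 2) (fun k => if k = 0 then q ^ 2 else 1) j = 1 := by
          unfold rotV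
          rw [if_pos (by omega)]
          exact if_neg (by omega)
        rw [h5]
        intro h6
        apply hq1
        linear_combination hq3 + q * h6

end Pool.Agent.Perc
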