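import Pool.Agent.Lib.MP_6bd702_perq.DWV
import Pool.Agent.Lib.MP_6bd702_perc3.OStI

/-!
# The double wheel space in an odd number of variables: values of `E_i P` (task DWo2)

Model: perq/DWV.lean.
-/

set_option autoImplicit false

namespace Pool.Agent.Perc

open Finset MvPolynomial

variable {q : ℂ} {n : ℕ} {P Q : MvPolynomial ℕ ℂ}

namespace DWo2

open DWV (Rel q_ne_one q_ne_zero q_cube q2_ne_one exists_prod_ne eq_of_mul_prod insV_of_lt
  insV_self insV_succ insV_of_gt swapV_def rotV_swapV rotV_of_lt case_eq)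

/-- the arc of i+1 and i+2 -/
theorem case_succ (hq : q ^ 2 + q + 1 = 0) (h : DW q (2 * n + 1 + 2) P)
    (hQ : DW q (2 * n + 1 + 2) Q) {i : ℕ} (hi : i + 1 ≤ 2 * n + 1) (hR : Rel q i P Q) {s : ℕ → ℕ}
    (hs : NCO (2 * n + 1) s) :
    eval (zptO q (insArc (i + 1) s)) Q = eval (zptO q (insArc i s)) P := by
  obtain ⟨RQ, hRQ, hRQ'⟩ := hQ.restrict hq (i := i + 1) (by omega)
  obtain ⟨RP, hRP, hRP'⟩ := h.restrict hq (i := i) (by omega)
  have hRR : RQ = RP := by
    apply eq_of_mul_prod (2 * n + 1) i q (q_ne_one hq)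
    intro z hz
    apply mul_left_cancel₀ hz
    rw [← mul_assoc, ← mul_assoc, ← hRQ' (z i) z, ← hRP' (z i) z]
    have h1 := hR (insV (i + 1) (q ^ 2 * z i) (z i) z)
    rw [insV_self, insV_of_lt (by omega)] at h1
    have h2 : swapV i (insV (i + 1) (q ^ 2 * z i) (z i) z) = insV i (q ^ 2 * z i) (z i) z := by
      funext k
      rw [swapV_def]
      split_ifs with h3 h4
      · rw [h3, insV_self, insV_self]
      · rw [h4, insV_succ, insV_of_lt (by omega)]
      · by_cases h5 : k < i
        · rw [insV_of_lt (by omega), insV_of_lt h5]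
        · by_cases h6 : k = i + 2
          · subst h6
            rw [insV_succ, insV_of_gt (by omega)]
            simp
          · rw [insV_of_gt (by omega), insV_of_gt (by omega)]
    rw [h2] at h1
    have h4 : z i - q ^ 2 * z i ≠ 0 := by
      have h5 : z i - q ^ 2 * z i = z i * (1 - q ^ 2) := by ring
      rw [h5]
      exact mul_ne_zero hz (sub_ne_zero.2 (Ne.symm (q2_ne_one hq)))
    apply mul_left_cancel₀ h4
    rw [h1]
    linear_combination ((q - 1) * z i * eval (insV i (q ^ 2 * z i) (z i) z) P) * hq +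
      ((q ^ 2 - q) * z i * eval (insV (i + 1) (q ^ 2 * z i) (z i) z) P) * hq
  have e1 := zptO_insArc q hs (i := i + 1) (by omega)
  have e2 := zptO_insArc q hs (i := i) (by omega)
  have e3 := hRQ' 1 (zptO q s)
  have e4 := hRP' 1 (zptO q s)
  rw [mul_one, ← e1] at e3
  rw [mul_one, ← e2] at e4
  rw [e3, e4, hRR]

/-- the arc of i-1 and i -/
theorem case_pred (hq : q ^ 2 + q + 1 = 0) (h : DW q (2 * n + 1 + 2) P)
    (hQ : DW q (2 * n + 1 + 2) Q) {i : ℕ} (hi : i + 1 ≤ 2 * n + 1) (hR : Rel q (i + 1) P Q)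
    {s : ℕ → ℕ} (hs : NCO (2 * n + 1) s) :
    eval (zptO q (insArc i s)) Q = eval (zptO q (insArc (i + 1) s)) P := by
  obtain ⟨RQ, hRQ, hRQ'⟩ := hQ.restrict hq (i := i) (by omega)
  obtain ⟨RP, hRP, hRP'⟩ := h.restrict hq (i := i + 1) (by omega)
  have hc := q_cube hq
  have hRR : RQ = RP := by
    apply eq_of_mul_prod (2 * n + 1) i (q ^ 2) (q2_ne_one hq)
    intro z hz
    have f1 := hRQ' (q * z i) z
    have f2 := hRP' (q * z i) z
    have f3 : ∀ k, z k - q * (q * z i) = z k - q ^ 2 * z i := fun k => by ring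
    have f4 : q ^ 2 * (q * z i) = z i := by linear_combination (z i) * hc
    simp only [f3, f4] at f1 f2
    apply mul_left_cancel₀ (mul_ne_zero (q_ne_zero hq) hz)
    rw [← mul_assoc, ← mul_assoc, ← f1, ← f2]
    have h1 := hR (insV i (z i) (q * z i) z)
    rw [insV_succ, insV_of_gt (by omega)] at h1
    have f5 : i + 1 + 1 - 2 = i := by omega
    rw [f5] at h1
    have h2 : swapV (i + 1) (insV i (z i) (q * z i) z) = insV (i + 1) (z i) (q * z i) z := by
      funext k
      rw [swapV_def]
      split_ifs with h3 h4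
      · rw [h3, insV_of_gt (by omega), f5, insV_self]
      · rw [h4, insV_succ, insV_succ]
      · by_cases h5 : k < i
        · rw [insV_of_lt (by omega), insV_of_lt (by omega)]
        · by_cases h6 : k = i
          · subst h6
            rw [insV_self, insV_of_lt (by omega)]
          · rw [insV_of_gt (by omega), insV_of_gt (by omega)]
    rw [h2] at h1
    have h4 : q * z i - z i ≠ 0 := by
      have h5 : q * z i - z i = z i * (q - 1) := by ring
      rw [h5]
      exact mul_ne_zero hz (sub_ne_zero.2 (q_ne_one hq))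
    apply mul_left_cancel₀ h4
    rw [h1]
    linear_combination ((1 - q) * z i * eval (insV (i + 1) (z i) (q * z i) z) P) * hq
  have e1 := zptO_insArc q hs (i := i) (by omega)
  have e2 := zptO_insArc q hs (i := i + 1) (by omega)
  have e3 := hRQ' 1 (zptO q s)
  have e4 := hRP' 1 (zptO q s)
  rw [mul_one, ← e1] at e3
  rw [mul_one, ← e2] at e4
  rw [e3, e4, hRR]

/-- the arcs which do not meet `i`, `i + 1` -/
theorem case_far (hq : q ^ 2 + q + 1 = 0) (h : DW q (2 * n + 1 + 2) P)
    (hQ : DW q (2 * n + 1 + 2) Q) {i i' k : ℕ} (hk : k ≤ 2 * n + 1) (hi' : i' + 1 < 2 * n + 1)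
    (hik : (i + 1 < k ∧ i' = i) ∨ (k + 2 ≤ i ∧ i' = i - 2)) (hR : Rel q i P Q)
    (ih : ∀ P' Q' : MvPolynomial ℕ ℂ, DW q (2 * n + 1) P' → DW q (2 * n + 1) Q' → Rel q i' P' Q' →
      ∀ s, NCO (2 * n + 1) s → eval (zptO q s) Q' = eval (zptO q (eO i' s)) P')
    {s : ℕ → ℕ} (hs : NCO (2 * n + 1) s) :
    eval (zptO q (insArc k s)) Q = eval (zptO q (insArc k (eO i' s))) P := by
  obtain ⟨RQ, hRQ, hRQ'⟩ := hQ.restrict hq (i := k) (by omega)
  obtain ⟨RP, hRP, hRP'⟩ := h.restrict hq (i := k) (by omega)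
  have hrel : Rel q i' RP RQ := by
    intro z
    obtain ⟨v, hv⟩ := exists_prod_ne hq (2 * n + 1) z
    have h1 := hR (insV k (q ^ 2 * v) v z)
    have e1 : insV k (q ^ 2 * v) v z i = z i' := by
      rcases hik with ⟨h2, rfl⟩ | ⟨h2, rfl⟩
      · rw [insV_of_lt (by omega)]
      · rw [insV_of_gt (by omega)]
    have e2 : insV k (q ^ 2 * v) v z (i + 1) = z (i' + 1) := by
      rcases hik with ⟨h2, rfl⟩ | ⟨h2, rfl⟩
      · rw [insV_of_lt (by omega)]
      · rw [insV_of_gt (by omega)]
        congr 1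
        omega
    have e3 : swapV i (insV k (q ^ 2 * v) v z) = insV k (q ^ 2 * v) v (swapV i' z) := by
      funext l
      rw [swapV_def]
      by_cases h3 : l < k
      · rw [insV_of_lt h3 _ _ (swapV i' z), swapV_def, e1, e2]
        rcases hik with ⟨h2, rfl⟩ | ⟨h2, rfl⟩
        · split_ifs <;> first | rfl | (rw [insV_of_lt (by omega)])
        · rw [if_neg (by omega), if_neg (by omega), if_neg (by omega), if_neg (by omega),
            insV_of_lt h3]
      · by_cases h4 : l = k
        · subst h4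
          rw [if_neg (by omega), if_neg (by omega), insV_self, insV_self]
        · by_cases h5 : l = k + 1
          · subst h5
            rw [if_neg (by omega), if_neg (by omega), insV_succ, insV_succ]
          · rw [insV_of_gt (by omega) _ _ (swapV i' z), swapV_def, e1, e2]
            rcases hik with ⟨h2, rfl⟩ | ⟨h2, rfl⟩
            · rw [if_neg (by omega), if_neg (by omega), if_neg (by omega), if_neg (by omega),
                insV_of_gt (by omega)]
            · by_cases h6 : l = i
              · subst h6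
                rw [if_pos rfl, if_pos rfl]
              · by_cases h7 : l = i + 1
                · subst h7
                  rw [if_neg (by omega), if_pos rfl, if_neg (by omega), if_pos (by omega)]
                · rw [if_neg h6, if_neg h7, if_neg (by omega), if_neg (by omega),
                    insV_of_gt (by omega)]
    have e4 : (∏ l ∈ range (2 * n + 1), (swapV i' z l - q * v) ^ 2) =
        ∏ l ∈ range (2 * n + 1), (z l - q * v) ^ 2 := by
      have h5 : ∏ l ∈ range (2 * n + 1), (z l - q * v) ^ 2 =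
          ∏ l ∈ range (2 * n + 1), (z (Equiv.swap i' (i' + 1) l) - q * v) ^ 2 := by
        symm
        refine Finset.prod_bij (fun l _ => Equiv.swap i' (i' + 1) l) ?_ ?_ ?_ ?_
        · intro l hl
          rw [mem_range] at hl ⊢
          rw [Equiv.swap_apply_def]
          split_ifs <;> omega
        · intro a _ b _ hab
          exact (Equiv.swap i' (i' + 1)).injective hab
        · intro b hb
          refine ⟨Equiv.swap i' (i' + 1) b, ?_, Equiv.swap_apply_self _ _ _⟩
          rw [mem_range] at hb ⊢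
          rw [Equiv.swap_apply_def]
          split_ifs <;> omega
        · intro l _
          rfl
      rw [h5]
      rfl
    rw [e1, e2, e3, hRQ', hRP', hRP', e4] at h1
    apply mul_left_cancel₀ hv
    linear_combination h1
  have hE : NCO (2 * n + 1) (eO i' s) := hs.eO hi'
  have e1 := zptO_insArc q hs (i := k) (by omega)
  have e2 := zptO_insArc q hE (i := k) (by omega)
  have e3 := hRQ' 1 (zptO q s)
  have e4 := hRP' 1 (zptO q (eO i' s))
  rw [mul_one, ← e1, mul_one, prod_zptO hq hs] at e3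
  rw [mul_one, ← e2, mul_one, prod_zptO hq hE] at e4
  rw [e3, e4, ih RP RQ hRP hRQ hrel s hs]

/-- a state with a small arc away from the seam -/
theorem step (hq : q ^ 2 + q + 1 = 0)
    (ih : ∀ (i : ℕ) (P' Q' : MvPolynomial ℕ ℂ), i + 1 < 2 * n + 1 → DW q (2 * n + 1) P' →
      DW q (2 * n + 1) Q' → Rel q i P' Q' →
      ∀ s, NCO (2 * n + 1) s → eval (zptO q s) Q' = eval (zptO q (eO i s)) P')
    {i : ℕ} (hi : i + 1 < 2 * n + 1 + 2) (hP : DW q (2 * n + 1 + 2) P)
    (hQ : DW q (2 * n + 1 + 2) Q) (hR : Rel q i P Q) {k : ℕ} (hk : k ≤ 2 * n + 1) {s : ℕ → ℕ}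
    (hs : NCO (2 * n + 1) s) :
    eval (zptO q (insArc k s)) Q = eval (zptO q (eO i (insArc k s))) P := by
  by_cases h1 : k = i
  · subst h1
    rw [eO_insArc_self _ hs hk, zptO_insArc q hs hk]
    exact case_eq hq hR (insV_self _ _ _ _) (insV_succ _ _ _ _)
  by_cases h2 : k = i + 1
  · subst h2
    rw [eO_insArc_succ hs.inv _]
    exact case_succ hq hP hQ hk hR hs
  by_cases h3 : k + 1 = i
  · subst h3
    rw [eO_succ_insArc hs.inv _]
    exact case_pred hq hP hQ (by omega) hR hs
  rcases Nat.lt_or_ge (i + 1) k with h4 | h4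
  · rw [eO_insArc_of_lt h4 _]
    exact case_far hq hP hQ (i' := i) hk (by omega) (Or.inl ⟨h4, rfl⟩) hR
      (fun P' Q' a b c => ih i P' Q' (by omega) a b c) hs
  · rw [eO_insArc_of_le (by omega) _]
    exact case_far hq hP hQ (i' := i - 2) hk (by omega) (Or.inr ⟨by omega, rfl⟩) hR
      (fun P' Q' a b c => ih (i - 2) P' Q' (by omega) a b c) hs

theorem main (hq : q ^ 2 + q + 1 = 0) (n : ℕ) : ∀ (i : ℕ) (P Q : MvPolynomial ℕ ℂ),
    i + 1 < 2 * n + 1 → DW q (2 * n + 1) P → DW q (2 * n + 1) Q → Rel q i P Q →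
    ∀ s, NCO (2 * n + 1) s → eval (zptO q s) Q = eval (zptO q (eO i s)) P := by
  induction n with
  | zero => intro i P Q hi; omega
  | succ n ih =>
    intro i P Q hi hP hQ hR s hs
    have hs' : NCO (2 * n + 1 + 2) s := hs
    have hP' : DW q (2 * n + 1 + 2) P := hP
    have hQ' : DW q (2 * n + 1 + 2) Q := hQ
    have hi' : i + 1 < 2 * n + 1 + 2 := hi
    rcases hs'.exists_small' (by omega) with ⟨k, hk, h1⟩ | h1
    · obtain ⟨s₁, hs₁, rfl⟩ := hs'.exists_del' hk h1
      exact step hq ih hi' hP' hQ' hR hk hs₁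
    · obtain ⟨s₁, hs₁, rfl⟩ := hs'.exists_delCup' h1
      rcases Nat.lt_or_ge (i + 2) (2 * n + 1 + 2) with h3 | h3
      · -- rotate to the left
        obtain ⟨P', hP1, hP2⟩ := hP'.exists_rot hq
        obtain ⟨Q', hQ1, hQ2⟩ := hQ'.exists_rot hq
        have hR' : Rel q (i + 1) P' Q' := by
          intro z
          have h4 := hR (rotV (2 * n + 1 + 2) z)
          rw [rotV_of_lt (by omega), rotV_of_lt (by omega), ← rotV_swapV (by omega)] at h4
          rw [hP2, hP2, hQ2]
          exact h4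
        have hins : NCO (2 * n + 1 + 2) (insArc 0 s₁) := hs₁.insArc (Nat.zero_le _)
        have h5 := step hq ih (by omega) hP1 hQ1 hR' (Nat.zero_le _) hs₁
        rw [hP2, hQ2, ← zptO_rotP q hins, ← zptO_rotP q (hins.eO (by omega)),
          rotO_eO hins (by omega), rotO_insArc_zero hs₁] at h5
        exact h5
      · -- rotate to the right
        obtain ⟨j, rfl⟩ : ∃ j, i = j + 1 := ⟨i - 1, by omega⟩
        obtain ⟨P', hP1, hP2⟩ := hP'.exists_rot_iterate hq (2 * n + 1 + 1)
        obtain ⟨Q', hQ1, hQ2⟩ := hQ'.exists_rot_iterate hq (2 * n + 1 + 1)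
        have hrr : ∀ z, (rotV (2 * n + 1 + 2))^[2 * n + 1 + 1] (rotV (2 * n + 1 + 2) z) = z := by
          intro z
          exact (Function.iterate_succ_apply (rotV (2 * n + 1 + 2)) (2 * n + 1 + 1) z).symm.trans
            (rotV_iterate (2 * n + 1 + 2) z)
        have hrr' : ∀ z, rotV (2 * n + 1 + 2) ((rotV (2 * n + 1 + 2))^[2 * n + 1 + 1] z) = z := by
          intro z
          exact (Function.iterate_succ_apply' (rotV (2 * n + 1 + 2)) (2 * n + 1 + 1) z).symm.trans
            (rotV_iterate (2 * n + 1 + 2) z)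
        have hP3 : ∀ z, eval (rotV (2 * n + 1 + 2) z) P' = eval z P := by
          intro z
          rw [hP2, hrr]
        have hQ3 : ∀ z, eval (rotV (2 * n + 1 + 2) z) Q' = eval z Q := by
          intro z
          rw [hQ2, hrr]
        have hR' : Rel q j P' Q' := by
          intro w
          obtain ⟨z, rfl⟩ : ∃ z, w = rotV (2 * n + 1 + 2) z := ⟨_, (hrr' w).symm⟩
          have h4 := hR z
          rw [rotV_of_lt (by omega), rotV_of_lt (by omega), ← rotV_swapV (by omega), hP3, hP3,
            hQ3]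
          exact h4
        have h5 := step hq ih (i := j) (by omega) hP1 hQ1 hR' (le_refl (2 * n + 1)) hs₁
        rw [← rotO_cupO hs₁, ← rotO_eO hs' (by omega), zptO_rotP q hs',
          zptO_rotP q (hs'.eO hi'), hP3, hQ3] at h5
        exact h5

end DWo2

theorem DW.eval_EO (hq : q ^ 2 + q + 1 = 0) (h : DW q (2 * n + 1) P) (h' : DW q (2 * n + 1) Q)
    {i : ℕ} (hi : i + 1 < 2 * n + 1)
    (hE : ∀ z, (z i - z (i + 1)) * eval z Q =
      (q * z (i + 1) - q ^ 2 * z i) * eval (swapV i z) P -
        (q * z i - q ^ 2 * z (i + 1)) * eval z P)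
    {p : ℕ → ℕ} (hp : NCO (2 * n + 1) p) : eval (zptO q p) Q = eval (zptO q (eO i p)) P :=
  DWo2.main hq n i P Q hi h h' hE p hp

end Pool.Agent.Perc
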