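import Pool.Agent.Lib.MP_6bd702_perq.DWG
import Pool.Agent.Lib.MP_6bd702_perc3.OStT
import Pool.Agent.Lib.MP_6bd702_perc3.DWo1
import Pool.Agent.Lib.MP_6bd702_perc3.DWo2

/-!
# The double wheel space in an odd number of variables: the dual basis (task DWo3)

Model: perq/DWG.lean.
-/

set_option autoImplicit false

namespace Pool.Agent.Perc

open Finset MvPolynomial

namespace DWo3

open DWG (dw_zero dw_add dw_smul)

variable {q : ℂ} {n N : ℕ} {P Q : MvPolynomial ℕ ℂ}

/-- the function `f` of the state is given by the evaluations of a polynomial of the space -/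
def Rep (q : ℂ) (n : ℕ) (f : (ℕ → ℕ) → ℂ) : Prop :=
  ∃ P, DW q (2 * n + 1) P ∧ ∀ p, NCO (2 * n + 1) p → eval (zptO q p) P = f p

lemma Rep.zero : Rep q n (fun _ => 0) := ⟨0, dw_zero, fun s _ => by simp⟩

lemma Rep.add {f g : (ℕ → ℕ) → ℂ} (hf : Rep q n f) (hg : Rep q n g) :
    Rep q n (fun s => f s + g s) := by
  obtain ⟨P, hP, hPf⟩ := hf
  obtain ⟨Q, hQ, hQg⟩ := hg
  exact ⟨P + Q, dw_add hP hQ, fun s hs => by rw [map_add, hPf s hs, hQg s hs]⟩

lemma Rep.smul {f : (ℕ → ℕ) → ℂ} (c : ℂ) (hf : Rep q n f) : Rep q n (fun s => c * f s) := by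
  obtain ⟨P, hP, hPf⟩ := hf
  exact ⟨C c * P, dw_smul c hP, fun s hs => by rw [map_mul, hPf s hs, eval_C]⟩

lemma Rep.sum {ι : Type*} (S : Finset ι) {f : ι → (ℕ → ℕ) → ℂ} (hf : ∀ x ∈ S, Rep q n (f x)) :
    Rep q n (fun s => ∑ x ∈ S, f x s) := by
  classical
  induction S using Finset.induction_on with
  | empty => simpa using Rep.zero
  | insert a S ha ih =>
    have h1 := (hf a (mem_insert_self a S)).add (ih fun x hx => hf x (mem_insert_of_mem hx))
    simpa only [sum_insert ha] using h1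

lemma Rep.congr {f g : (ℕ → ℕ) → ℂ} (hf : Rep q n f)
    (hfg : ∀ s, NCO (2 * n + 1) s → f s = g s) : Rep q n g := by
  obtain ⟨P, hP, hPf⟩ := hf
  exact ⟨P, hP, fun s hs => by rw [hPf s hs, hfg s hs]⟩

lemma Rep.comp_eO (hq : q ^ 2 + q + 1 = 0) {f : (ℕ → ℕ) → ℂ} (hf : Rep q n f) {i : ℕ}
    (hi : i + 1 < 2 * n + 1) : Rep q n (fun s => f (eO i s)) := by
  obtain ⟨P, hP, hPf⟩ := hf
  obtain ⟨Q, hQ, hE⟩ := hP.exists_E hq hi
  exact ⟨Q, hQ, fun s hs => by rw [DW.eval_EO hq hP hQ hi hE hs, hPf _ (hs.eO hi)]⟩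

lemma Rep.comp_rotP (hq : q ^ 2 + q + 1 = 0) {f : (ℕ → ℕ) → ℂ} (hf : Rep q n f) :
    Rep q n (fun s => f (rotP (2 * n + 1) s)) := by
  obtain ⟨P, hP, hPf⟩ := hf
  obtain ⟨Q, hQ, hQe⟩ := hP.exists_rot hq
  refine ⟨Q, hQ, fun s hs => ?_⟩
  rw [hQe, ← zptO_rotP q hs, hPf _ hs.rotP]

lemma nco_iterate {s : ℕ → ℕ} (hs : NCO N s) (k : ℕ) : NCO N ((rotP N)^[k] s) := by
  induction k with
  | zero => exact hs
  | succ k ih =>
    rw [Function.iterate_succ_apply']
    exact ih.rotP

lemma Rep.comp_iterate (hq : q ^ 2 + q + 1 = 0) {f : (ℕ → ℕ) → ℂ} (hf : Rep q n f) (k : ℕ) :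
    Rep q n (fun s => f ((rotP (2 * n + 1))^[k] s)) := by
  induction k with
  | zero => exact hf
  | succ k ih =>
    have := ih.comp_rotP hq
    simpa only [Function.iterate_succ_apply] using this

lemma iterate_mul {s : ℕ → ℕ} (hs : NCO N s) (k : ℕ) : (rotP N)^[N * k] s = s := by
  induction k with
  | zero => rfl
  | succ k ih =>
    rw [Nat.mul_succ, Function.iterate_add_apply, rotO_iterate hs, ih]

lemma iterate_inj (k : ℕ) : ∀ {s s' : ℕ → ℕ}, NCO N s → NCO N s' →
    (rotP N)^[k] s = (rotP N)^[k] s' → s = s' := by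
  induction k with
  | zero => exact fun _ _ h => h
  | succ k ih =>
    intro s s' hs hs' h
    rw [Function.iterate_succ_apply', Function.iterate_succ_apply'] at h
    exact ih hs hs' (rotP_injO (nco_iterate hs k) (nco_iterate hs' k) h)

/-- rotations can be inverted by rotations -/
lemma exists_inv {s₀ : ℕ → ℕ} (h₀ : NCO (2 * n + 1) s₀) (k : ℕ) :
    ∃ j, ∀ s, NCO (2 * n + 1) s →
      (s = (rotP (2 * n + 1))^[k] s₀ ↔ (rotP (2 * n + 1))^[j] s = s₀) := by
  refine ⟨k * (2 * n), fun s hs => ?_⟩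
  have e : k * (2 * n) + k = (2 * n + 1) * k := by ring
  constructor
  · intro h
    rw [h, ← Function.iterate_add_apply, e, iterate_mul h₀]
  · intro h
    refine iterate_inj (k * (2 * n)) hs (nco_iterate h₀ k) ?_
    rw [h, ← Function.iterate_add_apply, e, iterate_mul h₀]

open Classical in
lemma rep_rot (hq : q ^ 2 + q + 1 = 0) {s₀ : ℕ → ℕ} (h₀ : NCO (2 * n + 1) s₀)
    (h : Rep q n (fun s => if s = s₀ then 1 else 0)) (k : ℕ) :
    Rep q n (fun s => if s = (rotP (2 * n + 1))^[k] s₀ then 1 else 0) := by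
  obtain ⟨j, hj⟩ := exists_inv h₀ k
  refine (h.comp_iterate hq j).congr fun s hs => ?_
  by_cases hs' : s = (rotP (2 * n + 1))^[k] s₀
  · rw [if_pos hs', if_pos ((hj s hs).1 hs')]
  · rw [if_neg hs', if_neg (fun h => hs' ((hj s hs).2 h))]

open Classical in
lemma rep_nest (hq : q ^ 2 + q + 1 = 0) :
    Rep q n (fun s => if s = nestO n then 1 else 0) := by
  have hc := eval_minPoly_nestO hq n
  have h1 : Rep q n (fun s => eval (zptO q s) (minPoly q (2 * n + 1))) :=
    ⟨minPoly q (2 * n + 1), dw_minPoly hq _, fun s _ => rfl⟩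
  refine (h1.smul (eval (zptO q (nestO n)) (minPoly q (2 * n + 1)))⁻¹).congr fun s hs => ?_
  by_cases hss : s = nestO n
  · rw [if_pos hss, hss, inv_mul_cancel₀ hc]
  · rw [if_neg hss, eval_minPoly_of_neO hq hs hss, mul_zero]

open Classical in
lemma rep_delta (hq : q ^ 2 + q + 1 = 0) : ∀ (m : ℕ) {s : ℕ → ℕ}, NCO (2 * n + 1) s →
    (2 * n + 1) * (2 * n + 1) - totO (2 * n + 1) s = m →
      Rep q n (fun s' => if s' = s then 1 else 0) := by
  intro m
  induction m using Nat.strong_induction_on with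
  | _ m ih =>
  intro s hs hn
  rcases nested_or_valleyO hs with ⟨k, rfl⟩ | ⟨k, π, hπ, rfl, i, hi, h1, h2, h3⟩
  · exact rep_rot hq (nco_nestO n) (rep_nest hq) k
  · refine rep_rot hq hπ ?_ k
    have htot : ∀ k, totO (2 * n + 1) ((rotP (2 * n + 1))^[k] π) = totO (2 * n + 1) π := by
      intro k
      induction k with
      | zero => rfl
      | succ k ih =>
        rw [Function.iterate_succ_apply', totO_rotP (nco_iterate hπ k), ih]
    rw [htot k] at hn
    -- states of larger total length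
    have hIH : ∀ s', NCO (2 * n + 1) s' → totO (2 * n + 1) π < totO (2 * n + 1) s' →
        Rep q n (fun s'' => if s'' = s' then 1 else 0) := by
      intro s' hs' hlt
      have := totO_le (2 * n + 1) hs'
      exact ih _ (by omega) hs' rfl
    have hne : eO i π ≠ π := by
      intro h
      have h4 := OStA.eO_left i π
      rw [h] at h4
      exact OStT.valley_ne hπ (by omega) h1 h4
    have hf := (hIH (eO i π) (hπ.eO hi) (totO_lt hπ hi h1 h2 h3 (hπ.eO hi)
      (eO_idem hπ.inv i) hne)).comp_eO hq hi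
    set S : Finset (ℕ → ℕ) := (finite_nco (2 * n + 1)).toFinset.filter
      (fun s' => s' ≠ π ∧ eO i s' = eO i π) with hS
    have hrest : ∀ s' ∈ S, Rep q n (fun s'' => if s'' = s' then 1 else 0) := by
      intro s' hs'
      rw [hS, mem_filter, Set.Finite.mem_toFinset] at hs'
      obtain ⟨hnc, hne', he⟩ := hs'
      exact hIH s' hnc (totO_lt hπ hi h1 h2 h3 hnc he hne')
    refine (hf.add ((Rep.sum S hrest).smul (-1))).congr fun s' hs' => ?_
    by_cases hpp : s' = π
    · subst hpp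
      have h0 : ∑ x ∈ S, (if s' = x then (1 : ℂ) else 0) = 0 := by
        refine sum_eq_zero fun x hx => ?_
        rw [hS, mem_filter] at hx
        rw [if_neg (fun e => hx.2.1 e.symm)]
      simp [h0]
    · by_cases he : eO i s' = eO i π
      · have hmem : s' ∈ S := by
          rw [hS, mem_filter, Set.Finite.mem_toFinset]
          exact ⟨hs', hpp, he⟩
        have h0 : ∑ x ∈ S, (if s' = x then (1 : ℂ) else 0) = 1 := by
          rw [sum_ite_eq, if_pos hmem]
        rw [h0, if_pos he, if_neg hpp]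
        ring
      · have hmem : s' ∉ S := by
          rw [hS, mem_filter]
          exact fun h => he h.2.2
        have h0 : ∑ x ∈ S, (if s' = x then (1 : ℂ) else 0) = 0 := by
          rw [sum_ite_eq, if_neg hmem]
        rw [h0, if_neg he, if_neg hpp]
        ring

end DWo3

open Classical in
theorem exists_dualO {q : ℂ} (hq : q ^ 2 + q + 1 = 0) {n : ℕ} {p : ℕ → ℕ}
    (hp : NCO (2 * n + 1) p) : ∃ P, DW q (2 * n + 1) P ∧
      ∀ p', NCO (2 * n + 1) p' → eval (zptO q p') P = if p' = p then 1 else 0 :=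
  DWo3.rep_delta hq _ hp rfl

end Pool.Agent.Perc
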