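import Pool.Agent.Lib.MP_6bd702_perc3.Z2side

/-!
# A separated lifted set leaves room for a corridor

`T` is a finite set of faces which contains the four faces at the vertex `(-1, 0)`. If an integer
valued function on the faces next to `T` had the monodromy of the cut, the sum over all vertices of
the increments along the boundary of `T` would be both `0` and `-1`.
-/

set_option autoImplicit false

namespace Pool.Agent.Perc3

open Finset Pool.Agent.Perc

section stokes

variable (T : ℤ × ℤ → Prop) [DecidablePred T] (h : ℤ × ℤ → ℤ)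

/-- Contribution of a horizontal unit edge. -/
def FH (i j : ℤ) : ℤ :=
  (if T (i, j) ∧ ¬ T (i, j - 1) then h (i, j - 1) else 0) -
    (if T (i, j - 1) ∧ ¬ T (i, j) then h (i, j) else 0)

/-- Contribution of a vertical unit edge. -/
def FV (i j : ℤ) : ℤ :=
  (if T (i - 1, j) ∧ ¬ T (i, j) then h (i, j) else 0) -
    (if T (i, j) ∧ ¬ T (i - 1, j) then h (i - 1, j) else 0)

/-- The unit edge `(x, 0, false)` is a side of a face of `T`. -/
def tT (x : ℤ) : ℤ := if T (x, 0) ∨ T (x, -1) then 1 else 0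

/-- The correction at the cut. -/
def cadj (x y b : ℤ) : ℤ := if y = 0 ∧ x ≤ -1 ∧ b < 0 then 1 else 0

/-- The faces `f` and `f'` at the vertex `(x, y)` have compatible values. -/
def RelV (x y : ℤ) (f f' : ℤ × ℤ) : Prop := h f - cadj x y f.2 = h f' - cadj x y f'.2

variable {T h}

theorem vertex_sum {x y : ℤ}
    (r1 : ¬ T (x, y) → ¬ T (x - 1, y) → T (x, y - 1) → T (x - 1, y - 1) →
      RelV h x y (x, y) (x - 1, y))
    (r2 : ¬ T (x, y) → ¬ T (x, y - 1) → T (x - 1, y) → T (x - 1, y - 1) →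
      RelV h x y (x, y) (x, y - 1))
    (r3 : ¬ T (x, y) → ¬ T (x - 1, y - 1) → (T (x - 1, y) ∨ T (x, y - 1)) →
      RelV h x y (x, y) (x - 1, y - 1))
    (r4 : ¬ T (x - 1, y) → ¬ T (x, y - 1) → (T (x, y) ∨ T (x - 1, y - 1)) →
      RelV h x y (x - 1, y) (x, y - 1))
    (r5 : ¬ T (x - 1, y) → ¬ T (x - 1, y - 1) → T (x, y) → T (x, y - 1) →
      RelV h x y (x - 1, y) (x - 1, y - 1))
    (r6 : ¬ T (x, y - 1) → ¬ T (x - 1, y - 1) → T (x, y) → T (x - 1, y) →
      RelV h x y (x, y - 1) (x - 1, y - 1)) :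
    FH T h (x - 1) y - FH T h x y + FV T h x (y - 1) - FV T h x y =
      if y = 0 ∧ x ≤ -1 then tT T (x - 1) - tT T x else 0 := by
  obtain ⟨u, hu⟩ : ∃ u : ℤ, u = if y = 0 ∧ x ≤ -1 then 1 else 0 := ⟨_, rfl⟩
  obtain ⟨c1, hc1⟩ : ∃ c : ℤ, c = cadj x y y := ⟨_, rfl⟩
  obtain ⟨c2, hc2⟩ : ∃ c : ℤ, c = cadj x y (y - 1) := ⟨_, rfl⟩
  have hc3 : c2 = c1 + u := by
    rw [hc1, hc2, hu]
    unfold cadj
    split_ifs <;> omega
  have e2 : (if y = 0 ∧ x ≤ -1 then tT T (x - 1) - tT T x else 0) =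
      u * ((if T (x - 1, y) ∨ T (x - 1, y - 1) then 1 else 0) -
        (if T (x, y) ∨ T (x, y - 1) then 1 else 0)) := by
    by_cases hy : y = 0 ∧ x ≤ -1
    · obtain ⟨rfl, hx⟩ := hy
      rw [hu, if_pos ⟨rfl, hx⟩, if_pos ⟨rfl, hx⟩, one_mul]
      unfold tT
      rw [zero_sub]
    · rw [hu, if_neg hy, if_neg hy, zero_mul]
  rw [e2]
  unfold RelV at *
  simp only [← hc1, ← hc2] at r1 r2 r3 r4 r5 r6
  clear e2 hu hc1 hc2
  unfold FH FV
  by_cases a : T (x, y) <;> by_cases b : T (x - 1, y) <;> by_cases c : T (x, y - 1) <;>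
    by_cases d : T (x - 1, y - 1) <;>
    simp [a, b, c, d] at r1 r2 r3 r4 r5 r6 ⊢ <;> omega

theorem sum_Ico_tel {a b : ℤ} (hab : a ≤ b) (g : ℤ → ℤ) :
    ∑ i ∈ Ico a b, (g (i - 1) - g i) = g (a - 1) - g (b - 1) := by
  induction b, hab using Int.leInduction with
  | base => simp
  | succ b hb ih =>
    rw [show Ico a (b + 1) = insert b (Ico a b) by ext i; simp only [mem_Ico, mem_insert]; omega,
      sum_insert (by simp), ih, add_sub_cancel_right]
    ring

/-- Stokes: the sum over all vertices vanishes. -/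
theorem total_sum {M : ℤ} (hM : 0 ≤ M) (hT : ∀ f, T f → -M < f.1 ∧ f.1 < M ∧ -M < f.2 ∧ f.2 < M) :
    ∑ y ∈ Ico (-M) (M + 1), ∑ x ∈ Ico (-M) (M + 1),
      (FH T h (x - 1) y - FH T h x y + FV T h x (y - 1) - FV T h x y) = 0 := by
  have h1 : ∀ y ∈ Ico (-M) (M + 1), ∑ x ∈ Ico (-M) (M + 1),
      (FH T h (x - 1) y - FH T h x y + FV T h x (y - 1) - FV T h x y) =
      ∑ x ∈ Ico (-M) (M + 1), (FV T h x (y - 1) - FV T h x y) := by
    intro y _
    have e : ∑ x ∈ Ico (-M) (M + 1), (FH T h (x - 1) y - FH T h x y) = 0 := by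
      rw [sum_Ico_tel (by omega) fun x => FH T h x y]
      have z1 : FH T h (-M - 1) y = 0 := by
        unfold FH
        rw [if_neg (fun hc => by have := hT _ hc.1; simp only at this; omega),
          if_neg (fun hc => by have := hT _ hc.1; simp only at this; omega)]
        rfl
      have z2 : FH T h (M + 1 - 1) y = 0 := by
        unfold FH
        rw [if_neg (fun hc => by have := hT _ hc.1; simp only at this; omega),
          if_neg (fun hc => by have := hT _ hc.1; simp only at this; omega)]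
        rfl
      rw [z1, z2]
      rfl
    calc ∑ x ∈ Ico (-M) (M + 1),
          (FH T h (x - 1) y - FH T h x y + FV T h x (y - 1) - FV T h x y)
        = ∑ x ∈ Ico (-M) (M + 1), ((FH T h (x - 1) y - FH T h x y) +
            (FV T h x (y - 1) - FV T h x y)) := by
          refine sum_congr rfl fun x _ => ?_
          ring
      _ = _ := by rw [sum_add_distrib, e, zero_add]
  rw [sum_congr rfl h1, sum_comm]
  refine sum_eq_zero fun x _ => ?_
  rw [sum_Ico_tel (by omega) fun y => FV T h x y]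
  have z1 : FV T h x (-M - 1) = 0 := by
    unfold FV
    rw [if_neg (fun hc => by have := hT _ hc.1; simp only at this; omega),
      if_neg (fun hc => by have := hT _ hc.1; simp only at this; omega)]
    rfl
  have z2 : FV T h x (M + 1 - 1) = 0 := by
    unfold FV
    rw [if_neg (fun hc => by have := hT _ hc.1; simp only at this; omega),
      if_neg (fun hc => by have := hT _ hc.1; simp only at this; omega)]
    rfl
  rw [z1, z2]
  rfl

/-- The value of the sum given by the monodromy. -/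
theorem cut_sum {M : ℤ} (hM : 1 < M) (hT : ∀ f, T f → -M < f.1 ∧ f.1 < M ∧ -M < f.2 ∧ f.2 < M)
    (h0 : T (-1, 0)) :
    ∑ y ∈ Ico (-M) (M + 1), ∑ x ∈ Ico (-M) (M + 1),
      (if y = 0 ∧ x ≤ -1 then tT T (x - 1) - tT T x else 0) = -1 := by
  rw [sum_eq_single_of_mem (0 : ℤ) (by rw [mem_Ico]; omega)]
  · have e : ∑ x ∈ Ico (-M) (M + 1), (if (0 : ℤ) = 0 ∧ x ≤ -1 then tT T (x - 1) - tT T x else 0) =
        ∑ x ∈ Ico (-M) 0, (tT T (x - 1) - tT T x) := by
      rw [← sum_filter]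
      refine sum_congr ?_ fun _ _ => rfl
      ext x
      rw [mem_filter, mem_Ico, mem_Ico]
      constructor
      · rintro ⟨h1, h2⟩
        omega
      · intro h1
        exact ⟨by omega, rfl, by omega⟩
    rw [e, sum_Ico_tel (by omega) fun x => tT T x]
    have z1 : tT T (-M - 1) = 0 := by
      unfold tT
      rw [if_neg]
      rintro (hc | hc)
      · have := hT _ hc
        simp only at this
        omega
      · have := hT _ hc
        simp only at this
        omega
    have z2 : tT T (0 - 1) = 1 := by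
      unfold tT
      rw [zero_sub, if_pos (Or.inl h0)]
    rw [z1, z2]
    rfl
  · intro y _ hy
    refine sum_eq_zero fun x _ => ?_
    rw [if_neg (fun hc => hy hc.1)]

/-- The faces at the vertex `(x, y)`. -/
def FaceAt (x y : ℤ) (f : ℤ × ℤ) : Prop := (f.1 = x ∨ f.1 = x - 1) ∧ (f.2 = y ∨ f.2 = y - 1)

/-- Two faces have a common side. -/
def Adj4 (f g : ℤ × ℤ) : Prop :=
  (f.2 = g.2 ∧ (g.1 = f.1 + 1 ∨ f.1 = g.1 + 1)) ∨ (f.1 = g.1 ∧ (g.2 = f.2 + 1 ∨ f.2 = g.2 + 1))

theorem Adj4.symm {f g : ℤ × ℤ} (h : Adj4 f g) : Adj4 g f := by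
  unfold Adj4 at *
  omega

/-- There is no function with the monodromy of the cut on the faces next to a finite set of faces
which contains the four faces at `(-1, 0)`. -/
theorem no_function {M : ℤ} (hM : 1 < M)
    (hT : ∀ f, T f → -M < f.1 ∧ f.1 < M ∧ -M < f.2 ∧ f.2 < M)
    (h1 : T (-1, 0)) (h2 : T (-2, 0)) (h3 : T (-1, -1)) (h4 : T (-2, -1))
    (hrel : ∀ x y : ℤ, (x, y) ≠ (-1, 0) → ∀ f f' g g' : ℤ × ℤ, FaceAt x y f → FaceAt x y f' →
      ¬ T f → ¬ T f' → T g → T g' → Adj4 f g → Adj4 f' g' → RelV h x y f f') : False := by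
  have key := total_sum (T := T) (h := h) (by omega) hT
  have e : ∀ x y : ℤ, FH T h (x - 1) y - FH T h x y + FV T h x (y - 1) - FV T h x y =
      if y = 0 ∧ x ≤ -1 then tT T (x - 1) - tT T x else 0 := by
    intro x y
    by_cases hv : (x, y) = (-1, 0)
    · simp only [Prod.mk.injEq] at hv
      obtain ⟨rfl, rfl⟩ := hv
      apply vertex_sum
      · intro ha; exact absurd h1 ha
      · intro ha; exact absurd h1 ha
      · intro ha; exact absurd h1 ha
      · intro ha; exact absurd h2 ha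
      · intro ha; exact absurd h2 ha
      · intro ha; exact absurd h3 ha
    · have r := hrel x y hv
      apply vertex_sum
      · intro ha hb hc hd
        exact r _ _ _ _ (by unfold FaceAt; simp) (by unfold FaceAt; simp) ha hb hc hd
          (by unfold Adj4; simp) (by unfold Adj4; simp)
      · intro ha hb hc hd
        exact r _ _ _ _ (by unfold FaceAt; simp) (by unfold FaceAt; simp) ha hb hc hd
          (by unfold Adj4; simp) (by unfold Adj4; simp)
      · rintro ha hb (hc | hc)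
        · exact r _ _ _ _ (by unfold FaceAt; simp) (by unfold FaceAt; simp) ha hb hc hc
            (by unfold Adj4; simp) (by unfold Adj4; simp)
        · exact r _ _ _ _ (by unfold FaceAt; simp) (by unfold FaceAt; simp) ha hb hc hc
            (by unfold Adj4; simp) (by unfold Adj4; simp)
      · rintro ha hb (hc | hc)
        · exact r _ _ _ _ (by unfold FaceAt; simp) (by unfold FaceAt; simp) ha hb hc hc
            (by unfold Adj4; simp) (by unfold Adj4; simp)
        · exact r _ _ _ _ (by unfold FaceAt; simp) (by unfold FaceAt; simp) ha hb hc hc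
            (by unfold Adj4; simp) (by unfold Adj4; simp)
      · intro ha hb hc hd
        exact r _ _ _ _ (by unfold FaceAt; simp) (by unfold FaceAt; simp) ha hb hc hd
          (by unfold Adj4; simp) (by unfold Adj4; simp)
      · intro ha hb hc hd
        exact r _ _ _ _ (by unfold FaceAt; simp) (by unfold FaceAt; simp) ha hb hc hd
          (by unfold Adj4; simp) (by unfold Adj4; simp)
  have h5 := cut_sum (T := T) hM hT h1
  have h6 : ∑ y ∈ Ico (-M) (M + 1), ∑ x ∈ Ico (-M) (M + 1),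
      (FH T h (x - 1) y - FH T h x y + FV T h x (y - 1) - FV T h x y) =
      ∑ y ∈ Ico (-M) (M + 1), ∑ x ∈ Ico (-M) (M + 1),
      (if y = 0 ∧ x ≤ -1 then tT T (x - 1) - tT T x else 0) :=
    sum_congr rfl fun y _ => sum_congr rfl fun x _ => e x y
  rw [key, h5] at h6
  exact absurd h6 (by norm_num)

end stokes

/-! ### The corridor -/

/-- `1` for the lower faces on the negative side, `0` otherwise. -/
def lv (x y : ℤ) : ℤ := if x < 0 ∧ y < 0 then 1 else 0

/-- Two lifted faces of `S` at distance at most `D` are close to each other in the cover. -/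
def Sep (D : ℤ) (S : Set LF) : Prop :=
  ∀ s ∈ S, ∀ s' ∈ S, |s.1.1 - s'.1.1| ≤ D → |s.1.2 - s'.1.2| ≤ D →
    s'.2 - lv s.1.1 s'.1.2 = s.2 - lv s.1.1 s.1.2

/-- The face `f` is at distance more than `ρ` from `S`. -/
def FreeF (ρ : ℤ) (S : Set LF) (f : ℤ × ℤ) : Prop :=
  ∀ s ∈ S, ρ < max |f.1 - s.1.1| |f.2 - s.1.2|

/-- Chains of neighbouring free faces. -/
def ChainF (ρ : ℤ) (S : Set LF) : ℤ × ℤ → ℤ × ℤ → Prop :=
  Relation.ReflTransGen fun f g => Adj4 f g ∧ FreeF ρ S f ∧ FreeF ρ S g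

theorem rel_aux {ρ d x y a b a' b' p q i p' q' i' : ℤ} (hρ : 0 ≤ ρ) (hd : 2 * ρ + 3 < d)
    (hf : (a = x ∨ a = x - 1) ∧ (b = y ∨ b = y - 1))
    (hf' : (a' = x ∨ a' = x - 1) ∧ (b' = y ∨ b' = y - 1))
    (o : ¬ (-d ≤ p ∧ p < d ∧ -d ≤ q ∧ q < d))
    (h1 : -ρ ≤ a - p ∧ a - p ≤ ρ) (h2 : -ρ ≤ b - q ∧ b - q ≤ ρ)
    (h3 : -ρ ≤ a' - p' ∧ a' - p' ≤ ρ) (h4 : -ρ ≤ b' - q' ∧ b' - q' ≤ ρ)
    (o' : ¬ (-d ≤ p' ∧ p' < d ∧ -d ≤ q' ∧ q' < d))
    (hs : i' - lv p q' = i - lv p q) :
    i - lv p q + lv p b - cadj x y b = i' - lv p' q' + lv p' b' - cadj x y b' := by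
  have key : lv p' b' = lv p b' ∧ lv p' q' = lv p q' ∨
      (lv p' b' = lv p' q' ∧ lv p b' = lv p q' ∧ lv p b = lv p q ∧ b < 0 ∧ b' < 0) ∨
      (lv p' b' = 0 ∧ lv p' q' = 0 ∧ lv p b' = 0 ∧ lv p q' = 0 ∧ 0 ≤ b ∧ 0 ≤ b') := by
    by_cases hq : 0 ≤ b ∧ 0 ≤ b' ∧ 0 ≤ q ∧ 0 ≤ q'
    · right; right
      unfold lv
      refine ⟨if_neg (by omega), if_neg (by omega), if_neg (by omega), if_neg (by omega), hq.1,
        hq.2.1⟩
    · by_cases hq2 : b < 0 ∧ b' < 0 ∧ q < 0 ∧ q' < 0
      · right; left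
        unfold lv
        refine ⟨?_, ?_, ?_, hq2.1, hq2.2.1⟩ <;> split_ifs <;> omega
      · left
        have hpp : p < 0 ↔ p' < 0 := by omega
        unfold lv
        simp only [hpp]
        exact ⟨trivial, trivial⟩
  have hc : (lv p b - cadj x y b) = (lv p b' - cadj x y b') ∨ (b < 0 ∧ b' < 0) ∨
      (0 ≤ b ∧ 0 ≤ b') := by
    by_cases hb : (b < 0 ∧ b' < 0) ∨ (0 ≤ b ∧ 0 ≤ b')
    · exact Or.inr hb
    · left
      have hy : y = 0 := by omega
      unfold lv cadj
      by_cases hp : p < 0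
      · have hx : x ≤ -1 := by omega
        split_ifs <;> omega
      · have hx : ¬ x ≤ -1 := by omega
        split_ifs <;> omega
  have hc2 : b < 0 ∧ b' < 0 → cadj x y b = cadj x y b' := by
    intro h
    unfold cadj
    split_ifs <;> omega
  have hc3 : 0 ≤ b ∧ 0 ≤ b' → cadj x y b = cadj x y b' := by
    intro h
    unfold cadj
    split_ifs <;> omega
  have hl2 : b < 0 ∧ b' < 0 → lv p b = lv p b' := by
    intro h
    unfold lv
    split_ifs <;> omega
  have hl3 : 0 ≤ b ∧ 0 ≤ b' → lv p b = lv p b' := by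
    intro h
    unfold lv
    split_ifs <;> omega
  have hl4 : 0 ≤ b → lv p b = 0 := by
    intro h
    unfold lv
    exact if_neg (by omega)
  omega

/-- A separated set leaves room for a corridor. -/
theorem exists_corridor {S : Set LF} {L w d ρ : ℤ} (hρ : 0 ≤ ρ) (hd : 2 * ρ + 3 < d)
    (hS : ∀ s ∈ S, ¬ (-d ≤ s.1.1 ∧ s.1.1 < d ∧ -d ≤ s.1.2 ∧ s.1.2 < d))
    (hSep : Sep (2 * ρ + 1) S) :
    ∃ f, ¬ (-L ≤ f.1 ∧ f.1 < L ∧ -w ≤ f.2 ∧ f.2 < w) ∧ ChainF ρ S (-1, 0) f := by
  classical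
  by_contra hcon
  have hin : ∀ f, ChainF ρ S (-1, 0) f → -L ≤ f.1 ∧ f.1 < L ∧ -w ≤ f.2 ∧ f.2 < w := by
    intro f hf
    by_contra hc
    exact hcon ⟨f, hc, hf⟩
  -- faces near the centre are free
  have hfree : ∀ f : ℤ × ℤ, -2 ≤ f.1 → f.1 ≤ 0 → -2 ≤ f.2 → f.2 ≤ 0 → FreeF ρ S f := by
    intro f h1 h2 h3 h4 s hs
    have h5 := hS s hs
    rw [lt_max_iff, lt_abs, lt_abs]
    omega
  let T : ℤ × ℤ → Prop := fun f => ChainF ρ S (-1, 0) f
  have t1 : T (-1, 0) := Relation.ReflTransGen.refl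
  have t2 : T (-2, 0) := Relation.ReflTransGen.single
    ⟨by unfold Adj4; simp, hfree _ (by norm_num) (by norm_num) (by norm_num) (by norm_num),
      hfree _ (by norm_num) (by norm_num) (by norm_num) (by norm_num)⟩
  have t3 : T (-1, -1) := Relation.ReflTransGen.single
    ⟨by unfold Adj4; simp, hfree _ (by norm_num) (by norm_num) (by norm_num) (by norm_num),
      hfree _ (by norm_num) (by norm_num) (by norm_num) (by norm_num)⟩
  have t4 : T (-2, -1) := Relation.ReflTransGen.tail t2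
    ⟨by unfold Adj4; simp, hfree _ (by norm_num) (by norm_num) (by norm_num) (by norm_num),
      hfree _ (by norm_num) (by norm_num) (by norm_num) (by norm_num)⟩
  have hTfree : ∀ f, T f → FreeF ρ S f := by
    intro f hf
    induction hf with
    | refl => exact hfree _ (by norm_num) (by norm_num) (by norm_num) (by norm_num)
    | tail _ hs _ => exact hs.2.2
  -- the neighbours of `T` are close to `S`
  have hnear : ∀ f g, ¬ T f → T g → Adj4 f g → ∃ s ∈ S, |f.1 - s.1.1| ≤ ρ ∧ |f.2 - s.1.2| ≤ ρ := by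
    intro f g hf hg ha
    by_contra hc
    apply hf
    refine Relation.ReflTransGen.tail hg ⟨ha.symm, hTfree g hg, ?_⟩
    intro s hs
    rw [lt_max_iff]
    by_contra h
    rw [not_or, not_lt, not_lt] at h
    exact hc ⟨s, hs, h⟩
  let Q : ℤ × ℤ → LF → Prop := fun f s => s ∈ S ∧ |f.1 - s.1.1| ≤ ρ ∧ |f.2 - s.1.2| ≤ ρ
  let h : ℤ × ℤ → ℤ := fun f => if hf : ∃ s, Q f s then
    (Classical.choose hf).2 - lv (Classical.choose hf).1.1 (Classical.choose hf).1.2 +
      lv (Classical.choose hf).1.1 f.2 else 0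
  have hspec : ∀ f g, ¬ T f → T g → Adj4 f g → ∃ s, Q f s ∧
      h f = s.2 - lv s.1.1 s.1.2 + lv s.1.1 f.2 := by
    intro f g hf hg ha
    obtain ⟨s, hs, h1, h2⟩ := hnear f g hf hg ha
    have hf' : ∃ s, Q f s := ⟨s, hs, h1, h2⟩
    refine ⟨Classical.choose hf', Classical.choose_spec hf', ?_⟩
    simp only [h]
    rw [dif_pos hf']
  refine no_function (T := T) (h := h) (M := |L| + |w| + 2) ?_ ?_ t1 t2 t3 t4 ?_
  · have h1 := abs_nonneg L
    have h2 := abs_nonneg w
    omega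
  · intro f hf
    have h1 := hin f hf
    have h2 := le_abs_self L
    have h3 := le_abs_self w
    have h4 := abs_nonneg L
    have h5 := abs_nonneg w
    omega
  · intro x y hv f f' g g' hf hf' hTf hTf' hg hg' ha ha'
    obtain ⟨s, ⟨hs, hs1, hs2⟩, e⟩ := hspec f g hTf hg ha
    obtain ⟨s', ⟨hs', hs1', hs2'⟩, e'⟩ := hspec f' g' hTf' hg' ha'
    unfold FaceAt at hf hf'
    have o := hS s hs
    rw [abs_le] at hs1 hs2 hs1' hs2'
    have hsep := hSep s hs s' hs' (by rw [abs_le]; omega) (by rw [abs_le]; omega)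
    unfold RelV
    rw [e, e']
    exact rel_aux hρ hd hf hf' o hs1 hs2 hs1' hs2' (hS s' hs') hsep

end Pool.Agent.Perc3
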