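import Pool.Agent.Lib.MP_6bd702_perc3.STDefs

/-!
# The sum of the components for odd circumference (task FSumO)

Model: perq/FSumA.lean.
-/

set_option autoImplicit false

namespace Pool.Agent.Perc

open Finset MvPolynomial

variable {q : ℂ}

namespace FSumO

variable {m : ℕ}

/-- The sum of the coefficients. -/
noncomputable def tot : ((ℕ → ℕ) →₀ ℂ) →ₗ[ℂ] ℂ :=
  Finsupp.linearCombination ℂ (fun _ : ℕ → ℕ => (1 : ℂ))

theorem tot_single (s : ℕ → ℕ) (c : ℂ) : tot (Finsupp.single s c) = c := by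
  rw [tot, Finsupp.linearCombination_single, smul_eq_mul, mul_one]

theorem tot_mapDomain (f : (ℕ → ℕ) →₀ ℂ) (g : (ℕ → ℕ) → ℕ → ℕ) : tot (f.mapDomain g) = tot f := by
  rw [tot, Finsupp.linearCombination_mapDomain]
  rfl

theorem eval_FO_tot (q : ℂ) (m : ℕ) (z : ℕ → ℂ) : eval z (FO q m) = tot (PsiOV q m z) := by
  rw [FO, map_sum, PsiOV, map_sum]
  exact Finset.sum_congr rfl fun s _ => (tot_single s _).symm

theorem degreeOf_FO_le {k n : ℕ} (h : ∀ s, (PsiO q m s).degreeOf k ≤ n) :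
    (FO q m).degreeOf k ≤ n := by
  rw [FO]
  exact (degreeOf_sum_le k _ _).trans (Finset.sup_le fun s _ => h s)

theorem exch (hq : q ^ 2 + q + 1 = 0) {i : ℕ} (hi : i + 1 < 2 * m + 1) (z : ℕ → ℂ) :
    (q * z (i + 1) - q ^ 2 * z i) * (eval (swapV i z) (FO q m) - eval z (FO q m)) = 0 := by
  have h := congrArg tot (exchangeO hq hi z)
  rw [map_smul, map_add, map_smul, map_smul, tot_mapDomain, smul_eq_mul, smul_eq_mul,
    smul_eq_mul, ← eval_FO_tot, ← eval_FO_tot] at h
  have e : q * z i - q ^ 2 * z (i + 1) + (z i - z (i + 1)) = q * z (i + 1) - q ^ 2 * z i := by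
    linear_combination (z i - z (i + 1)) * hq
  rw [mul_sub, h, ← add_mul, e, sub_self]

theorem q_ne (hq : q ^ 2 + q + 1 = 0) : q ≠ 0 := by
  rintro rfl
  norm_num at hq

theorem symm (hq : q ^ 2 + q + 1 = 0) {i : ℕ} (hi : i + 1 < 2 * m + 1) (z : ℕ → ℂ) :
    eval (swapV i z) (FO q m) = eval z (FO q m) := by
  have key : ∀ w : ℕ → ℂ, eval (swapV i w) (FO q m) =
      eval w (rename (Equiv.swap i (i + 1)) (FO q m)) := by
    intro w
    rw [eval_rename]
    rfl
  have hp : (C q * X (i + 1) - C (q ^ 2) * X i) *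
      (rename (Equiv.swap i (i + 1)) (FO q m) - FO q m) = 0 := by
    refine MvPolynomial.funext fun w => ?_
    have h := exch (m := m) hq hi w
    rw [key] at h
    rw [map_mul, map_sub, map_sub, map_mul, map_mul, eval_C, eval_C, eval_X, eval_X, map_zero]
    exact h
  have hne : (C q * X (i + 1) - C (q ^ 2) * X i : MvPolynomial ℕ ℂ) ≠ 0 := by
    intro h0
    have h1 := congrArg (eval fun k => if k = i then (1 : ℂ) else 0) h0
    rw [map_sub, map_mul, map_mul, eval_C, eval_C, eval_X, eval_X, map_zero, if_pos rfl,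
      if_neg (by omega : ¬ i + 1 = i), mul_zero, zero_sub, mul_one, neg_eq_zero] at h1
    exact pow_ne_zero 2 (q_ne hq) h1
  have h2 := sub_eq_zero.1 ((mul_eq_zero.1 hp).resolve_left hne)
  rw [key, h2]

end FSumO

theorem recO_FO (hq : q ^ 2 + q + 1 = 0) : RecO q (fun m => 1 / (-3 * (9 * q) ^ m)) (FO q) where
  deg m := FSumO.degreeOf_FO_le fun s => degreeOf_PsiO_le hq (m + 1) s 0
  symm m i hi z := FSumO.symm hq (by omega) z
  ins m v z _ := by
    rw [FSumO.eval_FO_tot, PsiOV_insV hq m (Nat.zero_le _) v z, map_smul, FSumO.tot_mapDomain,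
      ← FSumO.eval_FO_tot, smul_eq_mul]
    ring

theorem eval_FO_zero (hq : q ^ 2 + q + 1 = 0) (z : ℕ → ℂ) : eval z (FO q 0) = 1 := by
  rw [FSumO.eval_FO_tot, PsiOV_zero hq z, FSumO.tot_single]

end Pool.Agent.Perc
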