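import Pool.Agent.Lib.MP_6bd702_perc3.TwChart
import Pool.Agent.Lib.MP_6bd702_perc3.CellDefs

/-!
# Cells and tubes in the twisted plane

The cell `(i, j)` of the mesh `w` is the square `[i w, (i + 1) w] × [j w, (j + 1) w]` in the chart
`0` for `i ≥ 0` and in the chart `1` for `i < 0`. The tube event of a finite set of cells consists
of crossings of the cells and of the unions of two adjacent cells.
-/

set_option autoImplicit false

namespace Pool.Agent.Perc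

open Finset

/-- The faces of a cell in its chart. -/
noncomputable def sqF (w : ℤ) (g : ℤ × ℤ) : Finset (ℤ × ℤ) :=
  RF (g.1 * w) (g.1 * w + w) (g.2 * w) (g.2 * w + w)

/-- The faces of a cell. -/
noncomputable def cellF (w : ℤ) (g : ℤ × ℤ) : Finset (ℤ × ℤ) := (sqF w g).image (chF (chS g))

/-- The vertex `v` belongs to the closed cell `g`. -/
def InCell (w : ℤ) (g v : ℤ × ℤ) : Prop :=
  g.2 * w ≤ v.2 ∧ v.2 ≤ g.2 * w + w ∧
    ((0 ≤ v.2 ∧ g.1 * w ≤ v.1 ∧ v.1 ≤ g.1 * w + w) ∨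
      (v.2 < 0 ∧ g.1 * w + chS g ≤ v.1 ∧ v.1 ≤ g.1 * w + w + chS g))

/-- The parity of a vertex in the chart `s`. -/
def parV (s : ℤ) (v : ℤ × ℤ) : ℤ := if 0 ≤ v.2 then v.1 + v.2 else v.1 - s + v.2

variable {w c s : ℤ} {ω ω' : Cfg} {G G' : Finset (ℤ × ℤ)} {F : Set (ℤ × ℤ)} {f g g' u v : ℤ × ℤ}

theorem chS_cases (g : ℤ × ℤ) : (g.1 < 0 ∧ chS g = 1) ∨ (0 ≤ g.1 ∧ chS g = 0) := by
  unfold chS
  split_ifs <;> omega

theorem mem_cellF : f ∈ cellF w g ↔ g.2 * w ≤ f.2 ∧ f.2 < g.2 * w + w ∧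
    ((0 ≤ f.2 ∧ g.1 * w ≤ f.1 ∧ f.1 < g.1 * w + w) ∨
      (f.2 < 0 ∧ g.1 * w + chS g ≤ f.1 ∧ f.1 < g.1 * w + w + chS g)) := by
  unfold cellF sqF
  rw [mem_image]
  constructor
  · rintro ⟨a, ha, rfl⟩
    rw [mem_RFi] at ha
    rcases lt_or_ge a.2 0 with h | h
    · rw [chF_low h]
      simp only
      omega
    · rw [chF_up h]
      omega
  · rintro ⟨h1, h2, ⟨h3, h4⟩ | ⟨h3, h4⟩⟩
    · exact ⟨f, mem_RFi.2 (by omega), chF_up h3⟩
    · refine ⟨(f.1 - chS g, f.2), mem_RFi.2 ?_, ?_⟩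
      · simp only
        omega
      · rw [chF_low (f := (f.1 - chS g, f.2)) h3]
        simp

theorem chF_mem_cellF (h : f ∈ sqF w g) : chF (chS g) f ∈ cellF w g := mem_image_of_mem _ h

theorem inCell_chF (h1 : g.2 * w ≤ u.2) (h2 : u.2 ≤ g.2 * w + w) (h3 : g.1 * w ≤ u.1)
    (h4 : u.1 ≤ g.1 * w + w) : InCell w g (chF (chS g) u) := by
  unfold InCell
  rcases lt_or_ge u.2 0 with h | h
  · rw [chF_low h]
    simp only
    omega
  · rw [chF_up h]
    omega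

theorem parV_chF : parV s (chF s u) = u.1 + u.2 := by
  unfold parV
  rcases lt_or_ge u.2 0 with h | h
  · rw [chF_low h, if_neg (by simp only; omega)]
    simp only
    omega
  · rw [chF_up h, if_pos h]

theorem mul_lt_of_lt {a b w : ℤ} (hw : 0 < w) (h : a < b) : a * w + w ≤ b * w := by
  have h1 : (a + 1) * w ≤ b * w := mul_le_mul_of_nonneg_right (by omega) hw.le
  rw [add_mul, one_mul] at h1
  exact h1

theorem eq_of_mem_cell {a b w x : ℤ} (hw : 0 < w) (h1 : a * w ≤ x) (h2 : x < a * w + w)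
    (h3 : b * w ≤ x) (h4 : x < b * w + w) : a = b := by
  rcases lt_trichotomy a b with h | h | h
  · have := mul_lt_of_lt hw h
    omega
  · exact h
  · have := mul_lt_of_lt hw h
    omega

/-- Different cells have no common face. -/
theorem cell_unique (hw : 2 ≤ w) (hg : CellOk g) (hg' : CellOk g') (h : f ∈ cellF w g)
    (h' : f ∈ cellF w g') : g = g' := by
  rw [mem_cellF] at h h'
  obtain ⟨h1, h2, h3⟩ := h
  obtain ⟨k1, k2, k3⟩ := h'
  have e2 : g.2 = g'.2 := eq_of_mem_cell (by omega) h1 h2 k1 k2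
  refine Prod.ext ?_ e2
  rcases h3 with ⟨h3, h4, h5⟩ | ⟨h3, h4, h5⟩ <;> rcases k3 with ⟨k3, k4, k5⟩ | ⟨k3, k4, k5⟩
  · exact eq_of_mem_cell (by omega) h4 h5 k4 k5
  · omega
  · omega
  · have hneg : g.2 < 0 := by
      by_contra hn
      have : 0 ≤ g.2 * w := mul_nonneg (by omega) (by omega)
      omega
    unfold CellOk at hg hg'
    rcases chS_cases g with ⟨a1, a2⟩ | ⟨a1, a2⟩ <;> rcases chS_cases g' with ⟨b1, b2⟩ | ⟨b1, b2⟩
    · rw [a2] at h4 h5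
      rw [b2] at k4 k5
      exact eq_of_mem_cell (x := f.1 - 1) (w := w) (by omega) (by omega) (by omega) (by omega)
        (by omega)
    · exfalso
      have hb : 0 < g'.1 := by omega
      have c1 := mul_lt_of_lt (w := w) (by omega) a1
      have c2 := mul_lt_of_lt (w := w) (by omega) hb
      rw [zero_mul] at c1 c2
      omega
    · exfalso
      have hb : 0 < g.1 := by omega
      have c1 := mul_lt_of_lt (w := w) (by omega) b1
      have c2 := mul_lt_of_lt (w := w) (by omega) hb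
      rw [zero_mul] at c1 c2
      omega
    · rw [a2] at h4 h5
      rw [b2] at k4 k5
      exact eq_of_mem_cell (x := f.1) (w := w) (by omega) (by omega) (by omega) (by omega)
        (by omega)

/-! ### The events -/

/-- The rectangles of a cell: the cell (two crossings), the union with the right neighbour and the
union with the upper neighbour. -/
noncomputable def tR (w : ℤ) (g : ℤ × ℤ) (k : Fin 4) : Finset (ℤ × ℤ) :=
  ![sqF w g, sqF w g, RF (g.1 * w) (g.1 * w + 2 * w) (g.2 * w) (g.2 * w + w),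
    RF (g.1 * w) (g.1 * w + w) (g.2 * w) (g.2 * w + 2 * w)] k

/-- The crossings. -/
def tA (w c : ℤ) (g : ℤ × ℤ) (k : Fin 4) : Set Cfg :=
  ![LR c (g.1 * w) (g.1 * w + w) (g.2 * w) (g.2 * w + w),
    BT c (g.1 * w) (g.1 * w + w) (g.2 * w) (g.2 * w + w),
    LR c (g.1 * w) (g.1 * w + 2 * w) (g.2 * w) (g.2 * w + w),
    BT c (g.1 * w) (g.1 * w + w) (g.2 * w) (g.2 * w + 2 * w)] k

/-- The crossing `k` is required. -/
def tQ (G : Finset (ℤ × ℤ)) (g : ℤ × ℤ) (k : Fin 4) : Prop :=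
  (k = 2 → (g.1 + 1, g.2) ∈ G) ∧ (k = 3 → (g.1, g.2 + 1) ∈ G)

/-- The tube event of the colour `c` of a set of cells. -/
def Tub (w c : ℤ) (G : Finset (ℤ × ℤ)) : Set Cfg :=
  {ω | ∀ g ∈ G, ∀ k, tQ G g k → chC (chS g) ω ∈ tA w c g k}

/-- The order for which the tube events of colour `c` are increasing. -/
def colD (c : ℤ) (f : ℤ × ℤ) : Bool :=
  if f.2 < 0 ∧ f.1 ≤ 0 then parD c (f.1 - 1, f.2) else parD c f

theorem depOn_tA (w c : ℤ) (g : ℤ × ℤ) (k : Fin 4) : DepOn (tR w g k) (tA w c g k) := by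
  fin_cases k
  · exact depOn_LR _ _ _ _ _
  · exact depOn_BT _ _ _ _ _
  · exact depOn_LR _ _ _ _ _
  · exact depOn_BT _ _ _ _ _

theorem incD_tA (w c : ℤ) (g : ℤ × ℤ) (k : Fin 4) : IncD (parD c) (tA w c g k) := by
  fin_cases k
  · exact incD_LR _ _ _ _ _
  · exact incD_BT' _ _ _ _ _
  · exact incD_LR _ _ _ _ _
  · exact incD_BT' _ _ _ _ _

/-- The faces of the rectangles belong to the cells of `G`. -/
theorem tR_sub (hg : g ∈ G) {k : Fin 4} (hk : tQ G g k) (hG : ∀ g ∈ G, CellOk g)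
    (hf : f ∈ tR w g k) : ∃ g' ∈ G, (g' = g ∨ (k = 2 ∧ g' = (g.1 + 1, g.2)) ∨
      (k = 3 ∧ g' = (g.1, g.2 + 1))) ∧ chF (chS g) f ∈ cellF w g' := by
  by_cases h0 : f ∈ sqF w g
  · exact ⟨g, hg, Or.inl rfl, chF_mem_cellF h0⟩
  · obtain ⟨hk2, hk3⟩ := hk
    have hh : (k = 2 ∧ f ∈ RF (g.1 * w) (g.1 * w + 2 * w) (g.2 * w) (g.2 * w + w)) ∨
        (k = 3 ∧ f ∈ RF (g.1 * w) (g.1 * w + w) (g.2 * w) (g.2 * w + 2 * w)) := by
      fin_cases k
      · exact absurd hf h0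
      · exact absurd hf h0
      · exact Or.inl ⟨rfl, hf⟩
      · exact Or.inr ⟨rfl, hf⟩
    unfold sqF at h0
    rw [mem_RFi] at h0
    clear hf
    rcases hh with ⟨rfl, hf⟩ | ⟨rfl, hf⟩
    · have h1 := hk2 rfl
      refine ⟨_, h1, Or.inr (Or.inl ⟨rfl, rfl⟩), ?_⟩
      rw [mem_RFi] at hf
      have hOk := hG _ hg
      have hOk1 := hG _ h1
      unfold CellOk at hOk hOk1
      rw [mem_cellF]
      simp only at hOk hOk1 ⊢
      rw [add_mul, one_mul]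
      rcases lt_or_ge f.2 0 with h | h
      · rw [chF_low h]
        have hneg : g.2 < 0 := by
          by_contra hn
          have hw : 0 < w := by omega
          have : 0 ≤ g.2 * w := mul_nonneg (by omega) (by omega)
          omega
        rcases chS_cases g with ⟨a1, a2⟩ | ⟨a1, a2⟩ <;>
          rcases chS_cases (g.1 + 1, g.2) with ⟨b1, b2⟩ | ⟨b1, b2⟩ <;>
          simp only at b1 ⊢ <;> omega
      · rw [chF_up h]
        omega
    · have h1 := hk3 rfl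
      refine ⟨_, h1, Or.inr (Or.inr ⟨rfl, rfl⟩), ?_⟩
      rw [mem_RFi] at hf
      have e : chS g = chS (g.1, g.2 + 1) := rfl
      rw [e]
      refine chF_mem_cellF ?_
      unfold sqF
      rw [mem_RFi]
      simp only
      rw [add_mul, one_mul]
      omega

/-- The faces of a set of cells. -/
noncomputable def cellsF (w : ℤ) (G : Finset (ℤ × ℤ)) : Finset (ℤ × ℤ) := G.biUnion (cellF w)

theorem mem_cellsF : f ∈ cellsF w G ↔ ∃ g ∈ G, f ∈ cellF w g := mem_biUnion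

theorem depOn_chC {S S' : Finset (ℤ × ℤ)} {A : Set Cfg} (hA : DepOn S A)
    (h : ∀ f ∈ S, chF s f ∈ S') : DepOn S' {ω | chC s ω ∈ A} :=
  depOn_comp (chF s) hA h

theorem depOn_tub_aux (hG : ∀ g ∈ G, CellOk g) (hg : g ∈ G) {k : Fin 4} (hk : tQ G g k) :
    DepOn (cellsF w G) {ω | chC (chS g) ω ∈ tA w c g k} := by
  refine depOn_chC (S := tR w g k) (depOn_tA w c g k) fun f hf => ?_
  obtain ⟨g', h1, -, h3⟩ := tR_sub hg hk hG hf
  exact mem_cellsF.2 ⟨g', h1, h3⟩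

/-- The tube event depends on the faces of the cells. -/
theorem depOn_tub (hG : ∀ g ∈ G, CellOk g) : DepOn (cellsF w G) (Tub w c G) := by
  intro ω ω' h
  refine forall_congr' fun g => forall_congr' fun hg => forall_congr' fun k =>
    forall_congr' fun hk => ?_
  exact depOn_tub_aux hG hg hk ω ω' h

theorem colD_chF (hw : 2 ≤ w) (hG : ∀ g ∈ G, CellOk g) (hg : g ∈ G) {k : Fin 4}
    (hk : tQ G g k) (hf : f ∈ tR w g k) : colD c (chF (chS g) f) = parD c f := by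
  obtain ⟨g', h1, h2, h3⟩ := tR_sub hg hk hG hf
  rcases lt_or_ge f.2 0 with h | h
  · rw [mem_cellF] at h3
    rw [chF_low h] at h3 ⊢
    simp only at h3
    have hOk := hG _ hg
    have hOk' := hG _ h1
    unfold CellOk at hOk hOk'
    have hneg : g'.2 < 0 := by
      by_contra hn
      have : 0 ≤ g'.2 * w := mul_nonneg (by omega) (by omega)
      omega
    unfold colD
    simp only
    have key : chS g = chS g' := by
      rcases h2 with rfl | ⟨-, rfl⟩ | ⟨-, rfl⟩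
      · rfl
      · simp only at hOk' hneg ⊢
        rcases chS_cases g with ⟨a1, a2⟩ | ⟨a1, a2⟩ <;>
          rcases chS_cases (g.1 + 1, g.2) with ⟨b1, b2⟩ | ⟨b1, b2⟩ <;>
          simp only at b1 <;> omega
      · rfl
    rcases chS_cases g' with ⟨b1, b2⟩ | ⟨b1, b2⟩
    · have c1 := mul_lt_of_lt (w := w) (by omega) b1
      rw [zero_mul] at c1
      rw [if_pos ⟨h, by omega⟩, key, b2, add_sub_cancel_right]
    · have hb : 0 < g'.1 := by omega
      have c1 := mul_lt_of_lt (w := w) (by omega) hb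
      rw [zero_mul] at c1
      rw [if_neg (by omega), key, b2, add_zero]
  · rw [chF_up h]
    unfold colD
    rw [if_neg (by omega)]

theorem incD_tub_aux (hw : 2 ≤ w) (hG : ∀ g ∈ G, CellOk g) (hg : g ∈ G) {k : Fin 4}
    (hk : tQ G g k) : IncD (colD c) {ω | chC (chS g) ω ∈ tA w c g k} :=
  incD_comp (F := (tR w g k : Set (ℤ × ℤ))) (chF (chS g)) (depOn_tA w c g k) (incD_tA w c g k)
    fun _ hf => colD_chF hw hG hg hk hf

/-- The probability of a tube. -/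
theorem pr_tub : ∃ c₀ : ℝ, 0 < c₀ ∧ c₀ ≤ 1 ∧ ∀ w c : ℤ, 2 ≤ w → ∀ G : Finset (ℤ × ℤ),
    (∀ g ∈ G, CellOk g) → c₀ ^ G.card ≤ pr (cellsF w G) (Tub w c G) := by
  classical
  obtain ⟨c', hc0, hc⟩ := PercT.rsw_holds 2
  have hc1 : c' ≤ 1 := by
    have h1 := (hc 0 0 1 0 1 (by norm_num) (by norm_num)).1 (by norm_num)
    exact h1.trans (pr_le_one _ _)
  refine ⟨c' ^ 4, by positivity, pow_le_one₀ hc0.le hc1, fun w c hw G hG => ?_⟩
  have hrect : ∀ g : ℤ × ℤ, ∀ k : Fin 4, c' ≤ pr (tR w g k) (tA w c g k) := by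
    intro g k
    fin_cases k
    · exact (hc _ _ _ _ _ (by omega) (by omega)).1 (by push_cast; omega)
    · exact (hc _ _ _ _ _ (by omega) (by omega)).2 (by push_cast; omega)
    · exact (hc _ _ _ _ _ (by omega) (by omega)).1 (by push_cast; omega)
    · exact (hc _ _ _ _ _ (by omega) (by omega)).2 (by push_cast; omega)
  let A : (ℤ × ℤ) × Fin 4 → Set Cfg := fun i =>
    {ω | tQ G i.1 i.2 → chC (chS i.1) ω ∈ tA w c i.1 i.2}
  have hA : ∀ i ∈ G ×ˢ (univ : Finset (Fin 4)),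
      DepOn (cellsF w G) (A i) ∧ IncD (colD c) (A i) ∧ c' ≤ pr (cellsF w G) (A i) := by
    rintro ⟨g, k⟩ hi
    have hg : g ∈ G := (mem_product.1 hi).1
    by_cases hk : tQ G g k
    · have e : A (g, k) = {ω | chC (chS g) ω ∈ tA w c g k} := by
        ext ω
        exact ⟨fun h => h hk, fun h _ => h⟩
      rw [e]
      refine ⟨depOn_tub_aux hG hg hk, incD_tub_aux hw hG hg hk, ?_⟩
      rw [pr_chart (S := tR w g k) (depOn_tA w c g k) fun f hf => ?_]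
      · exact hrect g k
      · obtain ⟨g', h1, -, h3⟩ := tR_sub hg hk hG hf
        exact mem_cellsF.2 ⟨g', h1, h3⟩
    · have e : A (g, k) = Set.univ := by
        ext ω
        exact ⟨fun _ => trivial, fun _ h => absurd h hk⟩
      rw [e, PercT.TubeP.pr_univ]
      exact ⟨fun _ _ _ => Iff.rfl, fun _ _ _ _ => trivial, hc1⟩
  have h1 := harris_list (colD c) (G ×ˢ (univ : Finset (Fin 4))) A (fun i hi => (hA i hi).1)
    (fun i hi => (hA i hi).2.1)
  have h2 : (c' ^ 4) ^ G.card ≤ ∏ i ∈ G ×ˢ (univ : Finset (Fin 4)), pr (cellsF w G) (A i) := by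
    have h3 : (c' ^ 4) ^ G.card = ∏ _i ∈ G ×ˢ (univ : Finset (Fin 4)), c' := by
      rw [prod_const, card_product, card_univ, Fintype.card_fin, ← pow_mul, mul_comm]
    rw [h3]
    exact prod_le_prod (fun _ _ => hc0.le) fun i hi => (hA i hi).2.2
  refine h2.trans (h1.trans (pr_mono _ ?_))
  intro ω hω g hg k hk
  exact hω (g, k) (mem_product.2 ⟨hg, mem_univ _⟩) hk

/-! ### Representatives and connections -/

open Classical in
/-- The representative of a cell: the beginning of the left-right crossing. -/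
noncomputable def rep (w c : ℤ) (ω : Cfg) (g : ℤ × ℤ) : ℤ × ℤ :=
  if h : chC (chS g) ω ∈ LR c (g.1 * w) (g.1 * w + w) (g.2 * w) (g.2 * w + w) then
    chF (chS g) h.choose else (0, 0)

theorem tub_LR (h : ω ∈ Tub w c G) (hg : g ∈ G) :
    chC (chS g) ω ∈ LR c (g.1 * w) (g.1 * w + w) (g.2 * w) (g.2 * w + w) :=
  h g hg 0 ⟨fun h => absurd h (by decide), fun h => absurd h (by decide)⟩

theorem tub_BT (h : ω ∈ Tub w c G) (hg : g ∈ G) :
    chC (chS g) ω ∈ BT c (g.1 * w) (g.1 * w + w) (g.2 * w) (g.2 * w + w) :=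
  h g hg 1 ⟨fun h => absurd h (by decide), fun h => absurd h (by decide)⟩

theorem tub_H (h : ω ∈ Tub w c G) (hg : g ∈ G) (hg' : (g.1 + 1, g.2) ∈ G) :
    chC (chS g) ω ∈ LR c (g.1 * w) (g.1 * w + 2 * w) (g.2 * w) (g.2 * w + w) :=
  h g hg 2 ⟨fun _ => hg', fun h => absurd h (by decide)⟩

theorem tub_V (h : ω ∈ Tub w c G) (hg : g ∈ G) (hg' : (g.1, g.2 + 1) ∈ G) :
    chC (chS g) ω ∈ BT c (g.1 * w) (g.1 * w + w) (g.2 * w) (g.2 * w + 2 * w) :=
  h g hg 3 ⟨fun h => absurd h (by decide), fun _ => hg'⟩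

/-- The representative in its chart. -/
theorem rep_spec (h : ω ∈ Tub w c G) (hg : g ∈ G) : ∃ u v : ℤ × ℤ, rep w c ω g = chF (chS g) u ∧
    u.1 = g.1 * w ∧ g.2 * w ≤ u.2 ∧ u.2 ≤ g.2 * w + w ∧ v.1 = g.1 * w + w ∧
    (u.1 + u.2 - c) % 2 = 0 ∧ Conn (chC (chS g) ω) (sqF w g) u v := by
  have h1 := tub_LR h hg
  obtain ⟨v, h2, h3, h4, h5, h6, h7⟩ := h1.choose_spec
  exact ⟨h1.choose, v, by unfold rep; rw [dif_pos h1], h2, h3, h4, h5, h6, h7⟩

theorem rep_inCell (hw : 0 ≤ w) (h : ω ∈ Tub w c G) (hg : g ∈ G) :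
    InCell w g (rep w c ω g) := by
  obtain ⟨u, v, h1, h2, h3, h4, -⟩ := rep_spec h hg
  rw [h1]
  exact inCell_chF h3 h4 h2.ge (by omega)

theorem rep_parV (h : ω ∈ Tub w c G) (hg : g ∈ G) :
    (parV (chS g) (rep w c ω g) - c) % 2 = 0 := by
  obtain ⟨u, v, h1, h2, h3, h4, h5, h6, -⟩ := rep_spec h hg
  rw [h1, parV_chF]
  exact h6

/-- The crossings of two squares with a common side and of their union. -/
theorem conn_squares {η : Cfg} {x₀ y₀ : ℤ} (hw : 0 < w) {u v p q u' v' p' q' a b : ℤ × ℤ}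
    (hu : u.1 = x₀ ∧ y₀ ≤ u.2 ∧ u.2 ≤ y₀ + w) (hv : v.1 = x₀ + w)
    (hp : p.2 = y₀ ∧ x₀ ≤ p.1 ∧ p.1 ≤ x₀ + w) (hq : q.2 = y₀ + w)
    (hu' : u'.1 = x₀ + w ∧ y₀ ≤ u'.2 ∧ u'.2 ≤ y₀ + w) (hv' : v'.1 = x₀ + 2 * w)
    (hp' : p'.2 = y₀ ∧ x₀ + w ≤ p'.1 ∧ p'.1 ≤ x₀ + 2 * w) (hq' : q'.2 = y₀ + w)
    (ha : a.1 = x₀ ∧ y₀ ≤ a.2 ∧ a.2 ≤ y₀ + w) (hb : b.1 = x₀ + 2 * w)
    (h1 : (u.1 + u.2 - c) % 2 = 0) (h2 : (p.1 + p.2 - c) % 2 = 0)
    (h3 : (u'.1 + u'.2 - c) % 2 = 0) (h4 : (p'.1 + p'.2 - c) % 2 = 0)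
    (h5 : (a.1 + a.2 - c) % 2 = 0)
    (k1 : Conn η (RF x₀ (x₀ + w) y₀ (y₀ + w)) u v) (k2 : Conn η (RF x₀ (x₀ + w) y₀ (y₀ + w)) p q)
    (k3 : Conn η (RF (x₀ + w) (x₀ + 2 * w) y₀ (y₀ + w)) u' v')
    (k4 : Conn η (RF (x₀ + w) (x₀ + 2 * w) y₀ (y₀ + w)) p' q')
    (k5 : Conn η (RF x₀ (x₀ + 2 * w) y₀ (y₀ + w)) a b) :
    Conn η (RF x₀ (x₀ + 2 * w) y₀ (y₀ + w)) u u' := by
  have m1 : (RF x₀ (x₀ + w) y₀ (y₀ + w) : Set (ℤ × ℤ)) ⊆ RF x₀ (x₀ + 2 * w) y₀ (y₀ + w) :=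
    PercT.Cross.rf_sub le_rfl (by omega) le_rfl le_rfl
  have m2 : (RF (x₀ + w) (x₀ + 2 * w) y₀ (y₀ + w) : Set (ℤ × ℤ)) ⊆
      RF x₀ (x₀ + 2 * w) y₀ (y₀ + w) :=
    PercT.Cross.rf_sub (by omega) le_rfl le_rfl le_rfl
  obtain ⟨z1, -, -, -, -, a1, a2⟩ := PercT.cross_meet (x₀ := x₀) (x₁ := x₀ + w) (x₀' := x₀)
    (x₁' := x₀ + w) (y₀ := y₀) (y₁ := y₀ + w) (y₀' := y₀) (y₁' := y₀ + w) le_rfl (by omega)
    le_rfl le_rfl (by omega) le_rfl hu hv hp hq (by omega) k1 k2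
  obtain ⟨z2, -, -, -, -, b1, b2⟩ := PercT.cross_meet (x₀ := x₀) (x₁ := x₀ + 2 * w) (x₀' := x₀)
    (x₁' := x₀ + w) (y₀ := y₀) (y₁ := y₀ + w) (y₀' := y₀) (y₁' := y₀ + w) le_rfl (by omega)
    (by omega) le_rfl (by omega) le_rfl ha hb hp hq (by omega) k5 k2
  obtain ⟨z3, -, -, -, -, c1, c2⟩ := PercT.cross_meet (x₀ := x₀) (x₁ := x₀ + 2 * w)
    (x₀' := x₀ + w) (x₁' := x₀ + 2 * w) (y₀ := y₀) (y₁ := y₀ + w) (y₀' := y₀) (y₁' := y₀ + w)
    (by omega) (by omega) le_rfl le_rfl (by omega) le_rfl ha hb hp' hq' (by omega) k5 k4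
  obtain ⟨z4, -, -, -, -, d1, d2⟩ := PercT.cross_meet (x₀ := x₀ + w) (x₁ := x₀ + 2 * w)
    (x₀' := x₀ + w) (x₁' := x₀ + 2 * w) (y₀ := y₀) (y₁ := y₀ + w) (y₀' := y₀) (y₁' := y₀ + w)
    le_rfl (by omega) le_rfl le_rfl (by omega) le_rfl hu' hv' hp' hq' (by omega) k3 k4
  exact (((a1.mono m1).trans (Conn.symm (a2.mono m1))).trans
    ((b2.mono m1).trans (Conn.symm b1))).trans
    ((c1.trans (Conn.symm (c2.mono m2))).trans ((d2.mono m2).trans (Conn.symm (d1.mono m2))))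

/-- The same for two squares on top of each other. -/
theorem conn_squares' {η : Cfg} {x₀ y₀ : ℤ} (hw : 0 < w) {u v u' v' a b : ℤ × ℤ}
    (hu : u.1 = x₀ ∧ y₀ ≤ u.2 ∧ u.2 ≤ y₀ + w) (hv : v.1 = x₀ + w)
    (hu' : u'.1 = x₀ ∧ y₀ + w ≤ u'.2 ∧ u'.2 ≤ y₀ + 2 * w) (hv' : v'.1 = x₀ + w)
    (ha : a.2 = y₀ ∧ x₀ ≤ a.1 ∧ a.1 ≤ x₀ + w) (hb : b.2 = y₀ + 2 * w)
    (h1 : (u.1 + u.2 - c) % 2 = 0) (h3 : (u'.1 + u'.2 - c) % 2 = 0)
    (h5 : (a.1 + a.2 - c) % 2 = 0)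
    (k1 : Conn η (RF x₀ (x₀ + w) y₀ (y₀ + w)) u v)
    (k3 : Conn η (RF x₀ (x₀ + w) (y₀ + w) (y₀ + 2 * w)) u' v')
    (k5 : Conn η (RF x₀ (x₀ + w) y₀ (y₀ + 2 * w)) a b) :
    Conn η (RF x₀ (x₀ + w) y₀ (y₀ + 2 * w)) u u' := by
  have m1 : (RF x₀ (x₀ + w) y₀ (y₀ + w) : Set (ℤ × ℤ)) ⊆ RF x₀ (x₀ + w) y₀ (y₀ + 2 * w) :=
    PercT.Cross.rf_sub le_rfl le_rfl le_rfl (by omega)
  have m2 : (RF x₀ (x₀ + w) (y₀ + w) (y₀ + 2 * w) : Set (ℤ × ℤ)) ⊆
      RF x₀ (x₀ + w) y₀ (y₀ + 2 * w) :=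
    PercT.Cross.rf_sub le_rfl le_rfl (by omega) le_rfl
  obtain ⟨z1, -, -, -, -, a1, a2⟩ := PercT.cross_meet (x₀ := x₀) (x₁ := x₀ + w) (x₀' := x₀)
    (x₁' := x₀ + w) (y₀ := y₀) (y₁ := y₀ + w) (y₀' := y₀) (y₁' := y₀ + 2 * w) le_rfl (by omega)
    le_rfl le_rfl (by omega) (by omega) hu hv ha hb (by omega) k1 k5
  obtain ⟨z2, -, -, -, -, b1, b2⟩ := PercT.cross_meet (x₀ := x₀) (x₁ := x₀ + w) (x₀' := x₀)
    (x₁' := x₀ + w) (y₀ := y₀ + w) (y₁ := y₀ + 2 * w) (y₀' := y₀) (y₁' := y₀ + 2 * w) le_rfl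
    (by omega) le_rfl (by omega) (by omega) le_rfl hu' hv' ha hb (by omega) k3 k5
  exact ((a1.mono m1).trans (Conn.symm a2)).trans (b2.trans (Conn.symm (b1.mono m2)))

theorem chOk_emP {S : Set (ℤ × ℤ)} (h : ∀ f ∈ S, f.2 = -1 → (s = 0 ∧ 0 ≤ f.1) ∨ (s = 1 ∧ f.1 ≤ -3)) :
    ChOk emP s S := by
  intro f hf h1
  unfold emP
  rcases h f hf h1 with ⟨rfl, h2⟩ | ⟨rfl, h2⟩
  · rw [if_pos (by omega), if_pos (by omega)]
    omega
  · rw [if_neg (by omega), if_neg (by omega)]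
    omega

/-- The chart of the rectangles is valid. -/
theorem chOk_tR (hw : 2 ≤ w) (hG : ∀ g ∈ G, CellOk g) (hg : g ∈ G) {k : Fin 4}
    (hk : tQ G g k) : ChOk emP (chS g) (tR w g k : Set (ℤ × ℤ)) := by
  refine chOk_emP fun f hf h1 => ?_
  obtain ⟨g', h2, h3, h4⟩ := tR_sub hg hk hG hf
  rw [mem_cellF, chF_low (by omega)] at h4
  simp only at h4
  have hOk := hG _ hg
  have hOk' := hG _ h2
  unfold CellOk at hOk hOk'
  have hneg : g'.2 = -1 := eq_of_mem_cell (x := f.2) (w := w) (by omega) h4.1 h4.2.1 (by omega)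
    (by omega)
  have key : chS g = chS g' := by
    rcases h3 with rfl | ⟨-, rfl⟩ | ⟨-, rfl⟩
    · rfl
    · simp only at hOk' hneg ⊢
      rcases chS_cases g with ⟨a1, a2⟩ | ⟨a1, a2⟩ <;>
        rcases chS_cases (g.1 + 1, g.2) with ⟨b1, b2⟩ | ⟨b1, b2⟩ <;>
        simp only at b1 <;> omega
    · rfl
  rw [key] at h4 ⊢
  rcases chS_cases g' with ⟨b1, b2⟩ | ⟨b1, b2⟩
  · have hb : g'.1 < -1 := by omega
    have c1 := mul_lt_of_lt (w := w) (by omega) hb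
    right
    omega
  · have c1 : 0 ≤ g'.1 * w := mul_nonneg b1 (by omega)
    left
    omega

/-- Adjacent cells: the representatives are connected in the faces of the two cells. -/
theorem tub_adj (hw : 2 ≤ w) (hG : ∀ g ∈ G, CellOk g) (h : ω ∈ Tub w c G) (hg : g ∈ G)
    (hg' : g' ∈ G) (ha : CAdj g g') :
    ConnW emP ω (cellF w g ∪ cellF w g' : Finset (ℤ × ℤ)) (rep w c ω g) (rep w c ω g') := by
  -- the two basic cases
  have hH : ∀ g, g ∈ G → (g.1 + 1, g.2) ∈ G →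
      ConnW emP ω (cellF w g ∪ cellF w (g.1 + 1, g.2) : Finset (ℤ × ℤ)) (rep w c ω g)
        (rep w c ω (g.1 + 1, g.2)) := by
    intro g hg hg'
    have hk : tQ G g 2 := ⟨fun _ => hg', fun h => absurd h (by decide)⟩
    have hok := chOk_tR hw hG hg hk
    have hOk := hG _ hg
    have hOk' := hG _ hg'
    unfold CellOk at hOk hOk'
    simp only at hOk'
    obtain ⟨u, v, e1, u1, u2, u3, v1, u4, k1⟩ := rep_spec h hg
    obtain ⟨u', v', e1', u1', u2', u3', v1', u4', k1'⟩ := rep_spec h hg'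
    obtain ⟨p, q, p1, p2, p3, q1, p4, k2⟩ := tub_BT h hg
    obtain ⟨p', q', p1', p2', p3', q1', p4', k2'⟩ := tub_BT h hg'
    obtain ⟨a, b, a1, a2, a3, b1, a4, k5⟩ := tub_H h hg hg'
    -- the right neighbour in the chart of `g`
    have hch : (chS (g.1 + 1, g.2) = chS g) ∨ 0 ≤ g.2 := by
      rcases chS_cases g with ⟨a1, a2⟩ | ⟨a1, a2⟩ <;>
        rcases chS_cases (g.1 + 1, g.2) with ⟨b1, b2⟩ | ⟨b1, b2⟩ <;>
        simp only at b1 <;> omega
    have key : ∀ {x y : ℤ × ℤ}, Conn (chC (chS (g.1 + 1, g.2)) ω) (sqF w (g.1 + 1, g.2)) x y →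
        Conn (chC (chS g) ω) (sqF w (g.1 + 1, g.2)) x y := by
      intro x y hxy
      rcases hch with h1 | h1
      · rw [← h1]
        exact hxy
      · have hpos : ∀ f ∈ (sqF w (g.1 + 1, g.2) : Set (ℤ × ℤ)), 0 ≤ f.2 := by
          intro f hf
          have hf' := mem_RFi.1 (Finset.mem_coe.1 hf)
          have : 0 ≤ g.2 * w := mul_nonneg h1 (by omega)
          simp only at hf'
          omega
        exact (conn_chC_up hpos).2 ((conn_chC_up hpos).1 hxy)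
    have hrep : chF (chS (g.1 + 1, g.2)) u' = chF (chS g) u' := by
      rcases hch with h1 | h1
      · rw [h1]
      · have : 0 ≤ g.2 * w := mul_nonneg h1 (by omega)
        simp only at u2'
        rw [chF_up (by omega), chF_up (by omega)]
    have k1'' := key k1'
    have k2'' := key k2'
    unfold sqF at k1 k1'' k2''
    simp only at u1' u2' u3' v1' p1' p2' p3' q1' k1'' k2''
    rw [add_mul, one_mul] at u1' v1' p2' p3' k1'' k2''
    rw [show g.1 * w + w + w = g.1 * w + 2 * w by ring] at v1' p3' k1'' k2''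
    have hc := conn_squares (c := c) (w := w) (by omega) ⟨u1, u2, u3⟩ v1 ⟨p1, p2, p3⟩ q1
      ⟨u1', u2', u3'⟩ v1' ⟨p1', p2', p3'⟩ q1' ⟨a1, a2, a3⟩ b1 u4 p4 u4' p4' a4 k1 k2 k1'' k2'' k5
    rw [e1, e1', hrep]
    refine connW_chart (G := ((cellF w g ∪ cellF w (g.1 + 1, g.2) : Finset (ℤ × ℤ)) :
      Set (ℤ × ℤ))) hok ?_ hc
    intro f hf
    obtain ⟨g'', -, h3, h4⟩ := tR_sub hg hk hG hf
    rw [Finset.mem_coe, mem_union]
    rcases h3 with rfl | ⟨-, rfl⟩ | ⟨h3, -⟩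
    · exact Or.inl h4
    · exact Or.inr h4
    · exact absurd h3 (by decide)
  have hV : ∀ g, g ∈ G → (g.1, g.2 + 1) ∈ G →
      ConnW emP ω (cellF w g ∪ cellF w (g.1, g.2 + 1) : Finset (ℤ × ℤ)) (rep w c ω g)
        (rep w c ω (g.1, g.2 + 1)) := by
    intro g hg hg'
    have hk : tQ G g 3 := ⟨fun h => absurd h (by decide), fun _ => hg'⟩
    have hok := chOk_tR hw hG hg hk
    obtain ⟨u, v, e1, u1, u2, u3, v1, u4, k1⟩ := rep_spec h hg
    obtain ⟨u', v', e1', u1', u2', u3', v1', u4', k1'⟩ := rep_spec h hg'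
    obtain ⟨a, b, a1, a2, a3, b1, a4, k5⟩ := tub_V h hg hg'
    have e : chS (g.1, g.2 + 1) = chS g := rfl
    rw [e] at e1' k1'
    unfold sqF at k1 k1'
    simp only at u1' u2' u3' v1' k1'
    rw [add_mul, one_mul] at u2' u3' k1'
    rw [show g.2 * w + w + w = g.2 * w + 2 * w by ring] at u3' k1'
    have hc := conn_squares' (c := c) (w := w) (by omega) ⟨u1, u2, u3⟩ v1 ⟨u1', u2', u3'⟩ v1'
      ⟨a1, a2, a3⟩ b1 u4 u4' a4 k1 k1' k5
    rw [e1, e1']
    refine connW_chart (G := ((cellF w g ∪ cellF w (g.1, g.2 + 1) : Finset (ℤ × ℤ)) :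
      Set (ℤ × ℤ))) hok ?_ hc
    intro f hf
    obtain ⟨g'', -, h3, h4⟩ := tR_sub hg hk hG hf
    rw [Finset.mem_coe, mem_union]
    rcases h3 with rfl | ⟨h3, -⟩ | ⟨-, rfl⟩
    · exact Or.inl h4
    · exact absurd h3 (by decide)
    · exact Or.inr h4
  rcases ha with ⟨h1, h2⟩ | ⟨h1, h2⟩ | ⟨h1, h2⟩ | ⟨h1, h2⟩
  · obtain rfl : g' = (g.1 + 1, g.2) := Prod.ext h1 h2
    exact hH g hg hg'
  · obtain rfl : g = (g'.1 + 1, g'.2) := Prod.ext h1 h2.symm
    rw [union_comm]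
    exact (hH g' hg' hg).symm'
  · obtain rfl : g' = (g.1, g.2 + 1) := Prod.ext h1 h2
    exact hV g hg hg'
  · obtain rfl : g = (g'.1, g'.2 + 1) := Prod.ext h1.symm h2
    rw [union_comm]
    exact (hV g' hg' hg).symm'

/-- Connection along a chain of cells with the property `P`. -/
theorem tub_link (hw : 2 ≤ w) (hG : ∀ g ∈ G, CellOk g) (h : ω ∈ Tub w c G) {P : ℤ × ℤ → Prop}
    (hgg : Relation.ReflTransGen (fun a b => a ∈ G ∧ b ∈ G ∧ P a ∧ P b ∧ CAdj a b) g g') :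
    ConnW emP ω {f | ∃ a ∈ G, P a ∧ f ∈ cellF w a} (rep w c ω g) (rep w c ω g') := by
  induction hgg with
  | refl => exact Relation.ReflTransGen.refl
  | tail _ hb ih =>
    obtain ⟨h1, h2, h3, h4, h5⟩ := hb
    refine Relation.ReflTransGen.trans ih ((tub_adj hw hG h h1 h2 h5).mono ?_)
    intro f hf
    rcases mem_union.1 (Finset.mem_coe.1 hf) with h6 | h6
    · exact ⟨_, h1, h3, h6⟩
    · exact ⟨_, h2, h4, h6⟩

/-- Disjoint sets of cells have disjoint sets of faces. -/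
theorem disjoint_cellsF (hw : 2 ≤ w) (hG : ∀ g ∈ G, CellOk g) (hG' : ∀ g ∈ G', CellOk g)
    (h : Disjoint G G') : Disjoint (cellsF w G) (cellsF w G') := by
  rw [disjoint_left]
  intro f h1 h2
  obtain ⟨g, hg, h3⟩ := mem_cellsF.1 h1
  obtain ⟨g', hg', h4⟩ := mem_cellsF.1 h2
  obtain rfl := cell_unique hw (hG g hg) (hG' g' hg') h3 h4
  exact (disjoint_left.1 h) hg hg'

/-- The connection depends only on the glueing at the faces of `F`. -/
theorem ConnW.congr_em {em em' : ℤ → ℤ}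
    (he : ∀ f ∈ F, f.2 = -1 → em f.1 = em' f.1 ∧ em (f.1 + 1) = em' (f.1 + 1))
    (h : ConnW em ω F u v) : ConnW em' ω F u v := by
  induction h with
  | refl => exact Relation.ReflTransGen.refl
  | tail _ hb ih =>
    refine Relation.ReflTransGen.tail ih ?_
    rcases hb with hb | ⟨u', v', hb, h1, h2⟩
    · exact Or.inl hb
    · obtain ⟨f, hf, -, c1, c2⟩ := hb.exists_face
      refine Or.inr ⟨u', v', hb, ?_, ?_⟩
      · rw [h1]
        unfold twV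
        split_ifs with h0
        · unfold IsCor at c1
          have h3 := he f hf.1 (by have := hf.2; omega)
          rcases c1.1 with h4 | h4
          · rw [h4, h3.1]
          · rw [h4, h3.2]
        · rfl
      · rw [h2]
        unfold twV
        split_ifs with h0
        · unfold IsCor at c2
          have h3 := he f hf.1 (by have := hf.2; omega)
          rcases c2.1 with h4 | h4
          · rw [h4, h3.1]
          · rw [h4, h3.2]
        · rfl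

/-- The connection depends on the faces of `F`. -/
theorem ConnW.congr_cfg {em : ℤ → ℤ} (he : ∀ f ∈ F, ω f = ω' f) (h : ConnW em ω F u v) :
    ConnW em ω' F u v := by
  have key : ∀ {H : Set (ℤ × ℤ)} {x y : ℤ × ℤ}, (∀ f ∈ H, ω f = ω' f) → Bond ω H x y →
      Bond ω' H x y := by
    rintro H x y hH ⟨a, b, hab, hh⟩
    exact ⟨a, b, hab, by rw [← hH _ hab]; exact hh⟩
  induction h with
  | refl => exact Relation.ReflTransGen.refl
  | tail _ hb ih =>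
    refine Relation.ReflTransGen.tail ih ?_
    rcases hb with hb | ⟨u', v', hb, h1, h2⟩
    · exact Or.inl (key (fun f hf => he f hf.1) hb)
    · exact Or.inr ⟨u', v', key (fun f hf => he f hf.1) hb, h1, h2⟩

end Pool.Agent.Perc
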