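import Pool.Agent.Lib.MP_6bd702_perc3.S2Final
import Pool.Agent.Lib.MP_6bd702_perc3.TubeC

/-!
# The gluing of the three legs on the cylinder: the two combinatorial inputs
-/

set_option autoImplicit false

namespace Pool.Agent.Perc.Q

open Finset Pool.Agent.Perc

/-- The faces visited by the three legs of the core. -/
def VUL (R : ℤ) (ω : Cfg) : Set (ℤ × ℤ) :=
  {f | ∃ i : Fin 3, f ∈ Vis TQ ω (BW R : Set (ℤ × ℤ)) (leg i)}

/-- The outer port of the boundary edge `t`. -/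
def oport (w R t : ℤ) : ℤ × ℤ := tcell w R t + tdir R t

/-- Admissible positions of three tips, in the linear order from the cut. -/
def TipPos (w R : ℤ) (t : Fin 3 → ℤ) : Prop :=
  (∀ i, 0 ≤ t i ∧ t i < 8 * R + 3 ∧ Away R (20 * w) (t i)) ∧
    tlin R (t 0) + 20 * w ≤ tlin R (t 1) ∧ tlin R (t 1) + 20 * w ≤ tlin R (t 2)

/-- The sets of cells of the three walls: disjoint, allowed, no tip cell, the eight cells around
the tip cells. -/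
def WallsOk (w R : ℤ) (t : Fin 3 → ℤ) (G : Fin 3 → Finset (ℤ × ℤ)) : Prop :=
  (∀ i j, i ≠ j → Disjoint (G i) (G j)) ∧ (∀ i, ∀ g ∈ G i, CellOk g) ∧
    (∀ i j, tcell w R (t i) ∉ G j) ∧
    ∀ i, ∀ a b : ℤ, -1 ≤ a → a ≤ 1 → -1 ≤ b → b ≤ 1 → (a, b) ≠ (0, 0) →
      tcell w R (t i) + (a, b) ∈ G i

/-- The three ports of the cylinder: right, left and below (left of the cut). -/
def port3 (J : ℤ) (i : Fin 3) : ℤ × ℤ := ![(J, 0), (-J - 1, 0), (-20, -J - 1)] i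

/-- The routes from the tips to the three ports. -/
def PortsP : Prop := ∀ N : ℕ, ∃ K : ℕ, ∀ w R : ℤ, 3 ≤ w → 60 * w ≤ R → R ≤ N * w →
  ∀ t : Fin 3 → ℤ, TipPos w R t → ∃ G : Fin 3 → Finset (ℤ × ℤ), WallsOk w R t G ∧
    (∀ i, (G i).card ≤ K) ∧
    (∀ i, ∀ g ∈ G i, g = port3 (N + 60) i ∨
      (-((N : ℤ) + 60) ≤ g.1 ∧ g.1 < N + 60 ∧ -((N : ℤ) + 60) ≤ g.2 ∧ g.2 < N + 60)) ∧
    ∀ i, Relation.ReflTransGen (fun a b => a ∈ G i ∧ b ∈ G i ∧ COut w R a ∧ COut w R b ∧ CAdj a b)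
      (oport w R (t i)) (port3 (N + 60) i)

/-- The walls land at three different core vertices. -/
def LinkP : Prop := ∀ (w R b : ℤ) (ω ξ ζ : Cfg) (t : Fin 3 → ℤ) (G : Fin 3 → Finset (ℤ × ℤ)),
  3 ≤ w → 60 * w ≤ R → TipPos w R t → (∀ i, IsTip R ω (t i)) → WallsOk w R t G →
  (∀ i : Fin 3, ξ ∈ Tub w (b + ((i : ℕ) : ℤ)) (G i)) → (∀ f ∈ VUL R ω, ζ f = ω f) →
  (∀ f, f ∉ VUL R ω → (f ∈ BW R ∨ ∃ i, f ∈ cellsF w (G i)) → ζ f = ξ f) →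
  ∃ x : Fin 3 → ℤ, Function.Injective x ∧ (∀ i, Core (x i)) ∧
    ∀ i : Fin 3, ConnW emP ζ ((BW R : Set (ℤ × ℤ)) ∪ cellsF w (G i)) (x i, 0)
      (rep w (b + ((i : ℕ) : ℤ)) ξ (oport w R (t i)))

end Pool.Agent.Perc.Q
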