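import Mathlib

/-!
# A scale without distances (claim 3, T2 (iii), groups of tips)
-/

set_option autoImplicit false

namespace Pool.Agent.Perc

open Finset

/-- Among the intervals `(δ i, δ (i+1)]`, `i ≤ |T|²`, one contains no distance of two points of
`T`. -/
theorem exists_gap_scale {α : Type*} (T : Finset α) (D : α → α → ℝ) {δ : ℕ → ℝ}
    (hδ : Monotone δ) :
    ∃ i ≤ T.card ^ 2, ∀ x ∈ T, ∀ y ∈ T, D x y ≤ δ i ∨ δ (i + 1) < D x y := by
  classical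
  by_contra hcon
  push Not at hcon
  obtain ⟨x₀, -, -⟩ := hcon 0 (Nat.zero_le _)
  haveI : Nonempty α := ⟨x₀⟩
  have h : ∀ i ∈ range (T.card ^ 2 + 1), ∃ p ∈ T ×ˢ T, δ i < D p.1 p.2 ∧ D p.1 p.2 ≤ δ (i + 1) := by
    intro i hi
    rw [mem_range] at hi
    obtain ⟨x, hx, y, hy, h1, h2⟩ := hcon i (by omega)
    exact ⟨(x, y), mem_product.2 ⟨hx, hy⟩, h1, h2⟩
  choose! f hf hf' using h
  have hinj : Set.InjOn f ((range (T.card ^ 2 + 1) : Finset ℕ) : Set ℕ) := by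
    intro i hi j hj hij
    rw [mem_coe] at hi hj
    have h1 := hf' i hi
    have h2 := hf' j hj
    rw [hij] at h1
    by_contra hne
    rcases lt_or_gt_of_ne hne with h3 | h3
    · have := hδ (show i + 1 ≤ j by omega)
      linarith [h1.2, h2.1]
    · have := hδ (show j + 1 ≤ i by omega)
      linarith [h2.2, h1.1]
  have hcard := Finset.card_le_card_of_injOn f (fun i hi => hf i hi) hinj
  rw [card_range, card_product] at hcard
  rw [sq] at hcard
  omega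

/-- Groups: with `K ≥ 2` there is a scale `δ₀ K^i`, `i ≤ |T|²`, at which `distance ≤ δ₀ K^i` is
transitive on `T` and different groups have distance more than `δ₀ K^(i+1)`. -/
theorem exists_groups {α : Type*} (T : Finset α) (D : α → α → ℝ)
    (htri : ∀ x ∈ T, ∀ y ∈ T, ∀ z ∈ T, D x z ≤ D x y + D y z) {δ₀ K : ℝ} (hδ₀ : 0 ≤ δ₀)
    (hK : 2 ≤ K) :
    ∃ i ≤ T.card ^ 2, (∀ x ∈ T, ∀ y ∈ T, D x y ≤ δ₀ * K ^ i ∨ δ₀ * K ^ (i + 1) < D x y) ∧
      ∀ x ∈ T, ∀ y ∈ T, ∀ z ∈ T, D x y ≤ δ₀ * K ^ i → D y z ≤ δ₀ * K ^ i →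
        D x z ≤ δ₀ * K ^ i := by
  have hmono : Monotone fun i : ℕ => δ₀ * K ^ i := by
    intro i j hij
    exact mul_le_mul_of_nonneg_left (pow_le_pow_right₀ (by linarith) hij) hδ₀
  obtain ⟨i, hi, h⟩ := exists_gap_scale T D hmono
  refine ⟨i, hi, h, fun x hx y hy z hz h1 h2 => ?_⟩
  refine (h x hx z hz).resolve_right ?_
  rw [not_lt]
  have h3 := htri x hx y hy z hz
  have h4 : 0 ≤ δ₀ * K ^ i := mul_nonneg hδ₀ (pow_nonneg (by linarith) i)
  calc D x z ≤ δ₀ * K ^ i + δ₀ * K ^ i := by linarith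
    _ = 2 * (δ₀ * K ^ i) := by ring
    _ ≤ K * (δ₀ * K ^ i) := mul_le_mul_of_nonneg_right hK h4
    _ = δ₀ * K ^ (i + 1) := by ring

end Pool.Agent.Perc
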