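import Pool.Agent.Lib.MP_6bd702_perc.QAsym

/-!
# The numbers of the three leg formula

`p3v m = s_{2m}(1)^3 s_{2m+2}(1) / (F_{2m}(1) F_{2m+1}(1)) = (3m+1) / ((2m+1) E1(m)^2)`, where
`F_N` is the product of the two Schur polynomials with exponents `0, 1, 3, 4, …` and
`0, 2, 3, 5, …` in `N` variables. Result: `m^(-2/3) / 3 ≤ p3v m ≤ m^(-2/3)`.
-/

set_option autoImplicit false

namespace Pool.Agent.Perc

open Finset MvPolynomial

namespace Num3

open SumB QAsym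

/-- The three leg probability on the cylinder. -/
noncomputable def p3v (m : ℕ) : ℝ := (3 * (m : ℝ) + 1) / ((2 * m + 1) * E1 m ^ 2)

theorem dd_succ (e : ℕ → ℕ) (N : ℕ) :
    dd e (N + 1) = dd e N * ∏ i ∈ range N, ((e N : ℂ) - e i) := by
  unfold dd
  rw [prod_range_succ]

theorem dd_id_odd (m : ℕ) : dd (fun j => j) (2 * m + 1) = dd (fun j => j) (2 * m) *
    ((2 * m).factorial : ℂ) := by
  rw [dd_succ]
  congr 1
  have h := reflect (fun x => x) (2 * m)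
  rw [h, ← Finset.prod_range_add_one_eq_factorial]
  push_cast
  rfl

theorem dd_eS3_odd (m : ℕ) : dd eS3 (2 * m + 1) = dd eS3 (2 * m) *
    ∏ k ∈ range m, ((3 * ((k : ℂ) + 1)) * (3 * ((k : ℂ) + 1) - 1)) := by
  rw [dd_succ]
  congr 1
  rw [prod_two, ← reflect (fun x => (3 * x) * (3 * x - 1))]
  refine prod_congr rfl fun k _ => ?_
  rw [eS3_even, eS3_even, eS3_odd]
  ring

theorem dd_eP_odd (m : ℕ) : dd eP (2 * m + 1) = dd eP (2 * m) *
    ∏ k ∈ range m, ((3 * ((k : ℂ) + 1)) * (3 * ((k : ℂ) + 1) - 2)) := by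
  rw [dd_succ]
  congr 1
  rw [prod_two, ← reflect (fun x => (3 * x) * (3 * x - 2))]
  refine prod_congr rfl fun k _ => ?_
  rw [eP_even, eP_even, eP_odd]
  ring

theorem prod_odd (m : ℕ) :
    (∏ k ∈ range m, ((3 * ((k : ℂ) + 1)) * (3 * ((k : ℂ) + 1) - 1))) *
      ∏ k ∈ range m, ((3 * ((k : ℂ) + 1)) * (3 * ((k : ℂ) + 1) - 2)) =
      3 ^ m * (m.factorial : ℂ) * ((3 * m).factorial : ℂ) := by
  induction m with
  | zero => simp
  | succ m ih =>
    rw [prod_range_succ, prod_range_succ]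
    have e : ((3 * (m + 1)).factorial : ℂ) =
        (3 * (m : ℂ) + 3) * (3 * m + 2) * (3 * m + 1) * ((3 * m).factorial : ℂ) := by
      rw [show 3 * (m + 1) = 3 * m + 1 + 1 + 1 by ring, Nat.factorial_succ (3 * m + 1 + 1),
        Nat.factorial_succ (3 * m + 1), Nat.factorial_succ (3 * m)]
      push_cast
      ring
    rw [e, Nat.factorial_succ m, pow_succ]
    push_cast
    linear_combination ((3 * ((m : ℂ) + 1)) * (3 * ((m : ℂ) + 1) - 1)) *
      ((3 * ((m : ℂ) + 1)) * (3 * ((m : ℂ) + 1) - 2)) * ih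

/-- The value at `1` for an odd number of variables. -/
theorem eval_one_odd (m : ℕ) :
    eval (fun _ => 1) (schur (2 * m + 1) eS3) * eval (fun _ => 1) (schur (2 * m + 1) eP) =
      ((D1 m ^ 2 * E1 m * (3 ^ m * m.factorial * (3 * m).factorial / (2 * m).factorial ^ 2) : ℝ) : ℂ) := by
  have h1 := value eS3 SumB.strictMono_eS3 (2 * m + 1)
  have h2 := value eP strictMono_eP (2 * m + 1)
  rw [dd_id_odd, dd_eS3_odd, dd_eS3] at h1
  rw [dd_id_odd, dd_eP_odd, ratio, dd_eS3] at h2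
  have h3 := value_ne (2 * m)
  have h4 : ((2 * m).factorial : ℂ) ≠ 0 := Nat.cast_ne_zero.2 (Nat.factorial_ne_zero _)
  have h5 := prod_odd m
  have h6 : ((E1 m : ℝ) : ℂ) = ∏ k ∈ range m, ((3 * k + 2 : ℂ) / (3 * k + 1)) := by
    rw [E1]
    push_cast
    rfl
  rw [← h6] at h2
  push_cast
  have h7 : (eval (fun _ => 1) (schur (2 * m + 1) eS3) *
      eval (fun _ => 1) (schur (2 * m + 1) eP)) * (dd (fun j => j) (2 * m) *
      ((2 * m).factorial : ℂ)) ^ 2 = ((D1 m : ℝ) : ℂ) ^ 2 * ((E1 m : ℝ) : ℂ) *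
      (3 ^ m * (m.factorial : ℂ) * ((3 * m).factorial : ℂ)) * dd (fun j => j) (2 * m) ^ 2 := by
    rw [← h5]
    calc _ = (eval (fun _ => 1) (schur (2 * m + 1) eS3) * (dd (fun j => j) (2 * m) *
          ((2 * m).factorial : ℂ))) * (eval (fun _ => 1) (schur (2 * m + 1) eP) *
          (dd (fun j => j) (2 * m) * ((2 * m).factorial : ℂ))) := by ring
      _ = _ := by rw [h1, h2]; ring
  have h8 : (eval (fun _ => 1) (schur (2 * m + 1) eS3) *
      eval (fun _ => 1) (schur (2 * m + 1) eP)) * ((2 * m).factorial : ℂ) ^ 2 =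
      ((D1 m : ℝ) : ℂ) ^ 2 * ((E1 m : ℝ) : ℂ) *
      (3 ^ m * (m.factorial : ℂ) * ((3 * m).factorial : ℂ)) := by
    apply mul_right_cancel₀ (pow_ne_zero 2 h3)
    linear_combination h7
  rw [← mul_div_assoc, eq_div_iff (pow_ne_zero 2 h4), h8]

theorem E1_pos (m : ℕ) : 0 < E1 m := by
  unfold E1
  exact prod_pos fun k _ => by positivity

theorem D1_pos (m : ℕ) : 0 < D1 m := by
  unfold D1
  exact prod_pos fun k _ => r1_pos k

/-- `p3v` in terms of the Schur values. -/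
theorem p3v_eq (m : ℕ) : ((p3v m : ℝ) : ℂ) =
    eval (fun _ => 1) (schur (2 * m) eS3) ^ 3 * eval (fun _ => 1) (schur (2 * (m + 1)) eS3) /
      ((eval (fun _ => 1) (schur (2 * m) eS3) * eval (fun _ => 1) (schur (2 * m) eP)) *
        (eval (fun _ => 1) (schur (2 * m + 1) eS3) *
          eval (fun _ => 1) (schur (2 * m + 1) eP))) := by
  rw [eval_one_odd, eval_one_schur_eS3, eval_one_schur_eS3, eval_one_schur_eP]
  norm_cast
  have h1 := D1_pos m
  have h2 := E1_pos m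
  have h3 : D1 (m + 1) = D1 m * r1 m := by
    unfold D1
    rw [prod_range_succ]
  rw [h3, r1, p3v]
  have h4 : ((3 * m + 1).factorial : ℝ) = (3 * m + 1) * ((3 * m).factorial : ℝ) := by
    rw [Nat.factorial_succ]
    push_cast
    ring
  have h5 : ((2 * m + 1).factorial : ℝ) = (2 * m + 1) * ((2 * m).factorial : ℝ) := by
    rw [Nat.factorial_succ]
    push_cast
    ring
  rw [h4, h5]
  have h6 : ((3 * m).factorial : ℝ) ≠ 0 := Nat.cast_ne_zero.2 (Nat.factorial_ne_zero _)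
  have h7 : ((2 * m).factorial : ℝ) ≠ 0 := Nat.cast_ne_zero.2 (Nat.factorial_ne_zero _)
  have h8 : (m.factorial : ℝ) ≠ 0 := Nat.cast_ne_zero.2 (Nat.factorial_ne_zero _)
  push_cast
  field_simp

theorem E1_succ (m : ℕ) : E1 (m + 1) = E1 m * ((3 * (m : ℝ) + 2) / (3 * m + 1)) := by
  unfold E1
  rw [prod_range_succ]

theorem E1_lower (m : ℕ) : 3 * (m : ℝ) + 1 ≤ E1 m ^ 3 := by
  induction m with
  | zero => simp [E1]
  | succ m ih =>
    rw [E1_succ, mul_pow, div_pow]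
    have h0 : (0 : ℝ) < (3 * (m : ℝ) + 1) ^ 3 := by positivity
    rw [← mul_div_assoc, le_div_iff₀ h0]
    push_cast
    have hm : (0 : ℝ) ≤ m := Nat.cast_nonneg m
    have h1 : (3 * ((m : ℝ) + 1) + 1) * (3 * m + 1) ^ 3 ≤ (3 * m + 1) * (3 * m + 2) ^ 3 := by
      nlinarith [mul_nonneg hm hm, mul_nonneg (mul_nonneg hm hm) hm]
    refine h1.trans ?_
    exact mul_le_mul_of_nonneg_right ih (by positivity)

theorem E1_upper (m : ℕ) (hm : 1 ≤ m) : E1 m ^ 3 ≤ 8 * (m : ℝ) := by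
  induction m, hm using Nat.le_induction with
  | base =>
    simp [E1]
    norm_num
  | succ m hm ih =>
    rw [E1_succ, mul_pow, div_pow]
    have h0 : (0 : ℝ) < (3 * (m : ℝ) + 1) ^ 3 := by positivity
    rw [← mul_div_assoc, div_le_iff₀ h0]
    push_cast
    have hm : (0 : ℝ) ≤ m := Nat.cast_nonneg m
    have h1 : 8 * (m : ℝ) * (3 * m + 2) ^ 3 ≤ 8 * (m + 1) * (3 * m + 1) ^ 3 := by
      nlinarith [mul_nonneg hm hm, mul_nonneg (mul_nonneg hm hm) hm]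
    exact (mul_le_mul_of_nonneg_right ih (by positivity)).trans h1

theorem p3v_pos (m : ℕ) : 0 < p3v m := by
  have := E1_pos m
  unfold p3v
  positivity

/-- The lower bound. -/
theorem p3v_lower (m : ℕ) (hm : 1 ≤ m) : 1 / (27 * (m : ℝ) ^ 2) ≤ p3v m ^ 3 := by
  have h0 := E1_pos m
  have h1 := E1_upper m hm
  have h2 := E1_lower m
  have hm' : (1 : ℝ) ≤ m := by exact_mod_cast hm
  have h3 : p3v m ^ 3 = (3 * (m : ℝ) + 1) ^ 3 / ((2 * m + 1) ^ 3 * (E1 m ^ 3) ^ 2) := by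
    unfold p3v
    rw [div_pow, mul_pow]
    ring
  rw [h3, div_le_div_iff₀ (by positivity) (by positivity), one_mul]
  have h4 : (E1 m ^ 3) ^ 2 ≤ (8 * (m : ℝ)) ^ 2 := pow_le_pow_left₀ (by positivity) h1 2
  calc (2 * (m : ℝ) + 1) ^ 3 * (E1 m ^ 3) ^ 2 ≤ (2 * (m : ℝ) + 1) ^ 3 * (8 * (m : ℝ)) ^ 2 :=
        mul_le_mul_of_nonneg_left h4 (by positivity)
    _ = (4 * (2 * (m : ℝ) + 1)) ^ 3 * (m : ℝ) ^ 2 := by ring
    _ ≤ (3 * (3 * (m : ℝ) + 1)) ^ 3 * (m : ℝ) ^ 2 := by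
        apply mul_le_mul_of_nonneg_right _ (by positivity)
        exact pow_le_pow_left₀ (by positivity) (by linarith) 3
    _ = _ := by ring

/-- The upper bound. -/
theorem p3v_upper (m : ℕ) (hm : 1 ≤ m) : p3v m ^ 3 ≤ 1 / (m : ℝ) ^ 2 := by
  have h0 := E1_pos m
  have h2 := E1_lower m
  have hm' : (1 : ℝ) ≤ m := by exact_mod_cast hm
  have h3 : p3v m ^ 3 = (3 * (m : ℝ) + 1) ^ 3 / ((2 * m + 1) ^ 3 * (E1 m ^ 3) ^ 2) := by
    unfold p3v
    rw [div_pow, mul_pow]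
    ring
  rw [h3, div_le_div_iff₀ (by positivity) (by positivity), one_mul]
  have h4 : (3 * (m : ℝ) + 1) ^ 2 ≤ (E1 m ^ 3) ^ 2 := pow_le_pow_left₀ (by positivity) h2 2
  calc (3 * (m : ℝ) + 1) ^ 3 * (m : ℝ) ^ 2 =
        ((3 * (m : ℝ) + 1) * m ^ 2) * (3 * (m : ℝ) + 1) ^ 2 := by ring
    _ ≤ (2 * (m : ℝ) + 1) ^ 3 * (3 * (m : ℝ) + 1) ^ 2 := by
        apply mul_le_mul_of_nonneg_right _ (by positivity)
        nlinarith [mul_nonneg (sub_nonneg.2 hm') (sub_nonneg.2 hm')]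
    _ ≤ _ := mul_le_mul_of_nonneg_left h4 (by positivity)

theorem p3v_lower_rpow (m : ℕ) (hm : 1 ≤ m) : 1 / 3 * (m : ℝ) ^ (-(2 / 3) : ℝ) ≤ p3v m := by
  have hm' : (0 : ℝ) < m := by exact_mod_cast hm
  refine le_of_pow_le_pow_left₀ (n := 3) (by norm_num) (p3v_pos m).le ?_
  refine le_trans (le_of_eq ?_) (p3v_lower m hm)
  rw [mul_pow, ← Real.rpow_natCast ((m : ℝ) ^ (-(2 / 3) : ℝ)) 3, ← Real.rpow_mul hm'.le]
  have h3 : (-(2 / 3) : ℝ) * ((3 : ℕ) : ℝ) = -((2 : ℕ) : ℝ) := by norm_num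
  rw [h3, Real.rpow_neg hm'.le, Real.rpow_natCast]
  field_simp
  norm_num

theorem p3v_upper_rpow (m : ℕ) (hm : 1 ≤ m) : p3v m ≤ (m : ℝ) ^ (-(2 / 3) : ℝ) := by
  have hm' : (0 : ℝ) < m := by exact_mod_cast hm
  refine le_of_pow_le_pow_left₀ (n := 3) (by norm_num) (by positivity) ?_
  refine (p3v_upper m hm).trans (le_of_eq ?_)
  rw [← Real.rpow_natCast ((m : ℝ) ^ (-(2 / 3) : ℝ)) 3, ← Real.rpow_mul hm'.le]
  have h3 : (-(2 / 3) : ℝ) * ((3 : ℕ) : ℝ) = -((2 : ℕ) : ℝ) := by norm_num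
  rw [h3, Real.rpow_neg hm'.le, Real.rpow_natCast, one_div]

end Num3

end Pool.Agent.Perc
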