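import Pool.Agent.Lib.MP_6bd702_perc3.Schur3B
import Pool.Agent.Lib.MP_6bd702_perc3.Num3

/-!
# The Schur product for an odd number of sites (task SchurO)
-/

set_option autoImplicit false

namespace Pool.Agent.Perc

open Finset MvPolynomial

/-- The product for `2m+1` sites. -/
noncomputable def GO (m : ℕ) : MvPolynomial ℕ ℂ :=
  schur (2 * m + 1) eS3 * schur (2 * m + 1) SumB.eP

namespace SchurO

open Uni3 QSchur

variable {q : ℂ}

theorem restrict_S (hq : q ^ 2 + q + 1 = 0) (m : ℕ) {i : ℕ} (hi : i ≤ 2 * m + 1) (v : ℂ)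
    (z : ℕ → ℂ) : eval (insV i (q ^ 2 * v) v z) (schur (2 * (m + 1) + 1) eS3) =
      (∏ k ∈ range (2 * m + 1), (z k - q * v)) * eval z (schur (2 * m + 1) eS3) := by
  have h1 := top_schur (2 * (m + 1) + 1) (m + 1) SumB.strictMono_eS3 (by unfold eS3; omega)
    (insV i (q ^ 2 * v) v z)
  have h2 := top_schur (2 * m + 1) m SumB.strictMono_eS3 (by unfold eS3; omega) z
  set F := sub1 (2 * m + 1) z (schur (2 * m + 1 + 1) eS3) with hF
  set c := (∏ k ∈ range (2 * m + 1), (z k - q * v)) with hc
  have h3 : sub1 (2 * (m + 1) + 1) (insV i (q ^ 2 * v) v z) (schur (2 * (m + 1) + 1 + 1) eS3) =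
      Polynomial.C c * ((Polynomial.X - Polynomial.C (q * v)) * F) := by
    apply Polynomial.funext
    intro y
    rw [eval_sub1]
    have h4 : (fun k => if k = 2 * (m + 1) + 1 then y else insV i (q ^ 2 * v) v z k) =
        insV i (q ^ 2 * v) v (fun k => if k = 2 * m + 1 then y else z k) := by
      funext k
      unfold insV
      by_cases h5 : k = 2 * (m + 1) + 1
      · subst h5
        rw [if_pos rfl, if_neg (by omega), if_neg (by omega), if_neg (by omega)]
        exact (if_pos (by omega)).symm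
      · rw [if_neg h5]
        by_cases h6 : k < i
        · rw [if_pos h6, if_pos h6]
          exact (if_neg (by omega)).symm
        · by_cases h7 : k = i
          · rw [if_neg h6, if_neg h6, if_pos h7, if_pos h7]
          · by_cases h8 : k = i + 1
            · rw [if_neg h6, if_neg h6, if_neg h7, if_neg h7, if_pos h8, if_pos h8]
            · rw [if_neg h6, if_neg h6, if_neg h7, if_neg h7, if_neg h8, if_neg h8]
              exact (if_neg (by omega)).symm
    have h5 := eS3_restrict hq (m + 1) (i := i) (by omega)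
      (fun k => if k = 2 * m + 1 then y else z k) v
    rw [h4, show 2 * (m + 1) + 1 + 1 = 2 * (m + 1 + 1) from rfl, h5]
    rw [Polynomial.eval_mul, Polynomial.eval_mul, Polynomial.eval_C, Polynomial.eval_sub,
      Polynomial.eval_X, Polynomial.eval_C, hF, eval_sub1]
    rw [show 2 * (m + 1) = 2 * m + 1 + 1 from rfl, prod_range_succ]
    have h6 : ∏ x ∈ range (2 * m + 1), ((if x = 2 * m + 1 then y else z x) - q * v) = c := by
      rw [hc]
      refine Finset.prod_congr rfl fun k hk => ?_
      rw [mem_range] at hk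
      rw [if_neg (by omega)]
    rw [h6, if_pos rfl]
    ring
  rw [← h1, ← h2]
  change Polynomial.coeff (sub1 (2 * (m + 1) + 1) (insV i (q ^ 2 * v) v z)
    (schur (2 * (m + 1) + 1 + 1) eS3)) (m + 1) = c * Polynomial.coeff F m
  rw [h3, Polynomial.coeff_C_mul, sub_mul, Polynomial.coeff_sub, Polynomial.coeff_X_mul,
    Polynomial.coeff_C_mul, Polynomial.coeff_eq_zero_of_natDegree_lt (n := m + 1)]
  · ring
  · refine lt_of_le_of_lt (natDegree_sub1_le _ _ _) ?_
    have h7 := Schur3.degreeOf_sg_le m (2 * m + 1)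
    rw [show 2 * (m + 1) = 2 * m + 1 + 1 from rfl] at h7
    omega

theorem restrict_P (hq : q ^ 2 + q + 1 = 0) (m : ℕ) {i : ℕ} (hi : i ≤ 2 * m + 1) (v : ℂ)
    (z : ℕ → ℂ) : eval (insV i (q ^ 2 * v) v z) (schur (2 * (m + 1) + 1) SumB.eP) =
      -q * v * (∏ k ∈ range (2 * m + 1), (z k - q * v)) * eval z (schur (2 * m + 1) SumB.eP) := by
  set ζ : ℕ → ℂ := fun k => if k = 2 * m + 1 then 0 else z k with hζ
  have hζz : ∀ k < 2 * m + 1, ζ k = z k := fun k hk => by
    rw [hζ]
    simp only
    rw [if_neg (by omega)]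
  have hins : ∀ k < 2 * (m + 1) + 1, insV i (q ^ 2 * v) v z k = insV i (q ^ 2 * v) v ζ k := by
    intro k hk
    unfold insV
    split_ifs with h1 h2 h3
    · rw [hζz k (by omega)]
    · rfl
    · rfl
    · rw [hζz (k - 2) (by omega)]
  rw [eval_schur_congr _ _ hins, ← eval_schur_congr (2 * m + 1) SumB.eP hζz]
  have h1 := zero_schur (2 * (m + 1) + 1) SumB.strictMono_eS3 (by simp [eS3])
    (insV i (q ^ 2 * v) v ζ) (by
      unfold insV
      rw [if_neg (by omega), if_neg (by omega), if_neg (by omega), hζ]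
      exact if_pos (by omega))
  have h2 := zero_schur (2 * m + 1) SumB.strictMono_eS3 (by simp [eS3]) ζ (by
    rw [hζ]
    exact if_pos rfl)
  have h3 : (fun j => eS3 (j + 1) - 1) = SumB.eP := rfl
  rw [h3] at h1 h2
  rw [← h1, ← h2]
  have h5 := eS3_restrict hq (m + 1) (i := i) (by omega) ζ v
  rw [show 2 * (m + 1) + 1 + 1 = 2 * (m + 1 + 1) from rfl, h5,
    show 2 * (m + 1) = 2 * m + 1 + 1 from rfl, prod_range_succ]
  have h6 : ∏ x ∈ range (2 * m + 1), (ζ x - q * v) = ∏ k ∈ range (2 * m + 1), (z k - q * v) := by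
    refine Finset.prod_congr rfl fun k hk => ?_
    rw [mem_range] at hk
    rw [hζz k hk]
  have h7 : ζ (2 * m + 1) = 0 := by
    rw [hζ]
    exact if_pos rfl
  rw [h6, h7]
  ring

theorem schur_one {e : ℕ → ℕ} (he : e 0 = 0) : schur (2 * 0 + 1) e = 1 := by
  have h := vdm_mul_schur (2 * 0 + 1) e
  have h1 : alt (2 * 0 + 1) e = vdm (2 * 0 + 1) := by
    rw [← alt_id]
    unfold alt
    congr 1
    ext i j : 2
    simp only [Matrix.of_apply]
    congr 1
    have hj : (j : ℕ) = 0 := by omega
    rw [hj, he]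
  rw [h1] at h
  exact mul_left_cancel₀ (SumA.vdm_ne_zero _) (h.trans (mul_one _).symm)

end SchurO

open SchurO

theorem GO_zero : GO 0 = 1 := by
  unfold GO
  rw [schur_one (by rfl), schur_one (by rfl), one_mul]

/-- The product for an odd number of sites satisfies the recursion with the constant `-q`. -/
theorem recO_GO {q : ℂ} (hq : q ^ 2 + q + 1 = 0) : RecO q (fun _ => -q) GO where
  deg m := by
    unfold GO
    refine (degreeOf_mul_le _ _ _).trans ?_
    have h1 := degreeOf_schur_le (2 * (m + 1) + 1) eS3 (d := m + 1) (by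
      intro j hj
      unfold eS3
      omega) 0
    have h2 := degreeOf_schur_le (2 * (m + 1) + 1) SumB.eP (d := m + 1) (by
      intro j hj
      unfold SumB.eP eS3
      omega) 0
    omega
  symm m i hi z := by
    unfold GO
    have h := fun e => schur_perm (2 * (m + 1) + 1) e (Equiv.swap i (i + 1))
      (fun k hk => Equiv.swap_apply_of_ne_of_ne (by omega) (by omega)) z
    rw [map_mul, map_mul]
    exact congrArg₂ (· * ·) (h eS3) (h SumB.eP)
  ins m v z _ := by
    unfold GO
    rw [map_mul, map_mul, restrict_S hq m (by omega), restrict_P hq m (by omega), Finset.prod_pow]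
    ring

/-- The sum of the components for an odd number of sites is a multiple of the product. -/
theorem RecO.eq_schur {q : ℂ} (hq : q ^ 2 + q + 1 = 0) {c : ℕ → ℂ} {F : ℕ → MvPolynomial ℕ ℂ}
    (h : RecO q c F) {a : ℕ → ℂ} (h0 : F 0 = C (a 0)) (h1 : ∀ m, a (m + 1) * (-q) = c m * a m)
    (m : ℕ) : F m = C (a m) * GO m := by
  have hG : RecO q c (fun m => C (a m) * GO m) := by
    have hg := recO_GO hq
    refine ⟨fun m => (degreeOf_C_mul_le _ _ _).trans (hg.deg m), fun m i hi z => ?_,
      fun m v z hv => ?_⟩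
    · simp only [map_mul, eval_C]
      rw [hg.symm m i hi]
    · simp only [map_mul, eval_C]
      rw [hg.ins m v z hv]
      linear_combination (v * (∏ k ∈ range (2 * m + 1), (z k - q * v) ^ 2) * eval z (GO m)) * h1 m
  refine h.unique hq hG ?_ m
  rw [h0, GO_zero, mul_one]

/-- The number of the three leg formula. -/
theorem p3v_eq_GO (m : ℕ) : ((Num3.p3v m : ℝ) : ℂ) =
    eval (fun _ => 1) (schur (2 * m) eS3) ^ 3 * eval (fun _ => 1) (schur (2 * (m + 1)) eS3) /
      ((eval (fun _ => 1) (schur (2 * m) eS3) * eval (fun _ => 1) (schur (2 * m) SumB.eP)) *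
        eval (fun _ => 1) (GO m)) := by
  rw [Num3.p3v_eq, GO, map_mul]

theorem eval_GO_ne (m : ℕ) : eval (fun _ => 1) (GO m) ≠ 0 := by
  have key : ∀ {e : ℕ → ℕ}, StrictMono e → eval (fun _ => 1) (schur (2 * m + 1) e) ≠ 0 := by
    intro e he h0
    have h1 := SumB.value e he (2 * m + 1)
    rw [h0, zero_mul] at h1
    exact SumB.dd_ne_zero he (2 * m + 1) h1.symm
  rw [GO, map_mul]
  exact mul_ne_zero (key SumB.strictMono_eS3) (key SumB.strictMono_eP)

end Pool.Agent.Perc
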