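import Pool.Agent.Lib.MP_6bd702_perc3.STB
import Pool.Agent.Lib.MP_6bd702_perc3.FSumO
import Pool.Agent.Lib.MP_6bd702_perc3.SchurO
import Pool.Agent.Lib.MP_6bd702_perq.IdentA

/-!
# The exact three-leg probability (task IdentO; with Schur3 of helper13)
-/

set_option autoImplicit false

namespace Pool.Agent.Perc

open Finset MvPolynomial

variable {q : ℂ}

namespace IdentO

/-- The constants of the sum of the components for odd circumference. -/
noncomputable def KO (q : ℂ) : ℕ → ℂ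
  | 0 => 1
  | m + 1 => KO q m / (3 * q * (9 * q) ^ m)

/-- The constants of the second three-leg family (shifted). -/
noncomputable def KT (q : ℂ) : ℕ → ℂ
  | 0 => 1 / (-q ^ 3 * (1 - q) ^ 3)
  | m + 1 => KT q m / (-3 * q ^ 2 * (9 * q) ^ (2 * m + 2))

/-- The constants of the first three-leg family. -/
noncomputable def aa (q : ℂ) : ℕ → ℂ
  | 0 => 1 / (-q * (1 - q) ^ 3)
  | m + 1 => kO q m * KT q m

/-- The constants of the second three-leg family. -/
noncomputable def bb (q : ℂ) : ℕ → ℂ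
  | 0 => 0
  | m + 1 => KT q m

theorem q_ne_one (hq : q ^ 2 + q + 1 = 0) : q ≠ 1 := by
  rintro rfl; norm_num at hq

theorem one_sub_ne (hq : q ^ 2 + q + 1 = 0) : 1 - q ≠ 0 :=
  sub_ne_zero.2 (q_ne_one hq).symm

theorem bb_mul (hq : q ^ 2 + q + 1 = 0) (m : ℕ) : bb q (m + 1) * q ^ 2 = kM q m * aa q m := by
  have h0 := IdentA.q_ne hq
  have h9 := IdentA.nine_ne hq
  have h1 := one_sub_ne hq
  cases m with
  | zero =>
    rw [bb, KT, kM, aa, pow_zero]
    field_simp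
  | succ m =>
    rw [bb, KT, kM, aa, kO]
    have h2 : (9 * q) ^ (m + 1) ≠ 0 := pow_ne_zero _ h9
    have h3 : (9 * q) ^ (2 * m + 2) = (9 * q) ^ (m + 1) * (9 * q) ^ (m + 1) := by
      rw [← pow_add]; congr 1; ring
    rw [h3]
    generalize (9 * q) ^ (m + 1) = t at h2 ⊢
    field_simp

theorem KT_eq (hq : q ^ 2 + q + 1 = 0) (m : ℕ) :
    KT q m * (1 - q ^ 2) = KF q (m + 1) * KO q (m + 1) := by
  have h0 := IdentA.q_ne hq
  have h9 := IdentA.nine_ne hq
  have h1 := one_sub_ne hq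
  induction m with
  | zero =>
    rw [KT, KF, KF, KO, KO, pow_zero]
    field_simp
    linear_combination (-q ^ 2 + 4 * q - 3) * hq
  | succ m ih =>
    have e1 : KF q (m + 1 + 1) = KF q (m + 1) / (-q * (9 * q) ^ (m + 1)) := by rw [KF]
    have e2 : KO q (m + 1 + 1) = KO q (m + 1) / (3 * q * (9 * q) ^ (m + 1)) := by rw [KO]
    rw [e1, e2, KT]
    have h2 : (9 * q) ^ (m + 1) ≠ 0 := pow_ne_zero _ h9
    have h3 : (9 * q) ^ (2 * m + 2) = (9 * q) ^ (m + 1) * (9 * q) ^ (m + 1) := by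
      rw [← pow_add]; congr 1; ring
    rw [h3]
    generalize (9 * q) ^ (m + 1) = t at h2 ⊢
    have h4 : KT q m / (-3 * q ^ 2 * (t * t)) * (1 - q ^ 2) =
        KT q m * (1 - q ^ 2) / (-3 * q ^ 2 * (t * t)) := by ring
    rw [h4, ih]
    field_simp

theorem SS3_zero (hq : q ^ 2 + q + 1 = 0) : SS3 q 0 = C (aa q 0) * PS q 0 := by
  apply MvPolynomial.funext
  intro w
  rw [eval_SS3_zero hq w, PS_zero, aa]
  simp only [map_mul, map_sub, eval_C, eval_X]
  ring

theorem TT2_eq (hq : q ^ 2 + q + 1 = 0) (m : ℕ) :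
    TT2 q (m + 1) = C (KT q m) * PT q (m + 1) :=
  ((rec3_ST hq).eq_schur hq (a := aa q) (b := bb q) (SS3_zero hq) (fun _ => rfl) (bb_mul hq) m).2

theorem FO_eq (hq : q ^ 2 + q + 1 = 0) (m : ℕ) : FO q m = C (KO q m) * GO m := by
  have h0 := IdentA.q_ne hq
  have h9 := IdentA.nine_ne hq
  refine (recO_FO hq).eq_schur hq (a := KO q) ?_ (fun m => ?_) m
  · apply MvPolynomial.funext
    intro w
    rw [eval_FO_zero hq w, eval_C, KO]
  · rw [KO]
    have h2 : (9 * q) ^ m ≠ 0 := pow_ne_zero _ h9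
    field_simp

theorem KO_ne (hq : q ^ 2 + q + 1 = 0) (m : ℕ) : KO q m ≠ 0 := by
  have h0 := IdentA.q_ne hq
  have h9 := IdentA.nine_ne hq
  induction m with
  | zero => simp [KO]
  | succ m ih =>
    rw [KO]
    exact div_ne_zero ih (mul_ne_zero (mul_ne_zero (by norm_num) h0) (pow_ne_zero _ h9))

theorem sum_eq (hq : q ^ 2 + q + 1 = 0) (m : ℕ) :
    ∑ p ∈ nco (2 * m + 1), eval (fun _ => 1) (PsiO q m p) = KO q m * eval (fun _ => 1) (GO m) := by
  have h := congrArg (eval (fun _ => (1 : ℂ))) (FO_eq hq m)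
  rw [FO, map_sum, map_mul, eval_C] at h
  exact h

end IdentO

theorem sum_PsiO_ne (hq : q ^ 2 + q + 1 = 0) (n : ℕ) :
    ∑ p ∈ nco (2 * n + 1), eval (fun _ => 1) (PsiO q n p) ≠ 0 := by
  rw [IdentO.sum_eq hq n]
  exact mul_ne_zero (IdentO.KO_ne hq n) (eval_GO_ne n)

/-- The exact value of the three-leg sum at the homogeneous point. -/
theorem tri_one (hq : q ^ 2 + q + 1 = 0) (m : ℕ) :
    ∑ s ∈ anns (2 * m + 2), ∑ p ∈ nco (2 * m + 3), eval (fun _ => 1) (PsiS q (m + 1) s) *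
      eval (fun _ => 1) (PsiO q (m + 1) p) * B2 (2 * m + 1) s p =
      ((Num3.p3v (m + 1) : ℝ) : ℂ) *
        ((∑ s ∈ anns (2 * (m + 1)), eval (fun _ => 1) (PsiS q (m + 1) s)) *
          ∑ p ∈ nco (2 * (m + 1) + 1), eval (fun _ => 1) (PsiO q (m + 1) p)) := by
  have h1 : ∑ s ∈ anns (2 * m + 2), ∑ p ∈ nco (2 * m + 3), eval (fun _ => 1) (PsiS q (m + 1) s) *
      eval (fun _ => 1) (PsiO q (m + 1) p) * B2 (2 * m + 1) s p =
      eval (fun _ => 1) (TT2 q (m + 1)) := by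
    rw [TT2, map_sum]
    refine Finset.sum_congr rfl fun s _ => ?_
    rw [map_sum]
    refine Finset.sum_congr rfl fun p _ => ?_
    rw [map_mul, map_mul, eval_C, PsiM, eval_one_recP, eval_rename]
    have e : ((fun _ => (1 : ℂ)) ∘ fun k => if k < 2 * m + 1 then k else k + 1) = fun _ => 1 := rfl
    rw [e]
    ring
  rw [h1, IdentO.TT2_eq hq, map_mul, eval_C, eval_one_PT, IdentA.sum_eq hq, IdentO.sum_eq hq,
    p3v_eq_GO, GP, map_mul, QSchurQ.eP2_eq]
  have h2 := eval_GO_ne (m + 1)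
  have h3 := eval_GP_one_ne (m + 1)
  rw [GP, map_mul, QSchurQ.eP2_eq] at h3
  have h4 := IdentO.KT_eq hq m
  generalize eval (fun _ => 1) (GO (m + 1)) = g at h2 ⊢
  generalize eval (fun _ => 1) (schur (2 * (m + 1)) eS3) = s1 at h3 ⊢
  generalize eval (fun _ => 1) (schur (2 * (m + 1)) SumB.eP) = s2 at h3 ⊢
  generalize eval (fun _ => 1) (schur (2 * (m + 1 + 1)) eS3) = s3
  have h5 : s1 ≠ 0 := left_ne_zero_of_mul h3
  have h6 : s2 ≠ 0 := right_ne_zero_of_mul h3
  have h7 : KF q (m + 1) * (s1 * s2) * (IdentO.KO q (m + 1) * g) =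
      KF q (m + 1) * IdentO.KO q (m + 1) * (s1 * s2 * g) := by ring
  rw [h7, ← h4]
  field_simp

end Pool.Agent.Perc
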