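import Pool.Agent.Lib.MP_6bd702_perc3.StatO

/-!
# Convergence to the stationary law, odd circumference (task LimO)

Model: perq/LimS.lean and perc/AnnB.lean.
-/

set_option autoImplicit false

namespace Pool.Agent.Perc

open Finset MvPolynomial Filter Topology

theorem nco_flatO {L : ℕ} (hL : L % 2 = 1) : NCO L (flatO L) := by
  have hv : ∀ x, flatO L x = if L ≤ x + 1 then x else if x % 2 = 0 then x + 1 else x - 1 :=
    fun x => rfl
  refine ⟨fun x hx => ?_, fun x => ?_, fun x hx => ?_, fun x y h1 h2 => ?_,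
    ⟨L - 1, by omega, ?_, fun x hx hp => ?_⟩⟩
  · rw [hv]
    split_ifs <;> omega
  · rw [hv x]
    split_ifs with h1 h2
    · rw [hv, if_pos h1]
    · rw [hv]
      split_ifs <;> omega
    · rw [hv]
      split_ifs <;> omega
  · rw [hv, if_pos (by omega)]
  · rw [hv] at h2 ⊢
    rw [hv]
    split_ifs at h2 ⊢ <;> omega
  · rw [hv, if_pos (by omega)]
  · rw [hv] at hp
    split_ifs at hp <;> omega

namespace LimO

/-- The site `x` is matched as in the flat state. -/
def Good (x : ℕ) (t : ℕ → ℕ) : Prop := t x = if x % 2 = 0 then x + 1 else x - 1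

theorem good_eO {i x : ℕ} {t : ℕ → ℕ} (hi : i % 2 = 0) (hx : x < i) (h : Good x t) :
    Good x (eO i t) := by
  have h3 : t x < i := by
    rw [h]
    split_ifs with h <;> omega
  unfold Good eO
  rw [if_neg (by omega), if_neg (by omega), if_neg (by omega), if_neg (by omega), h]

theorem good_new {i x : ℕ} {t : ℕ → ℕ} (hi : i % 2 = 0) (hx : i ≤ x) (hx2 : x < i + 2) :
    Good x (eO i t) := by
  unfold Good eO
  have hcase : x = i ∨ x = i + 1 := by omega
  rcases hcase with rfl | rfl
  · rw [if_pos rfl, if_pos hi]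
  · rw [if_neg (by omega), if_pos rfl, if_neg (by omega)]
    omega

theorem good_rowO (t : ℕ → ℕ) (k : ℕ) :
    ∀ x, x < k + k % 2 → Good x (rowO (fun k => decide (k % 2 = 0)) k t) := by
  induction k with
  | zero => intro x hx; omega
  | succ k ih =>
    intro x hx
    simp only [rowO]
    by_cases hk : k % 2 = 0
    · rw [if_pos (by simpa using hk)]
      rcases lt_or_ge x k with hxk | hxk
      · exact good_eO hk hxk (ih x (by omega))
      · exact good_new hk hxk (by omega)
    · rw [if_neg (by simpa using hk)]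
      exact ih x (by omega)

end LimO

open LimO

/-- The alternating row resets the state. -/
theorem trowO_reset {L : ℕ} {p : ℕ → ℕ} (h : NCO L p) :
    trowO L (fun k => decide (k % 2 = 0)) p = flatO L := by
  have hL : L % 2 = 1 := h.odd
  set t := rowO (fun k => decide (k % 2 = 0)) L (Perc.cupO L p) with ht
  have hg : ∀ x, x < L + 1 → Good x t := fun x hx => good_rowO _ L x (by omega)
  have htr := h.trowO (fun k => decide (k % 2 = 0))
  have hval : ∀ x, x + 1 < L → trowO L (fun k => decide (k % 2 = 0)) p x = flatO L x := by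
    intro x hx
    have h1 := hg x (by omega)
    have h3 : t x < L := by
      rw [h1]
      split_ifs <;> omega
    change resP L (eO L t) x = _
    unfold resP eO flatO
    rw [if_pos (by omega), if_neg (by omega), if_neg (by omega), if_neg (by omega),
      if_neg (by omega), if_neg (by omega)]
    exact h1
  funext x
  rcases lt_or_ge (x + 1) L with hx | hx
  · exact hval x hx
  · rcases eq_or_lt_of_le hx with he | hlt
    · -- the last site
      have hfl : flatO L x = x := by
        unfold flatO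
        rw [if_pos hx]
      rw [hfl]
      by_contra hne
      have hlt : trowO L (fun k => decide (k % 2 = 0)) p x < L := htr.lt x (by omega)
      set y := trowO L (fun k => decide (k % 2 = 0)) p x with hy
      have hyx : y + 1 < L := by omega
      have h1 := hval y hyx
      have h2 := htr.inv x
      rw [← hy, h1] at h2
      have h3 := (nco_flatO hL).inv y
      rw [h2, hfl] at h3
      omega
    · rw [htr.out x (by omega), (nco_flatO hL).out x (by omega)]

namespace LimO

/-- Doeblin's argument for a bounded function. -/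
theorem avgO_iterate_sub_le {L : ℕ} {f : (ℕ → ℕ) → ℂ} {B : ℝ}
    (hB : ∀ s s' : ℕ → ℕ, NCO L s → NCO L s' → ‖f s - f s'‖ ≤ B) (M : ℕ) {s s' : ℕ → ℕ}
    (h : NCO L s) (h' : NCO L s') :
    ‖((avgO L)^[M] f) s - ((avgO L)^[M] f) s'‖ ≤ (1 - 1 / 2 ^ L) ^ M * B := by
  induction M generalizing s s' with
  | zero => simpa using hB s s' h h'
  | succ M ih =>
    rw [Function.iterate_succ_apply']
    set F := (avgO L)^[M] f with hF
    unfold avgO
    rw [← sub_div, ← Finset.sum_sub_distrib]
    set T0 : Finset ℕ := (range L).filter (fun k => k % 2 = 0) with hT0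
    have hT0m : T0 ∈ (range L).powerset := by
      rw [Finset.mem_powerset]
      exact Finset.filter_subset _ _
    have hreset : ∀ t : ℕ → ℕ, NCO L t → trowO L (fun k => decide (k ∈ T0)) t = flatO L := by
      intro t ht
      rw [← trowO_reset ht]
      refine StatO.trowO_congr (fun j hj => ?_) t
      simp [hT0, hj]
    rw [norm_div]
    have h2 : ‖(2 : ℂ) ^ L‖ = 2 ^ L := by simp
    rw [h2, div_le_iff₀ (by positivity)]
    have h3 : ‖∑ T ∈ (range L).powerset, (F (trowO L (fun k => decide (k ∈ T)) s)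
        - F (trowO L (fun k => decide (k ∈ T)) s'))‖
        ≤ ∑ T ∈ (range L).powerset, if T = T0 then (0 : ℝ) else (1 - 1 / 2 ^ L) ^ M * B := by
      refine (norm_sum_le _ _).trans (Finset.sum_le_sum fun T _ => ?_)
      split_ifs with hT
      · rw [hT, hreset s h, hreset s' h', sub_self, norm_zero]
      · exact ih (h.trowO _) (h'.trowO _)
    refine h3.trans (le_of_eq ?_)
    rw [← Finset.sum_erase_add _ _ hT0m, if_pos rfl, add_zero]
    have h4 : ∀ T ∈ (range L).powerset.erase T0,
        (if T = T0 then (0 : ℝ) else (1 - 1 / 2 ^ L) ^ M * B)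
        = (1 - 1 / 2 ^ L) ^ M * B := fun T hT => if_neg (Finset.ne_of_mem_erase hT)
    rw [Finset.sum_congr rfl h4, Finset.sum_const, Finset.card_erase_of_mem hT0m,
      Finset.card_powerset, Finset.card_range, nsmul_eq_mul, pow_succ,
      Nat.cast_sub Nat.one_le_two_pow]
    push_cast
    have : (2 : ℝ) ^ L ≠ 0 := by positivity
    field_simp

/-- Stationarity for the iterates. -/
theorem stationary_iterate {q : ℂ} (hq : q ^ 2 + q + 1 = 0) (n : ℕ) (f : (ℕ → ℕ) → ℂ) (M : ℕ) :
    ∑ s ∈ nco (2 * n + 1), eval (fun _ => 1) (PsiO q n s) * ((avgO (2 * n + 1))^[M] f) s =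
      ∑ s ∈ nco (2 * n + 1), eval (fun _ => 1) (PsiO q n s) * f s := by
  induction M with
  | zero => rfl
  | succ M ih =>
    rw [Function.iterate_succ_apply']
    rw [stationaryO hq n ((avgO (2 * n + 1))^[M] f), ih]

end LimO

theorem tendsto_avgO {q : ℂ} (hq : q ^ 2 + q + 1 = 0) {n : ℕ}
    (h0 : ∑ p ∈ nco (2 * n + 1), eval (fun _ => 1) (PsiO q n p) ≠ 0) (f : (ℕ → ℕ) → ℂ) :
    Tendsto (fun M => ((avgO (2 * n + 1))^[M] f) (flatO (2 * n + 1))) atTop
      (𝓝 ((∑ p ∈ nco (2 * n + 1), eval (fun _ => 1) (PsiO q n p) * f p) /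
        ∑ p ∈ nco (2 * n + 1), eval (fun _ => 1) (PsiO q n p))) := by
  classical
  set S := ∑ s ∈ nco (2 * n + 1), eval (fun _ => 1) (PsiO q n s) with hS
  set W := ∑ s ∈ nco (2 * n + 1), eval (fun _ => 1) (PsiO q n s) * f s with hW
  -- a bound for the differences
  set B : ℝ := 2 * ∑ s ∈ nco (2 * n + 1), ‖f s‖ with hBdef
  have hB : ∀ s s' : ℕ → ℕ, NCO (2 * n + 1) s → NCO (2 * n + 1) s' → ‖f s - f s'‖ ≤ B := by
    intro s s' h h'
    have h1 : ‖f s‖ ≤ ∑ t ∈ nco (2 * n + 1), ‖f t‖ :=
      Finset.single_le_sum (f := fun t => ‖f t‖) (fun t _ => norm_nonneg _) (mem_nco.2 h)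
    have h2 : ‖f s'‖ ≤ ∑ t ∈ nco (2 * n + 1), ‖f t‖ :=
      Finset.single_le_sum (f := fun t => ‖f t‖) (fun t _ => norm_nonneg _) (mem_nco.2 h')
    calc ‖f s - f s'‖ ≤ ‖f s‖ + ‖f s'‖ := norm_sub_le _ _
      _ ≤ B := by rw [hBdef]; linarith
  have hnco0 : NCO (2 * n + 1) (flatO (2 * n + 1)) := nco_flatO (by omega)
  set g : ℕ → ℂ := fun M => ((avgO (2 * n + 1))^[M] f) (flatO (2 * n + 1)) with hg
  -- the difference
  have hdiff : ∀ M, ‖W - S * g M‖ ≤
      (∑ s ∈ nco (2 * n + 1), ‖eval (fun _ => 1) (PsiO q n s)‖) * B *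
        (1 - 1 / 2 ^ (2 * n + 1)) ^ M := by
    intro M
    have h1 : W - S * g M = ∑ s ∈ nco (2 * n + 1), eval (fun _ => 1) (PsiO q n s)
        * (((avgO (2 * n + 1))^[M] f) s - g M) := by
      rw [hW, ← LimO.stationary_iterate hq n f M, hS, Finset.sum_mul, ← Finset.sum_sub_distrib]
      refine Finset.sum_congr rfl fun s _ => ?_
      ring
    rw [h1, mul_assoc, Finset.sum_mul]
    refine (norm_sum_le _ _).trans (Finset.sum_le_sum fun s hs => ?_)
    rw [norm_mul, mul_comm B]
    exact mul_le_mul_of_nonneg_left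
      (LimO.avgO_iterate_sub_le hB M (mem_nco.1 hs) hnco0) (norm_nonneg _)
  have hlim : Tendsto (fun M : ℕ =>
      (∑ s ∈ nco (2 * n + 1), ‖eval (fun _ => 1) (PsiO q n s)‖) * B
      * ((1 : ℝ) - 1 / 2 ^ (2 * n + 1)) ^ M) atTop (𝓝 0) := by
    have h1 : Tendsto (fun M : ℕ => ((1 : ℝ) - 1 / 2 ^ (2 * n + 1)) ^ M) atTop (𝓝 0) := by
      refine tendsto_pow_atTop_nhds_zero_of_lt_one ?_ ?_
      · rw [sub_nonneg, div_le_one (by positivity)]
        exact one_le_pow₀ (by norm_num)
      · have : (0 : ℝ) < 1 / 2 ^ (2 * n + 1) := by positivity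
        linarith
    simpa using h1.const_mul ((∑ s ∈ nco (2 * n + 1), ‖eval (fun _ => 1) (PsiO q n s)‖) * B)
  have h2 : Tendsto (fun M => W - S * g M) atTop (𝓝 0) :=
    squeeze_zero_norm hdiff hlim
  have h3 : Tendsto (fun M => S * g M) atTop (𝓝 W) := by
    have := h2.const_sub W
    simpa using this
  have h4 := h3.div_const S
  refine h4.congr fun M => ?_
  rw [mul_div_cancel_left₀ _ h0]

end Pool.Agent.Perc
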