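import Pool.Agent.Lib.MP_6bd702_perc3.Cover

/-!
# Winding numbers of closed rectilinear loops

A rectilinear path is given by its first corner `u` and the list `l` of the other corners. `wnd u l f`
is the signed number of the horizontal segments above the face `f`.
-/

set_option autoImplicit false

namespace Pool.Agent.Perc3

open Finset Pool.Agent.Perc

/-- Signed indicator: the horizontal segment from `u` to `v` is above the face `f`. -/
def seg (u v f : ℤ × ℤ) : ℤ :=
  (if f.2 < u.2 then 1 else 0) * ((if f.1 < v.1 then 1 else 0) - (if f.1 < u.1 then 1 else 0))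

/-- Signed number of the horizontal segments above the face `f`. -/
def wnd : ℤ × ℤ → List (ℤ × ℤ) → ℤ × ℤ → ℤ
  | _, [], _ => 0
  | u, v :: l, f => seg u v f + wnd v l f

/-- The last corner. -/
def lst : ℤ × ℤ → List (ℤ × ℤ) → ℤ × ℤ
  | u, [] => u
  | _, v :: l => lst v l

/-- All segments are horizontal or vertical. -/
def Rectil : ℤ × ℤ → List (ℤ × ℤ) → Prop
  | _, [] => True
  | u, v :: l => (u.1 = v.1 ∨ u.2 = v.2) ∧ Rectil v l

/-- The unit edge `a` is on the segment from `u` to `v`. -/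
def OnSeg (u v : ℤ × ℤ) (a : UE) : Prop :=
  (a.2.2 = false ∧ u.2 = a.2.1 ∧ v.2 = a.2.1 ∧
    ((u.1 ≤ a.1 ∧ a.1 < v.1) ∨ (v.1 ≤ a.1 ∧ a.1 < u.1))) ∨
  (a.2.2 = true ∧ u.1 = a.1 ∧ v.1 = a.1 ∧
    ((u.2 ≤ a.2.1 ∧ a.2.1 < v.2) ∨ (v.2 ≤ a.2.1 ∧ a.2.1 < u.2)))

/-- The unit edge `a` is on the path. -/
def OnPath : ℤ × ℤ → List (ℤ × ℤ) → UE → Prop
  | _, [], _ => False
  | u, v :: l, a => OnSeg u v a ∨ OnPath v l a

/-- Indicator of the vertices on the vertical half line above `(i, j)`. -/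
def abv (i j : ℤ) (p : ℤ × ℤ) : ℤ := if p.1 = i ∧ j < p.2 then 1 else 0

theorem seg_ver {u v : ℤ × ℤ} {i j : ℤ} (hr : u.1 = v.1 ∨ u.2 = v.2)
    (h : ¬ OnSeg u v (i, j, true)) :
    seg u v (i - 1, j) = seg u v (i, j) + abv i j v - abv i j u := by
  unfold OnSeg at h
  unfold seg abv
  simp only [Bool.true_eq_false, false_and, true_and, false_or] at h
  rcases hr with hr | hr
  · split_ifs <;> omega
  · split_ifs <;> omega

theorem seg_hor {u v : ℤ × ℤ} {i j : ℤ} (hr : u.1 = v.1 ∨ u.2 = v.2)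
    (h : ¬ OnSeg u v (i, j, false)) : seg u v (i, j - 1) = seg u v (i, j) := by
  unfold OnSeg at h
  unfold seg
  simp only [Bool.false_eq_true, false_and, true_and, or_false] at h
  rcases hr with hr | hr
  · split_ifs <;> omega
  · split_ifs <;> omega

theorem wnd_ver {i j : ℤ} (l : List (ℤ × ℤ)) : ∀ (u : ℤ × ℤ), Rectil u l →
    ¬ OnPath u l (i, j, true) →
    wnd u l (i - 1, j) = wnd u l (i, j) + abv i j (lst u l) - abv i j u := by
  induction l with
  | nil =>
    intro u _ _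
    simp [wnd, lst]
  | cons v l ih =>
    intro u hr h
    unfold OnPath at h
    rw [not_or] at h
    have h1 := seg_ver hr.1 h.1
    have h2 := ih v hr.2 h.2
    unfold wnd lst
    rw [h1, h2]
    ring

theorem wnd_hor {i j : ℤ} (l : List (ℤ × ℤ)) : ∀ (u : ℤ × ℤ), Rectil u l →
    ¬ OnPath u l (i, j, false) → wnd u l (i, j - 1) = wnd u l (i, j) := by
  induction l with
  | nil =>
    intro u _ _
    simp [wnd]
  | cons v l ih =>
    intro u hr h
    unfold OnPath at h
    rw [not_or] at h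
    unfold wnd
    rw [seg_hor hr.1 h.1, ih v hr.2 h.2]

theorem abs_seg_le (u v f : ℤ × ℤ) : |seg u v f| ≤ 1 := by
  unfold seg
  rw [abs_le]
  split_ifs <;> norm_num

theorem abs_wnd_le (l : List (ℤ × ℤ)) : ∀ (u f : ℤ × ℤ), |wnd u l f| ≤ l.length := by
  induction l with
  | nil =>
    intro u f
    simp [wnd]
  | cons v l ih =>
    intro u f
    unfold wnd
    have h1 := abs_seg_le u v f
    have h2 := ih v f
    have h3 := abs_add_le (seg u v f) (wnd v l f)
    rw [List.length_cons]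
    push_cast
    linarith

/-- All corners but the last have the property `P`. -/
def Init (P : ℤ × ℤ → Prop) : ℤ × ℤ → List (ℤ × ℤ) → Prop
  | _, [] => True
  | u, v :: l => P u ∧ Init P v l

theorem Init.mono {P Q : ℤ × ℤ → Prop} (h : ∀ u, P u → Q u) (l : List (ℤ × ℤ)) :
    ∀ u, Init P u l → Init Q u l := by
  induction l with
  | nil => intro u _; trivial
  | cons v l ih => intro u hu; exact ⟨h u hu.1, ih v hu.2⟩

/-- No segment is above `f` if all corners but the last are not above `f`. -/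
theorem wnd_eq_zero {f : ℤ × ℤ} (l : List (ℤ × ℤ)) : ∀ u, Init (fun p => p.2 ≤ f.2) u l →
    wnd u l f = 0 := by
  induction l with
  | nil => intro u _; rfl
  | cons v l ih =>
    intro u hu
    unfold wnd
    rw [ih v hu.2]
    unfold seg
    rw [if_neg (not_lt.2 hu.1)]
    ring

/-- If all corners but the last are above `f`, the winding number depends only on the ends. -/
theorem wnd_eq_ends {f : ℤ × ℤ} (l : List (ℤ × ℤ)) : ∀ u, Init (fun p => f.2 < p.2) u l →
    wnd u l f = (if f.1 < (lst u l).1 then 1 else 0) - (if f.1 < u.1 then 1 else 0) := by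
  induction l with
  | nil =>
    intro u _
    simp only [wnd, lst]
    exact (sub_self _).symm
  | cons v l ih =>
    intro u hu
    unfold wnd lst
    rw [ih v hu.2]
    unfold seg
    rw [if_pos hu.1]
    ring

/-! ### The corridor -/

/-- The rectilinear path with the corners `u` and `l` starts in the open box of radius `d`, all
corners but the last are in the rectangle `[-L, L] × [-w, w]` and the last one is next to it. -/
structure Corr (L w d : ℤ) (u : ℤ × ℤ) (l : List (ℤ × ℤ)) : Prop where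
  rect : Rectil u l
  inn : |u.1| < d ∧ |u.2| < d
  mid : Init (fun p => |p.1| ≤ L ∧ |p.2| ≤ w) u l
  out : (|(lst u l).1| ≤ L ∧ |(lst u l).2| = w + 1) ∨ (|(lst u l).1| = L + 1 ∧ |(lst u l).2| ≤ w)

/-- The path outside the rectangle. -/
def outp (L w : ℤ) (p : ℤ × ℤ) : List (ℤ × ℤ) :=
  if p.2 = -(w + 1) then [(-L - 1, -(w + 1)), (-L - 1, 0)]
  else if p.1 = -L - 1 then [(-L - 1, 0)]
  else [(p.1, w + 1), (-L - 1, w + 1), (-L - 1, 0)]

/-- The index of the face `f` with respect to the corridor. -/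
def ind (L w : ℤ) (u : ℤ × ℤ) (l : List (ℤ × ℤ)) (f : ℤ × ℤ) : ℤ :=
  wnd (-1, 0) [(u.1, 0), u] f + wnd u l f + wnd (lst u l) (outp L w (lst u l)) f +
    seg (-L - 1, 0) (-1, 0) f

/-- The index of the unit edge `a` with respect to the corridor. -/
def indE (L w : ℤ) (u : ℤ × ℤ) (l : List (ℤ × ℤ)) (a : UE) : ℤ := ind L w u l (a.1, a.2.1)

theorem outp_cases (L w : ℤ) (p : ℤ × ℤ) :
    (p.2 = -(w + 1) ∧ outp L w p = [(-L - 1, -(w + 1)), (-L - 1, 0)]) ∨
    (p.2 ≠ -(w + 1) ∧ p.1 = -L - 1 ∧ outp L w p = [(-L - 1, 0)]) ∨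
    (p.2 ≠ -(w + 1) ∧ p.1 ≠ -L - 1 ∧ outp L w p = [(p.1, w + 1), (-L - 1, w + 1), (-L - 1, 0)]) := by
  unfold outp
  split_ifs with h1 h2
  · exact Or.inl ⟨h1, rfl⟩
  · exact Or.inr (Or.inl ⟨h1, h2, rfl⟩)
  · exact Or.inr (Or.inr ⟨h1, h2, rfl⟩)

theorem lst_outp {L w : ℤ} (p : ℤ × ℤ) : lst p (outp L w p) = (-L - 1, 0) := by
  unfold outp
  split_ifs <;> rfl

theorem rectil_outp {L w : ℤ} {p : ℤ × ℤ}
    (hp : (|p.1| ≤ L ∧ |p.2| = w + 1) ∨ (|p.1| = L + 1 ∧ |p.2| ≤ w)) :
    Rectil p (outp L w p) := by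
  unfold outp
  split_ifs with h1 h2
  · simp [Rectil, h1]
  · simp [Rectil, h2]
  · simp [Rectil]

variable {L w d : ℤ} {u : ℤ × ℤ} {l : List (ℤ × ℤ)}

/-- The unit edges of the path outside are not in the rectangle. -/
theorem outp_out (hL : 0 ≤ L) (hw : 0 ≤ w) {p : ℤ × ℤ}
    (hp : (|p.1| ≤ L ∧ |p.2| = w + 1) ∨ (|p.1| = L + 1 ∧ |p.2| ≤ w)) {a : UE}
    (ha : OnPath p (outp L w p) a) (h1 : -L ≤ a.1) (h2 : a.1 ≤ L) (h3 : -w - 1 ≤ a.2.1)
    (h4 : a.2.1 ≤ w) : a.2.2 = false ∧ a.2.1 = -w - 1 := by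
  obtain ⟨i, j, b⟩ := a
  simp only at h1 h2 h3 h4 ⊢
  unfold outp at ha
  split_ifs at ha with h5 h6
  · simp only [OnPath, OnSeg, or_false] at ha
    rcases ha with (ha | ha) | (ha | ha)
    · exact ⟨ha.1, by omega⟩
    · omega
    · omega
    · omega
  · simp only [OnPath, OnSeg, or_false] at ha
    omega
  · simp only [OnPath, OnSeg, or_false] at ha
    have h7 : p.1 = L + 1 ∨ p.2 = w + 1 := by
      rcases hp with hp | hp
      · right
        rcases abs_eq (by omega : (0:ℤ) ≤ w + 1) |>.1 hp.2 with h | h <;> omega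
      · left
        rcases abs_eq (by omega : (0:ℤ) ≤ L + 1) |>.1 hp.1 with h | h <;> omega
    omega

theorem inn_out (hd : 1 < d) (hu : |u.1| < d ∧ |u.2| < d) {a : UE}
    (ha : OnPath (-1, 0) [(u.1, 0), u] a) :
    -d < a.1 ∧ a.1 < d ∧ -d < a.2.1 ∧ a.2.1 < d ∧ (a.2.2 = false → a.1 < d - 1) ∧
      (a.2.2 = true → a.2.1 < d - 1) := by
  obtain ⟨i, j, b⟩ := a
  simp only [OnPath, OnSeg, or_false] at ha
  rw [abs_lt, abs_lt] at hu
  simp only
  rcases ha with (ha | ha) | (ha | ha)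
  · obtain ⟨h0, h1⟩ := ha
    subst h0
    simp
    omega
  · omega
  · omega
  · obtain ⟨h0, h1⟩ := ha
    subst h0
    simp
    omega

/-- The index does not change across a vertical unit edge. -/
theorem ind_ver (hc : Corr L w d u l) {i j : ℤ}
    (h1 : ¬ OnPath (-1, 0) [(u.1, 0), u] (i, j, true)) (h2 : ¬ OnPath u l (i, j, true))
    (h3 : ¬ OnPath (lst u l) (outp L w (lst u l)) (i, j, true)) :
    ind L w u l (i - 1, j) = ind L w u l (i, j) := by
  unfold ind
  rw [wnd_ver _ _ (by simp [Rectil]) h1, wnd_ver _ _ hc.rect h2,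
    wnd_ver _ _ (rectil_outp hc.out) h3, lst_outp]
  rw [seg_ver (u := (-L - 1, 0)) (v := (-1, 0)) (i := i) (j := j) (Or.inr rfl)
    (by unfold OnSeg; simp)]
  simp only [lst]
  ring

/-- The index changes by one across the cut, and does not change across the other horizontal
unit edges. -/
theorem ind_hor (hc : Corr L w d u l) (hL : 0 ≤ L) {i j : ℤ}
    (h1 : ¬ OnPath (-1, 0) [(u.1, 0), u] (i, j, false)) (h2 : ¬ OnPath u l (i, j, false))
    (h3 : ¬ OnPath (lst u l) (outp L w (lst u l)) (i, j, false)) :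
    ind L w u l (i, j - 1) =
      ind L w u l (i, j) + if j = 0 ∧ i ≤ -2 ∧ -L - 1 ≤ i then 1 else 0 := by
  unfold ind
  rw [wnd_hor _ _ (by simp [Rectil]) h1, wnd_hor _ _ hc.rect h2,
    wnd_hor _ _ (rectil_outp hc.out) h3]
  have : seg (-L - 1, 0) (-1, 0) (i, j - 1) = seg (-L - 1, 0) (-1, 0) (i, j) +
      if j = 0 ∧ i ≤ -2 ∧ -L - 1 ≤ i then 1 else 0 := by
    unfold seg
    split_ifs <;> omega
  rw [this]
  ring

theorem abs_ind_le (f : ℤ × ℤ) : |ind L w u l f| ≤ l.length + 6 := by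
  unfold ind
  have h1 := abs_wnd_le [(u.1, 0), u] (-1, 0) f
  have h2 := abs_wnd_le l u f
  have h3 := abs_wnd_le (outp L w (lst u l)) (lst u l) f
  have h4 := abs_seg_le (-L - 1, 0) (-1, 0) f
  have h5 : (outp L w (lst u l)).length ≤ 3 := by
    unfold outp
    split_ifs <;> simp
  have h5' : ((outp L w (lst u l)).length : ℤ) ≤ 3 := by exact_mod_cast h5
  simp only [List.length_cons, List.length_nil] at h1
  push_cast at h1
  rw [abs_le] at *
  constructor <;> linarith

/-- The index above the rectangle. -/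
theorem ind_top (hc : Corr L w d u l) (hd : 1 < d) (hdw : d ≤ w) {x : ℤ}
    (hx : -L - 1 ≤ x) :
    ind L w u l (x, w) = 0 ∨ (ind L w u l (x, w) = -1 ∧ (lst u l).2 ≠ -(w + 1)) := by
  have hu := hc.inn
  rw [abs_lt, abs_lt] at hu
  unfold ind
  rw [wnd_eq_zero [(u.1, 0), u] (-1, 0) ⟨by simp only; omega, by simp only; omega, trivial⟩,
    wnd_eq_zero l u (hc.mid.mono (fun p hp => by rw [abs_le, abs_le] at hp; exact hp.2.2) l u)]
  have h3 : seg (-L - 1, 0) (-1, 0) (x, w) = 0 := by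
    unfold seg
    rw [if_neg (by simp only; omega)]
    ring
  rw [h3]
  rcases outp_cases L w (lst u l) with ⟨h1, h2⟩ | ⟨h1, h2, h4⟩ | ⟨h1, h2, h4⟩
  · left
    rw [h2]
    simp only [wnd, seg]
    rw [if_neg (by omega), if_neg (by omega)]
    ring
  · left
    rw [h4]
    simp only [wnd, seg, h2]
    ring
  · rw [h4]
    simp only [wnd, seg]
    split_ifs <;> omega

/-- The index below the rectangle. -/
theorem ind_bot (hc : Corr L w d u l) (hd : 1 < d) (hdw : d ≤ w) (hL : 0 ≤ L) {x : ℤ}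
    (hx : -L - 1 ≤ x) :
    ind L w u l (x, -w - 1) = 0 ∨ (ind L w u l (x, -w - 1) = 1 ∧ (lst u l).2 = -(w + 1)) := by
  have hu := hc.inn
  rw [abs_lt, abs_lt] at hu
  unfold ind
  rw [wnd_eq_ends [(u.1, 0), u] (-1, 0) ⟨by simp only; omega, by simp only; omega, trivial⟩,
    wnd_eq_ends l u (hc.mid.mono (fun p hp => by
      rw [abs_le, abs_le] at hp; simp only; omega) l u)]
  have h3 : seg (-L - 1, 0) (-1, 0) (x, -w - 1) =
      (if x < -1 then 1 else 0) - (if x < -L - 1 then 1 else 0) := by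
    unfold seg
    rw [if_pos (by simp only; omega)]
    ring
  rw [h3]
  simp only [lst]
  have ho := hc.out
  rw [abs_le, abs_le] at ho
  have h4 : (lst u l).2 = -(w + 1) ∨ -w ≤ (lst u l).2 := by
    rcases ho with ho | ho
    · rcases abs_eq (by omega : (0:ℤ) ≤ w + 1) |>.1 ho.2 with h | h
      · right; omega
      · left; omega
    · right; omega
  have h5 : (lst u l).2 = -(w + 1) → -L ≤ (lst u l).1 ∧ (lst u l).1 ≤ L := by
    intro h
    rcases ho with ho | ho <;> omega
  have h6 : -L - 1 ≤ (lst u l).1 := by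
    rcases ho with ho | ho
    · omega
    · rcases abs_eq (by omega : (0:ℤ) ≤ L + 1) |>.1 ho.1 with h | h <;> omega
  rcases outp_cases L w (lst u l) with ⟨h1, h2⟩ | ⟨h1, h2, h7⟩ | ⟨h1, h2, h7⟩
  · rw [h2]
    simp only [wnd, seg]
    split_ifs <;> omega
  · rw [h7]
    simp only [wnd, seg]
    split_ifs <;> omega
  · rw [h7]
    simp only [wnd, seg]
    split_ifs <;> omega

end Pool.Agent.Perc3
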