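import Pool.Agent.Lib.MP_6bd702_perc3.OStDefs
import Pool.Agent.Lib.MP_6bd702_perc.PatA
import Pool.Agent.Lib.MP_6bd702_perc.PatB

/-!
# Odd states: generators, insertion, deletion, rotation
-/

set_option autoImplicit false

namespace Pool.Agent.Perc

open Finset PatA PatB

variable {N : ℕ} {p : ℕ → ℕ}

namespace OStA

/-- The involution part of the structure. -/
theorem swap (h : ∀ x, p (p x) = x) {x y : ℕ} : p x = y ↔ p y = x :=
  ⟨fun e => by rw [← e, h], fun e => by rw [← e, h]⟩

/-- values of `eO` -/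
theorem eO_left (i : ℕ) (p : ℕ → ℕ) : eO i p i = i + 1 := by
  unfold eO; rw [if_pos rfl]

theorem eO_right (i : ℕ) (p : ℕ → ℕ) : eO i p (i + 1) = i := by
  unfold eO; rw [if_neg (by omega), if_pos rfl]

theorem eO_a {i x : ℕ} (p : ℕ → ℕ) (h1 : x ≠ i) (h2 : x ≠ i + 1) (h3 : p x = i) :
    eO i p x = if p (i + 1) = i + 1 then x else p (i + 1) := by
  unfold eO; rw [if_neg h1, if_neg h2, if_pos h3]

theorem eO_b {i x : ℕ} (p : ℕ → ℕ) (h1 : x ≠ i) (h2 : x ≠ i + 1) (h3 : p x = i + 1) :
    eO i p x = if p i = i then x else p i := by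
  unfold eO; rw [if_neg h1, if_neg h2, if_neg (by omega), if_pos h3]

theorem eO_other {i x : ℕ} (p : ℕ → ℕ) (h1 : x ≠ i) (h2 : x ≠ i + 1) (h3 : p x ≠ i)
    (h4 : p x ≠ i + 1) : eO i p x = p x := by
  unfold eO; rw [if_neg h1, if_neg h2, if_neg h3, if_neg h4]

end OStA

open OStA

theorem NCO.swap (h : NCO N p) {x y : ℕ} : p x = y ↔ p y = x := OStA.swap h.inv

theorem NCO.btw (h : NCO N p) {s t : ℕ} (ht : Bt s (p s) t) : Bt s (p s) (p t) := by
  rcases ht with ht | ht
  · exact Or.inl (h.nc s t ht.1 ht.2)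
  · have := h.nc (p s) t ht.1 (by rw [h.inv]; exact ht.2)
    rw [h.inv] at this
    exact Or.inr this

theorem NCO.of_btw (h1 : ∀ x < N, p x < N) (h2 : ∀ x, p (p x) = x)
    (h4 : ∀ x, N ≤ x → p x = x) (h5 : ∀ s t, Bt s (p s) t → Bt s (p s) (p t))
    (h3 : ∃ t < N, p t = t ∧ ∀ x < N, p x = x → x = t) : NCO N p := by
  refine ⟨h1, h2, h4, fun x y hxy hy => ?_, h3⟩
  rcases h5 x y (Or.inl ⟨hxy, hy⟩) with h | h
  · exact h
  · exact absurd (h.1.trans h.2) (by omega)

/-- The fixed point is unique. -/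
theorem NCO.fix_unique (h : NCO N p) {x y : ℕ} (hx : x < N) (hy : y < N) (h1 : p x = x)
    (h2 : p y = y) : x = y := by
  obtain ⟨t, _, _, h3⟩ := h.fix
  rw [h3 x hx h1, h3 y hy h2]

theorem NCO.eO (h : NCO N p) {i : ℕ} (hi : i + 1 < N) : NCO N (eO i p) := by
  have hli := h.lt i (by omega)
  have hli1 := h.lt (i + 1) hi
  -- in the cases `a`, `b`
  have key1 : ∀ x, x ≠ i → x ≠ i + 1 → p x = i → p i = x ∧ p i ≠ i ∧ p (i + 1) ≠ i := by
    intro x h1 h2 h3
    have h4 := h.swap.1 h3
    refine ⟨h4, by omega, fun e => ?_⟩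
    rw [h.swap, h4] at e
    exact h2 e
  have key2 : ∀ x, x ≠ i → x ≠ i + 1 → p x = i + 1 →
      p (i + 1) = x ∧ p (i + 1) ≠ i + 1 ∧ p i ≠ i + 1 := by
    intro x h1 h2 h3
    have h4 := h.swap.1 h3
    refine ⟨h4, by omega, fun e => ?_⟩
    rw [h.swap, h4] at e
    exact h1 e
  have hnot : ¬ (p i = i ∧ p (i + 1) = i + 1) := by
    rintro ⟨h1, h2⟩
    have := h.fix_unique (by omega) hi h1 h2
    omega
  refine NCO.of_btw ?_ ?_ ?_ ?_ ?_
  · intro x hx
    rcases PatA.cases i x p with rfl | rfl | ⟨h1, h2, h3⟩ | ⟨h1, h2, h3⟩ | ⟨h1, h2, h3, h4⟩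
    · rw [eO_left]; exact hi
    · rw [eO_right]; omega
    · rw [eO_a p h1 h2 h3]; split_ifs
      · exact hx
      · exact hli1
    · rw [eO_b p h1 h2 h3]; split_ifs
      · exact hx
      · exact hli
    · rw [eO_other p h1 h2 h3 h4]; exact h.lt x hx
  · intro x
    rcases PatA.cases i x p with rfl | rfl | ⟨h1, h2, h3⟩ | ⟨h1, h2, h3⟩ | ⟨h1, h2, h3, h4⟩
    · rw [eO_left, eO_right]
    · rw [eO_right, eO_left]
    · obtain ⟨h4, h5, h6⟩ := key1 x h1 h2 h3
      by_cases hb : p (i + 1) = i + 1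
      · rw [eO_a p h1 h2 h3, if_pos hb, eO_a p h1 h2 h3, if_pos hb]
      · rw [eO_a p h1 h2 h3, if_neg hb, eO_b p h6 hb (h.inv _), if_neg h5, h4]
    · obtain ⟨h4, h5, h6⟩ := key2 x h1 h2 h3
      by_cases hb : p i = i
      · rw [eO_b p h1 h2 h3, if_pos hb, eO_b p h1 h2 h3, if_pos hb]
      · rw [eO_b p h1 h2 h3, if_neg hb, eO_a p hb h6 (h.inv _), if_neg h5, h4]
    · rw [eO_other p h1 h2 h3 h4, eO_other p h3 h4 (by rw [h.inv]; exact h1)
        (by rw [h.inv]; exact h2), h.inv]
  · intro x hx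
    have := h.out x hx
    rw [eO_other p (by omega) (by omega) (by omega) (by omega)]
    exact this
  · intro s t hst
    have hpt : ∀ s, Bt s (p s) t ↔ Bt s (p s) (p t) := fun s =>
      ⟨fun hh => h.btw hh, fun hh => by have := h.btw hh; rwa [h.inv] at this⟩
    rcases PatA.cases i s p with rfl | rfl | ⟨s1, s2, s3⟩ | ⟨s1, s2, s3⟩ | ⟨s1, s2, s3, s4⟩
    · rw [eO_left] at hst
      exfalso; unfold Bt at hst; omega
    · rw [eO_right] at hst
      exfalso; unfold Bt at hst; omega
    · obtain ⟨s4, s5, s6⟩ := key1 s s1 s2 s3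
      rw [eO_a p s1 s2 s3] at hst ⊢
      by_cases hb : p (i + 1) = i + 1
      · rw [if_pos hb] at hst
        exfalso; unfold Bt at hst; omega
      rw [if_neg hb] at hst ⊢
      rcases PatA.cases i t p with rfl | rfl | ⟨t1, t2, t3⟩ | ⟨t1, t2, t3⟩ | ⟨t1, t2, t3, t4⟩
      · rw [eO_left]; unfold Bt at *; omega
      · rw [eO_right]; unfold Bt at *; omega
      · exfalso
        have := (key1 t t1 t2 t3).1
        unfold Bt at hst; omega
      · exfalso
        have := (key2 t t1 t2 t3).1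
        unfold Bt at hst; omega
      · rw [eO_other p t1 t2 t3 t4]
        have e1 := hpt i
        have e2 := hpt (i + 1)
        rw [s4] at e1
        refine PatA.btw_xor e1 e2 t1 t2 ?_ ?_ t3 t4 ?_ ?_ hst
        · rintro rfl; exact t3 s3
        · rintro rfl; exact t4 (h.inv _)
        · intro e; rw [h.swap, s3] at e; exact t1 e.symm
        · intro e
          have := congrArg p e
          rw [h.inv, h.inv] at this
          exact t2 this
    · obtain ⟨s4, s5, s6⟩ := key2 s s1 s2 s3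
      rw [eO_b p s1 s2 s3] at hst ⊢
      by_cases hb : p i = i
      · rw [if_pos hb] at hst
        exfalso; unfold Bt at hst; omega
      rw [if_neg hb] at hst ⊢
      rcases PatA.cases i t p with rfl | rfl | ⟨t1, t2, t3⟩ | ⟨t1, t2, t3⟩ | ⟨t1, t2, t3, t4⟩
      · rw [eO_left]; unfold Bt at *; omega
      · rw [eO_right]; unfold Bt at *; omega
      · exfalso
        have := (key1 t t1 t2 t3).1
        unfold Bt at hst; omega
      · exfalso
        have := (key2 t t1 t2 t3).1
        unfold Bt at hst; omega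
      · rw [eO_other p t1 t2 t3 t4]
        have e1 := hpt i
        have e2 := hpt (i + 1)
        rw [s4] at e2
        refine PatA.btw_comm (PatA.btw_xor e1 e2 t1 t2 ?_ ?_ t3 t4 ?_ ?_ (PatA.btw_comm hst))
        · rintro rfl; exact t3 (h.inv _)
        · rintro rfl; exact t4 s3
        · intro e
          have := congrArg p e
          rw [h.inv, h.inv] at this
          exact t1 this
        · intro e; rw [h.swap, s3] at e; exact t2 e.symm
    · rw [eO_other p s1 s2 s3 s4] at hst ⊢
      rcases PatA.cases i t p with rfl | rfl | ⟨t1, t2, t3⟩ | ⟨t1, t2, t3⟩ | ⟨t1, t2, t3, t4⟩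
      · rw [eO_left]; unfold Bt at *; omega
      · rw [eO_right]; unfold Bt at *; omega
      · rw [eO_a p t1 t2 t3]
        by_cases hb : p (i + 1) = i + 1
        · rw [if_pos hb]; exact hst
        rw [if_neg hb]
        have e1 := h.btw hst
        rw [t3] at e1
        apply h.btw
        unfold Bt at e1 ⊢; omega
      · rw [eO_b p t1 t2 t3]
        by_cases hb : p i = i
        · rw [if_pos hb]; exact hst
        rw [if_neg hb]
        have e1 := h.btw hst
        rw [t3] at e1
        apply h.btw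
        unfold Bt at e1 ⊢; omega
      · rw [eO_other p t1 t2 t3 t4]
        exact h.btw hst
  · obtain ⟨t, ht, h1, h2⟩ := h.fix
    by_cases ti : t = i
    · -- the through line is at `i`
      subst ti
      have hb : p (t + 1) ≠ t + 1 := fun e => hnot ⟨h1, e⟩
      have hb' : p (t + 1) ≠ t := by
        intro e; rw [h.swap] at e; omega
      refine ⟨p (t + 1), hli1, ?_, ?_⟩
      · rw [eO_b p hb' hb (h.inv _), if_pos h1]
      · intro x hx hx'
        rcases PatA.cases t x p with rfl | rfl | ⟨x1, x2, x3⟩ | ⟨x1, x2, x3⟩ | ⟨x1, x2, x3, x4⟩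
        · rw [eO_left] at hx'; omega
        · rw [eO_right] at hx'; omega
        · have := (key1 x x1 x2 x3).1; omega
        · exact (key2 x x1 x2 x3).1.symm
        · rw [eO_other p x1 x2 x3 x4] at hx'
          exact absurd (h2 x hx hx') x1
    by_cases ti1 : t = i + 1
    · subst ti1
      have ha : p i ≠ i := fun e => hnot ⟨e, h1⟩
      have ha' : p i ≠ i + 1 := by
        intro e; rw [h.swap] at e; omega
      refine ⟨p i, hli, ?_, ?_⟩
      · rw [eO_a p ha ha' (h.inv _), if_pos h1]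
      · intro x hx hx'
        rcases PatA.cases i x p with rfl | rfl | ⟨x1, x2, x3⟩ | ⟨x1, x2, x3⟩ | ⟨x1, x2, x3, x4⟩
        · rw [eO_left] at hx'; omega
        · rw [eO_right] at hx'; omega
        · exact (key1 x x1 x2 x3).1.symm
        · have := (key2 x x1 x2 x3).1; omega
        · rw [eO_other p x1 x2 x3 x4] at hx'
          exact absurd (h2 x hx hx') x2
    · refine ⟨t, ht, ?_, ?_⟩
      · rw [eO_other p ti ti1 (by omega) (by omega)]; exact h1
      · intro x hx hx'
        have hi' : p i ≠ i := fun e => ti (h2 i (by omega) e).symm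
        have hi1' : p (i + 1) ≠ i + 1 := fun e => ti1 (h2 (i + 1) hi e).symm
        rcases PatA.cases i x p with rfl | rfl | ⟨x1, x2, x3⟩ | ⟨x1, x2, x3⟩ | ⟨x1, x2, x3, x4⟩
        · rw [eO_left] at hx'; omega
        · rw [eO_right] at hx'; omega
        · rw [eO_a p x1 x2 x3, if_neg hi1'] at hx'
          have := h.inv (i + 1)
          rw [hx', x3] at this
          omega
        · rw [eO_b p x1 x2 x3, if_neg hi'] at hx'
          have := h.inv i
          rw [hx', x3] at this
          omega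
        · rw [eO_other p x1 x2 x3 x4] at hx'
          exact h2 x hx hx'

theorem NCO.insArc (h : NCO N p) {i : ℕ} (hi : i ≤ N) : NCO (N + 2) (insArc i p) := by
  constructor
  · intro x hx
    rcases cases_sh i x with rfl | rfl | ⟨a, rfl⟩
    · rw [ins_left]; omega
    · rw [ins_right]; omega
    · rw [ins_sh, sh_lt_iff hi]
      rw [sh_lt_iff hi] at hx
      exact h.lt a hx
  · intro x
    rcases cases_sh i x with rfl | rfl | ⟨a, rfl⟩
    · rw [ins_left, ins_right]
    · rw [ins_right, ins_left]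
    · rw [ins_sh, ins_sh, h.inv]
  · intro x hx
    rcases cases_sh i x with rfl | rfl | ⟨a, rfl⟩
    · omega
    · omega
    · rw [ins_sh, sh_inj]
      apply h.out
      by_contra hc
      have := (sh_lt_iff (N := N) hi (x := a)).mpr (by omega)
      omega
  · intro x y hxy hy
    rcases cases_sh i x with rfl | rfl | ⟨a, rfl⟩
    · rw [ins_left] at hy; omega
    · rw [ins_right] at hy; omega
    · rw [ins_sh] at hy ⊢
      have h1 := sh_ne (i := i) (x := a)
      have h2 := sh_ne' (i := i) (x := a)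
      have h3 := sh_ne (i := i) (x := p a)
      have h4 := sh_ne' (i := i) (x := p a)
      rcases cases_sh i y with rfl | rfl | ⟨b, rfl⟩
      · rw [ins_left]; omega
      · rw [ins_right]; omega
      · rw [ins_sh]
        rw [sh_lt] at hxy hy ⊢
        rw [sh_lt]
        exact h.nc a b hxy hy
  · obtain ⟨t, ht, h1, h2⟩ := h.fix
    refine ⟨sh i t, (sh_lt_iff hi).2 ht, by rw [ins_sh, h1], ?_⟩
    intro x hx hx'
    rcases cases_sh i x with rfl | rfl | ⟨a, rfl⟩
    · rw [ins_left] at hx'; omega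
    · rw [ins_right] at hx'; omega
    · rw [ins_sh, sh_inj] at hx'
      rw [h2 a ((sh_lt_iff hi).1 hx) hx']

theorem OStA.sh_del (h : ∀ x, p (p x) = x) {i : ℕ} (hp : p i = i + 1) (x : ℕ) :
    sh i (Perc.delArc i p x) = p (sh i x) := by
  have hp' : p (i + 1) = i := by rw [← hp, h]
  have h1 : p (sh i x) ≠ i := by
    intro h1
    have := h (sh i x)
    rw [h1, hp] at this
    exact sh_ne' this.symm
  have h2 : p (sh i x) ≠ i + 1 := by
    intro h2
    have := h (sh i x)
    rw [h2, hp'] at this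
    exact sh_ne this.symm
  have e : Perc.delArc i p x = if p (sh i x) < i then p (sh i x) else p (sh i x) - 2 := rfl
  rw [e]
  generalize p (sh i x) = y at h1 h2 ⊢
  unfold sh
  by_cases hy : y < i
  · rw [if_pos hy, if_pos hy]
  · rw [if_neg hy, if_neg (by omega)]; omega

theorem NCO.delArc (h : NCO (N + 2) p) {i : ℕ} (hi : i < N + 1) (hp : p i = i + 1) :
    NCO N (delArc i p) := by
  have hs := OStA.sh_del h.inv hp
  constructor
  · intro x hx
    rw [← sh_lt_iff (N := N) (i := i) (by omega), hs]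
    exact h.lt _ ((sh_lt_iff (by omega)).mpr hx)
  · intro x
    rw [← sh_inj (i := i), hs, hs, h.inv]
  · intro x hx
    rw [← sh_inj (i := i), hs]
    apply h.out
    by_contra hc
    have := (sh_lt_iff (N := N) (i := i) (x := x) (by omega)).mp (by omega)
    omega
  · intro x y hxy hy
    have h1 := h.nc (sh i x) (sh i y) (sh_lt.mpr hxy) (by rw [← hs]; exact sh_lt.mpr hy)
    rw [← hs, ← hs, sh_lt, sh_lt] at h1
    exact h1
  · obtain ⟨t, ht, h1, h2⟩ := h.fix
    have hp' : p (i + 1) = i := by rw [← hp, h.inv]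
    rcases cases_sh i t with rfl | rfl | ⟨a, rfl⟩
    · omega
    · omega
    · refine ⟨a, (sh_lt_iff (by omega)).1 ht, ?_, ?_⟩
      · rw [← sh_inj (i := i), hs, h1]
      · intro x hx hx'
        rw [← sh_inj (i := i), hs] at hx'
        exact sh_inj.1 (h2 (sh i x) ((sh_lt_iff (by omega)).2 hx) hx')

theorem insArc_delArcO (h : NCO (N + 2) p) {i : ℕ} (hp : p i = i + 1) :
    Perc.insArc i (delArc i p) = p := by
  funext x
  rcases cases_sh i x with rfl | rfl | ⟨a, rfl⟩
  · rw [ins_left, hp]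
  · rw [ins_right, ← hp, h.inv]
  · rw [ins_sh, OStA.sh_del h.inv hp]

theorem delArc_insArcO (h : NCO N p) {i : ℕ} (hi : i ≤ N) : Perc.delArc i (insArc i p) = p := by
  funext x
  rw [← sh_inj (i := i), OStA.sh_del (h.insArc hi).inv (ins_left i p), ins_sh]

/-- `e_i` fixes a small arc. -/
theorem eO_of_small {i : ℕ} (h : ∀ x, p (p x) = x) (hp : p i = i + 1) : Perc.eO i p = p := by
  have hp' : p (i + 1) = i := by rw [← hp, h]
  funext x
  rcases PatA.cases i x p with rfl | rfl | ⟨h1, h2, h3⟩ | ⟨h1, h2, h3⟩ | ⟨h1, h2, h3, h4⟩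
  · rw [eO_left, hp]
  · rw [eO_right, hp']
  · rw [OStA.swap h] at h3; omega
  · rw [OStA.swap h] at h3; omega
  · rw [eO_other p h1 h2 h3 h4]

theorem NCO.capO (h : NCO (N + 2) p) {i : ℕ} (hi : i < N + 1) : NCO N (capO i p) :=
  (h.eO (by omega)).delArc hi (eO_left i p)

theorem insArc_capO (h : NCO (N + 2) p) {i : ℕ} (hi : i < N + 1) :
    Perc.insArc i (Perc.capO i p) = Perc.eO i p :=
  insArc_delArcO (h.eO (by omega)) (eO_left i p)

theorem NCO.cupO (h : NCO N p) : NCO (N + 2) (cupO N p) := by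
  have e0 : Perc.cupO N p 0 = N + 1 := by unfold Perc.cupO; rw [if_pos rfl]
  have e1 : Perc.cupO N p (N + 1) = 0 := by
    unfold Perc.cupO; rw [if_neg (by omega), if_pos rfl]
  have e2 : ∀ x < N, Perc.cupO N p (x + 1) = p x + 1 := by
    intro x hx
    unfold Perc.cupO
    rw [if_neg (by omega), if_neg (by omega), if_pos (by omega)]
    rfl
  have e3 : ∀ x, N + 2 ≤ x → Perc.cupO N p x = x := by
    intro x hx
    unfold Perc.cupO
    rw [if_neg (by omega), if_neg (by omega), if_neg (by omega)]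
  have hc : ∀ x, x = 0 ∨ x = N + 1 ∨ (∃ a, a < N ∧ x = a + 1) ∨ N + 2 ≤ x := by
    intro x
    by_cases h1 : x = 0
    · exact Or.inl h1
    · by_cases h2 : x = N + 1
      · exact Or.inr (Or.inl h2)
      · by_cases h3 : x < N + 1
        · exact Or.inr (Or.inr (Or.inl ⟨x - 1, by omega, by omega⟩))
        · exact Or.inr (Or.inr (Or.inr (by omega)))
  constructor
  · intro x hx
    rcases hc x with rfl | rfl | ⟨a, ha, rfl⟩ | hx'
    · rw [e0]; omega
    · rw [e1]; omega
    · rw [e2 a ha]; have := h.lt a ha; omega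
    · omega
  · intro x
    rcases hc x with rfl | rfl | ⟨a, ha, rfl⟩ | hx'
    · rw [e0, e1]
    · rw [e1, e0]
    · rw [e2 a ha, e2 _ (h.lt a ha), h.inv]
    · rw [e3 x hx', e3 x hx']
  · intro x hx
    exact e3 x hx
  · intro x y hxy hy
    rcases hc x with rfl | rfl | ⟨a, ha, rfl⟩ | hx'
    · rw [e0] at hy ⊢
      rcases hc y with rfl | rfl | ⟨b, hb, rfl⟩ | hy'
      · omega
      · omega
      · rw [e2 b hb]; have := h.lt b hb; omega
      · omega
    · rw [e1] at hy; omega
    · rw [e2 a ha] at hy ⊢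
      rcases hc y with rfl | rfl | ⟨b, hb, rfl⟩ | hy'
      · omega
      · have := h.lt a ha; omega
      · rw [e2 b hb]
        have := h.nc a b (by omega) (by omega)
        omega
      · have := h.lt a ha; omega
    · rw [e3 x hx'] at hy; omega
  · obtain ⟨t, ht, h1, h2⟩ := h.fix
    refine ⟨t + 1, by omega, by rw [e2 t ht, h1], ?_⟩
    intro x hx hx'
    rcases hc x with rfl | rfl | ⟨a, ha, rfl⟩ | hx''
    · rw [e0] at hx'; omega
    · rw [e1] at hx'; omega
    · rw [e2 a ha] at hx'
      rw [h2 a ha (by omega)]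
    · omega

end Pool.Agent.Perc
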