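import Pool.Agent.Lib.MP_6bd702_perc3.OStA

/-!
# Odd states: rotation, labels, small arcs
-/

set_option autoImplicit false

namespace Pool.Agent.Perc

open Finset PatA PatB OStA

variable {N : ℕ} {p : ℕ → ℕ}

/-! ## The through line -/

theorem NCO.thr_eq (h : NCO N p) {t : ℕ} (ht : t < N) (h1 : p t = t) : thr p = t := by
  obtain ⟨s, hs, h2, h3⟩ := h.fix
  have hst : t = s := h3 t ht h1
  subst hst
  apply le_antisymm
  · exact Nat.sInf_le h1
  · have hne : ({x | p x = x} : Set ℕ).Nonempty := ⟨t, h1⟩
    have hm := Nat.sInf_mem hne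
    by_contra hlt
    have hlt' : sInf {x | p x = x} < t := by unfold thr at hlt; omega
    have := h3 _ (by omega) hm
    omega

theorem NCO.thr_lt (h : NCO N p) : thr p < N := by
  obtain ⟨t, ht, h1, _⟩ := h.fix
  rw [h.thr_eq ht h1]; exact ht

theorem NCO.thr_fix (h : NCO N p) : p (thr p) = thr p := by
  obtain ⟨t, ht, h1, _⟩ := h.fix
  rw [h.thr_eq ht h1]; exact h1

theorem NCO.eq_thr_iff (h : NCO N p) {x : ℕ} (hx : x < N) : p x = x ↔ x = thr p := by
  constructor
  · intro h1; exact (h.thr_eq hx h1).symm
  · rintro rfl; exact h.thr_fix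

theorem labO_of_fix {x : ℕ} (hx : p x = x) : labO p x = false := by
  unfold labO; rw [hx, Bool.xor_self]

theorem labO_thr (h : NCO N p) : labO p (thr p) = false := labO_of_fix h.thr_fix

theorem labO_out (h : NCO N p) {x : ℕ} (hx : N ≤ x) : labO p x = false := labO_of_fix (h.out x hx)

theorem labO_partner (h : ∀ x, p (p x) = x) (x : ℕ) : labO p (p x) = labO p x := by
  unfold labO; rw [h, Bool.xor_comm]

/-! ## Insertion -/

theorem NCO.thr_insArc (h : NCO N p) {i : ℕ} (hi : i ≤ N) :
    thr (Perc.insArc i p) = sh i (thr p) := by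
  apply (h.insArc hi).thr_eq ((sh_lt_iff hi).2 h.thr_lt)
  rw [ins_sh, h.thr_fix]

theorem labO_insArc (h : NCO N p) {i : ℕ} (hi : i ≤ N) (x : ℕ) :
    labO (Perc.insArc i p) (sh i x) = labO p x := by
  unfold labO
  rw [h.thr_insArc hi, ins_sh]
  simp only [sh_lt]

theorem labO_insArc_left (h : NCO N p) {i : ℕ} (hi : i ≤ N) : labO (Perc.insArc i p) i = false := by
  unfold labO
  rw [h.thr_insArc hi, ins_left]
  have h1 := sh_ne (i := i) (x := thr p)
  have h2 := sh_ne' (i := i) (x := thr p)
  by_cases h3 : i < sh i (thr p)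
  · have h4 : i + 1 < sh i (thr p) := by omega
    simp [h3, h4]
  · have h4 : ¬ i + 1 < sh i (thr p) := by omega
    simp [h3, h4]

theorem labO_insArc_right (h : NCO N p) {i : ℕ} (hi : i ≤ N) :
    labO (Perc.insArc i p) (i + 1) = false := by
  have := labO_partner (h.insArc hi).inv i
  rw [ins_left] at this
  rw [this, labO_insArc_left h hi]

/-- A small arc has the label `false`. -/
theorem labO_small (h : NCO N p) {i : ℕ} (hi : i < N) (hp : p i = i + 1) : labO p i = false := by
  have h0 := h.thr_fix
  have h1 : thr p ≠ i := by intro e; rw [e] at h0; omega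
  have h2 : thr p ≠ i + 1 := by
    intro e; rw [e] at h0
    have := h.inv i
    rw [hp] at this; omega
  have _ := hi
  unfold labO
  rw [hp]
  by_cases h3 : i < thr p
  · have h4 : i + 1 < thr p := by omega
    simp [h3, h4]
  · have h4 : ¬ i + 1 < thr p := by omega
    simp [h3, h4]

/-! ## Outer arc -/

theorem cupO_zero (N : ℕ) (p : ℕ → ℕ) : cupO N p 0 = N + 1 := by unfold cupO; rw [if_pos rfl]

theorem cupO_last (N : ℕ) (p : ℕ → ℕ) : cupO N p (N + 1) = 0 := by
  unfold cupO; rw [if_neg (by omega), if_pos rfl]

theorem cupO_succ {x : ℕ} (hx : x < N) (p : ℕ → ℕ) : cupO N p (x + 1) = p x + 1 := by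
  unfold cupO
  rw [if_neg (by omega), if_neg (by omega), if_pos (by omega)]
  rfl

theorem NCO.thr_cupO (h : NCO N p) : thr (Perc.cupO N p) = thr p + 1 := by
  have := h.thr_lt
  apply h.cupO.thr_eq (by omega)
  rw [cupO_succ h.thr_lt, h.thr_fix]

theorem labO_cupO_succ (h : NCO N p) {x : ℕ} (hx : x < N) :
    labO (Perc.cupO N p) (x + 1) = labO p x := by
  unfold labO
  rw [h.thr_cupO, cupO_succ hx]
  simp

theorem labO_cupO_zero (h : NCO N p) : labO (Perc.cupO N p) 0 = true := by
  have := h.thr_lt
  unfold labO
  rw [h.thr_cupO, cupO_zero]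
  have h1 : ¬ N + 1 < thr p + 1 := by omega
  simp [h1]

theorem labO_cupO_last (h : NCO N p) : labO (Perc.cupO N p) (N + 1) = true := by
  have := labO_partner h.cupO.inv 0
  rw [cupO_zero] at this
  rw [this, labO_cupO_zero h]

/-! ## Rotation -/

theorem NCO.rotP (h : NCO N p) : NCO N (rotP N p) := by
  constructor
  · intro x hx
    rw [rot_of_lt hx]
    exact rh_lt (h.lt _ (rh'_lt hx))
  · intro x
    by_cases hx : x < N
    · rw [rot_of_lt hx, rot_rh (h.lt _ (rh'_lt hx)), h.inv, rh_rh' hx]
    · rw [rot_of_ge (x := x) (by omega), rot_of_ge (x := x) (by omega)]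
  · intro x hx
    exact rot_of_ge hx
  · intro x y hxy hy
    by_cases hx : x < N
    · have hlt : Perc.rotP N p x < N := by
        rw [rot_of_lt hx]
        exact rh_lt (h.lt _ (rh'_lt hx))
      have hyN : y < N := by omega
      rw [rot_of_lt hx] at hy hlt ⊢
      rw [rot_of_lt hyN]
      have ex : rh' N x = x + 1 := by unfold rh'; rw [if_neg (by omega)]
      have ey : rh' N y = y + 1 := by unfold rh'; rw [if_neg (by omega)]
      rw [ex] at hy hlt ⊢
      rw [ey]
      have h1 := h.lt (x + 1) (by omega)
      have h2 := h.lt (y + 1) (by omega)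
      by_cases h0 : p (x + 1) = 0
      · have h00 : p 0 = x + 1 := by rw [← h0, h.inv]
        have h3 : p (y + 1) ≠ 0 := by
          intro h3
          have : p 0 = y + 1 := by rw [← h3, h.inv]
          omega
        have h4 : p (y + 1) ≠ x + 1 := by
          intro h4
          have : p (x + 1) = y + 1 := by rw [← h4, h.inv]
          omega
        have h5 : ¬ p (y + 1) < x + 1 := by
          intro h5
          have := h.nc 0 (p (y + 1)) (by omega) (by omega)
          rw [h.inv] at this
          omega
        unfold rh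
        rw [if_pos h0, if_neg h3]
        omega
      · have e3 : rh N (p (x + 1)) = p (x + 1) - 1 := by unfold rh; rw [if_neg h0]
        rw [e3] at hy ⊢
        have h3 := h.nc (x + 1) (y + 1) (by omega) (by omega)
        have e4 : rh N (p (y + 1)) = p (y + 1) - 1 := by unfold rh; rw [if_neg (by omega)]
        rw [e4]
        omega
    · rw [rot_of_ge (by omega)] at hy; omega
  · refine ⟨rh N (thr p), rh_lt h.thr_lt, ?_, ?_⟩
    · rw [rot_rh h.thr_lt, h.thr_fix]
    · intro x hx hx'
      rw [rot_of_lt hx] at hx'
      have h1 := rh'_lt hx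
      have h2 := congrArg (rh' N) hx'
      rw [rh'_rh (h.lt _ h1)] at h2
      rw [← (h.eq_thr_iff h1).1 h2, rh_rh' hx]

theorem NCO.thr_rotP (h : NCO N p) : thr (Perc.rotP N p) = rh N (thr p) := by
  apply h.rotP.thr_eq (rh_lt h.thr_lt)
  rw [rot_rh h.thr_lt, h.thr_fix]

/-- Labels after the rotation: the arc of the old site `0` is flipped. -/
theorem labO_rotP (h : NCO N p) {x : ℕ} (hx : x < N) :
    labO (Perc.rotP N p) (rh N x) =
      if p x ≠ x ∧ (x = 0 ∨ p x = 0) then !labO p x else labO p x := by
  have ht := h.thr_lt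
  have hp := h.lt x hx
  have hfx := h.thr_fix
  by_cases hxx : p x = x
  · rw [if_neg (fun e => e.1 hxx), labO_of_fix hxx]
    apply labO_of_fix
    rw [rot_rh hx, hxx]
  unfold labO
  rw [h.thr_rotP, rot_rh hx]
  by_cases ht0 : thr p = 0
  · -- the through line is at the seam
    have hx0 : x ≠ 0 := by
      rintro rfl
      rw [ht0] at hfx
      exact hxx hfx
    have hp0 : p x ≠ 0 := by
      intro e
      have := h.inv x
      rw [e] at this
      rw [ht0] at hfx
      omega
    rw [if_neg (by tauto), ht0]
    have e1 : rh N x < rh N 0 := by unfold rh; rw [if_neg hx0, if_pos rfl]; omega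
    have e2 : rh N (p x) < rh N 0 := by unfold rh; rw [if_neg hp0, if_pos rfl]; omega
    simp [e1, e2]
  · have et : rh N (thr p) = thr p - 1 := by unfold rh; rw [if_neg ht0]
    rw [et]
    by_cases hx0 : x = 0
    · subst hx0
      have hp0 : p 0 ≠ 0 := hxx
      rw [if_pos ⟨hxx, Or.inl rfl⟩]
      have e1 : rh N 0 = N - 1 := by unfold rh; rw [if_pos rfl]
      have e2 : rh N (p 0) = p 0 - 1 := by unfold rh; rw [if_neg hp0]
      have e3 : ¬ (N - 1 < thr p - 1) := by omega
      have e4 : 0 < thr p := by omega
      rw [e1, e2]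
      by_cases e5 : p 0 < thr p
      · have e6 : p 0 - 1 < thr p - 1 := by omega
        simp [e3, e4, e5, e6]
      · have e6 : ¬ p 0 - 1 < thr p - 1 := by omega
        simp [e3, e4, e5, e6]
    · by_cases hp0 : p x = 0
      · rw [if_pos ⟨hxx, Or.inr hp0⟩, hp0]
        have e1 : rh N 0 = N - 1 := by unfold rh; rw [if_pos rfl]
        have e2 : rh N x = x - 1 := by unfold rh; rw [if_neg hx0]
        have e3 : ¬ (N - 1 < thr p - 1) := by omega
        have e4 : 0 < thr p := by omega
        rw [e1, e2]
        by_cases e5 : x < thr p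
        · have e6 : x - 1 < thr p - 1 := by omega
          simp [e3, e4, e5, e6]
        · have e6 : ¬ x - 1 < thr p - 1 := by omega
          simp [e3, e4, e5, e6]
      · rw [if_neg (by tauto)]
        have e1 : rh N x = x - 1 := by unfold rh; rw [if_neg hx0]
        have e2 : rh N (p x) = p x - 1 := by unfold rh; rw [if_neg hp0]
        rw [e1, e2]
        have e3 : x - 1 < thr p - 1 ↔ x < thr p := by omega
        have e4 : p x - 1 < thr p - 1 ↔ p x < thr p := by omega
        simp only [e3, e4]


theorem NCO.rotP_insArc_zero (h : NCO N p) :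
    Perc.rotP (N + 2) (Perc.insArc 0 p) = Perc.cupO N p := by
  have _ := h
  funext x
  by_cases hx : x < N + 2
  · rw [rot_of_lt hx]
    unfold Perc.cupO
    by_cases h0 : x = 0
    · subst h0
      have : rh' (N + 2) 0 = 0 + 1 := by unfold rh'; rw [if_neg (by omega)]
      rw [this, ins_right, if_pos rfl]
      unfold rh; rw [if_pos rfl]; omega
    · rw [if_neg h0]
      by_cases h1 : x = N + 1
      · subst h1
        have : rh' (N + 2) (N + 1) = 0 := by unfold rh'; rw [if_pos (by omega)]
        rw [this, ins_left, if_pos rfl]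
        unfold rh; rw [if_neg (by omega)]
      · rw [if_neg h1, if_pos (by omega)]
        have : rh' (N + 2) x = sh 0 (x - 1) := by
          unfold rh' sh; rw [if_neg (by omega), if_neg (by omega)]; omega
        rw [this, ins_sh, sh_zero]
        unfold rh
        rw [if_neg (by omega)]; omega
  · rw [rot_of_ge (by omega)]
    unfold Perc.cupO
    rw [if_neg (by omega), if_neg (by omega), if_neg (by omega)]

theorem NCO.rotP_insArc (h : NCO N p) {k : ℕ} (hk : 0 < k) (hkN : k ≤ N) :
    Perc.rotP (N + 2) (Perc.insArc k p) = Perc.insArc (k - 1) (Perc.rotP N p) := by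
  obtain ⟨j, rfl⟩ : ∃ j, k = j + 1 := ⟨k - 1, by omega⟩
  have hj : j + 1 - 1 = j := rfl
  rw [hj]
  funext x
  rcases cases_sh j x with rfl | rfl | ⟨a, rfl⟩
  · rw [ins_left, rot_of_lt (by omega)]
    have : rh' (N + 2) x = x + 1 := by unfold rh'; rw [if_neg (by omega)]
    rw [this, ins_left]
    unfold rh; rw [if_neg (by omega)]; omega
  · rw [ins_right, rot_of_lt (by omega)]
    have : rh' (N + 2) (j + 1) = j + 1 + 1 := by unfold rh'; rw [if_neg (by omega)]
    rw [this, ins_right]
    unfold rh; rw [if_neg (by omega)]; omega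
  · rw [ins_sh]
    by_cases ha : a < N
    · have h1 : sh j a < N + 2 := (sh_lt_iff (by omega)).mpr ha
      rw [rot_of_lt h1, rot_of_lt ha]
      rw [rh'_sh ha (by omega), ins_sh, rh_sh (h.lt _ (rh'_lt ha)) (by omega)]
    · have h1 : ¬ sh j a < N + 2 := by rw [sh_lt_iff (by omega)]; exact ha
      rw [rot_of_ge (by omega), rot_of_ge (by omega)]

theorem rotP_injO {p p' : ℕ → ℕ} (hp : NCO N p) (hp' : NCO N p')
    (he : Perc.rotP N p = Perc.rotP N p') : p = p' := by
  funext x
  by_cases hx : x < N
  · have h1 := congrFun he (rh N x)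
    rw [rot_rh hx, rot_rh hx] at h1
    exact rh_inj (hp.lt x hx) (hp'.lt x hx) h1
  · rw [hp.out x (by omega), hp'.out x (by omega)]

/-! ## Small arcs -/

/-- There is a small arc or an arc from the first to the last site. -/
theorem NCO.exists_small (h : NCO (N + 2) p) (hN : 0 < N) :
    (∃ i, i < N + 1 ∧ p i = i + 1) ∨ p 0 = N + 1 := by
  by_contra hc
  push Not at hc
  obtain ⟨hc1, hc2⟩ := hc
  obtain ⟨t, ht, h1, h2⟩ := h.fix
  -- minimal arc not enclosing the through line
  have key : ∀ d x, x < N + 2 → x < p x → p x - x ≤ d → (p x < t ∨ t < x) → False := by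
    intro d
    induction d using Nat.strong_induction_on with
    | _ d ih =>
      intro x hx hxp hd hside
      have hpx := h.lt x hx
      have h3 : p x ≠ x + 1 := fun e => hc1 x (by omega) e
      have h4 := h.nc x (x + 1) (by omega) (by omega)
      have h5 : p (x + 1) ≠ x + 1 := by
        intro e
        have := h2 (x + 1) (by omega) e
        omega
      have h6 : x + 1 < p (x + 1) := by
        rcases lt_trichotomy (p (x + 1)) (x + 1) with h7 | h7 | h7
        · omega
        · exact absurd h7 h5
        · exact h7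
      exact ih (p (x + 1) - (x + 1)) (by omega) (x + 1) (by omega) h6 le_rfl
        (by rcases hside with h8 | h8 <;> omega)
  -- consider the sites next to the through line
  have hall : ∀ x, x < N + 2 → x < p x → x < t ∧ t < p x := by
    intro x hx hxp
    by_contra h3
    have hx' : p x ≠ t := by
      intro e
      have := h.inv x
      rw [e, h1] at this
      omega
    have hx'' : x ≠ t := by rintro rfl; omega
    exact key _ x hx hxp le_rfl (by omega)
  -- the arc of site `0`
  by_cases ht0 : t = 0
  · subst ht0
    have h3 : p 1 ≠ 1 := by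
      intro e; have := h2 1 (by omega) e; omega
    rcases lt_trichotomy (p 1) 1 with h4 | h4 | h4
    · have h5 : p 1 = 0 := by omega
      have := h.inv 1
      rw [h5, h1] at this; omega
    · exact h3 h4
    · have := hall 1 (by omega) h4; omega
  · have h3 : p 0 ≠ 0 := by
      intro e; have := h2 0 (by omega) e; omega
    have h4 := hall 0 (by omega) (by omega)
    have h5 := h.lt 0 (by omega)
    -- the last site
    have h6 : p (N + 1) ≠ N + 1 := by
      intro e; have := h2 (N + 1) (by omega) e; omega
    have h7 : p (N + 1) < N + 1 := by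
      have := h.lt (N + 1) (by omega); omega
    have h8 := hall (p (N + 1)) (by omega) (by rw [h.inv]; exact h7)
    -- the arcs of `0` and `N + 1` cross unless they are equal
    have h9 : p 0 ≠ N + 1 := hc2
    have h10 : p (N + 1) ≠ 0 := by
      intro e
      have := h.inv (N + 1)
      rw [e] at this; exact h9 this
    have h11 : p (N + 1) < p 0 := by omega
    have h12 := h.nc 0 (p (N + 1)) (by omega) h11
    rw [h.inv] at h12
    omega

/-- Remove an arc from the first to the last site. -/
theorem NCO.exists_delCup (h : NCO (N + 2) p) (h1 : p 0 = N + 1) :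
    ∃ p', NCO N p' ∧ Perc.cupO N p' = p := by
  have h1' : p (N + 1) = 0 := by rw [← h1, h.inv]
  have hin : ∀ x, 0 < x → x < N + 1 → 0 < p x ∧ p x < N + 1 := by
    intro x hx hx'
    have := h.nc 0 x hx (by omega)
    omega
  refine ⟨fun x => if x < N then p (x + 1) - 1 else x, ?_, ?_⟩
  · constructor
    · intro x hx
      simp only [if_pos hx]
      have := hin (x + 1) (by omega) (by omega)
      omega
    · intro x
      by_cases hx : x < N
      · have h2 := hin (x + 1) (by omega) (by omega)
        simp only [if_pos hx]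
        have h3 : p (x + 1) - 1 < N := by omega
        simp only [if_pos h3]
        have h4 : p (x + 1) - 1 + 1 = p (x + 1) := by omega
        rw [h4, h.inv]; omega
      · simp only [if_neg hx]
    · intro x hx
      simp only [if_neg (not_lt.2 hx)]
    · intro x y hxy hy
      by_cases hx : x < N
      · simp only [if_pos hx] at hy ⊢
        have h2 := hin (x + 1) (by omega) (by omega)
        have hyN : y < N := by omega
        simp only [if_pos hyN]
        have h3 := h.nc (x + 1) (y + 1) (by omega) (by omega)
        omega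
      · simp only [if_neg hx] at hy; omega
    · obtain ⟨t, ht, h2, h3⟩ := h.fix
      have ht0 : t ≠ 0 := by rintro rfl; omega
      have ht1 : t ≠ N + 1 := by rintro rfl; omega
      refine ⟨t - 1, by omega, ?_, ?_⟩
      · simp only [if_pos (show t - 1 < N by omega)]
        have : t - 1 + 1 = t := by omega
        rw [this, h2]
      · intro x hx hx'
        simp only [if_pos hx] at hx'
        have h4 := hin (x + 1) (by omega) (by omega)
        have := h3 (x + 1) (by omega) (by omega)
        omega
  · funext x
    unfold Perc.cupO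
    by_cases hx0 : x = 0
    · rw [if_pos hx0, hx0, h1]
    · rw [if_neg hx0]
      by_cases hx1 : x = N + 1
      · rw [if_pos hx1, hx1, h1']
      · rw [if_neg hx1]
        by_cases hx2 : x < N + 1
        · rw [if_pos hx2]
          have h2 := hin x (by omega) (by omega)
          simp only [if_pos (show x - 1 < N by omega)]
          have : x - 1 + 1 = x := by omega
          rw [this]; omega
        · rw [if_neg hx2, h.out x (by omega)]

/-- Delete a small arc. -/
theorem NCO.exists_del (h : NCO (N + 2) p) {i : ℕ} (hi : i < N + 1) (h1 : p i = i + 1) :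
    ∃ p', NCO N p' ∧ Perc.insArc i p' = p :=
  ⟨_, h.delArc hi h1, insArc_delArcO h h1⟩

theorem nco_nestO (m : ℕ) : NCO (2 * m + 1) (nestO m) := by
  constructor
  · intro x hx; unfold nestO; rw [if_pos hx]; omega
  · intro x; unfold nestO; split_ifs <;> omega
  · intro x hx; unfold nestO; rw [if_neg (by omega)]
  · intro x y hxy; unfold nestO; split_ifs <;> omega
  · refine ⟨m, by omega, ?_, ?_⟩
    · unfold nestO; rw [if_pos (by omega)]; omega
    · intro x hx; unfold nestO; rw [if_pos hx]; omega

theorem thr_nestO (m : ℕ) : thr (nestO m) = m := by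
  apply (nco_nestO m).thr_eq (by omega)
  unfold nestO; rw [if_pos (by omega)]; omega

end Pool.Agent.Perc
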