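import Pool.Agent.Lib.MP_6bd702_perc3.OStB
import Pool.Agent.Lib.MP_6bd702_perc.WheelDefs

/-!
# Odd states: generators and insertions, words
-/

set_option autoImplicit false

namespace Pool.Agent.Perc

open Finset PatA PatB OStA

variable {N : ℕ} {p p' : ℕ → ℕ}

/-! ## Generators and insertions -/

theorem eO_insArc_self (i : ℕ) (h : NCO N p) (hi : i ≤ N) :
    eO i (insArc i p) = insArc i p := eO_of_small (h.insArc hi).inv (ins_left i p)

theorem OStC.eO_ins {i j k : ℕ} (p : ℕ → ℕ) (h1 : sh k j = i) (h2 : sh k (j + 1) = i + 1) :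
    eO i (insArc k p) = insArc k (eO j p) := by
  have hk1 : k ≠ i := by rw [← h1]; exact sh_ne.symm
  have hk2 : k ≠ i + 1 := by rw [← h2]; exact sh_ne.symm
  have hk3 : k + 1 ≠ i := by rw [← h1]; exact sh_ne'.symm
  have hk4 : k + 1 ≠ i + 1 := by rw [← h2]; exact sh_ne'.symm
  funext x
  rcases cases_sh k x with rfl | rfl | ⟨a, rfl⟩
  · rw [ins_left]
    unfold eO
    rw [if_neg hk1, if_neg hk2, ins_left, if_neg hk3, if_neg hk4]
  · rw [ins_right]
    unfold eO
    rw [if_neg hk3, if_neg hk4, ins_right, if_neg hk1, if_neg hk2]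
  · rw [ins_sh]
    unfold eO
    rw [ins_sh]
    subst h1
    rw [← h2, ins_sh, ins_sh]
    simp only [sh_inj]
    split_ifs <;> rfl

theorem eO_insArc_of_le {i k : ℕ} (hik : k + 2 ≤ i) (p : ℕ → ℕ) :
    eO i (insArc k p) = insArc k (eO (i - 2) p) := by
  apply OStC.eO_ins
  · unfold sh; rw [if_neg (by omega)]; omega
  · unfold sh; rw [if_neg (by omega)]; omega

theorem eO_insArc_of_lt {i k : ℕ} (hik : i + 1 < k) (p : ℕ → ℕ) :
    eO i (insArc k p) = insArc k (eO i p) := by
  apply OStC.eO_ins
  · unfold sh; rw [if_pos (by omega)]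
  · unfold sh; rw [if_pos (by omega)]

theorem eO_insArc_succ (h : ∀ x, p (p x) = x) (i : ℕ) :
    eO i (insArc (i + 1) p) = insArc i p := by
  have e1 : insArc (i + 1) p (i + 1) = i + 1 + 1 := ins_left (i + 1) p
  have e2 : insArc (i + 1) p (i + 1 + 1) = i + 1 := ins_right (i + 1) p
  have e3 : insArc (i + 1) p i = sh (i + 1) (p i) := by
    have := ins_sh (i + 1) p i
    rwa [sh_succ_self] at this
  funext x
  rcases cases_sh i x with rfl | rfl | ⟨a, rfl⟩
  · rw [ins_left, eO_left]
  · rw [ins_right, eO_right]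
  · rw [ins_sh]
    unfold eO
    rw [if_neg sh_ne, if_neg sh_ne']
    by_cases ha : a = i
    · subst ha
      rw [sh_self, e2, if_neg (by omega), if_pos rfl, e3]
      by_cases hpa : p a = a
      · rw [hpa, sh_succ_self, if_pos rfl, sh_self]
      · rw [sh_succ hpa, if_neg sh_ne]
    · rw [← sh_succ ha, ins_sh]
      by_cases hb : p a = i
      · rw [hb, sh_succ_self, if_pos rfl, e1, if_neg (by omega), sh_self]
      · rw [sh_succ hb, if_neg sh_ne, if_neg sh_ne']

theorem eO_succ_insArc (h : ∀ x, p (p x) = x) (i : ℕ) :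
    eO (i + 1) (insArc i p) = insArc (i + 1) p := by
  have e1 : insArc i p (i + 1) = i := ins_right i p
  have e3 : insArc i p (i + 1 + 1) = sh i (p i) := by
    have : i + 1 + 1 = sh i i := by rw [sh_self]
    rw [this, ins_sh]
  funext x
  rcases cases_sh (i + 1) x with rfl | rfl | ⟨a, rfl⟩
  · rw [ins_left, eO_left]
  · rw [ins_right, eO_right]
  · rw [ins_sh]
    unfold eO
    rw [if_neg sh_ne, if_neg sh_ne']
    by_cases ha : a = i
    · subst ha
      rw [sh_succ_self, ins_left, if_pos rfl, e3]
      by_cases hpa : p a = a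
      · rw [hpa, sh_self, if_pos rfl, sh_succ_self]
      · rw [sh_succ hpa, if_neg (by
          have := sh_ne' (i := a) (x := p a)
          have h2 : sh a (p a) ≠ sh a a := fun e => hpa (sh_inj.1 e)
          rw [sh_self] at h2
          exact h2)]
    · rw [sh_succ ha, ins_sh]
      by_cases hb : p a = i
      · rw [hb, sh_self, if_neg (by omega), if_pos rfl, e1, if_neg (by omega), sh_succ_self]
      · rw [sh_succ hb, if_neg sh_ne', if_neg]
        intro e
        apply hb
        rw [← sh_inj (i := i), sh_self]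
        exact e

theorem eO_idem (h : ∀ x, p (p x) = x) (i : ℕ) : eO i (eO i p) = eO i p := by
  funext x
  have h0 := eO_left i p
  have h1 := eO_right i p
  by_cases x1 : x = i
  · subst x1; rw [eO_left, eO_left]
  by_cases x2 : x = i + 1
  · subst x2; rw [eO_right, eO_right]
  have hx : eO i p x ≠ i ∧ eO i p x ≠ i + 1 := by
    rcases PatA.cases i x p with e | e | ⟨_, _, x3⟩ | ⟨_, _, x3⟩ | ⟨_, _, x3, x4⟩
    · exact absurd e x1
    · exact absurd e x2
    · rw [eO_a p x1 x2 x3]
      split_ifs with h4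
      · exact ⟨x1, x2⟩
      · refine ⟨fun e => ?_, h4⟩
        rw [OStA.swap h] at e
        rw [OStA.swap h] at x3
        omega
    · rw [eO_b p x1 x2 x3]
      split_ifs with h4
      · exact ⟨x1, x2⟩
      · refine ⟨h4, fun e => ?_⟩
        rw [OStA.swap h] at e
        rw [OStA.swap h] at x3
        omega
    · rw [eO_other p x1 x2 x3 x4]; exact ⟨x3, x4⟩
  rw [eO_other _ x1 x2 hx.1 hx.2]

/-! ## Rotation and generators -/

theorem NCO.rotP_eO (h : NCO N p) {i : ℕ} (hi : i + 2 < N) :
    Perc.rotP N (Perc.eO (i + 1) p) = Perc.eO i (Perc.rotP N p) := by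
  have r1 : rh N (i + 1) = i := by unfold rh; rw [if_neg (by omega)]; rfl
  have r2 : rh N (i + 2) = i + 1 := by unfold rh; rw [if_neg (by omega)]; rfl
  have inj : ∀ {x y : ℕ}, x < N → y < N → (rh N x = rh N y ↔ x = y) := fun hx hy =>
    ⟨fun e => rh_inj hx hy e, fun e => by rw [e]⟩
  funext x
  by_cases hx : x < N
  · obtain ⟨y, hy, rfl⟩ : ∃ y < N, x = rh N y := ⟨rh' N x, rh'_lt hx, (rh_rh' hx).symm⟩
    rw [rot_rh hy]
    have hpy := h.lt y hy
    have hp1 := h.lt (i + 1) (by omega)
    have hp2 := h.lt (i + 2) (by omega)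
    have e1 : Perc.rotP N p (i + 1) = rh N (p (i + 2)) := by
      have := rot_rh (N := N) (p := p) (x := i + 2) (by omega)
      rwa [r2] at this
    have e0 : Perc.rotP N p i = rh N (p (i + 1)) := by
      have := rot_rh (N := N) (p := p) (x := i + 1) (by omega)
      rwa [r1] at this
    by_cases y1 : y = i + 1
    · subst y1; rw [r1, eO_left, eO_left, r2]
    by_cases y2 : y = i + 2
    · subst y2
      have e5 : Perc.eO (i + 1) p (i + 2) = i + 1 := eO_right (i + 1) p
      have e6 : Perc.eO i (Perc.rotP N p) (i + 1) = i := eO_right i _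
      rw [e5, r2, e6, r1]
    have z1 : rh N y ≠ i := by rw [← r1, Ne, inj hy (by omega)]; exact y1
    have z2 : rh N y ≠ i + 1 := by rw [← r2, Ne, inj hy (by omega)]; exact y2
    by_cases y3 : p y = i + 1
    · rw [eO_a p y1 y2 y3]
      have y3' : Perc.rotP N p (rh N y) = i := by rw [rot_rh hy, y3, r1]
      rw [eO_a _ z1 z2 y3', e1]
      by_cases h5 : p (i + 2) = i + 2
      · rw [if_pos h5, h5, r2, if_pos rfl]
      · rw [if_neg h5, if_neg]
        rw [← r2, inj hp2 (by omega)]; exact h5
    by_cases y4 : p y = i + 2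
    · rw [eO_b p y1 y2 y4]
      have y4' : Perc.rotP N p (rh N y) = i + 1 := by rw [rot_rh hy, y4, r2]
      rw [eO_b _ z1 z2 y4', e0]
      by_cases h5 : p (i + 1) = i + 1
      · rw [if_pos h5, h5, r1, if_pos rfl]
      · rw [if_neg h5, if_neg]
        intro e
        apply h5
        rw [← inj hp1 (show i + 1 < N by omega), r1]
        exact e
    · rw [eO_other p y1 y2 y3 y4]
      have y3' : Perc.rotP N p (rh N y) ≠ i := by
        rw [rot_rh hy, ← r1, Ne, inj hpy (by omega)]; exact y3
      have y4' : Perc.rotP N p (rh N y) ≠ i + 1 := by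
        rw [rot_rh hy, ← r2, Ne, inj hpy (by omega)]; exact y4
      rw [eO_other _ z1 z2 y3' y4', rot_rh hy]
  · have hp := h.out x (by omega)
    have hr : Perc.rotP N p x = x := rot_of_ge (by omega)
    rw [rot_of_ge (by omega)]
    rw [eO_other _ (by omega) (by omega) (by omega) (by omega), hr]

theorem NCO.rotP_cupO (h : NCO N p) :
    Perc.rotP (N + 2) (Perc.cupO N p) = Perc.insArc N p := by
  funext x
  by_cases hx : x < N + 2
  · obtain ⟨y, hy, rfl⟩ : ∃ y < N + 2, x = rh (N + 2) y := ⟨rh' (N + 2) x, rh'_lt hx, (rh_rh' hx).symm⟩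
    rw [rot_rh hy]
    by_cases y0 : y = 0
    · subst y0
      have e1 : rh (N + 2) 0 = N + 1 := by unfold rh; rw [if_pos rfl]; omega
      have e2 : rh (N + 2) (N + 1) = N := by unfold rh; rw [if_neg (by omega)]; omega
      rw [cupO_zero, e1, e2, ins_right]
    · by_cases y1 : y = N + 1
      · subst y1
        have e1 : rh (N + 2) 0 = N + 1 := by unfold rh; rw [if_pos rfl]; omega
        have e2 : rh (N + 2) (N + 1) = N := by unfold rh; rw [if_neg (by omega)]; omega
        rw [cupO_last, e1, e2, ins_left]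
      · obtain ⟨a, rfl⟩ : ∃ a, y = a + 1 := ⟨y - 1, by omega⟩
        have ha : a < N := by omega
        have hpa := h.lt a ha
        rw [cupO_succ ha]
        have e1 : ∀ b, rh (N + 2) (b + 1) = b := by intro b; unfold rh; rw [if_neg (by omega)]; rfl
        rw [e1, e1]
        have e2 : ∀ b, b < N → sh N b = b := by intro b hb; unfold sh; rw [if_pos hb]
        have := ins_sh N p a
        rw [e2 a ha, e2 _ hpa] at this
        exact this.symm
  · have h1 := (h.insArc (le_refl N)).out x (by omega)
    rw [rot_of_ge (by omega), h1]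

/-! ## Words -/

theorem opO_thr (p : ℕ → ℕ) : opO p (thr p) = true := by
  unfold opO; simp

theorem NCO.ne_of_ne (h : NCO N p) {x : ℕ} (hx : x < N) (h1 : x ≠ thr p) : p x ≠ x := fun e =>
  h1 ((h.eq_thr_iff hx).1 e)

theorem opO_of_ne {x : ℕ} (h1 : x ≠ thr p) : opO p x = xor (decide (x < p x)) (labO p x) := by
  unfold opO; rw [decide_eq_false h1, Bool.false_or]

theorem opO_out (h : NCO N p) {x : ℕ} (hx : N ≤ x) : opO p x = false := by
  have := h.thr_lt
  rw [opO_of_ne (by omega), labO_out h hx, h.out x hx]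
  simp

theorem opO_partner (h : NCO N p) {x : ℕ} (hx : x < N) (h1 : p x ≠ x) :
    opO p (p x) = !opO p x := by
  have h2 : x ≠ thr p := by rintro rfl; exact h1 h.thr_fix
  have h3 : p x ≠ thr p := by
    intro e
    have := h.inv x
    rw [e, h.thr_fix] at this
    exact h2 this.symm
  have _ := hx
  rw [opO_of_ne h3, opO_of_ne h2, labO_partner h.inv, h.inv]
  have h4 : decide (p x < x) = !decide (x < p x) := by
    rcases Nat.lt_or_gt_of_ne h1 with h5 | h5
    · rw [decide_eq_true h5, decide_eq_false (by omega)]; rfl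
    · rw [decide_eq_true (show x < p x from h5), decide_eq_false (by omega)]; rfl
  rw [h4]
  cases decide (x < p x) <;> cases labO p x <;> rfl

theorem opO_rotP (h : NCO N p) {x : ℕ} (hx : x < N) :
    opO (Perc.rotP N p) x = opO p (if x + 1 = N then 0 else x + 1) := by
  have hr : (if x + 1 = N then 0 else x + 1) = rh' N x := rfl
  rw [hr]
  obtain ⟨y, hy, rfl⟩ : ∃ y < N, x = rh N y := ⟨rh' N x, rh'_lt hx, (rh_rh' hx).symm⟩
  rw [rh'_rh hy]
  by_cases hyt : y = thr p
  · subst hyt
    rw [opO_thr, ← h.thr_rotP, opO_thr]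
  · have h1 := h.ne_of_ne hy hyt
    have h2 : rh N y ≠ thr (Perc.rotP N p) := by
      rw [h.thr_rotP]; intro e; exact hyt (rh_inj hy h.thr_lt e)
    rw [opO_of_ne h2, opO_of_ne hyt, labO_rotP h hy, rot_rh hy]
    have hpy := h.lt y hy
    by_cases y0 : y = 0
    · subst y0
      rw [if_pos ⟨h1, Or.inl rfl⟩]
      have e1 : rh N 0 = N - 1 := by unfold rh; rw [if_pos rfl]
      have e2 : rh N (p 0) = p 0 - 1 := by unfold rh; rw [if_neg h1]
      rw [e1, e2, decide_eq_false (by omega), decide_eq_true (show 0 < p 0 by omega)]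
      cases labO p 0 <;> rfl
    · by_cases p0 : p y = 0
      · rw [if_pos ⟨h1, Or.inr p0⟩]
        have e1 : rh N (p y) = N - 1 := by rw [p0]; unfold rh; rw [if_pos rfl]
        have e2 : rh N y = y - 1 := by unfold rh; rw [if_neg y0]
        rw [e1, e2, decide_eq_true (by omega), decide_eq_false (by omega)]
        cases labO p y <;> rfl
      · rw [if_neg (by tauto)]
        have e1 : rh N (p y) = p y - 1 := by unfold rh; rw [if_neg p0]
        have e2 : rh N y = y - 1 := by unfold rh; rw [if_neg y0]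
        rw [e1, e2]
        congr 1
        rw [decide_eq_decide]
        omega

theorem opO_insArc (h : NCO N p) {i : ℕ} (hi : i ≤ N) (x : ℕ) :
    opO (Perc.insArc i p) x = if x = i then true else if x = i + 1 then false
      else opO p (if x < i then x else x - 2) := by
  rcases cases_sh i x with rfl | rfl | ⟨a, rfl⟩
  · rw [if_pos rfl, opO_of_ne (by rw [h.thr_insArc hi]; exact sh_ne.symm), labO_insArc_left h hi,
      ins_left, decide_eq_true (by omega)]
    rfl
  · rw [if_neg (by omega), if_pos rfl, opO_of_ne (by rw [h.thr_insArc hi]; exact sh_ne'.symm),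
      labO_insArc_right h hi, ins_right, decide_eq_false (by omega)]
    rfl
  · rw [if_neg sh_ne, if_neg sh_ne']
    have e : (if sh i a < i then sh i a else sh i a - 2) = a := by
      unfold sh; split_ifs <;> omega
    rw [e]
    unfold opO
    rw [h.thr_insArc hi, ins_sh, labO_insArc h hi]
    simp only [sh_inj, sh_lt]

theorem zptO_insArc (q : ℂ) (h : NCO N p) {i : ℕ} (hi : i ≤ N) :
    zptO q (Perc.insArc i p) = insV i (q ^ 2) 1 (zptO q p) := by
  funext x
  unfold zptO insV
  rw [opO_insArc h hi]
  by_cases h1 : x = i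
  · subst h1; simp
  · by_cases h2 : x = i + 1
    · subst h2; simp
    · by_cases h3 : x < i
      · rw [if_neg h1, if_neg h2, if_pos h3, if_pos h3]
      · rw [if_neg h1, if_neg h2, if_neg h3, if_neg h3, if_neg h1, if_neg h2]

theorem zptO_rotP (q : ℂ) (h : NCO N p) : zptO q (Perc.rotP N p) = rotV N (zptO q p) := by
  funext x
  simp only [zptO, rotV]
  by_cases hx : x < N
  · rw [opO_rotP h hx]
    by_cases h1 : x + 1 = N
    · have h2 : ¬ x + 1 < N := by omega
      simp only [h1, if_true, lt_irrefl, if_false]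
    · have h2 : x + 1 < N := by omega
      simp only [h1, h2, if_true, if_false]
  · have h2 : opO p x = false := opO_out h (by omega)
    have h3 : ¬ x + 1 < N := by omega
    have h4 : ¬ x + 1 = N := by omega
    rw [opO_out h.rotP (by omega)]
    simp only [h2, h3, h4, if_false]

theorem opO_nestO (m : ℕ) {x : ℕ} : opO (nestO m) x = decide (m ≤ x ∧ x < 2 * m + 1) := by
  have ht := thr_nestO m
  by_cases h1 : x = m
  · subst h1
    have : opO (nestO x) (thr (nestO x)) = true := opO_thr _
    rw [ht] at this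
    rw [this, decide_eq_true (by omega)]
  · rw [opO_of_ne (by rw [ht]; exact h1)]
    unfold labO
    rw [ht]
    unfold nestO
    by_cases h2 : x < 2 * m + 1
    · rw [if_pos h2]
      by_cases h3 : m ≤ x
      · have a1 : ¬ x < 2 * m - x := by omega
        have a2 : ¬ x < m := by omega
        have a3 : 2 * m - x < m := by omega
        simp [h2, h3, a1, a2, a3]
      · have a1 : x < 2 * m - x := by omega
        have a2 : x < m := by omega
        have a3 : ¬ 2 * m - x < m := by omega
        simp [h3, a1, a2, a3]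
    · rw [if_neg h2]
      simp [h2]

end Pool.Agent.Perc
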