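import Pool.Agent.Lib.MP_6bd702_perc3.OStC

/-!
# Odd link patterns: labels of `e_i`, capping, words, rotations (task OStD)

Model: perq/QStA.lean, perq/QStB.lean.
-/

set_option autoImplicit false

namespace Pool.Agent.Perc

open Finset PatA PatB OStA

variable {N : ℕ} {p p' : ℕ → ℕ}

theorem OStD.sum_ne (h : ∀ x, p (p x) = x) (S : Finset ℕ) (hS : ∀ x ∈ S, p x ∈ S) :
    ∑ x ∈ S, (if p x ≠ x then (1 : ZMod 2) else 0) = 0 := by
  refine Finset.sum_involution (fun x _ => p x) ?_ ?_ ?_ ?_
  · intro x _
    by_cases hx : p x = x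
    · simp [hx]
    · have : p (p x) ≠ p x := by rw [h]; exact fun e => hx e.symm
      rw [if_pos hx, if_pos this]; decide
  · intro x _ hx
    by_contra hc
    rw [if_neg (by simpa using hc)] at hx
    exact hx rfl
  · intro x hx; exact hS x hx
  · intro x _; exact h x

theorem OStD.card_mod (h : ∀ x, p (p x) = x) (S : Finset ℕ) (hS : ∀ x ∈ S, p x ∈ S) :
    ((S.card : ℕ) : ZMod 2) = ((S.filter fun x => p x = x).card : ℕ) := by
  have h1 := OStD.sum_ne h S hS
  have h2 : ∑ x ∈ S, ((if p x ≠ x then (1 : ZMod 2) else 0) + (if p x = x then (1 : ZMod 2) else 0)) =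
      ∑ x ∈ S, (1 : ZMod 2) := by
    refine Finset.sum_congr rfl fun x _ => ?_
    by_cases hx : p x = x
    · simp [hx]
    · simp [hx]
  rw [Finset.sum_add_distrib, h1, zero_add] at h2
  rw [Finset.card_filter]
  push_cast
  rw [h2]
  simp

theorem NCO.odd (h : NCO N p) : N % 2 = 1 := by
  have h1 := OStD.card_mod h.inv (range N) (fun x hx => mem_range.2 (h.lt x (mem_range.1 hx)))
  have h2 : (range N).filter (fun x => p x = x) = {thr p} := by
    ext x
    simp only [mem_filter, mem_range, mem_singleton]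
    constructor
    · rintro ⟨h3, h4⟩; exact (h.eq_thr_iff h3).1 h4
    · rintro rfl; exact ⟨h.thr_lt, h.thr_fix⟩
  rw [h2, card_range, card_singleton, ZMod.natCast_eq_natCast_iff] at h1
  exact h1

theorem NCO.parity (h : NCO N p) {x : ℕ} (hx : x < N) (hp : p x ≠ x) :
    p x % 2 = x % 2 ↔ labO p x = true := by
  -- first the case `x < p x`
  have key : ∀ x, x < N → x < p x → (p x % 2 = x % 2 ↔ labO p x = true) := by
    intro x hx hlt
    have hpx := h.lt x hx
    have ht := h.thr_lt
    have hf := h.thr_fix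
    have hx1 : x ≠ thr p := by rintro rfl; omega
    have hx2 : p x ≠ thr p := by
      intro e
      have := h.inv x
      rw [e, hf] at this; omega
    have h1 := OStD.card_mod h.inv (Finset.Ioo x (p x)) (fun y hy => by
      rw [Finset.mem_Ioo] at hy ⊢; exact h.nc x y hy.1 hy.2)
    rw [Nat.card_Ioo] at h1
    unfold labO
    by_cases h3 : x < thr p ∧ thr p < p x
    · have h2 : (Finset.Ioo x (p x)).filter (fun y => p y = y) = {thr p} := by
        ext y
        simp only [mem_filter, mem_Ioo, mem_singleton]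
        constructor
        · rintro ⟨h4, h5⟩; exact (h.eq_thr_iff (by omega)).1 h5
        · rintro rfl; exact ⟨h3, hf⟩
      rw [h2, card_singleton, ZMod.natCast_eq_natCast_iff] at h1
      have h1' : (p x - x - 1) % 2 = 1 % 2 := h1
      have h4 : ¬ p x < thr p := by omega
      simp only [h3.1, h4, decide_true, decide_false, Bool.xor_false, iff_true]
      omega
    · have h2 : (Finset.Ioo x (p x)).filter (fun y => p y = y) = ∅ := by
        ext y
        simp only [mem_filter, mem_Ioo, notMem_empty, iff_false]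
        rintro ⟨h4, h5⟩
        have := (h.eq_thr_iff (by omega)).1 h5
        omega
      rw [h2, card_empty, ZMod.natCast_eq_natCast_iff] at h1
      have h1' : (p x - x - 1) % 2 = 0 % 2 := h1
      have h4 : decide (x < thr p) = decide (p x < thr p) := by
        rw [decide_eq_decide]; omega
      rw [h4, Bool.xor_self]
      simp only [Bool.false_eq_true, iff_false]
      omega
  rcases Nat.lt_or_gt_of_ne hp with h1 | h1
  · have h2 := key (p x) (h.lt x hx) (by rw [h.inv]; exact h1)
    rw [h.inv, labO_partner h.inv] at h2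
    rw [← h2]; exact ⟨fun e => e.symm, fun e => e.symm⟩
  · exact key x hx h1

theorem finite_nco (N : ℕ) : {p : ℕ → ℕ | NCO N p}.Finite := by
  classical
  let F : {p : ℕ → ℕ // NCO N p} → (Fin N → Fin N) := fun f x => ⟨f.1 x, f.2.lt x x.2⟩
  have hF : Function.Injective F := by
    intro f f' hff
    apply Subtype.ext
    funext x
    by_cases hx : x < N
    · have := congrFun hff ⟨x, hx⟩
      exact congrArg Fin.val this
    · rw [f.2.out x (by omega), f'.2.out x (by omega)]
  have : Finite {p : ℕ → ℕ // NCO N p} := Finite.of_injective F hF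
  exact Set.finite_coe_iff.1 this

theorem rotO_surj (h : NCO N p) : ∃ p', NCO N p' ∧ rotP N p' = p := by
  have h1 : Set.MapsTo (rotP N) {p | NCO N p} {p | NCO N p} := fun t ht => NCO.rotP ht
  have h2 : Set.InjOn (rotP N) {p | NCO N p} := fun t ht t' ht' he => rotP_injO ht ht' he
  have h3 := ((finite_nco N).injOn_iff_bijOn_of_mapsTo h1).mp h2
  obtain ⟨t, ht, hts⟩ := h3.surjOn h
  exact ⟨t, ht, hts⟩

theorem rotO_iterate (h : NCO N p) : (rotP N)^[N] p = p := by
  let r : ℕ → ℕ → ℕ := fun j x => if x < j then x + N - j else x - j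
  have hr : ∀ j x, j < N → x < N → r j x < N ∧ rh N (r j x) = r (j + 1) x := by
    intro j x hj hx
    simp only [r, rh]
    refine ⟨?_, ?_⟩ <;> split_ifs <;> omega
  have key : ∀ j, j ≤ N → NCO N ((Perc.rotP N)^[j] p) ∧ ∀ x < N,
      ((Perc.rotP N)^[j] p) (r j x) = r j (p x) := by
    intro j
    induction j with
    | zero =>
      intro _
      refine ⟨h, fun x _ => ?_⟩
      simp [r]
    | succ j ih =>
      intro hj
      obtain ⟨h1, h2⟩ := ih (by omega)
      rw [Function.iterate_succ_apply']
      refine ⟨h1.rotP, fun x hx => ?_⟩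
      obtain ⟨a1, a2⟩ := hr j x (by omega) hx
      obtain ⟨b1, b2⟩ := hr j (p x) (by omega) (h.lt x hx)
      rw [← a2, rot_rh a1, h2 x hx, b2]
  obtain ⟨h1, h2⟩ := key N le_rfl
  have hrN : ∀ x < N, r N x = x := by
    intro x hx
    simp only [r]
    rw [if_pos hx]; omega
  funext x
  by_cases hx : x < N
  · have h3 := h2 x hx
    rwa [hrN x hx, hrN _ (h.lt x hx)] at h3
  · rw [h1.out x (by omega), h.out x (by omega)]

theorem insArcO_inj (h : NCO N p) (h' : NCO N p') {i : ℕ} (hi : i ≤ N)
    (he : insArc i p = insArc i p') : p = p' := by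
  rw [← delArc_insArcO h hi, he, delArc_insArcO h' hi]

theorem nco_one (h : NCO 1 p) : p = nestO 0 := by
  funext x
  unfold nestO
  by_cases hx : x < 1
  · have h1 := h.lt x hx
    rw [if_pos (by omega)]; omega
  · rw [if_neg (by omega), h.out x (by omega)]

theorem resO_insArc (h : NCO N p) : resP N (insArc N p) = p := by
  funext x
  unfold resP
  by_cases hx : x < N
  · rw [if_pos hx]
    have e : sh N x = x := by unfold sh; rw [if_pos hx]
    have e2 : sh N (p x) = p x := by unfold sh; rw [if_pos (h.lt x hx)]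
    have := ins_sh N p x
    rwa [e, e2] at this
  · rw [if_neg hx, h.out x (by omega)]

namespace OStD

/-- `a`, `a'` are the two sites of `e_i`. -/
def Two (i a a' : ℕ) : Prop := (a = i ∧ a' = i + 1) ∨ (a = i + 1 ∧ a' = i)

theorem Two.symm {i a a' : ℕ} (h : Two i a a') : Two i a' a := by
  rcases h with ⟨h1, h2⟩ | ⟨h1, h2⟩
  · exact Or.inr ⟨h2, h1⟩
  · exact Or.inl ⟨h2, h1⟩

theorem eOs {i a a' : ℕ} (p : ℕ → ℕ) (ha : Two i a a') : eO i p a = a' := by
  rcases ha with ⟨rfl, rfl⟩ | ⟨rfl, rfl⟩
  · exact eO_left _ _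
  · exact eO_right _ _

theorem eOo {i a a' x : ℕ} {p : ℕ → ℕ} (ha : Two i a a') (hx : x ≠ a) (hx' : x ≠ a')
    (hp : p x = a) : eO i p x = if p a' = a' then x else p a' := by
  rcases ha with ⟨rfl, rfl⟩ | ⟨rfl, rfl⟩
  · exact eO_a p hx hx' hp
  · exact eO_b p hx' hx hp

theorem eOn {i a a' x : ℕ} {p : ℕ → ℕ} (ha : Two i a a') (hx : x ≠ a) (hx' : x ≠ a')
    (hp : p x ≠ a) (hp' : p x ≠ a') : eO i p x = p x := by
  rcases ha with ⟨rfl, rfl⟩ | ⟨rfl, rfl⟩
  · exact eO_other p hx hx' hp hp'
  · exact eO_other p hx' hx hp' hp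

theorem comm1 (p : ℕ → ℕ) {i j a a' b b' : ℕ} (ha : Two i a a') (hb : Two j b b')
    (h1 : a ≠ b) (h2 : a ≠ b') (h3 : a' ≠ b) (h4 : a' ≠ b') :
    eO i (eO j p) a = eO j (eO i p) a := by
  rw [eOs _ ha, eOn hb h1 h2 (by rw [eOs _ ha]; exact h3) (by rw [eOs _ ha]; exact h4), eOs _ ha]

theorem comm2 (h : ∀ x, p (p x) = x) {i j a a' b b' x : ℕ} (ha : Two i a a') (hb : Two j b b')
    (h1 : a ≠ b) (h2 : a ≠ b') (h3 : a' ≠ b) (h4 : a' ≠ b') (x1 : x ≠ a) (x2 : x ≠ a')
    (x3 : x ≠ b) (x4 : x ≠ b') (hx : p x = a) :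
    eO i (eO j p) x = eO j (eO i p) x := by
  have haa : a ≠ a' := by rcases ha with ha | ha <;> omega
  have hbb : b ≠ b' := by rcases hb with hb | hb <;> omega
  have hpa : p a = x := by rw [← hx, h]
  have e1 : eO j p x = a := by rw [eOn hb x3 x4 (by rw [hx]; exact h1) (by rw [hx]; exact h2), hx]
  have e2 := eOo (p := p) ha x1 x2 hx
  have key : ∀ b b' : ℕ, Two j b b' → a ≠ b → a ≠ b' → a' ≠ b → a' ≠ b' → x ≠ b → x ≠ b' → b ≠ b' →
      p a' = b → eO i (eO j p) x = eO j (eO i p) x := by
    intro b b' hb h1 h2 h3 h4 x3 x4 hbb hc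
    have hpc : p b = a' := by rw [← hc, h]
    have hib : p (p b') = b' := h b'
    have g1 : p b' ≠ a := by intro e; rw [e, hpa] at hib; exact x4 hib
    have g2 : p b' ≠ a' := by intro e; rw [e, hc] at hib; exact hbb hib
    have e3 : eO i p b' = p b' := eOn ha (Ne.symm h2) (Ne.symm h4) g1 g2
    have e4 : eO j p a' = if p b' = b' then a' else p b' := eOo hb h3 h4 hc
    have e5 : eO i p x = b := by rw [e2, if_neg (by rw [hc]; exact h3.symm), hc]
    rw [eOo ha x1 x2 e1, eOo hb x3 x4 e5, e3, e4]
    by_cases hf : p b' = b'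
    · simp [hf]
    · simp [hf, g2]
  by_cases hc : p a' = b
  · exact key b b' hb h1 h2 h3 h4 x3 x4 hbb hc
  · by_cases hc' : p a' = b'
    · exact key b' b hb.symm h2 h1 h4 h3 x4 x3 hbb.symm hc'
    · have e3 : eO j p a' = p a' := eOn hb h3 h4 hc hc'
      rw [eOo ha x1 x2 e1, e3]
      by_cases hf : p a' = a'
      · rw [if_pos hf]
        rw [if_pos hf] at e2
        rw [eOn hb x3 x4 (by rw [e2]; exact x3) (by rw [e2]; exact x4), e2]
      · rw [if_neg hf]
        rw [if_neg hf] at e2
        rw [eOn hb x3 x4 (by rw [e2]; exact hc) (by rw [e2]; exact hc'), e2]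

theorem comm3 (p : ℕ → ℕ) {i j a a' b b' x : ℕ} (ha : Two i a a') (hb : Two j b b')
    (x1 : x ≠ a) (x2 : x ≠ a') (x3 : x ≠ b) (x4 : x ≠ b') (y1 : p x ≠ a) (y2 : p x ≠ a')
    (y3 : p x ≠ b) (y4 : p x ≠ b') :
    eO i (eO j p) x = eO j (eO i p) x := by
  have e1 := eOn (p := p) hb x3 x4 y3 y4
  have e2 := eOn (p := p) ha x1 x2 y1 y2
  rw [eOn ha x1 x2 (by rw [e1]; exact y1) (by rw [e1]; exact y2), e1,
    eOn hb x3 x4 (by rw [e2]; exact y3) (by rw [e2]; exact y4), e2]

end OStD

open OStD

/-- Far generators commute. -/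
theorem eO_comm (h : NCO N p) {i j : ℕ} (hij : i + 1 < j) (hj : j + 1 < N) :
    eO i (eO j p) = eO j (eO i p) := by
  have _ := hj
  have a1 : Two i i (i + 1) := Or.inl ⟨rfl, rfl⟩
  have a2 : Two i (i + 1) i := Or.inr ⟨rfl, rfl⟩
  have b1 : Two j j (j + 1) := Or.inl ⟨rfl, rfl⟩
  have b2 : Two j (j + 1) j := Or.inr ⟨rfl, rfl⟩
  funext x
  by_cases x1 : x = i
  · subst x1; exact comm1 p a1 b1 (by omega) (by omega) (by omega) (by omega)
  by_cases x2 : x = i + 1
  · subst x2; exact comm1 p a2 b1 (by omega) (by omega) (by omega) (by omega)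
  by_cases x3 : x = j
  · subst x3; exact (comm1 p b1 a1 (by omega) (by omega) (by omega) (by omega)).symm
  by_cases x4 : x = j + 1
  · subst x4; exact (comm1 p b2 a1 (by omega) (by omega) (by omega) (by omega)).symm
  by_cases y1 : p x = i
  · exact comm2 h.inv a1 b1 (by omega) (by omega) (by omega) (by omega) x1 x2 x3 x4 y1
  by_cases y2 : p x = i + 1
  · exact comm2 h.inv a2 b1 (by omega) (by omega) (by omega) (by omega) x2 x1 x3 x4 y2
  by_cases y3 : p x = j
  · exact (comm2 h.inv b1 a1 (by omega) (by omega) (by omega) (by omega) x3 x4 x1 x2 y3).symm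
  by_cases y4 : p x = j + 1
  · exact (comm2 h.inv b2 a1 (by omega) (by omega) (by omega) (by omega) x4 x3 x1 x2 y4).symm
  exact comm3 p a1 b1 x1 x2 x3 x4 y1 y2 y3 y4

theorem capO_insArc (h : NCO N p) {i : ℕ} (hi : i ≤ N) : capO i (insArc i p) = p := by
  unfold capO
  rw [eO_insArc_self i h hi, delArc_insArcO h hi]

theorem capO_eO (h : NCO (N + 2) p) {i : ℕ} (hi : i ≤ N) : capO i (eO i p) = capO i p := by
  have _ := hi
  unfold capO
  rw [eO_idem h.inv]

/-! ### labels of `e_i` -/

theorem labO_eO_left (h : NCO N p) {i : ℕ} (hi : i + 1 < N) : labO (eO i p) i = false :=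
  labO_small (h.eO hi) (by omega) (eO_left _ _)

theorem labO_eO_right (h : NCO N p) {i : ℕ} (hi : i + 1 < N) : labO (eO i p) (i + 1) = false := by
  have := labO_partner (h.eO hi).inv i
  rw [eO_left] at this
  rw [this, labO_eO_left h hi]

/-- The through line after `e_i`. -/
theorem thr_eO (h : NCO N p) {i : ℕ} (hi : i + 1 < N) :
    thr (eO i p) = if thr p = i then p (i + 1) else if thr p = i + 1 then p i else thr p := by
  have hf := h.thr_fix
  split_ifs with h1 h2
  · rw [h1] at hf
    have h3 : p (i + 1) ≠ i + 1 := fun e => by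
      have := h.fix_unique (by omega) hi hf e; omega
    have h4 : p (i + 1) ≠ i := fun e => by
      have := h.inv (i + 1); rw [e, hf] at this; omega
    apply (h.eO hi).thr_eq (h.lt _ hi)
    rw [eO_b p h4 h3 (h.inv _), if_pos hf]
  · rw [h2] at hf
    have h3 : p i ≠ i := fun e => by
      have := h.fix_unique (by omega) hi e hf; omega
    have h4 : p i ≠ i + 1 := fun e => by
      have := h.inv i; rw [e, hf] at this; omega
    apply (h.eO hi).thr_eq (h.lt _ (by omega))
    rw [eO_a p h3 h4 (h.inv _), if_pos hf]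
  · apply (h.eO hi).thr_eq h.thr_lt
    rw [eO_other p h1 h2 (by rw [hf]; exact h1) (by rw [hf]; exact h2), hf]

/-- The two ends of the new arc. -/
theorem labO_eO_mid (h : NCO N p) {i : ℕ} (hi : i + 1 < N) {x : ℕ} (hx : x ≠ i) (hx' : x ≠ i + 1)
    (hp : p x = i ∨ p x = i + 1) (h1 : p i ≠ i) (h2 : p (i + 1) ≠ i + 1) :
    labO (eO i p) x = xor (labO p i) (labO p (i + 1)) := by
  have hf := h.thr_fix
  have t1 : thr p ≠ i := by rintro rfl; exact h1 hf
  have t2 : thr p ≠ i + 1 := by intro e; rw [e] at hf; exact h2 hf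
  have ht : thr (eO i p) = thr p := by rw [thr_eO h hi, if_neg t1, if_neg t2]
  have hd : decide (i < thr p) = decide (i + 1 < thr p) := by rw [decide_eq_decide]; omega
  unfold labO
  rw [ht]
  rcases hp with hp | hp
  · have hq := h.swap.1 hp
    rw [eO_a p hx hx' hp, if_neg h2, hq, hd]
    cases decide (i + 1 < thr p) <;> cases decide (x < thr p) <;>
      cases decide (p (i + 1) < thr p) <;> rfl
  · have hq := h.swap.1 hp
    rw [eO_b p hx hx' hp, if_neg h1, hq, hd]
    cases decide (i + 1 < thr p) <;> cases decide (x < thr p) <;>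
      cases decide (p i < thr p) <;> rfl

/-- An arc does not separate the ends of another arc. -/
theorem OStD.side (h : NCO N p) {x y : ℕ} (h1 : x ≠ y) (h2 : p x ≠ y) :
    xor (decide (x < y)) (decide (p x < y)) = xor (decide (x < p y)) (decide (p x < p y)) := by
  have hb := h.btw (s := x) (t := y)
  have hb' := h.btw (s := x) (t := p y)
  rw [h.inv] at hb'
  have e1 : p y ≠ x := fun e => h2 (h.swap.1 e)
  have e2 : p y ≠ p x := fun e => by
    have := congrArg p e; rw [h.inv, h.inv] at this; exact h1 this.symm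
  unfold Bt at hb hb'
  by_cases c1 : x < y <;> by_cases c2 : p x < y <;> by_cases c3 : x < p y <;>
    by_cases c4 : p x < p y <;> simp only [c1, c2, c3, c4, decide_true, decide_false] <;>
    first | rfl | omega

theorem labO_eO_other (h : NCO N p) {i : ℕ} (hi : i + 1 < N) {x : ℕ} (hx : x ≠ i)
    (hx' : x ≠ i + 1) (hp : p x ≠ i) (hp' : p x ≠ i + 1) : labO (eO i p) x = labO p x := by
  have e1 := eO_other p hx hx' hp hp'
  have ht := thr_eO h hi
  unfold labO
  rw [ht, e1]
  split_ifs with h1 h2
  · have := OStD.side h (x := x) (y := i + 1) hx' hp'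
    rw [← this, h1]
    have c1 : decide (x < i + 1) = decide (x < i) := by rw [decide_eq_decide]; omega
    have c2 : decide (p x < i + 1) = decide (p x < i) := by rw [decide_eq_decide]; omega
    rw [c1, c2]
  · have := OStD.side h (x := x) (y := i) hx hp
    rw [← this, h2]
    have c1 : decide (x < i + 1) = decide (x < i) := by rw [decide_eq_decide]; omega
    have c2 : decide (p x < i + 1) = decide (p x < i) := by rw [decide_eq_decide]; omega
    rw [c1, c2]
  · rfl

/-! ### words -/

theorem prod_zptO {q : ℂ} (hq : q ^ 2 + q + 1 = 0) {n : ℕ} (h : NCO (2 * n + 1) p) :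
    ∏ k ∈ range (2 * n + 1), (zptO q p k - q) ^ 2 = -3 * (9 * q) ^ n := by
  have h1 : ∏ k ∈ range (2 * n + 1), (zptO q p (p k) - q)
      = ∏ k ∈ range (2 * n + 1), (zptO q p k - q) := by
    refine Finset.prod_nbij' p p ?_ ?_ ?_ ?_ ?_
    · intro a ha
      exact Finset.mem_range.2 (h.lt a (Finset.mem_range.1 ha))
    · intro a ha
      exact Finset.mem_range.2 (h.lt a (Finset.mem_range.1 ha))
    · intro a ha
      exact h.inv a
    · intro a ha
      exact h.inv a
    · intro a ha
      rfl
  have h2 : ∏ k ∈ range (2 * n + 1), (zptO q p k - q) ^ 2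
      = (∏ k ∈ range (2 * n + 1), (zptO q p k - q)) *
        ∏ k ∈ range (2 * n + 1), (zptO q p (p k) - q) := by
    rw [h1, Finset.prod_pow, sq]
  rw [h2, ← Finset.prod_mul_distrib]
  have ht : thr p ∈ range (2 * n + 1) := Finset.mem_range.2 h.thr_lt
  rw [← Finset.mul_prod_erase _ _ ht]
  have h3 : ∀ k ∈ (range (2 * n + 1)).erase (thr p), (zptO q p k - q) * (zptO q p (p k) - q)
      = (q ^ 2 - q) * (1 - q) := by
    intro k hk
    rw [Finset.mem_erase, Finset.mem_range] at hk
    unfold zptO
    rw [opO_partner h hk.2 (h.ne_of_ne hk.2 hk.1)]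
    cases opO p k
    · simp
      ring
    · simp
  rw [Finset.prod_congr rfl h3, Finset.prod_const, Finset.card_erase_of_mem ht, Finset.card_range,
    h.thr_fix, Nat.add_sub_cancel, pow_mul]
  have h4 : zptO q p (thr p) = q ^ 2 := by unfold zptO; rw [if_pos (opO_thr p)]
  rw [h4]
  have h5 : (q ^ 2 - q) * (q ^ 2 - q) = -3 := by
    linear_combination (q ^ 2 - 3 * q + 3) * hq
  have h6 : ((q ^ 2 - q) * (1 - q)) ^ 2 = 9 * q := by
    linear_combination (q ^ 4 - 5 * q ^ 3 + 10 * q ^ 2 - 9 * q) * hq
  rw [h5, h6]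

/-- The word determines the small arcs. -/
theorem smallO_of_op (h : NCO N p) {i : ℕ} (hi : i + 1 < N) (h1 : opO p i = true)
    (h2 : opO p (i + 1) = false) : p i = i + 1 := by
  have t2 : i + 1 ≠ thr p := by intro e; rw [e, opO_thr] at h2; exact absurd h2 (by simp)
  have n2 := h.ne_of_ne hi t2
  have v2 := h.inv (i + 1)
  rw [opO_of_ne t2] at h2
  unfold labO at h2
  by_cases t1 : i = thr p
  · exfalso
    have hf := h.thr_fix
    rw [← t1] at h2 hf
    have n3 : p (i + 1) ≠ i := by intro e; rw [e, hf] at v2; omega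
    by_cases c1 : i + 1 < p (i + 1)
    · have c2 : ¬ p (i + 1) < i := by omega
      simp [c1, c2] at h2
    · have c2 : p (i + 1) < i := by omega
      simp [c1, c2] at h2
  · have n1 := h.ne_of_ne (by omega) t1
    have v1 := h.inv i
    rw [opO_of_ne t1] at h1
    unfold labO at h1
    have hf := h.thr_fix
    have n3 : p i ≠ thr p := by intro e; rw [e, hf] at v1; exact t1 v1.symm
    have n4 : p (i + 1) ≠ thr p := by intro e; rw [e, hf] at v2; exact t2 v2.symm
    by_contra h3
    have h4 : p (i + 1) ≠ i := by intro e; rw [e] at v2; exact h3 v2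
    have k1 := h.nc i (i + 1) (by omega)
    have k2 := h.nc (p (i + 1)) i
    rw [v2] at k2
    by_cases c0 : i < thr p
    · have c0' : i + 1 < thr p := by omega
      by_cases c1 : i < p i <;> by_cases c2 : p i < thr p <;> by_cases c3 : i + 1 < p (i + 1) <;>
        by_cases c4 : p (i + 1) < thr p <;> simp [c0, c0', c1, c2, c3, c4] at h1 h2 <;> omega
    · have c0' : ¬ i + 1 < thr p := by omega
      by_cases c1 : i < p i <;> by_cases c2 : p i < thr p <;> by_cases c3 : i + 1 < p (i + 1) <;>
        by_cases c4 : p (i + 1) < thr p <;> simp [c0, c0', c1, c2, c3, c4] at h1 h2 <;> omega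

theorem OStD.op_small (h : NCO N p) {i : ℕ} (hi : i + 1 < N) (h1 : p i = i + 1) :
    opO p i = true ∧ opO p (i + 1) = false := by
  have n1 : i ≠ thr p := by
    intro e; have := h.thr_fix; rw [← e, h1] at this; omega
  have o1 : opO p i = true := by
    rw [opO_of_ne n1, labO_small h (by omega) h1, h1, decide_eq_true (by omega)]
    rfl
  refine ⟨o1, ?_⟩
  have := opO_partner h (x := i) (by omega) (by omega)
  rw [h1, o1] at this
  exact this

/-- A state is determined by its word. -/
theorem eq_of_opO (h : NCO N p) (h' : NCO N p') (he : ∀ x < N, opO p x = opO p' x) : p = p' := by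
  have hodd := h.odd
  obtain ⟨m, rfl⟩ : ∃ m, N = 2 * m + 1 := ⟨N / 2, by omega⟩
  clear hodd
  induction m generalizing p p' with
  | zero => rw [nco_one h, nco_one h']
  | succ m ih =>
    have e0 : 2 * (m + 1) + 1 = 2 * m + 1 + 2 := by ring
    rw [e0] at h h' he
    have key : ∀ u u' : ℕ → ℕ, NCO (2 * m + 1 + 2) u → NCO (2 * m + 1 + 2) u' →
        (∀ x < 2 * m + 1 + 2, opO u x = opO u' x) →
        (∃ i < 2 * m + 1 + 1, u i = i + 1) → u = u' := by
      rintro u u' hu hu' hop ⟨i, hi, hi1⟩
      obtain ⟨o1, o2⟩ := OStD.op_small hu (by omega) hi1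
      rw [hop i (by omega)] at o1
      rw [hop (i + 1) (by omega)] at o2
      have p1 := smallO_of_op hu' (by omega) o1 o2
      obtain ⟨t, ht, rfl⟩ := hu.exists_del hi hi1
      obtain ⟨t', ht', rfl⟩ := hu'.exists_del hi p1
      rw [ih ht ht' ?_]
      intro x hx
      rcases Nat.lt_or_ge x i with hxi | hxi
      · have := hop x (by omega)
        rw [opO_insArc ht (by omega), opO_insArc ht' (by omega), if_neg (by omega),
          if_neg (by omega), if_pos hxi, if_neg (by omega), if_neg (by omega)] at this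
        exact this
      · have := hop (x + 2) (by omega)
        rw [opO_insArc ht (by omega), opO_insArc ht' (by omega), if_neg (by omega),
          if_neg (by omega), if_neg (by omega), if_neg (by omega), if_neg (by omega),
          Nat.add_sub_cancel] at this
        exact this
    rcases NCO.exists_small h (by omega) with hs | hs1
    · exact key p p' h h' he hs
    · obtain ⟨u, hu, rfl⟩ := rotO_surj h
      obtain ⟨u', hu', rfl⟩ := rotO_surj h'
      have hop : ∀ x < 2 * m + 1 + 2, opO u x = opO u' x := by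
        intro x hx
        rcases Nat.eq_zero_or_pos x with rfl | hx0
        · have := he (2 * m + 2) (by omega)
          rw [opO_rotP hu (by omega), opO_rotP hu' (by omega), if_pos (by omega)] at this
          exact this
        · have := he (x - 1) (by omega)
          rw [opO_rotP hu (by omega), opO_rotP hu' (by omega), if_neg (by omega),
            Nat.sub_add_cancel hx0] at this
          exact this
      have hne : (0 : ℕ) ≠ thr (Perc.rotP (2 * m + 1 + 2) u) := by
        intro e
        have := h.thr_fix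
        rw [← e, hs1] at this
        omega
      have hlab : labO (Perc.rotP (2 * m + 1 + 2) u) 0 = true := by
        have a1 := h.thr_lt
        have a2 := h.thr_fix
        have a3 : thr (Perc.rotP (2 * m + 1 + 2) u) ≠ 2 * m + 1 + 1 := by
          intro e
          have a4 := h.inv 0
          rw [hs1] at a4
          rw [e] at a2
          omega
        unfold labO
        rw [hs1, decide_eq_true (by omega), decide_eq_false (by omega)]
        rfl
      have o0 : opO (Perc.rotP (2 * m + 1 + 2) u) 0 = false := by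
        rw [opO_of_ne hne, hlab, hs1, decide_eq_true (by omega)]
        rfl
      have o1 : opO (Perc.rotP (2 * m + 1 + 2) u) (2 * m + 2) = true := by
        have := opO_partner h (x := 0) (by omega) (by rw [hs1]; omega)
        rw [hs1, o0] at this
        exact this
      rw [opO_rotP hu (by omega), if_neg (by omega)] at o0
      rw [opO_rotP hu (by omega), if_pos (by omega)] at o1
      have p1 := smallO_of_op hu (by omega) o1 o0
      rw [key u u' hu hu' hop ⟨0, by omega, p1⟩]

/-- A state which is not `nestO n` has an opening before a closing. -/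
theorem exists_op_clO {n : ℕ} (h : NCO (2 * n + 1) p) (hne : p ≠ nestO n) :
    ∃ i j, i < j ∧ j < 2 * n + 1 ∧ opO p i = true ∧ opO p j = false := by
  by_contra hcon
  push Not at hcon
  apply hne
  have htm : thr p ∈ range (2 * n + 1) := Finset.mem_range.2 h.thr_lt
  have hc1 : (filter (fun x => opO p x = true) ((range (2 * n + 1)).erase (thr p))).card
      = (filter (fun x => ¬ opO p x = true) ((range (2 * n + 1)).erase (thr p))).card := by
    have hm : ∀ a ∈ (range (2 * n + 1)).erase (thr p), p a ∈ (range (2 * n + 1)).erase (thr p) := by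
      intro a ha
      rw [mem_erase, mem_range] at ha ⊢
      refine ⟨fun e => ?_, h.lt a ha.2⟩
      have := h.inv a
      rw [e, h.thr_fix] at this
      exact ha.1 this.symm
    refine Finset.card_nbij' p p ?_ ?_ ?_ ?_
    · intro a ha
      rw [mem_coe, mem_filter] at ha ⊢
      refine ⟨hm a ha.1, ?_⟩
      have h3 := ha.1
      rw [mem_erase, mem_range] at h3
      rw [opO_partner h h3.2 (h.ne_of_ne h3.2 h3.1), ha.2]
      simp
    · intro a ha
      rw [mem_coe, mem_filter] at ha ⊢
      refine ⟨hm a ha.1, ?_⟩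
      have h3 := ha.1
      rw [mem_erase, mem_range] at h3
      rw [opO_partner h h3.2 (h.ne_of_ne h3.2 h3.1)]
      simpa using ha.2
    · intro a ha
      exact h.inv a
    · intro a ha
      exact h.inv a
  have hc2 := Finset.card_filter_add_card_filter_not (s := (range (2 * n + 1)).erase (thr p))
    (fun x => opO p x = true)
  rw [card_erase_of_mem htm, card_range] at hc2
  refine eq_of_opO h (nco_nestO n) ?_
  intro x hx
  rw [opO_nestO]
  cases ho : opO p x
  · symm
    rw [decide_eq_false_iff_not]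
    have h1 : range (x + 1) ⊆
        filter (fun x => ¬ opO p x = true) ((range (2 * n + 1)).erase (thr p)) := by
      intro y hy
      rw [Finset.mem_range] at hy
      have h5 : ¬ opO p y = true := by
        intro h2
        rcases Nat.lt_or_ge y x with h3 | h3
        · exact hcon y x h3 hx h2 ho
        · rw [show y = x by omega, ho] at h2
          exact absurd h2 (by simp)
      rw [Finset.mem_filter, mem_erase, Finset.mem_range]
      refine ⟨⟨?_, by omega⟩, h5⟩
      rintro rfl
      exact h5 (opO_thr p)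
    have h2 := Finset.card_le_card h1
    rw [Finset.card_range] at h2
    omega
  · symm
    rw [decide_eq_true_iff]
    have h1 : Finset.Ico x (2 * n + 1) ⊆
        insert (thr p) (filter (fun x => opO p x = true) ((range (2 * n + 1)).erase (thr p))) := by
      intro y hy
      rw [Finset.mem_Ico] at hy
      rw [mem_insert, Finset.mem_filter, mem_erase, Finset.mem_range]
      by_cases hyt : y = thr p
      · exact Or.inl hyt
      · refine Or.inr ⟨⟨hyt, by omega⟩, ?_⟩
        rcases Nat.lt_or_ge x y with h3 | h3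
        · have := hcon x y h3 hy.2 ho
          simpa using this
        · rw [show y = x by omega, ho]
    have h2 := Finset.card_le_card h1
    have h3 := Finset.card_insert_le (thr p)
      (filter (fun x => opO p x = true) ((range (2 * n + 1)).erase (thr p)))
    rw [Nat.card_Ico] at h2
    omega

end Pool.Agent.Perc
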