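import Pool.Agent.Lib.MP_6bd702_perq.QStA
import Pool.Agent.Lib.MP_6bd702_perc.Wheel

/-!
# Odd link patterns: definitions

An odd state of `N` sites (`N` odd) is an involution `p : ℕ → ℕ`, the identity outside
`0, …, N - 1`, with exactly one fixed point `t < N` (the site of the through line) and noncrossing
arcs. The arcs never cross the through line, which goes from the site `t` to the puncture (the point
at infinity of the half cylinder): an arc is separating (label `true`) if and only if `t` lies
between its ends.
-/

set_option autoImplicit false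

namespace Pool.Agent.Perc

open Finset

/-- Noncrossing patterns with one through line. -/
structure NCO (N : ℕ) (p : ℕ → ℕ) : Prop where
  lt : ∀ x < N, p x < N
  inv : ∀ x, p (p x) = x
  out : ∀ x, N ≤ x → p x = x
  nc : ∀ x y, x < y → y < p x → x < p y ∧ p y < p x
  fix : ∃ t < N, p t = t ∧ ∀ x < N, p x = x → x = t

/-- The site of the through line. -/
noncomputable def thr (p : ℕ → ℕ) : ℕ := sInf {x | p x = x}

/-- The label of the arc of `x`: the through line is between its ends. -/
noncomputable def labO (p : ℕ → ℕ) (x : ℕ) : Bool :=
  xor (decide (x < thr p)) (decide (p x < thr p))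

/-- The Temperley-Lieb generator at the sites `i`, `i + 1`. -/
def eO (i : ℕ) (p : ℕ → ℕ) : ℕ → ℕ := fun x =>
  if x = i then i + 1 else if x = i + 1 then i
  else if p x = i then (if p (i + 1) = i + 1 then x else p (i + 1))
  else if p x = i + 1 then (if p i = i then x else p i) else p x

/-- The site `x` is an opening (the puncture is to the left of every arc) or the through line. -/
noncomputable def opO (p : ℕ → ℕ) (x : ℕ) : Bool :=
  decide (x = thr p) || xor (decide (x < p x)) (labO p x)

/-- The evaluation point of a state: `q²` at openings and at the through line, `1` at closings. -/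
noncomputable def zptO (q : ℂ) (p : ℕ → ℕ) : ℕ → ℂ := fun k => if opO p k = true then q ^ 2 else 1

/-- The nested pattern of `2 n + 1` sites: word `-ⁿ + +ⁿ`. -/
def nestO (n : ℕ) : ℕ → ℕ := fun x => if x < 2 * n + 1 then 2 * n - x else x

/-- Length of the arc of `x` in the universal cover (`0` for the through line). -/
noncomputable def lenO (N : ℕ) (p : ℕ → ℕ) (x : ℕ) : ℕ :=
  if labO p x = true then N - ((p x - x) + (x - p x)) else (p x - x) + (x - p x)

/-- Total length (every arc is counted twice). -/
noncomputable def totO (N : ℕ) (p : ℕ → ℕ) : ℕ := ∑ x ∈ range N, lenO N p x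

/-- Close the sites `i`, `i + 1` by a small arc and remove them. -/
def capO (i : ℕ) (p : ℕ → ℕ) : ℕ → ℕ := delArc i (eO i p)

/-- The faces `0, …, k - 1` of a row; `w i = true` if the face `i` acts by `e_i`. -/
def rowO (w : ℕ → Bool) : ℕ → (ℕ → ℕ) → (ℕ → ℕ)
  | 0, p => p
  | k + 1, p => if w k then eO k (rowO w k p) else rowO w k p

/-- One row of the cylinder of odd circumference `L`. -/
def trowO (L : ℕ) (w : ℕ → Bool) (p : ℕ → ℕ) : ℕ → ℕ := resP L (eO L (rowO w L (cupO L p)))

/-- Average over the configurations of a row. -/
noncomputable def avgO (L : ℕ) (f : (ℕ → ℕ) → ℂ) (p : ℕ → ℕ) : ℂ :=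
  (∑ T ∈ (range L).powerset, f (trowO L (fun k => decide (k ∈ T)) p)) / 2 ^ L

/-- The initial state of `L` sites (`L` odd): small arcs `(0, 1), (2, 3), …`, the last site is the
through line. -/
def flatO (L : ℕ) : ℕ → ℕ := fun x =>
  if L ≤ x + 1 then x else if x % 2 = 0 then x + 1 else x - 1

end Pool.Agent.Perc
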