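import Pool.Agent.Lib.MP_6bd702_perc3.PsiODefs

/-!
# The solution for odd circumference: exchange relation (task PsiOA)

Model: perq/PsiSA.lean.
-/

set_option autoImplicit false

namespace Pool.Agent.Perc

open Finset MvPolynomial

variable {q : ℂ} {n : ℕ} {p : ℕ → ℕ}

theorem dw_PsiO (hq : q ^ 2 + q + 1 = 0) (n : ℕ) (p : ℕ → ℕ) :
    DW q (2 * n + 1) (PsiO q n p) := by
  classical
  unfold PsiO
  split_ifs with h
  · exact (exists_dualO h.1 h.2).choose_spec.1
  · exact dw_zero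

open Classical in
theorem eval_zptO_PsiO (hq : q ^ 2 + q + 1 = 0) (hp : NCO (2 * n + 1) p) {p' : ℕ → ℕ}
    (h : NCO (2 * n + 1) p') : eval (zptO q p') (PsiO q n p) = if p' = p then 1 else 0 := by
  unfold PsiO
  rw [dif_pos ⟨hq, hp⟩]
  exact (exists_dualO hq hp).choose_spec.2 p' h

/-- Expansion in the dual basis. -/
theorem DW.eq_sum_PsiO (hq : q ^ 2 + q + 1 = 0) {P : MvPolynomial ℕ ℂ}
    (h : DW q (2 * n + 1) P) :
    P = ∑ p ∈ nco (2 * n + 1), C (eval (zptO q p) P) * PsiO q n p := by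
  classical
  rw [← sub_eq_zero]
  have hneg : P - ∑ p ∈ nco (2 * n + 1), C (eval (zptO q p) P) * PsiO q n p =
      P + C (-1) * ∑ p ∈ nco (2 * n + 1), C (eval (zptO q p) P) * PsiO q n p := by
    rw [C_neg, C_1, neg_one_mul, sub_eq_add_neg]
  have hDW : DW q (2 * n + 1)
      (P - ∑ p ∈ nco (2 * n + 1), C (eval (zptO q p) P) * PsiO q n p) := by
    rw [hneg]
    exact h.add ((DW.sum _ _ fun p _ => (dw_PsiO hq n p).smul _).smul _)
  refine hDW.eq_zeroO hq ?_
  intro p hp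
  rw [map_sub, map_sum, Finset.sum_eq_single p]
  · rw [map_mul, eval_C, eval_zptO_PsiO hq hp hp, if_pos rfl, mul_one, sub_self]
  · intro π hπ hne
    rw [map_mul, eval_zptO_PsiO hq (mem_nco.mp hπ) hp, if_neg (fun h => hne h.symm), mul_zero]
  · intro hp'
    exact absurd (mem_nco.mpr hp) hp'

theorem PsiOV_apply (z : ℕ → ℂ) (hp : NCO (2 * n + 1) p) :
    PsiOV q n z p = eval z (PsiO q n p) := by
  classical
  unfold PsiOV
  rw [Finsupp.finsetSum_apply, Finset.sum_eq_single p]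
  · rw [Finsupp.single_eq_same]
  · intro b _ hb
    rw [Finsupp.single_eq_of_ne (Ne.symm hb)]
  · intro h
    exact absurd (mem_nco.mpr hp) h

theorem PsiOV_apply_of_not (z : ℕ → ℂ) (hp : ¬ NCO (2 * n + 1) p) : PsiOV q n z p = 0 := by
  classical
  unfold PsiOV
  rw [Finsupp.finsetSum_apply]
  refine Finset.sum_eq_zero fun b hb => ?_
  rw [Finsupp.single_eq_of_ne]
  rintro rfl
  exact hp (mem_nco.mp hb)

theorem PsiOV_congr (hq : q ^ 2 + q + 1 = 0) {z z' : ℕ → ℂ} (h : ∀ k < 2 * n + 1, z k = z' k) :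
    PsiOV q n z = PsiOV q n z' := by
  unfold PsiOV
  refine Finset.sum_congr rfl fun p _ => ?_
  rw [(dw_PsiO hq n p).eval_congr h]

theorem suppO_PsiOV (q : ℂ) (n : ℕ) (z : ℕ → ℂ) : SuppO (2 * n + 1) (PsiOV q n z) := by
  intro p h
  by_contra hp
  exact h (PsiOV_apply_of_not z hp)

theorem degreeOf_PsiO_out (hq : q ^ 2 + q + 1 = 0) (n : ℕ) (p : ℕ → ℕ) {k : ℕ}
    (hk : 2 * n + 1 ≤ k) : (PsiO q n p).degreeOf k = 0 :=
  (dw_PsiO hq n p).out k hk

theorem degreeOf_PsiO_le (hq : q ^ 2 + q + 1 = 0) (n : ℕ) (p : ℕ → ℕ) (k : ℕ) :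
    (PsiO q n p).degreeOf k ≤ 2 * n := by
  by_cases hk : k < 2 * n + 1
  · rw [degreeOf_eq_sup]
    refine Finset.sup_le fun d hd => ?_
    have h := (dw_PsiO hq n p).maj d hd {k} (by simpa using hk)
    simpa using h
  · rw [(dw_PsiO hq n p).out k (by omega)]
    exact Nat.zero_le _

namespace PsiOA

/-- Coefficients of the push-forward. -/
theorem mapDomain_PsiOV {α : Type} (q : ℂ) (n : ℕ) (z : ℕ → ℂ) (f : (ℕ → ℕ) → α) :
    (PsiOV q n z).mapDomain f =
      ∑ p ∈ nco (2 * n + 1), Finsupp.single (f p) (eval z (PsiO q n p)) := by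
  unfold PsiOV
  rw [Finsupp.mapDomain_finsetSum]
  exact Finset.sum_congr rfl fun π _ => Finsupp.mapDomain_single

open Classical in
theorem mapDomain_PsiOV_apply {α : Type} (q : ℂ) (n : ℕ) (z : ℕ → ℂ) (f : (ℕ → ℕ) → α) (s : α) :
    (PsiOV q n z).mapDomain f s =
      ∑ p ∈ nco (2 * n + 1), (if f p = s then eval z (PsiO q n p) else 0) := by
  rw [mapDomain_PsiOV, Finsupp.finsetSum_apply]
  refine Finset.sum_congr rfl fun p _ => ?_
  rw [Finsupp.single_apply]

open Classical in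
/-- A push-forward, evaluated by a polynomial of the space with prescribed values. -/
theorem eval_eq_mapDomain {α : Type} (hq : q ^ 2 + q + 1 = 0) {Q : MvPolynomial ℕ ℂ}
    (hQ : DW q (2 * n + 1) Q) (f : (ℕ → ℕ) → α) (s : α) (c : ℂ)
    (h : ∀ p, NCO (2 * n + 1) p → eval (zptO q p) Q = if f p = s then c else 0) (z : ℕ → ℂ) :
    eval z Q = c * (PsiOV q n z).mapDomain f s := by
  conv_lhs => rw [hQ.eq_sum_PsiO hq]
  rw [map_sum, mapDomain_PsiOV_apply, Finset.mul_sum]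
  refine Finset.sum_congr rfl fun p hp => ?_
  rw [map_mul, eval_C, h p (mem_nco.mp hp)]
  split_ifs <;> simp

theorem mapDomain_apply_zero {α : Type} (z : ℕ → ℂ) (f : (ℕ → ℕ) → α) (s : α)
    (h : ∀ p, NCO (2 * n + 1) p → f p ≠ s) : (PsiOV q n z).mapDomain f s = 0 := by
  classical
  rw [mapDomain_PsiOV_apply]
  refine Finset.sum_eq_zero fun p hp => ?_
  rw [if_neg (h p (mem_nco.mp hp))]

/-- Push-forwards along two maps which agree on the odd states. -/
theorem mapDomain_congr_nco {α : Type} (z : ℕ → ℂ) {f g : (ℕ → ℕ) → α}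
    (h : ∀ p, NCO (2 * n + 1) p → f p = g p) :
    (PsiOV q n z).mapDomain f = (PsiOV q n z).mapDomain g := by
  rw [mapDomain_PsiOV, mapDomain_PsiOV]
  exact Finset.sum_congr rfl fun p hp => by rw [h p (mem_nco.mp hp)]

end PsiOA

open PsiOA

/-- Exchange relation. -/
theorem exchangeO (hq : q ^ 2 + q + 1 = 0) {i : ℕ} (hi : i + 1 < 2 * n + 1) (z : ℕ → ℂ) :
    (q * z (i + 1) - q ^ 2 * z i) • PsiOV q n (swapV i z) =
      (q * z i - q ^ 2 * z (i + 1)) • PsiOV q n z +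
        (z i - z (i + 1)) • (PsiOV q n z).mapDomain (eO i) := by
  classical
  ext s
  rw [Finsupp.add_apply, Finsupp.smul_apply, Finsupp.smul_apply, Finsupp.smul_apply,
    smul_eq_mul, smul_eq_mul, smul_eq_mul]
  by_cases hs : NCO (2 * n + 1) s
  · rw [PsiOV_apply _ hs, PsiOV_apply _ hs]
    obtain ⟨Q, hQ, h1⟩ := (dw_PsiO hq n s).exists_E hq hi
    have h3 : eval z Q = 1 * (PsiOV q n z).mapDomain (eO i) s :=
      eval_eq_mapDomain hq hQ (eO i) s 1 (fun p hp => by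
        rw [(dw_PsiO hq n s).eval_EO hq hQ hi h1 hp, eval_zptO_PsiO hq hs (hp.eO hi)]) z
    rw [one_mul] at h3
    rw [← h3]
    have h4 := h1 z
    linear_combination -h4
  · rw [PsiOV_apply_of_not _ hs, PsiOV_apply_of_not _ hs, mapDomain_apply_zero z (eO i) s]
    · ring
    · rintro p hp rfl
      exact hs (hp.eO hi)

end Pool.Agent.Perc
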