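import Pool.Agent.Lib.MP_6bd702_perc3.PsiOA
import Pool.Agent.Lib.MP_6bd702_perq.PsiMA

/-!
# The solution for odd circumference: rotation, insertion, seam (task PsiOB)

Model: perq/PsiSB.lean, `PsiSV_seam` of perq/PsiMA.lean. (`put2` is defined in perq/PsiMA.lean.)
-/

set_option autoImplicit false

namespace Pool.Agent.Perc

open Finset MvPolynomial

variable {q : ℂ} {n : ℕ}

open PsiOA in
theorem PsiOV_rot (hq : q ^ 2 + q + 1 = 0) (n : ℕ) (z : ℕ → ℂ) :
    PsiOV q n (rotV (2 * n + 1) z) = (PsiOV q n z).mapDomain (rotP (2 * n + 1)) := by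
  classical
  ext s
  by_cases hs : NCO (2 * n + 1) s
  · rw [PsiOV_apply _ hs]
    obtain ⟨Q, hQ, h1⟩ := (dw_PsiO hq n s).exists_rot hq
    rw [← h1 z, eval_eq_mapDomain hq hQ (rotP (2 * n + 1)) s 1 (fun p hp => ?_) z, one_mul]
    rw [h1, ← zptO_rotP q hp, eval_zptO_PsiO hq hs hp.rotP]
  · rw [PsiOV_apply_of_not _ hs, mapDomain_apply_zero]
    rintro p hp rfl
    exact hs hp.rotP

open PsiOA in
theorem PsiOV_insV (hq : q ^ 2 + q + 1 = 0) (n : ℕ) {i : ℕ} (hi : i ≤ 2 * n + 1) (v : ℂ)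
    (z : ℕ → ℂ) : PsiOV q (n + 1) (insV i (q ^ 2 * v) v z) =
      (v * (∏ k ∈ range (2 * n + 1), (z k - q * v) ^ 2) / (-3 * (9 * q) ^ n)) •
        (PsiOV q n z).mapDomain (insArc i) := by
  classical
  have hq0 := PsiSB.q_ne_zero hq
  have h3 : (-3 * (9 * q) ^ n : ℂ) ≠ 0 :=
    mul_ne_zero (by norm_num) (pow_ne_zero _ (mul_ne_zero (by norm_num) hq0))
  ext s
  rw [Finsupp.smul_apply, smul_eq_mul]
  by_cases hs : NCO (2 * (n + 1) + 1) s
  · rw [PsiOV_apply _ hs]
    obtain ⟨R, hR, h1⟩ := DW.restrict (m := 2 * n + 1) hq (dw_PsiO hq (n + 1) s) (i := i) hi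
    rw [h1 v z, eval_eq_mapDomain hq hR (insArc i) s (1 / (-3 * (9 * q) ^ n)) (fun p hp => ?_) z]
    · ring
    · have h4 := h1 1 (zptO q p)
      rw [mul_one, mul_one, one_mul, ← zptO_insArc q hp hi, prod_zptO hq hp] at h4
      rw [eval_zptO_PsiO hq hs (hp.insArc hi)] at h4
      rw [eq_comm, mul_comm] at h4
      rw [eq_div_of_mul_eq h3 h4]
      split_ifs <;> simp
  · rw [PsiOV_apply_of_not _ hs, mapDomain_apply_zero, mul_zero]
    rintro p hp rfl
    exact hs (hp.insArc hi)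

/-- Recursion at the seam. -/
theorem PsiOV_seam (hq : q ^ 2 + q + 1 = 0) (n : ℕ) (v : ℂ) (z : ℕ → ℂ) :
    PsiOV q (n + 1) (put2 (2 * n + 2) v (q ^ 2 * v) z) =
      (v * (∏ k ∈ range (2 * n + 1), (z k - q * v) ^ 2) / (-3 * (9 * q) ^ n)) •
        (PsiOV q n z).mapDomain (cupO (2 * n + 1)) := by
  have hN : 2 * (n + 1) + 1 = 2 * n + 1 + 2 := by ring
  have h1 : ∀ k < 2 * (n + 1) + 1, put2 (2 * n + 2) v (q ^ 2 * v) z k =
      rotV (2 * (n + 1) + 1) (insV 0 (q ^ 2 * v) v z) k := by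
    intro k hk
    unfold put2 rotV insV
    by_cases c1 : k = 0
    · subst c1
      rw [if_pos rfl, if_pos (by omega), if_neg (by omega), if_neg (by omega), if_pos (by omega)]
    · by_cases c2 : k < 2 * n + 2
      · rw [if_neg c1, if_pos c2, if_pos (by omega), if_neg (by omega), if_neg (by omega),
          if_neg (by omega)]
        congr 1
      · rw [if_neg c1, if_neg c2, if_pos (by omega), if_neg (by omega), if_pos (by omega),
          if_neg (by omega), if_pos rfl]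
  rw [PsiOV_congr hq h1, PsiOV_rot hq, PsiOV_insV hq n (Nat.zero_le _), Finsupp.mapDomain_smul,
    ← Finsupp.mapDomain_comp]
  congr 1
  refine PsiOA.mapDomain_congr_nco z fun p hp => ?_
  change rotP (2 * (n + 1) + 1) (insArc 0 p) = cupO (2 * n + 1) p
  rw [hN, rotO_insArc_zero hp]

/-- The component of the nested state. -/
theorem eval_PsiO_nestO (hq : q ^ 2 + q + 1 = 0) (n : ℕ) (z : ℕ → ℂ) :
    eval z (PsiO q n (nestO n)) =
      (∏ j ∈ range (2 * n + 1), ∏ i ∈ range j, (z i - q ^ 2 * z j)) /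
        eval (zptO q (nestO n)) (minPoly q (2 * n + 1)) := by
  have hc := eval_minPoly_nestO hq n
  have h1 := (dw_minPoly hq (2 * n + 1)).eq_sum_PsiO hq
  rw [Finset.sum_eq_single (nestO n)] at h1
  · have h2 := congrArg (eval z) h1
    rw [PsiSB.eval_minPoly, map_mul, eval_C] at h2
    rw [h2, mul_div_cancel_left₀ _ hc]
  · intro s hs hne
    rw [eval_minPoly_of_neO hq (mem_nco.mp hs) hne, C_0, zero_mul]
  · intro h
    exact absurd (mem_nco.mpr (nco_nestO n)) h

theorem PsiOV_zero (hq : q ^ 2 + q + 1 = 0) (z : ℕ → ℂ) :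
    PsiOV q 0 z = Finsupp.single (nestO 0) 1 := by
  have h1 : nco (2 * 0 + 1) = {nestO 0} := by
    ext s
    rw [mem_nco, Finset.mem_singleton]
    exact ⟨fun h => nco_one h, fun h => h ▸ nco_nestO 0⟩
  unfold PsiOV
  rw [h1, Finset.sum_singleton, eval_PsiO_nestO hq, PsiSB.eval_minPoly]
  simp

namespace PsiOB

theorem prod_rotV (m : ℕ) (z : ℕ → ℂ) (g : ℂ → ℂ) :
    ∏ k ∈ range (2 * m), g (rotV (2 * m) z k) = ∏ k ∈ range (2 * m), g (z k) := by
  rcases Nat.eq_zero_or_pos (2 * m) with h | h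
  · rw [h]; simp
  · obtain ⟨N, hN⟩ : ∃ N, 2 * m = N + 1 := ⟨2 * m - 1, by omega⟩
    rw [hN, Finset.prod_range_succ, Finset.prod_range_succ' (fun k => g (z k))]
    congr 1
    · refine Finset.prod_congr rfl fun k hk => ?_
      have hk := mem_range.mp hk
      unfold rotV
      rw [if_pos (by omega)]
    · unfold rotV
      rw [if_neg (by omega), if_pos (by omega)]

theorem cont_rotV (N k : ℕ) : Continuous fun z : ℕ → ℂ => rotV N z k := by
  unfold rotV
  split_ifs
  · exact continuous_apply _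
  · exact continuous_apply _
  · exact continuous_apply _

end PsiOB

/-- The reciprocal even solution and the rotation. -/
theorem PsiMV_rot (hq : q ^ 2 + q + 1 = 0) (m : ℕ) (z : ℕ → ℂ) :
    PsiMV q m (rotV (2 * m) z) = (PsiMV q m z).mapDomain (rotL (2 * m)) := by
  ext s
  refine PsiMA.ext_ne (F := fun z => PsiMV q m (rotV (2 * m) z) s)
    (G := fun z => ((PsiMV q m z).mapDomain (rotL (2 * m))) s) ?_ ?_ ?_ z
  · exact PsiMA.cont_PsiMV (PsiOB.cont_rotV (2 * m)) s
  · exact PsiMA.cont_mapDomain (fun k => continuous_apply k) _ s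
  · intro z hz
    have hz' : ∀ k < 2 * m, rotV (2 * m) z k ≠ 0 := by
      intro k _
      unfold rotV
      split_ifs
      · exact hz _
      · exact hz _
      · exact hz _
    have hinv : (fun k => (rotV (2 * m) z k)⁻¹) = rotV (2 * m) fun k => (z k)⁻¹ := by
      funext k
      unfold rotV
      split_ifs <;> rfl
    show PsiMV q m (rotV (2 * m) z) s = (PsiMV q m z).mapDomain (rotL (2 * m)) s
    rw [PsiMV_eq hq m hz', PsiMV_eq hq m (fun k _ => hz k), hinv, PsiSV_rot hq,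
      Finsupp.mapDomain_smul, PsiOB.prod_rotV m z (fun x => x ^ (2 * m - 1))]

end Pool.Agent.Perc
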