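import Pool.Agent.Lib.MP_6bd702_perc3.DWo3

/-!
# The polynomial solution for odd circumference: definitions
-/

set_option autoImplicit false

namespace Pool.Agent.Perc

open Finset MvPolynomial

open Classical in
/-- The component of the solution at the odd state `p` of `2 n + 1` sites (zero if `p` is not a
state). -/
noncomputable def PsiO (q : ℂ) (n : ℕ) (p : ℕ → ℕ) : MvPolynomial ℕ ℂ :=
  if h : q ^ 2 + q + 1 = 0 ∧ NCO (2 * n + 1) p then (exists_dualO h.1 h.2).choose else 0

/-- The finite set of odd states. -/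
noncomputable def nco (N : ℕ) : Finset (ℕ → ℕ) := (finite_nco N).toFinset

theorem mem_nco {N : ℕ} {p : ℕ → ℕ} : p ∈ nco N ↔ NCO N p := by
  rw [nco, Set.Finite.mem_toFinset]; rfl

/-- The vector `Ψ(z)` of odd size. -/
noncomputable def PsiOV (q : ℂ) (n : ℕ) (z : ℕ → ℂ) : (ℕ → ℕ) →₀ ℂ :=
  ∑ p ∈ nco (2 * n + 1), Finsupp.single p (eval z (PsiO q n p))

/-- Vectors supported on the odd states. -/
def SuppO (N : ℕ) (f : (ℕ → ℕ) →₀ ℂ) : Prop := ∀ p, f p ≠ 0 → NCO N p

end Pool.Agent.Perc
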