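import Mathlib

/-!
# Directed strands in a complex of quadrangles

`V` vertices, `Φ` faces, `c f k` the corners of the face `f` in counterclockwise order. A directed
unit edge is a pair `(p, q)`: the strand crosses the unit edge with `p` on its left and `q` on its
right. The only condition is that a directed unit edge has at most one face ahead. The bond of the face
`f` joins the corners `k` and `k + 2` with `ω f = ev k`.
-/

set_option autoImplicit false

namespace Pool.Agent.Perc.Q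

open Relation

/-- A complex of quadrangles: the corners of the faces. -/
structure QC (V Φ : Type) where
  c : Φ → ZMod 4 → V
  inj : ∀ {f k f' k'}, c f k = c f' k' → c f (k + 1) = c f' (k' + 1) → f = f' ∧ k = k'

/-- The corners `0` and `2`. -/
def ev (k : ZMod 4) : Bool := decide (k = 0 ∨ k = 2)

theorem ev_add_two (k : ZMod 4) : ev (k + 2) = ev k := by revert k; decide

theorem ev_add_one (k : ZMod 4) : ev (k + 1) = !ev k := by revert k; decide

theorem ev_add_three (k : ZMod 4) : ev (k + 3) = !ev k := by revert k; decide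

theorem z1 (k : ZMod 4) : k + 1 + 1 = k + 2 := by revert k; decide
theorem z2 (k : ZMod 4) : k + 1 + 2 = k + 3 := by revert k; decide
theorem z3 (k : ZMod 4) : k + 1 + 3 = k := by revert k; decide
theorem z4 (k : ZMod 4) : k + 2 + 2 = k := by revert k; decide
theorem z5 (k : ZMod 4) : k + 3 + 1 = k := by revert k; decide
theorem z6 (k : ZMod 4) : k + 3 + 2 = k + 1 := by revert k; decide
theorem z4_cases (k0 k : ZMod 4) : k0 = k ∨ k0 = k + 1 ∨ k0 = k + 2 ∨ k0 = k + 3 := by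
  revert k0 k; decide
theorem z7 (k : ZMod 4) : k + 2 + 1 = k + 3 := by revert k; decide

theorem rtg_mono {α : Type} {r r' : α → α → Prop} (h : ∀ a b, r a b → r' a b) {a b : α}
    (hab : ReflTransGen r a b) : ReflTransGen r' a b := by
  induction hab with
  | refl => exact ReflTransGen.refl
  | tail _ hb ih => exact ih.tail (h _ _ hb)

theorem rtg_symm {α : Type} {r : α → α → Prop} (h : ∀ a b, r a b → r b a) {a b : α}
    (hab : ReflTransGen r a b) : ReflTransGen r b a := by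
  induction hab with
  | refl => exact ReflTransGen.refl
  | tail _ hb ih => exact ReflTransGen.head (h _ _ hb) ih

variable {V Φ ι S : Type} {Q : QC V Φ} {ω ω' ξ ζ : Φ → Bool} {F F' G : Set Φ} {e a b : V × V}
  {f g : Φ} {k : ZMod 4} {u v w p q : V}

/-- The bonds in the faces of `F`. -/
def BondQ (Q : QC V Φ) (ω : Φ → Bool) (F : Set Φ) (u v : V) : Prop :=
  ∃ f ∈ F, ∃ k, ω f = ev k ∧ u = Q.c f k ∧ v = Q.c f (k + 2)

/-- Connection by bonds in the faces of `F`. -/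
def ConnQ (Q : QC V Φ) (ω : Φ → Bool) (F : Set Φ) : V → V → Prop := ReflTransGen (BondQ Q ω F)

theorem BondQ.symm (h : BondQ Q ω F u v) : BondQ Q ω F v u := by
  obtain ⟨f, hf, k, h, rfl, rfl⟩ := h
  exact ⟨f, hf, k + 2, by rw [ev_add_two, h], rfl, by rw [z4]⟩

theorem ConnQ.symm (h : ConnQ Q ω F u v) : ConnQ Q ω F v u :=
  rtg_symm (fun _ _ h => BondQ.symm h) h

theorem BondQ.mono (hF : F ⊆ F') (h : BondQ Q ω F u v) : BondQ Q ω F' u v := by
  obtain ⟨f, hf, h⟩ := h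
  exact ⟨f, hF hf, h⟩

theorem ConnQ.mono (hF : F ⊆ F') (h : ConnQ Q ω F u v) : ConnQ Q ω F' u v :=
  rtg_mono (fun _ _ h => BondQ.mono hF h) h

theorem BondQ.congr (h : ∀ f ∈ F, ω f = ω' f) (hb : BondQ Q ω F u v) : BondQ Q ω' F u v := by
  obtain ⟨f, hf, k, h1, h2, h3⟩ := hb
  exact ⟨f, hf, k, by rw [← h f hf, h1], h2, h3⟩

theorem ConnQ.congr (h : ∀ f ∈ F, ω f = ω' f) (hb : ConnQ Q ω F u v) : ConnQ Q ω' F u v :=
  rtg_mono (fun _ _ hb => BondQ.congr h hb) hb

/-- One step of a strand: from the side through which it enters the face `f` of `F` to the side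
through which it leaves it. -/
def Nx (Q : QC V Φ) (ω : Φ → Bool) (F : Set Φ) (a b : V × V) : Prop :=
  ∃ f ∈ F, ∃ k, a = (Q.c f k, Q.c f (k + 1)) ∧
    ((ω f = ev k ∧ b = (Q.c f (k + 2), Q.c f (k + 1))) ∨
      (ω f = !ev k ∧ b = (Q.c f k, Q.c f (k + 3))))

/-- The strand which starts with the directed unit edge `e`. -/
def Orb (Q : QC V Φ) (ω : Φ → Bool) (F : Set Φ) (e : V × V) : Set (V × V) :=
  {a | ReflTransGen (Nx Q ω F) e a}

/-- The faces which are visited by the strand. -/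
def Vis (Q : QC V Φ) (ω : Φ → Bool) (F : Set Φ) (e : V × V) : Set Φ :=
  {f | f ∈ F ∧ ∃ k, (Q.c f k, Q.c f (k + 1)) ∈ Orb Q ω F e}

/-- The unit edges of the strand, in both directions. -/
def Un (Q : QC V Φ) (ω : Φ → Bool) (F : Set Φ) (e : V × V) : Set (V × V) :=
  {a | a ∈ Orb Q ω F e ∨ a.swap ∈ Orb Q ω F e}

/-- No face of `F` is behind `e`. -/
def Ini (Q : QC V Φ) (F : Set Φ) (e : V × V) : Prop := ∀ f ∈ F, ∀ k, e ≠ (Q.c f (k + 1), Q.c f k)

/-- No face of `F` is ahead of `a`. -/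
def Ter (Q : QC V Φ) (F : Set Φ) (a : V × V) : Prop := ∀ f ∈ F, ∀ k, a ≠ (Q.c f k, Q.c f (k + 1))

theorem Nx.rev (h : Nx Q ω F a b) : Nx Q ω F b.swap a.swap := by
  obtain ⟨f, hf, k, rfl, ⟨h, rfl⟩ | ⟨h, rfl⟩⟩ := h
  · refine ⟨f, hf, k + 1, by rw [z1]; rfl, Or.inr ⟨by rw [ev_add_one, Bool.not_not, h], ?_⟩⟩
    rw [z3]; rfl
  · refine ⟨f, hf, k + 3, by rw [z5]; rfl, Or.inl ⟨by rw [ev_add_three, h], ?_⟩⟩
    rw [z5, z6]; rfl

theorem Nx.unique (h : Nx Q ω F a b) {b' : V × V} (h' : Nx Q ω F a b') : b = b' := by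
  obtain ⟨f, hf, k, rfl, h⟩ := h
  obtain ⟨f', hf', k', ha, h'⟩ := h'
  obtain ⟨rfl, rfl⟩ := Q.inj (Prod.mk.inj ha).1 (Prod.mk.inj ha).2
  rcases h with ⟨h, rfl⟩ | ⟨h, rfl⟩ <;> rcases h' with ⟨h', rfl⟩ | ⟨h', rfl⟩
  · rfl
  · rw [h] at h'; cases hk : ev k <;> rw [hk] at h' <;> cases h'
  · rw [h] at h'; cases hk : ev k <;> rw [hk] at h' <;> cases h'
  · rfl

theorem Nx.inj (h : Nx Q ω F a b) {a' : V × V} (h' : Nx Q ω F a' b) : a = a' :=
  Prod.swap_injective (h.rev.unique h'.rev)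

theorem mem_Orb_self : e ∈ Orb Q ω F e := ReflTransGen.refl

theorem Orb_step (ha : a ∈ Orb Q ω F e) (h : Nx Q ω F a b) : b ∈ Orb Q ω F e :=
  ReflTransGen.tail ha h

theorem Orb_mono (hF : F ⊆ F') : Orb Q ω F e ⊆ Orb Q ω F' e := by
  intro a ha
  refine rtg_mono ?_ ha
  rintro x y ⟨f, hf, h⟩
  exact ⟨f, hF hf, h⟩

theorem Vis_sub : Vis Q ω F e ⊆ F := fun _ h => h.1

theorem Vis_mono (hF : F ⊆ F') : Vis Q ω F e ⊆ Vis Q ω F' e :=
  fun _ h => ⟨hF h.1, h.2.imp fun _ h => Orb_mono hF h⟩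

/-- An element of the strand other than the first has a predecessor. -/
theorem Orb_pred (ha : a ∈ Orb Q ω F e) : a = e ∨ ∃ b ∈ Orb Q ω F e, Nx Q ω F b a := by
  rcases ReflTransGen.cases_tail ha with h | ⟨b, h1, h2⟩
  · exact Or.inl h
  · exact Or.inr ⟨b, h1, h2⟩

/-- The successor of a side of `f` which is entered. -/
theorem Nx.mk_left (hf : f ∈ F) (h : ω f = ev k) :
    Nx Q ω F (Q.c f k, Q.c f (k + 1)) (Q.c f (k + 2), Q.c f (k + 1)) :=
  ⟨f, hf, k, rfl, Or.inl ⟨h, rfl⟩⟩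

theorem Nx.mk_right (hf : f ∈ F) (h : ω f = !ev k) :
    Nx Q ω F (Q.c f k, Q.c f (k + 1)) (Q.c f k, Q.c f (k + 3)) :=
  ⟨f, hf, k, rfl, Or.inr ⟨h, rfl⟩⟩

/-- A side through which the strand leaves the face `f`: the strand has visited `f`. -/
theorem entered_of_left (he : Ini Q F e) (hf : f ∈ F)
    (h : (Q.c f (k + 1), Q.c f k) ∈ Orb Q ω F e) :
    ∃ b ∈ Orb Q ω F e, Nx Q ω F (Q.c f k, Q.c f (k + 1)) b.swap ∧
      ∃ k', b = (Q.c f k', Q.c f (k' + 1)) := by
  rcases Orb_pred h with h1 | ⟨b, hb, h1⟩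
  · exact absurd h1.symm (he f hf k)
  · refine ⟨b, hb, h1.rev, ?_⟩
    obtain ⟨f', hf', k', hb', h2⟩ := h1
    have h3 : f' = f := by
      rcases h2 with ⟨_, h2⟩ | ⟨_, h2⟩
      · have h4 := Prod.mk.inj h2
        exact ((Q.inj (f := f) (k := k) (f' := f') (k' := k' + 1) h4.2
          (by rw [z1]; exact h4.1)).1).symm
      · have h4 := Prod.mk.inj h2
        exact ((Q.inj (f := f) (k := k) (f' := f') (k' := k' + 3) h4.2
          (by rw [z5]; exact h4.1)).1).symm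
    exact ⟨k', by rw [hb', h3]⟩

/-- A face with a side in the strand is visited. -/
theorem vis_of_un (he : Ini Q F e) (hf : f ∈ F) (h : (Q.c f k, Q.c f (k + 1)) ∈ Un Q ω F e) :
    f ∈ Vis Q ω F e := by
  rcases h with h | h
  · exact ⟨hf, k, h⟩
  · obtain ⟨b, hb, -, k', rfl⟩ := entered_of_left he hf h
    exact ⟨hf, k', hb⟩

theorem Un_swap : a.swap ∈ Un Q ω F e ↔ a ∈ Un Q ω F e := by
  unfold Un
  simp only [Set.mem_ofPred_eq, Prod.swap_swap]
  tauto

/-- The two sides at the corner `k + 1` of a face whose bond joins `k` and `k + 2`. -/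
theorem un_iff (he : Ini Q F e) (hf : f ∈ F) (h : ω f = ev k) :
    (Q.c f k, Q.c f (k + 1)) ∈ Un Q ω F e ↔ (Q.c f (k + 1), Q.c f (k + 2)) ∈ Un Q ω F e := by
  have h1 : Nx Q ω F (Q.c f k, Q.c f (k + 1)) (Q.c f (k + 2), Q.c f (k + 1)) := Nx.mk_left hf h
  have h2 : Nx Q ω F (Q.c f (k + 1), Q.c f (k + 2)) (Q.c f (k + 1), Q.c f k) := h1.rev
  constructor
  · rintro (h3 | h3)
    · exact Or.inr (Orb_step h3 h1)
    · obtain ⟨b, hb, h4, -⟩ := entered_of_left he hf h3
      have h5 := h4.unique h1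
      refine Or.inl ?_
      have : b = (Q.c f (k + 1), Q.c f (k + 2)) := by rw [← Prod.swap_swap b, h5]; rfl
      rwa [← this]
  · rintro (h3 | h3)
    · exact Or.inr (Orb_step h3 h2)
    · have h3' : (Q.c f (k + 1 + 1), Q.c f (k + 1)) ∈ Orb Q ω F e := by rw [z1]; exact h3
      obtain ⟨b, hb, h4, -⟩ := entered_of_left he hf h3'
      rw [z1] at h4
      have h5 := h4.unique h2
      refine Or.inl ?_
      have : b = (Q.c f k, Q.c f (k + 1)) := by rw [← Prod.swap_swap b, h5]; rfl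
      rwa [← this]

/-- The marks: the left ends of the strand are joined to the first left end, the right ends to the
first right end, inside the visited faces. -/
theorem marks (ha : a ∈ Orb Q ω F e) :
    ConnQ Q ω (Vis Q ω F e) e.1 a.1 ∧ ConnQ Q ω (Vis Q ω F e) e.2 a.2 := by
  induction ha with
  | refl => exact ⟨ReflTransGen.refl, ReflTransGen.refl⟩
  | tail hab hs ih =>
    rename_i b b'
    obtain ⟨f, hf, k, rfl, ⟨h, rfl⟩ | ⟨h, rfl⟩⟩ := hs
    · exact ⟨ih.1.tail ⟨f, ⟨hf, k, hab⟩, k, h, rfl, rfl⟩, ih.2⟩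
    · refine ⟨ih.1, ih.2.tail ⟨f, ⟨hf, k, hab⟩, k + 1, by rw [ev_add_one, h], rfl, ?_⟩⟩
      change Q.c f (k + 3) = Q.c f (k + 1 + 2)
      rw [z2]

/-- The strand is determined by the configuration in the visited faces. -/
theorem Orb_congr (h : ∀ f ∈ Vis Q ω F e, ω f = ω' f) : Orb Q ω' F e = Orb Q ω F e := by
  apply Set.Subset.antisymm
  · intro a ha
    induction ha with
    | refl => exact mem_Orb_self
    | tail _ hs ih =>
      obtain ⟨f, hf, k, rfl, hs⟩ := hs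
      refine Orb_step ih ⟨f, hf, k, rfl, ?_⟩
      rw [h f ⟨hf, k, ih⟩]; exact hs
  · intro a ha
    induction ha with
    | refl => exact mem_Orb_self
    | tail hab hs ih =>
      obtain ⟨f, hf, k, rfl, hs⟩ := hs
      refine Orb_step ih ⟨f, hf, k, rfl, ?_⟩
      rw [← h f ⟨hf, k, hab⟩]; exact hs

theorem Vis_congr (h : ∀ f ∈ Vis Q ω F e, ω f = ω' f) : Vis Q ω' F e = Vis Q ω F e := by
  unfold Vis
  rw [Orb_congr h]

/-- The strand has at most one last element. -/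
theorem ter_unique (ha : a ∈ Orb Q ω F e) (hb : b ∈ Orb Q ω F e) (ha' : Ter Q F a)
    (hb' : Ter Q F b) : a = b := by
  have key : ∀ {a b : V × V}, ReflTransGen (Nx Q ω F) a b → Ter Q F a → a = b := by
    intro a b h ha
    rcases ReflTransGen.cases_head h with h | ⟨c, ⟨f, hf, k, h, -⟩, -⟩
    · exact h
    · exact absurd h (ha f hf k)
  have hu : Relator.RightUnique (Nx Q ω F) := fun _ _ _ h h' => Nx.unique h h'
  rcases ReflTransGen.total_of_right_unique hu ha hb with h | h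
  · exact key h ha'
  · exact (key h hb').symm

/-- The strand of an initial element ends, if `F` is finite. -/
theorem exists_ter (hF : F.Finite) (he : Ini Q F e) : ∃ a ∈ Orb Q ω F e, Ter Q F a := by
  by_contra hcon
  push Not at hcon
  have hs : ∀ a : Orb Q ω F e, ∃ b : Orb Q ω F e, Nx Q ω F a b := by
    rintro ⟨a, ha⟩
    have h1 := hcon a ha
    unfold Ter at h1
    push Not at h1
    obtain ⟨f, hf, k, rfl⟩ := h1
    rcases Bool.eq_or_eq_not (ω f) (ev k) with h | h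
    · exact ⟨⟨_, Orb_step ha (Nx.mk_left hf h)⟩, Nx.mk_left hf h⟩
    · exact ⟨⟨_, Orb_step ha (Nx.mk_right hf h)⟩, Nx.mk_right hf h⟩
  choose n hn using hs
  have hfin : Finite (Orb Q ω F e) := by
    have h1 : Orb Q ω F e ⊆ (fun x : Φ × ZMod 4 => (Q.c x.1 x.2, Q.c x.1 (x.2 + 1))) ''
        (F ×ˢ (Set.univ : Set (ZMod 4))) := by
      intro a ha
      have h1 := hcon a ha
      unfold Ter at h1
      push Not at h1
      obtain ⟨f, hf, k, h⟩ := h1
      exact ⟨(f, k), ⟨hf, Set.mem_univ _⟩, h.symm⟩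
    exact ((hF.prod Set.finite_univ).image _).subset h1
  have hinj : Function.Injective n := by
    intro a a' h
    have h1 := hn a
    rw [h] at h1
    exact Subtype.ext (h1.inj (hn a'))
  have hsurj := Finite.surjective_of_injective hinj
  obtain ⟨a, ha⟩ := hsurj ⟨e, mem_Orb_self⟩
  have h1 := hn a
  rw [ha] at h1
  obtain ⟨f, hf, k, -, ⟨-, h⟩ | ⟨-, h⟩⟩ := h1
  · exact he f hf (k + 1) (by rw [z1]; exact h)
  · exact he f hf (k + 3) (by rw [z5]; exact h)

/-! ### Several strands -/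

/-- The unit edges of the strands `e i`. -/
def MU (Q : QC V Φ) (ω : Φ → Bool) (F : Set Φ) (e : ι → V × V) : Set (V × V) :=
  {a | ∃ i, a ∈ Un Q ω F (e i)}

/-- The faces which are visited by the strands `e i`. -/
def VU (Q : QC V Φ) (ω : Φ → Bool) (F : Set Φ) (e : ι → V × V) : Set Φ :=
  {f | ∃ i, f ∈ Vis Q ω F (e i)}

/-- The strands `e i` divide the faces of `F` in sectors: `sec` is constant across the other unit
edges and `kap` changes exactly across the other unit edges; `L i` and `R i` are the sectors on the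
left and on the right of the strand `i`. -/
structure IsSec (Q : QC V Φ) (ω : Φ → Bool) (F : Set Φ) (e : ι → V × V) (L R : ι → S)
    (sec : V → S) (kap : V → ZMod 2) : Prop where
  ini : ∀ i, Ini Q F (e i)
  sec_eq : ∀ f ∈ F, ∀ k, (Q.c f k, Q.c f (k + 1)) ∉ MU Q ω F e →
    sec (Q.c f k) = sec (Q.c f (k + 1))
  kap_ne : ∀ f ∈ F, ∀ k, (Q.c f k, Q.c f (k + 1)) ∉ MU Q ω F e →
    kap (Q.c f k) ≠ kap (Q.c f (k + 1))
  left : ∀ i, ∀ a ∈ Orb Q ω F (e i), sec a.1 = L i ∧ kap a.1 = 0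
  right : ∀ i, ∀ a ∈ Orb Q ω F (e i), sec a.2 = R i ∧ kap a.2 = 0

variable {ei : ι → V × V} {L R : ι → S} {sec : V → S} {kap : V → ZMod 2}

theorem MU_swap : a.swap ∈ MU Q ω F ei ↔ a ∈ MU Q ω F ei := by
  unfold MU
  simp only [Set.mem_ofPred_eq, Un_swap]

theorem VU_sub : VU Q ω F ei ⊆ F := fun _ ⟨_, h⟩ => Vis_sub h

theorem VU_congr (h : ∀ f ∈ VU Q ω F ei, ω f = ω' f) : VU Q ω' F ei = VU Q ω F ei := by
  ext f
  unfold VU
  simp only [Set.mem_ofPred_eq]
  refine exists_congr fun i => ?_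
  rw [Vis_congr fun f hf => h f ⟨i, hf⟩]

theorem MU_congr (h : ∀ f ∈ VU Q ω F ei, ω f = ω' f) : MU Q ω' F ei = MU Q ω F ei := by
  ext a
  unfold MU Un
  simp only [Set.mem_ofPred_eq]
  refine exists_congr fun i => ?_
  rw [Orb_congr fun f hf => h f ⟨i, hf⟩]

/-- The sides of a face which is not visited do not belong to the strands. -/
theorem notMem_MU (he : ∀ i, Ini Q F (ei i)) (hf : f ∈ F) (hS : f ∉ VU Q ω F ei) :
    (Q.c f k, Q.c f (k + 1)) ∉ MU Q ω F ei := by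
  rintro ⟨i, h⟩
  exact hS ⟨i, vis_of_un (he i) hf h⟩

namespace IsSec

variable (H : IsSec Q ω F ei L R sec kap)
include H

/-- The ends of a unit edge of the strands. -/
theorem kap_of_mem (ha : a ∈ MU Q ω F ei) : kap a.1 = 0 ∧ kap a.2 = 0 := by
  obtain ⟨i, ha | ha⟩ := ha
  · exact ⟨(H.left i a ha).2, (H.right i a ha).2⟩
  · exact ⟨(H.right i _ ha).2, (H.left i _ ha).2⟩

/-- Corners of a visited face: the end of a side of the strands. -/
theorem land_corner (hf : f ∈ VU Q ω F ei) (hk : kap (Q.c f k) = 0) :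
    ∃ i, (sec (Q.c f k) = L i ∧ ConnQ Q ω (VU Q ω F ei) (ei i).1 (Q.c f k)) ∨
      (sec (Q.c f k) = R i ∧ ConnQ Q ω (VU Q ω F ei) (ei i).2 (Q.c f k)) := by
  obtain ⟨j, hfF, k0, h0⟩ := hf
  have h0' : (Q.c f k0, Q.c f (k0 + 1)) ∈ MU Q ω F ei := ⟨j, Or.inl h0⟩
  have h1 : kap (Q.c f k0) = 0 ∧ kap (Q.c f (k0 + 1)) = 0 := H.kap_of_mem h0'
  -- one of the two sides at the corner `k` belongs to the strands
  have h2 : (Q.c f k, Q.c f (k + 1)) ∈ MU Q ω F ei ∨
      (Q.c f (k + 3), Q.c f k) ∈ MU Q ω F ei := by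
    by_contra hcon
    push Not at hcon
    have a1 := H.kap_ne f hfF k hcon.1
    have a2 := H.kap_ne f hfF (k + 3) (by rw [z5]; exact hcon.2)
    rw [z5] at a2
    rw [hk] at a1 a2
    have hc := z4_cases k0 k
    rcases hc with rfl | rfl | rfl | rfl
    · exact a1 h1.2.symm
    · exact a1 h1.1.symm
    · rw [z7] at h1
      exact a2 h1.2
    · exact a2 h1.1
  have hmono : ∀ i, Vis Q ω F (ei i) ⊆ VU Q ω F ei := fun i f hf => ⟨i, hf⟩
  rcases h2 with ⟨i, h | h⟩ | ⟨i, h | h⟩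
  · exact ⟨i, Or.inl ⟨(H.left i _ h).1, (marks h).1.mono (hmono i)⟩⟩
  · exact ⟨i, Or.inr ⟨(H.right i _ h).1, (marks h).2.mono (hmono i)⟩⟩
  · exact ⟨i, Or.inr ⟨(H.right i _ h).1, (marks h).2.mono (hmono i)⟩⟩
  · exact ⟨i, Or.inl ⟨(H.left i _ h).1, (marks h).1.mono (hmono i)⟩⟩

/-- The ends of the bond of a visited face. -/
theorem bond_vis (hf : f ∈ VU Q ω F ei) (hk : ω f = ev k) (h0 : kap (Q.c f k) = 0) :
    sec (Q.c f k) = sec (Q.c f (k + 2)) ∧ kap (Q.c f (k + 2)) = 0 := by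
  have hfF : f ∈ F := VU_sub hf
  have key : ∀ i, ((Q.c f k, Q.c f (k + 1)) ∈ Un Q ω F (ei i) ↔
      (Q.c f (k + 1), Q.c f (k + 2)) ∈ Un Q ω F (ei i)) := fun i => un_iff (H.ini i) hfF hk
  have hiff : (Q.c f k, Q.c f (k + 1)) ∈ MU Q ω F ei ↔
      (Q.c f (k + 1), Q.c f (k + 2)) ∈ MU Q ω F ei := exists_congr key
  by_cases hm : (Q.c f k, Q.c f (k + 1)) ∈ MU Q ω F ei
  · obtain ⟨i, h | h⟩ := hm
    · have h2 := Orb_step h (Nx.mk_left hfF hk)
      exact ⟨(H.left i _ h).1.trans (H.left i _ h2).1.symm, (H.left i _ h2).2⟩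
    · -- the strand leaves through the side `k`
      obtain ⟨b, hb, h4, -⟩ := entered_of_left (H.ini i) hfF h
      have h5 := h4.unique (Nx.mk_left hfF hk)
      have h6 : b = (Q.c f (k + 1), Q.c f (k + 2)) := by rw [← Prod.swap_swap b, h5]; rfl
      rw [h6] at hb
      exact ⟨(H.right i _ h).1.trans (H.right i _ hb).1.symm, (H.right i _ hb).2⟩
  · have hm2 := fun h => hm (hiff.2 h)
    have a1 := H.sec_eq f hfF k hm
    have a2 := H.sec_eq f hfF (k + 1) (by rw [z1]; exact hm2)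
    have b1 := H.kap_ne f hfF k hm
    have b2 := H.kap_ne f hfF (k + 1) (by rw [z1]; exact hm2)
    rw [z1] at a2 b2
    refine ⟨a1.trans a2, ?_⟩
    rw [h0] at b1
    generalize kap (Q.c f (k + 1)) = x at b1 b2
    generalize kap (Q.c f (k + 2)) = y at b2
    revert x y
    decide

/-- `sec` and `kap` are constant along all bonds in `F` (general). -/
theorem bond_eq (hfF : f ∈ F) (hk : ω f = ev k) :
    sec (Q.c f k) = sec (Q.c f (k + 2)) ∧ kap (Q.c f k) = kap (Q.c f (k + 2)) := by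
  have key : ∀ i, ((Q.c f k, Q.c f (k + 1)) ∈ Un Q ω F (ei i) ↔
      (Q.c f (k + 1), Q.c f (k + 2)) ∈ Un Q ω F (ei i)) := fun i => un_iff (H.ini i) hfF hk
  have hiff : (Q.c f k, Q.c f (k + 1)) ∈ MU Q ω F ei ↔
      (Q.c f (k + 1), Q.c f (k + 2)) ∈ MU Q ω F ei := exists_congr key
  by_cases hm : (Q.c f k, Q.c f (k + 1)) ∈ MU Q ω F ei
  · have h0 := (H.kap_of_mem hm).1
    obtain ⟨i, h⟩ := hm
    have hv : f ∈ VU Q ω F ei := ⟨i, vis_of_un (H.ini i) hfF h⟩
    have := H.bond_vis hv hk h0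
    exact ⟨this.1, by rw [this.2]; exact h0⟩
  · have hm2 := fun h => hm (hiff.2 h)
    have a1 := H.sec_eq f hfF k hm
    have a2 := H.sec_eq f hfF (k + 1) (by rw [z1]; exact hm2)
    have b1 := H.kap_ne f hfF k hm
    have b2 := H.kap_ne f hfF (k + 1) (by rw [z1]; exact hm2)
    rw [z1] at a2 b2
    refine ⟨a1.trans a2, ?_⟩
    generalize kap (Q.c f k) = z at b1 ⊢
    generalize kap (Q.c f (k + 1)) = x at b1 b2
    generalize kap (Q.c f (k + 2)) = y at b2 ⊢
    revert x y z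
    decide

theorem bondQ_eq (h : BondQ Q ω F u v) : sec u = sec v ∧ kap u = kap v := by
  obtain ⟨f, hf, k, hk, rfl, rfl⟩ := h
  exact H.bond_eq hf hk

theorem conn_eq (h : ConnQ Q ω F u v) : sec u = sec v ∧ kap u = kap v := by
  induction h with
  | refl => exact ⟨rfl, rfl⟩
  | tail _ hb ih =>
    have := H.bondQ_eq hb
    exact ⟨ih.1.trans this.1, ih.2.trans this.2⟩

/-- Opposite corners of a face which is not visited. -/
theorem fresh_opp (hfF : f ∈ F) (hS : f ∉ VU Q ω F ei) :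
    sec (Q.c f k) = sec (Q.c f (k + 2)) ∧ kap (Q.c f k) = kap (Q.c f (k + 2)) := by
  have hm := notMem_MU (k := k) H.ini hfF hS
  have hm2 := notMem_MU (k := k + 1) H.ini hfF hS
  have a1 := H.sec_eq f hfF k hm
  have a2 := H.sec_eq f hfF (k + 1) hm2
  have b1 := H.kap_ne f hfF k hm
  have b2 := H.kap_ne f hfF (k + 1) hm2
  rw [z1] at a2 b2
  refine ⟨a1.trans a2, ?_⟩
  generalize kap (Q.c f k) = z at b1 ⊢
  generalize kap (Q.c f (k + 1)) = x at b1 b2
  generalize kap (Q.c f (k + 2)) = y at b2 ⊢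
  revert x y z
  decide

end IsSec

/-! ### Landing and exits -/

/-- Landing: a path from outside `T` to `T`; `T` is preserved by the bonds of the faces of `G`
which are not in `S`, and the corners of the faces of `S` in `T` have the property `C`. -/
theorem land {S : Set Φ} {T : Set V} {C : V → Prop}
    (hfresh : ∀ g ∈ G, g ∉ S → ∀ k, (Q.c g k ∈ T ↔ Q.c g (k + 2) ∈ T))
    (hvis : ∀ g ∈ S, ∀ k, Q.c g k ∈ T → C (Q.c g k))
    (h0 : p ∉ T) (hn : q ∈ T) (hpath : ConnQ Q ξ G p q) :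
    ∃ w, C w ∧ w ∈ T ∧ ConnQ Q ξ (G \ S) w q := by
  have key : ∀ p, ConnQ Q ξ G p q → (p ∈ T ∧ ConnQ Q ξ (G \ S) p q) ∨
      ∃ w, C w ∧ w ∈ T ∧ ConnQ Q ξ (G \ S) w q := by
    intro p hp
    induction hp using ReflTransGen.head_induction_on with
    | refl => exact Or.inl ⟨hn, ReflTransGen.refl⟩
    | head hb hc ih =>
      rename_i p p'
      rcases ih with ⟨h1, h2⟩ | h
      · obtain ⟨g, hg, k, hk, rfl, rfl⟩ := hb
        by_cases hgS : g ∈ S
        · exact Or.inr ⟨_, hvis g hgS _ h1, h1, h2⟩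
        · exact Or.inl ⟨(hfresh g hg hgS k).2 h1,
            ReflTransGen.head ⟨g, ⟨hg, hgS⟩, k, hk, rfl, rfl⟩ h2⟩
      · exact Or.inr h
  rcases key p hpath with h | h
  · exact absurd h.1 h0
  · exact h

/-- Exit: a path from `T` to the outside of `T`; `P` holds along the path. The ends of the bonds of
the path in the faces of `S` are in `T`; `T` is preserved by the bonds of the faces of `F` which are
not in `S`; the corners in `T` of the faces of `G` which are not in `F` belong to `Y`. -/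
theorem near {S F : Set Φ} {T Y : Set V} {P : V → Prop}
    (hP : ∀ u v, BondQ Q ζ G u v → P u → P v)
    (hS : ∀ g ∈ S, ∀ k, ζ g = ev k → P (Q.c g k) → Q.c g k ∈ T)
    (hfresh : ∀ g ∈ F, g ∉ S → ∀ k, Q.c g k ∈ T → Q.c g (k + 2) ∈ T)
    (hY : ∀ g ∈ G, g ∉ F → ∀ k, Q.c g k ∈ T → Q.c g k ∈ Y)
    (h0 : p ∈ T) (hp : P p) (hn : q ∉ T) (hpath : ConnQ Q ζ G p q) :
    ∃ y ∈ Y, y ∈ T ∧ ConnQ Q ζ (G \ S) y q := by
  have key : ∀ p, ConnQ Q ζ G p q → P p → (p ∉ T ∧ ConnQ Q ζ (G \ S) p q) ∨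
      ∃ y ∈ Y, y ∈ T ∧ ConnQ Q ζ (G \ S) y q := by
    intro p hp
    induction hp using ReflTransGen.head_induction_on with
    | refl => exact fun _ => Or.inl ⟨hn, ReflTransGen.refl⟩
    | head hb hc ih =>
      rename_i p p'
      intro hPp
      have hPp' := hP _ _ hb hPp
      rcases ih hPp' with ⟨h1, h2⟩ | h
      · obtain ⟨g, hg, k, hk, rfl, rfl⟩ := hb
        have hgS : g ∉ S := fun h => h1 (hS g h (k + 2) (by rw [ev_add_two, hk]) hPp')
        have hconn : ConnQ Q ζ (G \ S) (Q.c g k) q :=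
          ReflTransGen.head ⟨g, ⟨hg, hgS⟩, k, hk, rfl, rfl⟩ h2
        by_cases hgF : g ∈ F
        · exact Or.inl ⟨fun h => h1 (hfresh g hgF hgS k h), hconn⟩
        · by_cases hT : Q.c g k ∈ T
          · exact Or.inr ⟨_, hY g hg hgF k hT, hT, hconn⟩
          · exact Or.inl ⟨hT, hconn⟩
      · exact Or.inr h
  rcases key p hpath hp with h | h
  · exact absurd h0 h.1
  · exact h

end Pool.Agent.Perc.Q
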