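import Pool.Agent.Lib.MP_6bd702_perc3.QCore

/-!
# Sectors from potentials

Three strands; `P i` is a potential of the strands `i` and `i + 1`, `K` a potential of the
complement of the three strands.
-/

set_option autoImplicit false

namespace Pool.Agent.Perc.Q

open Relation

variable {V Φ : Type} {Q : QC V Φ} {ω : Φ → Bool} {F : Set Φ} {e : Fin 3 → V × V} {f : Φ}
  {k : ZMod 4} {χ : V → ZMod 2} {m : V → V → ZMod 2} {i j : Fin 3}

open Classical in
/-- The indicator of a strand. -/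
noncomputable def indU (Q : QC V Φ) (ω : Φ → Bool) (F : Set Φ) (e : V × V) (p q : V) : ZMod 2 :=
  if (p, q) ∈ Un Q ω F e then 1 else 0

theorem indU_symm (Q : QC V Φ) (ω : Φ → Bool) (F : Set Φ) (e : V × V) (p q : V) :
    indU Q ω F e p q = indU Q ω F e q p := by
  classical
  unfold indU
  have h : (p, q) ∈ Un Q ω F e ↔ (q, p) ∈ Un Q ω F e := (Un_swap (a := (p, q))).symm
  by_cases hq : (q, p) ∈ Un Q ω F e
  · rw [if_pos hq, if_pos (h.2 hq)]
  · rw [if_neg hq, if_neg fun h' => hq (h.1 h')]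

theorem indU_eq {e : V × V} (he : Ini Q F e) (hf : f ∈ F) (h : ω f = ev k) :
    indU Q ω F e (Q.c f k) (Q.c f (k + 1)) = indU Q ω F e (Q.c f (k + 1)) (Q.c f (k + 2)) := by
  unfold indU
  have h1 := un_iff he hf h
  by_cases hq : (Q.c f (k + 1), Q.c f (k + 2)) ∈ Un Q ω F e
  · rw [if_pos hq, if_pos (h1.2 hq)]
  · rw [if_neg hq, if_neg fun h' => hq (h1.1 h')]

/-- The increments at the two sides at the corner `k + 1` are equal. -/
def Mat (Q : QC V Φ) (ω : Φ → Bool) (F : Set Φ) (m : V → V → ZMod 2) : Prop :=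
  ∀ f ∈ F, ∀ k, ω f = ev k → m (Q.c f k) (Q.c f (k + 1)) = m (Q.c f (k + 1)) (Q.c f (k + 2))

theorem sumQ4 (g : ZMod 4 → ZMod 2) : ∑ k, g k = g 0 + g 1 + g 2 + g 3 := Fin.sum_univ_four g

theorem Mat.even (h : Mat Q ω F m) (hf : f ∈ F) : ∑ k, m (Q.c f k) (Q.c f (k + 1)) = 0 := by
  rw [sumQ4]
  have a0 : (0 : ZMod 4) + 1 = 1 := by decide
  have a1 : (1 : ZMod 4) + 1 = 2 := by decide
  have a2 : (2 : ZMod 4) + 1 = 3 := by decide
  have a3 : (3 : ZMod 4) + 1 = 0 := by decide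
  have b0 : (0 : ZMod 4) + 2 = 2 := by decide
  have b1 : (1 : ZMod 4) + 2 = 3 := by decide
  have b2 : (2 : ZMod 4) + 2 = 0 := by decide
  have b3 : (3 : ZMod 4) + 2 = 1 := by decide
  rw [a0, a1, a2, a3]
  rcases Bool.eq_or_eq_not (ω f) (ev 0) with hw | hw
  · have h0 := h f hf 0 hw
    have h2 := h f hf 2 (by rw [hw]; decide)
    rw [a0, b0] at h0
    rw [a2, b2] at h2
    rw [h0, h2]
    generalize m (Q.c f 1) (Q.c f 2) = x
    generalize m (Q.c f 3) (Q.c f 0) = y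
    revert x y; decide
  · have h1 := h f hf 1 (by rw [hw]; decide)
    have h3 := h f hf 3 (by rw [hw]; decide)
    rw [a1, b1] at h1
    rw [a3, b3] at h3
    rw [h1, h3]
    generalize m (Q.c f 0) (Q.c f 1) = x
    generalize m (Q.c f 2) (Q.c f 3) = y
    revert x y; decide

/-- `χ` is a potential of `m` on the faces of `F`. -/
def PotQ (Q : QC V Φ) (F : Set Φ) (m : V → V → ZMod 2) (χ : V → ZMod 2) : Prop :=
  ∀ f ∈ F, ∀ k, χ (Q.c f k) + χ (Q.c f (k + 1)) = m (Q.c f k) (Q.c f (k + 1))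

theorem PotQ.bond (h : PotQ Q F m χ) (hm : Mat Q ω F m) (hf : f ∈ F) (hk : ω f = ev k) :
    χ (Q.c f k) = χ (Q.c f (k + 2)) := by
  have h1 := h f hf k
  have h2 := h f hf (k + 1)
  rw [z1] at h2
  rw [hm f hf k hk, ← h2] at h1
  generalize χ (Q.c f k) = x at h1 ⊢
  generalize χ (Q.c f (k + 1)) = y at h1
  generalize χ (Q.c f (k + 2)) = z at h1 ⊢
  revert x y z; decide

theorem PotQ.conn (h : PotQ Q F m χ) (hm : Mat Q ω F m) {u v : V} (hc : ConnQ Q ω F u v) :
    χ u = χ v := by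
  induction hc with
  | refl => rfl
  | tail _ hb ih =>
    obtain ⟨f, hf, k, hk, rfl, rfl⟩ := hb
    exact ih.trans (h.bond hm hf hk)

theorem PotQ.marks (h : PotQ Q F m χ) (hm : Mat Q ω F m) {e a : V × V} (ha : a ∈ Orb Q ω F e) :
    χ a.1 = χ e.1 ∧ χ a.2 = χ e.2 :=
  ⟨(h.conn hm ((Pool.Agent.Perc.Q.marks ha).1.mono Vis_sub)).symm, (h.conn hm ((Pool.Agent.Perc.Q.marks ha).2.mono Vis_sub)).symm⟩

/-- The cochain of the strands `i` and `i + 1`. -/
noncomputable def mP (Q : QC V Φ) (ω : Φ → Bool) (F : Set Φ) (e : Fin 3 → V × V) (i : Fin 3)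
    (p q : V) : ZMod 2 := indU Q ω F (e i) p q + indU Q ω F (e (i + 1)) p q

/-- The cochain of the complement of the three strands. -/
noncomputable def mK (Q : QC V Φ) (ω : Φ → Bool) (F : Set Φ) (e : Fin 3 → V × V)
    (p q : V) : ZMod 2 := 1 + ∑ i, indU Q ω F (e i) p q

theorem mat_mP (he : ∀ i, Ini Q F (e i)) : Mat Q ω F (mP Q ω F e i) := by
  intro f hf k hk
  unfold mP
  rw [indU_eq (he _) hf hk, indU_eq (he _) hf hk]

theorem mat_mK (he : ∀ i, Ini Q F (e i)) : Mat Q ω F (mK Q ω F e) := by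
  intro f hf k hk
  unfold mK
  congr 1
  exact Finset.sum_congr rfl fun i _ => indU_eq (he i) hf hk

theorem mP_symm (p q : V) : mP Q ω F e i p q = mP Q ω F e i q p := by
  unfold mP
  rw [indU_symm Q ω F (e i), indU_symm Q ω F (e (i + 1))]

theorem mK_symm (p q : V) : mK Q ω F e p q = mK Q ω F e q p := by
  unfold mK
  congr 1
  exact Finset.sum_congr rfl fun i _ => indU_symm Q ω F (e i) p q

/-- The sector with `P s = 0`. -/
def secP (P : Fin 3 → V → ZMod 2) (v : V) : Fin 3 :=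
  if P 0 v = 0 then 0 else if P 1 v = 0 then 1 else 2

theorem secP_eq {P : Fin 3 → V → ZMod 2} {v : V} {s : Fin 3}
    (h : ∀ j, P j v = if j = s then 0 else 1) : secP P v = s := by
  unfold secP
  rw [h 0, h 1]
  clear h
  revert s
  decide

/-- Existence of the sectors. -/
theorem isSec_of_pot (he : ∀ i, Ini Q F (e i)) {L R : Fin 3 → Fin 3} {P : Fin 3 → V → ZMod 2}
    (hP : ∀ i, PotQ Q F (mP Q ω F e i) (P i)) {K : V → ZMod 2}
    (hK : PotQ Q F (mK Q ω F e) K)
    (hL : ∀ i j, P j (e i).1 = if j = L i then 0 else 1)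
    (hR : ∀ i j, P j (e i).2 = if j = R i then 0 else 1)
    (hK0 : ∀ i, K (e i).1 = 0 ∧ K (e i).2 = 0) :
    IsSec Q ω F e L R (secP P) K := by
  have hind : ∀ f ∈ F, ∀ k, (Q.c f k, Q.c f (k + 1)) ∉ MU Q ω F e → ∀ i,
      indU Q ω F (e i) (Q.c f k) (Q.c f (k + 1)) = 0 := by
    intro f _ k h i
    unfold indU
    exact if_neg fun h' => h ⟨i, h'⟩
  refine ⟨he, ?_, ?_, ?_, ?_⟩
  · intro f hf k h
    have h1 : ∀ i, P i (Q.c f k) = P i (Q.c f (k + 1)) := by
      intro i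
      have h2 := hP i f hf k
      unfold mP at h2
      rw [hind f hf k h, hind f hf k h, add_zero] at h2
      generalize P i (Q.c f k) = x at h2 ⊢
      generalize P i (Q.c f (k + 1)) = y at h2 ⊢
      revert x y; decide
    unfold secP
    rw [h1 0, h1 1]
  · intro f hf k h
    have h2 := hK f hf k
    unfold mK at h2
    rw [Finset.sum_eq_zero (fun i _ => hind f hf k h i), add_zero] at h2
    generalize K (Q.c f k) = x at h2 ⊢
    generalize K (Q.c f (k + 1)) = y at h2 ⊢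
    revert x y; decide
  · intro i a ha
    refine ⟨secP_eq fun j => ?_, ?_⟩
    · rw [((hP j).marks (mat_mP he) ha).1, hL]
    · rw [(hK.marks (mat_mK he) ha).1, (hK0 i).1]
  · intro i a ha
    refine ⟨secP_eq fun j => ?_, ?_⟩
    · rw [((hP j).marks (mat_mP he) ha).2, hR]
    · rw [(hK.marks (mat_mK he) ha).2, (hK0 i).2]

end Pool.Agent.Perc.Q
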