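import Mathlib

/-!
# Recursions over scales (claim 3, T2 (vi))
-/

set_option autoImplicit false

namespace Pool.Agent.Perc

/-- A two step recursion with a geometric inhomogeneity gives geometric decay. -/
theorem geom_of_rec {b : ℕ → ℝ} {β θ ε C₀ C₂ : ℝ} (hβ : 0 < β) (hβ1 : β ≤ 1) (hθ : 0 ≤ θ)
    (hε : 0 ≤ ε) (hC₂ : 0 ≤ C₂) (hsmall : θ / β + ε / β ^ 2 ≤ 1 / 2) (hC₀ : 0 ≤ C₀)
    (h0 : b 0 ≤ C₀) (h1 : b 1 ≤ C₀)
    (hrec : ∀ k, b (k + 2) ≤ θ * b (k + 1) + ε * b k + C₂ * β ^ (k + 1)) (k : ℕ) :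
    b k ≤ (C₀ + 2 * C₂) / β * β ^ k := by
  set M := (C₀ + 2 * C₂) / β with hM
  have hMβ : M * β = C₀ + 2 * C₂ := by
    rw [hM, div_mul_cancel₀ _ hβ.ne']
  have hM0 : 0 ≤ M := div_nonneg (by linarith) hβ.le
  have hkey : ∀ k, b k ≤ M * β ^ k ∧ b (k + 1) ≤ M * β ^ (k + 1) := by
    intro k
    induction k with
    | zero =>
      constructor
      · rw [pow_zero, mul_one]
        have : M * β ≤ M * 1 := mul_le_mul_of_nonneg_left hβ1 hM0
        linarith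
      · rw [zero_add, pow_one]
        linarith
    | succ k ih =>
      refine ⟨ih.2, ?_⟩
      have h2 := hrec k
      have h3 := mul_le_mul_of_nonneg_left ih.2 hθ
      have h4 := mul_le_mul_of_nonneg_left ih.1 hε
      have hp : 0 < β ^ (k + 2) := pow_pos hβ _
      have e1 : θ * (M * β ^ (k + 1)) = (θ / β) * (M * β ^ (k + 2)) := by
        rw [pow_succ β (k + 1)]
        field_simp
      have e2 : ε * (M * β ^ k) = (ε / β ^ 2) * (M * β ^ (k + 2)) := by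
        rw [pow_add β k 2]
        field_simp
      have e3 : C₂ * β ^ (k + 1) ≤ 1 / 2 * (M * β ^ (k + 2)) := by
        have : M * β ^ (k + 2) = (M * β) * β ^ (k + 1) := by ring
        rw [this, hMβ]
        have hp' : 0 < β ^ (k + 1) := pow_pos hβ _
        nlinarith
      have h5 : (θ / β + ε / β ^ 2) * (M * β ^ (k + 2)) ≤ 1 / 2 * (M * β ^ (k + 2)) :=
        mul_le_mul_of_nonneg_right hsmall (mul_nonneg hM0 hp.le)
      have e4 : M * β ^ (k + 1 + 1) = M * β ^ (k + 2) := rfl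
      rw [show k + 1 + 1 = k + 2 from rfl]
      linarith
  exact (hkey k).1

/-- The one step version. -/
theorem geom_of_rec_one {b : ℕ → ℝ} {β θ C₀ C₂ : ℝ} (hβ : 0 < β) (hθ : 0 ≤ θ)
    (hC₂ : 0 ≤ C₂) (hsmall : θ / β ≤ 1 / 2) (hC₀ : 0 ≤ C₀)
    (h0 : b 0 ≤ C₀) (hrec : ∀ k, b (k + 1) ≤ θ * b k + C₂ * β ^ (k + 1)) (k : ℕ) :
    b k ≤ (C₀ + 2 * C₂) * β ^ k := by
  induction k with
  | zero =>
    rw [pow_zero, mul_one]
    linarith
  | succ k ih =>
    have h3 := mul_le_mul_of_nonneg_left ih hθ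
    have h2 := hrec k
    have hp : 0 < β ^ (k + 1) := pow_pos hβ _
    have e1 : θ * ((C₀ + 2 * C₂) * β ^ k) = (θ / β) * ((C₀ + 2 * C₂) * β ^ (k + 1)) := by
      rw [pow_succ β k]
      field_simp
    have h5 : (θ / β) * ((C₀ + 2 * C₂) * β ^ (k + 1)) ≤ 1 / 2 * ((C₀ + 2 * C₂) * β ^ (k + 1)) :=
      mul_le_mul_of_nonneg_right hsmall (mul_nonneg (by linarith) hp.le)
    nlinarith [mul_nonneg hC₀ hp.le, mul_nonneg hC₂ hp.le]

end Pool.Agent.Perc
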