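import Pool.Agent.Lib.MP_6bd702_perc3.RoutesA

/-!
# Routes of the three walls: three disjoint walls with prescribed ends

Every wall runs radially to its lane, along the lane to the angle of its end, and radially to its
end. The lanes `6, 5, 4` are used by the walls `0, 1, 2` which move to larger angles, the lanes
`7, 8, 9` by those which move to smaller angles.
-/

set_option autoImplicit false

namespace Pool.Agent.Perc.Rt

open Finset Relation Pool.Agent.Perc

variable {r : Rc} {g h g' : ℤ × ℤ} {k l : ℤ}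

/-- The lane of the wall `i`. -/
def lane (i : ℤ) (p q : ℤ) : ℤ := if p ≤ q then 6 - i else 7 + i

/-- The wall from `P` to `Q` in the lane `l`. -/
def Wall (r : Rc) (l : ℤ) (P Q : ℤ × ℤ) : Set (ℤ × ℤ) :=
  {g | NCut r g ∧ ((lay r P ≤ lay r g ∧ lay r g ≤ l ∧ ang r g = ang r P) ∨
    (lay r g = l ∧ min (ang r P) (ang r Q) ≤ ang r g ∧ ang r g ≤ max (ang r P) (ang r Q)) ∨
    (l ≤ lay r g ∧ lay r g ≤ lay r Q ∧ ang r g = ang r Q))}

theorem wall_disjoint {P Q P' Q' : ℤ × ℤ} {i j : ℤ} (h0 : 0 ≤ i) (hij : i < j) (hj : j ≤ 2)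
    (hP : ang r P < ang r P') (hQ : ang r Q < ang r Q') :
    Disjoint (Wall r (lane i (ang r P) (ang r Q)) P Q)
      (Wall r (lane j (ang r P') (ang r Q')) P' Q') := by
  rw [Set.disjoint_left]
  rintro g ⟨-, h1⟩ ⟨-, h2⟩
  unfold lane at h1 h2
  generalize lay r g = x at h1 h2
  generalize ang r g = y at h1 h2
  generalize ang r P = p at *
  generalize ang r Q = q at *
  generalize ang r P' = p' at *
  generalize ang r Q' = q' at *
  split_ifs at h1 h2 <;> omega

/-- The wall is connected. -/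
theorem cn_wall {P Q : ℤ × ℤ} (hP : Reg r P) (hQ : Reg r Q) (hl : lay r P ≤ l) (hl' : l ≤ lay r Q) :
    Cn (Wall r l P Q) P Q := by
  have hp := hP.lay_pos
  have h1 : Cn (Wall r l P Q) P (foot r P l) := by
    have := cn_rad (k := lay r P) (l := lay r P) (l' := l) hP hp le_rfl hl
    rw [foot_self hP] at this
    exact this.mono fun g hg => ⟨hg.1, Or.inl ⟨hg.2.1, hg.2.2.1, hg.2.2.2⟩⟩
  have h3 : Cn (Wall r l P Q) (foot r Q l) Q := by
    have := cn_rad (k := l) (l := l) (l' := lay r Q) hQ (by omega) le_rfl hl'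
    rw [foot_self hQ] at this
    exact this.mono fun g hg => ⟨hg.1, Or.inr (Or.inr ⟨hg.2.1, hg.2.2.1, hg.2.2.2⟩)⟩
  obtain ⟨p1, p2, p3⟩ := foot_prop (l := l) hP (by omega)
  obtain ⟨q1, q2, q3⟩ := foot_prop (l := l) hQ (by omega)
  refine (h1.trans ?_).trans h3
  rcases le_total (ang r P) (ang r Q) with h | h
  · refine (cn_arc p1 q1 (by omega) p2 q2 (by omega)).mono fun g hg => ⟨hg.1, Or.inr (Or.inl ?_)⟩
    obtain ⟨-, g2, g3, g4⟩ := hg
    rw [p3] at g3
    rw [q3] at g4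
    omega
  · refine Cn.symm ((cn_arc q1 p1 (by omega) q2 p2 (by omega)).mono fun g hg =>
      ⟨hg.1, Or.inr (Or.inl ?_)⟩)
    obtain ⟨-, g2, g3, g4⟩ := hg
    rw [q3] at g3
    rw [p3] at g4
    omega

/-- Three disjoint walls. -/
theorem three_walls {P Q : Fin 3 → ℤ × ℤ} (hP : ∀ i, Reg r (P i)) (hQ : ∀ i, Reg r (Q i))
    (hPl : ∀ i, lay r (P i) ≤ 3) (hQl : ∀ i, 10 ≤ lay r (Q i))
    (hPa : ∀ i j, i < j → ang r (P i) < ang r (P j))
    (hQa : ∀ i j, i < j → ang r (Q i) < ang r (Q j)) :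
    ∃ W : Fin 3 → Set (ℤ × ℤ), (∀ i j, i ≠ j → Disjoint (W i) (W j)) ∧
      (∀ i, Cn (W i) (P i) (Q i)) ∧
      (∀ i, ∀ g ∈ W i, NCut r g ∧ lay r (P i) ≤ lay r g ∧ lay r g ≤ lay r (Q i)) ∧
      (∀ i, ∀ g ∈ W i, lay r g ≤ 3 → ang r g = ang r (P i)) ∧
      ∀ i, ∀ g ∈ W i, 10 ≤ lay r g → ang r g = ang r (Q i) := by
  refine ⟨fun i => Wall r (lane ((i : ℕ) : ℤ) (ang r (P i)) (ang r (Q i))) (P i) (Q i),
    fun i j hij => ?_, fun i => ?_, fun i g hg => ?_, fun i g hg h3 => ?_, fun i g hg h3 => ?_⟩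
  · rcases lt_or_gt_of_ne hij with h | h
    · exact wall_disjoint (by omega) (by exact_mod_cast h) (by omega) (hPa i j h) (hQa i j h)
    · exact (wall_disjoint (by omega) (by exact_mod_cast h) (by omega) (hPa j i h)
        (hQa j i h)).symm
  · have h1 := hPl i
    have h2 := hQl i
    have h3 : ((i : ℕ) : ℤ) ≤ 2 := by omega
    refine cn_wall (hP i) (hQ i) ?_ ?_ <;> unfold lane <;> split_ifs <;> omega
  · have h1 := hPl i
    have h2 := hQl i
    have h3 : ((i : ℕ) : ℤ) ≤ 2 := by omega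
    refine ⟨hg.1, ?_⟩
    have := hg.2
    unfold lane at this
    split_ifs at this <;> omega
  · have h2 : ((i : ℕ) : ℤ) ≤ 2 := by omega
    have := hg.2
    unfold lane at this
    split_ifs at this <;> omega
  · have h2 : ((i : ℕ) : ℤ) ≤ 2 := by omega
    have := hg.2
    unfold lane at this
    split_ifs at this <;> omega

end Pool.Agent.Perc.Rt
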