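import Pool.Agent.Lib.MP_6bd702_perc3.RoutesB

/-!
# Routes of the three walls: two concentric rectangles
-/

set_option autoImplicit false

namespace Pool.Agent.Perc.Rt

open Finset Relation Pool.Agent.Perc

variable {r₁ r₂ : Rc}

/-- The rectangle `r₂` contains the twelve layers around `r₁`. -/
def Far2 (r₁ r₂ : Rc) : Prop :=
  r₂.a ≤ r₁.a - 12 ∧ r₁.b + 12 ≤ r₂.b ∧ r₂.c ≤ r₁.c - 12 ∧ r₁.d + 12 ≤ r₂.d ∧
    r₁.a ≤ -6 ∧ 6 ≤ r₁.b ∧ r₁.c ≤ -2 ∧ 2 ≤ r₁.d

/-- Three disjoint walls from the neighbourhood of the inner rectangle to the neighbourhood of the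
outer one. -/
theorem routes_core (hr : Far2 r₁ r₂) {P Q : Fin 3 → ℤ × ℤ} (hP : ∀ i, Reg r₁ (P i))
    (hQ : ∀ i, Reg r₂ (Q i)) (hPl : ∀ i, lay r₁ (P i) ≤ 3) (hQl : ∀ i, 10 ≤ lay r₂ (Q i))
    (hPa : ∀ i j, i < j → ang r₁ (P i) < ang r₁ (P j))
    (hQa : ∀ i j, i < j → ang r₂ (Q i) < ang r₂ (Q j)) :
    ∃ W : Fin 3 → Set (ℤ × ℤ), (∀ i j, i ≠ j → Disjoint (W i) (W j)) ∧
      (∀ i, Cn (W i) (P i) (Q i)) ∧
      (∀ i, ∀ g ∈ W i, CellOk g ∧ lay r₁ (P i) ≤ lay r₁ g ∧ lay r₂ g ≤ lay r₂ (Q i)) ∧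
      (∀ i, ∀ g ∈ W i, lay r₁ g ≤ 3 → ang r₁ g = ang r₁ (P i)) ∧
      ∀ i, ∀ g ∈ W i, 10 ≤ lay r₂ g → ang r₂ g = ang r₂ (Q i) := by
  obtain ⟨ha, hb, hc, hd, ha', hb', hc', hd'⟩ := hr
  set U : Fin 3 → ℤ × ℤ := fun i => (4 - 4 * ((i : ℕ) : ℤ), r₁.d + 12) with hU
  set V : Fin 3 → ℤ × ℤ := fun i => (4 - 4 * ((i : ℕ) : ℤ), r₂.d + 1) with hV
  have h3 : ∀ i : Fin 3, ((i : ℕ) : ℤ) ≤ 2 ∧ 0 ≤ ((i : ℕ) : ℤ) := fun i => by omega
  have hUr : ∀ i, Reg r₁ (U i) := fun i => by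
    have := h3 i
    simp only [hU]
    unfold Reg
    simp only
    omega
  have hVr : ∀ i, Reg r₂ (V i) := fun i => by
    have := h3 i
    simp only [hV]
    unfold Reg
    simp only
    omega
  have hUl : ∀ i, lay r₁ (U i) = 12 := fun i => by
    have := h3 i
    simp only [hU]
    unfold lay
    simp only
    omega
  have hVl : ∀ i, lay r₂ (V i) = 1 := fun i => by
    have := h3 i
    simp only [hV]
    unfold lay
    simp only
    omega
  have hUa : ∀ i, ang r₁ (U i) = r₁.b + 4 + (r₁.d - r₁.c) + (r₁.b - (4 - 4 * ((i : ℕ) : ℤ))) :=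
    fun i => by
      have := h3 i
      simp only [hU]
      rw [ang_s2 (by omega) (by omega) (by omega)]
  have hVa : ∀ i, ang r₂ (V i) = r₂.b + 4 + (r₂.d - r₂.c) + (r₂.b - (4 - 4 * ((i : ℕ) : ℤ))) :=
    fun i => by
      have := h3 i
      simp only [hV]
      rw [ang_s2 (by omega) (by omega) (by omega)]
  obtain ⟨W1, d1, c1, b1, n1, m1⟩ := three_walls hP hUr hPl (fun i => by rw [hUl]; omega) hPa
    (fun i j hij => by
      rw [hUa, hUa]
      have : ((i : ℕ) : ℤ) < ((j : ℕ) : ℤ) := by exact_mod_cast hij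
      omega)
  obtain ⟨W2, d2, c2, b2, n2, m2⟩ := three_walls hVr hQ (fun i => by rw [hVl]; omega) hQl
    (fun i j hij => by
      rw [hVa, hVa]
      have : ((i : ℕ) : ℤ) < ((j : ℕ) : ℤ) := by exact_mod_cast hij
      omega) hQa
  set Z : Fin 3 → Set (ℤ × ℤ) := fun i =>
    {g | g.1 = 4 - 4 * ((i : ℕ) : ℤ) ∧ r₁.d + 12 ≤ g.2 ∧ g.2 ≤ r₂.d + 1} with hZ
  have zl1 : ∀ i, ∀ g ∈ Z i, lay r₁ g = g.2 - r₁.d := fun i g hg => by
    have := h3 i
    simp only [hZ, Set.mem_ofPred_eq] at hg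
    unfold lay
    omega
  have zl2 : ∀ i, ∀ g ∈ Z i, r₂.d < g.2 → lay r₂ g = g.2 - r₂.d := fun i g hg hg' => by
    have := h3 i
    simp only [hZ, Set.mem_ofPred_eq] at hg
    unfold lay
    omega
  have zl3 : ∀ i, ∀ g ∈ Z i, g.2 ≤ r₂.d → lay r₂ g ≤ 0 := fun i g hg hg' => by
    have := h3 i
    simp only [hZ, Set.mem_ofPred_eq] at hg
    unfold lay
    omega
  have za1 : ∀ i, ∀ g ∈ Z i, ang r₁ g = ang r₁ (U i) := fun i g hg => by
    have := h3 i
    obtain ⟨x, y⟩ := g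
    simp only [hZ, Set.mem_ofPred_eq] at hg
    rw [hUa, ang_s2 (by omega) (by omega) (by omega), hg.1]
  have za2 : ∀ i, ∀ g ∈ Z i, r₂.d < g.2 → ang r₂ g = ang r₂ (V i) := fun i g hg hg' => by
    have := h3 i
    obtain ⟨x, y⟩ := g
    simp only [hZ, Set.mem_ofPred_eq] at hg hg'
    rw [hVa, ang_s2 (by omega) (by omega) (by omega), hg.1]
  have l12 : ∀ g, 1 ≤ lay r₂ g → 13 ≤ lay r₁ g := fun g hg => by
    unfold lay at hg ⊢
    omega
  have hWZ1 : ∀ i j, i ≠ j → Disjoint (W1 i) (Z j) := fun i j hij => by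
    rw [Set.disjoint_left]
    intro g hg hg'
    have e1 := zl1 j g hg'
    have e2 := (b1 i g hg).2.2
    rw [hUl] at e2
    have e3 : r₁.d + 12 ≤ g.2 := hg'.2.1
    have e4 := m1 i g hg (by omega)
    rw [za1 j g hg', hUa, hUa] at e4
    have : ((i : ℕ) : ℤ) ≠ ((j : ℕ) : ℤ) := by
      intro h; exact hij (Fin.ext (by exact_mod_cast h))
    omega
  have hWZ2 : ∀ i j, i ≠ j → Disjoint (W2 i) (Z j) := fun i j hij => by
    rw [Set.disjoint_left]
    intro g hg hg'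
    have e2 := (b2 i g hg).2.1
    rw [hVl] at e2
    have e5 : r₂.d < g.2 := by
      by_contra h
      have := zl3 j g hg' (by omega)
      omega
    have e1 := zl2 j g hg' e5
    have e3 : g.2 ≤ r₂.d + 1 := hg'.2.2
    have e4 := n2 i g hg (by omega)
    rw [za2 j g hg' e5, hVa, hVa] at e4
    have : ((i : ℕ) : ℤ) ≠ ((j : ℕ) : ℤ) := by
      intro h; exact hij (Fin.ext (by exact_mod_cast h))
    omega
  have hWW : ∀ i j, Disjoint (W1 i) (W2 j) := fun i j => by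
    rw [Set.disjoint_left]
    intro g hg hg'
    have e1 := (b1 i g hg).2.2
    rw [hUl] at e1
    have e2 := (b2 j g hg').2.1
    rw [hVl] at e2
    have := l12 g e2
    omega
  have hZZ : ∀ i j, i ≠ j → Disjoint (Z i) (Z j) := fun i j hij => by
    rw [Set.disjoint_left]
    intro g hg hg'
    have e1 : g.1 = 4 - 4 * ((i : ℕ) : ℤ) := hg.1
    have e2 : g.1 = 4 - 4 * ((j : ℕ) : ℤ) := hg'.1
    have : ((i : ℕ) : ℤ) ≠ ((j : ℕ) : ℤ) := by
      intro h; exact hij (Fin.ext (by exact_mod_cast h))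
    omega
  refine ⟨fun i => W1 i ∪ Z i ∪ W2 i, fun i j hij => ?_, fun i => ?_, fun i g hg => ?_,
    fun i g hg hl => ?_, fun i g hg hl => ?_⟩
  · simp only [Set.disjoint_union_left, Set.disjoint_union_right]
    exact ⟨⟨⟨⟨d1 i j hij, (hWZ1 j i hij.symm).symm⟩, (hWW j i).symm⟩,
      ⟨hWZ1 i j hij, hZZ i j hij⟩, hWZ2 i j hij⟩, ⟨hWW i j, (hWZ2 j i hij.symm).symm⟩,
      d2 i j hij⟩
  · have k1 : Cn (W1 i ∪ Z i ∪ W2 i) (P i) (U i) := (c1 i).mono fun g hg => Or.inl (Or.inl hg)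
    have k3 : Cn (W1 i ∪ Z i ∪ W2 i) (V i) (Q i) := (c2 i).mono fun g hg => Or.inr hg
    refine (k1.trans ?_).trans k3
    simp only [hU, hV]
    exact run_v (by omega) fun u hu hu' => Or.inl (Or.inr ⟨rfl, hu, hu'⟩)
  · rcases hg with (hg | hg) | hg
    · obtain ⟨e1, e2, e3⟩ := b1 i g hg
      have e4 := (hP i).lay_pos
      rw [hUl] at e3
      refine ⟨?_, e2, ?_⟩
      · unfold NCut at e1
        unfold CellOk
        unfold lay at e2 e4
        omega
      · have := hQl i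
        by_contra h
        have := l12 g (by omega)
        omega
    · have e1 := zl1 i g hg
      have e2 := hPl i
      have e3 := hQl i
      have e4 : r₁.d + 12 ≤ g.2 := hg.2.1
      have e5 : g.2 ≤ r₂.d + 1 := hg.2.2
      refine ⟨Or.inl (by omega), by omega, ?_⟩
      rcases le_or_gt g.2 r₂.d with h | h
      · have := zl3 i g hg h
        omega
      · have := zl2 i g hg h
        omega
    · obtain ⟨e1, e2, e3⟩ := b2 i g hg
      rw [hVl] at e2
      have e4 := l12 g e2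
      have e5 := hPl i
      refine ⟨?_, by omega, e3⟩
      unfold NCut at e1
      unfold CellOk
      unfold lay at e2
      omega
  · rcases hg with (hg | hg) | hg
    · exact n1 i g hg hl
    · exfalso
      have e1 := zl1 i g hg
      have e4 : r₁.d + 12 ≤ g.2 := hg.2.1
      omega
    · exfalso
      obtain ⟨e1, e2, e3⟩ := b2 i g hg
      rw [hVl] at e2
      have e4 := l12 g e2
      omega
  · rcases hg with (hg | hg) | hg
    · exfalso
      have e1 := (b1 i g hg).2.2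
      rw [hUl] at e1
      have := l12 g (by omega)
      omega
    · exfalso
      have e5 : g.2 ≤ r₂.d + 1 := hg.2.2
      rcases le_or_gt g.2 r₂.d with h | h
      · have := zl3 i g hg h
        omega
      · have := zl2 i g hg h
        omega
    · exact m2 i g hg hl

end Pool.Agent.Perc.Rt
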