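import Pool.Agent.Lib.MP_6bd702_perc3.RoutesC

/-!
# Routes of the three walls: positions of the tips
-/

set_option autoImplicit false

namespace Pool.Agent.Perc.Rt

open Finset Relation Pool.Agent.Perc

variable {r : Rc} {w R τ τ' : ℤ} {P P' g : ℤ × ℤ}

/-- The cell `P` outside the rectangle is at the position `τ`, away from corners and cut. -/
def PosAt (r : Rc) (w R τ : ℤ) (P : ℤ × ℤ) : Prop :=
  (P.2 < r.c ∧ 5 ≤ P.1 ∧ P.1 ≤ r.b - 5 ∧ 0 ≤ τ ∧ τ < R ∧ w * P.1 ≤ τ ∧ τ < w * P.1 + w) ∨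
  (r.b < P.1 ∧ r.c + 5 ≤ P.2 ∧ P.2 ≤ r.d - 5 ∧ R ≤ τ ∧ τ < 3 * R ∧ w * P.2 ≤ τ - 2 * R ∧
    τ - 2 * R < w * P.2 + w) ∨
  (r.d < P.2 ∧ r.a + 5 ≤ P.1 ∧ P.1 ≤ r.b - 5 ∧ 3 * R ≤ τ ∧ τ < 5 * R + 2 ∧
    w * P.1 ≤ 4 * R - 1 - τ ∧ 4 * R - 1 - τ < w * P.1 + w) ∨
  (P.1 < r.a ∧ r.c + 5 ≤ P.2 ∧ P.2 ≤ r.d - 5 ∧ 5 * R + 2 ≤ τ ∧ τ < 7 * R + 2 ∧
    w * P.2 ≤ 6 * R + 1 - τ ∧ 6 * R + 1 - τ < w * P.2 + w) ∨
  (P.2 < r.c ∧ r.a + 5 ≤ P.1 ∧ P.1 ≤ -5 ∧ 7 * R + 2 ≤ τ ∧ τ < 8 * R + 3 ∧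
    w * P.1 ≤ τ - 8 * R - 4 ∧ τ - 8 * R - 4 < w * P.1 + w)

theorem PosAt.reg (h : PosAt r w R τ P) : Reg r P := by
  have h1 := r.ha
  have h2 := r.hb
  have h3 := r.hcd
  unfold PosAt at h
  unfold Reg
  omega

theorem gap {w x y z z' : ℤ} (hw : 0 < w) (h1 : w * z ≤ x) (h2 : y < w * z' + w)
    (h : x + 20 * w ≤ y) : z + 19 ≤ z' := by
  by_contra hc
  have h3 : z' ≤ z + 18 := by omega
  have h4 : w * z' ≤ w * (z + 18) := mul_le_mul_of_nonneg_left h3 hw.le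
  rw [mul_add] at h4
  omega

theorem pos_ang (hw : 0 < w) (h : PosAt r w R τ P) (h' : PosAt r w R τ' P')
    (hg : τ + 20 * w ≤ τ') : ang r P + 5 ≤ ang r P' := by
  have h1 := r.ha
  have h2 := r.hb
  have h3 := r.hcd
  obtain ⟨x, y⟩ := P
  obtain ⟨x', y'⟩ := P'
  unfold PosAt at h h'
  simp only at h h'
  rcases h with ⟨p1, p2, p3, p4, p5, p6, p7⟩ | ⟨p1, p2, p3, p4, p5, p6, p7⟩ |
    ⟨p1, p2, p3, p4, p5, p6, p7⟩ | ⟨p1, p2, p3, p4, p5, p6, p7⟩ | ⟨p1, p2, p3, p4, p5, p6, p7⟩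
  · rw [ang_s0 (x := x) (y := y) (by omega) (by omega) (by omega)]
    rcases h' with ⟨q1, q2, q3, q4, q5, q6, q7⟩ | ⟨q1, q2, q3, q4, q5, q6, q7⟩ |
      ⟨q1, q2, q3, q4, q5, q6, q7⟩ | ⟨q1, q2, q3, q4, q5, q6, q7⟩ | ⟨q1, q2, q3, q4, q5, q6, q7⟩
    · rw [ang_s0 (by omega) (by omega) (by omega)]
      have := gap hw p6 q7 hg
      omega
    · rw [ang_s1 (by omega) (by omega) (by omega)]; omega
    · rw [ang_s2 (by omega) (by omega) (by omega)]; omega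
    · rw [ang_s3 (by omega) (by omega) (by omega)]; omega
    · rw [ang_s4 (by omega) (by omega) (by omega)]; omega
  · rw [ang_s1 (x := x) (y := y) (by omega) (by omega) (by omega)]
    rcases h' with ⟨q1, q2, q3, q4, q5, q6, q7⟩ | ⟨q1, q2, q3, q4, q5, q6, q7⟩ |
      ⟨q1, q2, q3, q4, q5, q6, q7⟩ | ⟨q1, q2, q3, q4, q5, q6, q7⟩ | ⟨q1, q2, q3, q4, q5, q6, q7⟩
    · omega
    · rw [ang_s1 (by omega) (by omega) (by omega)]
      have := gap hw p6 q7 (by omega)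
      omega
    · rw [ang_s2 (by omega) (by omega) (by omega)]; omega
    · rw [ang_s3 (by omega) (by omega) (by omega)]; omega
    · rw [ang_s4 (by omega) (by omega) (by omega)]; omega
  · rw [ang_s2 (x := x) (y := y) (by omega) (by omega) (by omega)]
    rcases h' with ⟨q1, q2, q3, q4, q5, q6, q7⟩ | ⟨q1, q2, q3, q4, q5, q6, q7⟩ |
      ⟨q1, q2, q3, q4, q5, q6, q7⟩ | ⟨q1, q2, q3, q4, q5, q6, q7⟩ | ⟨q1, q2, q3, q4, q5, q6, q7⟩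
    · omega
    · omega
    · rw [ang_s2 (by omega) (by omega) (by omega)]
      have := gap hw q6 p7 (by omega)
      omega
    · rw [ang_s3 (by omega) (by omega) (by omega)]; omega
    · rw [ang_s4 (by omega) (by omega) (by omega)]; omega
  · rw [ang_s3 (x := x) (y := y) (by omega) (by omega) (by omega)]
    rcases h' with ⟨q1, q2, q3, q4, q5, q6, q7⟩ | ⟨q1, q2, q3, q4, q5, q6, q7⟩ |
      ⟨q1, q2, q3, q4, q5, q6, q7⟩ | ⟨q1, q2, q3, q4, q5, q6, q7⟩ | ⟨q1, q2, q3, q4, q5, q6, q7⟩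
    · omega
    · omega
    · omega
    · rw [ang_s3 (by omega) (by omega) (by omega)]
      have := gap hw q6 p7 (by omega)
      omega
    · rw [ang_s4 (by omega) (by omega) (by omega)]; omega
  · rw [ang_s4 (x := x) (y := y) (by omega) (by omega) (by omega)]
    rcases h' with ⟨q1, q2, q3, q4, q5, q6, q7⟩ | ⟨q1, q2, q3, q4, q5, q6, q7⟩ |
      ⟨q1, q2, q3, q4, q5, q6, q7⟩ | ⟨q1, q2, q3, q4, q5, q6, q7⟩ | ⟨q1, q2, q3, q4, q5, q6, q7⟩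
    · omega
    · omega
    · omega
    · omega
    · rw [ang_s4 (by omega) (by omega) (by omega)]
      have := gap hw p6 q7 (by omega)
      omega

/-- The ports of different tips are at distance at least `5`. -/
theorem pos_far (hw : 0 < w) (hcd : r.c + 5 ≤ r.d) (hab : r.a + 5 ≤ r.b) (h : PosAt r w R τ P)
    (h' : PosAt r w R τ' P') (hg : τ + 20 * w ≤ τ') : 5 ≤ |P.1 - P'.1| ∨ 5 ≤ |P.2 - P'.2| := by
  have h1 := r.ha
  have h2 := r.hb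
  obtain ⟨x, y⟩ := P
  obtain ⟨x', y'⟩ := P'
  unfold PosAt at h h'
  simp only at h h' ⊢
  rw [le_abs, le_abs]
  rcases h with ⟨p1, p2, p3, p4, p5, p6, p7⟩ | ⟨p1, p2, p3, p4, p5, p6, p7⟩ |
    ⟨p1, p2, p3, p4, p5, p6, p7⟩ | ⟨p1, p2, p3, p4, p5, p6, p7⟩ | ⟨p1, p2, p3, p4, p5, p6, p7⟩
  · rcases h' with ⟨q1, q2, q3, q4, q5, q6, q7⟩ | ⟨q1, q2, q3, q4, q5, q6, q7⟩ |
      ⟨q1, q2, q3, q4, q5, q6, q7⟩ | ⟨q1, q2, q3, q4, q5, q6, q7⟩ | ⟨q1, q2, q3, q4, q5, q6, q7⟩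
    · have := gap hw p6 q7 hg
      omega
    all_goals omega
  · rcases h' with ⟨q1, q2, q3, q4, q5, q6, q7⟩ | ⟨q1, q2, q3, q4, q5, q6, q7⟩ |
      ⟨q1, q2, q3, q4, q5, q6, q7⟩ | ⟨q1, q2, q3, q4, q5, q6, q7⟩ | ⟨q1, q2, q3, q4, q5, q6, q7⟩
    · omega
    · have := gap hw p6 q7 (by omega)
      omega
    all_goals omega
  · rcases h' with ⟨q1, q2, q3, q4, q5, q6, q7⟩ | ⟨q1, q2, q3, q4, q5, q6, q7⟩ |
      ⟨q1, q2, q3, q4, q5, q6, q7⟩ | ⟨q1, q2, q3, q4, q5, q6, q7⟩ | ⟨q1, q2, q3, q4, q5, q6, q7⟩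
    · omega
    · omega
    · have := gap hw q6 p7 (by omega)
      omega
    all_goals omega
  · rcases h' with ⟨q1, q2, q3, q4, q5, q6, q7⟩ | ⟨q1, q2, q3, q4, q5, q6, q7⟩ |
      ⟨q1, q2, q3, q4, q5, q6, q7⟩ | ⟨q1, q2, q3, q4, q5, q6, q7⟩ | ⟨q1, q2, q3, q4, q5, q6, q7⟩
    · omega
    · omega
    · omega
    · have := gap hw q6 p7 (by omega)
      omega
    · omega
  · rcases h' with ⟨q1, q2, q3, q4, q5, q6, q7⟩ | ⟨q1, q2, q3, q4, q5, q6, q7⟩ |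
      ⟨q1, q2, q3, q4, q5, q6, q7⟩ | ⟨q1, q2, q3, q4, q5, q6, q7⟩ | ⟨q1, q2, q3, q4, q5, q6, q7⟩
    · omega
    · omega
    · omega
    · omega
    · have := gap hw p6 q7 (by omega)
      omega

/-- The angle near a port. -/
theorem near_ang (hcd : r.c + 2 ≤ r.d) (hab : r.a + 2 ≤ r.b) (h : PosAt r w R τ P)
    (h1 : |g.1 - P.1| ≤ 2) (h2 : |g.2 - P.2| ≤ 2) (hl : 1 ≤ lay r g) :
    |ang r g - ang r P| ≤ 2 := by
  have h3 := r.ha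
  have h4 := r.hb
  obtain ⟨x, y⟩ := P
  obtain ⟨x', y'⟩ := g
  unfold PosAt at h
  unfold lay at hl
  rw [abs_le] at h1 h2
  simp only at h h1 h2 hl
  rw [abs_le]
  rcases h with ⟨p1, p2, p3, p4, p5, p6, p7⟩ | ⟨p1, p2, p3, p4, p5, p6, p7⟩ |
    ⟨p1, p2, p3, p4, p5, p6, p7⟩ | ⟨p1, p2, p3, p4, p5, p6, p7⟩ | ⟨p1, p2, p3, p4, p5, p6, p7⟩
  · rw [ang_s0 (x := x) (y := y) (by omega) (by omega) (by omega),
      ang_s0 (by omega) (by omega) (by omega)]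
    omega
  · rw [ang_s1 (x := x) (y := y) (by omega) (by omega) (by omega),
      ang_s1 (by omega) (by omega) (by omega)]
    omega
  · rw [ang_s2 (x := x) (y := y) (by omega) (by omega) (by omega),
      ang_s2 (by omega) (by omega) (by omega)]
    omega
  · rw [ang_s3 (x := x) (y := y) (by omega) (by omega) (by omega),
      ang_s3 (by omega) (by omega) (by omega)]
    omega
  · rw [ang_s4 (x := x) (y := y) (by omega) (by omega) (by omega),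
      ang_s4 (by omega) (by omega) (by omega)]
    omega

/-- Cells near a port are allowed. -/
theorem near_ok (hd : 3 ≤ r.d) (ha : r.a ≤ -4) (hb : 4 ≤ r.b) (h : PosAt r w R τ P)
    (h1 : |g.1 - P.1| ≤ 2) (h2 : |g.2 - P.2| ≤ 2) : CellOk g := by
  have h3 := r.ha
  have h4 := r.hb
  unfold PosAt at h
  rw [abs_le] at h1 h2
  unfold CellOk
  rcases h with ⟨p1, p2, p3, p4, p5, p6, p7⟩ | ⟨p1, p2, p3, p4, p5, p6, p7⟩ |
    ⟨p1, p2, p3, p4, p5, p6, p7⟩ | ⟨p1, p2, p3, p4, p5, p6, p7⟩ | ⟨p1, p2, p3, p4, p5, p6, p7⟩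
  all_goals omega

end Pool.Agent.Perc.Rt
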