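import Pool.Agent.Lib.MP_6bd702_perc3.RoutesD
import Pool.Agent.Lib.MP_6bd702_perc3.T2GlueDefs

/-!
# Routes of the three walls: the ports of the tips
-/

set_option autoImplicit false

namespace Pool.Agent.Perc.Rt

open Finset Relation Pool.Agent.Perc Pool.Agent.Perc.Q

variable {w R t : ℤ}

theorem div_add_le {x y : ℤ} (k : ℤ) (hw : 0 < w) (h : x + w * k ≤ y) : x / w + k ≤ y / w := by
  rw [← Int.add_mul_ediv_left x k (by omega : w ≠ 0)]
  exact Int.ediv_le_ediv hw h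

theorem add_self_div (x : ℤ) (hw : 0 < w) : (x + w) / w = x / w + 1 := by
  have := Int.add_mul_ediv_right x 1 (by omega : w ≠ 0)
  rwa [one_mul] at this

theorem neg_div_bd (x : ℤ) (hw : 0 < w) : (-x) / w ≤ -(x / w) ∧ -(x / w) ≤ (-x) / w + 1 := by
  have h1 := Int.mul_ediv_add_emod x w
  have h2 := Int.emod_nonneg x (by omega : w ≠ 0)
  have h3 := Int.emod_lt_of_pos x hw
  have h4 := Int.mul_ediv_add_emod (-x) w
  have h5 := Int.emod_nonneg (-x) (by omega : w ≠ 0)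
  have h6 := Int.emod_lt_of_pos (-x) hw
  set q := x / w
  set q' := (-x) / w
  constructor
  · by_contra hc
    have h7 : w * (-q + 1) ≤ w * q' := mul_le_mul_of_nonneg_left (by omega) hw.le
    rw [mul_add, mul_neg] at h7
    omega
  · by_contra hc
    have h7 : w * (q' + 2) ≤ w * (-q) := mul_le_mul_of_nonneg_left (by omega) hw.le
    rw [mul_add, mul_neg] at h7
    omega

theorem div_lo (x : ℤ) (hw : 0 < w) : w * (x / w) ≤ x ∧ x < w * (x / w) + w := by
  have h1 := Int.mul_ediv_add_emod x w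
  have h2 := Int.emod_nonneg x (by omega : w ≠ 0)
  have h3 := Int.emod_lt_of_pos x hw
  omega

theorem away_le (h : Away R (20 * w) t) : (20 * w ≤ t - R ∨ 20 * w ≤ R - t) ∧
    (20 * w ≤ t - (3 * R + 2) ∨ 20 * w ≤ 3 * R + 2 - t) ∧
    (20 * w ≤ t - (5 * R + 2) ∨ 20 * w ≤ 5 * R + 2 - t) ∧
    (20 * w ≤ t - (6 * R + 3) ∨ 20 * w ≤ 6 * R + 3 - t) ∧
    (20 * w ≤ t - (7 * R + 3) ∨ 20 * w ≤ 7 * R + 3 - t) := by
  unfold Away spec at h
  simp only [List.mem_cons, List.not_mem_nil, or_false, forall_eq_or_imp, forall_eq, le_abs] at h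
  omega

section
variable (hw : 3 ≤ w) (hR : 60 * w ≤ R)
include hw hR

theorem bdsI : -((R - 1) / w) ≤ (-R) / w + 2 ∧ (-(R + 2)) / w ≤ (-R) / w ∧
    (-R) / w ≤ (-(R + 2)) / w + 1 ∧ 59 ≤ (R - 1) / w ∧ (R - 1) / w ≤ R / w ∧
    R / w ≤ (R - 1) / w + 1 ∧ (-R) / w ≤ -60 := by
  have hw0 : 0 < w := by omega
  have h1 := neg_div_bd R hw0
  have h2 := div_add_le (w := w) (x := 0) (y := R - 1) 59 hw0 (by omega)
  have h3 := div_add_le (w := w) (x := R - 1) (y := R) 0 hw0 (by omega)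
  have h4 := div_add_le (w := w) (x := R) (y := R - 1 + w) 0 hw0 (by omega)
  have h5 := add_self_div (w := w) (R - 1) (by omega)
  have h6 := div_add_le (w := w) (x := -(R + 2)) (y := -R) 0 hw0 (by omega)
  have h7 := div_add_le (w := w) (x := -R) (y := -(R + 2) + w) 0 hw0 (by omega)
  have h8 := add_self_div (w := w) (-(R + 2)) (by omega)
  have h9 := div_add_le (w := w) (x := -R) (y := 0) 60 hw0 (by omega)
  rw [Int.zero_ediv] at h2 h9
  omega

theorem bdsO : 60 ≤ R / w ∧ R / w ≤ (R + 2) / w ∧ (R + 2) / w ≤ R / w + 1 := by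
  have hw0 : 0 < w := by omega
  have h1 := div_add_le (w := w) (x := 0) (y := R) 60 hw0 (by omega)
  have h2 := div_add_le (w := w) (x := R) (y := R + 2) 0 hw0 (by omega)
  have h3 := div_add_le (w := w) (x := R + 2) (y := R + w) 0 hw0 (by omega)
  rw [Int.zero_ediv] at h1
  rw [add_self_div _ (by omega)] at h3
  omega

end

/-- The cells which meet `BW R`. -/
def mkI (w R : ℤ) (hw : 3 ≤ w) (hR : 60 * w ≤ R) : Rc where
  a := (-(R + 2)) / w
  b := (R - 1) / w
  c := (-R) / w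
  d := (R - 1) / w
  ha := by have := bdsI hw hR; omega
  hb := by have := bdsI hw hR; omega
  hcd := by have := bdsI hw hR; omega

/-- The cells in `BW R` without the last eleven layers. -/
def mkO (w R : ℤ) (hw : 3 ≤ w) (hR : 60 * w ≤ R) : Rc where
  a := -((R + 2) / w) + 11
  b := R / w - 12
  c := -(R / w) + 11
  d := R / w - 12
  ha := by have := bdsO hw hR; omega
  hb := by have := bdsO hw hR; omega
  hcd := by have := bdsO hw hR; omega

variable {g : ℤ × ℤ}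

theorem le_div {y z : ℤ} (hw : 0 < w) : z ≤ y / w ↔ w * z ≤ y := by
  rw [Int.le_ediv_iff_mul_le hw, mul_comm]

theorem cout_iff (hw : 3 ≤ w) (hR : 60 * w ≤ R) : COut w R g ↔ 1 ≤ lay (mkI w R hw hR) g := by
  have hw0 : 0 < w := by omega
  unfold COut lay mkI
  simp only
  have e1 : R ≤ g.1 * w ↔ (R - 1) / w < g.1 := by
    rw [Int.ediv_lt_iff_lt_mul hw0]; omega
  have e2 : R ≤ g.2 * w ↔ (R - 1) / w < g.2 := by
    rw [Int.ediv_lt_iff_lt_mul hw0]; omega
  have e3 : (g.1 + 1) * w ≤ -(R + 2) ↔ g.1 + 1 ≤ (-(R + 2)) / w := by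
    rw [Int.le_ediv_iff_mul_le hw0]
  have e4 : (g.2 + 1) * w ≤ -R ↔ g.2 + 1 ≤ (-R) / w := by
    rw [Int.le_ediv_iff_mul_le hw0]
  rw [e1, e2, e3, e4]
  omega

theorem cin_iff (hw : 3 ≤ w) (hR : 60 * w ≤ R) : CIn w R g ↔ lay (mkO w R hw hR) g ≤ 11 := by
  have hw0 : 0 < w := by omega
  unfold CIn lay mkO
  simp only
  have e1 : -(R + 2) ≤ g.1 * w ↔ -g.1 ≤ (R + 2) / w := by
    rw [Int.le_ediv_iff_mul_le hw0, neg_mul]; omega
  have e2 : -R ≤ g.2 * w ↔ -g.2 ≤ R / w := by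
    rw [Int.le_ediv_iff_mul_le hw0, neg_mul]; omega
  have e3 : (g.1 + 1) * w ≤ R ↔ g.1 + 1 ≤ R / w := by
    rw [Int.le_ediv_iff_mul_le hw0]
  have e4 : (g.2 + 1) * w ≤ R ↔ g.2 + 1 ≤ R / w := by
    rw [Int.le_ediv_iff_mul_le hw0]
  rw [e1, e2, e3, e4]
  omega

/-- The six cases of the cell of a tip. -/
theorem tip_cases (hR : 0 ≤ R) (w t : ℤ) :
    (t < R ∧ tcell w R t = (R / w, t / w) ∧ tdir R t = (1, 0) ∧ tlin R t = t + 2 * R) ∨
    (R ≤ t ∧ t < 3 * R + 2 ∧ tcell w R t = ((2 * R - t - 1) / w, R / w) ∧ tdir R t = (0, 1) ∧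
      tlin R t = t + 2 * R) ∨
    (3 * R + 2 ≤ t ∧ t < 5 * R + 2 ∧ tcell w R t = ((-(R + 2)) / w, (4 * R + 1 - t) / w) ∧
      tdir R t = (-1, 0) ∧ tlin R t = t + 2 * R) ∨
    (5 * R + 2 ≤ t ∧ t < 6 * R + 3 ∧ tcell w R t = ((t - 6 * R - 4) / w, (-R) / w) ∧
      tdir R t = (0, -1) ∧ tlin R t = t + 2 * R) ∨
    (6 * R + 3 ≤ t ∧ t < 7 * R + 3 ∧ tcell w R t = ((t - 6 * R - 3) / w, (-R) / w) ∧
      tdir R t = (0, -1) ∧ tlin R t = t - (6 * R + 3)) ∨
    (7 * R + 3 ≤ t ∧ tcell w R t = (R / w, (t - 8 * R - 3) / w) ∧ tdir R t = (1, 0) ∧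
      tlin R t = t - (6 * R + 3)) := by
  unfold tcell tdir tlin
  rcases lt_or_ge t R with c1 | c1
  · left
    refine ⟨c1, ?_, ?_, ?_⟩
    · rw [if_pos c1]
    · rw [if_pos c1]
    · rw [if_neg (by omega)]
  right
  rcases lt_or_ge t (3 * R + 2) with c2 | c2
  · left
    refine ⟨c1, c2, ?_, ?_, ?_⟩
    · rw [if_neg (by omega), if_pos c2]
    · rw [if_neg (by omega), if_pos c2]
    · rw [if_neg (by omega)]
  right
  rcases lt_or_ge t (5 * R + 2) with c3 | c3
  · left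
    refine ⟨c2, c3, ?_, ?_, ?_⟩
    · rw [if_neg (by omega), if_neg (by omega), if_pos c3]
    · rw [if_neg (by omega), if_neg (by omega), if_pos c3]
    · rw [if_neg (by omega)]
  right
  rcases lt_or_ge t (6 * R + 3) with c4 | c4
  · left
    refine ⟨c3, c4, ?_, ?_, ?_⟩
    · rw [if_neg (by omega), if_neg (by omega), if_neg (by omega), if_pos c4]
    · rw [if_neg (by omega), if_neg (by omega), if_neg (by omega), if_pos (by omega)]
    · rw [if_neg (by omega)]
  right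
  rcases lt_or_ge t (7 * R + 3) with c5 | c5
  · left
    refine ⟨c4, c5, ?_, ?_, ?_⟩
    · rw [if_neg (by omega), if_neg (by omega), if_neg (by omega), if_neg (by omega), if_pos c5]
    · rw [if_neg (by omega), if_neg (by omega), if_neg (by omega), if_pos (by omega)]
    · rw [if_pos (by omega)]
  · right
    refine ⟨c5, ?_, ?_, ?_⟩
    · rw [if_neg (by omega), if_neg (by omega), if_neg (by omega), if_neg (by omega),
        if_neg (by omega)]
    · rw [if_neg (by omega), if_neg (by omega), if_neg (by omega), if_neg (by omega)]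
    · rw [if_pos (by omega)]

/-- The position of the outer port. -/
theorem posI (hw : 3 ≤ w) (hR : 60 * w ≤ R) (h0 : 0 ≤ t) (h1 : t < 8 * R + 3)
    (ha : Away R (20 * w) t) : PosAt (mkI w R hw hR) w R (tlin R t) (oport w R t) ∧
      1 ≤ lay (mkI w R hw hR) (oport w R t) ∧ lay (mkI w R hw hR) (oport w R t) ≤ 2 ∧
      lay (mkI w R hw hR) (tcell w R t) < lay (mkI w R hw hR) (oport w R t) := by
  have hw0 : 0 < w := by omega
  obtain ⟨a1, a2, a3, a4, a5⟩ := away_le ha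
  obtain ⟨b1, b2, b3, b4, b5, b6, b7⟩ := bdsI hw hR
  unfold oport
  rcases tip_cases (by omega : 0 ≤ R) w t with ⟨c1, q1, q2, q3⟩ | ⟨c0, c1, q1, q2, q3⟩ |
    ⟨c0, c1, q1, q2, q3⟩ | ⟨c0, c1, q1, q2, q3⟩ | ⟨c0, c1, q1, q2, q3⟩ | ⟨c1, q1, q2, q3⟩ <;>
    rw [q1, q2, q3] <;> unfold PosAt lay mkI <;>
    simp only [Prod.fst_add, Prod.snd_add, add_zero]
  · have e1 := div_lo t hw0
    have e2 := div_add_le (w := w) (x := t) (y := R - 1) 5 hw0 (by omega)
    have e3 := div_add_le (w := w) (x := -R) (y := t) 5 hw0 (by omega)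
    omega
  · have e1 := div_lo (2 * R - t - 1) hw0
    have e2 := div_add_le (w := w) (x := 2 * R - t - 1) (y := R - 1) 5 hw0 (by omega)
    have e3 := div_add_le (w := w) (x := -(R + 2)) (y := 2 * R - t - 1) 5 hw0 (by omega)
    omega
  · have e1 := div_lo (4 * R + 1 - t) hw0
    have e2 := div_add_le (w := w) (x := 4 * R + 1 - t) (y := R - 1) 5 hw0 (by omega)
    have e3 := div_add_le (w := w) (x := -R) (y := 4 * R + 1 - t) 5 hw0 (by omega)
    omega
  · have e1 := div_lo (t - 6 * R - 4) hw0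
    have e2 := div_add_le (w := w) (x := t - 6 * R - 4) (y := 0) 5 hw0 (by omega)
    have e3 := div_add_le (w := w) (x := -(R + 2)) (y := t - 6 * R - 4) 5 hw0 (by omega)
    rw [Int.zero_ediv] at e2
    omega
  · have e1 := div_lo (t - 6 * R - 3) hw0
    have e2 := div_add_le (w := w) (x := t - 6 * R - 3) (y := R - 1) 5 hw0 (by omega)
    have e3 := div_add_le (w := w) (x := 0) (y := t - 6 * R - 3) 5 hw0 (by omega)
    rw [Int.zero_ediv] at e3
    omega
  · have e1 := div_lo (t - 8 * R - 3) hw0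
    have e2 := div_add_le (w := w) (x := t - 8 * R - 3) (y := R - 1) 5 hw0 (by omega)
    have e3 := div_add_le (w := w) (x := -R) (y := t - 8 * R - 3) 5 hw0 (by omega)
    omega

/-- The position of the inner port. -/
theorem posO (hw : 3 ≤ w) (hR : 60 * w ≤ R) (h0 : 0 ≤ t) (h1 : t < 8 * R + 3)
    (ha : Away R (20 * w) t) : PosAt (mkO w R hw hR) w R (tlin R t) (iport w R t) ∧
      10 ≤ lay (mkO w R hw hR) (iport w R t) ∧ lay (mkO w R hw hR) (iport w R t) ≤ 11 ∧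
      lay (mkO w R hw hR) (iport w R t) < lay (mkO w R hw hR) (tcell w R t) := by
  have hw0 : 0 < w := by omega
  obtain ⟨a1, a2, a3, a4, a5⟩ := away_le ha
  obtain ⟨b4, b5, b6⟩ := bdsO hw hR
  have n1 := neg_div_bd R hw0
  have n2 := neg_div_bd (R + 2) hw0
  unfold iport
  rcases tip_cases (by omega : 0 ≤ R) w t with ⟨c1, q1, q2, q3⟩ | ⟨c0, c1, q1, q2, q3⟩ |
    ⟨c0, c1, q1, q2, q3⟩ | ⟨c0, c1, q1, q2, q3⟩ | ⟨c0, c1, q1, q2, q3⟩ | ⟨c1, q1, q2, q3⟩ <;>
    rw [q1, q2, q3] <;> unfold PosAt lay mkO <;>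
    simp only [Prod.fst_sub, Prod.snd_sub, sub_zero]
  · have e1 := div_lo t hw0
    have e2 := div_add_le (w := w) (x := t) (y := R) 19 hw0 (by omega)
    have e3 := div_add_le (w := w) (x := -R) (y := t) 19 hw0 (by omega)
    omega
  · have e1 := div_lo (2 * R - t - 1) hw0
    have e2 := div_add_le (w := w) (x := 2 * R - t - 1) (y := R) 19 hw0 (by omega)
    have e3 := div_add_le (w := w) (x := -(R + 2)) (y := 2 * R - t - 1) 18 hw0 (by omega)
    omega
  · have e1 := div_lo (4 * R + 1 - t) hw0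
    have e2 := div_add_le (w := w) (x := 4 * R + 1 - t) (y := R) 18 hw0 (by omega)
    have e3 := div_add_le (w := w) (x := -R) (y := 4 * R + 1 - t) 18 hw0 (by omega)
    omega
  · have e1 := div_lo (t - 6 * R - 4) hw0
    have e2 := div_add_le (w := w) (x := t - 6 * R - 4) (y := 0) 5 hw0 (by omega)
    have e3 := div_add_le (w := w) (x := -(R + 2)) (y := t - 6 * R - 4) 18 hw0 (by omega)
    rw [Int.zero_ediv] at e2
    omega
  · have e1 := div_lo (t - 6 * R - 3) hw0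
    have e2 := div_add_le (w := w) (x := t - 6 * R - 3) (y := R) 19 hw0 (by omega)
    have e3 := div_add_le (w := w) (x := 0) (y := t - 6 * R - 3) 5 hw0 (by omega)
    rw [Int.zero_ediv] at e3
    omega
  · have e1 := div_lo (t - 8 * R - 3) hw0
    have e2 := div_add_le (w := w) (x := t - 8 * R - 3) (y := R) 19 hw0 (by omega)
    have e3 := div_add_le (w := w) (x := -R) (y := t - 8 * R - 3) 19 hw0 (by omega)
    omega

end Pool.Agent.Perc.Rt
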