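import Pool.Agent.Lib.MP_6bd702_perc3.S2Defs
import Pool.Agent.Lib.MP_6bd702_perc3.TwE
import Pool.Agent.Lib.MP_6bd702_perc.Prob
import Pool.Agent.Lib.MP_6bd702_percw.CoreA

/-!
# The three legs of the core: upper bound and separated tips (S2, final recursion)
-/

set_option autoImplicit false

namespace Pool.Agent.Perc.Q

open Finset Pool.Agent.Perc

/-- Close tips cost a small factor at the next scale. -/
def CloseOut : Prop := ∀ q : ℝ, 0 < q → ∃ M : ℕ, 0 < M ∧ ∀ g R : ℕ, 1 ≤ g → M * g ≤ R →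
  pr (BW ((2 * R : ℕ) : ℤ)) (Arm3 ((2 * R : ℕ) : ℤ) ∩ Close3 R g) ≤ q * pr (BW R) (Arm3 R)

/-- A tip near a special position costs a small factor from the previous scale. -/
def SpecOut : Prop := ∀ q : ℝ, 0 < q → ∃ M : ℕ, 0 < M ∧ ∀ g R : ℕ, 1 ≤ g → M * g ≤ R →
  pr (BW R) (Arm3 R ∩ Spec3 R g) ≤ q * pr (BW ((R / 2 : ℕ) : ℤ)) (Arm3 ((R / 2 : ℕ) : ℤ))

/-- Gluing with the cylinder. -/
def Glue3 : Prop := ∀ K : ℕ, ∃ C : ℝ, 0 < C ∧ ∀ g R : ℕ, 1 ≤ g → 1 ≤ R → R ≤ K * g →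
  pr (BW R) (Sep3 R g) ≤ C * (R : ℝ) ^ (-(2 / 3 : ℝ))

/-- The three legs have three different tips. -/
def Tips3 : Prop := ∀ R : ℕ, 1 ≤ R → ∀ ω ∈ Arm3 R, ∃ t : Fin 3 → ℤ, (∀ i, IsTip R ω (t i)) ∧
  t 0 < t 1 ∧ t 1 < t 2

/-- Monotonicity. -/
def Arm3Anti : Prop := ∀ R R' : ℕ, 1 ≤ R → R ≤ R' → ∀ ω ∈ Arm3 R', ω ∈ Arm3 R

theorem BW_sub {R R' : ℤ} (h : R ≤ R') : BW R ⊆ BW R' := by
  intro f hf
  unfold BW at hf ⊢
  rw [mem_union, mem_RF, mem_RF] at hf ⊢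
  omega

theorem isTip_congr {R : ℤ} {ω ω' : Cfg} (h : ∀ f ∈ (BW R : Set (ℤ × ℤ)), ω f = ω' f) (t : ℤ) :
    IsTip R ω t ↔ IsTip R ω' t := by
  unfold IsTip
  refine and_congr Iff.rfl (and_congr Iff.rfl (exists_congr fun i => ?_))
  rw [Orb_congr (ω := ω) (ω' := ω') (e := leg i) fun f hf => h f (Vis_sub hf)]

theorem depOn_close3 (R g : ℤ) : DepOn (BW R : Set (ℤ × ℤ)) (Close3 R g) := by
  intro ω ω' h
  unfold Close3
  simp only [Set.mem_ofPred_eq, isTip_congr h]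

theorem depOn_spec3 (R g : ℤ) : DepOn (BW R : Set (ℤ × ℤ)) (Spec3 R g) := by
  intro ω ω' h
  unfold Spec3
  simp only [Set.mem_ofPred_eq, isTip_congr h]

theorem depOn_sep3 (R g : ℤ) : DepOn (BW R : Set (ℤ × ℤ)) (Sep3 R g) := by
  intro ω ω' h
  unfold Sep3
  simp only [Set.mem_ofPred_eq, isTip_congr h]

theorem sep3_anti {R g g' : ℤ} (h : g ≤ g') : ∀ ω ∈ Sep3 R g', ω ∈ Sep3 R g := by
  rintro ω ⟨t, h1, h2, h3⟩
  exact ⟨t, fun i => ⟨(h1 i).1, fun z hz => h.trans ((h1 i).2 z hz)⟩, by omega, by omega⟩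

/-- The probability of the three legs. -/
noncomputable def q3 (R : ℕ) : ℝ := pr (BW R) (Arm3 R)

theorem q3_nonneg (R : ℕ) : 0 ≤ q3 R := pr_nonneg _ _

theorem q3_le_one (R : ℕ) : q3 R ≤ 1 := pr_le_one _ _

theorem depOn_arm3' (R : ℤ) : DepOn (BW R : Set (ℤ × ℤ)) (Arm3 R) := TwE.depOn_arm3 R

theorem q3_anti (hA : Arm3Anti) {R R' : ℕ} (hR : 1 ≤ R) (h : R ≤ R') : q3 R' ≤ q3 R := by
  unfold q3
  rw [← pr_eq_of_depOn (depOn_arm3' (R : ℤ)) (BW_sub (R := R) (R' := R') (by exact_mod_cast h))]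
  exact pr_mono _ (hA R R' hR h)

/-- The three cases. -/
theorem cases3 (hT : Tips3) {R : ℕ} (hR : 1 ≤ R) {g : ℤ} {ω : Cfg}
    (hω : ω ∈ Arm3 R) :
    ω ∈ Close3 R g ∨ ω ∈ Spec3 R g ∨ ω ∈ Sep3 R g := by
  obtain ⟨t, h1, h2, h3⟩ := hT R hR ω hω
  by_cases hc : ω ∈ Close3 R g
  · exact Or.inl hc
  by_cases hs : ω ∈ Spec3 R g
  · exact Or.inr (Or.inl hs)
  refine Or.inr (Or.inr ⟨t, fun i => ⟨h1 i, ?_⟩, ?_, ?_⟩)
  · by_contra hcon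
    exact hs ⟨t i, h1 i, hcon⟩
  · by_contra hcon
    refine hc ⟨t 0, t 1, h1 0, h1 1, by omega, Or.inl ?_⟩
    rw [abs_lt]
    omega
  · by_contra hcon
    refine hc ⟨t 1, t 2, h1 1, h1 2, by omega, Or.inl ?_⟩
    rw [abs_lt]
    omega

/-- One step. -/
theorem step3 (h1 : CloseOut) (h2 : SpecOut) (hT : Tips3) (hA : Arm3Anti) {q : ℝ} (hq : 0 < q) :
    ∃ M : ℕ, 0 < M ∧ ∀ g R : ℕ, 1 ≤ g → M * g ≤ R →
      q3 (2 * R) ≤ 2 * q * q3 (R / 2) + pr (BW R) (Sep3 R g) := by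
  obtain ⟨M₁, hM₁, hc⟩ := h1 q hq
  obtain ⟨M₂, hM₂, hs⟩ := h2 q hq
  refine ⟨M₁ + M₂ + 2, by omega, fun g R hg hR => ?_⟩
  have hR1 : M₁ * g ≤ R := by nlinarith
  have hR2 : M₂ * g ≤ R := by nlinarith
  have hR3 : 2 * g ≤ R := by nlinarith
  have c1 := hc g R hg hR1
  have c2 := hs g R hg hR2
  have e1 : pr (BW ((2 * R : ℕ) : ℤ)) (Arm3 (R : ℤ) ∩ Spec3 R g) =
      pr (BW R) (Arm3 R ∩ Spec3 R g) := by
    refine pr_eq_of_depOn ?_ (BW_sub (by push_cast; omega))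
    intro ω ω' h
    exact and_congr (depOn_arm3' R ω ω' h) (depOn_spec3 R g ω ω' h)
  have e2 : pr (BW ((2 * R : ℕ) : ℤ)) (Sep3 R g) = pr (BW R) (Sep3 R g) :=
    pr_eq_of_depOn (depOn_sep3 R g) (BW_sub (by push_cast; omega))
  have c3 : q3 (2 * R) ≤ pr (BW ((2 * R : ℕ) : ℤ)) (Arm3 ((2 * R : ℕ) : ℤ) ∩ Close3 R g) +
      (pr (BW ((2 * R : ℕ) : ℤ)) (Arm3 (R : ℤ) ∩ Spec3 R g) +
        pr (BW ((2 * R : ℕ) : ℤ)) (Sep3 R g)) := by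
    refine le_trans ?_ (add_le_add (le_refl _) (pr_union_le _ _ _))
    refine le_trans ?_ (pr_union_le _ _ _)
    refine pr_mono _ fun ω hω => ?_
    have hω' : ω ∈ Arm3 (R : ℤ) := hA R (2 * R) (by omega) (by omega) ω hω
    rcases cases3 hT (R := R) (by omega) (g := g) hω' with h | h | h
    · exact Or.inl ⟨hω, h⟩
    · exact Or.inr (Or.inl ⟨hω', h⟩)
    · exact Or.inr (Or.inr h)
  rw [e1, e2] at c3
  have c4 : q3 R ≤ q3 (R / 2) := q3_anti hA (by omega) (by omega)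
  have c5 : q * pr (BW R) (Arm3 R) ≤ q * q3 (R / 2) := mul_le_mul_of_nonneg_left c4 hq.le
  change _ ≤ q * q3 (R / 2) at c2
  linarith

/-- Lower bound from the exact formula. -/
theorem q3_lower {R : ℕ} (hR : 1 ≤ R) : 1 / 6 * (R : ℝ) ^ (-(2 / 3 : ℝ)) ≤ q3 R := by
  have h1 := p3v_le_arm3 (m := R + 1) (by omega)
  have h2 := Num3.p3v_lower_rpow (R + 1) (by omega)
  have e : (((R + 1 : ℕ) : ℤ) - 1) = (R : ℤ) := by push_cast; ring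
  rw [e] at h1
  refine le_trans ?_ (h2.trans h1)
  have hpos : (0 : ℝ) < R := by exact_mod_cast hR
  have h3 : ((R + 1 : ℕ) : ℝ) ≤ 2 * R := by
    push_cast
    have : (1 : ℝ) ≤ R := by exact_mod_cast hR
    linarith
  have h4 : (2 * (R : ℝ)) ^ (-(2 / 3) : ℝ) ≤ ((R + 1 : ℕ) : ℝ) ^ (-(2 / 3) : ℝ) :=
    Real.rpow_le_rpow_of_nonpos (by positivity) h3 (by norm_num)
  have h5 : (2 * (R : ℝ)) ^ (-(2 / 3) : ℝ) = (2 : ℝ) ^ (-(2 / 3) : ℝ) * (R : ℝ) ^ (-(2 / 3) : ℝ) :=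
    Real.mul_rpow (by norm_num) hpos.le
  have h6 : (1 / 2 : ℝ) ≤ (2 : ℝ) ^ (-(2 / 3) : ℝ) := by
    have : (2 : ℝ) ^ (-1 : ℝ) ≤ (2 : ℝ) ^ (-(2 / 3) : ℝ) :=
      Real.rpow_le_rpow_of_exponent_le (by norm_num) (by norm_num)
    rw [Real.rpow_neg_one] at this
    linarith
  have h7 : 0 ≤ (R : ℝ) ^ (-(2 / 3) : ℝ) := Real.rpow_nonneg hpos.le _
  nlinarith

theorem rpow_scale {R n : ℕ} (hR : 1 ≤ R) (hn : 1 ≤ n) (h : R ≤ 8 * n) :
    (n : ℝ) ^ (-(2 / 3) : ℝ) ≤ 4 * (R : ℝ) ^ (-(2 / 3) : ℝ) := by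
  have hR0 : (0 : ℝ) < R := by exact_mod_cast hR
  have hn0 : (0 : ℝ) < n := by exact_mod_cast hn
  have h1 : (8 * (n : ℝ)) ^ (-(2 / 3) : ℝ) ≤ (R : ℝ) ^ (-(2 / 3) : ℝ) :=
    Real.rpow_le_rpow_of_nonpos hR0 (by exact_mod_cast h) (by norm_num)
  rw [Real.mul_rpow (by norm_num) hn0.le] at h1
  have h2 : (8 : ℝ) ^ (-(2 / 3) : ℝ) = 1 / 4 := by
    have e : (8 : ℝ) = (2 : ℝ) ^ (3 : ℝ) := by norm_num
    rw [e, ← Real.rpow_mul (by norm_num)]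
    have e2 : (3 : ℝ) * (-(2 / 3)) = -2 := by norm_num
    rw [e2, Real.rpow_neg (by norm_num)]
    norm_num
  rw [h2] at h1
  linarith

/-- Upper bound for the three legs of the core. -/
theorem q3_upper (h1 : CloseOut) (h2 : SpecOut) (h3 : Glue3) (hT : Tips3) (hA : Arm3Anti) :
    ∃ C : ℝ, 0 < C ∧ ∀ R : ℕ, 1 ≤ R → q3 R ≤ C * (R : ℝ) ^ (-(2 / 3 : ℝ)) := by
  obtain ⟨M, hM, hstep⟩ := step3 h1 h2 hT hA (q := 1 / 16) (by norm_num)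
  obtain ⟨C, hC, hglue⟩ := h3 (2 * M)
  set N : ℕ := 4 * M + 8 with hN
  set K : ℝ := max (32 * C) ((N : ℝ) ^ (2 / 3 : ℝ)) with hK
  have hK0 : 0 < K := lt_of_lt_of_le (by positivity) (le_max_left _ _)
  refine ⟨K, hK0, fun R => ?_⟩
  induction R using Nat.strong_induction_on with
  | _ R ih =>
    intro hR
    have hRpos : (0 : ℝ) < R := by exact_mod_cast hR
    by_cases hsmall : R < N
    · refine (q3_le_one R).trans ?_
      have k1 : (N : ℝ) ^ (2 / 3 : ℝ) ≤ K := le_max_right _ _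
      have k2 : (R : ℝ) ^ (2 / 3 : ℝ) ≤ (N : ℝ) ^ (2 / 3 : ℝ) :=
        Real.rpow_le_rpow hRpos.le (by exact_mod_cast hsmall.le) (by norm_num)
      have k3 : 0 < (R : ℝ) ^ (2 / 3 : ℝ) := Real.rpow_pos_of_pos hRpos _
      rw [Real.rpow_neg hRpos.le, ← div_eq_mul_inv, le_div_iff₀ k3]
      linarith
    · set R' := R / 2 with hR'
      have hMR : M ≤ R' := by omega
      set g := R' / M with hg
      have hg1 : 1 ≤ g := (Nat.one_le_div_iff hM).2 hMR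
      have hgR : M * g ≤ R' := Nat.mul_div_le R' M
      have hgR2 : R' ≤ 2 * M * g := by
        have : R' < M * (g + 1) := Nat.lt_mul_div_succ R' hM
        nlinarith
      have k1 := hstep g R' hg1 hgR
      have k2 := hglue g R' hg1 (by omega) hgR2
      have k3 := ih (R' / 2) (by omega) (by omega)
      have k4 := rpow_scale (R := R) (n := R' / 2) hR (by omega) (by omega)
      have k5 := rpow_scale (R := R) (n := R') hR (by omega) (by omega)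
      have k6 : q3 R ≤ q3 (2 * R') := q3_anti hA (by omega) (by omega)
      have k7 : 32 * C ≤ K := le_max_left _ _
      have k8 : 0 ≤ (R : ℝ) ^ (-(2 / 3) : ℝ) := Real.rpow_nonneg hRpos.le _
      have k9 : K * ((R' / 2 : ℕ) : ℝ) ^ (-(2 / 3) : ℝ) ≤ K * (4 * (R : ℝ) ^ (-(2 / 3) : ℝ)) :=
        mul_le_mul_of_nonneg_left k4 hK0.le
      have k10 : C * (R' : ℝ) ^ (-(2 / 3) : ℝ) ≤ C * (4 * (R : ℝ) ^ (-(2 / 3) : ℝ)) :=
        mul_le_mul_of_nonneg_left k5 hC.le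
      have k11 : 32 * C * (R : ℝ) ^ (-(2 / 3) : ℝ) ≤ K * (R : ℝ) ^ (-(2 / 3) : ℝ) :=
        mul_le_mul_of_nonneg_right k7 k8
      have k12 : 2 * (1 / 16) * q3 (R' / 2) ≤
          2 * (1 / 16) * (K * ((R' / 2 : ℕ) : ℝ) ^ (-(2 / 3) : ℝ)) :=
        mul_le_mul_of_nonneg_left k3 (by norm_num)
      nlinarith

/-- Lower bound for three legs with separated tips. -/
theorem sep3_lower (h1 : CloseOut) (h2 : SpecOut) (h3 : Glue3) (hT : Tips3) (hA : Arm3Anti) :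
    ∃ (M : ℕ) (c : ℝ), 0 < M ∧ 0 < c ∧ ∀ g R : ℕ, 1 ≤ g → M * g ≤ R →
      c * (R : ℝ) ^ (-(2 / 3 : ℝ)) ≤ pr (BW R) (Sep3 R g) := by
  obtain ⟨C, hC, hup⟩ := q3_upper h1 h2 h3 hT hA
  obtain ⟨M, hM, hstep⟩ := step3 h1 h2 hT hA (q := 1 / (384 * C)) (by positivity)
  refine ⟨M + 2, 1 / 48, by omega, by norm_num, fun g R hg hR => ?_⟩
  have hR1 : M * g ≤ R := by nlinarith
  have hR2 : 2 ≤ R := by nlinarith
  have k1 := hstep g R hg hR1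
  have k2 := q3_lower (R := 2 * R) (by omega)
  have k3 := hup (R / 2) (by omega)
  have k4 := rpow_scale (R := R) (n := R / 2) (by omega) (by omega) (by omega)
  have k5 := rpow_scale (R := 2 * R) (n := R) (by omega) (by omega) (by omega)
  have hRpos : (0 : ℝ) < R := by exact_mod_cast (by omega : 0 < R)
  have k8 : 0 ≤ (R : ℝ) ^ (-(2 / 3) : ℝ) := Real.rpow_nonneg hRpos.le _
  have k9 : q3 (R / 2) ≤ C * (4 * (R : ℝ) ^ (-(2 / 3) : ℝ)) :=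
    k3.trans (mul_le_mul_of_nonneg_left k4 hC.le)
  have k10 : 2 * (1 / (384 * C)) * q3 (R / 2) ≤
      2 * (1 / (384 * C)) * (C * (4 * (R : ℝ) ^ (-(2 / 3) : ℝ))) :=
    mul_le_mul_of_nonneg_left k9 (by positivity)
  have e : 2 * (1 / (384 * C)) * (C * (4 * (R : ℝ) ^ (-(2 / 3) : ℝ))) =
      1 / 48 * (R : ℝ) ^ (-(2 / 3) : ℝ) := by
    field_simp
    ring
  rw [e] at k10
  linarith

end Pool.Agent.Perc.Q
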