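import Pool.Agent.Lib.MP_6bd702_perc3.STDefs
import Pool.Agent.Lib.MP_6bd702_perq.SHatA

/-!
# The three-leg sums: values, degrees, symmetry (task STA)

Exchange: multiply `exchangeM` (perq/PsiMA) and `exchangeO`; model: the symmetry of `SH` in
perq/SHatA.lean.
-/

set_option autoImplicit false

namespace Pool.Agent.Perc

open Finset MvPolynomial

variable {q : ℂ} {m : ℕ}

theorem eval_SS3 (q : ℂ) (m : ℕ) (w : ℕ → ℂ) :
    eval w (SS3 q m) = V3 (2 * m) (PsiMV q m w) (PsiOV q (m + 1) w) := by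
  unfold SS3 V3
  rw [map_sum]
  refine sum_congr rfl fun s hs => ?_
  rw [map_sum]
  refine sum_congr rfl fun p hp => ?_
  have hp' : NCO (2 * (m + 1) + 1) p := mem_nco.1 hp
  rw [map_mul, map_mul, eval_C, PsiMV_apply w (mem_anns.1 hs), PsiOV_apply w hp']
  ring

theorem eval_TT2 (q : ℂ) (m : ℕ) (w : ℕ → ℂ) :
    eval w (TT2 q (m + 1)) =
      V2 (2 * m + 1) (PsiMV q (m + 1) w) (PsiOV q (m + 1) (skip1 (2 * m + 1) w)) := by
  unfold V2
  show eval w (∑ s ∈ anns (2 * m + 2), ∑ p ∈ nco (2 * m + 3), C (B2 (2 * m + 1) s p) *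
      PsiM q (m + 1) s * rename (fun k => if k < 2 * m + 1 then k else k + 1) (PsiO q (m + 1) p)) =
    ∑ s ∈ anns (2 * m + 2), ∑ p ∈ nco (2 * m + 3), _
  rw [map_sum]
  refine sum_congr rfl fun s hs => ?_
  rw [map_sum]
  refine sum_congr rfl fun p hp => ?_
  have hp' : NCO (2 * (m + 1) + 1) p := mem_nco.1 hp
  have hs' : IsAnn (2 * (m + 1)) s := mem_anns.1 hs
  have hw : (w ∘ fun k => if k < 2 * m + 1 then k else k + 1) = skip1 (2 * m + 1) w := by
    funext k
    unfold skip1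
    show w (if k < 2 * m + 1 then k else k + 1) = _
    split_ifs <;> rfl
  rw [map_mul, map_mul, eval_C, eval_rename, hw, PsiMV_apply w hs', PsiOV_apply _ hp']
  ring

namespace STA

theorem degreeOf_PsiM_le (q : ℂ) (m k : ℕ) (s : St) : (PsiM q m s).degreeOf k ≤ 2 * m - 1 :=
  SHatA.degreeOf_recP_le _ fun _ => le_rfl

theorem degreeOf_PsiM_out (q : ℂ) (m : ℕ) {k : ℕ} (hk : 2 * m ≤ k) (s : St) :
    (PsiM q m s).degreeOf k ≤ 0 :=
  SHatA.degreeOf_recP_le _ fun h => absurd h (by omega)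

theorem degreeOf_rename_zero {f : ℕ → ℕ} {k : ℕ} (hf : ∀ x, f x ≠ k) (P : MvPolynomial ℕ ℂ) :
    (rename f P).degreeOf k ≤ 0 := by
  rw [degreeOf_eq_sup]
  refine Finset.sup_le fun d hd => ?_
  obtain ⟨u, hu, _⟩ := coeff_rename_ne_zero f P d (mem_support_iff.1 hd)
  rw [← hu, Finsupp.mapDomain_of_notMem_range]
  rintro ⟨x, hx⟩
  exact hf x hx

/-- `PsiMV` depends only on the first `2 m` variables. -/
theorem PsiMV_congr (q : ℂ) (m : ℕ) {z z' : ℕ → ℂ} (h : ∀ k < 2 * m, z k = z' k) :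
    PsiMV q m z = PsiMV q m z' := by
  unfold PsiMV
  refine sum_congr rfl fun s hs => ?_
  congr 1
  rw [eval_eq, eval_eq]
  refine Finset.sum_congr rfl fun d hd => ?_
  congr 1
  refine Finset.prod_congr rfl fun k hk => ?_
  rw [h k]
  by_contra hk'
  have h1 := degreeOf_PsiM_out q m (k := k) (by omega) s
  have h2 := monomial_le_degreeOf k hd
  rw [Finsupp.mem_support_iff] at hk
  omega

/-- Symmetry of a polynomial from the exchange relations. -/
theorem symm_of_exch (hq : q ^ 2 + q + 1 = 0) (P : MvPolynomial ℕ ℂ) {i : ℕ}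
    (h : ∀ w : ℕ → ℂ, ((q * w i - q ^ 2 * w (i + 1)) * (q * w (i + 1) - q ^ 2 * w i)) *
      (eval (swapV i w) P - eval w P) = 0) (z : ℕ → ℂ) :
    eval (swapV i z) P = eval z P := by
  have key : ∀ w : ℕ → ℂ, eval (swapV i w) P =
      eval w (rename (Equiv.swap i (i + 1)) P) := by
    intro w
    rw [eval_rename]
    rfl
  have hp : ((C q * X i - C (q ^ 2) * X (i + 1)) * (C q * X (i + 1) - C (q ^ 2) * X i)) *
      (rename (Equiv.swap i (i + 1)) P - P) = 0 := by
    refine MvPolynomial.funext fun w => ?_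
    have h := h w
    rw [key] at h
    simp only [map_mul, map_sub, eval_C, eval_X, map_zero]
    exact h
  have hne : (C q * X (i + 1) - C (q ^ 2) * X i : MvPolynomial ℕ ℂ) ≠ 0 := by
    intro h0
    have h1 := congrArg (eval fun k => if k = i then (1 : ℂ) else 0) h0
    rw [map_sub, map_mul, map_mul, eval_C, eval_C, eval_X, eval_X, map_zero, if_pos rfl,
      if_neg (by omega : ¬ i + 1 = i), mul_zero, zero_sub, mul_one, neg_eq_zero] at h1
    exact pow_ne_zero 2 (SHatA.q_ne hq) h1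
  have hne' : (C q * X i - C (q ^ 2) * X (i + 1) : MvPolynomial ℕ ℂ) ≠ 0 := by
    intro h0
    have h1 := congrArg (eval fun k => if k = i then (1 : ℂ) else 0) h0
    rw [map_sub, map_mul, map_mul, eval_C, eval_C, eval_X, eval_X, map_zero, if_pos rfl,
      if_neg (by omega : ¬ i + 1 = i), mul_zero, sub_zero, mul_one] at h1
    exact (SHatA.q_ne hq) h1
  have h2 := sub_eq_zero.1 ((mul_eq_zero.1 hp).resolve_left (mul_ne_zero hne' hne))
  rw [key, h2]

/-- The exchange relations of the two factors give the exchange relation of the form. -/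
theorem exch_form (hq : q ^ 2 + q + 1 = 0)
    (V : (St →₀ ℂ) → ((ℕ → ℕ) →₀ ℂ) → ℂ)
    (al : ∀ f f' g, V (f + f') g = V f g + V f' g) (ar : ∀ f g g', V f (g + g') = V f g + V f g')
    (sl : ∀ c f g, V (c • f) g = c * V f g) (sr : ∀ (c : ℂ) f g, V f (c • g) = c * V f g)
    {f f₁ ef : St →₀ ℂ} {g g₁ eg : (ℕ → ℕ) →₀ ℂ} {a b : ℂ}
    (h1 : (q * a - q ^ 2 * b) • f₁ = (q * b - q ^ 2 * a) • f - (a - b) • ef)
    (h2 : (q * b - q ^ 2 * a) • g₁ = (q * a - q ^ 2 * b) • g + (a - b) • eg)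
    (e1 : V ef g = V f eg) (e2 : V ef eg = V f eg) :
    ((q * a - q ^ 2 * b) * (q * b - q ^ 2 * a)) * (V f₁ g₁ - V f g) = 0 := by
  have h3 : (q * a - q ^ 2 * b) * ((q * b - q ^ 2 * a) * V f₁ g₁) =
      V ((q * a - q ^ 2 * b) • f₁) ((q * b - q ^ 2 * a) • g₁) := by
    rw [sl, sr]
  have h1' : (q * a - q ^ 2 * b) • f₁ = (q * b - q ^ 2 * a) • f + (-(a - b)) • ef := by
    rw [h1, neg_smul, ← sub_eq_add_neg]
  rw [h1', h2, al, ar, ar, sl, sl, sl, sl, sr, sr, sr, sr, e1, e2] at h3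
  rw [mul_sub, mul_assoc, h3]
  linear_combination (-(V f eg * (a - b) * (a - b))) * hq

theorem suppO_mapDomain {M N : ℕ} {g : (ℕ → ℕ) →₀ ℂ} (hg : SuppO N g) {φ : (ℕ → ℕ) → ℕ → ℕ}
    (hφ : ∀ p, NCO N p → NCO M (φ p)) : SuppO M (g.mapDomain φ) := by
  classical
  intro p hp
  have h1 : p ∈ (g.mapDomain φ).support := Finsupp.mem_support_iff.2 hp
  obtain ⟨t, ht, rfl⟩ := Finset.mem_image.1 (Finsupp.mapDomain_support h1)
  exact hφ t (hg t (Finsupp.mem_support_iff.1 ht))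

theorem swapV_left (i : ℕ) (w : ℕ → ℂ) : swapV i w i = w (i + 1) := by
  unfold swapV; rw [Equiv.swap_apply_left]

theorem swapV_right (i : ℕ) (w : ℕ → ℂ) : swapV i w (i + 1) = w i := by
  unfold swapV; rw [Equiv.swap_apply_right]

theorem swapV_other {i k : ℕ} (w : ℕ → ℂ) (h1 : k ≠ i) (h2 : k ≠ i + 1) : swapV i w k = w k := by
  unfold swapV; rw [Equiv.swap_apply_of_ne_of_ne h1 h2]

theorem skip1_swapV {i j : ℕ} (hij : i + 1 < j) (w : ℕ → ℂ) :
    skip1 j (swapV i w) = swapV i (skip1 j w) := by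
  funext k
  by_cases h1 : k = i
  · subst h1
    rw [swapV_left]
    unfold skip1
    rw [if_pos (by omega), if_pos hij, swapV_left]
  · by_cases h2 : k = i + 1
    · subst h2
      rw [swapV_right]
      unfold skip1
      rw [if_pos hij, if_pos (by omega), swapV_right]
    · rw [swapV_other _ h1 h2]
      unfold skip1
      by_cases h3 : k < j
      · rw [if_pos h3, if_pos h3, swapV_other _ h1 h2]
      · rw [if_neg h3, if_neg h3, swapV_other _ (by omega) (by omega)]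

end STA

open STA

theorem degreeOf_SS3 (hq : q ^ 2 + q + 1 = 0) (m : ℕ) :
    (SS3 q (m + 1)).degreeOf (2 * m + 2) ≤ 2 * m + 4 := by
  unfold SS3
  refine (degreeOf_sum_le _ _ _).trans (Finset.sup_le fun s _ => ?_)
  refine (degreeOf_sum_le _ _ _).trans (Finset.sup_le fun p _ => ?_)
  refine (degreeOf_mul_le _ _ _).trans ?_
  have h1 := degreeOf_mul_le (2 * m + 2) (C (B3 (2 * (m + 1)) s p)) (PsiM q (m + 1) s)
  rw [degreeOf_C, zero_add] at h1
  have h2 := degreeOf_PsiM_out q (m + 1) (k := 2 * m + 2) (by omega) s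
  have h3 := degreeOf_PsiO_le hq (m + 1 + 1) p (2 * m + 2)
  omega

theorem degreeOf_TT2 (hq : q ^ 2 + q + 1 = 0) (m : ℕ) :
    (TT2 q (m + 1)).degreeOf (2 * m + 1) ≤ 2 * m + 1 := by
  unfold TT2
  refine (degreeOf_sum_le _ _ _).trans (Finset.sup_le fun s _ => ?_)
  refine (degreeOf_sum_le _ _ _).trans (Finset.sup_le fun p _ => ?_)
  refine (degreeOf_mul_le _ _ _).trans ?_
  have h1 := degreeOf_mul_le (2 * m + 1) (C (B2 (2 * m + 1) s p)) (PsiM q (m + 1) s)
  rw [degreeOf_C, zero_add] at h1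
  have h2 := degreeOf_PsiM_le q (m + 1) (2 * m + 1) s
  have h3 := degreeOf_rename_zero (f := fun k => if k < 2 * m + 1 then k else k + 1)
    (k := 2 * m + 1) (fun x => by split_ifs <;> omega) (PsiO q (m + 1) p)
  omega

theorem symm_SS3 (hq : q ^ 2 + q + 1 = 0) (m : ℕ) {i : ℕ} (hi : i + 1 < 2 * m) (w : ℕ → ℂ) :
    eval (swapV i w) (SS3 q m) = eval w (SS3 q m) := by
  refine symm_of_exch hq _ (fun w => ?_) w
  have hM := suppA_PsiMV q m w
  have hO : SuppO (2 * m + 3) (PsiOV q (m + 1) w) := suppO_PsiOV q (m + 1) w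
  rw [eval_SS3, eval_SS3]
  refine exch_form hq (V3 (2 * m)) V3_add_left V3_add_right V3_smul_left V3_smul_right
    (exchangeM hq hi w) (exchangeO hq (n := m + 1) (i := i) (by omega) w) (V3_eL hM hO hi) ?_
  rw [V3_eL hM (suppO_mapDomain hO fun p hp => hp.eO (by omega)) hi, eOV_idem hO (by omega)]

theorem symm_TT2 (hq : q ^ 2 + q + 1 = 0) (m : ℕ) {i : ℕ} (hi : i + 1 < 2 * m + 1) (w : ℕ → ℂ) :
    eval (swapV i w) (TT2 q (m + 1)) = eval w (TT2 q (m + 1)) := by
  refine symm_of_exch hq _ (fun w => ?_) w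
  have hM : SuppA (2 * m + 1 + 1) (PsiMV q (m + 1) w) := suppA_PsiMV q (m + 1) w
  have hO : SuppO (2 * m + 1 + 2) (PsiOV q (m + 1) (skip1 (2 * m + 1) w)) :=
    suppO_PsiOV q (m + 1) _
  rw [eval_TT2, eval_TT2, skip1_swapV hi]
  have hx := exchangeO hq (n := m + 1) (i := i) (by omega) (skip1 (2 * m + 1) w)
  have e1 : skip1 (2 * m + 1) w i = w i := by unfold skip1; rw [if_pos (by omega)]
  have e2 : skip1 (2 * m + 1) w (i + 1) = w (i + 1) := by unfold skip1; rw [if_pos hi]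
  rw [e1, e2] at hx
  refine exch_form hq (V2 (2 * m + 1)) V2_add_left V2_add_right V2_smul_left V2_smul_right
    (exchangeM hq (m := m + 1) (i := i) (by omega) w) hx (V2_eL hM hO hi) ?_
  rw [V2_eL hM (suppO_mapDomain hO fun p hp => hp.eO (by omega)) hi, eOV_idem hO (by omega)]

theorem exch_SS3 (hq : q ^ 2 + q + 1 = 0) (m : ℕ) {i : ℕ} (hi : i = 2 * m ∨ i = 2 * m + 1)
    (w : ℕ → ℂ) : (q * w (i + 1) - q ^ 2 * w i) * eval (swapV i w) (SS3 q m) =
      (q * w i - q ^ 2 * w (i + 1)) * eval w (SS3 q m) := by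
  have hM := suppA_PsiMV q m w
  have hO : SuppO (2 * m + 3) (PsiOV q (m + 1) w) := suppO_PsiOV q (m + 1) w
  have hc : PsiMV q m (swapV i w) = PsiMV q m w :=
    PsiMV_congr q m fun k hk => swapV_other w (by omega) (by omega)
  rw [eval_SS3, eval_SS3, hc, ← V3_smul_right, exchangeO hq (n := m + 1) (i := i) (by omega) w,
    V3_add_right, V3_smul_right, V3_smul_right, V3_kill hM hO hi, mul_zero, add_zero]

end Pool.Agent.Perc
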