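import Pool.Agent.Lib.MP_6bd702_perc3.STA

/-!
# The three-leg sums: restrictions (task STB)
-/

set_option autoImplicit false

namespace Pool.Agent.Perc

open Finset MvPolynomial

variable {q : ℂ}

namespace STB

theorem PsiMV_congr (q : ℂ) (m : ℕ) {z z' : ℕ → ℂ} (h : ∀ k < 2 * m, z k = z' k) :
    PsiMV q m z = PsiMV q m z' := by
  unfold PsiMV PsiM
  refine Finset.sum_congr rfl fun s _ => ?_
  congr 1
  rw [RecP.eval_recP_eq, RecP.eval_recP_eq]
  refine Finset.sum_congr rfl fun d _ => ?_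
  congr 1
  refine Finset.prod_congr rfl fun k hk => ?_
  rw [h k (mem_range.mp hk)]

theorem skip1_ins1 (j : ℕ) (x : ℂ) (u : ℕ → ℂ) : skip1 j (ins1 j x u) = u := by
  funext k
  unfold skip1 ins1
  by_cases h : k < j
  · rw [if_pos h, if_pos h]
  · rw [if_neg h, if_neg (by omega), if_neg (by omega)]
    rfl

theorem ins1_ins1 (j : ℕ) (x y : ℂ) (u : ℕ → ℂ) : ins1 0 x (ins1 j y u) = put2 (j + 1) x y u := by
  funext k
  unfold ins1 put2
  by_cases h0 : k = 0
  · rw [if_neg (by omega), if_pos h0, if_pos h0]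
  · by_cases h1 : k < j + 1
    · rw [if_neg (by omega), if_neg h0, if_pos (by omega), if_neg h0, if_pos h1]
    · by_cases h2 : k = j + 1
      · rw [if_neg (by omega), if_neg h0, if_neg (by omega), if_pos (by omega), if_neg h0,
          if_neg h1, if_pos h2]
      · rw [if_neg (by omega), if_neg h0, if_neg (by omega), if_neg (by omega), if_neg h0,
          if_neg h1, if_neg h2]
        congr 1

theorem skip1_insV (j : ℕ) (x y : ℂ) (u : ℕ → ℂ) :
    skip1 (j + 1) (insV j x y u) = ins1 j x u := by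
  funext k
  unfold skip1 insV ins1
  by_cases h0 : k < j
  · rw [if_pos (by omega), if_pos h0, if_pos h0]
  · by_cases h1 : k = j
    · rw [if_pos (by omega), if_neg h0, if_pos h1, if_neg h0, if_pos h1]
    · rw [if_neg (by omega), if_neg (by omega), if_neg (by omega), if_neg (by omega), if_neg h0,
        if_neg h1]
      congr 1

theorem skip1_put2 (j : ℕ) (x y : ℂ) (u : ℕ → ℂ) :
    skip1 (j + 1) (put2 (j + 1) x y u) = ins1 0 x u := by
  funext k
  unfold skip1 put2 ins1
  by_cases h0 : k = 0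
  · rw [if_pos (by omega), if_pos h0, if_neg (by omega), if_pos h0]
  · by_cases h1 : k < j + 1
    · rw [if_pos h1, if_neg h0, if_pos h1, if_neg (by omega), if_neg h0]
    · rw [if_neg h1, if_neg (by omega), if_neg (by omega), if_neg (by omega), if_neg (by omega),
        if_neg h0]
      congr 1

theorem suppA_m (q : ℂ) (m : ℕ) (z : ℕ → ℂ) : SuppA (2 * m + 2) (PsiMV q (m + 1) z) :=
  suppA_PsiMV q (m + 1) z

theorem suppO_m (q : ℂ) (m : ℕ) (z : ℕ → ℂ) : SuppO (2 * m + 3) (PsiOV q (m + 1) z) :=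
  suppO_PsiOV q (m + 1) z

end STB

open STB

theorem left_SS3 (hq : q ^ 2 + q + 1 = 0) (m : ℕ) (v : ℂ) (u : ℕ → ℂ) :
    eval (insV (2 * m + 1) (q ^ 2 * v) v u) (SS3 q (m + 1)) =
      kO q m * v * (∏ j ∈ range (2 * m + 3), (u j - q * v) ^ 2) *
        eval (ins1 (2 * m + 1) (q ^ 2 * v) u) (TT2 q (m + 1)) := by
  rw [eval_SS3, eval_TT2, skip1_ins1, PsiOV_insV hq (m + 1) (i := 2 * m + 1) (by omega)]
  have h1 : PsiMV q (m + 1) (insV (2 * m + 1) (q ^ 2 * v) v u) =
      PsiMV q (m + 1) (ins1 (2 * m + 1) (q ^ 2 * v) u) := by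
    refine PsiMV_congr q _ fun k hk => ?_
    unfold insV ins1
    by_cases h0 : k < 2 * m + 1
    · rw [if_pos h0, if_pos h0]
    · rw [if_neg h0, if_neg h0, if_pos (by omega), if_pos (by omega)]
  rw [h1]
  have h2 : V3 (2 * (m + 1)) (PsiMV q (m + 1) (ins1 (2 * m + 1) (q ^ 2 * v) u))
      ((v * (∏ k ∈ range (2 * (m + 1) + 1), (u k - q * v) ^ 2) / (-3 * (9 * q) ^ (m + 1))) •
        (PsiOV q (m + 1) u).mapDomain (insArc (2 * m + 1))) =
      (v * (∏ k ∈ range (2 * (m + 1) + 1), (u k - q * v) ^ 2) / (-3 * (9 * q) ^ (m + 1))) *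
      V2 (2 * m + 1) (PsiMV q (m + 1) (ins1 (2 * m + 1) (q ^ 2 * v) u)) (PsiOV q (m + 1) u) := by
    rw [V3_smul_right]
    congr 1
    exact V3_left (n := 2 * m + 1) (suppA_m q m _) (suppO_m q m _)
  rw [h2]
  unfold kO
  rw [show 2 * (m + 1) + 1 = 2 * m + 3 by ring]
  ring

theorem seam_SS3 (hq : q ^ 2 + q + 1 = 0) (m : ℕ) (v : ℂ) (u : ℕ → ℂ) :
    eval (ins1 0 v (ins1 (2 * m + 3) (q ^ 2 * v) u)) (SS3 q (m + 1)) =
      kO q m * v * (∏ j ∈ range (2 * m + 3), (u j - q * v) ^ 2) *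
        eval (ins1 (2 * m + 1) v u) (TT2 q (m + 1)) := by
  rw [eval_SS3, eval_TT2, skip1_ins1, ins1_ins1]
  have h0 : PsiOV q (m + 1 + 1) (put2 (2 * m + 3 + 1) v (q ^ 2 * v) u) =
      (v * (∏ k ∈ range (2 * (m + 1) + 1), (u k - q * v) ^ 2) / (-3 * (9 * q) ^ (m + 1))) •
        (PsiOV q (m + 1) u).mapDomain (cupO (2 * m + 3)) := by
    have h := PsiOV_seam hq (m + 1) v u
    rw [show 2 * (m + 1) + 2 = 2 * m + 3 + 1 by ring] at h
    exact h
  rw [h0]
  have h2 : V3 (2 * (m + 1)) (PsiMV q (m + 1) (put2 (2 * m + 3 + 1) v (q ^ 2 * v) u))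
      ((v * (∏ k ∈ range (2 * (m + 1) + 1), (u k - q * v) ^ 2) / (-3 * (9 * q) ^ (m + 1))) •
        (PsiOV q (m + 1) u).mapDomain (cupO (2 * m + 3))) =
      (v * (∏ k ∈ range (2 * (m + 1) + 1), (u k - q * v) ^ 2) / (-3 * (9 * q) ^ (m + 1))) *
      V2 (2 * m + 1) ((PsiMV q (m + 1) (put2 (2 * m + 3 + 1) v (q ^ 2 * v) u)).mapDomain
        (rotL (2 * m + 2))) (PsiOV q (m + 1) u) := by
    rw [V3_smul_right]
    congr 1
    exact V3_seam (n := 2 * m + 1) (suppA_m q m _) (suppO_m q m _)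
  rw [h2]
  have h3 : (PsiMV q (m + 1) (put2 (2 * m + 3 + 1) v (q ^ 2 * v) u)).mapDomain
        (rotL (2 * m + 2)) = PsiMV q (m + 1) (ins1 (2 * m + 1) v u) := by
    have h := PsiMV_rot hq (m + 1) (put2 (2 * m + 3 + 1) v (q ^ 2 * v) u)
    rw [show 2 * (m + 1) = 2 * m + 2 by ring] at h
    rw [← h]
    refine PsiMV_congr q _ fun k hk => ?_
    unfold rotV put2 ins1
    by_cases h4 : k < 2 * m + 1
    · rw [if_pos (by omega), if_neg (by omega), if_pos (by omega), if_pos h4]
      rfl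
    · rw [if_neg (by omega), if_pos (by omega), if_pos rfl, if_neg h4, if_pos (by omega)]
  rw [h3]
  unfold kO
  rw [show 2 * (m + 1) + 1 = 2 * m + 3 by ring]
  ring

theorem left_TT2 (hq : q ^ 2 + q + 1 = 0) (m : ℕ) (v : ℂ) (u : ℕ → ℂ) :
    eval (insV (2 * m) v (q ^ 2 * v) u) (TT2 q (m + 1)) =
      kM q m * v * (∏ j ∈ range (2 * m), (u j - q * v) ^ 2) *
        eval (ins1 (2 * m) v u) (SS3 q m) := by
  rw [eval_SS3, eval_TT2, skip1_insV, PsiMV_insV hq m le_rfl, V2_smul_left]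
  have h1 : PsiMV q m (ins1 (2 * m) v u) = PsiMV q m u := by
    refine PsiMV_congr q _ fun k hk => ?_
    unfold ins1
    rw [if_pos hk]
  rw [h1]
  have h2 := V2_left (n := 2 * m) (suppA_PsiMV q m u) (suppO_m q m (ins1 (2 * m) v u))
  rw [h2]
  unfold kM
  ring

theorem seam_TT2 (hq : q ^ 2 + q + 1 = 0) (m : ℕ) (v : ℂ) (u : ℕ → ℂ) :
    eval (ins1 0 (q ^ 2 * v) (ins1 (2 * m) v u)) (TT2 q (m + 1)) =
      kM q m * v * (∏ j ∈ range (2 * m), (u j - q * v) ^ 2) *
        eval (ins1 (2 * m + 2) (q ^ 2 * v) u) (SS3 q m) := by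
  rw [eval_SS3, eval_TT2, ins1_ins1, skip1_put2, PsiMV_seam hq m, V2_smul_left]
  have h1 : PsiMV q m (ins1 (2 * m + 2) (q ^ 2 * v) u) = PsiMV q m u := by
    refine PsiMV_congr q _ fun k hk => ?_
    unfold ins1
    rw [if_pos (by omega)]
  rw [h1]
  have h2 := V2_seam (n := 2 * m) (suppA_PsiMV q m u) (suppO_m q m (ins1 0 (q ^ 2 * v) u))
  rw [h2]
  have h3 : (PsiOV q (m + 1) (ins1 0 (q ^ 2 * v) u)).mapDomain (rotP (2 * m + 3)) =
      PsiOV q (m + 1) (ins1 (2 * m + 2) (q ^ 2 * v) u) := by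
    have h := PsiOV_rot hq (m + 1) (ins1 0 (q ^ 2 * v) u)
    rw [show 2 * (m + 1) + 1 = 2 * m + 3 by ring] at h
    rw [← h]
    refine PsiOV_congr hq fun k hk => ?_
    unfold rotV ins1
    by_cases h4 : k < 2 * m + 2
    · rw [if_pos (by omega), if_neg (by omega), if_neg (by omega), if_pos h4]
      rfl
    · rw [if_neg (by omega), if_pos (by omega), if_neg (by omega), if_pos rfl, if_neg h4,
        if_pos (by omega)]
  rw [h3]
  unfold kM
  ring

theorem rec3_ST (hq : q ^ 2 + q + 1 = 0) : Rec3 q (kO q) (kM q) (SS3 q) (TT2 q) where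
  degS m := degreeOf_SS3 hq m
  degT m := degreeOf_TT2 hq m
  symS m i hi w := symm_SS3 hq (m + 1) (by omega) w
  symT m i hi w := symm_TT2 hq m (by omega) w
  excS m i hi w := exch_SS3 hq (m + 1) (by omega) w
  leftS m v u _ := left_SS3 hq m v u
  seamS m v u _ := seam_SS3 hq m v u
  leftT m v u _ := left_TT2 hq m v u
  seamT m v u _ := seam_TT2 hq m v u

namespace STB

theorem anns_zero : anns (2 * 0) = {nestS 0} := by
  ext s
  rw [mem_anns, Finset.mem_singleton]
  constructor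
  · intro h
    exact isAnn_zero h
  · rintro rfl
    exact isAnn_nestS 0

/-- If all labels are `false`, the parity does not change. -/
theorem pr_false {u d : St} (hu : ∀ x, u.2 x = false) (hd : ∀ x, d.2 x = false) {a b : ℕ × Bool}
    (h : PR u d a b) : b.2 = a.2 := by
  induction h with
  | refl => rfl
  | tail _ h1 ih =>
    rcases h1 with h1 | h1
    · rw [h1.2, hu, Bool.xor_false, ih]
    · rw [h1.2, hd, Bool.xor_false, ih]

/-- If two different nodes of an odd state of three sites are joined by an arc with label `true`,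
the state is nested. -/
theorem tri_zero {p : ℕ → ℕ} (hp : NCO 3 p) (h : Tri 0 (upO p) (nestS 0)) : p = nestO 1 := by
  obtain ⟨a, b, -, -, -, -, -, hr⟩ := h
  have hex : ∃ x, labO p x = true := by
    by_contra hc
    push Not at hc
    have h1 := pr_false (u := upO p) (d := nestS 0) (fun x => by simpa [upO] using hc x)
      (fun x => by simp [nestS]) hr
    simp at h1
  obtain ⟨x, hx⟩ := hex
  have hx3 : x < 3 := by
    by_contra hc
    rw [labO_out hp (by omega)] at hx
    exact absurd hx (by simp)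
  have hne : p x ≠ x := by
    intro hc
    rw [labO_of_fix hc] at hx
    exact absurd hx (by simp)
  have hpx := hp.lt x hx3
  have ht := hp.thr_lt
  have htf := hp.thr_fix
  have h1 : x ≠ thr p := fun e => hne (by rw [e]; exact htf)
  have h2 : p x ≠ thr p := by
    intro e
    have e2 := hp.inv x
    rw [e, htf] at e2
    exact h1 e2.symm
  have h3 : (x < thr p ∧ thr p < p x) ∨ (p x < thr p ∧ thr p < x) := by
    unfold labO at hx
    by_cases c1 : x < thr p
    · by_cases c2 : p x < thr p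
      · simp [c1, c2] at hx
      · left
        exact ⟨c1, by omega⟩
    · by_cases c2 : p x < thr p
      · right
        exact ⟨c2, by omega⟩
      · simp [c1, c2] at hx
  have h4 : thr p = 1 ∧ ((x = 0 ∧ p x = 2) ∨ (x = 2 ∧ p x = 0)) := by omega
  have h5 : p 1 = 1 := by
    have := htf
    rw [h4.1] at this
    exact this
  have h6 : p 0 = 2 ∧ p 2 = 0 := by
    rcases h4.2 with ⟨e1, e2⟩ | ⟨e1, e2⟩
    · rw [e1] at e2
      exact ⟨e2, by rw [← e2]; exact hp.inv 0⟩
    · rw [e1] at e2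
      exact ⟨by rw [← e2]; exact hp.inv 2, e2⟩
  funext y
  unfold nestO
  by_cases c : y < 2 * 1 + 1
  · rw [if_pos c]
    have : y = 0 ∨ y = 1 ∨ y = 2 := by omega
    rcases this with rfl | rfl | rfl
    · exact h6.1
    · exact h5
    · exact h6.2
  · rw [if_neg c]
    exact hp.out y (by omega)

theorem tri_nest : Tri 0 (upO (nestO 1)) (nestS 0) := by
  refine ⟨0, 2, le_rfl, by omega, by omega, by omega, by omega, ?_⟩
  refine Relation.ReflTransGen.single (Or.inl ⟨?_, ?_⟩)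
  · simp [upO, nestO]
  · have h : thr (nestO 1) = 1 := thr_nestO 1
    simp [upO, labO, h, nestO]

end STB

/-- The smallest case: only the state with the through line in the middle contributes. -/
theorem eval_SS3_zero (hq : q ^ 2 + q + 1 = 0) (w : ℕ → ℂ) :
    eval w (SS3 q 0) = (w 0 - q ^ 2 * w 1) * (w 0 - q ^ 2 * w 2) * (w 1 - q ^ 2 * w 2) /
      (-q * (1 - q) ^ 3) := by
  classical
  have hn : NCO 3 (nestO 1) := nco_nestO 1
  rw [eval_SS3, PsiMV_zero hq]
  unfold V3
  rw [anns_zero, Finset.sum_singleton, Finset.sum_eq_single (nestO 1)]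
  · rw [Finsupp.single_eq_same, one_mul]
    have h1 : B3 (2 * 0) (nestS 0) (nestO 1) = 1 := if_pos tri_nest
    rw [h1, mul_one, PsiOV_apply w (n := 0 + 1) hn]
    have h2 := eval_PsiO_nestO hq 1 w
    change eval w (PsiO q 1 (nestO 1)) = _
    rw [h2]
    have z0 : zptO q (nestO 1) 0 = 1 := by
      unfold zptO
      rw [opO_nestO, if_neg (by simp)]
    have z1 : zptO q (nestO 1) 1 = q ^ 2 := by
      unfold zptO
      rw [opO_nestO, if_pos (by simp)]
    have z2 : zptO q (nestO 1) 2 = q ^ 2 := by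
      unfold zptO
      rw [opO_nestO, if_pos (by simp)]
    have h3 : eval (zptO q (nestO 1)) (minPoly q (2 * 1 + 1)) = -q * (1 - q) ^ 3 := by
      unfold minPoly
      simp only [Nat.reduceMul, Nat.reduceAdd, Finset.prod_range_succ, Finset.prod_range_zero,
        one_mul, map_mul, map_sub, eval_X, eval_C, z0, z1, z2]
      linear_combination (q - 3 * q ^ 2 + 5 * q ^ 3 - 4 * q ^ 4 - q ^ 5 + 3 * q ^ 6 - 2 * q ^ 7 +
        q ^ 8 + q ^ 9 - q ^ 10) * hq
    rw [h3]
    congr 1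
    simp only [Nat.reduceMul, Nat.reduceAdd, Finset.prod_range_succ, Finset.prod_range_zero,
      one_mul]
    ring
  · intro p hp hne
    have h1 : B3 (2 * 0) (nestS 0) p = 0 := by
      refine if_neg fun h => hne ?_
      exact tri_zero (mem_nco.mp hp) h
    rw [h1, mul_zero]
  · intro h
    exact absurd (mem_nco.mpr hn) h

end Pool.Agent.Perc
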