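import Pool.Agent.Lib.MP_6bd702_perc3.TriR

/-!
# Generators at two neighbouring upper `D`-sites kill the pairing (task TriB)

The component of the two `D`-sites consists of these two nodes with parity `false`; the third
`D`-node is not connected to them.
-/

set_option autoImplicit false

namespace Pool.Agent.Perc

open Finset

variable {n i : ℕ} {s : St} {p : ℕ → ℕ}

/-- A small component `{i, i + 1}`: paths which start there stay there and keep the parity. -/
theorem PR.trap {u d : St} {i : ℕ} (u0 : u.1 i = i + 1) (u1 : u.1 (i + 1) = i)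
    (v0 : u.2 i = false) (v1 : u.2 (i + 1) = false)
    (d0 : d.1 i = i) (d1 : d.1 (i + 1) = i + 1)
    (w0 : d.2 i = false) (w1 : d.2 (i + 1) = false)
    {a b : ℕ × Bool} (ha : a.1 = i ∨ a.1 = i + 1) (h : PR u d a b) :
    (b.1 = i ∨ b.1 = i + 1) ∧ b.2 = a.2 := by
  unfold PR at h
  induction h with
  | refl => exact ⟨ha, rfl⟩
  | tail _ hstep ih =>
    obtain ⟨hb, hb2⟩ := ih
    rcases hstep with ⟨h1, h2⟩ | ⟨h1, h2⟩
    · rcases hb with hb | hb
      · rw [hb] at h1 h2
        rw [u0] at h1
        rw [v0] at h2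
        refine ⟨Or.inr h1, ?_⟩
        rw [h2, hb2]; simp
      · rw [hb] at h1 h2
        rw [u1] at h1
        rw [v1] at h2
        refine ⟨Or.inl h1, ?_⟩
        rw [h2, hb2]; simp
    · rcases hb with hb | hb
      · rw [hb] at h1 h2
        rw [d0] at h1
        rw [w0] at h2
        refine ⟨Or.inl h1, ?_⟩
        rw [h2, hb2]; simp
      · rw [hb] at h1 h2
        rw [d1] at h1
        rw [w1] at h2
        refine ⟨Or.inr h1, ?_⟩
        rw [h2, hb2]; simp

/-- If the nodes `i`, `i + 1` form a component of their own, the three-leg event is impossible. -/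
theorem Tri.trap {u d : St} (hu : LInv u) (hd : LInv d) {i : ℕ} (hi : i = n ∨ i = n + 1)
    (u0 : u.1 i = i + 1) (v0 : u.2 i = false) (v1 : u.2 (i + 1) = false)
    (d0 : d.1 i = i) (d1 : d.1 (i + 1) = i + 1) : ¬ Tri n u d := by
  have u1 : u.1 (i + 1) = i := by rw [← u0]; exact hu.inv i
  have w0 : d.2 i = false := hd.fix i d0
  have w1 : d.2 (i + 1) = false := hd.fix (i + 1) d1
  rintro ⟨a, b, ha, ha', hb, hb', hab, h⟩
  by_cases hai : a = i ∨ a = i + 1
  · have := (PR.trap (a := (a, false)) (b := (b, true)) u0 u1 v0 v1 d0 d1 w0 w1 hai h).2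
    simp at this
  · by_cases hbi : b = i ∨ b = i + 1
    · have h' := PR.symm hu hd h
      have := (PR.trap (a := (b, true)) (b := (a, false)) u0 u1 v0 v1 d0 d1 w0 w1 hbi h').2
      simp at this
    · omega

theorem B3_kill (hs : IsAnn n s) (hp : NCO (n + 3) p) (hi : i = n ∨ i = n + 1) :
    B3 n s (eO i p) = 0 := by
  have hO : NCO (n + 3) (eO i p) := NCO.eO hp (by omega)
  have : ¬ Tri n (upO (eO i p)) s := by
    refine Tri.trap (LInv.upO hO) (LInv.ann hs) hi ?_ ?_ ?_ ?_ ?_
    · exact eO_small i p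
    · exact labO_eO_left hp (by omega)
    · exact labO_eO_right hp (by omega)
    · exact hs.nc.out i (by omega)
    · exact hs.nc.out (i + 1) (by omega)
  simp [B3, this]

theorem B2_kill (hs : IsAnn (n + 1) s) (hp : NCO (n + 2) p) : B2 n s (eO n p) = 0 := by
  have hO : NCO (n + 2) (eO n p) := NCO.eO hp (by omega)
  have : ¬ Tri n (upO (eO n p)) (dnO n s) := by
    refine Tri.trap (i := n) (LInv.upO hO) ((LInv.ann hs).dnO n) (Or.inl rfl) ?_ ?_ ?_ ?_ ?_
    · exact eO_small n p
    · exact labO_eO_left hp (by omega)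
    · exact labO_eO_right hp (by omega)
    · show Equiv.swap n (n + 2) (s.1 (Equiv.swap n (n + 2) n)) = n
      rw [Equiv.swap_apply_left, hs.nc.out (n + 2) (by omega), Equiv.swap_apply_right]
    · show Equiv.swap n (n + 2) (s.1 (Equiv.swap n (n + 2) (n + 1))) = n + 1
      have h1 : Equiv.swap n (n + 2) (n + 1) = n + 1 :=
        Equiv.swap_apply_of_ne_of_ne (by omega) (by omega)
      rw [h1, hs.nc.out (n + 1) (by omega), h1]
  simp [B2, this]

end Pool.Agent.Perc
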