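import Pool.Agent.Lib.MP_6bd702_perc3.TriR

/-!
# A small arc between a common site and a `D`-site (task TriC)

Pure renaming of nodes (`PR.map` in both directions, or a variant of `PR.contract`).
-/

set_option autoImplicit false

namespace Pool.Agent.Perc

open Finset

variable {n : ℕ} {s : St} {p : ℕ → ℕ}

namespace TriC

/-- One step in the first half. -/
theorem up (u d : St) (x : ℕ) (ε : Bool) : PR u d (x, ε) (u.1 x, xor ε (u.2 x)) :=
  Relation.ReflTransGen.single (Or.inl ⟨rfl, rfl⟩)

/-- One step in the second half. -/
theorem dn (u d : St) (x : ℕ) (ε : Bool) : PR u d (x, ε) (d.1 x, xor ε (d.2 x)) :=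
  Relation.ReflTransGen.single (Or.inr ⟨rfl, rfl⟩)

theorem up' {u d : St} {x y : ℕ} {ε δ : Bool} (h1 : u.1 x = y) (h2 : xor ε (u.2 x) = δ) :
    PR u d (x, ε) (y, δ) := by
  subst h1; subst h2; exact up u d x ε

theorem dn' {u d : St} {x y : ℕ} {ε δ : Bool} (h1 : d.1 x = y) (h2 : xor ε (d.2 x) = δ) :
    PR u d (x, ε) (y, δ) := by
  subst h1; subst h2; exact dn u d x ε

theorem dnO_lt {x : ℕ} (hx : x < n) (hy : s.1 x ≠ n) (hy' : s.1 x ≠ n + 2) :
    (dnO n s).1 x = s.1 x := by
  change Equiv.swap n (n + 2) (s.1 (Equiv.swap n (n + 2) x)) = _
  have e : Equiv.swap n (n + 2) x = x := Equiv.swap_apply_of_ne_of_ne (by omega) (by omega)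
  rw [e, Equiv.swap_apply_of_ne_of_ne hy hy']

theorem dnO_lt_eq {x : ℕ} (hx : x < n) (hy : s.1 x = n) : (dnO n s).1 x = n + 2 := by
  change Equiv.swap n (n + 2) (s.1 (Equiv.swap n (n + 2) x)) = _
  have e : Equiv.swap n (n + 2) x = x := Equiv.swap_apply_of_ne_of_ne (by omega) (by omega)
  rw [e, hy, Equiv.swap_apply_left]

theorem dnO_lab_lt {x : ℕ} (hx : x < n) : (dnO n s).2 x = s.2 x := by
  change s.2 (Equiv.swap n (n + 2) x) = _
  rw [Equiv.swap_apply_of_ne_of_ne (by omega) (by omega)]

theorem dnO_self (h : s.1 (n + 2) = n + 2) : (dnO n s).1 n = n := by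
  change Equiv.swap n (n + 2) (s.1 (Equiv.swap n (n + 2) n)) = _
  rw [Equiv.swap_apply_left, h, Equiv.swap_apply_right]

theorem dnO_lab_self : (dnO n s).2 n = s.2 (n + 2) := by
  change s.2 (Equiv.swap n (n + 2) n) = _
  rw [Equiv.swap_apply_left]

theorem dnO_succ (h : s.1 (n + 1) = n + 1) : (dnO n s).1 (n + 1) = n + 1 := by
  change Equiv.swap n (n + 2) (s.1 (Equiv.swap n (n + 2) (n + 1))) = _
  have e : Equiv.swap n (n + 2) (n + 1) = n + 1 :=
    Equiv.swap_apply_of_ne_of_ne (by omega) (by omega)
  rw [e, h, e]

theorem dnO_lab_succ : (dnO n s).2 (n + 1) = s.2 (n + 1) := by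
  change s.2 (Equiv.swap n (n + 2) (n + 1)) = _
  rw [Equiv.swap_apply_of_ne_of_ne (by omega) (by omega)]

theorem dnO_two {y : ℕ} (h : s.1 n = y) (hy : y ≠ n) (hy' : y ≠ n + 2) :
    (dnO n s).1 (n + 2) = y := by
  change Equiv.swap n (n + 2) (s.1 (Equiv.swap n (n + 2) (n + 2))) = _
  rw [Equiv.swap_apply_right, h, Equiv.swap_apply_of_ne_of_ne hy hy']

theorem dnO_lab_two : (dnO n s).2 (n + 2) = s.2 n := by
  change s.2 (Equiv.swap n (n + 2) (n + 2)) = _
  rw [Equiv.swap_apply_right]

theorem labFix {x : ℕ} (hx : p x = x) : labO p x = false := by
  unfold labO; rw [hx, Bool.xor_self]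

theorem labOut {N : ℕ} (h : NCO N p) {x : ℕ} (hx : N ≤ x) : labO p x = false :=
  labFix (h.out x hx)

/-- The label of a shifted site. -/
theorem labO_sh {N : ℕ} (h : NCO N p) {i : ℕ} (hi : i ≤ N) (x : ℕ) :
    labO (insArc i p) (PatB.sh i x) = labO p x := by
  exact labO_insArc h hi x

theorem bne_false (b : Bool) : (b != false) = b := by cases b <;> rfl

end TriC

open TriC

/-- The upper `D`-site `n + 1` is joined to the common site `n`. -/
theorem B3_left (hs : IsAnn (n + 1) s) (hp : NCO (n + 2) p) :
    B3 (n + 1) s (insArc n p) = B2 n s p := by
  have slt : ∀ x < n + 1, s.1 x < n + 1 := hs.nc.lt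
  have sout : ∀ x, n + 1 ≤ x → s.1 x = x := hs.nc.out
  have slab : ∀ x, n + 1 ≤ x → s.2 x = false := hs.out
  have hsn : s.1 n ≠ n := hs.nc.ne n (by omega)
  have hsn' : s.1 n < n := by have := slt n (by omega); omega
  have key : Tri (n + 1) (upO (insArc n p)) s ↔ Tri n (upO p) (dnO n s) := by
    constructor
    · -- from the larger to the smaller one
      set g : ℕ → ℕ := fun x => if x < n then x else if x ≤ n + 1 then n + 2 else x - 2 with hg
      have gsh : ∀ x, x < n + 2 → g (PatB.sh n x) = x := by
        intro x hx
        simp only [hg]
        unfold PatB.sh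
        split_ifs <;> omega
      have h1 : ∀ x, x < n + 4 → PR (upO p) (dnO n s) (g x, false)
          (g ((upO (insArc n p)).1 x), xor ((upO (insArc n p)).2 x) false) := by
        intro x hx
        rw [Bool.xor_false]
        change PR (upO p) (dnO n s) (g x, false) (g (insArc n p x), labO (insArc n p) x)
        rcases PatB.cases_sh n x with h | h | ⟨y, rfl⟩
        · rw [h, PatB.ins_left, labO_insArc_left hp (by omega)]
          have : g (n + 1) = g n := by simp only [hg]; split_ifs <;> omega
          rw [this]
          exact Relation.ReflTransGen.refl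
        · rw [h, PatB.ins_right, labO_insArc_right hp (by omega)]
          have : g (n + 1) = g n := by simp only [hg]; split_ifs <;> omega
          rw [this]
          exact Relation.ReflTransGen.refl
        · have hy : y < n + 2 := (PatB.sh_lt_iff (N := n + 2) (i := n) (by omega)).1 hx
          rw [PatB.ins_sh, labO_sh hp (by omega), gsh y hy, gsh _ (hp.lt y hy)]
          exact up' rfl (by change xor false (labO p y) = _; rw [Bool.false_xor])
      have h2 : ∀ x, x < n + 4 → PR (upO p) (dnO n s) (g x, false)
          (g (s.1 x), xor (s.2 x) false) := by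
        intro x hx
        rw [Bool.xor_false]
        rcases lt_trichotomy x n with h | h | h
        · have gx : g x = x := by simp only [hg]; split_ifs <;> omega
          have hsx := slt x (by omega)
          rw [gx]
          by_cases h3 : s.1 x = n
          · have e : g (s.1 x) = n + 2 := by rw [h3]; simp only [hg]; split_ifs <;> omega
            rw [e]
            exact dn' (dnO_lt_eq h h3) (by rw [dnO_lab_lt h, Bool.false_xor])
          · have e : g (s.1 x) = s.1 x := by simp only [hg]; split_ifs <;> omega
            rw [e]
            exact dn' (dnO_lt h h3 (by omega)) (by rw [dnO_lab_lt h, Bool.false_xor])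
        · rw [h]
          have gx : g n = n + 2 := by simp only [hg]; split_ifs <;> omega
          have e : g (s.1 n) = s.1 n := by simp only [hg]; split_ifs <;> omega
          rw [gx, e]
          exact dn' (dnO_two rfl hsn (by omega)) (by rw [dnO_lab_two, Bool.false_xor])
        · rw [sout x (by omega), slab x (by omega)]
          exact Relation.ReflTransGen.refl
      rintro ⟨a, b, ha, ha', hb, hb', hab, hPR⟩
      have h3 := PR.map (fun x => x < n + 4) g (fun _ => false)
        (fun x hx => (hp.insArc (i := n) (by omega)).lt x hx)
        (fun x hx => by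
          by_cases h : x < n + 1
          · have := slt x h
            change s.1 x < n + 4
            omega
          · change s.1 x < n + 4
            rw [sout x (by omega)]; exact hx)
        h1 h2 (show a < n + 4 by omega) hPR
      rw [Bool.xor_false, Bool.xor_false] at h3
      refine ⟨g a, g b, ?_, ?_, ?_, ?_, ?_, h3⟩
      all_goals
        simp only [hg]
        split_ifs <;> omega
    · set f : ℕ → ℕ := fun x => if x = n + 2 then n + 1 else PatB.sh n x with hf
      have fsh : ∀ x, x < n + 2 → f x = PatB.sh n x := by
        intro x hx
        simp only [hf]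
        rw [if_neg (by omega)]
      have f2 : f (n + 2) = n + 1 := by simp only [hf]; rw [if_pos trivial]
      have small : ∀ ε : Bool, PR (upO (insArc n p)) s (n, ε) (n + 1, ε) := fun ε =>
        up' (PatB.ins_left n p) (by
          change xor ε (labO (insArc n p) n) = ε
          rw [labO_insArc_left hp (by omega), Bool.xor_false])
      have small' : ∀ ε : Bool, PR (upO (insArc n p)) s (n + 1, ε) (n, ε) := fun ε =>
        up' (PatB.ins_right n p) (by
          change xor ε (labO (insArc n p) (n + 1)) = ε
          rw [labO_insArc_right hp (by omega), Bool.xor_false])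
      have shx : ∀ x < n, PatB.sh n x = x := by
        intro x hx
        unfold PatB.sh
        rw [if_pos hx]
      have h1 : ∀ x, x < n + 3 → PR (upO (insArc n p)) s (f x, false)
          (f ((upO p).1 x), xor ((upO p).2 x) false) := by
        intro x hx
        rw [Bool.xor_false]
        change PR (upO (insArc n p)) s (f x, false) (f (p x), labO p x)
        by_cases h : x = n + 2
        · subst h
          rw [hp.out _ le_rfl, labOut hp le_rfl]
          exact Relation.ReflTransGen.refl
        · have hx' : x < n + 2 := by omega
          rw [fsh x hx', fsh _ (hp.lt x hx')]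
          exact up' (PatB.ins_sh n p x) (by
            change xor false (labO (insArc n p) (PatB.sh n x)) = _
            rw [Bool.false_xor, labO_sh hp (by omega)])
      have h2 : ∀ x, x < n + 3 → PR (upO (insArc n p)) s (f x, false)
          (f ((dnO n s).1 x), xor ((dnO n s).2 x) false) := by
        intro x hx
        rw [Bool.xor_false]
        rcases lt_trichotomy x n with h | h | h
        · have hsx := slt x (by omega)
          rw [fsh x (by omega), shx x h, dnO_lab_lt h]
          by_cases h3 : s.1 x = n
          · rw [dnO_lt_eq h h3, f2]
            exact (dn' h3 (Bool.false_xor _)).trans (small _)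
          · rw [dnO_lt h h3 (by omega), fsh _ (by omega), shx _ (by omega)]
            exact dn' rfl (Bool.false_xor _)
        · rw [h, dnO_self (sout _ (by omega)), dnO_lab_self, slab _ (by omega)]
          exact Relation.ReflTransGen.refl
        · by_cases h4 : x = n + 1
          · subst h4
            rw [dnO_succ (sout _ (by omega)), dnO_lab_succ, slab _ (by omega)]
            exact Relation.ReflTransGen.refl
          · have h5 : x = n + 2 := by omega
            subst h5
            rw [dnO_two rfl hsn (by omega), dnO_lab_two, f2, fsh _ (by omega), shx _ hsn']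
            exact (small' false).trans (dn' rfl (Bool.false_xor _))
      rintro ⟨a, b, ha, ha', hb, hb', hab, hPR⟩
      have h3 := PR.map (fun x => x < n + 3) f (fun _ => false)
        (fun x hx => by
          change p x < n + 3
          by_cases h : x < n + 2
          · have := hp.lt x h; omega
          · rw [hp.out x (by omega)]; exact hx)
        (fun x hx => by
          change (dnO n s).1 x < n + 3
          rcases lt_trichotomy x n with h | h | h
          · have hsx := slt x (by omega)
            by_cases h3 : s.1 x = n
            · rw [dnO_lt_eq h h3]; omega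
            · rw [dnO_lt h h3 (by omega)]; omega
          · rw [h, dnO_self (sout _ (by omega))]; omega
          · by_cases h4 : x = n + 1
            · subst h4
              rw [dnO_succ (sout _ (by omega))]; omega
            · have h5 : x = n + 2 := by omega
              subst h5
              rw [dnO_two rfl hsn (by omega)]; omega)
        h1 h2 (show a < n + 3 by omega) hPR
      rw [Bool.xor_false, Bool.xor_false] at h3
      refine ⟨f a, f b, ?_, ?_, ?_, ?_, ?_, h3⟩
      all_goals
        simp only [hf]
        unfold PatB.sh
        split_ifs <;> omega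
  classical
  unfold B3 B2
  simp only [key]

/-- The lower `D`-site `n + 1` is joined to the common site `n`. -/
theorem B2_left (hs : IsAnn n s) (hp : NCO (n + 3) p) :
    B2 (n + 1) (insL n s) p = B3 n s p := by
  have slt : ∀ x < n, s.1 x < n := hs.nc.lt
  have sout : ∀ x, n ≤ x → s.1 x = x := hs.nc.out
  have slab : ∀ x, n ≤ x → s.2 x = false := hs.out
  set d := dnO (n + 1) (insL n s) with hd
  have i1 : ∀ x, x < n → (insL n s).1 x = s.1 x := by
    intro x hx
    have h1 := PatB.ins_sh n s.1 x
    have h2 := slt x hx
    unfold PatB.sh at h1
    rw [if_pos hx, if_pos h2] at h1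
    exact h1
  have i2 : (insL n s).1 n = n + 1 := PatB.ins_left n s.1
  have i3 : (insL n s).1 (n + 1) = n := PatB.ins_right n s.1
  have i4 : ∀ x, n + 2 ≤ x → (insL n s).1 x = x := by
    intro x hx
    have h1 := PatB.ins_sh n s.1 (x - 2)
    have h2 : PatB.sh n (x - 2) = x := by unfold PatB.sh; rw [if_neg (by omega)]; omega
    rw [sout (x - 2) (by omega), h2] at h1
    exact h1
  have l1 : ∀ x, x < n → (insL n s).2 x = s.2 x := by
    intro x hx
    change (if x = n ∨ x = n + 1 then false else s.2 (if x < n then x else x - 2)) = _
    rw [if_neg (by omega), if_pos hx]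
  have l2 : (insL n s).2 n = false := by
    change (if n = n ∨ n = n + 1 then false else _) = _
    rw [if_pos (Or.inl rfl)]
  have l3 : (insL n s).2 (n + 1) = false := by
    change (if n + 1 = n ∨ n + 1 = n + 1 then false else _) = _
    rw [if_pos (Or.inr rfl)]
  have l4 : ∀ x, n + 2 ≤ x → (insL n s).2 x = false := by
    intro x hx
    change (if x = n ∨ x = n + 1 then false else s.2 (if x < n then x else x - 2)) = _
    rw [if_neg (by omega), if_neg (by omega), slab _ (by omega)]
  have d1 : ∀ x, x < n → d.1 x = s.1 x := by
    intro x hx
    have := slt x hx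
    rw [hd, dnO_lt (by omega) (by rw [i1 x hx]; omega) (by rw [i1 x hx]; omega), i1 x hx]
  have d2 : d.1 n = n + 3 := dnO_lt_eq (by omega) i2
  have d3 : d.1 (n + 3) = n := dnO_two (n := n + 1) i3 (by omega) (by omega)
  have d4 : d.1 (n + 1) = n + 1 := dnO_self (n := n + 1) (i4 _ (by omega))
  have d5 : d.1 (n + 2) = n + 2 := dnO_succ (n := n + 1) (i4 _ (by omega))
  have m1 : ∀ x, x < n → d.2 x = s.2 x := by
    intro x hx
    rw [hd, dnO_lab_lt (by omega), l1 x hx]
  have m2 : d.2 n = false := by rw [hd, dnO_lab_lt (by omega), l2]
  have m3 : d.2 (n + 3) = false := by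
    have := dnO_lab_two (n := n + 1) (s := insL n s)
    rw [l3] at this
    exact this
  have m4 : d.2 (n + 1) = false := by
    have := dnO_lab_self (n := n + 1) (s := insL n s)
    rw [l4 _ (by omega)] at this
    exact this
  have m5 : d.2 (n + 2) = false := by
    have := dnO_lab_succ (n := n + 1) (s := insL n s)
    rw [l4 _ (by omega)] at this
    exact this
  have key : Tri (n + 1) (upO p) d ↔ Tri n (upO p) s := by
    constructor
    · set g : ℕ → ℕ := fun x => if x = n + 3 then n else x with hg
      have gne : ∀ x, x < n + 3 → g x = x := by
        intro x hx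
        simp only [hg]
        rw [if_neg (by omega)]
      have g3 : g (n + 3) = n := by simp only [hg]; rw [if_pos trivial]
      have h1 : ∀ x, x < n + 4 → PR (upO p) s (g x, false)
          (g ((upO p).1 x), xor ((upO p).2 x) false) := by
        intro x hx
        rw [Bool.xor_false]
        change PR (upO p) s (g x, false) (g (p x), labO p x)
        by_cases h : x = n + 3
        · rw [h, hp.out _ le_rfl, labOut hp le_rfl]
          exact Relation.ReflTransGen.refl
        · have hx' : x < n + 3 := by omega
          rw [gne x hx', gne _ (hp.lt x hx')]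
          exact up' rfl (by change xor false (labO p x) = _; rw [Bool.false_xor])
      have h2 : ∀ x, x < n + 4 → PR (upO p) s (g x, false)
          (g (d.1 x), xor (d.2 x) false) := by
        intro x hx
        rw [Bool.xor_false]
        by_cases h : x < n
        · have := slt x h
          rw [d1 x h, m1 x h, gne x (by omega), gne _ (by omega)]
          exact dn' rfl (Bool.false_xor _)
        · have h' : x = n ∨ x = n + 1 ∨ x = n + 2 ∨ x = n + 3 := by omega
          rcases h' with h' | h' | h' | h'
          · rw [h', d2, m2, g3, gne n (by omega)]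
            exact Relation.ReflTransGen.refl
          · rw [h', d4, m4]
            exact Relation.ReflTransGen.refl
          · rw [h', d5, m5]
            exact Relation.ReflTransGen.refl
          · rw [h', d3, m3, g3, gne n (by omega)]
            exact Relation.ReflTransGen.refl
      rintro ⟨a, b, ha, ha', hb, hb', hab, hPR⟩
      have h3 := PR.map (fun x => x < n + 4) g (fun _ => false)
        (fun x hx => by
          change p x < n + 4
          by_cases h : x < n + 3
          · have := hp.lt x h; omega
          · rw [hp.out x (by omega)]; exact hx)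
        (fun x hx => by
          change d.1 x < n + 4
          by_cases h : x < n
          · have := slt x h
            rw [d1 x h]; omega
          · have hx' : x < n + 4 := hx
            have h' : x = n ∨ x = n + 1 ∨ x = n + 2 ∨ x = n + 3 := by omega
            rcases h' with h' | h' | h' | h'
            · rw [h', d2]; omega
            · rw [h', d4]; omega
            · rw [h', d5]; omega
            · rw [h', d3]; omega)
        h1 h2 (show a < n + 4 by omega) hPR
      rw [Bool.xor_false, Bool.xor_false] at h3
      refine ⟨g a, g b, ?_, ?_, ?_, ?_, ?_, h3⟩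
      all_goals
        simp only [hg]
        split_ifs <;> omega
    · set f : ℕ → ℕ := fun x => if x = n then n + 3 else x with hf
      have fne : ∀ x, x ≠ n → f x = x := by
        intro x hx
        simp only [hf]
        rw [if_neg hx]
      have fn : f n = n + 3 := by simp only [hf]; rw [if_pos trivial]
      have small : ∀ ε : Bool, PR (upO p) d (n, ε) (n + 3, ε) := fun ε =>
        dn' d2 (by rw [m2, Bool.xor_false])
      have small' : ∀ ε : Bool, PR (upO p) d (n + 3, ε) (n, ε) := fun ε =>
        dn' d3 (by rw [m3, Bool.xor_false])
      have stp : ∀ x, PR (upO p) d (x, false) (p x, labO p x) := fun x =>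
        up' rfl (by change xor false (labO p x) = _; rw [Bool.false_xor])
      have h1 : ∀ x, x < n + 3 → PR (upO p) d (f x, false)
          (f ((upO p).1 x), xor ((upO p).2 x) false) := by
        intro x hx
        rw [Bool.xor_false]
        change PR (upO p) d (f x, false) (f (p x), labO p x)
        by_cases h : x = n
        · by_cases h' : p n = n
          · rw [h, h', labFix h']
            exact Relation.ReflTransGen.refl
          · rw [h, fn, fne _ h']
            exact (small' false).trans (stp n)
        · rw [fne x h]
          by_cases h' : p x = n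
          · rw [h', fn]
            have := stp x
            rw [h'] at this
            exact this.trans (small _)
          · rw [fne _ h']
            exact stp x
      have h2 : ∀ x, x < n + 3 → PR (upO p) d (f x, false)
          (f (s.1 x), xor (s.2 x) false) := by
        intro x hx
        rw [Bool.xor_false]
        by_cases h : x < n
        · have := slt x h
          rw [fne x (by omega), fne _ (by omega)]
          exact dn' (d1 x h) (by rw [m1 x h, Bool.false_xor])
        · rw [sout x (by omega), slab x (by omega)]
          exact Relation.ReflTransGen.refl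
      rintro ⟨a, b, ha, ha', hb, hb', hab, hPR⟩
      have h3 := PR.map (fun x => x < n + 3) f (fun _ => false)
        (fun x hx => hp.lt x hx)
        (fun x hx => by
          change s.1 x < n + 3
          by_cases h : x < n
          · have := slt x h
            omega
          · rw [sout x (by omega)]; exact hx)
        h1 h2 (show a < n + 3 by omega) hPR
      rw [Bool.xor_false, Bool.xor_false] at h3
      refine ⟨f a, f b, ?_, ?_, ?_, ?_, ?_, h3⟩
      all_goals
        simp only [hf]
        split_ifs <;> omega
  classical
  unfold B3 B2
  rw [← hd]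
  simp only [key]

end Pool.Agent.Perc
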