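import Pool.Agent.Lib.MP_6bd702_perc3.TriC

/-!
# A small arc at the seam between the common site `0` and the last `D`-site (task TriD)

Renaming of nodes with a change of the parities at the old site `0` (`PR.map` with offsets).
-/

set_option autoImplicit false

namespace Pool.Agent.Perc

open Finset TriC

variable {n : ℕ} {s : St} {p : ℕ → ℕ}

namespace TriD

theorem xor_not' (a b : Bool) : xor a (!b) = !xor a b := by cases a <;> cases b <;> rfl

theorem xor_true_not (b : Bool) : xor true b = !b := by cases b <;> rfl

end TriD

open TriD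

/-- The upper `D`-site `n + 3` is joined to the site `0` across the seam. -/
theorem B3_seam (hs : IsAnn (n + 1) s) (hp : NCO (n + 2) p) :
    B3 (n + 1) s (cupO (n + 2) p) = B2 n (rotL (n + 1) s) p := by
  have slt : ∀ x < n + 1, s.1 x < n + 1 := hs.nc.lt
  have sout : ∀ x, n + 1 ≤ x → s.1 x = x := hs.nc.out
  have slab : ∀ x, n + 1 ≤ x → s.2 x = false := hs.out
  have s0 : s.1 0 ≠ 0 := hs.nc.ne 0 (by omega)
  have s0' := slt 0 (by omega)
  set d := dnO n (rotL (n + 1) s) with hd
  set u' := upO (cupO (n + 2) p) with hu'
  -- the rotated state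
  have r1 : ∀ x, x < n → s.1 (x + 1) ≠ 0 → (rotL (n + 1) s).1 x = s.1 (x + 1) - 1 := by
    intro x hx h
    change (if x < n + 1 then _ else _) = _
    rw [if_pos (by omega), if_neg (show ¬ x + 1 = n + 1 by omega)]
    change (if s.1 (x + 1) = 0 then _ else _) = _
    rw [if_neg h]
  have r2 : ∀ x, x < n → s.1 (x + 1) = 0 → (rotL (n + 1) s).1 x = n := by
    intro x hx h
    change (if x < n + 1 then _ else _) = _
    rw [if_pos (by omega), if_neg (show ¬ x + 1 = n + 1 by omega)]
    change (if s.1 (x + 1) = 0 then _ else _) = _
    rw [if_pos h]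
    omega
  have r3 : (rotL (n + 1) s).1 n = s.1 0 - 1 := by
    change (if n < n + 1 then _ else _) = _
    rw [if_pos (by omega), if_pos rfl]
    change (if s.1 0 = 0 then _ else _) = _
    rw [if_neg s0]
  have r4 : ∀ x, n + 1 ≤ x → (rotL (n + 1) s).1 x = x := by
    intro x hx
    change (if x < n + 1 then _ else _) = _
    rw [if_neg (by omega)]
  have k1 : ∀ x, x < n → s.1 (x + 1) ≠ 0 → (rotL (n + 1) s).2 x = s.2 (x + 1) := by
    intro x hx h
    change (if x < n + 1 then _ else _) = _
    rw [if_pos (by omega), if_neg (by push Not; exact ⟨by omega, h⟩)]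
  have k2 : ∀ x, x < n → s.1 (x + 1) = 0 → (rotL (n + 1) s).2 x = !s.2 (x + 1) := by
    intro x hx h
    change (if x < n + 1 then _ else _) = _
    rw [if_pos (by omega), if_pos (Or.inr h), if_neg (show ¬ x + 1 = n + 1 by omega)]
  have k3 : (rotL (n + 1) s).2 n = !s.2 0 := by
    change (if n < n + 1 then _ else _) = _
    rw [if_pos (by omega), if_pos (Or.inl rfl), if_pos rfl]
  have k4 : ∀ x, n + 1 ≤ x → (rotL (n + 1) s).2 x = false := by
    intro x hx
    change (if x < n + 1 then _ else _) = _
    rw [if_neg (by omega)]
  -- the renamed rotated state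
  have d1 : ∀ x, x < n → s.1 (x + 1) ≠ 0 → d.1 x = s.1 (x + 1) - 1 := by
    intro x hx h
    have h1 := slt (x + 1) (by omega)
    rw [hd, dnO_lt hx (by rw [r1 x hx h]; omega) (by rw [r1 x hx h]; omega), r1 x hx h]
  have d2 : ∀ x, x < n → s.1 (x + 1) = 0 → d.1 x = n + 2 := by
    intro x hx h
    rw [hd, dnO_lt_eq hx (r2 x hx h)]
  have d3 : d.1 (n + 2) = s.1 0 - 1 := by
    rw [hd]
    exact dnO_two r3 (by omega) (by omega)
  have d4 : d.1 n = n := dnO_self (r4 _ (by omega))
  have d5 : d.1 (n + 1) = n + 1 := dnO_succ (r4 _ (by omega))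
  have m1 : ∀ x, x < n → s.1 (x + 1) ≠ 0 → d.2 x = s.2 (x + 1) := by
    intro x hx h
    rw [hd, dnO_lab_lt hx, k1 x hx h]
  have m2 : ∀ x, x < n → s.1 (x + 1) = 0 → d.2 x = !s.2 (x + 1) := by
    intro x hx h
    rw [hd, dnO_lab_lt hx, k2 x hx h]
  have m3 : d.2 (n + 2) = !s.2 0 := by rw [hd, dnO_lab_two, k3]
  have m4 : d.2 n = false := by rw [hd, dnO_lab_self, k4 _ (by omega)]
  have m5 : d.2 (n + 1) = false := by rw [hd, dnO_lab_succ, k4 _ (by omega)]
  -- the upper state
  have u1 : u'.1 0 = n + 3 := by
    change cupO (n + 2) p 0 = _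
    unfold cupO
    rw [if_pos rfl]
  have u2 : u'.1 (n + 3) = 0 := by
    change cupO (n + 2) p (n + 3) = _
    unfold cupO
    rw [if_neg (by omega), if_pos rfl]
  have u3 : ∀ x, x < n + 2 → u'.1 (x + 1) = p x + 1 := by
    intro x hx
    change cupO (n + 2) p (x + 1) = _
    unfold cupO
    rw [if_neg (by omega), if_neg (by omega), if_pos (by omega), Nat.add_sub_cancel]
  have v1 : u'.2 0 = true := labO_cupO_zero hp
  have v2 : u'.2 (n + 3) = true := labO_cupO_last hp
  have v3 : ∀ x, x < n + 2 → u'.2 (x + 1) = labO p x := fun x hx => labO_cupO_succ hp hx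
  have key : Tri (n + 1) u' s ↔ Tri n (upO p) d := by
    constructor
    · set g : ℕ → ℕ := fun x => if x = 0 then n + 2 else x - 1 with hg
      set θ : ℕ → Bool := fun x => decide (x = 0) with hθ
      have g0 : g 0 = n + 2 := by simp only [hg]; rw [if_pos trivial]
      have g1 : ∀ x, g (x + 1) = x := by
        intro x
        simp only [hg]
        rw [if_neg (by omega), Nat.add_sub_cancel]
      have t0 : θ 0 = true := by simp [hθ]
      have t1 : ∀ x, θ (x + 1) = false := by intro x; simp [hθ]
      have h1 : ∀ x, x < n + 4 → PR (upO p) d (g x, θ x) (g (u'.1 x), xor (u'.2 x) (θ (u'.1 x))) := by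
        intro x hx
        rcases Nat.eq_zero_or_pos x with h | h
        · rw [h, u1, v1, g0, t0, g1, t1, Bool.xor_false]
          exact Relation.ReflTransGen.refl
        · obtain ⟨y, rfl⟩ : ∃ y, x = y + 1 := ⟨x - 1, by omega⟩
          by_cases h' : y = n + 2
          · rw [h', u2, v2, g0, t0, g1, t1]
            exact Relation.ReflTransGen.refl
          · have hy : y < n + 2 := by omega
            rw [u3 y hy, v3 y hy, g1, t1, g1, t1, Bool.xor_false]
            exact up' rfl (by change xor false (labO p y) = _; rw [Bool.false_xor])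
      have h2 : ∀ x, x < n + 4 → PR (upO p) d (g x, θ x) (g (s.1 x), xor (s.2 x) (θ (s.1 x))) := by
        intro x hx
        rcases Nat.eq_zero_or_pos x with h | h
        · obtain ⟨z, hz⟩ : ∃ z, s.1 0 = z + 1 := ⟨s.1 0 - 1, by omega⟩
          rw [h, g0, t0, hz, g1, t1, Bool.xor_false]
          refine dn' ?_ ?_
          · rw [d3, hz, Nat.add_sub_cancel]
          · rw [m3, xor_true_not, Bool.not_not]
        · obtain ⟨y, rfl⟩ : ∃ y, x = y + 1 := ⟨x - 1, by omega⟩
          rw [g1, t1]
          by_cases hy : y < n
          · by_cases h0 : s.1 (y + 1) = 0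
            · rw [h0, g0, t0]
              refine dn' (d2 y hy h0) ?_
              rw [m2 y hy h0, Bool.false_xor, Bool.xor_true]
            · obtain ⟨z, hz⟩ : ∃ z, s.1 (y + 1) = z + 1 := ⟨s.1 (y + 1) - 1, by omega⟩
              rw [hz, g1, t1, Bool.xor_false]
              refine dn' ?_ ?_
              · rw [d1 y hy h0, hz, Nat.add_sub_cancel]
              · rw [m1 y hy h0, Bool.false_xor]
          · rw [sout (y + 1) (by omega), slab (y + 1) (by omega), g1, t1]
            exact Relation.ReflTransGen.refl
      rintro ⟨a, b, ha, ha', hb, hb', hab, hPR⟩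
      have h3 := PR.map (fun x => x < n + 4) g θ
        (fun x hx => (hp.cupO).lt x hx)
        (fun x hx => by
          change s.1 x < n + 4
          by_cases h : x < n + 1
          · have := slt x h
            omega
          · rw [sout x (by omega)]; exact hx)
        h1 h2 (show a < n + 4 by omega) hPR
      obtain ⟨a', rfl⟩ : ∃ a', a = a' + 1 := ⟨a - 1, by omega⟩
      obtain ⟨b', rfl⟩ : ∃ b', b = b' + 1 := ⟨b - 1, by omega⟩
      rw [t1, t1, Bool.xor_false, Bool.xor_false, g1, g1] at h3
      exact ⟨a', b', by omega, by omega, by omega, by omega, by omega, h3⟩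
    · have small : ∀ ε : Bool, PR u' s (0, ε) (n + 3, !ε) := fun ε =>
        up' u1 (by rw [v1, Bool.xor_true])
      have small' : ∀ ε : Bool, PR u' s (n + 3, ε) (0, !ε) := fun ε =>
        up' u2 (by rw [v2, Bool.xor_true])
      have h1 : ∀ x, x < n + 3 → PR u' s (x + 1, false)
          ((upO p).1 x + 1, xor ((upO p).2 x) false) := by
        intro x hx
        rw [Bool.xor_false]
        change PR u' s (x + 1, false) (p x + 1, labO p x)
        by_cases h : x = n + 2
        · rw [h, hp.out _ le_rfl, labOut hp le_rfl]
          exact Relation.ReflTransGen.refl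
        · exact up' (u3 x (by omega)) (by rw [v3 x (by omega), Bool.false_xor])
      have h2 : ∀ x, x < n + 3 → PR u' s (x + 1, false) (d.1 x + 1, xor (d.2 x) false) := by
        intro x hx
        rw [Bool.xor_false]
        rcases lt_trichotomy x n with h | h | h
        · by_cases h0 : s.1 (x + 1) = 0
          · rw [d2 x h h0, m2 x h h0]
            have h3 : PR u' s (x + 1, false) (0, s.2 (x + 1)) := dn' h0 (Bool.false_xor _)
            exact h3.trans (small _)
          · rw [d1 x h h0, m1 x h h0]
            refine dn' ?_ (Bool.false_xor _)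
            omega
        · rw [h, d4, m4]
          exact Relation.ReflTransGen.refl
        · by_cases h4 : x = n + 1
          · rw [h4, d5, m5]
            exact Relation.ReflTransGen.refl
          · have h5 : x = n + 2 := by omega
            rw [h5, d3, m3]
            have h6 : PR u' s (0, true) (s.1 0 - 1 + 1, !s.2 0) :=
              dn' (by omega) (by rw [xor_true_not])
            exact (small' false).trans h6
      rintro ⟨a, b, ha, ha', hb, hb', hab, hPR⟩
      have h3 := PR.map (fun x => x < n + 3) (fun x => x + 1) (fun _ => false)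
        (fun x hx => by
          change p x < n + 3
          by_cases h : x < n + 2
          · have := hp.lt x h; omega
          · rw [hp.out x (by omega)]; exact hx)
        (fun x hx => by
          change d.1 x < n + 3
          have hx' : x < n + 3 := hx
          rcases lt_trichotomy x n with h | h | h
          · by_cases h0 : s.1 (x + 1) = 0
            · rw [d2 x h h0]; omega
            · have := slt (x + 1) (by omega)
              rw [d1 x h h0]; omega
          · rw [h, d4]; omega
          · by_cases h4 : x = n + 1
            · rw [h4, d5]; omega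
            · have h5 : x = n + 2 := by omega
              rw [h5, d3]; omega)
        h1 h2 (show a < n + 3 by omega) hPR
      rw [Bool.xor_false, Bool.xor_false] at h3
      exact ⟨a + 1, b + 1, by omega, by omega, by omega, by omega, by omega, h3⟩
  classical
  unfold B3 B2
  rw [← hd, ← hu']
  simp only [key]

/-- The lower `D`-site `n + 1` is joined to the site `0` across the seam. -/
theorem B2_seam (hs : IsAnn n s) (hp : NCO (n + 3) p) :
    B2 (n + 1) (cupL n s) p = B3 n s (rotP (n + 3) p) := by
  have slt : ∀ x < n, s.1 x < n := hs.nc.lt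
  have sout : ∀ x, n ≤ x → s.1 x = x := hs.nc.out
  have slab : ∀ x, n ≤ x → s.2 x = false := hs.out
  set d' := dnO (n + 1) (cupL n s) with hd'
  set u := upO (rotP (n + 3) p) with hu
  -- the lower state with the arc across the seam
  have c1 : (cupL n s).1 0 = n + 1 := by
    change cupO n s.1 0 = _
    unfold cupO
    rw [if_pos rfl]
  have c2 : (cupL n s).1 (n + 1) = 0 := by
    change cupO n s.1 (n + 1) = _
    unfold cupO
    rw [if_neg (by omega), if_pos rfl]
  have c3 : ∀ x, x < n → (cupL n s).1 (x + 1) = s.1 x + 1 := by
    intro x hx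
    change cupO n s.1 (x + 1) = _
    unfold cupO
    rw [if_neg (by omega), if_neg (by omega), if_pos (by omega), Nat.add_sub_cancel]
  have c4 : ∀ x, n + 2 ≤ x → (cupL n s).1 x = x := by
    intro x hx
    change cupO n s.1 x = _
    unfold cupO
    rw [if_neg (by omega), if_neg (by omega), if_neg (by omega)]
  have k1 : (cupL n s).2 0 = true := by
    unfold cupL
    simp
  have k2 : (cupL n s).2 (n + 1) = true := by
    unfold cupL
    simp
  have k3 : ∀ x, x < n → (cupL n s).2 (x + 1) = s.2 x := by
    intro x hx
    change (if x + 1 = 0 ∨ x + 1 = n + 1 then true else if x + 1 < n + 1 then s.2 (x + 1 - 1)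
      else false) = _
    rw [if_neg (by omega), if_pos (by omega), Nat.add_sub_cancel]
  have k4 : ∀ x, n + 2 ≤ x → (cupL n s).2 x = false := by
    intro x hx
    change (if x = 0 ∨ x = n + 1 then true else if x < n + 1 then s.2 (x - 1)
      else false) = _
    rw [if_neg (by omega), if_neg (by omega)]
  have d0 : d'.1 0 = n + 3 := dnO_lt_eq (n := n + 1) (by omega) c1
  have d1 : ∀ x, x < n → d'.1 (x + 1) = s.1 x + 1 := by
    intro x hx
    have := slt x hx
    rw [hd', dnO_lt (by omega) (by rw [c3 x hx]; omega) (by rw [c3 x hx]; omega), c3 x hx]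
  have d3 : d'.1 (n + 3) = 0 := dnO_two (n := n + 1) c2 (by omega) (by omega)
  have d4 : d'.1 (n + 1) = n + 1 := dnO_self (n := n + 1) (c4 _ (by omega))
  have d5 : d'.1 (n + 2) = n + 2 := dnO_succ (n := n + 1) (c4 _ (by omega))
  have m0 : d'.2 0 = true := by rw [hd', dnO_lab_lt (by omega), k1]
  have m1 : ∀ x, x < n → d'.2 (x + 1) = s.2 x := by
    intro x hx
    rw [hd', dnO_lab_lt (by omega), k3 x hx]
  have m3 : d'.2 (n + 3) = true := by
    have := dnO_lab_two (n := n + 1) (s := cupL n s)
    rw [k2] at this
    exact this
  have m4 : d'.2 (n + 1) = false := by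
    have := dnO_lab_self (n := n + 1) (s := cupL n s)
    rw [k4 _ (by omega)] at this
    exact this
  have m5 : d'.2 (n + 2) = false := by
    have := dnO_lab_succ (n := n + 1) (s := cupL n s)
    rw [k4 _ (by omega)] at this
    exact this
  -- the rotated upper state
  have plt := hp.lt
  have u1 : ∀ x, x < n + 2 → p (x + 1) ≠ 0 → u.1 x = p (x + 1) - 1 := by
    intro x hx h
    change rotP (n + 3) p x = _
    unfold rotP
    rw [if_pos (by omega), if_neg (show ¬ x + 1 = n + 3 by omega)]
    change (if p (x + 1) = 0 then _ else _) = _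
    rw [if_neg h]
  have u2 : ∀ x, x < n + 2 → p (x + 1) = 0 → u.1 x = n + 2 := by
    intro x hx h
    change rotP (n + 3) p x = _
    unfold rotP
    rw [if_pos (by omega), if_neg (show ¬ x + 1 = n + 3 by omega)]
    change (if p (x + 1) = 0 then _ else _) = _
    rw [if_pos h]
    omega
  have u3 : p 0 ≠ 0 → u.1 (n + 2) = p 0 - 1 := by
    intro h
    change rotP (n + 3) p (n + 2) = _
    unfold rotP
    rw [if_pos (by omega), if_pos rfl]
    change (if p 0 = 0 then _ else _) = _
    rw [if_neg h]
  have u3' : p 0 = 0 → u.1 (n + 2) = n + 2 := by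
    intro h
    change rotP (n + 3) p (n + 2) = _
    unfold rotP
    rw [if_pos (by omega), if_pos rfl]
    change (if p 0 = 0 then _ else _) = _
    rw [if_pos h]
    omega
  have v1 : ∀ x, x < n + 2 → p (x + 1) ≠ 0 → u.2 x = labO p (x + 1) := by
    intro x hx h
    have h1 := labO_rotP hp (x := x + 1) (by omega)
    rw [PatB.rh, if_neg (by omega), if_neg (by rintro ⟨-, h2 | h2⟩ <;> omega),
      Nat.add_sub_cancel] at h1
    exact h1
  have v2 : ∀ x, x < n + 2 → p (x + 1) = 0 → u.2 x = !labO p (x + 1) := by
    intro x hx h
    have h1 := labO_rotP hp (x := x + 1) (by omega)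
    rw [PatB.rh, if_neg (by omega), if_pos ⟨by omega, Or.inr h⟩, Nat.add_sub_cancel] at h1
    exact h1
  have v3 : p 0 ≠ 0 → u.2 (n + 2) = !labO p 0 := by
    intro h
    have h1 := labO_rotP hp (x := 0) (by omega)
    rw [PatB.rh, if_pos rfl, if_pos ⟨h, Or.inl rfl⟩] at h1
    exact h1
  have v3' : p 0 = 0 → u.2 (n + 2) = false := by
    intro h
    exact labFix (u3' h)
  have key : Tri (n + 1) (upO p) d' ↔ Tri n u s := by
    constructor
    · set g : ℕ → ℕ := fun x => if x = 0 then n + 2 else x - 1 with hg
      set θ : ℕ → Bool := fun x => decide (x = 0) with hθ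
      have g0 : g 0 = n + 2 := by simp only [hg]; rw [if_pos trivial]
      have g1 : ∀ x, g (x + 1) = x := by
        intro x
        simp only [hg]
        rw [if_neg (by omega), Nat.add_sub_cancel]
      have t0 : θ 0 = true := by simp [hθ]
      have t1 : ∀ x, θ (x + 1) = false := by intro x; simp [hθ]
      have h1 : ∀ x, x < n + 4 → PR u s (g x, θ x)
          (g ((upO p).1 x), xor ((upO p).2 x) (θ ((upO p).1 x))) := by
        intro x hx
        change PR u s (g x, θ x) (g (p x), xor (labO p x) (θ (p x)))
        rcases Nat.eq_zero_or_pos x with h | h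
        · rw [h]
          by_cases h0 : p 0 = 0
          · rw [h0, labFix h0, Bool.false_xor]
            exact Relation.ReflTransGen.refl
          · obtain ⟨z, hz⟩ : ∃ z, p 0 = z + 1 := ⟨p 0 - 1, by omega⟩
            rw [g0, t0, hz, g1, t1, Bool.xor_false]
            refine up' ?_ ?_
            · rw [u3 h0, hz, Nat.add_sub_cancel]
            · rw [v3 h0, xor_true_not, Bool.not_not]
        · obtain ⟨y, rfl⟩ : ∃ y, x = y + 1 := ⟨x - 1, by omega⟩
          by_cases h' : y = n + 2
          · rw [h', hp.out _ le_rfl, labOut hp le_rfl, g1, t1]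
            exact Relation.ReflTransGen.refl
          · have hy : y < n + 2 := by omega
            rw [g1, t1]
            by_cases h0 : p (y + 1) = 0
            · rw [h0, g0, t0]
              refine up' (u2 y hy h0) ?_
              rw [v2 y hy h0, Bool.false_xor, Bool.xor_true]
            · obtain ⟨z, hz⟩ : ∃ z, p (y + 1) = z + 1 := ⟨p (y + 1) - 1, by omega⟩
              rw [hz, g1, t1, Bool.xor_false]
              refine up' ?_ ?_
              · rw [u1 y hy h0, hz, Nat.add_sub_cancel]
              · rw [v1 y hy h0, Bool.false_xor]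
      have h2 : ∀ x, x < n + 4 → PR u s (g x, θ x) (g (d'.1 x), xor (d'.2 x) (θ (d'.1 x))) := by
        intro x hx
        rcases Nat.eq_zero_or_pos x with h | h
        · rw [h, d0, m0, g0, t0, g1, t1, Bool.xor_false]
          exact Relation.ReflTransGen.refl
        · obtain ⟨y, rfl⟩ : ∃ y, x = y + 1 := ⟨x - 1, by omega⟩
          rw [g1, t1]
          by_cases hy : y < n
          · rw [d1 y hy, m1 y hy, g1, t1, Bool.xor_false]
            exact dn' rfl (Bool.false_xor _)
          · have h' : y = n ∨ y = n + 1 ∨ y = n + 2 := by omega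
            rcases h' with h' | h' | h'
            · rw [h', d4, m4, g1, t1]
              exact Relation.ReflTransGen.refl
            · rw [h', d5, m5, g1, t1]
              exact Relation.ReflTransGen.refl
            · rw [h', d3, m3, g0, t0]
              exact Relation.ReflTransGen.refl
      rintro ⟨a, b, ha, ha', hb, hb', hab, hPR⟩
      have h3 := PR.map (fun x => x < n + 4) g θ
        (fun x hx => by
          change p x < n + 4
          by_cases h : x < n + 3
          · have := hp.lt x h; omega
          · rw [hp.out x (by omega)]; exact hx)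
        (fun x hx => by
          change d'.1 x < n + 4
          have hx' : x < n + 4 := hx
          rcases Nat.eq_zero_or_pos x with h | h
          · rw [h, d0]; omega
          · obtain ⟨y, rfl⟩ : ∃ y, x = y + 1 := ⟨x - 1, by omega⟩
            by_cases hy : y < n
            · have := slt y hy
              rw [d1 y hy]; omega
            · have h' : y = n ∨ y = n + 1 ∨ y = n + 2 := by omega
              rcases h' with h' | h' | h'
              · rw [h', d4]; omega
              · rw [h', d5]; omega
              · rw [h', d3]; omega)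
        h1 h2 (show a < n + 4 by omega) hPR
      obtain ⟨a', rfl⟩ : ∃ a', a = a' + 1 := ⟨a - 1, by omega⟩
      obtain ⟨b', rfl⟩ : ∃ b', b = b' + 1 := ⟨b - 1, by omega⟩
      rw [t1, t1, Bool.xor_false, Bool.xor_false, g1, g1] at h3
      exact ⟨a', b', by omega, by omega, by omega, by omega, by omega, h3⟩
    · have small : ∀ ε : Bool, PR (upO p) d' (0, ε) (n + 3, !ε) := fun ε =>
        dn' d0 (by rw [m0, Bool.xor_true])
      have small' : ∀ ε : Bool, PR (upO p) d' (n + 3, ε) (0, !ε) := fun ε =>
        dn' d3 (by rw [m3, Bool.xor_true])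
      have h1 : ∀ x, x < n + 3 → PR (upO p) d' (x + 1, false) (u.1 x + 1, xor (u.2 x) false) := by
        intro x hx
        rw [Bool.xor_false]
        by_cases h : x = n + 2
        · rw [h]
          by_cases h0 : p 0 = 0
          · rw [u3' h0, v3' h0]
            exact Relation.ReflTransGen.refl
          · rw [u3 h0, v3 h0]
            have h6 : PR (upO p) d' (0, true) (p 0 - 1 + 1, !labO p 0) :=
              up' (by change p 0 = _; omega) (by change xor true (labO p 0) = _; rw [xor_true_not])
            exact (small' false).trans h6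
        · have hx' : x < n + 2 := by omega
          by_cases h0 : p (x + 1) = 0
          · rw [u2 x hx' h0, v2 x hx' h0]
            have h3 : PR (upO p) d' (x + 1, false) (0, labO p (x + 1)) :=
              up' h0 (Bool.false_xor _)
            exact h3.trans (small _)
          · rw [u1 x hx' h0, v1 x hx' h0]
            exact up' (by change p (x + 1) = _; omega) (Bool.false_xor _)
      have h2 : ∀ x, x < n + 3 → PR (upO p) d' (x + 1, false) (s.1 x + 1, xor (s.2 x) false) := by
        intro x hx
        rw [Bool.xor_false]
        by_cases h : x < n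
        · exact dn' (d1 x h) (by rw [m1 x h, Bool.false_xor])
        · rw [sout x (by omega), slab x (by omega)]
          exact Relation.ReflTransGen.refl
      rintro ⟨a, b, ha, ha', hb, hb', hab, hPR⟩
      have h3 := PR.map (fun x => x < n + 3) (fun x => x + 1) (fun _ => false)
        (fun x hx => by
          change u.1 x < n + 3
          have hx' : x < n + 3 := hx
          by_cases h : x = n + 2
          · rw [h]
            by_cases h0 : p 0 = 0
            · rw [u3' h0]; omega
            · have := plt 0 (by omega)
              rw [u3 h0]; omega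
          · by_cases h0 : p (x + 1) = 0
            · rw [u2 x (by omega) h0]; omega
            · have := plt (x + 1) (by omega)
              rw [u1 x (by omega) h0]; omega)
        (fun x hx => by
          change s.1 x < n + 3
          by_cases h : x < n
          · have := slt x h
            omega
          · rw [sout x (by omega)]; exact hx)
        h1 h2 (show a < n + 3 by omega) hPR
      rw [Bool.xor_false, Bool.xor_false] at h3
      exact ⟨a + 1, b + 1, by omega, by omega, by omega, by omega, by omega, h3⟩
  classical
  unfold B3 B2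
  rw [← hd', ← hu]
  simp only [key]

end Pool.Agent.Perc
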