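import Pool.Agent.Lib.MP_6bd702_perc3.TriA
import Pool.Agent.Lib.MP_6bd702_perc3.TriB
import Pool.Agent.Lib.MP_6bd702_perc3.TriC
import Pool.Agent.Lib.MP_6bd702_perc3.TriD
import Pool.Agent.Lib.MP_6bd702_perc3.PsiODefs
import Pool.Agent.Lib.MP_6bd702_perq.PairE

/-!
# The bilinear forms (task TriE)

Model: perq/PairE.lean.
-/

set_option autoImplicit false

namespace Pool.Agent.Perc

open Finset

variable {n : ℕ}

/-- The form with three upper `D`-sites. -/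
noncomputable def V3 (n : ℕ) (f : St →₀ ℂ) (g : (ℕ → ℕ) →₀ ℂ) : ℂ :=
  ∑ s ∈ anns n, ∑ p ∈ nco (n + 3), f s * g p * B3 n s p

/-- The form with two upper and one lower `D`-site. -/
noncomputable def V2 (n : ℕ) (f : St →₀ ℂ) (g : (ℕ → ℕ) →₀ ℂ) : ℂ :=
  ∑ s ∈ anns (n + 1), ∑ p ∈ nco (n + 2), f s * g p * B2 n s p

/-! ## Vectors supported on odd states -/

namespace TriE

theorem supp_subset {N : ℕ} {f : (ℕ → ℕ) →₀ ℂ} (hf : SuppO N f) : f.support ⊆ nco N := by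
  intro s hs
  rw [mem_nco]
  exact hf s (Finsupp.mem_support_iff.1 hs)

theorem supp_map {N M : ℕ} {f : (ℕ → ℕ) →₀ ℂ} (hf : SuppO N f) {φ : (ℕ → ℕ) → (ℕ → ℕ)}
    (hφ : ∀ s, NCO N s → NCO M (φ s)) : SuppO M (f.mapDomain φ) := by
  classical
  intro s hs
  have h1 : s ∈ (f.mapDomain φ).support := Finsupp.mem_support_iff.2 hs
  obtain ⟨t, ht, rfl⟩ := Finset.mem_image.1 (Finsupp.mapDomain_support h1)
  exact hφ t (hf t (Finsupp.mem_support_iff.1 ht))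

/-- Sums over the odd states of a push-forward. -/
theorem sum_map {N M : ℕ} {f : (ℕ → ℕ) →₀ ℂ} (hf : SuppO N f) {φ : (ℕ → ℕ) → (ℕ → ℕ)}
    (hφ : ∀ s, NCO N s → NCO M (φ s)) (h : (ℕ → ℕ) → ℂ) :
    ∑ s ∈ nco M, f.mapDomain φ s * h s = ∑ s ∈ nco N, f s * h (φ s) := by
  have h1 : (f.mapDomain φ).sum (fun s c => c * h s) = f.sum fun s c => c * h (φ s) :=
    Finsupp.sum_mapDomain_index (fun b => by simp) (fun b m₁ m₂ => by ring)
  rw [Finsupp.sum_of_support_subset _ (supp_subset (supp_map hf hφ)) _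
    (fun s _ => by simp),
    Finsupp.sum_of_support_subset _ (supp_subset hf) _ (fun s _ => by simp)] at h1
  exact h1

/-- A general bilinear form. -/
noncomputable def W (N M : ℕ) (K : St → (ℕ → ℕ) → ℂ) (f : St →₀ ℂ) (g : (ℕ → ℕ) →₀ ℂ) : ℂ :=
  ∑ s ∈ anns N, ∑ p ∈ nco M, f s * g p * K s p

variable {N M : ℕ} {K : St → (ℕ → ℕ) → ℂ}

theorem W_add_left (f f' : St →₀ ℂ) (g : (ℕ → ℕ) →₀ ℂ) :
    W N M K (f + f') g = W N M K f g + W N M K f' g := by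
  unfold W
  rw [← sum_add_distrib]
  refine sum_congr rfl fun s' _ => ?_
  rw [← sum_add_distrib]
  refine sum_congr rfl fun s _ => ?_
  rw [Finsupp.add_apply]
  ring

theorem W_add_right (f : St →₀ ℂ) (g g' : (ℕ → ℕ) →₀ ℂ) :
    W N M K f (g + g') = W N M K f g + W N M K f g' := by
  unfold W
  rw [← sum_add_distrib]
  refine sum_congr rfl fun s' _ => ?_
  rw [← sum_add_distrib]
  refine sum_congr rfl fun s _ => ?_
  rw [Finsupp.add_apply]
  ring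

theorem W_smul_left (c : ℂ) (f : St →₀ ℂ) (g : (ℕ → ℕ) →₀ ℂ) :
    W N M K (c • f) g = c * W N M K f g := by
  unfold W
  rw [mul_sum]
  refine sum_congr rfl fun s' _ => ?_
  rw [mul_sum]
  refine sum_congr rfl fun s _ => ?_
  rw [Finsupp.smul_apply, smul_eq_mul]
  ring

theorem W_smul_right (c : ℂ) (f : St →₀ ℂ) (g : (ℕ → ℕ) →₀ ℂ) :
    W N M K f (c • g) = c * W N M K f g := by
  unfold W
  rw [mul_sum]
  refine sum_congr rfl fun s' _ => ?_
  rw [mul_sum]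
  refine sum_congr rfl fun s _ => ?_
  rw [Finsupp.smul_apply, smul_eq_mul]
  ring

/-- Push-forward of the first vector. -/
theorem W_map_left {N' : ℕ} {f : St →₀ ℂ} (hf : SuppA N f) {φ : St → St}
    (hφ : ∀ s, IsAnn N s → IsAnn N' (φ s)) (g : (ℕ → ℕ) →₀ ℂ) :
    W N' M K (f.mapDomain φ) g = W N M (fun s p => K (φ s) p) f g := by
  unfold W
  have h1 := sum_mapDomain hf hφ fun s' => ∑ p ∈ nco M, g p * K s' p
  refine Eq.trans ?_ (h1.trans ?_)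
  · refine sum_congr rfl fun s' _ => ?_
    rw [mul_sum]
    exact sum_congr rfl fun s _ => by ring
  · refine sum_congr rfl fun s' _ => ?_
    rw [mul_sum]
    exact sum_congr rfl fun s _ => by ring

/-- Push-forward of the second vector. -/
theorem W_map_right {M' : ℕ} {g : (ℕ → ℕ) →₀ ℂ} (hg : SuppO M g) {φ : (ℕ → ℕ) → (ℕ → ℕ)}
    (hφ : ∀ s, NCO M s → NCO M' (φ s)) (f : St →₀ ℂ) :
    W N M' K f (g.mapDomain φ) = W N M (fun s p => K s (φ p)) f g := by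
  unfold W
  refine sum_congr rfl fun s' _ => ?_
  have h1 := sum_map hg hφ fun s => f s' * K s' s
  refine Eq.trans ?_ (h1.trans ?_)
  · exact sum_congr rfl fun s _ => by ring
  · exact sum_congr rfl fun s _ => by ring

theorem W_congr {K' : St → (ℕ → ℕ) → ℂ} (h : ∀ s p, IsAnn N s → NCO M p → K s p = K' s p)
    (f : St →₀ ℂ) (g : (ℕ → ℕ) →₀ ℂ) : W N M K f g = W N M K' f g := by
  unfold W
  refine sum_congr rfl fun s hs => sum_congr rfl fun p hp => ?_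
  rw [h s p (mem_anns.1 hs) (mem_nco.1 hp)]

theorem W_zero (h : ∀ s p, IsAnn N s → NCO M p → K s p = 0)
    (f : St →₀ ℂ) (g : (ℕ → ℕ) →₀ ℂ) : W N M K f g = 0 := by
  unfold W
  refine sum_eq_zero fun s hs => sum_eq_zero fun p hp => ?_
  rw [h s p (mem_anns.1 hs) (mem_nco.1 hp), mul_zero]

end TriE

open TriE

theorem SuppO.add {N : ℕ} {f g : (ℕ → ℕ) →₀ ℂ} (hf : SuppO N f) (hg : SuppO N g) :
    SuppO N (f + g) := by
  intro s hs
  by_cases h : f s = 0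
  · refine hg s fun h' => hs ?_
    rw [Finsupp.add_apply, h, h', add_zero]
  · exact hf s h

theorem SuppO.smul {N : ℕ} {f : (ℕ → ℕ) →₀ ℂ} (hf : SuppO N f) (c : ℂ) : SuppO N (c • f) := by
  intro s hs
  refine hf s fun h => hs ?_
  rw [Finsupp.smul_apply, h, smul_zero]

theorem SuppO.mapDomain {N M : ℕ} {f : (ℕ → ℕ) →₀ ℂ} (hf : SuppO N f) {φ : (ℕ → ℕ) → (ℕ → ℕ)}
    (hφ : ∀ s, NCO N s → NCO M (φ s)) : SuppO M (f.mapDomain φ) := supp_map hf hφ

theorem V3_eq (f : St →₀ ℂ) (g : (ℕ → ℕ) →₀ ℂ) : V3 n f g = W n (n + 3) (B3 n) f g := rfl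

theorem V2_eq (f : St →₀ ℂ) (g : (ℕ → ℕ) →₀ ℂ) : V2 n f g = W (n + 1) (n + 2) (B2 n) f g := rfl

theorem V3_add_left (f f' : St →₀ ℂ) (g : (ℕ → ℕ) →₀ ℂ) :
    V3 n (f + f') g = V3 n f g + V3 n f' g := W_add_left f f' g

theorem V3_add_right (f : St →₀ ℂ) (g g' : (ℕ → ℕ) →₀ ℂ) :
    V3 n f (g + g') = V3 n f g + V3 n f g' := W_add_right f g g'

theorem V3_smul_left (c : ℂ) (f : St →₀ ℂ) (g : (ℕ → ℕ) →₀ ℂ) :
    V3 n (c • f) g = c * V3 n f g := W_smul_left c f g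

theorem V3_smul_right (c : ℂ) (f : St →₀ ℂ) (g : (ℕ → ℕ) →₀ ℂ) :
    V3 n f (c • g) = c * V3 n f g := W_smul_right c f g

theorem V2_add_left (f f' : St →₀ ℂ) (g : (ℕ → ℕ) →₀ ℂ) :
    V2 n (f + f') g = V2 n f g + V2 n f' g := W_add_left f f' g

theorem V2_add_right (f : St →₀ ℂ) (g g' : (ℕ → ℕ) →₀ ℂ) :
    V2 n f (g + g') = V2 n f g + V2 n f g' := W_add_right f g g'

theorem V2_smul_left (c : ℂ) (f : St →₀ ℂ) (g : (ℕ → ℕ) →₀ ℂ) :
    V2 n (c • f) g = c * V2 n f g := W_smul_left c f g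

theorem V2_smul_right (c : ℂ) (f : St →₀ ℂ) (g : (ℕ → ℕ) →₀ ℂ) :
    V2 n f (c • g) = c * V2 n f g := W_smul_right c f g

theorem V3_eL {f : St →₀ ℂ} {g : (ℕ → ℕ) →₀ ℂ} (hf : SuppA n f) (hg : SuppO (n + 3) g) {i : ℕ}
    (hi : i + 1 < n) : V3 n (f.mapDomain (eL i)) g = V3 n f (g.mapDomain (eO i)) := by
  rw [V3_eq, V3_eq, W_map_left hf (fun s hs => hs.eL hi),
    W_map_right hg (fun s hs => hs.eO (by omega))]
  exact W_congr (fun s p hs hp => B3_eL hs hp hi) f g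

theorem V2_eL {f : St →₀ ℂ} {g : (ℕ → ℕ) →₀ ℂ} (hf : SuppA (n + 1) f) (hg : SuppO (n + 2) g)
    {i : ℕ} (hi : i + 1 < n) : V2 n (f.mapDomain (eL i)) g = V2 n f (g.mapDomain (eO i)) := by
  rw [V2_eq, V2_eq, W_map_left hf (fun s hs => hs.eL (by omega)),
    W_map_right hg (fun s hs => hs.eO (by omega))]
  exact W_congr (fun s p hs hp => B2_eL hs hp hi) f g

theorem V3_kill {f : St →₀ ℂ} {g : (ℕ → ℕ) →₀ ℂ} (hf : SuppA n f) (hg : SuppO (n + 3) g) {i : ℕ}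
    (hi : i = n ∨ i = n + 1) : V3 n f (g.mapDomain (eO i)) = 0 := by
  have _ := hf
  rw [V3_eq, W_map_right hg (fun s hs => hs.eO (by omega))]
  exact W_zero (fun s p hs hp => B3_kill hs hp hi) f g

theorem V2_kill {f : St →₀ ℂ} {g : (ℕ → ℕ) →₀ ℂ} (hf : SuppA (n + 1) f) (hg : SuppO (n + 2) g) :
    V2 n f (g.mapDomain (eO n)) = 0 := by
  have _ := hf
  rw [V2_eq, W_map_right hg (fun s hs => hs.eO (by omega))]
  exact W_zero (fun s p hs hp => B2_kill hs hp) f g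

theorem V3_left {f : St →₀ ℂ} {g : (ℕ → ℕ) →₀ ℂ} (hf : SuppA (n + 1) f) (hg : SuppO (n + 2) g) :
    V3 (n + 1) f (g.mapDomain (insArc n)) = V2 n f g := by
  have _ := hf
  rw [V3_eq, V2_eq, W_map_right hg (fun s hs => hs.insArc (by omega))]
  exact W_congr (fun s p hs hp => B3_left hs hp) f g

theorem V2_left {f : St →₀ ℂ} {g : (ℕ → ℕ) →₀ ℂ} (hf : SuppA n f) (hg : SuppO (n + 3) g) :
    V2 (n + 1) (f.mapDomain (insL n)) g = V3 n f g := by
  have _ := hg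
  rw [V3_eq, V2_eq, W_map_left hf (fun s hs => hs.insL le_rfl)]
  exact W_congr (fun s p hs hp => B2_left hs hp) f g

theorem V3_seam {f : St →₀ ℂ} {g : (ℕ → ℕ) →₀ ℂ} (hf : SuppA (n + 1) f) (hg : SuppO (n + 2) g) :
    V3 (n + 1) f (g.mapDomain (cupO (n + 2))) = V2 n (f.mapDomain (rotL (n + 1))) g := by
  rw [V3_eq, V2_eq, W_map_right hg (fun s hs => hs.cupO),
    W_map_left hf (fun s hs => hs.rotL)]
  exact W_congr (fun s p hs hp => B3_seam hs hp) f g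

theorem V2_seam {f : St →₀ ℂ} {g : (ℕ → ℕ) →₀ ℂ} (hf : SuppA n f) (hg : SuppO (n + 3) g) :
    V2 (n + 1) (f.mapDomain (cupL n)) g = V3 n f (g.mapDomain (rotP (n + 3))) := by
  rw [V3_eq, V2_eq, W_map_left hf (fun s hs => hs.cupL),
    W_map_right hg (fun s hs => hs.rotP)]
  exact W_congr (fun s p hs hp => B2_seam hs hp) f g

theorem eOV_idem {N : ℕ} {g : (ℕ → ℕ) →₀ ℂ} (hg : SuppO N g) {i : ℕ} (hi : i + 1 < N) :
    (g.mapDomain (eO i)).mapDomain (eO i) = g.mapDomain (eO i) := by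
  have _ := hi
  rw [← Finsupp.mapDomain_comp]
  refine Finsupp.mapDomain_congr fun s hs => ?_
  exact eO_idem (hg s (Finsupp.mem_support_iff.1 hs)).inv i

end Pool.Agent.Perc
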