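import Pool.Agent.Lib.MP_6bd702_perc3.Uni3Defs
import Pool.Agent.Lib.MP_6bd702_perc3.TriE
import Pool.Agent.Lib.MP_6bd702_perc3.PsiOB

/-!
# The three-leg sums: definitions
-/

set_option autoImplicit false

namespace Pool.Agent.Perc

open Finset MvPolynomial

/-- The three-leg sum with three upper `D`-sites: variables `z_0, …, z_{2m-1}, y_1, y_2, y_3`. -/
noncomputable def SS3 (q : ℂ) (m : ℕ) : MvPolynomial ℕ ℂ :=
  ∑ s ∈ anns (2 * m), ∑ p ∈ nco (2 * m + 3), C (B3 (2 * m) s p) * PsiM q m s * PsiO q (m + 1) p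

/-- The three-leg sum with two upper and one lower `D`-site (`m ≥ 1`): variables
`z_0, …, z_{2m-2}, x, y_1, y_2`. -/
noncomputable def TT2 (q : ℂ) : ℕ → MvPolynomial ℕ ℂ
  | 0 => 0
  | m + 1 => ∑ s ∈ anns (2 * m + 2), ∑ p ∈ nco (2 * m + 3), C (B2 (2 * m + 1) s p) *
      PsiM q (m + 1) s * rename (fun k => if k < 2 * m + 1 then k else k + 1) (PsiO q (m + 1) p)

/-- The constants of the two recursions. -/
noncomputable def kO (q : ℂ) (m : ℕ) : ℂ := 1 / (-3 * (9 * q) ^ (m + 1))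

/-- The constants of the two recursions. -/
noncomputable def kM (q : ℂ) (m : ℕ) : ℂ := 1 / (9 * q) ^ m

/-- The sum of the components for odd circumference. -/
noncomputable def FO (q : ℂ) (n : ℕ) : MvPolynomial ℕ ℂ := ∑ p ∈ nco (2 * n + 1), PsiO q n p

end Pool.Agent.Perc
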