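import Mathlib

/-!
# A scale with small total (claim 3, S6, task (c))
-/

set_option autoImplicit false

namespace Pool.Agent.Perc

open Finset

/-- One of the scales carries at most the average. General ratio `L` between the scales. -/
theorem exists_good_scale {m : ℕ} (hm : 1 ≤ m) {L θ C₀ C₁ : ℝ} (hL : 0 ≤ L) (hθ : 0 ≤ θ)
    (hLθ : L * θ ≤ 1 / 4) {a y : ℕ → ℝ} (hy : ∀ j ≤ m, 0 ≤ y j) (hya : ∀ j ≤ m, y j ≤ a j)
    (ham : a m ≤ C₀) (hrec : ∀ j < m, a j ≤ y (j + 1) + θ * (a (j + 1) - y (j + 1)))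
    (hsum : ∑ j ∈ range (m + 1), L ^ (m - j) * y j ≤ C₁) :
    ∃ j < m, L ^ (m - j) * a j ≤ (11 / 8 * L * C₁ + C₀) / m := by
  have ha : ∀ j ≤ m, 0 ≤ a j := fun j hj => (hy j hj).trans (hya j hj)
  have hC0 : 0 ≤ C₀ := (ha m le_rfl).trans ham
  have hmp : (0 : ℝ) < m := by exact_mod_cast hm
  have hC1 : 0 ≤ C₁ := by
    refine le_trans (Finset.sum_nonneg fun j hj => ?_) hsum
    rw [mem_range] at hj
    exact mul_nonneg (pow_nonneg hL _) (hy j (by omega))
  -- the recursion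
  have h1 : ∀ j ∈ range m, L ^ (m - j) * a j ≤
      L * (L ^ (m - (j + 1)) * y (j + 1)) + 1 / 4 * (L ^ (m - (j + 1)) * a (j + 1)) := by
    intro j hj
    rw [mem_range] at hj
    have e : m - j = m - (j + 1) + 1 := by omega
    have hp : 0 ≤ L ^ (m - (j + 1)) := pow_nonneg hL _
    have ha' := ha (j + 1) (by omega)
    have hy' := hy (j + 1) (by omega)
    have h2 : a j ≤ y (j + 1) + θ * a (j + 1) := by
      refine (hrec j hj).trans ?_
      have := mul_nonneg hθ hy'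
      linarith
    calc L ^ (m - j) * a j = L * L ^ (m - (j + 1)) * a j := by rw [e, pow_succ]; ring
      _ ≤ L * L ^ (m - (j + 1)) * (y (j + 1) + θ * a (j + 1)) :=
          mul_le_mul_of_nonneg_left h2 (mul_nonneg hL hp)
      _ = L * (L ^ (m - (j + 1)) * y (j + 1)) + (L * θ) * (L ^ (m - (j + 1)) * a (j + 1)) := by
          ring
      _ ≤ _ := by
          have := mul_le_mul_of_nonneg_right hLθ (mul_nonneg hp ha')
          linarith
  have h2 := Finset.sum_le_sum h1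
  rw [Finset.sum_add_distrib, ← Finset.mul_sum, ← Finset.mul_sum] at h2
  have h3 : ∑ j ∈ range m, L ^ (m - (j + 1)) * y (j + 1) ≤ C₁ := by
    refine le_trans ?_ hsum
    rw [Finset.sum_range_succ']
    have := mul_nonneg (pow_nonneg hL (m - 0)) (hy 0 (by omega))
    linarith
  have h4 : ∑ j ∈ range m, L ^ (m - (j + 1)) * a (j + 1) ≤
      (∑ j ∈ range m, L ^ (m - j) * a j) + C₀ := by
    have e := Finset.sum_range_succ (fun j => L ^ (m - j) * a j) m
    have e' := Finset.sum_range_succ' (fun j => L ^ (m - j) * a j) m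
    rw [Nat.sub_self, pow_zero, one_mul] at e
    have h0 := mul_nonneg (pow_nonneg hL (m - 0)) (ha 0 (by omega))
    rw [e] at e'
    linarith
  set T := ∑ j ∈ range m, L ^ (m - j) * a j with hT
  have h5 : T ≤ 11 / 8 * L * C₁ + C₀ := by
    have h6 := mul_le_mul_of_nonneg_left h3 hL
    have h7 := mul_nonneg hL hC1
    linarith
  by_contra hcon
  push Not at hcon
  have h8 : ∑ j ∈ range m, (11 / 8 * L * C₁ + C₀) / m < T := by
    refine Finset.sum_lt_sum_of_nonempty ?_ fun j hj => hcon j (mem_range.1 hj)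
    rw [nonempty_range_iff]
    omega
  rw [Finset.sum_const, card_range, nsmul_eq_mul, mul_div_cancel₀ _ hmp.ne'] at h8
  exact absurd h5 (not_le.2 h8)

/-- The version with ratio `16`. -/
theorem exists_good_scale_16 {m : ℕ} (hm : 1 ≤ m) {θ C₀ C₁ : ℝ} (hθ : 0 ≤ θ) (hθ' : θ ≤ 1 / 64)
    {a y : ℕ → ℝ} (hy : ∀ j ≤ m, 0 ≤ y j) (hya : ∀ j ≤ m, y j ≤ a j)
    (ham : a m ≤ C₀) (hrec : ∀ j < m, a j ≤ y (j + 1) + θ * (a (j + 1) - y (j + 1)))
    (hsum : ∑ j ∈ range (m + 1), 16 ^ (m - j) * y j ≤ C₁) :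
    ∃ j < m, 16 ^ (m - j) * a j ≤ (22 * C₁ + C₀) / m := by
  obtain ⟨j, hj, h⟩ := exists_good_scale hm (L := 16) (by norm_num) hθ (by linarith) hy hya ham
    hrec hsum
  refine ⟨j, hj, h.trans (le_of_eq ?_)⟩
  ring

end Pool.Agent.Perc
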