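import Pool.Agent.Lib.MP_6bd702_perc3.Uni3
import Pool.Agent.Lib.MP_6bd702_perc.QSchurC

/-!
# The Schur products of the three leg formula (task Schur3)
-/

set_option autoImplicit false

namespace Pool.Agent.Perc

open Finset MvPolynomial

/-- Omit the index `j`. -/
def sk (j : ℕ) (k : ℕ) : ℕ := if k < j then k else k + 1

/-- The product for `S m`: the variables are `z_0, …, z_{2m-1}, y_1, y_2, y_3`. -/
noncomputable def PS (q : ℂ) (m : ℕ) : MvPolynomial ℕ ℂ :=
  (X (2 * m) - C (q ^ 2) * X (2 * m + 1)) * (X (2 * m) - C (q ^ 2) * X (2 * m + 2)) *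
    (X (2 * m + 1) - C (q ^ 2) * X (2 * m + 2)) * (∏ k ∈ range (2 * m), X k) *
    (schur (2 * m) eS3 * schur (2 * (m + 1)) eS3 *
      rename (sk (2 * m + 1)) (schur (2 * (m + 1)) eS3) *
      rename (sk (2 * m)) (schur (2 * (m + 1)) eS3))

/-- The product for `T (m + 1)`: the variables are `z_0, …, z_{2m}, x, y_1, y_2`. -/
noncomputable def PT (q : ℂ) : ℕ → MvPolynomial ℕ ℂ
  | 0 => 0
  | m + 1 => (X (2 * m + 2) - C (q ^ 2) * X (2 * m + 3)) * (∏ k ∈ range (2 * m + 1), X k) *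
    (schur (2 * (m + 1)) eS3 * rename (sk (2 * m + 1)) (schur (2 * (m + 1)) eS3) *
      rename (sk (2 * m + 1)) (rename (sk (2 * m + 1)) (schur (2 * (m + 1)) eS3)) *
      schur (2 * (m + 1 + 1)) eS3)

namespace Schur3

open Uni3

/-- The value of the Schur polynomial. -/
noncomputable def sg (m : ℕ) (w : ℕ → ℂ) : ℂ := eval w (schur (2 * m) eS3)

theorem sg_congr {m : ℕ} {w w' : ℕ → ℂ} (h : ∀ k < 2 * m, w k = w' k) : sg m w = sg m w' :=
  QSchur.eval_schur_congr _ _ h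

theorem eval_sk (j : ℕ) (w : ℕ → ℂ) (P : MvPolynomial ℕ ℂ) :
    eval w (rename (sk j) P) = eval (skip1 j w) P := by
  rw [eval_rename]
  congr 2
  funext k
  simp only [Function.comp, sk, skip1]
  split_ifs <;> rfl

theorem eval_PS (q : ℂ) (m : ℕ) (w : ℕ → ℂ) : eval w (PS q m) =
    (w (2 * m) - q ^ 2 * w (2 * m + 1)) * (w (2 * m) - q ^ 2 * w (2 * m + 2)) *
      (w (2 * m + 1) - q ^ 2 * w (2 * m + 2)) * (∏ k ∈ range (2 * m), w k) *
      (sg m w * sg (m + 1) w * sg (m + 1) (skip1 (2 * m + 1) w) *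
        sg (m + 1) (skip1 (2 * m) w)) := by
  unfold PS sg
  simp only [map_mul, map_sub, eval_X, eval_C, map_prod, eval_sk]

theorem eval_PT (q : ℂ) (m : ℕ) (w : ℕ → ℂ) : eval w (PT q (m + 1)) =
    (w (2 * m + 2) - q ^ 2 * w (2 * m + 3)) * (∏ k ∈ range (2 * m + 1), w k) *
      (sg (m + 1) w * sg (m + 1) (skip1 (2 * m + 1) w) *
        sg (m + 1) (skip1 (2 * m + 1) (skip1 (2 * m + 1) w)) * sg (m + 1 + 1) w) := by
  unfold PT sg
  simp only [map_mul, map_sub, eval_X, eval_C, map_prod, eval_sk]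

theorem sg_swap (m : ℕ) {i : ℕ} (hi : i + 1 < 2 * m) (w : ℕ → ℂ) : sg m (swapV i w) = sg m w := by
  have h := schur_perm (2 * m) eS3 (Equiv.swap i (i + 1))
    (fun k hk => Equiv.swap_apply_of_ne_of_ne (by omega) (by omega)) w
  exact h

theorem swapV_ins1 (i : ℕ) (x : ℂ) (u : ℕ → ℂ) : swapV i (ins1 i x u) = ins1 (i + 1) x u := by
  funext k
  unfold swapV
  rcases eq_or_ne k i with rfl | h1
  · rw [Equiv.swap_apply_left]
    unfold ins1
    rw [if_neg (by omega), if_neg (by omega), if_pos (by omega)]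
    rfl
  · rcases eq_or_ne k (i + 1) with rfl | h2
    · rw [Equiv.swap_apply_right]
      unfold ins1
      rw [if_neg (by omega), if_pos rfl, if_neg (by omega), if_pos rfl]
    · rw [Equiv.swap_apply_of_ne_of_ne h1 h2]
      unfold ins1
      by_cases h3 : k < i
      · rw [if_pos h3, if_pos (by omega)]
      · rw [if_neg h3, if_neg h1, if_neg (by omega), if_neg h2]

theorem sg_move (m : ℕ) {i j : ℕ} (hij : i ≤ j) (hj : j < 2 * m) (x : ℂ) (u : ℕ → ℂ) :
    sg m (ins1 i x u) = sg m (ins1 j x u) := by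
  induction j, hij using Nat.le_induction with
  | base => rfl
  | succ j hij ih => rw [ih (by omega), ← swapV_ins1 j x u, sg_swap m hj]

theorem sg_insV {q : ℂ} (hq : q ^ 2 + q + 1 = 0) (m : ℕ) {i : ℕ} (hi : i ≤ 2 * m) (v : ℂ)
    (u : ℕ → ℂ) : sg (m + 1) (insV i (q ^ 2 * v) v u) =
      (∏ k ∈ range (2 * m), (u k - q * v)) * sg m u :=
  QSchur.eS3_restrict hq m hi u v

theorem swapV_insV (i : ℕ) (x y : ℂ) (u : ℕ → ℂ) : swapV i (insV i x y u) = insV i y x u := by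
  funext k
  unfold swapV
  rcases eq_or_ne k i with rfl | h1
  · rw [Equiv.swap_apply_left]
    unfold insV
    rw [if_neg (by omega), if_neg (by omega), if_pos rfl, if_neg (by omega), if_pos rfl]
  · rcases eq_or_ne k (i + 1) with rfl | h2
    · rw [Equiv.swap_apply_right]
      unfold insV
      rw [if_neg (by omega), if_pos rfl, if_neg (by omega), if_neg (by omega), if_pos rfl]
    · rw [Equiv.swap_apply_of_ne_of_ne h1 h2]
      unfold insV
      by_cases h3 : k < i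
      · rw [if_pos h3, if_pos h3]
      · rw [if_neg h3, if_neg h1, if_neg h2, if_neg h3, if_neg h1, if_neg h2]

theorem sg_insV' {q : ℂ} (hq : q ^ 2 + q + 1 = 0) (m : ℕ) {i : ℕ} (hi : i ≤ 2 * m) (v : ℂ)
    (u : ℕ → ℂ) : sg (m + 1) (insV i v (q ^ 2 * v) u) =
      (∏ k ∈ range (2 * m), (u k - q * v)) * sg m u := by
  rw [← sg_insV hq m hi v u, ← swapV_insV i (q ^ 2 * v) v u, sg_swap (m + 1) (by omega)]

theorem q4 {q : ℂ} (hq : q ^ 2 + q + 1 = 0) : q ^ 4 = q := by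
  linear_combination (q ^ 2 - q) * hq

theorem prod_insV (n : ℕ) (x y : ℂ) (u : ℕ → ℂ) :
    ∏ k ∈ range (n + 1), insV n x y u k = (∏ k ∈ range n, u k) * x := by
  rw [prod_range_succ]
  congr 1
  · refine prod_congr rfl fun k hk => ?_
    rw [mem_range] at hk
    unfold insV
    rw [if_pos hk]
  · unfold insV
    rw [if_neg (by omega), if_pos rfl]

theorem prod_ins1 (n : ℕ) (x : ℂ) (u : ℕ → ℂ) :
    ∏ k ∈ range n, ins1 n x u k = ∏ k ∈ range n, u k := by
  refine prod_congr rfl fun k hk => ?_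
  rw [mem_range] at hk
  unfold ins1
  rw [if_pos hk]

theorem prod_ins0 (n : ℕ) (x : ℂ) (u : ℕ → ℂ) :
    ∏ k ∈ range (n + 1), ins1 0 x u k = x * ∏ k ∈ range n, u k := by
  rw [prod_range_succ']
  rw [mul_comm]
  congr 1

theorem ins1_at (j : ℕ) (x : ℂ) (u : ℕ → ℂ) : ins1 j x u j = x := by
  unfold ins1
  rw [if_neg (by omega), if_pos rfl]

theorem ins1_lt {j k : ℕ} (h : k < j) (x : ℂ) (u : ℕ → ℂ) : ins1 j x u k = u k := by
  unfold ins1
  rw [if_pos h]

theorem ins1_gt {j k : ℕ} (h : j ≤ k) (x : ℂ) (u : ℕ → ℂ) : ins1 j x u (k + 1) = u k := by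
  unfold ins1
  rw [if_neg (by omega), if_neg (by omega)]
  rfl

theorem skip1_lt {j k : ℕ} (h : k < j) (w : ℕ → ℂ) : skip1 j w k = w k := by
  unfold skip1
  rw [if_pos h]

theorem skip1_ge {j k : ℕ} (h : j ≤ k) (w : ℕ → ℂ) : skip1 j w k = w (k + 1) := by
  unfold skip1
  rw [if_neg (by omega)]

theorem insV_lt {j k : ℕ} (h : k < j) (x y : ℂ) (u : ℕ → ℂ) : insV j x y u k = u k := by
  unfold insV
  rw [if_pos h]

theorem insV_at (j : ℕ) (x y : ℂ) (u : ℕ → ℂ) : insV j x y u j = x := by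
  unfold insV
  rw [if_neg (by omega), if_pos rfl]

theorem insV_at' (j : ℕ) (x y : ℂ) (u : ℕ → ℂ) : insV j x y u (j + 1) = y := by
  unfold insV
  rw [if_neg (by omega), if_neg (by omega), if_pos rfl]

theorem insV_ge {j k : ℕ} (h : j ≤ k) (x y : ℂ) (u : ℕ → ℂ) : insV j x y u (k + 2) = u k := by
  unfold insV
  rw [if_neg (by omega), if_neg (by omega), if_neg (by omega)]
  rfl

theorem skip_ins1 (j : ℕ) (x : ℂ) (u : ℕ → ℂ) : skip1 j (ins1 j x u) = u := by
  funext k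
  simp only [skip1, ins1, insV]
  split_ifs <;> first | rfl | omega | (congr 1 <;> omega)

theorem skip_ins1_lt {i j : ℕ} (h : i ≤ j) (x : ℂ) (u : ℕ → ℂ) :
    skip1 (j + 1) (ins1 i x u) = ins1 i x (skip1 j u) := by
  funext k
  simp only [skip1, ins1, insV]
  split_ifs <;> first | rfl | omega | (congr 1 <;> omega)

theorem skip_ins1_ge {i j : ℕ} (h : j ≤ i) (x : ℂ) (u : ℕ → ℂ) :
    skip1 j (ins1 (i + 1) x u) = ins1 i x (skip1 j u) := by
  funext k
  simp only [skip1, ins1, insV]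
  split_ifs <;> first | rfl | omega | (congr 1 <;> omega)

theorem skip_insV_gt {i j : ℕ} (h : i ≤ j) (x y : ℂ) (u : ℕ → ℂ) :
    skip1 (j + 2) (insV i x y u) = insV i x y (skip1 j u) := by
  funext k
  simp only [skip1, ins1, insV]
  split_ifs <;> first | rfl | omega | (congr 1 <;> omega)

theorem skip_insV_at (i : ℕ) (x y : ℂ) (u : ℕ → ℂ) :
    skip1 (i + 1) (insV i x y u) = ins1 i x u := by
  funext k
  simp only [skip1, ins1, insV]
  split_ifs <;> first | rfl | omega | (congr 1 <;> omega)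

/-- `ins1` twice in neighbouring places. -/
theorem ins1_ins1 (i : ℕ) (x y : ℂ) (u : ℕ → ℂ) :
    ins1 i x (ins1 i y u) = insV i x y u := by
  funext k
  simp only [skip1, ins1, insV]
  split_ifs <;> first | rfl | omega | (congr 1 <;> omega)

theorem ins1_succ_ins1 (i : ℕ) (x y : ℂ) (u : ℕ → ℂ) :
    ins1 (i + 1) x (ins1 i y u) = insV i y x u := by
  rw [← swapV_ins1, ins1_ins1, swapV_insV]

theorem skip_swap {i j : ℕ} (h : i + 1 < j) (w : ℕ → ℂ) :
    skip1 j (swapV i w) = swapV i (skip1 j w) := by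
  funext k
  rcases eq_or_ne k i with rfl | h1
  · rw [swapV_left, skip1_lt (by omega), skip1_lt h, swapV_left]
  · rcases eq_or_ne k (i + 1) with rfl | h2
    · rw [swapV_right, skip1_lt (by omega), skip1_lt (by omega), swapV_right]
    · rw [swapV_ne (skip1 j w) h1 h2]
      by_cases h3 : k < j
      · rw [skip1_lt h3, skip1_lt h3, swapV_ne w h1 h2]
      · rw [skip1_ge (by omega), skip1_ge (by omega), swapV_ne w (by omega) (by omega)]

theorem skip_swap_ge {i j : ℕ} (h : j ≤ i) (w : ℕ → ℂ) :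
    skip1 j (swapV (i + 1) w) = swapV i (skip1 j w) := by
  funext k
  unfold skip1
  rcases eq_or_ne k i with rfl | h1
  · rw [if_neg (by omega), swapV_left, swapV_left, if_neg (by omega)]
  · rcases eq_or_ne k (i + 1) with rfl | h2
    · rw [if_neg (by omega), swapV_right, swapV_right, if_neg (by omega)]
    · rw [swapV_ne _ h1 h2]
      by_cases h3 : k < j
      · rw [if_pos h3, swapV_ne _ (by omega) (by omega)]
        exact (if_pos h3).symm
      · rw [if_neg h3, swapV_ne _ (by omega) (by omega)]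
        exact (if_neg h3).symm

theorem skip_swap_at (i : ℕ) (w : ℕ → ℂ) : skip1 i (swapV i w) = skip1 (i + 1) w := by
  funext k
  unfold skip1
  rcases lt_trichotomy k i with h | h | h
  · rw [if_pos h, if_pos (by omega), swapV_ne _ (by omega) (by omega)]
  · subst h
    rw [if_neg (by omega), if_pos (by omega), swapV_right]
  · rw [if_neg (by omega), if_neg (by omega), swapV_ne _ (by omega) (by omega)]

theorem skip_swap_at' (i : ℕ) (w : ℕ → ℂ) : skip1 (i + 1) (swapV i w) = skip1 i w := by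
  funext k
  unfold skip1
  rcases lt_trichotomy k i with h | h | h
  · rw [if_pos (by omega), if_pos h, swapV_ne _ (by omega) (by omega)]
  · subst h
    rw [if_pos (by omega), if_neg (by omega), swapV_left]
  · rw [if_neg (by omega), if_neg (by omega), swapV_ne _ (by omega) (by omega)]

theorem prod_swapV {n i : ℕ} (hi : i + 1 < n) (w : ℕ → ℂ) :
    ∏ k ∈ range n, swapV i w k = ∏ k ∈ range n, w k := by
  unfold swapV
  refine Finset.prod_nbij' (fun k => Equiv.swap i (i + 1) k) (fun k => Equiv.swap i (i + 1) k)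
    ?_ ?_ ?_ ?_ ?_
  · intro k hk
    rw [mem_range] at hk ⊢
    rcases eq_or_ne k i with rfl | h1
    · rw [Equiv.swap_apply_left]; exact hi
    · rcases eq_or_ne k (i + 1) with rfl | h2
      · rw [Equiv.swap_apply_right]; omega
      · rw [Equiv.swap_apply_of_ne_of_ne h1 h2]; exact hk
  · intro k hk
    rw [mem_range] at hk ⊢
    rcases eq_or_ne k i with rfl | h1
    · rw [Equiv.swap_apply_left]; exact hi
    · rcases eq_or_ne k (i + 1) with rfl | h2
      · rw [Equiv.swap_apply_right]; omega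
      · rw [Equiv.swap_apply_of_ne_of_ne h1 h2]; exact hk
  · intro k _; simp
  · intro k _; simp
  · intro k _; rfl

theorem prod_swapV_ge {n i : ℕ} (hi : n ≤ i) (w : ℕ → ℂ) :
    ∏ k ∈ range n, swapV i w k = ∏ k ∈ range n, w k := by
  refine prod_congr rfl fun k hk => ?_
  rw [mem_range] at hk
  exact swapV_ne _ (by omega) (by omega)

theorem prod_skip {n j : ℕ} (hj : j ≤ n) (f : ℂ → ℂ) (u : ℕ → ℂ) :
    ∏ k ∈ range n, f (skip1 j u k) = (∏ k ∈ range j, f (u k)) *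
      ∏ k ∈ range (n - j), f (u (j + k + 1)) := by
  obtain ⟨t, rfl⟩ := Nat.exists_eq_add_of_le hj
  rw [prod_range_add, Nat.add_sub_cancel_left]
  congr 1
  · refine prod_congr rfl fun k hk => ?_
    rw [skip1_lt (mem_range.1 hk)]
  · refine prod_congr rfl fun k _ => ?_
    rw [skip1_ge (by omega)]

/-! ### The degrees -/

theorem degreeOf_sg_le (m k : ℕ) : (schur (2 * (m + 1)) eS3).degreeOf k ≤ m := by
  refine degreeOf_schur_le _ _ (d := m) (fun j hj => ?_) k
  unfold eS3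
  omega

theorem degreeOf_rename_sk (j k : ℕ) (h : k ≠ j) (P : MvPolynomial ℕ ℂ) :
    ∃ k', (rename (sk j) P).degreeOf k = P.degreeOf k' := by
  have hinj : Function.Injective (sk j) := by
    intro a b hab
    unfold sk at hab
    split_ifs at hab <;> omega
  rcases lt_or_gt_of_ne h with h1 | h1
  · refine ⟨k, ?_⟩
    have e : sk j k = k := by
      unfold sk
      rw [if_pos h1]
    conv_lhs => rw [← e]
    exact degreeOf_rename_of_injective hinj k
  · refine ⟨k - 1, ?_⟩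
    have e : sk j (k - 1) = k := by
      unfold sk
      rw [if_neg (by omega)]
      omega
    conv_lhs => rw [← e]
    exact degreeOf_rename_of_injective hinj (k - 1)

theorem degreeOf_rename_self (j : ℕ) (P : MvPolynomial ℕ ℂ) :
    (rename (sk j) P).degreeOf j = 0 := by
  classical
  rw [← Nat.le_zero]
  refine degreeOf_le_iff.2 fun d hd => ?_
  obtain ⟨e, rfl, -⟩ := coeff_rename_ne_zero _ _ _ (mem_support_iff.1 hd)
  rw [Finsupp.mapDomain_notin_range _ _ ?_]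
  rintro ⟨k, hk⟩
  unfold sk at hk
  split_ifs at hk <;> omega

theorem degreeOf_lin_le (a b k : ℕ) (c : ℂ) :
    (X a - C c * X b : MvPolynomial ℕ ℂ).degreeOf k ≤ max (if k = a then 1 else 0)
      (if k = b then 1 else 0) := by
  refine (degreeOf_sub_le _ _ _).trans (max_le_max ?_ ?_)
  · rw [degreeOf_X]
  · refine (degreeOf_C_mul_le _ _ _).trans ?_
    rw [degreeOf_X]

theorem degreeOf_prodX (n k : ℕ) (hk : n ≤ k) :
    (∏ j ∈ range n, (X j : MvPolynomial ℕ ℂ)).degreeOf k = 0 := by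
  rw [← Nat.le_zero]
  refine (degreeOf_prod_le _ _ _).trans ?_
  rw [Nat.le_zero, Finset.sum_eq_zero_iff]
  intro j hj
  rw [mem_range] at hj
  rw [degreeOf_X, if_neg (by omega)]

/-! ### The relations -/

variable {q : ℂ}

theorem leftS_aux (hq : q ^ 2 + q + 1 = 0) (m : ℕ) (v : ℂ) (u : ℕ → ℂ) :
    eval (insV (2 * m + 1) (q ^ 2 * v) v u) (PS q (m + 1)) =
      v * (∏ j ∈ range (2 * m + 3), (u j - q * v) ^ 2) *
        eval (ins1 (2 * m + 1) (q ^ 2 * v) u) (PT q (m + 1)) := by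
  rw [eval_PS, eval_PT]
  have e1 : insV (2 * m + 1) (q ^ 2 * v) v u (2 * (m + 1)) = v := insV_at' (2 * m + 1) _ _ _
  have e2 : insV (2 * m + 1) (q ^ 2 * v) v u (2 * (m + 1) + 1) = u (2 * m + 1) :=
    insV_ge (j := 2 * m + 1) (k := 2 * m + 1) le_rfl _ _ _
  have e3 : insV (2 * m + 1) (q ^ 2 * v) v u (2 * (m + 1) + 2) = u (2 * m + 2) :=
    insV_ge (j := 2 * m + 1) (k := 2 * m + 2) (by omega) _ _ _
  have e4 : ∏ k ∈ range (2 * (m + 1)), insV (2 * m + 1) (q ^ 2 * v) v u k =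
      (∏ k ∈ range (2 * m + 1), u k) * (q ^ 2 * v) := prod_insV (2 * m + 1) _ _ _
  have f2 : ins1 (2 * m + 1) (q ^ 2 * v) u (2 * m + 2) = u (2 * m + 1) := ins1_gt le_rfl _ _
  have f3 : ins1 (2 * m + 1) (q ^ 2 * v) u (2 * m + 3) = u (2 * m + 2) := ins1_gt (by omega) _ _
  have f4 := prod_ins1 (2 * m + 1) (q ^ 2 * v) u
  have s1 : sg (m + 1) (insV (2 * m + 1) (q ^ 2 * v) v u) =
      sg (m + 1) (ins1 (2 * m + 1) (q ^ 2 * v) u) := by
    refine sg_congr fun k hk => ?_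
    rcases lt_or_ge k (2 * m + 1) with h | h
    · rw [insV_lt h, ins1_lt h]
    · have : k = 2 * m + 1 := by omega
      rw [this, insV_at, ins1_at]
  have s2 : sg (m + 1 + 1) (insV (2 * m + 1) (q ^ 2 * v) v u) =
      (∏ k ∈ range (2 * m + 2), (u k - q * v)) * sg (m + 1) u :=
    sg_insV hq (m + 1) (by omega) v u
  have s3 : sg (m + 1 + 1) (skip1 (2 * (m + 1) + 1) (insV (2 * m + 1) (q ^ 2 * v) v u)) =
      (∏ k ∈ range (2 * m + 2), (skip1 (2 * m + 1) u k - q * v)) *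
        sg (m + 1) (skip1 (2 * m + 1) u) := by
    rw [show 2 * (m + 1) + 1 = 2 * m + 1 + 2 by ring, skip_insV_gt le_rfl]
    exact sg_insV hq (m + 1) (by omega) v _
  have s4 : sg (m + 1 + 1) (skip1 (2 * (m + 1)) (insV (2 * m + 1) (q ^ 2 * v) v u)) =
      sg (m + 1 + 1) (ins1 (2 * m + 1) (q ^ 2 * v) u) := by
    rw [show 2 * (m + 1) = 2 * m + 1 + 1 by ring, skip_insV_at]
  have t2 : skip1 (2 * m + 1) (ins1 (2 * m + 1) (q ^ 2 * v) u) = u := skip_ins1 _ _ _
  rw [e1, e2, e3, e4, f2, f3, f4, s1, s2, s3, s4, t2]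
  have p1 : ∏ k ∈ range (2 * m + 2), (u k - q * v) =
      (∏ k ∈ range (2 * m + 1), (u k - q * v)) * (u (2 * m + 1) - q * v) := prod_range_succ _ _
  have p2 : ∏ k ∈ range (2 * m + 2), (skip1 (2 * m + 1) u k - q * v) =
      (∏ k ∈ range (2 * m + 1), (u k - q * v)) * (u (2 * m + 2) - q * v) := by
    rw [prod_range_succ, skip1_ge le_rfl]
    congr 1
    refine prod_congr rfl fun k hk => ?_
    rw [skip1_lt (mem_range.1 hk)]
  have p3 : ∏ j ∈ range (2 * m + 3), (u j - q * v) ^ 2 =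
      (∏ k ∈ range (2 * m + 1), (u k - q * v)) ^ 2 * (u (2 * m + 1) - q * v) ^ 2 *
        (u (2 * m + 2) - q * v) ^ 2 := by
    rw [prod_range_succ, prod_range_succ, Finset.prod_pow]
  rw [p1, p2, p3]
  have c1 : v - q ^ 2 * u (2 * m + 1) = -q ^ 2 * (u (2 * m + 1) - q * v) := by
    linear_combination (-v) * UniF.q_cube hq
  have c2 : v - q ^ 2 * u (2 * m + 2) = -q ^ 2 * (u (2 * m + 2) - q * v) := by
    linear_combination (-v) * UniF.q_cube hq
  rw [c1, c2]
  have h6 : q ^ 6 = 1 := by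
    have := UniF.q_cube hq
    calc q ^ 6 = (q ^ 3) ^ 2 := by ring
      _ = 1 := by rw [this]; ring
  generalize (∏ k ∈ range (2 * m + 1), (u k - q * v)) = A
  generalize (∏ k ∈ range (2 * m + 1), u k) = B
  generalize sg (m + 1) (ins1 (2 * m + 1) (q ^ 2 * v) u) = s
  generalize sg (m + 1) u = s'
  generalize sg (m + 1) (skip1 (2 * m + 1) u) = s''
  generalize sg (m + 1 + 1) (ins1 (2 * m + 1) (q ^ 2 * v) u) = t
  generalize u (2 * m + 1) = a
  generalize u (2 * m + 2) = b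
  linear_combination (v * (a - q * v) ^ 2 * (b - q * v) ^ 2 * (a - q ^ 2 * b) * A ^ 2 * B * s * s' *
    s'' * t) * h6

theorem seamS_aux (hq : q ^ 2 + q + 1 = 0) (m : ℕ) (v : ℂ) (u : ℕ → ℂ) :
    eval (ins1 0 v (ins1 (2 * m + 3) (q ^ 2 * v) u)) (PS q (m + 1)) =
      v * (∏ j ∈ range (2 * m + 3), (u j - q * v) ^ 2) *
        eval (ins1 (2 * m + 1) v u) (PT q (m + 1)) := by
  rw [eval_PS, eval_PT]
  have e1 : ins1 0 v (ins1 (2 * m + 3) (q ^ 2 * v) u) (2 * (m + 1)) = u (2 * m + 1) := by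
    rw [show 2 * (m + 1) = 2 * m + 1 + 1 by ring, ins1_gt (by omega), ins1_lt (by omega)]
  have e2 : ins1 0 v (ins1 (2 * m + 3) (q ^ 2 * v) u) (2 * (m + 1) + 1) = u (2 * m + 2) := by
    rw [show 2 * (m + 1) + 1 = 2 * m + 2 + 1 by ring, ins1_gt (by omega), ins1_lt (by omega)]
  have e3 : ins1 0 v (ins1 (2 * m + 3) (q ^ 2 * v) u) (2 * (m + 1) + 2) = q ^ 2 * v := by
    rw [show 2 * (m + 1) + 2 = 2 * m + 3 + 1 by ring, ins1_gt (by omega), ins1_at]
  have e4 : ∏ k ∈ range (2 * (m + 1)), ins1 0 v (ins1 (2 * m + 3) (q ^ 2 * v) u) k =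
      v * ∏ k ∈ range (2 * m + 1), u k := by
    rw [show 2 * (m + 1) = 2 * m + 1 + 1 by ring, prod_ins0]
    congr 1
    refine prod_congr rfl fun k hk => ?_
    rw [ins1_lt (by rw [mem_range] at hk; omega)]
  have f2 : ins1 (2 * m + 1) v u (2 * m + 2) = u (2 * m + 1) := ins1_gt le_rfl _ _
  have f3 : ins1 (2 * m + 1) v u (2 * m + 3) = u (2 * m + 2) := ins1_gt (by omega) _ _
  have f4 := prod_ins1 (2 * m + 1) v u
  have s1 : sg (m + 1) (ins1 0 v (ins1 (2 * m + 3) (q ^ 2 * v) u)) =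
      sg (m + 1) (ins1 (2 * m + 1) v u) := by
    rw [← sg_move (m + 1) (i := 0) (j := 2 * m + 1) (by omega) (by omega)]
    refine sg_congr fun k hk => ?_
    rcases Nat.eq_zero_or_pos k with h | h
    · rw [h, ins1_at, ins1_at]
    · obtain ⟨j, rfl⟩ : ∃ j, k = j + 1 := ⟨k - 1, by omega⟩
      rw [ins1_gt (by omega), ins1_gt (by omega), ins1_lt (by omega)]
  have s2 : sg (m + 1 + 1) (ins1 0 v (ins1 (2 * m + 3) (q ^ 2 * v) u)) =
      sg (m + 1 + 1) (ins1 (2 * m + 1) v u) := by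
    rw [← sg_move (m + 1 + 1) (i := 0) (j := 2 * m + 1) (by omega) (by omega)]
    refine sg_congr fun k hk => ?_
    rcases Nat.eq_zero_or_pos k with h | h
    · rw [h, ins1_at, ins1_at]
    · obtain ⟨j, rfl⟩ : ∃ j, k = j + 1 := ⟨k - 1, by omega⟩
      rw [ins1_gt (by omega), ins1_gt (by omega), ins1_lt (by omega)]
  have s3 : sg (m + 1 + 1) (skip1 (2 * (m + 1) + 1) (ins1 0 v (ins1 (2 * m + 3) (q ^ 2 * v) u))) =
      (∏ k ∈ range (2 * m + 2), (u k - q * v)) * sg (m + 1) u := by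
    rw [skip_ins1_lt (by omega)]
    have e : sg (m + 1 + 1) (ins1 0 v (skip1 (2 * (m + 1)) (ins1 (2 * m + 3) (q ^ 2 * v) u))) =
        sg (m + 1 + 1) (ins1 0 v (ins1 (2 * m + 2) (q ^ 2 * v) (skip1 (2 * m + 2) u))) := by
      rw [show 2 * (m + 1) = 2 * m + 2 by ring, skip_ins1_ge le_rfl]
    rw [e, sg_move (m + 1 + 1) (i := 0) (j := 2 * m + 3) (by omega) (by omega), ins1_succ_ins1,
      sg_insV hq (m + 1) (by omega)]
    congr 1
    · refine prod_congr rfl fun k hk => ?_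
      rw [skip1_lt (by rw [mem_range] at hk; omega)]
    · refine sg_congr fun k hk => ?_
      rw [skip1_lt (by omega)]
  have s4 : sg (m + 1 + 1) (skip1 (2 * (m + 1)) (ins1 0 v (ins1 (2 * m + 3) (q ^ 2 * v) u))) =
      (∏ k ∈ range (2 * m + 2), (skip1 (2 * m + 1) u k - q * v)) *
        sg (m + 1) (skip1 (2 * m + 1) u) := by
    rw [show 2 * (m + 1) = 2 * m + 1 + 1 by ring, skip_ins1_lt (by omega), skip_ins1_ge (by omega),
      sg_move (m + 1 + 1) (i := 0) (j := 2 * m + 3) (by omega) (by omega), ins1_succ_ins1,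
      sg_insV hq (m + 1) (by omega)]
    rfl
  have t2 : skip1 (2 * m + 1) (ins1 (2 * m + 1) v u) = u := skip_ins1 _ _ _
  rw [e1, e2, e3, e4, f2, f3, f4, s1, s2, s3, s4, t2]
  have p1 : ∏ k ∈ range (2 * m + 2), (u k - q * v) =
      (∏ k ∈ range (2 * m + 1), (u k - q * v)) * (u (2 * m + 1) - q * v) := prod_range_succ _ _
  have p2 : ∏ k ∈ range (2 * m + 2), (skip1 (2 * m + 1) u k - q * v) =
      (∏ k ∈ range (2 * m + 1), (u k - q * v)) * (u (2 * m + 2) - q * v) := by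
    rw [prod_range_succ, skip1_ge le_rfl]
    congr 1
    refine prod_congr rfl fun k hk => ?_
    rw [skip1_lt (mem_range.1 hk)]
  have p3 : ∏ j ∈ range (2 * m + 3), (u j - q * v) ^ 2 =
      (∏ k ∈ range (2 * m + 1), (u k - q * v)) ^ 2 * (u (2 * m + 1) - q * v) ^ 2 *
        (u (2 * m + 2) - q * v) ^ 2 := by
    rw [prod_range_succ, prod_range_succ, Finset.prod_pow]
  have c1 : q ^ 2 * (q ^ 2 * v) = q * v := by
    linear_combination (q * v) * UniF.q_cube hq
  rw [p1, p2, p3, c1]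
  ring

theorem leftT_aux (hq : q ^ 2 + q + 1 = 0) (m : ℕ) (v : ℂ) (u : ℕ → ℂ) :
    eval (insV (2 * m) v (q ^ 2 * v) u) (PT q (m + 1)) =
      q ^ 2 * v * (∏ j ∈ range (2 * m), (u j - q * v) ^ 2) *
        eval (ins1 (2 * m) v u) (PS q m) := by
  rw [eval_PS, eval_PT]
  have e1 : insV (2 * m) v (q ^ 2 * v) u (2 * m + 2) = u (2 * m) := insV_ge le_rfl _ _ _
  have e2 : insV (2 * m) v (q ^ 2 * v) u (2 * m + 3) = u (2 * m + 1) :=
    insV_ge (k := 2 * m + 1) (by omega) _ _ _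
  have e4 : ∏ k ∈ range (2 * m + 1), insV (2 * m) v (q ^ 2 * v) u k =
      (∏ k ∈ range (2 * m), u k) * v := prod_insV (2 * m) _ _ _
  have f1 : ins1 (2 * m) v u (2 * m) = v := ins1_at _ _ _
  have f2 : ins1 (2 * m) v u (2 * m + 1) = u (2 * m) := ins1_gt le_rfl _ _
  have f3 : ins1 (2 * m) v u (2 * m + 2) = u (2 * m + 1) := ins1_gt (by omega) _ _
  have f4 := prod_ins1 (2 * m) v u
  have s1 : sg (m + 1) (insV (2 * m) v (q ^ 2 * v) u) =
      (∏ k ∈ range (2 * m), (u k - q * v)) * sg m u := sg_insV' hq m le_rfl v u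
  have s2 : skip1 (2 * m + 1) (insV (2 * m) v (q ^ 2 * v) u) = ins1 (2 * m) v u :=
    skip_insV_at _ _ _ _
  have s3 : skip1 (2 * m + 1) (ins1 (2 * m) v u) = ins1 (2 * m) v (skip1 (2 * m) u) :=
    skip_ins1_lt le_rfl _ _
  have s4 : sg (m + 1 + 1) (insV (2 * m) v (q ^ 2 * v) u) =
      (∏ k ∈ range (2 * m + 2), (u k - q * v)) * sg (m + 1) u :=
    sg_insV' hq (m + 1) (by omega) v u
  have t1 : sg m (ins1 (2 * m) v u) = sg m u := by
    refine sg_congr fun k hk => ?_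
    rw [ins1_lt hk]
  have t2 : skip1 (2 * m) (ins1 (2 * m) v u) = u := skip_ins1 _ _ _
  rw [e1, e2, e4, f1, f2, f3, f4, s1, s2, s3, s4, t1, t2]
  have p1 : ∏ k ∈ range (2 * m + 2), (u k - q * v) =
      (∏ k ∈ range (2 * m), (u k - q * v)) * (u (2 * m) - q * v) * (u (2 * m + 1) - q * v) := by
    rw [prod_range_succ, prod_range_succ]
  rw [p1, Finset.prod_pow]
  have c1 : v - q ^ 2 * u (2 * m) = -q ^ 2 * (u (2 * m) - q * v) := by
    linear_combination (-v) * UniF.q_cube hq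
  have c2 : v - q ^ 2 * u (2 * m + 1) = -q ^ 2 * (u (2 * m + 1) - q * v) := by
    linear_combination (-v) * UniF.q_cube hq
  rw [c1, c2]
  have h6 : q ^ 6 = 1 := by
    have := UniF.q_cube hq
    calc q ^ 6 = (q ^ 3) ^ 2 := by ring
      _ = 1 := by rw [this]; ring
  generalize (∏ k ∈ range (2 * m), (u k - q * v)) = A
  generalize (∏ k ∈ range (2 * m), u k) = B
  generalize sg (m + 1) (ins1 (2 * m) v (skip1 (2 * m) u)) = s
  generalize sg (m + 1) (ins1 (2 * m) v u) = s0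
  generalize sg (m + 1) u = s'
  generalize sg m u = s''
  generalize u (2 * m) = a
  generalize u (2 * m + 1) = b
  linear_combination (-(v * (a - q * v) * (b - q * v) * (a - q ^ 2 * b) * A ^ 2 * B * s * s' *
    s'' * s0)) * h6

theorem seamT_aux (hq : q ^ 2 + q + 1 = 0) (m : ℕ) (v : ℂ) (u : ℕ → ℂ) :
    eval (ins1 0 (q ^ 2 * v) (ins1 (2 * m) v u)) (PT q (m + 1)) =
      q ^ 2 * v * (∏ j ∈ range (2 * m), (u j - q * v) ^ 2) *
        eval (ins1 (2 * m + 2) (q ^ 2 * v) u) (PS q m) := by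
  rw [eval_PS, eval_PT]
  have e1 : ins1 0 (q ^ 2 * v) (ins1 (2 * m) v u) (2 * m + 2) = u (2 * m) := by
    rw [ins1_gt (j := 0) (k := 2 * m + 1) (by omega), ins1_gt le_rfl]
  have e2 : ins1 0 (q ^ 2 * v) (ins1 (2 * m) v u) (2 * m + 3) = u (2 * m + 1) := by
    rw [ins1_gt (j := 0) (k := 2 * m + 2) (by omega), ins1_gt (j := 2 * m) (k := 2 * m + 1) (by omega)]
  have e4 : ∏ k ∈ range (2 * m + 1), ins1 0 (q ^ 2 * v) (ins1 (2 * m) v u) k =
      (q ^ 2 * v) * ∏ k ∈ range (2 * m), u k := by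
    rw [prod_ins0, prod_ins1]
  have f1 : ins1 (2 * m + 2) (q ^ 2 * v) u (2 * m) = u (2 * m) := ins1_lt (by omega) _ _
  have f2 : ins1 (2 * m + 2) (q ^ 2 * v) u (2 * m + 1) = u (2 * m + 1) := ins1_lt (by omega) _ _
  have f3 : ins1 (2 * m + 2) (q ^ 2 * v) u (2 * m + 2) = q ^ 2 * v := ins1_at _ _ _
  have f4 : ∏ k ∈ range (2 * m), ins1 (2 * m + 2) (q ^ 2 * v) u k = ∏ k ∈ range (2 * m), u k := by
    refine prod_congr rfl fun k hk => ?_
    rw [ins1_lt (by rw [mem_range] at hk; omega)]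
  have s1 : sg (m + 1) (ins1 0 (q ^ 2 * v) (ins1 (2 * m) v u)) =
      (∏ k ∈ range (2 * m), (u k - q * v)) * sg m u := by
    rw [sg_move (m + 1) (i := 0) (j := 2 * m) (by omega) (by omega), ins1_ins1,
      sg_insV hq m le_rfl v u]
  have s2 : sg (m + 1) (skip1 (2 * m + 1) (ins1 0 (q ^ 2 * v) (ins1 (2 * m) v u))) =
      sg (m + 1) (ins1 0 (q ^ 2 * v) u) := by
    rw [skip_ins1_lt (by omega), skip_ins1]
  have s3 : sg (m + 1) (skip1 (2 * m + 1) (skip1 (2 * m + 1)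
      (ins1 0 (q ^ 2 * v) (ins1 (2 * m) v u)))) =
      sg (m + 1) (ins1 0 (q ^ 2 * v) (skip1 (2 * m) u)) := by
    rw [skip_ins1_lt (by omega), skip_ins1, skip_ins1_lt (by omega)]
  have s4 : sg (m + 1 + 1) (ins1 0 (q ^ 2 * v) (ins1 (2 * m) v u)) =
      (∏ k ∈ range (2 * m + 2), (u k - q * v)) * sg (m + 1) u := by
    rw [sg_move (m + 1 + 1) (i := 0) (j := 2 * m) (by omega) (by omega), ins1_ins1,
      sg_insV hq (m + 1) (by omega) v u]
    rfl
  have t1 : sg m (ins1 (2 * m + 2) (q ^ 2 * v) u) = sg m u := by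
    refine sg_congr fun k hk => ?_
    rw [ins1_lt (by omega)]
  have t2 : sg (m + 1) (ins1 (2 * m + 2) (q ^ 2 * v) u) = sg (m + 1) u := by
    refine sg_congr fun k hk => ?_
    rw [ins1_lt (by omega)]
  have t3 : sg (m + 1) (skip1 (2 * m + 1) (ins1 (2 * m + 2) (q ^ 2 * v) u)) =
      sg (m + 1) (ins1 0 (q ^ 2 * v) u) := by
    rw [skip_ins1_ge le_rfl, sg_move (m + 1) (i := 0) (j := 2 * m + 1) (by omega) (by omega)]
    refine sg_congr fun k hk => ?_
    rcases lt_or_ge k (2 * m + 1) with h | h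
    · rw [ins1_lt h, ins1_lt h, skip1_lt h]
    · have : k = 2 * m + 1 := by omega
      rw [this, ins1_at, ins1_at]
  have t4 : sg (m + 1) (skip1 (2 * m) (ins1 (2 * m + 2) (q ^ 2 * v) u)) =
      sg (m + 1) (ins1 0 (q ^ 2 * v) (skip1 (2 * m) u)) := by
    rw [skip_ins1_ge (by omega), sg_move (m + 1) (i := 0) (j := 2 * m + 1) (by omega) (by omega)]
  rw [e1, e2, e4, f1, f2, f3, f4, s1, s2, s3, s4, t1, t2, t3, t4]
  have p1 : ∏ k ∈ range (2 * m + 2), (u k - q * v) =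
      (∏ k ∈ range (2 * m), (u k - q * v)) * (u (2 * m) - q * v) * (u (2 * m + 1) - q * v) := by
    rw [prod_range_succ, prod_range_succ]
  have c1 : q ^ 2 * (q ^ 2 * v) = q * v := by
    linear_combination (q * v) * UniF.q_cube hq
  rw [p1, Finset.prod_pow, c1]
  ring

end Schur3

end Pool.Agent.Perc
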