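import Pool.Agent.Lib.MP_6bd702_perc3.Schur3

/-!
# The Schur products satisfy the relations (task Schur3)
-/

set_option autoImplicit false

namespace Pool.Agent.Perc

open Finset MvPolynomial

namespace Schur3

open Uni3

variable {q : ℂ}

theorem symS_aux (m : ℕ) {i : ℕ} (hi : i + 1 < 2 * m) (w : ℕ → ℂ) :
    eval (swapV i w) (PS q m) = eval w (PS q m) := by
  rw [eval_PS, eval_PS, swapV_ne w (by omega) (by omega), swapV_ne w (by omega) (by omega),
    swapV_ne w (by omega) (by omega), prod_swapV hi, sg_swap m hi, sg_swap (m + 1) (by omega),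
    skip_swap (by omega), skip_swap hi, sg_swap (m + 1) (by omega), sg_swap (m + 1) (by omega)]

theorem symT_aux (m : ℕ) {i : ℕ} (hi : i + 1 < 2 * m + 1) (w : ℕ → ℂ) :
    eval (swapV i w) (PT q (m + 1)) = eval w (PT q (m + 1)) := by
  rw [eval_PT, eval_PT, swapV_ne w (by omega) (by omega), swapV_ne w (by omega) (by omega),
    prod_swapV hi, sg_swap (m + 1) (by omega), skip_swap hi, skip_swap hi,
    sg_swap (m + 1) (by omega), sg_swap (m + 1) (by omega), sg_swap (m + 1 + 1) (by omega)]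

theorem excS_aux (hq : q ^ 2 + q + 1 = 0) (m : ℕ) {i : ℕ} (hi : i = 2 * m ∨ i = 2 * m + 1)
    (w : ℕ → ℂ) : (q * w (i + 1) - q ^ 2 * w i) * eval (swapV i w) (PS q m) =
      (q * w i - q ^ 2 * w (i + 1)) * eval w (PS q m) := by
  have h3 := UniF.q_cube hq
  rw [eval_PS, eval_PS]
  rcases hi with rfl | rfl
  · have s0 : sg m (swapV (2 * m) w) = sg m w := by
      refine sg_congr fun k hk => ?_
      rw [swapV_ne w (by omega) (by omega)]
    rw [swapV_left, swapV_right, swapV_ne w (by omega) (by omega), prod_swapV_ge le_rfl, s0,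
      sg_swap (m + 1) (by omega), skip_swap_at, skip_swap_at']
    generalize sg m w = a
    generalize sg (m + 1) w = b
    generalize sg (m + 1) (skip1 (2 * m) w) = c
    generalize sg (m + 1) (skip1 (2 * m + 1) w) = d
    generalize (∏ k ∈ range (2 * m), w k) = e
    generalize w (2 * m) = x
    generalize w (2 * m + 1) = y
    generalize w (2 * m + 2) = z
    linear_combination (e * (a * b * c * d) * (y - q ^ 2 * z) * (x - q ^ 2 * z) *
      (x ^ 2 - y ^ 2) * q) * h3
  · have s0 : sg m (swapV (2 * m + 1) w) = sg m w := by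
      refine sg_congr fun k hk => ?_
      rw [swapV_ne w (by omega) (by omega)]
    have s1 : sg (m + 1) (swapV (2 * m + 1) w) = sg (m + 1) (skip1 (2 * m + 1) w) := by
      refine sg_congr fun k hk => ?_
      rcases lt_or_ge k (2 * m + 1) with h | h
      · rw [swapV_ne w (by omega) (by omega), skip1_lt h]
      · have : k = 2 * m + 1 := by omega
        rw [this, swapV_left, skip1_ge le_rfl]
    have s2 : sg (m + 1) (skip1 (2 * m + 1) w) = sg (m + 1) (skip1 (2 * m + 1) w) := rfl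
    have s3 : sg (m + 1) (skip1 (2 * m + 1 + 1) w) = sg (m + 1) w := by
      refine sg_congr fun k hk => ?_
      rw [skip1_lt (by omega)]
    have s4 : sg (m + 1) (skip1 (2 * m) (swapV (2 * m + 1) w)) =
        sg (m + 1) (skip1 (2 * m) w) := by
      rw [skip_swap_ge le_rfl, sg_swap (m + 1) (by omega)]
    rw [swapV_ne w (by omega) (by omega), swapV_left, swapV_right, prod_swapV_ge (by omega), s0,
      s1, skip_swap_at, s3, s4]
    generalize sg m w = a
    generalize sg (m + 1) w = b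
    generalize sg (m + 1) (skip1 (2 * m) w) = c
    generalize sg (m + 1) (skip1 (2 * m + 1) w) = d
    generalize (∏ k ∈ range (2 * m), w k) = e
    generalize w (2 * m) = x
    rw [show 2 * m + 1 + 1 = 2 * m + 2 by ring]
    generalize w (2 * m + 1) = y
    generalize w (2 * m + 2) = z
    linear_combination (e * (a * b * c * d) * (x - q ^ 2 * z) * (x - q ^ 2 * y) *
      (y ^ 2 - z ^ 2) * q) * h3

theorem degS_aux (m : ℕ) : (PS q m).degreeOf (2 * m) ≤ 2 * m + 2 := by
  unfold PS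
  have h1 := degreeOf_lin_le (2 * m) (2 * m + 1) (2 * m) (q ^ 2)
  have h2 := degreeOf_lin_le (2 * m) (2 * m + 2) (2 * m) (q ^ 2)
  have h3 := degreeOf_lin_le (2 * m + 1) (2 * m + 2) (2 * m) (q ^ 2)
  rw [if_pos rfl, if_neg (by omega)] at h1 h2
  rw [if_neg (by omega), if_neg (by omega)] at h3
  have h4 := degreeOf_prodX (2 * m) (2 * m) le_rfl
  have h5 : (schur (2 * m) eS3).degreeOf (2 * m) = 0 := degreeOf_schur_out _ _ le_rfl
  have h6 := degreeOf_sg_le m (2 * m)
  obtain ⟨k', h7⟩ := degreeOf_rename_sk (2 * m + 1) (2 * m) (by omega) (schur (2 * (m + 1)) eS3)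
  have h8 := degreeOf_sg_le m k'
  have h9 := degreeOf_rename_self (2 * m) (schur (2 * (m + 1)) eS3)
  refine (degreeOf_mul_le _ _ _).trans ?_
  have a1 := degreeOf_mul_le (2 * m) ((X (2 * m) - C (q ^ 2) * X (2 * m + 1)) *
    (X (2 * m) - C (q ^ 2) * X (2 * m + 2)) * (X (2 * m + 1) - C (q ^ 2) * X (2 * m + 2)))
    (∏ k ∈ range (2 * m), (X k : MvPolynomial ℕ ℂ))
  have a2 := degreeOf_mul_le (2 * m) ((X (2 * m) - C (q ^ 2) * X (2 * m + 1)) *
    (X (2 * m) - C (q ^ 2) * X (2 * m + 2))) (X (2 * m + 1) - C (q ^ 2) * X (2 * m + 2))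
  have a3 := degreeOf_mul_le (2 * m) (X (2 * m) - C (q ^ 2) * X (2 * m + 1))
    (X (2 * m) - C (q ^ 2) * X (2 * m + 2))
  have b1 := degreeOf_mul_le (2 * m) (schur (2 * m) eS3 * schur (2 * (m + 1)) eS3 *
    rename (sk (2 * m + 1)) (schur (2 * (m + 1)) eS3))
    (rename (sk (2 * m)) (schur (2 * (m + 1)) eS3))
  have b2 := degreeOf_mul_le (2 * m) (schur (2 * m) eS3 * schur (2 * (m + 1)) eS3)
    (rename (sk (2 * m + 1)) (schur (2 * (m + 1)) eS3))
  have b3 := degreeOf_mul_le (2 * m) (schur (2 * m) eS3) (schur (2 * (m + 1)) eS3)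
  omega

theorem degT_aux (m : ℕ) : (PT q (m + 1)).degreeOf (2 * m + 1) ≤ 2 * m + 1 := by
  unfold PT
  have h1 := degreeOf_lin_le (2 * m + 2) (2 * m + 3) (2 * m + 1) (q ^ 2)
  rw [if_neg (by omega), if_neg (by omega)] at h1
  have h4 := degreeOf_prodX (2 * m + 1) (2 * m + 1) le_rfl
  have h6 := degreeOf_sg_le m (2 * m + 1)
  have h7 := degreeOf_rename_self (2 * m + 1) (schur (2 * (m + 1)) eS3)
  have h8 := degreeOf_rename_self (2 * m + 1)
    (rename (sk (2 * m + 1)) (schur (2 * (m + 1)) eS3))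
  have h9 := degreeOf_sg_le (m + 1) (2 * m + 1)
  refine (degreeOf_mul_le _ _ _).trans ?_
  have a1 := degreeOf_mul_le (2 * m + 1) (X (2 * m + 2) - C (q ^ 2) * X (2 * m + 3))
    (∏ k ∈ range (2 * m + 1), (X k : MvPolynomial ℕ ℂ))
  have b1 := degreeOf_mul_le (2 * m + 1) (schur (2 * (m + 1)) eS3 *
    rename (sk (2 * m + 1)) (schur (2 * (m + 1)) eS3) *
    rename (sk (2 * m + 1)) (rename (sk (2 * m + 1)) (schur (2 * (m + 1)) eS3)))
    (schur (2 * (m + 1 + 1)) eS3)
  have b2 := degreeOf_mul_le (2 * m + 1) (schur (2 * (m + 1)) eS3 *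
    rename (sk (2 * m + 1)) (schur (2 * (m + 1)) eS3))
    (rename (sk (2 * m + 1)) (rename (sk (2 * m + 1)) (schur (2 * (m + 1)) eS3)))
  have b3 := degreeOf_mul_le (2 * m + 1) (schur (2 * (m + 1)) eS3)
    (rename (sk (2 * m + 1)) (schur (2 * (m + 1)) eS3))
  omega

end Schur3

open Schur3

/-- The Schur products satisfy the relations with the constants `1` and `q²`. -/
theorem rec3_PS {q : ℂ} (hq : q ^ 2 + q + 1 = 0) :
    Rec3 q (fun _ => 1) (fun _ => q ^ 2) (PS q) (PT q) where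
  degS m := degS_aux (m + 1)
  degT m := degT_aux m
  symS m i hi w := symS_aux (m + 1) (by omega) w
  symT m i hi w := symT_aux m hi w
  excS m i hi w := excS_aux hq (m + 1) (by omega) w
  leftS m v u _ := by
    rw [leftS_aux hq, one_mul]
  seamS m v u _ := by
    rw [seamS_aux hq, one_mul]
  leftT m v u _ := leftT_aux hq m v u
  seamT m v u _ := seamT_aux hq m v u

/-- Scaling of the two families. -/
theorem Rec3.smul {q : ℂ} {κ κ' : ℕ → ℂ} {S T : ℕ → MvPolynomial ℕ ℂ} (h : Rec3 q κ κ' S T)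
    {κ₁ κ₁' a b : ℕ → ℂ} (h1 : ∀ m, a (m + 1) * κ m = κ₁ m * b (m + 1))
    (h2 : ∀ m, b (m + 1) * κ' m = κ₁' m * a m) :
    Rec3 q κ₁ κ₁' (fun m => C (a m) * S m) (fun m => C (b m) * T m) where
  degS m := (degreeOf_C_mul_le _ _ _).trans (h.degS m)
  degT m := (degreeOf_C_mul_le _ _ _).trans (h.degT m)
  symS m i hi w := by
    simp only [map_mul, eval_C]
    rw [h.symS m i hi]
  symT m i hi w := by
    simp only [map_mul, eval_C]
    rw [h.symT m i hi]
  excS m i hi w := by
    simp only [map_mul, eval_C]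
    linear_combination a (m + 1) * h.excS m i hi w
  leftS m v u hv := by
    simp only [map_mul, eval_C]
    rw [h.leftS m v u hv]
    linear_combination (v * (∏ j ∈ range (2 * m + 3), (u j - q * v) ^ 2) *
      eval (ins1 (2 * m + 1) (q ^ 2 * v) u) (T (m + 1))) * h1 m
  seamS m v u hv := by
    simp only [map_mul, eval_C]
    rw [h.seamS m v u hv]
    linear_combination (v * (∏ j ∈ range (2 * m + 3), (u j - q * v) ^ 2) *
      eval (ins1 (2 * m + 1) v u) (T (m + 1))) * h1 m
  leftT m v u hv := by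
    simp only [map_mul, eval_C]
    rw [h.leftT m v u hv]
    linear_combination (v * (∏ j ∈ range (2 * m), (u j - q * v) ^ 2) *
      eval (ins1 (2 * m) v u) (S m)) * h2 m
  seamT m v u hv := by
    simp only [map_mul, eval_C]
    rw [h.seamT m v u hv]
    linear_combination (v * (∏ j ∈ range (2 * m), (u j - q * v) ^ 2) *
      eval (ins1 (2 * m + 2) (q ^ 2 * v) u) (S m)) * h2 m

/-- The two families are multiples of the Schur products. -/
theorem Rec3.eq_schur {q : ℂ} (hq : q ^ 2 + q + 1 = 0) {κ κ' : ℕ → ℂ}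
    {S T : ℕ → MvPolynomial ℕ ℂ} (h : Rec3 q κ κ' S T) {a b : ℕ → ℂ}
    (h0 : S 0 = C (a 0) * PS q 0) (h1 : ∀ m, a (m + 1) = κ m * b (m + 1))
    (h2 : ∀ m, b (m + 1) * q ^ 2 = κ' m * a m) (m : ℕ) :
    S m = C (a m) * PS q m ∧ T (m + 1) = C (b (m + 1)) * PT q (m + 1) :=
  h.unique hq ((rec3_PS hq).smul (a := a) (b := b) (fun m => by rw [mul_one, h1]) h2) h0 m

theorem Schur3.schur_two : schur (2 * (0 + 1)) eS3 = 1 := by
  have h := vdm_mul_schur (2 * (0 + 1)) eS3
  have h1 : alt (2 * (0 + 1)) eS3 = vdm (2 * (0 + 1)) := by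
    rw [← alt_id]
    unfold alt
    congr 1
    ext i j : 2
    simp only [Matrix.of_apply]
    congr 1
    have hj : (j : ℕ) = 0 ∨ (j : ℕ) = 1 := by omega
    rcases hj with hj | hj <;> rw [hj] <;> rfl
  rw [h1] at h
  exact mul_left_cancel₀ (SumA.vdm_ne_zero _) (h.trans (mul_one _).symm)

/-- The product of the first family at level `0`. -/
theorem PS_zero (q : ℂ) : PS q 0 = (X 0 - C (q ^ 2) * X 1) * (X 0 - C (q ^ 2) * X 2) *
    (X 1 - C (q ^ 2) * X 2) := by
  have h0 : schur (2 * 0) eS3 = 1 := QSchur.schur_zero eS3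
  unfold PS
  rw [Schur3.schur_two, h0, map_one, map_one]
  simp

/-- The value at one. -/
theorem eval_one_PT (q : ℂ) (m : ℕ) : eval (fun _ => 1) (PT q (m + 1)) =
    (1 - q ^ 2) * (eval (fun _ => 1) (schur (2 * (m + 1)) eS3) ^ 3 *
      eval (fun _ => 1) (schur (2 * (m + 1 + 1)) eS3)) := by
  rw [eval_PT]
  have e : skip1 (2 * m + 1) (fun _ => (1 : ℂ)) = fun _ => 1 := by
    funext k
    unfold skip1
    split_ifs <;> rfl
  rw [e, e]
  simp only [prod_const_one, mul_one]
  unfold sg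
  ring

end Pool.Agent.Perc
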