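import Pool.Agent.Lib.MP_6bd702_perc3.PsiOB

/-!
# Stationarity on the cylinder of odd circumference (task StatO)

Model: perq/StatS.lean (points `apt` with `2 n + 3` coordinates).
-/

set_option autoImplicit false

namespace Pool.Agent.Perc

open Finset MvPolynomial

theorem NCO.trowO {L : ℕ} {p : ℕ → ℕ} (h : NCO L p) (w : ℕ → Bool) : NCO L (trowO L w p) := by
  have h1 : ∀ k ≤ L, NCO (L + 2) (rowO w k (Perc.cupO L p)) := by
    intro k hk
    induction k with
    | zero => exact h.cupO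
    | succ k ih =>
      have h2 := ih (by omega)
      change NCO (L + 2) (if w k then Perc.eO k (rowO w k (Perc.cupO L p))
        else rowO w k (Perc.cupO L p))
      split_ifs
      · exact h2.eO (by omega)
      · exact h2
  have h2 := (h1 L le_rfl).eO (i := L) (by omega)
  obtain ⟨p', hp', he⟩ := h2.exists_del' (i := L) le_rfl (eO_small _ _)
  change NCO L (resP L (Perc.eO L (rowO w L (Perc.cupO L p))))
  rw [he, resO_insArc hp']
  exact hp'

namespace StatO

/-- One face: the average of the two states. -/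
noncomputable def rPO (i : ℕ) (f : (ℕ → ℕ) →₀ ℂ) : (ℕ → ℕ) →₀ ℂ :=
  (1 / 2 : ℂ) • (f + f.mapDomain (eO i))

/-- The faces `0, …, k - 1` of a row. -/
noncomputable def rowPO : ℕ → ((ℕ → ℕ) →₀ ℂ) → ((ℕ → ℕ) →₀ ℂ)
  | 0, f => f
  | k + 1, f => rPO k (rowPO k f)

theorem rPO_smul (i : ℕ) (c : ℂ) (f : (ℕ → ℕ) →₀ ℂ) : rPO i (c • f) = c • rPO i f := by
  unfold rPO
  rw [Finsupp.mapDomain_smul, ← smul_add, smul_comm]

theorem rowPO_smul (k : ℕ) (c : ℂ) (f : (ℕ → ℕ) →₀ ℂ) : rowPO k (c • f) = c • rowPO k f := by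
  induction k with
  | zero => rfl
  | succ k ih =>
    change rPO k (rowPO k (c • f)) = c • rPO k (rowPO k f)
    rw [ih, rPO_smul]

/-- The point with `-q ^ 2` at `k` and `-q` at the last place. -/
def apt (q : ℂ) (n k : ℕ) : ℕ → ℂ := fun j =>
  if j = k then -q ^ 2 else if j = 2 * n + 2 then -q else 1

variable {q : ℂ}

theorem q3 (hq : q ^ 2 + q + 1 = 0) : q ^ 3 = 1 := by linear_combination (q - 1) * hq

theorem q_ne (hq : q ^ 2 + q + 1 = 0) : q ≠ 0 := by
  rintro rfl
  norm_num at hq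

theorem swap_apt (n k : ℕ) (hk : k < 2 * n + 1) : swapV k (apt q n k) = apt q n (k + 1) := by
  ext j
  unfold swapV apt
  by_cases h1 : j = k
  · subst h1
    rw [Equiv.swap_apply_left, if_neg (by omega), if_neg (by omega), if_neg (by omega),
      if_neg (by omega)]
  · by_cases h2 : j = k + 1
    · subst h2
      rw [Equiv.swap_apply_right, if_pos rfl, if_pos rfl]
    · rw [Equiv.swap_apply_of_ne_of_ne h1 h2, if_neg h1, if_neg h2]

theorem apt_step (hq : q ^ 2 + q + 1 = 0) (n k : ℕ) (hk : k < 2 * n + 1) :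
    PsiOV q (n + 1) (apt q n (k + 1)) = rPO k (PsiOV q (n + 1) (apt q n k)) := by
  have hq0 := q_ne hq
  have h := exchangeO hq (n := n + 1) (i := k) (by omega) (apt q n k)
  have hz : apt q n k k = -q ^ 2 := if_pos rfl
  have hz' : apt q n k (k + 1) = 1 := by
    unfold apt
    rw [if_neg (by omega), if_neg (by omega)]
  rw [swap_apt n k hk, hz, hz'] at h
  have e1 : q * 1 - q ^ 2 * -q ^ 2 = 2 * q := by
    linear_combination q * q3 hq
  have e2 : q * -q ^ 2 - q ^ 2 * 1 = q := by
    linear_combination -q3 hq - hq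
  have e3 : -q ^ 2 - 1 = q := by linear_combination -hq
  rw [e1, e2, e3] at h
  have h2 : (2 * q : ℂ) ≠ 0 := mul_ne_zero two_ne_zero hq0
  have h3 : PsiOV q (n + 1) (apt q n (k + 1)) = (2 * q)⁻¹ • ((2 * q) •
      PsiOV q (n + 1) (apt q n (k + 1))) := by
    rw [smul_smul, inv_mul_cancel₀ h2, one_smul]
  rw [h3, h, ← smul_add, smul_smul]
  unfold rPO
  congr 1
  field_simp

theorem apt_row (hq : q ^ 2 + q + 1 = 0) (n k : ℕ) (hk : k ≤ 2 * n + 1) :
    PsiOV q (n + 1) (apt q n k) = rowPO k (PsiOV q (n + 1) (apt q n 0)) := by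
  induction k with
  | zero => rfl
  | succ k ih =>
    rw [apt_step hq n k (by omega), ih (by omega)]
    rfl

/-- The constant. -/
noncomputable def cst (q : ℂ) (n : ℕ) : ℂ := -q ^ 2 * (4 : ℂ) ^ (2 * n + 1) / (-3 * (9 * q) ^ n)

theorem cst_ne (hq : q ^ 2 + q + 1 = 0) (n : ℕ) : cst q n ≠ 0 := by
  have hq0 := q_ne hq
  exact div_ne_zero (mul_ne_zero (neg_ne_zero.mpr (pow_ne_zero _ hq0))
    (pow_ne_zero _ (by norm_num))) (mul_ne_zero (by norm_num)
      (pow_ne_zero _ (mul_ne_zero (by norm_num) hq0)))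

theorem prod_one (hq : q ^ 2 + q + 1 = 0) (n : ℕ) :
    ∏ _k ∈ range (2 * n + 1), ((1 : ℂ) - q * -q ^ 2) ^ 2 = 4 ^ (2 * n + 1) := by
  have h1 : (1 : ℂ) - q * -q ^ 2 = 2 := by linear_combination q3 hq
  rw [h1, Finset.prod_const, Finset.card_range]
  norm_num

theorem ins_one (hq : q ^ 2 + q + 1 = 0) (n i : ℕ) (hi : i ≤ 2 * n + 1) :
    PsiOV q (n + 1) (insV i (q ^ 2 * -q ^ 2) (-q ^ 2) fun _ => 1) =
      cst q n • (PsiOV q n fun _ => 1).mapDomain (insArc i) := by
  rw [PsiOV_insV hq n hi, prod_one hq]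
  rfl

theorem apt_zero (hq : q ^ 2 + q + 1 = 0) (n : ℕ) :
    PsiOV q (n + 1) (apt q n 0) =
      cst q n • (PsiOV q n fun _ => 1).mapDomain (cupO (2 * n + 1)) := by
  have h1 : ∀ k < 2 * (n + 1) + 1, apt q n 0 k =
      put2 (2 * n + 2) (-q ^ 2) (q ^ 2 * -q ^ 2) (fun _ => 1) k := by
    intro k hk
    unfold apt put2
    by_cases h1 : k = 0
    · rw [if_pos h1, if_pos h1]
    · rw [if_neg h1, if_neg h1]
      by_cases h2 : k = 2 * n + 2
      · rw [if_pos h2, if_neg (by omega), if_pos h2]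
        linear_combination q * q3 hq
      · rw [if_neg h2, if_pos (by omega)]
  rw [PsiOV_congr hq h1, PsiOV_seam hq n (-q ^ 2), prod_one hq]
  rfl

theorem apt_last (hq : q ^ 2 + q + 1 = 0) (n : ℕ) :
    (PsiOV q (n + 1) (apt q n (2 * n + 1))).mapDomain (eO (2 * n + 1)) =
      cst q n • (PsiOV q n fun _ => 1).mapDomain (insArc (2 * n + 1)) := by
  have hq0 := q_ne hq
  have h := exchangeO hq (n := n + 1) (i := 2 * n + 1) (by omega) (apt q n (2 * n + 1))
  have hz : apt q n (2 * n + 1) (2 * n + 1) = -q ^ 2 := if_pos rfl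
  have hz' : apt q n (2 * n + 1) (2 * n + 1 + 1) = -q := by
    unfold apt
    rw [if_neg (by omega), if_pos rfl]
  have h1 : ∀ k < 2 * (n + 1) + 1, swapV (2 * n + 1) (apt q n (2 * n + 1)) k =
      insV (2 * n + 1) (q ^ 2 * -q ^ 2) (-q ^ 2) (fun _ => 1) k := by
    intro k hk
    unfold swapV insV
    by_cases h1 : k = 2 * n + 1
    · subst h1
      rw [Equiv.swap_apply_left, hz', if_neg (lt_irrefl _), if_pos rfl]
      linear_combination q * q3 hq
    · by_cases h2 : k = 2 * n + 1 + 1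
      · subst h2
        rw [Equiv.swap_apply_right, hz, if_neg (by omega), if_neg (by omega), if_pos rfl]
      · rw [Equiv.swap_apply_of_ne_of_ne h1 h2]
        unfold apt
        rw [if_neg h1, if_neg h2, if_pos (by omega)]
  rw [PsiOV_congr hq h1, ins_one hq n (2 * n + 1) le_rfl, hz, hz'] at h
  have e1 : q * -q - q ^ 2 * -q ^ 2 = q - q ^ 2 := by
    linear_combination q * q3 hq
  have e2 : q * -q ^ 2 - q ^ 2 * -q = 0 := by ring
  have e3 : -q ^ 2 - -q = q - q ^ 2 := by ring
  rw [e1, e2, e3, zero_smul, zero_add] at h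
  have h2 : q - q ^ 2 ≠ 0 := by
    intro h0
    have h4 : q * (1 - q) = 0 := by linear_combination h0
    rcases mul_eq_zero.mp h4 with h5 | h5
    · exact hq0 h5
    · have h6 : q = 1 := by linear_combination -h5
      rw [h6] at hq
      norm_num at hq
  have h3 := congrArg (fun f => (q - q ^ 2)⁻¹ • f) h
  simp only [smul_smul _ (q - q ^ 2), inv_mul_cancel₀ h2, one_smul] at h3
  exact h3.symm

/-- Stationarity as an identity of vectors. -/
theorem statV (hq : q ^ 2 + q + 1 = 0) (n : ℕ) :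
    (rowPO (2 * n + 1) ((PsiOV q n fun _ => 1).mapDomain (cupO (2 * n + 1)))).mapDomain
        (eO (2 * n + 1)) =
      (PsiOV q n fun _ => 1).mapDomain (insArc (2 * n + 1)) := by
  have h := apt_last hq n
  rw [apt_row hq n (2 * n + 1) le_rfl, apt_zero hq n, rowPO_smul, Finsupp.mapDomain_smul] at h
  have h3 := congrArg (fun f => (cst q n)⁻¹ • f) h
  simp only [smul_smul, inv_mul_cancel₀ (cst_ne hq n), one_smul] at h3
  exact h3

/-- Pairing of a vector with a function. -/
noncomputable def pr (f : (ℕ → ℕ) → ℂ) (g : (ℕ → ℕ) →₀ ℂ) : ℂ := g.sum fun s c => c * f s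

theorem pr_add (f : (ℕ → ℕ) → ℂ) (g g' : (ℕ → ℕ) →₀ ℂ) : pr f (g + g') = pr f g + pr f g' :=
  Finsupp.sum_add_index' (fun _ => zero_mul _) fun _ _ _ => add_mul _ _ _

theorem pr_smul (f : (ℕ → ℕ) → ℂ) (c : ℂ) (g : (ℕ → ℕ) →₀ ℂ) : pr f (c • g) = c * pr f g := by
  unfold pr
  rw [Finsupp.sum_smul_index' (fun _ => zero_mul _), Finsupp.mul_sum]
  refine Finsupp.sum_congr fun s _ => ?_
  rw [smul_eq_mul, mul_assoc]

theorem pr_mapDomain (f : (ℕ → ℕ) → ℂ) (h : (ℕ → ℕ) → (ℕ → ℕ)) (g : (ℕ → ℕ) →₀ ℂ) :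
    pr f (g.mapDomain h) = pr (fun s => f (h s)) g :=
  Finsupp.sum_mapDomain_index (fun _ => zero_mul _) fun _ _ _ => add_mul _ _ _

theorem rowO_congr {w w' : ℕ → Bool} {k : ℕ} (h : ∀ i < k, w i = w' i) (s : ℕ → ℕ) :
    rowO w k s = rowO w' k s := by
  induction k with
  | zero => rfl
  | succ k ih =>
    change (if w k then eO k (rowO w k s) else rowO w k s) =
      if w' k then eO k (rowO w' k s) else rowO w' k s
    rw [ih fun i hi => h i (by omega), h k (by omega)]

theorem trowO_congr {L : ℕ} {w w' : ℕ → Bool} (h : ∀ j < L, w j = w' j) (t : ℕ → ℕ) :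
    trowO L w t = trowO L w' t := by
  unfold trowO
  rw [rowO_congr h]

theorem pr_rowPO (k : ℕ) (f : (ℕ → ℕ) → ℂ) (g : (ℕ → ℕ) →₀ ℂ) : pr f (rowPO k g) =
    (∑ T ∈ (range k).powerset, pr (fun s => f (rowO (fun i => decide (i ∈ T)) k s)) g) /
      2 ^ k := by
  classical
  induction k generalizing f with
  | zero =>
    rw [Finset.range_zero, Finset.powerset_empty, Finset.sum_singleton, pow_zero, div_one]
    rfl
  | succ k ih =>
    change pr f (rPO k (rowPO k g)) = _
    unfold rPO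
    rw [pr_smul, pr_add, pr_mapDomain, ih, ih, Finset.range_add_one,
      Finset.sum_powerset_insert (by simp)]
    have h1 : ∀ T ∈ (range k).powerset,
        pr (fun s => f (rowO (fun i => decide (i ∈ T)) (k + 1) s)) g =
          pr (fun s => f (rowO (fun i => decide (i ∈ T)) k s)) g := by
      intro T hT
      rw [mem_powerset] at hT
      congr 1
      funext s
      congr 1
      change (if decide (k ∈ T) = true then _ else _) = _
      rw [if_neg]
      intro hk
      have := hT (of_decide_eq_true hk)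
      simp at this
    have h2 : ∀ T ∈ (range k).powerset,
        pr (fun s => f (rowO (fun i => decide (i ∈ insert k T)) (k + 1) s)) g =
          pr (fun s => f (eO k (rowO (fun i => decide (i ∈ T)) k s))) g := by
      intro T hT
      rw [mem_powerset] at hT
      congr 1
      funext s
      congr 1
      change (if decide (k ∈ insert k T) = true then _ else _) = _
      rw [if_pos (by simp)]
      congr 1
      refine rowO_congr (fun i hi => ?_) s
      congr 1
      rw [Finset.mem_insert]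
      simp only [eq_iff_iff, or_iff_right_iff_imp]
      intro h
      omega
    rw [Finset.sum_congr rfl h1, Finset.sum_congr rfl h2, pow_succ]
    field_simp

end StatO

open StatO

/-- The homogeneous solution is stationary for the rows of the cylinder. -/
theorem stationaryO {q : ℂ} (hq : q ^ 2 + q + 1 = 0) (n : ℕ) (f : (ℕ → ℕ) → ℂ) :
    ∑ p ∈ nco (2 * n + 1), eval (fun _ => 1) (PsiO q n p) * avgO (2 * n + 1) f p =
      ∑ p ∈ nco (2 * n + 1), eval (fun _ => 1) (PsiO q n p) * f p := by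
  classical
  have h0 := congrArg (fun g => pr (fun s => f (resP (2 * n + 1) s)) g) (statV hq n)
  simp only at h0
  have hpr : ∀ F : (ℕ → ℕ) → ℂ, pr F (PsiOV q n fun _ => 1) =
      ∑ s ∈ nco (2 * n + 1), eval (fun _ => 1) (PsiO q n s) * F s := by
    intro F
    unfold PsiOV pr
    rw [← Finsupp.sum_finsetSum_index (fun _ => zero_mul _) fun _ _ _ => add_mul _ _ _]
    refine Finset.sum_congr rfl fun s _ => ?_
    rw [Finsupp.sum_single_index (zero_mul _)]
  rw [pr_mapDomain, pr_rowPO, pr_mapDomain, hpr] at h0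
  have h1 : ∑ s ∈ nco (2 * n + 1), eval (fun _ => 1) (PsiO q n s) *
      f (resP (2 * n + 1) (insArc (2 * n + 1) s)) =
      ∑ s ∈ nco (2 * n + 1), eval (fun _ => 1) (PsiO q n s) * f s := by
    refine Finset.sum_congr rfl fun s hs => ?_
    rw [resO_insArc (mem_nco.mp hs)]
  rw [h1] at h0
  rw [← h0]
  have h2 : ∀ T ∈ (range (2 * n + 1)).powerset,
      pr (fun s => f (resP (2 * n + 1) (eO (2 * n + 1)
          (rowO (fun i => decide (i ∈ T)) (2 * n + 1) s))))
        ((PsiOV q n fun _ => 1).mapDomain (cupO (2 * n + 1))) =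
      ∑ s ∈ nco (2 * n + 1), eval (fun _ => 1) (PsiO q n s) *
        f (trowO (2 * n + 1) (fun k => decide (k ∈ T)) s) := by
    intro T _
    rw [pr_mapDomain, hpr]
    rfl
  rw [Finset.sum_congr rfl h2, Finset.sum_comm, Finset.sum_div]
  refine Finset.sum_congr rfl fun s _ => ?_
  unfold avgO
  rw [← Finset.mul_sum, mul_div_assoc]

end Pool.Agent.Perc
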