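import Pool.Agent.Lib.MP_6bd702_perc3.TwQ

/-!
# Several strands which cross a rectangle

Strands which enter a simply connected set of faces through consecutive sides of its boundary and
which do not leave it through these sides: the faces of the left marks of two such strands are
disjoint, and the faces of the right marks as well.
-/

set_option autoImplicit false

namespace Pool.Agent.Perc.Q

open Finset Pool.Agent.Perc Relation

section Abstract

variable {V Φ : Type} {Q : QC V Φ} {ω : Φ → Bool} {F : Set Φ} {e a b : V × V} {f : Φ}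
  {k : ZMod 4} {u v p q : V}

/-- The faces in which the left mark of the strand moves. -/
def LV (Q : QC V Φ) (ω : Φ → Bool) (F : Set Φ) (e : V × V) : Set Φ :=
  {f | f ∈ F ∧ ∃ k, (Q.c f k, Q.c f (k + 1)) ∈ Orb Q ω F e ∧ ω f = ev k}

/-- The faces in which the right mark of the strand moves. -/
def RV (Q : QC V Φ) (ω : Φ → Bool) (F : Set Φ) (e : V × V) : Set Φ :=
  {f | f ∈ F ∧ ∃ k, (Q.c f k, Q.c f (k + 1)) ∈ Orb Q ω F e ∧ ω f = !ev k}

theorem LV_sub : LV Q ω F e ⊆ F := fun _ h => h.1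

theorem RV_sub : RV Q ω F e ⊆ F := fun _ h => h.1

theorem left_path (ha : a ∈ Orb Q ω F e) : ConnQ Q ω (LV Q ω F e) e.1 a.1 := by
  induction ha with
  | refl => exact ReflTransGen.refl
  | tail hab hs ih =>
    rename_i b b'
    obtain ⟨f, hf, k, rfl, ⟨h, rfl⟩ | ⟨h, rfl⟩⟩ := hs
    · exact ih.tail ⟨f, ⟨hf, k, hab, h⟩, k, h, rfl, rfl⟩
    · exact ih

theorem right_path (ha : a ∈ Orb Q ω F e) : ConnQ Q ω (RV Q ω F e) e.2 a.2 := by
  induction ha with
  | refl => exact ReflTransGen.refl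
  | tail hab hs ih =>
    rename_i b b'
    obtain ⟨f, hf, k, rfl, ⟨h, rfl⟩ | ⟨h, rfl⟩⟩ := hs
    · exact ih
    · refine ih.tail ⟨f, ⟨hf, k, hab, h⟩, k + 1, by rw [ev_add_one, h], rfl, ?_⟩
      change Q.c f (k + 3) = Q.c f (k + 1 + 2)
      rw [z2]

/-- Every even cochain on the faces of `F` has a potential. -/
def SC (Q : QC V Φ) (F : Set Φ) : Prop :=
  ∀ m : V → V → ZMod 2, (∀ p q, m p q = m q p) →
    (∀ f ∈ F, ∑ k, m (Q.c f k) (Q.c f (k + 1)) = 0) →
    ∃ χ : V → ZMod 2, ∀ f ∈ F, ∀ k, χ (Q.c f k) + χ (Q.c f (k + 1)) = m (Q.c f k) (Q.c f (k + 1))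

open Classical in
/-- The cochain of a strand. -/
noncomputable def cochain (Q : QC V Φ) (ω : Φ → Bool) (F : Set Φ) (e : V × V) (p q : V) : ZMod 2 :=
  if (p, q) ∈ Un Q ω F e then 1 else 0

theorem cochain_symm (p q : V) : cochain Q ω F e p q = cochain Q ω F e q p := by
  unfold cochain
  have : (p, q) ∈ Un Q ω F e ↔ (q, p) ∈ Un Q ω F e := by
    rw [← Un_swap]
    rfl
  by_cases h : (p, q) ∈ Un Q ω F e
  · rw [if_pos h, if_pos (this.1 h)]
  · rw [if_neg h, if_neg (fun h' => h (this.2 h'))]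

/-- The cochain agrees on the two sides at the corner `k + 1` of a face with a bond from `k` to
`k + 2`. -/
theorem cochain_eq (he : Ini Q F e) (hf : f ∈ F) (h : ω f = ev k) :
    cochain Q ω F e (Q.c f k) (Q.c f (k + 1)) =
      cochain Q ω F e (Q.c f (k + 1)) (Q.c f (k + 2)) := by
  unfold cochain
  have := un_iff he hf h
  by_cases h1 : (Q.c f k, Q.c f (k + 1)) ∈ Un Q ω F e
  · rw [if_pos h1, if_pos (this.1 h1)]
  · rw [if_neg h1, if_neg (fun h' => h1 (this.2 h'))]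

theorem sum_four (g : ZMod 4 → ZMod 2) (k : ZMod 4) :
    ∑ i, g i = g k + g (k + 1) + (g (k + 2) + g (k + 3)) := by
  have h1 : ∑ i, g i = ∑ i, g (k + i) := (Equiv.sum_comp (Equiv.addLeft k) g).symm
  rw [h1]
  have h2 : (univ : Finset (ZMod 4)) = {0, 1, 2, 3} := by decide
  rw [h2, sum_insert (by decide), sum_insert (by decide), sum_insert (by decide), sum_singleton,
    add_zero]
  ring

theorem cochain_even (he : Ini Q F e) (hf : f ∈ F) :
    ∑ k, cochain Q ω F e (Q.c f k) (Q.c f (k + 1)) = 0 := by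
  obtain ⟨k, hk⟩ : ∃ k, ω f = ev k := by
    cases h : ω f
    · exact ⟨1, rfl⟩
    · exact ⟨0, rfl⟩
  rw [sum_four _ k, z1, z7, z5]
  have h1 := cochain_eq he hf hk
  have h2 := cochain_eq (ω := ω) (k := k + 2) he hf (by rw [ev_add_two, hk])
  rw [z7, z4] at h2
  rw [h1, h2, CharTwo.add_self_eq_zero, CharTwo.add_self_eq_zero, add_zero]

/-- The potential of a strand is constant on the clusters. -/
theorem pot_conn {χ : V → ZMod 2} (he : Ini Q F e)
    (hχ : ∀ f ∈ F, ∀ k, χ (Q.c f k) + χ (Q.c f (k + 1)) =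
      cochain Q ω F e (Q.c f k) (Q.c f (k + 1))) (h : ConnQ Q ω F u v) : χ u = χ v := by
  induction h with
  | refl => rfl
  | tail _ hb ih =>
    obtain ⟨f, hf, k, hk, rfl, rfl⟩ := hb
    rw [ih]
    have h1 := hχ f hf k
    have h2 := hχ f hf (k + 1)
    rw [z1, ← cochain_eq he hf hk, ← h1, add_comm (χ (Q.c f k))] at h2
    exact (add_left_cancel h2).symm

/-- A strand which enters through one of the consecutive sides `(s l, s (l + 1))`, `a ≤ l < b`, and
does not leave through one of them separates the clusters of the sides before it from the clusters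
of the sides after it. -/
theorem not_conn_side (hSC : SC Q F) {s : ℤ → V} {a b : ℤ}
    (hside : ∀ l, a ≤ l → l < b → ∃ f ∈ F, ∃ k, (s l, s (l + 1)) = (Q.c f k, Q.c f (k + 1)))
    (hini : ∀ l, a ≤ l → l < b → Ini Q F (s l, s (l + 1)))
    (hinj : ∀ l l', a ≤ l → l < b → a ≤ l' → l' < b → (s l, s (l + 1)) = (s l', s (l' + 1)) →
      l = l') {j : ℤ} (hj : a ≤ j ∧ j < b)
    (hout : ∀ l, a ≤ l → l < b → (s (l + 1), s l) ∉ Orb Q ω F (s j, s (j + 1)))
    {l l' : ℤ} (h1 : a ≤ l) (h2 : l ≤ j) (h3 : j < l') (h4 : l' ≤ b) :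
    ¬ ConnQ Q ω F (s l) (s l') := by
  set e := (s j, s (j + 1)) with he
  have hIe : Ini Q F e := hini j hj.1 hj.2
  obtain ⟨χ, hχ⟩ := hSC (cochain Q ω F e) cochain_symm fun f hf => cochain_even hIe hf
  have hstep : ∀ i, a ≤ i → i < b → χ (s i) + χ (s (i + 1)) = if i = j then 1 else 0 := by
    intro i hi hi'
    obtain ⟨f, hf, k, hk⟩ := hside i hi hi'
    have h5 := hχ f hf k
    have hk1 := (Prod.mk.inj hk).1
    have hk2 := (Prod.mk.inj hk).2
    rw [← hk1, ← hk2] at h5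
    rw [h5]
    unfold cochain
    by_cases hij : i = j
    · subst hij
      rw [if_pos rfl, if_pos]
      exact Or.inl mem_Orb_self
    · rw [if_neg hij, if_neg]
      rintro (h6 | h6)
      · rcases Orb_pred h6 with h7 | ⟨c, -, f', hf', k', -, h7⟩
        · exact hij (hinj i j hi hi' hj.1 hj.2 h7)
        · rcases h7 with ⟨-, h7⟩ | ⟨-, h7⟩
          · refine hini i hi hi' f' hf' (k' + 1) ?_
            rw [h7, z1]
          · refine hini i hi hi' f' hf' (k' + 3) ?_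
            rw [h7, z5]
      · exact hout i hi hi' h6
  have hbef : ∀ n : ℕ, ∀ i, a ≤ i → i + n = j → χ (s i) = χ (s j) := by
    intro n
    induction n with
    | zero => intro i _ hi; rw [show i = j by omega]
    | succ n ih =>
      intro i hi hij
      have h5 := hstep i hi (by push_cast at hij; omega)
      rw [if_neg (by push_cast at hij; omega), ih (i + 1) (by omega) (by push_cast at hij; omega)]
        at h5
      exact CharTwo.add_eq_zero.1 h5
  have haft : ∀ n : ℕ, ∀ i, i ≤ b → j + 1 + n = i → χ (s i) = χ (s (j + 1)) := by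
    intro n
    induction n with
    | zero => intro i _ hi; rw [show i = j + 1 by omega]
    | succ n ih =>
      intro i hi hij
      have h5 := hstep (i - 1) (by push_cast at hij; omega) (by omega)
      rw [if_neg (by push_cast at hij; omega), sub_add_cancel,
        ih (i - 1) (by omega) (by push_cast at hij; omega)] at h5
      exact (CharTwo.add_eq_zero.1 h5).symm
  intro hc
  have h5 := pot_conn hIe hχ hc
  rw [hbef (j - l).toNat l h1 (by omega), haft (l' - (j + 1)).toNat l' h4 (by omega)] at h5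
  have h6 := hstep j hj.1 hj.2
  rw [if_pos rfl, h5, CharTwo.add_self_eq_zero] at h6
  exact absurd h6 (by decide)

/-- Two strands which enter through consecutive sides and do not leave through these sides. -/
theorem side_disj (hSC : SC Q F) {s : ℤ → V} {a b : ℤ}
    (hside : ∀ l, a ≤ l → l < b → ∃ f ∈ F, ∃ k, (s l, s (l + 1)) = (Q.c f k, Q.c f (k + 1)))
    (hini : ∀ l, a ≤ l → l < b → Ini Q F (s l, s (l + 1)))
    (hinj : ∀ l l', a ≤ l → l < b → a ≤ l' → l' < b → (s l, s (l + 1)) = (s l', s (l' + 1)) →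
      l = l') {i j : ℤ} (hi : a ≤ i ∧ i < b) (hj : a ≤ j ∧ j < b) (hij : i < j)
    (hout : ∀ l, a ≤ l → l < b → (s (l + 1), s l) ∉ Orb Q ω F (s i, s (i + 1)))
    (hout' : ∀ l, a ≤ l → l < b → (s (l + 1), s l) ∉ Orb Q ω F (s j, s (j + 1))) :
    Disjoint (LV Q ω F (s i, s (i + 1))) (LV Q ω F (s j, s (j + 1))) ∧
      Disjoint (RV Q ω F (s i, s (i + 1))) (RV Q ω F (s j, s (j + 1))) := by
  have key : ∀ {f : Φ} {k k' : ZMod 4}, f ∈ F → ω f = ev k → ω f = ev k' →
      ConnQ Q ω F (Q.c f k) (Q.c f k') := by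
    intro f k k' hf h1 h2
    rw [h1] at h2
    have h3 : k' = k ∨ k' = k + 2 := by
      clear h1
      revert k k'
      decide
    rcases h3 with rfl | rfl
    · exact ReflTransGen.refl
    · exact ReflTransGen.single ⟨f, hf, k, h1, rfl, rfl⟩
  constructor
  · rw [Set.disjoint_left]
    rintro f ⟨hf, k, h1, h2⟩ ⟨-, k', h3, h4⟩
    have h5 : ConnQ Q ω F (s i) (Q.c f k) := (left_path h1).mono LV_sub
    have h6 : ConnQ Q ω F (s j) (Q.c f k') := (left_path h3).mono LV_sub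
    have h7 : ConnQ Q ω F (s i) (s j) := (h5.trans (key hf h2 h4)).trans h6.symm
    exact not_conn_side hSC hside hini hinj hi hout hi.1 le_rfl hij hj.2.le h7
  · rw [Set.disjoint_left]
    rintro f ⟨hf, k, h1, h2⟩ ⟨-, k', h3, h4⟩
    have h5 : ConnQ Q ω F (s (i + 1)) (Q.c f (k + 1)) := (right_path h1).mono RV_sub
    have h6 : ConnQ Q ω F (s (j + 1)) (Q.c f (k' + 1)) := (right_path h3).mono RV_sub
    have h7 : ConnQ Q ω F (s (i + 1)) (s (j + 1)) :=
      (h5.trans (key hf (by rw [ev_add_one, h2]) (by rw [ev_add_one, h4]))).trans h6.symm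
    exact not_conn_side hSC hside hini hinj hj hout' (by omega) (by omega) (by omega)
      (by omega) h7

/-- Half of the strands have disjoint paths of marks of the given colour. -/
theorem exists_disj (hSC : SC Q F) {s : ℤ → V} {a b : ℤ}
    (hside : ∀ l, a ≤ l → l < b → ∃ f ∈ F, ∃ k, (s l, s (l + 1)) = (Q.c f k, Q.c f (k + 1)))
    (hini : ∀ l, a ≤ l → l < b → Ini Q F (s l, s (l + 1)))
    (hinj : ∀ l l', a ≤ l → l < b → a ≤ l' → l' < b → (s l, s (l + 1)) = (s l', s (l' + 1)) →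
      l = l') {T : V × V → Prop} (hT : ∀ t, T t → Ter Q F t)
    (hT' : ∀ l, a ≤ l → l < b → ¬ T (s (l + 1), s l)) {col : V → Prop}
    (hcol : ∀ l, a ≤ l → l < b → col (s l) ∨ col (s (l + 1))) {J : Finset ℤ}
    (hJ : ∀ j ∈ J, a ≤ j ∧ j < b ∧ ∃ t ∈ Orb Q ω F (s j, s (j + 1)), T t) :
    ∃ J' ⊆ J, J.card ≤ 2 * J'.card ∧ ∃ K : ℤ → Set Φ, (∀ j ∈ J', K j ⊆ F) ∧
      (∀ i ∈ J', ∀ j ∈ J', i ≠ j → Disjoint (K i) (K j)) ∧
      ∀ j ∈ J', ∃ u v, (u = s j ∨ u = s (j + 1)) ∧ col u ∧ (∃ t, T t ∧ (v = t.1 ∨ v = t.2)) ∧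
        ConnQ Q ω (K j) u v := by
  classical
  have hout : ∀ j ∈ J, ∀ l, a ≤ l → l < b → (s (l + 1), s l) ∉ Orb Q ω F (s j, s (j + 1)) := by
    intro j hj l hl hl' h
    obtain ⟨-, -, t, ht, hTt⟩ := hJ j hj
    have h1 : Ter Q F (s (l + 1), s l) := by
      intro f hf k h2
      refine hini l hl hl' f hf k ?_
      exact Prod.ext (Prod.mk.inj h2).2 (Prod.mk.inj h2).1
    have h2 := ter_unique h ht h1 (hT t hTt)
    exact hT' l hl hl' (by rw [h2]; exact hTt)
  set JL := J.filter fun j => col (s j) with hJL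
  set JR := J.filter fun j => col (s (j + 1)) with hJR
  have hun : J ⊆ JL ∪ JR := by
    intro j hj
    obtain ⟨h1, h2, -⟩ := hJ j hj
    rw [hJL, hJR, mem_union, mem_filter, mem_filter]
    rcases hcol j h1 h2 with h | h
    · exact Or.inl ⟨hj, h⟩
    · exact Or.inr ⟨hj, h⟩
  have hcard : J.card ≤ JL.card + JR.card := (card_le_card hun).trans (card_union_le _ _)
  have hd : ∀ i ∈ J, ∀ j ∈ J, i < j →
      Disjoint (LV Q ω F (s i, s (i + 1))) (LV Q ω F (s j, s (j + 1))) ∧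
        Disjoint (RV Q ω F (s i, s (i + 1))) (RV Q ω F (s j, s (j + 1))) := by
    intro i hi j hj hij
    obtain ⟨h1, h2, -⟩ := hJ i hi
    obtain ⟨h3, h4, -⟩ := hJ j hj
    exact side_disj hSC hside hini hinj ⟨h1, h2⟩ ⟨h3, h4⟩ hij (hout i hi) (hout j hj)
  rcases le_total JL.card JR.card with hle | hle
  · refine ⟨JR, filter_subset _ _, by omega, fun j => RV Q ω F (s j, s (j + 1)),
      fun j _ => RV_sub, ?_, ?_⟩
    · intro i hi j hj hij
      have hi' := (mem_filter.1 hi).1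
      have hj' := (mem_filter.1 hj).1
      rcases lt_or_gt_of_ne hij with h | h
      · exact (hd i hi' j hj' h).2
      · exact (hd j hj' i hi' h).2.symm
    · intro j hj
      obtain ⟨hj1, hj2⟩ := mem_filter.1 hj
      obtain ⟨-, -, t, ht, hTt⟩ := hJ j hj1
      exact ⟨s (j + 1), t.2, Or.inr rfl, hj2, ⟨t, hTt, Or.inr rfl⟩, right_path ht⟩
  · refine ⟨JL, filter_subset _ _, by omega, fun j => LV Q ω F (s j, s (j + 1)),
      fun j _ => LV_sub, ?_, ?_⟩
    · intro i hi j hj hij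
      have hi' := (mem_filter.1 hi).1
      have hj' := (mem_filter.1 hj).1
      rcases lt_or_gt_of_ne hij with h | h
      · exact (hd i hi' j hj' h).1
      · exact (hd j hj' i hi' h).1.symm
    · intro j hj
      obtain ⟨hj1, hj2⟩ := mem_filter.1 hj
      obtain ⟨-, -, t, ht, hTt⟩ := hJ j hj1
      exact ⟨s j, t.1, Or.inl rfl, hj2, ⟨t, hTt, Or.inl rfl⟩, left_path ht⟩

/-! ### Maps of complexes -/

variable {V' Φ' : Type} {Q' : QC V' Φ'} {φ : Φ → Φ'} {ψ : V → V'} {ω' : Φ' → Bool}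

theorem Nx_map (hc : ∀ f ∈ F, ∀ k, Q'.c (φ f) k = ψ (Q.c f k))
    (h : Nx Q (fun f => ω' (φ f)) F a b) : Nx Q' ω' (φ '' F) (Prod.map ψ ψ a) (Prod.map ψ ψ b) := by
  obtain ⟨f, hf, k, rfl, h⟩ := h
  refine ⟨φ f, ⟨f, hf, rfl⟩, k, ?_, ?_⟩
  · rw [hc f hf, hc f hf]; rfl
  · rcases h with ⟨h, rfl⟩ | ⟨h, rfl⟩
    · exact Or.inl ⟨h, by rw [hc f hf, hc f hf]; rfl⟩
    · exact Or.inr ⟨h, by rw [hc f hf, hc f hf]; rfl⟩

theorem Orb_map (hc : ∀ f ∈ F, ∀ k, Q'.c (φ f) k = ψ (Q.c f k))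
    (h : a ∈ Orb Q (fun f => ω' (φ f)) F e) :
    Prod.map ψ ψ a ∈ Orb Q' ω' (φ '' F) (Prod.map ψ ψ e) := by
  induction h with
  | refl => exact mem_Orb_self
  | tail _ hs ih => exact Orb_step ih (Nx_map hc hs)

end Abstract

/-! ### The plane -/

theorem corT_id (f : ℤ × ℤ) (k : ZMod 4) : corT id f k = cor0 f k := by
  unfold corT
  split_ifs with h
  · rfl
  · unfold twV
    split_ifs with h1
    · exact Prod.ext rfl h1.symm
    · rfl

theorem cor0_inj {f : ℤ × ℤ} {k : ZMod 4} {f' : ℤ × ℤ} {k' : ZMod 4} (h : cor0 f k = cor0 f' k')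
    (h' : cor0 f (k + 1) = cor0 f' (k' + 1)) : f = f' ∧ k = k' :=
  corT_inj (em := id) strictMono_id (by rw [corT_id, corT_id, h]) (by rw [corT_id, corT_id, h'])

/-- The plane. -/
def ZQ : QC (ℤ × ℤ) (ℤ × ℤ) where
  c := cor0
  inj := cor0_inj

theorem ZQ_c (f : ℤ × ℤ) (k : ZMod 4) : ZQ.c f k = cor0 f k := rfl

variable {ω : Cfg} {F : Set (ℤ × ℤ)} {u v : ℤ × ℤ} {x₀ x₁ y₀ y₁ : ℤ}

theorem bond_of_bondZ (h : BondQ ZQ ω F u v) : Bond ω F u v := by
  obtain ⟨⟨x, y⟩, hf, k, h, rfl, rfl⟩ := h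
  refine ⟨x, y, hf, ?_⟩
  rcases k4_cases k with rfl | rfl | rfl | rfl
  · exact Or.inl ⟨h, Or.inl ⟨rfl, rfl⟩⟩
  · exact Or.inr ⟨h, Or.inr ⟨rfl, rfl⟩⟩
  · exact Or.inl ⟨h, Or.inr ⟨rfl, rfl⟩⟩
  · exact Or.inr ⟨h, Or.inl ⟨rfl, rfl⟩⟩

theorem bondZ_of_bond (h : Bond ω F u v) : BondQ ZQ ω F u v := by
  obtain ⟨x, y, hf, ⟨h, ⟨rfl, rfl⟩ | ⟨rfl, rfl⟩⟩ | ⟨h, ⟨rfl, rfl⟩ | ⟨rfl, rfl⟩⟩⟩ := h
  · exact ⟨(x, y), hf, 0, h, rfl, rfl⟩
  · exact ⟨(x, y), hf, 2, h, rfl, rfl⟩
  · exact ⟨(x, y), hf, 3, h, rfl, rfl⟩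
  · exact ⟨(x, y), hf, 1, h, rfl, rfl⟩

theorem connZ_iff : ConnQ ZQ ω F u v ↔ Conn ω F u v :=
  ⟨rtg_mono fun _ _ h => bond_of_bondZ h, rtg_mono fun _ _ h => bondZ_of_bond h⟩

/-- Rectangles are simply connected. -/
theorem sc_rect : SC ZQ (RF x₀ x₁ y₀ y₁ : Finset (ℤ × ℤ)) := by
  intro m hsym hev
  set A : ℤ → ZMod 2 := fun x => ∑ i ∈ Ico x₀ x, m (i, y₁) (i + 1, y₁) with hA
  set B : ℤ → ℤ → ZMod 2 := fun x y => ∑ j ∈ Ico y y₁, m (x, j) (x, j + 1) with hB
  have hBs : ∀ x y, y < y₁ → B x y = m (x, y) (x, y + 1) + B x (y + 1) := by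
    intro x y hy
    rw [hB]
    simp only
    rw [← insert_Ico_add_one_left_eq_Ico hy, sum_insert (by simp)]
  have hAs : ∀ x, x₀ ≤ x → A (x + 1) = A x + m (x, y₁) (x + 1, y₁) := by
    intro x hx
    rw [hA]
    simp only
    rw [← insert_Ico_right_eq_Ico_add_one hx, sum_insert (by simp), add_comm]
  have hface : ∀ x y, (x, y) ∈ RF x₀ x₁ y₀ y₁ →
      m (x, y) (x + 1, y) + m (x + 1, y) (x + 1, y + 1) + (m (x + 1, y + 1) (x, y + 1) +
        m (x, y + 1) (x, y)) = 0 := by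
    intro x y h
    have h1 := hev (x, y) (by exact_mod_cast h)
    rw [sum_four _ 0] at h1
    exact h1
  have hor : ∀ n : ℕ, ∀ x y, x₀ ≤ x → x < x₁ → y₀ ≤ y → y + n = y₁ →
      A x + B x y + (A (x + 1) + B (x + 1) y) = m (x, y) (x + 1, y) := by
    intro n
    induction n with
    | zero =>
      intro x y hx hx' hy hn
      have hy1 : y = y₁ := by push_cast at hn; omega
      subst hy1
      rw [hB]
      simp only [Ico_self, sum_empty, add_zero]
      rw [hAs x hx, ← add_assoc, CharTwo.add_self_eq_zero, zero_add]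
    | succ n ih =>
      intro x y hx hx' hy hn
      push_cast at hn
      have h1 := ih x (y + 1) hx hx' (by omega) (by omega)
      have h2 := hface x y (by unfold RF; rw [mem_product, mem_Ico, mem_Ico]; simp only; omega)
      rw [hBs x y (by omega), hBs (x + 1) y (by omega)]
      rw [hsym (x + 1, y + 1) (x, y + 1), hsym (x, y + 1) (x, y)] at h2
      have h3 : m (x, y) (x + 1, y) = m (x + 1, y) (x + 1, y + 1) + m (x, y + 1) (x + 1, y + 1) +
          m (x, y) (x, y + 1) := by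
        have h4 := CharTwo.add_eq_zero.1 (show m (x, y) (x + 1, y) +
          (m (x + 1, y) (x + 1, y + 1) + m (x, y + 1) (x + 1, y + 1) + m (x, y) (x, y + 1)) = 0 by
            rw [← h2]; ring)
        exact h4
      rw [h3, ← h1]
      ring
  have hA' : ∀ x y, x₀ ≤ x → x < x₁ → y₀ ≤ y → y ≤ y₁ →
      A x + B x y + (A (x + 1) + B (x + 1) y) = m (x, y) (x + 1, y) := fun x y h1 h2 h3 h4 =>
    hor (y₁ - y).toNat x y h1 h2 h3 (by omega)
  have hve : ∀ x y, y < y₁ → A x + B x y + (A x + B x (y + 1)) = m (x, y) (x, y + 1) := by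
    intro x y hy
    rw [hBs x y hy]
    have : A x + (m (x, y) (x, y + 1) + B x (y + 1)) + (A x + B x (y + 1)) =
        (A x + A x) + (B x (y + 1) + B x (y + 1)) + m (x, y) (x, y + 1) := by ring
    rw [this, CharTwo.add_self_eq_zero, CharTwo.add_self_eq_zero, zero_add, zero_add]
  refine ⟨fun v => A v.1 + B v.1 v.2, ?_⟩
  rintro ⟨x, y⟩ hf k
  rw [mem_coe] at hf
  unfold RF at hf
  rw [mem_product, mem_Ico, mem_Ico] at hf
  simp only at hf
  rcases k4_cases k with rfl | rfl | rfl | rfl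
  · exact hA' x y (by omega) (by omega) (by omega) (by omega)
  · exact hve (x + 1) y (by omega)
  · change A (x + 1) + B (x + 1) (y + 1) + (A x + B x (y + 1)) = m (x + 1, y + 1) (x, y + 1)
    rw [hsym, add_comm]
    exact hA' x (y + 1) (by omega) (by omega) (by omega) (by omega)
  · change A x + B x (y + 1) + (A x + B x y) = m (x, y + 1) (x, y)
    rw [hsym, add_comm]
    exact hve x y (by omega)

end Pool.Agent.Perc.Q
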