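import Pool.Agent.Lib.MP_6bd702_perc3.StrandRect
import Pool.Agent.Lib.MP_6bd702_perc6_h22.BKRect

/-!
# The strands which cross a rectangle of the plane, from one of the four sides to the opposite side
-/

set_option autoImplicit false

namespace Pool.Agent.Perc.Q

open Finset Pool.Agent.Perc Relation
open Pool.Agent.PercN (DisLR DisBT)

variable {ω : Cfg} {F : Set (ℤ × ℤ)} {u v : ℤ × ℤ} {x₀ x₁ y₀ y₁ c : ℤ} {k : ℕ}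

theorem rf_iff {f : ℤ × ℤ} : f ∈ RF x₀ x₁ y₀ y₁ ↔ (x₀ ≤ f.1 ∧ f.1 < x₁) ∧ y₀ ≤ f.2 ∧ f.2 < y₁ := by
  unfold RF
  rw [mem_product, mem_Ico, mem_Ico]

/-- The exit edges: `right`, `top`, `left`, `bottom`. -/
theorem ter_right (y : ℤ) :
    Ter ZQ (RF x₀ x₁ y₀ y₁ : Finset (ℤ × ℤ)) ((x₁, y + 1), (x₁, y)) := by
  rintro ⟨a, b⟩ hf k h
  rw [mem_coe, rf_iff] at hf
  rcases k4_cases k with rfl | rfl | rfl | rfl <;>
    simp only [ZQ_c, k01, k11, k21, k31, cor0_0, cor0_1, cor0_2, cor0_3, Prod.mk.injEq] at h hf <;>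
    omega

theorem ter_left (y : ℤ) :
    Ter ZQ (RF x₀ x₁ y₀ y₁ : Finset (ℤ × ℤ)) ((x₀, y), (x₀, y + 1)) := by
  rintro ⟨a, b⟩ hf k h
  rw [mem_coe, rf_iff] at hf
  rcases k4_cases k with rfl | rfl | rfl | rfl <;>
    simp only [ZQ_c, k01, k11, k21, k31, cor0_0, cor0_1, cor0_2, cor0_3, Prod.mk.injEq] at h hf <;>
    omega

theorem ter_top (x : ℤ) :
    Ter ZQ (RF x₀ x₁ y₀ y₁ : Finset (ℤ × ℤ)) ((x, y₁), (x + 1, y₁)) := by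
  rintro ⟨a, b⟩ hf k h
  rw [mem_coe, rf_iff] at hf
  rcases k4_cases k with rfl | rfl | rfl | rfl <;>
    simp only [ZQ_c, k01, k11, k21, k31, cor0_0, cor0_1, cor0_2, cor0_3, Prod.mk.injEq] at h hf <;>
    omega

theorem ter_bot (x : ℤ) :
    Ter ZQ (RF x₀ x₁ y₀ y₁ : Finset (ℤ × ℤ)) ((x + 1, y₀), (x, y₀)) := by
  rintro ⟨a, b⟩ hf k h
  rw [mem_coe, rf_iff] at hf
  rcases k4_cases k with rfl | rfl | rfl | rfl <;>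
    simp only [ZQ_c, k01, k11, k21, k31, cor0_0, cor0_1, cor0_2, cor0_3, Prod.mk.injEq] at h hf <;>
    omega

theorem ini_of_ter {V Φ : Type} {Q : QC V Φ} {F : Set Φ} {a b : V} (h : Ter Q F (b, a)) :
    Ini Q F (a, b) := by
  intro f hf k hk
  refine h f hf k ?_
  exact Prod.ext (Prod.mk.inj hk).2 (Prod.mk.inj hk).1

/-- A terminal side of a rectangle is an exit edge. -/
theorem ter_cases {f : ℤ × ℤ} {k : ZMod 4} (hf : f ∈ RF x₀ x₁ y₀ y₁)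
    (h : Ter ZQ (RF x₀ x₁ y₀ y₁ : Finset (ℤ × ℤ)) (ZQ.c f (k + 1), ZQ.c f k)) :
    (∃ y, (y₀ ≤ y ∧ y < y₁) ∧ (ZQ.c f (k + 1), ZQ.c f k) = ((x₁, y + 1), (x₁, y))) ∨
      (∃ x, (x₀ ≤ x ∧ x < x₁) ∧ (ZQ.c f (k + 1), ZQ.c f k) = ((x, y₁), (x + 1, y₁))) ∨
      (∃ y, (y₀ ≤ y ∧ y < y₁) ∧ (ZQ.c f (k + 1), ZQ.c f k) = ((x₀, y), (x₀, y + 1))) ∨
      ∃ x, (x₀ ≤ x ∧ x < x₁) ∧ (ZQ.c f (k + 1), ZQ.c f k) = ((x + 1, y₀), (x, y₀)) := by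
  obtain ⟨a, b⟩ := f
  rw [rf_iff] at hf
  simp only at hf
  rcases k4_cases k with rfl | rfl | rfl | rfl <;>
    simp only [ZQ_c, k01, k11, k21, k31, cor0_0, cor0_1, cor0_2, cor0_3] at h ⊢
  · by_cases hb : b = y₀
    · subst hb
      exact Or.inr (Or.inr (Or.inr ⟨a, by omega, rfl⟩))
    · exfalso
      refine h (a, b - 1) (by rw [mem_coe, rf_iff]; simp only; omega) 2 ?_
      simp only [ZQ_c, k21, cor0_2, cor0_3, sub_add_cancel]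
  · by_cases ha : a + 1 = x₁
    · subst ha
      exact Or.inl ⟨b, by omega, rfl⟩
    · exfalso
      refine h (a + 1, b) (by rw [mem_coe, rf_iff]; simp only; omega) 3 ?_
      simp only [ZQ_c, k31, cor0_3, cor0_0]
  · by_cases hb : b + 1 = y₁
    · subst hb
      exact Or.inr (Or.inl ⟨a, by omega, rfl⟩)
    · exfalso
      refine h (a, b + 1) (by rw [mem_coe, rf_iff]; simp only; omega) 0 ?_
      simp only [ZQ_c, k01, cor0_0, cor0_1]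
  · by_cases ha : a = x₀
    · subst ha
      exact Or.inr (Or.inr (Or.inl ⟨b, by omega, rfl⟩))
    · exfalso
      refine h (a - 1, b) (by rw [mem_coe, rf_iff]; simp only; omega) 1 ?_
      simp only [ZQ_c, k11, cor0_1, cor0_2, sub_add_cancel]

/-- The last element of a strand which enters a rectangle is an exit edge. -/
theorem exit_cases {e : (ℤ × ℤ) × (ℤ × ℤ)}
    (hini : Ini ZQ (RF x₀ x₁ y₀ y₁ : Finset (ℤ × ℤ)) e)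
    (hside : ∃ f ∈ (RF x₀ x₁ y₀ y₁ : Finset (ℤ × ℤ)), ∃ k, e = (ZQ.c f k, ZQ.c f (k + 1))) :
    (∃ y, (y₀ ≤ y ∧ y < y₁) ∧ ((x₁, y + 1), (x₁, y)) ∈
        Orb ZQ ω (RF x₀ x₁ y₀ y₁ : Finset (ℤ × ℤ)) e) ∨
      (∃ x, (x₀ ≤ x ∧ x < x₁) ∧ ((x, y₁), (x + 1, y₁)) ∈
        Orb ZQ ω (RF x₀ x₁ y₀ y₁ : Finset (ℤ × ℤ)) e) ∨
      (∃ y, (y₀ ≤ y ∧ y < y₁) ∧ ((x₀, y), (x₀, y + 1)) ∈
        Orb ZQ ω (RF x₀ x₁ y₀ y₁ : Finset (ℤ × ℤ)) e) ∨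
      ∃ x, (x₀ ≤ x ∧ x < x₁) ∧ ((x + 1, y₀), (x, y₀)) ∈
        Orb ZQ ω (RF x₀ x₁ y₀ y₁ : Finset (ℤ × ℤ)) e := by
  obtain ⟨a, ha, hter⟩ := exists_ter (ω := ω) (Finset.finite_toSet (RF x₀ x₁ y₀ y₁)) hini
  rcases Orb_pred ha with rfl | ⟨b, -, f, hf, k, -, h⟩
  · obtain ⟨f, hf, k, rfl⟩ := hside
    exact absurd rfl (hter f hf k)
  · rw [mem_coe] at hf
    rcases h with ⟨-, rfl⟩ | ⟨-, rfl⟩
    · have h1 := ter_cases (k := k + 1) hf (by rw [z1]; exact hter)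
      rw [z1] at h1
      rcases h1 with ⟨y, hy, h1⟩ | ⟨x, hx, h1⟩ | ⟨y, hy, h1⟩ | ⟨x, hx, h1⟩
      · exact Or.inl ⟨y, hy, by rw [← h1]; exact ha⟩
      · exact Or.inr (Or.inl ⟨x, hx, by rw [← h1]; exact ha⟩)
      · exact Or.inr (Or.inr (Or.inl ⟨y, hy, by rw [← h1]; exact ha⟩))
      · exact Or.inr (Or.inr (Or.inr ⟨x, hx, by rw [← h1]; exact ha⟩))
    · have h1 := ter_cases (k := k + 3) hf (by rw [z5]; exact hter)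
      rw [z5] at h1
      rcases h1 with ⟨y, hy, h1⟩ | ⟨x, hx, h1⟩ | ⟨y, hy, h1⟩ | ⟨x, hx, h1⟩
      · exact Or.inl ⟨y, hy, by rw [← h1]; exact ha⟩
      · exact Or.inr (Or.inl ⟨x, hx, by rw [← h1]; exact ha⟩)
      · exact Or.inr (Or.inr (Or.inl ⟨y, hy, by rw [← h1]; exact ha⟩))
      · exact Or.inr (Or.inr (Or.inr ⟨x, hx, by rw [← h1]; exact ha⟩))

/-- Enumeration of a family of disjoint sets. -/
theorem fin_family {R : Finset (ℤ × ℤ)} {J : Finset ℤ} {K : ℤ → Set (ℤ × ℤ)}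
    (hk : k ≤ J.card) (hK : ∀ j ∈ J, K j ⊆ R)
    (hd : ∀ i ∈ J, ∀ j ∈ J, i ≠ j → Disjoint (K i) (K j)) {P : Set (ℤ × ℤ) → Prop}
    (hP : ∀ j ∈ J, P (K j)) :
    ∃ K' : Fin k → Finset (ℤ × ℤ), (∀ i, K' i ⊆ R) ∧ (∀ i j, i ≠ j → Disjoint (K' i) (K' j)) ∧
      ∀ i, P (K' i : Set (ℤ × ℤ)) := by
  classical
  set g := J.orderEmbOfCardLe hk with hg
  have hgm : ∀ i, g i ∈ J := fun i => J.orderEmbOfCardLe_mem hk i
  have hco : ∀ i, ((R.filter fun f => f ∈ K (g i) : Finset (ℤ × ℤ)) : Set (ℤ × ℤ)) = K (g i) := by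
    intro i
    ext f
    rw [mem_coe, mem_filter]
    exact ⟨fun h => h.2, fun h => ⟨by exact_mod_cast hK _ (hgm i) h, h⟩⟩
  refine ⟨fun i => R.filter fun f => f ∈ K (g i), fun i => filter_subset _ _, ?_, ?_⟩
  · intro i j hij
    rw [← disjoint_coe, hco, hco]
    exact hd _ (hgm i) _ (hgm j) fun h => hij (g.injective h)
  · intro i
    rw [hco]
    exact hP _ (hgm i)

theorem parity_or {a b : ℤ} (h : b = a + 1 ∨ a = b + 1) (c : ℤ) :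
    (a - c) % 2 = 0 ∨ (b - c) % 2 = 0 := by omega

/-- The strands which enter a rectangle through the sides `(s l, s (l + 1))` and leave it through
the sides `T`. -/
theorem dis_gen {s : ℤ → ℤ × ℤ} {a b : ℤ} {T : (ℤ × ℤ) × (ℤ × ℤ) → Prop} {J : Finset ℤ}
    (hs : ∀ l, a ≤ l → l ≤ b → x₀ ≤ (s l).1 ∧ (s l).1 ≤ x₁ ∧ y₀ ≤ (s l).2 ∧ (s l).2 ≤ y₁)
    (hside : ∀ l, a ≤ l → l < b → ∃ f ∈ (RF x₀ x₁ y₀ y₁ : Finset (ℤ × ℤ)), ∃ k,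
      (s l, s (l + 1)) = (ZQ.c f k, ZQ.c f (k + 1)))
    (hini : ∀ l, a ≤ l → l < b → Ter ZQ (RF x₀ x₁ y₀ y₁ : Finset (ℤ × ℤ)) (s (l + 1), s l))
    (hinj : ∀ l l', s l = s l' → l = l')
    (hT : ∀ t, T t → Ter ZQ (RF x₀ x₁ y₀ y₁ : Finset (ℤ × ℤ)) t)
    (hT' : ∀ l, a ≤ l → l < b → ¬ T (s (l + 1), s l))
    (hcol : ∀ l, a ≤ l → l < b → (s (l + 1)).1 + (s (l + 1)).2 = (s l).1 + (s l).2 + 1 ∨
      (s l).1 + (s l).2 = (s (l + 1)).1 + (s (l + 1)).2 + 1)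
    (hJ : ∀ j ∈ J, a ≤ j ∧ j < b ∧ ∃ t ∈ Orb ZQ ω (RF x₀ x₁ y₀ y₁ : Finset (ℤ × ℤ))
      (s j, s (j + 1)), T t) (hk : 2 * k ≤ J.card + 1) :
    ∃ K : Fin k → Finset (ℤ × ℤ), (∀ i, K i ⊆ RF x₀ x₁ y₀ y₁) ∧
      (∀ i j, i ≠ j → Disjoint (K i) (K j)) ∧ ∀ i, ∃ u v : ℤ × ℤ,
        (∃ j, a ≤ j ∧ j ≤ b ∧ u = s j) ∧ (∃ t, T t ∧ (v = t.1 ∨ v = t.2)) ∧
        (x₀ ≤ v.1 ∧ v.1 ≤ x₁ ∧ y₀ ≤ v.2 ∧ v.2 ≤ y₁) ∧ (u.1 + u.2 - c) % 2 = 0 ∧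
        (v.1 + v.2 - c) % 2 = 0 ∧ Conn ω (K i) u v := by
  obtain ⟨J', hJ', hcard, K, hK, hd, hP⟩ := exists_disj (Q := ZQ) (ω := ω) (sc_rect (x₀ := x₀)
    (x₁ := x₁) (y₀ := y₀) (y₁ := y₁)) (s := s) (a := a) (b := b) hside
    (fun l h1 h2 => ini_of_ter (hini l h1 h2))
    (fun l l' _ _ _ _ h => hinj l l' (Prod.mk.inj h).1)
    (T := T) hT hT' (col := fun v => (v.1 + v.2 - c) % 2 = 0)
    (fun l h1 h2 => parity_or (hcol l h1 h2) c) (J := J) hJ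
  refine fin_family (k := k) (by omega) hK hd (P := fun S => ∃ u v : ℤ × ℤ,
    (∃ j, a ≤ j ∧ j ≤ b ∧ u = s j) ∧ (∃ t, T t ∧ (v = t.1 ∨ v = t.2)) ∧
    (x₀ ≤ v.1 ∧ v.1 ≤ x₁ ∧ y₀ ≤ v.2 ∧ v.2 ≤ y₁) ∧ (u.1 + u.2 - c) % 2 = 0 ∧
    (v.1 + v.2 - c) % 2 = 0 ∧ Conn ω S u v) ?_
  intro j hj
  obtain ⟨u, v, hu, hcu, hv, hc⟩ := hP j hj
  obtain ⟨h1, h2, -⟩ := hJ j (hJ' hj)
  have hu' : ∃ j, a ≤ j ∧ j ≤ b ∧ u = s j := by
    rcases hu with rfl | rfl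
    · exact ⟨j, h1, h2.le, rfl⟩
    · exact ⟨j + 1, by omega, by omega, rfl⟩
  have hc' := connZ_iff.1 hc
  refine ⟨u, v, hu', hv, ?_, hcu, ?_, hc'⟩
  · obtain ⟨i, hi, hi', rfl⟩ := hu'
    exact (hc'.mono (hK j hj)).mem_rect (hs i hi hi')
  · have := hc'.parity
    omega

/-- Strands from the right side to the left side. -/
theorem dis_right {J : Finset ℤ} (hJ : ∀ j ∈ J, y₀ ≤ j ∧ j < y₁ ∧ ∃ y, ((x₀, y), (x₀, y + 1)) ∈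
      Orb ZQ ω (RF x₀ x₁ y₀ y₁ : Finset (ℤ × ℤ)) ((x₁, j), (x₁, j + 1)))
    (hx : x₀ < x₁) (hk : 2 * k ≤ J.card + 1) : ω ∈ DisLR k c x₀ x₁ y₀ y₁ := by
  obtain ⟨K, h1, h2, h3⟩ := dis_gen (ω := ω) (x₀ := x₀) (x₁ := x₁) (y₀ := y₀) (y₁ := y₁) (c := c)
    (k := k) (s := fun l => (x₁, l)) (a := y₀) (b := y₁)
    (T := fun t => ∃ y, t = ((x₀, y), (x₀, y + 1))) (J := J)
    (fun l h1 h2 => by simp only; omega)
    (fun l h1 h2 => ⟨(x₁ - 1, l), by rw [rf_iff]; simp only; omega, 1, by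
      simp only [ZQ_c, k11, cor0_1, cor0_2, sub_add_cancel]⟩)
    (fun l _ _ => ter_right l)
    (fun l l' h => (Prod.mk.inj h).2)
    (by rintro t ⟨y, rfl⟩; exact ter_left y)
    (by rintro l - - ⟨y, h⟩; simp only [Prod.mk.injEq] at h; omega)
    (fun l _ _ => by simp only; omega)
    (fun j hj => by
      obtain ⟨h1, h2, y, h3⟩ := hJ j hj
      exact ⟨h1, h2, _, h3, y, rfl⟩) hk
  refine ⟨K, h1, h2, fun i => ?_⟩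
  obtain ⟨u, v, ⟨j, -, -, rfl⟩, ⟨t, ⟨y, rfl⟩, hv⟩, hr, -, hp, hc⟩ := h3 i
  exact ⟨v, _, by rcases hv with rfl | rfl <;> rfl, by omega, by omega, rfl, hp, hc.symm⟩

/-- Strands from the left side to the right side. -/
theorem dis_left {J : Finset ℤ} (hJ : ∀ j ∈ J, -y₁ ≤ j ∧ j < -y₀ ∧ ∃ y, ((x₁, y + 1), (x₁, y)) ∈
      Orb ZQ ω (RF x₀ x₁ y₀ y₁ : Finset (ℤ × ℤ)) ((x₀, -j), (x₀, -(j + 1))))
    (hx : x₀ < x₁) (hk : 2 * k ≤ J.card + 1) : ω ∈ DisLR k c x₀ x₁ y₀ y₁ := by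
  obtain ⟨K, h1, h2, h3⟩ := dis_gen (ω := ω) (x₀ := x₀) (x₁ := x₁) (y₀ := y₀) (y₁ := y₁) (c := c)
    (k := k) (s := fun l => (x₀, -l)) (a := -y₁) (b := -y₀)
    (T := fun t => ∃ y, t = ((x₁, y + 1), (x₁, y))) (J := J)
    (fun l h1 h2 => by simp only; omega)
    (fun l h1 h2 => ⟨(x₀, -(l + 1)), by rw [rf_iff]; simp only; omega, 3, by
      simp only [ZQ_c, k31, cor0_3, cor0_0, show -(l + 1) + 1 = -l by ring]⟩)
    (fun l _ _ => by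
      have h := ter_left (x₀ := x₀) (x₁ := x₁) (y₀ := y₀) (y₁ := y₁) (-(l + 1))
      rwa [show -(l + 1) + 1 = -l by ring] at h)
    (fun l l' h => by have := (Prod.mk.inj h).2; omega)
    (by rintro t ⟨y, rfl⟩; exact ter_right y)
    (by rintro l - - ⟨y, h⟩; simp only [Prod.mk.injEq] at h; omega)
    (fun l _ _ => by simp only; omega)
    (fun j hj => by
      obtain ⟨h1, h2, y, h3⟩ := hJ j hj
      exact ⟨h1, h2, _, h3, y, rfl⟩) hk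
  refine ⟨K, h1, h2, fun i => ?_⟩
  obtain ⟨u, v, ⟨j, hj1, hj2, rfl⟩, ⟨t, ⟨y, rfl⟩, hv⟩, hr, hp, -, hc⟩ := h3 i
  exact ⟨_, v, rfl, by simp only; omega, by simp only; omega,
    by rcases hv with rfl | rfl <;> rfl, hp, hc⟩

/-- Strands from the top side to the bottom side. -/
theorem dis_top {J : Finset ℤ} (hJ : ∀ j ∈ J, -x₁ ≤ j ∧ j < -x₀ ∧ ∃ x, ((x + 1, y₀), (x, y₀)) ∈
      Orb ZQ ω (RF x₀ x₁ y₀ y₁ : Finset (ℤ × ℤ)) ((-j, y₁), (-(j + 1), y₁)))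
    (hy : y₀ < y₁) (hk : 2 * k ≤ J.card + 1) : ω ∈ DisBT k c x₀ x₁ y₀ y₁ := by
  obtain ⟨K, h1, h2, h3⟩ := dis_gen (ω := ω) (x₀ := x₀) (x₁ := x₁) (y₀ := y₀) (y₁ := y₁) (c := c)
    (k := k) (s := fun l => (-l, y₁)) (a := -x₁) (b := -x₀)
    (T := fun t => ∃ x, t = ((x + 1, y₀), (x, y₀))) (J := J)
    (fun l h1 h2 => by simp only; omega)
    (fun l h1 h2 => ⟨(-(l + 1), y₁ - 1), by rw [rf_iff]; simp only; omega, 2, by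
      simp only [ZQ_c, k21, cor0_2, cor0_3, sub_add_cancel, show -(l + 1) + 1 = -l by ring]⟩)
    (fun l _ _ => by
      have h := ter_top (x₀ := x₀) (x₁ := x₁) (y₀ := y₀) (y₁ := y₁) (-(l + 1))
      rwa [show -(l + 1) + 1 = -l by ring] at h)
    (fun l l' h => by have := (Prod.mk.inj h).1; omega)
    (by rintro t ⟨x, rfl⟩; exact ter_bot x)
    (by rintro l - - ⟨x, h⟩; simp only [Prod.mk.injEq] at h; omega)
    (fun l _ _ => by simp only; omega)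
    (fun j hj => by
      obtain ⟨h1, h2, x, h3⟩ := hJ j hj
      exact ⟨h1, h2, _, h3, x, rfl⟩) hk
  refine ⟨K, h1, h2, fun i => ?_⟩
  obtain ⟨u, v, ⟨j, -, -, rfl⟩, ⟨t, ⟨x, rfl⟩, hv⟩, hr, -, hp, hc⟩ := h3 i
  exact ⟨v, _, by rcases hv with rfl | rfl <;> rfl, by omega, by omega, rfl, hp, hc.symm⟩

/-- Strands from the bottom side to the top side. -/
theorem dis_bot {J : Finset ℤ} (hJ : ∀ j ∈ J, x₀ ≤ j ∧ j < x₁ ∧ ∃ x, ((x, y₁), (x + 1, y₁)) ∈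
      Orb ZQ ω (RF x₀ x₁ y₀ y₁ : Finset (ℤ × ℤ)) ((j, y₀), (j + 1, y₀)))
    (hy : y₀ < y₁) (hk : 2 * k ≤ J.card + 1) : ω ∈ DisBT k c x₀ x₁ y₀ y₁ := by
  obtain ⟨K, h1, h2, h3⟩ := dis_gen (ω := ω) (x₀ := x₀) (x₁ := x₁) (y₀ := y₀) (y₁ := y₁) (c := c)
    (k := k) (s := fun l => (l, y₀)) (a := x₀) (b := x₁)
    (T := fun t => ∃ x, t = ((x, y₁), (x + 1, y₁))) (J := J)
    (fun l h1 h2 => by simp only; omega)
    (fun l h1 h2 => ⟨(l, y₀), by rw [rf_iff]; simp only; omega, 0, by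
      simp only [ZQ_c, k01, cor0_0, cor0_1]⟩)
    (fun l _ _ => ter_bot l)
    (fun l l' h => (Prod.mk.inj h).1)
    (by rintro t ⟨x, rfl⟩; exact ter_top x)
    (by rintro l - - ⟨x, h⟩; simp only [Prod.mk.injEq] at h; omega)
    (fun l _ _ => by simp only; omega)
    (fun j hj => by
      obtain ⟨h1, h2, x, h3⟩ := hJ j hj
      exact ⟨h1, h2, _, h3, x, rfl⟩) hk
  refine ⟨K, h1, h2, fun i => ?_⟩
  obtain ⟨u, v, ⟨j, hj1, hj2, rfl⟩, ⟨t, ⟨x, rfl⟩, hv⟩, hr, hp, -, hc⟩ := h3 i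
  exact ⟨_, v, rfl, by simp only; omega, by simp only; omega,
    by rcases hv with rfl | rfl <;> rfl, hp, hc⟩

end Pool.Agent.Perc.Q
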