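import Pool.Agent.Lib.MP_6bd702_perc3.T2Mono
import Pool.Agent.Lib.MP_6bd702_perc3.S2Final
import Pool.Agent.Lib.MP_6bd702_perc3.RecBound

/-!
# Crossing strands: the recursion (T2)
-/

set_option autoImplicit false

namespace Pool.Agent.Perc.Q

open Finset Pool.Agent.Perc Relation

/-- One step of the recursion. -/
theorem aT_step (h1 : CloseInP) (h2 : SpecInP) {q : ℝ} (hq : 0 < q) :
    ∃ M : ℕ, 0 < M ∧ ∀ g r w : ℕ, 1 ≤ g → M * g ≤ r → 4 * r < w →
      aT r w ≤ q * aT (2 * r) w + q * aT (4 * r) w + ∑ t ∈ TA w, pr (BW w) (SepI (2 * r) w g t) := by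
  obtain ⟨M₁, hM₁, hc⟩ := h1 q hq
  obtain ⟨M₂, hM₂, hs⟩ := h2 q hq
  refine ⟨M₁ + M₂, by omega, fun g r w hg hR hw => ?_⟩
  have hR1 : M₁ * g ≤ r := by nlinarith
  have hR2 : M₂ * g ≤ 2 * r := by nlinarith
  unfold aT
  rw [mul_sum, mul_sum, ← sum_add_distrib, ← sum_add_distrib]
  refine sum_le_sum fun t ht => ?_
  have hA := mem_TA.1 ht
  have c1 := hc g r w hg hR1 (by omega) t hA
  have c2 := hs g (2 * r) w hg hR2 (by omega) t hA
  push_cast at c2
  have e4 : (2 : ℤ) * (2 * (r : ℤ)) = 4 * r := by ring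
  rw [e4] at c2
  have c3 : pr (BW w) (Rea3 r w t) ≤ pr (BW w) (Rea3 r w t ∩ CloseI (2 * r) w g t) +
      (pr (BW w) (SpecI (2 * r) w g t) + pr (BW w) (SepI (2 * r) w g t)) := by
    refine le_trans ?_ (add_le_add (le_refl _) (pr_union_le _ _ _))
    refine le_trans ?_ (pr_union_le _ _ _)
    refine pr_mono _ fun ω hω => ?_
    have hω' : ω ∈ Rea3 (2 * r) w t :=
      rea3_mono (by positivity) (by omega) (by exact_mod_cast (by omega : 2 * r < w)) hA hω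
    rcases cases_tips (g := g) (by exact_mod_cast hg) hω' with h | h | h
    · exact Or.inl ⟨hω, h⟩
    · exact Or.inr (Or.inl h)
    · exact Or.inr (Or.inr h)
  linarith

/-- The sum over the separated triples. -/
theorem sum_sep_le (h3 : GlueInP) (hB : BaseP) (hA : Arm3Anti)
    (hq3 : ∃ C : ℝ, 0 < C ∧ ∀ R : ℕ, 1 ≤ R → q3 R ≤ C * (R : ℝ) ^ (-(2 / 3 : ℝ))) (K : ℕ) :
    ∃ C : ℝ, ∃ g₀ : ℕ, 0 < C ∧ ∀ g d w : ℕ, g₀ ≤ g → 1 ≤ d → d ≤ K * g → 2 * d < w →
      ∑ t ∈ TA w, pr (BW w) (SepI d w g t) ≤ C * ((d : ℝ) / w) ^ (2 / 3 : ℝ) := by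
  obtain ⟨C₁, g₀, hC₁, hg⟩ := h3 K
  obtain ⟨C₂, hC₂, hb⟩ := hB
  obtain ⟨C₃, hC₃, hq⟩ := hq3
  refine ⟨C₁ * (C₂ * (C₃ * 4)), g₀, by positivity, fun g d w hg1 hd hK hw => ?_⟩
  have hd0 : (0 : ℝ) < d := by exact_mod_cast hd
  have hw0 : (0 : ℝ) < w := by exact_mod_cast (by omega : 0 < w)
  set h := w / 2 with hh
  have hh1 : 1 ≤ h := by omega
  have hdh : d ≤ h := by omega
  have hhw : h < w := by omega
  -- one triple
  have key : ∀ t ∈ TA (w : ℤ), pr (BW w) (SepI d w g t) ≤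
      C₁ * (d : ℝ) ^ (2 / 3 : ℝ) * (q3 h * pr (BW w) (Rea3 h w t)) := by
    intro t ht
    have hAlt := mem_TA.1 ht
    have c1 := hg g d w hg1 hd hK hw t hAlt
    have c2 : pr (BW w) (Rea3 d w t ∩ Arm3 w) ≤ pr (BW w) (Rea3 h w t) * q3 h := by
      have e := pr_rea3_inter (d := (h : ℤ)) (w := (w : ℤ)) (T := t) (by exact_mod_cast hhw.le)
        (depOn_arm3' (h : ℤ))
      unfold q3
      rw [← e]
      refine pr_mono _ fun ω hω => ⟨?_, hA h w hh1 hhw.le ω hω.2⟩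
      exact rea3_mono (by positivity) (by exact_mod_cast hdh) (by exact_mod_cast hhw) hAlt hω.1
    have e1 : (d : ℝ) ^ (-(2 / 3 : ℝ)) * (d : ℝ) ^ (2 / 3 : ℝ) = 1 := by
      rw [← Real.rpow_add hd0]; norm_num
    have hp : 0 < (d : ℝ) ^ (2 / 3 : ℝ) := Real.rpow_pos_of_pos hd0 _
    have c3 : pr (BW w) (SepI d w g t) * (d : ℝ) ^ (-(2 / 3 : ℝ)) ≤
        C₁ * (pr (BW w) (Rea3 h w t) * q3 h) := c1.trans (mul_le_mul_of_nonneg_left c2 hC₁.le)
    calc pr (BW w) (SepI d w g t)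
        = pr (BW w) (SepI d w g t) * (d : ℝ) ^ (-(2 / 3 : ℝ)) * (d : ℝ) ^ (2 / 3 : ℝ) := by
          rw [mul_assoc, e1, mul_one]
      _ ≤ C₁ * (pr (BW w) (Rea3 h w t) * q3 h) * (d : ℝ) ^ (2 / 3 : ℝ) :=
          mul_le_mul_of_nonneg_right c3 hp.le
      _ = C₁ * (d : ℝ) ^ (2 / 3 : ℝ) * (q3 h * pr (BW w) (Rea3 h w t)) := by ring
  have hsum := sum_le_sum key
  rw [← mul_sum, ← mul_sum] at hsum
  change _ ≤ C₁ * (d : ℝ) ^ (2 / 3 : ℝ) * (q3 h * aT h w) at hsum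
  have b1 : aT h w ≤ C₂ := hb h w hh1 (by omega) (by omega)
  have b2 : q3 h ≤ C₃ * (4 * (w : ℝ) ^ (-(2 / 3) : ℝ)) :=
    (hq h hh1).trans (mul_le_mul_of_nonneg_left
      (rpow_scale (R := w) (n := h) (by omega) hh1 (by omega)) hC₃.le)
  have b3 : q3 h * aT h w ≤ C₃ * (4 * (w : ℝ) ^ (-(2 / 3) : ℝ)) * C₂ :=
    mul_le_mul b2 b1 (aT_nonneg _ _) (by positivity)
  refine hsum.trans ?_
  have e2 : ((d : ℝ) / w) ^ (2 / 3 : ℝ) = (d : ℝ) ^ (2 / 3 : ℝ) * (w : ℝ) ^ (-(2 / 3) : ℝ) := by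
    rw [Real.div_rpow hd0.le hw0.le, Real.rpow_neg hw0.le, div_eq_mul_inv]
  rw [e2]
  have hp : 0 < (d : ℝ) ^ (2 / 3 : ℝ) := Real.rpow_pos_of_pos hd0 _
  calc C₁ * (d : ℝ) ^ (2 / 3 : ℝ) * (q3 h * aT h w)
      ≤ C₁ * (d : ℝ) ^ (2 / 3 : ℝ) * (C₃ * (4 * (w : ℝ) ^ (-(2 / 3) : ℝ)) * C₂) :=
        mul_le_mul_of_nonneg_left b3 (by positivity)
    _ = _ := by ring

/-- The bound for the alternating triples, inner radius at least `M`. -/
theorem aT_le_big (h1 : CloseInP) (h2 : SpecInP) (h3 : GlueInP) (hB : BaseP) (hA : Arm3Anti)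
    (hq3 : ∃ C : ℝ, 0 < C ∧ ∀ R : ℕ, 1 ≤ R → q3 R ≤ C * (R : ℝ) ^ (-(2 / 3 : ℝ))) :
    ∃ (M : ℕ) (C : ℝ), 0 < M ∧ 0 < C ∧ ∀ d w : ℕ, M ≤ d → 2 * d ≤ w →
      aT d w ≤ C * ((d : ℝ) / w) ^ (2 / 3 : ℝ) := by
  obtain ⟨M, hM, hstep⟩ := aT_step h1 h2 (q := 1 / 16) (by norm_num)
  obtain ⟨C₁, g₀, hC₁, hsep⟩ := sum_sep_le h3 hB hA hq3 (4 * M)
  obtain ⟨C₀, hC₀, hb⟩ := hB
  set β : ℝ := (2 : ℝ) ^ (-(2 / 3) : ℝ) with hβ
  have hβ0 : 0 < β := by positivity
  have hβ1 : β ≤ 1 := Real.rpow_le_one_of_one_le_of_nonpos (by norm_num) (by norm_num)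
  have hβ2 : 1 / 2 ≤ β := by
    have : (2 : ℝ) ^ (-1 : ℝ) ≤ (2 : ℝ) ^ (-(2 / 3) : ℝ) :=
      Real.rpow_le_rpow_of_exponent_le (by norm_num) (by norm_num)
    rw [Real.rpow_neg_one] at this
    linarith
  refine ⟨M * (g₀ + 1), (C₀ + 2 * C₁) / β * 4, by positivity, by positivity,
    fun d w hd hw => ?_⟩
  have hd1 : 1 ≤ d := le_trans (Nat.mul_pos hM (by omega)) hd
  -- the number of scales
  obtain ⟨K, hK1, hK2⟩ : ∃ K : ℕ, 2 * (d * 2 ^ K) ≤ w ∧ w < 4 * (d * 2 ^ K) := by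
    have hex : ∃ K : ℕ, w < 4 * (d * 2 ^ K) := by
      refine ⟨w, ?_⟩
      have : w < 2 ^ w := Nat.lt_two_pow_self
      nlinarith [Nat.one_le_two_pow (n := w)]
    classical
    refine ⟨Nat.find hex, ?_, Nat.find_spec hex⟩
    rcases Nat.eq_zero_or_pos (Nat.find hex) with h0 | h0
    · rw [h0]; simpa using hw
    · have h5 := Nat.find_min hex (m := Nat.find hex - 1) (by omega)
      have h6 : 2 ^ (Nat.find hex) = 2 * 2 ^ (Nat.find hex - 1) := by
        rw [← pow_succ', Nat.sub_add_cancel h0]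
      rw [h6]
      nlinarith
  set b : ℕ → ℝ := fun k => if k ≤ K then aT ((d * 2 ^ (K - k) : ℕ) : ℤ) w else 0 with hbdef
  have hpow : ∀ k, k ≤ K → 1 ≤ 2 ^ k := fun k _ => Nat.one_le_two_pow
  have hdk : ∀ k, d * 2 ^ (K - k) ≤ d * 2 ^ K := fun k =>
    Nat.mul_le_mul_left d (Nat.pow_le_pow_right (by norm_num) (Nat.sub_le _ _))
  have hbase : ∀ k, b k ≤ C₀ := by
    intro k
    simp only [hbdef]
    split_ifs with hk
    · refine (aT_mono (by positivity) (d' := ((d * 2 ^ K : ℕ) : ℤ)) ?_ ?_).trans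
        (hb (d * 2 ^ K) w ?_ ?_ ?_)
      · exact_mod_cast hdk k
      · exact_mod_cast (by
          have : 1 ≤ d * 2 ^ K := Nat.mul_pos hd1 (by positivity)
          omega : d * 2 ^ K < w)
      · exact Nat.mul_pos hd1 (by positivity)
      · exact hK2.le
      · exact hK1
    · exact hC₀.le
  have hw0 : (0 : ℝ) < w := by exact_mod_cast (by omega : 0 < w)
  have hd0 : (0 : ℝ) < d := by exact_mod_cast hd1
  have hrec : ∀ k, b (k + 2) ≤ 1 / 16 * b (k + 1) + 1 / 16 * b k + C₁ * β ^ (k + 1) := by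
    intro k
    by_cases hk : k + 2 ≤ K
    · have e0 : b (k + 2) = aT ((d * 2 ^ (K - (k + 2)) : ℕ) : ℤ) w := if_pos hk
      have e1 : b (k + 1) = aT ((d * 2 ^ (K - (k + 1)) : ℕ) : ℤ) w := if_pos (by omega)
      have e2 : b k = aT ((d * 2 ^ (K - k) : ℕ) : ℤ) w := if_pos (by omega)
      rw [e0, e1, e2]
      set r := d * 2 ^ (K - (k + 2)) with hr
      have e3 : d * 2 ^ (K - (k + 1)) = 2 * r := by
        rw [hr, show K - (k + 1) = K - (k + 2) + 1 by omega, pow_succ]; ring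
      have e4 : d * 2 ^ (K - k) = 4 * r := by
        rw [hr, show K - k = K - (k + 2) + 2 by omega, pow_add]; ring
      have hMr' : M * (g₀ + 1) ≤ r := by
        have : 1 ≤ 2 ^ (K - (k + 2)) := Nat.one_le_two_pow
        nlinarith
      have hMr : M ≤ r := le_trans (Nat.le_mul_of_pos_right M (by omega)) hMr'
      have h4r : 4 * r < w := by
        have := hdk k
        rw [e4] at this
        have h7 : 1 ≤ d * 2 ^ K := Nat.mul_pos hd1 (by positivity)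
        omega
      set g := r / M with hgdef
      have hg1 : 1 ≤ g := (Nat.one_le_div_iff hM).2 hMr
      have hg0 : g₀ ≤ g := by
        rw [hgdef, Nat.le_div_iff_mul_le hM]
        nlinarith
      have hgR : M * g ≤ r := Nat.mul_div_le r M
      have hgR2 : 2 * r ≤ 4 * M * g := by
        have : r < M * (g + 1) := Nat.lt_mul_div_succ r hM
        nlinarith
      have k1 := hstep g r w hg1 hgR h4r
      have k2 := hsep g (2 * r) w hg0 (by omega) hgR2 (by omega)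
      have k3 : (((2 * r : ℕ) : ℝ) / w) ^ (2 / 3 : ℝ) ≤ β ^ (k + 1) := by
        have h5 : ((2 * r : ℕ) : ℝ) / w ≤ (2 : ℝ) ^ (-((k + 1 : ℕ) : ℝ)) := by
          rw [div_le_iff₀ hw0, Real.rpow_neg (by norm_num), Real.rpow_natCast]
          have h6 : (2 * r) * 2 ^ (k + 1) ≤ w := by
            rw [← e3, mul_assoc, ← pow_add, show K - (k + 1) + (k + 1) = K by omega]
            omega
          have h7 : ((2 * r : ℕ) : ℝ) * 2 ^ (k + 1) ≤ w := by exact_mod_cast h6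
          rw [← div_eq_inv_mul, le_div_iff₀ (by positivity)]
          exact h7
        refine (Real.rpow_le_rpow (by positivity) h5 (by norm_num)).trans (le_of_eq ?_)
        rw [hβ, ← Real.rpow_natCast, ← Real.rpow_mul (by norm_num), ← Real.rpow_mul (by norm_num)]
        congr 1
        ring
      rw [e3, e4]
      push_cast at k1 k2 k3 ⊢
      have k4 := mul_le_mul_of_nonneg_left k3 hC₁.le
      linarith
    · have e0 : b (k + 2) = 0 := if_neg hk
      rw [e0]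
      have n1 : 0 ≤ b (k + 1) := by
        simp only [hbdef]; split_ifs; exacts [aT_nonneg _ _, le_refl _]
      have n2 : 0 ≤ b k := by
        simp only [hbdef]; split_ifs; exacts [aT_nonneg _ _, le_refl _]
      positivity
  have hfin := geom_of_rec (b := b) (β := β) (θ := 1 / 16) (ε := 1 / 16) (C₀ := C₀) (C₂ := C₁)
    hβ0 hβ1 (by norm_num) (by norm_num) hC₁.le (by
      have h5 : 1 / 16 / β ≤ 1 / 8 := by rw [div_le_iff₀ hβ0]; linarith
      have h6 : 1 / 16 / β ^ 2 ≤ 1 / 4 := by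
        rw [div_le_iff₀ (by positivity)]
        nlinarith
      linarith) hC₀.le (hbase 0) (hbase 1) hrec K
  have e5 : b K = aT d w := by
    simp only [hbdef, le_refl, if_true, Nat.sub_self, pow_zero, mul_one]
  rw [e5] at hfin
  refine hfin.trans ?_
  have k5 : β ^ K ≤ 4 * ((d : ℝ) / w) ^ (2 / 3 : ℝ) := by
    have h5 : (2 : ℝ) ^ (-(K : ℝ)) ≤ 4 * (d / w) := by
      rw [Real.rpow_neg (by norm_num), Real.rpow_natCast, inv_le_iff_one_le_mul₀ (by positivity)]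
      have h7 : (w : ℝ) ≤ 4 * (d * 2 ^ K) := by exact_mod_cast hK2.le
      have e6 : 4 * ((d : ℝ) / w) * 2 ^ K = (4 * (d * 2 ^ K)) / w := by ring
      rw [e6, le_div_iff₀ hw0, one_mul]
      exact h7
    have h6 : β ^ K = ((2 : ℝ) ^ (-(K : ℝ))) ^ (2 / 3 : ℝ) := by
      rw [hβ, ← Real.rpow_natCast, ← Real.rpow_mul (by norm_num), ← Real.rpow_mul (by norm_num)]
      congr 1
      ring
    rw [h6]
    refine (Real.rpow_le_rpow (by positivity) h5 (by norm_num)).trans ?_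
    rw [Real.mul_rpow (by norm_num) (by positivity)]
    refine mul_le_mul_of_nonneg_right ?_ (by positivity)
    calc (4 : ℝ) ^ (2 / 3 : ℝ) ≤ (4 : ℝ) ^ (1 : ℝ) :=
          Real.rpow_le_rpow_of_exponent_le (by norm_num) (by norm_num)
      _ = 4 := by norm_num
  calc (C₀ + 2 * C₁) / β * β ^ K ≤ (C₀ + 2 * C₁) / β * (4 * ((d : ℝ) / w) ^ (2 / 3 : ℝ)) :=
        mul_le_mul_of_nonneg_left k5 (by positivity)
    _ = _ := by ring

/-- The bound for the alternating triples. -/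
theorem aT_le_pow (h1 : CloseInP) (h2 : SpecInP) (h3 : GlueInP) (hB : BaseP) (hA : Arm3Anti)
    (hq3 : ∃ C : ℝ, 0 < C ∧ ∀ R : ℕ, 1 ≤ R → q3 R ≤ C * (R : ℝ) ^ (-(2 / 3 : ℝ))) :
    ∃ C : ℝ, 0 < C ∧ ∀ d w : ℕ, 1 ≤ d → 2 * d ≤ w →
      aT d w ≤ C * ((d : ℝ) / w) ^ (2 / 3 : ℝ) := by
  obtain ⟨M, C, hM, hC, h⟩ := aT_le_big h1 h2 h3 hB hA hq3
  obtain ⟨C₀, hC₀, hb⟩ := hB
  refine ⟨(C + 2 * C₀) * M, by positivity, fun d w hd hw => ?_⟩
  have hw0 : (0 : ℝ) < w := by exact_mod_cast (by omega : 0 < w)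
  have hd0 : (0 : ℝ) < d := by exact_mod_cast hd
  have hM1 : (1 : ℝ) ≤ M := by exact_mod_cast hM
  have hx : 0 ≤ ((d : ℝ) / w) ^ (2 / 3 : ℝ) := by positivity
  have hMpow : (M : ℝ) ^ (2 / 3 : ℝ) ≤ M := by
    calc (M : ℝ) ^ (2 / 3 : ℝ) ≤ (M : ℝ) ^ (1 : ℝ) :=
          Real.rpow_le_rpow_of_exponent_le hM1 (by norm_num)
      _ = M := Real.rpow_one _
  by_cases hdM : M ≤ d
  · refine (h d w hdM hw).trans (mul_le_mul_of_nonneg_right ?_ hx)
    nlinarith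
  · by_cases hMw : 2 * M ≤ w
    · have k1 : aT d w ≤ aT M w := aT_mono (by positivity) (by exact_mod_cast (by omega : d ≤ M))
        (by exact_mod_cast (by omega : M < w))
      have k2 := h M w le_rfl hMw
      have k3 : ((M : ℝ) / w) ^ (2 / 3 : ℝ) ≤ M * ((d : ℝ) / w) ^ (2 / 3 : ℝ) := by
        have k4 : (M : ℝ) / w ≤ M * (d / w) := by
          rw [mul_div_assoc']
          refine div_le_div_of_nonneg_right ?_ hw0.le
          have : (1 : ℝ) ≤ d := by exact_mod_cast hd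
          nlinarith
        refine (Real.rpow_le_rpow (by positivity) k4 (by norm_num)).trans ?_
        rw [Real.mul_rpow (by positivity) (by positivity)]
        exact mul_le_mul_of_nonneg_right hMpow hx
      have k5 := mul_le_mul_of_nonneg_left k3 hC.le
      have k6 : C * (M * ((d : ℝ) / w) ^ (2 / 3 : ℝ)) ≤
          (C + 2 * C₀) * M * ((d : ℝ) / w) ^ (2 / 3 : ℝ) := by
        have : 0 ≤ 2 * C₀ * M * ((d : ℝ) / w) ^ (2 / 3 : ℝ) := by positivity
        nlinarith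
      linarith
    · have k1 : aT d w ≤ C₀ := by
        have hh : d ≤ w / 2 := by omega
        refine (aT_mono (d' := ((w / 2 : ℕ) : ℤ)) (by positivity) (by exact_mod_cast hh)
          (by exact_mod_cast (by omega : w / 2 < w))).trans (hb (w / 2) w ?_ ?_ ?_) <;> omega
      have k2 : 1 ≤ 2 * M * ((d : ℝ) / w) ^ (2 / 3 : ℝ) := by
        have k3 : (1 : ℝ) / (2 * M) ≤ (d : ℝ) / w := by
          rw [div_le_div_iff₀ (by positivity) hw0]
          have h5 : (w : ℝ) ≤ 2 * M := by exact_mod_cast (by omega : w ≤ 2 * M)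
          have h6 : (1 : ℝ) ≤ d := by exact_mod_cast hd
          nlinarith
        have k4 := Real.rpow_le_rpow (by positivity) k3 (by norm_num : (0 : ℝ) ≤ 2 / 3)
        have k5 : (1 : ℝ) / (2 * M) ≤ (1 / (2 * M) : ℝ) ^ (2 / 3 : ℝ) := by
          have h7 : (1 : ℝ) / (2 * M) ≤ 1 := by
            rw [div_le_one (by positivity)]; linarith
          have := Real.rpow_le_rpow_of_exponent_ge (by positivity) h7
            (by norm_num : (2 / 3 : ℝ) ≤ 1)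
          rwa [Real.rpow_one] at this
        have k6 := k5.trans k4
        rw [div_le_iff₀ (by positivity)] at k6
        linarith
      have k3 : C₀ * 1 ≤ C₀ * (2 * M * ((d : ℝ) / w) ^ (2 / 3 : ℝ)) :=
        mul_le_mul_of_nonneg_left k2 hC₀.le
      have k4 : 0 ≤ C * M * ((d : ℝ) / w) ^ (2 / 3 : ℝ) := by positivity
      nlinarith

end Pool.Agent.Perc.Q
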