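import Pool.Agent.Lib.MP_6bd702_perc3.T2Link
import Pool.Agent.Lib.MP_6bd702_perc3.Glue3

/-!
# Gluing the strands of the annulus with the legs of the core
-/

set_option autoImplicit false

namespace Pool.Agent.Perc.Q

open Finset Pool.Agent.Perc

namespace T2G

variable {m r d w c R g : ℤ} {ω ω' ξ ζ : Cfg} {T : Fin 3 → ℤ}

/-- Sorted values. -/
theorem sort3 {s : Fin 3 → ℤ} (h : ∀ i j, i ≠ j → g ≤ |s i - s j|) :
    ∃ σ : Fin 3 → Fin 3, s (σ 0) + g ≤ s (σ 1) ∧ s (σ 1) + g ≤ s (σ 2) := by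
  have hm := Tuple.monotone_sort s
  have key : ∀ i j : Fin 3, i ≤ j → i ≠ j → s (Tuple.sort s i) + g ≤ s (Tuple.sort s j) := by
    intro i j hij hne
    have h1 : s (Tuple.sort s i) ≤ s (Tuple.sort s j) := hm hij
    have h2 := h (Tuple.sort s i) (Tuple.sort s j) fun e => hne ((Tuple.sort s).injective e)
    rw [le_abs] at h2
    omega
  exact ⟨Tuple.sort s, key 0 1 (by decide) (by decide), key 1 2 (by decide) (by decide)⟩

/-- The positions of the outer tips. -/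
theorem sepI_tips (hm : 20 * m ≤ g) (hg : 0 ≤ g) (h : ω ∈ SepI d w g T) :
    ∃ s : Fin 3 → ℤ, TipPos m d s ∧ ∀ i, ∃ j, TipI d w ω T j (s i) := by
  obtain ⟨s, h1, h2⟩ := h
  obtain ⟨σ, s1, s2⟩ := sort3 h2
  obtain ⟨u, u1, u2, u3, u4⟩ := Cyl3.sort_tlin (R := d) (g := g) (t := fun i => s (σ i))
    (P := fun x => ∃ j, TipI d w ω T j x) (fun i => ⟨σ i, (h1 (σ i)).1⟩)
    (fun i => ⟨(h1 (σ i)).1.1, (h1 (σ i)).1.2.1, (h1 (σ i)).2⟩) s1 s2 hg
  exact ⟨u, ⟨fun i => ⟨(u2 i).1, (u2 i).2.1, away_mono hm (u2 i).2.2⟩, by omega, by omega⟩, u1⟩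

/-- The positions of the inner tips. -/
theorem sep3_tips (hm : 20 * m ≤ g) (hg : 0 ≤ g) (h : ω ∈ Sep3 r g) :
    ∃ t : Fin 3 → ℤ, TipPos m r t ∧ ∀ i, IsTip r ω (t i) := by
  obtain ⟨t, h1, s1, s2⟩ := h
  obtain ⟨u, u1, u2, u3, u4⟩ := Cyl3.sort_tlin (R := r) (g := g) (t := t)
    (P := fun x => IsTip r ω x) (fun i => (h1 i).1)
    (fun i => ⟨(h1 i).1.1, (h1 i).1.2.1, (h1 i).2⟩) s1 s2 hg
  exact ⟨u, ⟨fun i => ⟨(u2 i).1, (u2 i).2.1, away_mono hm (u2 i).2.2⟩, by omega, by omega⟩, u1⟩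

/-- The data of a configuration with separated tips. -/
structure DatA (m r d w : ℤ) (K : ℕ) (T : Fin 3 → ℤ) (ω : Cfg) (t s : Fin 3 → ℤ)
    (G : Fin 3 → Finset (ℤ × ℤ)) : Prop where
  tp : TipPos m r t
  sp : TipPos m d s
  tip : ∀ i, IsTip r ω (t i)
  stip : ∀ i, ∃ j, TipI d w ω T j (s i)
  walls : WallsA m r d t s G
  card : ∀ i, (G i).card ≤ K
  inW : ∀ i, ∀ f ∈ cellsF m (G i), f ∈ BW w

theorem exists_datA (hR : RoutesP) (N : ℕ) : ∃ K : ℕ, ∀ m r d w : ℤ, 3 ≤ m → 60 * m ≤ r →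
    r + 60 * m ≤ d → d ≤ N * m → d + 3 * m ≤ w → ∀ (T : Fin 3 → ℤ) (ω : Cfg) (t s : Fin 3 → ℤ),
    TipPos m r t → TipPos m d s → (∀ i, IsTip r ω (t i)) → (∀ i, ∃ j, TipI d w ω T j (s i)) →
    ∃ G, DatA m r d w K T ω t s G := by
  classical
  obtain ⟨K, hK⟩ := hR N
  refine ⟨K, fun m r d w hm hr hrd hdN hdw T ω t s ht hs hti hsi => ?_⟩
  obtain ⟨G, g1, g2, g3, g4, g5, g6⟩ := hK m r d hm hr hrd hdN t s ht hs
  have hm2 : 2 ≤ m := by omega
  set G' : Fin 3 → Finset (ℤ × ℤ) := fun i => (G i).filter fun g => ∀ f ∈ cellF m g, f ∈ BW w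
    with hG'
  have hsub : ∀ i, G' i ⊆ G i := fun i => filter_subset _ _
  have hin : ∀ i, ∀ g ∈ G i, CIn m d g → g ∈ G' i := fun i g hg hgd =>
    mem_filter.2 ⟨hg, fun f hf => Finset.mem_coe.1 (BW_mono (show d ≤ w by omega)
      (Finset.mem_coe.2 (cin_face (by omega) hm2 hgd hf)))⟩
  refine ⟨G', ht, hs, hti, hsi, ⟨fun i j hij => (g1 i j hij).mono (hsub i) (hsub j),
    fun i g hg => g2 i g (hsub i hg), fun i j => ⟨fun h => (g4 i j).1 (hsub j h),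
      fun h => (g4 i j).2 (hsub j h)⟩, ?_, ?_⟩, fun i => (card_le_card (hsub i)).trans (g3 i), ?_⟩
  · intro i a b a1 a2 a3 a4 a5
    refine ⟨mem_filter.2 ⟨(g5 i a b a1 a2 a3 a4 a5).1, fun f hf => ?_⟩,
      mem_filter.2 ⟨(g5 i a b a1 a2 a3 a4 a5).2, fun f hf => ?_⟩⟩
    · exact Finset.mem_coe.1 (ring_in hm2 (by omega) (ht.1 i).1 (ht.1 i).2.1 (ht.1 i).2.2
        (mem_cellsF.2 ⟨_, mem_ring8.2 ⟨a, b, a1, a2, a3, a4, a5, rfl⟩, hf⟩) (by omega))
    · exact Finset.mem_coe.1 (ring_in hm2 (by omega) (hs.1 i).1 (hs.1 i).2.1 (hs.1 i).2.2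
        (mem_cellsF.2 ⟨_, mem_ring8.2 ⟨a, b, a1, a2, a3, a4, a5, rfl⟩, hf⟩) (by omega))
  · intro i
    exact rtg_mono (fun a b h => ⟨hin i a h.1 h.2.2.2.2.1, hin i b h.2.1 h.2.2.2.2.2.1,
      h.2.2.1, h.2.2.2.1, h.2.2.2.2.1, h.2.2.2.2.2.1, h.2.2.2.2.2.2⟩) (g6 i)
  · intro i f hf
    obtain ⟨g, hg, hfg⟩ := mem_cellsF.1 hf
    exact (mem_filter.1 hg).2 f hfg

/-- The probability of the three tubes. -/
theorem pr_tub3 {c₀ : ℝ} (h0 : 0 < c₀) (h1 : c₀ ≤ 1)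
    (htub : ∀ w c : ℤ, 2 ≤ w → ∀ G : Finset (ℤ × ℤ), (∀ g ∈ G, CellOk g) →
      c₀ ^ G.card ≤ pr (cellsF w G) (Tub w c G)) {K : ℕ} (hm : 2 ≤ m)
    {G : Fin 3 → Finset (ℤ × ℤ)} (hok : ∀ i, ∀ g ∈ G i, CellOk g)
    (hdis : ∀ i j, i ≠ j → Disjoint (G i) (G j)) (hK : ∀ i, (G i).card ≤ K)
    (hW : ∀ i, ∀ f ∈ cellsF m (G i), f ∈ BW w) :
    (c₀ ^ K) ^ 3 ≤ pr (BW w) {ξ | ∀ i : Fin 3, ξ ∈ Tub m (0 + ((i : ℕ) : ℤ)) (G i)} := by
  classical
  set A : Fin 3 → Set Cfg := fun i => Tub m (0 + ((i : ℕ) : ℤ)) (G i) with hA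
  have hdep : ∀ i, DepOn (cellsF m (G i) : Set (ℤ × ℤ)) (A i) := fun i => depOn_tub (hok i)
  have hp : ∀ i, c₀ ^ K ≤ pr (cellsF m (G i)) (A i) := fun i =>
    (pow_le_pow_of_le_one h0.le h1 (hK i)).trans (htub m _ hm (G i) (hok i))
  have hd : ∀ i j, i ≠ j → Disjoint (cellsF m (G i)) (cellsF m (G j)) := fun i j hij =>
    disjoint_cellsF hm (hok i) (hok j) (hdis i j hij)
  have hdep01 : DepOn ((cellsF m (G 0) ∪ cellsF m (G 1) : Finset (ℤ × ℤ)) : Set (ℤ × ℤ))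
      (A 0 ∩ A 1) := by
    intro ω ω' h
    exact and_congr (hdep 0 ω ω' fun f hf => h f (by
      rw [Finset.coe_union]; exact Or.inl hf)) (hdep 1 ω ω' fun f hf => h f (by
      rw [Finset.coe_union]; exact Or.inr hf))
  have hdep012 : DepOn (((cellsF m (G 0) ∪ cellsF m (G 1)) ∪ cellsF m (G 2) :
      Finset (ℤ × ℤ)) : Set (ℤ × ℤ)) ((A 0 ∩ A 1) ∩ A 2) := by
    intro ω ω' h
    exact and_congr (hdep01 ω ω' fun f hf => h f (by
      rw [Finset.coe_union]; exact Or.inl hf)) (hdep 2 ω ω' fun f hf => h f (by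
      rw [Finset.coe_union]; exact Or.inr hf))
  have e1 := pr_inter_of_disjoint (hdep 0) (hdep 1) (hd 0 1 (by decide))
  have e2 := pr_inter_of_disjoint hdep01 (hdep 2) (disjoint_union_left.2
    ⟨hd 0 2 (by decide), hd 1 2 (by decide)⟩)
  have e3 : pr (BW w) ((A 0 ∩ A 1) ∩ A 2) = _ := pr_eq_of_depOn hdep012 (by
    intro f hf
    rcases Finset.mem_union.1 hf with hf | hf
    · rcases Finset.mem_union.1 hf with hf | hf
      · exact hW 0 f hf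
      · exact hW 1 f hf
    · exact hW 2 f hf)
  have e4 : ({ξ | ∀ i : Fin 3, ξ ∈ Tub m (0 + ((i : ℕ) : ℤ)) (G i)} : Set Cfg) =
      (A 0 ∩ A 1) ∩ A 2 := by
    ext ξ
    constructor
    · intro h
      exact ⟨⟨h 0, h 1⟩, h 2⟩
    · rintro ⟨⟨a0, a1⟩, a2⟩ i
      fin_cases i
      · exact a0
      · exact a1
      · exact a2
  rw [e4, e3, e2, e1]
  have hc : 0 ≤ c₀ ^ K := by positivity
  calc (c₀ ^ K) ^ 3 = c₀ ^ K * c₀ ^ K * c₀ ^ K := by ring
    _ ≤ _ := mul_le_mul (mul_le_mul (hp 0) (hp 1) hc (hc.trans (hp 0))) (hp 2) hc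
      (mul_nonneg (hc.trans (hp 0)) (hc.trans (hp 1)))

theorem tipI_congr (h : ∀ f ∈ An d w, ω f = ω' f) (i : Fin 3) (s : ℤ) :
    TipI d w ω T i s ↔ TipI d w ω' T i s := by
  unfold TipI
  rw [Orb_congr (ω := ω) (ω' := ω') (e := ine w (T i)) fun f hf => h f (Vis_sub hf)]

theorem depOn_sepI : DepOn (An d w) (SepI d w g T) := by
  intro ω ω' h
  unfold SepI
  simp only [Set.mem_ofPred_eq, tipI_congr h]

theorem rea_congr (h : ∀ f ∈ VUO d w T ω, ω f = ω' f) (i : Fin 3) :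
    Rea d w ω (T i) ↔ Rea d w ω' (T i) := by
  unfold Rea
  rw [Orb_congr (ω := ω) (ω' := ω') (e := ine w (T i)) fun f hf => h f ⟨i, hf⟩]

/-- Independence of the annulus and the inner box. -/
theorem pr_sepI_sep3 {g' : ℤ} (hrd : r ≤ d) (hdw : d ≤ w) :
    pr (BW w) (SepI d w g T ∩ Sep3 r g') = pr (BW w) (SepI d w g T) * pr (BW r) (Sep3 r g') := by
  classical
  have hA : DepOn ((BW w \ BW d : Finset (ℤ × ℤ)) : Set (ℤ × ℤ)) (SepI d w g T) := by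
    rw [Finset.coe_sdiff]
    exact depOn_sepI
  have hB := depOn_sep3 r g'
  have hd : Disjoint (BW w \ BW d) (BW r) := by
    rw [Finset.disjoint_left]
    intro f hf hf'
    exact (Finset.mem_sdiff.1 hf).2 (Finset.mem_coe.1 (BW_mono hrd (Finset.mem_coe.2 hf')))
  have e1 := pr_inter_of_disjoint hA hB hd
  have e2 : pr (BW w) (SepI d w g T) = pr (BW w \ BW d) (SepI d w g T) :=
    pr_eq_of_depOn hA sdiff_subset
  have e3 : pr (BW w) (SepI d w g T ∩ Sep3 r g') =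
      pr ((BW w \ BW d) ∪ BW r) (SepI d w g T ∩ Sep3 r g') := by
    refine pr_eq_of_depOn ?_ ?_
    · intro ω ω' h
      exact and_congr (hA ω ω' fun f hf => h f (by
        rw [Finset.coe_union]; exact Or.inl hf)) (hB ω ω' fun f hf => h f (by
        rw [Finset.coe_union]; exact Or.inr hf))
    · refine Finset.union_subset sdiff_subset ?_
      intro f hf
      exact Finset.mem_coe.1 (BW_mono (hrd.trans hdw) (Finset.mem_coe.2 hf))
  rw [e3, e1, e2]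

theorem sepI_empty (hg : d < g) : SepI d w g T = ∅ := by
  rw [Set.eq_empty_iff_forall_notMem]
  rintro ω ⟨s, h1, -⟩
  obtain ⟨⟨a1, a2, -⟩, a3⟩ := h1 0
  have b := fun z hz => a3 z hz
  unfold spec at b
  simp only [List.mem_cons, List.not_mem_nil, or_false, forall_eq_or_imp, forall_eq, le_abs] at b
  omega

end T2G

open T2G in
/-- Gluing of the strands of the annulus with the legs of the core. -/
theorem glueIn_of (hR : RoutesP)
    (hS : ∃ (M : ℕ) (c : ℝ), 0 < M ∧ 0 < c ∧ ∀ g R : ℕ, 1 ≤ g → M * g ≤ R →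
      c * (R : ℝ) ^ (-(2 / 3 : ℝ)) ≤ pr (BW R) (Sep3 R g)) : GlueInP := by
  classical
  intro K
  obtain ⟨M, c, hM, hc, hsep⟩ := hS
  obtain ⟨c₀, hc0, hc1, htub⟩ := pr_tub
  obtain ⟨Kc, hdat⟩ := exists_datA hR (600 * K * M)
  refine ⟨(c * (c₀ ^ Kc) ^ 3)⁻¹, 900 * M + 15, by positivity, fun g d w hg hd hdK hdw T hT => ?_⟩
  have hdpos : (0 : ℝ) < d := by exact_mod_cast hd
  have hdp : 0 ≤ (d : ℝ) ^ (-(2 / 3 : ℝ)) := Real.rpow_nonneg hdpos.le _
  rcases Nat.lt_or_ge d g with hgd | hgd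
  · rw [sepI_empty (by exact_mod_cast hgd)]
    have : pr (BW (w : ℤ)) (∅ : Set Cfg) = 0 := by
      rw [ProbA.pr_eq_sum]
      simp
    rw [this, zero_mul]
    exact mul_nonneg (by positivity) (pr_nonneg _ _)
  set m : ℕ := g / (300 * M) with hm
  have hm1 : 300 * M * m ≤ g := Nat.mul_div_le g (300 * M)
  have hm2 : g < 300 * M * (m + 1) := Nat.lt_mul_div_succ g (by omega)
  have hm3 : 3 ≤ m := (Nat.le_div_iff_mul_le (by omega)).2 (by omega)
  have hMm : m ≤ M * m := Nat.le_mul_of_pos_left m hM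
  have hm4 : 300 * (M * m) ≤ g := by rw [← mul_assoc]; exact hm1
  set r : ℕ := d / 4 with hr
  have hr1 : 60 * m ≤ r := by omega
  have hr2 : r + 60 * m ≤ d := by omega
  have hr3 : M * (20 * m) ≤ r := by
    have : M * (20 * m) = 20 * (M * m) := by ring
    omega
  have hdN : d ≤ 600 * K * M * m := by
    have h1 : g ≤ 300 * M * (m + m) :=
      hm2.le.trans (Nat.mul_le_mul_left _ (by omega))
    calc d ≤ K * g := hdK
      _ ≤ K * (300 * M * (m + m)) := Nat.mul_le_mul_left _ h1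
      _ = 600 * K * M * m := by ring
  have hdw3 : d + 3 * m ≤ w := by omega
  -- the data
  have hex : ∀ ω : Cfg, ω ∈ SepI d w g T ∩ Sep3 r ((20 * m : ℕ) : ℤ) →
      ∃ t s G, DatA m r d w Kc T ω t s G := by
    rintro ω ⟨h1, h2⟩
    obtain ⟨s, s1, s2⟩ := sepI_tips (m := (m : ℤ)) (by omega) (by omega) h1
    obtain ⟨t, t1, t2⟩ := sep3_tips (m := (m : ℤ)) (by omega) (by omega) h2
    obtain ⟨G, hG⟩ := hdat m r d w (by exact_mod_cast hm3) (by exact_mod_cast hr1)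
      (by exact_mod_cast hr2) (by exact_mod_cast hdN) (by exact_mod_cast hdw3) T ω t s t1 s1 t2 s2
    exact ⟨t, s, G, hG⟩
  let B : Cfg → Set Cfg := fun ω =>
    if h : ∃ t s G, DatA m r d w Kc T ω t s G then
      {ξ | ∀ i : Fin 3, ξ ∈ Tub m (0 + ((i : ℕ) : ℤ)) (h.choose_spec.choose_spec.choose i)}
    else ∅
  have key := PercT.pr_mix (W := BW (w : ℤ)) (S := fun ω => VUL r ω ∪ VUO d w T ω)
    (c := (c₀ ^ Kc) ^ 3)
    (by
      intro ω ω' h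
      have h1 : VUL r ω' = VUL r ω := Cyl3.vul_congr fun f hf => h f (Or.inl hf)
      have h2 : VUO d w T ω' = VUO d w T ω := VU_congr fun f hf => h f (Or.inr hf)
      simp only [h1, h2]) (SepI d w g T ∩ Sep3 r ((20 * m : ℕ) : ℤ)) B (Rea3 d w T ∩ Arm3 w)
    (by
      intro ω hω
      have h := hex _ hω
      simp only [B]
      rw [dif_pos h]
      have hD := h.choose_spec.choose_spec.choose_spec
      exact pr_tub3 hc0 hc1 htub (by omega) hD.walls.ok hD.walls.disj hD.card hD.inW)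
    (by
      intro ω hω ξ hξ
      have h := hex _ hω
      simp only [B] at hξ
      rw [dif_pos h] at hξ
      have hD := h.choose_spec.choose_spec.choose_spec
      set ζ := PercT.mix (VUL r ω ∪ VUO d w T ω) ω ξ with hζ
      have v1 : ∀ f ∈ VUL r ω, ζ f = ω f := fun f hf => PercT.mix_of_mem (Or.inl hf)
      have v2 : ∀ f ∈ VUO d w T ω, ζ f = ω f := fun f hf => PercT.mix_of_mem (Or.inr hf)
      refine ⟨fun i => ?_, ?_⟩
      · refine (rea_congr (fun f hf => (v2 f hf).symm) i).1 ?_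
        obtain ⟨s, hs, -⟩ := hω.1
        exact ⟨s i, (hs i).1⟩
      · refine link_arm (m := (m : ℤ)) (r := (r : ℤ)) (d := (d : ℤ)) (w := (w : ℤ)) (b := 0)
          (by omega) (by omega) (by omega) (by omega) hT hD.tp hD.sp hD.tip hD.stip hD.walls
          hξ v1 v2 fun f hf hf' => PercT.mix_of_notMem ?_
        rintro (h1 | h1)
        · exact hf h1
        · exact hf' h1)
  rw [pr_sepI_sep3 (by omega) (by omega)] at key
  have k1 := hsep (20 * m) r (by omega) hr3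
  have hrpos : (0 : ℝ) < r := by
    have : 0 < r := by omega
    exact_mod_cast this
  have k2 : (d : ℝ) ^ (-(2 / 3) : ℝ) ≤ (r : ℝ) ^ (-(2 / 3) : ℝ) :=
    Real.rpow_le_rpow_of_nonpos hrpos (by exact_mod_cast (by omega : r ≤ d)) (by norm_num)
  have k3 : c * (d : ℝ) ^ (-(2 / 3) : ℝ) ≤ pr (BW r) (Sep3 r ((20 * m : ℕ) : ℤ)) :=
    (mul_le_mul_of_nonneg_left k2 hc.le).trans k1
  have hcc : 0 < (c₀ ^ Kc) ^ 3 := by positivity
  have hP := pr_nonneg (BW (w : ℤ)) (SepI d w g T)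
  have k4 : (c₀ ^ Kc) ^ 3 * (pr (BW (w : ℤ)) (SepI d w g T) * (c * (d : ℝ) ^ (-(2 / 3) : ℝ))) ≤
      pr (BW (w : ℤ)) (Rea3 d w T ∩ Arm3 w) :=
    le_trans (mul_le_mul_of_nonneg_left (mul_le_mul_of_nonneg_left k3 hP) hcc.le) key
  rw [inv_mul_eq_div, le_div_iff₀ (by positivity)]
  calc _ = (c₀ ^ Kc) ^ 3 * (pr (BW (w : ℤ)) (SepI d w g T) * (c * (d : ℝ) ^ (-(2 / 3) : ℝ))) := by
        ring
    _ ≤ _ := k4

end Pool.Agent.Perc.Q
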