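import Pool.Agent.Lib.MP_6bd702_perc3.T2GlueDefs
import Pool.Agent.Lib.MP_6bd702_perc3.T2Defs
import Pool.Agent.Lib.MP_6bd702_perc3.TwLink

/-!
# The walls of the annulus join the three core vertices to the outer boundary
-/

set_option autoImplicit false

namespace Pool.Agent.Perc.Q

open Finset Pool.Agent.Perc Relation

variable {m r d w c R t : ℤ} {ω ξ ζ : Cfg} {G G' : Finset (ℤ × ℤ)} {f g : ℤ × ℤ}

/-- The eight cells around a cell. -/
noncomputable def ring8 (g : ℤ × ℤ) : Finset (ℤ × ℤ) :=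
  (((Icc (-1 : ℤ) 1) ×ˢ (Icc (-1 : ℤ) 1)).erase (0, 0)).image fun p => g + p

theorem mem_ring8 {x : ℤ × ℤ} : x ∈ ring8 g ↔ ∃ a b : ℤ, -1 ≤ a ∧ a ≤ 1 ∧ -1 ≤ b ∧ b ≤ 1 ∧
    (a, b) ≠ (0, 0) ∧ g + (a, b) = x := by
  unfold ring8
  rw [mem_image]
  constructor
  · rintro ⟨⟨a, b⟩, h, rfl⟩
    rw [mem_erase, mem_product, mem_Icc, mem_Icc] at h
    exact ⟨a, b, h.2.1.1, h.2.1.2, h.2.2.1, h.2.2.2, h.1, rfl⟩
  · rintro ⟨a, b, h1, h2, h3, h4, h5, rfl⟩
    refine ⟨(a, b), ?_, rfl⟩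
    rw [mem_erase, mem_product, mem_Icc, mem_Icc]
    exact ⟨h5, ⟨h1, h2⟩, h3, h4⟩

attribute [irreducible] ring8

theorem tub_mono (h : G' ⊆ G) : Tub m c G ⊆ Tub m c G' := by
  intro ω hω g hg k hk
  refine hω g (h hg) k ⟨fun h2 => h (hk.1 h2), fun h3 => h (hk.2 h3)⟩

/-- The cells around a tip cell in the coordinates of the tip. -/
theorem ring_rcell {P : ℤ × ℤ} {n₀ τ₀ : ℤ} (H : TipC m R t P n₀ τ₀) {a b : ℤ} (h1 : -1 ≤ a)
    (h2 : a ≤ 1) (h3 : -1 ≤ b) (h4 : b ≤ 1) : ∃ x y : ℤ, -1 ≤ x ∧ x ≤ 1 ∧ -1 ≤ y ∧ y ≤ 1 ∧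
    tcell m R t + (a, b) = rcell m R t x y := by
  rcases H.par with ⟨e1, e2⟩ | ⟨e1, e2⟩ | ⟨e1, e2⟩ | ⟨e1, e2⟩
  · refine ⟨a, b, h1, h2, h3, h4, ?_⟩
    unfold rcell
    rw [e1, e2]
    refine Prod.ext ?_ ?_ <;> simp
  · refine ⟨b, -a, h3, h4, by omega, by omega, ?_⟩
    unfold rcell
    rw [e1, e2]
    refine Prod.ext ?_ ?_ <;> simp
  · refine ⟨-a, -b, by omega, by omega, by omega, by omega, ?_⟩
    unfold rcell
    rw [e1, e2]
    refine Prod.ext ?_ ?_ <;> simp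
  · refine ⟨-b, a, by omega, by omega, by omega, by omega, ?_⟩
    unfold rcell
    rw [e1, e2]
    refine Prod.ext ?_ ?_ <;> simp

theorem rcell_ring {P : ℤ × ℤ} {n₀ τ₀ : ℤ} (H : TipC m R t P n₀ τ₀)
    (hring : ∀ a b : ℤ, -1 ≤ a → a ≤ 1 → -1 ≤ b → b ≤ 1 → (a, b) ≠ (0, 0) →
      tcell m R t + (a, b) ∈ G) (a b : ℤ) (h1 : -1 ≤ a) (h2 : a ≤ 1) (h3 : -1 ≤ b) (h4 : b ≤ 1)
    (h5 : a ≠ 0 ∨ b ≠ 0) : rcell m R t a b ∈ G := by
  have hq := hring (a * (tdir R t).1 + b * (ttan R t).1) (a * (tdir R t).2 + b * (ttan R t).2)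
  have e1 : rcell m R t a b = tcell m R t +
      (a * (tdir R t).1 + b * (ttan R t).1, a * (tdir R t).2 + b * (ttan R t).2) := by
    unfold rcell
    refine Prod.ext ?_ ?_ <;> simp only [Prod.fst_add, Prod.snd_add] <;> ring
  rw [e1]
  rcases H.par with ⟨q1, q2⟩ | ⟨q1, q2⟩ | ⟨q1, q2⟩ | ⟨q1, q2⟩ <;> rw [q1, q2] at hq ⊢ <;>
    refine hq ?_ ?_ ?_ ?_ ?_ <;> simp only [ne_eq, Prod.mk.injEq] <;> omega

/-- The faces of the ring of a tip are near the boundary of the box. -/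
theorem ring_faces (hm : 2 ≤ m) (hR : 20 * m ≤ R) (h0 : 0 ≤ t) (h1 : t < 8 * R + 3)
    (hA : Away R (10 * m) t) (hf : f ∈ cellsF m (ring8 (tcell m R t))) :
    f ∈ BW (R + 3 * m) ∧ f ∉ BW (R - 3 * m) := by
  obtain ⟨P, n₀, τ₀, H⟩ := exists_tipC hm hR h0 h1 hA
  obtain ⟨g, hg, hfg⟩ := mem_cellsF.1 hf
  obtain ⟨a, b, a1, a2, a3, a4, -, rfl⟩ := mem_ring8.1 hg
  obtain ⟨x, y, x1, x2, x3, x4, e⟩ := ring_rcell H a1 a2 a3 a4
  rw [e] at hfg
  exact ⟨cin_face (by omega) hm (H.cin3 x y x1 x2 x3 x4) hfg,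
    cout_face hm (H.cout3 x y x1 x2 x3 x4) hfg⟩

theorem ring_in (hm : 2 ≤ m) (hR : 20 * m ≤ R) (h0 : 0 ≤ t) (h1 : t < 8 * R + 3)
    (hA : Away R (20 * m) t) (hf : f ∈ cellsF m (ring8 (tcell m R t))) {w : ℤ}
    (hw : R + 3 * m ≤ w) : f ∈ (BW w : Set (ℤ × ℤ)) :=
  BW_mono hw (Finset.mem_coe.2
    (ring_faces hm hR h0 h1 (fun z hz => by have := hA z hz; omega) hf).1)

theorem ring_nin (hm : 2 ≤ m) (hR : 20 * m ≤ R) (h0 : 0 ≤ t) (h1 : t < 8 * R + 3)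
    (hA : Away R (20 * m) t) (hf : f ∈ cellsF m (ring8 (tcell m R t))) {w : ℤ}
    (hw : w ≤ R - 3 * m) : f ∉ (BW w : Set (ℤ × ℤ)) := fun h =>
  (ring_faces hm hR h0 h1 (fun z hz => by have := hA z hz; omega) hf).2
    (Finset.mem_coe.1 (BW_mono hw h))

theorem ring_sub (hring : ∀ a b : ℤ, -1 ≤ a → a ≤ 1 → -1 ≤ b → b ≤ 1 → (a, b) ≠ (0, 0) →
    g + (a, b) ∈ G) : ring8 g ⊆ G := by
  intro x hx
  obtain ⟨a, b, a1, a2, a3, a4, a5, rfl⟩ := mem_ring8.1 hx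
  exact hring a b a1 a2 a3 a4 a5

theorem away_mono {g g' : ℤ} (h : g' ≤ g) (hA : Away R g t) : Away R g' t :=
  fun z hz => h.trans (hA z hz)

/-- The distances of the tips. -/
theorem TipPos.sep {t : Fin 3 → ℤ} (hm : 0 < m) (H : TipPos m R t) (i j : Fin 3) (hij : i ≠ j) :
    10 * m ≤ |t i - t j| := by
  obtain ⟨hpos, hord1, hord2⟩ := H
  have h1 : 20 * m ≤ |tlin R (t i) - tlin R (t j)| := by
    rw [le_abs]
    fin_cases i <;> fin_cases j <;> first | exact absurd rfl hij | skip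
    all_goals simp only [Fin.zero_eta, Fin.mk_one, Fin.reduceFinMk, Fin.isValue]
    all_goals omega
  have h2 := away_cases (w := m) hm (hpos i).1 (hpos i).2.1
    (away_mono (by omega) (hpos i).2.2)
  have h3 := away_cases (w := m) hm (hpos j).1 (hpos j).2.1
    (away_mono (by omega) (hpos j).2.2)
  rw [le_abs] at h1 ⊢
  unfold tlin at h1
  split_ifs at h1 <;> omega

/-- The colours of the three walls fit to one side of the tips. -/
theorem exists_side {s t : Fin 3 → ℤ} {S : ℤ → Fin 3} {K : ℤ → ZMod 2} {a : Fin 3 → Fin 3}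
    (hm : 2 ≤ m) (hR : 20 * m ≤ R) (ht : TipPos m R t)
    (ha : Function.Injective a) (hst : ∀ i, s (a i) = t i) (C : Cyc (8 * R + 3) s S K)
    (hs : ∀ i, 0 ≤ s i ∧ s i < 8 * R + 3) (hne : ∀ i, s i ≠ s (i + 1)) (b : ℤ) :
    ∃ e : ℤ, (e = 1 ∨ e = -1) ∧
      ∀ i : Fin 3, (parV (chS (tcell m R (t i))) (bd R (t i)) + (if e = 1 then 1 else 0) -
        (b + ((i : ℕ) : ℤ))) % 2 = 0 := by
  obtain ⟨hpos, hord1, hord2⟩ := ht
  have hpar := par_order ha hst C hs hne (by omega) (by omega)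
  have hparV : ∀ i, (parV (chS (tcell m R (t i))) (bd R (t i)) -
      parV (chS (tcell m R (t 0))) (bd R (t 0)) - ((i : ℕ) : ℤ)) % 2 = 0 := by
    intro i
    have h1 := parV_tlin hm hR (hpos i).1 (hpos i).2.1 (away_mono (by omega) (hpos i).2.2)
    have h2 := parV_tlin hm hR (hpos 0).1 (hpos 0).2.1 (away_mono (by omega) (hpos 0).2.2)
    have h3 := hpar i
    omega
  rcases Int.emod_two_eq_zero_or_one (parV (chS (tcell m R (t 0))) (bd R (t 0)) - b) with h | h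
  · refine ⟨-1, Or.inr rfl, fun i => ?_⟩
    have := hparV i
    rw [if_neg (by omega)]
    omega
  · refine ⟨1, Or.inl rfl, fun i => ?_⟩
    have := hparV i
    rw [if_pos rfl]
    omega

theorem bdW_bd (hw : 0 < w) (h0 : 0 ≤ t) (h1 : t ≤ 8 * w + 3) : BdW w (bd w t) := by
  rcases h1.lt_or_eq with h | h
  · exact ((bdW_iff hw).2 ⟨t, h0, h, rfl⟩).1
  · rw [h, bd_last hw.le]
    exact ((bdW_iff hw).2 ⟨0, le_rfl, by omega, rfl⟩).1

/-- The walls of the annulus. -/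
structure WallsA (m r d : ℤ) (t s : Fin 3 → ℤ) (G : Fin 3 → Finset (ℤ × ℤ)) : Prop where
  disj : ∀ i j, i ≠ j → Disjoint (G i) (G j)
  ok : ∀ i, ∀ g ∈ G i, CellOk g
  tc : ∀ i j, tcell m r (t i) ∉ G j ∧ tcell m d (s i) ∉ G j
  ring : ∀ i, ∀ a b : ℤ, -1 ≤ a → a ≤ 1 → -1 ≤ b → b ≤ 1 → (a, b) ≠ (0, 0) →
      tcell m r (t i) + (a, b) ∈ G i ∧ tcell m d (s i) + (a, b) ∈ G i
  path : ∀ i, ReflTransGen (fun a b => a ∈ G i ∧ b ∈ G i ∧ COut m r a ∧ COut m r b ∧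
      CIn m d a ∧ CIn m d b ∧ CAdj a b) (oport m r (t i)) (iport m d (s i))

/-- The faces visited by the outer strands. -/
def VUO (d w : ℤ) (T : Fin 3 → ℤ) (ω : Cfg) : Set (ℤ × ℤ) :=
  VU TQ ω (An d w) fun i => ine w (T i)

/-- The outer landing. -/
theorem link_out (hm : 3 ≤ m) (hd : 60 * m ≤ d) (hdw : d + 3 * m ≤ w) {T s : Fin 3 → ℤ}
    (hT : Alt w T) (hsp : TipPos m d s) (htip : ∀ i, ∃ j, TipI d w ω T j (s i))
    {G : Fin 3 → Finset (ℤ × ℤ)} (hok : ∀ i, ∀ g ∈ G i, CellOk g)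
    (hring : ∀ i, ∀ a b : ℤ, -1 ≤ a → a ≤ 1 → -1 ≤ b → b ≤ 1 → (a, b) ≠ (0, 0) →
      tcell m d (s i) + (a, b) ∈ G i)
    {b : ℤ} (hξ : ∀ i : Fin 3, ξ ∈ Tub m (b + ((i : ℕ) : ℤ)) (G i))
    (hζ1 : ∀ f ∈ VUO d w T ω, ω f = ζ f)
    (hζ2 : ∀ i, ∀ f ∈ cellsF m (G i), f ∉ VUO d w T ω → ξ f = ζ f) (i : Fin 3) :
    ∃ v, BdW w v ∧ ConnW emP ζ (VUO d w T ω ∪ cellsF m (G i)) v
      (rep m (b + ((i : ℕ) : ℤ)) ξ (iport m d (s i))) := by
  have hm2 : 2 ≤ m := by omega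
  have hd2 : 20 * m ≤ d := by omega
  have hsp' := hsp
  obtain ⟨hpos, hord1, hord2⟩ := hsp'
  have hAw : ∀ i, Away d (10 * m) (s i) := fun i => away_mono (by omega) (hpos i).2.2
  choose a ha using htip
  have hEq : ∀ i j, a i = a j → s i = s j := by
    intro i j hij
    have h1 := (ha i).2.2
    have h2 := (ha j).2.2
    rw [← hij] at h2
    have hter : ∀ i, Ter TQ (An d w) (ine d (s i)) := by
      intro i
      have h3 := (ini_inner (d := d) (w := w) (by omega) (by omega) (hpos i).1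
        (hpos i).2.1).ter_swap
      rwa [Prod.swap_swap] at h3
    have h3 := ter_unique h1 h2 (hter i) (hter j)
    exact ine_inj (by omega) (hpos i).1 (hpos i).2.1 (hpos j).1 (hpos j).2.1 h3
  have hainj : Function.Injective a := by
    intro i j hij
    by_contra hne
    have h1 := hsp.sep (by omega) i j hne
    rw [hEq i j hij, sub_self, abs_zero] at h1
    omega
  have hbij := Finite.injective_iff_bijective.1 hainj
  set E := Equiv.ofBijective a hbij with hE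
  set u : Fin 3 → ℤ := fun i => s (E.symm i) with hu
  have hua : ∀ i, u (a i) = s i := by
    intro i
    have : E.symm (a i) = i := E.symm_apply_apply i
    simp only [hu, this]
  have hur : ∀ i, 0 ≤ u i ∧ u i < 8 * d + 3 := fun i => ⟨(hpos _).1, (hpos _).2.1⟩
  have huA : ∀ i, Away d (10 * m) (u i) := fun i => hAw _
  have hstr : ∀ i : Fin 3, ine d (u i) ∈ Orb TQ ω (An d w) (ine w (T i)) := by
    intro i
    have h1 := (ha (E.symm i)).2.2
    have h2 : a (E.symm i) = i := E.apply_symm_apply i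
    rw [h2] at h1
    exact h1
  have husep : ∀ i j, i ≠ j → 10 * m ≤ |u i - u j| := fun i j hij =>
    hsp.sep (by omega) _ _ fun h => hij (E.symm.injective h)
  have hune : ∀ i, u i ≠ u (i + 1) := by
    intro i h
    have h1 := husep i (i + 1) (by fin_cases i <;> decide)
    rw [h, sub_self, abs_zero] at h1
    omega
  obtain ⟨sec, kap, H⟩ := secIn (ω := ω) (d := d) (w := w) (by omega) (by omega) hT
    fun i => ⟨u i, (hur i).1, (hur i).2, hstr i⟩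
  have C := cyc_in (s := u) (by omega) (show d < w by omega) hT.mem H hur hstr
  obtain ⟨e, he, hc⟩ := exists_side hm2 hd2 hsp hainj hua C hur hune b
  obtain ⟨P, n₀, τ₀, hTip⟩ := exists_tipC hm2 hd2 (hpos i).1 (hpos i).2.1 (hAw i)
  have hport : rcell m d (s i) (-1) 0 = iport m d (s i) := by
    unfold rcell iport
    refine Prod.ext ?_ ?_ <;> simp <;> ring
  obtain ⟨i', h | h⟩ := land_cyc (s := u) (j := a i) (p := -1) (e := e) (ζ := ζ) (F := An d w)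
    hm2 hd2 (fun i => ⟨(hur i).1, (hur i).2, huA i⟩) husep (hok i) (hξ i) he
    (Or.inr ⟨rfl, fun f hf => hf.2⟩)
    (fun f _ h2 h3 _ => ⟨BW_mono hdw h3, h2 rfl⟩)
    (by
      intro x y h1 h2 h3 h4 h5
      rw [hua i]
      exact rcell_ring hTip (hring i) x y h1 h2 h3 h4 h5)
    H C (by rw [hua i]; exact hc i) hζ1 (hζ2 i)
  · refine ⟨(ine w (T i')).1, ?_, ?_⟩
    · exact bdW_bd (by omega) (hT.mem i').1 (by have := (hT.mem i').2; omega)
    · rw [← hport, ← hua i]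
      exact h.2
  · refine ⟨(ine w (T i')).2, ?_, ?_⟩
    · exact bdW_bd (by omega) (by have := (hT.mem i').1; omega) (by have := (hT.mem i').2; omega)
    · rw [← hport, ← hua i]
      exact h.2

/-- All three core vertices are joined to the outer boundary. -/
theorem link_arm (hm : 3 ≤ m) (hr : 60 * m ≤ r) (hrd : r + 60 * m ≤ d) (hdw : d + 3 * m ≤ w)
    {T t s : Fin 3 → ℤ} (hT : Alt w T) (htp : TipPos m r t) (hsp : TipPos m d s)
    (htip : ∀ i, IsTip r ω (t i)) (hstip : ∀ i, ∃ j, TipI d w ω T j (s i))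
    {G : Fin 3 → Finset (ℤ × ℤ)} (hW : WallsA m r d t s G) {b : ℤ}
    (hξ : ∀ i : Fin 3, ξ ∈ Tub m (b + ((i : ℕ) : ℤ)) (G i))
    (hζ1 : ∀ f ∈ VUL r ω, ζ f = ω f) (hζ2 : ∀ f ∈ VUO d w T ω, ζ f = ω f)
    (hζ3 : ∀ f, f ∉ VUL r ω → f ∉ VUO d w T ω → ζ f = ξ f) : ζ ∈ Arm3 w := by
  have hm2 : 2 ≤ m := by omega
  have hVO : ∀ f ∈ VUO d w T ω, f ∈ An d w := fun f hf => VU_sub hf
  have hVL : ∀ f ∈ VUL r ω, f ∈ (BW r : Set (ℤ × ℤ)) := by
    rintro f ⟨i, hf⟩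
    exact Vis_sub hf
  -- the inner landing
  have hring1 : ∀ i, ring8 (tcell m r (t i)) ⊆ G i := fun i =>
    ring_sub fun a b a1 a2 a3 a4 a5 => (hW.ring i a b a1 a2 a3 a4 a5).1
  have hring2 : ∀ i, ring8 (tcell m d (s i)) ⊆ G i := fun i =>
    ring_sub fun a b a1 a2 a3 a4 a5 => (hW.ring i a b a1 a2 a3 a4 a5).2
  obtain ⟨x, hxi, hxc, hx⟩ := linkP m r b ω ξ ζ t (fun i => ring8 (tcell m r (t i))) hm hr htp
    htip ⟨fun i j hij => (hW.disj i j hij).mono (hring1 i) (hring1 j),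
      fun i g hg => hW.ok i g (hring1 i hg), fun i j h => (hW.tc i j).1 (hring1 j h),
      fun i a b a1 a2 a3 a4 a5 => mem_ring8.2 ⟨a, b, a1, a2, a3, a4, a5, rfl⟩⟩
    (fun i => tub_mono (hring1 i) (hξ i)) hζ1 (by
      intro f hf hf2
      refine hζ3 f hf fun hO => (hVO f hO).2 ?_
      rcases hf2 with h | ⟨i, h⟩
      · exact BW_mono (by omega) (Finset.mem_coe.2 h)
      · exact ring_in hm2 (by omega) (htp.1 i).1 (htp.1 i).2.1 (htp.1 i).2.2 h (by omega))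
  -- the outer landing
  have hout := link_out (ξ := ξ) (ζ := ζ) (b := b) hm (by omega) hdw hT hsp hstip
    (G := fun i => ring8 (tcell m d (s i))) (fun i g hg => hW.ok i g (hring2 i hg))
    (fun i a b a1 a2 a3 a4 a5 => mem_ring8.2 ⟨a, b, a1, a2, a3, a4, a5, rfl⟩)
    (fun i => tub_mono (hring2 i) (hξ i)) (fun f hf => (hζ2 f hf).symm) (by
      intro i f hf hfO
      refine (hζ3 f (fun hL => ?_) hfO).symm
      exact ring_nin hm2 (by omega) (hsp.1 i).1 (hsp.1 i).2.1 (hsp.1 i).2.2 hf (by omega)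
        (hVL f hL))
  -- the chain
  have hchain : ∀ i : Fin 3, ConnW emP ζ (BW w : Set (ℤ × ℤ))
      (rep m (b + ((i : ℕ) : ℤ)) ξ (oport m r (t i)))
      (rep m (b + ((i : ℕ) : ℤ)) ξ (iport m d (s i))) := by
    intro i
    have h1 := tub_link hm2 (hW.ok i) (hξ i) (P := fun g => COut m r g ∧ CIn m d g)
      (rtg_mono (fun a b h => ⟨h.1, h.2.1, ⟨h.2.2.1, h.2.2.2.2.1⟩,
        ⟨h.2.2.2.1, h.2.2.2.2.2.1⟩, h.2.2.2.2.2.2⟩) (hW.path i))
    have hfa : ∀ f ∈ {f | ∃ a ∈ G i, (COut m r a ∧ CIn m d a) ∧ f ∈ cellF m a},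
        f ∉ (BW r : Set (ℤ × ℤ)) ∧ f ∈ (BW d : Set (ℤ × ℤ)) := by
      rintro f ⟨g, -, ⟨g1, g2⟩, hf⟩
      exact ⟨fun h => cout_face hm2 g1 hf (Finset.mem_coe.1 h),
        Finset.mem_coe.2 (cin_face (by omega) hm2 g2 hf)⟩
    refine (h1.congr_cfg fun f hf => ?_).mono fun f hf => BW_mono (by omega) (hfa f hf).2
    exact (hζ3 f (fun h => (hfa f hf).1 (hVL f h)) fun h => (hVO f h).2 (hfa f hf).2).symm
  -- conclusion
  intro y hy
  have hyx : ∃ i, x i = y := by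
    by_contra hcon
    push Not at hcon
    have c0 := hcon 0
    have c1 := hcon 1
    have c2 := hcon 2
    have n01 : x 0 ≠ x 1 := fun h => absurd (hxi h) (by decide)
    have n02 : x 0 ≠ x 2 := fun h => absurd (hxi h) (by decide)
    have n12 : x 1 ≠ x 2 := fun h => absurd (hxi h) (by decide)
    have k0 := hxc 0
    have k1 := hxc 1
    have k2 := hxc 2
    unfold Core at hy k0 k1 k2
    omega
  obtain ⟨i, rfl⟩ := hyx
  obtain ⟨v, hv, hconn⟩ := hout i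
  refine ⟨v, ?_, hv⟩
  refine ReflTransGen.trans ((hx i).mono ?_) (ReflTransGen.trans (hchain i)
    ((hconn.mono ?_).symm'))
  · rintro f (hf | hf)
    · exact BW_mono (by omega) hf
    · exact ring_in hm2 (by omega) (htp.1 i).1 (htp.1 i).2.1 (htp.1 i).2.2 hf (by omega)
  · rintro f (hf | hf)
    · exact (hVO f hf).1
    · exact ring_in hm2 (by omega) (hsp.1 i).1 (hsp.1 i).2.1 (hsp.1 i).2.2 hf hdw

end Pool.Agent.Perc.Q
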