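import Pool.Agent.Lib.MP_6bd702_perc3.T3Defs

/-!
# T3, row Cut: the potential of one leg and the cut
-/

set_option autoImplicit false

namespace Pool.Agent.Perc.Q

open Finset Pool.Agent.Perc Relation

theorem cutK_symm (p q : ℤ × ℤ) : cutK p q = cutK q p := by
  unfold cutK
  refine if_congr ?_ rfl rfl
  constructor
  · rintro (h | h | ⟨h1, h2, h3⟩)
    · exact Or.inr (Or.inl h)
    · exact Or.inl h
    · exact Or.inr (Or.inr ⟨h1.symm, by omega, h3.symm⟩)
  · rintro (h | h | ⟨h1, h2, h3⟩)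
    · exact Or.inr (Or.inl h)
    · exact Or.inl h
    · exact Or.inr (Or.inr ⟨h1.symm, by omega, h3.symm⟩)

theorem cutK_zero {a b c d : ℤ} (h1 : ¬ (b = 0 ∧ d = 0 ∧ ((a = -2 ∧ c = -1) ∨ (c = -2 ∧ a = -1))))
    (h2 : ¬ (a = c ∧ a ≤ -2 ∧ ((b = 0 ∧ d = 1) ∨ (d = 0 ∧ b = 1)))) : cutK (a, b) (c, d) = 0 := by
  unfold cutK
  rw [if_neg]
  rintro (⟨h3, h4⟩ | ⟨h3, h4⟩ | h3)
  · rw [Prod.mk.injEq] at h3 h4
    exact h1 ⟨h3.2, h4.2, Or.inl ⟨h3.1, h4.1⟩⟩
  · rw [Prod.mk.injEq] at h3 h4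
    exact h1 ⟨h4.2, h3.2, Or.inr ⟨h3.1, h4.1⟩⟩
  · exact h2 h3

theorem cutK_one {a b c d : ℤ} (h2 : a = c ∧ a ≤ -2 ∧ ((b = 0 ∧ d = 1) ∨ (d = 0 ∧ b = 1))) :
    cutK (a, b) (c, d) = 1 := by
  unfold cutK
  rw [if_pos (Or.inr (Or.inr h2))]

/-- The cut is even in every face. -/
theorem cutK_even (f : ℤ × ℤ) : ∑ k, cutK (TQ.c f k) (TQ.c f (k + 1)) = 0 := by
  obtain ⟨x, y⟩ := f
  rw [sumQ4]
  have a0 : (0 : ZMod 4) + 1 = 1 := by decide
  have a1 : (1 : ZMod 4) + 1 = 2 := by decide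
  have a2 : (2 : ZMod 4) + 1 = 3 := by decide
  have a3 : (3 : ZMod 4) + 1 = 0 := by decide
  rw [a0, a1, a2, a3]
  have hc : ∀ k, TQ.c (x, y) k = corT emP (x, y) k := fun _ => rfl
  simp only [hc]
  obtain ⟨c0, c1, c2, c3⟩ := corT_eq emP x y
  rw [c0, c1]
  have zz : (0 : ZMod 2) + 0 + 0 + 0 = 0 := by decide
  by_cases hy : y = -1
  · obtain ⟨c4, c5⟩ := c3 hy
    rw [c4, c5]
    have e1 : emP x = x ∧ 0 ≤ x ∨ emP x = x - 1 ∧ x < 0 := by
      unfold emP; split_ifs with h <;> omega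
    have e2 : emP (x + 1) = x + 1 ∧ 0 ≤ x + 1 ∨ emP (x + 1) = x ∧ x + 1 < 0 := by
      unfold emP; split_ifs with h <;> omega
    generalize emP x = u at e1 ⊢
    generalize emP (x + 1) = v at e2 ⊢
    rw [cutK_zero (by omega) (by omega), cutK_zero (by omega) (by omega),
      cutK_zero (by omega) (by omega), cutK_zero (by omega) (by omega), zz]
  · obtain ⟨c4, c5⟩ := c2 hy
    rw [c4, c5]
    by_cases h0 : y = 0
    · subst h0
      by_cases h1 : x ≤ -3
      · rw [cutK_zero (by omega) (by omega), cutK_one (by omega), cutK_zero (by omega) (by omega),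
          cutK_one (by omega)]
        decide
      · by_cases h2 : x = -2
        · subst h2
          decide
        · rw [cutK_zero (by omega) (by omega), cutK_zero (by omega) (by omega),
            cutK_zero (by omega) (by omega), cutK_zero (by omega) (by omega), zz]
    · rw [cutK_zero (by omega) (by omega), cutK_zero (by omega) (by omega),
        cutK_zero (by omega) (by omega), cutK_zero (by omega) (by omega), zz]

/-- A leg which reaches the boundary together with the cut has a potential. -/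
theorem exists_cutPot {W : ℤ} (hW : 0 < W) {ω : Cfg} {j : Fin 3} (hj : Lea 0 W ω (j : ℕ)) :
    ∃ χ : ℤ × ℤ → ZMod 2,
      PotQ TQ (An 0 W) (fun p q => indU TQ ω (An 0 W) (leg j) p q + cutK p q) χ := by
  have hj0 : (0 : ℤ) ≤ (j : ℕ) := by omega
  have hj1 : ((j : ℕ) : ℤ) < 8 * 0 + 3 := by have := j.isLt; omega
  have hini : Ini TQ (An 0 W) (leg j) := ini_inner le_rfl hW hj0 hj1
  have hex : ∀ m : ℤ × ℤ → ℤ × ℤ → ZMod 2, (∀ p q, m p q = m q p) →
      (∀ f ∈ An 0 W, ∑ k, m (TQ.c f k) (TQ.c f (k + 1)) = 0) →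
      ∑ t ∈ Ico (0 : ℤ) (8 * 0 + 3), m (bd 0 t) (bd 0 (t + 1)) = 0 →
      ∃ χ, PotQ TQ (An 0 W) m χ := fun m hs he ho => exists_pot_inner le_rfl hW hs he ho
  refine hex _ (fun p q => ?_) (fun f hf => ?_) ?_
  · rw [indU_symm, cutK_symm]
  · rw [Finset.sum_add_distrib, cutK_even, add_zero]
    have hm : Mat TQ ω (An 0 W) (indU TQ ω (An 0 W) (leg j)) :=
      fun f hf k hk => indU_eq hini hf hk
    exact hm.even hf
  · have h1 : ∀ t ∈ Ico (0 : ℤ) (8 * 0 + 3), indU TQ ω (An 0 W) (leg j) (bd 0 t) (bd 0 (t + 1)) +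
        cutK (bd 0 t) (bd 0 (t + 1)) =
        (if t = ((j : ℕ) : ℤ) then 1 else 0) + if t = 1 then 1 else 0 := by
      intro t ht
      rw [mem_Ico] at ht
      have h3 : indU TQ ω (An 0 W) (leg j) (bd 0 t) (bd 0 (t + 1)) =
          if t = ((j : ℕ) : ℤ) then 1 else 0 :=
        indU_inner le_rfl hW hj0 hj1 ht.1 ht.2 hj
      have h4 : cutK (bd 0 t) (bd 0 (t + 1)) = if t = 1 then 1 else 0 := by
        have h2 : t = 0 ∨ t = 1 ∨ t = 2 := by omega
        rcases h2 with rfl | rfl | rfl <;> decide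
      rw [h3, h4]
    rw [Finset.sum_congr rfl h1, Finset.sum_add_distrib, sum_ite_Ico hj0 hj1,
      sum_ite_Ico (by norm_num) (by norm_num)]
    decide

end Pool.Agent.Perc.Q
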