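import Pool.Agent.Lib.MP_6bd702_perc3.TwEdge
import Pool.Agent.Lib.MP_6bd702_perc3.PairsZ

/-!
# The grid with a dislocation and the cover
-/

set_option autoImplicit false

namespace Pool.Agent.Perc3

open Finset Pool.Agent.Perc

/-- The translation of a unit edge. -/
def shE (n : ℤ) (a : UE) : UE := (a.1 + n, a.2.1, a.2.2)

/-- The translation of a vertex. -/
def shV (n : ℤ) (v : ℤ × ℤ) : ℤ × ℤ := (v.1 + n, v.2)

/-- The projection of a lifted unit edge to the twisted plane. -/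
def pE (c : LE) : TE :=
  if 0 ≤ c.1.2.1 then (ua (shE c.2 c.1), ub (shE c.2 c.1))
  else (twV emP (ua (shE c.2 c.1)), twV emP (ub (shE c.2 c.1)))

theorem Mt_shift {ω : Cfg} {f : ℤ × ℤ} {n : ℤ} {v : Bool} {a a' : UE}
    (hv : ω (f.1 + n, f.2) = v) (h : Mt (fun _ => v) f a a') :
    Mt ω (f.1 + n, f.2) (shE n a) (shE n a') := by
  unfold Mt at *
  rw [hv]
  obtain ⟨x, y⟩ := f
  simp only [bo, ri, le', to'] at h ⊢
  rcases h with ⟨h0, h⟩ | ⟨h0, h⟩
  · refine Or.inl ⟨h0, ?_⟩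
    rcases h with ⟨rfl, rfl⟩ | ⟨rfl, rfl⟩ | ⟨rfl, rfl⟩ | ⟨rfl, rfl⟩ <;> simp [shE] <;> omega
  · refine Or.inr ⟨h0, ?_⟩
    rcases h with ⟨rfl, rfl⟩ | ⟨rfl, rfl⟩ | ⟨rfl, rfl⟩ | ⟨rfl, rfl⟩ <;> simp [shE] <;> omega

theorem IsSide_shift {f : ℤ × ℤ} {n : ℤ} {a : UE} (h : IsSide f a) :
    IsSide (f.1 + n, f.2) (shE n a) := by
  obtain ⟨x, y⟩ := f
  unfold IsSide at *
  simp only [bo, ri, le', to'] at h ⊢
  rcases h with rfl | rfl | rfl | rfl <;> simp [shE] <;> omega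

variable {L w d n : ℤ}

/-- The projection of a lifted side of a lifted face of the annulus. -/
theorem pE_lft (hn : n ≤ d - 2) {s : LF} (hs : s ∈ LAF L w d n) {a : UE} (ha : IsSide s.1 a) :
    pE (lft s a) = twE emP (pj 1 s) (shE s.2 a) := by
  obtain ⟨⟨x, y⟩, i⟩ := s
  rw [mem_LAF, mem_AnF] at hs
  simp only at hs ha
  obtain ⟨⟨h1, h2⟩, h3⟩ := hs
  rw [abs_le] at h3
  unfold pE twE lft pj
  simp only
  rcases ha with rfl | rfl | rfl | rfl
  · by_cases hy : 0 ≤ y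
    · rw [if_pos (show 0 ≤ (bo (x, y)).2.1 by simpa [bo] using hy), if_pos hy,
        if_neg (show ¬ (IsCut (bo (x, y)) ∧ y < 0) by omega)]
    · rw [if_neg (show ¬ 0 ≤ (bo (x, y)).2.1 by simpa [bo] using hy), if_neg hy,
        if_neg (show ¬ (IsCut (bo (x, y)) ∧ y < 0) by unfold IsCut bo; simp only; omega)]
  · by_cases hy : 0 ≤ y
    · rw [if_pos (show 0 ≤ (le' (x, y)).2.1 by simpa [le'] using hy), if_pos hy,
        if_neg (show ¬ (IsCut (le' (x, y)) ∧ y < 0) by omega)]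
    · rw [if_neg (show ¬ 0 ≤ (le' (x, y)).2.1 by simpa [le'] using hy), if_neg hy,
        if_neg (show ¬ (IsCut (le' (x, y)) ∧ y < 0) by unfold IsCut le'; simp)]
  · by_cases hy : 0 ≤ y
    · rw [if_pos (show 0 ≤ (to' (x, y)).2.1 by simp only [to']; omega), if_pos hy,
        if_neg (show ¬ (IsCut (to' (x, y)) ∧ y < 0) by omega)]
    · by_cases hy1 : y = -1
      · subst hy1
        rw [if_pos (show 0 ≤ (to' (x, -1)).2.1 by simp [to']), if_neg hy]
        by_cases hx : x ≤ -2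
        · rw [if_pos (show IsCut (to' (x, -1)) ∧ (-1 : ℤ) < 0 by
            unfold IsCut to'; simp only; exact ⟨⟨trivial, by norm_num, hx⟩, by norm_num⟩)]
          simp only [to', shE, ua, ub, twV, emP, Bool.false_eq_true, if_false,
            show (-1 : ℤ) + 1 = 0 from rfl, if_true]
          rw [if_neg (by omega), if_neg (by omega)]
          refine Prod.ext (Prod.ext ?_ rfl) (Prod.ext ?_ rfl)
          · simp only
            omega
          · simp only
            omega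
        · rw [if_neg (show ¬ (IsCut (to' (x, -1)) ∧ (-1 : ℤ) < 0) by
            unfold IsCut to'; simp only; omega)]
          simp only [to', shE, ua, ub, twV, emP, Bool.false_eq_true, if_false,
            show (-1 : ℤ) + 1 = 0 from rfl, if_true]
          rw [if_pos (by omega), if_pos (by omega)]
      · rw [if_neg (show ¬ 0 ≤ (to' (x, y)).2.1 by simp only [to']; omega), if_neg hy,
          if_neg (show ¬ (IsCut (to' (x, y)) ∧ y < 0) by unfold IsCut to'; simp only; omega)]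
  · by_cases hy : 0 ≤ y
    · rw [if_pos (show 0 ≤ (ri (x, y)).2.1 by simpa [ri] using hy), if_pos hy,
        if_neg (show ¬ (IsCut (ri (x, y)) ∧ y < 0) by omega)]
    · rw [if_neg (show ¬ 0 ≤ (ri (x, y)).2.1 by simpa [ri] using hy), if_neg hy,
        if_neg (show ¬ (IsCut (ri (x, y)) ∧ y < 0) by unfold IsCut ri; simp)]

/-- The projection of a lifted component is contained in a component of the twisted plane. -/
theorem pE_ML {ω : Cfg} (hn : n ≤ d - 2) {Ft : Set LF} (hFt : Ft ⊆ LAF L w d n)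
    {G : Set (ℤ × ℤ)} (hG : ∀ s ∈ Ft, pj 1 s ∈ G) {e c : LE} (hc : c ∈ ML (lcf 1 ω) Ft {e}) :
    pE c ∈ MMW emP ω G (pE e) := by
  refine ML_induction (P := fun c => pE c ∈ MMW emP ω G (pE e)) ?_ ?_ c hc
  · rintro c rfl
    exact mem_MMW_self
  · rintro c c' s hs ⟨a, a', hm, rfl, rfl⟩ _ ih
    have hsA : s ∈ LAF L w d n := hFt hs
    refine MMW_step (hG s hs) ?_ ih
    refine ⟨shE s.2 a, shE s.2 a', ?_, pE_lft hn hsA hm.left, pE_lft hn hsA hm.right⟩
    have h1 : pj 1 s = (s.1.1 + s.2, s.1.2) := by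
      unfold pj
      rw [one_mul]
    rw [h1]
    refine Mt_shift (v := lcf 1 ω s) ?_ hm
    unfold lcf
    rw [h1]

/-- The component of `t` in the rectangle `[-L, L] × [-w, w]` of the twisted plane reaches the box of
radius `r`. -/
def ReachT (ω : Cfg) (L w r : ℤ) (t : TE) : Prop :=
  ∃ p ∈ MMW emP ω (RF (-L) L (-w) w \ BW r : Finset (ℤ × ℤ)) t, ∃ f ∈ BW r, IsSideW emP f p

theorem mem_BW {r : ℤ} {f : ℤ × ℤ} : f ∈ BW r ↔
    (-(r + 2) ≤ f.1 ∧ f.1 < r ∧ 0 ≤ f.2 ∧ f.2 < r) ∨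
      (-(r + 1) ≤ f.1 ∧ f.1 < r ∧ -r ≤ f.2 ∧ f.2 < 0) := by
  unfold BW
  rw [mem_union, mem_RF, mem_RF]

/-- If a lifted component reaches the inner box, its projection reaches the box of radius
`r ≥ d + n + 1`. -/
theorem reachT_of_rinL {ω : Cfg} (hn0 : 0 ≤ n) (hn : n ≤ d - 2) {r : ℤ} (hr : d + n + 1 ≤ r)
    {b : UE} {i : ℤ} (hb : b.2.1 < -d ∨ d < b.2.1) (h : RinL (lcf 1 ω) L w d n (b, i)) :
    ReachT ω (L + n) w r (pE (b, i)) := by
  obtain ⟨c, hc, hB⟩ := h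
  set G : Set (ℤ × ℤ) := ((RF (-(L + n)) (L + n) (-w) w \ BW r : Finset (ℤ × ℤ)) :
    Set (ℤ × ℤ)) with hG
  have key : ReachT ω (L + n) w r (pE (b, i)) ∨ (pE c ∈ MMW emP ω G (pE (b, i)) ∧
      (c = (b, i) ∨ ∃ s ∈ LAF L w d n, pj 1 s ∉ BW r ∧ ∃ a, IsSide s.1 a ∧ c = lft s a)) := by
    refine ML_induction (P := fun c => ReachT ω (L + n) w r (pE (b, i)) ∨
      (pE c ∈ MMW emP ω G (pE (b, i)) ∧ (c = (b, i) ∨
        ∃ s ∈ LAF L w d n, pj 1 s ∉ BW r ∧ ∃ a, IsSide s.1 a ∧ c = lft s a))) ?_ ?_ c hc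
    · rintro c rfl
      exact Or.inr ⟨mem_MMW_self, Or.inl rfl⟩
    · rintro c c' s hs ⟨a, a', hm, rfl, rfl⟩ _ (ih | ⟨ih, -⟩)
      · exact Or.inl ih
      · have hsA : s ∈ LAF L w d n := hs
        have h1 : pj 1 s = (s.1.1 + s.2, s.1.2) := by
          unfold pj
          rw [one_mul]
        have hmt : MtW emP ω (pj 1 s) (pE (lft s a)) (pE (lft s a')) := by
          refine ⟨shE s.2 a, shE s.2 a', ?_, pE_lft hn hsA hm.left, pE_lft hn hsA hm.right⟩
          rw [h1]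
          refine Mt_shift (v := lcf 1 ω s) ?_ hm
          unfold lcf
          rw [h1]
        by_cases hsB : pj 1 s ∈ BW r
        · exact Or.inl ⟨_, ih, pj 1 s, hsB, hmt.left⟩
        · refine Or.inr ⟨MMW_step ?_ hmt ih, Or.inr ⟨s, hsA, hsB, a', hm.right, rfl⟩⟩
          rw [hG, mem_coe, mem_sdiff]
          refine ⟨?_, hsB⟩
          have h2 := pj_LAF (c := 1) (by norm_num) hsA
          rwa [show -L - n = -(L + n) by ring] at h2
  rcases key with key | ⟨-, key | ⟨s, hs, hsB, a, ha, rfl⟩⟩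
  · exact key
  · exfalso
    subst key
    unfold BdE at hB
    simp only at hB
    omega
  · exfalso
    apply hsB
    rw [mem_LAF, mem_AnF, abs_le] at hs
    rw [mem_BW]
    unfold BdE lft at hB
    simp only at hB
    obtain ⟨⟨x, y⟩, j⟩ := s
    unfold pj
    simp only [one_mul] at hs ⊢
    rcases ha with rfl | rfl | rfl | rfl
    · simp [bo] at hB; omega
    · simp [le'] at hB; omega
    · simp [to'] at hB; omega
    · simp [ri] at hB; omega

/-- The unit edges of the lines `y = w` and `y = -w` of the twisted plane. -/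
noncomputable def TBT (L w : ℤ) : Finset TE :=
  (TBF L w).image fun b => ((b.1, b.2.1), (b.1 + 1, b.2.1))

theorem pE_TBF (hw : 0 < w) {b : UE} (hb : b ∈ TBF L w) (i : ℤ) :
    pE (b, i) = ((b.1 + i, b.2.1), (b.1 + i + 1, b.2.1)) := by
  rw [mem_TBF] at hb
  obtain ⟨x, y, c⟩ := b
  obtain ⟨h1, h2, h3, h4⟩ := hb
  simp only at h1 h2 h3 h4
  subst h4
  unfold pE shE
  rcases h3 with h3 | h3
  · rw [if_neg (by simp only; omega)]
    simp only [ua, ub, twV, Bool.false_eq_true, if_false]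
    rw [if_neg (by omega), if_neg (by omega)]
  · rw [if_pos (by simp only; omega)]
    simp only [ua, ub, Bool.false_eq_true, if_false]

theorem mem_TBT {t : TE} : t ∈ TBT L w ↔
    ∃ x, (-L ≤ x ∧ x < L) ∧ (t = ((x, -w), (x + 1, -w)) ∨ t = ((x, w), (x + 1, w))) := by
  unfold TBT
  rw [mem_image]
  constructor
  · rintro ⟨⟨x, y, c⟩, hb, rfl⟩
    rw [mem_TBF] at hb
    simp only at hb
    refine ⟨x, ⟨hb.1, hb.2.1⟩, ?_⟩
    rcases hb.2.2.1 with h | h
    · left; simp only [h]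
    · right; simp only [h]
  · rintro ⟨x, hx, h | h⟩
    · exact ⟨(x, -w, false), by rw [mem_TBF]; exact ⟨hx.1, hx.2, Or.inl rfl, rfl⟩, h.symm⟩
    · exact ⟨(x, w, false), by rw [mem_TBF]; exact ⟨hx.1, hx.2, Or.inr rfl, rfl⟩, h.symm⟩

/-- The starting unit edges of a pair are different in the twisted plane. -/
theorem pE_ne {ζ : LF → Bool} (hd : 0 ≤ d) (hdw : d < w) (hn1 : 1 ≤ n) {k : ℤ} (hk : 1 < k)
    {b b' : UE} (hb : b ∈ TBF L w) (hb' : b' ∈ TBF L w) (hne : b ≠ b') {ε : ℤ} (hε : |ε| ≤ 1)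
    (h : ζ ∈ PairL L w d n k b b' ε) : pE (b, 0) ≠ pE (b', ε) := by
  intro he
  rw [pE_TBF (by omega) hb, pE_TBF (by omega) hb'] at he
  simp only [Prod.mk.injEq] at he
  have hinj := h.1.injOn (c := 1) (by rw [abs_one]; exact hk)
  rw [mem_TBF] at hb hb'
  obtain ⟨x, y, c⟩ := b
  obtain ⟨x', y', c'⟩ := b'
  simp only at he hb hb'
  obtain ⟨⟨e1, rfl⟩, -⟩ := he
  obtain ⟨h1, h2, h3, rfl⟩ := hb
  obtain ⟨h1', h2', -, rfl⟩ := hb'
  have hx : x = x' + ε := by omega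
  obtain ⟨y₀, hy₀, hs⟩ : ∃ y₀, (-w ≤ y₀ ∧ y₀ < w ∧ ¬ (-d ≤ y₀ ∧ y₀ < d)) ∧
      ∀ x : ℤ, IsSide (x, y₀) (x, y, false) := by
    rcases h3 with rfl | rfl
    · exact ⟨-w, by omega, fun x => Or.inl rfl⟩
    · refine ⟨y - 1, by omega, fun x => Or.inr (Or.inr (Or.inl ?_))⟩
      simp only [to', sub_add_cancel]
  have hcut : ∀ x, ¬ IsCut (x, y, false) := by
    intro x hc
    unfold IsCut at hc
    simp only at hc
    omega
  rw [abs_le] at hε
  have m1 : (((x, y₀), 0) : LF) ∈ SL ζ (LAF L w d n)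
      ({((x, y, false), 0)} ∪ {((x', y, false), ε)}) := by
    refine ⟨?_, (x, y, false), hs x, ?_⟩
    · rw [mem_coe, mem_LAF, mem_AnF, abs_zero]
      simp only
      omega
    · unfold lft
      rw [if_neg (fun h => hcut x h.1)]
      exact mem_ML_of_mem (Or.inl rfl)
  have m2 : (((x', y₀), ε) : LF) ∈ SL ζ (LAF L w d n)
      ({((x, y, false), 0)} ∪ {((x', y, false), ε)}) := by
    refine ⟨?_, (x', y, false), hs x', ?_⟩
    · rw [mem_coe, mem_LAF, mem_AnF, abs_le]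
      simp only
      omega
    · unfold lft
      rw [if_neg (fun h => hcut x' h.1)]
      exact mem_ML_of_mem (Or.inr rfl)
  have h5 := hinj m1 m2 (by unfold pj; simp only [Prod.mk.injEq, and_true]; omega)
  simp only [Prod.mk.injEq] at h5
  exact hne (by rw [h5.1.1])

/-- The number of the pairs of lifted components is bounded by three times the number of the pairs
of components of the twisted plane. -/
theorem sum_pairL_le (hd : 0 ≤ d) (hdw : d < w) (hn1 : 1 ≤ n) (hn : n ≤ d - 2) {k : ℤ}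
    (hk : 1 < k) {r : ℤ} (hr : d + n + 1 ≤ r) (W : Finset (ℤ × ℤ)) :
    ∑ p ∈ ((TBF L w ×ˢ TBF L w).filter fun p => p.1 ≠ p.2) ×ˢ ({-1, 0, 1} : Finset ℤ),
        pr W {ω | lcf 1 ω ∈ PairL L w d n k p.1.1 p.1.2 p.2} ≤
      3 * ∑ q ∈ (TBT (L + 1) w ×ˢ TBT (L + 1) w).filter fun q => q.1 ≠ q.2,
        pr W {ω | ReachT ω (L + n) w r q.1 ∧ ReachT ω (L + n) w r q.2} := by
  have hw : 0 < w := by omega
  rw [sum_product_right]
  have h1 : ∀ ε ∈ ({-1, 0, 1} : Finset ℤ),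
      ∑ p ∈ (TBF L w ×ˢ TBF L w).filter (fun p => p.1 ≠ p.2),
        pr W {ω | lcf 1 ω ∈ PairL L w d n k p.1 p.2 ε} ≤
      ∑ q ∈ (TBT (L + 1) w ×ˢ TBT (L + 1) w).filter fun q => q.1 ≠ q.2,
        pr W {ω | ReachT ω (L + n) w r q.1 ∧ ReachT ω (L + n) w r q.2} := by
    intro ε hε
    have hε1 : |ε| ≤ 1 := by
      simp only [mem_insert, mem_singleton] at hε
      rw [abs_le]
      omega
    have hε2 := abs_le.1 hε1
    set P := (TBF L w ×ˢ TBF L w).filter (fun p => p.1 ≠ p.2) with hP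
    set Q := (TBT (L + 1) w ×ˢ TBT (L + 1) w).filter (fun q => q.1 ≠ q.2) with hQ
    set P' := P.filter fun p => pE (p.1, 0) ≠ pE (p.2, ε) with hP'
    have e1 : ∑ p ∈ P, pr W {ω | lcf 1 ω ∈ PairL L w d n k p.1 p.2 ε} =
        ∑ p ∈ P', pr W {ω | lcf 1 ω ∈ PairL L w d n k p.1 p.2 ε} := by
      symm
      refine sum_subset (filter_subset _ _) ?_
      intro p hp hp'
      refine pr_of_forall_notMem W ?_
      intro ω hω
      apply hp'
      rw [hP', mem_filter]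
      rw [hP, mem_filter, mem_product] at hp
      refine ⟨by rw [hP, mem_filter, mem_product]; exact hp, ?_⟩
      exact pE_ne hd hdw hn1 hk hp.1.1 hp.1.2 hp.2 hε1 hω
    rw [e1]
    have e2 : ∑ p ∈ P', pr W {ω | lcf 1 ω ∈ PairL L w d n k p.1 p.2 ε} ≤
        ∑ p ∈ P', pr W {ω | ReachT ω (L + n) w r (pE (p.1, 0)) ∧
          ReachT ω (L + n) w r (pE (p.2, ε))} := by
      refine sum_le_sum fun p hp => pr_mono W ?_
      rw [hP', mem_filter, hP, mem_filter, mem_product, mem_TBF, mem_TBF] at hp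
      intro ω hω
      exact ⟨reachT_of_rinL (by omega) hn hr (by omega) hω.2.1,
        reachT_of_rinL (by omega) hn hr (by omega) hω.2.2⟩
    refine e2.trans ?_
    have hinj : Set.InjOn (fun p : UE × UE => (pE (p.1, 0), pE (p.2, ε))) P' := by
      rintro ⟨p1, p2⟩ hp ⟨q1, q2⟩ hq he
      rw [hP', mem_coe, mem_filter, hP, mem_filter, mem_product] at hp hq
      simp only [Prod.mk.injEq] at he
      obtain ⟨he1, he2⟩ := he
      rw [pE_TBF hw hp.1.1.1, pE_TBF hw hq.1.1.1] at he1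
      rw [pE_TBF hw hp.1.1.2, pE_TBF hw hq.1.1.2] at he2
      have g1 := mem_TBF.1 hp.1.1.1
      have g2 := mem_TBF.1 hp.1.1.2
      have g3 := mem_TBF.1 hq.1.1.1
      have g4 := mem_TBF.1 hq.1.1.2
      obtain ⟨x1, y1, c1⟩ := p1
      obtain ⟨x2, y2, c2⟩ := p2
      obtain ⟨x3, y3, c3⟩ := q1
      obtain ⟨x4, y4, c4⟩ := q2
      simp only [Prod.mk.injEq] at he1 he2 g1 g2 g3 g4 ⊢
      refine ⟨⟨by omega, by omega, ?_⟩, by omega, by omega, ?_⟩
      · rw [g1.2.2.2, g3.2.2.2]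
      · rw [g2.2.2.2, g4.2.2.2]
    rw [← sum_image (s := P') (g := fun p : UE × UE => (pE (p.1, 0), pE (p.2, ε)))
      (f := fun q : TE × TE => pr W {ω | ReachT ω (L + n) w r q.1 ∧ ReachT ω (L + n) w r q.2})
      hinj]
    refine sum_le_sum_of_subset_of_nonneg ?_ fun _ _ _ => pr_nonneg _ _
    intro q hq
    obtain ⟨p, hp, rfl⟩ := mem_image.1 hq
    rw [hP', mem_filter, hP, mem_filter, mem_product] at hp
    rw [hQ, mem_filter, mem_product]
    refine ⟨⟨?_, ?_⟩, hp.2⟩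
    · have g1 := mem_TBF.1 hp.1.1.1
      rw [mem_TBT]
      refine ⟨p.1.1 + 0, by omega, ?_⟩
      rw [pE_TBF hw hp.1.1.1]
      rcases g1.2.2.1 with h | h <;> simp [h]
    · have g1 := mem_TBF.1 hp.1.1.2
      rw [mem_TBT]
      refine ⟨p.2.1 + ε, by omega, ?_⟩
      simp only
      rw [pE_TBF hw hp.1.1.2]
      rcases g1.2.2.1 with h | h <;> simp [h]
  refine (sum_le_sum h1).trans (le_of_eq ?_)
  rw [sum_const]
  simp

/-- The probability that two components which start at the upper or lower side reach the inner box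
and leave room for a corridor is at most three times the expected number of the pairs of components
in the twisted plane. -/
theorem pr_corr_le {D : ℤ} {m : ℕ} (hd : 1 < d) (hdw : d < w) (hL : 0 ≤ L) (hD2 : D ≤ 2 * d)
    (hmn : 2 * (m + 6) ≤ n) (hn : n ≤ d - 2) (hnD : 4 * n ≤ D) {r : ℤ} (hr : d + n + 1 ≤ r) :
    pr (RF (-L) L (-w) w) {ω | ∃ b ∈ TBF L w, ∃ b' ∈ TBF L w, b ≠ b' ∧ ω ∈ CorrEv L w d D m b b'} ≤
      3 * ∑ q ∈ (TBT (L + 1) w ×ˢ TBT (L + 1) w).filter fun q => q.1 ≠ q.2,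
        pr (RF (-(L + n)) (L + n) (-w) w)
          {ω | ReachT ω (L + n) w r q.1 ∧ ReachT ω (L + n) w r q.2} := by
  have h1 := pr_pairs_le (L := L) (w := w) (d := d) (D := D) (n := n) (k := 2) (m := m) hd hdw hL
    (by omega) hD2 (by norm_num) hmn (by omega)
  rw [show -L - n = -(L + n) by ring] at h1
  exact h1.trans (sum_pairL_le (by omega) hdw (by omega) hn (by norm_num) hr _)

end Pool.Agent.Perc3
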