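import Pool.Agent.Lib.MP_6bd702_perc3.TwArc
import Pool.Agent.Lib.MP_6bd702_perc3.S2Defs
import Pool.Agent.Lib.MP_6bd702_perc3.OneArmT
import Pool.Agent.Lib.MP_6bd702_perc3.TTside
import Pool.Agent.Lib.MP_6bd702_perc3.Duality

/-!
# T3: near touches of two legs across the corridor, lifting of two strands of the twisted plane to
the common cover: definitions

The legs `i`, `i + 1` bound the sector `i`; the corridor is on the other side (it contains the leg
`i + 2`): on the right of the leg `i` and on the left of the leg `i + 1`.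
-/

set_option autoImplicit false

namespace Pool.Agent.Perc.Q

open Finset Pool.Agent.Perc Relation

section general

variable {V Φ : Type}

/-- Two faces have a common side. -/
def AdjQ (Q : QC V Φ) (f g : Φ) : Prop :=
  ∃ k l, Q.c g l = Q.c f (k + 1) ∧ Q.c g (l + 1) = Q.c f k

/-- The faces which are visited by the strand with the bond on its right. -/
def VR (Q : QC V Φ) (ω : Φ → Bool) (F : Set Φ) (e : V × V) : Set Φ :=
  {f | f ∈ F ∧ ∃ k, (Q.c f k, Q.c f (k + 1)) ∈ Orb Q ω F e ∧ ω f = !ev k}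

/-- The faces which are visited by the strand with the bond on its left. -/
def VL (Q : QC V Φ) (ω : Φ → Bool) (F : Set Φ) (e : V × V) : Set Φ :=
  {f | f ∈ F ∧ ∃ k, (Q.c f k, Q.c f (k + 1)) ∈ Orb Q ω F e ∧ ω f = ev k}

/-- The faces of `X` outside `A` which are joined to `B` by a chain of at most `r` faces of `X`
outside `A`. -/
def Zn (Q : QC V Φ) (X A B : Set Φ) : ℕ → Set Φ
  | 0 => ∅
  | r + 1 => {f | f ∈ X ∧ f ∉ A ∧ ∃ g, AdjQ Q f g ∧ (g ∈ B ∨ g ∈ Zn Q X A B r)}

end general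

/-- The faces which are visited by the leg `i` in the box of radius `W`. -/
def VT (W : ℤ) (ω : Cfg) (i : Fin 3) : Set (ℤ × ℤ) := Vis TQ ω (An 0 W) (leg i)

/-- The faces of the annulus `BW w \ BW d` which are close to the leg `i` on its right side. -/
def ZT (r : ℕ) (d w W : ℤ) (ω : Cfg) (i : Fin 3) : Set (ℤ × ℤ) :=
  Zn TQ (An d w) (VT W ω i) (VR TQ ω (An 0 W) (leg i) ∩ An d w) r

/-- The explored faces: the leg `i`, and the leg `i + 1` until it comes close to the right side of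
the leg `i`. -/
def ET (r : ℕ) (d w W : ℤ) (ω : Cfg) (i : Fin 3) : Set (ℤ × ℤ) :=
  VT W ω i ∪ Vis TQ ω (An 0 W \ ZT r d w W ω i) (leg (i + 1))

/-- The leg `i + 1` comes close to the right side of the leg `i`. -/
def NT (r : ℕ) (d w W : ℤ) (i : Fin 3) : Set Cfg :=
  {ω | (VT W ω (i + 1) ∩ ZT r d w W ω i).Nonempty}

/-- The three legs reach the boundary of the box of radius `W`. -/
def Lea3 (W : ℤ) (ω : Cfg) : Prop := ∀ j : Fin 3, Lea 0 W ω (j : ℕ)

/-- The corner of the face `f` which is an end of its bond. -/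
def bnd (ω : Cfg) (f : ℤ × ℤ) : ℤ × ℤ := TQ.c f (if ω f = true then 0 else 1)

/-- The cut: the core edge from `(-2, 0)` to `(-1, 0)` and the vertical unit edges from `(x, 0)` to
`(x, 1)`, `x ≤ -2`. -/
def cutK (p q : ℤ × ℤ) : ZMod 2 :=
  if (p = (-2, 0) ∧ q = (-1, 0)) ∨ (q = (-2, 0) ∧ p = (-1, 0)) ∨
    (p.1 = q.1 ∧ p.1 ≤ -2 ∧ ((p.2 = 0 ∧ q.2 = 1) ∨ (q.2 = 0 ∧ p.2 = 1))) then 1 else 0

/-- The value of the potential `χ` at the bond of a face; the vertices of the cut are seen from the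
side of the face. -/
def hF (χ : ℤ × ℤ → ZMod 2) (ω : Cfg) (f : ℤ × ℤ) : ZMod 2 :=
  χ (bnd ω f) + if 0 ≤ f.2 ∧ (bnd ω f).2 = 0 ∧ (bnd ω f).1 ≤ -2 then 1 else 0

/-- `1` for the lower faces on the negative side. -/
def lv2 (x y : ℤ) : ZMod 2 := if x < 0 ∧ y < 0 then 1 else 0

/-- `h` has the monodromy of the cut on `S` and is otherwise constant at the scale `D`. -/
def SepH (D : ℤ) (S : Set (ℤ × ℤ)) (h : ℤ × ℤ → ZMod 2) : Prop :=
  ∀ s ∈ S, ∀ s' ∈ S, |s.1 - s'.1| ≤ D → |s.2 - s'.2| ≤ D →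
    h s' + lv2 s.1 s'.2 = h s + lv2 s.1 s.2

end Pool.Agent.Perc.Q

namespace Pool.Agent.Perc3

open Finset Pool.Agent.Perc Pool.Agent.Perc.Q Relation

/-- The face `f` is at distance more than `ρ` from `S`. -/
def FreeS (ρ : ℤ) (S : Set (ℤ × ℤ)) (f : ℤ × ℤ) : Prop :=
  ∀ s ∈ S, ρ < max |f.1 - s.1| |f.2 - s.2|

/-- Chains of neighbouring free faces. -/
def ChainS (ρ : ℤ) (S : Set (ℤ × ℤ)) : ℤ × ℤ → ℤ × ℤ → Prop :=
  Relation.ReflTransGen fun f g => Adj4 f g ∧ FreeS ρ S f ∧ FreeS ρ S g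

/-! ### Lifting -/

/-- The side `k` (from the corner `k` to the corner `k + 1`) of the face `f` of the square grid. -/
def sd (f : ℤ × ℤ) (k : ZMod 4) : UE :=
  if k = 0 then bo f else if k = 1 then ri f else if k = 2 then to' f else le' f

/-- The lift of the face `f` of the twisted plane with the index `N f`. -/
def shF (N : ℤ × ℤ → ℤ) (f : ℤ × ℤ) : LF := ((f.1 - N f, f.2), N f)

/-- The lift of the side `k` of the face `f`. -/
def shS (N : ℤ × ℤ → ℤ) (f : ℤ × ℤ) (k : ZMod 4) : LE := lft (shF N f) (sd (shF N f).1 k)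

/-- `N` is compatible with the cover on the faces of `X`. -/
def IsIndT (X : Set (ℤ × ℤ)) (N : ℤ × ℤ → ℤ) : Prop :=
  ∀ f ∈ X, ∀ g ∈ X, ∀ k l, TQ.c g l = TQ.c f (k + 1) → TQ.c g (l + 1) = TQ.c f k →
    shS N f k = shS N g l

/-- The lifted faces over the annulus `BW w \ BW d` of the twisted plane with index at most `n`. -/
noncomputable def LAT (d w n : ℤ) : Finset LF :=
  ((BW w \ BW d) ×ˢ Icc (-n) n).image fun p => ((p.1.1 - p.2, p.1.2), p.2)

theorem mem_LAT {d w n : ℤ} {s : LF} :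
    s ∈ LAT d w n ↔ (pj 1 s ∈ BW w ∧ pj 1 s ∉ BW d) ∧ |s.2| ≤ n := by
  unfold LAT pj
  rw [mem_image, abs_le]
  constructor
  · rintro ⟨⟨⟨x, y⟩, i⟩, hp, rfl⟩
    rw [mem_product, mem_sdiff, mem_Icc] at hp
    simp only at hp ⊢
    rw [one_mul, sub_add_cancel]
    exact hp
  · obtain ⟨⟨x, y⟩, i⟩ := s
    rintro ⟨h1, h2⟩
    simp only [one_mul] at h1 h2
    refine ⟨((x + i, y), i), ?_, ?_⟩
    · rw [mem_product, mem_sdiff, mem_Icc]
      exact ⟨h1, h2⟩
    · simp only [add_sub_cancel_right]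

/-- The boundary edge `t` of the box of radius `r` in the coordinates of its faces. -/
def bdU (r t : ℤ) : UE :=
  if t < r then (r, t, true)
  else if t < 3 * r + 2 then (2 * r - t - 1, r, false)
  else if t < 4 * r + 2 then (-(r + 2), 4 * r + 1 - t, true)
  else if t < 5 * r + 2 then (-(r + 1), 4 * r + 1 - t, true)
  else if t < 7 * r + 3 then (t - 6 * r - 3, -r, false)
  else (r, t - 8 * r - 3, true)

/-- The lift with index `i` of the boundary edge `t`. -/
def bdL (r t i : ℤ) : LE := (shE (-i) (bdU r t), i)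

/-- The lifted component of `e` reaches the inner box. -/
def RinT (ζ : LF → Bool) (d w n : ℤ) (e : LE) : Prop :=
  ∃ s i, (0 ≤ s ∧ s < 8 * d + 3) ∧ bdL d s i ∈ ML ζ (LAT d w n) {e}

/-- The lifted components of two starting edges on the boundary of `BW w`, with the indices `0` and
`ε`, reach the inner box, they avoid a corridor with at most `m` corners at distance `D`, and the
index of the visited faces is the index with respect to the corridor. -/
def PairT (L d₀ d w n D : ℤ) (m : ℕ) (t₁ t₂ ε : ℤ) : Set (LF → Bool) :=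
  {ζ | RinT ζ d w n (bdL w t₁ 0) ∧ RinT ζ d w n (bdL w t₂ ε) ∧
    ∃ (u : ℤ × ℤ) (l : List (ℤ × ℤ)) (μ : ℤ), Corr L L d₀ u l ∧ l.length ≤ m ∧
      |μ| ≤ m + 6 ∧ ∀ s ∈ SL ζ (LAT d w n) ({bdL w t₁ 0} ∪ {bdL w t₂ ε}), FarP D u l s.1 ∧
        s.2 = ind L L u l s.1 - μ}

end Pool.Agent.Perc3
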