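import Pool.Agent.Lib.MP_6bd702_perc3.TTside
import Pool.Agent.Lib.MP_6bd702_perc3.T2Mono
import Pool.Agent.Lib.MP_6bd702_perc3.Legs
import Pool.Agent.Lib.MP_6bd702_percw.LowMix

/-!
# The components of the strip which reach the inner box and the crossing strands of the annuli

A component which starts at the lower or upper side of the strip and reaches the box of radius `r`
contains a strand which crosses the annulus `BW w' \ BW r`, `w' < w`, from outside to inside, and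
different components contain different strands.
-/

set_option autoImplicit false

namespace Pool.Agent.Perc.TTBd

open Finset Pool.Agent.Perc Pool.Agent.Perc.Q Relation
open Pool.Agent.Perc3 (ReachT TBT mem_TBT)

variable {ω : Cfg} {F : Set (ℤ × ℤ)} {e p p' q a b t : TE} {f g : ℤ × ℤ} {r w w' L M : ℤ}

/-! ### Sides -/

theorem twE_bo (f : ℤ × ℤ) : twE emP f (bo f) = (TQ.c f 0, TQ.c f 1) := by
  change _ = (corT emP f 0, corT emP f 1)
  unfold twE corT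
  split_ifs <;> rfl

theorem twE_ri (f : ℤ × ℤ) : twE emP f (ri f) = (TQ.c f 1, TQ.c f 2) := by
  change _ = (corT emP f 1, corT emP f 2)
  unfold twE corT
  split_ifs <;> rfl

theorem twE_to (f : ℤ × ℤ) : twE emP f (to' f) = (TQ.c f 3, TQ.c f 2) := by
  change _ = (corT emP f 3, corT emP f 2)
  unfold twE corT
  split_ifs <;> rfl

theorem twE_le (f : ℤ × ℤ) : twE emP f (le' f) = (TQ.c f 0, TQ.c f 3) := by
  change _ = (corT emP f 0, corT emP f 3)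
  unfold twE corT
  split_ifs <;> rfl

theorem side_cases (h : IsSideW emP g p) :
    ∃ m, p = (TQ.c g m, TQ.c g (m + 1)) ∨ p = (TQ.c g (m + 1), TQ.c g m) := by
  obtain ⟨a, rfl | rfl | rfl | rfl, rfl⟩ := h
  · exact ⟨0, Or.inl (twE_bo g)⟩
  · exact ⟨3, Or.inr (twE_le g)⟩
  · exact ⟨2, Or.inr (twE_to g)⟩
  · exact ⟨1, Or.inl (twE_ri g)⟩

/-- The matching preserves the unit edges of a strand. -/
theorem un_step (he : Ini TQ F e) (hf : f ∈ F) (h : MtW emP ω f p p') (hp : p ∈ Un TQ ω F e) :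
    p' ∈ Un TQ ω F e := by
  obtain ⟨a, a', hm, rfl, rfl⟩ := h
  have s1 : ∀ k l, (TQ.c f k, TQ.c f l) ∈ Un TQ ω F e ↔ (TQ.c f l, TQ.c f k) ∈ Un TQ ω F e :=
    fun k l => (Un_swap (a := (TQ.c f l, TQ.c f k)))
  rcases hm with ⟨h0, h⟩ | ⟨h0, h⟩
  · have u0 := un_iff (k := 0) (ω := ω) he hf h0
    have u2 := un_iff (k := 2) (ω := ω) he hf h0
    change (TQ.c f 0, TQ.c f 1) ∈ _ ↔ (TQ.c f 1, TQ.c f 2) ∈ _ at u0
    change (TQ.c f 2, TQ.c f 3) ∈ _ ↔ (TQ.c f 3, TQ.c f 0) ∈ _ at u2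
    rcases h with ⟨rfl, rfl⟩ | ⟨rfl, rfl⟩ | ⟨rfl, rfl⟩ | ⟨rfl, rfl⟩
    · rw [twE_bo] at hp
      rw [twE_ri]
      exact u0.1 hp
    · rw [twE_ri] at hp
      rw [twE_bo]
      exact u0.2 hp
    · rw [twE_le, s1] at hp
      rw [twE_to, s1]
      exact u2.2 hp
    · rw [twE_to, s1] at hp
      rw [twE_le, s1]
      exact u2.1 hp
  · have u1 := un_iff (k := 1) (ω := ω) he hf h0
    have u3 := un_iff (k := 3) (ω := ω) he hf h0
    change (TQ.c f 1, TQ.c f 2) ∈ _ ↔ (TQ.c f 2, TQ.c f 3) ∈ _ at u1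
    change (TQ.c f 3, TQ.c f 0) ∈ _ ↔ (TQ.c f 0, TQ.c f 1) ∈ _ at u3
    rcases h with ⟨rfl, rfl⟩ | ⟨rfl, rfl⟩ | ⟨rfl, rfl⟩ | ⟨rfl, rfl⟩
    · rw [twE_bo] at hp
      rw [twE_le, s1]
      exact u3.2 hp
    · rw [twE_le, s1] at hp
      rw [twE_bo]
      exact u3.1 hp
    · rw [twE_to, s1] at hp
      rw [twE_ri]
      exact u1.2 hp
    · rw [twE_ri] at hp
      rw [twE_to, s1]
      exact u1.1 hp

theorem mmw_sub (he : Ini TQ F e) (ht : t ∈ Un TQ ω F e) (hp : p ∈ MMW emP ω F t) :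
    p ∈ Un TQ ω F e := by
  induction hp with
  | refl => exact ht
  | tail _ hs ih =>
    obtain ⟨f, hf, hm⟩ := hs
    exact un_step he hf hm ih

theorem left_of_nx {k : ZMod 4} (h : (ω f = ev k ∧ b = (TQ.c f (k + 2), TQ.c f (k + 1))) ∨
      (ω f = !ev k ∧ b = (TQ.c f k, TQ.c f (k + 3)))) :
    ∃ l, b = (TQ.c f (l + 1), TQ.c f l) := by
  rcases h with ⟨-, h⟩ | ⟨-, h⟩
  · exact ⟨k + 1, by rw [z1]; exact h⟩
  · exact ⟨k + 3, by rw [z5]; exact h⟩

/-- A strand outside the box which contains a side of the box enters the box. -/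
theorem entry (hr : 0 ≤ r) (hF : ∀ f ∈ F, f ∉ BW r)
    (hq : ∀ g ∈ BW r, ∀ m, q ≠ (TQ.c g m, TQ.c g (m + 1)) ∧ q ≠ (TQ.c g (m + 1), TQ.c g m))
    (ha : a ∈ Orb TQ ω F q) (hg : g ∈ BW r)
    (hs : ∃ m, a = (TQ.c g m, TQ.c g (m + 1)) ∨ a = (TQ.c g (m + 1), TQ.c g m)) :
    ∃ s, 0 ≤ s ∧ s < 8 * r + 3 ∧ ine r s ∈ Orb TQ ω F q := by
  obtain ⟨m, hs⟩ := hs
  rcases Orb_pred ha with rfl | ⟨b, -, f, hf, k, -, h⟩
  · exact absurd hs (not_or.2 (hq g hg m))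
  · obtain ⟨l, hl⟩ := left_of_nx h
    rcases hs with hs | hs
    · have h1 : (TQ.c f l, TQ.c f (l + 1)) = (TQ.c g (m + 1), TQ.c g m) := by
        rw [hs] at hl
        obtain ⟨h2, h3⟩ := Prod.mk.inj hl
        rw [h2, h3]
      obtain ⟨s, h2, h3, h4⟩ := ine_of_side hr hg (hF f hf) h1
      refine ⟨s, h2, h3, ?_⟩
      rw [← h4, ← hs]
      exact ha
    · exfalso
      rw [hs] at hl
      obtain ⟨h2, h3⟩ := Prod.mk.inj hl
      have h4 := (TQ.inj h3 h2).1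
      rw [h4] at hg
      exact hF f hf hg

/-- The last passage through the boundary of the box of radius `w'`. -/
theorem middle (hw : 0 ≤ w') (hF : ∀ f ∈ F, f ∉ BW r)
    (hq : ∀ g ∈ BW w', ∀ k, q ≠ (TQ.c g k, TQ.c g (k + 1))) (ha : a ∈ Orb TQ ω F q) :
    (∃ t, 0 ≤ t ∧ t < 8 * w' + 3 ∧ ine w' t ∈ Orb TQ ω F q ∧
      a ∈ Orb TQ ω (An r w') (ine w' t)) ∨ ∀ g ∈ BW w', ∀ k, a ≠ (TQ.c g k, TQ.c g (k + 1)) := by
  induction ha with
  | refl => exact Or.inr hq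
  | @tail b c hb hs ih =>
    obtain ⟨f, hf, k, hk, hh⟩ := hs
    obtain ⟨l, hl⟩ := left_of_nx hh
    have hc : c ∈ Orb TQ ω F q := Orb_step hb ⟨f, hf, k, hk, hh⟩
    by_cases hfw : f ∈ BW w'
    · rcases ih with ⟨t, h0, h1, h2, h3⟩ | ih
      · exact Or.inl ⟨t, h0, h1, h2, Orb_step h3 ⟨f, ⟨hfw, hF f hf⟩, k, hk, hh⟩⟩
      · exact absurd hk (ih f hfw k)
    · by_cases hex : ∃ g ∈ BW w', ∃ m, c = (TQ.c g m, TQ.c g (m + 1))
      · obtain ⟨g, hg, m, hm⟩ := hex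
        have h1 : (TQ.c f l, TQ.c f (l + 1)) = (TQ.c g (m + 1), TQ.c g m) := by
          rw [hm] at hl
          obtain ⟨h2, h3⟩ := Prod.mk.inj hl
          rw [h2, h3]
        obtain ⟨s, h2, h3, h4⟩ := ine_of_side hw hg hfw h1
        have h5 : c = ine w' s := by rw [← h4, ← hm]
        refine Or.inl ⟨s, h2, h3, ?_, ?_⟩
        · rw [← h5]; exact hc
        · rw [h5]; exact mem_Orb_self
      · push Not at hex
        exact Or.inr hex

/-! ### The starting edges -/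

/-- The inward direction of an edge of the lower or upper side of the strip. -/
def ori (t : TE) : TE := if t.1.2 < 0 then t else t.swap

theorem ori_bot {x : ℤ} (hw : 0 < w) : ori ((x, -w), (x + 1, -w)) = ((x, -w), (x + 1, -w)) :=
  if_pos (by simp only; omega)

theorem ori_top {x : ℤ} (hw : 0 < w) : ori ((x, w), (x + 1, w)) = ((x + 1, w), (x, w)) :=
  if_neg (by simp only; omega)

theorem ori_inj (hw : 0 < w) {t t' : TE} (ht : t ∈ TBT M w) (ht' : t' ∈ TBT M w)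
    (h : ori t = ori t') : t = t' := by
  rw [mem_TBT] at ht ht'
  obtain ⟨x, -, rfl | rfl⟩ := ht <;> obtain ⟨x', -, rfl | rfl⟩ := ht' <;>
    simp only [ori_bot hw, ori_top hw, Prod.mk.injEq, and_true] at h ⊢ <;> omega

theorem ini_ori (hw : 0 < w) (ht : t ∈ TBT M w) (hF : ∀ f ∈ F, -w ≤ f.2 ∧ f.2 < w) :
    Ini TQ F (ori t) := by
  rw [mem_TBT] at ht
  intro f hf k h
  have hf' := hF f hf
  obtain ⟨a1, b1, e1, y1, x1⟩ := BdAux.c_spec f k
  obtain ⟨a2, b2, e2, y2, x2⟩ := BdAux.c_spec f (k + 1)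
  obtain ⟨x, -, rfl | rfl⟩ := ht
  · rw [ori_bot hw] at h
    obtain ⟨h3, h4⟩ := Prod.mk.inj h
    rw [← h3] at y2 x2
    rw [← h4] at y1 x1
    rcases BdAux.zk k with rfl | rfl | rfl | rfl <;>
    simp only [BdAux.zk0, BdAux.zk1, BdAux.zk2, BdAux.zk3, BdAux.zn01, BdAux.zn02, BdAux.zn03,
      BdAux.zn10, BdAux.zn12, BdAux.zn13, BdAux.zn20, BdAux.zn21, BdAux.zn23, BdAux.zn30,
      BdAux.zn31, BdAux.zn32, false_and, true_and, or_false, false_or] at e1 e2 <;>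
    obtain ⟨rfl, rfl⟩ := e1 <;> obtain ⟨rfl, rfl⟩ := e2 <;> simp only at x1 x2 y1 y2 <;> omega
  · rw [ori_top hw] at h
    obtain ⟨h3, h4⟩ := Prod.mk.inj h
    rw [← h3] at y2 x2
    rw [← h4] at y1 x1
    rcases BdAux.zk k with rfl | rfl | rfl | rfl <;>
    simp only [BdAux.zk0, BdAux.zk1, BdAux.zk2, BdAux.zk3, BdAux.zn01, BdAux.zn02, BdAux.zn03,
      BdAux.zn10, BdAux.zn12, BdAux.zn13, BdAux.zn20, BdAux.zn21, BdAux.zn23, BdAux.zn30,
      BdAux.zn31, BdAux.zn32, false_and, true_and, or_false, false_or] at e1 e2 <;>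
    obtain ⟨rfl, rfl⟩ := e1 <;> obtain ⟨rfl, rfl⟩ := e2 <;> simp only at x1 x2 y1 y2 <;> omega

/-- The starting edge is not a side of a face of the box. -/
theorem ori_ne (hw' : 0 ≤ w') (hw : w' < w) (ht : t ∈ TBT M w) (hg : g ∈ BW w') (k : ZMod 4)
    (v : ℤ × ℤ) : ori t ≠ (TQ.c g k, v) ∧ ori t ≠ (v, TQ.c g k) := by
  have h1 := inW_corner hw' hg k
  rw [mem_TBT] at ht
  unfold InW at h1
  obtain ⟨x, -, rfl | rfl⟩ := ht
  · rw [ori_bot (by omega)]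
    constructor
    · intro h
      rw [← (Prod.mk.inj h).1] at h1
      simp only at h1
      omega
    · intro h
      rw [← (Prod.mk.inj h).2] at h1
      simp only at h1
      omega
  · rw [ori_top (by omega)]
    constructor
    · intro h
      rw [← (Prod.mk.inj h).1] at h1
      simp only at h1
      omega
    · intro h
      rw [← (Prod.mk.inj h).2] at h1
      simp only at h1
      omega

theorem self_un (t : TE) : t ∈ Un TQ ω F (ori t) := by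
  unfold ori
  split_ifs
  · exact Or.inl mem_Orb_self
  · exact Or.inr mem_Orb_self

/-- A component which reaches the inner box contains a crossing strand. -/
theorem exists_rea (hr : 0 < r) (hrw : r < w') (hw : w' < w) (ht : t ∈ TBT M w)
    (h : ReachT ω L w r t) :
    ∃ s, 0 ≤ s ∧ s < 8 * w' + 3 ∧ Rea r w' ω s ∧
      ine w' s ∈ Orb TQ ω (RF (-L) L (-w) w \ BW r : Finset (ℤ × ℤ)) (ori t) := by
  obtain ⟨p, hp, g, hg, hs⟩ := h
  set F : Set (ℤ × ℤ) := ((RF (-L) L (-w) w \ BW r : Finset (ℤ × ℤ)) : Set (ℤ × ℤ)) with hFd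
  have hF : ∀ f ∈ F, f ∉ BW r := by
    intro f hf
    rw [hFd, mem_coe, mem_sdiff] at hf
    exact hf.2
  have hF2 : ∀ f ∈ F, -w ≤ f.2 ∧ f.2 < w := by
    intro f hf
    rw [hFd, mem_coe, mem_sdiff, mem_RF] at hf
    exact ⟨hf.1.2.2.1, hf.1.2.2.2⟩
  have hini : Ini TQ F (ori t) := ini_ori (by omega) ht hF2
  have hpu : p ∈ Un TQ ω F (ori t) := mmw_sub hini (self_un t) hp
  obtain ⟨m, hm⟩ := side_cases hs
  have hne : ∀ g ∈ BW r, ∀ m, ori t ≠ (TQ.c g m, TQ.c g (m + 1)) ∧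
      ori t ≠ (TQ.c g (m + 1), TQ.c g m) := fun g hg m =>
    ⟨(ori_ne hr.le (hrw.trans hw) ht hg m _).1, (ori_ne hr.le (hrw.trans hw) ht hg m _).2⟩
  obtain ⟨s, hs0, hs1, hs2⟩ : ∃ s, 0 ≤ s ∧ s < 8 * r + 3 ∧ ine r s ∈ Orb TQ ω F (ori t) := by
    rcases hpu with h1 | h1
    · exact entry hr.le hF hne h1 hg ⟨m, hm⟩
    · refine entry hr.le hF hne h1 hg ⟨m, ?_⟩
      rcases hm with hm | hm
      · right; rw [hm]; rfl
      · left; rw [hm]; rfl
  rcases middle (w' := w') (by omega) hF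
    (fun g hg k => (ori_ne (by omega) hw ht hg k _).1) hs2 with ⟨x, h0, h1, h2, h3⟩ | h
  · exact ⟨x, h0, h1, ⟨s, hs0, hs1, h3⟩, h2⟩
  · exfalso
    obtain ⟨g', hg', -, k, hk⟩ := ine_face hr hs0 hs1
    exact h g' (BW_mono hrw.le hg') k hk

/-! ### The sum -/

theorem sum_ite_le {α β : Type} {I : Finset α} {J : Finset β} {P : α → Prop} {P' : β → Prop}
    {dP : DecidablePred P} {dP' : DecidablePred P'} (f : α → β)
    (h1 : ∀ i ∈ I, P i → f i ∈ J ∧ P' (f i))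
    (h2 : ∀ i ∈ I, ∀ j ∈ I, P i → P j → f i = f j → i = j) :
    ∑ i ∈ I, (if P i then (1 : ℝ) else 0) ≤ ∑ j ∈ J, if P' j then (1 : ℝ) else 0 := by
  rw [Finset.sum_boole, Finset.sum_boole]
  refine Nat.cast_le.2 (Finset.card_le_card_of_injOn f ?_ ?_)
  · intro i hi
    rw [mem_coe, mem_filter] at hi ⊢
    exact h1 i hi.1 hi.2
  · intro i hi j hj he
    rw [mem_coe, mem_filter] at hi hj
    exact h2 i hi.1 j hj.1 hi.2 hj.2 he

theorem depOn_rea2 (d w s s' : ℤ) :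
    DepOn (BW w : Set (ℤ × ℤ)) {ω | Rea d w ω s ∧ Rea d w ω s'} := by
  intro ω ω' h
  exact and_congr (rea_congr fun f hf => h f hf.1) (rea_congr fun f hf => h f hf.1)

/-- The expected number of pairs of components of the strip is at most the expected number of pairs
of crossing strands. -/
theorem sum_reach_le (hr : 0 < r) (hrw : r < w') (hw : w' < w) (hL : w' + 2 ≤ L) :
    ∑ q ∈ (TBT M w ×ˢ TBT M w).filter fun q => q.1 ≠ q.2,
      pr (RF (-L) L (-w) w) {ω | ReachT ω L w r q.1 ∧ ReachT ω L w r q.2} ≤ nT r w' := by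
  classical
  have hsub : BW w' ⊆ RF (-L) L (-w) w := by
    intro f hf
    rw [BdAux.mem_BW] at hf
    rw [mem_RF]
    omega
  have e1 : nT r w' = ∑ p ∈ ((Ico (0 : ℤ) (8 * w' + 3)) ×ˢ Ico (0 : ℤ) (8 * w' + 3)).filter
      (fun p => p.1 ≠ p.2), pr (RF (-L) L (-w) w) {ω | Rea r w' ω p.1 ∧ Rea r w' ω p.2} := by
    unfold nT
    exact Finset.sum_congr rfl fun p _ => (pr_eq_of_depOn (depOn_rea2 r w' p.1 p.2) hsub).symm
  rw [e1, PercL.sum_pr_eq, PercL.sum_pr_eq]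
  refine div_le_div_of_nonneg_right (Finset.sum_le_sum fun T _ => ?_) (by positivity)
  generalize cfg T = ω
  -- the choice of the strand
  have key : ∀ t : TE, ∃ s : ℤ, t ∈ TBT M w → ReachT ω L w r t →
      0 ≤ s ∧ s < 8 * w' + 3 ∧ Rea r w' ω s ∧
        ine w' s ∈ Orb TQ ω (RF (-L) L (-w) w \ BW r : Finset (ℤ × ℤ)) (ori t) := by
    intro t
    by_cases h : t ∈ TBT M w ∧ ReachT ω L w r t
    · obtain ⟨s, hs⟩ := exists_rea hr hrw hw h.1 h.2
      exact ⟨s, fun _ _ => hs⟩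
    · exact ⟨0, fun h1 h2 => absurd ⟨h1, h2⟩ h⟩
  choose g hg using key
  have hF2 : ∀ f ∈ ((RF (-L) L (-w) w \ BW r : Finset (ℤ × ℤ)) : Set (ℤ × ℤ)),
      -w ≤ f.2 ∧ f.2 < w := by
    intro f hf
    rw [mem_coe, mem_sdiff, mem_RF] at hf
    exact ⟨hf.1.2.2.1, hf.1.2.2.2⟩
  have hinj : ∀ t t', t ∈ TBT M w → t' ∈ TBT M w → ReachT ω L w r t → ReachT ω L w r t' →
      g t = g t' → t = t' := by
    intro t t' ht ht' h h' he
    have h1 := (hg t ht h).2.2.2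
    have h2 := (hg t' ht' h').2.2.2
    rw [he] at h1
    exact ori_inj (by omega) ht ht' (LegsAux.orb_eq (ini_ori (by omega) ht hF2)
      (ini_ori (by omega) ht' hF2) h1 h2)
  refine sum_ite_le (fun q => (g q.1, g q.2)) ?_ ?_
  · intro q hq hR
    rw [mem_filter, mem_product] at hq
    obtain ⟨⟨h1, h2⟩, h3⟩ := hq
    obtain ⟨h4, h5⟩ := hR
    have a1 := hg q.1 h1 h4
    have a2 := hg q.2 h2 h5
    rw [mem_filter, mem_product, mem_Ico, mem_Ico]
    exact ⟨⟨⟨⟨a1.1, a1.2.1⟩, a2.1, a2.2.1⟩, fun h => h3 (hinj _ _ h1 h2 h4 h5 h)⟩,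
      a1.2.2.1, a2.2.2.1⟩
  · intro q hq q' hq' hR hR' he
    rw [mem_filter, mem_product] at hq hq'
    obtain ⟨⟨h1, h2⟩, h3⟩ := hq
    obtain ⟨⟨h1', h2'⟩, h3'⟩ := hq'
    obtain ⟨h4, h5⟩ := hR
    obtain ⟨h4', h5'⟩ := hR'
    obtain ⟨e2, e3⟩ := Prod.mk.inj he
    exact Prod.ext (hinj _ _ h1 h1' h4 h4' e2) (hinj _ _ h2 h2' h5 h5' e3)

end Pool.Agent.Perc.TTBd
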