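import Pool.Agent.Lib.MP_6bd702_perc3.TriR

/-!
# Contraction at the common sites (task TriA)

All four statements follow from `PR.contract` (for the second and the fourth one with the roles of
the two involutions exchanged, `PR.comm`); the `D`-nodes are shifted by two. For `B2`:
`dnO (n + 2) (insL i s)` is obtained from `dnO n s` by insertion, since `i + 1 < n + 2`.
-/

set_option autoImplicit false

namespace Pool.Agent.Perc

open Finset

variable {n i : ℕ} {s : St} {p : ℕ → ℕ}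

namespace TriA

open PatB

variable {N : ℕ}

/-- `u₀` arises from `u` by closing the sites `i`, `i + 1` and removing them. -/
structure Cap (i : ℕ) (u u₀ : St) : Prop where
  u1 : ∀ x, u.1 (sh i x) ≠ i → u.1 (sh i x) ≠ i + 1 →
    sh i (u₀.1 x) = u.1 (sh i x) ∧ u₀.2 x = u.2 (sh i x)
  u2 : ∀ x, u.1 (sh i x) = i → u.1 (i + 1) ≠ i + 1 →
    sh i (u₀.1 x) = u.1 (i + 1) ∧ u₀.2 x = xor (u.2 i) (u.2 (i + 1))
  u3 : ∀ x, u.1 (sh i x) = i → u.1 (i + 1) = i + 1 → u₀.1 x = x ∧ u₀.2 x = false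
  u4 : ∀ x, u.1 (sh i x) = i + 1 → u.1 i ≠ i →
    sh i (u₀.1 x) = u.1 i ∧ u₀.2 x = xor (u.2 i) (u.2 (i + 1))
  u5 : ∀ x, u.1 (sh i x) = i + 1 → u.1 i = i → u₀.1 x = x ∧ u₀.2 x = false

/-- `d` is `d₀` with a small arc at `i`, `i + 1`. -/
structure Ins (i : ℕ) (d d₀ : St) : Prop where
  d1 : d.1 i = i + 1
  d2 : d.2 i = false
  d3 : ∀ x, d.1 (sh i x) = sh i (d₀.1 x) ∧ d.2 (sh i x) = d₀.2 x

theorem labO_ins_sh (h : NCO N p) (hi : i ≤ N) (x : ℕ) :
    labO (insArc i p) (sh i x) = labO p x := by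
  unfold sh
  by_cases hx : x < i
  · rw [if_pos hx, labO_insArc_lt h hi hx]
  · rw [if_neg hx, labO_insArc_ge h hi (by omega)]

theorem capO_sh (h : NCO (N + 2) p) (hi : i ≤ N) (x : ℕ) :
    sh i (capO i p x) = eO i p (sh i x) := by
  rw [← insArc_capO h (by omega), ins_sh]

theorem labO_capO (h : NCO (N + 2) p) (hi : i ≤ N) (x : ℕ) :
    labO (capO i p) x = labO (eO i p) (sh i x) := by
  rw [← insArc_capO h (by omega), labO_ins_sh (h.capO (by omega)) hi]

theorem Cap.up (h : NCO (N + 2) p) (hi : i ≤ N) : Cap i (upO p) (upO (capO i p)) := by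
  have hsw : ∀ {x y : ℕ}, p x = y ↔ p y = x := fun {x y} => h.swap
  constructor
  · intro x h1 h2
    have h1' : p (sh i x) ≠ i := h1
    have h2' : p (sh i x) ≠ i + 1 := h2
    refine ⟨?_, ?_⟩
    · show sh i (capO i p x) = p (sh i x)
      rw [capO_sh h hi, OStA.eO_other p sh_ne sh_ne' h1' h2']
    · show labO (capO i p) x = labO p (sh i x)
      rw [labO_capO h hi, labO_eO_other h (by omega) sh_ne sh_ne' h1' h2']
  · intro x h1 h2
    have h1' : p (sh i x) = i := h1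
    have h2' : p (i + 1) ≠ i + 1 := h2
    have h3 : p i ≠ i := by
      rw [hsw.1 h1']; exact sh_ne
    refine ⟨?_, ?_⟩
    · show sh i (capO i p x) = p (i + 1)
      rw [capO_sh h hi, OStA.eO_a p sh_ne sh_ne' h1', if_neg h2']
    · show labO (capO i p) x = xor (labO p i) (labO p (i + 1))
      rw [labO_capO h hi, labO_eO_mid h (by omega) sh_ne sh_ne' (Or.inl h1') h3 h2']
  · intro x h1 h2
    have h1' : p (sh i x) = i := h1
    have h2' : p (i + 1) = i + 1 := h2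
    have h4 : capO i p x = x := by
      rw [← sh_inj (i := i), capO_sh h hi, OStA.eO_a p sh_ne sh_ne' h1', if_pos h2']
    exact ⟨h4, labO_fix h4⟩
  · intro x h1 h2
    have h1' : p (sh i x) = i + 1 := h1
    have h2' : p i ≠ i := h2
    have h3 : p (i + 1) ≠ i + 1 := by
      rw [hsw.1 h1']; exact sh_ne'
    refine ⟨?_, ?_⟩
    · show sh i (capO i p x) = p i
      rw [capO_sh h hi, OStA.eO_b p sh_ne sh_ne' h1', if_neg h2']
    · show labO (capO i p) x = xor (labO p i) (labO p (i + 1))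
      rw [labO_capO h hi, labO_eO_mid h (by omega) sh_ne sh_ne' (Or.inr h1') h2' h3]
  · intro x h1 h2
    have h1' : p (sh i x) = i + 1 := h1
    have h2' : p i = i := h2
    have h4 : capO i p x = x := by
      rw [← sh_inj (i := i), capO_sh h hi, OStA.eO_b p sh_ne sh_ne' h1', if_pos h2']
    exact ⟨h4, labO_fix h4⟩

theorem capL_sh (h : IsAnn (N + 2) s) (hi : i ≤ N) (x : ℕ) :
    sh i ((capL i s).1 x) = (eL i s).1 (sh i x) := by
  rw [← insL_capL h hi]
  exact (ins_sh i _ x).symm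

theorem Cap.low (h : IsAnn (N + 2) s) (hi : i ≤ N) : Cap i s (capL i s) := by
  have hl : ∀ x, (capL i s).2 x = (eL i s).2 (sh i x) := fun x => rfl
  have hsw : ∀ {x y : ℕ}, s.1 x = y → s.1 y = x := by
    intro x y e
    rw [← e, h.nc.inv]
  constructor
  · intro x h1 h2
    refine ⟨?_, ?_⟩
    · rw [capL_sh h hi]
      show eAct i s.1 (sh i x) = _
      unfold eAct
      rw [if_neg sh_ne, if_neg sh_ne', if_neg h1, if_neg h2]
    · rw [hl, QStB.eL_lab3 i s (by rintro (h3 | h3); exacts [sh_ne h3, sh_ne' h3])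
        (by rintro (h3 | h3); exacts [h1 h3, h2 h3])]
  · intro x h1 h2
    refine ⟨?_, ?_⟩
    · rw [capL_sh h hi]
      show eAct i s.1 (sh i x) = _
      unfold eAct
      rw [if_neg sh_ne, if_neg sh_ne', if_pos h1]
    · rw [hl, QStB.eL_lab2 i s (by rintro (h3 | h3); exacts [sh_ne h3, sh_ne' h3]) (Or.inl h1)]
  · intro x h1 h2
    exact absurd h2 (h.nc.ne (i + 1) (by omega))
  · intro x h1 h2
    refine ⟨?_, ?_⟩
    · rw [capL_sh h hi]
      show eAct i s.1 (sh i x) = _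
      unfold eAct
      rw [if_neg sh_ne, if_neg sh_ne', if_neg (by omega), if_pos h1]
    · rw [hl, QStB.eL_lab2 i s (by rintro (h3 | h3); exacts [sh_ne h3, sh_ne' h3]) (Or.inr h1)]
  · intro x h1 h2
    exact absurd h2 (h.nc.ne i (by omega))

theorem Ins.low (i : ℕ) (s : St) : Ins i (insL i s) s :=
  ⟨ins_left i _, QStA.insL_left i s, fun x => ⟨ins_sh i _ x, QStA.insL_sh i s x⟩⟩

theorem Ins.up (h : NCO N p) (hi : i ≤ N) : Ins i (upO (insArc i p)) (upO p) :=
  ⟨ins_left i _, labO_insArc_left h hi, fun x => ⟨ins_sh i _ x, labO_ins_sh h hi x⟩⟩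

theorem swap_lt {x : ℕ} (n : ℕ) (h : x < n) : Equiv.swap n (n + 2) x = x :=
  Equiv.swap_apply_of_ne_of_ne (by omega) (by omega)

theorem swap_sh (hi : i ≤ n) (x : ℕ) :
    Equiv.swap (n + 2) (n + 2 + 2) (sh i x) = sh i (Equiv.swap n (n + 2) x) := by
  have e1 : sh i n = n + 2 := by unfold sh; rw [if_neg (by omega)]
  have e2 : sh i (n + 2) = n + 2 + 2 := by unfold sh; rw [if_neg (by omega)]
  by_cases h1 : x = n
  · subst h1
    rw [e1, Equiv.swap_apply_left, Equiv.swap_apply_left, e2]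
  · by_cases h2 : x = n + 2
    · subst h2
      rw [e2, Equiv.swap_apply_right, Equiv.swap_apply_right, e1]
    · rw [Equiv.swap_apply_of_ne_of_ne h1 h2, Equiv.swap_apply_of_ne_of_ne]
      · rw [← e1, Ne, sh_inj]; exact h1
      · rw [← e2, Ne, sh_inj]; exact h2

theorem Ins.dn (hi : i ≤ n) {d d₀ : St} (h : Ins i d d₀) :
    Ins i (dnO (n + 2) d) (dnO n d₀) := by
  have a1 : Equiv.swap (n + 2) (n + 2 + 2) i = i := swap_lt (n + 2) (by omega)
  have a2 : Equiv.swap (n + 2) (n + 2 + 2) (i + 1) = i + 1 := swap_lt (n + 2) (by omega)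
  refine ⟨?_, ?_, fun x => ⟨?_, ?_⟩⟩
  · show Equiv.swap (n + 2) (n + 2 + 2) (d.1 (Equiv.swap (n + 2) (n + 2 + 2) i)) = i + 1
    rw [a1, h.d1, a2]
  · show d.2 (Equiv.swap (n + 2) (n + 2 + 2) i) = false
    rw [a1, h.d2]
  · show Equiv.swap (n + 2) (n + 2 + 2) (d.1 (Equiv.swap (n + 2) (n + 2 + 2) (sh i x))) =
      sh i (Equiv.swap n (n + 2) (d₀.1 (Equiv.swap n (n + 2) x)))
    rw [swap_sh hi, (h.d3 _).1, swap_sh hi]
  · show d.2 (Equiv.swap (n + 2) (n + 2 + 2) (sh i x)) = d₀.2 (Equiv.swap n (n + 2) x)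
    rw [swap_sh hi, (h.d3 _).2]

theorem Cap.dn (hi : i ≤ n) {u u₀ : St} (h : Cap i u u₀) :
    Cap i (dnO (n + 2) u) (dnO n u₀) := by
  have a1 : Equiv.swap (n + 2) (n + 2 + 2) i = i := swap_lt (n + 2) (by omega)
  have a2 : Equiv.swap (n + 2) (n + 2 + 2) (i + 1) = i + 1 := swap_lt (n + 2) (by omega)
  have b1 : ∀ y, Equiv.swap (n + 2) (n + 2 + 2) y = i ↔ y = i := by
    intro y
    constructor
    · intro e
      have := congrArg (Equiv.swap (n + 2) (n + 2 + 2)) e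
      rwa [Equiv.swap_apply_self, a1] at this
    · rintro rfl; exact a1
  have b2 : ∀ y, Equiv.swap (n + 2) (n + 2 + 2) y = i + 1 ↔ y = i + 1 := by
    intro y
    constructor
    · intro e
      have := congrArg (Equiv.swap (n + 2) (n + 2 + 2)) e
      rwa [Equiv.swap_apply_self, a2] at this
    · rintro rfl; exact a2
  have c1 : ∀ x, (dnO (n + 2) u).1 (sh i x) =
      Equiv.swap (n + 2) (n + 2 + 2) (u.1 (sh i (Equiv.swap n (n + 2) x))) := by
    intro x
    rw [← swap_sh hi]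
    rfl
  have c2 : ∀ x, (dnO (n + 2) u).2 (sh i x) = u.2 (sh i (Equiv.swap n (n + 2) x)) := by
    intro x
    rw [← swap_sh hi]
    rfl
  have c3 : (dnO (n + 2) u).1 i = Equiv.swap (n + 2) (n + 2 + 2) (u.1 i) := by
    show Equiv.swap (n + 2) (n + 2 + 2) (u.1 (Equiv.swap (n + 2) (n + 2 + 2) i)) = _
    rw [a1]
  have c4 : (dnO (n + 2) u).1 (i + 1) = Equiv.swap (n + 2) (n + 2 + 2) (u.1 (i + 1)) := by
    show Equiv.swap (n + 2) (n + 2 + 2) (u.1 (Equiv.swap (n + 2) (n + 2 + 2) (i + 1))) = _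
    rw [a2]
  have c5 : (dnO (n + 2) u).2 i = u.2 i := by
    show u.2 (Equiv.swap (n + 2) (n + 2 + 2) i) = _
    rw [a1]
  have c6 : (dnO (n + 2) u).2 (i + 1) = u.2 (i + 1) := by
    show u.2 (Equiv.swap (n + 2) (n + 2 + 2) (i + 1)) = _
    rw [a2]
  have c7 : ∀ x, sh i ((dnO n u₀).1 x) =
      Equiv.swap (n + 2) (n + 2 + 2) (sh i (u₀.1 (Equiv.swap n (n + 2) x))) := by
    intro x
    rw [swap_sh hi]
    rfl
  have c8 : ∀ x, (dnO n u₀).2 x = u₀.2 (Equiv.swap n (n + 2) x) := fun x => rfl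
  have c9 : ∀ x, u₀.1 (Equiv.swap n (n + 2) x) = Equiv.swap n (n + 2) x →
      (dnO n u₀).1 x = x := by
    intro x e
    show Equiv.swap n (n + 2) (u₀.1 (Equiv.swap n (n + 2) x)) = x
    rw [e, Equiv.swap_apply_self]
  constructor
  · intro x h1 h2
    rw [c1, Ne, b1] at h1
    rw [c1, Ne, b2] at h2
    obtain ⟨h3, h4⟩ := h.u1 _ h1 h2
    exact ⟨by rw [c7, c1, h3], by rw [c8, c2, h4]⟩
  · intro x h1 h2
    rw [c1, b1] at h1
    rw [c4, Ne, b2] at h2
    obtain ⟨h3, h4⟩ := h.u2 _ h1 h2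
    exact ⟨by rw [c7, c4, h3], by rw [c8, c5, c6, h4]⟩
  · intro x h1 h2
    rw [c1, b1] at h1
    rw [c4, b2] at h2
    obtain ⟨h3, h4⟩ := h.u3 _ h1 h2
    exact ⟨c9 x h3, by rw [c8, h4]⟩
  · intro x h1 h2
    rw [c1, b2] at h1
    rw [c3, Ne, b1] at h2
    obtain ⟨h3, h4⟩ := h.u4 _ h1 h2
    exact ⟨by rw [c7, c3, h3], by rw [c8, c5, c6, h4]⟩
  · intro x h1 h2
    rw [c1, b2] at h1
    rw [c3, b1] at h2
    obtain ⟨h3, h4⟩ := h.u5 _ h1 h2
    exact ⟨c9 x h3, by rw [c8, h4]⟩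

theorem tri_comm (n : ℕ) (u d : St) : Tri n u d ↔ Tri n d u := by
  unfold Tri
  constructor <;> rintro ⟨a, b, h1, h2, h3, h4, h5, h6⟩ <;>
    exact ⟨a, b, h1, h2, h3, h4, h5, (PR.comm _ _ _ _).1 h6⟩

theorem tri_iff {u d u₀ d₀ : St} (hu : LInv u) (hd : LInv d) (hu₀ : LInv u₀) (hd₀ : LInv d₀)
    (hi : i ≤ n) (hC : Cap i u u₀) (hI : Ins i d d₀) : Tri (n + 2) u d ↔ Tri n u₀ d₀ := by
  have key : ∀ {x y : ℕ} {ε δ : Bool},
      PR u d (sh i x, ε) (sh i y, δ) ↔ PR u₀ d₀ (x, ε) (y, δ) := fun {x y ε δ} =>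
    PR.contract hu hd i hI.d1 hI.d2 hI.d3 hC.u1 hC.u2 hC.u3 hC.u4 hC.u5
  have e : ∀ x, n ≤ x → sh i x = x + 2 := by
    intro x hx
    unfold sh
    rw [if_neg (by omega)]
  constructor
  · rintro ⟨a, b, h1, h2, h3, h4, h5, h6⟩
    refine ⟨a - 2, b - 2, by omega, by omega, by omega, by omega, by omega, ?_⟩
    rw [← key, e _ (by omega), e _ (by omega), Nat.sub_add_cancel (by omega),
      Nat.sub_add_cancel (by omega)]
    exact h6
  · rintro ⟨a, b, h1, h2, h3, h4, h5, h6⟩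
    refine ⟨a + 2, b + 2, by omega, by omega, by omega, by omega, by omega, ?_⟩
    rw [← key, e _ h1, e _ h3] at h6
    exact h6

end TriA

open TriA

theorem B3_insL (hs : IsAnn n s) (hp : NCO (n + 5) p) (hi : i ≤ n) :
    B3 (n + 2) (insL i s) p = B3 n s (capO i p) := by
  have hc : NCO (n + 3) (capO i p) := hp.capO (by omega)
  have key := tri_iff (LInv.upO hp) (LInv.ann (hs.insL hi)) (LInv.upO hc) (LInv.ann hs) hi
    (Cap.up (N := n + 3) hp (by omega)) (Ins.low i s)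
  unfold B3
  classical exact if_congr key rfl rfl

theorem B3_insArc (hs : IsAnn (n + 2) s) (hp : NCO (n + 3) p) (hi : i ≤ n) :
    B3 (n + 2) s (insArc i p) = B3 n (capL i s) p := by
  have hp' : NCO (n + 3 + 2) (insArc i p) := hp.insArc (by omega)
  have key := tri_iff (LInv.ann hs) (LInv.upO hp') (LInv.ann (hs.capL hi)) (LInv.upO hp) hi
    (Cap.low hs hi) (Ins.up hp (by omega))
  unfold B3
  rw [tri_comm (n + 2), tri_comm n] at key
  classical exact if_congr key rfl rfl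

theorem B2_insL (hs : IsAnn (n + 1) s) (hp : NCO (n + 4) p) (hi : i ≤ n) :
    B2 (n + 2) (insL i s) p = B2 n s (capO i p) := by
  have hc : NCO (n + 2) (capO i p) := hp.capO (by omega)
  have key := tri_iff (LInv.upO hp) ((LInv.ann (hs.insL (by omega))).dnO (n + 2)) (LInv.upO hc)
    ((LInv.ann hs).dnO n) hi (Cap.up (N := n + 2) hp (by omega)) ((Ins.low i s).dn hi)
  unfold B2
  classical exact if_congr key rfl rfl

theorem B2_insArc (hs : IsAnn (n + 3) s) (hp : NCO (n + 2) p) (hi : i ≤ n) :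
    B2 (n + 2) s (insArc i p) = B2 n (capL i s) p := by
  have hp' : NCO (n + 2 + 2) (insArc i p) := hp.insArc (by omega)
  have hs' : IsAnn (n + 1) (capL i s) := IsAnn.capL (N := n + 1) hs (by omega)
  have key := tri_iff ((LInv.ann hs).dnO (n + 2)) (LInv.upO hp') ((LInv.ann hs').dnO n)
    (LInv.upO hp) hi ((Cap.low (N := n + 1) hs (by omega)).dn hi) (Ins.up hp (by omega))
  unfold B2
  rw [tri_comm (n + 2), tri_comm n] at key
  classical exact if_congr key rfl rfl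

/-- The generators at the common sites are adjoint to each other. -/
theorem B3_eL (hs : IsAnn n s) (hp : NCO (n + 3) p) (hi : i + 1 < n) :
    B3 n (eL i s) p = B3 n s (eO i p) := by
  obtain ⟨m, rfl⟩ : ∃ m, n = m + 2 := ⟨n - 2, by omega⟩
  have hp2 : NCO (m + 3 + 2) p := hp
  have hc : NCO (m + 3) (capO i p) := hp2.capO (by omega)
  rw [← insL_capL hs (by omega), B3_insL (hs.capL (by omega)) hp (by omega),
    ← insArc_capO hp2 (by omega), B3_insArc hs hc (by omega)]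

theorem B2_eL (hs : IsAnn (n + 1) s) (hp : NCO (n + 2) p) (hi : i + 1 < n) :
    B2 n (eL i s) p = B2 n s (eO i p) := by
  obtain ⟨m, rfl⟩ : ∃ m, n = m + 2 := ⟨n - 2, by omega⟩
  have hs2 : IsAnn (m + 1 + 2) s := hs
  have hp2 : NCO (m + 2 + 2) p := hp
  have hc : NCO (m + 2) (capO i p) := hp2.capO (by omega)
  rw [← insL_capL hs2 (by omega), B2_insL (hs2.capL (by omega)) hp (by omega),
    ← insArc_capO hp2 (by omega), B2_insArc hs hc (by omega)]

end Pool.Agent.Perc
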