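import Pool.Agent.Lib.MP_6bd702_perc3.OStI
import Pool.Agent.Lib.MP_6bd702_perq.PairA

/-!
# The three-leg event: definitions

The lower half of the cylinder has a state `s` with an even number of sites, the upper half an odd
state `p`. The sites `0, …, n - 1` are common. There are three `D`-sites: for `n` even they are the
upper sites `n, n + 1, n + 2` (`s` has `n` sites, `p` has `n + 3` sites); for `n` odd they are the
upper sites `n`, `n + 1` and the lower site `n` (`s` has `n + 1` sites, `p` has `n + 2` sites), and
the lower site `n` is renamed to the node `n + 2`. Following the arcs alternately in the two halves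
from the three `D`-nodes gives three legs: one of them ends at the through line, the other two are
joined to each other. The event says that the number of arcs with label `true` on the path which
joins two `D`-nodes is odd.
-/

set_option autoImplicit false

namespace Pool.Agent.Perc

open Finset

/-- Reachability of nodes together with the parity of the number of arcs with label `true`. -/
def PR (u d : St) : ℕ × Bool → ℕ × Bool → Prop :=
  Relation.ReflTransGen fun a b =>
    (b.1 = u.1 a.1 ∧ b.2 = xor a.2 (u.2 a.1)) ∨ (b.1 = d.1 a.1 ∧ b.2 = xor a.2 (d.2 a.1))

/-- Two different nodes among `n, n + 1, n + 2` are joined with odd parity. -/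
def Tri (n : ℕ) (u d : St) : Prop :=
  ∃ a b, n ≤ a ∧ a < n + 3 ∧ n ≤ b ∧ b < n + 3 ∧ a ≠ b ∧ PR u d (a, false) (b, true)

/-- The odd state with its labels. -/
noncomputable def upO (p : ℕ → ℕ) : St := (p, labO p)

/-- The lower state with the site `n` renamed to `n + 2`. -/
def dnO (n : ℕ) (s : St) : St :=
  (fun x => Equiv.swap n (n + 2) (s.1 (Equiv.swap n (n + 2) x)),
    fun x => s.2 (Equiv.swap n (n + 2) x))

open Classical in
/-- The pairing with three upper `D`-sites (`n` even). -/
noncomputable def B3 (n : ℕ) (s : St) (p : ℕ → ℕ) : ℂ := if Tri n (upO p) s then 1 else 0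

open Classical in
/-- The pairing with two upper and one lower `D`-site (`n` odd). -/
noncomputable def B2 (n : ℕ) (s : St) (p : ℕ → ℕ) : ℂ :=
  if Tri n (upO p) (dnO n s) then 1 else 0

end Pool.Agent.Perc
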