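import Pool.Agent.Lib.MP_6bd702_perc3.TriDefs

/-!
# Reachability: abstract lemmas (task TriR)

`LInv u`: a labelled involution (labels agree at the two ends of an arc, `false` at fixed points).
-/

set_option autoImplicit false

namespace Pool.Agent.Perc

open Finset

/-- Labelled involutions. -/
structure LInv (u : St) : Prop where
  inv : ∀ x, u.1 (u.1 x) = x
  lab : ∀ x, u.2 (u.1 x) = u.2 x
  fix : ∀ x, u.1 x = x → u.2 x = false

theorem LInv.lab' {u : St} (h : LInv u) {x y : ℕ} (e : u.1 x = y) : u.2 x = u.2 y := by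
  subst e; exact (h.lab x).symm

theorem LInv.inv' {u : St} (h : LInv u) {x y : ℕ} (e : u.1 x = y) : u.1 y = x := by
  subst e; exact h.inv x

theorem LInv.upO {N : ℕ} {p : ℕ → ℕ} (h : NCO N p) : LInv (upO p) :=
  ⟨h.inv, fun x => labO_partner h.inv x, fun _ hx => labO_of_fix hx⟩

theorem LInv.ann {N : ℕ} {s : St} (h : IsAnn N s) : LInv s := by
  refine ⟨h.nc.inv, fun x => ?_, fun x hx => ?_⟩
  · rcases Nat.lt_or_ge x N with hx | hx
    · exact h.label_partner hx
    · rw [h.nc.out x hx]
  · rcases Nat.lt_or_ge x N with hx' | hx'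
    · exact absurd hx (h.nc.ne x hx')
    · exact h.out x hx'

theorem LInv.dnO {u : St} (h : LInv u) (n : ℕ) : LInv (dnO n u) := by
  refine ⟨fun x => ?_, fun x => ?_, fun x hx => ?_⟩
  · show Equiv.swap n (n + 2) (u.1 (Equiv.swap n (n + 2)
      (Equiv.swap n (n + 2) (u.1 (Equiv.swap n (n + 2) x))))) = x
    rw [Equiv.swap_apply_self, h.inv, Equiv.swap_apply_self]
  · show u.2 (Equiv.swap n (n + 2) (Equiv.swap n (n + 2) (u.1 (Equiv.swap n (n + 2) x)))) =
      u.2 (Equiv.swap n (n + 2) x)
    rw [Equiv.swap_apply_self, h.lab]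
  · show u.2 (Equiv.swap n (n + 2) x) = false
    refine h.fix _ ?_
    have h1 : Equiv.swap n (n + 2) (u.1 (Equiv.swap n (n + 2) x)) = x := hx
    conv_rhs => rw [← h1, Equiv.swap_apply_self]

theorem PR.swap {u d : St} {a b : ℕ × Bool} (h : PR u d a b) : PR d u a b := by
  induction h with
  | refl => exact Relation.ReflTransGen.refl
  | tail _ hbc ih => exact ih.tail hbc.symm

theorem PR.comm (u d : St) (a b : ℕ × Bool) : PR u d a b ↔ PR d u a b := ⟨PR.swap, PR.swap⟩

/-- Adding a constant to the parities. -/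
theorem PR.add {u d : St} {a b : ℕ × Bool} (h : PR u d a b) (c : Bool) :
    PR u d (a.1, xor a.2 c) (b.1, xor b.2 c) := by
  induction h with
  | refl => exact Relation.ReflTransGen.refl
  | @tail x y _ hbc ih =>
    refine ih.tail ?_
    rcases hbc with ⟨h1, h2⟩ | ⟨h1, h2⟩
    · refine Or.inl ⟨h1, ?_⟩
      show xor y.2 c = xor (xor x.2 c) (u.2 x.1)
      rw [h2, Bool.xor_assoc, Bool.xor_assoc, Bool.xor_comm (u.2 x.1) c]
    · refine Or.inr ⟨h1, ?_⟩
      show xor y.2 c = xor (xor x.2 c) (d.2 x.1)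
      rw [h2, Bool.xor_assoc, Bool.xor_assoc, Bool.xor_comm (d.2 x.1) c]

theorem PR.stepU {u d : St} (x : ℕ) (ε : Bool) : PR u d (x, ε) (u.1 x, xor ε (u.2 x)) :=
  Relation.ReflTransGen.single (Or.inl ⟨rfl, rfl⟩)

theorem PR.stepD {u d : St} (x : ℕ) (ε : Bool) : PR u d (x, ε) (d.1 x, xor ε (d.2 x)) :=
  Relation.ReflTransGen.single (Or.inr ⟨rfl, rfl⟩)

theorem PR.trans {u d : St} {a b c : ℕ × Bool} (h : PR u d a b) (h' : PR u d b c) :
    PR u d a c := Relation.ReflTransGen.trans h h'

theorem PR.refl (u d : St) (a : ℕ × Bool) : PR u d a a := Relation.ReflTransGen.refl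

theorem PR.symm {u d : St} (hu : LInv u) (hd : LInv d) {a b : ℕ × Bool} (h : PR u d a b) :
    PR u d b a := by
  induction h with
  | refl => exact Relation.ReflTransGen.refl
  | @tail x y _ hbc ih =>
    refine Relation.ReflTransGen.head ?_ ih
    rcases hbc with ⟨h1, h2⟩ | ⟨h1, h2⟩
    · refine Or.inl ⟨by rw [h1, hu.inv], ?_⟩
      rw [h2, h1, hu.lab, Bool.xor_assoc, Bool.xor_self, Bool.xor_false]
    · refine Or.inr ⟨by rw [h1, hd.inv], ?_⟩
      rw [h2, h1, hd.lab, Bool.xor_assoc, Bool.xor_self, Bool.xor_false]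

/-- Transport of paths along a map of nodes `f` with offsets `θ`. -/
theorem PR.map {u d u' d' : St} (S : ℕ → Prop) (f : ℕ → ℕ) (θ : ℕ → Bool)
    (hu : ∀ x, S x → S (u.1 x)) (hd : ∀ x, S x → S (d.1 x))
    (h1 : ∀ x, S x → PR u' d' (f x, θ x) (f (u.1 x), xor (u.2 x) (θ (u.1 x))))
    (h2 : ∀ x, S x → PR u' d' (f x, θ x) (f (d.1 x), xor (d.2 x) (θ (d.1 x))))
    {x y : ℕ} {ε δ : Bool} (hx : S x) (h : PR u d (x, ε) (y, δ)) :
    PR u' d' (f x, xor ε (θ x)) (f y, xor δ (θ y)) := by
  have key : ∀ b : ℕ × Bool, PR u d (x, ε) b →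
      S b.1 ∧ PR u' d' (f x, xor ε (θ x)) (f b.1, xor b.2 (θ b.1)) := by
    intro b hb
    induction hb with
    | refl => exact ⟨hx, PR.refl _ _ _⟩
    | @tail b c _ hbc ih =>
      obtain ⟨hS, hP⟩ := ih
      rcases hbc with ⟨e1, e2⟩ | ⟨e1, e2⟩
      · refine ⟨e1 ▸ hu _ hS, hP.trans ?_⟩
        have := (h1 b.1 hS).add b.2
        rw [e1, e2]
        convert this using 2
        · exact Bool.xor_comm _ _
        · show xor (xor b.2 (u.2 b.1)) (θ (u.1 b.1)) = xor (xor (u.2 b.1) (θ (u.1 b.1))) b.2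
          rw [Bool.xor_comm (xor (u.2 b.1) (θ (u.1 b.1))) b.2, Bool.xor_assoc]
      · refine ⟨e1 ▸ hd _ hS, hP.trans ?_⟩
        have := (h2 b.1 hS).add b.2
        rw [e1, e2]
        convert this using 2
        · exact Bool.xor_comm _ _
        · show xor (xor b.2 (d.2 b.1)) (θ (d.1 b.1)) = xor (xor (d.2 b.1) (θ (d.1 b.1))) b.2
          rw [Bool.xor_comm (xor (d.2 b.1) (θ (d.1 b.1))) b.2, Bool.xor_assoc]
  exact (key (y, δ) h).2

namespace TriR

open PatB

theorem sh_ne_i (i x : ℕ) : sh i x ≠ i := by unfold sh; split_ifs <;> omega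

theorem sh_ne_succ (i x : ℕ) : sh i x ≠ i + 1 := by unfold sh; split_ifs <;> omega

theorem sh_inj {i x y : ℕ} (h : sh i x = sh i y) : x = y := by
  unfold sh at h; split_ifs at h <;> omega

theorem exists_sh {i w : ℕ} (h1 : w ≠ i) (h2 : w ≠ i + 1) : ∃ z, w = sh i z := by
  rcases Nat.lt_or_ge w i with h | h
  · exact ⟨w, by unfold sh; rw [if_pos h]⟩
  · exact ⟨w - 2, by unfold sh; rw [if_neg (by omega)]; omega⟩

end TriR

open TriR in
/-- **Contraction.** The involution `d` is `ins_i d₀` (a small arc at `i`, `i + 1` with label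
`false`), the involution `u₀` arises from `u` by closing the sites `i`, `i + 1` and removing them.
Here `sh i x = if x < i then x else x + 2`. -/
theorem PR.contract {u d u₀ d₀ : St} (hu : LInv u) (hd : LInv d)
    (i : ℕ)
    (d1 : d.1 i = i + 1) (d2 : d.2 i = false)
    (d3 : ∀ x, d.1 (PatB.sh i x) = PatB.sh i (d₀.1 x) ∧ d.2 (PatB.sh i x) = d₀.2 x)
    (u1 : ∀ x, u.1 (PatB.sh i x) ≠ i → u.1 (PatB.sh i x) ≠ i + 1 →
      PatB.sh i (u₀.1 x) = u.1 (PatB.sh i x) ∧ u₀.2 x = u.2 (PatB.sh i x))
    (u2 : ∀ x, u.1 (PatB.sh i x) = i → u.1 (i + 1) ≠ i + 1 →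
      PatB.sh i (u₀.1 x) = u.1 (i + 1) ∧ u₀.2 x = xor (u.2 i) (u.2 (i + 1)))
    (u3 : ∀ x, u.1 (PatB.sh i x) = i → u.1 (i + 1) = i + 1 → u₀.1 x = x ∧ u₀.2 x = false)
    (u4 : ∀ x, u.1 (PatB.sh i x) = i + 1 → u.1 i ≠ i →
      PatB.sh i (u₀.1 x) = u.1 i ∧ u₀.2 x = xor (u.2 i) (u.2 (i + 1)))
    (u5 : ∀ x, u.1 (PatB.sh i x) = i + 1 → u.1 i = i → u₀.1 x = x ∧ u₀.2 x = false)
    {x y : ℕ} {ε δ : Bool} :
    PR u d (PatB.sh i x, ε) (PatB.sh i y, δ) ↔ PR u₀ d₀ (x, ε) (y, δ) := by
  have d1' : d.1 (i + 1) = i := by rw [← d1, hd.inv]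
  have d2' : d.2 (i + 1) = false := by rw [← d1, hd.lab, d2]
  constructor
  · intro h
    have key : ∀ b : ℕ × Bool, PR u d (PatB.sh i x, ε) b →
        (∃ z, b.1 = PatB.sh i z ∧ PR u₀ d₀ (x, ε) (z, b.2)) ∨ ((b.1 = i ∨ b.1 = i + 1) ∧
          ((∃ z, u.1 (PatB.sh i z) = i ∧ PR u₀ d₀ (x, ε) (z, xor b.2 (u.2 i))) ∨
            ∃ z, u.1 (PatB.sh i z) = i + 1 ∧ PR u₀ d₀ (x, ε) (z, xor b.2 (u.2 (i + 1))))) := by
      intro b hb
      induction hb with
      | refl => exact Or.inl ⟨x, rfl, PR.refl _ _ _⟩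
      | @tail b c _ hbc ih =>
        rcases ih with ⟨z, hz, hP⟩ | ⟨hw, hK⟩
        · rcases hbc with ⟨e1, e2⟩ | ⟨e1, e2⟩
          · rw [hz] at e1 e2
            by_cases c1 : u.1 (PatB.sh i z) = i
            · refine Or.inr ⟨Or.inl (e1.trans c1), Or.inl ⟨z, c1, ?_⟩⟩
              have : u.2 (PatB.sh i z) = u.2 i := hu.lab' c1
              rw [e2, this, Bool.xor_assoc, Bool.xor_self, Bool.xor_false]
              exact hP
            · by_cases c2 : u.1 (PatB.sh i z) = i + 1
              · refine Or.inr ⟨Or.inr (e1.trans c2), Or.inr ⟨z, c2, ?_⟩⟩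
                have : u.2 (PatB.sh i z) = u.2 (i + 1) := hu.lab' c2
                rw [e2, this, Bool.xor_assoc, Bool.xor_self, Bool.xor_false]
                exact hP
              · obtain ⟨k1, k2⟩ := u1 z c1 c2
                refine Or.inl ⟨u₀.1 z, by rw [e1, k1], ?_⟩
                rw [e2, ← k2]
                exact hP.trans (PR.stepU z b.2)
          · rw [hz] at e1 e2
            obtain ⟨k1, k2⟩ := d3 z
            refine Or.inl ⟨d₀.1 z, by rw [e1, k1], ?_⟩
            rw [e2, k2]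
            exact hP.trans (PR.stepD z b.2)
        · rcases hbc with ⟨e1, e2⟩ | ⟨e1, e2⟩
          · rcases hw with hw | hw
            · rw [hw] at e1 e2
              rcases hK with ⟨z, hz, hP⟩ | ⟨z, hz, hP⟩
              · refine Or.inl ⟨z, e1.trans (hu.inv' hz), ?_⟩
                rw [e2]; exact hP
              · by_cases c1 : u.1 i = i
                · have c2 := hu.fix i c1
                  refine Or.inr ⟨Or.inl (e1.trans c1), Or.inr ⟨z, hz, ?_⟩⟩
                  rw [e2, c2, Bool.xor_false]; exact hP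
                · obtain ⟨k1, k2⟩ := u4 z hz c1
                  refine Or.inl ⟨u₀.1 z, by rw [e1, k1], ?_⟩
                  have := hP.trans (PR.stepU z _)
                  rw [k2] at this
                  rw [e2]
                  convert this using 2
                  cases b.2 <;> cases u.2 i <;> cases u.2 (i + 1) <;> rfl
            · rw [hw] at e1 e2
              rcases hK with ⟨z, hz, hP⟩ | ⟨z, hz, hP⟩
              · by_cases c1 : u.1 (i + 1) = i + 1
                · have c2 := hu.fix (i + 1) c1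
                  refine Or.inr ⟨Or.inr (e1.trans c1), Or.inl ⟨z, hz, ?_⟩⟩
                  rw [e2, c2, Bool.xor_false]; exact hP
                · obtain ⟨k1, k2⟩ := u2 z hz c1
                  refine Or.inl ⟨u₀.1 z, by rw [e1, k1], ?_⟩
                  have := hP.trans (PR.stepU z _)
                  rw [k2] at this
                  rw [e2]
                  convert this using 2
                  cases b.2 <;> cases u.2 i <;> cases u.2 (i + 1) <;> rfl
              · refine Or.inl ⟨z, e1.trans (hu.inv' hz), ?_⟩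
                rw [e2]; exact hP
          · rcases hw with hw | hw
            · rw [hw] at e1 e2
              rw [d2, Bool.xor_false] at e2
              refine Or.inr ⟨Or.inr (e1.trans d1), ?_⟩
              rw [e2]; exact hK
            · rw [hw] at e1 e2
              rw [d2', Bool.xor_false] at e2
              refine Or.inr ⟨Or.inl (e1.trans d1'), ?_⟩
              rw [e2]; exact hK
    rcases key _ h with ⟨z, hz, hP⟩ | ⟨hw | hw, _⟩
    · have : y = z := sh_inj hz
      rw [this]; exact hP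
    · exact absurd hw (sh_ne_i i y)
    · exact absurd hw (sh_ne_succ i y)
  · intro h
    have := PR.map (u' := u) (d' := d) (fun _ => True) (PatB.sh i) (fun _ => false)
      (fun _ _ => trivial) (fun _ _ => trivial) (fun z _ => ?_) (fun z _ => ?_) trivial h
    · simpa using this
    · rw [Bool.xor_false]
      by_cases c1 : u.1 (PatB.sh i z) = i
      · by_cases c2 : u.1 (i + 1) = i + 1
        · obtain ⟨k1, k2⟩ := u3 z c1 c2
          rw [k1, k2]; exact PR.refl _ _ _
        · obtain ⟨k1, k2⟩ := u2 z c1 c2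
          rw [k1, k2]
          have e1 : PR u d (PatB.sh i z, false) (i, u.2 i) := by
            have := PR.stepU (u := u) (d := d) (PatB.sh i z) false
            rw [c1] at this
            have e : u.2 (PatB.sh i z) = u.2 i := hu.lab' c1
            rwa [e, Bool.false_xor] at this
          have e2 : PR u d (i, u.2 i) (i + 1, u.2 i) := by
            have := PR.stepD (u := u) (d := d) i (u.2 i)
            rwa [d1, d2, Bool.xor_false] at this
          exact (e1.trans e2).trans (PR.stepU (i + 1) (u.2 i))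
      · by_cases c2 : u.1 (PatB.sh i z) = i + 1
        · by_cases c3 : u.1 i = i
          · obtain ⟨k1, k2⟩ := u5 z c2 c3
            rw [k1, k2]; exact PR.refl _ _ _
          · obtain ⟨k1, k2⟩ := u4 z c2 c3
            rw [k1, k2]
            have e1 : PR u d (PatB.sh i z, false) (i + 1, u.2 (i + 1)) := by
              have := PR.stepU (u := u) (d := d) (PatB.sh i z) false
              rw [c2] at this
              have e : u.2 (PatB.sh i z) = u.2 (i + 1) := hu.lab' c2
              rwa [e, Bool.false_xor] at this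
            have e2 : PR u d (i + 1, u.2 (i + 1)) (i, u.2 (i + 1)) := by
              have := PR.stepD (u := u) (d := d) (i + 1) (u.2 (i + 1))
              rwa [d1', d2', Bool.xor_false] at this
            rw [Bool.xor_comm (u.2 i)]
            exact (e1.trans e2).trans (PR.stepU i (u.2 (i + 1)))
        · obtain ⟨k1, k2⟩ := u1 z c1 c2
          rw [k1, k2]
          have := PR.stepU (u := u) (d := d) (PatB.sh i z) false
          rwa [Bool.false_xor] at this
    · rw [Bool.xor_false]
      obtain ⟨k1, k2⟩ := d3 z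
      rw [← k1, ← k2]
      have := PR.stepD (u := u) (d := d) (PatB.sh i z) false
      rwa [Bool.false_xor] at this

end Pool.Agent.Perc
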