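import Pool.Agent.Lib.MP_6bd702_perc3.TwDefs
import Pool.Agent.Lib.MP_6bd702_perq.TwoB

/-!
# The twisted cylinder: soundness of the two states (task TwA)

Models: perc/CylArmA.lean (rows of the even cylinder, `SoundT`), perq/TwoA.lean. For the odd upper
half the marked gap of `SoundT` is replaced by the through line `t`: the sites to the right of `t`
are shifted by one period to the left.
-/

set_option autoImplicit false

namespace Pool.Agent.Perc

open Finset

variable {m M : ℕ}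

namespace TwA

open CylArmA

variable {L N : ℕ} {R : ℤ × ℤ → ℤ × ℤ → Prop} {p : ℕ → ℕ}

/-- Soundness of an odd state: the sites to the right of the through line are shifted. -/
def SoundO (L N : ℕ) (R : ℤ × ℤ → ℤ × ℤ → Prop) (p : ℕ → ℕ) (V : ℕ → ℤ × ℤ) : Prop :=
  ∀ x < N, p x ≠ x → R (sh L (thr p < x) (V x)) (sh L (thr p < p x) (V (p x + 1)))

theorem soundO_congr (hR : Good L R) {m : ℕ} {V V' : ℕ → ℤ × ℤ}
    (h : SoundO L N R p V) (hV : ∀ k, k ≠ m → V' k = V k) (hm : R (V m) (V' m)) :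
    SoundO L N R p V' := by
  have key : ∀ (k : ℕ) (b : Prop) [Decidable b], R (sh L b (V k)) (sh L b (V' k)) := by
    intro k b _
    by_cases hk : k = m
    · subst hk; exact hR.sh Iff.rfl hm
    · rw [hV k hk]; exact hR.refl _
  intro x hx hp
  exact hR.trans (hR.symm (key x (thr p < x))) (hR.trans (h x hx hp) (key _ (thr p < p x)))

/-- The action of a face. -/
theorem soundO_eO (hR : Good L R) (hs : NCO N p) {i : ℕ} (hi : i + 1 < N)
    {V V' : ℕ → ℤ × ℤ} (h : SoundO L N R p V)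
    (hV : ∀ k, k ≠ i + 1 → V' k = V k) (hb : R (V i) (V (i + 2))) :
    SoundO L N R (eO i p) V' := by
  have hs' := hs.eO hi
  have ht' := thr_eO hs hi
  have hf := hs.thr_fix
  have hf' := hs'.thr_fix
  intro x hx hpx
  have n1 : thr (eO i p) ≠ i := by
    intro e; rw [e, OStA.eO_left] at hf'; omega
  have n2 : thr (eO i p) ≠ i + 1 := by
    intro e; rw [e, OStA.eO_right] at hf'; omega
  by_cases hx1 : x = i
  · subst hx1
    rw [OStA.eO_left, hV x (by omega), hV (x + 1 + 1) (by omega)]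
    exact hR.sh (by omega) hb
  by_cases hx2 : x = i + 1
  · subst hx2
    rw [OStA.eO_right]
    exact hR.sh (by omega) (hR.refl _)
  by_cases hx3 : p x = i
  · have hxi : p i = x := hs.swap.1 hx3
    have t1 : thr p ≠ i := by intro e; rw [e] at hf; omega
    by_cases hy : p (i + 1) = i + 1
    · exfalso
      apply hpx
      rw [OStA.eO_a p hx1 hx2 hx3, if_pos hy]
    have t2 : thr p ≠ i + 1 := by intro e; rw [e] at hf; exact hy hf
    have hyi : p (i + 1) ≠ i := by
      intro h1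
      have := hs.inv (i + 1)
      rw [h1, hxi] at this
      exact hx2 this
    rw [if_neg t1, if_neg t2] at ht'
    rw [ht', OStA.eO_a p hx1 hx2 hx3, if_neg hy, hV x hx2, hV (p (i + 1) + 1) (by omega)]
    have h1 := h x hx (by omega)
    have h2 := h (i + 1) hi hy
    rw [hx3] at h1
    refine hR.trans h1 (hR.trans ?_ h2)
    exact hR.sh (by omega) (hR.refl _)
  by_cases hx4 : p x = i + 1
  · have hxi : p (i + 1) = x := hs.swap.1 hx4
    have t2 : thr p ≠ i + 1 := by intro e; rw [e] at hf; omega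
    by_cases hy : p i = i
    · exfalso
      apply hpx
      rw [OStA.eO_b p hx1 hx2 hx4, if_pos hy]
    have t1 : thr p ≠ i := by intro e; rw [e] at hf; exact hy hf
    rw [if_neg t1, if_neg t2] at ht'
    rw [ht', OStA.eO_b p hx1 hx2 hx4, if_neg hy, hV x hx2, hV (p i + 1) (by omega)]
    have h1 := h x hx (by omega)
    have h2 := h i (by omega) hy
    rw [hx4] at h1
    refine hR.trans h1 (hR.trans ?_ h2)
    exact hR.sh (by omega) (hR.symm hb)
  · have e := OStA.eO_other p hx1 hx2 hx3 hx4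
    rw [e] at hpx
    rw [e, hV x hx2, hV (p x + 1) (by omega)]
    have h1 := h x hx hpx
    rw [ht']
    split_ifs with c1 c2
    · have hb1 := hs.btw (s := x) (t := i + 1)
      have hb2 := hs.btw (s := x) (t := p (i + 1))
      rw [hs.inv] at hb2
      unfold PatA.Bt at hb1 hb2
      have q1 : p (i + 1) ≠ x := fun e => hx4 (hs.swap.1 e)
      have q2 : p (i + 1) ≠ p x := fun e => by
        have := congrArg p e; rw [hs.inv, hs.inv] at this; exact hx2 this.symm
      by_cases hab : (thr p < x ↔ thr p < p x)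
      · exact hR.sh (by omega) (hR.of_sh hab h1)
      · rw [sh_congr (show p (i + 1) < x ↔ thr p < x by omega),
          sh_congr (show p (i + 1) < p x ↔ thr p < p x by omega)]
        exact h1
    · have hb1 := hs.btw (s := x) (t := i)
      have hb2 := hs.btw (s := x) (t := p i)
      rw [hs.inv] at hb2
      unfold PatA.Bt at hb1 hb2
      have q1 : p i ≠ x := fun e => hx3 (hs.swap.1 e)
      have q2 : p i ≠ p x := fun e => by
        have := congrArg p e; rw [hs.inv, hs.inv] at this; exact hx1 this.symm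
      by_cases hab : (thr p < x ↔ thr p < p x)
      · exact hR.sh (by omega) (hR.of_sh hab h1)
      · rw [sh_congr (show p i < x ↔ thr p < x by omega),
          sh_congr (show p i < p x ↔ thr p < p x by omega)]
        exact h1
    · exact h1

theorem soundO_cupO (hR : Good L R) (hs : NCO L p) {y : ℤ}
    (h : SoundO L L R p (fun k => ((k : ℤ), y + 1))) :
    SoundO L (L + 2) R (cupO L p) (Vf L y 0) := by
  have ht := hs.thr_cupO
  have htl := hs.thr_lt
  intro x hx hpx
  rw [ht]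
  by_cases hx0 : x = 0
  · subst hx0
    have e : cupO L p 0 = L + 1 := cupO_zero _ _
    rw [e, sh_false (by omega), sh_true (by omega)]
    have e1 : Vf L y 0 0 = (0, y) := by simp [Vf]
    have e2 : Vf L y 0 (L + 1 + 1) = ((L : ℤ), y) := by simp [Vf]
    rw [e1, e2]
    simp only [sub_self]
    exact hR.refl _
  by_cases hx1 : x = L + 1
  · subst hx1
    have e : cupO L p (L + 1) = 0 := cupO_last _ _
    rw [e, sh_true (by omega), sh_false (by omega)]
    have e1 : Vf L y 0 (L + 1) = ((L : ℤ), y + 1) := by simp [Vf]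
    have e2 : Vf L y 0 (0 + 1) = (0, y + 1) := by simp [Vf]
    rw [e1, e2]
    simp only [sub_self]
    exact hR.refl _
  obtain ⟨x, rfl⟩ : ∃ x', x = x' + 1 := ⟨x - 1, by omega⟩
  have hxL : x < L := by omega
  have e : cupO L p (x + 1) = p x + 1 := cupO_succ hxL p
  rw [e] at hpx ⊢
  have h1 : R (sh L (thr p < x) ((x : ℤ), y + 1))
    (sh L (thr p < p x) (((p x + 1 : ℕ) : ℤ), y + 1)) := h x hxL (by omega)
  have hlt : p x < L := hs.lt _ hxL
  have e1 : Vf L y 0 (x + 1) = ((x : ℤ), y + 1) := by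
    unfold Vf
    rw [if_neg (by omega), if_pos (by omega)]
    ext
    · simp only; omega
    · rfl
  have e2 : Vf L y 0 (p x + 1 + 1) = (((p x + 1 : ℕ) : ℤ), y + 1) := by
    unfold Vf
    rw [if_neg (by omega), if_pos (by omega)]
    ext
    · simp only; omega
    · rfl
  rw [e1, e2, sh_congr (show thr p + 1 < x + 1 ↔ thr p < x by omega),
    sh_congr (show thr p + 1 < p x + 1 ↔ thr p < p x by omega)]
  exact h1

theorem nco_rowO (hs : NCO N p) (w : ℕ → Bool) {k : ℕ} (hk : k + 1 ≤ N) : NCO N (rowO w k p) := by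
  induction k with
  | zero => exact hs
  | succ k ih =>
    have h1 := ih (by omega)
    by_cases hwk : w k = true
    · have e : rowO w (k + 1) p = eO k (rowO w k p) := by simp [rowO, hwk]
      rw [e]
      exact h1.eO (by omega)
    · have e : rowO w (k + 1) p = rowO w k p := by simp [rowO, hwk]
      rw [e]
      exact h1

theorem soundO_rowO (hR : Good L R) (hs : NCO L p) {y : ℤ}
    (h : SoundO L L R p (fun k => ((k : ℤ), y + 1))) (w : ℕ → Bool) (hw : RowB L y R w) {k : ℕ}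
    (hk : k ≤ L) : SoundO L (L + 2) R (rowO w k (cupO L p)) (Vf L y k) := by
  induction k with
  | zero => exact soundO_cupO hR hs h
  | succ k ih =>
    have h2 := ih (by omega)
    have hnc : NCO (L + 2) (rowO w k (cupO L p)) := nco_rowO hs.cupO w (by omega)
    have hV : ∀ m, m ≠ k + 1 → Vf L y (k + 1) m = Vf L y k m := by
      intro m hm
      unfold Vf
      by_cases h3 : m ≤ k
      · rw [if_pos h3, if_pos (by omega)]
      · rw [if_neg h3, if_neg (by omega)]
    have e1 : Vf L y k k = ((k : ℤ), y) := by simp [Vf]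
    have e2 : Vf L y k (k + 2) = ((k : ℤ) + 1, y + 1) := by
      unfold Vf
      rw [if_neg (by omega)]
      rw [if_pos (by omega)]
      ext
      · simp only; push_cast; ring
      · rfl
    have e3 : Vf L y k (k + 1) = ((k : ℤ), y + 1) := by
      unfold Vf
      rw [if_neg (by omega), if_pos (by omega)]
      ext
      · simp only; push_cast; ring
      · rfl
    have e4 : Vf L y (k + 1) (k + 1) = ((k : ℤ) + 1, y) := by
      unfold Vf
      rw [if_pos (le_refl _)]
      ext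
      · simp only; push_cast; ring
      · rfl
    by_cases hwk : w k = true
    · have e : rowO w (k + 1) (cupO L p) = eO k (rowO w k (cupO L p)) := by simp [rowO, hwk]
      rw [e]
      refine soundO_eO hR hnc (by omega) h2 hV ?_
      rw [e1, e2]
      exact (hw k (by omega)).1 hwk
    · have e : rowO w (k + 1) (cupO L p) = rowO w k (cupO L p) := by simp [rowO, hwk]
      rw [e]
      refine soundO_congr hR h2 hV ?_
      rw [e3, e4]
      exact (hw k (by omega)).2 (by simpa using hwk)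

theorem soundO_trowO (hR : Good L R) (hs : NCO L p) {y : ℤ}
    (h : SoundO L L R p (fun k => ((k : ℤ), y + 1))) (w : ℕ → Bool) (hw : RowB L y R w) :
    SoundO L L R (trowO L w p) (fun k => ((k : ℤ), y)) := by
  have h2 := soundO_rowO hR hs h w hw le_rfl
  have hnc : NCO (L + 2) (rowO w L (cupO L p)) := nco_rowO hs.cupO w (by omega)
  have e1 : Vf L y L L = ((L : ℤ), y) := by simp [Vf]
  have e2 : Vf L y L (L + 2) = ((L : ℤ), y) := by
    unfold Vf
    rw [if_neg (by omega), if_neg (by omega)]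
  have h3 := soundO_eO (V' := Vf L y L) hR hnc (show L + 1 < L + 2 by omega) h2 (fun _ _ => rfl)
    (by rw [e1, e2]; exact hR.refl _)
  have hnc' : NCO (L + 2) (eO L (rowO w L (cupO L p))) := hnc.eO (by omega)
  have hp : eO L (rowO w L (cupO L p)) L = L + 1 := OStA.eO_left _ _
  obtain ⟨p', hp', he'⟩ := hnc'.exists_del (i := L) (by omega) hp
  have hres : trowO L w p = p' := by
    unfold trowO
    rw [← he', resO_insArc hp']
  rw [hres]
  intro x hx hpx
  rw [← he'] at h3
  have esh : ∀ z, z < L → PatB.sh L z = z := by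
    intro z hz; unfold PatB.sh; rw [if_pos hz]
  have h4 := h3 x (by omega) (by
    have := PatB.ins_sh L p' x
    rw [esh x hx, esh _ (hp'.lt x hx)] at this
    rw [this]; exact hpx)
  have e3 : insArc L p' x = p' x := by
    have := PatB.ins_sh L p' x
    rwa [esh x hx, esh _ (hp'.lt x hx)] at this
  have e4 : thr (insArc L p') = thr p' := by
    rw [hp'.thr_insArc le_rfl, esh _ hp'.thr_lt]
  have hlt := hp'.lt x hx
  rw [e3, e4] at h4
  have e5 : Vf L y L x = ((x : ℤ), y) := by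
    unfold Vf; rw [if_pos (by omega)]
  have e6 : Vf L y L (p' x + 1) = (((p' x + 1 : ℕ) : ℤ), y) := by
    unfold Vf; rw [if_pos (by omega)]
  rw [e5, e6] at h4
  exact h4

/-- Soundness after the rows `M - 1, …, M - j`. -/
theorem soundO_run {M : ℕ} (hL : L % 2 = 1) (ω : Cfg) {j : ℕ} (hj : j ≤ M) :
    ∃ p : ℕ → ℕ, NCO L p ∧
      SoundO L L (RelT L M ω (M - j)) p (fun k => ((k : ℤ), (M : ℤ) - j)) ∧
      runO L ω M (flatO L) = runO L ω (M - j) p := by
  induction j with
  | zero =>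
    refine ⟨flatO L, nco_flatO hL, ?_, by simp⟩
    intro x hx _
    right
    refine ⟨⟨_, Relation.ReflTransGen.refl, by simp [sh]⟩,
      ⟨_, Relation.ReflTransGen.refl, by simp [sh]⟩⟩
  | succ j ih =>
    obtain ⟨s, h1, h3, h4⟩ := ih (by omega)
    have hy : (M : ℤ) - (j : ℤ) = (M : ℤ) - ((j + 1 : ℕ) : ℤ) + 1 := by push_cast; ring
    have hMy : ((M - (j + 1) : ℕ) : ℤ) = (M : ℤ) - ((j + 1 : ℕ) : ℤ) := by omega
    have h3' : SoundO L L (RelT L M ω ((M : ℤ) - ((j + 1 : ℕ) : ℤ))) s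
        (fun k => ((k : ℤ), (M : ℤ) - ((j + 1 : ℕ) : ℤ) + 1)) := by
      intro x hx hpx
      have := h3 x hx hpx
      rw [hy] at this
      exact relT_mono (by omega) this
    have h6 := soundO_trowO (relT_good L M ω _) h1 h3' _
      (rowB_relT ω (show (M : ℤ) - ((j + 1 : ℕ) : ℤ) < M by omega))
    refine ⟨_, h1.trowO _, h6, ?_⟩
    rw [h4, show M - j = M - (j + 1) + 1 by omega]
    rw [← hMy]
    rfl

/-- Translation by `j` periods. -/
def tr (m : ℕ) (j : ℤ) (v : ℤ × ℤ) : ℤ × ℤ :=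
  (v.1 + j * (if 0 ≤ v.2 then 2 * (m : ℤ) + 1 else 2 * (m : ℤ)), v.2)

theorem emC_add (hm : 0 < m) (l j : ℤ) : emC m (l + j * (2 * m)) = emC m l + j * (2 * m + 1) := by
  unfold emC
  rw [Int.add_mul_ediv_right _ _ (by omega), Int.add_mul_emod_self_right]
  ring

theorem bondW_tr (hm : 0 < m) {ω : Cfg} {u v : ℤ × ℤ} (j : ℤ)
    (h : BondW (emC m) (perW m ω) (strip M) u v) :
    BondW (emC m) (perW m ω) (strip M) (tr m j u) (tr m j v) := by
  rcases h with ⟨x, y, ⟨hF, hy⟩, h⟩ | ⟨u', v', ⟨x, y, ⟨hF, hy⟩, h⟩, rfl, rfl⟩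
  · left
    simp only at hy
    refine ⟨x + j * (2 * m + 1), y, ⟨hF, hy⟩, ?_⟩
    have e : perW m ω (x + j * (2 * m + 1), y) = perW m ω (x, y) := by
      unfold perW
      simp only [if_pos hy, Int.add_mul_emod_self_right]
    rw [e]
    have t1 : tr m j (x, y) = (x + j * (2 * m + 1), y) := by
      unfold tr; simp only [if_pos hy]
    have t2 : tr m j (x + 1, y + 1) = (x + j * (2 * m + 1) + 1, y + 1) := by
      unfold tr; simp only [if_pos (show (0 : ℤ) ≤ y + 1 by omega)]; ext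
      · simp only; ring
      · rfl
    have t3 : tr m j (x, y + 1) = (x + j * (2 * m + 1), y + 1) := by
      unfold tr; simp only [if_pos (show (0 : ℤ) ≤ y + 1 by omega)]
    have t4 : tr m j (x + 1, y) = (x + j * (2 * m + 1) + 1, y) := by
      unfold tr; simp only [if_pos hy]; ext
      · simp only; ring
      · rfl
    rcases h with ⟨h, ⟨rfl, rfl⟩ | ⟨rfl, rfl⟩⟩ | ⟨h, ⟨rfl, rfl⟩ | ⟨rfl, rfl⟩⟩
    · exact Or.inl ⟨h, Or.inl ⟨t1, t2⟩⟩
    · exact Or.inl ⟨h, Or.inr ⟨t2, t1⟩⟩
    · exact Or.inr ⟨h, Or.inl ⟨t3, t4⟩⟩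
    · exact Or.inr ⟨h, Or.inr ⟨t4, t3⟩⟩
  · right
    simp only at hy
    have key : ∀ a b : ℤ, b ≤ 0 →
        tr m j (twV (emC m) (a, b)) = twV (emC m) (a + j * (2 * m), b) := by
      intro a b hb
      unfold tr twV
      by_cases h0 : b = 0
      · subst h0
        simp only [if_true, le_refl]
        rw [emC_add hm]
      · have h1 : ¬ (0 : ℤ) ≤ b := by omega
        simp only [h0, if_false, if_neg h1]
    have e : perW m ω (x + j * (2 * m), y) = perW m ω (x, y) := by
      unfold perW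
      have h1 : ¬ (0 : ℤ) ≤ y := by omega
      simp only [if_neg h1, Int.add_mul_emod_self_right]
    have t1 : (x + 1 + j * (2 * m), y + 1) = (x + j * (2 * m) + 1, y + 1) := by ext <;> simp; ring
    have t2 : (x + 1 + j * (2 * m), y) = (x + j * (2 * m) + 1, y) := by ext <;> simp; ring
    rcases h with ⟨h, ⟨rfl, rfl⟩ | ⟨rfl, rfl⟩⟩ | ⟨h, ⟨rfl, rfl⟩ | ⟨rfl, rfl⟩⟩
    · exact ⟨(x + j * (2 * m), y), (x + j * (2 * m) + 1, y + 1),
        ⟨x + j * (2 * m), y, ⟨hF, hy⟩, Or.inl ⟨by rw [e]; exact h, Or.inl ⟨rfl, rfl⟩⟩⟩,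
        key _ _ (by omega), by rw [← t1]; exact key _ _ (by omega)⟩
    · exact ⟨(x + j * (2 * m) + 1, y + 1), (x + j * (2 * m), y),
        ⟨x + j * (2 * m), y, ⟨hF, hy⟩, Or.inl ⟨by rw [e]; exact h, Or.inr ⟨rfl, rfl⟩⟩⟩,
        by rw [← t1]; exact key _ _ (by omega), key _ _ (by omega)⟩
    · exact ⟨(x + j * (2 * m), y + 1), (x + j * (2 * m) + 1, y),
        ⟨x + j * (2 * m), y, ⟨hF, hy⟩, Or.inr ⟨by rw [e]; exact h, Or.inl ⟨rfl, rfl⟩⟩⟩,
        key _ _ (by omega), by rw [← t2]; exact key _ _ (by omega)⟩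
    · exact ⟨(x + j * (2 * m) + 1, y), (x + j * (2 * m), y + 1),
        ⟨x + j * (2 * m), y, ⟨hF, hy⟩, Or.inr ⟨by rw [e]; exact h, Or.inr ⟨rfl, rfl⟩⟩⟩,
        by rw [← t2]; exact key _ _ (by omega), key _ _ (by omega)⟩

theorem connW_tr (hm : 0 < m) {ω : Cfg} {u v : ℤ × ℤ} (j : ℤ)
    (h : ConnW (emC m) (perW m ω) (strip M) u v) :
    ConnW (emC m) (perW m ω) (strip M) (tr m j u) (tr m j v) := by
  induction h with
  | refl => exact Relation.ReflTransGen.refl
  | tail _ hb ih => exact ih.tail (bondW_tr hm j hb)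

theorem bondW_symm {em : ℤ → ℤ} {ω : Cfg} {F : Set (ℤ × ℤ)} {u v : ℤ × ℤ}
    (h : BondW em ω F u v) : BondW em ω F v u := by
  rcases h with h | ⟨u', v', h, rfl, rfl⟩
  · exact Or.inl h.symm
  · exact Or.inr ⟨v', u', h.symm, rfl, rfl⟩

theorem connW_symm {em : ℤ → ℤ} {ω : Cfg} {F : Set (ℤ × ℤ)} {u v : ℤ × ℤ}
    (h : ConnW em ω F u v) : ConnW em ω F v u := by
  induction h with
  | refl => exact Relation.ReflTransGen.refl
  | tail _ hb ih => exact Relation.ReflTransGen.head (bondW_symm hb) ih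

/-- The bonds of the upper half. -/
theorem bondW_up {ω : Cfg} {u v : ℤ × ℤ}
    (h : Bond (perC (2 * m + 1) ω) {f | 0 ≤ f.2 ∧ f.2 < M} u v) :
    BondW (emC m) (perW m ω) (strip M) u v := by
  left
  obtain ⟨x, y, ⟨hy, hy'⟩, h⟩ := h
  simp only at hy hy'
  have e : perW m ω (x, y) = perC (2 * m + 1) ω (x, y) := by
    unfold perW perC
    simp only [if_pos hy]
    push_cast
    rfl
  exact ⟨x, y, ⟨⟨by simp only; omega, hy'⟩, hy⟩, by rw [e]; exact h⟩

theorem connW_up {ω : Cfg} {u v : ℤ × ℤ}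
    (h : Conn (perC (2 * m + 1) ω) {f | 0 ≤ f.2 ∧ f.2 < M} u v) :
    ConnW (emC m) (perW m ω) (strip M) u v := by
  induction h with
  | refl => exact Relation.ReflTransGen.refl
  | tail _ hb ih => exact ih.tail (bondW_up hb)

theorem relW_of_relT_up {ω : Cfg} {u v : ℤ × ℤ} (h : RelT (2 * m + 1) M ω 0 u v) :
    RelW m M ω u v := by
  rcases h with h | ⟨⟨x, hx, hx'⟩, ⟨z, hz, hz'⟩⟩
  · exact Or.inl (connW_up h)
  · exact Or.inr ⟨⟨x, connW_up hx, Or.inl hx'⟩, ⟨z, connW_up hz, Or.inl hz'⟩⟩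

/-- The bonds of the lower half. -/
theorem bondW_lo {ω : Cfg} {u v : ℤ × ℤ}
    (h : Bond (perC (2 * m) (lowC ω)) {f | 0 ≤ f.2 ∧ f.2 < M} u v) :
    BondW (emC m) (perW m ω) (strip M) (twV (emC m) (u.1, -u.2)) (twV (emC m) (v.1, -v.2)) := by
  right
  have h1 := bond_low h
  refine ⟨(u.1, -u.2), (v.1, -v.2), ?_, rfl, rfl⟩
  obtain ⟨i, j, ⟨hj, hj'⟩, h⟩ := h
  simp only at hj hj'
  have e : perC (2 * m) (lowC ω) (i, j) = !perW m ω (i, -1 - j) := by
    unfold perC lowC perW
    have h2 : ¬ (0 : ℤ) ≤ -1 - j := by omega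
    simp only [if_neg h2]
    push_cast
    rfl
  rw [e] at h
  refine ⟨i, -1 - j, ⟨⟨by simp only; omega, by simp only; omega⟩, by simp only; omega⟩, ?_⟩
  rcases h with ⟨h, h'⟩ | ⟨h, h'⟩
  · right
    refine ⟨by simpa using h, ?_⟩
    rcases h' with ⟨rfl, rfl⟩ | ⟨rfl, rfl⟩
    · left
      refine ⟨?_, ?_⟩
      · ext
        · rfl
        · simp only; ring
      · ext
        · rfl
        · simp only; ring
    · right
      refine ⟨?_, ?_⟩
      · ext
        · rfl
        · simp only; ring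
      · ext
        · rfl
        · simp only; ring
  · left
    refine ⟨by simpa using h, ?_⟩
    rcases h' with ⟨rfl, rfl⟩ | ⟨rfl, rfl⟩
    · left
      refine ⟨?_, ?_⟩
      · ext
        · rfl
        · simp only; ring
      · ext
        · rfl
        · simp only; ring
    · right
      refine ⟨?_, ?_⟩
      · ext
        · rfl
        · simp only; ring
      · ext
        · rfl
        · simp only; ring

theorem connW_lo {ω : Cfg} {u v : ℤ × ℤ}
    (h : Conn (perC (2 * m) (lowC ω)) {f | 0 ≤ f.2 ∧ f.2 < M} u v) :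
    ConnW (emC m) (perW m ω) (strip M) (twV (emC m) (u.1, -u.2)) (twV (emC m) (v.1, -v.2)) := by
  induction h with
  | refl => exact Relation.ReflTransGen.refl
  | tail _ hb ih => exact ih.tail (bondW_lo hb)

theorem twV_snd (em : ℤ → ℤ) (v : ℤ × ℤ) : (twV em v).2 = v.2 := by
  unfold twV
  split_ifs with h
  · exact h.symm
  · rfl

theorem relW_of_relT_lo {ω : Cfg} {u v : ℤ × ℤ}
    (h : RelT (2 * m) M (lowC ω) 0 u v) :
    RelW m M ω (twV (emC m) (u.1, -u.2)) (twV (emC m) (v.1, -v.2)) := by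
  rcases h with h | ⟨⟨x, hx, hx'⟩, ⟨z, hz, hz'⟩⟩
  · exact Or.inl (connW_lo h)
  · refine Or.inr ⟨⟨_, connW_lo hx, Or.inr ?_⟩, ⟨_, connW_lo hz, Or.inr ?_⟩⟩
    · rw [twV_snd]; simp only [hx']
    · rw [twV_snd]; simp only [hz']

end TwA

open TwA CylArmA

theorem relW_equivalence (m M : ℕ) (ω : Cfg) : Equivalence (RelW m M ω) := by
  refine ⟨fun u => Or.inl Relation.ReflTransGen.refl, ?_, ?_⟩
  · rintro u v (h | ⟨h, h'⟩)
    · exact Or.inl (connW_symm h)
    · exact Or.inr ⟨h', h⟩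
  · rintro u v w (h | ⟨h, h'⟩) (h1 | ⟨h1, h1'⟩)
    · exact Or.inl (h.trans h1)
    · obtain ⟨x, hx, hx'⟩ := h1
      exact Or.inr ⟨⟨x, h.trans hx, hx'⟩, h1'⟩
    · obtain ⟨x, hx, hx'⟩ := h'
      exact Or.inr ⟨h, ⟨x, (connW_symm h1).trans hx, hx'⟩⟩
    · exact Or.inr ⟨h, h1'⟩

/-- Translation by `j` periods of a vertex in the row `0` or above. -/
theorem relW_shift (hm : 0 < m) {ω : Cfg} {x x' : ℤ} (h : RelW m M ω (x, 0) (x', 0)) (j : ℤ) :
    RelW m M ω (x + j * (2 * m + 1), 0) (x' + j * (2 * m + 1), 0) := by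
  have e : ∀ a : ℤ, tr m j (a, 0) = (a + j * (2 * m + 1), 0) := by
    intro a
    unfold tr
    simp only [le_refl, if_true]
  rw [← e, ← e]
  rcases h with h | ⟨⟨u, hu, hu'⟩, ⟨v, hv, hv'⟩⟩
  · exact Or.inl (connW_tr hm j h)
  · exact Or.inr ⟨⟨_, connW_tr hm j hu, hu'⟩, ⟨_, connW_tr hm j hv, hv'⟩⟩

theorem nco_upOS (m M : ℕ) (ω : Cfg) : NCO (2 * m + 1) (upOS (2 * m + 1) M ω) :=
  TwoO.nco_runO _ _ _ (nco_flatO (by omega))

/-- The arcs of the upper state are sound: the left gap of `x` is connected to the right gap of the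
partner, with a shift by an odd number of periods if and only if the label is `true`. -/
theorem sound_upO (hm : 0 < m) (ω : Cfg) {x : ℕ} (hx : x < 2 * m + 1)
    (hp : upOS (2 * m + 1) M ω x ≠ x) :
    ∃ k : ℤ, (k % 2 = 1 ↔ labO (upOS (2 * m + 1) M ω) x = true) ∧
      RelW m M ω ((x : ℤ), 0)
        (((upOS (2 * m + 1) M ω x : ℕ) : ℤ) + 1 + k * (2 * m + 1), 0) := by
  obtain ⟨p, h1, h3, h4⟩ := soundO_run (L := 2 * m + 1) (M := M) (by omega) ω le_rfl
  have h5 : upOS (2 * m + 1) M ω = p := by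
    unfold upOS
    rw [h4, Nat.sub_self]; rfl
  rw [h5] at hp ⊢
  rw [sub_self] at h3
  have h7 := relW_of_relT_up (h3 x hx hp)
  have hf := h1.thr_fix
  have n1 : x ≠ thr p := by rintro rfl; exact hp hf
  have n2 : p x ≠ thr p := by
    intro e
    have := h1.inv x
    rw [e, hf] at this
    exact n1 this.symm
  refine ⟨(if thr p < x then 1 else 0) - (if thr p < p x then 1 else 0), ?_, ?_⟩
  · unfold labO
    rcases Nat.lt_or_gt_of_ne n1 with a1 | a1 <;> rcases Nat.lt_or_gt_of_ne n2 with a2 | a2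
    · simp [a1, a2, not_lt.2 a1.le, not_lt.2 a2.le]
    · simp [a1, a2, not_lt.2 a1.le, not_lt.2 a2.le]
    · simp [a1, a2, not_lt.2 a1.le, not_lt.2 a2.le]
    · simp [a1, a2, not_lt.2 a1.le, not_lt.2 a2.le]
  · have h8 := relW_shift hm h7 (if thr p < x then 1 else 0)
    have e1 : ((x : ℤ) - (if thr p < x then ((2 * m + 1 : ℕ) : ℤ) else 0)) +
        (if thr p < x then 1 else 0) * (2 * m + 1) = x := by
      split_ifs <;> push_cast <;> ring
    have e2 : (((p x + 1 : ℕ) : ℤ) - (if thr p < p x then ((2 * m + 1 : ℕ) : ℤ) else 0)) +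
        (if thr p < x then 1 else 0) * (2 * m + 1) =
        ((p x : ℕ) : ℤ) + 1 + ((if thr p < x then 1 else 0) - (if thr p < p x then 1 else 0)) *
          (2 * m + 1) := by
      split_ifs <;> push_cast <;> ring
    rw [e1, e2] at h8
    exact h8

/-- The arcs of the lower state are sound (in upper coordinates; `x` and the partner are lower
sites, the gap `2 m` of a period is the gap `0` of the next one). -/
theorem sound_loW (hm : 0 < m) (ω : Cfg) {x : ℕ} (hx : x < 2 * m) :
    ∃ k : ℤ, (k % 2 = 1 ↔ (loS (2 * m) M ω).2 x = true) ∧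
      RelW m M ω (emC m x, 0)
        (emC m (((loS (2 * m) M ω).1 x : ℕ) + 1) + k * (2 * m + 1), 0) := by
  obtain ⟨k, hk, a, ha⟩ := sound_aux (L := 2 * m) (M := M) (by omega) (by omega) (lowC ω) hx
  refine ⟨k, hk, ?_⟩
  have h1 := relW_of_relT_lo ha
  have e0 : ∀ b : ℤ, twV (emC m) (b, -0) = (emC m b, 0) := by
    intro b; unfold twV; simp
  simp only [e0] at h1
  have h2 := relW_shift hm h1 (-a)
  have e1 : emC m ((x : ℤ) + a * ((2 * m : ℕ) : ℤ)) + -a * (2 * m + 1) = emC m x := by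
    push_cast
    rw [emC_add hm]; ring
  have e2 : emC m ((((run (2 * m) (lowC ω) M (s0 (2 * m))).1 x : ℕ) : ℤ) + 1 +
      (k + a) * ((2 * m : ℕ) : ℤ)) + -a * (2 * m + 1) =
      emC m ((((run (2 * m) (lowC ω) M (s0 (2 * m))).1 x : ℕ) : ℤ) + 1) + k * (2 * m + 1) := by
    push_cast
    rw [emC_add hm]; ring
  rw [e1, e2] at h2
  exact h2

end Pool.Agent.Perc
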