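import Pool.Agent.Lib.MP_6bd702_perc3.TwA

/-!
# The twisted cylinder: the three-leg event gives relations of the core vertices (task TwB_rel)

Follow the path of arcs from a `D`-node to another `D`-node. An arc relates the left gap of a site
to the right gap of its partner and the right gap to the left gap; the glued sites have the same
gaps. The gaps of the three `D`-nodes are the pairs of core vertices (at the end of the period `0`).
-/

set_option autoImplicit false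

namespace Pool.Agent.Perc

open Finset

variable {m M : ℕ}

namespace TwB

/-- The left gap of a node. -/
def Lg (m x : ℕ) : ℤ := if x = 2 * m + 1 then 2 * m - 1 else x

/-- The right gap of a node. -/
def Rg (m x : ℕ) : ℤ := if x = 2 * m + 1 then 2 * m + 1 else x + 1

/-- Two gaps are related with a shift of the given parity. -/
def RR (m M : ℕ) (ω : Cfg) (g g' : ℤ) (ε : Bool) : Prop :=
  ∃ k : ℤ, (k % 2 = 1 ↔ ε = true) ∧ RelW m M ω (g, 0) (g' + k * (2 * m + 1), 0)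

theorem RR.refl (ω : Cfg) (g : ℤ) : RR m M ω g g false :=
  ⟨0, by simp, by simpa using (relW_equivalence m M ω).refl _⟩

theorem RR.symm (hm : 0 < m) {ω : Cfg} {g g' : ℤ} {ε : Bool} (h : RR m M ω g g' ε) : RR m M ω g' g ε := by
  obtain ⟨k, hk, h⟩ := h
  refine ⟨-k, ?_, ?_⟩
  · rw [← hk]
    omega
  · have h1 := relW_shift hm h (-k)
    have e : g' + k * (2 * (m : ℤ) + 1) + -k * (2 * m + 1) = g' := by ring
    rw [e] at h1
    exact (relW_equivalence m M ω).symm h1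

theorem RR.trans (hm : 0 < m) {ω : Cfg} {g g' g'' : ℤ} {ε δ : Bool} (h : RR m M ω g g' ε)
    (h' : RR m M ω g' g'' δ) : RR m M ω g g'' (xor ε δ) := by
  obtain ⟨k, hk, h⟩ := h
  obtain ⟨l, hl, h'⟩ := h'
  refine ⟨l + k, ?_, ?_⟩
  · have e : xor ε δ = true ↔ ¬ (ε = true ↔ δ = true) := by
      cases ε <;> cases δ <;> simp
    rw [e, ← hk, ← hl]
    omega
  · have h1 := relW_shift hm h' k
    have e : g'' + l * (2 * (m : ℤ) + 1) + k * (2 * m + 1) = g'' + (l + k) * (2 * m + 1) := by ring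
    rw [e] at h1
    exact (relW_equivalence m M ω).trans h h1

/-- Every gap of the node `a` is related to a gap of the node `c`. -/
def GR (m M : ℕ) (ω : Cfg) (a c : ℕ) (ε : Bool) : Prop :=
  ∀ g, g = Lg m a ∨ g = Rg m a → ∃ g', (g' = Lg m c ∨ g' = Rg m c) ∧ RR m M ω g g' ε

theorem GR.refl (ω : Cfg) (a : ℕ) : GR m M ω a a false := fun g hg => ⟨g, hg, RR.refl ω g⟩

theorem GR.trans (hm : 0 < m) {ω : Cfg} {a b c : ℕ} {ε δ : Bool} (h : GR m M ω a b ε) (h' : GR m M ω b c δ) :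
    GR m M ω a c (xor ε δ) := by
  intro g hg
  obtain ⟨g', hg', h1⟩ := h g hg
  obtain ⟨g'', hg'', h2⟩ := h' g' hg'
  exact ⟨g'', hg'', RR.trans hm h1 h2⟩

theorem GR.of_cross (hm : 0 < m) {ω : Cfg} {a c : ℕ} {ε : Bool} (h1 : RR m M ω (Lg m a) (Rg m c) ε)
    (h2 : RR m M ω (Lg m c) (Rg m a) ε) : GR m M ω a c ε := by
  rintro g (rfl | rfl)
  · exact ⟨_, Or.inr rfl, h1⟩
  · exact ⟨_, Or.inl rfl, RR.symm hm h2⟩

theorem gp_up (hm : 0 < m) (hM : 0 < M) (ω : Cfg) (x : ℕ) :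
    GR m M ω x ((upO (upOS (2 * m + 1) M ω)).1 x) ((upO (upOS (2 * m + 1) M ω)).2 x) := by
  have hN := nco_upOS m M ω
  have hI := LInv.upO hN
  change GR m M ω x (upOS (2 * m + 1) M ω x) (labO (upOS (2 * m + 1) M ω) x)
  by_cases hx : upOS (2 * m + 1) M ω x = x
  · rw [hx, show labO (upOS (2 * m + 1) M ω) x = false from hI.fix x hx]
    exact GR.refl ω x
  · have hx1 : x < 2 * m + 1 := by
      by_contra hcon
      exact hx (hN.out x (by omega))
    have hy1 : upOS (2 * m + 1) M ω x < 2 * m + 1 := hN.lt x hx1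
    have hyy : upOS (2 * m + 1) M ω (upOS (2 * m + 1) M ω x) = x := hN.inv x
    have key : ∀ y, y < 2 * m + 1 → upOS (2 * m + 1) M ω y < 2 * m + 1 →
        upOS (2 * m + 1) M ω y ≠ y →
        RR m M ω (Lg m y) (Rg m (upOS (2 * m + 1) M ω y)) (labO (upOS (2 * m + 1) M ω) y) := by
      intro y hy hy' hyn
      obtain ⟨k, hk, h⟩ := sound_upO hm ω hy hyn
      refine ⟨k, hk, ?_⟩
      rw [Lg, Rg, if_neg (by omega), if_neg (by omega)]
      exact h
    refine GR.of_cross hm (key x hx1 hy1 hx) ?_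
    have h2 := key _ hy1 (by rw [hyy]; exact hx1) (by rw [hyy]; exact Ne.symm hx)
    rw [hyy, show labO (upOS (2 * m + 1) M ω) (upOS (2 * m + 1) M ω x) =
      labO (upOS (2 * m + 1) M ω) x from hI.lab x] at h2
    exact h2

theorem emC_lt {y : ℕ} (hy : y < 2 * m) : emC m (y : ℤ) = y := by
  have h0 : (0 : ℤ) ≤ y := by omega
  have h1 : (y : ℤ) < 2 * m := by omega
  rw [emC, Int.ediv_eq_zero_of_lt h0 h1, Int.emod_eq_of_lt h0 h1]
  ring

theorem emC_top (hm : 0 < m) : emC m (2 * m : ℤ) = 2 * m + 1 := by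
  have h : (2 * m : ℤ) ≠ 0 := by omega
  rw [emC, Int.ediv_self h, Int.emod_self]
  ring

theorem lg_swap (hm : 0 < m) {y : ℕ} (hy : y < 2 * m) :
    Lg m (Equiv.swap (2 * m - 1) (2 * m - 1 + 2) y) = emC m y := by
  rcases Nat.lt_or_ge y (2 * m - 1) with h | h
  · rw [Equiv.swap_apply_of_ne_of_ne (by omega) (by omega), emC_lt hy, Lg, if_neg (by omega)]
  · have e : y = 2 * m - 1 := by omega
    rw [emC_lt hy, e, Equiv.swap_apply_left, Lg, if_pos (by omega)]
    omega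

theorem rg_swap (hm : 0 < m) {y : ℕ} (hy : y < 2 * m) :
    Rg m (Equiv.swap (2 * m - 1) (2 * m - 1 + 2) y) = emC m ((y : ℤ) + 1) := by
  rcases Nat.lt_or_ge y (2 * m - 1) with h | h
  · have e : ((y : ℤ) + 1) = ((y + 1 : ℕ) : ℤ) := by push_cast; ring
    rw [e, emC_lt (by omega : y + 1 < 2 * m),
      Equiv.swap_apply_of_ne_of_ne (by omega) (by omega), Rg, if_neg (by omega)]
    push_cast
    ring
  · have e : y = 2 * m - 1 := by omega
    have e2 : ((y : ℤ) + 1) = 2 * m := by omega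
    rw [e2, emC_top hm, e, Equiv.swap_apply_left, Rg, if_pos (by omega)]

theorem gp_lo (hm : 0 < m) (ω : Cfg) (x : ℕ) :
    GR m M ω x ((dnO (2 * m - 1) (loS (2 * m) M ω)).1 x)
      ((dnO (2 * m - 1) (loS (2 * m) M ω)).2 x) := by
  have hA : IsAnn (2 * m) (loS (2 * m) M ω) := TwoB.isAnn_lo (by omega) (by omega) ω
  have hI := LInv.ann hA
  have key : ∀ y, y < 2 * m →
      RR m M ω (Lg m (Equiv.swap (2 * m - 1) (2 * m - 1 + 2) y))
        (Rg m (Equiv.swap (2 * m - 1) (2 * m - 1 + 2) ((loS (2 * m) M ω).1 y)))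
        ((loS (2 * m) M ω).2 y) := by
    intro y hy
    obtain ⟨k, hk, h⟩ := sound_loW (M := M) hm ω hy
    refine ⟨k, hk, ?_⟩
    rw [lg_swap hm hy, rg_swap hm (hA.nc.lt y hy)]
    exact h
  obtain ⟨y, rfl⟩ : ∃ y, x = Equiv.swap (2 * m - 1) (2 * m - 1 + 2) y :=
    ⟨Equiv.swap (2 * m - 1) (2 * m - 1 + 2) x, by rw [Equiv.swap_apply_self]⟩
  change GR m M ω _ (Equiv.swap (2 * m - 1) (2 * m - 1 + 2) ((loS (2 * m) M ω).1
    (Equiv.swap (2 * m - 1) (2 * m - 1 + 2) (Equiv.swap (2 * m - 1) (2 * m - 1 + 2) y))))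
    ((loS (2 * m) M ω).2 (Equiv.swap (2 * m - 1) (2 * m - 1 + 2)
      (Equiv.swap (2 * m - 1) (2 * m - 1 + 2) y)))
  rw [Equiv.swap_apply_self]
  rcases Nat.lt_or_ge y (2 * m) with hy | hy
  · refine GR.of_cross hm (key y hy) ?_
    have h2 := key _ (hA.nc.lt y hy)
    rw [hI.inv, hI.lab] at h2
    exact h2
  · rw [hA.nc.out y hy, hA.out y hy]
    exact GR.refl ω _

theorem gp_path (hm : 0 < m) (hM : 0 < M) (ω : Cfg) {a : ℕ} {b : ℕ × Bool}
    (h : PR (upO (upOS (2 * m + 1) M ω)) (dnO (2 * m - 1) (loS (2 * m) M ω)) (a, false) b) :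
    GR m M ω a b.1 b.2 := by
  induction h with
  | refl => exact GR.refl ω a
  | @tail x y _ hbc ih =>
    rcases hbc with ⟨h1, h2⟩ | ⟨h1, h2⟩
    · rw [h1, h2]
      exact GR.trans hm ih (gp_up hm hM ω x.1)
    · rw [h1, h2]
      exact GR.trans hm ih (gp_lo hm ω x.1)

end TwB

open TwB in
/-- The relations between the core vertices (translated to the core at the period `0`). -/
theorem relW_of_tri (hm : 0 < m) (hM : 0 < M) (ω : Cfg)
    (h : Tri (2 * m - 1) (upO (upOS (2 * m + 1) M ω)) (dnO (2 * m - 1) (loS (2 * m) M ω))) :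
    ∀ x, Core x → ∃ x' s, Core x' ∧ s % 2 = 1 ∧
      RelW m M ω (x, 0) (x' + s * (2 * m + 1), 0) := by
  obtain ⟨a, b, ha1, ha2, hb1, hb2, hab, hP⟩ := h
  have hI1 := LInv.upO (nco_upOS m M ω)
  have hI2 := (LInv.ann (TwoB.isAnn_lo (M := M) (by omega : (2 * m) % 2 = 0) (by omega) ω)).dnO
    (2 * m - 1)
  have h1 := gp_path hm hM ω hP
  have h2 : GR m M ω b a true := by
    have h3 := ((PR.symm hI1 hI2 hP).add true)
    have h4 := gp_path hm hM ω h3
    exact h4
  have fin : ∀ x : ℤ, ∀ c d : ℕ, 2 * m - 1 ≤ d → d < 2 * m - 1 + 3 → GR m M ω c d true →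
      (x + (2 * m + 1) = Lg m c ∨ x + (2 * m + 1) = Rg m c) →
      ∃ x' s, Core x' ∧ s % 2 = 1 ∧ RelW m M ω (x, 0) (x' + s * (2 * m + 1), 0) := by
    intro x c d hd1 hd2 hG hx
    obtain ⟨g', hg', k, hk, hR⟩ := hG _ hx
    refine ⟨g' - (2 * m + 1), k, ?_, hk.2 rfl, ?_⟩
    · rcases hg' with rfl | rfl
      · rw [Lg]
        unfold Core
        split_ifs <;> omega
      · rw [Rg]
        unfold Core
        split_ifs <;> omega
    · have h5 := relW_shift hm hR (-1)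
      have e1 : x + (2 * (m : ℤ) + 1) + -1 * (2 * m + 1) = x := by ring
      have e2 : g' + k * (2 * (m : ℤ) + 1) + -1 * (2 * m + 1) =
        g' - (2 * m + 1) + k * (2 * m + 1) := by ring
      rw [e1, e2] at h5
      exact h5
  intro x hx
  have hcov : (x + (2 * m + 1) = Lg m a ∨ x + (2 * m + 1) = Rg m a) ∨
      (x + (2 * m + 1) = Lg m b ∨ x + (2 * m + 1) = Rg m b) := by
    rw [Lg, Rg, Lg, Rg]
    unfold Core at hx
    split_ifs <;> omega
  rcases hcov with h3 | h3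
  · exact fin x a b hb1 hb2 h1 h3
  · exact fin x b a ha1 ha2 h2 h3

end Pool.Agent.Perc
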