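import Pool.Agent.Lib.MP_6bd702_perc3.TwB

/-!
# The twisted cylinder: three arms of the core of the twisted plane (task TwB_arm)
-/

set_option autoImplicit false

namespace Pool.Agent.Perc

open Finset

variable {m M : ℕ}

namespace TwBarm

/-- Strictly inside the box of radius `m - 1`. -/
def Ins (m : ℕ) (v : ℤ × ℤ) : Prop :=
  (0 ≤ v.2 ∧ -((m : ℤ) + 1) < v.1 ∧ v.1 < m - 1 ∧ v.2 < m - 1) ∨
    (v.2 < 0 ∧ -(m : ℤ) < v.1 ∧ v.1 < m - 1 ∧ -((m : ℤ) - 1) < v.2)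

/-- In the closed box of radius `m - 1`. -/
def Clo (m : ℕ) (v : ℤ × ℤ) : Prop :=
  (0 ≤ v.2 ∧ -((m : ℤ) + 1) ≤ v.1 ∧ v.1 ≤ m - 1 ∧ v.2 ≤ m - 1) ∨
    (v.2 < 0 ∧ -(m : ℤ) ≤ v.1 ∧ v.1 ≤ m - 1 ∧ -((m : ℤ) - 1) ≤ v.2)

theorem bd_of_clo {v : ℤ × ℤ} (h : Clo m v) (h' : ¬ Ins m v) : BdW ((m : ℤ) - 1) v := by
  unfold Clo at h
  unfold Ins at h'
  unfold BdW
  omega

theorem emC_eq (hm : 0 < m) {l : ℤ} (h1 : -(2 * (m : ℤ)) ≤ l) (h2 : l < 2 * m) :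
    emC m l = emP l := by
  unfold emC emP
  have hm' : (0 : ℤ) < 2 * m := by omega
  by_cases h : 0 ≤ l
  · rw [if_pos h, Int.ediv_eq_zero_of_lt h h2, Int.emod_eq_of_lt h h2]; ring
  · rw [if_neg h]
    have e1 : l = (l + 2 * m) + (-1) * (2 * m) := by ring
    have e2 : l / (2 * (m : ℤ)) = -1 := by
      rw [e1, Int.add_mul_ediv_right _ _ (by omega), Int.ediv_eq_zero_of_lt (by omega) (by omega)]
      ring
    have e3 : l % (2 * (m : ℤ)) = l + 2 * m := by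
      rw [e1, Int.add_mul_emod_self_right, Int.emod_eq_of_lt (by omega) (by omega)]; ring
    rw [e2, e3]; ring

theorem emC_inv (hm : 0 < m) {l : ℤ} (h1 : -((m : ℤ) + 1) < emC m l) (h2 : emC m l < m - 1) :
    -(m : ℤ) < l ∧ l < m - 1 := by
  unfold emC at h1 h2
  have hm' : (0 : ℤ) < 2 * m := by omega
  have e := Int.emod_add_mul_ediv l (2 * m)
  have r1 := Int.emod_nonneg l hm'.ne'
  have r2 := Int.emod_lt_of_pos l hm'
  set k := l / (2 * (m : ℤ)) with hk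
  set r := l % (2 * (m : ℤ)) with hr
  have hm1 : (1 : ℤ) ≤ m := by exact_mod_cast hm
  have k1 : k < 1 := by
    by_contra hc
    have : (1 : ℤ) ≤ k := by omega
    nlinarith
  have k2 : -2 < k := by
    by_contra hc
    have : k ≤ -2 := by omega
    nlinarith
  obtain hk0 | hk0 : k = 0 ∨ k = -1 := by omega
  · rw [hk0] at e h1 h2
    constructor <;> linarith
  · rw [hk0] at e h1 h2
    constructor <;> linarith

theorem step_up {ω : Cfg} {u v : ℤ × ℤ} (hu : Ins m u)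
    (h : Bond ω {f | f ∈ strip M ∧ 0 ≤ f.2} u v) :
    Bond ω {f | f ∈ (BW ((m : ℤ) - 1) : Set (ℤ × ℤ)) ∧ 0 ≤ f.2} u v ∧ Clo m v := by
  obtain ⟨x, y, ⟨_, hy⟩, h⟩ := h
  simp only at hy
  have key : ∀ u : ℤ × ℤ, Ins m u → (u.1 = x ∨ u.1 = x + 1) → (u.2 = y ∨ u.2 = y + 1) →
      ((x, y) : ℤ × ℤ) ∈ (BW ((m : ℤ) - 1) : Set (ℤ × ℤ)) ∧ -((m : ℤ) + 1) ≤ x ∧ x < m - 1 ∧
        y < m - 1 := by
    intro u hu h1 h2
    unfold Ins at hu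
    have h3 : -((m : ℤ) + 1) ≤ x ∧ x < m - 1 ∧ y < m - 1 := by omega
    refine ⟨?_, h3⟩
    unfold BW RF
    rw [mem_coe, mem_union, mem_product, mem_Ico, mem_Ico]
    left
    simp only
    omega
  rcases h with ⟨h, ⟨rfl, rfl⟩ | ⟨rfl, rfl⟩⟩ | ⟨h, ⟨rfl, rfl⟩ | ⟨rfl, rfl⟩⟩
  · obtain ⟨k1, k2⟩ := key _ hu (Or.inl rfl) (Or.inl rfl)
    refine ⟨⟨x, y, ⟨k1, hy⟩, Or.inl ⟨h, Or.inl ⟨rfl, rfl⟩⟩⟩, ?_⟩
    unfold Clo; simp only; omega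
  · obtain ⟨k1, k2⟩ := key _ hu (Or.inr rfl) (Or.inr rfl)
    refine ⟨⟨x, y, ⟨k1, hy⟩, Or.inl ⟨h, Or.inr ⟨rfl, rfl⟩⟩⟩, ?_⟩
    unfold Clo; simp only; omega
  · obtain ⟨k1, k2⟩ := key _ hu (Or.inl rfl) (Or.inr rfl)
    refine ⟨⟨x, y, ⟨k1, hy⟩, Or.inr ⟨h, Or.inl ⟨rfl, rfl⟩⟩⟩, ?_⟩
    unfold Clo; simp only; omega
  · obtain ⟨k1, k2⟩ := key _ hu (Or.inr rfl) (Or.inl rfl)
    refine ⟨⟨x, y, ⟨k1, hy⟩, Or.inr ⟨h, Or.inr ⟨rfl, rfl⟩⟩⟩, ?_⟩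
    unfold Clo; simp only; omega

theorem ins_twV (hm : 0 < m) {u : ℤ × ℤ} (h2 : u.2 ≤ 0) (hu : Ins m (twV (emC m) u)) :
    -(m : ℤ) < u.1 ∧ u.1 < m - 1 ∧ -((m : ℤ) - 1) < u.2 ∧ 1 < m := by
  unfold twV at hu
  by_cases h0 : u.2 = 0
  · rw [if_pos h0] at hu
    unfold Ins at hu
    simp only at hu
    have h1 : -((m : ℤ) + 1) < emC m u.1 ∧ emC m u.1 < m - 1 ∧ (0 : ℤ) < m - 1 := by omega
    have h3 := emC_inv hm h1.1 h1.2.1
    omega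
  · rw [if_neg h0] at hu
    unfold Ins at hu
    omega

theorem step_lo (hm : 0 < m) {ω : Cfg} {u v : ℤ × ℤ} (hu : Ins m (twV (emC m) u))
    (h : Bond ω {f | f ∈ strip M ∧ f.2 < 0} u v) :
    Bond ω {f | f ∈ (BW ((m : ℤ) - 1) : Set (ℤ × ℤ)) ∧ f.2 < 0} u v ∧
      twV (emC m) u = twV emP u ∧ twV (emC m) v = twV emP v ∧ Clo m (twV emP v) := by
  obtain ⟨x, y, ⟨_, hy⟩, h⟩ := h
  simp only at hy
  have key : ∀ u : ℤ × ℤ, Ins m (twV (emC m) u) → (u.1 = x ∨ u.1 = x + 1) →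
      (u.2 = y ∨ u.2 = y + 1) →
      ((x, y) : ℤ × ℤ) ∈ (BW ((m : ℤ) - 1) : Set (ℤ × ℤ)) ∧ -(m : ℤ) ≤ x ∧ x < m - 1 ∧
        -((m : ℤ) - 1) ≤ y ∧ 1 < m := by
    intro u hu h1 h2
    have h3 := ins_twV hm (by omega) hu
    have h4 : -(m : ℤ) ≤ x ∧ x < m - 1 ∧ -((m : ℤ) - 1) ≤ y ∧ 1 < m := by omega
    refine ⟨?_, h4⟩
    unfold BW RF
    rw [mem_coe, mem_union, mem_product, mem_product, mem_Ico, mem_Ico, mem_Ico, mem_Ico]
    right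
    simp only
    omega
  have key2 : ∀ a b : ℤ, -(m : ℤ) ≤ a → a ≤ m - 1 → twV (emC m) (a, b) = twV emP (a, b) := by
    intro a b h1 h2
    unfold twV
    simp only
    rw [emC_eq hm (by omega) (by omega)]
  have key3 : ∀ a b : ℤ, -(m : ℤ) ≤ a → a ≤ m - 1 → -((m : ℤ) - 1) ≤ b → b ≤ 0 → 1 < m →
      Clo m (twV emP (a, b)) := by
    intro a b h1 h2 h3 h4 h5
    unfold twV Clo emP
    simp only
    by_cases hb : b = 0
    · rw [if_pos hb]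
      simp only
      split_ifs <;> omega
    · rw [if_neg hb]
      simp only
      omega
  rcases h with ⟨h, ⟨rfl, rfl⟩ | ⟨rfl, rfl⟩⟩ | ⟨h, ⟨rfl, rfl⟩ | ⟨rfl, rfl⟩⟩
  · obtain ⟨k1, k2⟩ := key _ hu (Or.inl rfl) (Or.inl rfl)
    exact ⟨⟨x, y, ⟨k1, hy⟩, Or.inl ⟨h, Or.inl ⟨rfl, rfl⟩⟩⟩, key2 _ _ (by omega) (by omega),
      key2 _ _ (by omega) (by omega),
      key3 _ _ (by omega) (by omega) (by omega) (by omega) (by omega)⟩
  · obtain ⟨k1, k2⟩ := key _ hu (Or.inr rfl) (Or.inr rfl)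
    exact ⟨⟨x, y, ⟨k1, hy⟩, Or.inl ⟨h, Or.inr ⟨rfl, rfl⟩⟩⟩, key2 _ _ (by omega) (by omega),
      key2 _ _ (by omega) (by omega),
      key3 _ _ (by omega) (by omega) (by omega) (by omega) (by omega)⟩
  · obtain ⟨k1, k2⟩ := key _ hu (Or.inl rfl) (Or.inr rfl)
    exact ⟨⟨x, y, ⟨k1, hy⟩, Or.inr ⟨h, Or.inl ⟨rfl, rfl⟩⟩⟩, key2 _ _ (by omega) (by omega),
      key2 _ _ (by omega) (by omega),
      key3 _ _ (by omega) (by omega) (by omega) (by omega) (by omega)⟩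
  · obtain ⟨k1, k2⟩ := key _ hu (Or.inr rfl) (Or.inl rfl)
    exact ⟨⟨x, y, ⟨k1, hy⟩, Or.inr ⟨h, Or.inr ⟨rfl, rfl⟩⟩⟩, key2 _ _ (by omega) (by omega),
      key2 _ _ (by omega) (by omega),
      key3 _ _ (by omega) (by omega) (by omega) (by omega) (by omega)⟩

theorem step (hm : 0 < m) {ω : Cfg} {u v : ℤ × ℤ} (hu : Ins m u)
    (h : BondW (emC m) ω (strip M) u v) :
    BondW emP ω (BW ((m : ℤ) - 1)) u v ∧ Clo m v := by
  rcases h with h | ⟨u', v', h, rfl, rfl⟩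
  · obtain ⟨h1, h2⟩ := step_up hu h
    exact ⟨Or.inl h1, h2⟩
  · obtain ⟨h1, h2, h3, h4⟩ := step_lo hm hu h
    refine ⟨Or.inr ⟨u', v', h1, h2, h3⟩, ?_⟩
    rw [h3]; exact h4

theorem cut (hm : 0 < m) {ω : Cfg} {u w : ℤ × ℤ}
    (h : ConnW (emC m) ω (strip M) u w) (hu : Ins m u) :
    (∃ v, ConnW emP ω (BW ((m : ℤ) - 1)) u v ∧ BdW ((m : ℤ) - 1) v) ∨
      (Ins m w ∧ ConnW emP ω (BW ((m : ℤ) - 1)) u w) := by
  induction h with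
  | refl => exact Or.inr ⟨hu, Relation.ReflTransGen.refl⟩
  | @tail b c _ hb ih =>
    rcases ih with ih | ⟨ih1, ih2⟩
    · exact Or.inl ih
    · obtain ⟨h1, h2⟩ := step hm ih1 hb
      by_cases hc : Ins m c
      · exact Or.inr ⟨hc, ih2.tail h1⟩
      · exact Or.inl ⟨c, ih2.tail h1, bd_of_clo h2 hc⟩

theorem arm_of_relW (hm : 0 < m) (hM : m ≤ M) {ω : Cfg} {u w : ℤ × ℤ}
    (h : RelW m M ω u w) (hu : Ins m u) (hw : ¬ Ins m w) :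
    ∃ v, ConnW emP (perW m ω) (BW ((m : ℤ) - 1)) u v ∧ BdW ((m : ℤ) - 1) v := by
  have hM' : (m : ℤ) ≤ M := by exact_mod_cast hM
  rcases h with h | ⟨⟨u', h, h'⟩, -⟩
  · rcases cut hm h hu with h1 | h1
    · exact h1
    · exact absurd h1.1 hw
  · rcases cut hm h hu with h1 | h1
    · exact h1
    · exfalso
      have h2 := h1.1
      unfold Ins at h2
      omega

end TwBarm

open TwBarm

/-- The three arms in the box of radius `m - 1` of the twisted plane. -/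
theorem arm3_of_tri (hm : 0 < m) (hM : m ≤ M) (ω : Cfg)
    (h : Tri (2 * m - 1) (upO (upOS (2 * m + 1) M ω)) (dnO (2 * m - 1) (loS (2 * m) M ω))) :
    perW m ω ∈ Arm3 ((m : ℤ) - 1) := by
  intro x hx
  by_cases h1 : m = 1
  · refine ⟨(x, 0), Relation.ReflTransGen.refl, ?_⟩
    subst h1
    left
    simp
  have hr := relW_of_tri hm (by omega : 0 < M) ω h
  obtain ⟨x', s, hx', hs, hrel⟩ := hr x hx
  refine arm_of_relW hm hM hrel ?_ ?_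
  · unfold Core at hx
    unfold Ins
    simp only
    omega
  · unfold Core at hx'
    unfold Ins
    simp only
    have hs1 : 1 ≤ s ∨ s ≤ -1 := by omega
    have hm' : (1 : ℤ) ≤ m := by exact_mod_cast hm
    rcases hs1 with hs1 | hs1
    · have : (2 * (m : ℤ) + 1) ≤ s * (2 * m + 1) := by nlinarith
      omega
    · have : s * (2 * m + 1) ≤ -(2 * (m : ℤ) + 1) := by nlinarith
      omega

end Pool.Agent.Perc
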