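import Pool.Agent.Lib.MP_6bd702_perc3.S2Defs
import Pool.Agent.Lib.MP_6bd702_perc3.TwArc
import Pool.Agent.Lib.MP_6bd702_perc3.OneArmT
import Pool.Agent.Lib.MP_6bd702_perc3.TubeC

/-!
# The boundary of the boxes of the twisted plane: distances, corners, parities
-/

set_option autoImplicit false

namespace Pool.Agent.Perc.Q

open Finset Pool.Agent.Perc

variable {r t t' a : ℤ} {f : ℤ × ℤ} {k : ZMod 4}

open BdAux

/-- A corner in the box of a face outside the box is a boundary vertex. -/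
theorem corner_out (hr : 0 < r) (hf : f ∉ BW r) (h : InW r (TQ.c f k)) :
    ∃ t, 0 ≤ t ∧ t < 8 * r + 3 ∧ bd r t = TQ.c f k := by
  refine (bdW_iff hr).1 ⟨?_, h⟩
  obtain ⟨x, y, e, h2, h1⟩ := c_spec f k
  rw [mem_BW] at hf
  unfold InW at h
  unfold BdW
  omega

/-- The same for the core. -/
theorem corner_bd (hr : 0 ≤ r) {f : ℤ × ℤ} (hf : f ∉ BW r) {k : ZMod 4}
    (h : InW r (TQ.c f k)) : ∃ t, 0 ≤ t ∧ t < 8 * r + 3 ∧ bd r t = TQ.c f k := by
  rcases hr.lt_or_eq with hr0 | hr0
  · exact corner_out hr0 hf h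
  · subst hr0
    unfold InW at h
    refine ⟨-(TQ.c f k).1, by omega, by omega, ?_⟩
    unfold bd
    by_cases h1 : (TQ.c f k).1 = 0
    · rw [if_pos (by omega)]
      exact Prod.ext (by simp only; omega) (by simp only; omega)
    · rw [if_neg (by omega), if_pos (by omega)]
      exact Prod.ext (by simp only; omega) (by simp only; omega)

/-- One step on the boundary. -/
theorem bd_step (hr : 0 < r) (h0 : 0 ≤ t) (h1 : t < 8 * r + 3) :
    ((bd r (t + 1)).1 - (bd r t).1 ≤ 1 ∧ -1 ≤ (bd r (t + 1)).1 - (bd r t).1) ∧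
      (bd r (t + 1)).2 - (bd r t).2 ≤ 1 ∧ -1 ≤ (bd r (t + 1)).2 - (bd r t).2 := by
  unfold bd
  split_ifs <;> dsimp only <;> omega

/-- The boundary cycle is Lipschitz. -/
theorem bd_lip (hr : 0 < r) (h0 : 0 ≤ t) (h : t ≤ t') (h1 : t' ≤ 8 * r + 3) :
    |(bd r t').1 - (bd r t).1| ≤ t' - t ∧ |(bd r t').2 - (bd r t).2| ≤ t' - t := by
  revert h1
  induction t', h using Int.leInduction with
  | base =>
    intro _
    rw [sub_self, sub_self, sub_self, abs_zero]
    exact ⟨le_rfl, le_rfl⟩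
  | succ n hn ih =>
    intro h1
    have h2 := ih (by omega)
    have h3 := bd_step hr (t := n) (by omega) (by omega)
    rw [abs_le, abs_le] at h2 ⊢
    omega

/-- The other way round. -/
theorem bd_lip' (hr : 0 < r) (h0 : 0 ≤ t) (h : t ≤ t') (h1 : t' ≤ 8 * r + 3) :
    |(bd r t').1 - (bd r t).1| ≤ 8 * r + 3 - (t' - t) ∧
      |(bd r t').2 - (bd r t).2| ≤ 8 * r + 3 - (t' - t) := by
  have h2 := bd_lip hr (t := t') (t' := 8 * r + 3) (by omega) h1 le_rfl
  have h3 := bd_lip hr (t := 0) (t' := t) le_rfl h0 (by omega)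
  rw [bd_last hr.le] at h2
  rw [abs_le, abs_le] at h2 h3 ⊢
  omega

theorem dT_le_iff {u v : ℤ × ℤ} : dT u v ≤ a ↔ |u.1 - v.1| ≤ a ∧ |u.2 - v.2| ≤ a := by
  unfold dT
  exact max_le_iff

theorem dT_comm (u v : ℤ × ℤ) : dT u v = dT v u := by
  unfold dT
  rw [abs_sub_comm u.1, abs_sub_comm u.2]

/-- One step on the cycle. -/
theorem bdc_step (hr : 0 < r) (x : ℤ) : dT (bdc r (x + 1)) (bdc r x) ≤ 1 := by
  have hpos : 0 < 8 * r + 3 := by omega
  have h0 := Int.emod_nonneg x hpos.ne'
  have h1 := Int.emod_lt_of_pos x hpos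
  have e2 : bdc r (x + 1) = bd r (x % (8 * r + 3) + 1) := by
    rw [← bdc_succ hr.le h0 h1]
    refine bdc_per ?_
    have := Int.emod_add_mul_ediv x (8 * r + 3)
    exact ⟨x / (8 * r + 3), by linarith⟩
  have e1 : bdc r x = bd r (x % (8 * r + 3)) := rfl
  have h3 := bd_step hr h0 h1
  rw [e1, e2, dT_le_iff, abs_le, abs_le]
  omega

theorem bdc_lip (hr : 0 < r) {x y : ℤ} (h : x ≤ y) : dT (bdc r y) (bdc r x) ≤ y - x := by
  induction y, h using Int.leInduction with
  | base =>
    unfold dT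
    rw [sub_self, sub_self, abs_zero, max_self, sub_self]
  | succ n hn ih =>
    have h3 := bdc_step hr n
    rw [dT_le_iff, abs_le, abs_le] at ih h3 ⊢
    omega

/-- The boundary cycle is Lipschitz, up to the constant `1` for the core. -/
theorem dT_bd (hr : 0 ≤ r) (x y : ℤ) : dT (bdc r x) (bdc r y) ≤ |x - y| + 1 := by
  rcases hr.lt_or_eq with hr0 | hr0
  · rcases le_total x y with h | h
    · rw [dT_comm]
      have := bdc_lip hr0 h
      rw [abs_sub_comm, abs_of_nonneg (by omega)]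
      omega
    · have := bdc_lip hr0 h
      rw [abs_of_nonneg (by omega)]
      omega
  · subst hr0
    by_cases h : x = y
    · rw [h]
      unfold dT
      rw [sub_self, sub_self, abs_zero, max_self, sub_self, abs_zero]
      norm_num
    · have key : ∀ z : ℤ, (bdc 0 z).2 = 0 ∧ -2 ≤ (bdc 0 z).1 ∧ (bdc 0 z).1 ≤ 0 := by
        intro z
        have h0 := Int.emod_nonneg z (b := 3) (by norm_num)
        have h1 := Int.emod_lt_of_pos z (b := 3) (by norm_num)
        have e : bdc 0 z = bd 0 (z % 3) := by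
          unfold bdc
          norm_num
        rw [e]
        have h3 : z % 3 = 0 ∨ z % 3 = 1 ∨ z % 3 = 2 := by omega
        rcases h3 with h3 | h3 | h3 <;> rw [h3] <;> decide
      have h4 : 1 ≤ |x - y| := Int.one_le_abs (sub_ne_zero.2 h)
      have kx := key x
      have ky := key y
      refine le_trans ?_ (show (2 : ℤ) ≤ |x - y| + 1 by omega)
      rw [dT_le_iff, abs_le, abs_le]
      omega

/-- The corners of a face are close to each other. -/
theorem dT_corner (f : ℤ × ℤ) (k l : ZMod 4) : dT (TQ.c f k) (TQ.c f l) ≤ 2 := by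
  obtain ⟨x, y, e, h2, h1⟩ := c_spec f k
  obtain ⟨x', y', e', h2', h1'⟩ := c_spec f l
  rw [dT_le_iff, abs_le, abs_le]
  omega

theorem dT_corner' (f : ℤ × ℤ) (k : ZMod 4) : dT (TQ.c f k) f ≤ 1 := by
  obtain ⟨x, y, e, h2, h1⟩ := c_spec f k
  rw [dT_le_iff, abs_le, abs_le]
  omega

theorem dT_triangle (u v z : ℤ × ℤ) : dT u z ≤ dT u v + dT v z := by
  unfold dT
  refine max_le ?_ ?_
  · exact (abs_sub_le u.1 v.1 z.1).trans (add_le_add (le_max_left _ _) (le_max_left _ _))
  · exact (abs_sub_le u.2 v.2 z.2).trans (add_le_add (le_max_right _ _) (le_max_right _ _))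

/-- A position away from the special positions is in the interior of one of eight pieces. -/
theorem away_cases {R g : ℤ} (hg : 0 < g) (h0 : 0 ≤ t) (h1 : t < 8 * R + 3) (h : Away R g t) :
    (g ≤ t ∧ t + g ≤ R) ∨ (R + g ≤ t ∧ t + g ≤ 2 * R + 1) ∨
      (2 * R + 1 + g ≤ t ∧ t + g ≤ 3 * R + 2) ∨ (3 * R + 2 + g ≤ t ∧ t + g ≤ 4 * R + 2) ∨
      (4 * R + 2 + g ≤ t ∧ t + g ≤ 5 * R + 2) ∨ (5 * R + 2 + g ≤ t ∧ t + g ≤ 6 * R + 3) ∨
      (6 * R + 3 + g ≤ t ∧ t + g ≤ 7 * R + 3) ∨ (7 * R + 3 + g ≤ t ∧ t + g ≤ 8 * R + 3) := by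
  unfold Away spec at h
  simp only [List.mem_cons, List.not_mem_nil, or_false, forall_eq_or_imp, forall_eq,
    le_abs] at h
  obtain ⟨a0, a1, a2, a3, a4, a5, a6, a7, a8⟩ := h
  omega

/-- Boundary vertices near a boundary vertex away from the special positions are near on the
cycle. -/
theorem bd_close (ha : 0 ≤ a) (h0 : 0 ≤ t) (h1 : t < 8 * r + 3) (h0' : 0 ≤ t')
    (h1' : t' ≤ 8 * r + 3) (hA : Away r (a + 1) t) (hx : |(bd r t').1 - (bd r t).1| ≤ a)
    (hy : |(bd r t').2 - (bd r t).2| ≤ a) : |t' - t| ≤ a := by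
  have hc := away_cases (by omega) h0 h1 hA
  rw [abs_le] at hx hy ⊢
  rcases hc with hc | hc | hc | hc | hc | hc | hc | hc
  · have e : bd r t = (r, t) := bd_R (by omega)
    rw [e] at hx hy
    clear e hA
    dsimp only at hx hy
    unfold bd at hx hy
    split_ifs at hx hy <;> dsimp only at hx hy <;> omega
  · have e : bd r t = (2 * r - t, r) := bd_T (by omega) (by omega)
    rw [e] at hx hy
    clear e hA
    dsimp only at hx hy
    unfold bd at hx hy
    split_ifs at hx hy <;> dsimp only at hx hy <;> omega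
  · have e : bd r t = (2 * r - t, r) := bd_T (by omega) (by omega)
    rw [e] at hx hy
    clear e hA
    dsimp only at hx hy
    unfold bd at hx hy
    split_ifs at hx hy <;> dsimp only at hx hy <;> omega
  · have e : bd r t = (-(r + 2), 4 * r + 2 - t) := bd_L (by omega) (by omega) (by omega)
    rw [e] at hx hy
    clear e hA
    dsimp only at hx hy
    unfold bd at hx hy
    split_ifs at hx hy <;> dsimp only at hx hy <;> omega
  · have e : bd r t = (-(r + 1), 4 * r + 2 - t) := bd_Ll (by omega) (by omega) (by omega)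
    rw [e] at hx hy
    clear e hA
    dsimp only at hx hy
    unfold bd at hx hy
    split_ifs at hx hy <;> dsimp only at hx hy <;> omega
  · have e : bd r t = (t - 6 * r - 3, -r) := bd_B (by omega) (by omega) (by omega)
    rw [e] at hx hy
    clear e hA
    dsimp only at hx hy
    unfold bd at hx hy
    split_ifs at hx hy <;> dsimp only at hx hy <;> omega
  · have e : bd r t = (t - 6 * r - 3, -r) := bd_B (by omega) (by omega) (by omega)
    rw [e] at hx hy
    clear e hA
    dsimp only at hx hy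
    unfold bd at hx hy
    split_ifs at hx hy <;> dsimp only at hx hy <;> omega
  · have e : bd r t = (r, t - 8 * r - 3) := bd_Rl (by omega) (by omega)
    rw [e] at hx hy
    clear e hA
    dsimp only at hx hy
    unfold bd at hx hy
    split_ifs at hx hy <;> dsimp only at hx hy <;> omega

/-- The colour of a boundary vertex, left of the cut and above. -/
theorem par_bd_left (hr : 0 < r) (h0 : 0 ≤ t) (h1 : t < 6 * r + 3) :
    (parV 1 (bd r t) - (tlin r t + r)) % 2 = 0 := by
  unfold parV tlin bd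
  split_ifs <;> dsimp only at * <;> omega

/-- The colour of a boundary vertex, right of the cut. -/
theorem par_bd_right (hr : 0 < r) (h0 : 6 * r + 3 ≤ t) (h1 : t ≤ 8 * r + 3) :
    (parV 0 (bd r t) - (tlin r t + r)) % 2 = 0 := by
  unfold parV tlin bd
  split_ifs <;> dsimp only at * <;> omega

end Pool.Agent.Perc.Q
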