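import Pool.Agent.Lib.MP_6bd702_perc3.TwCup

/-!
# The twisted cylinder: completeness of the two states (task TwC)

Model: perq/TwoD.lean (`complete_run`, `complete_low` is already there).
-/

set_option autoImplicit false

namespace Pool.Agent.Perc

open Finset

variable {m M : ℕ}

namespace TwC

theorem twV_snd (em : ℤ → ℤ) (v : ℤ × ℤ) : (twV em v).2 = v.2 := by
  unfold twV
  split_ifs with h
  · exact h.symm
  · rfl

theorem twV_ne {em : ℤ → ℤ} {v : ℤ × ℤ} (h : v.2 ≠ 0) : twV em v = v := by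
  unfold twV
  rw [if_neg h]

theorem twV_zero (em : ℤ → ℤ) {v : ℤ × ℤ} (h : v.2 = 0) : twV em v = (em v.1, 0) := by
  unfold twV
  rw [if_pos h]

/-- The upper bonds. -/
theorem bond_up {ω : Cfg} {u v : ℤ × ℤ}
    (h : Bond (perW m ω) {f | f ∈ strip M ∧ 0 ≤ f.2} u v) :
    Bond (perC (2 * m + 1) ω) {f | 0 ≤ f.2 ∧ f.2 < (M : ℤ)} u v ∧ 0 ≤ u.2 ∧ 0 ≤ v.2 := by
  obtain ⟨x, y, hF, hb⟩ := h
  simp only [strip, Set.mem_ofPred_eq] at hF
  have e : perW m ω (x, y) = perC (2 * m + 1) ω (x, y) := by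
    unfold perW perC
    simp only
    rw [if_pos hF.2]
    push_cast
    rfl
  rw [e] at hb
  refine ⟨⟨x, y, by simp only [Set.mem_ofPred_eq]; omega, hb⟩, ?_⟩
  rcases hb with ⟨-, ⟨rfl, rfl⟩ | ⟨rfl, rfl⟩⟩ | ⟨-, ⟨rfl, rfl⟩ | ⟨rfl, rfl⟩⟩ <;>
    simp only <;> omega

/-- The lower bonds. -/
theorem bond_lo {ω : Cfg} {u v : ℤ × ℤ}
    (h : Bond (perW m ω) {f | f ∈ strip M ∧ f.2 < 0} u v) :
    Bond (perC (2 * m) ω) {f | -(M : ℤ) ≤ f.2 ∧ f.2 < 0} u v ∧ u.2 ≤ 0 ∧ v.2 ≤ 0 := by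
  obtain ⟨x, y, hF, hb⟩ := h
  simp only [strip, Set.mem_ofPred_eq] at hF
  have e : perW m ω (x, y) = perC (2 * m) ω (x, y) := by
    unfold perW perC
    simp only
    rw [if_neg (by omega)]
    push_cast
    rfl
  rw [e] at hb
  refine ⟨⟨x, y, by simp only [Set.mem_ofPred_eq]; omega, hb⟩, ?_⟩
  rcases hb with ⟨-, ⟨rfl, rfl⟩ | ⟨rfl, rfl⟩⟩ | ⟨-, ⟨rfl, rfl⟩ | ⟨rfl, rfl⟩⟩ <;>
    simp only <;> omega

end TwC

/-- A connection in the strip decomposes into connections in the two halves (in upper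
coordinates). -/
theorem connW_strip (hm : 0 < m) (ω : Cfg) {k l : ℤ}
    (h : ConnW (emC m) (perW m ω) (strip M) (k, 0) (l, 0)) :
    Relation.ReflTransGen (fun k l : ℤ =>
      SameRegO (2 * m + 1) (upOS (2 * m + 1) M ω) k l ∨
        ∃ k' l', SameReg (2 * m) (loS (2 * m) M ω) k' l' ∧ k = emC m k' ∧ l = emC m l') k l := by
  set R : ℤ → ℤ → Prop := fun k l : ℤ =>
      SameRegO (2 * m + 1) (upOS (2 * m + 1) M ω) k l ∨
        ∃ k' l', SameReg (2 * m) (loS (2 * m) M ω) k' l' ∧ k = emC m k' ∧ l = emC m l' with hR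
  -- at height zero both normal forms give the same information
  have flat : ∀ u : ℤ × ℤ, u.2 = 0 →
      ((∃ j, Relation.ReflTransGen R k j ∧
        Conn (perC (2 * m + 1) ω) {f | 0 ≤ f.2 ∧ f.2 < (M : ℤ)} (j, 0) u) ∨
      (∃ j u', Relation.ReflTransGen R k (emC m j) ∧ u = twV (emC m) u' ∧
        Conn (perC (2 * m) ω) {f | -(M : ℤ) ≤ f.2 ∧ f.2 < 0} (j, 0) u')) →
      Relation.ReflTransGen R k u.1 := by
    intro u h0 hu
    rcases hu with ⟨j, hj, h1⟩ | ⟨j, u', hj, rfl, h1⟩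
    · refine hj.tail (Or.inl (complete_upO m ω ?_))
      have e : u = (u.1, 0) := Prod.ext rfl h0
      rw [← e]
      exact h1
    · rw [TwC.twV_snd] at h0
      rw [TwC.twV_zero _ h0]
      refine hj.tail (Or.inr ⟨j, u'.1, complete_low (by omega) (by omega) ω ?_, rfl, rfl⟩)
      have e : u' = (u'.1, 0) := Prod.ext rfl h0
      rw [← e]
      exact h1
  have key : ∀ u, ConnW (emC m) (perW m ω) (strip M) (k, 0) u →
      ((0 ≤ u.2 ∧ ∃ j, Relation.ReflTransGen R k j ∧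
        Conn (perC (2 * m + 1) ω) {f | 0 ≤ f.2 ∧ f.2 < (M : ℤ)} (j, 0) u) ∨
      (u.2 ≤ 0 ∧ ∃ j u', Relation.ReflTransGen R k (emC m j) ∧ u = twV (emC m) u' ∧
        Conn (perC (2 * m) ω) {f | -(M : ℤ) ≤ f.2 ∧ f.2 < 0} (j, 0) u')) := by
    intro u hu
    induction hu with
    | refl =>
      exact Or.inl ⟨le_rfl, k, Relation.ReflTransGen.refl, Relation.ReflTransGen.refl⟩
    | tail _ hb ih =>
      rename_i u v _
      have hz : u.2 = 0 → Relation.ReflTransGen R k u.1 := by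
        intro h0
        refine flat u h0 ?_
        rcases ih with ⟨-, h1⟩ | ⟨-, h1⟩
        · exact Or.inl h1
        · exact Or.inr h1
      rcases hb with hb | ⟨u', v', hb, hu', hv'⟩
      · obtain ⟨hb1, hu0, hv0⟩ := TwC.bond_up hb
        left
        refine ⟨hv0, ?_⟩
        rcases ih with ⟨-, j, hj, h1⟩ | ⟨h0, -⟩
        · exact ⟨j, hj, h1.tail hb1⟩
        · have h0' : u.2 = 0 := by omega
          have e : u = (u.1, 0) := Prod.ext rfl h0'
          refine ⟨u.1, hz h0', ?_⟩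
          rw [← e]
          exact Relation.ReflTransGen.single hb1
      · obtain ⟨hb1, hu0, hv0⟩ := TwC.bond_lo hb
        right
        have hus : u.2 = u'.2 := by rw [hu', TwC.twV_snd]
        refine ⟨by rw [hv', TwC.twV_snd]; exact hv0, ?_⟩
        by_cases h0 : u.2 = 0
        · have h1 : u'.2 = 0 := by omega
          have h2 := hz h0
          rw [hu', TwC.twV_zero _ h1] at h2
          refine ⟨u'.1, v', h2, hv', ?_⟩
          have e : u' = (u'.1, 0) := Prod.ext rfl h1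
          rw [← e]
          exact Relation.ReflTransGen.single hb1
        · rcases ih with ⟨h1, -⟩ | ⟨-, j, u'', hj, h2, h1⟩
          · exact absurd (by omega) h0
          · have h3 : u''.2 = u.2 := by rw [h2, TwC.twV_snd]
            have h4 : u'' = u' := by
              rw [← TwC.twV_ne (em := emC m) (v := u'') (by omega), ← h2, hu']
              exact TwC.twV_ne (by omega)
            subst h4
            exact ⟨j, v', hj, hv', h1.tail hb1⟩
  refine flat (l, 0) rfl ?_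
  rcases key _ h with ⟨-, h1⟩ | ⟨-, h1⟩
  · exact Or.inl h1
  · exact Or.inr h1

end Pool.Agent.Perc
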