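import Pool.Agent.Lib.MP_6bd702_perc3.TwDefs
import Pool.Agent.Lib.MP_6bd702_perq.TwoD

/-!
# The twisted cylinder: completeness of the upper state (task TwC, first half)

Model: perq/TwoD.lean.
-/

set_option autoImplicit false

namespace Pool.Agent.Perc

open Finset

variable {L M m : ℕ}

namespace TwCup

open TwoD (Lt lt_iff lt_iff' iff4 nx nx_snd_lt nx_snd_ne Fr Vf emod_aux exists_block bond_Fr
  conn_isolated bond_symm conn_symm isolated_true isolated_zero rho rho_conn rho_Vf Vf_low)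

/-- The shift of the block of the partner. -/
noncomputable def dl (p : ℕ → ℕ) (r : ℕ) : ℤ :=
  if labO p r = true then (if r < p r then -1 else 1) else 0

/-- Two gaps, given by block and residue, are in the same region. -/
def Reg (N : ℕ) (p : ℕ → ℕ) (K K' : ℤ × ℕ) : Prop :=
  ∀ (a : ℤ) (r : ℕ), r < N → (p r = r → (Lt a r K ↔ Lt a r K')) ∧
    ((Lt a r K ↔ Lt (a + dl p r) (p r) K) ↔ (Lt a r K' ↔ Lt (a + dl p r) (p r) K'))

theorem Reg.refl (N : ℕ) (p : ℕ → ℕ) (K : ℤ × ℕ) : Reg N p K K :=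
  fun _ _ _ => ⟨fun _ => Iff.rfl, Iff.rfl⟩

theorem Reg.symm {N : ℕ} {p : ℕ → ℕ} {K K' : ℤ × ℕ} (h : Reg N p K K') : Reg N p K' K :=
  fun a r hr => ⟨fun e => ((h a r hr).1 e).symm, (h a r hr).2.symm⟩

theorem Reg.trans {N : ℕ} {p : ℕ → ℕ} {K K' K'' : ℤ × ℕ} (h : Reg N p K K')
    (h' : Reg N p K' K'') : Reg N p K K'' :=
  fun a r hr => ⟨fun e => ((h a r hr).1 e).trans ((h' a r hr).1 e),
    (h a r hr).2.trans (h' a r hr).2⟩

theorem lift_eq {N : ℕ} (p : ℕ → ℕ) (a : ℤ) {r : ℕ} (hr : r < N) :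
    liftO N p (a * N + r) = (a + dl p r) * N + p r := by
  have h0 : (0 : ℤ) < N := by omega
  have h1 : (a * N + r) / (N : ℤ) = a := by
    rw [add_comm, Int.add_mul_ediv_right _ _ (by omega), Int.ediv_eq_zero_of_lt (by omega)
      (by omega), zero_add]
  have h2 : (a * N + r) % (N : ℤ) = r := by
    rw [add_comm, Int.add_mul_emod_self_right, Int.emod_eq_of_lt (by omega) (by omega)]
  unfold liftO dl
  rw [h1, h2, Int.toNat_natCast]
  split_ifs <;> ring

/-- The fixed points of the lifted partner map. -/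
theorem lift_fix_iff {N : ℕ} {p : ℕ → ℕ} (hp : NCO N p) (a : ℤ) {r : ℕ} (hr : r < N) :
    liftO N p (a * N + r) = a * N + r ↔ p r = r := by
  rw [lift_eq p a hr]
  constructor
  · intro h
    have h1 : (a + dl p r) * N + ((p r : ℕ) : ℤ) = a * N + ((r : ℕ) : ℤ) := h
    exact (TwoD.block_uniq (hp.lt r hr) hr h1).2
  · intro h
    have h1 : dl p r = 0 := by
      unfold dl
      rw [labO_of_fix h]
      simp
    rw [h1, h, add_zero]

theorem reg_iff {N : ℕ} {p : ℕ → ℕ} (hp : NCO N p) {b b' : ℤ} {t t' : ℕ}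
    (ht : t < N) (ht' : t' < N) :
    SameRegO N p (b * N + t) (b' * N + t') ↔ Reg N p (b, t) (b', t') := by
  have h0 : (0 : ℤ) < N := by omega
  constructor
  · intro h a r hr
    have h1 := h (a * N + r)
    rw [lift_fix_iff hp a hr, lift_eq p a hr, lt_iff hr ht, lt_iff (hp.lt r hr) ht, lt_iff hr ht',
      lt_iff (hp.lt r hr) ht'] at h1
    exact h1
  · intro h x
    obtain ⟨a, r, hr, rfl⟩ := exists_block (L := N) (by omega) x
    rw [lift_fix_iff hp a hr, lift_eq p a hr, lt_iff hr ht, lt_iff (hp.lt r hr) ht, lt_iff hr ht',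
      lt_iff (hp.lt r hr) ht']
    exact h a r hr

section EO

variable {N : ℕ} {p : ℕ → ℕ} {i : ℕ}

theorem mark (h : NCO N p) (x : ℕ) :
    labO p x = true ↔ (x < thr p ∧ thr p < p x) ∨ (p x < thr p ∧ thr p < x) := by
  have ht := h.thr_fix
  unfold labO
  by_cases hx : x = thr p
  · rw [hx, ht]; simp
  · have h2 : p x ≠ thr p := by
      intro e
      apply hx
      have := h.inv x
      rw [e, ht] at this
      exact this.symm
    by_cases h3 : x < thr p <;> by_cases h4 : p x < thr p <;> simp [h3, h4] <;> omega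

theorem eO_i1 (i : ℕ) (p : ℕ → ℕ) : eO i p (i + 1) = i := OStA.eO_right i p

theorem dl_eO_i (h : NCO N p) (hi : i + 1 < N) : dl (eO i p) i = 0 := by
  unfold dl
  rw [labO_eO_left h hi]
  simp

theorem dl_eO_i1 (h : NCO N p) (hi : i + 1 < N) : dl (eO i p) (i + 1) = 0 := by
  unfold dl
  rw [labO_eO_right h hi]
  simp

theorem eO_of_i (h : NCO N p) (hi : i + 1 < N) {r : ℕ} (hr : r < N) (h1 : r ≠ i)
    (h2 : r ≠ i + 1) (h3 : p r = i) (h4 : p (i + 1) ≠ i + 1) :
    eO i p r = p (i + 1) ∧ dl (eO i p) r = dl p r + dl p (i + 1) := by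
  have e1 : eO i p r = p (i + 1) := by rw [OStA.eO_a p h1 h2 h3, if_neg h4]
  refine ⟨e1, ?_⟩
  have hpi : p i = r := by rw [← h3]; exact h.inv r
  have h5 : p i ≠ i := by rw [hpi]; exact h1
  have e2 : labO (eO i p) r = xor (labO p i) (labO p (i + 1)) :=
    labO_eO_mid h hi h1 h2 (Or.inl h3) h5 h4
  have htN := h.thr_lt
  have ht := h.thr_fix
  set b := p (i + 1) with hb
  have hpb : p b = i + 1 := by rw [hb]; exact h.inv _
  have hbN : b < N := h.lt _ hi
  have hbr : b ≠ r := by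
    intro h4
    rw [h4, h3] at hpb
    omega
  have hbi : b ≠ i := by
    intro h4
    rw [h4, hpi] at hpb
    omega
  have lr : labO p r = labO p i := by
    have := labO_partner h.inv r
    rw [h3] at this
    exact this.symm
  have t1 : thr p ≠ i := by intro e; rw [e] at ht; exact h5 ht
  have t2 : thr p ≠ i + 1 := by intro e; rw [e] at ht; exact h4 ht
  have t3 : thr p ≠ r := by intro e; rw [e, h3] at ht; exact h1 ht.symm
  have t4 : thr p ≠ b := by intro e; rw [e, hpb] at ht; exact h4 ht.symm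
  have g1 := mark h i
  have g2 := mark h (i + 1)
  rw [hpi] at g1
  rw [← hb] at g2
  have n1 := h.nc i (i + 1) (by omega)
  have n2 := h.nc b i
  have n3 := h.nc r b
  rw [hpi, ← hb] at n1
  rw [hpi, hpb] at n2
  rw [h3, hpb] at n3
  unfold dl
  rw [e1, e2, lr, h3, ← hb]
  cases hA : labO p i <;> cases hB : labO p (i + 1) <;> rw [hA] at g1 <;> rw [hB] at g2 <;>
    simp only [Bool.xor_true, Bool.xor_false, Bool.not_true, Bool.not_false, if_true,
      Bool.false_eq_true, false_iff, true_iff, if_false] at g1 g2 ⊢ <;>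
    (try split_ifs) <;> omega

theorem eO_of_i1 (h : NCO N p) (hi : i + 1 < N) {r : ℕ} (hr : r < N) (h1 : r ≠ i)
    (h2 : r ≠ i + 1) (h3 : p r = i + 1) (h4 : p i ≠ i) :
    eO i p r = p i ∧ dl (eO i p) r = dl p r + dl p i := by
  have e1 : eO i p r = p i := by rw [OStA.eO_b p h1 h2 h3, if_neg h4]
  refine ⟨e1, ?_⟩
  have hpi : p (i + 1) = r := by rw [← h3]; exact h.inv r
  have h5 : p (i + 1) ≠ i + 1 := by rw [hpi]; exact h2
  have e2 : labO (eO i p) r = xor (labO p i) (labO p (i + 1)) :=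
    labO_eO_mid h hi h1 h2 (Or.inr h3) h4 h5
  have htN := h.thr_lt
  have ht := h.thr_fix
  set b := p i with hb
  have hpb : p b = i := by rw [hb]; exact h.inv _
  have hbN : b < N := h.lt _ (by omega)
  have hbr : b ≠ r := by
    intro h4
    rw [h4, h3] at hpb
    omega
  have hbi : b ≠ i + 1 := by
    intro h4
    rw [h4, hpi] at hpb
    omega
  have lr : labO p r = labO p (i + 1) := by
    have := labO_partner h.inv r
    rw [h3] at this
    exact this.symm
  have t1 : thr p ≠ i := by intro e; rw [e] at ht; exact h4 ht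
  have t2 : thr p ≠ i + 1 := by intro e; rw [e] at ht; exact h5 ht
  have t3 : thr p ≠ r := by intro e; rw [e, h3] at ht; exact h2 ht.symm
  have t4 : thr p ≠ b := by intro e; rw [e, hpb] at ht; exact h4 ht.symm
  have g1 := mark h i
  have g2 := mark h (i + 1)
  rw [hpi] at g2
  rw [← hb] at g1
  have n1 := h.nc i (i + 1) (by omega)
  have n2 := h.nc r i
  have n3 := h.nc b r
  rw [hpi, ← hb] at n1
  rw [h3, ← hb] at n2
  rw [h3, hpb] at n3
  unfold dl
  rw [e1, e2, lr, h3, ← hb]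
  cases hA : labO p i <;> cases hB : labO p (i + 1) <;> rw [hA] at g1 <;> rw [hB] at g2 <;>
    simp only [Bool.xor_true, Bool.xor_false, Bool.not_true, Bool.not_false, if_true,
      Bool.false_eq_true, false_iff, true_iff, if_false] at g1 g2 ⊢ <;>
    (try split_ifs) <;> omega

theorem eO_oth (h : NCO N p) (hi : i + 1 < N) {r : ℕ} (h1 : r ≠ i) (h2 : r ≠ i + 1)
    (h3 : p r ≠ i) (h4 : p r ≠ i + 1) :
    eO i p r = p r ∧ dl (eO i p) r = dl p r := by
  have e1 : eO i p r = p r := OStA.eO_other p h1 h2 h3 h4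
  refine ⟨e1, ?_⟩
  unfold dl
  rw [e1, labO_eO_other h hi h1 h2 h3 h4]

theorem dl_fix {r : ℕ} (h : p r = r) : dl p r = 0 := by
  unfold dl
  rw [labO_of_fix h]
  simp

/-- Regions and the Temperley-Lieb action. -/
theorem Reg.eO (h : NCO N p) (hi : i + 1 < N) {K K' : ℤ × ℕ} (hK : K.2 ≠ i + 1)
    (hK' : K'.2 ≠ i + 1) (hR : Reg N p K K') : Reg N (eO i p) K K' := by
  intro a r hr
  have q0 : ∀ (c : ℤ) (Q : ℤ × ℕ), Q.2 ≠ i + 1 → (Lt c i Q ↔ Lt c (i + 1) Q) := by
    intro c Q hQ
    unfold TwoD.Lt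
    omega
  by_cases h1 : r = i
  · subst h1
    rw [dl_eO_i h hi, OStA.eO_left, add_zero]
    refine ⟨fun e => absurd e (by omega), ?_⟩
    rw [q0 a K hK, q0 a K' hK']
    simp
  by_cases h2 : r = i + 1
  · subst h2
    rw [dl_eO_i1 h hi, eO_i1, add_zero]
    refine ⟨fun e => absurd e (by omega), ?_⟩
    rw [q0 a K hK, q0 a K' hK']
    simp
  by_cases h3 : p r = i
  · have r1 := (hR a r hr).2
    rw [h3] at r1
    by_cases hf : p (i + 1) = i + 1
    · have e1 : Perc.eO i p r = r := by rw [OStA.eO_a p h1 h2 h3, if_pos hf]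
      rw [dl_fix e1, e1, add_zero]
      refine ⟨fun _ => ?_, by simp⟩
      have r2 := (hR (a + dl p r) (i + 1) hi).1 hf
      rw [← q0 _ K hK, ← q0 _ K' hK'] at r2
      rw [r2] at r1
      by_cases hA : Lt a r K <;> by_cases hB : Lt a r K' <;> by_cases hC : Lt (a + dl p r) i K' <;>
        simp [hA, hB, hC] at r1 ⊢
    · obtain ⟨e1, e2⟩ := eO_of_i h hi hr h1 h2 h3 hf
      rw [e1, e2]
      refine ⟨fun e => ?_, ?_⟩
      · exfalso
        have h5 := h.inv (i + 1)
        rw [e, h3] at h5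
        omega
      · have r2 := (hR (a + dl p r) (i + 1) hi).2
        rw [← add_assoc]
        rw [q0 _ K hK, q0 _ K' hK'] at r1
        exact iff4 r1 r2
  by_cases h4 : p r = i + 1
  · have r1 := (hR a r hr).2
    rw [h4] at r1
    by_cases hf : p i = i
    · have e1 : Perc.eO i p r = r := by rw [OStA.eO_b p h1 h2 h4, if_pos hf]
      rw [dl_fix e1, e1, add_zero]
      refine ⟨fun _ => ?_, by simp⟩
      have r2 := (hR (a + dl p r) i (by omega)).1 hf
      rw [q0 _ K hK, q0 _ K' hK'] at r2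
      rw [r2] at r1
      by_cases hA : Lt a r K <;> by_cases hB : Lt a r K' <;>
        by_cases hC : Lt (a + dl p r) (i + 1) K' <;> simp [hA, hB, hC] at r1 ⊢
    · obtain ⟨e1, e2⟩ := eO_of_i1 h hi hr h1 h2 h4 hf
      rw [e1, e2]
      refine ⟨fun e => ?_, ?_⟩
      · exfalso
        have h5 := h.inv i
        rw [e, h4] at h5
        omega
      · have r2 := (hR (a + dl p r) i (by omega)).2
        rw [← add_assoc]
        rw [← q0 _ K hK, ← q0 _ K' hK'] at r1
        exact iff4 r1 r2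
  · obtain ⟨e1, e2⟩ := eO_oth h hi h1 h2 h3 h4
    rw [e1, e2]
    exact hR a r hr

theorem reg_eO_nx (h : NCO N p) (hi : i + 1 < N) (b : ℤ) :
    Reg N (Perc.eO i p) (b, i) (nx N b i) := by
  intro a r hr
  have hnc' := h.eO hi
  by_cases h1 : r = i
  · subst h1
    rw [dl_eO_i h hi, OStA.eO_left]
    refine ⟨fun e => absurd e (by omega), ?_⟩
    unfold TwoD.nx TwoD.Lt
    split_ifs <;> simp only <;> omega
  by_cases h2 : r = i + 1
  · subst h2
    rw [dl_eO_i1 h hi, eO_i1]
    refine ⟨fun e => absurd e (by omega), ?_⟩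
    unfold TwoD.nx TwoD.Lt
    split_ifs <;> simp only <;> omega
  have h3 : Perc.eO i p r ≠ i := by
    intro h3
    have := hnc'.inv r
    rw [h3, OStA.eO_left] at this
    exact h2 this.symm
  have h4 : Perc.eO i p r ≠ i + 1 := by
    intro h3
    have := hnc'.inv r
    rw [h3, eO_i1] at this
    exact h1 this.symm
  have h5 := hnc'.lt r hr
  have q : ∀ (c : ℤ) (t : ℕ), t < N → t ≠ i → t ≠ i + 1 → (Lt c t (b, i) ↔ Lt c t (nx N b i)) := by
    intro c t ht ht1 ht2
    unfold TwoD.nx TwoD.Lt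
    split_ifs <;> simp only <;> omega
  refine ⟨fun _ => q a r hr h1 h2, ?_⟩
  rw [q a r hr h1 h2, q _ _ h5 h3 h4]

end EO

section Merge

variable {N : ℕ} {p : ℕ → ℕ} {i : ℕ} {c : Cfg} {F F' : Set (ℤ × ℤ)} {V : ℤ × ℕ → ℤ × ℤ}

/-- A bond between the gaps on both sides of a small arc. -/
theorem merge_step (hs : NCO N p) (hi : i + 1 < N)
    (old : ∀ K K' : ℤ × ℕ, K.2 < N → K'.2 < N → Conn c F (V K) (V K') → Reg N p K K')
    (hb : ∀ u v, Bond c F' u v → Bond c F u v ∨
      ∃ a : ℤ, (u = V (a, i) ∧ v = V (nx N a i)) ∨ (u = V (nx N a i) ∧ v = V (a, i)))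
    (K K' : ℤ × ℕ) (hK : K.2 < N) (hK' : K'.2 < N) (hKi : K.2 ≠ i + 1) (hKi' : K'.2 ≠ i + 1)
    (h : Conn c F' (V K) (V K')) : Reg N (Perc.eO i p) K K' := by
  have key : ∀ u, Conn c F' (V K) u → ∃ K'' : ℤ × ℕ, K''.2 < N ∧ K''.2 ≠ i + 1 ∧
      Reg N (Perc.eO i p) K K'' ∧ Conn c F (V K'') u := by
    intro u hu
    induction hu with
    | refl => exact ⟨K, hK, hKi, Reg.refl _ _ _, Relation.ReflTransGen.refl⟩
    | tail _ hb1 ih =>
      obtain ⟨K'', h1, h2, h3, h4⟩ := ih
      rcases hb _ _ hb1 with h5 | ⟨a, ⟨rfl, rfl⟩ | ⟨rfl, rfl⟩⟩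
      · exact ⟨K'', h1, h2, h3, h4.tail h5⟩
      · refine ⟨nx N a i, nx_snd_lt hi a, nx_snd_ne a, ?_, Relation.ReflTransGen.refl⟩
        have h6 := old K'' (a, i) h1 (by simp only; omega) h4
        exact (h3.trans (Reg.eO hs hi h2 (by simp only; omega) h6)).trans (reg_eO_nx hs hi a)
      · refine ⟨(a, i), by simp only; omega, by simp only; omega, ?_,
          Relation.ReflTransGen.refl⟩
        have h6 := old K'' (nx N a i) h1 (nx_snd_lt hi a) h4
        exact (h3.trans (Reg.eO hs hi h2 (nx_snd_ne a) h6)).trans (reg_eO_nx hs hi a).symm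
  obtain ⟨K'', h1, h2, h3, h4⟩ := key _ h
  exact h3.trans (Reg.eO hs hi h2 hKi' (old K'' K' h1 hK' h4))

end Merge

/-- The start of a row. -/
theorem start_row {L M : ℕ} (hL0 : 0 < L) {ω : Cfg} {y : ℤ} {p : ℕ → ℕ} (hs : NCO L p)
    (old : ∀ k l : ℤ, Conn (perC L ω) {f | y + 1 ≤ f.2 ∧ f.2 < M} (k, y + 1) (l, y + 1) →
      SameRegO L p k l) (K K' : ℤ × ℕ) (hK : K.2 < L + 2) (hK' : K'.2 < L + 2)
    (h : Conn (perC L ω) (Fr L M y 0) (Vf L y 0 K) (Vf L y 0 K')) :
    Reg (L + 2) (cupO L p) K K' := by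
  obtain ⟨a, r⟩ := K
  obtain ⟨b, t⟩ := K'
  simp only at hK hK'
  by_cases hr : r = 0
  · subst hr
    have e : Vf L y 0 (a, 0) = (a * L + ((0 : ℕ) : ℤ), y) := by
      unfold TwoD.Vf
      rw [if_pos le_rfl]
    rw [e] at h
    have h1 := conn_isolated (isolated_zero hL0 _) h
    rw [Vf_low hL0 le_rfl h1]
    exact Reg.refl _ _ _
  by_cases ht : t = 0
  · subst ht
    have e : Vf L y 0 (b, 0) = (b * L + ((0 : ℕ) : ℤ), y) := by
      unfold TwoD.Vf
      rw [if_pos le_rfl]
    rw [e] at h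
    have h1 := conn_isolated (isolated_zero hL0 _) (conn_symm h)
    rw [Vf_low hL0 le_rfl h1]
    exact Reg.refl _ _ _
  have hF : Fr L M y 0 = {f : ℤ × ℤ | y + 1 ≤ f.2 ∧ f.2 < (M : ℤ)} := by
    ext f
    unfold TwoD.Fr
    simp only [Set.mem_ofPred_eq]
    have := Int.emod_nonneg f.1 (show (L : ℤ) ≠ 0 by omega)
    omega
  have e1 : Vf L y 0 (a, r) = (a * L + ((r - 1 : ℕ) : ℤ), y + 1) := by
    unfold TwoD.Vf
    rw [if_neg (by simp only; omega)]
    simp only [Prod.mk.injEq, and_true]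
    omega
  have e2 : Vf L y 0 (b, t) = (b * L + ((t - 1 : ℕ) : ℤ), y + 1) := by
    unfold TwoD.Vf
    rw [if_neg (by simp only; omega)]
    simp only [Prod.mk.injEq, and_true]
    omega
  rw [hF, e1, e2] at h
  have h1 := old _ _ h
  intro c x hx
  by_cases hx0 : x = 0
  · subst hx0
    have d2 : cupO L p 0 = L + 1 := cupO_zero L p
    have d1 : dl (cupO L p) 0 = -1 := by
      unfold dl
      rw [labO_cupO_zero hs, d2]
      simp
    rw [d1, d2]
    refine ⟨fun e => absurd e (by omega), ?_⟩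
    unfold TwoD.Lt
    simp only
    omega
  by_cases hx1 : x = L + 1
  · subst hx1
    have d2 : cupO L p (L + 1) = 0 := cupO_last L p
    have d1 : dl (cupO L p) (L + 1) = 1 := by
      unfold dl
      rw [labO_cupO_last hs, d2]
      simp
    rw [d1, d2]
    refine ⟨fun e => absurd e (by omega), ?_⟩
    unfold TwoD.Lt
    simp only
    omega
  · obtain ⟨x, rfl⟩ : ∃ x', x = x' + 1 := ⟨x - 1, by omega⟩
    have hxL : x < L := by omega
    have d2 : cupO L p (x + 1) = p x + 1 := cupO_succ hxL p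
    have l1 : labO (cupO L p) (x + 1) = labO p x := labO_cupO_succ hs hxL
    have d1 : dl (cupO L p) (x + 1) = dl p x := by
      unfold dl
      rw [d2, l1]
      simp only [Nat.add_lt_add_iff_right]
    rw [d1, d2]
    have h2 := h1 (c * L + x)
    have hp := hs.lt x hxL
    rw [lift_fix_iff hs c hxL, lift_eq p c hxL, lt_iff' hxL (by omega), lt_iff' hp (by omega),
      lt_iff' hxL (by omega), lt_iff' hp (by omega)] at h2
    have q : ∀ (d : ℤ) (z : ℕ) (e : ℤ) (m : ℕ), m ≠ 0 →
        (Lt d (z + 1) (e, m) ↔ Lt d z (e, m - 1)) := by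
      intro d z e m hm
      unfold TwoD.Lt
      simp only
      omega
    rw [q _ _ _ _ hr, q _ _ _ _ hr, q _ _ _ _ ht, q _ _ _ _ ht, Nat.add_left_inj]
    exact h2

theorem nco_rowO {L : ℕ} {p : ℕ → ℕ} (h : NCO L p) (w : ℕ → Bool) {k : ℕ} (hk : k ≤ L) :
    NCO (L + 2) (rowO w k (Perc.cupO L p)) := by
  induction k with
  | zero => exact h.cupO
  | succ k ih =>
    have h2 := ih (by omega)
    change NCO (L + 2) (if w k then Perc.eO k (rowO w k (Perc.cupO L p))
      else rowO w k (Perc.cupO L p))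
    split_ifs
    · exact h2.eO (by omega)
    · exact h2

/-- The faces of a row. -/
theorem row_step {L M : ℕ} (hL0 : 0 < L) {ω : Cfg} {y : ℤ} {p : ℕ → ℕ} (hs : NCO L p)
    (old : ∀ k l : ℤ, Conn (perC L ω) {f | y + 1 ≤ f.2 ∧ f.2 < M} (k, y + 1) (l, y + 1) →
      SameRegO L p k l) (i : ℕ) (hi : i < L) (K K' : ℤ × ℕ) (hK : K.2 < L + 2)
    (hK' : K'.2 < L + 2) (h : Conn (perC L ω) (Fr L M y i) (Vf L y i K) (Vf L y i K')) :
    Reg (L + 2) (rowO (fun i => ω ((i : ℤ), y)) i (cupO L p)) K K' := by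
  induction i generalizing K K' with
  | zero => exact start_row hL0 hs old K K' hK hK' h
  | succ i ih =>
    have ih' := ih (by omega)
    cases hw : ω ((i : ℤ), y) with
    | false =>
      have e : rowO (fun i => ω ((i : ℤ), y)) (i + 1) (cupO L p) =
          rowO (fun i => ω ((i : ℤ), y)) i (cupO L p) := by
        simp only [rowO, hw]
        simp
      rw [e]
      have h1 := rho_conn hi hw h
      rw [rho_Vf hi, rho_Vf hi] at h1
      exact ih' K K' hK hK' h1
    | true =>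
      have e : rowO (fun i => ω ((i : ℤ), y)) (i + 1) (cupO L p) =
          eO i (rowO (fun i => ω ((i : ℤ), y)) i (cupO L p)) := by
        simp only [rowO, hw]
        simp
      rw [e]
      by_cases hr : K.2 = i + 1
      · have e1 : Vf L y (i + 1) K = (K.1 * L + ((i + 1 : ℕ) : ℤ), y) := by
          unfold TwoD.Vf
          rw [if_pos (by omega), hr]
        rw [e1] at h
        have h1 := conn_isolated (isolated_true hi hw _) h
        have h2 := Vf_low hi le_rfl h1
        have h3 : K' = K := by rw [h2, ← hr]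
        rw [h3]
        exact Reg.refl _ _ _
      by_cases ht : K'.2 = i + 1
      · have e1 : Vf L y (i + 1) K' = (K'.1 * L + ((i + 1 : ℕ) : ℤ), y) := by
          unfold TwoD.Vf
          rw [if_pos (by omega), ht]
        rw [e1] at h
        have h1 := conn_isolated (isolated_true hi hw _) (conn_symm h)
        have h2 := Vf_low hi le_rfl h1
        have h3 : K = K' := by rw [h2, ← ht]
        rw [h3]
        exact Reg.refl _ _ _
      have hV : ∀ Q : ℤ × ℕ, Q.2 ≠ i + 1 → Vf L y (i + 1) Q = Vf L y i Q := by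
        intro Q hQ
        unfold TwoD.Vf
        by_cases hq : Q.2 ≤ i
        · rw [if_pos (by omega), if_pos hq]
        · rw [if_neg (by omega), if_neg hq]
      rw [hV K hr, hV K' ht] at h
      refine merge_step (V := Vf L y i) (nco_rowO hs _ (by omega)) (by omega) ih' ?_ K K' hK hK'
        hr ht h
      intro u v hb
      rcases bond_Fr (by omega) hb with h1 | ⟨a, ⟨-, h2⟩ | ⟨h2, -⟩⟩
      · exact Or.inl h1
      · right
        refine ⟨a, ?_⟩
        have e1 : Vf L y i (a, i) = (a * L + i, y) := by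
          unfold TwoD.Vf
          rw [if_pos le_rfl]
        have e2 : Vf L y i (nx (L + 2) a i) = (a * L + i + 1, y + 1) := by
          unfold TwoD.nx
          rw [if_pos (by omega)]
          unfold TwoD.Vf
          rw [if_neg (by simp only; omega)]
          simp only [Prod.mk.injEq, and_true]
          push_cast
          ring
        rw [e1, e2]
        exact h2
      · rw [hw] at h2
        exact Bool.noConfusion h2

/-- The last face of a row. -/
theorem last_step {L M : ℕ} (hL0 : 0 < L) {ω : Cfg} {y : ℤ} (hyM : y < M) {p : ℕ → ℕ}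
    (hs : NCO L p)
    (old : ∀ k l : ℤ, Conn (perC L ω) {f | y + 1 ≤ f.2 ∧ f.2 < M} (k, y + 1) (l, y + 1) →
      SameRegO L p k l) (K K' : ℤ × ℕ) (hK : K.2 < L)
    (hK' : K'.2 < L) (h : Conn (perC L ω) {f | y ≤ f.2 ∧ f.2 < M} (K.1 * L + K.2, y)
      (K'.1 * L + K'.2, y)) :
    Reg (L + 2) (eO L (rowO (fun i => ω ((i : ℤ), y)) L (cupO L p))) K K' := by
  obtain ⟨n, rfl⟩ : ∃ n, L = n + 1 := ⟨L - 1, by omega⟩
  have hF : {f : ℤ × ℤ | y ≤ f.2 ∧ f.2 < (M : ℤ)} = Fr (n + 1) M y (n + 1) := by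
    ext f
    unfold TwoD.Fr
    simp only [Set.mem_ofPred_eq]
    have := Int.emod_lt_of_pos f.1 (show (0 : ℤ) < ((n + 1 : ℕ) : ℤ) by omega)
    omega
  have e0 : ∀ Q : ℤ × ℕ, Q.2 < n + 1 → (Q.1 * ((n + 1 : ℕ) : ℤ) + Q.2, y) = Vf (n + 1) y n Q := by
    intro Q hQ
    unfold TwoD.Vf
    rw [if_pos (by omega)]
  rw [hF, e0 K hK, e0 K' hK'] at h
  have ih := row_step hL0 hs old n (by omega)
  have hA : NCO (n + 1 + 2) (rowO (fun i => ω ((i : ℤ), y)) n (cupO (n + 1) p)) :=
    nco_rowO hs _ (by omega)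
  cases hw : ω ((n : ℤ), y) with
  | false =>
    have e : rowO (fun i => ω ((i : ℤ), y)) (n + 1) (cupO (n + 1) p) =
        rowO (fun i => ω ((i : ℤ), y)) n (cupO (n + 1) p) := by
      simp only [rowO, hw]
      simp
    rw [e]
    refine merge_step (V := Vf (n + 1) y n) hA (by omega) ih ?_ K K' (by omega) (by omega)
      (by omega) (by omega) h
    intro u v hb
    rcases bond_Fr (by omega) hb with h1 | ⟨a, ⟨h2, -⟩ | ⟨-, h2⟩⟩
    · exact Or.inl h1
    · rw [hw] at h2
      exact Bool.noConfusion h2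
    · right
      refine ⟨a, ?_⟩
      have e1 : Vf (n + 1) y n (a, n + 1) = (a * ((n + 1 : ℕ) : ℤ) + n, y + 1) := by
        unfold TwoD.Vf
        rw [if_neg (by omega)]
        simp only [Prod.mk.injEq, and_true]
        push_cast
        ring
      have e2 : Vf (n + 1) y n (nx (n + 1 + 2) a (n + 1)) =
          (a * ((n + 1 : ℕ) : ℤ) + n + 1, y) := by
        unfold TwoD.nx
        rw [if_neg (by omega)]
        unfold TwoD.Vf
        rw [if_pos (by simp only; omega)]
        simp only [Prod.mk.injEq, and_true]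
        push_cast
        ring
      rw [e1, e2]
      exact h2
  | true =>
    have e : rowO (fun i => ω ((i : ℤ), y)) (n + 1) (cupO (n + 1) p) =
        eO n (rowO (fun i => ω ((i : ℤ), y)) n (cupO (n + 1) p)) := by
      simp only [rowO, hw]
      simp
    rw [e]
    have h3 : Reg (n + 1 + 2) (eO n (rowO (fun i => ω ((i : ℤ), y)) n (cupO (n + 1) p))) K K' := by
      refine merge_step (V := Vf (n + 1) y n) hA (by omega) ih ?_ K K' (by omega) (by omega)
        (by omega) (by omega) h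
      intro u v hb
      rcases bond_Fr (by omega) hb with h1 | ⟨a, ⟨-, h2⟩ | ⟨h2, -⟩⟩
      · exact Or.inl h1
      · right
        refine ⟨a, ?_⟩
        have e1 : Vf (n + 1) y n (a, n) = (a * ((n + 1 : ℕ) : ℤ) + n, y) := by
          unfold TwoD.Vf
          rw [if_pos le_rfl]
        have e2 : Vf (n + 1) y n (nx (n + 1 + 2) a n) =
            (a * ((n + 1 : ℕ) : ℤ) + n + 1, y + 1) := by
          unfold TwoD.nx
          rw [if_pos (by omega)]
          unfold TwoD.Vf
          rw [if_neg (by simp only; omega)]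
          simp only [Prod.mk.injEq, and_true]
          push_cast
          ring
        rw [e1, e2]
        exact h2
      · rw [hw] at h2
        exact Bool.noConfusion h2
    exact Reg.eO (hA.eO (by omega)) (by omega) (by omega) (by omega) h3

theorem labO_resP {L : ℕ} {p : ℕ → ℕ} (h : NCO (L + 2) p) (h' : NCO L (resP L p)) {r : ℕ}
    (hr : r < L) : labO (resP L p) r = labO p r := by
  have e1 : resP L p r = p r := by simp [resP, hr]
  have e2 : thr (resP L p) = thr p := by
    have h1 := h'.thr_lt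
    have h2 := h'.thr_fix
    have e3 : resP L p (thr (resP L p)) = p (thr (resP L p)) := by simp [resP, h1]
    rw [e3] at h2
    exact (h.thr_eq (by omega) h2).symm
  unfold labO
  rw [e1, e2]

theorem reg_resP {L : ℕ} {p : ℕ → ℕ} (hp : NCO (L + 2) p) (hp' : NCO L (resP L p)) {K K' : ℤ × ℕ}
    (h : Reg (L + 2) p K K') : Reg L (resP L p) K K' := by
  intro a r hr
  have e1 : resP L p r = p r := by simp [resP, hr]
  have e2 : dl (resP L p) r = dl p r := by
    unfold dl
    rw [e1, labO_resP hp hp' hr]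
  rw [e1, e2]
  exact h a r (by omega)

/-- One row. -/
theorem row {L M : ℕ} (hL0 : 0 < L) {ω : Cfg} {y : ℤ} (hyM : y < M) {p : ℕ → ℕ} (hs : NCO L p)
    (old : ∀ k l : ℤ, Conn (perC L ω) {f | y + 1 ≤ f.2 ∧ f.2 < M} (k, y + 1) (l, y + 1) →
      SameRegO L p k l) (k l : ℤ)
    (h : Conn (perC L ω) {f | y ≤ f.2 ∧ f.2 < M} (k, y) (l, y)) :
    SameRegO L (trowO L (fun i => ω ((i : ℤ), y)) p) k l := by
  obtain ⟨a, r, hr, rfl⟩ := exists_block hL0 k
  obtain ⟨b, t, ht, rfl⟩ := exists_block hL0 l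
  rw [reg_iff (hs.trowO _) hr ht]
  exact reg_resP ((nco_rowO hs _ le_rfl).eO (by omega)) (hs.trowO _)
    (last_step hL0 hyM hs old (a, r) (b, t) hr ht h)

/-- The state at height `m`. -/
theorem run_inv {L M : ℕ} (hL0 : 0 < L) {ω : Cfg} (m : ℕ) (hm : m ≤ M) (p : ℕ → ℕ)
    (hs : NCO L p)
    (old : ∀ k l : ℤ, Conn (perC L ω) {f | (m : ℤ) ≤ f.2 ∧ f.2 < M} (k, m) (l, m) →
      SameRegO L p k l) (k l : ℤ)
    (h : Conn (perC L ω) {f | 0 ≤ f.2 ∧ f.2 < M} (k, 0) (l, 0)) :
    SameRegO L (runO L ω m p) k l := by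
  induction m generalizing p with
  | zero =>
    simp only [runO]
    refine old k l ?_
    simpa using h
  | succ m ih =>
    simp only [runO]
    refine ih (by omega) _ (hs.trowO _) ?_
    intro k l h1
    refine row hL0 (by omega) hs ?_ k l h1
    intro k l h2
    refine old k l ?_
    push_cast
    exact h2

end TwCup

/-- Vertices of height `0` which are connected in the upper half are in the same region of the
upper state. -/
theorem complete_upO (m : ℕ) (ω : Cfg) {k l : ℤ}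
    (h : Conn (perC (2 * m + 1) ω) {f | 0 ≤ f.2 ∧ f.2 < M} (k, 0) (l, 0)) :
    SameRegO (2 * m + 1) (upOS (2 * m + 1) M ω) k l := by
  refine TwCup.run_inv (Nat.succ_pos _) M le_rfl _ (nco_flatO (by omega)) ?_ k l h
  intro k l h1
  have h2 : ((l, (M : ℤ)) : ℤ × ℤ) = (k, (M : ℤ)) := by
    refine TwoD.conn_isolated ?_ h1
    rintro w ⟨x, y, hF, -⟩
    simp only [Set.mem_ofPred_eq] at hF
    omega
  have h3 : l = k := congrArg Prod.fst h2
  subst h3
  intro x
  exact ⟨fun _ => Iff.rfl, Iff.rfl⟩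

end Pool.Agent.Perc
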