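import Pool.Agent.Lib.MP_6bd702_perc3.TwoO

/-!
# The twisted plane and the twisted cylinder: definitions

The twisted plane has the upper vertices `(x, y)` with `y ≥ 0` and the lower vertices `(x, y)` with
`y < 0`; the faces with `y ≥ 0` are unit squares with upper corners, the faces with `y < 0` unit
squares with corners in lower coordinates, and the lower corner `(l, 0)` is glued to the upper
vertex `(emP l, 0)`. So the vertex `(-1, 0)` has no lower face, and the three vertices
`A = (-2, 0)`, `B = (-1, 0)`, `C = (0, 0)` form the core. The two-sided cylinder has the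
circumference `2 m + 1` above and `2 m` below; in its universal cover the lower corner `(l, 0)` is
glued to `(emC m l, 0)`.
-/

set_option autoImplicit false

namespace Pool.Agent.Perc

open Finset

/-- The upper position of the lower corner `(l, 0)` in the twisted plane. -/
def emP (l : ℤ) : ℤ := if 0 ≤ l then l else l - 1

/-- The upper position of the lower corner `(l, 0)` in the universal cover of the cylinder. -/
def emC (m : ℕ) (l : ℤ) : ℤ := (2 * m + 1) * (l / (2 * m)) + l % (2 * m)

/-- The vertex of a corner of a lower face. -/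
def twV (em : ℤ → ℤ) (v : ℤ × ℤ) : ℤ × ℤ := if v.2 = 0 then (em v.1, 0) else v

/-- The bonds in the faces of `F`. -/
def BondW (em : ℤ → ℤ) (ω : Cfg) (F : Set (ℤ × ℤ)) (u v : ℤ × ℤ) : Prop :=
  Bond ω {f | f ∈ F ∧ 0 ≤ f.2} u v ∨
    ∃ u' v', Bond ω {f | f ∈ F ∧ f.2 < 0} u' v' ∧ u = twV em u' ∧ v = twV em v'

/-- Connection by bonds in the faces of `F`. -/
def ConnW (em : ℤ → ℤ) (ω : Cfg) (F : Set (ℤ × ℤ)) : ℤ × ℤ → ℤ × ℤ → Prop :=
  Relation.ReflTransGen (BondW em ω F)

/-- The periodic extension of a configuration of the cylinder. -/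
def perW (m : ℕ) (ω : Cfg) : Cfg := fun f =>
  if 0 ≤ f.2 then ω (f.1 % (2 * m + 1), f.2) else ω (f.1 % (2 * m), f.2)

/-- The fundamental domain of the cylinder of heights `|y| ≤ M`. -/
noncomputable def FW (m M : ℕ) : Finset (ℤ × ℤ) :=
  RF 0 ((2 * m + 1 : ℕ) : ℤ) 0 M ∪ RF 0 ((2 * m : ℕ) : ℤ) (-M) 0

/-- The first coordinates of the core vertices. -/
def Core (x : ℤ) : Prop := x = -2 ∨ x = -1 ∨ x = 0

/-- Every core vertex is connected to a neighbouring core, and some core vertex is connected to its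
translate. -/
def Wrap3 (m M : ℕ) : Set Cfg :=
  {ω | (∀ x, Core x → ∃ x' s, Core x' ∧ (s = 1 ∨ s = -1) ∧
      ConnW (emC m) (perW m ω) (strip M) (x, 0) (x' + s * (2 * m + 1), 0)) ∧
    ∃ x, Core x ∧ ConnW (emC m) (perW m ω) (strip M) (x, 0) (x + (2 * m + 1), 0)}

/-- The faces of the box of radius `R` of the twisted plane. -/
noncomputable def BW (R : ℤ) : Finset (ℤ × ℤ) := RF (-(R + 2)) R 0 R ∪ RF (-(R + 1)) R (-R) 0

/-- The boundary of the box. -/
def BdW (R : ℤ) (v : ℤ × ℤ) : Prop :=
  (0 ≤ v.2 ∧ (v.1 = -(R + 2) ∨ v.1 = R ∨ v.2 = R)) ∨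
    (v.2 < 0 ∧ (v.1 = -(R + 1) ∨ v.1 = R ∨ v.2 = -R))

/-- The three core vertices are connected to the boundary of the box of radius `R`. -/
def Arm3 (R : ℤ) : Set Cfg :=
  {ω | ∀ x, Core x → ∃ v, ConnW emP ω (BW R) (x, 0) v ∧ BdW R v}

/-- Connection in the strip of the cylinder, where all the vertices of the heights `M` and `-M` are
identified. -/
def RelW (m M : ℕ) (ω : Cfg) (u v : ℤ × ℤ) : Prop :=
  ConnW (emC m) (perW m ω) (strip M) u v ∨
    ((∃ u', ConnW (emC m) (perW m ω) (strip M) u u' ∧ (u'.2 = M ∨ u'.2 = -M)) ∧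
      ∃ v', ConnW (emC m) (perW m ω) (strip M) v v' ∧ (v'.2 = M ∨ v'.2 = -M))

/-- The partner of a site of an odd state in the universal cover (`N` sites per period). -/
noncomputable def liftO (N : ℕ) (p : ℕ → ℕ) (x : ℤ) : ℤ :=
  x / N * N + (p (x % N).toNat : ℤ) +
    (if labO p (x % N).toNat = true then (if (x % N).toNat < p (x % N).toNat then -(N : ℤ) else N)
      else 0)

/-- Two gaps of the universal cover are in the same region of an odd state: no arc and no through
line separates them. -/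
def SameRegO (N : ℕ) (p : ℕ → ℕ) (k l : ℤ) : Prop :=
  ∀ x : ℤ, (liftO N p x = x → (x < k ↔ x < l)) ∧
    ((x < k ↔ liftO N p x < k) ↔ (x < l ↔ liftO N p x < l))

end Pool.Agent.Perc
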