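import Pool.Agent.Lib.MP_6bd702_perc3.TwDefs
import Pool.Agent.Lib.MP_6bd702_percw.CoreA

/-!
# Unit edges and strands in the twisted plane

A unit edge is given by its two ends, which are vertices of the twisted plane.
-/

set_option autoImplicit false

namespace Pool.Agent.Perc

open Finset

/-- Unit edges of the twisted plane. -/
abbrev TE := (ℤ × ℤ) × (ℤ × ℤ)

/-- The side `a` (in the coordinates of the face) of the face `f`. -/
def twE (em : ℤ → ℤ) (f : ℤ × ℤ) (a : UE) : TE :=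
  if 0 ≤ f.2 then (ua a, ub a) else (twV em (ua a), twV em (ub a))

/-- The sides `p` and `p'` of the face `f` are matched. -/
def MtW (em : ℤ → ℤ) (ω : Cfg) (f : ℤ × ℤ) (p p' : TE) : Prop :=
  ∃ a a', Mt ω f a a' ∧ p = twE em f a ∧ p' = twE em f a'

/-- The component of `e` under the matching in the faces of `F`. -/
def MMW (em : ℤ → ℤ) (ω : Cfg) (F : Set (ℤ × ℤ)) (e : TE) : Set TE :=
  {p | Relation.ReflTransGen (fun p p' => ∃ f ∈ F, MtW em ω f p p') e p}

/-- `p` is a side of the face `f`. -/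
def IsSideW (em : ℤ → ℤ) (f : ℤ × ℤ) (p : TE) : Prop := ∃ a, IsSide f a ∧ p = twE em f a

/-- The faces of `F` which are visited by the component of `e`. -/
def SSW (em : ℤ → ℤ) (ω : Cfg) (F : Set (ℤ × ℤ)) (e : TE) : Set (ℤ × ℤ) :=
  {f | f ∈ F ∧ ∃ p ∈ MMW em ω F e, IsSideW em f p}

variable {em : ℤ → ℤ} {ω ω' : Cfg} {F F' : Set (ℤ × ℤ)} {e p p' : TE} {f : ℤ × ℤ}

theorem MtW.symm (h : MtW em ω f p p') : MtW em ω f p' p := by
  obtain ⟨a, a', hm, h1, h2⟩ := h
  exact ⟨a', a, hm.symm, h2, h1⟩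

theorem MtW.left (h : MtW em ω f p p') : IsSideW em f p := by
  obtain ⟨a, a', hm, h1, -⟩ := h
  exact ⟨a, hm.left, h1⟩

theorem MtW.right (h : MtW em ω f p p') : IsSideW em f p' := h.symm.left

theorem MtW.congr (he : ω f = ω' f) (h : MtW em ω f p p') : MtW em ω' f p p' := by
  obtain ⟨a, a', hm, h1, h2⟩ := h
  refine ⟨a, a', ?_, h1, h2⟩
  unfold Mt at *
  rwa [← he]

theorem mem_MMW_self : e ∈ MMW em ω F e := Relation.ReflTransGen.refl

theorem MMW_step (hf : f ∈ F) (h : MtW em ω f p p') (hp : p ∈ MMW em ω F e) :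
    p' ∈ MMW em ω F e :=
  Relation.ReflTransGen.tail hp ⟨f, hf, h⟩

theorem MMW_mono (h : F ⊆ F') (hp : p ∈ MMW em ω F e) : p ∈ MMW em ω F' e := by
  induction hp with
  | refl => exact mem_MMW_self
  | tail _ hs ih =>
    obtain ⟨f, hf, hm⟩ := hs
    exact MMW_step (h hf) hm ih

theorem SSW_sub : SSW em ω F e ⊆ F := fun _ h => h.1

theorem SSW_of_MtW (hf : f ∈ F) (h : MtW em ω f p p') (hp : p ∈ MMW em ω F e) :
    f ∈ SSW em ω F e := ⟨hf, p, hp, h.left⟩

/-- The component stays in `F'` or it reaches a face outside `F'`. -/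
theorem MMW_exit (hp : p ∈ MMW em ω F e) :
    p ∈ MMW em ω F' e ∨ ∃ q ∈ MMW em ω F' e, ∃ f ∈ F, f ∉ F' ∧ IsSideW em f q := by
  induction hp with
  | refl => exact Or.inl mem_MMW_self
  | @tail x y _ hs ih =>
    rcases ih with ih | ih
    · obtain ⟨f, hf, hm⟩ := hs
      by_cases hF : f ∈ F'
      · exact Or.inl (MMW_step hF hm ih)
      · exact Or.inr ⟨x, ih, f, hf, hF, hm.left⟩
    · exact Or.inr ih

/-- The component depends only on the visited faces. -/
theorem MMW_congr (h : ∀ f ∈ SSW em ω F e, ω f = ω' f) : MMW em ω' F e = MMW em ω F e := by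
  apply Set.Subset.antisymm
  · intro p hp
    induction hp with
    | refl => exact mem_MMW_self
    | @tail x y _ hs ih =>
      obtain ⟨f, hf, hm⟩ := hs
      have hS : f ∈ SSW em ω F e := ⟨hf, x, ih, hm.left⟩
      exact MMW_step hf (hm.congr (h f hS).symm) ih
  · intro p hp
    induction hp with
    | refl => exact mem_MMW_self
    | @tail x y hx hs ih =>
      obtain ⟨f, hf, hm⟩ := hs
      exact MMW_step hf (hm.congr (h f ⟨hf, x, hx, hm.left⟩)) ih

theorem SSW_congr (h : ∀ f ∈ SSW em ω F e, ω f = ω' f) : SSW em ω' F e = SSW em ω F e := by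
  unfold SSW
  rw [MMW_congr h]

end Pool.Agent.Perc
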