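import Pool.Agent.Lib.MP_6bd702_perc3.QCore
import Pool.Agent.Lib.MP_6bd702_perc3.TwDefs

/-!
# The twisted plane as a complex of quadrangles (task TwQ)
-/

set_option autoImplicit false

namespace Pool.Agent.Perc.Q

open Finset Pool.Agent.Perc

/-- The corners of a unit square, counterclockwise from the lower left one. -/
def cor0 (f : ℤ × ℤ) (k : ZMod 4) : ℤ × ℤ :=
  if k = 0 then f else if k = 1 then (f.1 + 1, f.2) else if k = 2 then (f.1 + 1, f.2 + 1)
  else (f.1, f.2 + 1)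

/-- The corners of a face of the twisted plane. -/
def corT (em : ℤ → ℤ) (f : ℤ × ℤ) (k : ZMod 4) : ℤ × ℤ :=
  if 0 ≤ f.2 then cor0 f k else twV em (cor0 f k)

theorem cor0_0 (f : ℤ × ℤ) : cor0 f 0 = f := rfl

theorem cor0_1 (f : ℤ × ℤ) : cor0 f 1 = (f.1 + 1, f.2) := rfl

theorem cor0_2 (f : ℤ × ℤ) : cor0 f 2 = (f.1 + 1, f.2 + 1) := rfl

theorem cor0_3 (f : ℤ × ℤ) : cor0 f 3 = (f.1, f.2 + 1) := rfl

theorem k4_cases (k : ZMod 4) : k = 0 ∨ k = 1 ∨ k = 2 ∨ k = 3 := by revert k; decide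

theorem k01 : (0 : ZMod 4) + 1 = 1 := rfl
theorem k11 : (1 : ZMod 4) + 1 = 2 := rfl
theorem k21 : (2 : ZMod 4) + 1 = 3 := rfl
theorem k31 : (3 : ZMod 4) + 1 = 0 := rfl
theorem k02 : (0 : ZMod 4) + 2 = 2 := rfl
theorem k12 : (1 : ZMod 4) + 2 = 3 := rfl
theorem k22 : (2 : ZMod 4) + 2 = 0 := rfl
theorem k32 : (3 : ZMod 4) + 2 = 1 := rfl

theorem corT_up {em : ℤ → ℤ} {f : ℤ × ℤ} (h : 0 ≤ f.2) (k : ZMod 4) :
    corT em f k = cor0 f k := if_pos h

theorem corT_low {em : ℤ → ℤ} {f : ℤ × ℤ} (h : f.2 < 0) (k : ZMod 4) :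
    corT em f k = twV em (cor0 f k) := if_neg (by omega)

theorem twV_zero {em : ℤ → ℤ} {x y : ℤ} (h : y = 0) : twV em (x, y) = (em x, 0) := if_pos h

theorem twV_ne {em : ℤ → ℤ} {x y : ℤ} (h : y ≠ 0) : twV em (x, y) = (x, y) := if_neg h

/-- The corners of a face, explicitly. -/
theorem corT_eq (em : ℤ → ℤ) (x y : ℤ) :
    corT em (x, y) 0 = (x, y) ∧ corT em (x, y) 1 = (x + 1, y) ∧
      (y ≠ -1 → corT em (x, y) 2 = (x + 1, y + 1) ∧ corT em (x, y) 3 = (x, y + 1)) ∧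
      (y = -1 → corT em (x, y) 2 = (em (x + 1), 0) ∧ corT em (x, y) 3 = (em x, 0)) := by
  rcases lt_or_ge y 0 with h | h
  · simp only [corT_low (f := (x, y)) h, cor0_0, cor0_1, cor0_2, cor0_3]
    refine ⟨twV_ne (by omega), twV_ne (by omega), fun h1 => ⟨twV_ne (by omega), twV_ne (by omega)⟩,
      fun h1 => ⟨twV_zero (by omega), twV_zero (by omega)⟩⟩
  · simp only [corT_up (f := (x, y)) h, cor0_0, cor0_1, cor0_2, cor0_3]
    refine ⟨trivial, trivial, fun h1 => ⟨trivial, trivial⟩, fun h1 => absurd h1 (by omega)⟩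

theorem corT_inj {em : ℤ → ℤ} (hem : StrictMono em) {f : ℤ × ℤ} {k : ZMod 4} {f' : ℤ × ℤ}
    {k' : ZMod 4} (h : corT em f k = corT em f' k') (h' : corT em f (k + 1) = corT em f' (k' + 1)) :
    f = f' ∧ k = k' := by
  obtain ⟨x, y⟩ := f
  obtain ⟨x', y'⟩ := f'
  obtain ⟨a0, a1, a2, a3⟩ := corT_eq em x y
  obtain ⟨b0, b1, b2, b3⟩ := corT_eq em x' y'
  have m1 := hem (lt_add_one x)
  have m2 := hem (lt_add_one x')
  by_cases hy : y = -1
  · obtain ⟨a4, a5⟩ := a3 hy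
    by_cases hy' : y' = -1
    · obtain ⟨b4, b5⟩ := b3 hy'
      rcases k4_cases k with rfl | rfl | rfl | rfl <;>
        rcases k4_cases k' with rfl | rfl | rfl | rfl <;>
        simp only [k01, k11, k21, k31, a0, a1, a4, a5, b0, b1, b4, b5, Prod.mk.injEq,
          hem.injective.eq_iff] at h h' ⊢ <;>
        first | omega | (refine ⟨⟨?_, ?_⟩, trivial⟩ <;> omega)
    · obtain ⟨b4, b5⟩ := b2 hy'
      rcases k4_cases k with rfl | rfl | rfl | rfl <;>
        rcases k4_cases k' with rfl | rfl | rfl | rfl <;>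
        simp only [k01, k11, k21, k31, a0, a1, a4, a5, b0, b1, b4, b5, Prod.mk.injEq] at h h' ⊢ <;>
        omega
  · obtain ⟨a4, a5⟩ := a2 hy
    by_cases hy' : y' = -1
    · obtain ⟨b4, b5⟩ := b3 hy'
      rcases k4_cases k with rfl | rfl | rfl | rfl <;>
        rcases k4_cases k' with rfl | rfl | rfl | rfl <;>
        simp only [k01, k11, k21, k31, a0, a1, a4, a5, b0, b1, b4, b5, Prod.mk.injEq] at h h' ⊢ <;>
        omega
    · obtain ⟨b4, b5⟩ := b2 hy'
      rcases k4_cases k with rfl | rfl | rfl | rfl <;>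
        rcases k4_cases k' with rfl | rfl | rfl | rfl <;>
        simp only [k01, k11, k21, k31, a0, a1, a4, a5, b0, b1, b4, b5, Prod.mk.injEq] at h h' ⊢ <;>
        first | omega | (refine ⟨⟨?_, ?_⟩, trivial⟩ <;> omega)

/-- The complex with the gluing map `em`. -/
def TQe (em : ℤ → ℤ) (hem : StrictMono em) : QC (ℤ × ℤ) (ℤ × ℤ) where
  c := corT em
  inj := corT_inj hem

theorem emP_mono : StrictMono emP := by
  intro a b h
  unfold emP
  split_ifs <;> omega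

theorem emC_eq (m : ℕ) (l : ℤ) : emC m l = l + l / (2 * m) := by
  unfold emC
  have h := Int.emod_add_mul_ediv l (2 * m)
  have e : (2 * (m : ℤ) + 1) * (l / (2 * m)) = 2 * m * (l / (2 * m)) + l / (2 * m) := by ring
  rw [e]
  omega

theorem emC_mono {m : ℕ} (hm : 0 < m) : StrictMono (emC m) := by
  intro a b h
  rw [emC_eq, emC_eq]
  have h1 : a / (2 * m : ℤ) ≤ b / (2 * m : ℤ) := Int.ediv_le_ediv (by omega) h.le
  omega

/-- The twisted plane. -/
def TQ : QC (ℤ × ℤ) (ℤ × ℤ) := TQe emP emP_mono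

theorem bondQ_iff {em : ℤ → ℤ} (hem : StrictMono em) {ω : Cfg} {F : Set (ℤ × ℤ)} {u v : ℤ × ℤ} :
    BondQ (TQe em hem) ω F u v ↔ BondW em ω F u v := by
  constructor
  · rintro ⟨⟨x, y⟩, hf, k, hk, hu, hv⟩
    change u = corT em (x, y) k at hu
    change v = corT em (x, y) (k + 2) at hv
    subst hu hv
    rcases lt_or_ge y 0 with h | h
    · refine Or.inr ?_
      rw [corT_low (f := (x, y)) h, corT_low (f := (x, y)) h]
      refine ⟨_, _, ⟨x, y, ⟨hf, h⟩, ?_⟩, rfl, rfl⟩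
      rcases k4_cases k with rfl | rfl | rfl | rfl
      · exact Or.inl ⟨hk, Or.inl ⟨rfl, rfl⟩⟩
      · exact Or.inr ⟨hk, Or.inr ⟨rfl, rfl⟩⟩
      · exact Or.inl ⟨hk, Or.inr ⟨rfl, rfl⟩⟩
      · exact Or.inr ⟨hk, Or.inl ⟨rfl, rfl⟩⟩
    · refine Or.inl ?_
      rw [corT_up (f := (x, y)) h, corT_up (f := (x, y)) h]
      refine ⟨x, y, ⟨hf, h⟩, ?_⟩
      rcases k4_cases k with rfl | rfl | rfl | rfl
      · exact Or.inl ⟨hk, Or.inl ⟨rfl, rfl⟩⟩
      · exact Or.inr ⟨hk, Or.inr ⟨rfl, rfl⟩⟩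
      · exact Or.inl ⟨hk, Or.inr ⟨rfl, rfl⟩⟩
      · exact Or.inr ⟨hk, Or.inl ⟨rfl, rfl⟩⟩
  · have key : ∀ x y : ℤ, (x, y) ∈ F → ∀ u v : ℤ × ℤ,
        ((ω (x, y) = true ∧ ((u = (x, y) ∧ v = (x + 1, y + 1)) ∨
          (u = (x + 1, y + 1) ∧ v = (x, y)))) ∨
        (ω (x, y) = false ∧ ((u = (x, y + 1) ∧ v = (x + 1, y)) ∨
          (u = (x + 1, y) ∧ v = (x, y + 1))))) →
        ∃ k, ω (x, y) = ev k ∧ u = cor0 (x, y) k ∧ v = cor0 (x, y) (k + 2) := by
      rintro x y hf u v (⟨h, ⟨rfl, rfl⟩ | ⟨rfl, rfl⟩⟩ | ⟨h, ⟨rfl, rfl⟩ | ⟨rfl, rfl⟩⟩)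
      · exact ⟨0, h, rfl, rfl⟩
      · exact ⟨2, h, rfl, rfl⟩
      · exact ⟨3, h, rfl, rfl⟩
      · exact ⟨1, h, rfl, rfl⟩
    rintro (⟨x, y, ⟨hf, h⟩, hb⟩ | ⟨u', v', ⟨x, y, ⟨hf, h⟩, hb⟩, rfl, rfl⟩)
    · obtain ⟨k, hk, rfl, rfl⟩ := key x y hf u v hb
      exact ⟨(x, y), hf, k, hk, (corT_up (f := (x, y)) h k).symm,
        (corT_up (f := (x, y)) h (k + 2)).symm⟩
    · obtain ⟨k, hk, rfl, rfl⟩ := key x y hf u' v' hb
      exact ⟨(x, y), hf, k, hk, (corT_low (f := (x, y)) h k).symm,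
        (corT_low (f := (x, y)) h (k + 2)).symm⟩

theorem connQ_iff {em : ℤ → ℤ} (hem : StrictMono em) {ω : Cfg} {F : Set (ℤ × ℤ)} {u v : ℤ × ℤ} :
    ConnQ (TQe em hem) ω F u v ↔ ConnW em ω F u v := by
  constructor
  · intro h
    induction h with
    | refl => exact Relation.ReflTransGen.refl
    | tail _ hb ih => exact Relation.ReflTransGen.tail ih ((bondQ_iff hem).1 hb)
  · intro h
    induction h with
    | refl => exact Relation.ReflTransGen.refl
    | tail _ hb ih => exact Relation.ReflTransGen.tail ih ((bondQ_iff hem).2 hb)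

/-- The vertices of the box of radius `r`. -/
def InW (r : ℤ) (v : ℤ × ℤ) : Prop :=
  (0 ≤ v.2 ∧ v.2 ≤ r ∧ -(r + 2) ≤ v.1 ∧ v.1 ≤ r) ∨ (v.2 < 0 ∧ -r ≤ v.2 ∧ -(r + 1) ≤ v.1 ∧ v.1 ≤ r)

theorem inW_corner {r : ℤ} (hr : 0 ≤ r) {f : ℤ × ℤ} (hf : f ∈ BW r) (k : ZMod 4) :
    InW r (TQ.c f k) := by
  obtain ⟨x, y⟩ := f
  change InW r (corT emP (x, y) k)
  unfold BW RF at hf
  simp only [mem_union, mem_product, mem_Ico] at hf
  obtain ⟨a0, a1, a2, a3⟩ := corT_eq emP x y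
  by_cases hy : y = -1
  · obtain ⟨a4, a5⟩ := a3 hy
    unfold InW
    rcases k4_cases k with rfl | rfl | rfl | rfl
    · rw [a0]; simp only; omega
    · rw [a1]; simp only; omega
    · rw [a4]; unfold emP; simp only; split_ifs <;> omega
    · rw [a5]; unfold emP; simp only; split_ifs <;> omega
  · obtain ⟨a4, a5⟩ := a2 hy
    unfold InW
    rcases k4_cases k with rfl | rfl | rfl | rfl
    · rw [a0]; simp only; omega
    · rw [a1]; simp only; omega
    · rw [a4]; simp only; omega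
    · rw [a5]; simp only; omega

/-- Every side of a face is a side of another face in the opposite direction, or one of the three
core edges. -/
theorem exists_opp (f : ℤ × ℤ) (k : ZMod 4) :
    (∃ g l, (TQ.c g l, TQ.c g (l + 1)) = (TQ.c f (k + 1), TQ.c f k)) ∨
      (TQ.c f k, TQ.c f (k + 1)) = ((-1, 0), (0, 0)) ∨
      (TQ.c f k, TQ.c f (k + 1)) = ((-2, 0), (-1, 0)) ∨
      (TQ.c f k, TQ.c f (k + 1)) = ((0, 0), (-2, 0)) := by
  obtain ⟨x, y⟩ := f
  have hc : ∀ g l, TQ.c g l = corT emP g l := fun _ _ => rfl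
  simp only [hc]
  obtain ⟨a0, a1, a2, a3⟩ := corT_eq emP x y
  rcases k4_cases k with rfl | rfl | rfl | rfl
  · -- the bottom side
    rw [k01, a0, a1]
    rcases eq_or_ne y 0 with rfl | hy
    · rcases lt_or_ge x (-2) with h1 | h1
      · refine Or.inl ⟨(x + 1, -1), 2, ?_⟩
        obtain ⟨-, -, -, b3⟩ := corT_eq emP (x + 1) (-1)
        obtain ⟨b4, b5⟩ := b3 rfl
        rw [k21, b4, b5]
        unfold emP
        rw [if_neg (by omega), if_neg (by omega)]
        simp only [Prod.mk.injEq, and_true]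
        omega
      · rcases lt_or_ge x 0 with h2 | h2
        · right
          simp only [Prod.mk.injEq, and_true]
          omega
        · refine Or.inl ⟨(x, -1), 2, ?_⟩
          obtain ⟨-, -, -, b3⟩ := corT_eq emP x (-1)
          obtain ⟨b4, b5⟩ := b3 rfl
          rw [k21, b4, b5]
          unfold emP
          rw [if_pos (by omega), if_pos (by omega)]
    · refine Or.inl ⟨(x, y - 1), 2, ?_⟩
      obtain ⟨-, -, b2, -⟩ := corT_eq emP x (y - 1)
      obtain ⟨b4, b5⟩ := b2 (by omega)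
      rw [k21, b4, b5]
      simp only [Prod.mk.injEq, true_and]
      omega
  · -- the right side
    refine Or.inl ⟨(x + 1, y), 3, ?_⟩
    obtain ⟨b0, b1, b2, b3⟩ := corT_eq emP (x + 1) y
    rw [k31, k11, b0, a1]
    by_cases hy : y = -1
    · rw [(b3 hy).2, (a3 hy).1]
    · rw [(b2 hy).2, (a2 hy).1]
  · -- the top side
    rw [k21]
    by_cases hy : y = -1
    · obtain ⟨a4, a5⟩ := a3 hy
      rw [a4, a5]
      rcases lt_or_ge x (-1) with h1 | h1
      · refine Or.inl ⟨(x - 1, 0), 0, ?_⟩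
        obtain ⟨b0, b1, -, -⟩ := corT_eq emP (x - 1) 0
        rw [k01, b0, b1]
        unfold emP
        rw [if_neg (by omega), if_neg (by omega)]
        simp only [Prod.mk.injEq, and_true, true_and]
        omega
      · rcases lt_or_ge x 0 with h2 | h2
        · right; right; right
          obtain rfl : x = -1 := by omega
          rfl
        · refine Or.inl ⟨(x, 0), 0, ?_⟩
          obtain ⟨b0, b1, -, -⟩ := corT_eq emP x 0
          rw [k01, b0, b1]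
          unfold emP
          rw [if_pos (by omega), if_pos (by omega)]
    · obtain ⟨a4, a5⟩ := a2 hy
      rw [a4, a5]
      refine Or.inl ⟨(x, y + 1), 0, ?_⟩
      obtain ⟨b0, b1, -, -⟩ := corT_eq emP x (y + 1)
      rw [k01, b0, b1]
  · -- the left side
    refine Or.inl ⟨(x - 1, y), 1, ?_⟩
    obtain ⟨b0, b1, b2, b3⟩ := corT_eq emP (x - 1) y
    rw [k31, k11, b1, a0, sub_add_cancel]
    by_cases hy : y = -1
    · rw [(b3 hy).1, (a3 hy).2, sub_add_cancel]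
    · rw [(b2 hy).1, (a2 hy).2, sub_add_cancel]

end Pool.Agent.Perc.Q
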