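import Pool.Agent.Lib.MP_6bd702_perc3.TwTip
import Pool.Agent.Lib.MP_6bd702_perc3.S2Defs

/-!
# The ring of cells around a tip
-/

set_option autoImplicit false

namespace Pool.Agent.Perc.Q

open Finset Pool.Agent.Perc Relation

variable {w c s R t : ℤ} {ω : Cfg} {G : Finset (ℤ × ℤ)} {f g v z : ℤ × ℤ} {k : ZMod 4}

/-- The counterclockwise direction at the boundary edge `t`. -/
def ttan (R t : ℤ) : ℤ × ℤ := (-(tdir R t).2, (tdir R t).1)

/-- The cells of the ring. -/
def rcell (w R t a b : ℤ) : ℤ × ℤ :=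
  ((tcell w R t).1 + a * (tdir R t).1 + b * (ttan R t).1,
    (tcell w R t).2 + a * (tdir R t).2 + b * (ttan R t).2)

theorem mem_BW {R : ℤ} {f : ℤ × ℤ} : f ∈ BW R ↔
    (-(R + 2) ≤ f.1 ∧ f.1 < R ∧ 0 ≤ f.2 ∧ f.2 < R) ∨
      (-(R + 1) ≤ f.1 ∧ f.1 < R ∧ -R ≤ f.2 ∧ f.2 < 0) := by
  unfold BW
  rw [mem_union, mem_RFi, mem_RFi]

theorem cout_face (hw : 2 ≤ w) (h : COut w R g) (hf : f ∈ cellF w g) :
    f ∉ BW R := by
  rw [mem_BW]
  rw [mem_cellF] at hf
  unfold COut at h
  rw [add_mul, add_mul, one_mul] at h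
  rcases chS_cases g with ⟨a1, a2⟩ | ⟨a1, a2⟩ <;> rw [a2] at hf
  · omega
  · have : 0 ≤ g.1 * w := mul_nonneg a1 (by omega)
    omega

theorem cin_face (hR : 0 < R) (hw : 2 ≤ w) (h : CIn w R g) (hf : f ∈ cellF w g) :
    f ∈ BW R := by
  rw [mem_BW]
  rw [mem_cellF] at hf
  unfold CIn at h
  rw [add_mul, add_mul, one_mul] at h
  rcases chS_cases g with ⟨a1, a2⟩ | ⟨a1, a2⟩ <;> rw [a2] at hf
  · have := mul_lt_of_lt (w := w) (by omega) a1
    rw [zero_mul] at this
    omega
  · have : 0 ≤ g.1 * w := mul_nonneg a1 (by omega)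
    omega

/-- The chart at a tip: `P` are the coordinates of `bd R t`, `D` the outward direction, `E` the
tangent; `n₀`, `τ₀` describe the position of the cells. -/
structure TipC (w R t : ℤ) (P : ℤ × ℤ) (n₀ τ₀ : ℤ) : Prop where
  hR : 20 * w ≤ R
  hn : -w ≤ n₀ ∧ n₀ ≤ 0
  hτ : 1 - w ≤ τ₀ ∧ τ₀ ≤ 0
  bdE : ∀ τ, -(4 * w) ≤ τ → τ ≤ 4 * w →
    bd R (t + τ) = chF (chS (tcell w R t)) (P.1 + τ * (ttan R t).1, P.2 + τ * (ttan R t).2)
  inW : ∀ n τ, -(4 * w) ≤ n → n ≤ 4 * w → -(4 * w) ≤ τ → τ ≤ 4 * w →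
    (InW R (chF (chS (tcell w R t)) (P.1 + n * (tdir R t).1 + τ * (ttan R t).1,
      P.2 + n * (tdir R t).2 + τ * (ttan R t).2)) ↔ n ≤ 0)
  bdW : ∀ n τ, -(4 * w) ≤ n → n ≤ 4 * w → -(4 * w) ≤ τ → τ ≤ 4 * w →
    BdW R (chF (chS (tcell w R t)) (P.1 + n * (tdir R t).1 + τ * (ttan R t).1,
      P.2 + n * (tdir R t).2 + τ * (ttan R t).2)) → n = 0
  cell : ∀ a b, -1 ≤ a → a ≤ 1 → -1 ≤ b → b ≤ 1 → ∀ v, InCell w (rcell w R t a b) v →
    ∃ n τ, v = chF (chS (tcell w R t)) (P.1 + n * (tdir R t).1 + τ * (ttan R t).1,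
      P.2 + n * (tdir R t).2 + τ * (ttan R t).2) ∧ n₀ + a * w ≤ n ∧ n ≤ n₀ + a * w + w ∧
      τ₀ + b * w ≤ τ ∧ τ ≤ τ₀ + b * w + w
  ok : ∀ a b, -1 ≤ a → a ≤ 1 → -1 ≤ b → b ≤ 1 → CellOk (rcell w R t a b) ∧
    chS (rcell w R t a b) = chS (tcell w R t)
  out : ∀ b, -1 ≤ b → b ≤ 1 → COut w R (rcell w R t 1 b)
  cin : ∀ b, -1 ≤ b → b ≤ 1 → CIn w R (rcell w R t (-1) b)
  cin3 : ∀ a b, -1 ≤ a → a ≤ 1 → -1 ≤ b → b ≤ 1 → CIn w (R + 3 * w) (rcell w R t a b)
  cout3 : ∀ a b, -1 ≤ a → a ≤ 1 → -1 ≤ b → b ≤ 1 → COut w (R - 3 * w) (rcell w R t a b)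
  par : (tdir R t = (1, 0) ∧ ttan R t = (0, 1)) ∨ (tdir R t = (0, 1) ∧ ttan R t = (-1, 0)) ∨
    (tdir R t = (-1, 0) ∧ ttan R t = (0, -1)) ∨ (tdir R t = (0, -1) ∧ ttan R t = (1, 0))

theorem away_cases (hw : 0 < w) (h0 : 0 ≤ t) (h1 : t < 8 * R + 3) (hA : Away R (10 * w) t) :
    (10 * w ≤ t ∧ t ≤ R - 10 * w) ∨
    (R + 10 * w ≤ t ∧ t ≤ 2 * R + 1 - 10 * w) ∨
    (2 * R + 1 + 10 * w ≤ t ∧ t ≤ 3 * R + 2 - 10 * w) ∨
    (3 * R + 2 + 10 * w ≤ t ∧ t ≤ 4 * R + 2 - 10 * w) ∨
    (4 * R + 2 + 10 * w ≤ t ∧ t ≤ 5 * R + 2 - 10 * w) ∨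
    (5 * R + 2 + 10 * w ≤ t ∧ t ≤ 6 * R + 3 - 10 * w) ∨
    (6 * R + 3 + 10 * w ≤ t ∧ t ≤ 7 * R + 3 - 10 * w) ∨
    (7 * R + 3 + 10 * w ≤ t ∧ t ≤ 8 * R + 3 - 10 * w) := by
  unfold Away spec at hA
  simp only [List.mem_cons, List.not_mem_nil, or_false, forall_eq_or_imp, forall_eq] at hA
  obtain ⟨a0, a1, a2, a3, a4, a5, a6, a7, a8⟩ := hA
  rw [le_abs] at a0 a1 a2 a3 a4 a5 a6 a7 a8
  omega

theorem div_bounds (hw : 0 < w) (x : ℤ) : x / w * w ≤ x ∧ x < x / w * w + w := by
  have h1 := Int.emod_add_mul_ediv x w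
  have h2 := Int.emod_nonneg x (by omega : w ≠ 0)
  have h3 := Int.emod_lt_of_pos x hw
  rw [mul_comm]
  omega

theorem mexp (i a b d e w : ℤ) : (i + a * d + b * e) * w = i * w + a * w * d + b * w * e := by ring

theorem mexp1 (i a b d e w : ℤ) :
    (i + a * d + b * e + 1) * w = i * w + a * w * d + b * w * e + w := by ring

theorem tipC_RU (hw : 2 ≤ w) (h0 : 10 * w ≤ t) (h1 : t ≤ R - 10 * w) :
    TipC w R t (R, t) (R / w * w - R) (t / w * w - t) := by
  have b1 := div_bounds (w := w) (by omega) R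
  have b2 := div_bounds (w := w) (by omega) t
  have e1 : tcell w R t = (R / w, t / w) := if_pos (by omega)
  have e2 : tdir R t = (1, 0) := if_pos (by omega)
  have e3 : ttan R t = (0, 1) := by unfold ttan; rw [e2]; rfl
  have i1 : 20 ≤ R / w := (Int.le_ediv_iff_mul_le (by omega)).2 (by omega)
  have i2 : 10 ≤ t / w := (Int.le_ediv_iff_mul_le (by omega)).2 (by omega)
  have e4 : chS (tcell w R t) = 0 := by rw [e1]; exact if_neg (by simp only; omega)
  have e5 : ∀ a b, rcell w R t a b = (R / w + a, t / w + b) := by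
    intro a b
    unfold rcell
    rw [e1, e2, e3]
    simp only [mul_one, mul_zero, add_zero]
  refine ⟨by omega, by omega, by omega, ?_, ?_, ?_, ?_, ?_, ?_, ?_, ?_, ?_, ?_⟩
  · intro τ h2 h3
    rw [e4, e3, chF_zero]
    unfold bd
    rw [if_pos (by omega)]
    simp only [Prod.mk.injEq]
    omega
  · intro n τ h2 h3 h4 h5
    rw [e4, e2, e3, chF_zero]
    unfold InW
    simp only
    omega
  · intro n τ h2 h3 h4 h5
    rw [e4, e2, e3, chF_zero]
    unfold BdW
    simp only
    omega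
  · intro a b h2 h3 h4 h5 v hv
    rw [e5] at hv
    unfold InCell at hv
    simp only at hv
    rw [add_mul, add_mul] at hv
    rw [e4, e2, e3]
    refine ⟨v.1 - R, v.2 - t, ?_, ?_⟩
    · rw [chF_zero]
      refine Prod.ext ?_ ?_ <;> simp only <;> omega
    · have : 0 ≤ t / w * w + b * w := by
        have h6 : 0 ≤ (t / w + b) * w := mul_nonneg (by omega) (by omega)
        rw [add_mul] at h6
        exact h6
      omega
  · intro a b h2 h3 h4 h5
    rw [e5, e4]
    unfold CellOk chS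
    simp only
    exact ⟨by omega, if_neg (by omega)⟩
  · intro b h2 h3
    rw [e5]
    unfold COut
    simp only
    rw [add_mul]
    omega
  · intro b h2 h3
    rw [e5]
    unfold CIn
    simp only
    obtain rfl | rfl | rfl : b = -1 ∨ b = 0 ∨ b = 1 := by omega
    all_goals simp only [add_mul]; omega
  · intro a b h2 h3 h4 h5
    rw [e5]
    unfold CIn
    simp only
    obtain rfl | rfl | rfl : b = -1 ∨ b = 0 ∨ b = 1 := by omega
    all_goals obtain rfl | rfl | rfl : a = -1 ∨ a = 0 ∨ a = 1 := by omega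
    all_goals simp only [add_mul, sub_mul]; omega
  · intro a b h2 h3 h4 h5
    rw [e5]
    unfold COut
    simp only
    obtain rfl | rfl | rfl : b = -1 ∨ b = 0 ∨ b = 1 := by omega
    all_goals obtain rfl | rfl | rfl : a = -1 ∨ a = 0 ∨ a = 1 := by omega
    all_goals simp only [add_mul, sub_mul]; omega
  · rw [e2, e3]
    decide

theorem tipC_T (hw : 2 ≤ w) (hR : 20 * w ≤ R) (h0 : R + 10 * w ≤ t) (h1 : t ≤ 3 * R + 2 - 10 * w)
    (hm : t ≤ 2 * R + 1 - 10 * w ∨ 2 * R + 1 + 10 * w ≤ t) :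
    TipC w R t (2 * R - t, R) (R / w * w - R) (2 * R - t - (2 * R - t - 1) / w * w - w) := by
  have b1 := div_bounds (w := w) (by omega) R
  have b2 := div_bounds (w := w) (by omega) (2 * R - t - 1)
  have e1 : tcell w R t = ((2 * R - t - 1) / w, R / w) := by
    unfold tcell
    rw [if_neg (by omega), if_pos (by omega)]
  have e2 : tdir R t = (0, 1) := by
    unfold tdir
    rw [if_neg (by omega), if_pos (by omega)]
  have e3 : ttan R t = (-1, 0) := by unfold ttan; rw [e2]
  have i1 : 20 ≤ R / w := (Int.le_ediv_iff_mul_le (by omega)).2 (by omega)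
  have i2 : (9 ≤ (2 * R - t - 1) / w ∧ t ≤ 2 * R + 1 - 10 * w) ∨
      (2 * R - t - 1) / w < -9 := by
    rcases hm with hm | hm
    · exact Or.inl ⟨(Int.le_ediv_iff_mul_le (by omega)).2 (by omega), hm⟩
    · exact Or.inr ((Int.ediv_lt_iff_lt_mul (by omega)).2 (by omega))
  have e5 : ∀ a b, rcell w R t a b = ((2 * R - t - 1) / w - b, R / w + a) := by
    intro a b
    unfold rcell
    rw [e1, e2, e3]
    simp only [mul_one, mul_zero, add_zero, mul_neg]
    rfl
  have ec : ∀ u : ℤ × ℤ, 0 ≤ u.2 → chF (chS (tcell w R t)) u = u := fun u hu => chF_up hu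
  refine ⟨hR, by omega, by omega, ?_, ?_, ?_, ?_, ?_, ?_, ?_, ?_, ?_, ?_⟩
  · intro τ h2 h3
    rw [ec _ (by rw [e3]; simp only; omega), e3]
    unfold bd
    rw [if_neg (by omega), if_pos (by omega)]
    simp only [Prod.mk.injEq]
    omega
  · intro n τ h2 h3 h4 h5
    rw [ec _ (by rw [e3, e2]; simp only; omega), e2, e3]
    unfold InW
    simp only
    omega
  · intro n τ h2 h3 h4 h5
    rw [ec _ (by rw [e3, e2]; simp only; omega), e2, e3]
    unfold BdW
    simp only
    omega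
  · intro a b h2 h3 h4 h5 v hv
    rw [e5] at hv
    unfold InCell at hv
    simp only at hv
    rw [add_mul, sub_mul] at hv
    have h7 : 0 ≤ R / w * w + a * w := by
      have h6 : 0 ≤ (R / w + a) * w := mul_nonneg (by omega) (by omega)
      rw [add_mul] at h6
      exact h6
    refine ⟨v.2 - R, 2 * R - t - v.1, ?_, ?_⟩
    · rw [ec _ (by rw [e3, e2]; simp only; omega), e2, e3]
      refine Prod.ext ?_ ?_ <;> simp only <;> omega
    · omega
  · intro a b h2 h3 h4 h5
    rw [e5, e1]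
    unfold CellOk chS
    simp only
    refine ⟨by omega, ?_⟩
    rcases i2 with ⟨i2, -⟩ | i2
    · rw [if_neg (by omega), if_neg (by omega)]
    · rw [if_pos (by omega), if_pos (by omega)]
  · intro b h2 h3
    rw [e5]
    unfold COut
    simp only
    rw [add_mul (R / w)]
    omega
  · intro b h2 h3
    rw [e5]
    unfold CIn
    simp only
    obtain rfl | rfl | rfl : b = -1 ∨ b = 0 ∨ b = 1 := by omega
    all_goals simp only [add_mul, sub_mul]; omega
  · intro a b h2 h3 h4 h5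
    rw [e5]
    unfold CIn
    simp only
    obtain rfl | rfl | rfl : b = -1 ∨ b = 0 ∨ b = 1 := by omega
    all_goals obtain rfl | rfl | rfl : a = -1 ∨ a = 0 ∨ a = 1 := by omega
    all_goals simp only [add_mul, sub_mul]; omega
  · intro a b h2 h3 h4 h5
    rw [e5]
    unfold COut
    simp only
    obtain rfl | rfl | rfl : b = -1 ∨ b = 0 ∨ b = 1 := by omega
    all_goals obtain rfl | rfl | rfl : a = -1 ∨ a = 0 ∨ a = 1 := by omega
    all_goals simp only [add_mul, sub_mul]; omega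
  · rw [e2, e3]
    decide

theorem tipC_L (hw : 2 ≤ w) (hR : 20 * w ≤ R) (h0 : 3 * R + 2 + 10 * w ≤ t)
    (h1 : t ≤ 5 * R + 2 - 10 * w) (hm : t ≤ 4 * R + 2 - 10 * w ∨ 4 * R + 2 + 10 * w ≤ t) :
    TipC w R t (-(R + 2), 4 * R + 2 - t) (-(R + 2) - (-(R + 2)) / w * w - w)
      (4 * R + 2 - t - (4 * R + 1 - t) / w * w - w) := by
  have b1 := div_bounds (w := w) (by omega) (-(R + 2))
  have b2 := div_bounds (w := w) (by omega) (4 * R + 1 - t)
  have e1 : tcell w R t = ((-(R + 2)) / w, (4 * R + 1 - t) / w) := by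
    unfold tcell
    rw [if_neg (by omega), if_neg (by omega), if_pos (by omega)]
  have e2 : tdir R t = (-1, 0) := by
    unfold tdir
    rw [if_neg (by omega), if_neg (by omega), if_pos (by omega)]
  have e3 : ttan R t = (0, -1) := by unfold ttan; rw [e2]; rfl
  have i1 : (-(R + 2)) / w < -19 := (Int.ediv_lt_iff_lt_mul (by omega)).2 (by omega)
  have i2 : (9 ≤ (4 * R + 1 - t) / w ∧ t ≤ 4 * R + 2 - 10 * w) ∨
      ((4 * R + 1 - t) / w < -9 ∧ 4 * R + 2 + 10 * w ≤ t) := by
    rcases hm with hm | hm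
    · exact Or.inl ⟨(Int.le_ediv_iff_mul_le (by omega)).2 (by omega), hm⟩
    · exact Or.inr ⟨(Int.ediv_lt_iff_lt_mul (by omega)).2 (by omega), hm⟩
  have e4 : chS (tcell w R t) = 1 := by rw [e1]; exact if_pos (by simp only; omega)
  have e5 : ∀ a b, rcell w R t a b = ((-(R + 2)) / w - a, (4 * R + 1 - t) / w - b) := by
    intro a b
    unfold rcell
    rw [e1, e2, e3]
    simp only [mul_zero, add_zero, mul_neg, mul_one]
    rfl
  refine ⟨hR, by omega, by omega, ?_, ?_, ?_, ?_, ?_, ?_, ?_, ?_, ?_, ?_⟩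
  · intro τ h2 h3
    rw [e4, e3]
    unfold bd chF
    rw [if_neg (by omega), if_neg (by omega)]
    simp only
    split_ifs <;> (rw [Prod.mk.injEq]; omega)
  · intro n τ h2 h3 h4 h5
    rw [e4, e2, e3]
    unfold InW chF
    simp only
    split_ifs <;> simp only <;> omega
  · intro n τ h2 h3 h4 h5
    rw [e4, e2, e3]
    unfold BdW chF
    simp only
    split_ifs <;> simp only <;> omega
  · intro a b h2 h3 h4 h5 v hv
    rw [e5] at hv
    unfold InCell at hv
    simp only at hv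
    have e6 : chS ((-(R + 2)) / w - a, (4 * R + 1 - t) / w - b) = 1 :=
      if_pos (by simp only; omega)
    rw [e6, sub_mul, sub_mul] at hv
    rw [e4, e2, e3]
    rcases lt_or_ge v.2 0 with h | h
    · refine ⟨-(R + 2) - (v.1 - 1), 4 * R + 2 - t - v.2, ?_, ?_⟩
      · rw [chF_low (by simp only; omega)]
        refine Prod.ext ?_ ?_ <;> simp only <;> omega
      · omega
    · refine ⟨-(R + 2) - v.1, 4 * R + 2 - t - v.2, ?_, ?_⟩
      · rw [chF_up (by simp only; omega)]
        refine Prod.ext ?_ ?_ <;> simp only <;> omega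
      · omega
  · intro a b h2 h3 h4 h5
    rw [e5, e4]
    unfold CellOk chS
    simp only
    exact ⟨by omega, if_pos (by omega)⟩
  · intro b h2 h3
    rw [e5]
    unfold COut
    simp only
    rw [add_mul, sub_mul]
    omega
  · intro b h2 h3
    rw [e5]
    unfold CIn
    simp only
    obtain rfl | rfl | rfl : b = -1 ∨ b = 0 ∨ b = 1 := by omega
    all_goals simp only [add_mul, sub_mul]; omega
  · intro a b h2 h3 h4 h5
    rw [e5]
    unfold CIn
    simp only
    obtain rfl | rfl | rfl : b = -1 ∨ b = 0 ∨ b = 1 := by omega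
    all_goals obtain rfl | rfl | rfl : a = -1 ∨ a = 0 ∨ a = 1 := by omega
    all_goals simp only [add_mul, sub_mul]; omega
  · intro a b h2 h3 h4 h5
    rw [e5]
    unfold COut
    simp only
    obtain rfl | rfl | rfl : b = -1 ∨ b = 0 ∨ b = 1 := by omega
    all_goals obtain rfl | rfl | rfl : a = -1 ∨ a = 0 ∨ a = 1 := by omega
    all_goals simp only [add_mul, sub_mul]; omega
  · rw [e2, e3]
    decide

theorem tipC_BL (hw : 2 ≤ w) (hR : 20 * w ≤ R) (h0 : 5 * R + 2 + 10 * w ≤ t)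
    (h1 : t ≤ 6 * R + 3 - 10 * w) :
    TipC w R t (t - 6 * R - 4, -R) (-R - (-R) / w * w - w)
      ((t - 6 * R - 4) / w * w - (t - 6 * R - 4)) := by
  have b1 := div_bounds (w := w) (by omega) (-R)
  have b2 := div_bounds (w := w) (by omega) (t - 6 * R - 4)
  have e1 : tcell w R t = ((t - 6 * R - 4) / w, (-R) / w) := by
    unfold tcell
    rw [if_neg (by omega), if_neg (by omega), if_neg (by omega), if_pos (by omega)]
  have e2 : tdir R t = (0, -1) := by
    unfold tdir
    rw [if_neg (by omega), if_neg (by omega), if_neg (by omega), if_pos (by omega)]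
  have e3 : ttan R t = (1, 0) := by unfold ttan; rw [e2]; rfl
  have i1 : (-R) / w < -19 := (Int.ediv_lt_iff_lt_mul (by omega)).2 (by omega)
  have i2 : (t - 6 * R - 4) / w < -9 := (Int.ediv_lt_iff_lt_mul (by omega)).2 (by omega)
  have e4 : chS (tcell w R t) = 1 := by rw [e1]; exact if_pos (by simp only; omega)
  have e5 : ∀ a b, rcell w R t a b = ((t - 6 * R - 4) / w + b, (-R) / w - a) := by
    intro a b
    unfold rcell
    rw [e1, e2, e3]
    simp only [mul_zero, add_zero, mul_neg, mul_one]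
    rfl
  refine ⟨hR, by omega, by omega, ?_, ?_, ?_, ?_, ?_, ?_, ?_, ?_, ?_, ?_⟩
  · intro τ h2 h3
    rw [e4, e3]
    unfold bd chF
    rw [if_neg (by omega), if_neg (by omega), if_neg (by omega), if_neg (by omega),
      if_pos (by omega), if_neg (by simp only; omega)]
    simp only [Prod.mk.injEq]
    omega
  · intro n τ h2 h3 h4 h5
    rw [e4, e2, e3]
    unfold InW chF
    rw [if_neg (by simp only; omega)]
    simp only
    omega
  · intro n τ h2 h3 h4 h5
    rw [e4, e2, e3]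
    unfold BdW chF
    rw [if_neg (by simp only; omega)]
    simp only
    omega
  · intro a b h2 h3 h4 h5 v hv
    rw [e5] at hv
    unfold InCell at hv
    simp only at hv
    have e6 : chS ((t - 6 * R - 4) / w + b, (-R) / w - a) = 1 := if_pos (by simp only; omega)
    rw [e6, sub_mul, add_mul] at hv
    have h7 : (-R) / w * w - a * w + w < 0 := by
      have h6 : ((-R) / w - a + 1) * w < 0 := mul_neg_of_neg_of_pos (by omega) (by omega)
      rw [add_mul, sub_mul] at h6
      omega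
    rw [e4, e2, e3]
    refine ⟨-R - v.2, v.1 - 1 - (t - 6 * R - 4), ?_, ?_⟩
    · rw [chF_low (by simp only; omega)]
      refine Prod.ext ?_ ?_ <;> simp only <;> omega
    · omega
  · intro a b h2 h3 h4 h5
    rw [e5, e4]
    unfold CellOk chS
    simp only
    exact ⟨by omega, if_pos (by omega)⟩
  · intro b h2 h3
    rw [e5]
    unfold COut
    simp only
    rw [add_mul ((-R) / w - 1), sub_mul]
    omega
  · intro b h2 h3
    rw [e5]
    unfold CIn
    simp only
    obtain rfl | rfl | rfl : b = -1 ∨ b = 0 ∨ b = 1 := by omega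
    all_goals simp only [add_mul, sub_mul]; omega
  · intro a b h2 h3 h4 h5
    rw [e5]
    unfold CIn
    simp only
    obtain rfl | rfl | rfl : b = -1 ∨ b = 0 ∨ b = 1 := by omega
    all_goals obtain rfl | rfl | rfl : a = -1 ∨ a = 0 ∨ a = 1 := by omega
    all_goals simp only [add_mul, sub_mul]; omega
  · intro a b h2 h3 h4 h5
    rw [e5]
    unfold COut
    simp only
    obtain rfl | rfl | rfl : b = -1 ∨ b = 0 ∨ b = 1 := by omega
    all_goals obtain rfl | rfl | rfl : a = -1 ∨ a = 0 ∨ a = 1 := by omega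
    all_goals simp only [add_mul, sub_mul]; omega
  · rw [e2, e3]
    decide

theorem tipC_BR (hw : 2 ≤ w) (hR : 20 * w ≤ R) (h0 : 6 * R + 3 + 10 * w ≤ t)
    (h1 : t ≤ 7 * R + 3 - 10 * w) :
    TipC w R t (t - 6 * R - 3, -R) (-R - (-R) / w * w - w)
      ((t - 6 * R - 3) / w * w - (t - 6 * R - 3)) := by
  have b1 := div_bounds (w := w) (by omega) (-R)
  have b2 := div_bounds (w := w) (by omega) (t - 6 * R - 3)
  have e1 : tcell w R t = ((t - 6 * R - 3) / w, (-R) / w) := by
    unfold tcell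
    rw [if_neg (by omega), if_neg (by omega), if_neg (by omega), if_neg (by omega),
      if_pos (by omega)]
  have e2 : tdir R t = (0, -1) := by
    unfold tdir
    rw [if_neg (by omega), if_neg (by omega), if_neg (by omega), if_pos (by omega)]
  have e3 : ttan R t = (1, 0) := by unfold ttan; rw [e2]; rfl
  have i1 : (-R) / w < -19 := (Int.ediv_lt_iff_lt_mul (by omega)).2 (by omega)
  have i2 : 10 ≤ (t - 6 * R - 3) / w := (Int.le_ediv_iff_mul_le (by omega)).2 (by omega)
  have e4 : chS (tcell w R t) = 0 := by rw [e1]; exact if_neg (by simp only; omega)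
  have e5 : ∀ a b, rcell w R t a b = ((t - 6 * R - 3) / w + b, (-R) / w - a) := by
    intro a b
    unfold rcell
    rw [e1, e2, e3]
    simp only [mul_zero, add_zero, mul_neg, mul_one]
    rfl
  refine ⟨hR, by omega, by omega, ?_, ?_, ?_, ?_, ?_, ?_, ?_, ?_, ?_, ?_⟩
  · intro τ h2 h3
    rw [e4, e3, chF_zero]
    unfold bd
    rw [if_neg (by omega), if_neg (by omega), if_neg (by omega), if_neg (by omega),
      if_pos (by omega)]
    simp only [Prod.mk.injEq]
    omega
  · intro n τ h2 h3 h4 h5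
    rw [e4, e2, e3, chF_zero]
    unfold InW
    simp only
    omega
  · intro n τ h2 h3 h4 h5
    rw [e4, e2, e3, chF_zero]
    unfold BdW
    simp only
    omega
  · intro a b h2 h3 h4 h5 v hv
    rw [e5] at hv
    unfold InCell at hv
    simp only at hv
    have e6 : chS ((t - 6 * R - 3) / w + b, (-R) / w - a) = 0 := if_neg (by simp only; omega)
    rw [e6, sub_mul, add_mul] at hv
    have h7 : (-R) / w * w - a * w + w < 0 := by
      have h6 : ((-R) / w - a + 1) * w < 0 := mul_neg_of_neg_of_pos (by omega) (by omega)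
      rw [add_mul, sub_mul] at h6
      omega
    rw [e4, e2, e3]
    refine ⟨-R - v.2, v.1 - (t - 6 * R - 3), ?_, ?_⟩
    · rw [chF_zero]
      refine Prod.ext ?_ ?_ <;> simp only <;> omega
    · omega
  · intro a b h2 h3 h4 h5
    rw [e5, e4]
    unfold CellOk chS
    simp only
    exact ⟨by omega, if_neg (by omega)⟩
  · intro b h2 h3
    rw [e5]
    unfold COut
    simp only
    rw [add_mul ((-R) / w - 1), sub_mul]
    omega
  · intro b h2 h3
    rw [e5]
    unfold CIn
    simp only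
    obtain rfl | rfl | rfl : b = -1 ∨ b = 0 ∨ b = 1 := by omega
    all_goals simp only [add_mul, sub_mul]; omega
  · intro a b h2 h3 h4 h5
    rw [e5]
    unfold CIn
    simp only
    obtain rfl | rfl | rfl : b = -1 ∨ b = 0 ∨ b = 1 := by omega
    all_goals obtain rfl | rfl | rfl : a = -1 ∨ a = 0 ∨ a = 1 := by omega
    all_goals simp only [add_mul, sub_mul]; omega
  · intro a b h2 h3 h4 h5
    rw [e5]
    unfold COut
    simp only
    obtain rfl | rfl | rfl : b = -1 ∨ b = 0 ∨ b = 1 := by omega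
    all_goals obtain rfl | rfl | rfl : a = -1 ∨ a = 0 ∨ a = 1 := by omega
    all_goals simp only [add_mul, sub_mul]; omega
  · rw [e2, e3]
    decide

theorem tipC_RL (hw : 2 ≤ w) (hR : 20 * w ≤ R) (h0 : 7 * R + 3 + 10 * w ≤ t)
    (h1 : t ≤ 8 * R + 3 - 10 * w) :
    TipC w R t (R, t - 8 * R - 3) (R / w * w - R)
      ((t - 8 * R - 3) / w * w - (t - 8 * R - 3)) := by
  have b1 := div_bounds (w := w) (by omega) R
  have b2 := div_bounds (w := w) (by omega) (t - 8 * R - 3)
  have e1 : tcell w R t = (R / w, (t - 8 * R - 3) / w) := by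
    unfold tcell
    rw [if_neg (by omega), if_neg (by omega), if_neg (by omega), if_neg (by omega),
      if_neg (by omega)]
  have e2 : tdir R t = (1, 0) := by
    unfold tdir
    rw [if_neg (by omega), if_neg (by omega), if_neg (by omega), if_neg (by omega)]
  have e3 : ttan R t = (0, 1) := by unfold ttan; rw [e2]; rfl
  have i1 : 20 ≤ R / w := (Int.le_ediv_iff_mul_le (by omega)).2 (by omega)
  have i2 : (t - 8 * R - 3) / w < -9 := (Int.ediv_lt_iff_lt_mul (by omega)).2 (by omega)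
  have e4 : chS (tcell w R t) = 0 := by rw [e1]; exact if_neg (by simp only; omega)
  have e5 : ∀ a b, rcell w R t a b = (R / w + a, (t - 8 * R - 3) / w + b) := by
    intro a b
    unfold rcell
    rw [e1, e2, e3]
    simp only [mul_one, mul_zero, add_zero]
  refine ⟨hR, by omega, by omega, ?_, ?_, ?_, ?_, ?_, ?_, ?_, ?_, ?_, ?_⟩
  · intro τ h2 h3
    rw [e4, e3, chF_zero]
    unfold bd
    rw [if_neg (by omega), if_neg (by omega), if_neg (by omega), if_neg (by omega),
      if_neg (by omega)]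
    simp only [Prod.mk.injEq]
    omega
  · intro n τ h2 h3 h4 h5
    rw [e4, e2, e3, chF_zero]
    unfold InW
    simp only
    omega
  · intro n τ h2 h3 h4 h5
    rw [e4, e2, e3, chF_zero]
    unfold BdW
    simp only
    omega
  · intro a b h2 h3 h4 h5 v hv
    rw [e5] at hv
    unfold InCell at hv
    simp only at hv
    have e6 : chS (R / w + a, (t - 8 * R - 3) / w + b) = 0 := if_neg (by simp only; omega)
    rw [e6, add_mul, add_mul] at hv
    have h7 : (t - 8 * R - 3) / w * w + b * w + w < 0 := by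
      have h6 : ((t - 8 * R - 3) / w + b + 1) * w < 0 :=
        mul_neg_of_neg_of_pos (by omega) (by omega)
      rw [add_mul, add_mul] at h6
      omega
    rw [e4, e2, e3]
    refine ⟨v.1 - R, v.2 - (t - 8 * R - 3), ?_, ?_⟩
    · rw [chF_zero]
      refine Prod.ext ?_ ?_ <;> simp only <;> omega
    · omega
  · intro a b h2 h3 h4 h5
    rw [e5, e4]
    unfold CellOk chS
    simp only
    exact ⟨by omega, if_neg (by omega)⟩
  · intro b h2 h3
    rw [e5]
    unfold COut
    simp only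
    rw [add_mul]
    omega
  · intro b h2 h3
    rw [e5]
    unfold CIn
    simp only
    obtain rfl | rfl | rfl : b = -1 ∨ b = 0 ∨ b = 1 := by omega
    all_goals simp only [add_mul, sub_mul]; omega
  · intro a b h2 h3 h4 h5
    rw [e5]
    unfold CIn
    simp only
    obtain rfl | rfl | rfl : b = -1 ∨ b = 0 ∨ b = 1 := by omega
    all_goals obtain rfl | rfl | rfl : a = -1 ∨ a = 0 ∨ a = 1 := by omega
    all_goals simp only [add_mul, sub_mul]; omega
  · intro a b h2 h3 h4 h5
    rw [e5]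
    unfold COut
    simp only
    obtain rfl | rfl | rfl : b = -1 ∨ b = 0 ∨ b = 1 := by omega
    all_goals obtain rfl | rfl | rfl : a = -1 ∨ a = 0 ∨ a = 1 := by omega
    all_goals simp only [add_mul, sub_mul]; omega
  · rw [e2, e3]
    decide

/-- The chart at a tip. -/
theorem exists_tipC (hw : 2 ≤ w) (hR : 20 * w ≤ R) (h0 : 0 ≤ t) (h1 : t < 8 * R + 3) (hA : Away R (10 * w) t) :
    ∃ P n₀ τ₀, TipC w R t P n₀ τ₀ := by
  rcases away_cases (by omega) h0 h1 hA with h | h | h | h | h | h | h | h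
  · exact ⟨_, _, _, tipC_RU hw h.1 h.2⟩
  · exact ⟨_, _, _, tipC_T hw hR (by omega) (by omega) (Or.inl h.2)⟩
  · exact ⟨_, _, _, tipC_T hw hR (by omega) (by omega) (Or.inr h.1)⟩
  · exact ⟨_, _, _, tipC_L hw hR (by omega) (by omega) (Or.inl h.2)⟩
  · exact ⟨_, _, _, tipC_L hw hR (by omega) (by omega) (Or.inr h.1)⟩
  · exact ⟨_, _, _, tipC_BL hw hR (by omega) (by omega)⟩
  · exact ⟨_, _, _, tipC_BR hw hR (by omega) (by omega)⟩
  · exact ⟨_, _, _, tipC_RL hw hR (by omega) (by omega)⟩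

end Pool.Agent.Perc.Q
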