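import Pool.Agent.Lib.MP_6bd702_perc3.TubeC
import Pool.Agent.Lib.MP_6bd702_perc3.TwBd

/-!
# Landing at a tip
-/

set_option autoImplicit false

namespace Pool.Agent.Perc.Q

open Finset Pool.Agent.Perc Relation

variable {w c s R t : ℤ} {ω : Cfg} {G : Finset (ℤ × ℤ)} {f g v z : ℤ × ℤ} {k : ZMod 4}

theorem isCor_cor0 (f : ℤ × ℤ) (k : ZMod 4) : IsCor f (cor0 f k) := by
  rcases k4_cases k with rfl | rfl | rfl | rfl
  · rw [cor0_0]; exact ⟨Or.inl rfl, Or.inl rfl⟩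
  · rw [cor0_1]; exact ⟨Or.inr rfl, Or.inl rfl⟩
  · rw [cor0_2]; exact ⟨Or.inr rfl, Or.inr rfl⟩
  · rw [cor0_3]; exact ⟨Or.inl rfl, Or.inr rfl⟩

theorem cor0_opp (f : ℤ × ℤ) (k : ZMod 4) :
    ((cor0 f k).1 + (cor0 f k).2 - ((cor0 f (k + 2)).1 + (cor0 f (k + 2)).2)) % 2 = 0 := by
  rcases k4_cases k with rfl | rfl | rfl | rfl
  · rw [k02, cor0_0, cor0_2]; simp only; omega
  · rw [k12, cor0_1, cor0_3]; simp only; omega
  · rw [k22, cor0_2, cor0_0]; simp only; omega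
  · rw [k32, cor0_3, cor0_1]; simp only; omega

/-- The corners of a face in a chart. -/
theorem corner_chF {F : Set (ℤ × ℤ)} (hF : ChOk emP s F) (hf : f ∈ F) (k : ZMod 4) :
    TQ.c (chF s f) k = chF s (cor0 f k) := by
  change corT emP (chF s f) k = _
  have hc := isCor_cor0 f k
  rcases lt_or_ge f.2 0 with h | h
  · rw [chF_low h, corT_low (f := (f.1 + s, f.2)) h, chF_cor hF hf h hc]
    congr 1
    rcases k4_cases k with rfl | rfl | rfl | rfl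
    · rfl
    · rw [cor0_1, cor0_1]; simp only [Prod.mk.injEq, and_true]; omega
    · rw [cor0_2, cor0_2]; simp only [Prod.mk.injEq, and_true]; omega
    · rfl
  · rw [chF_up h, corT_up h]
    unfold IsCor at hc
    rw [chF_up (by omega)]

theorem chOk_sqF (hw : 2 ≤ w) (hg : CellOk g) : ChOk emP (chS g) (sqF w g : Set (ℤ × ℤ)) := by
  refine chOk_emP fun f hf h1 => ?_
  have h2 := mem_RFi.1 (Finset.mem_coe.1 hf)
  unfold CellOk at hg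
  have hneg : g.2 = -1 := eq_of_mem_cell (x := f.2) (w := w) (by omega) h2.2.2.1 h2.2.2.2 (by omega)
    (by omega)
  rcases chS_cases g with ⟨b1, b2⟩ | ⟨b1, b2⟩
  · have hb : g.1 < -1 := by omega
    have c1 := mul_lt_of_lt (w := w) (by omega) hb
    right
    omega
  · have c1 : 0 ≤ g.1 * w := mul_nonneg b1 (by omega)
    left
    omega

/-- The corners of the faces of a cell. -/
theorem corner_cell (hw : 2 ≤ w) (hg : CellOk g) (hf : f ∈ cellF w g) (k : ZMod 4) :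
    InCell w g (TQ.c f k) ∧
      (parV (chS g) (TQ.c f k) - parV (chS g) (TQ.c f (k + 2))) % 2 = 0 := by
  unfold cellF at hf
  obtain ⟨a, ha, rfl⟩ := mem_image.1 hf
  rw [corner_chF (chOk_sqF hw hg) ha, corner_chF (chOk_sqF hw hg) ha, parV_chF, parV_chF]
  refine ⟨?_, cor0_opp a k⟩
  have h1 := mem_RFi.1 ha
  have h2 := isCor_cor0 a k
  unfold IsCor at h2
  exact inCell_chF (by omega) (by omega) (by omega) (by omega)

/-- Every vertex of a closed cell is a corner of a face of the cell. -/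
theorem exists_face_cell (hw : 2 ≤ w) (hg : CellOk g) (hv : InCell w g v) :
    ∃ f ∈ cellF w g, ∃ k, TQ.c f k = v := by
  -- the chart coordinates
  obtain ⟨u, rfl, h1, h2, h3, h4⟩ : ∃ u, chF (chS g) u = v ∧ g.1 * w ≤ u.1 ∧ u.1 ≤ g.1 * w + w ∧
      g.2 * w ≤ u.2 ∧ u.2 ≤ g.2 * w + w := by
    unfold InCell at hv
    rcases hv with ⟨h1, h2, ⟨h3, h4, h5⟩ | ⟨h3, h4, h5⟩⟩
    · exact ⟨v, chF_up h3, h4, h5, h1, h2⟩
    · refine ⟨(v.1 - chS g, v.2), ?_, ?_, ?_, h1, h2⟩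
      · rw [chF_low (f := (v.1 - chS g, v.2)) h3]
        simp
      · simp only; omega
      · simp only; omega
  have key : ∀ a : ℤ × ℤ, a ∈ sqF w g → ∀ k, cor0 a k = u →
      ∃ f ∈ cellF w g, ∃ k, TQ.c f k = chF (chS g) u := by
    intro a ha k hk
    refine ⟨chF (chS g) a, chF_mem_cellF ha, k, ?_⟩
    rw [corner_chF (chOk_sqF hw hg) ha, hk]
  obtain ⟨x, y⟩ := u
  simp only at h1 h2 h3 h4
  rcases eq_or_lt_of_le h2 with e1 | e1 <;> rcases eq_or_lt_of_le h4 with e2 | e2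
  · refine key (x - 1, y - 1) (mem_RFi.2 ?_) 2 ?_
    · simp only; omega
    · rw [cor0_2]; simp
  · refine key (x - 1, y) (mem_RFi.2 ?_) 1 ?_
    · simp only; omega
    · rw [cor0_1]; simp
  · refine key (x, y - 1) (mem_RFi.2 ?_) 3 ?_
    · simp only; omega
    · rw [cor0_3]; simp
  · refine key (x, y) (mem_RFi.2 ?_) 0 ?_
    · simp only; omega
    · rw [cor0_0]

/-- The vertex `v` lies on the common boundary of the faces of `Y` and the other faces. -/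
def OnB (Y : Set (ℤ × ℤ)) (v : ℤ × ℤ) : Prop :=
  (∃ f ∈ Y, ∃ k, TQ.c f k = v) ∧ ∃ f, f ∉ Y ∧ ∃ k, TQ.c f k = v

/-- Landing, abstract form: `AC` are the cells after the tip, `BC` the cells before the tip, `MC`
the cells between them in the explored domain `Y`; `S` are the visited faces. -/
theorem land_cells (hw : 2 ≤ w) (hG : ∀ g ∈ G, CellOk g) (hω : ω ∈ Tub w c G)
    {AC BC MC : Set (ℤ × ℤ)} {Y S T : Set (ℤ × ℤ)} {g₀ g₁ : ℤ × ℤ}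
    (hs : ∀ g, g ∈ AC ∨ g ∈ BC → chS g = s)
    (hAG : ∀ g ∈ AC, g ∈ G) (hBG : ∀ g ∈ BC, g ∈ G) (hMG : ∀ g ∈ MC, g ∈ G)
    (hMY : ∀ g ∈ MC, ∀ f ∈ cellF w g, f ∈ Y)
    (hAB : ∀ g ∈ AC, ∀ g' ∈ BC, ∀ v, InCell w g v → ¬ InCell w g' v)
    (hg₀ : g₀ ∈ BC) (hg₀' : ∀ f ∈ cellF w g₀, f ∉ Y)
    (hg₁ : g₁ ∈ AC) (hg₁' : ∀ f ∈ cellF w g₁, f ∉ Y)
    (hpath : ReflTransGen (fun a b => a ∈ G ∧ b ∈ G ∧ (a ∈ AC ∨ a ∈ BC ∨ a ∈ MC) ∧
      (b ∈ AC ∨ b ∈ BC ∨ b ∈ MC) ∧ CAdj a b) g₀ g₁)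
    (hSY : S ⊆ Y)
    (H1 : ∀ g ∈ AC, ∀ v, InCell w g v → OnB Y v → (v ∈ T ↔ (parV s v - c) % 2 = 0))
    (H2 : ∀ g ∈ BC, ∀ v, InCell w g v → OnB Y v → v ∉ T)
    (H3 : ∀ a ∈ G, (a ∈ AC ∨ a ∈ BC ∨ a ∈ MC) → ∀ f ∈ cellF w a, f ∈ Y → f ∉ S →
      ∀ k, TQ.c f k ∈ T ↔ TQ.c f (k + 2) ∈ T) :
    ∃ z ∈ T, (∃ f ∈ S, ∃ k, TQ.c f k = z) ∧
      ConnW emP ω ({f | ∃ a ∈ G, (a ∈ AC ∨ a ∈ BC ∨ a ∈ MC) ∧ f ∈ cellF w a} \ S) z
        (rep w c ω g₁) := by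
  classical
  set VY : ℤ × ℤ → Prop := fun v => ∃ f ∈ Y, ∃ k, TQ.c f k = v with hVY
  set T' : Set (ℤ × ℤ) := {v | (VY v ∧ v ∈ T) ∨
    (¬ VY v ∧ (∃ g ∈ AC, InCell w g v) ∧ (parV s v - c) % 2 = 0)} with hT'
  have hA : ∀ g ∈ AC, ∀ v, InCell w g v → (∃ f, f ∉ Y ∧ ∃ k, TQ.c f k = v) →
      (v ∈ T' ↔ (parV s v - c) % 2 = 0) := by
    intro g hg v hv hout
    by_cases h : VY v
    · have h1 := H1 g hg v hv ⟨h, hout⟩
      rw [hT', Set.mem_ofPred_eq, ← h1]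
      exact ⟨fun hh => hh.elim (fun h' => h'.2) (fun h' => absurd h h'.1), fun hh => Or.inl ⟨h, hh⟩⟩
    · rw [hT', Set.mem_ofPred_eq]
      exact ⟨fun hh => hh.elim (fun h' => absurd h'.1 h) (fun h' => h'.2.2),
        fun hh => Or.inr ⟨h, ⟨g, hg, hv⟩, hh⟩⟩
  have hB : ∀ g ∈ BC, ∀ v, InCell w g v → (∃ f, f ∉ Y ∧ ∃ k, TQ.c f k = v) → v ∉ T' := by
    intro g hg v hv hout h
    rcases h with ⟨h1, h2⟩ | ⟨-, ⟨g', hg', h1⟩, -⟩
    · exact H2 g hg v hv ⟨h1, hout⟩ h2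
    · exact hAB g' hg' g hg v h1 hv
  have hmem : ∀ a, (a ∈ AC ∨ a ∈ BC ∨ a ∈ MC) → a ∈ G := by
    rintro a (h | h | h)
    · exact hAG a h
    · exact hBG a h
    · exact hMG a h
  have hconn := tub_link hw hG hω (P := fun a => a ∈ AC ∨ a ∈ BC ∨ a ∈ MC) hpath
  have hconn' := (connQ_iff emP_mono).2 hconn
  have h0G := hBG g₀ hg₀
  have h1G := hAG g₁ hg₁
  have hr0 := rep_inCell (by omega) hω h0G
  have hr1 := rep_inCell (by omega) hω h1G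
  have k1 : ∀ f ∈ {f | ∃ a ∈ G, (a ∈ AC ∨ a ∈ BC ∨ a ∈ MC) ∧ f ∈ cellF w a}, f ∉ S → ∀ k,
      (TQ.c f k ∈ T' ↔ TQ.c f (k + 2) ∈ T') := by
    rintro f ⟨a, ha, haP, hfa⟩ hfS k
    by_cases hfY : f ∈ Y
    · have v1 : VY (TQ.c f k) := ⟨f, hfY, k, rfl⟩
      have v2 : VY (TQ.c f (k + 2)) := ⟨f, hfY, k + 2, rfl⟩
      have h3 := H3 a ha haP f hfa hfY hfS k
      rw [hT', Set.mem_ofPred_eq, Set.mem_ofPred_eq]
      exact ⟨fun hh => hh.elim (fun h' => Or.inl ⟨v2, h3.1 h'.2⟩) (fun h' => absurd v1 h'.1),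
        fun hh => hh.elim (fun h' => Or.inl ⟨v1, h3.2 h'.2⟩) (fun h' => absurd v2 h'.1)⟩
    · have hc1 := corner_cell hw (hG a ha) hfa k
      have hc2 := corner_cell hw (hG a ha) hfa (k + 2)
      rcases haP with h | h | h
      · rw [hA a h _ hc1.1 ⟨f, hfY, k, rfl⟩, hA a h _ hc2.1 ⟨f, hfY, k + 2, rfl⟩]
        have := hc1.2
        rw [hs a (Or.inl h)] at this
        omega
      · have b1 := hB a h _ hc1.1 ⟨f, hfY, k, rfl⟩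
        have b2 := hB a h _ hc2.1 ⟨f, hfY, k + 2, rfl⟩
        exact ⟨fun h' => absurd h' b1, fun h' => absurd h' b2⟩
      · exact absurd (hMY a h f hfa) hfY
  have k2 : ∀ f ∈ S, ∀ k, TQ.c f k ∈ T' →
      (fun z => z ∈ T ∧ ∃ f ∈ S, ∃ k, TQ.c f k = z) (TQ.c f k) := by
    intro f hf k hk
    refine ⟨?_, f, hf, k, rfl⟩
    rcases hk with h | h
    · exact h.2
    · exact absurd ⟨f, hSY hf, k, rfl⟩ h.1
  have k3 : rep w c ω g₀ ∉ T' := by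
    obtain ⟨f, hf, k, hk⟩ := exists_face_cell hw (hG g₀ h0G) hr0
    exact hB g₀ hg₀ _ hr0 ⟨f, hg₀' f hf, k, hk⟩
  have k4 : rep w c ω g₁ ∈ T' := by
    obtain ⟨f, hf, k, hk⟩ := exists_face_cell hw (hG g₁ h1G) hr1
    rw [hA g₁ hg₁ _ hr1 ⟨f, hg₁' f hf, k, hk⟩]
    have := rep_parV hω h1G
    rwa [hs g₁ (Or.inl hg₁)] at this
  obtain ⟨z, ⟨hz1, f, hfS, k, hk⟩, -, hz3⟩ :=
    land (C := fun z => z ∈ T ∧ ∃ f ∈ S, ∃ k, TQ.c f k = z) k1 k2 k3 k4 hconn'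
  exact ⟨z, hz1, ⟨f, hfS, k, hk⟩, (connQ_iff emP_mono).1 hz3⟩

end Pool.Agent.Perc.Q
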