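import Pool.Agent.Lib.MP_6bd702_perc3.IdentO
import Pool.Agent.Lib.MP_6bd702_perc3.LimO
import Pool.Agent.Lib.MP_6bd702_perq.TwoC

/-!
# The two-sided cylinder with circumference `2 m + 1` above and `2 m` below (task TwoO)

Model: perq/TwoC.lean. The faces of the upper half are `(x, y)` with `0 ≤ x < 2 m + 1`,
`0 ≤ y < M`, those of the lower half `0 ≤ x < 2 m`, `- M ≤ y < 0`.
-/

set_option autoImplicit false

namespace Pool.Agent.Perc

open Finset MvPolynomial Filter Topology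

/-- Run the rows `M - 1, …, 0` of the cylinder of odd circumference `L`, the top row first. -/
def runO (L : ℕ) (ω : Cfg) : ℕ → (ℕ → ℕ) → (ℕ → ℕ)
  | 0, p => p
  | M + 1, p => runO L ω M (trowO L (fun i => ω ((i : ℤ), (M : ℤ))) p)

/-- The state of the upper half of odd circumference. -/
def upOS (L M : ℕ) (ω : Cfg) : ℕ → ℕ := runO L ω M (flatO L)

namespace TwoO

open CylArmB TwoC

theorem rowO_congr {w w' : ℕ → Bool} (p : ℕ → ℕ) {k : ℕ} (h : ∀ i < k, w i = w' i) :
    rowO w k p = rowO w' k p := by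
  induction k with
  | zero => rfl
  | succ k ih =>
    simp only [rowO]
    rw [ih (fun i hi => h i (by omega)), h k (by omega)]

theorem trowO_congr {L : ℕ} {w w' : ℕ → Bool} (p : ℕ → ℕ) (h : ∀ i < L, w i = w' i) :
    trowO L w p = trowO L w' p := by
  unfold trowO
  rw [rowO_congr _ h]

theorem runO_congr {L : ℕ} {ω ω' : Cfg} {M : ℕ}
    (h : ∀ i < L, ∀ m < M, ω ((i : ℤ), (m : ℤ)) = ω' ((i : ℤ), (m : ℤ))) (p : ℕ → ℕ) :
    runO L ω M p = runO L ω' M p := by
  induction M generalizing p with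
  | zero => rfl
  | succ M ih =>
    simp only [runO]
    rw [ih (fun i hi m hm => h i hi m (by omega)),
      trowO_congr p (fun i hi => h i hi M (by omega))]

theorem ex_runO {L : ℕ} (M : ℕ) (f : (ℕ → ℕ) → ℂ) (p : ℕ → ℕ) :
    ex (RF 0 L 0 M) (fun ω => f (runO L ω M p)) = ((avgO L)^[M] f) p := by
  induction M generalizing p with
  | zero =>
    unfold ex
    have e : RF 0 L 0 ((0 : ℕ) : ℤ) = ∅ := by simp [RF]
    rw [e]
    simp [runO]
  | succ M ih =>
    rw [Function.iterate_succ_apply', ex_row]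
    unfold avgO
    congr 1
    refine sum_congr rfl (fun T _ => ?_)
    change _ = ((avgO L)^[M] f) _
    rw [← ih]
    apply ex_congr
    intro T2 hT2
    simp only [runO]
    congr 1
    have hT2' : ∀ i : ℕ, ((i : ℤ), (M : ℤ)) ∉ T2 := fun i hi => by
      have := (mem_RF.1 (hT2 hi)).2.2
      simp at this
    rw [trowO_congr p
      (w := fun i => cfg T2 ((i : ℤ), (M : ℤ)) || decide (((i : ℤ), (M : ℤ)) ∈ row M T))
      (w' := fun k => decide (k ∈ T))]
    · apply runO_congr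
      intro i _ m hm
      have : ((i : ℤ), (m : ℤ)) ∉ row M T := by
        intro h
        obtain ⟨k, _, hk⟩ := mem_row.1 h
        have := congrArg Prod.snd hk
        simp only [Nat.cast_inj] at this
        omega
      simp [this]
    · intro i _
      simp [cfg, hT2', nat_mem_row]

theorem disjO (L L' M : ℕ) : Disjoint (RF 0 L 0 M) (RF 0 L' (-(M : ℤ)) 0) := by
  rw [disjoint_left]
  intro f h1 h2
  rw [mem_RF] at h1 h2
  omega

/-- The two halves are independent. -/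
theorem ex_twoO (L L' M : ℕ) (f : St → (ℕ → ℕ) → ℂ) :
    ex (RF 0 L 0 M ∪ RF 0 L' (-(M : ℤ)) 0) (fun ω => f (loS L' M ω) (upOS L M ω)) =
      ((avgO L)^[M] (fun p => ((avgL L')^[M] (fun s => f s p)) (s0 L'))) (flatO L) := by
  rw [← ex_runO, ex_union (disjO L L' M)]
  apply ex_congr
  intro T1 hT1
  rw [← ex_run]
  have e1 : ∀ h : St → ℂ, ex (RF 0 L' 0 M) (fun ω => h (run L' ω M (s0 L'))) =
      ex (RF 0 L' (-(M : ℤ)) 0) (fun ω => h (loS L' M ω)) := fun h => (ex_low L' M h).symm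
  rw [e1 (fun s => f s (runO L (cfg T1) M (flatO L)))]
  apply ex_congr
  intro T2 hT2
  have e2 : upOS L M (fun x => cfg T1 x || cfg T2 x) = runO L (cfg T1) M (flatO L) := by
    unfold upOS
    apply runO_congr
    intro i _ m hm
    have h1 : ((i : ℤ), (m : ℤ)) ∉ T2 := by
      intro h1
      have := (mem_RF.1 (hT2 h1)).2.2
      simp only at this
      omega
    simp [cfg, h1]
  have e3 : loS L' M (fun x => cfg T1 x || cfg T2 x) = loS L' M (cfg T2) := by
    unfold loS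
    apply run_congr
    intro i _ m hm
    have h1 : ((i : ℤ), -1 - (m : ℤ)) ∉ T1 := by
      intro h1
      have := (mem_RF.1 (hT1 h1)).2.1
      simp only at this
      omega
    simp [lowC, cfg, h1]
  rw [e2, e3]

theorem nco_runO (L : ℕ) (ω : Cfg) (M : ℕ) {p : ℕ → ℕ} (hp : NCO L p) :
    NCO L (runO L ω M p) := by
  induction M generalizing p with
  | zero => exact hp
  | succ M ih => exact ih (hp.trowO _)

open Classical in
/-- The law of the state after `M` rows. -/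
noncomputable def muO (L M : ℕ) (t : ℕ → ℕ) : ℂ :=
  ((avgO L)^[M] (fun p => if p = t then 1 else 0)) (flatO L)

theorem iter_eqO {n : ℕ} (M : ℕ) (h : (ℕ → ℕ) → ℂ) :
    ((avgO (2 * n + 1))^[M] h) (flatO (2 * n + 1)) =
      ∑ t ∈ nco (2 * n + 1), muO (2 * n + 1) M t * h t := by
  classical
  unfold muO
  rw [← ex_runO]
  have e1 : ∀ t ∈ nco (2 * n + 1), ((avgO (2 * n + 1))^[M] (fun p => if p = t then 1 else 0))
      (flatO (2 * n + 1)) * h t = ex (RF 0 ((2 * n + 1 : ℕ) : ℤ) 0 M) (fun ω =>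
        (if runO (2 * n + 1) ω M (flatO (2 * n + 1)) = t then (1 : ℂ) else 0) * h t) := by
    intro t _
    rw [← ex_runO]
    unfold ex
    rw [← sum_mul]
    ring
  rw [sum_congr rfl e1, ← ex_sum]
  apply ex_congr
  intro T _
  simp only [ite_mul, one_mul, zero_mul]
  rw [sum_ite_eq, if_pos]
  rw [mem_nco]
  exact nco_runO _ _ _ (nco_flatO (by omega))

theorem tendsto_muO {q : ℂ} (hq : q ^ 2 + q + 1 = 0) {n : ℕ}
    (h0 : ∑ p ∈ nco (2 * n + 1), eval (fun _ => 1) (PsiO q n p) ≠ 0) {t : ℕ → ℕ}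
    (ht : t ∈ nco (2 * n + 1)) :
    Tendsto (fun M : ℕ => muO (2 * n + 1) M t) atTop
      (𝓝 (eval (fun _ => 1) (PsiO q n t) /
        ∑ p ∈ nco (2 * n + 1), eval (fun _ => 1) (PsiO q n p))) := by
  classical
  have h1 := tendsto_avgO hq h0 (fun p => if p = t then (1 : ℂ) else 0)
  have e : ∑ p ∈ nco (2 * n + 1), eval (fun _ => 1) (PsiO q n p) * (if p = t then (1 : ℂ) else 0) =
      eval (fun _ => 1) (PsiO q n t) := by
    simp only [mul_ite, mul_one, mul_zero]
    rw [sum_ite_eq' , if_pos ht]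
  rw [e] at h1
  refine h1.congr fun M => ?_
  unfold muO
  congr 1

end TwoO

open CylArmB TwoO in
/-- The exact asymptotic probability of the three-leg event. -/
theorem tendsto_tri {m : ℕ} (hm : 0 < m) :
    Tendsto (fun M : ℕ => ex (RF 0 ((2 * m + 1 : ℕ) : ℤ) 0 M ∪ RF 0 ((2 * m : ℕ) : ℤ) (-M) 0)
      (fun ω => B2 (2 * m - 1) (loS (2 * m) M ω) (upOS (2 * m + 1) M ω))) atTop
      (𝓝 ((Num3.p3v m : ℝ) : ℂ)) := by
  obtain ⟨n, rfl⟩ : ∃ n, m = n + 1 := ⟨m - 1, by omega⟩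
  obtain ⟨q, hq⟩ : ∃ q : ℂ, q ^ 2 + q + 1 = 0 := by
    obtain ⟨z, hz⟩ := IsAlgClosed.exists_root (Polynomial.X ^ 2 + Polynomial.X + 1 : Polynomial ℂ)
      (by
        have : (Polynomial.X ^ 2 + Polynomial.X + 1 : Polynomial ℂ).degree = 2 := by compute_degree!
        rw [this]; decide)
    refine ⟨z, ?_⟩
    simpa [Polynomial.IsRoot] using hz
  have hS := sum_PsiS_ne hq (n + 1)
  have hO := sum_PsiO_ne hq (n + 1)
  have e1 : ∀ M : ℕ, ex (RF 0 ((2 * (n + 1) + 1 : ℕ) : ℤ) 0 M ∪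
      RF 0 ((2 * (n + 1) : ℕ) : ℤ) (-M) 0)
      (fun ω => B2 (2 * (n + 1) - 1) (loS (2 * (n + 1)) M ω) (upOS (2 * (n + 1) + 1) M ω)) =
      ∑ s ∈ anns (2 * (n + 1)), ∑ p ∈ nco (2 * (n + 1) + 1),
        TwoC.muM (2 * (n + 1)) M s * muO (2 * (n + 1) + 1) M p * B2 (2 * (n + 1) - 1) s p := by
    intro M
    rw [ex_twoO (2 * (n + 1) + 1) (2 * (n + 1)) M (B2 (2 * (n + 1) - 1)), iter_eqO, sum_comm]
    refine sum_congr rfl fun p _ => ?_
    rw [TwoC.iter_eq, mul_sum]
    refine sum_congr rfl fun s _ => ?_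
    ring
  simp only [e1]
  have h2 := tri_one hq n
  have e2 : ((Num3.p3v (n + 1) : ℝ) : ℂ) = ∑ s ∈ anns (2 * (n + 1)),
      ∑ p ∈ nco (2 * (n + 1) + 1),
        eval (fun _ => 1) (PsiS q (n + 1) s) /
          (∑ s ∈ anns (2 * (n + 1)), eval (fun _ => 1) (PsiS q (n + 1) s)) *
        (eval (fun _ => 1) (PsiO q (n + 1) p) /
          ∑ p ∈ nco (2 * (n + 1) + 1), eval (fun _ => 1) (PsiO q (n + 1) p)) *
        B2 (2 * (n + 1) - 1) s p := by
    rw [eq_comm, ← mul_left_inj' (mul_ne_zero hS hO), ← h2, sum_mul]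
    refine sum_congr rfl fun s _ => ?_
    rw [sum_mul]
    refine sum_congr rfl fun p _ => ?_
    rw [show 2 * (n + 1) - 1 = 2 * n + 1 by omega]
    field_simp
  rw [e2]
  refine tendsto_finsetSum _ fun s hs => ?_
  refine tendsto_finsetSum _ fun p hp => ?_
  exact ((TwoC.tendsto_muM hq hS hs).mul (tendsto_muO hq hO hp)).mul_const _

end Pool.Agent.Perc
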