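import Pool.Agent.Lib.MP_6bd702_perc3.Uni3Defs
import Pool.Agent.Lib.MP_6bd702_perc.QSchur
import Pool.Agent.Lib.MP_6bd702_perq.UniF

/-!
# Uniqueness of the three leg sums (task Uni3)
-/

set_option autoImplicit false

namespace Pool.Agent.Perc

open Finset MvPolynomial

namespace Uni3

/-- Replace the value at the place `N`. -/
def upd (N : ℕ) (x : ℂ) (w : ℕ → ℂ) : ℕ → ℂ := fun k => if k = N then x else w k

theorem insV_self (i : ℕ) (w : ℕ → ℂ) :
    insV i (w i) (w (i + 1)) (fun k => if k < i then w k else w (k + 2)) = w := by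
  funext k
  unfold insV
  by_cases h1 : k < i
  · rw [if_pos h1]
    exact if_pos h1
  · rw [if_neg h1]
    by_cases h2 : k = i
    · rw [if_pos h2, h2]
    · rw [if_neg h2]
      by_cases h3 : k = i + 1
      · rw [if_pos h3, h3]
      · rw [if_neg h3]
        refine (if_neg (by omega)).trans ?_
        congr 1
        omega

theorem ins1_self (j : ℕ) (w : ℕ → ℂ) : ins1 j (w j) (skip1 j w) = w := by
  funext k
  unfold ins1 skip1
  by_cases h1 : k < j
  · rw [if_pos h1, if_pos h1]
  · rw [if_neg h1]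
    by_cases h2 : k = j
    · rw [if_pos h2, h2]
    · rw [if_neg h2, if_neg (by omega)]
      congr 1
      omega

/-- A polynomial which vanishes at sufficiently many points of every generic line in a coordinate
direction is zero. -/
theorem eq_zero_of_lines {H : MvPolynomial ℕ ℂ} (N D : ℕ) (J : Finset ℕ)
    (hdeg : H.degreeOf N ≤ D)
    (hz : ∀ w : ℕ → ℂ, (∀ k ∈ J, w k ≠ 0) → (∀ i ∈ J, ∀ j ∈ J, w i ^ 3 = w j ^ 3 → i = j) →
      ∃ P : Finset ℂ, D < P.card ∧ ∀ x ∈ P, eval (upd N x w) H = 0) : H = 0 := by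
  classical
  let Δ : MvPolynomial ℕ ℂ := (∏ k ∈ J, X k) *
    ∏ p ∈ (J ×ˢ J).filter (fun p => p.1 ≠ p.2), (X p.1 ^ 3 - X p.2 ^ 3)
  have hΔ : Δ ≠ 0 := by
    intro h
    have h1 := congrArg (eval fun k : ℕ => ((k + 1 : ℕ) : ℂ)) h
    simp only [Δ, map_mul, map_prod, eval_X, map_sub, map_pow, map_zero] at h1
    rcases mul_eq_zero.1 h1 with h2 | h2
    · obtain ⟨k, -, hk⟩ := Finset.prod_eq_zero_iff.1 h2
      have : ((k + 1 : ℕ) : ℂ) ≠ 0 := Nat.cast_ne_zero.2 (by omega)
      exact this hk
    · obtain ⟨p, hp, hk⟩ := Finset.prod_eq_zero_iff.1 h2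
      rw [mem_filter] at hp
      have h3 : ((p.1 + 1 : ℕ) : ℂ) ^ 3 = ((p.2 + 1 : ℕ) : ℂ) ^ 3 := sub_eq_zero.1 hk
      have h4 : (p.1 + 1) ^ 3 = (p.2 + 1) ^ 3 := by exact_mod_cast h3
      have h5 := Nat.pow_left_injective (n := 3) (by norm_num) h4
      exact hp.2 (by simpa using h5)
  have hprod : H * Δ = 0 := by
    refine MvPolynomial.funext fun z => ?_
    rw [map_mul, map_zero]
    by_cases hgen : (∀ k ∈ J, z k ≠ 0) ∧ ∀ i ∈ J, ∀ j ∈ J, z i ^ 3 = z j ^ 3 → i = j
    · obtain ⟨P, hP, hP'⟩ := hz z hgen.1 hgen.2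
      have hg0 : QSchur.sub1 N z H = 0 := by
        refine Polynomial.eq_zero_of_natDegree_lt_card_of_eval_eq_zero' _ P ?_ ?_
        · intro x hx
          rw [QSchur.eval_sub1]
          exact hP' x hx
        · exact lt_of_le_of_lt ((QSchur.natDegree_sub1_le N z H).trans hdeg) hP
      have h1 := QSchur.eval_sub1 N z H (z N)
      have h2 : (fun k => if k = N then z N else z k) = z := by
        funext k
        by_cases hk : k = N
        · rw [if_pos hk, hk]
        · rw [if_neg hk]
      rw [h2, hg0, Polynomial.eval_zero] at h1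
      rw [← h1, zero_mul]
    · have h1 : eval z Δ = 0 := by
        simp only [Δ, map_mul, map_prod, eval_X, map_sub, map_pow]
        rw [not_and_or] at hgen
        rcases hgen with h | h
        · push Not at h
          obtain ⟨k, hk, h⟩ := h
          rw [Finset.prod_eq_zero hk h, zero_mul]
        · push Not at h
          obtain ⟨i, hi', j, hj', h, hij⟩ := h
          refine mul_eq_zero_of_right _ (Finset.prod_eq_zero (i := (i, j)) ?_ ?_)
          · rw [mem_filter, mem_product]
            exact ⟨⟨hi', hj'⟩, hij⟩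
          · simp only
            rw [h, sub_self]
      rw [h1, mul_zero]
  exact (mul_eq_zero.1 hprod).resolve_right hΔ

/-- Invariance under the exchange of the coordinate `k` with the last one of the first `L`. -/
theorem swap_last {L : ℕ} {H : MvPolynomial ℕ ℂ}
    (hs : ∀ i, i + 1 < L + 1 → ∀ z, eval (swapV i z) H = eval z H) {k : ℕ} (hk : k ≤ L)
    (z : ℕ → ℂ) : eval (fun j => z (Equiv.swap k L j)) H = eval z H := by
  rcases Nat.lt_or_ge k L with h | h
  · exact UniF.swap_inv hs h (by omega) z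
  · have : k = L := le_antisymm hk h
    subst this
    congr 2
    funext j
    simp

/-- Invariance under the exchange of the coordinate `k` with the first one. -/
theorem swap_first {L : ℕ} {H : MvPolynomial ℕ ℂ}
    (hs : ∀ i, i + 1 < L + 1 → ∀ z, eval (swapV i z) H = eval z H) {k : ℕ} (hk : k ≤ L)
    (z : ℕ → ℂ) : eval (fun j => z (Equiv.swap 0 k j)) H = eval z H := by
  rcases Nat.eq_zero_or_pos k with h | h
  · subst h
    congr 2
    funext j
    simp
  · exact UniF.swap_inv hs h (by omega) z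

section T

variable {q : ℂ} {m : ℕ} {H : MvPolynomial ℕ ℂ} (hq : q ^ 2 + q + 1 = 0)
  (hdeg : H.degreeOf (2 * m + 1) ≤ 2 * m + 1)
  (hs : ∀ i, i + 1 < 2 * m + 1 → ∀ z, eval (swapV i z) H = eval z H)
  (hl : ∀ v u, v ≠ 0 → eval (insV (2 * m) v (q ^ 2 * v) u) H = 0)
  (hr : ∀ v u, v ≠ 0 → eval (ins1 0 (q ^ 2 * v) (ins1 (2 * m) v u)) H = 0)

include hq hdeg hs hl hr in
theorem eq_zero_T : H = 0 := by
  have h3 := UniF.q_cube hq
  have hq0 := UniF.q_ne_zero hq
  refine eq_zero_of_lines (2 * m + 1) (2 * m + 1) (range (2 * m + 1)) hdeg ?_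
  intro w h0 hd
  refine ⟨UniF.pts q (2 * m + 1) w, ?_, ?_⟩
  · rw [UniF.card_pts hq (fun k hk => h0 k (mem_range.2 hk))
      (fun i hi j hj => hd i (mem_range.2 hi) j (mem_range.2 hj))]
    omega
  intro x hx
  rw [UniF.pts, mem_union, mem_image, mem_image] at hx
  rcases hx with ⟨k, hk, rfl⟩ | ⟨k, hk, rfl⟩
  · rw [mem_range] at hk
    -- `x = q z_k`: the seam
    rw [← swap_first (L := 2 * m) hs (k := k) (by omega)]
    set w' : ℕ → ℂ := fun j => upd (2 * m + 1) (q * w k) w (Equiv.swap 0 k j) with hw'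
    have e0 : w' 0 = w k := by
      rw [hw']
      simp only [Equiv.swap_apply_left]
      unfold upd
      rw [if_neg (by omega)]
    have e1 : w' (2 * m + 1) = q * w k := by
      rw [hw']
      simp only
      rw [Equiv.swap_apply_of_ne_of_ne (by omega) (by omega)]
      unfold upd
      rw [if_pos rfl]
    have hv : q * w k ≠ 0 := mul_ne_zero hq0 (h0 k (mem_range.2 hk))
    have h := hr (q * w k) (skip1 (2 * m) (skip1 0 w')) hv
    have e2 : ins1 (2 * m) (q * w k) (skip1 (2 * m) (skip1 0 w')) = skip1 0 w' := by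
      have : skip1 0 w' (2 * m) = q * w k := by
        unfold skip1
        rw [if_neg (by omega), e1]
      rw [← this, ins1_self]
    have e3 : q ^ 2 * (q * w k) = w' 0 := by
      rw [e0]
      linear_combination (w k) * h3
    rw [e2, e3, ins1_self] at h
    exact h
  · rw [mem_range] at hk
    rw [← swap_last (L := 2 * m) hs (k := k) (by omega)]
    set w' : ℕ → ℂ := fun j => upd (2 * m + 1) (q ^ 2 * w k) w (Equiv.swap k (2 * m) j) with hw'
    have e0 : w' (2 * m) = w k := by
      rw [hw']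
      simp only [Equiv.swap_apply_right]
      unfold upd
      rw [if_neg (by omega)]
    have e1 : w' (2 * m + 1) = q ^ 2 * w k := by
      rw [hw']
      simp only
      rw [Equiv.swap_apply_of_ne_of_ne (by omega) (by omega)]
      unfold upd
      rw [if_pos rfl]
    have h := hl (w k) (fun j => if j < 2 * m then w' j else w' (j + 2)) (h0 k (mem_range.2 hk))
    have e2 := insV_self (2 * m) w'
    rw [e0, e1] at e2
    rw [e2] at h
    exact h

end T

section S

variable {q : ℂ} {m : ℕ} {H : MvPolynomial ℕ ℂ} (hq : q ^ 2 + q + 1 = 0)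
  (hdeg : H.degreeOf (2 * m + 2) ≤ 2 * m + 4)
  (hs : ∀ i, i + 1 < 2 * m + 2 → ∀ z, eval (swapV i z) H = eval z H)
  (he : ∀ i, (i = 2 * m + 2 ∨ i = 2 * m + 3) → ∀ w,
    (q * w (i + 1) - q ^ 2 * w i) * eval (swapV i w) H =
      (q * w i - q ^ 2 * w (i + 1)) * eval w H)
  (hl : ∀ v u, v ≠ 0 → eval (insV (2 * m + 1) (q ^ 2 * v) v u) H = 0)
  (hr : ∀ v u, v ≠ 0 → eval (ins1 0 v (ins1 (2 * m + 3) (q ^ 2 * v) u)) H = 0)

theorem swapV_left (i : ℕ) (w : ℕ → ℂ) : swapV i w i = w (i + 1) := by
  unfold swapV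
  rw [Equiv.swap_apply_left]

theorem swapV_right (i : ℕ) (w : ℕ → ℂ) : swapV i w (i + 1) = w i := by
  unfold swapV
  rw [Equiv.swap_apply_right]

theorem swapV_ne {i k : ℕ} (w : ℕ → ℂ) (h1 : k ≠ i) (h2 : k ≠ i + 1) : swapV i w k = w k := by
  unfold swapV
  rw [Equiv.swap_apply_of_ne_of_ne h1 h2]

include hq hdeg hs he hl hr in
theorem eq_zero_S : H = 0 := by
  have h3 := UniF.q_cube hq
  have hq0 := UniF.q_ne_zero hq
  have hq1 := UniF.q_ne_one hq
  refine eq_zero_of_lines (2 * m + 2) (2 * m + 4)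
    (insert (2 * m + 3) (insert (2 * m + 4) (range (2 * m + 2)))) hdeg ?_
  intro w h0 hd
  have hr' : ∀ k < 2 * m + 2, k ∈ insert (2 * m + 3) (insert (2 * m + 4) (range (2 * m + 2))) :=
    fun k hk => mem_insert_of_mem (mem_insert_of_mem (mem_range.2 hk))
  have hy2 : 2 * m + 3 ∈ insert (2 * m + 3) (insert (2 * m + 4) (range (2 * m + 2))) :=
    mem_insert_self _ _
  have hy3 : 2 * m + 4 ∈ insert (2 * m + 3) (insert (2 * m + 4) (range (2 * m + 2))) :=
    mem_insert_of_mem (mem_insert_self _ _)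
  refine ⟨insert (q ^ 2 * w (2 * m + 3)) (UniF.pts q (2 * m + 2) w), ?_, ?_⟩
  · rw [card_insert_of_notMem, UniF.card_pts hq (fun k hk => h0 k (hr' k hk))
      (fun i hi j hj => hd i (hr' i hi) j (hr' j hj))]
    · omega
    · intro h
      rw [UniF.pts, mem_union, mem_image, mem_image] at h
      rcases h with ⟨k, hk, h⟩ | ⟨k, hk, h⟩
      · rw [mem_range] at hk
        have h1 : w k ^ 3 = w (2 * m + 3) ^ 3 := by
          have h2 : (q * w k) ^ 3 = (q ^ 2 * w (2 * m + 3)) ^ 3 := by rw [h]
          linear_combination h2 + (w (2 * m + 3) ^ 3 * (q ^ 3 + 1) - w k ^ 3) * h3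
        have := hd k (hr' k hk) (2 * m + 3) hy2 h1
        omega
      · rw [mem_range] at hk
        have h1 : w k = w (2 * m + 3) := mul_left_cancel₀ (pow_ne_zero 2 hq0) h
        have := hd k (hr' k hk) (2 * m + 3) hy2 (by rw [h1])
        omega
  intro x hx
  rw [mem_insert] at hx
  rcases hx with rfl | hx
  · -- the zero `y_1 = q^2 y_2`
    have h := he (2 * m + 2) (Or.inl rfl) (upd (2 * m + 2) (q ^ 2 * w (2 * m + 3)) w)
    have e1 : upd (2 * m + 2) (q ^ 2 * w (2 * m + 3)) w (2 * m + 2) = q ^ 2 * w (2 * m + 3) := by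
      unfold upd
      rw [if_pos rfl]
    have e2 : upd (2 * m + 2) (q ^ 2 * w (2 * m + 3)) w (2 * m + 2 + 1) = w (2 * m + 3) := by
      unfold upd
      rw [if_neg (by omega)]
    rw [e1, e2] at h
    have e3 : q * w (2 * m + 3) - q ^ 2 * (q ^ 2 * w (2 * m + 3)) = 0 := by
      linear_combination (-(q * w (2 * m + 3))) * h3
    have e4 : q * (q ^ 2 * w (2 * m + 3)) - q ^ 2 * w (2 * m + 3) ≠ 0 := by
      have : q * (q ^ 2 * w (2 * m + 3)) - q ^ 2 * w (2 * m + 3) =
          q ^ 2 * (q - 1) * w (2 * m + 3) := by ring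
      rw [this]
      exact mul_ne_zero (mul_ne_zero (pow_ne_zero 2 hq0) (sub_ne_zero.2 hq1))
        (h0 (2 * m + 3) hy2)
    rw [e3, zero_mul] at h
    exact (mul_eq_zero.1 h.symm).resolve_left e4
  rw [UniF.pts, mem_union, mem_image, mem_image] at hx
  rcases hx with ⟨k, hk, rfl⟩ | ⟨k, hk, rfl⟩
  · rw [mem_range] at hk
    rw [← swap_last (L := 2 * m + 1) hs (k := k) (by omega)]
    set w' : ℕ → ℂ := fun j => upd (2 * m + 2) (q * w k) w (Equiv.swap k (2 * m + 1) j) with hw'
    have e0 : w' (2 * m + 1) = w k := by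
      rw [hw']
      simp only [Equiv.swap_apply_right]
      unfold upd
      rw [if_neg (by omega)]
    have e1 : w' (2 * m + 1 + 1) = q * w k := by
      rw [hw']
      simp only
      rw [Equiv.swap_apply_of_ne_of_ne (by omega) (by omega)]
      unfold upd
      rw [if_pos rfl]
    have hv : q * w k ≠ 0 := mul_ne_zero hq0 (h0 k (hr' k hk))
    have h := hl (q * w k) (fun j => if j < 2 * m + 1 then w' j else w' (j + 2)) hv
    have e2 := insV_self (2 * m + 1) w'
    rw [e0, e1] at e2
    have e3 : q ^ 2 * (q * w k) = w k := by linear_combination (w k) * h3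
    rw [e3, e2] at h
    exact h
  · rw [mem_range] at hk
    -- `y_1 = q^2 z_k`: move `y_1` to the last place, then the seam
    have key : ∀ a : ℕ → ℂ, a (2 * m + 4) = q ^ 2 * a k → a k ≠ 0 → eval a H = 0 := by
      intro a ha hak
      rw [← swap_first (L := 2 * m + 1) hs (k := k) (by omega)]
      set w' : ℕ → ℂ := fun j => a (Equiv.swap 0 k j) with hw'
      have e0 : w' 0 = a k := by
        rw [hw']
        simp only [Equiv.swap_apply_left]
      have e1 : w' (2 * m + 4) = q ^ 2 * a k := by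
        rw [hw']
        simp only
        rw [Equiv.swap_apply_of_ne_of_ne (by omega) (by omega), ha]
      have h := hr (a k) (skip1 (2 * m + 3) (skip1 0 w')) hak
      have e2 : ins1 (2 * m + 3) (q ^ 2 * a k) (skip1 (2 * m + 3) (skip1 0 w')) = skip1 0 w' := by
        have : skip1 0 w' (2 * m + 3) = q ^ 2 * a k := by
          unfold skip1
          rw [if_neg (by omega), e1]
        rw [← this, ins1_self]
      rw [e2, ← e0, ins1_self] at h
      exact h
    set a : ℕ → ℂ := upd (2 * m + 2) (q ^ 2 * w k) w with ha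
    have a1 : a (2 * m + 2) = q ^ 2 * w k := by
      rw [ha]
      unfold upd
      rw [if_pos rfl]
    have an : ∀ j, j ≠ 2 * m + 2 → a j = w j := by
      intro j hj
      rw [ha]
      unfold upd
      rw [if_neg hj]
    have h1 := he (2 * m + 2) (Or.inl rfl) a
    have h2 := he (2 * m + 3) (Or.inr rfl) (swapV (2 * m + 2) a)
    have h4 : eval (swapV (2 * m + 3) (swapV (2 * m + 2) a)) H = 0 := by
      apply key
      · rw [swapV_right, swapV_right, a1, swapV_ne _ (by omega) (by omega),
          swapV_ne _ (by omega) (by omega), an _ (by omega)]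
      · rw [swapV_ne _ (by omega) (by omega), swapV_ne _ (by omega) (by omega), an _ (by omega)]
        exact h0 k (hr' k hk)
    rw [h4, mul_zero] at h2
    have c2 : q * swapV (2 * m + 2) a (2 * m + 3) -
        q ^ 2 * swapV (2 * m + 2) a (2 * m + 3 + 1) ≠ 0 := by
      rw [swapV_right, swapV_ne _ (by omega) (by omega), a1, an _ (by omega)]
      intro hc
      have h5 : w k = q ^ 2 * w (2 * m + 3 + 1) := by
        linear_combination hc - (w k) * h3
      have h6 : w k ^ 3 = w (2 * m + 4) ^ 3 := by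
        rw [h5]
        linear_combination (w (2 * m + 4) ^ 3 * (q ^ 3 + 1)) * h3
      have := hd k (hr' k hk) (2 * m + 4) hy3 h6
      omega
    have h5 : eval (swapV (2 * m + 2) a) H = 0 := (mul_eq_zero.1 h2.symm).resolve_left c2
    rw [h5, mul_zero] at h1
    refine (mul_eq_zero.1 h1.symm).resolve_left ?_
    rw [a1, an _ (by omega)]
    intro hc
    have h5 : w k = q ^ 2 * w (2 * m + 2 + 1) := by
      linear_combination hc - (w k) * h3
    have h6 : w k ^ 3 = w (2 * m + 3) ^ 3 := by
      rw [h5]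
      linear_combination (w (2 * m + 3) ^ 3 * (q ^ 3 + 1)) * h3
    have := hd k (hr' k hk) (2 * m + 3) hy2 h6
    omega

end S

section O

variable {q : ℂ} {m : ℕ} {H : MvPolynomial ℕ ℂ} (hq : q ^ 2 + q + 1 = 0)
  (hdeg : H.degreeOf 0 ≤ 2 * m + 2)
  (hs : ∀ i, i + 1 < 2 * m + 3 → ∀ z, eval (swapV i z) H = eval z H)
  (hi : ∀ v z, v ≠ 0 → eval (insV 0 (q ^ 2 * v) v z) H = 0)

include hs hi in
theorem zeroA {j : ℕ} (h0 : 0 < j) (hj : j < 2 * m + 3) {z : ℕ → ℂ} (h : z 0 = q ^ 2 * z j)
    (hz : z j ≠ 0) : eval z H = 0 := by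
  rw [← swap_last (L := 2 * m + 2) hs (k := 2 * m + 2) le_rfl]
  have key : ∀ w : ℕ → ℂ, w 0 = q ^ 2 * w 1 → w 1 ≠ 0 → eval w H = 0 := by
    intro w hw hw1
    have e := insV_self 0 w
    rw [hw, zero_add] at e
    have h := hi (w 1) (fun k => if k < 0 then w k else w (k + 2)) hw1
    rw [e] at h
    exact h
  have e : (fun j => z (Equiv.swap (2 * m + 2) (2 * m + 2) j)) = z := by
    funext j
    simp
  rw [e]
  by_cases h1 : j = 1
  · subst h1
    exact key z h hz
  · rw [← UniF.swap_inv hs (i := 1) (j := j) (by omega) hj z]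
    refine key _ ?_ ?_
    · rw [Equiv.swap_apply_left, Equiv.swap_apply_of_ne_of_ne (by omega) (by omega)]
      exact h
    · rw [Equiv.swap_apply_left]
      exact hz

include hq hdeg hs hi in
theorem eq_zero_O : H = 0 := by
  have h3 := UniF.q_cube hq
  have hq0 := UniF.q_ne_zero hq
  refine eq_zero_of_lines 0 (2 * m + 2) ((range (2 * m + 2)).image (fun k => k + 1)) hdeg ?_
  intro w h0 hd
  have hm : ∀ k < 2 * m + 2, k + 1 ∈ (range (2 * m + 2)).image (fun k => k + 1) :=
    fun k hk => mem_image.2 ⟨k, mem_range.2 hk, rfl⟩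
  refine ⟨UniF.pts q (2 * m + 2) (fun k => w (k + 1)), ?_, ?_⟩
  · rw [UniF.card_pts hq (fun k hk => h0 (k + 1) (hm k hk)) (fun i hi j hj h => by
      have := hd (i + 1) (hm i hi) (j + 1) (hm j hj) h
      omega)]
    omega
  intro x hx
  rw [UniF.pts, mem_union, mem_image, mem_image] at hx
  rcases hx with ⟨k, hk, rfl⟩ | ⟨k, hk, rfl⟩
  · rw [mem_range] at hk
    rw [← UniF.swap_inv hs (i := 0) (j := k + 1) (by omega) (by omega)]
    refine zeroA hs hi (j := k + 1) (by omega) (by omega) ?_ ?_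
    · rw [Equiv.swap_apply_left, Equiv.swap_apply_right]
      unfold upd
      rw [if_neg (by omega), if_pos rfl]
      linear_combination (-(w (k + 1))) * h3
    · rw [Equiv.swap_apply_right]
      unfold upd
      rw [if_pos rfl]
      exact mul_ne_zero hq0 (h0 (k + 1) (hm k hk))
  · rw [mem_range] at hk
    refine zeroA hs hi (j := k + 1) (by omega) (by omega) ?_ ?_
    · unfold upd
      rw [if_pos rfl, if_neg (by omega)]
    · unfold upd
      rw [if_neg (by omega)]
      exact h0 (k + 1) (hm k hk)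

end O

end Uni3

open Uni3

/-- The two families are determined by the relations and `S 0`. -/
theorem Rec3.unique {q : ℂ} (hq : q ^ 2 + q + 1 = 0) {κ κ' : ℕ → ℂ}
    {S T S' T' : ℕ → MvPolynomial ℕ ℂ} (h : Rec3 q κ κ' S T) (h' : Rec3 q κ κ' S' T')
    (h0 : S 0 = S' 0) (m : ℕ) : S m = S' m ∧ T (m + 1) = T' (m + 1) := by
  have hT : ∀ m, S m = S' m → T (m + 1) = T' (m + 1) := by
    intro m hm
    have : T (m + 1) - T' (m + 1) = 0 := by
      refine eq_zero_T hq (m := m) ?_ ?_ ?_ ?_
      · exact (degreeOf_sub_le _ _ _).trans (max_le (h.degT m) (h'.degT m))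
      · intro i hi w
        rw [map_sub, map_sub, h.symT m i hi, h'.symT m i hi]
      · intro v u hv
        rw [map_sub, h.leftT m v u hv, h'.leftT m v u hv, hm, sub_self]
      · intro v u hv
        rw [map_sub, h.seamT m v u hv, h'.seamT m v u hv, hm, sub_self]
    exact sub_eq_zero.1 this
  have hS : ∀ m, S m = S' m := by
    intro m
    induction m with
    | zero => exact h0
    | succ m ih =>
      have : S (m + 1) - S' (m + 1) = 0 := by
        refine eq_zero_S hq (m := m) ?_ ?_ ?_ ?_ ?_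
        · exact (degreeOf_sub_le _ _ _).trans (max_le (h.degS m) (h'.degS m))
        · intro i hi w
          rw [map_sub, map_sub, h.symS m i hi, h'.symS m i hi]
        · intro i hi w
          rw [map_sub, map_sub, mul_sub, mul_sub, h.excS m i hi, h'.excS m i hi]
        · intro v u hv
          rw [map_sub, h.leftS m v u hv, h'.leftS m v u hv, hT m ih, sub_self]
        · intro v u hv
          rw [map_sub, h.seamS m v u hv, h'.seamS m v u hv, hT m ih, sub_self]
      exact sub_eq_zero.1 this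
  exact ⟨hS m, hT m (hS m)⟩

theorem RecO.unique {q : ℂ} (hq : q ^ 2 + q + 1 = 0) {c : ℕ → ℂ} {F G : ℕ → MvPolynomial ℕ ℂ}
    (hF : RecO q c F) (hG : RecO q c G) (h0 : F 0 = G 0) (m : ℕ) : F m = G m := by
  induction m with
  | zero => exact h0
  | succ m ih =>
    have : F (m + 1) - G (m + 1) = 0 := by
      refine eq_zero_O hq (m := m) ?_ ?_ ?_
      · exact (degreeOf_sub_le _ _ _).trans (max_le (hF.deg m) (hG.deg m))
      · intro i hi w
        rw [map_sub, map_sub, hF.symm m i hi, hG.symm m i hi]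
      · intro v u hv
        rw [map_sub, hF.ins m v u hv, hG.ins m v u hv, ih, sub_self]
    exact sub_eq_zero.1 this

end Pool.Agent.Perc
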