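import Pool.Agent.Lib.MP_6bd702_perc.Wheel

/-!
# The relations of the three leg sums: definitions

`S m` has the `2m+3` variables `z_0, …, z_{2m-1}, y_1, y_2, y_3`; `T m` (`m ≥ 1`) has the `2m+2`
variables `z_0, …, z_{2m-2}, x, y_1, y_2`.
-/

set_option autoImplicit false

namespace Pool.Agent.Perc

open Finset MvPolynomial

/-- Insert the value `x` at the place `j`. -/
def ins1 (j : ℕ) (x : ℂ) (u : ℕ → ℂ) : ℕ → ℂ := fun k =>
  if k < j then u k else if k = j then x else u (k - 1)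

/-- Omit the place `j`. -/
def skip1 (j : ℕ) (w : ℕ → ℂ) : ℕ → ℂ := fun k => if k < j then w k else w (k + 1)

/-- The relations which determine the two families from `S 0`. -/
structure Rec3 (q : ℂ) (κ κ' : ℕ → ℂ) (S T : ℕ → MvPolynomial ℕ ℂ) : Prop where
  degS : ∀ m, (S (m + 1)).degreeOf (2 * m + 2) ≤ 2 * m + 4
  degT : ∀ m, (T (m + 1)).degreeOf (2 * m + 1) ≤ 2 * m + 1
  symS : ∀ m i, i + 1 < 2 * m + 2 → ∀ w, eval (swapV i w) (S (m + 1)) = eval w (S (m + 1))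
  symT : ∀ m i, i + 1 < 2 * m + 1 → ∀ w, eval (swapV i w) (T (m + 1)) = eval w (T (m + 1))
  excS : ∀ m i, (i = 2 * m + 2 ∨ i = 2 * m + 3) → ∀ w,
    (q * w (i + 1) - q ^ 2 * w i) * eval (swapV i w) (S (m + 1)) =
      (q * w i - q ^ 2 * w (i + 1)) * eval w (S (m + 1))
  leftS : ∀ m v u, v ≠ 0 → eval (insV (2 * m + 1) (q ^ 2 * v) v u) (S (m + 1)) =
    κ m * v * (∏ j ∈ range (2 * m + 3), (u j - q * v) ^ 2) *
      eval (ins1 (2 * m + 1) (q ^ 2 * v) u) (T (m + 1))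
  seamS : ∀ m v u, v ≠ 0 → eval (ins1 0 v (ins1 (2 * m + 3) (q ^ 2 * v) u)) (S (m + 1)) =
    κ m * v * (∏ j ∈ range (2 * m + 3), (u j - q * v) ^ 2) *
      eval (ins1 (2 * m + 1) v u) (T (m + 1))
  leftT : ∀ m v u, v ≠ 0 → eval (insV (2 * m) v (q ^ 2 * v) u) (T (m + 1)) =
    κ' m * v * (∏ j ∈ range (2 * m), (u j - q * v) ^ 2) * eval (ins1 (2 * m) v u) (S m)
  seamT : ∀ m v u, v ≠ 0 → eval (ins1 0 (q ^ 2 * v) (ins1 (2 * m) v u)) (T (m + 1)) =
    κ' m * v * (∏ j ∈ range (2 * m), (u j - q * v) ^ 2) *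
      eval (ins1 (2 * m + 2) (q ^ 2 * v) u) (S m)

/-- The relations which determine the sum of the components for an odd number `2m+1` of sites
from `F 0`. -/
structure RecO (q : ℂ) (c : ℕ → ℂ) (F : ℕ → MvPolynomial ℕ ℂ) : Prop where
  deg : ∀ m, (F (m + 1)).degreeOf 0 ≤ 2 * m + 2
  symm : ∀ m i, i + 1 < 2 * m + 3 → ∀ z, eval (swapV i z) (F (m + 1)) = eval z (F (m + 1))
  ins : ∀ m v z, v ≠ 0 → eval (insV 0 (q ^ 2 * v) v z) (F (m + 1)) =
    c m * v * (∏ k ∈ range (2 * m + 1), (z k - q * v) ^ 2) * eval z (F m)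

end Pool.Agent.Perc
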