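import Pool.Agent.Lib.MP_6bd702_perc3.Loop

/-!
# The square grid and the cover: strands which avoid a corridor
-/

set_option autoImplicit false

namespace Pool.Agent.Perc3

open Finset Pool.Agent.Perc

/-- `N` on the faces of `X` and `ν` on the unit edges are compatible with the cover. -/
def IsInd (X : Set (ℤ × ℤ)) (N : ℤ × ℤ → ℤ) (ν : UE → ℤ) : Prop :=
  ∀ f ∈ X, ∀ a, IsSide f a → lft (f, N f) a = (a, ν a)

theorem IsInd.sub_const {X : Set (ℤ × ℤ)} {N : ℤ × ℤ → ℤ} {ν : UE → ℤ} (h : IsInd X N ν) (m : ℤ) :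
    IsInd X (fun f => N f - m) (fun a => ν a - m) := by
  intro f hf a ha
  have h1 := h f hf a ha
  unfold lft at h1 ⊢
  simp only [Prod.mk.injEq, true_and] at h1 ⊢
  split_ifs at h1 ⊢ <;> omega

theorem IsInd.mono {X X' : Set (ℤ × ℤ)} {N : ℤ × ℤ → ℤ} {ν : UE → ℤ} (h : IsInd X N ν)
    (hX : X' ⊆ X) : IsInd X' N ν := fun f hf => h f (hX hf)

/-- The configuration on the cover of the configuration `ω` on the grid with Burgers vector `c`. -/
def lcf (c : ℤ) (ω : Cfg) : LF → Bool := fun s => ω (pj c s)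

theorem lcf_zero (ω : Cfg) (s : LF) : lcf 0 ω s = ω s.1 := by
  unfold lcf pj
  rw [zero_mul, add_zero]

theorem Mt_const {ω : Cfg} {ζ : LF → Bool} {s : LF} (h : ζ s = ω s.1) {a a' : UE} :
    Mt (fun _ => ζ s) s.1 a a' ↔ Mt ω s.1 a a' := by
  unfold Mt
  rw [h]

section lift

variable {ω : Cfg} {F : Set (ℤ × ℤ)} {Ft : Set LF} {b : UE} {N : ℤ × ℤ → ℤ} {ν : UE → ℤ}

theorem lft_eq_imp {f : ℤ × ℤ} {n m : ℤ} {a : UE} (h : lft (f, n) a = lft (f, m) a) : n = m := by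
  unfold lft at h
  simp only [Prod.mk.injEq, true_and] at h
  split_ifs at h <;> omega

/-- Lifting of a component. -/
theorem ML_of_MM (hI : IsInd (SS ω F b) N ν) (hF : ∀ f ∈ SS ω F b, (f, N f) ∈ Ft) {a : UE}
    (ha : a ∈ MM ω F b) : (a, ν a) ∈ ML (lcf 0 ω) Ft {(b, ν b)} := by
  induction ha with
  | refl => exact mem_ML_of_mem rfl
  | @tail x y hx hs ih =>
    obtain ⟨f, hf, hm⟩ := hs
    have hS : f ∈ SS ω F b := ⟨hf, x, hx, hm.left⟩
    refine ML_step (s := (f, N f)) (hF f hS) ?_ ih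
    refine ⟨x, y, ?_, (hI f hS x hm.left).symm, (hI f hS y hm.right).symm⟩
    rw [Mt_const (lcf_zero ω _)]
    exact hm

/-- Projection of a lifted component. -/
theorem MM_of_ML (hI : IsInd (SS ω F b) N ν) (hF : ∀ s ∈ Ft, s.1 ∈ F) {c : LE}
    (hc : c ∈ ML (lcf 0 ω) Ft {(b, ν b)}) : c.1 ∈ MM ω F b ∧ c.2 = ν c.1 := by
  refine ML_induction (P := fun c => c.1 ∈ MM ω F b ∧ c.2 = ν c.1) ?_ ?_ c hc
  · rintro c rfl
    exact ⟨mem_MM_self, rfl⟩
  · rintro c c' ⟨f, n⟩ hs ⟨a, a', hm, rfl, rfl⟩ _ ⟨h1, h2⟩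
    rw [Mt_const (lcf_zero ω _)] at hm
    have hf : f ∈ F := hF _ hs
    have hS : f ∈ SS ω F b := ⟨hf, a, h1, hm.left⟩
    have h3 : lft (f, n) a = lft (f, N f) a := by
      rw [hI f hS a hm.left]
      exact Prod.ext rfl h2
    have h4 := lft_eq_imp h3
    subst h4
    have h5 := hI f hS a' hm.right
    refine ⟨MM_step hf hm h1, ?_⟩
    rw [h5]

/-- The visited lifted faces. -/
theorem SL_iff (hI : IsInd (SS ω F b) N ν) (hF : ∀ s ∈ Ft, s.1 ∈ F)
    (hF' : ∀ f ∈ SS ω F b, (f, N f) ∈ Ft) {s : LF} :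
    s ∈ SL (lcf 0 ω) Ft {(b, ν b)} ↔ s.1 ∈ SS ω F b ∧ s.2 = N s.1 := by
  obtain ⟨f, n⟩ := s
  constructor
  · rintro ⟨hs, a, ha, hm⟩
    obtain ⟨h1, h2⟩ := MM_of_ML hI hF hm
    have hS : f ∈ SS ω F b := ⟨hF _ hs, a, h1, ha⟩
    refine ⟨hS, ?_⟩
    have h3 : lft (f, n) a = lft (f, N f) a := by
      rw [hI f hS a ha]
      exact Prod.ext rfl h2
    exact lft_eq_imp h3
  · rintro ⟨hS, hn⟩
    simp only at hS hn
    subst hn
    obtain ⟨hf, a, ha, hsd⟩ := hS
    refine ⟨hF' f ⟨hf, a, ha, hsd⟩, a, hsd, ?_⟩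
    rw [hI f ⟨hf, a, ha, hsd⟩ a hsd]
    exact ML_of_MM hI hF' ha

end lift

theorem ML_union {ζ : LF → Bool} {Ft : Set LF} {E E' : Set LE} :
    ML ζ Ft (E ∪ E') = ML ζ Ft E ∪ ML ζ Ft E' := by
  ext c
  constructor
  · rintro ⟨e, he | he, hr⟩
    · exact Or.inl ⟨e, he, hr⟩
    · exact Or.inr ⟨e, he, hr⟩
  · rintro (⟨e, he, hr⟩ | ⟨e, he, hr⟩)
    · exact ⟨e, Or.inl he, hr⟩
    · exact ⟨e, Or.inr he, hr⟩

theorem SL_union {ζ : LF → Bool} {Ft : Set LF} {E E' : Set LE} :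
    SL ζ Ft (E ∪ E') = SL ζ Ft E ∪ SL ζ Ft E' := by
  ext s
  unfold SL
  rw [ML_union]
  constructor
  · rintro ⟨hs, a, ha, h | h⟩
    · exact Or.inl ⟨hs, a, ha, h⟩
    · exact Or.inr ⟨hs, a, ha, h⟩
  · rintro (⟨hs, a, ha, h⟩ | ⟨hs, a, ha, h⟩)
    · exact ⟨hs, a, ha, Or.inl h⟩
    · exact ⟨hs, a, ha, Or.inr h⟩

/-- A set of lifted faces over `X` with indices given by a bounded function `N` which is equal on
faces of the same half plane at distance less than `D` is thick. -/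
theorem thick_of_sep {S : Set LF} {X : Set (ℤ × ℤ)} {N : ℤ × ℤ → ℤ} {k n₀ D : ℤ} (hk : 0 ≤ k)
    (hS : ∀ s ∈ S, s.1 ∈ X ∧ s.2 = N s.1) (hN : ∀ f ∈ X, |N f| ≤ n₀) (hD : k * (2 * n₀) ≤ D)
    (hsep : ∀ f ∈ X, ∀ f' ∈ X, (0 ≤ f.2 ↔ 0 ≤ f'.2) → |f.1 - f'.1| < D → |f.2 - f'.2| < D →
      N f = N f') : Thick k S := by
  intro s hs s' hs' hh
  obtain ⟨h1, h2⟩ := hS s hs
  obtain ⟨h1', h2'⟩ := hS s' hs'
  by_cases hd : |s.1.1 - s'.1.1| < D ∧ |s.1.2 - s'.1.2| < D
  · rw [h2, h2', hsep _ h1 _ h1' hh hd.1 hd.2, sub_self, abs_zero, mul_zero]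
    exact le_max_of_le_left (abs_nonneg _)
  · have h3 : D ≤ max |s.1.1 - s'.1.1| |s.1.2 - s'.1.2| := by
      rw [le_max_iff]
      by_contra hc
      rw [not_or, not_le, not_le] at hc
      exact hd hc
    refine le_trans (le_trans ?_ hD) h3
    refine mul_le_mul_of_nonneg_left ?_ hk
    rw [h2, h2']
    have h4 := hN _ h1
    have h5 := hN _ h1'
    rw [abs_le] at h4 h5 ⊢
    constructor <;> linarith

/-! ### The annulus -/

/-- The faces of the rectangle `[-L, L] × [-w, w]` outside the box of radius `d`. -/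
noncomputable def AnF (L w d : ℤ) : Finset (ℤ × ℤ) := RF (-L) L (-w) w \ RF (-d) d (-d) d

theorem mem_AnF {L w d : ℤ} {f : ℤ × ℤ} : f ∈ AnF L w d ↔
    (-L ≤ f.1 ∧ f.1 < L ∧ -w ≤ f.2 ∧ f.2 < w) ∧
      ¬ (-d ≤ f.1 ∧ f.1 < d ∧ -d ≤ f.2 ∧ f.2 < d) := by
  unfold AnF
  rw [mem_sdiff, mem_RF, mem_RF]

variable {L w d : ℤ} {u : ℤ × ℤ} {l : List (ℤ × ℤ)}

/-- A side of a face of the annulus is not on the path in the inner box. -/
theorem side_inn (hd : 1 < d) (hc : Corr L w d u l) {f : ℤ × ℤ} (hf : f ∈ AnF L w d) {a : UE}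
    (ha : IsSide f a) : ¬ OnPath (-1, 0) [(u.1, 0), u] a := by
  intro h
  have h1 := inn_out hd hc.inn h
  rw [mem_AnF] at hf
  obtain ⟨i, j⟩ := f
  rcases ha with rfl | rfl | rfl | rfl
  · simp only [bo] at h1 hf
    simp at h1
    omega
  · simp only [le'] at h1 hf
    simp at h1
    omega
  · simp only [to'] at h1 hf
    simp at h1
    omega
  · simp only [ri] at h1 hf
    simp at h1
    omega

/-- A side of a face of the rectangle is not on the path outside. -/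
theorem side_outp (hL : 0 ≤ L) (hw : 0 ≤ w) (hc : Corr L w d u l) {f : ℤ × ℤ}
    (hf : f ∈ AnF L w d) {a : UE} (ha : IsSide f a) :
    ¬ OnPath (lst u l) (outp L w (lst u l)) a := by
  intro h
  rw [mem_AnF] at hf
  obtain ⟨i, j⟩ := f
  rcases ha with rfl | rfl | rfl | rfl
  · have h1 := outp_out hL hw hc.out h (by simp only [bo]; omega) (by simp only [bo]; omega)
      (by simp only [bo]; omega) (by simp only [bo]; omega)
    simp only [bo] at h1 hf
    omega
  · have h1 := outp_out hL hw hc.out h (by simp only [le']; omega) (by simp only [le']; omega)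
      (by simp only [le']; omega) (by simp only [le']; omega)
    simp only [le'] at h1 hf
    omega
  · have h1 := outp_out hL hw hc.out h (by simp only [to']; omega) (by simp only [to']; omega)
      (by simp only [to']; omega) (by simp only [to']; omega)
    simp only [to'] at h1 hf
    omega
  · have h1 := outp_out hL hw hc.out h (by simp only [ri]; omega) (by simp only [ri]; omega)
      (by simp only [ri]; omega) (by simp only [ri]; omega)
    simp only [ri] at h1 hf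
    omega

/-- The index with respect to a corridor is compatible with the cover. -/
theorem isInd_ind (hd : 1 < d) (hL : 0 ≤ L) (hw : 0 ≤ w) (hc : Corr L w d u l)
    {X : Set (ℤ × ℤ)} (hX : X ⊆ AnF L w d)
    (hfar : ∀ f ∈ X, ∀ a, IsSide f a → ¬ OnPath u l a) :
    IsInd X (ind L w u l) (indE L w u l) := by
  intro f hf a ha
  have hfA : f ∈ AnF L w d := hX hf
  have h1 := side_inn hd hc hfA ha
  have h2 := hfar f hf a ha
  have h3 := side_outp hL hw hc hfA ha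
  rw [mem_AnF] at hfA
  obtain ⟨i, j⟩ := f
  simp only at hfA
  unfold lft indE
  rcases ha with rfl | rfl | rfl | rfl
  · simp only [bo, IsCut]
    rw [if_neg (by omega)]
  · simp only [le', IsCut, Bool.true_eq_false, false_and, if_false]
  · simp only [to'] at h1 h2 h3 ⊢
    have h4 := ind_hor hc hL h1 h2 h3
    rw [add_sub_cancel_right] at h4
    simp only [IsCut, Prod.mk.injEq, true_and]
    split_ifs at h4 ⊢ <;> omega
  · simp only [ri] at h1 h2 h3 ⊢
    have h4 := ind_ver hc h1 h2 h3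
    rw [add_sub_cancel_right] at h4
    simp only [IsCut, Bool.true_eq_false, false_and, if_false, Prod.mk.injEq, true_and]
    exact h4

end Pool.Agent.Perc3
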